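import Mathlib
import Pool.Agent.Parker.Defs

/-!
# MP_6c3636_al, groups of Lie type in characteristic two: definitions (helper7)

Paper proof: docs proof/MP_6c3636_al_LIE. `G` is an ambient group, all groups are subgroups of `G`, all algebras
are subsets of the group algebra `Al k G`. `LieSys G E` is the system of section 1.
-/

namespace LieP

noncomputable section

open Classical

section Algebra

/-- the group algebra -/
abbrev Al (k G : Type) [Field k] [Group G] : Type := MonoidAlgebra k G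

variable {k : Type} [Field k] {G : Type} [Group G]

/-- the element `g` of the group algebra -/
def dl (g : G) : Al k G := MonoidAlgebra.single g 1

/-- the coefficient of `1` -/
def t (a : Al k G) : k := a.coeff 1

/-- the elements with support in the subgroup `H` -/
def sb (k : Type) [Field k] {G : Type} [Group G] (H : Subgroup G) : Subalgebra k (Al k G) where
  carrier := {a | ∀ g, g ∉ H → a.coeff g = 0}
  mul_mem' := by
    intro a b ha hb g hg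
    show (a * b).coeff g = 0
    rw [MonoidAlgebra.coeff_mul]
    simp only [Finsupp.sum]
    refine Finset.sum_eq_zero fun x hx => Finset.sum_eq_zero fun y hy => ?_
    split_ifs with h
    · by_cases h1 : x ∈ H
      · have h2 : y ∉ H := fun h3 => hg (h ▸ H.mul_mem h1 h3)
        rw [hb y h2, mul_zero]
      · rw [ha x h1, zero_mul]
    · rfl
  add_mem' := by
    intro a b ha hb g hg
    show a.coeff g + b.coeff g = 0
    rw [ha g hg, hb g hg, add_zero]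
  algebraMap_mem' := by
    intro r g hg
    have h1 : g ≠ 1 := fun h => hg (h ▸ H.one_mem)
    simp [MonoidAlgebra.coe_algebraMap, MonoidAlgebra.coeff_single, h1.symm]

/-- an element given by its coefficients -/
def mk [Finite G] (f : G → k) : Al k G := MonoidAlgebra.ofCoeff (Finsupp.equivFunOnFinite.symm f)

/-- the involution -/
def st [Finite G] (a : Al k G) : Al k G := mk fun g => a.coeff g⁻¹

/-- the average of the subgroup `H` -/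
def av [Finite G] (k : Type) [Field k] (H : Subgroup G) : Al k G :=
  mk fun g => if g ∈ H then (Nat.card H : k)⁻¹ else 0

/-- the idempotent of the linear character `l` (with values `1`, `-1`) of the subgroup `U` -/
def el [Finite G] (k : Type) [Field k] (U : Subgroup G) (l : G → ℤˣ) : Al k G :=
  mk fun g => if g ∈ U then (Nat.card U : k)⁻¹ * (((l g : ℤˣ) : ℤ) : k) else 0

/-- `l` is a homomorphism on `U` -/
def Lin (U : Subgroup G) (l : G → ℤˣ) : Prop := ∀ u ∈ U, ∀ v ∈ U, l (u * v) = l u * l v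

/-- the value of the function `φ` at an element of the group algebra -/
def tr (φ : G → k) : Al k G →ₗ[k] k where
  toFun a := a.coeff.sum fun g c => c * φ g
  map_add' a b := by
    show (a.coeff + b.coeff).sum _ = _
    exact Finsupp.sum_add_index' (fun _ => zero_mul _) (fun _ _ _ => add_mul _ _ _)
  map_smul' r a := by
    show (r • a.coeff).sum _ = r * _
    rw [Finsupp.sum_smul_index (fun _ => zero_mul _), Finsupp.sum, Finsupp.sum, Finset.mul_sum]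
    exact Finset.sum_congr rfl fun _ _ => mul_assoc _ _ _

end Algebra

section Characters

variable {Ω : Type} [Field Ω] {G : Type} [Group G] [Finite G]

/-- extension by zero of a function on a subgroup -/
def xt (H : Subgroup G) (φ : H → Ω) : G → Ω := fun g => if h : g ∈ H then φ ⟨g, h⟩ else 0

/-- the irreducible characters of the subgroup `H`, extended by zero -/
def ir (Ω : Type) [Field Ω] (H : Subgroup G) : Finset (G → Ω) := (Parker.irr Ω H).image (xt H)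

/-- the central idempotent of the character `φ` of `H` -/
def cen (H : Subgroup G) (φ : G → Ω) : Al Ω G :=
  mk fun g => φ 1 * (Nat.card H : Ω)⁻¹ * φ g⁻¹

/-- the rank of the idempotent `a` in the representation with character `φ` -/
def rk (φ : G → Ω) (a : Al Ω G) : ℕ := if h : ∃ n : ℕ, (n : Ω) = tr φ a then h.choose else 0

/-- the conjugate character -/
def cjg (n : G) (φ : G → Ω) : G → Ω := fun g => φ (n⁻¹ * g * n)

end Characters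

/-- systems (section 1) -/
structure LieSys (G E : Type) [Group G] [NormedAddCommGroup E] [InnerProductSpace ℝ E] where
  /-- the group -/
  H : Subgroup G
  /-- the roots -/
  R : Finset E
  /-- the monomial subgroup -/
  N : Subgroup G
  /-- the action of `N` -/
  ac : G → E ≃ₗᵢ[ℝ] E
  /-- the unipotent radicals -/
  U : E → Subgroup G
  /-- the Levi subgroups -/
  L : E → Subgroup G
  /-- the simple roots -/
  Dl : E → Finset E
  neg : ∀ a ∈ R, -a ∈ R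
  ne : ∀ a ∈ R, a ≠ 0
  NH : N ≤ H
  UH : ∀ x, U x ≤ H
  LH : ∀ x, L x ≤ H
  ac_one : ac 1 = 1
  ac_mul : ∀ m ∈ N, ∀ n ∈ N, ac (m * n) = ac m * ac n
  s1 : ∀ x x' y z, (∀ a ∈ R, inner ℝ a z = 0 → 0 < inner ℝ a x → 0 < inner ℝ a x' → 0 < inner ℝ a y) →
    ∀ g ∈ U x, g ∈ U x' → g ∈ L z → g ∈ U y
  s2 : ∀ x y w, (∀ a ∈ R, inner ℝ a x = 0 → inner ℝ a y = 0 → inner ℝ a w = 0) →
    ∀ g ∈ L x, g ∈ L y → g ∈ L w
  s3 : L 0 = H
  s4 : ∀ x, ∀ l ∈ L x, ∀ u ∈ U x, l * u * l⁻¹ ∈ U x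
  s4' : ∀ x, ∀ l ∈ L x, ∀ v ∈ U (-x), l * v ∈ U x → l * v = 1
  s5U : ∀ x y, ∀ l ∈ L x, ∀ u ∈ U x, l * u ∈ U y → l ∈ U y
  s5L : ∀ x y, ∀ l ∈ L x, ∀ u ∈ U x, l * u ∈ L y → l ∈ L y
  s5P : ∀ x y, ∀ l ∈ L x, ∀ u ∈ U x, (∃ m ∈ L y, ∃ v ∈ U y, l * u = m * v) →
    ∃ m ∈ L y, ∃ v ∈ U y, l = m * v
  s6 : ∀ x y z, ∀ u ∈ U y ⊓ L z, ∃ a ∈ U y ⊓ L z, ∃ b ∈ U y ⊓ L z, ∃ c ∈ U y ⊓ L z,
    a ∈ U x ∧ b ∈ L x ∧ c ∈ U (-x) ∧ u = a * b * c
  s7U : ∀ n ∈ N, ∀ x, ∀ u ∈ U x, n * u * n⁻¹ ∈ U (ac n x)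
  s7L : ∀ n ∈ N, ∀ x, ∀ u ∈ L x, n * u * n⁻¹ ∈ L (ac n x)
  s7R : ∀ n ∈ N, ∀ a ∈ R, ac n a ∈ R
  s8 : ∀ n ∈ N, ∀ x, (∃ v ∈ U (-x), ∃ l ∈ L x, ∃ u ∈ U x, n = v * l * u) → ac n x = x
  s8' : ∀ n ∈ N, ∀ x, ac n x = x → n ∈ L x
  s9 : ∀ z z', (∀ a ∈ R, inner ℝ a z ≠ 0) → (∀ a ∈ R, inner ℝ a z' ≠ 0) → ∀ g ∈ H,
    ∃ u ∈ U z, ∃ l ∈ L z, ∃ n ∈ N, ∃ l' ∈ L z', ∃ u' ∈ U z', g = u * l * n * l' * u'
  s10 : ∀ a ∈ R, ∃ g : G, g ≠ 1 ∧ ∀ x, (0 < inner ℝ a x → g ∈ U x) ∧ (inner ℝ a x = 0 → g ∈ L x)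
  s11 : ∀ x, ∀ u ∈ U x, ∃ k : ℕ, u ^ (2 ^ k) = 1
  s11' : ∀ z, (∀ a ∈ R, inner ℝ a z ≠ 0) → Odd (Nat.card (L z))
  s12 : ∀ z z', (∀ a ∈ R, inner ℝ a z ≠ 0) → (∀ a ∈ R, inner ℝ a z' ≠ 0) →
    ∃ n ∈ N, ∀ a ∈ R, (0 < inner ℝ a (ac n z) ↔ 0 < inner ℝ a z')
  s13 : ∀ z, (∀ a ∈ R, inner ℝ a z ≠ 0) → ∀ n ∈ N, ∀ y,
    (∀ a ∈ R, 0 < inner ℝ a y → 0 < inner ℝ a z) →
    (∀ a ∈ R, 0 < inner ℝ a (ac n y) → 0 < inner ℝ a z) → ac n y = y
  s14 : ∀ z, (∀ a ∈ R, inner ℝ a z ≠ 0) → ∀ a ∈ Dl z, a ∈ R ∧ 0 < inner ℝ a z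
  s14' : ∀ z, (∀ a ∈ R, inner ℝ a z ≠ 0) → ∀ J ⊆ Dl z, ∃ y, (∀ a ∈ J, inner ℝ a y = 0) ∧
    ∀ a ∈ Dl z, a ∉ J → 0 < inner ℝ a y
  s14'' : ∀ z, (∀ a ∈ R, inner ℝ a z ≠ 0) → ∀ a ∈ R, 0 < inner ℝ a z →
    ∃ c : E → ℝ, (∀ b ∈ Dl z, 0 ≤ c b) ∧ a = ∑ b ∈ Dl z, c b • b
  w0 : ∀ z, (∀ a ∈ R, inner ℝ a z ≠ 0) → ∀ u ∈ U z, u * u ∈ (⁅U z, U z⁆ : Subgroup G)
  w1 : ∀ z, (∀ a ∈ R, inner ℝ a z ≠ 0) → ∀ l : G → ℤˣ, Lin (U z) l → ∀ y y',
    (∀ a ∈ R, 0 < inner ℝ a y → 0 < inner ℝ a z) → (∀ a ∈ R, 0 < inner ℝ a y' → 0 < inner ℝ a z) →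
    (∀ u ∈ U y, l u = 1) → (∀ u ∈ U y', l u = 1) → ∀ u ∈ U (y + y'), l u = 1
  w2 : ∀ z, (∀ a ∈ R, inner ℝ a z ≠ 0) → ∀ l l' : G → ℤˣ, Lin (U z) l → Lin (U z) l' →
    (∀ y, (∀ a ∈ R, 0 < inner ℝ a y → 0 < inner ℝ a z) →
      ((∀ u ∈ U y, l u = 1) ↔ ∀ u ∈ U y, l' u = 1)) →
    ∃ s ∈ L z, ∀ u ∈ U z, l' u = l (s * u * s⁻¹)
  w3 : ∀ z, (∀ a ∈ R, inner ℝ a z ≠ 0) → ∀ l : G → ℤˣ, Lin (U z) l → ∀ x y,
    (∀ u ∈ U z, u ∈ U x → l u = 1) → (∀ a ∈ R, 0 < inner ℝ a y → 0 < inner ℝ a z) →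
    (∀ a ∈ Dl z, 0 < inner ℝ a y → 0 < inner ℝ a x) → ∀ u ∈ U y, l u = 1
  w4 : ∀ z, (∀ a ∈ R, inner ℝ a z ≠ 0) → ∀ y, (∀ a ∈ R, 0 < inner ℝ a y → 0 < inner ℝ a z) →
    ∀ l : G → ℤˣ, Lin (U z ⊓ L y) l →
    (∀ y', (∀ a ∈ R, 0 < inner ℝ a y' → 0 < inner ℝ a z) → (∀ u ∈ U y', u ∈ L y → l u = 1) →
      ∀ a ∈ R, inner ℝ a y = 0 → inner ℝ a y' = 0) →
    ∀ [Finite G] (k : Type) [Field k] [CharZero k], ∀ a ∈ sb k (L y), ∀ b ∈ sb k (L y),
      el k (U z ⊓ L y) l * a * el k (U z ⊓ L y) l * b * el k (U z ⊓ L y) l =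
        el k (U z ⊓ L y) l * b * el k (U z ⊓ L y) l * a * el k (U z ⊓ L y) l

namespace LieSys

variable {G E : Type} [Group G] [NormedAddCommGroup E] [InnerProductSpace ℝ E] (S : LieSys G E)

/-- the roots vanishing at `x` -/
def Z (x : E) : Finset E := S.R.filter fun a => inner ℝ a x = 0

/-- `x` is a face of `y` -/
def le (x y : E) : Prop := ∀ a ∈ S.R, 0 < inner ℝ a x → 0 < inner ℝ a y

/-- `x` and `y` are in the same facet -/
def eqv (x y : E) : Prop := S.le x y ∧ S.le y x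

/-- `z` is generic -/
def gn (z : E) : Prop := ∀ a ∈ S.R, inner ℝ a z ≠ 0

/-- the parabolic subgroup -/
def P (x : E) : Subgroup G := S.L x ⊔ S.U x

/-- a small number -/
def eps (x y : E) : ℝ :=
  if h : ∃ r : ℝ, 0 < r ∧ ∀ a ∈ S.R, (0 < inner ℝ a x → 0 < inner ℝ a (x + r • y)) then h.choose else 1

/-- the facet with the signs of `x`, and those of `y` where `x` vanishes -/
def cm (x y : E) : E := x + S.eps x y • y

/-- the space of the points where the roots in `Z x` vanish -/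
def X (x : E) : Submodule ℝ E where
  carrier := {y | ∀ a ∈ S.R, inner ℝ a x = 0 → inner ℝ a y = 0}
  add_mem' := by
    intro y y' h h' a ha h0
    rw [inner_add_right, h a ha h0, h' a ha h0, add_zero]
  zero_mem' := fun a _ _ => inner_zero_right a
  smul_mem' := by
    intro c y h a ha h0
    rw [inner_smul_right, h a ha h0, mul_zero]

/-- `Z y = Z x` -/
def Reg (x y : E) : Prop := ∀ a ∈ S.R, (inner ℝ a y = 0 ↔ inner ℝ a x = 0)

/-- the average of `U x` -/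
def e [Finite G] (k : Type) [Field k] (x : E) : Al k G := av k (S.U x)

/-- `l` is a regular character of `U z` -/
def Rg (z : E) (l : G → ℤˣ) : Prop :=
  Lin (S.U z) l ∧ ∀ y, S.le y z → (∀ u ∈ S.U y, l u = 1) → ∀ a ∈ S.R, inner ℝ a y = 0

/-- the dimension of the space of the Whittaker vectors -/
def gen [Finite G] {Ω : Type} [Field Ω] (φ : G → Ω) : ℕ :=
  if h : ∃ (z : E) (l : G → ℤˣ), S.gn z ∧ S.Rg z l then
    rk φ (el Ω (S.U h.choose) h.choose_spec.choose) else 0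

/-- cuspidal idempotents (section 4) -/
structure Cs [Finite G] (k : Type) [Field k] where
  /-- the point -/
  x : E
  /-- the idempotent -/
  ε : Al k G
  mem : ε ∈ sb k (S.L x)
  idem : ε * ε = ε
  ne : ε ≠ 0
  prim : ∀ a ∈ sb k (S.L x), ∃ r : k, ε * a * ε = r • ε
  lft : ∀ y, (∃ g ∈ S.U y, g ∈ S.L x ∧ g ≠ 1) → ∀ a ∈ sb k (S.L x),
    av k (S.U y ⊓ S.L x) * a * ε = 0
  rgt : ∀ y, (∃ g ∈ S.U y, g ∈ S.L x ∧ g ≠ 1) → ∀ a ∈ sb k (S.L x),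
    ε * a * av k (S.U y ⊓ S.L x) = 0

namespace Cs

variable {S} [Finite G] {k : Type} [Field k]

/-- the idempotent at the point `x` -/
def f (D : S.Cs k) (x : E) : Al k G := S.e k x * D.ε

/-- the set `N(ε', ε)` -/
def NN (D' D : S.Cs k) : Set G :=
  {n | n ∈ S.N ∧ (∀ l, l ∈ S.L D.x ↔ n * l * n⁻¹ ∈ S.L D'.x) ∧
    ∃ a ∈ sb k (S.L D'.x), D'.ε * a * dl n * D.ε ≠ 0}

/-- the roots of type (a) -/
def Ta (D : S.Cs k) (a : E) : Prop :=
  a ∈ S.R ∧ inner ℝ a D.x ≠ 0 ∧ ∃ v ∈ D.NN D, v ∉ S.L D.x ∧ ∀ x ∈ S.X D.x, inner ℝ a x = 0 → S.ac v x = x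

/-- no root of type (a) separates `x` and `y` -/
def NA (D : S.Cs k) (x y : E) : Prop := ∀ a, D.Ta a → ¬ inner ℝ a x * inner ℝ a y < 0

/-- the elements of the Weyl group: isometries which are the identity on the orthogonal complement of `X` and
agree with an element of `N(ε)` on `X` -/
def WS (D : S.Cs k) : Set (E ≃ₗᵢ[ℝ] E) :=
  {w | (∀ x ∈ (S.X D.x)ᗮ, w x = x) ∧ ∃ n ∈ D.NN D, ∀ x ∈ S.X D.x, w x = S.ac n x}

/-- the Weyl group -/
def W (D : S.Cs k) : Subgroup (E ≃ₗᵢ[ℝ] E) := Subgroup.closure D.WS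

/-- a representative of `w` in `N(ε)` -/
def rp (D : S.Cs k) (w : E ≃ₗᵢ[ℝ] E) : G :=
  if h : ∃ n ∈ D.NN D, ∀ x ∈ S.X D.x, w x = S.ac n x then h.choose else 1

/-- `D` is generic -/
def gnr (D : S.Cs k) : Prop := ∃ (z : E) (l : G → ℤˣ), S.gn z ∧ S.le D.x z ∧
  Lin (S.U z ⊓ S.L D.x) l ∧
  (∀ y, S.le y z → (∀ u ∈ S.U y, u ∈ S.L D.x → l u = 1) → ∀ a ∈ S.R, inner ℝ a D.x = 0 → inner ℝ a y = 0) ∧
  ∃ a ∈ sb k (S.L D.x), el k (S.U z ⊓ S.L D.x) l * a * D.ε ≠ 0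

/-- the series of `D` -/
def Ser (D : S.Cs k) : Finset (G → k) := (ir k S.H).filter fun φ => rk φ (D.f D.x) ≠ 0

end Cs

end LieSys

end

end LieP
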