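import Pool.Agent.LieP.A01

/-!
# MP_6c3636_al, LieP, module A02: averages and idempotents of linear characters (helper7)

All statements are computations with coefficients, or with sums of the `dl g`. It may be convenient to prove first
`av k H = (Nat.card H)⁻¹ • ∑ h : H, dl h`. `av_eq_mul`: the map `A × B → D` is bijective. `el_mul_el_ne`: choose `u` with
`l u ≠ l' u` and use `dl u * el U l = l u • el U l`.
-/

namespace LieP

noncomputable section

open Classical

variable {k : Type} [Field k] [CharZero k] {G : Type} [Group G] [Finite G]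

namespace A02_aux

omit [Finite G] [Group G] [CharZero k] in
theorem unit_sq (e : ℤˣ) : (((e : ℤˣ) : ℤ) : k) * (((e : ℤˣ) : ℤ) : k) = 1 := by
  rcases Int.units_eq_one_or e with h | h
  · rw [h]; simp
  · rw [h]; simp

omit [CharZero k] [Finite G] in
theorem sum_mem (U : Subgroup G) [Fintype G] (c : k) :
    ∑ x : G, (if x ∈ U then c else 0) = (Nat.card U : k) * c := by
  rw [← Finset.sum_filter, Finset.sum_const, nsmul_eq_mul]
  congr 2
  rw [Nat.card_eq_fintype_card, Fintype.card_subtype]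

omit [CharZero k] in
theorem coeff_el' (U : Subgroup G) (l : G → ℤˣ) (g : G) :
    (el k U l).coeff g = if g ∈ U then (Nat.card U : k)⁻¹ * (((l g : ℤˣ) : ℤ) : k) else 0 :=
  coeff_mk _ _

theorem card_ne (U : Subgroup G) : (Nat.card U : k) ≠ 0 := Nat.cast_ne_zero.2 Nat.card_pos.ne'

theorem el_mul_of {U : Subgroup G} {l : G → ℤˣ} {a : Al k G}
    (h : ∀ u ∈ U, dl u * a = (((l u : ℤˣ) : ℤ) : k) • a) : el k U l * a = a := by
  have := Fintype.ofFinite G
  refine al_ext fun g => ?_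
  rw [coeff_mul_fin]
  have h1 : ∀ x : G, (el k U l).coeff x * a.coeff (x⁻¹ * g) =
      if x ∈ U then (Nat.card U : k)⁻¹ * a.coeff g else 0 := by
    intro x
    rw [coeff_el']
    split_ifs with hx
    · have h2 := congrArg (fun b : Al k G => b.coeff g) (h x hx)
      have h3 : (dl x * a).coeff g = ((((l x : ℤˣ) : ℤ) : k) • a).coeff g := h2
      rw [coeff_dl_mul, coeff_smul] at h3
      rw [h3, mul_assoc, ← mul_assoc (((l x : ℤˣ) : ℤ) : k), unit_sq, one_mul]
    · rw [zero_mul]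
  rw [Finset.sum_congr rfl fun x _ => h1 x, sum_mem, ← mul_assoc, mul_inv_cancel₀ (card_ne U),
    one_mul]

omit [CharZero k] in
theorem st_inj {a b : Al k G} (h : st a = st b) : a = b := by
  rw [← st_st a, h, st_st]

omit [Finite G] in
theorem lin_one' {U : Subgroup G} {l : G → ℤˣ} (h : Lin U l) : l 1 = 1 := by
  have h1 := h 1 U.one_mem 1 U.one_mem
  rw [mul_one] at h1
  exact mul_eq_left.1 h1.symm

omit [Finite G] in
theorem lin_inv' {U : Subgroup G} {l : G → ℤˣ} (h : Lin U l) {u : G} (hu : u ∈ U) : l u⁻¹ = l u := by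
  have h3 := h u⁻¹ (U.inv_mem hu) u hu
  rw [inv_mul_cancel, lin_one' h] at h3
  rw [eq_inv_of_mul_eq_one_left h3.symm, Int.units_inv_eq_self]

omit [CharZero k] in
theorem st_el' {U : Subgroup G} {l : G → ℤˣ} (h : Lin U l) : st (el k U l) = el k U l := by
  refine al_ext fun g => ?_
  rw [coeff_st, coeff_el', coeff_el']
  by_cases hg : g ∈ U
  · rw [if_pos (U.inv_mem hg), if_pos hg, lin_inv' h hg]
  · rw [if_neg (fun h => hg (by rw [← inv_inv g]; exact U.inv_mem h)), if_neg hg]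

theorem mul_el_of {U : Subgroup G} {l : G → ℤˣ} (hl : Lin U l) {a : Al k G}
    (h : ∀ u ∈ U, a * dl u = (((l u : ℤˣ) : ℤ) : k) • a) : a * el k U l = a := by
  apply st_inj
  rw [st_mul, st_el' hl]
  refine el_mul_of fun u hu => ?_
  have h1 := congrArg st (h u⁻¹ (U.inv_mem hu))
  rw [st_mul, st_dl, inv_inv, st_smul, lin_inv' hl hu] at h1
  exact h1

omit [CharZero k] in
theorem el_av (U : Subgroup G) : el k U (fun _ => 1) = av k U := by
  refine al_ext fun g => ?_
  rw [coeff_el']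
  show _ = (mk _ : Al k G).coeff g
  rw [coeff_mk]
  simp

omit [Finite G] in
theorem lin_triv (U : Subgroup G) : Lin U (fun _ => 1) := fun _ _ _ _ => rfl

theorem av_mul_of {H : Subgroup G} {a : Al k G} (h : ∀ x ∈ H, dl x * a = a) : av k H * a = a := by
  rw [← el_av]
  refine el_mul_of fun u hu => ?_
  rw [h u hu]
  simp

theorem mul_av_of {H : Subgroup G} {a : Al k G} (h : ∀ x ∈ H, a * dl x = a) : a * av k H = a := by
  rw [← el_av]
  refine mul_el_of (lin_triv H) fun u hu => ?_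
  rw [h u hu]
  simp

omit [Finite G] [Group G] in
theorem unit_ne {e e' : ℤˣ} (h : e ≠ e') : (((e : ℤˣ) : ℤ) : k) - (((e' : ℤˣ) : ℤ) : k) ≠ 0 := by
  intro h1
  apply h
  apply Units.ext
  exact_mod_cast (sub_eq_zero.1 h1)

omit [CharZero k] in
theorem dl_el' {U : Subgroup G} {l : G → ℤˣ} (h : Lin U l) {u : G} (hu : u ∈ U) :
    dl u * el k U l = (((l u : ℤˣ) : ℤ) : k) • el k U l := by
  refine al_ext fun x => ?_
  rw [coeff_dl_mul, coeff_smul, coeff_el', coeff_el']
  by_cases hx : x ∈ U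
  · rw [if_pos (U.mul_mem (U.inv_mem hu) hx), if_pos hx, h u⁻¹ (U.inv_mem hu) x hx, lin_inv' h hu]
    push_cast
    ring
  · rw [if_neg hx, if_neg (fun h1 => hx (by simpa using U.mul_mem hu h1)), mul_zero]

omit [CharZero k] in
theorem el_dl' {U : Subgroup G} {l : G → ℤˣ} (h : Lin U l) {u : G} (hu : u ∈ U) :
    el k U l * dl u = (((l u : ℤˣ) : ℤ) : k) • el k U l := by
  apply st_inj
  rw [st_mul, st_dl, st_smul, st_el' h, dl_el' h (U.inv_mem hu), lin_inv' h hu]

omit [CharZero k] in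
theorem el_mem' {U H : Subgroup G} (h : U ≤ H) (l : G → ℤˣ) : el k U l ∈ sb k H := by
  intro g hg
  rw [coeff_el', if_neg fun h' => hg (h h')]

theorem el_ne' {U : Subgroup G} {l : G → ℤˣ} (h : Lin U l) : el k U l ≠ 0 := by
  intro h1
  have h2 := congrArg (fun b : Al k G => b.coeff 1) h1
  have h3 : (el k U l).coeff 1 = (0 : Al k G).coeff 1 := h2
  rw [coeff_el', if_pos U.one_mem, lin_one' h] at h3
  have h4 : (Nat.card U : k)⁻¹ = 0 := by simpa using h3
  exact card_ne U (inv_eq_zero.1 h4)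

omit [Finite G] in
theorem lin_mono {A D : Subgroup G} {l : G → ℤˣ} (hl : Lin D l) (hA : A ≤ D) : Lin A l :=
  fun u hu v hv => hl u (hA hu) v (hA hv)

theorem el_eq_mul' {A B D : Subgroup G} {l : G → ℤˣ} (hl : Lin D l) (hA : A ≤ D) (hB : B ≤ D)
    (h : ∀ g ∈ D, ∃ a ∈ A, ∃ b ∈ B, g = a * b) : el k D l = el k A l * el k B l := by
  have hlA := lin_mono hl hA
  have hlB := lin_mono hl hB
  set P : Al k G := el k A l * el k B l with hP
  have h1 : ∀ a ∈ A, dl a * P = (((l a : ℤˣ) : ℤ) : k) • P := by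
    intro a ha
    rw [hP, ← mul_assoc, dl_el' hlA ha, smul_mul_assoc]
  have h2 : ∀ b ∈ B, P * dl b = (((l b : ℤˣ) : ℤ) : k) • P := by
    intro b hb
    rw [hP, mul_assoc, el_dl' hlB hb, mul_smul_comm]
  have hPm : P ∈ sb k D := Subalgebra.mul_mem _ (el_mem' hA l) (el_mem' hB l)
  have h3 : P = ((Nat.card D : k) * P.coeff 1) • el k D l := by
    refine al_ext fun g => ?_
    rw [coeff_smul, coeff_el']
    by_cases hg : g ∈ D
    · obtain ⟨a, ha, b, hb, rfl⟩ := h g hg
      rw [if_pos hg, hl a (hA ha) b (hB hb)]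
      have h4 := congrArg (fun c : Al k G => c.coeff b) (h1 a⁻¹ (A.inv_mem ha))
      have h5 : (dl a⁻¹ * P).coeff b = ((((l a⁻¹ : ℤˣ) : ℤ) : k) • P).coeff b := h4
      rw [coeff_dl_mul, inv_inv, coeff_smul, lin_inv' hlA ha] at h5
      have h6 := congrArg (fun c : Al k G => c.coeff 1) (h2 b⁻¹ (B.inv_mem hb))
      have h7 : (P * dl b⁻¹).coeff 1 = ((((l b⁻¹ : ℤˣ) : ℤ) : k) • P).coeff 1 := h6
      rw [coeff_mul_dl, inv_inv, one_mul, coeff_smul, lin_inv' hlB hb] at h7
      rw [h5, h7]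
      have h8 := card_ne (k := k) D
      push_cast
      field_simp
    · rw [if_neg hg, mul_zero]
      exact hPm g hg
  have h4 : el k D l * P = el k D l := by
    rw [hP, ← mul_assoc, mul_el_of hlA (fun u hu => el_dl' hl (hA hu)),
      mul_el_of hlB (fun u hu => el_dl' hl (hB hu))]
  have h5 : el k D l * el k D l = el k D l := el_mul_of fun u hu => dl_el' hl hu
  have h6 : ((Nat.card D : k) * P.coeff 1) • el k D l = el k D l := by
    rw [← h5, ← mul_smul_comm, ← h3, h4, h5]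
  rw [h3]
  exact h6.symm

omit [CharZero k] [Finite G] in
theorem card_conj {U U' : Subgroup G} {n : G} (h : ∀ l, l ∈ U ↔ n * l * n⁻¹ ∈ U') :
    Nat.card U = Nat.card U' := by
  refine Nat.card_congr ⟨fun u => ⟨n * u * n⁻¹, (h u).1 u.2⟩, fun u => ⟨n⁻¹ * u * n, (h _).2 ?_⟩,
    fun u => ?_, fun u => ?_⟩
  · have h1 : n * (n⁻¹ * (u : G) * n) * n⁻¹ = u := by group
    rw [h1]
    exact u.2
  · apply Subtype.ext
    show n⁻¹ * (n * (u : G) * n⁻¹) * n = u
    group
  · apply Subtype.ext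
    show n * (n⁻¹ * (u : G) * n) * n⁻¹ = u
    group

omit [CharZero k] in
theorem el_conj' {U U' : Subgroup G} {n : G} (h : ∀ l, l ∈ U ↔ n * l * n⁻¹ ∈ U') (l : G → ℤˣ) :
    dl n * el k U l * dl n⁻¹ = el k U' (fun g => l (n⁻¹ * g * n)) := by
  refine al_ext fun x => ?_
  rw [coeff_mul_dl, coeff_dl_mul, inv_inv, coeff_el', coeff_el', card_conj h]
  have h1 : n⁻¹ * (x * n) ∈ U ↔ x ∈ U' := by
    rw [h]
    have h2 : n * (n⁻¹ * (x * n)) * n⁻¹ = x := by group
    rw [h2]
  by_cases hx : x ∈ U'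
  · rw [if_pos hx, if_pos (h1.2 hx), mul_assoc n⁻¹ x n]
  · rw [if_neg hx, if_neg fun h2 => hx (h1.1 h2)]

end A02_aux

open A02_aux

theorem coeff_av (H : Subgroup G) (g : G) :
    (av k H).coeff g = if g ∈ H then (Nat.card H : k)⁻¹ else 0 := by
  exact coeff_mk _ _

theorem av_mem {H H' : Subgroup G} (h : H ≤ H') : av k H ∈ sb k H' := by
  intro g hg
  show (mk _ : Al k G).coeff g = 0
  rw [coeff_mk, if_neg fun h' => hg (h h')]

theorem dl_av {H : Subgroup G} {h : G} (hh : h ∈ H) : dl h * av k H = av k H := by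
  rw [← el_av, dl_el' (lin_triv H) hh]
  simp

theorem av_dl {H : Subgroup G} {h : G} (hh : h ∈ H) : av k H * dl h = av k H := by
  rw [← el_av, el_dl' (lin_triv H) hh]
  simp

theorem av_idem (H : Subgroup G) : av k H * av k H = av k H := by
  exact av_mul_of fun x hx => dl_av hx

theorem av_mul_av {H H' : Subgroup G} (h : H ≤ H') : av k H * av k H' = av k H' := by
  exact av_mul_of fun x hx => dl_av (h hx)

theorem av_mul_av' {H H' : Subgroup G} (h : H ≤ H') : av k H' * av k H = av k H' := by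
  exact mul_av_of fun x hx => av_dl (h hx)

theorem av_bot : av k (⊥ : Subgroup G) = 1 := by
  refine al_ext fun x => ?_
  rw [coeff_av, ← dl_one, coeff_dl]
  simp [Subgroup.mem_bot]

theorem av_eq_mul {A B D : Subgroup G} (hA : A ≤ D) (hB : B ≤ D) (h : ∀ g ∈ D, ∃ a ∈ A, ∃ b ∈ B, g = a * b)
    (h1 : ∀ g ∈ A, g ∈ B → g = 1) : av k D = av k A * av k B := by
  rw [← el_av, ← el_av, ← el_av]
  exact el_eq_mul' (lin_triv D) hA hB h

/-- without uniqueness of the decomposition -/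
theorem av_eq_mul' {A B D : Subgroup G} (hA : A ≤ D) (hB : B ≤ D) (h : ∀ g ∈ D, ∃ a ∈ A, ∃ b ∈ B, g = a * b) :
    av k A * av k B = av k D := by
  rw [← el_av, ← el_av, ← el_av]
  exact (el_eq_mul' (lin_triv D) hA hB h).symm

theorem av_conj {H H' : Subgroup G} {n : G} (h : ∀ l, l ∈ H ↔ n * l * n⁻¹ ∈ H') :
    dl n * av k H * dl n⁻¹ = av k H' := by
  rw [← el_av, ← el_av]
  exact el_conj' h _

theorem st_av (H : Subgroup G) : st (av k H) = av k H := by
  rw [← el_av]
  exact st_el' (lin_triv H)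

theorem av_comm {L U : Subgroup G} (h : ∀ l ∈ L, ∀ u ∈ U, l * u * l⁻¹ ∈ U) {a : Al k G}
    (ha : a ∈ sb k L) : a * av k U = av k U * a := by
  refine sb_induction (H := L) (p := fun a => a * av k U = av k U * a) ?_ ?_ ?_ ha
  · rw [zero_mul, mul_zero]
  · intro a b h1 h2
    rw [add_mul, mul_add, h1, h2]
  · intro r g hg
    have h1 : ∀ l, l ∈ U ↔ g * l * g⁻¹ ∈ U := by
      intro l
      refine ⟨h g hg l, fun h2 => ?_⟩
      have h3 := h g⁻¹ (L.inv_mem hg) _ h2
      have h4 : g⁻¹ * (g * l * g⁻¹) * g⁻¹⁻¹ = l := by group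
      rwa [h4] at h3
    have h2 : dl g * av k U * dl g⁻¹ = av k U := av_conj h1
    have h3 : (dl g⁻¹ * dl g : Al k G) = 1 := by rw [← dl_mul, inv_mul_cancel, dl_one]
    have h4 : dl g * av k U = av k U * dl g := by
      conv_rhs => rw [← h2]
      rw [mul_assoc, h3, mul_one]
    rw [smul_mul_assoc, mul_smul_comm, h4]

theorem t_av (H : Subgroup G) : t (av k H) = (Nat.card H : k)⁻¹ := by
  show (av k H).coeff 1 = _
  rw [coeff_av, if_pos H.one_mem]

theorem av_ne_zero (H : Subgroup G) : av k H ≠ 0 := by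
  rw [← el_av]
  exact el_ne' (lin_triv H)

theorem lin_one {U : Subgroup G} {l : G → ℤˣ} (h : Lin U l) : l 1 = 1 := by
  exact lin_one' h

theorem lin_inv {U : Subgroup G} {l : G → ℤˣ} (h : Lin U l) {u : G} (hu : u ∈ U) : l u⁻¹ = l u := by
  exact lin_inv' h hu

theorem coeff_el (U : Subgroup G) (l : G → ℤˣ) (g : G) :
    (el k U l).coeff g = if g ∈ U then (Nat.card U : k)⁻¹ * (((l g : ℤˣ) : ℤ) : k) else 0 := by
  exact coeff_mk _ _

theorem el_mem {U H : Subgroup G} (h : U ≤ H) (l : G → ℤˣ) : el k U l ∈ sb k H := by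
  exact el_mem' h l

theorem dl_el {U : Subgroup G} {l : G → ℤˣ} (h : Lin U l) {u : G} (hu : u ∈ U) :
    dl u * el k U l = (((l u : ℤˣ) : ℤ) : k) • el k U l := by
  exact dl_el' h hu

theorem el_dl {U : Subgroup G} {l : G → ℤˣ} (h : Lin U l) {u : G} (hu : u ∈ U) :
    el k U l * dl u = (((l u : ℤˣ) : ℤ) : k) • el k U l := by
  exact el_dl' h hu

theorem el_idem {U : Subgroup G} {l : G → ℤˣ} (h : Lin U l) : el k U l * el k U l = el k U l := by
  exact el_mul_of fun u hu => dl_el h hu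

theorem st_el {U : Subgroup G} {l : G → ℤˣ} (h : Lin U l) : st (el k U l) = el k U l := by
  exact st_el' h

theorem el_mul_el_ne {U : Subgroup G} {l l' : G → ℤˣ} (h : Lin U l) (h' : Lin U l')
    (hne : ∃ u ∈ U, l u ≠ l' u) : el k U l * el k U l' = 0 := by
  obtain ⟨u, hu, hne⟩ := hne
  have h1 : el k U l * (dl u * el k U l') = (((l' u : ℤˣ) : ℤ) : k) • (el k U l * el k U l') := by
    rw [dl_el h' hu, mul_smul_comm]
  rw [← mul_assoc, el_dl h hu, smul_mul_assoc] at h1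
  have h2 : ((((l u : ℤˣ) : ℤ) : k) - (((l' u : ℤˣ) : ℤ) : k)) • (el k U l * el k U l') = 0 := by
    rw [sub_smul, h1, sub_self]
  exact (smul_eq_zero.1 h2).resolve_left (unit_ne hne)

theorem el_congr {U : Subgroup G} {l l' : G → ℤˣ} (h : ∀ u ∈ U, l u = l' u) : el k U l = el k U l' := by
  refine al_ext fun g => ?_
  rw [coeff_el, coeff_el]
  by_cases hg : g ∈ U
  · rw [if_pos hg, if_pos hg, h g hg]
  · rw [if_neg hg, if_neg hg]

theorem el_one_av {U : Subgroup G} {l : G → ℤˣ} (h : ∀ u ∈ U, l u = 1) : el k U l = av k U := by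
  rw [← el_av]
  exact el_congr h

theorem av_mul_el {V U : Subgroup G} (hVU : V ≤ U) {l : G → ℤˣ} (h : Lin U l) (hV : ∀ v ∈ V, l v = 1) :
    av k V * el k U l = el k U l := by
  refine av_mul_of fun v hv => ?_
  rw [dl_el h (hVU hv), hV v hv]
  simp

theorem av_mul_el_zero {V U : Subgroup G} (hVU : V ≤ U) {l : G → ℤˣ} (h : Lin U l) {v : G} (hv : v ∈ V)
    (hl : l v ≠ 1) : av k V * el k U l = 0 := by
  have h1 : av k V * (dl v * el k U l) = (((l v : ℤˣ) : ℤ) : k) • (av k V * el k U l) := by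
    rw [dl_el h (hVU hv), mul_smul_comm]
  rw [← mul_assoc, av_dl hv] at h1
  have h2 : ((((l v : ℤˣ) : ℤ) : k) - ((((1 : ℤˣ) : ℤˣ) : ℤ) : k)) • (av k V * el k U l) = 0 := by
    rw [sub_smul, ← h1]
    simp
  exact (smul_eq_zero.1 h2).resolve_left (unit_ne hl)

theorem el_conj {U U' : Subgroup G} {n : G} (h : ∀ l, l ∈ U ↔ n * l * n⁻¹ ∈ U') (l : G → ℤˣ) :
    dl n * el k U l * dl n⁻¹ = el k U' (fun g => l (n⁻¹ * g * n)) := by
  exact el_conj' h l

theorem el_eq_mul {A B D : Subgroup G} {l : G → ℤˣ} (hl : Lin D l) (hA : A ≤ D) (hB : B ≤ D)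
    (h : ∀ g ∈ D, ∃ a ∈ A, ∃ b ∈ B, g = a * b) (h1 : ∀ g ∈ A, g ∈ B → g = 1) :
    el k D l = el k A l * el k B l := by
  exact el_eq_mul' hl hA hB h

theorem mem_lins {U : Subgroup G} {l : G → ℤˣ} : l ∈ lins U ↔ Lin U l ∧ ∀ g, g ∉ U → l g = 1 := by
  unfold lins
  rw [Set.Finite.mem_toFinset]
  rfl

end

end LieP
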