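import Pool.Agent.LieP.Defs

/-!
# MP_6c3636_al, groups of Lie type in characteristic two: definitions, part 2 (helper7)

Finite reflection groups (section 7), the normalised operators `T` (section 6), Hecke data (section 10).
-/

namespace LieP

noncomputable section

open Classical

section Operators

variable {k : Type} [Field k] {G : Type} [Group G] {V : Type} [AddCommGroup V] [Module k V]

/-- the operator of an element of the group algebra of `G` on a representation of the subgroup `H`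
(coefficients outside of `H` are ignored) -/
def op {H : Subgroup G} (ρ : Representation k H V) : Al k G →ₗ[k] Module.End k V where
  toFun a := a.coeff.sum fun g c => if h : g ∈ H then c • ρ ⟨g, h⟩ else 0
  map_add' a b := by
    show (a.coeff + b.coeff).sum _ = _
    refine Finsupp.sum_add_index' (fun g => ?_) (fun g c c' => ?_)
    · split_ifs
      · exact zero_smul _ _
      · rfl
    · split_ifs
      · exact add_smul _ _ _
      · rw [add_zero]
  map_smul' r a := by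
    show (r • a.coeff).sum _ = r • _
    rw [Finsupp.sum_smul_index (fun g => by split_ifs; exact zero_smul _ _; rfl), Finsupp.sum,
      Finsupp.sum, Finset.smul_sum]
    refine Finset.sum_congr rfl fun g _ => ?_
    split_ifs
    · exact mul_smul _ _ _
    · exact (smul_zero _).symm

/-- the space of the elements `a * x * b`, `x` in the group algebra of `H` -/
def cr (H : Subgroup G) (a b : Al k G) : Submodule k (Al k G) :=
  (sb k H).toSubmodule.map ((LinearMap.mulLeft k a).comp (LinearMap.mulRight k b))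

/-- the multiplicity of the character `ψ` of `H'` in the representation of `H'` on the range of `e` in the
representation with character `φ` -/
def mt (H' : Subgroup G) [Finite G] (φ : G → k) (e : Al k G) (ψ : G → k) : ℕ :=
  rk φ (e * cen H' ψ) / Parker.dg ψ

/-- the homomorphisms `U → {1, -1}`, extended by `1` -/
def lins [Finite G] (U : Subgroup G) : Finset (G → ℤˣ) :=
  (Set.toFinite {l : G → ℤˣ | Lin U l ∧ ∀ g, g ∉ U → l g = 1}).toFinset

end Operators

section Refl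

variable {E : Type} [NormedAddCommGroup E] [InnerProductSpace ℝ E]

/-- the reflection `x ↦ x - 2 ⟨a, x⟩ a` for a unit vector `a` -/
def rfn (a : E) : E ≃ₗᵢ[ℝ] E := (ℝ ∙ a)ᗮ.reflection

/-- the positive roots -/
def ps (Psi : Finset E) (x : E) : Finset E := Psi.filter fun a => 0 < inner ℝ a x

/-- the inversions of `w` -/
def iv (Psi : Finset E) (x : E) (w : E ≃ₗᵢ[ℝ] E) : Finset E :=
  (ps Psi x).filter fun a => inner ℝ a (w x) < 0

/-- the simple roots -/
def sm (Psi : Finset E) (x : E) : Finset E :=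
  (ps Psi x).filter fun a => ∃ y, inner ℝ a y = 0 ∧ ∀ b ∈ ps Psi x, b ≠ a → 0 < inner ℝ b y

/-- the left descents of `w` -/
def ds (Psi : Finset E) (x : E) (w : E ≃ₗᵢ[ℝ] E) : Finset E :=
  (sm Psi x).filter fun a => inner ℝ a (w x) < 0

/-- the group generated by the reflections in `J` -/
def wj (J : Finset E) : Subgroup (E ≃ₗᵢ[ℝ] E) := Subgroup.closure (rfn '' (J : Set E))

/-- the data of section 7 -/
structure RG (E : Type) [NormedAddCommGroup E] [InnerProductSpace ℝ E] where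
  /-- the group -/
  W : Subgroup (E ≃ₗᵢ[ℝ] E)
  /-- the unit vectors -/
  Psi : Finset E
  /-- the base point -/
  x : E
  fin : Finite W
  unit : ∀ a ∈ Psi, ‖a‖ = 1
  neg : ∀ a ∈ Psi, -a ∈ Psi
  stab : ∀ w ∈ W, ∀ a ∈ Psi, w a ∈ Psi
  rf : ∀ a ∈ Psi, rfn a ∈ W
  reg : ∀ a ∈ Psi, inner ℝ a x ≠ 0
  smp : ∀ w ∈ W, (∀ a ∈ Psi, 0 < inner ℝ a x → 0 < inner ℝ a (w x)) → w = 1

/-- the simple roots -/
abbrev RG.S (Q : RG E) : Finset E := sm Q.Psi Q.x

/-- the length -/
abbrev RG.len (Q : RG E) (w : E ≃ₗᵢ[ℝ] E) : ℕ := (iv Q.Psi Q.x w).card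

/-- the open chamber -/
def RG.C (Q : RG E) : Set E := {y | ∀ a ∈ ps Q.Psi Q.x, 0 < inner ℝ a y}

/-- the closed chamber -/
def RG.Cb (Q : RG E) : Set E := {y | ∀ a ∈ ps Q.Psi Q.x, 0 ≤ inner ℝ a y}

/-- the simple roots vanishing at `y` -/
def RG.J (Q : RG E) (y : E) : Finset E := Q.S.filter fun a => inner ℝ a y = 0

end Refl

section Hecke

variable {E : Type} [NormedAddCommGroup E] [InnerProductSpace ℝ E]

/-- the alternating sum over `W_J` -/
def heS (Ω : Type) [Field Ω] {A : Type} [Ring A] [Algebra Ω A] (T : (E ≃ₗᵢ[ℝ] E) → A) (Psi : Finset E)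
    (x : E) (J : Finset E) : A :=
  ∑ᶠ w : wj J, ((-1 : Ω) ^ (iv Psi x w).card) • T w

/-- the idempotent `e_J` -/
def he (Ω : Type) [Field Ω] {A : Type} [Ring A] [Algebra Ω A] (T : (E ≃ₗᵢ[ℝ] E) → A) (Psi : Finset E)
    (x : E) (J : Finset E) : A :=
  if h : ∃ r : Ω, r ≠ 0 ∧ (r • heS Ω T Psi x J) * (r • heS Ω T Psi x J) = r • heS Ω T Psi x J then
    h.choose • heS Ω T Psi x J else 0

/-- Hecke data (section 10) -/
structure HD {Ω : Type} [Field Ω] (c : Parker.Ctx Ω) (Q : RG E) (A : Type) [Ring A]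
    [Algebra Ω A] where
  /-- the basis -/
  T : (E ≃ₗᵢ[ℝ] E) → A
  /-- the parameters -/
  p : E → Ω
  /-- the idempotent of the representation in which all `T w` are `1` -/
  g : A
  /-- the coefficients of `g` -/
  gc : (E ≃ₗᵢ[ℝ] E) → Ω
  li : LinearIndependent Ω fun w : Q.W => T w
  mul : ∀ u ∈ Q.W, ∀ w ∈ Q.W, Disjoint (iv Q.Psi Q.x u⁻¹) (iv Q.Psi Q.x w) → T u * T w = T (u * w)
  sq : ∀ s ∈ Q.S, T (rfn s) * T (rfn s) = (1 - p s) • T (rfn s) + p s • T 1
  lt : ∀ s ∈ Q.S, c.av (p s) < 1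
  ne : ∀ s ∈ Q.S, 1 + p s ≠ 0
  gT : ∀ s ∈ Q.S, T (rfn s) * g = g
  Tg : ∀ s ∈ Q.S, g * T (rfn s) = g
  g_eq : g = ∑ᶠ w : Q.W, gc w • T w
  g_sum : ∑ᶠ w : Q.W, gc w = 1

variable {Ω : Type} [Field Ω] {c : Parker.Ctx Ω} {Q : RG E} {A : Type} [Ring A] [Algebra Ω A]

/-- the idempotent `e_J` -/
abbrev HD.e (D : HD c Q A) (J : Finset E) : A := he Ω D.T Q.Psi Q.x J

/-- the span of the `T w` -/
def HD.sp (D : HD c Q A) : Submodule Ω A := Submodule.span Ω (D.T '' (Q.W : Set (E ≃ₗᵢ[ℝ] E)))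

/-- an involution of the simple roots and weights (10.3) -/
structure WT (c : Parker.Ctx Ω) (Q : RG E) where
  /-- the involution -/
  τ : E → E
  /-- the weights of the orbits -/
  a : Finset E → Ω
  /-- the weights -/
  b : E → Ω
  maps : ∀ s ∈ Q.S, τ s ∈ Q.S
  inv : ∀ s ∈ Q.S, τ (τ s) = s
  bt : ∀ s ∈ Q.S, b (τ s) = - b s
  cond1 : ∀ P ⊆ Q.S.image (fun s => ({s, τ s} : Finset E)), P.Nonempty → c.av (∑ q ∈ P, a q) = 1
  cond2 : ∀ P ⊆ Q.S, P.Nonempty → (∀ s ∈ P, τ s ∉ P) → c.av (∑ s ∈ P, b s) = 1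

/-- the orbits -/
def WT.orb (w : WT c Q) : Finset (Finset E) := Q.S.image fun s => {s, w.τ s}

/-- the stable subsets -/
def WT.JJ (w : WT c Q) : Finset (Finset E) := Q.S.powerset.filter fun J => J.image w.τ = J

/-- the entries of the operator of (10.3) -/
def WT.ent (w : WT c Q) (D : HD c Q A) (J J' : Finset E) : A :=
  (∑ q ∈ w.orb, if Disjoint q J ∧ J' = J ∪ q then w.a q • D.e J' else 0) -
    (∑ q ∈ w.orb, if q ⊆ J ∧ J' = J \ q then w.a q • D.e J else 0) +
    if J = J' then (1 - D.e J) + (if J = ∅ then (∑ s ∈ Q.S, w.b s • D.e {s}) + D.g else 0) else 0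

end Hecke

namespace LieSys.Cs

variable {G E : Type} [Group G] [NormedAddCommGroup E] [InnerProductSpace ℝ E]
  [FiniteDimensional ℝ E] {S : LieSys G E} [Finite G] {Ω : Type} [Field Ω]

/-- the generic member of the series -/
def star (D : S.Cs Ω) : G → Ω := if h : ∃ φ ∈ D.Ser, S.gen φ ≠ 0 then h.choose else 0

/-- the line of the operators of `n` at `x` -/
def ln (D : S.Cs Ω) (n : G) (x : E) : Set (Al Ω G) :=
  {b | ∃ a ∈ sb Ω (S.L D.x), b = S.e Ω x * (D.ε * a * dl n * D.ε) * S.e Ω x}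

/-- the normalised operator at `x` -/
def T (D : S.Cs Ω) (x : E) (w : E ≃ₗᵢ[ℝ] E) : Al Ω G :=
  if h : ∃ b ∈ D.ln (D.rp w) x, tr D.star b = 1 then h.choose else 0

/-- the projection to `X` -/
def pj (D : S.Cs Ω) (a : E) : E := (S.X D.x).starProjection a

/-- the unit vectors of the roots of type (a) -/
def Psi (D : S.Cs Ω) : Finset E :=
  (S.R.filter fun a => D.Ta a).image fun a => ‖D.pj a‖⁻¹ • D.pj a

/-- the property (Ta) of section 9 -/
def TaH (D : S.Cs Ω) : Prop :=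
  ∀ n ∈ D.NN D, ∀ x, S.Reg D.x x → D.NA x (S.ac n x) → n ∈ S.L D.x

/-- the idempotent `e_J` at `x` -/
def eJ (D : S.Cs Ω) (x : E) (J : Finset E) : Al Ω G := he Ω (D.T x) D.Psi x J

/-- the parameter of the simple root `a` at `x` -/
def p (D : S.Cs Ω) (x a : E) : Ω :=
  if h : ∃ r : Ω, D.T x (rfn a) * D.T x (rfn a) = (1 - r) • D.T x (rfn a) + r • D.f x then h.choose
  else 0

end LieSys.Cs

/-- the statement of the induction of section 9 -/
structure TS {G E : Type} [Group G] [NormedAddCommGroup E] [InnerProductSpace ℝ E]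
    [FiniteDimensional ℝ E] (S : LieSys G E) [Finite G] {Ω : Type} [Field Ω]
    (c : Parker.Ctx Ω) : Prop where
  ta : ∀ D : S.Cs Ω, D.gnr → D.TaH
  tb : ∀ D : S.Cs Ω, D.gnr → ∃ φ ∈ D.Ser, Odd (Parker.dg φ) ∧
    (∀ ψ ∈ D.Ser, Odd (Parker.dg ψ) → ψ = φ) ∧
    ∀ x, S.Reg D.x x → D.f x * cen S.H φ = D.eJ x (sm D.Psi x)
  tc : ∀ D : S.Cs Ω, D.gnr → ∀ x, S.Reg D.x x → ∀ a ∈ sm D.Psi x, c.av (D.p x a) < 1 ∧ 1 + D.p x a ≠ 0

end

end LieP
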