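import Pool.Agent.LieP.Defs2

/-!
# MP_6c3636_al, LieP, module A01: the group algebra (helper7)

Elementary facts on coefficients. `MonoidAlgebra.coeff_mul`, `MonoidAlgebra.coeff_single`. `coeff_mul_fin`: reindex the double
sum. `sb_induction`: an element of `sb k H` is the sum of the `a.coeff g • dl g`, `g ∈ H`.
-/

namespace LieP

noncomputable section

open Classical

variable {k : Type} [Field k] {G : Type} [Group G]

theorem coeff_dl (g x : G) : (dl g : Al k G).coeff x = if x = g then 1 else 0 := by
  unfold dl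
  rw [MonoidAlgebra.coeff_single, Finsupp.single_apply]
  by_cases h : x = g
  · rw [if_pos h, if_pos h.symm]
  · rw [if_neg h, if_neg (Ne.symm h)]

theorem dl_mul (g h : G) : (dl (g * h) : Al k G) = dl g * dl h := by
  unfold dl
  rw [MonoidAlgebra.single_mul_single, one_mul]

theorem dl_one : (dl 1 : Al k G) = 1 := by
  rfl

theorem dl_mem {H : Subgroup G} {g : G} : (dl g : Al k G) ∈ sb k H ↔ g ∈ H := by
  constructor
  · intro h
    by_contra hg
    have := h g hg
    rw [coeff_dl, if_pos rfl] at this
    exact one_ne_zero this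
  · intro hg x hx
    rw [coeff_dl, if_neg]
    rintro rfl
    exact hx hg

theorem mem_sb {H : Subgroup G} {a : Al k G} : a ∈ sb k H ↔ ∀ g, g ∉ H → a.coeff g = 0 := Iff.rfl

theorem sb_mono {H H' : Subgroup G} (h : H ≤ H') : sb k H ≤ sb k H' := by
  intro a ha g hg
  exact ha g (fun h' => hg (h h'))

theorem sb_top (a : Al k G) : a ∈ sb k (⊤ : Subgroup G) := by
  intro g hg
  exact absurd (Subgroup.mem_top g) hg

theorem sb_induction {H : Subgroup G} {p : Al k G → Prop} (h0 : p 0) (hadd : ∀ a b, p a → p b → p (a + b))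
    (hsmul : ∀ (r : k) (g : G), g ∈ H → p (r • dl g)) {a : Al k G} (ha : a ∈ sb k H) : p a := by
  have h1 : a = ∑ g ∈ a.coeff.support, a.coeff g • dl g := by
    refine MonoidAlgebra.ext (Finsupp.ext fun x => ?_)
    have h2 : (∑ g ∈ a.coeff.support, a.coeff g • (dl g : Al k G)).coeff x =
        ∑ g ∈ a.coeff.support, (a.coeff g • (dl g : Al k G)).coeff x := by
      induction a.coeff.support using Finset.induction_on with
      | empty => simp
      | insert y s hy ih =>
        rw [Finset.sum_insert hy, Finset.sum_insert hy, MonoidAlgebra.coeff_add, Finsupp.add_apply,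
          ih]
    rw [h2]
    have h3 : ∀ g ∈ a.coeff.support, (a.coeff g • (dl g : Al k G)).coeff x =
        if x = g then a.coeff g else 0 := by
      intro g _
      rw [MonoidAlgebra.coeff_smul_apply, coeff_dl, smul_eq_mul]
      split_ifs <;> simp
    rw [Finset.sum_congr rfl h3, Finset.sum_ite_eq]
    by_cases hx : x ∈ a.coeff.support
    · rw [if_pos hx]
    · rw [if_neg hx, Finsupp.notMem_support_iff.1 hx]
  rw [h1]
  have h4 : ∀ s : Finset G, s ⊆ a.coeff.support → p (∑ g ∈ s, a.coeff g • dl g) := by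
    intro s
    induction s using Finset.induction_on with
    | empty => intro _; rw [Finset.sum_empty]; exact h0
    | insert y s hy ih =>
      intro hs
      rw [Finset.sum_insert hy]
      refine hadd _ _ (hsmul _ _ ?_) (ih fun z hz => hs (Finset.mem_insert_of_mem hz))
      by_contra hyH
      exact (Finsupp.mem_support_iff.1 (hs (Finset.mem_insert_self y s))) (ha y hyH)
  exact h4 _ (Finset.Subset.refl _)

theorem al_ext {a b : Al k G} (h : ∀ g, a.coeff g = b.coeff g) : a = b := by
  exact MonoidAlgebra.ext (Finsupp.ext h)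

theorem coeff_add (a b : Al k G) (g : G) : (a + b).coeff g = a.coeff g + b.coeff g := rfl

theorem coeff_smul (r : k) (a : Al k G) (g : G) : (r • a).coeff g = r * a.coeff g := by
  rw [MonoidAlgebra.coeff_smul_apply, smul_eq_mul]

theorem coeff_dl_mul (g : G) (a : Al k G) (x : G) : (dl g * a).coeff x = a.coeff (g⁻¹ * x) := by
  unfold dl
  rw [MonoidAlgebra.coeff_single_mul_apply, one_mul]

theorem coeff_mul_dl (g : G) (a : Al k G) (x : G) : (a * dl g).coeff x = a.coeff (x * g⁻¹) := by
  unfold dl
  rw [MonoidAlgebra.coeff_mul_single_apply, mul_one]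

theorem t_add (a b : Al k G) : t (a + b) = t a + t b := rfl

theorem t_smul (r : k) (a : Al k G) : t (r • a) = r * t a := by
  exact coeff_smul r a 1

theorem t_zero : t (0 : Al k G) = 0 := rfl

theorem t_mul_comm (a b : Al k G) : t (a * b) = t (b * a) := by
  have key : ∀ b : Al k G, b ∈ sb k (⊤ : Subgroup G) → t (a * b) = t (b * a) := by
    intro b hb
    refine sb_induction (p := fun b => t (a * b) = t (b * a)) ?_ ?_ ?_ hb
    · rw [mul_zero, zero_mul]
    · intro x y hx hy
      rw [mul_add, add_mul, t_add, t_add, hx, hy]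
    · intro r g _
      rw [mul_smul_comm, smul_mul_assoc, t_smul, t_smul]
      congr 1
      unfold t
      rw [coeff_mul_dl, coeff_dl_mul, one_mul, mul_one]
  exact key b (sb_top b)

theorem t_conj (g : G) (a : Al k G) : t (dl g * a * dl g⁻¹) = t a := by
  rw [t_mul_comm, ← mul_assoc, ← dl_mul, inv_mul_cancel, dl_one, one_mul]

theorem t_mul_dl (a : Al k G) (g : G) : t (a * dl g) = a.coeff g⁻¹ := by
  unfold t
  rw [coeff_mul_dl, one_mul]

theorem conj_mem {H H' : Subgroup G} {n : G} (h : ∀ l, l ∈ H ↔ n * l * n⁻¹ ∈ H') {a : Al k G}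
    (ha : a ∈ sb k H) : dl n * a * dl n⁻¹ ∈ sb k H' := by
  intro g hg
  rw [coeff_mul_dl, coeff_dl_mul]
  apply ha
  intro h1
  apply hg
  have h2 := (h _).1 h1
  have h3 : n * (n⁻¹ * (g * n⁻¹⁻¹)) * n⁻¹ = g := by group
  rwa [h3] at h2

theorem tr_dl (φ : G → k) (g : G) : tr φ (dl g) = φ g := by
  show (MonoidAlgebra.single g (1 : k)).coeff.sum (fun g c => c * φ g) = _
  rw [MonoidAlgebra.coeff_single, Finsupp.sum_single_index (zero_mul _), one_mul]

variable [Finite G]

theorem coeff_mk (f : G → k) (g : G) : (mk f).coeff g = f g := by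
  rfl

theorem mk_coeff (a : Al k G) : mk (fun g => a.coeff g) = a := by
  apply al_ext
  intro g
  rw [coeff_mk]

theorem coeff_mul_fin [Fintype G] (a b : Al k G) (g : G) :
    (a * b).coeff g = ∑ x, a.coeff x * b.coeff (x⁻¹ * g) := by
  have key : ∀ a : Al k G, a ∈ sb k (⊤ : Subgroup G) →
      (a * b).coeff g = ∑ x, a.coeff x * b.coeff (x⁻¹ * g) := by
    intro a ha
    refine sb_induction
      (p := fun a => (a * b).coeff g = ∑ x, a.coeff x * b.coeff (x⁻¹ * g)) ?_ ?_ ?_ ha
    · rw [zero_mul]
      symm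
      refine Finset.sum_eq_zero fun x _ => ?_
      show (0 : k) * _ = 0
      rw [zero_mul]
    · intro x y hx hy
      rw [add_mul, coeff_add, hx, hy, ← Finset.sum_add_distrib]
      refine Finset.sum_congr rfl fun z _ => ?_
      rw [coeff_add, add_mul]
    · intro r h _
      rw [smul_mul_assoc, coeff_smul, coeff_dl_mul, Finset.sum_eq_single h]
      · rw [coeff_smul, coeff_dl, if_pos rfl, mul_one]
      · intro z _ hz
        rw [coeff_smul, coeff_dl, if_neg hz, mul_zero, zero_mul]
      · intro h'
        exact absurd (Finset.mem_univ h) h'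
  exact key a (sb_top a)

theorem t_mul_fin [Fintype G] (a b : Al k G) : t (a * b) = ∑ x, a.coeff x * b.coeff x⁻¹ := by
  unfold t
  rw [coeff_mul_fin]
  refine Finset.sum_congr rfl fun x _ => ?_
  rw [mul_one]

theorem tr_fin [Fintype G] (φ : G → k) (a : Al k G) : tr φ a = ∑ x, a.coeff x * φ x := by
  show a.coeff.sum (fun g c => c * φ g) = _
  rw [Finsupp.sum_fintype _ _ (fun _ => zero_mul _)]

theorem coeff_st (a : Al k G) (g : G) : (st a).coeff g = a.coeff g⁻¹ := by
  unfold st
  rw [coeff_mk]

theorem st_dl (g : G) : st (dl g : Al k G) = dl g⁻¹ := by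
  apply al_ext
  intro x
  rw [coeff_st, coeff_dl, coeff_dl]
  by_cases h : x = g⁻¹
  · rw [if_pos h, if_pos (by rw [h, inv_inv])]
  · rw [if_neg h, if_neg fun h' => h (by rw [← h', inv_inv])]

theorem st_mul (a b : Al k G) : st (a * b) = st b * st a := by
  have := Fintype.ofFinite G
  apply al_ext
  intro g
  rw [coeff_st, coeff_mul_fin, coeff_mul_fin]
  refine Fintype.sum_equiv ((Equiv.mulLeft g).trans (Equiv.refl G)) _ _ fun x => ?_
  rw [coeff_st, coeff_st]
  simp only [Equiv.trans_apply, Equiv.refl_apply, Equiv.coe_mulLeft]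
  rw [mul_comm]
  congr 2 <;> group

theorem st_st (a : Al k G) : st (st a) = a := by
  apply al_ext
  intro g
  rw [coeff_st, coeff_st, inv_inv]

theorem st_add (a b : Al k G) : st (a + b) = st a + st b := by
  apply al_ext
  intro g
  rw [coeff_st, coeff_add, coeff_add, coeff_st, coeff_st]

theorem st_smul (r : k) (a : Al k G) : st (r • a) = r • st a := by
  apply al_ext
  intro g
  rw [coeff_st, coeff_smul, coeff_smul, coeff_st]

theorem st_one : st (1 : Al k G) = 1 := by
  rw [← dl_one, st_dl, inv_one]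

theorem st_mem {H : Subgroup G} {a : Al k G} : st a ∈ sb k H ↔ a ∈ sb k H := by
  constructor
  · intro h g hg
    have := h g⁻¹ (fun h' => hg (by simpa using H.inv_mem h'))
    rwa [coeff_st, inv_inv] at this
  · intro h g hg
    rw [coeff_st]
    exact h _ (fun h' => hg (by simpa using H.inv_mem h'))

/-- the form `t (a b)` is nondegenerate -/
theorem t_nondeg {a : Al k G} (h : ∀ b, t (a * b) = 0) : a = 0 := by
  apply al_ext
  intro g
  have := h (dl g⁻¹)
  rw [t_mul_dl, inv_inv] at this
  rw [this]
  rfl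

theorem t_nondeg_sb {H : Subgroup G} {a : Al k G} (ha : a ∈ sb k H) (h : ∀ b ∈ sb k H, t (a * b) = 0) :
    a = 0 := by
  apply al_ext
  intro g
  by_cases hg : g ∈ H
  · have := h (dl g⁻¹) (dl_mem.2 (H.inv_mem hg))
    rw [t_mul_dl, inv_inv] at this
    rw [this]
    rfl
  · rw [ha g hg]
    rfl

end

end LieP
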