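import Pool.Agent.LieP.I12

/-!
# MP_6c3636_al, section 15, module I13 (stub by helper89, proof by helper28)

(S6) for `G(n, F, σ)`: `gl6` for the relation `S i j := y_j < y_i ∧ z_i = z_j` gives `u = a b c` in `GL`. `u = theta u = (theta a)(theta b)(theta c)`, and `theta`
preserves `GS S` and the three supports (`theta_GS`; `x_{rev i} = - x_i`, so `x_j < x_i` iff `x_{rev i} < x_{rev j}`). By `gl6u`: `theta a = a` etc., so `a, b, c ∈ UG` (`theta_eq`).
-/

namespace LieP.GI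

noncomputable section

open Classical Matrix

variable {n : ℕ} {F : Type} [Field F]

theorem I13_mem [Finite F] {σ : F ≃+* F} {y z : En n} {g : GL (Fin n) F}
    {hS : ∀ i j k, (co y j < co y i ∧ co z i = co z j) → (co y k < co y j ∧ co z j = co z k) →
      (co y k < co y i ∧ co z i = co z k)} (h : g ∈ UG σ Fin.revPerm)
    (hg : g ∈ GS F (fun i j => co y j < co y i ∧ co z i = co z j) hS) :
    g ∈ UU σ (co y) ⊓ UL σ Fin.revPerm (co z) := by
  rw [Subgroup.mem_inf, mem_UU, mem_UL]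
  refine ⟨⟨h, fun i j hij => hg.1 i j (fun h' => hij h'.1)⟩, h, fun i j hij => ?_⟩
  rw [hg.1 i j (fun h' => hij h'.2), Matrix.one_apply_ne (fun h' => hij (by rw [h']))]

theorem I13_Sp [Finite F] {σ : F ≃+* F} {S : Fin n → Fin n → Prop} (hS : ∀ i j k, S i j → S j k → S i k)
    (hr : ∀ i j, S (Fin.rev j) (Fin.rev i) → S i j) {g : GL (Fin n) F} (hg : Sp S (g : Matrix (Fin n) (Fin n) F)) :
    Sp S (theta σ g : Matrix (Fin n) (Fin n) F) :=
  (theta_GS (hS := hS) (hT := hS) hr (mem_GS.2 hg)).1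

theorem c_s6 [Finite F] (σ : F ≃+* F) : ∀ x y z : En n, ∀ u ∈ UU σ (co y) ⊓ UL σ Fin.revPerm (co z),
    ∃ a ∈ UU σ (co y) ⊓ UL σ Fin.revPerm (co z), ∃ b ∈ UU σ (co y) ⊓ UL σ Fin.revPerm (co z),
    ∃ c ∈ UU σ (co y) ⊓ UL σ Fin.revPerm (co z),
      a ∈ UU σ (co x) ∧ b ∈ UL σ Fin.revPerm (co x) ∧ c ∈ UU σ (co (-x)) ∧ u = a * b * c := by
  intro x y z u hu
  rw [Subgroup.mem_inf, mem_UU, mem_UL] at hu
  obtain ⟨⟨hu1, hu2⟩, -, hu3⟩ := hu
  have hS : ∀ i j k : Fin n, (co y j < co y i ∧ co z i = co z j) → (co y k < co y j ∧ co z j = co z k) →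
      (co y k < co y i ∧ co z i = co z k) := fun i j k h h' => ⟨h'.1.trans h.1, h.2.trans h'.2⟩
  have hi : ∀ i : Fin n, ¬ (co y i < co y i ∧ co z i = co z i) := fun i h => lt_irrefl _ h.1
  have huS : u ∈ GS F (fun i j => co y j < co y i ∧ co z i = co z j) hS := by
    rw [mem_GS]
    intro i j hij
    by_cases h1 : co y j < co y i
    · have h2 : co z i ≠ co z j := fun h' => hij ⟨h1, h'⟩
      rw [hu3 i j h2, Matrix.one_apply_ne (fun h' => h2 (by rw [h']))]
    · exact hu2 i j h1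
  obtain ⟨a, ha, b, hb, c, hc, ha', hb', hc', habc⟩ := gl6 hS hi (co x) huS
  have r1 : ∀ i j : Fin n, (co x (Fin.rev i) < co x (Fin.rev j)) → co x j < co x i := by
    intro i j h
    rw [co_rev, co_rev] at h
    exact neg_lt_neg_iff.1 h
  have r2 : ∀ i j : Fin n, (co x (Fin.rev j) = co x (Fin.rev i)) → co x i = co x j := by
    intro i j h
    rw [co_rev, co_rev] at h
    exact (neg_injective h).symm
  have r3 : ∀ i j : Fin n, (co x (Fin.rev j) < co x (Fin.rev i)) → co x i < co x j := by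
    intro i j h
    rw [co_rev, co_rev] at h
    exact neg_lt_neg_iff.1 h
  have ht : theta σ u = u := theta_eq.2 hu1
  have h1 : theta σ a * theta σ b * theta σ c = a * b * c := by
    rw [← theta_mul, ← theta_mul, ← habc, ht]
  obtain ⟨e1, e2, e3⟩ := gl6u (co x) (I13_Sp (fun _ _ _ h h' => h'.trans h) r1 ha') ha'
    (I13_Sp (fun _ _ _ h h' => h.trans h') r2 hb') hb'
    (I13_Sp (fun _ _ _ h h' => h.trans h') r3 hc') hc' h1
  have ua := theta_eq.1 e1
  have ub := theta_eq.1 e2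
  have uc := theta_eq.1 e3
  refine ⟨a, I13_mem ua ha, b, I13_mem ub hb, c, I13_mem uc hc, ?_, ?_, ?_, habc⟩
  · rw [mem_UU]
    exact ⟨ua, fun i j hij => ha' i j hij⟩
  · rw [mem_UL]
    refine ⟨ub, fun i j hij => ?_⟩
    rw [hb' i j hij, Matrix.one_apply_ne (fun h' => hij (by rw [h']))]
  · rw [mem_UU]
    refine ⟨uc, fun i j hij => hc' i j (fun h => hij ?_)⟩
    rw [co_neg, co_neg]
    exact neg_lt_neg h

end

end LieP.GI
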