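import Pool.Agent.LieP.I02

/-!
# MP_6c3636_al, section 15, module I14 (stub by helper89)

(S7), (S8). (s7U), (s7L): `IsMo.conj` and `co_acG`: the entry of `g u g⁻¹` at `(π i, π j)` is `g_i u_{ij} g_j⁻¹`, and every position is `(π i, π j)`.
(s7R): `acG_rt`. (s8): `g = v l u`, `p := l u` has `p_{kj} = 0` if `x_k < x_j`; `p = v⁻¹ g`, `(v⁻¹ g)_{π j, j} = (v⁻¹)_{π j, π j} g_{π j, j} = g_{π j, j} ≠ 0`
(`IsMo.apply_mul`), so `x_{π j} ≥ x_j` for all `j`; the sum over all `j` gives equality. (s8'): `x_{π j} = x_j` for all `j`, the nonzero entries of `g` are at `(π j, j)`.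
-/

namespace LieP.GI

noncomputable section

open Classical Matrix

variable {n : ℕ} {F : Type} [Field F]

theorem I14_conj_mem {σ : F ≃+* F} {g u : GL (Fin n) F} (hg : g ∈ MoN (n := n) σ)
    (hu : u ∈ UG σ Fin.revPerm) : g * u * g⁻¹ ∈ UG σ Fin.revPerm :=
  Subgroup.mul_mem _ (Subgroup.mul_mem _ hg.1 hu) (Subgroup.inv_mem _ hg.1)

theorem c_s7U [Finite F] (σ : F ≃+* F) : ∀ g ∈ MoN (n := n) σ, ∀ x : En n, ∀ u ∈ UU σ (co x),
    g * u * g⁻¹ ∈ UU σ (co (acG g x)) := by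
  intro g hg x u hu
  rw [mem_UU] at hu ⊢
  refine ⟨I14_conj_mem hg hu.1, ?_⟩
  intro i j hij
  obtain ⟨a, rfl⟩ := (pm g).surjective i
  obtain ⟨b, rfl⟩ := (pm g).surjective j
  rw [co_acG hg, co_acG hg] at hij
  rw [(pm_spec hg).conj, hu.2 a b hij]
  by_cases hab : a = b
  · subst hab
    rw [Matrix.one_apply_eq, Matrix.one_apply_eq, mul_one, mul_inv_cancel₀ ((pm_spec hg).ne a)]
  · rw [Matrix.one_apply_ne hab, Matrix.one_apply_ne (fun h => hab ((pm g).injective h)), mul_zero, zero_mul]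

theorem c_s7L [Finite F] (σ : F ≃+* F) : ∀ g ∈ MoN (n := n) σ, ∀ x : En n, ∀ u ∈ UL σ Fin.revPerm (co x),
    g * u * g⁻¹ ∈ UL σ Fin.revPerm (co (acG g x)) := by
  intro g hg x u hu
  rw [mem_UL] at hu ⊢
  refine ⟨I14_conj_mem hg hu.1, ?_⟩
  intro i j hij
  obtain ⟨a, rfl⟩ := (pm g).surjective i
  obtain ⟨b, rfl⟩ := (pm g).surjective j
  rw [co_acG hg, co_acG hg] at hij
  rw [(pm_spec hg).conj, hu.2 a b hij, mul_zero, zero_mul]

theorem c_s7R (σ : F ≃+* F) : ∀ g ∈ MoN (n := n) σ, ∀ a ∈ Rt n, acG g a ∈ Rt n := by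
  intro g hg a ha
  obtain ⟨i, j, hij, rfl⟩ := mem_Rt.1 ha
  rw [acG_rt hg]
  exact mem_Rt.2 ⟨_, _, fun h => hij ((pm g).injective h), rfl⟩

theorem c_s8 [Finite F] (σ : F ≃+* F) : ∀ g ∈ MoN (n := n) σ, ∀ x : En n,
    (∃ v ∈ UU σ (co (-x)), ∃ l ∈ UL σ Fin.revPerm (co x), ∃ u ∈ UU σ (co x), g = v * l * u) → acG g x = x := by
  rintro g hg x ⟨v, hv, l, hl, u, hu, hgv⟩
  have hp : ∀ k j, co x k < co x j →
      ((l * u : GL (Fin n) F) : Matrix (Fin n) (Fin n) F) k j = 0 := by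
    intro k j hkj
    rw [Units.val_mul, Matrix.mul_apply]
    refine Finset.sum_eq_zero fun m _ => ?_
    by_cases hm : co x k = co x m
    · rw [(mem_UU.1 hu).2 m j (by rw [← hm]; exact not_lt.2 hkj.le), Matrix.one_apply_ne, mul_zero]
      rintro rfl
      exact hkj.ne hm
    · rw [(mem_UL.1 hl).2 k m hm, zero_mul]
  have hle : ∀ j, co x j ≤ co x (pm g j) := by
    intro j
    by_contra hlt
    have h1 : v⁻¹ * g = l * u := by
      rw [hgv, mul_assoc v l u, inv_mul_cancel_left]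
    have h2 := (pm_spec hg).apply_mul (h := v⁻¹) (pm g j) j
    rw [h1, hp _ _ (not_le.1 hlt), (mem_UU.1 (Subgroup.inv_mem _ hv)).2 (pm g j) (pm g j) (lt_irrefl _),
      Matrix.one_apply_eq, one_mul] at h2
    exact (pm_spec hg).ne j h2.symm
  have hsum : ∑ j, co x j = ∑ j, co x (pm g j) := (Equiv.sum_comp (pm g) (fun j => co x j)).symm
  have heq := (Finset.sum_eq_sum_iff_of_le (fun j _ => hle j)).1 hsum
  apply co_ext
  intro i
  obtain ⟨j, rfl⟩ := (pm g).surjective i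
  rw [co_acG hg]
  exact heq j (Finset.mem_univ j)

theorem c_s8' [Finite F] (σ : F ≃+* F) : ∀ g ∈ MoN (n := n) σ, ∀ x : En n, acG g x = x →
    g ∈ UL σ Fin.revPerm (co x) := by
  intro g hg x hx
  rw [mem_UL]
  refine ⟨hg.1, fun i j hij => ?_⟩
  refine pm_spec hg i j ?_
  rintro rfl
  apply hij
  rw [← co_acG hg x j, hx]

end

end LieP.GI
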