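import Pool.Agent.LieP.I02

/-!
# MP_6c3636_al, section 15, module I16 (stub by helper89, proof by helper74)

(S11). `u ∈ U x`: `u - 1` has support in `{x_i > x_j}`, so `(u - 1)^n = 0` (chains), and in characteristic 2 `u^(2^k) - 1 = (u - 1)^(2^k)`. (s11'): `z` generic: the coordinates
`z_i` are pairwise different, so the elements of `L z` are diagonal; an element of order 2 would have the diagonal entries `a` with `a * a = 1`, so `a = 1` in characteristic 2.
-/

namespace LieP.GI

noncomputable section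

open Classical Matrix

variable {n : ℕ} {F : Type} [Field F]

theorem I16_add_self [CharP F 2] (M : Matrix (Fin n) (Fin n) F) : M + M = 0 := by
  ext i j
  exact CharTwo.add_self_eq_zero _

theorem I16_pow [CharP F 2] (M : Matrix (Fin n) (Fin n) F) (k : ℕ) : (1 + M) ^ (2 ^ k) = 1 + M ^ (2 ^ k) := by
  induction k with
  | zero => rw [pow_zero, pow_one, pow_one]
  | succ k ih =>
    rw [pow_succ 2 k, pow_mul, pow_mul, ih, pow_two, pow_two, add_mul, one_mul, mul_add, mul_one]
    have h := I16_add_self (M ^ 2 ^ k)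
    calc 1 + M ^ 2 ^ k + (M ^ 2 ^ k + M ^ 2 ^ k * M ^ 2 ^ k)
        = 1 + (M ^ 2 ^ k + M ^ 2 ^ k) + M ^ 2 ^ k * M ^ 2 ^ k := by abel
      _ = 1 + M ^ 2 ^ k * M ^ 2 ^ k := by rw [h, add_zero]

/-- the number of the smaller coordinates -/
def I16_r (x : Fin n → ℝ) (i : Fin n) : ℕ := (Finset.univ.filter fun k => x k < x i).card

theorem I16_r_lt (x : Fin n → ℝ) (i : Fin n) : I16_r x i < n := by
  have h : (Finset.univ.filter fun k => x k < x i) ⊂ (Finset.univ : Finset (Fin n)) := by
    refine Finset.filter_ssubset.2 ⟨i, Finset.mem_univ _, lt_irrefl _⟩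
  have h1 := Finset.card_lt_card h
  rwa [Finset.card_univ, Fintype.card_fin] at h1

theorem I16_r_mono (x : Fin n → ℝ) {i j : Fin n} (h : x j < x i) : I16_r x j + 1 ≤ I16_r x i := by
  refine Finset.card_lt_card ?_
  refine (Finset.ssubset_iff_of_subset fun k hk => ?_).2 ⟨j, ?_, ?_⟩
  · rw [Finset.mem_filter] at hk ⊢
    exact ⟨hk.1, hk.2.trans h⟩
  · rw [Finset.mem_filter]
    exact ⟨Finset.mem_univ _, h⟩
  · rw [Finset.mem_filter]
    exact fun h' => lt_irrefl _ h'.2

theorem I16_chain (x : Fin n → ℝ) (N : Matrix (Fin n) (Fin n) F) (hN : ∀ i j, ¬ x j < x i → N i j = 0) (m : ℕ) :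
    ∀ i j, (N ^ m) i j ≠ 0 → I16_r x j + m ≤ I16_r x i := by
  induction m with
  | zero =>
    intro i j h
    rw [pow_zero] at h
    by_cases hij : i = j
    · rw [hij, add_zero]
    · exact absurd (Matrix.one_apply_ne hij) h
  | succ m ih =>
    intro i j h
    rw [pow_succ, Matrix.mul_apply] at h
    obtain ⟨k, _, hk⟩ := Finset.exists_ne_zero_of_sum_ne_zero h
    have h1 := ih i k (left_ne_zero_of_mul hk)
    have h2 : x j < x k := by
      by_contra h'
      exact right_ne_zero_of_mul hk (hN k j h')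
    have h3 := I16_r_mono x h2
    omega

theorem c_s11 [Finite F] [CharP F 2] (σ : F ≃+* F) : ∀ x : En n, ∀ u ∈ UU σ (co x), ∃ k : ℕ, u ^ (2 ^ k) = 1 := by
  intro x u hu
  have hu' := (mem_UU.1 hu).2
  refine ⟨n, ?_⟩
  apply Units.ext
  rw [Units.val_pow_eq_pow_val, Units.val_one]
  have h1 : (u : Matrix (Fin n) (Fin n) F) = 1 + ((u : Matrix (Fin n) (Fin n) F) - 1) := by abel
  have h2 : ((u : Matrix (Fin n) (Fin n) F) - 1) ^ (2 ^ n) = 0 := by
    ext i j
    by_contra h
    have h3 := I16_chain (co x) ((u : Matrix (Fin n) (Fin n) F) - 1)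
      (fun i j hij => by rw [Matrix.sub_apply, hu' i j hij, sub_self]) (2 ^ n) i j h
    have h4 := I16_r_lt (co x) i
    have h5 : n < 2 ^ n := Nat.lt_two_pow_self
    omega
  rw [h1, I16_pow, h2, add_zero]

theorem c_s11' [Finite F] [CharP F 2] (σ : F ≃+* F) : ∀ z : En n, (∀ a ∈ Rt n, inner ℝ a z ≠ 0) →
    Odd (Nat.card (UL (I := Fin n) σ Fin.revPerm (co z))) := by
  intro z hz
  rw [forall_Rt] at hz
  have hz' : ∀ i j : Fin n, i ≠ j → co z i ≠ co z j := fun i j hij h => hz i j hij (zero_rt.2 h)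
  by_contra hodd
  have h2 : 2 ∣ Nat.card (UL (I := Fin n) σ Fin.revPerm (co z)) :=
    even_iff_two_dvd.1 (Nat.not_odd_iff_even.1 hodd)
  have : Fact (Nat.Prime 2) := ⟨Nat.prime_two⟩
  have : Finite (GL (Fin n) F) := inferInstance
  obtain ⟨g, hg⟩ := exists_prime_orderOf_dvd_card' 2 h2
  have hgg : (g : GL (Fin n) F) * (g : GL (Fin n) F) = 1 := by
    have h3 : g ^ 2 = 1 := by rw [← hg]; exact pow_orderOf_eq_one g
    rw [pow_two] at h3
    exact congrArg (fun y : UL (I := Fin n) σ Fin.revPerm (co z) => (y : GL (Fin n) F)) h3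
  have hd : ∀ i j : Fin n, i ≠ j → ((g : GL (Fin n) F) : Matrix (Fin n) (Fin n) F) i j = 0 :=
    fun i j hij => (mem_UL.1 g.2).2 i j (hz' i j hij)
  have hone : ((g : GL (Fin n) F) : Matrix (Fin n) (Fin n) F) = 1 := by
    ext i j
    by_cases hij : i = j
    · subst hij
      rw [Matrix.one_apply_eq]
      have h4 : (((g : GL (Fin n) F) : Matrix (Fin n) (Fin n) F) *
          ((g : GL (Fin n) F) : Matrix (Fin n) (Fin n) F)) i i = 1 := by
        rw [← Units.val_mul, hgg, Units.val_one, Matrix.one_apply_eq]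
      rw [Matrix.mul_apply, Finset.sum_eq_single i (fun k _ hk => by rw [hd i k hk.symm, zero_mul])
        (fun h => absurd (Finset.mem_univ _) h)] at h4
      have h5 : (((g : GL (Fin n) F) : Matrix (Fin n) (Fin n) F) i i + 1) *
          (((g : GL (Fin n) F) : Matrix (Fin n) (Fin n) F) i i + 1) = 0 := by
        have h6 : (1 : F) + 1 = 0 := CharTwo.add_self_eq_zero _
        have h7 : ((g : GL (Fin n) F) : Matrix (Fin n) (Fin n) F) i i +
          ((g : GL (Fin n) F) : Matrix (Fin n) (Fin n) F) i i = 0 := CharTwo.add_self_eq_zero _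
        linear_combination h4 + h7 + h6
      have h8 := mul_self_eq_zero.1 h5
      rw [CharTwo.add_eq_zero] at h8
      exact h8
    · rw [hd i j hij, Matrix.one_apply_ne hij]
  have h9 : g = 1 := by
    apply Subtype.ext
    apply Units.ext
    rw [hone]
    rfl
  rw [h9, orderOf_one] at hg
  exact absurd hg (by norm_num)

end

end LieP.GI
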