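import Pool.Agent.LieP.I02

/-!
# MP_6c3636_al, section 15, module I17 (stub by helper89)

(S12). `z, z'` generic: the coordinates are pairwise different. There is exactly one permutation `π` with [`z_i < z_j` iff `z'_{π i} < z'_{π j}`] (sort both; or
`π i := ` the index with `#{j : z'_j < z'_{π i}} = #{j : z_j < z_i}`). `i ↦ rev (π (rev i))` has the same property, so `π` commutes with `rev`. Its permutation matrix is in `MoN σ`
(`adj P * P = 1`), and `co (acG P z) (π i) = co z i`.
-/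

namespace LieP.GI

noncomputable section

open Classical Matrix

variable {n : ℕ} {F : Type} [Field F]

theorem I17_inj {z : En n} (h : ∀ a ∈ Rt n, inner ℝ a z ≠ 0) : Function.Injective (co z) := by
  rw [forall_Rt] at h
  intro i j hij
  by_contra hne
  exact h i j hne (zero_rt.2 hij)

/-- the sorting permutation commutes with `rev` -/
theorem I17_sort {z : En n} (h : Function.Injective (co z)) :
    StrictMono (co z ∘ Tuple.sort (co z)) ∧
      ∀ i, Tuple.sort (co z) (Fin.rev i) = Fin.rev (Tuple.sort (co z) i) := by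
  have h1 : Monotone (co z ∘ Tuple.sort (co z)) := Tuple.monotone_sort _
  have h2 : StrictMono (co z ∘ Tuple.sort (co z)) :=
    h1.strictMono_of_injective (h.comp (Tuple.sort (co z)).injective)
  refine ⟨h2, ?_⟩
  have h3 : Monotone (co z ∘ (Fin.revPerm * Tuple.sort (co z) * Fin.revPerm : Equiv.Perm (Fin n))) := by
    intro i j hij
    show co z (Fin.rev (Tuple.sort (co z) (Fin.rev i))) ≤ co z (Fin.rev (Tuple.sort (co z) (Fin.rev j)))
    rw [co_rev, co_rev, neg_le_neg_iff]
    exact h1 (Fin.rev_le_rev.2 hij)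
  have h4 := Tuple.unique_monotone h1 h3
  intro i
  have h5 : co z (Tuple.sort (co z) (Fin.rev i)) =
      co z (Fin.rev (Tuple.sort (co z) (Fin.rev (Fin.rev i)))) := congrFun h4 (Fin.rev i)
  rw [Fin.rev_rev] at h5
  exact h h5

/-- the permutation matrix -/
def I17_P (F : Type) [Field F] (π : Equiv.Perm (Fin n)) : Matrix (Fin n) (Fin n) F :=
  fun i j => if i = π j then 1 else 0

/-- the inverse of the permutation matrix -/
def I17_Q (F : Type) [Field F] (π : Equiv.Perm (Fin n)) : Matrix (Fin n) (Fin n) F :=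
  fun i j => if j = π i then 1 else 0

theorem I17_PQ (π : Equiv.Perm (Fin n)) : I17_P F π * I17_Q F π = 1 := by
  ext i k
  rw [Matrix.mul_apply, Finset.sum_eq_single (π⁻¹ i)]
  · unfold I17_P I17_Q
    rw [pinv', if_pos rfl, one_mul, Matrix.one_apply]
    by_cases h : k = i
    · rw [if_pos h, if_pos h.symm]
    · rw [if_neg h, if_neg (fun h' => h h'.symm)]
  · intro j _ hj
    unfold I17_P
    rw [if_neg, zero_mul]
    intro h
    apply hj
    rw [h, pinv]
  · intro h
    exact absurd (Finset.mem_univ _) h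

theorem I17_QP (π : Equiv.Perm (Fin n)) : I17_Q F π * I17_P F π = 1 := by
  ext i k
  rw [Matrix.mul_apply, Finset.sum_eq_single (π i)]
  · unfold I17_P I17_Q
    rw [if_pos rfl, one_mul, Matrix.one_apply]
    by_cases h : i = k
    · rw [if_pos h, if_pos (congrArg π h)]
    · rw [if_neg h, if_neg (fun h' => h (π.injective h'))]
  · intro j _ hj
    unfold I17_Q
    rw [if_neg hj, zero_mul]
  · intro h
    exact absurd (Finset.mem_univ _) h

/-- the permutation matrix as an element of the group -/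
def I17_g (F : Type) [Field F] (π : Equiv.Perm (Fin n)) : GL (Fin n) F :=
  ⟨I17_P F π, I17_Q F π, I17_PQ π, I17_QP π⟩

theorem I17_mo (π : Equiv.Perm (Fin n)) : IsMo (I17_g F π) π := by
  intro i j hij
  show I17_P F π i j = 0
  unfold I17_P
  rw [if_neg hij]

theorem I17_mem (σ : F ≃+* F) (π : Equiv.Perm (Fin n)) (h : ∀ i, π (Fin.rev i) = Fin.rev (π i)) :
    I17_g F π ∈ MoN σ := by
  refine ⟨?_, π, I17_mo π⟩
  show adj σ Fin.revPerm (I17_P F π) * I17_P F π = 1
  have h1 : adj σ Fin.revPerm (I17_P F π) = I17_Q F π := by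
    ext i j
    show σ (if Fin.rev j = π (Fin.rev i) then (1 : F) else 0) = if j = π i then 1 else 0
    rw [h]
    by_cases hj : j = π i
    · rw [if_pos hj, if_pos (congrArg Fin.rev hj), map_one]
    · rw [if_neg hj, if_neg (fun h' => hj (Fin.rev_injective h')), map_zero]
  rw [h1, I17_QP]

theorem c_s12 [Finite F] (σ : F ≃+* F) : ∀ z z' : En n, (∀ a ∈ Rt n, inner ℝ a z ≠ 0) →
    (∀ a ∈ Rt n, inner ℝ a z' ≠ 0) →
    ∃ m ∈ MoN (n := n) σ, ∀ a ∈ Rt n, (0 < inner ℝ a (acG m z) ↔ 0 < inner ℝ a z') := by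
  intro z z' hz hz'
  obtain ⟨h1, h2⟩ := I17_sort (I17_inj hz)
  obtain ⟨h1', h2'⟩ := I17_sort (I17_inj hz')
  let s : Equiv.Perm (Fin n) := Tuple.sort (co z)
  let s' : Equiv.Perm (Fin n) := Tuple.sort (co z')
  let π : Equiv.Perm (Fin n) := s' * s⁻¹
  have hs : ∀ i, s⁻¹ (Fin.rev i) = Fin.rev (s⁻¹ i) := by
    intro i
    apply s.injective
    rw [h2, pinv', pinv']
  have hπ : ∀ i, π (Fin.rev i) = Fin.rev (π i) := by
    intro i
    show s' (s⁻¹ (Fin.rev i)) = Fin.rev (s' (s⁻¹ i))
    rw [hs, h2']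
  have hlt : ∀ i j, co z i < co z j ↔ co z' (π i) < co z' (π j) := by
    intro i j
    have e1 : co z' (π i) < co z' (π j) ↔ s⁻¹ i < s⁻¹ j := h1'.lt_iff_lt
    have e2 : (co z ∘ s) (s⁻¹ i) < (co z ∘ s) (s⁻¹ j) ↔ s⁻¹ i < s⁻¹ j := h1.lt_iff_lt
    have e3 : ∀ k, (co z ∘ s) (s⁻¹ k) = co z k := fun k => congrArg (co z) (pinv' s k)
    rw [e3, e3] at e2
    rw [e1, e2]
  have hm := I17_mem σ π hπ
  refine ⟨I17_g F π, hm, forall_Rt.2 fun i j _ => ?_⟩
  have hp : pm (I17_g F π) = π := pm_eq (I17_mo π)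
  have hc : ∀ k, co (acG (I17_g F π) z) (π k) = co z k := by
    intro k
    have := co_acG hm z k
    rwa [hp] at this
  rw [pos_rt, pos_rt, ← pinv' π i, ← pinv' π j, hc, hc]
  exact hlt _ _

end

end LieP.GI
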