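import Pool.Agent.LieP.I02

/-!
# MP_6c3636_al, section 15, module I18 (stub by helper89)

(S13), (S14) at `z_0`. `le_z0`: `y ≤ z_0` iff `co y` is antitone. (b13): `y` and `y ∘ π⁻¹` are both antitone, so equal (two antitone rearrangements; e.g. for all `c` the sets
`{y_i ≥ c}` and `{y_{π⁻¹ i} ≥ c}` are initial segments with the same number of elements). (b14): `mem_Dl0`, `z0_lt`. (b14'): differences `d_r := 0` if the root of `(r, r+1)` is in `J`, otherwise `1`, for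
`r + 1 < n` (`rt i j = rt (rev j) (rev i)`, so `d_r = d_{n-2-r}`; a root of `(r, r+1)` is in `J` iff that of the mirror position is); `y_i := (Σ_{r ≥ i} d_r - Σ_{r < i} d_r) / 2`.
(b14''): `rt i j = Σ_{i ≤ r < j} rt r (r+1)` for `i < j`, and each `rt r (r+1)` is in `Dl0` (`r` or `n-2-r` is `≤ n/2 - 1`); so nonnegative integer coefficients; the set of the `a` with such a representation is closed under addition.
-/

namespace LieP.GI

noncomputable section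

open Classical Matrix

variable {n : ℕ} {F : Type} [Field F]

theorem c_b13 (σ : F ≃+* F) : ∀ g ∈ MoN (n := n) σ, ∀ y : En n, (∀ a ∈ Rt n, 0 < inner ℝ a y → 0 < inner ℝ a (z0 n)) →
    (∀ a ∈ Rt n, 0 < inner ℝ a (acG g y) → 0 < inner ℝ a (z0 n)) → acG g y = y := by
  intro g hg y h1 h2
  rw [le_z0] at h1 h2
  apply co_ext
  intro i
  have e : co (acG g y) = co y ∘ ⇑((pm g)⁻¹) := by
    funext j
    exact co_acG' hg y j
  rw [e] at h2
  have h3 : Antitone (co y ∘ ⇑(1 : Equiv.Perm (Fin n))) := h1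
  have h4 := Tuple.unique_antitone h2 h3
  have h5 := congrFun h4 i
  rw [e]
  exact h5

theorem c_b14 : ∀ a ∈ Dl0 n, a ∈ Rt n ∧ 0 < inner ℝ a (z0 n) := by
  intro a ha
  obtain ⟨r, h2, h, rfl⟩ := mem_Dl0.1 ha
  have hlt : (⟨r, Nat.lt_of_succ_lt h⟩ : Fin n) < ⟨r + 1, h⟩ := by
    rw [Fin.mk_lt_mk]
    exact Nat.lt_succ_self r
  refine ⟨mem_Rt.2 ⟨_, _, hlt.ne, rfl⟩, ?_⟩
  rw [pos_rt, z0_lt]
  exact hlt

private theorem I18_rt_mirror (i j : Fin n) : rt i j = rt (Fin.rev j) (Fin.rev i) := by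
  apply ext_inner_right ℝ
  intro w
  rw [inner_rt, inner_rt, co_rev, co_rev]
  ring

/-- the sums of the first terms -/
private def I18_S (J : Finset (En n)) (m : ℕ) : ℝ :=
  - ∑ r ∈ Finset.range m, (if ∃ h : r + 1 < n, rt ⟨r, Nat.lt_of_succ_lt h⟩ ⟨r + 1, h⟩ ∈ J then (0 : ℝ) else 1)

private theorem I18_S_succ (J : Finset (En n)) (m : ℕ) : I18_S J m - I18_S J (m + 1) =
    if ∃ h : m + 1 < n, rt ⟨m, Nat.lt_of_succ_lt h⟩ ⟨m + 1, h⟩ ∈ J then (0 : ℝ) else 1 := by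
  unfold I18_S
  rw [Finset.sum_range_succ]
  ring

theorem c_b14' : ∀ J ⊆ Dl0 n, ∃ y : En n, (∀ a ∈ J, inner ℝ a y = 0) ∧ ∀ a ∈ Dl0 n, a ∉ J → 0 < inner ℝ a y := by
  intro J hJ
  let f : Fin n → ℝ := fun i => (I18_S J (i : ℕ) - I18_S J ((Fin.rev i : Fin n) : ℕ)) / 2
  have hf : ∀ i, f (Fin.rev i) = - f i := by
    intro i
    show (I18_S J ((Fin.rev i : Fin n) : ℕ) - I18_S J ((Fin.rev (Fin.rev i) : Fin n) : ℕ)) / 2 =
      - ((I18_S J (i : ℕ) - I18_S J ((Fin.rev i : Fin n) : ℕ)) / 2)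
    rw [Fin.rev_rev]
    ring
  have key : ∀ (r : ℕ) (h : r + 1 < n), inner ℝ (rt (⟨r, Nat.lt_of_succ_lt h⟩ : Fin n) ⟨r + 1, h⟩) (ofc f hf) =
      ((if ∃ h : r + 1 < n, rt ⟨r, Nat.lt_of_succ_lt h⟩ ⟨r + 1, h⟩ ∈ J then (0 : ℝ) else 1) +
        (if ∃ h : (n - 2 - r) + 1 < n, rt ⟨n - 2 - r, Nat.lt_of_succ_lt h⟩ ⟨(n - 2 - r) + 1, h⟩ ∈ J
          then (0 : ℝ) else 1)) / 2 := by
    intro r h
    rw [inner_rt, co_ofc, co_ofc, ← I18_S_succ, ← I18_S_succ]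
    show (I18_S J r - I18_S J ((Fin.rev (⟨r, Nat.lt_of_succ_lt h⟩ : Fin n) : Fin n) : ℕ)) / 2 -
      (I18_S J (r + 1) - I18_S J ((Fin.rev (⟨r + 1, h⟩ : Fin n) : Fin n) : ℕ)) / 2 = _
    have e1 : ((Fin.rev (⟨r, Nat.lt_of_succ_lt h⟩ : Fin n) : Fin n) : ℕ) = (n - 2 - r) + 1 := by
      rw [Fin.val_rev]
      show n - (r + 1) = _
      omega
    have e2 : ((Fin.rev (⟨r + 1, h⟩ : Fin n) : Fin n) : ℕ) = n - 2 - r := by
      rw [Fin.val_rev]
      show n - (r + 1 + 1) = _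
      omega
    rw [e1, e2]
    ring
  refine ⟨ofc f hf, ?_, ?_⟩
  · intro a ha
    obtain ⟨r, h2, h, rfl⟩ := mem_Dl0.1 (hJ ha)
    have h' : (n - 2 - r) + 1 < n := by omega
    have hm : rt (⟨n - 2 - r, Nat.lt_of_succ_lt h'⟩ : Fin n) ⟨(n - 2 - r) + 1, h'⟩ ∈ J := by
      have e : rt (⟨r, Nat.lt_of_succ_lt h⟩ : Fin n) ⟨r + 1, h⟩ =
          rt (⟨n - 2 - r, Nat.lt_of_succ_lt h'⟩ : Fin n) ⟨(n - 2 - r) + 1, h'⟩ := by
        rw [I18_rt_mirror]
        congr 1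
        · apply Fin.ext
          rw [Fin.val_rev]
          show n - (r + 1 + 1) = n - 2 - r
          omega
        · apply Fin.ext
          rw [Fin.val_rev]
          show n - (r + 1) = n - 2 - r + 1
          omega
      rw [← e]
      exact ha
    rw [key r h, if_pos ⟨h, ha⟩, if_pos ⟨h', hm⟩]
    norm_num
  · intro a ha hn
    obtain ⟨r, h2, h, rfl⟩ := mem_Dl0.1 ha
    rw [key r h, if_neg (fun hh => hn hh.2)]
    split_ifs <;> norm_num

private theorem I18_simple {r : ℕ} (h : r + 1 < n) : rt (⟨r, Nat.lt_of_succ_lt h⟩ : Fin n) ⟨r + 1, h⟩ ∈ Dl0 n := by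
  rw [mem_Dl0]
  by_cases h2 : 2 * r + 2 ≤ n
  · exact ⟨r, h2, h, rfl⟩
  · have h' : (n - 2 - r) + 1 < n := by omega
    refine ⟨n - 2 - r, by omega, h', ?_⟩
    rw [I18_rt_mirror]
    congr 1
    · apply Fin.ext
      rw [Fin.val_rev]
      show n - (r + 1 + 1) = n - 2 - r
      omega
    · apply Fin.ext
      rw [Fin.val_rev]
      show n - (r + 1) = n - 2 - r + 1
      omega

private theorem I18_cone : ∀ (k : ℕ) (i j : Fin n), (i : ℕ) + k + 1 = j →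
    ∃ c : En n → ℝ, (∀ b ∈ Dl0 n, 0 ≤ c b) ∧ rt i j = ∑ b ∈ Dl0 n, c b • b := by
  have base : ∀ (i j : Fin n), (i : ℕ) + 1 = j →
      ∃ c : En n → ℝ, (∀ b ∈ Dl0 n, 0 ≤ c b) ∧ rt i j = ∑ b ∈ Dl0 n, c b • b := by
    intro i j hij
    have hj : (i : ℕ) + 1 < n := by rw [hij]; exact j.2
    have e : rt i j = rt (⟨(i : ℕ), Nat.lt_of_succ_lt hj⟩ : Fin n) ⟨(i : ℕ) + 1, hj⟩ := by
      congr 1
      apply Fin.ext
      exact hij.symm
    have hmem := I18_simple (n := n) hj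
    rw [← e] at hmem
    refine ⟨fun b => if b = rt i j then 1 else 0, fun b _ => ?_, ?_⟩
    · show (0 : ℝ) ≤ if b = rt i j then 1 else 0
      split_ifs <;> norm_num
    · rw [Finset.sum_eq_single (rt i j)]
      · show rt i j = (if rt i j = rt i j then (1 : ℝ) else 0) • rt i j
        rw [if_pos rfl, one_smul]
      · intro b _ hb
        show (if b = rt i j then (1 : ℝ) else 0) • b = 0
        rw [if_neg hb, zero_smul]
      · intro hb
        exact absurd hmem hb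
  intro k
  induction k with
  | zero =>
    intro i j hij
    exact base i j (by omega)
  | succ k ih =>
    intro i j hij
    have hm : (i : ℕ) + k + 1 < n := by have := j.2; omega
    obtain ⟨c1, hc1, e1⟩ := ih i ⟨(i : ℕ) + k + 1, hm⟩ rfl
    obtain ⟨c2, hc2, e2⟩ := base ⟨(i : ℕ) + k + 1, hm⟩ j (by
      show (i : ℕ) + k + 1 + 1 = j
      omega)
    refine ⟨fun b => c1 b + c2 b, fun b hb => add_nonneg (hc1 b hb) (hc2 b hb), ?_⟩
    have e3 : rt i j = rt i ⟨(i : ℕ) + k + 1, hm⟩ + rt ⟨(i : ℕ) + k + 1, hm⟩ j := by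
      apply ext_inner_right ℝ
      intro w
      rw [inner_add_left, inner_rt, inner_rt, inner_rt]
      ring
    rw [e3, e1, e2, ← Finset.sum_add_distrib]
    exact Finset.sum_congr rfl fun b _ => (add_smul _ _ _).symm

theorem c_b14'' : ∀ a ∈ Rt n, 0 < inner ℝ a (z0 n) →
    ∃ c : En n → ℝ, (∀ b ∈ Dl0 n, 0 ≤ c b) ∧ a = ∑ b ∈ Dl0 n, c b • b := by
  intro a ha hpos
  obtain ⟨i, j, hij, rfl⟩ := mem_Rt.1 ha
  rw [pos_rt, z0_lt] at hpos
  have h := Fin.lt_def.1 hpos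
  exact I18_cone ((j : ℕ) - i - 1) i j (by omega)

end

end LieP.GI
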