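import Pool.Agent.LieP.I04

/-!
# MP_6c3636_al, section 15, module I07 (stub by helper89)

Transport of (W4) from `z0` to generic points. `m := nz z`, `y0 := ac m⁻¹ y`, `l0 g := l (m g m⁻¹)`, `a0 := dl m⁻¹ * a * dl m`.
`conj_el`: conjugation by `dl m` maps `el k U l` to `el k (m U m⁻¹) (l (m⁻¹ . m))`; `conj_sb`: it maps `sb k H` to `sb k (m H m⁻¹)`.
(coefficients: `(dl m * a * dl m⁻¹).coeff g = a.coeff (m⁻¹ g m)`, library/`MonoidAlgebra.coeff_single_mul..`.)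
-/

namespace LieP.GI

noncomputable section

open Classical

variable {G E : Type} [Group G] [NormedAddCommGroup E] [InnerProductSpace ℝ E]

theorem I07_dl_mul {k : Type} [Field k] (g h : G) : (dl (g * h) : Al k G) = dl g * dl h := by
  unfold dl
  rw [MonoidAlgebra.single_mul_single, one_mul]

theorem I07_dl_one {k : Type} [Field k] : (dl 1 : Al k G) = 1 := rfl

theorem I07_conj_mul {k : Type} [Field k] (m : G) (a b : Al k G) :
    dl m * (a * b) * dl m⁻¹ = (dl m * a * dl m⁻¹) * (dl m * b * dl m⁻¹) := by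
  have h1 : (dl m⁻¹ : Al k G) * dl m = 1 := by
    rw [← I07_dl_mul, inv_mul_cancel, I07_dl_one]
  calc dl m * (a * b) * dl m⁻¹ = dl m * a * 1 * (b * dl m⁻¹) := by
        rw [mul_one]; simp only [mul_assoc]
    _ = dl m * a * (dl m⁻¹ * dl m) * (b * dl m⁻¹) := by rw [h1]
    _ = _ := by simp only [mul_assoc]

theorem I07_conj_conj {k : Type} [Field k] (m : G) (a : Al k G) :
    dl m * (dl m⁻¹ * a * dl m) * dl m⁻¹ = a := by
  have h1 : (dl m : Al k G) * dl m⁻¹ = 1 := by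
    rw [← I07_dl_mul, mul_inv_cancel, I07_dl_one]
  calc dl m * (dl m⁻¹ * a * dl m) * dl m⁻¹ = (dl m * dl m⁻¹) * a * (dl m * dl m⁻¹) := by
        simp only [mul_assoc]
    _ = a := by rw [h1, one_mul, mul_one]

theorem conj_coeff {k : Type} [Field k] (m : G) (a : Al k G) (g : G) :
    (dl m * a * dl m⁻¹ : Al k G).coeff g = a.coeff (m⁻¹ * g * m) := by
  unfold dl
  rw [MonoidAlgebra.coeff_mul_single_apply, mul_one, MonoidAlgebra.coeff_single_mul_apply, one_mul,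
    inv_inv, mul_assoc]

theorem conj_el [Finite G] {k : Type} [Field k] (m : G) {U V : Subgroup G} {l l' : G → ℤˣ}
    (hV : ∀ g, g ∈ V ↔ m⁻¹ * g * m ∈ U) (hl : ∀ g ∈ V, l' g = l (m⁻¹ * g * m)) :
    dl m * el k U l * dl m⁻¹ = el k V l' := by
  have hc : Nat.card U = Nat.card V := by
    refine Nat.card_congr ⟨fun u => ⟨m * u.1 * m⁻¹, (hV _).2 ?_⟩, fun v => ⟨m⁻¹ * v.1 * m, (hV _).1 v.2⟩,
      fun u => Subtype.ext ?_, fun v => Subtype.ext ?_⟩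
    · have h1 : m⁻¹ * (m * u.1 * m⁻¹) * m = u.1 := by group
      rw [h1]
      exact u.2
    · show m⁻¹ * (m * u.1 * m⁻¹) * m = u.1
      group
    · show m * (m⁻¹ * v.1 * m) * m⁻¹ = v.1
      group
  refine MonoidAlgebra.ext (Finsupp.ext fun g => ?_)
  rw [conj_coeff]
  show (if m⁻¹ * g * m ∈ U then (Nat.card U : k)⁻¹ * (((l (m⁻¹ * g * m) : ℤˣ) : ℤ) : k) else 0) =
    if g ∈ V then (Nat.card V : k)⁻¹ * (((l' g : ℤˣ) : ℤ) : k) else 0
  by_cases h : g ∈ V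
  · rw [if_pos h, if_pos ((hV g).1 h), hc, hl g h]
  · rw [if_neg h, if_neg fun h1 => h ((hV g).2 h1)]

theorem conj_sb {k : Type} [Field k] (m : G) {H K : Subgroup G} (hK : ∀ g, g ∈ K ↔ m⁻¹ * g * m ∈ H)
    {a : Al k G} (ha : a ∈ sb k K) : dl m⁻¹ * a * dl m ∈ sb k H := by
  intro g hg
  have h1 := conj_coeff m⁻¹ a g
  rw [inv_inv] at h1
  rw [h1]
  refine ha _ fun h2 => hg ?_
  have h3 := (hK _).1 h2
  have h4 : m⁻¹ * (m * g * m⁻¹) * m = g := by group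
  rw [h4] at h3
  exact h3

theorem PS.tw4 (P : PS G E) : ∀ z, (∀ a ∈ P.R, inner ℝ a z ≠ 0) → ∀ y, (∀ a ∈ P.R, 0 < inner ℝ a y → 0 < inner ℝ a z) →
    ∀ l : G → ℤˣ, Lin (P.U z ⊓ P.L y) l →
    (∀ y', (∀ a ∈ P.R, 0 < inner ℝ a y' → 0 < inner ℝ a z) → (∀ u ∈ P.U y', u ∈ P.L y → l u = 1) →
      ∀ a ∈ P.R, inner ℝ a y = 0 → inner ℝ a y' = 0) →
    ∀ [Finite G] (k : Type) [Field k] [CharZero k], ∀ a ∈ sb k (P.L y), ∀ b ∈ sb k (P.L y),
      el k (P.U z ⊓ P.L y) l * a * el k (P.U z ⊓ P.L y) l * b * el k (P.U z ⊓ P.L y) l =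
        el k (P.U z ⊓ P.L y) l * b * el k (P.U z ⊓ P.L y) l * a * el k (P.U z ⊓ P.L y) l := by
  intro z hz y hy l hl hc _ k _ _ a ha b hb
  have hm : P.nz z ∈ P.N := (P.nz_spec z hz).1
  generalize hmm : P.nz z = m at *
  have hm' : m⁻¹ ∈ P.N := P.N.inv_mem hm
  have e1 : ∀ v, P.ac m (P.ac m⁻¹ v) = v := by
    intro v
    rw [P.ac_inv hm]
    exact (P.ac m).apply_symm_apply v
  have e2 : ∀ v, P.ac m⁻¹ (P.ac m v) = v := by
    intro v
    rw [P.ac_inv hm]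
    exact (P.ac m).symm_apply_apply v
  have hU : ∀ u, u ∈ P.U z ↔ m⁻¹ * u * m ∈ P.U P.z0 := by
    intro u
    have h := P.U_gen hz (u := u)
    rw [hmm] at h
    exact h
  have hL : ∀ u, u ∈ P.L y ↔ m⁻¹ * u * m ∈ P.L (P.ac m⁻¹ y) := by
    intro u
    have h := P.L_conj hm (x := P.ac m⁻¹ y) (u := u)
    rw [e1] at h
    exact h
  have hV : ∀ u, u ∈ P.U z ⊓ P.L y ↔ m⁻¹ * u * m ∈ P.U P.z0 ⊓ P.L (P.ac m⁻¹ y) := by
    intro u
    rw [Subgroup.mem_inf, Subgroup.mem_inf, hU, hL]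
  have hle : ∀ v, (∀ a ∈ P.R, 0 < inner ℝ a v → 0 < inner ℝ a z) ↔
      ∀ a ∈ P.R, 0 < inner ℝ a (P.ac m⁻¹ v) → 0 < inner ℝ a P.z0 := by
    intro v
    have h := P.le_gen hz (y := v)
    rw [hmm] at h
    exact h
  have hg : ∀ g : G, m⁻¹ * (m * g * m⁻¹) * m = g := fun g => by group
  have hV' : ∀ g, g ∈ P.U P.z0 ⊓ P.L (P.ac m⁻¹ y) → m * g * m⁻¹ ∈ P.U z ⊓ P.L y := by
    intro g h
    rw [hV, hg]
    exact h
  have hl0 : Lin (P.U P.z0 ⊓ P.L (P.ac m⁻¹ y)) fun g => l (m * g * m⁻¹) := by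
    intro u hu v hv
    show l (m * (u * v) * m⁻¹) = l (m * u * m⁻¹) * l (m * v * m⁻¹)
    rw [← hl _ (hV' u hu) _ (hV' v hv)]
    congr 1
    group
  have hc0 : ∀ y', (∀ a ∈ P.R, 0 < inner ℝ a y' → 0 < inner ℝ a P.z0) →
      (∀ u ∈ P.U y', u ∈ P.L (P.ac m⁻¹ y) → (fun g => l (m * g * m⁻¹)) u = 1) →
      ∀ a ∈ P.R, inner ℝ a (P.ac m⁻¹ y) = 0 → inner ℝ a y' = 0 := by
    intro y' hy' hu a ha h0
    have h1 := hc (P.ac m y') ((hle _).2 (by rw [e2]; exact hy')) (fun u h2 h3 => by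
      have h4 := hu (m⁻¹ * u * m) ((P.U_conj hm).1 h2) ((hL u).1 h3)
      have h5 : m * (m⁻¹ * u * m) * m⁻¹ = u := by group
      simp only [h5] at h4
      exact h4) (P.ac m a) (P.s7R m hm a ha)
    rw [P.pos_gen hm, P.pos_gen hm, e2] at h1
    exact h1 h0
  have key := P.bw4 (P.ac m⁻¹ y) ((hle y).1 hy) (fun g => l (m * g * m⁻¹)) hl0 hc0 k
    (dl m⁻¹ * a * dl m) (conj_sb m hL ha) (dl m⁻¹ * b * dl m) (conj_sb m hL hb)
  have he : dl m * el k (P.U P.z0 ⊓ P.L (P.ac m⁻¹ y)) (fun g => l (m * g * m⁻¹)) * dl m⁻¹ =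
      el k (P.U z ⊓ P.L y) l := by
    refine conj_el m hV fun g _ => ?_
    show l g = l (m * (m⁻¹ * g * m) * m⁻¹)
    congr 1
    group
  have ea := I07_conj_conj (k := k) m a
  have eb := I07_conj_conj (k := k) m b
  generalize (dl m⁻¹ * a * dl m : Al k G) = a0 at key ea
  generalize (dl m⁻¹ * b * dl m : Al k G) = b0 at key eb
  have key2 := congrArg (fun x : Al k G => dl m * x * dl m⁻¹) key
  simp only [I07_conj_mul, ea, eb, he] at key2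
  exact key2

end

end LieP.GI
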