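import Pool.Agent.LieP.Defs3

/-!
# MP_6c3636_al, LieP, module I30: finite fields of characteristic two (helper21)
-/

namespace LieP

noncomputable section

open Classical

namespace I30_aux

variable {F : Type} [Field F]

/-- a multiplicative function to the signs as an additive character with complex values -/
def toC (ψ : F → ℤˣ) (h : ∀ x y, ψ (x + y) = ψ x * ψ y) : AddChar F ℂ where
  toFun x := (((ψ x : ℤˣ) : ℤ) : ℂ)
  map_zero_eq_one' := by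
    have h0 := h 0 0
    rw [add_zero] at h0
    have h1 : ψ 0 = 1 := by
      have h2 : ψ 0 * ψ 0 = ψ 0 * 1 := by rw [mul_one]; exact h0.symm
      exact mul_left_cancel h2
    rw [h1]
    simp
  map_add_eq_mul' x y := by
    rw [h x y]
    push_cast
    rfl

theorem toC_apply (ψ : F → ℤˣ) (h : ∀ x y, ψ (x + y) = ψ x * ψ y) (x : F) :
    toC ψ h x = (((ψ x : ℤˣ) : ℤ) : ℂ) := rfl

theorem cinj {a b : ℤˣ} (h : (((a : ℤˣ) : ℤ) : ℂ) = (((b : ℤˣ) : ℤ) : ℂ)) : a = b := by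
  have h1 : (a : ℤ) = (b : ℤ) := by exact_mod_cast h
  exact Units.ext h1

end I30_aux

open I30_aux

section

variable {F : Type} [Field F] [Finite F]

/-- (C1) -/
theorem ff1 {ψ ψ₂ : F → ℤˣ} (h : ∀ x y, ψ (x + y) = ψ x * ψ y) (h₂ : ∀ x y, ψ₂ (x + y) = ψ₂ x * ψ₂ y)
    (hn : ∃ x, ψ x ≠ 1) (hn₂ : ∃ x, ψ₂ x ≠ 1) : ∃ c, c ≠ 0 ∧ ∀ x, ψ₂ x = ψ (c * x) := by
  have : Fintype F := Fintype.ofFinite F
  have hne : toC ψ h ≠ 1 := by
    intro h1
    obtain ⟨x, hx⟩ := hn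
    apply hx
    apply cinj
    rw [← toC_apply ψ h x, h1, AddChar.one_apply]
    simp
  have hinj : Function.Injective fun c : F => AddChar.mulShift (toC ψ h) c :=
    AddChar.to_mulShift_inj_of_isPrimitive (AddChar.IsPrimitive.of_ne_one hne)
  have hcard : Fintype.card F = Fintype.card (AddChar F ℂ) := AddChar.card_eq.symm
  have hbij : Function.Bijective fun c : F => AddChar.mulShift (toC ψ h) c :=
    (Fintype.bijective_iff_injective_and_card _).2 ⟨hinj, hcard⟩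
  obtain ⟨c, hc⟩ := hbij.2 (toC ψ₂ h₂)
  have hx : ∀ x, ψ₂ x = ψ (c * x) := by
    intro x
    apply cinj
    rw [← toC_apply ψ₂ h₂ x, ← toC_apply ψ h (c * x), ← hc]
    exact AddChar.mulShift_apply
  refine ⟨c, ?_, hx⟩
  rintro rfl
  obtain ⟨x, hx2⟩ := hn₂
  apply hx2
  rw [hx x, zero_mul]
  have h0 := h 0 0
  rw [add_zero] at h0
  have h2 : ψ 0 * ψ 0 = ψ 0 * 1 := by rw [mul_one]; exact h0.symm
  exact mul_left_cancel h2

/-- (C2) -/
theorem ff2 {σ : F ≃+* F} {ψ ψ₂ : F → ℤˣ}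
    (h : ∀ x y, σ x = x → σ y = y → ψ (x + y) = ψ x * ψ y)
    (h₂ : ∀ x y, σ x = x → σ y = y → ψ₂ (x + y) = ψ₂ x * ψ₂ y)
    (hn : ∃ x, σ x = x ∧ ψ x ≠ 1) (hn₂ : ∃ x, σ x = x ∧ ψ₂ x ≠ 1) :
    ∃ c, c ≠ 0 ∧ σ c = c ∧ ∀ x, σ x = x → ψ₂ x = ψ (c * x) := by
  let K : Subfield F := RingHom.eqLocusField (σ : F →+* F) (RingHom.id F)
  have hK : ∀ x : F, x ∈ K ↔ σ x = x := fun x => Iff.rfl
  obtain ⟨a, ha, ha'⟩ := hn
  obtain ⟨b, hb, hb'⟩ := hn₂
  obtain ⟨c, hc, hc'⟩ := ff1 (F := K) (ψ := fun x => ψ x) (ψ₂ := fun x => ψ₂ x)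
    (fun x y => h x y x.2 y.2) (fun x y => h₂ x y x.2 y.2) ⟨⟨a, ha⟩, ha'⟩ ⟨⟨b, hb⟩, hb'⟩
  refine ⟨c, ?_, c.2, fun x hx => hc' ⟨x, hx⟩⟩
  intro h0
  exact hc (Subtype.ext h0)

variable [CharP F 2]

/-- (C3) -/
theorem ff3 {σ : F ≃+* F} {c : F} (hc : σ c = c) (h0 : c ≠ 0) : ∃ t, t ≠ 0 ∧ t * σ t = c := by
  have : Fintype F := Fintype.ofFinite F
  obtain ⟨t, ht⟩ : ∃ t : F, t ^ 2 = c := by
    have h1 : Function.Bijective (frobenius F 2) := by
      rw [Finite.injective_iff_bijective.symm]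
      exact frobenius_inj F 2
    obtain ⟨t, ht⟩ := h1.2 c
    exact ⟨t, ht⟩
  have h2 : σ t = t := by
    apply frobenius_inj F 2
    show σ t ^ 2 = t ^ 2
    rw [← map_pow, ht, hc]
  refine ⟨t, ?_, ?_⟩
  · rintro rfl
    apply h0
    rw [← ht]
    simp
  · rw [h2, ← ht, sq]

omit [Finite F] in
/-- (C4) -/
theorem ff4 {σ : F ≃+* F} (hσ : ∀ x, σ (σ x) = x) (hne : σ ≠ RingEquiv.refl F) {c : F} (hc : σ c = c) :
    ∃ a, a + σ a = c := by
  obtain ⟨b, hb⟩ : ∃ b, σ b ≠ b := by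
    by_contra h
    push Not at h
    exact hne (RingEquiv.ext h)
  have h1 : b + σ b ≠ 0 := by
    intro h
    apply hb
    have h2 := CharTwo.add_eq_zero.1 h
    exact h2.symm
  have h3 : σ (b + σ b) = b + σ b := by
    rw [map_add, hσ, add_comm]
  refine ⟨b * (c / (b + σ b)), ?_⟩
  rw [map_mul, map_div₀, hc, h3, ← add_mul]
  field_simp

/-- (C5) -/
theorem ff5 (σ : F ≃+* F) : ∃ ψ : F → ℤˣ, (∀ x y, ψ (x + y) = ψ x * ψ y) ∧ (∀ x, ψ (σ x) = ψ x) ∧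
    ∃ x, ψ x ≠ 1 := by
  let _ : Algebra (ZMod 2) F := ZMod.algebra F 2
  have : Module.Finite (ZMod 2) F := Module.Finite.of_finite
  have hs : ∀ a b : ZMod 2, (if a + b = 0 then (1 : ℤˣ) else -1) =
      (if a = 0 then (1 : ℤˣ) else -1) * (if b = 0 then (1 : ℤˣ) else -1) := by decide
  refine ⟨fun x => if Algebra.trace (ZMod 2) F x = 0 then 1 else -1, ?_, ?_, ?_⟩
  · intro x y
    show (if Algebra.trace (ZMod 2) F (x + y) = 0 then (1 : ℤˣ) else -1) = _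
    rw [map_add, hs]
  · intro x
    have h1 : (σ : F →+* F).comp (algebraMap (ZMod 2) F) = algebraMap (ZMod 2) F :=
      RingHom.ext_zmod _ _
    let e : F ≃ₐ[ZMod 2] F := AlgEquiv.ofRingEquiv (f := σ) (fun r => by
      have h2 := DFunLike.congr_fun h1 r
      exact h2)
    have h2 : Algebra.trace (ZMod 2) F (e x) = Algebra.trace (ZMod 2) F x :=
      Algebra.trace_eq_of_algEquiv e x
    show (if Algebra.trace (ZMod 2) F (e x) = 0 then (1 : ℤˣ) else -1) = _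
    rw [h2]
  · obtain ⟨x, hx⟩ := Algebra.trace_surjective (ZMod 2) F 1
    refine ⟨x, ?_⟩
    show (if Algebra.trace (ZMod 2) F x = 0 then (1 : ℤˣ) else -1) ≠ 1
    rw [hx, if_neg one_ne_zero]
    decide

/-- (C5): a character of `F` which is not trivial on the fixed field (at `1`) -/
theorem ff5' : ∃ ψ : F → ℤˣ, (∀ x y, ψ (x + y) = ψ x * ψ y) ∧ ψ 1 ≠ 1 := by
  obtain ⟨ψ, h, -, y, hy⟩ := ff5 (RingEquiv.refl F)
  refine ⟨fun x => ψ (y * x), ?_, ?_⟩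
  · intro x z
    show ψ (y * (x + z)) = _
    rw [mul_add, h]
  · show ψ (y * 1) ≠ 1
    rw [mul_one]
    exact hy

/-- (C5) for the fixed field -/
theorem ff5K {σ : F ≃+* F} : ∃ ψ : F → ℤˣ, (∀ x y, ψ (x + y) = ψ x * ψ y) ∧ ∃ x, σ x = x ∧ ψ x ≠ 1 := by
  obtain ⟨ψ, h, h1⟩ := ff5' (F := F)
  exact ⟨ψ, h, 1, map_one σ, h1⟩

end

section

variable {F : Type} [Field F]

theorem map_zero_of_add {ψ : F → ℤˣ} (h : ∀ x y, ψ (x + y) = ψ x * ψ y) : ψ 0 = 1 := by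
  have h0 := h 0 0
  rw [add_zero] at h0
  have h2 : ψ 0 * ψ 0 = ψ 0 * 1 := by rw [mul_one]; exact h0.symm
  exact mul_left_cancel h2

/-- (C5), third part: a multiplier which does not change a nontrivial character is `1` -/
theorem ff6 [CharP F 2] {ψ : F → ℤˣ} (h : ∀ x y, ψ (x + y) = ψ x * ψ y) (hn : ∃ x, ψ x ≠ 1) {c : F}
    (hc : ∀ x, ψ (c * x) = ψ x) : c = 1 := by
  by_contra hne
  obtain ⟨x, hx⟩ := hn
  have h1 : c + 1 ≠ 0 := by
    intro h2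
    exact hne (CharTwo.add_eq_zero.1 h2)
  apply hx
  have h2 := h (c * ((c + 1)⁻¹ * x)) ((c + 1)⁻¹ * x)
  rw [hc, show c * ((c + 1)⁻¹ * x) + (c + 1)⁻¹ * x = x by field_simp] at h2
  rw [h2]
  exact Int.units_mul_self _

/-- (C5), third part, for the fixed field -/
theorem ff6K [CharP F 2] {σ : F ≃+* F} {ψ : F → ℤˣ}
    (h : ∀ x y, σ x = x → σ y = y → ψ (x + y) = ψ x * ψ y) (hn : ∃ x, σ x = x ∧ ψ x ≠ 1) {c : F}
    (hσc : σ c = c) (hc : ∀ x, σ x = x → ψ (c * x) = ψ x) : c = 1 := by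
  by_contra hne
  obtain ⟨x, hx0, hx⟩ := hn
  have h1 : c + 1 ≠ 0 := by
    intro h2
    exact hne (CharTwo.add_eq_zero.1 h2)
  apply hx
  have h3 : σ ((c + 1)⁻¹ * x) = (c + 1)⁻¹ * x := by
    rw [map_mul, map_inv₀, map_add, map_one, hσc, hx0]
  have h4 : σ (c * ((c + 1)⁻¹ * x)) = c * ((c + 1)⁻¹ * x) := by
    rw [map_mul, h3, hσc]
  have h2 := h (c * ((c + 1)⁻¹ * x)) ((c + 1)⁻¹ * x) h4 h3
  rw [hc _ h3, show c * ((c + 1)⁻¹ * x) + (c + 1)⁻¹ * x = x by field_simp] at h2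
  rw [h2]
  exact Int.units_mul_self _

/-- (C4), other form of the hypothesis -/
theorem ff4' [CharP F 2] {σ : F ≃+* F} (hσ : ∀ x, σ (σ x) = x) (hne : ¬ ∀ x, σ x = x) {c : F}
    (hc : σ c = c) : ∃ a, a + σ a = c :=
  ff4 hσ (fun h => hne fun x => by rw [h]; rfl) hc

/-- the middle character of (W4): `2 < |F|` and `σ = 1` give an element different from `0` and `1` -/
theorem ff7 [Finite F] (h : 2 < Nat.card F) : ∃ c : F, c ≠ 0 ∧ c ≠ 1 := by
  have : Fintype F := Fintype.ofFinite F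
  by_contra hc
  push Not at hc
  have h1 : (Finset.univ : Finset F) ⊆ {0, 1} := by
    intro x _
    rw [Finset.mem_insert, Finset.mem_singleton]
    by_cases hx : x = 0
    · exact Or.inl hx
    · exact Or.inr (hc x hx)
  have h2 := (Finset.card_le_card h1).trans (Finset.card_le_two)
  rw [Finset.card_univ, ← Nat.card_eq_fintype_card] at h2
  omega

end

end

end LieP
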