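import Mathlib

/-!
# MP_6c3636_al, LieP, module I19: the Bruhat decomposition of `GL_n(F)` (helper22, for section 15)

`u` is upper unitriangular: `u i j = (1 : Matrix) i j` for `j ≤ i`. `m` is monomial: there is a permutation `π` with `m i j = 0` for `i ≠ π j`.
Existence: process the columns from left to right. `Done M p c`: every column `j < c` of `M` has exactly one nonzero entry, in the row `p j`, whose other entries vanish.
Step: `r` is the lowest nonzero row of column `c`; clear the column above `r` by row operations and then the row `r` on the right of `c` by column operations.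
Uniqueness: compare the entries at `(π j, j)`: the permutation `ρ⁻¹ π` satisfies `ρ⁻¹ π j ≤ j`.
-/

namespace LieP

open Classical Matrix

namespace I20_aux

variable {n : ℕ} {F : Type} [Field F]

/-- upper unitriangular -/
def UT (u : Matrix (Fin n) (Fin n) F) : Prop := ∀ i j, j ≤ i → u i j = (1 : Matrix (Fin n) (Fin n) F) i j

theorem UT.one : UT (1 : Matrix (Fin n) (Fin n) F) := fun _ _ _ => rfl

theorem UT.mul {u v : Matrix (Fin n) (Fin n) F} (hu : UT u) (hv : UT v) : UT (u * v) := by
  intro i j hij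
  rw [Matrix.mul_apply]
  by_cases h : i = j
  · subst h
    rw [Finset.sum_eq_single i]
    · rw [hu i i le_rfl, hv i i le_rfl, one_apply_eq, one_mul]
    · intro k _ hk
      rcases lt_or_gt_of_ne hk with h1 | h1
      · rw [hu i k h1.le, one_apply_ne (ne_of_gt h1), zero_mul]
      · rw [hv k i h1.le, one_apply_ne (ne_of_gt h1), mul_zero]
    · intro h1
      exact absurd (Finset.mem_univ i) h1
  · have hlt : j < i := lt_of_le_of_ne hij (Ne.symm h)
    rw [one_apply_ne h]
    refine Finset.sum_eq_zero fun k _ => ?_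
    by_cases h1 : k < i
    · rw [hu i k h1.le, one_apply_ne (ne_of_gt h1), zero_mul]
    · have h2 : j < k := lt_of_lt_of_le hlt (not_lt.1 h1)
      rw [hv k j h2.le, one_apply_ne (ne_of_gt h2), mul_zero]

/-- the elementary matrices -/
theorem exists_el (N : Matrix (Fin n) (Fin n) F) (h1 : ∀ i j, j ≤ i → N i j = 0) (h2 : N * N = 0) :
    ∃ e : GL (Fin n) F, (e : Matrix (Fin n) (Fin n) F) = 1 - N ∧ UT ((e⁻¹ : GL (Fin n) F) : Matrix (Fin n) (Fin n) F) := by
  refine ⟨⟨1 - N, 1 + N, ?_, ?_⟩, rfl, ?_⟩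
  · rw [mul_add, mul_one, sub_mul, one_mul, h2, sub_zero, sub_add_cancel]
  · rw [mul_sub, mul_one, add_mul, one_mul, h2, add_zero, add_sub_cancel_right]
  · intro i j hij
    change (1 + N) i j = _
    rw [Matrix.add_apply, h1 i j hij, add_zero]

/-- the columns `j < c` are done -/
def Done (M : Matrix (Fin n) (Fin n) F) (p : Fin n → Fin n) (c : ℕ) : Prop :=
  ∀ j : Fin n, (j : ℕ) < c → (∀ i, i ≠ p j → M i j = 0) ∧ (∀ k, k ≠ j → M (p j) k = 0) ∧ M (p j) j ≠ 0

theorem exists_row (M : GL (Fin n) F) (c : Fin n) :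
    ∃ r, (M : Matrix (Fin n) (Fin n) F) r c ≠ 0 ∧ ∀ i, r < i → (M : Matrix (Fin n) (Fin n) F) i c = 0 := by
  have h1 : ∃ i, (M : Matrix (Fin n) (Fin n) F) i c ≠ 0 := by
    by_contra h
    push Not at h
    have h2 : ((M⁻¹ * M : GL (Fin n) F) : Matrix (Fin n) (Fin n) F) c c = 0 := by
      rw [Units.val_mul, Matrix.mul_apply]
      exact Finset.sum_eq_zero fun k _ => by rw [h k, mul_zero]
    rw [inv_mul_cancel, Units.val_one, one_apply_eq] at h2
    exact one_ne_zero h2
  obtain ⟨i₀, hi₀⟩ := h1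
  obtain ⟨r, hr, hmax⟩ := Finset.exists_max_image
    (Finset.univ.filter fun i => (M : Matrix (Fin n) (Fin n) F) i c ≠ 0) id ⟨i₀, Finset.mem_filter.2 ⟨Finset.mem_univ _, hi₀⟩⟩
  refine ⟨r, (Finset.mem_filter.1 hr).2, fun i hi => ?_⟩
  by_contra h
  exact absurd (hmax i (Finset.mem_filter.2 ⟨Finset.mem_univ _, h⟩)) (not_le_of_gt hi)

theorem step (M : GL (Fin n) F) (p : Fin n → Fin n) (c : Fin n)
    (h : Done (M : Matrix (Fin n) (Fin n) F) p c) :
    ∃ (e M' e' : GL (Fin n) F) (p' : Fin n → Fin n), UT (e : Matrix (Fin n) (Fin n) F) ∧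
      UT (e' : Matrix (Fin n) (Fin n) F) ∧ M = e * M' * e' ∧ Done (M' : Matrix (Fin n) (Fin n) F) p' (c + 1) := by
  obtain ⟨r, hr, hr0⟩ := exists_row M c
  set A : Matrix (Fin n) (Fin n) F := (M : Matrix (Fin n) (Fin n) F) with hA
  -- the row operation
  let N : Matrix (Fin n) (Fin n) F := Matrix.of fun i k => if k = r then (if i < r then A i c / A r c else 0) else 0
  have hN : ∀ i k, N i k = if k = r then (if i < r then A i c / A r c else 0) else 0 := fun _ _ => rfl
  have hN1 : ∀ i j, j ≤ i → N i j = 0 := by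
    intro i j hij
    rw [hN]
    by_cases h1 : j = r
    · rw [if_pos h1, if_neg]
      rw [← h1]
      exact not_lt_of_ge hij
    · rw [if_neg h1]
  have hNm : ∀ (B : Matrix (Fin n) (Fin n) F) i k, (N * B) i k = (if i < r then A i c / A r c else 0) * B r k := by
    intro B i k
    rw [Matrix.mul_apply, Finset.sum_eq_single r]
    · rw [hN, if_pos rfl]
    · intro l _ hl
      rw [hN, if_neg hl, zero_mul]
    · intro h1
      exact absurd (Finset.mem_univ r) h1
  have hN2 : N * N = 0 := by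
    ext i k
    rw [hNm, hN, if_neg (lt_irrefl r)]
    simp
  -- the column operation
  let N' : Matrix (Fin n) (Fin n) F := Matrix.of fun i k => if i = c then (if c < k then A r k / A r c else 0) else 0
  have hN' : ∀ i k, N' i k = if i = c then (if c < k then A r k / A r c else 0) else 0 := fun _ _ => rfl
  have hN1' : ∀ i j, j ≤ i → N' i j = 0 := by
    intro i j hij
    rw [hN']
    by_cases h1 : i = c
    · rw [if_pos h1, if_neg]
      rw [← h1]
      exact not_lt_of_ge hij
    · rw [if_neg h1]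
  have hNm' : ∀ (B : Matrix (Fin n) (Fin n) F) i k, (B * N') i k = B i c * (if c < k then A r k / A r c else 0) := by
    intro B i k
    rw [Matrix.mul_apply, Finset.sum_eq_single c]
    · rw [hN', if_pos rfl]
    · intro l _ hl
      rw [hN', if_neg hl, mul_zero]
    · intro h1
      exact absurd (Finset.mem_univ c) h1
  have hN2' : N' * N' = 0 := by
    ext i k
    rw [hNm', hN', if_neg (lt_irrefl c)]
    simp
  obtain ⟨e, he, hei⟩ := exists_el N hN1 hN2
  obtain ⟨e', he', hei'⟩ := exists_el N' hN1' hN2'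
  refine ⟨e⁻¹, e * M * e', e'⁻¹, Function.update p c r, hei, hei', ?_, ?_⟩
  · group
  -- the entries of the new matrix
  set B : Matrix (Fin n) (Fin n) F := ((e * M * e' : GL (Fin n) F) : Matrix (Fin n) (Fin n) F) with hB
  have hB1 : ∀ i k, B i k = A i k - (if i < r then A i c / A r c else 0) * A r k -
      (A i c - (if i < r then A i c / A r c else 0) * A r c) * (if c < k then A r k / A r c else 0) := by
    intro i k
    have h1 : B = (A - N * A) - (A - N * A) * N' := by
      rw [hB, Units.val_mul, Units.val_mul, he, he', mul_sub, mul_one, sub_mul, one_mul]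
    rw [h1, Matrix.sub_apply, hNm', Matrix.sub_apply, Matrix.sub_apply, hNm, hNm]
  have hcol : ∀ i, A i c - (if i < r then A i c / A r c else 0) * A r c = if i = r then A r c else 0 := by
    intro i
    rcases lt_trichotomy i r with h1 | h1 | h1
    · rw [if_pos h1, if_neg (ne_of_lt h1), div_mul_cancel₀ _ hr, sub_self]
    · rw [if_neg (by rw [h1]; exact lt_irrefl r), if_pos h1, zero_mul, sub_zero, h1]
    · rw [if_neg (not_lt_of_gt h1), if_neg (ne_of_gt h1), zero_mul, sub_zero, hr0 i h1]
  have hpr : ∀ j : Fin n, (j : ℕ) < c → r ≠ p j := by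
    intro j hj h1
    have h2 := (h j hj).2.1 c (by intro h3; rw [h3] at hj; exact lt_irrefl _ hj)
    rw [← h1] at h2
    exact hr h2
  have hrj : ∀ j : Fin n, (j : ℕ) < c → A r j = 0 := fun j hj => (h j hj).1 r (hpr j hj)
  intro j hj
  rcases Nat.lt_succ_iff_lt_or_eq.1 hj with hjc | hjc
  · -- the old columns
    have hjne : j ≠ c := by
      intro h3
      rw [h3] at hjc
      exact lt_irrefl _ hjc
    have hnc : ¬ c < j := by
      intro h3
      exact absurd hjc (not_lt_of_gt h3)
    rw [Function.update_of_ne hjne]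
    have hBj : ∀ i, B i j = A i j := by
      intro i
      rw [hB1, if_neg hnc, hrj j hjc, mul_zero, mul_zero, sub_zero, sub_zero]
    obtain ⟨g1, g2, g3⟩ := h j hjc
    refine ⟨fun i hi => by rw [hBj, g1 i hi], fun k hk => ?_, by rw [hBj]; exact g3⟩
    have h4 : A (p j) c = 0 := g2 c (Ne.symm hjne)
    rw [hB1, hcol, if_neg (Ne.symm (hpr j hjc)), h4, zero_div, ite_self, zero_mul, zero_mul, sub_zero, sub_zero, g2 k hk]
  · -- the new column
    have hjc' : j = c := Fin.ext hjc
    subst hjc'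
    rw [Function.update_self]
    have hBc : ∀ i, B i j = if i = r then A r j else 0 := by
      intro i
      rw [hB1, if_neg (lt_irrefl j), mul_zero, sub_zero, hcol]
    refine ⟨fun i hi => by rw [hBc, if_neg hi], fun k hk => ?_, by rw [hBc, if_pos rfl]; exact hr⟩
    rw [hB1, hcol, if_pos rfl, if_neg (lt_irrefl r), zero_mul, sub_zero]
    rcases lt_or_gt_of_ne hk with h1 | h1
    · rw [if_neg (not_lt_of_gt h1), mul_zero, sub_zero]
      exact hrj k h1
    · rw [if_pos h1, mul_div_cancel₀ _ hr, sub_self]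

theorem all_done (g : GL (Fin n) F) (c : ℕ) (hc : c ≤ n) :
    ∃ (u M u' : GL (Fin n) F) (p : Fin n → Fin n), UT (u : Matrix (Fin n) (Fin n) F) ∧
      UT (u' : Matrix (Fin n) (Fin n) F) ∧ g = u * M * u' ∧ Done (M : Matrix (Fin n) (Fin n) F) p c := by
  induction c with
  | zero =>
    refine ⟨1, g, 1, id, by rw [Units.val_one]; exact UT.one, by rw [Units.val_one]; exact UT.one, by group, ?_⟩
    intro j hj
    exact absurd hj (Nat.not_lt_zero _)
  | succ c ih =>
    obtain ⟨u, M, u', p, hu, hu', hg, hp⟩ := ih (by omega)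
    obtain ⟨e, M', e', p', he, he', hM, hp'⟩ := step M p ⟨c, by omega⟩ hp
    refine ⟨u * e, M', e' * u', p', ?_, ?_, ?_, hp'⟩
    · rw [Units.val_mul]
      exact hu.mul he
    · rw [Units.val_mul]
      exact he'.mul hu'
    · rw [hg, hM]
      group

theorem perm_eq_one (σ : Equiv.Perm (Fin n)) (h : ∀ j, σ j ≤ j) : σ = 1 := by
  have h1 : ∑ j, ((σ j : Fin n) : ℕ) = ∑ j : Fin n, (j : ℕ) := Equiv.sum_comp σ (fun i => (i : ℕ))
  have h2 := (Finset.sum_eq_sum_iff_of_le (s := Finset.univ) (f := fun j : Fin n => ((σ j : Fin n) : ℕ))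
    (g := fun j : Fin n => (j : ℕ)) fun j _ => h j).1 h1
  ext j
  rw [h2 j (Finset.mem_univ j)]
  rfl

end I20_aux

open I20_aux

variable {n : ℕ} {F : Type} [Field F]

/-- **Bruhat decomposition, existence.** -/
theorem bruhat_exists (g : GL (Fin n) F) : ∃ u m u' : GL (Fin n) F,
    (∀ i j, j ≤ i → (u : Matrix (Fin n) (Fin n) F) i j = (1 : Matrix (Fin n) (Fin n) F) i j) ∧
    (∃ π : Equiv.Perm (Fin n), ∀ i j, i ≠ π j → (m : Matrix (Fin n) (Fin n) F) i j = 0) ∧
    (∀ i j, j ≤ i → (u' : Matrix (Fin n) (Fin n) F) i j = (1 : Matrix (Fin n) (Fin n) F) i j) ∧ g = u * m * u' := by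
  obtain ⟨u, M, u', p, hu, hu', hg, hp⟩ := all_done g n le_rfl
  have hinj : Function.Injective p := by
    intro j k hjk
    by_contra h
    have h1 := (hp j j.2).2.1 k (Ne.symm h)
    rw [hjk] at h1
    exact (hp k k.2).2.2 h1
  refine ⟨u, M, u', hu, ⟨Equiv.ofBijective p (Finite.injective_iff_bijective.1 hinj), ?_⟩, hu', hg⟩
  intro i j hij
  exact (hp j j.2).1 i hij

/-- **Bruhat decomposition, uniqueness of the monomial part.** -/
theorem bruhat_unique {v m m' v' : GL (Fin n) F}
    (hv : ∀ i j, j ≤ i → (v : Matrix (Fin n) (Fin n) F) i j = (1 : Matrix (Fin n) (Fin n) F) i j)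
    (hm : ∃ π : Equiv.Perm (Fin n), ∀ i j, i ≠ π j → (m : Matrix (Fin n) (Fin n) F) i j = 0)
    (hm' : ∃ π : Equiv.Perm (Fin n), ∀ i j, i ≠ π j → (m' : Matrix (Fin n) (Fin n) F) i j = 0)
    (hv' : ∀ i j, j ≤ i → (v' : Matrix (Fin n) (Fin n) F) i j = (1 : Matrix (Fin n) (Fin n) F) i j)
    (h : v * m = m' * v') : m = m' := by
  obtain ⟨π, hπ⟩ := hm
  obtain ⟨ρ, hρ⟩ := hm'
  have ha : ∀ j, (m : Matrix (Fin n) (Fin n) F) (π j) j ≠ 0 := by
    intro j hj
    obtain ⟨r, hr, _⟩ := exists_row m j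
    by_cases h1 : r = π j
    · rw [h1] at hr
      exact hr hj
    · exact hr (hπ r j h1)
  have hE : ∀ i j, (v : Matrix (Fin n) (Fin n) F) i (π j) * (m : Matrix (Fin n) (Fin n) F) (π j) j =
      (m' : Matrix (Fin n) (Fin n) F) i (ρ⁻¹ i) * (v' : Matrix (Fin n) (Fin n) F) (ρ⁻¹ i) j := by
    intro i j
    have h1 := congrArg (fun z : GL (Fin n) F => (z : Matrix (Fin n) (Fin n) F) i j) h
    simp only [Units.val_mul, Matrix.mul_apply] at h1
    rw [Finset.sum_eq_single (π j), Finset.sum_eq_single (ρ⁻¹ i)] at h1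
    · exact h1
    · intro k _ hk
      rw [hρ i k (by
        intro h2
        apply hk
        rw [h2]
        exact (ρ.symm_apply_apply k).symm), zero_mul]
    · intro h2
      exact absurd (Finset.mem_univ _) h2
    · intro k _ hk
      rw [hπ k j hk, mul_zero]
    · intro h2
      exact absurd (Finset.mem_univ _) h2
  have hle : ∀ j, (ρ⁻¹ * π) j ≤ j := by
    intro j
    by_contra hcon
    have h1 := hE (π j) j
    rw [hv _ _ le_rfl, one_apply_eq, one_mul] at h1
    have h2 : (ρ⁻¹ (π j)) ≠ j := by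
      intro h3
      apply hcon
      rw [Equiv.Perm.mul_apply, h3]
    have h3 : j ≤ ρ⁻¹ (π j) := by
      rw [Equiv.Perm.mul_apply] at hcon
      exact (not_le.1 hcon).le
    rw [hv' _ _ h3, one_apply_ne h2, mul_zero] at h1
    exact ha j h1
  have h4 := perm_eq_one _ hle
  have h5 : ρ = π := by
    have h6 : ρ * (ρ⁻¹ * π) = ρ := by rw [h4, mul_one]
    rw [mul_inv_cancel_left] at h6
    exact h6.symm
  subst h5
  apply Units.ext
  ext i j
  by_cases h7 : i = ρ j
  · subst h7
    have h8 := hE (ρ j) j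
    have h9 : ρ⁻¹ (ρ j) = j := ρ.symm_apply_apply j
    rw [hv _ _ le_rfl, h9, hv' _ _ le_rfl, one_apply_eq, one_apply_eq, one_mul, mul_one] at h8
    exact h8
  · rw [hπ i j h7, hρ i j h7]

end LieP
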