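import Pool.Agent.LieP.I02
import Pool.Agent.LieP.I19

/-!
# MP_6c3636_al, section 15, module I20 (helper89): Bruhat decomposition, in the form with `IsMo` (from I19, helper22)
-/

namespace LieP.GI

noncomputable section

open Classical Matrix

variable {n : ℕ} {F : Type} [Field F]

theorem bruhat_exists (g : GL (Fin n) F) : ∃ u m v : GL (Fin n) F,
    (∀ i j, ¬ i < j → (u : Matrix (Fin n) (Fin n) F) i j = (1 : Matrix (Fin n) (Fin n) F) i j) ∧
    (∀ i j, ¬ i < j → (v : Matrix (Fin n) (Fin n) F) i j = (1 : Matrix (Fin n) (Fin n) F) i j) ∧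
    (∃ π, IsMo m π) ∧ g = u * m * v := by
  obtain ⟨u, m, v, hu, hm, hv, h⟩ := LieP.bruhat_exists g
  exact ⟨u, m, v, fun i j hij => hu i j (not_lt.1 hij), fun i j hij => hv i j (not_lt.1 hij), hm, h⟩

theorem bruhat_unique {v w m m' : GL (Fin n) F} {π π' : Equiv.Perm (Fin n)}
    (hv : ∀ i j, ¬ i < j → (v : Matrix (Fin n) (Fin n) F) i j = (1 : Matrix (Fin n) (Fin n) F) i j)
    (hw : ∀ i j, ¬ i < j → (w : Matrix (Fin n) (Fin n) F) i j = (1 : Matrix (Fin n) (Fin n) F) i j)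
    (hm : IsMo m π) (hm' : IsMo m' π') (h : v * m = m' * w) : m = m' :=
  LieP.bruhat_unique (fun i j hij => hv i j (not_lt.2 hij)) ⟨π, hm⟩ ⟨π', hm'⟩
    (fun i j hij => hw i j (not_lt.2 hij)) h

end

end LieP.GI
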