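import Pool.Agent.LieP.I12
import Pool.Agent.LieP.I20

/-!
# MP_6c3636_al, section 15, module I21 (stub by helper89)

(S9) at `z_0`. `g ∈ UG`. In `GL`: `g = u m v` (`bruhat_exists`), `π` the permutation of `m`. `gl6` for `S i j := i < j` and the point `x i := (π⁻¹ i : ℝ)`: `u = a b c`,
`a` with support `x_j < x_i` i.e. `π⁻¹ j < π⁻¹ i`, `b = 1` (as `x` is injective and `b` is unitriangular), `c` with support `π⁻¹ i < π⁻¹ j`, so `m⁻¹ c m` is upper unitriangular. Put `u₁ := a`, `v₁ := (m⁻¹ c m) v`: `g = u₁ m v₁`.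
`theta` maps upper unitriangular matrices to such (`theta_GS`), monomial to monomial (`theta_IsMo`): `g = theta g = theta u₁ theta m theta v₁`. `bruhat_unique` gives `theta m = m`. `w := u₁⁻¹ theta u₁ = m v₁ (theta v₁)⁻¹ m⁻¹`:
the support of `w` is in `{i < j, π⁻¹ j < π⁻¹ i}` (left; `theta` preserves this set as `theta m = m` means that `π` commutes with `rev`), and in `{π⁻¹ i < π⁻¹ j}` (right); so `w = 1`. So `theta u₁ = u₁`, `u₁, m, v₁ ∈ UG`.
-/

namespace LieP.GI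

noncomputable section

open Classical Matrix

variable {n : ℕ} {F : Type} [Field F]

private theorem I21_conj {g h : GL (Fin n) F} {π : Equiv.Perm (Fin n)} (hg : IsMo g π)
    {T : Fin n → Fin n → Prop} (hT : Sp T (h : Matrix (Fin n) (Fin n) F)) {k l : Fin n} (hkl : ¬ T k l) :
    ((g * h * g⁻¹ : GL (Fin n) F) : Matrix (Fin n) (Fin n) F) (π k) (π l) =
      (1 : Matrix (Fin n) (Fin n) F) (π k) (π l) := by
  rw [hg.conj k l, hT k l hkl]
  by_cases h1 : k = l
  · subst h1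
    rw [Matrix.one_apply_eq, Matrix.one_apply_eq, mul_one, mul_inv_cancel₀ (hg.ne k)]
  · rw [Matrix.one_apply_ne h1, Matrix.one_apply_ne (fun h' => h1 (π.injective h')), mul_zero, zero_mul]

private theorem I21_eq_one {g : GL (Fin n) F}
    (h : ∀ i j, (g : Matrix (Fin n) (Fin n) F) i j = (1 : Matrix (Fin n) (Fin n) F) i j) : g = 1 := by
  apply Units.ext
  ext i j
  rw [h i j, Units.val_one]

theorem c_b9 [Finite F] (σ : F ≃+* F) : ∀ g ∈ UG (I := Fin n) σ Fin.revPerm,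
    ∃ u ∈ UU σ (co (z0 n)), ∃ m ∈ MoN (n := n) σ, ∃ u' ∈ UU σ (co (z0 n)), g = u * m * u' := by
  intro g hg
  obtain ⟨u, m, v, hu, hv, ⟨π, hm⟩, hgm⟩ := bruhat_exists g
  have hlt : ∀ i j k : Fin n, i < j → j < k → i < k := fun _ _ _ h h' => h.trans h'
  have hu' : u ∈ GS F (fun i j : Fin n => i < j) hlt := mem_GS.2 hu
  have hv' : v ∈ GS F (fun i j : Fin n => i < j) hlt := mem_GS.2 hv
  set x : Fin n → ℝ := fun i => (((π⁻¹ i : Fin n) : ℕ) : ℝ) with hx
  have hx1 : ∀ i j, x i < x j ↔ π⁻¹ i < π⁻¹ j := by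
    intro i j
    rw [hx, Fin.lt_def]
    exact Nat.cast_lt
  obtain ⟨a, ha, b, hb, c, hc, ha1, hb1, hc1, huabc⟩ := gl6 hlt (fun i => lt_irrefl i) x hu'
  -- `b = 1`
  have hb2 : b = 1 := by
    refine I21_eq_one fun i j => ?_
    by_cases h : i = j
    · subst h
      exact hb.1 i i (lt_irrefl i)
    · refine hb1 i j fun h1 => h ?_
      have h2 : ((π⁻¹ i : Fin n) : ℕ) = ((π⁻¹ j : Fin n) : ℕ) := Nat.cast_injective h1
      exact π⁻¹.injective (Fin.ext h2)
  -- `m⁻¹ c m` is unitriangular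
  have hc2 : m⁻¹ * c * m ∈ GS F (fun i j : Fin n => i < j) hlt := by
    refine mem_GS.2 fun k l hkl => ?_
    have h1 := I21_conj hm.inv hc1 (k := π k) (l := π l) (by
      rw [hx1, pinv, pinv]
      exact hkl)
    rw [inv_inv, pinv, pinv] at h1
    exact h1
  set v₁ := m⁻¹ * c * m * v with hv₁
  have hv₁' : v₁ ∈ GS F (fun i j : Fin n => i < j) hlt := Subgroup.mul_mem _ hc2 hv'
  have hg1 : g = a * m * v₁ := by
    rw [hgm, huabc, hb2, hv₁]
    group
  -- theta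
  have hrev : ∀ i j : Fin n, Fin.rev j < Fin.rev i → i < j := fun i j h => Fin.rev_lt_rev.1 h
  have hta : theta σ a ∈ GS F (fun i j : Fin n => i < j) hlt := theta_GS hrev ha
  have htv : theta σ v₁ ∈ GS F (fun i j : Fin n => i < j) hlt := theta_GS hrev hv₁'
  have hg2 : a * m * v₁ = theta σ a * theta σ m * theta σ v₁ := by
    rw [← theta_mul, ← theta_mul, ← hg1]
    exact (theta_eq.2 hg).symm
  have hmm : m = theta σ m := by
    refine bruhat_unique (v := (theta σ a)⁻¹ * a) (w := theta σ v₁ * v₁⁻¹) ?_ ?_ hm (theta_IsMo hm) ?_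
    · exact (Subgroup.mul_mem _ (Subgroup.inv_mem _ hta) ha).1
    · exact (Subgroup.mul_mem _ htv (Subgroup.inv_mem _ hv₁')).1
    · have h1 : (theta σ a)⁻¹ * a * m = (theta σ a)⁻¹ * (a * m * v₁) * v₁⁻¹ := by group
      rw [h1, hg2]
      group
  have hπ : π = Fin.revPerm * π * Fin.revPerm := by
    have h1 := theta_IsMo (σ := σ) hm
    rw [← hmm] at h1
    exact hm.uniq h1
  have hπ' : ∀ i, π⁻¹ (Fin.rev i) = Fin.rev (π⁻¹ i) := by
    intro i
    apply π.injective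
    rw [pinv']
    have h1 : π (Fin.rev (π⁻¹ i)) = Fin.rev (π (Fin.rev (Fin.rev (π⁻¹ i)))) :=
      congrArg (fun ρ : Equiv.Perm (Fin n) => ρ (Fin.rev (π⁻¹ i))) hπ
    rw [h1, Fin.rev_rev, pinv']
  have hlt1 : ∀ i j k : Fin n, x j < x i → x k < x j → x k < x i := fun _ _ _ h h' => h'.trans h
  have ha2 : a ∈ GS F (fun i j : Fin n => x j < x i) hlt1 := mem_GS.2 ha1
  have hta2 : theta σ a ∈ GS F (fun i j : Fin n => x j < x i) hlt1 := by
    refine theta_GS (fun i j h => ?_) ha2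
    rw [hx1] at h ⊢
    rw [hπ', hπ'] at h
    exact Fin.rev_lt_rev.1 h
  have hw : a⁻¹ * theta σ a = m * (v₁ * (theta σ v₁)⁻¹) * m⁻¹ := by
    have h1 : theta σ a = theta σ a * theta σ m * theta σ v₁ * (theta σ v₁)⁻¹ * (theta σ m)⁻¹ := by group
    rw [h1, ← hg2, ← hmm]
    group
  have hw1 : a⁻¹ * theta σ a = 1 := by
    refine I21_eq_one fun i j => ?_
    by_cases h : x j < x i
    · rw [hw]
      have h2 := (Subgroup.mul_mem _ hv₁' (Subgroup.inv_mem _ htv)).1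
      have h1 := I21_conj hm h2 (k := π⁻¹ i) (l := π⁻¹ j) (by
        rw [← hx1]
        exact not_lt.2 h.le)
      rw [pinv', pinv'] at h1
      exact h1
    · exact (Subgroup.mul_mem _ (Subgroup.inv_mem _ ha2) hta2).1 i j h
  have haU : a ∈ UG σ Fin.revPerm := theta_eq.1 (inv_mul_eq_one.1 hw1).symm
  have hmU : m ∈ UG σ Fin.revPerm := theta_eq.1 hmm.symm
  have hvU : v₁ ∈ UG σ Fin.revPerm := by
    have h1 : v₁ = m⁻¹ * (a⁻¹ * g) := by
      rw [hg1]
      group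
    rw [h1]
    exact Subgroup.mul_mem _ (Subgroup.inv_mem _ hmU) (Subgroup.mul_mem _ (Subgroup.inv_mem _ haU) hg)
  refine ⟨a, mem_UU.2 ⟨haU, fun i j hij => ?_⟩, m, ⟨hmU, π, hm⟩, v₁, mem_UU.2 ⟨hvU, fun i j hij => ?_⟩, hg1⟩
  · rw [z0_lt] at hij
    exact ha.1 i j hij
  · rw [z0_lt] at hij
    exact hv₁'.1 i j hij

end

end LieP.GI
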