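import Pool.Agent.LieP.I11
import Pool.Agent.LieP.I21

/-!
# MP_6c3636_al, section 15, module I42 (stub by helper89)

Bruhat decomposition of the Levi subgroups. `g ∈ L y ≤ UG`: `g = u m u'` (`c_b9`), `u, u' ∈ U z_0 ≤ PP y` (`z0_le_PP`), so `m ∈ PP y`. `m_{π j, j} ≠ 0` gives `y_{π j} ≥ y_j`, the sum over `j` gives equality, so `m ∈ L y`.
Apply `lev y` (`lev_mul`, `lev_UL`): `g = (lev u) m (lev u')`, `lev u ∈ U z_0 ⊓ L y` (`lev_z0`, `lev_mem`).
-/

namespace LieP.GI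

noncomputable section

open Classical Matrix

variable {n : ℕ} {F : Type} [Field F]

theorem levi_bruhat [Finite F] {σ : F ≃+* F} {y : En n} (hy : Antitone (co y)) :
    ∀ g ∈ UL σ Fin.revPerm (co y), ∃ u ∈ UU σ (co (z0 n)) ⊓ UL σ Fin.revPerm (co y),
      ∃ m ∈ MoN σ ⊓ UL σ Fin.revPerm (co y), ∃ u' ∈ UU σ (co (z0 n)) ⊓ UL σ Fin.revPerm (co y), g = u * m * u' := by
  intro g hg
  have hgP : g ∈ PP σ (co y) := UL_le_PP σ _ hg
  obtain ⟨u, hu, m, hm, u', hu', h⟩ := c_b9 σ g (mem_UL.1 hg).1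
  have huP : u ∈ PP σ (co y) := z0_le_PP σ hy hu
  have huP' : u' ∈ PP σ (co y) := z0_le_PP σ hy hu'
  have hmP : m ∈ PP σ (co y) := by
    have h1 : m = u⁻¹ * g * u'⁻¹ := by
      rw [h]
      group
    rw [h1]
    exact Subgroup.mul_mem _ (Subgroup.mul_mem _ (Subgroup.inv_mem _ huP) hgP) (Subgroup.inv_mem _ huP')
  have hpm := pm_spec hm
  have hle : ∀ j ∈ (Finset.univ : Finset (Fin n)), co y j ≤ co y (pm m j) := by
    intro j _
    by_contra hlt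
    exact hpm.ne j ((mem_PP.1 hmP).2 _ _ (not_le.1 hlt))
  have heq : ∀ j, co y j = co y (pm m j) := by
    intro j
    exact (Finset.sum_eq_sum_iff_of_le hle).1 (Equiv.sum_comp (pm m) (co y)).symm j (Finset.mem_univ j)
  have hmL : m ∈ UL σ Fin.revPerm (co y) := by
    refine mem_UL.2 ⟨hm.1, fun i j hij => hpm i j ?_⟩
    rintro rfl
    exact hij (heq j).symm
  refine ⟨lev (co y) u, ⟨lev_z0 (co_rev y) huP hu, lev_mem (co_rev y) huP⟩, m, ⟨hm, hmL⟩,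
    lev (co y) u', ⟨lev_z0 (co_rev y) huP' hu', lev_mem (co_rev y) huP'⟩, ?_⟩
  have h1 := lev_UL hg
  rw [h, lev_mul (Subgroup.mul_mem _ huP hmP) huP', lev_mul huP hmP, lev_UL hmL] at h1
  rw [h]
  exact h1.symm

end

end LieP.GI
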