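import Pool.Agent.LieP.I02
import Pool.Agent.LieP.I30

/-!
# MP_6c3636_al, section 15, module I29 (stub by helper89, proof by helper28)

The torus. Find `t : Fin n → F`, `t_i ≠ 0`, `t_i σ(t_{rev i}) = 1`, `t_r = c_r t_{r+1}` for `2r+2 ≤ n`; then `t := diag(t_i)`. `n` odd: `t_{(n-1)/2} = 1`, then downwards `t_r = c_r t_{r+1}`, `t_{rev i} := σ(t_i)⁻¹`.
`n` even, `m = n/2 - 1`: `t_m σ(t_m) = c_m` (`ff3` of I30), `t_{m+1} = σ(t_m)⁻¹`. The entry of `t u t⁻¹` at `(r, r+1)` is `t_r u_{r,r+1} t_{r+1}⁻¹`.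
-/

namespace LieP.GI

noncomputable section

open Classical Matrix

variable {n : ℕ} {F : Type} [Field F]

/-- the first half of the torus element -/
def I29_T (n : ℕ) (c : ℕ → F) (b : F) (i : ℕ) : F := (∏ j ∈ Finset.Ico i ((n - 1) / 2), c j) * b

theorem I29_T_ne {c : ℕ → F} (hc : ∀ r, 2 * r + 2 ≤ n → c r ≠ 0) {b : F} (hb : b ≠ 0) (i : ℕ) :
    I29_T n c b i ≠ 0 := by
  unfold I29_T
  refine mul_ne_zero (Finset.prod_ne_zero_iff.2 fun j hj => hc j ?_) hb
  rw [Finset.mem_Ico] at hj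
  omega

theorem I29_T_step {c : ℕ → F} {b : F} {r : ℕ} (hr : r < (n - 1) / 2) :
    I29_T n c b r = c r * I29_T n c b (r + 1) := by
  unfold I29_T
  rw [Finset.prod_eq_prod_Ico_succ_bot hr, mul_assoc]

theorem I29_T_end {c : ℕ → F} {b : F} {r : ℕ} (hr : (n - 1) / 2 ≤ r) : I29_T n c b r = b := by
  unfold I29_T
  rw [Finset.Ico_eq_empty (not_lt.2 hr), Finset.prod_empty, one_mul]

/-- the entries of the torus element -/
def I29_t (n : ℕ) (σ : F ≃+* F) (c : ℕ → F) (b : F) (i : ℕ) : F :=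
  if 2 * i ≤ n - 1 then I29_T n c b i else (σ (I29_T n c b (n - 1 - i)))⁻¹

theorem I29_t_ne {σ : F ≃+* F} {c : ℕ → F} (hc : ∀ r, 2 * r + 2 ≤ n → c r ≠ 0) {b : F} (hb : b ≠ 0) (i : ℕ) :
    I29_t n σ c b i ≠ 0 := by
  unfold I29_t
  split_ifs
  · exact I29_T_ne hc hb i
  · refine inv_ne_zero ?_
    rw [Ne, map_eq_zero_iff σ σ.injective]
    exact I29_T_ne hc hb _

theorem I29_t_rev {σ : F ≃+* F} (hσ : ∀ x, σ (σ x) = x) {c : ℕ → F} (hc : ∀ r, 2 * r + 2 ≤ n → c r ≠ 0) {b : F}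
    (hb : b ≠ 0) (hb1 : (∀ r, 2 * r + 2 ≠ n) → b = 1) {i : ℕ} (hi : i < n) :
    I29_t n σ c b i * σ (I29_t n σ c b (n - 1 - i)) = 1 := by
  unfold I29_t
  rcases lt_trichotomy (2 * i) (n - 1) with h | h | h
  · rw [if_pos h.le, if_neg (by omega), show n - 1 - (n - 1 - i) = i by omega, map_inv₀, hσ,
      mul_inv_cancel₀ (I29_T_ne hc hb i)]
  · have hb' : b = 1 := hb1 fun r hr => by omega
    rw [if_pos h.le, if_pos (by omega), I29_T_end (by omega), I29_T_end (by omega), hb', map_one, mul_one]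
  · rw [if_neg (by omega), if_pos (by omega)]
    refine inv_mul_cancel₀ ?_
    rw [Ne, map_eq_zero_iff σ σ.injective]
    exact I29_T_ne hc hb _

theorem I29_t_step {σ : F ≃+* F} {c : ℕ → F} {b : F} (hb : b ≠ 0)
    (hb2 : ∀ r, 2 * r + 2 = n → b * σ b = c r) {r : ℕ} (hr : 2 * r + 2 ≤ n) :
    I29_t n σ c b r = c r * I29_t n σ c b (r + 1) := by
  unfold I29_t
  rw [if_pos (by omega)]
  by_cases h : 2 * r + 2 = n
  · rw [if_neg (by omega), I29_T_end (by omega), I29_T_end (by omega), ← hb2 r h,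
      mul_inv_cancel_right₀]
    rw [Ne, map_eq_zero_iff σ σ.injective]
    exact hb
  · rw [if_pos (by omega)]
    exact I29_T_step (by omega)

/-- the torus element -/
def I29_g (n : ℕ) (s : ℕ → F) (hs : ∀ i, s i ≠ 0) : GL (Fin n) F where
  val := Matrix.diagonal fun i => s i
  inv := Matrix.diagonal fun i => (s i)⁻¹
  val_inv := by
    rw [Matrix.diagonal_mul_diagonal, ← Matrix.diagonal_one]
    exact congrArg _ (funext fun i => mul_inv_cancel₀ (hs i))
  inv_val := by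
    rw [Matrix.diagonal_mul_diagonal, ← Matrix.diagonal_one]
    exact congrArg _ (funext fun i => inv_mul_cancel₀ (hs i))

theorem exists_torus [Finite F] [CharP F 2] {σ : F ≃+* F} (hσ : ∀ x, σ (σ x) = x) (c : ℕ → F)
    (hc : ∀ r, 2 * r + 2 ≤ n → c r ≠ 0) (hc' : ∀ r, 2 * r + 2 = n → σ (c r) = c r) :
    ∃ t ∈ UL σ Fin.revPerm (co (z0 n)), ∀ u : GL (Fin n) F, ∀ r, 2 * r + 2 ≤ n →
      en (t * u * t⁻¹) r (r + 1) = c r * en u r (r + 1) := by
  obtain ⟨b, hb, hb1, hb2⟩ : ∃ b : F, b ≠ 0 ∧ ((∀ r, 2 * r + 2 ≠ n) → b = 1) ∧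
      (∀ r, 2 * r + 2 = n → b * σ b = c r) := by
    by_cases h : ∃ r, 2 * r + 2 = n
    · obtain ⟨r, hr⟩ := h
      obtain ⟨b, h1, h2⟩ := ff3 (hc' r hr) (hc r hr.le)
      refine ⟨b, h1, fun h3 => absurd hr (h3 r), fun r' hr' => ?_⟩
      rw [show r' = r by omega, h2]
    · exact ⟨1, one_ne_zero, fun _ => rfl, fun r hr => absurd ⟨r, hr⟩ h⟩
  have hne : ∀ i, I29_t n σ c b i ≠ 0 := I29_t_ne hc hb
  refine ⟨I29_g n (I29_t n σ c b) hne, ⟨?_, ?_, ?_⟩, fun u r hr => ?_⟩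
  · show adj σ Fin.revPerm (Matrix.diagonal fun i : Fin n => I29_t n σ c b i) *
      (Matrix.diagonal fun i : Fin n => I29_t n σ c b i) = 1
    ext i j
    rw [Matrix.mul_diagonal]
    show σ ((Matrix.diagonal fun i : Fin n => I29_t n σ c b i) (Fin.rev j) (Fin.rev i)) * I29_t n σ c b j = _
    by_cases h : i = j
    · subst h
      rw [Matrix.diagonal_apply_eq, Matrix.one_apply_eq, mul_comm]
      have h1 : ((Fin.rev i : Fin n) : ℕ) = n - 1 - (i : ℕ) := by
        rw [Fin.val_rev]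
        omega
      rw [h1]
      exact I29_t_rev hσ hc hb hb1 i.2
    · rw [Matrix.diagonal_apply_ne _ (fun h' => h (Fin.rev_injective h').symm), map_zero, zero_mul,
        Matrix.one_apply_ne h]
  · intro i j hij
    exact Matrix.diagonal_apply_ne _ (fun h => hij (by rw [h]))
  · intro i j hij
    exact Matrix.diagonal_apply_ne _ (fun h => hij (by rw [h]))
  · rw [en_eq _ (show r < n by omega) (show r + 1 < n by omega), en_eq _ (show r < n by omega) (show r + 1 < n by omega)]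
    show ((Matrix.diagonal fun i : Fin n => I29_t n σ c b i) * (u : Matrix (Fin n) (Fin n) F) *
      (Matrix.diagonal fun i : Fin n => (I29_t n σ c b i)⁻¹)) _ _ = _
    rw [Matrix.mul_diagonal, Matrix.diagonal_mul]
    show I29_t n σ c b r * _ * (I29_t n σ c b (r + 1))⁻¹ = _
    rw [I29_t_step hb hb2 hr]
    field_simp [hne (r + 1)]

end

end LieP.GI
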