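import Pool.Agent.LieP.I27
import Pool.Agent.LieP.I29

/-!
# MP_6c3636_al, section 15, module I31 (stub by helper89)

(W2) in the form with `Tv`. `ψ_r s := l (reN r s)` is additive (`lin_add`) on the allowed `s` (all of `F` if `2r+2 < n`, the fixed field if `2r+2 = n`), the same for `l'`. If `Tv l r` (so `Tv l' r`): `c_r := 1`. Otherwise both are nontrivial, `ff1` resp. `ff2` of I30
give `c_r ≠ 0` with `ψ'_r s = ψ_r (c_r s)`. `t` of `exists_torus`. `u ↦ l (t u t⁻¹)` is linear on `U z_0` (`t` normalizes it), compare on `reN r s` by `lin_ext` and `lin_congr` (`t (reN r s) t⁻¹` and `reN r (c_r s)` have the same entries at `q` with `2q+2 ≤ n`). `Uk_one`.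
-/

namespace LieP.GI

noncomputable section

open Classical Matrix

variable {n : ℕ} {F : Type} [Field F]

/-- the factor at `r` -/
private theorem I31_factor [Finite F] [CharP F 2] {σ : F ≃+* F} (hH : Hyp σ n) {l l' : GL (Fin n) F → ℤˣ}
    (hl : Lin (Uk n σ 1) l) (hl' : Lin (Uk n σ 1) l') {r : ℕ} (hr : 2 * r + 2 ≤ n)
    (h : Tv n σ l r ↔ Tv n σ l' r) :
    ∃ c : F, c ≠ 0 ∧ (2 * r + 2 = n → σ c = c) ∧
      ∀ s, Al0 n σ r s → l' (reN n σ r s) = l (reN n σ r (c * s)) := by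
  by_cases h0 : Tv n σ l r
  · refine ⟨1, one_ne_zero, fun _ => map_one σ, fun s hs => ?_⟩
    rw [one_mul, h0 s hs, (h.1 h0) s hs]
  · have h0' : ¬ Tv n σ l' r := fun h' => h0 (h.2 h')
    unfold Tv at h0 h0'
    push Not at h0 h0'
    obtain ⟨x, hx, hx'⟩ := h0
    obtain ⟨y, hy, hy'⟩ := h0'
    by_cases h2 : 2 * r + 2 = n
    · obtain ⟨c, hc, hc', hc''⟩ := ff2 (σ := σ) (ψ := fun s => l (reN n σ r s)) (ψ₂ := fun s => l' (reN n σ r s))
        (fun a b ha hb => lin_add hH hl hr (fun _ => ha) (fun _ => hb))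
        (fun a b ha hb => lin_add hH hl' hr (fun _ => ha) (fun _ => hb))
        ⟨x, hx h2, hx'⟩ ⟨y, hy h2, hy'⟩
      exact ⟨c, hc, fun _ => hc', fun s hs => hc'' s (hs h2)⟩
    · have hal : ∀ s, Al0 n σ r s := fun s h3 => absurd h3 h2
      obtain ⟨c, hc, hc'⟩ := ff1 (ψ := fun s => l (reN n σ r s)) (ψ₂ := fun s => l' (reN n σ r s))
        (fun a b => lin_add hH hl hr (hal a) (hal b))
        (fun a b => lin_add hH hl' hr (hal a) (hal b))
        ⟨x, hx'⟩ ⟨y, hy'⟩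
      exact ⟨c, hc, fun h3 => absurd h3 h2, fun s _ => hc' s⟩

/-- the torus normalizes `U_1` -/
private theorem I31_norm [Finite F] {σ : F ≃+* F} {t u : GL (Fin n) F}
    (ht : t ∈ UL σ Fin.revPerm (co (z0 n))) (hu : u ∈ Uk n σ 1) : t * u * t⁻¹ ∈ Uk n σ 1 := by
  have ht1 := mem_UL.1 ht
  have hmo : IsMo t 1 := by
    intro i j hij
    refine ht1.2 i j fun h' => ?_
    have hij' : i ≠ j := hij
    rcases lt_or_gt_of_ne hij' with h1 | h1
    · exact absurd h'.symm (z0_lt.2 h1).ne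
    · exact absurd h' (z0_lt.2 h1).ne
  rw [mem_Uk] at hu ⊢
  refine ⟨Subgroup.mul_mem _ (Subgroup.mul_mem _ ht1.1 hu.1) (Subgroup.inv_mem _ ht1.1), fun i j hij => ?_⟩
  have h1 : ((t * u * t⁻¹ : GL (Fin n) F) : Matrix (Fin n) (Fin n) F) i j =
      (t : Matrix (Fin n) (Fin n) F) i i * (u : Matrix (Fin n) (Fin n) F) i j *
        ((t : Matrix (Fin n) (Fin n) F) j j)⁻¹ := hmo.conj (h := u) i j
  rw [h1, hu.2 i j hij]
  by_cases h2 : i = j
  · subst h2
    rw [Matrix.one_apply_eq, mul_one]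
    exact mul_inv_cancel₀ (hmo.ne i)
  · rw [Matrix.one_apply_ne h2, mul_zero, zero_mul]

theorem twist [Finite F] [CharP F 2] {σ : F ≃+* F} (hH : Hyp σ n) {l l' : GL (Fin n) F → ℤˣ}
    (hl : Lin (UU σ (co (z0 n))) l) (hl' : Lin (UU σ (co (z0 n))) l')
    (h : ∀ r, 2 * r + 2 ≤ n → (Tv n σ l r ↔ Tv n σ l' r)) :
    ∃ t ∈ UL σ Fin.revPerm (co (z0 n)), ∀ u ∈ UU σ (co (z0 n)), l' u = l (t * u * t⁻¹) := by
  rw [← Uk_one] at hl hl'
  have hc : ∀ r, ∃ c : F, 2 * r + 2 ≤ n → c ≠ 0 ∧ (2 * r + 2 = n → σ c = c) ∧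
      ∀ s, Al0 n σ r s → l' (reN n σ r s) = l (reN n σ r (c * s)) := by
    intro r
    by_cases hr : 2 * r + 2 ≤ n
    · obtain ⟨c, h1⟩ := I31_factor hH hl hl' hr (h r hr)
      exact ⟨c, fun _ => h1⟩
    · exact ⟨1, fun h1 => absurd h1 hr⟩
  choose c hc using hc
  obtain ⟨t, ht, ht'⟩ := exists_torus (n := n) hH.1 c (fun r hr => (hc r hr).1)
    (fun r hr => (hc r hr.le).2.1 hr)
  refine ⟨t, ht, ?_⟩
  have hl2 : Lin (Uk n σ 1) (fun u => l (t * u * t⁻¹)) := by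
    intro u hu v hv
    show l (t * (u * v) * t⁻¹) = l (t * u * t⁻¹) * l (t * v * t⁻¹)
    rw [← hl _ (I31_norm ht hu) _ (I31_norm ht hv)]
    congr 1
    group
  have key := lin_ext hH hl' hl2 (fun r hr s hs => by
    show l' (reN n σ r s) = l (t * reN n σ r s * t⁻¹)
    have hcs : Al0 n σ r (c r * s) := by
      intro h2
      rw [map_mul, (hc r hr).2.1 h2, hs h2]
    obtain ⟨m1, m2, m3⟩ := reN_mem hH hr hs
    obtain ⟨k1, k2, k3⟩ := reN_mem hH hr hcs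
    rw [(hc r hr).2.2 s hs]
    refine lin_congr hH hl k1 (I31_norm ht m1) fun q hq => ?_
    rw [ht' _ q hq]
    by_cases hqr : q = r
    · subst hqr
      rw [k2, m2]
    · rw [k3 q hqr hq, m3 q hqr hq, mul_zero])
  intro u hu
  rw [← Uk_one] at hu
  exact key u hu

end

end LieP.GI
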