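import Pool.Agent.LieP.I28
import Pool.Agent.LieP.I31

/-!
# MP_6c3636_al, section 15, module I32 (stub by helper89)

(W2) at `z_0`. For `2r+2 ≤ n` the point `y` with `y_i = 1` for `i ≤ r`, `y_i = -1` for `i ≥ n-1-r`, `0` otherwise is antitone, and `y_{q+1} < y_q`, `2q+2 ≤ n` iff `q = r`. So `char_face` for this `y` gives `Tv l r ↔ Tv l' r`; `twist`.
-/

namespace LieP.GI

noncomputable section

open Classical Matrix

variable {n : ℕ} {F : Type} [Field F]

theorem exists_pt {r : ℕ} (hr : 2 * r + 2 ≤ n) : ∃ y : En n, Antitone (co y) ∧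
    ∀ q, 2 * q + 2 ≤ n → (cn (co y) (q + 1) < cn (co y) q ↔ q = r) := by
  let f : Fin n → ℝ := fun i => (if (i : ℕ) ≤ r then 1 else 0) - (if n - 1 - r ≤ (i : ℕ) then 1 else 0)
  have hfd : ∀ i, f i = (if (i : ℕ) ≤ r then (1 : ℝ) else 0) - (if n - 1 - r ≤ (i : ℕ) then 1 else 0) := fun _ => rfl
  have hf : ∀ i, f (Fin.rev i) = - f i := by
    intro i
    have hi := i.2
    have e1 : (((Fin.rev i : Fin n) : ℕ) ≤ r) = (n - 1 - r ≤ (i : ℕ)) := by
      rw [Fin.val_rev]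
      apply propext
      omega
    have e2 : (n - 1 - r ≤ ((Fin.rev i : Fin n) : ℕ)) = ((i : ℕ) ≤ r) := by
      rw [Fin.val_rev]
      apply propext
      omega
    rw [hfd, hfd, if_congr (iff_of_eq e1) rfl rfl, if_congr (iff_of_eq e2) rfl rfl]
    ring
  refine ⟨ofc f hf, ?_, ?_⟩
  · intro i j hij
    have hij' := Fin.le_def.1 hij
    show f j ≤ f i
    rw [hfd, hfd]
    by_cases h1 : (j : ℕ) ≤ r
    · have h2 : (i : ℕ) ≤ r := hij'.trans h1
      rw [if_pos h1, if_pos h2]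
      by_cases h3 : n - 1 - r ≤ (i : ℕ)
      · have h4 : n - 1 - r ≤ (j : ℕ) := h3.trans hij'
        rw [if_pos h3, if_pos h4]
      · rw [if_neg h3]
        split_ifs <;> norm_num
    · rw [if_neg h1]
      by_cases h3 : n - 1 - r ≤ (i : ℕ)
      · have h4 : n - 1 - r ≤ (j : ℕ) := h3.trans hij'
        rw [if_pos h3, if_pos h4]
        split_ifs <;> norm_num
      · rw [if_neg h3]
        split_ifs <;> norm_num
  · intro q hq
    have hq1 : q + 1 < n := by omega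
    rw [cn_eq _ hq1, cn_eq _ (Nat.lt_of_succ_lt hq1), co_ofc, co_ofc, hfd, hfd]
    show (if q + 1 ≤ r then (1 : ℝ) else 0) - (if n - 1 - r ≤ q + 1 then 1 else 0) <
      (if q ≤ r then (1 : ℝ) else 0) - (if n - 1 - r ≤ q then 1 else 0) ↔ q = r
    constructor
    · intro h
      by_contra hne
      rcases lt_or_gt_of_ne hne with h1 | h1
      · rw [if_pos (by omega : q + 1 ≤ r), if_pos (by omega : q ≤ r),
          if_neg (by omega : ¬ n - 1 - r ≤ q + 1), if_neg (by omega : ¬ n - 1 - r ≤ q)] at h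
        exact lt_irrefl _ h
      · rw [if_neg (by omega : ¬ q + 1 ≤ r), if_neg (by omega : ¬ q ≤ r),
          if_neg (by omega : ¬ n - 1 - r ≤ q + 1), if_neg (by omega : ¬ n - 1 - r ≤ q)] at h
        exact lt_irrefl _ h
    · rintro rfl
      rw [if_neg (by omega : ¬ q + 1 ≤ q), if_pos (le_refl q), if_neg (by omega : ¬ n - 1 - q ≤ q)]
      split_ifs <;> norm_num

theorem c_bw2 [Finite F] [CharP F 2] {σ : F ≃+* F} (hH : Hyp σ n) : ∀ l l' : GL (Fin n) F → ℤˣ,
    Lin (UU σ (co (z0 n))) l → Lin (UU σ (co (z0 n))) l' →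
    (∀ y : En n, (∀ a ∈ Rt n, 0 < inner ℝ a y → 0 < inner ℝ a (z0 n)) →
      ((∀ u ∈ UU σ (co y), l u = 1) ↔ ∀ u ∈ UU σ (co y), l' u = 1)) →
    ∃ s ∈ UL σ Fin.revPerm (co (z0 n)), ∀ u ∈ UU σ (co (z0 n)), l' u = l (s * u * s⁻¹) := by
  intro l l' hl hl' h
  refine twist hH hl hl' fun r hr => ?_
  obtain ⟨y, hy, hy'⟩ := exists_pt hr
  have h1 := h y (le_z0.2 hy)
  rw [char_face hH hl hy, char_face hH hl' hy] at h1
  constructor
  · intro h2
    refine h1.1 (fun q hq hlt => ?_) r hr ((hy' r hr).2 rfl)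
    rw [(hy' q hq).1 hlt]
    exact h2
  · intro h2
    refine h1.2 (fun q hq hlt => ?_) r hr ((hy' r hr).2 rfl)
    rw [(hy' q hq).1 hlt]
    exact h2

end

end LieP.GI
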