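import Pool.Agent.LieP.I11
import Pool.Agent.LieP.I32

/-!
# MP_6c3636_al, section 15, module I45 (stub by helper89)

The extension `l~ := l ∘ lev y` of a character of `U z_0 ⊓ L y`. `ext_lin`: `z0_le_PP`, `lev_mul`, `lev_z0`, `lev_mem`. `ext_Tv`: if `y_r ≠ y_{r+1}` (so `y_r > y_{r+1}`) then `reN r s ∈ U y` (`IsRe.U`), `lev = 1` (`lev_UU`), `l 1 = 1`. If `y_r = y_{r+1}`: suppose `Tv l~ r`. Take
the point `y'` of `exists_pt` (for this `r`). For `u ∈ U y' ⊓ L y`: `u ∈ U z_0`, `l u = l~ u`, and `U1_ind` for `K := {u ∈ U z_0 : l~ u = 1}` (`Uk 2 ≤ K` by `lin_comm`, `U2_le`; `u_q = 0` for `q ≠ r`, `reN q 0 ∈ Uk 2`; for `q = r` the assumption) gives `l u = 1`.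
So the regularity hypothesis gives: `Z y ≤ Z y'`, but the root of `(r, r+1)` is in `Z y` and not in `Z y'`.
-/

namespace LieP.GI

noncomputable section

open Classical Matrix

variable {n : ℕ} {F : Type} [Field F]

theorem I45_lin_one {G : Type} [Group G] {U : Subgroup G} {l : G → ℤˣ} (hl : Lin U l) : l 1 = 1 := by
  have h := hl 1 U.one_mem 1 U.one_mem
  rw [mul_one] at h
  have h2 : l 1 * l 1 = l 1 * 1 := by rw [mul_one]; exact h.symm
  exact mul_left_cancel h2

/-- the kernel of a character -/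
def I45_ker {G : Type} [Group G] (U : Subgroup G) (l : G → ℤˣ) (hl : Lin U l) : Subgroup G where
  carrier := {g | g ∈ U ∧ l g = 1}
  mul_mem' := by
    rintro a b ⟨ha, ha'⟩ ⟨hb, hb'⟩
    refine ⟨U.mul_mem ha hb, ?_⟩
    rw [hl a ha b hb, ha', hb', mul_one]
  one_mem' := ⟨U.one_mem, I45_lin_one hl⟩
  inv_mem' := by
    rintro a ⟨ha, ha'⟩
    refine ⟨U.inv_mem ha, ?_⟩
    have h := hl a ha a⁻¹ (U.inv_mem ha)
    rw [mul_inv_cancel, I45_lin_one hl, ha', one_mul] at h
    exact h.symm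

theorem I45_mem_ker {G : Type} [Group G] {U : Subgroup G} {l : G → ℤˣ} {hl : Lin U l} {g : G} :
    g ∈ I45_ker U l hl ↔ g ∈ U ∧ l g = 1 := Iff.rfl

theorem I45_UU_le [Finite F] (σ : F ≃+* F) {y : Fin n → ℝ} (hy : Antitone y) :
    UU σ y ≤ UU σ (co (z0 n)) := by
  intro g hg
  rw [mem_UU] at hg ⊢
  refine ⟨hg.1, fun i j hij => hg.2 i j fun h => hij ?_⟩
  rw [z0_lt]
  by_contra hlt
  exact absurd (hy (not_lt.1 hlt)) (not_le.2 h)

theorem ext_lin [Finite F] {σ : F ≃+* F} {y : En n} (hy : Antitone (co y)) {l : GL (Fin n) F → ℤˣ}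
    (hl : Lin (UU σ (co (z0 n)) ⊓ UL σ Fin.revPerm (co y)) l) :
    Lin (UU σ (co (z0 n))) (fun g => l (lev (co y) g)) := by
  intro u hu v hv
  have hu' := z0_le_PP σ hy hu
  have hv' := z0_le_PP σ hy hv
  show l (lev (co y) (u * v)) = l (lev (co y) u) * l (lev (co y) v)
  rw [lev_mul hu' hv']
  exact hl _ (Subgroup.mem_inf.2 ⟨lev_z0 (co_rev y) hu' hu, lev_mem (co_rev y) hu'⟩) _
    (Subgroup.mem_inf.2 ⟨lev_z0 (co_rev y) hv' hv, lev_mem (co_rev y) hv'⟩)

theorem ext_Tv [Finite F] [CharP F 2] {σ : F ≃+* F} (hH : Hyp σ n) {y : En n} (hy : Antitone (co y))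
    {l : GL (Fin n) F → ℤˣ} (hl : Lin (UU σ (co (z0 n)) ⊓ UL σ Fin.revPerm (co y)) l)
    (hreg : ∀ y' : En n, (∀ a ∈ Rt n, 0 < inner ℝ a y' → 0 < inner ℝ a (z0 n)) →
      (∀ u ∈ UU σ (co y'), u ∈ UL σ Fin.revPerm (co y) → l u = 1) →
      ∀ a ∈ Rt n, inner ℝ a y = 0 → inner ℝ a y' = 0) {r : ℕ} (hr : 2 * r + 2 ≤ n) :
    Tv n σ (fun g => l (lev (co y) g)) r ↔ cn (co y) r ≠ cn (co y) (r + 1) := by
  have h1 : r + 1 < n := by omega
  have h0 : r < n := by omega
  have hL := ext_lin (σ := σ) hy hl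
  constructor
  · intro hT heq
    obtain ⟨y', hy', hq⟩ := exists_pt hr
    have hlt := (hq r hr).2 rfl
    have hz := hreg y' (le_z0.2 hy') ?_ (rt ⟨r, h0⟩ ⟨r + 1, h1⟩)
      (mem_Rt.2 ⟨_, _, fun h => by
        have h2 := congrArg Fin.val h
        simp at h2, rfl⟩) ?_
    · rw [zero_rt, ← cn_eq (co y') h0, ← cn_eq (co y') h1] at hz
      exact hlt.ne' hz
    · intro u hu hu'
      have hu1 : u ∈ UU σ (co (z0 n)) := I45_UU_le σ hy' hu
      have hu2 : u ∈ Uk n σ 1 := by rw [Uk_one]; exact hu1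
      have hL' : Lin (Uk n σ 1) (fun g => l (lev (co y) g)) := by rw [Uk_one]; exact hL
      have hK : Uk n σ 2 ≤ I45_ker (UU σ (co (z0 n))) (fun g => l (lev (co y) g)) hL := by
        intro g hg
        refine I45_mem_ker.2 ⟨?_, ?_⟩
        · rw [← Uk_one]
          exact Uk_anti σ (by norm_num) hg
        · exact lin_comm hL' g (U2_le hH hg)
      have h3 : u ∈ I45_ker (UU σ (co (z0 n))) (fun g => l (lev (co y) g)) hL := by
        refine U1_ind hH _ hK hu2 ?_
        intro q hq2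
        by_cases hqr : q = r
        · subst hqr
          have ha := al0_en hH hu2 q
          refine I45_mem_ker.2 ⟨?_, hT _ ha⟩
          rw [← Uk_one]
          exact (reN_mem hH hr ha).1
        · have hq0 : q < n := by omega
          have hq1 : q + 1 < n := by omega
          have h4 : ¬ cn (co y') (q + 1) < cn (co y') q := fun h => hqr ((hq q hq2).1 h)
          rw [cn_eq (co y') hq0, cn_eq (co y') hq1] at h4
          have h5 : en u q (q + 1) = 0 := by
            rw [en_eq u hq0 hq1, (mem_UU.1 hu).2 _ _ h4, Matrix.one_apply_ne]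
            intro h
            have h2 := congrArg Fin.val h
            simp at h2
          rw [h5]
          have ha : Al0 n σ q 0 := fun _ => map_zero σ
          obtain ⟨h6, h7, h8⟩ := reN_mem hH hq2 ha
          apply hK
          refine U2_of hH h6 ?_
          intro p hp
          by_cases hpq : p = q
          · rw [hpq, h7]
          · exact h8 p hpq hp
      have h4 := (I45_mem_ker.1 h3).2
      have h5 : lev (co y) u = u := lev_UL hu'
      rw [← h5]
      exact h4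
    · rw [zero_rt, ← cn_eq (co y) h0, ← cn_eq (co y) h1]
      exact heq
  · intro hne s hs
    have hle : cn (co y) (r + 1) ≤ cn (co y) r := by
      rw [cn_eq (co y) h0, cn_eq (co y) h1]
      exact hy (Fin.le_def.2 (Nat.le_succ r))
    have hlt : co y ⟨r + 1, h1⟩ < co y ⟨r, h0⟩ := by
      rw [← cn_eq (co y) h0, ← cn_eq (co y) h1]
      exact lt_of_le_of_ne hle (Ne.symm hne)
    have h3 := (reN_isRe hH hr h1 hs).U (co_rev y) hlt
    show l (lev (co y) (reN n σ r s)) = 1
    rw [lev_UU h3]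
    exact I45_lin_one hl

end

end LieP.GI
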