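import Mathlib

/-!
# MP_6c3636_al, LieP, module I40: permutations with descents one (15, W4) (helper31)

A permutation of `Fin n` all of whose descents are by exactly one is an involution which reverses its maximal
descending runs; a function which is constant on the descents is invariant.
-/

namespace LieP

section

open Classical

theorem I40_ivt {m : ℕ → ℕ} (H : ∀ i, m (i + 1) < m i → m i = m (i + 1) + 1) :
    ∀ (k a v : ℕ), m (a + k) ≤ v → v ≤ m a → ∃ t, a ≤ t ∧ t ≤ a + k ∧ m t = v := by
  intro k
  induction k with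
  | zero =>
    intro a v h1 h2
    exact ⟨a, le_refl _, le_refl _, le_antisymm h1 h2⟩
  | succ k ih =>
    intro a v h1 h2
    by_cases h3 : v ≤ m (a + 1)
    · obtain ⟨t, ht1, ht2, ht3⟩ := ih (a + 1) v (by rw [show a + 1 + k = a + (k + 1) by omega]; exact h1) h3
      exact ⟨t, by omega, by omega, ht3⟩
    · have h4 := H a (by omega)
      exact ⟨a, le_refl _, by omega, by omega⟩

theorem I40_first {m : ℕ → ℕ} (inj : Function.Injective m)
    (H : ∀ i, m (i + 1) < m i → m i = m (i + 1) + 1) {s k : ℕ} (h : m (s + (k + 1)) < m s) :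
    m (s + 1) < m s := by
  by_contra h0
  have h1 : m (s + 1) ≠ m s := fun h2 => by
    have := inj h2
    omega
  obtain ⟨t, ht1, -, ht3⟩ := I40_ivt H k (s + 1) (m s)
    (by rw [show s + 1 + k = s + (k + 1) by omega]; exact h.le) (by omega)
  have := inj ht3
  omega

theorem I40_desc {m : ℕ → ℕ} (inj : Function.Injective m)
    (H : ∀ i, m (i + 1) < m i → m i = m (i + 1) + 1) :
    ∀ (k s : ℕ), m (s + (k + 1)) < m s → (∀ t, s ≤ t → t < s + (k + 1) → m (t + 1) < m t) := by
  intro k
  induction k with
  | zero =>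
    intro s h t h1 h2
    obtain rfl : t = s := by omega
    exact h
  | succ k ih =>
    intro s h t h1 h2
    have h3 := I40_first inj H h
    rcases Nat.lt_or_ge s t with h4 | h4
    · have h5 := H s h3
      have h6 : m (s + 1 + (k + 1)) ≠ m (s + 1) := fun h7 => by
        have := inj h7
        omega
      have h7 : m (s + 1 + (k + 1)) < m (s + 1) := by
        rw [show s + 1 + (k + 1) = s + (k + 1 + 1) by omega] at h6 ⊢
        omega
      exact ih (s + 1) h7 t (by omega) (by omega)
    · obtain rfl : t = s := by omega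
      exact h3

/-- a run of descents -/
theorem I40_run {m : ℕ → ℕ} (H : ∀ i, m (i + 1) < m i → m i = m (i + 1) + 1) {K : Type*} (d : ℕ → K)
    (hd : ∀ i, m (i + 1) < m i → d i = d (i + 1)) :
    ∀ (k s : ℕ), (∀ t, s ≤ t → t < s + k → m (t + 1) < m t) → m s = m (s + k) + k ∧ d s = d (s + k) := by
  intro k
  induction k with
  | zero => intro s _; exact ⟨rfl, rfl⟩
  | succ k ih =>
    intro s h
    obtain ⟨h1, h2⟩ := ih s fun t ht1 ht2 => h t ht1 (by omega)
    have h3 := h (s + k) (by omega) (by omega)
    have h4 := H (s + k) h3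
    refine ⟨?_, h2.trans (hd _ h3)⟩
    rw [show s + (k + 1) = s + k + 1 by omega]
    omega

theorem I40_nat {m : ℕ → ℕ} {n : ℕ} (inj : Function.Injective m)
    (H : ∀ i, m (i + 1) < m i → m i = m (i + 1) + 1) (hge : ∀ i, n ≤ i → m i = i)
    (hlt : ∀ i, i < n → m i < n) {K : Type*} (d : ℕ → K)
    (hd : ∀ i, m (i + 1) < m i → d i = d (i + 1)) (x : ℕ) : m (m x) = x ∧ d (m x) = d x := by
  -- the end of the run
  have hq : ∃ j, ¬ m (x + j + 1) < m (x + j) := ⟨n, by rw [hge _ (by omega), hge _ (by omega)]; omega⟩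
  obtain ⟨j, hj, hj'⟩ : ∃ j, (¬ m (x + j + 1) < m (x + j)) ∧ ∀ i < j, m (x + i + 1) < m (x + i) :=
    ⟨Nat.find hq, Nat.find_spec hq, fun i hi => by
      have := Nat.find_min hq hi
      exact not_not.1 this⟩
  -- the beginning of the run
  have hp : ∃ j, x - j = 0 ∨ ¬ m (x - j) < m (x - j - 1) := ⟨x, Or.inl (by omega)⟩
  obtain ⟨l, hl, hl'⟩ : ∃ l, (x - l = 0 ∨ ¬ m (x - l) < m (x - l - 1)) ∧
      ∀ i < l, x - i ≠ 0 ∧ m (x - i) < m (x - i - 1) :=
    ⟨Nat.find hp, Nat.find_spec hp, fun i hi => by
      have := Nat.find_min hp hi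
      push Not at this
      exact this⟩
  have hlx : l ≤ x := by
    by_contra h0
    exact (hl' x (by omega)).1 (by omega)
  set q := x + j with hqdef
  set p := x - l with hpdef
  -- the run
  have run : ∀ t, p ≤ t → t < q → m (t + 1) < m t := by
    intro t h1 h2
    rcases Nat.lt_or_ge t x with h3 | h3
    · have h4 := (hl' (x - (t + 1)) (by omega)).2
      rw [show x - (x - (t + 1)) = t + 1 by omega, show t + 1 - 1 = t by omega] at h4
      exact h4
    · have h4 := hj' (t - x) (by omega)
      rw [show x + (t - x) = t by omega] at h4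
      exact h4
  -- no inversions across the ends
  have c1 : ∀ s r, s ≤ q → q < r → m s < m r := by
    intro s r h1 h2
    by_contra h3
    have h4 : m r ≠ m s := fun h5 => by
      have := inj h5
      omega
    have h5 := I40_desc inj H (r - s - 1) s (by rw [show s + (r - s - 1 + 1) = r by omega]; omega) q h1
      (by omega)
    exact hj h5
  have c2 : ∀ s r, s < p → p ≤ r → m s < m r := by
    intro s r h1 h2
    by_contra h3
    have h4 : m r ≠ m s := fun h5 => by
      have := inj h5
      omega
    have h5 := I40_desc inj H (r - s - 1) s (by rw [show s + (r - s - 1 + 1) = r by omega]; omega) (p - 1)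
      (by omega) (by omega)
    rw [show p - 1 + 1 = p by omega] at h5
    rcases hl with h6 | h6
    · omega
    · exact h6 h5
  -- counting
  have d1 : m p ≤ q := by
    by_contra h0
    let N := n + q + m p
    have hN : ∀ r, r ≤ N → m r ≤ N := by
      intro r hr
      rcases Nat.lt_or_ge r n with h1 | h1
      · have := hlt r h1
        omega
      · rw [hge r h1]
        exact hr
    have h1 : (Finset.Ioc q N).card ≤ (Finset.Ioc (m p) N).card := by
      refine Finset.card_le_card_of_injOn m ?_ (fun a _ b _ h => inj h)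
      intro r hr
      rw [Finset.mem_coe, Finset.mem_Ioc] at hr ⊢
      exact ⟨c1 p r (by omega) hr.1, hN r hr.2⟩
    rw [Nat.card_Ioc, Nat.card_Ioc] at h1
    omega
  have d2 : p ≤ m q := by
    have h1 : (Finset.range p).card ≤ (Finset.range (m q)).card := by
      refine Finset.card_le_card_of_injOn m ?_ (fun a _ b _ h => inj h)
      intro r hr
      rw [Finset.mem_coe, Finset.mem_range] at hr ⊢
      exact c2 r q hr (by omega)
    rw [Finset.card_range, Finset.card_range] at h1
    exact h1
  obtain ⟨e1, e2⟩ := I40_run H d hd (q - p) p fun t h1 h2 => run t h1 (by omega)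
  rw [show p + (q - p) = q by omega] at e1 e2
  obtain ⟨e3, e4⟩ := I40_run H d hd (x - p) p fun t h1 h2 => run t h1 (by omega)
  rw [show p + (x - p) = x by omega] at e3 e4
  have hmx : m x = p + q - x := by omega
  obtain ⟨e5, e6⟩ := I40_run H d hd (q - x) p fun t h1 h2 => run t h1 (by omega)
  rw [show p + (q - x) = m x by omega] at e5 e6
  exact ⟨by omega, e6.symm.trans e4⟩

/-- a permutation of `Fin n` with descents exactly one is an involution -/
theorem layered {n : ℕ} {K : Type*} (mu : Equiv.Perm (Fin n)) (d : Fin n → K)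
    (h : ∀ i j : Fin n, (j : ℕ) = i + 1 → mu j < mu i → (mu i : ℕ) = mu j + 1 ∧ d i = d j) (x : Fin n) :
    mu (mu x) = x ∧ d (mu x) = d x := by
  let m : ℕ → ℕ := fun i => if hi : i < n then (mu ⟨i, hi⟩ : ℕ) else i
  let d' : ℕ → Option K := fun i => if hi : i < n then some (d ⟨i, hi⟩) else none
  have m1 : ∀ i (hi : i < n), m i = (mu ⟨i, hi⟩ : ℕ) := fun i hi => dif_pos hi
  have m2 : ∀ i, n ≤ i → m i = i := fun i hi => dif_neg (by omega)
  have d1 : ∀ i (hi : i < n), d' i = some (d ⟨i, hi⟩) := fun i hi => dif_pos hi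
  have hlt : ∀ i, i < n → m i < n := fun i hi => by
    rw [m1 i hi]
    exact (mu ⟨i, hi⟩).2
  have inj : Function.Injective m := by
    intro a b hab
    rcases Nat.lt_or_ge a n with ha | ha <;> rcases Nat.lt_or_ge b n with hb | hb
    · rw [m1 a ha, m1 b hb] at hab
      have := mu.injective (Fin.ext hab)
      exact congrArg Fin.val this
    · have := hlt a ha
      rw [hab, m2 b hb] at this
      omega
    · have := hlt b hb
      rw [← hab, m2 a ha] at this
      omega
    · rw [m2 a ha, m2 b hb] at hab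
      exact hab
  have key : ∀ i, m (i + 1) < m i → m i = m (i + 1) + 1 ∧ d' i = d' (i + 1) := by
    intro i hi
    rcases Nat.lt_or_ge (i + 1) n with h1 | h1
    · have h2 : i < n := by omega
      rw [m1 i h2, m1 (i + 1) h1] at hi ⊢
      obtain ⟨h3, h4⟩ := h ⟨i, h2⟩ ⟨i + 1, h1⟩ rfl hi
      exact ⟨h3, by rw [d1 i h2, d1 (i + 1) h1, h4]⟩
    · rw [m2 (i + 1) h1] at hi
      rcases Nat.lt_or_ge i n with h2 | h2
      · have := hlt i h2
        omega
      · rw [m2 i h2] at hi
        omega
  obtain ⟨h1, h2⟩ := I40_nat inj (fun i hi => (key i hi).1) m2 hlt d' (fun i hi => (key i hi).2) x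
  have h3 : m (x : ℕ) = (mu x : ℕ) := m1 x x.2
  rw [h3] at h1 h2
  rw [m1 (mu x : ℕ) (mu x).2] at h1
  rw [d1 (mu x : ℕ) (mu x).2, d1 x x.2] at h2
  exact ⟨Fin.ext h1, Option.some_injective _ h2⟩

end

end LieP
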