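import Pool.Agent.LieP.I47
import Pool.Agent.LieP.I40

/-!
# MP_6c3636_al, section 15, module I48 (stub by helper89)

`ty y m = m`. `μ := (rv y) ∘ π⁻¹` as a permutation of `Fin n`, `d r := m_{r, π⁻¹ r}`. If `μ (r+1) < μ r`: `y (μ r) = y (π⁻¹ r) = y r` (`rv_eq`, `m ∈ L y`); `y_r ≥ y_{r+1}`, and `y_r > y_{r+1}` would give `μ r < μ (r+1)` (antitone); so `y_r = y_{r+1}`, `π⁻¹ r < π⁻¹ (r+1)` (`rv_lt`), and `mono_step`:
`π⁻¹ (r+1) = π⁻¹ r + 1`, `d r = d (r+1)`, `μ r = μ (r+1) + 1` (`rv_succ`). `layered` (I40): `μ (μ x) = x`, `d (μ x) = d x`. I.e. `π⁻¹ (rv (π⁻¹ x)) = rv x`: `π (rv x) = rv (π⁻¹ x)`. The entry of `ty m` at `(a, b)` is `m_{rv b, rv a}`: nonzero iff `rv b = π (rv a) = rv (π⁻¹ a)` iff `a = π b`; then it is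
`m_{rv b, rv a} = d (rv b) = d (rv (π⁻¹ a)) = d (μ a) = d a = m_{a, b}`.
-/

namespace LieP.GI

noncomputable section

open Classical Matrix

variable {n : ℕ} {F : Type} [Field F]

theorem mono_ty [Finite F] [CharP F 2] {σ : F ≃+* F} (hH : Hyp σ n) {ψ ψ' : F → ℤˣ} (hp : PsPair σ ψ ψ') {y : En n}
    (hy : Antitone (co y)) {m : GL (Fin n) F} (hm : m ∈ MoN σ) (hm' : m ∈ UL σ Fin.revPerm (co y))
    (h : ∀ u ∈ UU σ (co (z0 n)) ⊓ UL σ Fin.revPerm (co y),
      m⁻¹ * u * m ∈ UU σ (co (z0 n)) ⊓ UL σ Fin.revPerm (co y) →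
        l0 (co y) ψ ψ' u = l0 (co y) ψ ψ' (m⁻¹ * u * m)) : ty (co y) m = m := by
  have hy' : Antitone (co y) := hy
  have mo := pm_spec hm
  -- the levels
  have lv : ∀ k, co y (pm m k) = co y k := by
    intro k
    by_contra hne
    exact mo.ne k ((mem_UL.1 hm').2 _ _ hne)
  have lv' : ∀ k, co y ((pm m)⁻¹ k) = co y k := by
    intro k
    have h1 := lv ((pm m)⁻¹ k)
    rw [pinv'] at h1
    exact h1.symm
  -- the reversal as a permutation
  let R : Equiv.Perm (Fin n) := ⟨rv (co y), rv (co y), rv_rv hy', rv_rv hy'⟩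
  have hR : ∀ k, R k = rv (co y) k := fun k => rfl
  have hinj : Function.Injective (rv (co y)) := R.injective
  let mu : Equiv.Perm (Fin n) := R * (pm m)⁻¹
  have hmu : ∀ k, mu k = rv (co y) ((pm m)⁻¹ k) := fun k => rfl
  have hlay := layered mu (fun r => (m : Matrix (Fin n) (Fin n) F) r ((pm m)⁻¹ r)) (by
    intro i j hij hlt
    have hij' : i < j := by
      rw [Fin.lt_def]
      omega
    have y1 : co y j ≤ co y i := hy' hij'.le
    have y2 : co y (mu i) ≤ co y (mu j) := hy' hlt.le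
    rw [hmu, hmu, rv_eq hy', rv_eq hy', lv', lv'] at y2
    have y3 : co y i = co y j := le_antisymm y2 y1
    have y4 : co y ((pm m)⁻¹ i) = co y ((pm m)⁻¹ j) := by
      rw [lv', lv', y3]
    have hab : (pm m)⁻¹ i < (pm m)⁻¹ j := by
      rcases lt_trichotomy ((pm m)⁻¹ i) ((pm m)⁻¹ j) with h1 | h1 | h1
      · exact h1
      · exact absurd ((pm m)⁻¹.injective h1) hij'.ne
      · exfalso
        have h2 := rv_lt hy' y4.symm h1
        rw [← hmu, ← hmu] at h2
        exact absurd h2 (not_lt.2 hlt.le)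
    obtain ⟨e1, e2⟩ := mono_step hH hp hy hm hm' h (i := (pm m)⁻¹ i) (j := (pm m)⁻¹ j)
      (by rw [pinv', pinv', hij]) (by rw [pinv', pinv', y3]) hab
    rw [pinv', pinv'] at e2
    exact ⟨by rw [hmu, hmu]; exact rv_succ hy' y4 e1, e2⟩)
  -- the relation between the reversal and the permutation
  have key : ∀ x, (pm m)⁻¹ (mu x) = rv (co y) x := by
    intro x
    have h1 := (hlay x).1
    rw [hmu (mu x)] at h1
    apply hinj
    rw [h1, rv_rv hy']
  apply Units.ext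
  ext a b
  rw [ty_apply hy']
  by_cases hab : a = pm m b
  · have e1 : (pm m)⁻¹ a = b := by rw [hab, pinv]
    have e2 : rv (co y) b = mu a := by rw [hmu, e1]
    have e3 := (hlay a).2
    show (m : Matrix (Fin n) (Fin n) F) (rv (co y) b) (rv (co y) a) = (m : Matrix (Fin n) (Fin n) F) a b
    rw [e2, ← key a]
    have e4 : (m : Matrix (Fin n) (Fin n) F) (mu a) ((pm m)⁻¹ (mu a)) =
      (m : Matrix (Fin n) (Fin n) F) a ((pm m)⁻¹ a) := e3
    rw [e4, e1]
  · rw [mo a b hab]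
    apply mo
    intro h1
    apply hab
    have h2 : pm m (rv (co y) a) = mu a := by rw [← key a, pinv']
    rw [h2, hmu] at h1
    have h3 := hinj h1
    rw [h3, pinv']

end

end LieP.GI
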