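import Pool.Agent.LieP.I41
import Pool.Agent.LieP.I42
import Pool.Agent.LieP.I45
import Pool.Agent.LieP.I48
import Pool.Agent.LieP.I07
import Pool.Agent.LieP.I30

/-!
# MP_6c3636_al, section 15, module I49 (stub by helper89, proof by helper21)

(W4) at `z_0`. `l~ := l ∘ lev y` (I45), `ψ, ψ'` of `exists_pspair`, `twist` for `l0` and `l~` (`ext_Tv`, `l0_Tv`): `l~ u = l0 (t u t⁻¹)` for `u ∈ U z_0`, `t ∈ L z_0 ≤ L y` (diagonal). On `V := U z_0 ⊓ L y`: `l u = l~ u` (`lev_UL`), so `l u = l0 (t u t⁻¹)`.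
`gelfand` (I41) for `H = L y`, `U = V`, `N = MoN ⊓ L y`, `τ = ty y`, `l0` (`levi_bruhat`, `ty_*`, `l0_lin`, `l0_ty`, `mono_ty`). `conj_el`, `conj_sb` (I07) with `m = t⁻¹`: `el k V l = dl t⁻¹ * el k V l0 * dl t`; conjugate `a, b`.
`exists_pspair`: from `ff5` of I30.
-/

namespace LieP.GI

noncomputable section

open Classical Matrix

variable {n : ℕ} {F : Type} [Field F]

theorem exists_pspair [Finite F] [CharP F 2] {σ : F ≃+* F} (hσ : ∀ x, σ (σ x) = x) :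
    ∃ ψ ψ' : F → ℤˣ, PsPair σ ψ ψ' := by
  obtain ⟨ψ, h1, h2, h3⟩ := ff5 σ
  obtain ⟨ψ', h1', h3'⟩ := ff5' (F := F)
  refine ⟨ψ, ψ', ⟨h1, h1', h2, fun c hc => ff6 h1 h3 hc, fun c hc hx => ?_⟩⟩
  exact ff6K (σ := σ) (fun x y _ _ => h1' x y) ⟨1, map_one σ, h3'⟩ hc hx

theorem I49_dl_mul {G : Type} [Group G] {k : Type} [Field k] (g : G) : (dl g * dl g⁻¹ : Al k G) = 1 := by
  unfold dl
  rw [MonoidAlgebra.single_mul_single, mul_inv_cancel, one_mul]
  rfl

theorem I49_dl_mul' {G : Type} [Group G] {k : Type} [Field k] (g : G) : (dl g⁻¹ * dl g : Al k G) = 1 := by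
  unfold dl
  rw [MonoidAlgebra.single_mul_single, inv_mul_cancel, one_mul]
  rfl

theorem I49_ring {R : Type} [Ring R] {D D' E a b e : R} (he : e = D' * E * D)
    (hE : E * (D * a * D') * E * (D * b * D') * E = E * (D * b * D') * E * (D * a * D') * E) :
    e * a * e * b * e = e * b * e * a * e := by
  have key : ∀ x y : R, e * x * e * y * e = D' * (E * (D * x * D') * E * (D * y * D') * E) * D := by
    intro x y
    rw [he]
    simp only [mul_assoc]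
  rw [key, key, hE]

theorem I49_mem {G : Type} [Group G] {H : Subgroup G} {t : G} (ht : t ∈ H) (g : G) :
    g ∈ H ↔ t⁻¹ * g * t ∈ H := by
  constructor
  · intro h
    exact H.mul_mem (H.mul_mem (H.inv_mem ht) h) ht
  · intro h
    have := H.mul_mem (H.mul_mem ht h) (H.inv_mem ht)
    rwa [show t * (t⁻¹ * g * t) * t⁻¹ = g by group] at this

theorem c_bw4 [Finite F] [CharP F 2] {σ : F ≃+* F} (hH : Hyp σ n) : ∀ y : En n,
    (∀ a ∈ Rt n, 0 < inner ℝ a y → 0 < inner ℝ a (z0 n)) →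
    ∀ l : GL (Fin n) F → ℤˣ, Lin (UU σ (co (z0 n)) ⊓ UL σ Fin.revPerm (co y)) l →
    (∀ y' : En n, (∀ a ∈ Rt n, 0 < inner ℝ a y' → 0 < inner ℝ a (z0 n)) →
      (∀ u ∈ UU σ (co y'), u ∈ UL σ Fin.revPerm (co y) → l u = 1) →
      ∀ a ∈ Rt n, inner ℝ a y = 0 → inner ℝ a y' = 0) →
    ∀ [Finite (GL (Fin n) F)] (k : Type) [Field k] [CharZero k],
    ∀ a ∈ sb k (UL σ Fin.revPerm (co y)), ∀ b ∈ sb k (UL σ Fin.revPerm (co y)),
      el k (UU σ (co (z0 n)) ⊓ UL σ Fin.revPerm (co y)) l * a * el k (UU σ (co (z0 n)) ⊓ UL σ Fin.revPerm (co y)) l *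
          b * el k (UU σ (co (z0 n)) ⊓ UL σ Fin.revPerm (co y)) l =
        el k (UU σ (co (z0 n)) ⊓ UL σ Fin.revPerm (co y)) l * b *
          el k (UU σ (co (z0 n)) ⊓ UL σ Fin.revPerm (co y)) l * a *
          el k (UU σ (co (z0 n)) ⊓ UL σ Fin.revPerm (co y)) l := by
  intro y hy l hl hreg _ k _ _ a ha b hb
  have hya : Antitone (co y) := le_z0.1 hy
  have hrev : ∀ i, co y (Fin.rev i) = - co y i := fun i => y.2 i
  obtain ⟨ψ, ψ', hp⟩ := exists_pspair (σ := σ) hH.1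
  obtain ⟨t, ht, htl⟩ := twist hH (l0_lin hp (co y)) (ext_lin hya hl)
    (fun r hr => (l0_Tv hH hp (co y) hr).trans (ext_Tv hH hya hl hreg hr).symm)
  set V : Subgroup (GL (Fin n) F) := UU σ (co (z0 n)) ⊓ UL σ Fin.revPerm (co y) with hVdef
  have htL : t ∈ UL σ Fin.revPerm (co y) :=
    c_s2 σ (z0 n) (z0 n) y (fun a ha h0 _ => absurd h0 (gn_z0 a ha)) t ht ht
  have htV : ∀ g, g ∈ V ↔ t⁻¹ * g * t ∈ V := by
    intro g
    rw [hVdef, Subgroup.mem_inf, Subgroup.mem_inf, ← I49_mem htL g]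
    refine and_congr_left fun _ => ?_
    constructor
    · intro h
      have := c_s4 σ (z0 n) t⁻¹ (Subgroup.inv_mem _ ht) g h
      rwa [inv_inv] at this
    · intro h
      have := c_s4 σ (z0 n) t ht _ h
      rwa [show t * (t⁻¹ * g * t) * t⁻¹ = g by group] at this
  have hl0 : ∀ g ∈ V, l0 (co y) ψ ψ' g = l (t⁻¹ * g * t) := by
    intro g hg
    have h1 := (htV g).1 hg
    have h2 : l (lev (co y) (t⁻¹ * g * t)) = l0 (co y) ψ ψ' (t * (t⁻¹ * g * t) * t⁻¹) := htl _ h1.1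
    rw [lev_UL h1.2, show t * (t⁻¹ * g * t) * t⁻¹ = g by group] at h2
    exact h2.symm
  have hE : dl t * el k V l * dl t⁻¹ = el k V (l0 (co y) ψ ψ') := conj_el (k := k) t htV hl0
  have he : el k V l = dl t⁻¹ * el k V (l0 (co y) ψ ψ') * dl t := by
    rw [← hE]
    rw [show (dl t⁻¹ * (dl t * el k V l * dl t⁻¹) * dl t : Al k (GL (Fin n) F)) =
      (dl t⁻¹ * dl t) * el k V l * (dl t⁻¹ * dl t) by simp only [mul_assoc]]
    rw [I49_dl_mul', one_mul, mul_one]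
  have hG := gelfand (k := k) (H := UL σ Fin.revPerm (co y)) (U := V) inf_le_right
    (N := {m | m ∈ MoN σ ⊓ UL σ Fin.revPerm (co y)}) (fun m hm => hm.2) (τ := ty (co y))
    (fun g h => ty_mul hya g h) (fun g => ty_ty hya g) (fun g hg => ty_UL hya hrev hg)
    (fun g hg => ty_U hya hrev hg) (l := l0 (co y) ψ ψ')
    (fun u hu v hv => l0_lin hp (co y) u hu.1 v hv.1) (fun u hu => l0_ty hH hp hya u hu)
    (fun g hg => levi_bruhat hya g hg) (fun m hm h => mono_ty hH hp hya hm.1 hm.2 h)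
  have hconj : ∀ c ∈ sb k (UL σ Fin.revPerm (co y)), dl t * c * dl t⁻¹ ∈ sb k (UL σ Fin.revPerm (co y)) := by
    intro c hc
    have := conj_sb (k := k) t⁻¹ (H := UL σ Fin.revPerm (co y)) (K := UL σ Fin.revPerm (co y))
      (fun g => I49_mem (Subgroup.inv_mem _ htL) g) hc
    rwa [inv_inv] at this
  exact I49_ring he (hG _ (hconj a ha) _ (hconj b hb))

end

end LieP.GI
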