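import Pool.Agent.LieP.I09
import Pool.Agent.LieP.I13
import Pool.Agent.LieP.I14
import Pool.Agent.LieP.I16
import Pool.Agent.LieP.I17
import Pool.Agent.LieP.I18
import Pool.Agent.LieP.I49

/-!
# MP_6c3636_al, section 15, module I90 (helper89)

Assembly: the groups `G(n, F, σ)` have a `LieSys`.
-/

namespace LieP.GI

noncomputable section

open Classical Matrix

/-- the system of the group `G(n, F, σ)` at the point `z_0` -/
def psys (n : ℕ) {F : Type} [Field F] [Finite F] [CharP F 2] {σ : F ≃+* F} (hH : Hyp σ n) :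
    PS (GL (Fin n) F) (En n) where
  H := UG σ Fin.revPerm
  R := Rt n
  N := MoN σ
  ac := acG
  U x := UU σ (co x)
  L x := UL σ Fin.revPerm (co x)
  z0 := z0 n
  D0 := Dl0 n
  gen0 := gn_z0
  neg := c_neg
  ne := c_ne
  NH := fun g hg => hg.1
  UH := fun x g hg => hg.1
  LH := fun x g hg => hg.1
  ac_one := acG_one σ
  ac_mul := fun m hm g hg => acG_mul hm hg
  s1 := c_s1 σ
  s2 := c_s2 σ
  s3 := c_s3 σ
  s4 := c_s4 σ
  s4' := c_s4' σ
  s5U := c_s5U σ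
  s5L := c_s5L σ
  s5P := c_s5P σ
  s6 := c_s6 σ
  s7U := c_s7U σ
  s7L := c_s7L σ
  s7R := c_s7R σ
  s8 := c_s8 σ
  s8' := c_s8' σ
  s10 := c_s10 hH
  s11 := c_s11 σ
  s11' := c_s11' σ
  s12 := c_s12 σ
  b9 := c_b9 σ
  b13 := c_b13 σ
  b14 := c_b14
  b14' := c_b14'
  b14'' := c_b14''
  bw0 := c_bw0 hH
  bw1 := c_bw1 hH
  bw2 := c_bw2 hH
  bw3 := c_bw3 hH
  bw4 := c_bw4 hH

theorem _root_.LieP.exists_sys : ExistsSys := by
  intro F _ _ _ σ n hσ hn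
  obtain ⟨S, h1, h2⟩ := (psys n (σ := σ) ⟨hσ, hn⟩).sys
  refine ⟨S, h1, fun y => ?_⟩
  rw [h2]
  rfl

end

end LieP.GI
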