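import Pool.Agent.LieP.Defs2
import Pool.Agent.ParkerGL.E03

/-!
# MP_6c3636_al, groups of Lie type in characteristic two: definitions, part 3 (helper7)

The groups of section 15, 16: `UG σ ι` is the group `G(I, ι, σ)`, `UL σ ι y` its Levi subgroup.
Targets of section 15: `exists_sys` below (module I90), of section 16: `op_UL` below (module P90).
-/

namespace LieP

noncomputable section

open Classical Matrix

section Groups

variable {I F : Type} [Fintype I] [DecidableEq I] [Field F]

/-- the adjoint matrix -/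
def adj (σ : F ≃+* F) (ι : Equiv.Perm I) (A : Matrix I I F) : Matrix I I F :=
  fun i j => σ (A (ι j) (ι i))

theorem adj_mul (σ : F ≃+* F) (ι : Equiv.Perm I) (A B : Matrix I I F) :
    adj σ ι (A * B) = adj σ ι B * adj σ ι A := by
  ext i j
  show σ ((A * B) (ι j) (ι i)) = _
  rw [Matrix.mul_apply, map_sum, Matrix.mul_apply, ← Equiv.sum_comp ι]
  exact Finset.sum_congr rfl fun k _ => by rw [map_mul, mul_comm]; rfl

theorem adj_one (σ : F ≃+* F) (ι : Equiv.Perm I) : adj σ ι (1 : Matrix I I F) = 1 := by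
  ext i j
  show σ ((1 : Matrix I I F) (ι j) (ι i)) = _
  rw [Matrix.one_apply, Matrix.one_apply]
  by_cases h : i = j
  · rw [if_pos h, if_pos (by rw [h]), map_one]
  · rw [if_neg h, if_neg (fun h' => h (ι.injective h').symm), map_zero]

/-- the group of the matrices with `g* g = 1` -/
def UG (σ : F ≃+* F) (ι : Equiv.Perm I) : Subgroup (GL I F) where
  carrier := {g | adj σ ι (g : Matrix I I F) * (g : Matrix I I F) = 1}
  mul_mem' := by
    intro a b ha hb
    show adj σ ι ((a * b : GL I F) : Matrix I I F) * ((a * b : GL I F) : Matrix I I F) = 1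
    rw [Units.val_mul, adj_mul, Matrix.mul_assoc, ← Matrix.mul_assoc (adj σ ι (a : Matrix I I F))]
    rw [show adj σ ι (a : Matrix I I F) * (a : Matrix I I F) = 1 from ha, Matrix.one_mul]
    exact hb
  one_mem' := by
    show adj σ ι ((1 : GL I F) : Matrix I I F) * ((1 : GL I F) : Matrix I I F) = 1
    rw [Units.val_one, adj_one, Matrix.one_mul]
  inv_mem' := by
    intro g hg
    have h1 : adj σ ι (g : Matrix I I F) * (g : Matrix I I F) = 1 := hg
    have h2 : (g : Matrix I I F) * ((g⁻¹ : GL I F) : Matrix I I F) = 1 := by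
      rw [← Units.val_mul, mul_inv_cancel, Units.val_one]
    have h3 : adj σ ι (g : Matrix I I F) = ((g⁻¹ : GL I F) : Matrix I I F) := by
      rw [← Matrix.mul_one (adj σ ι (g : Matrix I I F)), ← h2, ← Matrix.mul_assoc, h1, Matrix.one_mul]
    have h4 := congrArg (adj σ ι) h2
    rw [adj_mul, adj_one, h3] at h4
    exact h4

/-- the matrices in `UG` which are block diagonal for the level sets of `y` -/
def UL (σ : F ≃+* F) (ι : Equiv.Perm I) (y : I → ℝ) : Subgroup (GL I F) where
  carrier := {g | g ∈ UG σ ι ∧ (∀ i j, y i ≠ y j → (g : Matrix I I F) i j = 0) ∧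
    ∀ i j, y i ≠ y j → ((g⁻¹ : GL I F) : Matrix I I F) i j = 0}
  mul_mem' := by
    have key : ∀ A B : Matrix I I F, (∀ i j, y i ≠ y j → A i j = 0) → (∀ i j, y i ≠ y j → B i j = 0) →
        ∀ i j, y i ≠ y j → (A * B) i j = 0 := by
      intro A B hA hB i j hij
      rw [Matrix.mul_apply]
      refine Finset.sum_eq_zero fun k _ => ?_
      by_cases h : y i = y k
      · rw [hB k j (fun h' => hij (h.trans h')), mul_zero]
      · rw [hA i k h, zero_mul]
    rintro a b ⟨ha, ha', ha''⟩ ⟨hb, hb', hb''⟩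
    refine ⟨Subgroup.mul_mem _ ha hb, ?_, ?_⟩
    · rw [Units.val_mul]
      exact key _ _ ha' hb'
    · rw [_root_.mul_inv_rev, Units.val_mul]
      exact key _ _ hb'' ha''
  one_mem' := by
    refine ⟨Subgroup.one_mem _, ?_, ?_⟩
    · intro i j h
      rw [Units.val_one, Matrix.one_apply, if_neg (fun h' => h (congrArg y h'))]
    · intro i j h
      rw [inv_one, Units.val_one, Matrix.one_apply, if_neg (fun h' => h (congrArg y h'))]
  inv_mem' := by
    rintro g ⟨h1, h2, h3⟩
    refine ⟨Subgroup.inv_mem _ h1, h3, ?_⟩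
    rw [inv_inv]
    exact h2

end Groups

/-- the space of section 15 -/
def En (n : ℕ) : Submodule ℝ (EuclideanSpace ℝ (Fin n)) where
  carrier := {w | ∀ i, w (Fin.rev i) = - w i}
  add_mem' := by
    intro a b ha hb i
    show a (Fin.rev i) + b (Fin.rev i) = -(a i + b i)
    rw [ha i, hb i, neg_add]
  zero_mem' := fun i => (neg_zero).symm
  smul_mem' := by
    intro r a ha i
    show r * a (Fin.rev i) = -(r * a i)
    rw [ha i, mul_neg]

/-- target of section 15: module I90 -/
def ExistsSys : Prop := ∀ (F : Type) [Field F] [Finite F] [CharP F 2] (σ : F ≃+* F) (n : ℕ),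
  (∀ x, σ (σ x) = x) → ((∀ x, σ x = x) → Even n ∧ 2 < Nat.card F) →
    ∃ S : LieSys (GL (Fin n) F) (En n), S.H = UG σ Fin.revPerm ∧
      ∀ y : En n, S.L y = UL σ Fin.revPerm (fun i => (y : EuclideanSpace ℝ (Fin n)) i)

/-- target of section 16: module P90 -/
def OpUL : Prop := ∀ (F : Type) [Field F] [Finite F] [CharP F 2] (σ : F ≃+* F) (n : ℕ),
  (∀ x, σ (σ x) = x) → ((∀ x, σ x = x) → Even n) →
    ∀ y : Fin n → ℝ, (∀ i, y (Fin.rev i) = - y i) → ParkerGL.OP (UL σ Fin.revPerm y)

end

end LieP
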