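import Pool.Agent.LieP.P16
import Pool.Agent.LieP.Defs3

/-!
# MP_6c3636_al, LieP, module P90: the target of section 16 (helper96)

`op_levi` (P16) with `ι = Fin.revPerm`, `mst s ι A = adj s ι A` definitionally. `Fin.rev` has no fixed point if `n` is even. The support condition on the inverse follows from
`g⁻¹ = adj s ι g` and `y (rev i) = - y i`.
-/

namespace LieP

noncomputable section

open Classical Matrix

namespace P90_aux

theorem rev_ne {n : ℕ} (hn : Even n) (i : Fin n) : Fin.rev i ≠ i := by
  intro h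
  have h1 := congrArg Fin.val h
  rw [Fin.val_rev] at h1
  obtain ⟨m, hm⟩ := hn
  have h2 := i.isLt
  omega

end P90_aux

open P90_aux

theorem op_UL : OpUL := by
  intro F _ _ _ σ n hσ hn y hy
  refine PS.op_levi (s := σ) (ι := (Fin.revPerm : Equiv.Perm (Fin n))) (y := y) hσ ?_ ?_ ?_ ?_
  · intro i
    exact Fin.rev_rev i
  · intro h i
    exact rev_ne (hn h) i
  · intro i
    exact hy i
  · intro g
    constructor
    · rintro ⟨h1, h2, -⟩
      exact ⟨h1, h2⟩
    · rintro ⟨h1, h2⟩
      refine ⟨h1, h2, ?_⟩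
      intro i j hij
      -- the inverse is the adjoint
      have h3 : adj σ Fin.revPerm (g : Matrix (Fin n) (Fin n) F) * (g : Matrix (Fin n) (Fin n) F) = 1 := h1
      have h4 : ((g⁻¹ : GL (Fin n) F) : Matrix (Fin n) (Fin n) F) = adj σ Fin.revPerm (g : Matrix (Fin n) (Fin n) F) := by
        have h5 : (g : Matrix (Fin n) (Fin n) F) * ((g⁻¹ : GL (Fin n) F) : Matrix (Fin n) (Fin n) F) = 1 := by
          rw [← Units.val_mul, mul_inv_cancel, Units.val_one]
        rw [← Matrix.one_mul ((g⁻¹ : GL (Fin n) F) : Matrix (Fin n) (Fin n) F), ← h3, Matrix.mul_assoc, h5,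
          Matrix.mul_one]
      rw [h4]
      show σ ((g : Matrix (Fin n) (Fin n) F) (Fin.rev j) (Fin.rev i)) = 0
      rw [h2 (Fin.rev j) (Fin.rev i) ?_, map_zero]
      rw [hy, hy]
      intro h6
      exact hij (neg_injective h6).symm

end

end LieP
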