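import Pool.Agent.LieP.Defs3
import Pool.Agent.ParkerGL.F05
import Pool.Agent.Parker.P46

/-!
# MP_6c3636_al, LieP, module Z03: the absolute value at the prime two (helper7)

`Parker.ctx2` is the context used in `Parker.parker_of_AB`: an extension of the `2`-adic absolute value to an algebraically closed field. Show `ctx2.av 2 < 1` from its definition (Parker P45/P46 or the file where `ctx2` is defined).
-/

namespace LieP

noncomputable section

open Classical


theorem ctx2_two : Parker.ctx2.av 2 < 1 := by
  rw [Parker.ctx2_av]
  have h1 : (2 : PadicAlgCl 2) = ((2 : ℚ_[2]) : PadicAlgCl 2) := by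
    norm_cast
  rw [h1, PadicAlgCl.norm_extends]
  have h := Padic.norm_p_lt_one (p := 2)
  simpa using h

end

end LieP
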