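import Pool.Agent.LieP.Z02
import Pool.Agent.LieP.Z03
import Pool.Agent.LieP.I90
import Pool.Agent.LieP.P90
import Pool.Agent.ParkerGL.F04

/-!
# MP_6c3636_al, LieP, module Z04: the unitary and symplectic groups (section 17) (helper7)

Section 17. `S` of `exists_sys` (I90): `S.H = UG σ revPerm`, `S.L y = UL σ revPerm y`; `op_UL` (P90) for `y ∈ En n`. `S.H = S.L 0`. `lie_propA`, `lie_propB` (Z02) with `E = En n` (finite dimensional), `ctx2_two`. For `H` between the elements of determinant one and `UG`: `N = H.subgroupOf (UG ..)` is normal (it contains the commutator subgroup: determinants), `UG / N` is abelian and of odd order (it is a quotient of a subgroup of `Fˣ`, `|Fˣ|` is odd): `ParkerGL.propA_normal`,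
`op_normal`, `op_propB`. Transport along `N ≃* H` (`ParkerGL.ab_congr` in F04/F05: property `AB` is invariant under isomorphisms). `ParkerGL.AB` is (A) and (B).
-/

namespace LieP

noncomputable section

open Classical


theorem ug_ab {F : Type} [Field F] [Finite F] [CharP F 2] (σ : F ≃+* F) (n : ℕ)
    (hσ : ∀ x, σ (σ x) = x) (hn : (∀ x, σ x = x) → Even n ∧ 2 < Nat.card F)
    (H : Subgroup (Matrix.GeneralLinearGroup (Fin n) F)) (hH : H ≤ UG σ Fin.revPerm)
    (hS : ∀ g ∈ UG σ Fin.revPerm, (g : Matrix (Fin n) (Fin n) F).det = 1 → g ∈ H) :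
    ParkerGL.AB Parker.ctx2 H := by
  obtain ⟨S, hSH, hSL⟩ := exists_sys F σ n hσ hn
  have hOP : ∀ y, ParkerGL.OP (S.L y) := by
    intro y
    rw [hSL y]
    exact op_UL F σ n hσ (fun h => (hn h).1) _ (fun i => y.2 i)
  have hA0 : Parker.PropA Parker.ctx2 1 S.H := lie_propA S hOP Parker.ctx2 ctx2_two
  have hO0 : ParkerGL.OP S.H := by
    rw [← S.s3]
    exact hOP 0
  rw [hSH] at hA0 hO0
  have hker : ∀ g : UG σ (Fin.revPerm : Equiv.Perm (Fin n)),
      g ∈ ((Matrix.GeneralLinearGroup.det (n := Fin n) (R := F)).comp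
        (UG σ (Fin.revPerm : Equiv.Perm (Fin n))).subtype).ker → g ∈ H.subgroupOf (UG σ Fin.revPerm) := by
    intro g hg
    rw [Subgroup.mem_subgroupOf]
    refine hS g.1 g.2 ?_
    rw [MonoidHom.mem_ker] at hg
    have h1 := congrArg Units.val hg
    rw [Units.val_one] at h1
    exact h1
  have hab : ∀ x y : UG σ (Fin.revPerm : Equiv.Perm (Fin n)),
      x * y * x⁻¹ * y⁻¹ ∈ H.subgroupOf (UG σ Fin.revPerm) := by
    intro x y
    apply hker
    rw [MonoidHom.mem_ker, map_mul, map_mul, map_mul, map_inv, map_inv,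
      mul_comm (((Matrix.GeneralLinearGroup.det (n := Fin n) (R := F)).comp
        (UG σ (Fin.revPerm : Equiv.Perm (Fin n))).subtype) x), mul_inv_cancel_right, mul_inv_cancel]
  have hnor : (H.subgroupOf (UG σ (Fin.revPerm : Equiv.Perm (Fin n)))).Normal := by
    constructor
    intro x hx g
    have h1 : g * x * g⁻¹ = (g * x * g⁻¹ * x⁻¹) * x := by rw [inv_mul_cancel_right]
    rw [h1]
    exact (H.subgroupOf (UG σ (Fin.revPerm : Equiv.Perm (Fin n)))).mul_mem (hab g x) hx
  have hodd : Odd (H.subgroupOf (UG σ (Fin.revPerm : Equiv.Perm (Fin n)))).index := by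
    have h1 : (H.subgroupOf (UG σ (Fin.revPerm : Equiv.Perm (Fin n)))).index ∣
        ((Matrix.GeneralLinearGroup.det (n := Fin n) (R := F)).comp
        (UG σ (Fin.revPerm : Equiv.Perm (Fin n))).subtype).ker.index := Subgroup.index_dvd_of_le hker
    rw [Subgroup.index_ker] at h1
    have h2 := h1.trans (Subgroup.card_subgroup_dvd_card _)
    exact Odd.of_dvd_nat (ParkerGL.F04_aux.odd_units' (F := F)) h2
  have hA1 := ParkerGL.propA_normal Parker.ctx2 hA0 _ hodd hab
  have hO1 := ParkerGL.op_normal hO0 _ hodd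
  exact ParkerGL.ab_congr (Subgroup.subgroupOfEquivOfLe hH) ⟨hA1, ParkerGL.op_propB hO1 Parker.ctx2⟩

end

end LieP
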