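import Pool.Agent.LieP.A01

/-!
# MP_6c3636_al, LieP, module A03: operators on representations of subgroups (helper7)

`op ρ a = ∑_{h ∈ H} a(h) ρ(h)`. `op_mul`: by linearity (`sb_induction`) it is enough to take `a = dl g`, `b = dl h`.
`op_act`: the operator of the Parker library. `op_rs`: restriction to a smaller subgroup.
-/

namespace LieP

noncomputable section

open Classical

variable {k : Type} [Field k] {G : Type} [Group G]

variable {V : Type} [AddCommGroup V] [Module k V] {H : Subgroup G} (ρ : Representation k H V)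

theorem A03_aux.op_eq (a : Al k G) :
    op ρ a = a.coeff.sum fun g c => if h : g ∈ H then c • ρ ⟨g, h⟩ else 0 := rfl

theorem op_dl {g : G} (hg : g ∈ H) : op ρ (dl g) = ρ ⟨g, hg⟩ := by
  rw [A03_aux.op_eq, dl, MonoidAlgebra.coeff_single, Finsupp.sum_single_index]
  · rw [dif_pos hg, one_smul]
  · rw [dif_pos hg, zero_smul]

theorem op_one : op ρ 1 = 1 := by
  rw [← dl_one, op_dl ρ H.one_mem]
  exact ρ.map_one

theorem op_mul {a b : Al k G} (ha : a ∈ sb k H) (hb : b ∈ sb k H) : op ρ (a * b) = op ρ a * op ρ b := by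
  refine sb_induction (p := fun a => op ρ (a * b) = op ρ a * op ρ b) ?_ ?_ ?_ ha
  · rw [zero_mul, map_zero, zero_mul]
  · intro x y hx hy
    rw [add_mul, map_add, map_add, hx, hy, add_mul]
  · intro r g hg
    refine sb_induction (p := fun b => op ρ (r • dl g * b) = op ρ (r • dl g) * op ρ b) ?_ ?_ ?_ hb
    · rw [mul_zero, map_zero, mul_zero]
    · intro x y hx hy
      rw [mul_add, map_add, map_add, hx, hy, mul_add]
    · intro r' h hh
      rw [smul_mul_smul_comm, ← dl_mul, map_smul, map_smul, map_smul, op_dl ρ hg, op_dl ρ hh,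
        op_dl ρ (H.mul_mem hg hh), smul_mul_smul_comm, ← map_mul]
      rfl

theorem op_trace [Finite G] [FiniteDimensional k V] {a : Al k G} (ha : a ∈ sb k H) :
    LinearMap.trace k V (op ρ a) = tr (xt H ρ.character) a := by
  refine sb_induction (p := fun a => LinearMap.trace k V (op ρ a) = tr (xt H ρ.character) a)
    ?_ ?_ ?_ ha
  · rw [map_zero, map_zero, map_zero]
  · intro x y hx hy
    rw [map_add, map_add, map_add, hx, hy]
  · intro r g hg
    rw [map_smul, map_smul, map_smul, op_dl ρ hg, tr_dl, xt, dif_pos hg]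
    rfl

theorem op_act [Finite G] (a : Al k G) : op ρ a = Parker.act ρ fun h : H => a.coeff h := by
  let _ := Fintype.ofFinite G
  let _ := Fintype.ofFinite H
  rw [Parker.act, A03_aux.op_eq, Finsupp.sum_fintype]
  · rw [← Finset.sum_subset (Finset.subset_univ (Finset.univ.filter fun g => g ∈ H))]
    · rw [Finset.sum_subtype (p := fun g => g ∈ H) (F := Fintype.ofFinite H) _ (by intro x; simp)]
      refine Finset.sum_congr rfl fun h _ => ?_
      rw [dif_pos h.2]
    · intro g _ hg
      rw [dif_neg]
      simpa using hg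
  · intro g
    split_ifs
    · exact zero_smul _ _
    · rfl

theorem act_op [Finite G] (s : H → k) :
    Parker.act ρ s = op ρ (mk fun g => if h : g ∈ H then s ⟨g, h⟩ else 0) := by
  rw [op_act]
  congr 1
  funext h
  rw [coeff_mk, dif_pos h.2]

theorem op_rs {H' : Subgroup G} (h : H' ≤ H) {a : Al k G} (ha : a ∈ sb k H') :
    op (ρ.comp (Subgroup.inclusion h) : Representation k H' V) a = op ρ a := by
  refine sb_induction
    (p := fun a => op (ρ.comp (Subgroup.inclusion h) : Representation k H' V) a = op ρ a) ?_ ?_ ?_ ha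
  · rw [map_zero, map_zero]
  · intro x y hx hy
    rw [map_add, map_add, hx, hy]
  · intro r g hg
    rw [map_smul, map_smul, op_dl ρ (h hg), op_dl _ hg]
    rfl

theorem op_invform [Finite G] {B : LinearMap.BilinForm k V} (hB : ∀ g x y, B (ρ g x) (ρ g y) = B x y)
    {a : Al k G} (ha : a ∈ sb k H) (x y : V) : B (op ρ a x) y = B x (op ρ (st a) y) := by
  refine sb_induction (p := fun a => B (op ρ a x) y = B x (op ρ (st a) y)) ?_ ?_ ?_ ha
  · have h0 : st (0 : Al k G) = 0 := by
      have := st_smul (0 : k) (1 : Al k G)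
      rwa [zero_smul, zero_smul] at this
    rw [h0, map_zero, LinearMap.zero_apply, LinearMap.zero_apply, map_zero, LinearMap.zero_apply, map_zero]
  · intro a b ha hb
    rw [st_add, map_add, map_add, LinearMap.add_apply, LinearMap.add_apply, map_add, map_add,
      LinearMap.add_apply, ha, hb]
  · intro r g hg
    rw [st_smul, st_dl, map_smul, map_smul, op_dl ρ hg, op_dl ρ (H.inv_mem hg), LinearMap.smul_apply,
      LinearMap.smul_apply, map_smul, map_smul, LinearMap.smul_apply]
    congr 1
    have h1 := hB ⟨g, hg⟩ x (ρ ⟨g⁻¹, H.inv_mem hg⟩ y)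
    have h2 : ρ ⟨g, hg⟩ (ρ ⟨g⁻¹, H.inv_mem hg⟩ y) = y := by
      rw [← Module.End.mul_apply, ← map_mul]
      have : (⟨g, hg⟩ * ⟨g⁻¹, H.inv_mem hg⟩ : H) = 1 := by
        ext
        simp
      rw [this, map_one]
      rfl
    rw [h2] at h1
    exact h1

end

end LieP
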