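import Pool.Agent.LieP.A03
import Pool.Agent.Parker.P15
import Pool.Agent.Parker.N03

/-!
# MP_6c3636_al, LieP, module A04: the representations of the irreducible characters (helper7)

`ir_rep`: by the definition of `Parker.irr` (`Parker.mem_irr`-type lemma in P09/P15: a member is the character of an irreducible
representation on `Fin n → Ω`); the surjectivity is `Parker.act_surj` (N03) and `act_op`.
`ir_class`, `ir_supp`, `ir_one`: values. `rk_range`: the trace of an idempotent is the dimension of its range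
(`LinearMap.IsIdempotentElem`/`LinearMap.IsProj.trace`).
-/

namespace LieP

noncomputable section

open Classical

variable {Ω : Type} [Field Ω] [IsAlgClosed Ω] [CharZero Ω] {G : Type} [Group G] [Finite G]

variable {H : Subgroup G}

namespace A04_aux

omit [IsAlgClosed Ω] [CharZero Ω] [Finite G] in
theorem xt_one {V : Type} [AddCommGroup V] [Module Ω V] [FiniteDimensional Ω V]
    (ρ : Representation Ω H V) : xt H ρ.character 1 = (Module.finrank Ω V : Ω) := by
  have h1 : xt H ρ.character 1 = ρ.character ⟨1, H.one_mem⟩ := dif_pos H.one_mem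
  rw [h1]
  have h2 : (⟨1, H.one_mem⟩ : H) = 1 := rfl
  rw [h2, Representation.char_one]

omit [IsAlgClosed Ω] [Finite G] in
theorem dg_xt {V : Type} [AddCommGroup V] [Module Ω V] [FiniteDimensional Ω V]
    (ρ : Representation Ω H V) : Parker.dg (xt H ρ.character) = Module.finrank Ω V := by
  have h : ∃ k : ℕ, (k : Ω) = xt H ρ.character 1 := ⟨_, (xt_one ρ).symm⟩
  unfold Parker.dg
  rw [dif_pos h]
  exact Nat.cast_injective (h.choose_spec.trans (xt_one ρ))

omit [IsAlgClosed Ω] [CharZero Ω] in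
theorem trace_idem {V : Type} [AddCommGroup V] [Module Ω V] [FiniteDimensional Ω V]
    {T : Module.End Ω V} (hT : T * T = T) :
    LinearMap.trace Ω V T = (Module.finrank Ω (LinearMap.range T) : Ω) := by
  have h : LinearMap.IsProj (LinearMap.range T) T := by
    refine ⟨fun x => ⟨x, rfl⟩, ?_⟩
    rintro _ ⟨y, rfl⟩
    have h1 := congrArg (fun f : Module.End Ω V => f y) hT
    simpa using h1
  exact h.trace

end A04_aux

open A04_aux

theorem ir_rep {φ : G → Ω} (h : φ ∈ ir Ω H) : ∃ (n : ℕ) (ρ : Representation Ω H (Fin n → Ω)),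
    ρ.IsIrreducible ∧ φ = xt H ρ.character ∧ (∀ T : Module.End Ω (Fin n → Ω), ∃ a ∈ sb Ω H, op ρ a = T) ∧
      n = Parker.dg φ ∧ 0 < n := by
  obtain ⟨ψ, hψ, rfl⟩ := Finset.mem_image.1 h
  obtain ⟨n, ρ, hρ, rfl⟩ := Parker.mem_irr.1 hψ
  have hn : n = Parker.dg (xt H ρ.character) := by
    rw [dg_xt, Module.finrank_fin_fun]
  refine ⟨n, ρ, hρ, rfl, fun T => ?_, hn, ?_⟩
  · obtain ⟨y, hy⟩ := Parker.act_surj hρ T
    refine ⟨_, ?_, (act_op ρ y).symm.trans hy⟩
    intro g hg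
    rw [coeff_mk, dif_neg hg]
  · obtain ⟨⟨v, hv⟩, -⟩ := (Parker.P08_aux.irr_iff ρ).1 hρ
    rcases Nat.eq_zero_or_pos n with h0 | h0
    · subst h0
      exact absurd (Subsingleton.elim v 0) hv
    · exact h0

theorem rep_ir {V : Type} [AddCommGroup V] [Module Ω V] [FiniteDimensional Ω V]
    {ρ : Representation Ω H V} (h : ρ.IsIrreducible) : xt H ρ.character ∈ ir Ω H :=
  Finset.mem_image_of_mem _ (Parker.mem_irr.2 (Parker.mem_irrSet h))

theorem ir_iff {φ : G → Ω} : φ ∈ ir Ω H ↔ ∃ ψ ∈ Parker.irr Ω H, xt H ψ = φ :=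
  Finset.mem_image

theorem xt_injective : Function.Injective (xt (Ω := Ω) H) := by
  intro φ ψ h
  funext g
  have h1 := congrFun h g
  have h2 : xt H φ (g : G) = φ ⟨g, g.2⟩ := dif_pos g.2
  have h3 : xt H ψ (g : G) = ψ ⟨g, g.2⟩ := dif_pos g.2
  rw [h2, h3] at h1
  exact h1

theorem xt_apply (ψ : H → Ω) {g : G} (hg : g ∈ H) : xt H ψ g = ψ ⟨g, hg⟩ := dif_pos hg

theorem ir_supp {φ : G → Ω} (h : φ ∈ ir Ω H) {g : G} (hg : g ∉ H) : φ g = 0 := by
  obtain ⟨ψ, -, rfl⟩ := ir_iff.1 h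
  exact dif_neg hg

theorem ir_class {φ : G → Ω} (h : φ ∈ ir Ω H) {g x : G} (hg : g ∈ H) : φ (g * x * g⁻¹) = φ x := by
  by_cases hx : x ∈ H
  · obtain ⟨ψ, hψ, rfl⟩ := ir_iff.1 h
    have h1 : g * x * g⁻¹ ∈ H := H.mul_mem (H.mul_mem hg hx) (H.inv_mem hg)
    rw [xt_apply ψ h1, xt_apply ψ hx]
    exact Parker.P15_aux.irr_class hψ ⟨g, hg⟩ ⟨x, hx⟩
  · have h1 : g * x * g⁻¹ ∉ H := by
      intro h1
      apply hx
      have h2 := H.mul_mem (H.mul_mem (H.inv_mem hg) h1) hg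
      have h3 : g⁻¹ * (g * x * g⁻¹) * g = x := by group
      rwa [h3] at h2
    rw [ir_supp h hx, ir_supp h h1]

theorem ir_one {φ : G → Ω} (h : φ ∈ ir Ω H) : φ 1 = (Parker.dg φ : Ω) ∧ 0 < Parker.dg φ := by
  obtain ⟨n, ρ, hρ, h1, -, h2, h3⟩ := ir_rep h
  refine ⟨?_, h2 ▸ h3⟩
  rw [← h2, h1, xt_one, Module.finrank_fin_fun]

theorem ir_dual {φ : G → Ω} (h : φ ∈ ir Ω H) : (fun g => φ g⁻¹) ∈ ir Ω H := by
  obtain ⟨ψ, hψ, rfl⟩ := ir_iff.1 h
  refine ir_iff.2 ⟨Parker.du ψ, Parker.du_mem_irr hψ, ?_⟩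
  funext g
  by_cases hg : g ∈ H
  · rw [xt_apply _ hg, xt_apply _ (H.inv_mem hg)]
    rfl
  · have hg' : g⁻¹ ∉ H := fun h1 => hg (by simpa using H.inv_mem h1)
    rw [show xt H (Parker.du ψ) g = 0 from dif_neg hg, show xt H ψ g⁻¹ = 0 from dif_neg hg']

theorem rk_range {V : Type} [AddCommGroup V] [Module Ω V] [FiniteDimensional Ω V]
    (ρ : Representation Ω H V) {a : Al Ω G} (ha : a ∈ sb Ω H) (haa : a * a = a) :
    Module.finrank Ω (LinearMap.range (op ρ a)) = rk (xt H ρ.character) a := by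
  have h1 : op ρ a * op ρ a = op ρ a := by rw [← op_mul ρ ha ha, haa]
  have h2 : (Module.finrank Ω (LinearMap.range (op ρ a)) : Ω) = tr (xt H ρ.character) a := by
    rw [← op_trace ρ ha, trace_idem h1]
  have h : ∃ n : ℕ, (n : Ω) = tr (xt H ρ.character) a := ⟨_, h2⟩
  unfold rk
  rw [dif_pos h]
  exact Nat.cast_injective (h2.trans h.choose_spec.symm)

end

end LieP
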