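import Pool.Agent.LieP.A04
import Pool.Agent.Parker.P08

/-!
# MP_6c3636_al, LieP, module A05: ranks of idempotents (helper7)

With the representation `ρ` of `ir_rep`: `rk φ a` is the dimension of the range of `op ρ a` (`rk_range`), the trace is `tr φ a`.
`rk_equiv`: traces, `tr_mul_comm`. `rk_zero_iff`: the range is zero iff the operator is zero iff `op ρ (x a) = 0`.
-/

namespace LieP

noncomputable section

open Classical

variable {Ω : Type} [Field Ω] [IsAlgClosed Ω] [CharZero Ω] {G : Type} [Group G] [Finite G]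

variable {H : Subgroup G} {φ : G → Ω}

namespace A05_aux

omit [IsAlgClosed Ω] in
theorem op_idem {V : Type} [AddCommGroup V] [Module Ω V] (ρ : Representation Ω H V) {a : Al Ω G}
    (ha : a ∈ sb Ω H) (haa : a * a = a) : op ρ a * op ρ a = op ρ a := by
  rw [← op_mul ρ ha ha, haa]

omit [IsAlgClosed Ω] [CharZero Ω] [Finite G] in
theorem fix_of_range {V : Type} [AddCommGroup V] [Module Ω V] {A : Module.End Ω V}
    (hA : A * A = A) {v : V} (hv : v ∈ LinearMap.range A) : A v = v := by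
  obtain ⟨w, rfl⟩ := hv
  exact LinearMap.congr_fun hA w

end A05_aux

theorem tr_mul_comm (h : φ ∈ ir Ω H) {a b : Al Ω G} (ha : a ∈ sb Ω H) (hb : b ∈ sb Ω H) :
    tr φ (a * b) = tr φ (b * a) := by
  obtain ⟨n, ρ, hirr, rfl, hs, hn, h0⟩ := ir_rep h
  rw [← op_trace ρ ((sb Ω H).mul_mem ha hb), ← op_trace ρ ((sb Ω H).mul_mem hb ha),
    op_mul ρ ha hb, op_mul ρ hb ha]
  exact LinearMap.trace_mul_comm Ω _ _

theorem rk_of_tr {φ : G → Ω} {a : Al Ω G} {n : ℕ} (h : (n : Ω) = tr φ a) : rk φ a = n := by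
  have h' : ∃ n : ℕ, (n : Ω) = tr φ a := ⟨n, h⟩
  unfold rk
  rw [dif_pos h']
  exact_mod_cast h'.choose_spec.trans h.symm

theorem rk_tr (h : φ ∈ ir Ω H) {a : Al Ω G} (ha : a ∈ sb Ω H) (haa : a * a = a) :
    (rk φ a : Ω) = tr φ a := by
  obtain ⟨n, ρ, hirr, rfl, hs, hn, h0⟩ := ir_rep h
  have h1 : ((Module.finrank Ω (LinearMap.range (op ρ a)) : ℕ) : Ω) = tr (xt H ρ.character) a := by
    rw [← op_trace ρ ha]
    have hp : LinearMap.IsProj (LinearMap.range (op ρ a)) (op ρ a) :=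
      ⟨fun x => LinearMap.mem_range_self _ x, fun x hx =>
        A05_aux.fix_of_range (A05_aux.op_idem ρ ha haa) hx⟩
    exact hp.trace.symm
  rw [rk_of_tr h1, h1]

theorem rk_zero (φ : G → Ω) : rk φ (0 : Al Ω G) = 0 := by
  apply rk_of_tr
  rw [map_zero, Nat.cast_zero]

theorem rk_one (h : φ ∈ ir Ω H) : rk φ (1 : Al Ω G) = Parker.dg φ := by
  apply rk_of_tr
  rw [← dl_one, tr_dl]
  exact (ir_one h).1.symm

theorem rk_add (h : φ ∈ ir Ω H) {a b : Al Ω G} (ha : a ∈ sb Ω H) (haa : a * a = a) (hb : b ∈ sb Ω H)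
    (hbb : b * b = b) (hab : a * b = 0) (hba : b * a = 0) : rk φ (a + b) = rk φ a + rk φ b := by
  apply rk_of_tr
  rw [Nat.cast_add, map_add, rk_tr h ha haa, rk_tr h hb hbb]

theorem rk_sum (h : φ ∈ ir Ω H) {ι : Type} (s : Finset ι) (a : ι → Al Ω G) (ha : ∀ i ∈ s, a i ∈ sb Ω H)
    (haa : ∀ i ∈ s, a i * a i = a i) (hab : ∀ i ∈ s, ∀ j ∈ s, i ≠ j → a i * a j = 0) :
    rk φ (∑ i ∈ s, a i) = ∑ i ∈ s, rk φ (a i) := by
  apply rk_of_tr
  rw [Nat.cast_sum, map_sum]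
  exact Finset.sum_congr rfl fun i hi => rk_tr h (ha i hi) (haa i hi)

theorem rk_equiv (h : φ ∈ ir Ω H) {x y : Al Ω G} (hx : x ∈ sb Ω H) (hy : y ∈ sb Ω H)
    (h1 : x * y * (x * y) = x * y) (h2 : y * x * (y * x) = y * x) : rk φ (x * y) = rk φ (y * x) := by
  apply rk_of_tr
  rw [rk_tr h ((sb Ω H).mul_mem hy hx) h2, tr_mul_comm h hy hx]

theorem rk_le (h : φ ∈ ir Ω H) {a b : Al Ω G} (ha : a ∈ sb Ω H) (haa : a * a = a) (hb : b ∈ sb Ω H)
    (hbb : b * b = b) (hab : a * b = a) (hba : b * a = a) : rk φ a ≤ rk φ b := by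
  obtain ⟨n, ρ, hirr, rfl, hs, hn, h0⟩ := ir_rep h
  rw [← rk_range ρ ha haa, ← rk_range ρ hb hbb]
  apply Submodule.finrank_mono
  rintro _ ⟨w, rfl⟩
  refine ⟨op ρ a w, ?_⟩
  rw [← Module.End.mul_apply, ← op_mul ρ hb ha, hba]

theorem rk_le_dg (h : φ ∈ ir Ω H) {a : Al Ω G} (ha : a ∈ sb Ω H) (haa : a * a = a) :
    rk φ a ≤ Parker.dg φ := by
  rw [← rk_one h]
  exact rk_le h ha haa (sb Ω H).one_mem (one_mul 1) (mul_one a) (one_mul a)

theorem tr_zero_of_rk (h : φ ∈ ir Ω H) {a : Al Ω G} (ha : a ∈ sb Ω H) (haa : a * a = a)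
    (h0 : rk φ a = 0) {x : Al Ω G} (hx : x ∈ sb Ω H) : tr φ (x * a) = 0 := by
  obtain ⟨n, ρ, hirr, rfl, hs, hn, -⟩ := ir_rep h
  rw [← rk_range ρ ha haa] at h0
  have h1 : LinearMap.range (op ρ a) = ⊥ := Submodule.finrank_eq_zero.1 h0
  have h2 : op ρ a = 0 := LinearMap.range_eq_bot.1 h1
  rw [← op_trace ρ ((sb Ω H).mul_mem hx ha), op_mul ρ hx ha, h2, mul_zero, map_zero]

/-- the trace is multiplicative on the corner of an idempotent of rank one -/
theorem tr_corner (h : φ ∈ ir Ω H) {a : Al Ω G} (ha : a ∈ sb Ω H) (haa : a * a = a)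
    (h1 : rk φ a = 1) {x y : Al Ω G} (hx : x ∈ sb Ω H) (hy : y ∈ sb Ω H) :
    tr φ (a * x * a * y * a) = tr φ (a * x * a) * tr φ (a * y * a) := by
  have hax : a * x * a ∈ sb Ω H := (sb Ω H).mul_mem ((sb Ω H).mul_mem ha hx) ha
  have hay : a * y * a ∈ sb Ω H := (sb Ω H).mul_mem ((sb Ω H).mul_mem ha hy) ha
  have e1 : a * x * a * y * a = a * x * a * (a * y * a) := by
    calc a * x * a * y * a = a * x * (a * a) * y * a := by rw [haa]
      _ = a * x * a * (a * y * a) := by simp only [mul_assoc]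
  have htr : tr φ a = 1 := by
    rw [← rk_tr h ha haa, h1, Nat.cast_one]
  obtain ⟨n, ρ, hirr, rfl, hs, hn, h0⟩ := ir_rep h
  rw [← rk_range ρ ha haa] at h1
  have hA := A05_aux.op_idem ρ ha haa
  obtain ⟨v, hv, hsp⟩ := finrank_eq_one_iff'.1 h1
  have key : ∃ d : Ω, op ρ (a * x * a) = d • op ρ a := by
    obtain ⟨d, hd⟩ := hsp ⟨op ρ a (op ρ x v), LinearMap.mem_range_self _ _⟩
    refine ⟨d, ?_⟩
    apply LinearMap.ext
    intro w
    obtain ⟨c, hc⟩ := hsp ⟨op ρ a w, LinearMap.mem_range_self _ _⟩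
    have hc' : c • (v : Fin n → Ω) = op ρ a w := congrArg Subtype.val hc
    have hd' : d • (v : Fin n → Ω) = op ρ a (op ρ x v) := congrArg Subtype.val hd
    rw [op_mul ρ ((sb Ω H).mul_mem ha hx) ha, op_mul ρ ha hx, Module.End.mul_apply,
      Module.End.mul_apply, LinearMap.smul_apply, ← hc', map_smul, map_smul, ← hd', smul_comm]
  obtain ⟨d, hd⟩ := key
  have e2 : tr (xt H ρ.character) (a * x * a) = d := by
    rw [← op_trace ρ hax, hd, map_smul, op_trace ρ ha, htr, smul_eq_mul, mul_one]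
  rw [e1, e2, ← op_trace ρ ((sb Ω H).mul_mem hax hay), op_mul ρ hax hay, hd, ← op_trace ρ hay,
    smul_mul_assoc, map_smul, smul_eq_mul, ← op_mul ρ ha hay]
  congr 3
  simp only [← mul_assoc, haa]

theorem cjg_ir {H' : Subgroup G} {n : G} (hn : ∀ l, l ∈ H ↔ n * l * n⁻¹ ∈ H') (h : φ ∈ ir Ω H) :
    cjg n φ ∈ ir Ω H' := by
  obtain ⟨m, ρ, hirr, rfl, hs, hm, h0⟩ := ir_rep h
  have hmem : ∀ l : H', n⁻¹ * (l : G) * n ∈ H := by
    intro l
    rw [hn]
    have e : n * (n⁻¹ * (l : G) * n) * n⁻¹ = l := by group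
    rw [e]
    exact l.2
  let f : H' →* H :=
    { toFun := fun l => ⟨n⁻¹ * (l : G) * n, hmem l⟩
      map_one' := by
        apply Subtype.ext
        show n⁻¹ * ((1 : H') : G) * n = ((1 : H) : G)
        rw [Subgroup.coe_one, Subgroup.coe_one]
        group
      map_mul' := by
        intro l l'
        apply Subtype.ext
        show n⁻¹ * ((l * l' : H') : G) * n = n⁻¹ * (l : G) * n * (n⁻¹ * (l' : G) * n)
        rw [Subgroup.coe_mul]
        group }
  have hf : Function.Surjective f := by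
    intro l
    refine ⟨⟨n * (l : G) * n⁻¹, (hn _).1 l.2⟩, ?_⟩
    apply Subtype.ext
    show n⁻¹ * (n * (l : G) * n⁻¹) * n = l
    group
  let ρ' : Representation Ω H' (Fin m → Ω) := MonoidHom.comp ρ f
  have hρ' : ∀ l x, ρ' l x = ρ (f l) x := fun _ _ => rfl
  have hirr' : ρ'.IsIrreducible := by
    rw [Parker.P08_aux.irr_iff] at hirr ⊢
    refine ⟨hirr.1, fun U hU => hirr.2 U fun g x hx => ?_⟩
    obtain ⟨l, rfl⟩ := hf g
    rw [← hρ']
    exact hU l x hx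
  have e : cjg n (xt H ρ.character) = xt H' ρ'.character := by
    funext g
    show xt H ρ.character (n⁻¹ * g * n) = xt H' ρ'.character g
    by_cases hg : g ∈ H'
    · rw [xt_apply _ (hmem ⟨g, hg⟩), xt_apply _ hg]
      rfl
    · have hg' : n⁻¹ * g * n ∉ H := by
        rw [hn]
        have e : n * (n⁻¹ * g * n) * n⁻¹ = g := by group
        rw [e]
        exact hg
      unfold xt
      rw [dif_neg hg, dif_neg hg']
  rw [e]
  exact rep_ir hirr'

theorem cjg_dg (n : G) (φ : G → Ω) : Parker.dg (cjg n φ) = Parker.dg φ := by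
  have e : cjg n φ 1 = φ 1 := by
    show φ (n⁻¹ * 1 * n) = φ 1
    congr 1
    group
  unfold Parker.dg
  simp only [e]

theorem cjg_cjg (m n : G) (φ : G → Ω) : cjg m (cjg n φ) = cjg (m * n) φ := by
  funext g
  show φ (n⁻¹ * (m⁻¹ * g * m) * n) = φ ((m * n)⁻¹ * g * (m * n))
  congr 1
  group

theorem cjg_one (φ : G → Ω) : cjg 1 φ = φ := by
  funext g
  show φ (1⁻¹ * g * 1) = φ g
  congr 1
  group

theorem tr_cjg (n : G) (φ : G → Ω) (a : Al Ω G) : tr (cjg n φ) (dl n * a * dl n⁻¹) = tr φ a := by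
  letI := Fintype.ofFinite G
  rw [tr_fin, tr_fin, ← Equiv.sum_comp (MulAut.conj n).toEquiv]
  refine Finset.sum_congr rfl fun x _ => ?_
  have e1 : (MulAut.conj n).toEquiv x = n * x * n⁻¹ := rfl
  rw [e1, coeff_mul_dl, coeff_dl_mul]
  show a.coeff _ * φ (n⁻¹ * (n * x * n⁻¹) * n) = _
  have e2 : n⁻¹ * (n * x * n⁻¹ * n⁻¹⁻¹) = x := by group
  have e3 : n⁻¹ * (n * x * n⁻¹) * n = x := by group
  rw [e2, e3]

theorem rk_cjg (n : G) (φ : G → Ω) (a : Al Ω G) : rk (cjg n φ) (dl n * a * dl n⁻¹) = rk φ a := by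
  unfold rk
  simp only [tr_cjg]

theorem cjg_of_mem (h : φ ∈ ir Ω H) {n : G} (hn : n ∈ H) : cjg n φ = φ := by
  funext g
  show φ (n⁻¹ * g * n) = φ g
  have e := ir_class h (g := n⁻¹) (x := g) (H.inv_mem hn)
  rwa [inv_inv] at e

end

end LieP
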