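import Pool.Agent.LieP.A05
import Pool.Agent.Parker.P07

/-!
# MP_6c3636_al, LieP, module A06: sums over the irreducible characters (helper7)

`card_t`: the character of the regular representation is `∑ dg φ * φ` (`Parker` P15: `∑ φ 1 * φ g = |G|` or `0`), as functions on `H`.
`finrank_cr`: the algebra `sb Ω H` is the product of the matrix algebras; e.g. `a x b ↦ (op ρ_φ (a x b))_φ` is injective, with image
`∏ a End(V_φ) b`; dimension `∑ rk φ a * rk φ b`. Alternatively: the map `x ↦ a x b` is an idempotent operator on `sb Ω H`, its trace is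
`∑_g t(g⁻¹ a g b)` over `g ∈ H` ... `= ∑_φ tr φ a * tr φ b` (use the dual character). `prim_unique`: `finrank (cr H a a) = 1 = ∑ (rk φ a)^2`.
-/

namespace LieP

noncomputable section

open Classical

variable {Ω : Type} [Field Ω] [IsAlgClosed Ω] [CharZero Ω] {G : Type} [Group G] [Finite G]

variable {H : Subgroup G}

namespace A06_aux

/-- the regular representation on functions -/
def reg (Ω : Type) [Field Ω] (K : Type) [Group K] : Representation Ω K (K → Ω) where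
  toFun g := { toFun := fun f x => f (g⁻¹ * x), map_add' := fun _ _ => rfl, map_smul' := fun _ _ => rfl }
  map_one' := by ext f x; simp
  map_mul' g h := by
    ext f x
    simp [mul_assoc]

theorem sum_irr (K : Type) [Group K] [Finite K] (g : K) :
    ∑ ψ ∈ Parker.irr Ω K, ψ 1 * ψ g = if g = 1 then (Nat.card K : Ω) else 0 := by
  have _ := Fintype.ofFinite K
  have h1 := Parker.idem_sum (reg Ω K)
  have hc : (Nat.card K : Ω) ≠ 0 := by
    have : 0 < Nat.card K := Nat.card_pos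
    exact_mod_cast this.ne'
  have h2 := congrArg (fun T : Module.End Ω (K → Ω) => T (Pi.single 1 1) g⁻¹) h1
  have h3 : ∀ ψ : K → Ω, (Parker.act (reg Ω K) (Parker.es ψ)) (Pi.single 1 1) g⁻¹ =
      (Nat.card K : Ω)⁻¹ * (ψ 1 * ψ g) := by
    intro ψ
    rw [Parker.act_eq, LinearMap.sum_apply, Finset.sum_apply, Finset.sum_eq_single g⁻¹]
    · have : (reg Ω K g⁻¹) (Pi.single 1 1) g⁻¹ = 1 := by
        show (Pi.single (1:K) (1:Ω) : K → Ω) ((g⁻¹)⁻¹ * g⁻¹) = 1
        simp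
      rw [LinearMap.smul_apply, Pi.smul_apply, this, smul_eq_mul, mul_one]
      unfold Parker.es
      rw [inv_inv]
      ring
    · intro x _ hx
      have : (reg Ω K x) (Pi.single 1 1) g⁻¹ = 0 := by
        show (Pi.single (1:K) (1:Ω) : K → Ω) (x⁻¹ * g⁻¹) = 0
        apply Pi.single_eq_of_ne
        intro h
        apply hx
        have := congrArg (fun y => x * y) h
        simpa using this.symm
      rw [LinearMap.smul_apply, Pi.smul_apply, this, smul_zero]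
    · intro h
      exact absurd (Finset.mem_univ _) h
  have h4 : (∑ ψ ∈ Parker.irr Ω K, (Nat.card K : Ω)⁻¹ * (ψ 1 * ψ g)) = if g = 1 then 1 else 0 := by
    have h5 : (∑ ψ ∈ Parker.irr Ω K, Parker.act (reg Ω K) (Parker.es ψ)) (Pi.single 1 1) g⁻¹ =
        (1 : Module.End Ω (K → Ω)) (Pi.single 1 1) g⁻¹ := h2
    rw [LinearMap.sum_apply, Finset.sum_apply] at h5
    rw [Finset.sum_congr rfl fun ψ _ => h3 ψ] at h5
    rw [h5]
    show (Pi.single (1:K) (1:Ω) : K → Ω) g⁻¹ = _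
    by_cases hg : g = 1
    · subst hg; simp
    · rw [if_neg hg]
      apply Pi.single_eq_of_ne
      intro h
      exact hg (inv_eq_one.1 h)
  rw [← Finset.mul_sum] at h4
  have h6 : ∑ ψ ∈ Parker.irr Ω K, ψ 1 * ψ g = (Nat.card K : Ω) * (if g = 1 then 1 else 0) := by
    rw [← h4, ← mul_assoc, mul_inv_cancel₀ hc, one_mul]
  rw [h6]
  split_ifs <;> simp

theorem sum_ir (F : (G → Ω) → Ω) : ∑ φ ∈ ir Ω H, F φ = ∑ ψ ∈ Parker.irr Ω H, F (xt H ψ) := by
  unfold ir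
  rw [Finset.sum_image]
  intro a _ b _ h
  exact xt_injective h

/-- the coefficient functional -/
def cf (g : G) : Al Ω G →ₗ[Ω] Ω where
  toFun a := a.coeff g
  map_add' _ _ := rfl
  map_smul' r a := by
    rw [coeff_smul]
    rfl

theorem fin_al : Module.Finite Ω (Al Ω G) :=
  Module.Finite.equiv (MonoidAlgebra.coeffLinearEquiv (M := G) (S := Ω) Ω).symm

attribute [local instance] fin_al

/-- the operator -/
def TT (H : Subgroup G) [Fintype H] (a b : Al Ω G) : Module.End Ω (Al Ω G) :=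
  ∑ g : H, (cf (g : G)).smulRight (a * dl (g : G) * b)

theorem TT_apply [Fintype H] (a b x : Al Ω G) :
    TT H a b x = a * (∑ g : H, x.coeff g • dl (g : G)) * b := by
  unfold TT
  rw [LinearMap.sum_apply, Finset.mul_sum, Finset.sum_mul]
  refine Finset.sum_congr rfl fun g _ => ?_
  rw [LinearMap.smulRight_apply, mul_smul_comm, smul_mul_assoc]
  rfl

theorem sum_mem [Fintype H] (x : Al Ω G) : (∑ g : H, x.coeff g • dl (g : G)) ∈ sb Ω H := by
  refine Subalgebra.sum_mem _ fun g _ => ?_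
  exact Subalgebra.smul_mem _ (dl_mem.2 g.2) _

theorem cf_sum {ι : Type} (s : Finset ι) (f : ι → Al Ω G) (g : G) :
    (∑ i ∈ s, f i).coeff g = ∑ i ∈ s, (f i).coeff g := map_sum (cf (Ω := Ω) g) f s

theorem sum_self [Fintype H] {x : Al Ω G} (hx : x ∈ sb Ω H) :
    (∑ g : H, x.coeff g • dl (g : G)) = x := by
  apply al_ext
  intro g
  rw [cf_sum]
  by_cases hg : g ∈ H
  · rw [Finset.sum_eq_single (⟨g, hg⟩ : H)]
    · rw [coeff_smul, coeff_dl, if_pos rfl, mul_one]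
    · intro y _ hy
      rw [coeff_smul, coeff_dl, if_neg, mul_zero]
      intro h
      apply hy
      exact Subtype.ext h.symm
    · intro h
      exact absurd (Finset.mem_univ _) h
  · rw [hx g hg]
    refine Finset.sum_eq_zero fun y _ => ?_
    rw [coeff_smul, coeff_dl, if_neg, mul_zero]
    intro h
    exact hg (h ▸ y.2)

theorem mem_cr {a b y : Al Ω G} : y ∈ cr H a b ↔ ∃ x ∈ sb Ω H, y = a * x * b := by
  unfold cr
  constructor
  · rintro ⟨x, hx, rfl⟩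
    exact ⟨x, hx, by simp [mul_assoc]⟩
  · rintro ⟨x, hx, rfl⟩
    exact ⟨x, hx, by simp [mul_assoc]⟩

theorem proj [Fintype H] {a b : Al Ω G} (ha : a ∈ sb Ω H) (haa : a * a = a) (hb : b ∈ sb Ω H)
    (hbb : b * b = b) : LinearMap.IsProj (cr H a b) (TT H a b) := by
  constructor
  · intro x
    rw [TT_apply]
    exact mem_cr.2 ⟨_, sum_mem x, rfl⟩
  · intro y hy
    obtain ⟨x, hx, rfl⟩ := mem_cr.1 hy
    rw [TT_apply, sum_self ((sb Ω H).mul_mem ((sb Ω H).mul_mem ha hx) hb)]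
    calc a * (a * x * b) * b = a * a * x * (b * b) := by simp only [mul_assoc]
      _ = a * x * b := by rw [haa, hbb]

theorem trace_TT [Fintype H] (a b : Al Ω G) :
    LinearMap.trace Ω (Al Ω G) (TT H a b) =
      t (a * ∑ g : H, dl (g : G) * b * dl (g : G)⁻¹) := by
  unfold TT
  rw [map_sum, Finset.mul_sum]
  have h1 : t (∑ g : H, a * (dl (g : G) * b * dl (g : G)⁻¹)) =
      ∑ g : H, t (a * (dl (g : G) * b * dl (g : G)⁻¹)) := cf_sum _ _ _
  rw [h1]
  refine Finset.sum_congr rfl fun g _ => ?_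
  rw [LinearMap.trace_smulRight]
  have h2 : a * (dl (g : G) * b * dl (g : G)⁻¹) = a * dl (g : G) * b * dl (g : G)⁻¹ := by
    simp only [mul_assoc]
  rw [h2, t_mul_dl, inv_inv]
  rfl

theorem z_mem [Fintype H] {b : Al Ω G} (hb : b ∈ sb Ω H) :
    (∑ g : H, dl (g : G) * b * dl (g : G)⁻¹) ∈ sb Ω H := by
  refine Subalgebra.sum_mem _ fun g _ => ?_
  exact (sb Ω H).mul_mem ((sb Ω H).mul_mem (dl_mem.2 g.2) hb) (dl_mem.2 (H.inv_mem g.2))

theorem tr_z [Fintype H] {a b : Al Ω G} (ha : a ∈ sb Ω H) (hb : b ∈ sb Ω H) {φ : G → Ω}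
    (hφ : φ ∈ ir Ω H) : (Parker.dg φ : Ω) * tr φ (a * ∑ g : H, dl (g : G) * b * dl (g : G)⁻¹) =
      (Nat.card H : Ω) * (tr φ a * tr φ b) := by
  obtain ⟨n, ρ, hρ, rfl, -, hn, hn0⟩ := ir_rep hφ
  have hz := z_mem (H := H) hb
  rw [← op_trace ρ ((sb Ω H).mul_mem ha hz), ← op_trace ρ ha, ← op_trace ρ hb, op_mul ρ ha hz]
  have h1 : op ρ (∑ g : H, dl (g : G) * b * dl (g : G)⁻¹) = ∑ g : H, ρ g * op ρ b * ρ g⁻¹ := by
    rw [map_sum]
    refine Finset.sum_congr rfl fun g _ => ?_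
    rw [op_mul ρ ((sb Ω H).mul_mem (dl_mem.2 g.2) hb) (dl_mem.2 (H.inv_mem g.2)),
      op_mul ρ (dl_mem.2 g.2) hb, op_dl ρ g.2, op_dl ρ (H.inv_mem g.2)]
    rfl
  rw [h1, Parker.sum_conj hρ, mul_smul_comm, mul_one, map_smul, smul_eq_mul, ← hn]
  have h2 : (Module.finrank Ω (Fin n → Ω) : Ω) = (n : Ω) := by simp
  have h3 : (n : Ω) ≠ 0 := by exact_mod_cast hn0.ne'
  rw [h2]
  field_simp

end A06_aux

open A06_aux

theorem card_t {a : Al Ω G} (ha : a ∈ sb Ω H) :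
    (Nat.card H : Ω) * t a = ∑ φ ∈ ir Ω H, (Parker.dg φ : Ω) * tr φ a := by
  refine sb_induction (H := H) (p := fun a => (Nat.card H : Ω) * t a =
    ∑ φ ∈ ir Ω H, (Parker.dg φ : Ω) * tr φ a) ?_ ?_ ?_ ha
  · simp [t_zero]
  · intro x y hx hy
    simp only [t_add, map_add, mul_add, Finset.sum_add_distrib, hx, hy]
  · intro r g hg
    have h1 : ∀ φ ∈ ir Ω H, (Parker.dg φ : Ω) * tr φ (r • dl g) = r * (φ 1 * φ g) := by
      intro φ hφ
      rw [map_smul, tr_dl, smul_eq_mul, ← (ir_one hφ).1]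
      ring
    rw [Finset.sum_congr rfl h1, ← Finset.mul_sum, sum_ir (fun φ => φ 1 * φ g)]
    have h2 : ∀ ψ ∈ Parker.irr Ω H, xt H ψ 1 * xt H ψ g = ψ 1 * ψ ⟨g, hg⟩ := by
      intro ψ _
      rw [xt_apply ψ H.one_mem, xt_apply ψ hg]
      rfl
    rw [Finset.sum_congr rfl h2, sum_irr, t_smul]
    have h3 : t (dl g : Al Ω G) = if g = 1 then 1 else 0 := by
      show (dl g : Al Ω G).coeff 1 = _
      rw [coeff_dl]
      simp only [eq_comm]
    rw [h3]
    by_cases hg1 : g = 1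
    · have h4 : (⟨g, hg⟩ : H) = 1 := Subtype.ext hg1
      rw [if_pos hg1, if_pos h4]
      ring
    · have h4 : (⟨g, hg⟩ : H) ≠ 1 := fun h => hg1 (congrArg Subtype.val h)
      rw [if_neg hg1, if_neg h4]
      ring

theorem finrank_cr {a b : Al Ω G} (ha : a ∈ sb Ω H) (haa : a * a = a) (hb : b ∈ sb Ω H)
    (hbb : b * b = b) : Module.finrank Ω (cr H a b) = ∑ φ ∈ ir Ω H, rk φ a * rk φ b := by
  have _ := Fintype.ofFinite H
  have h1 := (proj ha haa hb hbb).trace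
  rw [trace_TT] at h1
  have h2 := card_t ((sb Ω H).mul_mem ha (z_mem (H := H) hb))
  rw [Finset.sum_congr rfl fun φ hφ => tr_z ha hb hφ, ← Finset.mul_sum] at h2
  have hc : (Nat.card H : Ω) ≠ 0 := by
    have : 0 < Nat.card H := Nat.card_pos
    exact_mod_cast this.ne'
  have h3 := mul_left_cancel₀ hc h2
  rw [h3] at h1
  have h4 : ∑ φ ∈ ir Ω H, tr φ a * tr φ b = ((∑ φ ∈ ir Ω H, rk φ a * rk φ b : ℕ) : Ω) := by
    push_cast
    refine Finset.sum_congr rfl fun φ hφ => ?_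
    rw [rk_tr hφ ha haa, rk_tr hφ hb hbb]
  rw [h4] at h1
  exact_mod_cast h1.symm

theorem exists_common {a b : Al Ω G} (ha : a ∈ sb Ω H) (haa : a * a = a) (hb : b ∈ sb Ω H)
    (hbb : b * b = b) : (∃ x ∈ sb Ω H, a * x * b ≠ 0) ↔ ∃ φ ∈ ir Ω H, rk φ a ≠ 0 ∧ rk φ b ≠ 0 := by
  have h1 := finrank_cr ha haa hb hbb
  constructor
  · rintro ⟨x, hx, hne⟩
    by_contra hcon
    push Not at hcon
    have h2 : ∑ φ ∈ ir Ω H, rk φ a * rk φ b = 0 := by
      refine Finset.sum_eq_zero fun φ hφ => ?_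
      by_cases h0 : rk φ a = 0
      · rw [h0, zero_mul]
      · rw [hcon φ hφ h0, mul_zero]
    rw [h2] at h1
    have h3 : cr H a b = ⊥ := Submodule.finrank_eq_zero.1 h1
    have h4 : a * x * b ∈ cr H a b := mem_cr.2 ⟨x, hx, rfl⟩
    rw [h3, Submodule.mem_bot] at h4
    exact hne h4
  · rintro ⟨φ, hφ, h2, h3⟩
    by_contra hcon
    push Not at hcon
    have h4 : cr H a b = ⊥ := by
      rw [eq_bot_iff]
      intro y hy
      obtain ⟨x, hx, rfl⟩ := mem_cr.1 hy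
      rw [Submodule.mem_bot]
      exact hcon x hx
    rw [h4, finrank_bot] at h1
    have h5 := (Finset.sum_eq_zero_iff.1 h1.symm) φ hφ
    rcases Nat.mul_eq_zero.1 h5 with h6 | h6
    · exact h2 h6
    · exact h3 h6

theorem prim_unique {a : Al Ω G} (ha : a ∈ sb Ω H) (haa : a * a = a) (h0 : a ≠ 0)
    (h : ∀ x ∈ sb Ω H, ∃ r : Ω, a * x * a = r • a) :
    ∃ φ ∈ ir Ω H, rk φ a = 1 ∧ ∀ ψ ∈ ir Ω H, ψ ≠ φ → rk ψ a = 0 := by
  have h1 := finrank_cr ha haa ha haa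
  have h2 : cr H a a = Submodule.span Ω {a} := by
    apply le_antisymm
    · intro y hy
      obtain ⟨x, hx, rfl⟩ := mem_cr.1 hy
      obtain ⟨r, hr⟩ := h x hx
      rw [hr]
      exact Submodule.smul_mem _ _ (Submodule.mem_span_singleton_self a)
    · rw [Submodule.span_singleton_le_iff_mem]
      exact mem_cr.2 ⟨1, (sb Ω H).one_mem, by rw [mul_one, haa]⟩
  rw [h2, finrank_span_singleton h0] at h1
  have h3 : ∃ φ ∈ ir Ω H, rk φ a ≠ 0 := by
    by_contra hcon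
    push Not at hcon
    rw [Finset.sum_eq_zero fun φ hφ => by rw [hcon φ hφ, mul_zero]] at h1
    exact one_ne_zero h1
  obtain ⟨φ, hφ, h4⟩ := h3
  rw [← Finset.add_sum_erase _ _ hφ] at h1
  have h5 : 1 ≤ rk φ a * rk φ a := Nat.one_le_iff_ne_zero.2 (mul_ne_zero h4 h4)
  have h6 : ∑ ψ ∈ (ir Ω H).erase φ, rk ψ a * rk ψ a = 0 := by omega
  have h7 : rk φ a * rk φ a = 1 := by omega
  refine ⟨φ, hφ, Nat.eq_one_of_mul_eq_one_left h7, fun ψ hψ hne => ?_⟩
  have h8 := (Finset.sum_eq_zero_iff.1 h6) ψ (Finset.mem_erase.2 ⟨hne, hψ⟩)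
  exact mul_self_eq_zero.1 h8

theorem prim_of_rk {a : Al Ω G} (ha : a ∈ sb Ω H) (haa : a * a = a) {φ : G → Ω} (hφ : φ ∈ ir Ω H)
    (h1 : rk φ a = 1) (h : ∀ ψ ∈ ir Ω H, ψ ≠ φ → rk ψ a = 0) :
    a ≠ 0 ∧ ∀ x ∈ sb Ω H, a * x * a = tr φ (a * x * a) • a := by
  have h0 : a ≠ 0 := by
    rintro rfl
    rw [rk_zero] at h1
    exact zero_ne_one h1
  refine ⟨h0, fun x hx => ?_⟩
  have h2 := finrank_cr ha haa ha haa
  rw [← Finset.add_sum_erase _ _ hφ, h1, Finset.sum_eq_zero] at h2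
  · have ha1 : a ∈ cr H a a := mem_cr.2 ⟨1, (sb Ω H).one_mem, by rw [mul_one, haa]⟩
    have h3 : Module.finrank Ω (cr H a a) = 1 := h2
    have hne : (⟨a, ha1⟩ : cr H a a) ≠ 0 := fun h => h0 (congrArg Subtype.val h)
    obtain ⟨r, hr⟩ := (finrank_eq_one_iff_of_nonzero' (⟨a, ha1⟩ : cr H a a) hne).1 h3
      ⟨a * x * a, mem_cr.2 ⟨x, hx, rfl⟩⟩
    have hr' : r • a = a * x * a := congrArg Subtype.val hr
    have h4 : tr φ (a * x * a) = r := by
      rw [← hr', map_smul, smul_eq_mul, ← rk_tr hφ ha haa, h1, Nat.cast_one, mul_one]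
    rw [h4, hr']
  · intro ψ hψ
    rw [h ψ (Finset.mem_of_mem_erase hψ) (Finset.ne_of_mem_erase hψ), mul_zero]

theorem eq_zero_of_rk {a : Al Ω G} (ha : a ∈ sb Ω H) (haa : a * a = a)
    (h : ∀ φ ∈ ir Ω H, rk φ a = 0) : a = 0 := by
  have h1 := finrank_cr ha haa ha haa
  rw [Finset.sum_eq_zero fun φ hφ => by rw [h φ hφ, mul_zero]] at h1
  have h3 : cr H a a = ⊥ := Submodule.finrank_eq_zero.1 h1
  have ha1 : a ∈ cr H a a := mem_cr.2 ⟨1, (sb Ω H).one_mem, by rw [mul_one, haa]⟩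
  rw [h3, Submodule.mem_bot] at ha1
  exact ha1

end

end LieP
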