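import Pool.Agent.LieP.A06

/-!
# MP_6c3636_al, LieP, module A07: central idempotents (helper7)

`cen H φ` is the central idempotent: `Parker.es`, P15 (`Parker.P15_aux`): transport with `op`, or directly: `op ρ_ψ (cen H φ)` is a scalar
(Schur), its trace is `δ φ(1)` (orthogonality). `al_ext_rep`: an element of `sb Ω H` is zero if all `tr ψ (a x)` vanish (`card_t`, `t_nondeg_sb`).
-/

namespace LieP

noncomputable section

open Classical

variable {Ω : Type} [Field Ω] [IsAlgClosed Ω] [CharZero Ω] {G : Type} [Group G] [Finite G]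

variable {H : Subgroup G}

namespace A07_aux

omit [IsAlgClosed Ω] [CharZero Ω] in
theorem coeff_cen (φ : G → Ω) (g : G) :
    (cen H φ).coeff g = φ 1 * (Nat.card H : Ω)⁻¹ * φ g⁻¹ := coeff_mk _ _

theorem op_cen {V : Type} [AddCommGroup V] [Module Ω V] [FiniteDimensional Ω V]
    {ρ : Representation Ω H V} (hρ : ρ.IsIrreducible) {φ : G → Ω} (h : φ ∈ ir Ω H) :
    op ρ (cen H φ) = (if xt H ρ.character = φ then (1 : Ω) else 0) • 1 := by
  obtain ⟨ψ, hψ, rfl⟩ := ir_iff.1 h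
  rw [op_act]
  have e : (fun g : H => (cen H (xt H ψ)).coeff (g : G)) = Parker.es ψ := by
    funext g
    rw [coeff_cen, xt_apply ψ H.one_mem, xt_apply ψ (H.inv_mem g.2)]
    rfl
  rw [e, Parker.P15_aux.act_es_irr hρ hψ]
  by_cases h1 : ψ = ρ.character
  · rw [if_pos h1, if_pos (by rw [h1])]
  · rw [if_neg h1, if_neg fun h2 => h1 (xt_injective h2).symm]

omit [IsAlgClosed Ω] in
theorem card_ne (H : Subgroup G) : (Nat.card H : Ω) ≠ 0 := by
  rw [Nat.cast_ne_zero]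
  exact Nat.card_pos.ne'

end A07_aux

open A07_aux

theorem al_ext_tr {a : Al Ω G} (ha : a ∈ sb Ω H)
    (h : ∀ ψ ∈ ir Ω H, ∀ x ∈ sb Ω H, tr ψ (a * x) = 0) : a = 0 := by
  refine t_nondeg_sb ha fun b hb => ?_
  have h1 := card_t (Subalgebra.mul_mem _ ha hb)
  rw [Finset.sum_eq_zero fun ψ hψ => by rw [h ψ hψ b hb, mul_zero]] at h1
  exact (mul_eq_zero.1 h1).resolve_left (card_ne H)

theorem cen_mem (φ : G → Ω) (h : φ ∈ ir Ω H) : cen H φ ∈ sb Ω H := by
  refine mem_sb.2 fun g hg => ?_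
  have h2 : φ g⁻¹ = 0 := ir_supp h fun h1 => hg (H.inv_mem_iff.1 h1)
  rw [coeff_cen, h2, mul_zero]

theorem cen_comm {φ : G → Ω} (h : φ ∈ ir Ω H) {a : Al Ω G} (ha : a ∈ sb Ω H) :
    cen H φ * a = a * cen H φ := by
  refine sb_induction (p := fun a => cen H φ * a = a * cen H φ) ?_ ?_ ?_ ha
  · show cen H φ * 0 = 0 * cen H φ
    rw [mul_zero, zero_mul]
  · intro a b ha hb
    show cen H φ * (a + b) = (a + b) * cen H φ
    rw [mul_add, add_mul, ha, hb]
  · intro r g hg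
    show cen H φ * (r • dl g) = (r • dl g) * cen H φ
    rw [mul_smul_comm, smul_mul_assoc]
    congr 1
    refine al_ext fun x => ?_
    rw [coeff_mul_dl, coeff_dl_mul, coeff_cen, coeff_cen]
    congr 1
    have h1 := ir_class h (x := (g⁻¹ * x)⁻¹) hg
    rw [← h1]
    congr 1
    group

theorem tr_cen {φ ψ : G → Ω} (h : φ ∈ ir Ω H) (h' : ψ ∈ ir Ω H) {a : Al Ω G} (ha : a ∈ sb Ω H) :
    tr ψ (cen H φ * a) = if ψ = φ then tr φ a else 0 := by
  obtain ⟨n, ρ, hρ, rfl, -, -, -⟩ := ir_rep h'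
  rw [← op_trace ρ (Subalgebra.mul_mem _ (cen_mem φ h) ha), op_mul ρ (cen_mem φ h) ha, op_cen hρ h,
    smul_mul_assoc, one_mul, map_smul, op_trace ρ ha, smul_eq_mul]
  split_ifs with h1
  · rw [one_mul, h1]
  · rw [zero_mul]

theorem cen_idem {φ : G → Ω} (h : φ ∈ ir Ω H) : cen H φ * cen H φ = cen H φ := by
  have hc := cen_mem φ h
  rw [← sub_eq_zero]
  refine al_ext_tr (Subalgebra.sub_mem _ (Subalgebra.mul_mem _ hc hc) hc) fun ψ hψ x hx => ?_
  rw [sub_mul, map_sub, mul_assoc, tr_cen h hψ (Subalgebra.mul_mem _ hc hx), tr_cen h hψ hx,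
    tr_cen h h hx, if_pos rfl, sub_self]

theorem cen_mul_cen {φ ψ : G → Ω} (h : φ ∈ ir Ω H) (h' : ψ ∈ ir Ω H) (hne : φ ≠ ψ) :
    cen H φ * cen H ψ = 0 := by
  have hc := cen_mem φ h
  have hc' := cen_mem ψ h'
  refine al_ext_tr (Subalgebra.mul_mem _ hc hc') fun χ hχ x hx => ?_
  rw [mul_assoc, tr_cen h hχ (Subalgebra.mul_mem _ hc' hx), tr_cen h' h hx, if_neg hne, ite_self]

theorem sum_cen (H : Subgroup G) : ∑ φ ∈ ir Ω H, cen H φ = 1 := by
  have hs : ∑ φ ∈ ir Ω H, cen H φ ∈ sb Ω H := Subalgebra.sum_mem _ fun φ hφ => cen_mem φ hφ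
  rw [← sub_eq_zero]
  refine al_ext_tr (Subalgebra.sub_mem _ hs (Subalgebra.one_mem _)) fun ψ hψ x hx => ?_
  rw [sub_mul, map_sub, Finset.sum_mul, map_sum, one_mul,
    Finset.sum_congr rfl fun φ hφ => tr_cen hφ hψ hx, Finset.sum_ite_eq, if_pos hψ, sub_self]

theorem rk_cen {φ ψ : G → Ω} (h : φ ∈ ir Ω H) (h' : ψ ∈ ir Ω H) {a : Al Ω G} (ha : a ∈ sb Ω H)
    (haa : a * a = a) : rk ψ (cen H φ * a) = if ψ = φ then rk φ a else 0 := by
  have h1 := tr_cen h h' ha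
  split_ifs at h1 ⊢ with h2
  · exact rk_of_tr (by rw [h1, rk_tr h ha haa])
  · exact rk_of_tr (by rw [h1, Nat.cast_zero])

theorem cen_mul_eq_zero {φ : G → Ω} (h : φ ∈ ir Ω H) {a : Al Ω G} (ha : a ∈ sb Ω H)
    (haa : a * a = a) : cen H φ * a = 0 ↔ rk φ a = 0 := by
  constructor
  · intro h0
    have h1 := rk_cen h h ha haa
    rw [h0, rk_zero, if_pos rfl] at h1
    exact h1.symm
  · intro h0
    refine al_ext_tr (Subalgebra.mul_mem _ (cen_mem φ h) ha) fun ψ hψ x hx => ?_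
    rw [mul_assoc, tr_cen h hψ (Subalgebra.mul_mem _ ha hx)]
    split_ifs
    · rw [tr_mul_comm h ha hx]
      exact tr_zero_of_rk h ha haa h0 hx
    · rfl

theorem cen_conj {H' : Subgroup G} {n : G} (hn : ∀ l, l ∈ H ↔ n * l * n⁻¹ ∈ H') (φ : G → Ω) :
    dl n * cen H φ * dl n⁻¹ = cen H' (cjg n φ) := by
  have hcard : Nat.card H = Nat.card H' := by
    refine Nat.card_congr ⟨fun l => ⟨n * l * n⁻¹, (hn l).1 l.2⟩,
      fun l => ⟨n⁻¹ * l * n, (hn _).2 ?_⟩, fun l => ?_, fun l => ?_⟩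
    · have e : n * (n⁻¹ * (l : G) * n) * n⁻¹ = l := by group
      rw [e]
      exact l.2
    · apply Subtype.ext
      show n⁻¹ * (n * (l : G) * n⁻¹) * n = l
      group
    · apply Subtype.ext
      show n * (n⁻¹ * (l : G) * n) * n⁻¹ = l
      group
  refine al_ext fun x => ?_
  rw [coeff_mul_dl, coeff_dl_mul, coeff_cen, coeff_cen, hcard]
  have e1 : cjg n φ 1 = φ 1 := by
    show φ (n⁻¹ * 1 * n) = φ 1
    congr 1
    group
  have e2 : cjg n φ x⁻¹ = φ (n⁻¹ * (x * n⁻¹⁻¹))⁻¹ := by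
    show φ (n⁻¹ * x⁻¹ * n) = _
    congr 1
    group
  rw [e1, e2]

theorem st_cen (φ : G → Ω) : st (cen H φ) = cen H fun g => φ g⁻¹ := by
  refine al_ext fun x => ?_
  rw [coeff_st, coeff_cen, coeff_cen, inv_one]

/-- on the corner of an idempotent of rank one the elements act as scalars -/
theorem corner_cen {φ : G → Ω} (h : φ ∈ ir Ω H) {a : Al Ω G} (ha : a ∈ sb Ω H) (haa : a * a = a)
    (h1 : rk φ a = 1) {x : Al Ω G} (hx : x ∈ sb Ω H) :
    a * x * a * cen H φ = tr φ (a * x * a) • (a * cen H φ) := by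
  have hc := cen_mem φ h
  have hax : a * x * a ∈ sb Ω H := Subalgebra.mul_mem _ (Subalgebra.mul_mem _ ha hx) ha
  rw [← cen_comm h hax, ← cen_comm h ha, ← sub_eq_zero]
  refine al_ext_tr (Subalgebra.sub_mem _ (Subalgebra.mul_mem _ hc hax)
    (Subalgebra.smul_mem _ (Subalgebra.mul_mem _ hc ha) _)) fun ψ hψ y hy => ?_
  rw [sub_mul, map_sub, smul_mul_assoc, map_smul, mul_assoc (cen H φ), mul_assoc (cen H φ) a y,
    tr_cen h hψ (Subalgebra.mul_mem _ hax hy), tr_cen h hψ (Subalgebra.mul_mem _ ha hy)]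
  split_ifs
  · have e1 : tr φ (a * y) = tr φ (a * y * a) := by
      rw [← tr_mul_comm h ha (Subalgebra.mul_mem _ ha hy), ← mul_assoc, haa]
    have e2 : tr φ (a * x * a * y) = tr φ (a * x * a * y * a) := by
      rw [← tr_mul_comm h ha (Subalgebra.mul_mem _ hax hy)]
      congr 1
      rw [← mul_assoc, ← mul_assoc, ← mul_assoc, haa]
    rw [e1, e2, tr_corner h ha haa h1 hx hy, smul_eq_mul, sub_self]
  · rw [smul_zero, sub_zero]

end

end LieP
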