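import Pool.Agent.LieP.A07

/-!
# MP_6c3636_al, LieP, module A08: primitive idempotents (helper7)

`exists_prim`: in the representation of `φ` choose a projection of rank one below the projection `op ρ a`; it is `op ρ x`, `x ∈ sb Ω H`
(`ir_rep`); `b = cen H φ * a * x * a` (`op ρ b` is the projection, and `b` is killed by the other representations, so `b * b = b` by `al_ext_tr`).
`prim_equiv`: two primitive idempotents of the same type: `cr H a b` has dimension `1`, and the product `cr a b * cr b a` is not zero.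
-/

namespace LieP

noncomputable section

open Classical

variable {Ω : Type} [Field Ω] [IsAlgClosed Ω] [CharZero Ω] {G : Type} [Group G] [Finite G]

variable {H : Subgroup G}

namespace A08_aux

/-- a projection of rank one below a nonzero projection -/
theorem proj {V : Type} [AddCommGroup V] [Module Ω V] [FiniteDimensional Ω V] (P : Module.End Ω V)
    (hP : P * P = P) (h0 : P ≠ 0) : ∃ Q : Module.End Ω V, P * Q * P = Q ∧ Q * Q = Q ∧
      LinearMap.trace Ω V Q = 1 := by
  have h1 : ∃ w, P w ≠ 0 := by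
    by_contra h
    push Not at h
    exact h0 (LinearMap.ext h)
  obtain ⟨w, hw⟩ := h1
  obtain ⟨f, hf⟩ := Module.Projective.exists_dual_eq_one Ω hw
  have hPP : ∀ u, P (P u) = P u := fun u => LinearMap.congr_fun hP u
  refine ⟨LinearMap.smulRight (f ∘ₗ P) (P w), ?_, ?_, ?_⟩
  · ext u
    simp [Module.End.mul_apply, hPP]
  · ext u
    simp [Module.End.mul_apply, hPP, hf]
  · rw [LinearMap.trace_smulRight]
    simp [hPP, hf]

theorem mem_cr {k : Type} [Field k] {a b x : Al k G} (hx : x ∈ sb k H) : a * x * b ∈ cr H a b := by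
  refine ⟨x, hx, ?_⟩
  simp [mul_assoc]

end A08_aux

theorem exists_prim {φ : G → Ω} (h : φ ∈ ir Ω H) {a : Al Ω G} (ha : a ∈ sb Ω H) (haa : a * a = a)
    (h0 : rk φ a ≠ 0) : ∃ b ∈ sb Ω H, b * b = b ∧ a * b = b ∧ b * a = b ∧ b ≠ 0 ∧ cen H φ * b = b ∧
      rk φ b = 1 ∧ (∀ ψ ∈ ir Ω H, ψ ≠ φ → rk ψ b = 0) ∧ ∀ x ∈ sb Ω H, b * x * b = tr φ (b * x * b) • b := by
  obtain ⟨n, ρ, hρ, hφ, hs, hn, hn0⟩ := ir_rep h
  have hP : op ρ a * op ρ a = op ρ a := by rw [← op_mul ρ ha ha, haa]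
  have hP0 : op ρ a ≠ 0 := by
    intro h1
    apply h0
    rw [hφ, ← rk_range ρ ha haa, h1]
    simp
  obtain ⟨Q, hQ1, hQ2, hQ3⟩ := A08_aux.proj (op ρ a) hP hP0
  obtain ⟨x, hx, hxQ⟩ := hs Q
  have htr : ∀ {z : Al Ω G}, z ∈ sb Ω H → tr φ z = LinearMap.trace Ω (Fin n → Ω) (op ρ z) := by
    intro z hz
    rw [op_trace ρ hz, hφ]
  set c : Al Ω G := a * x * a with hc
  have hcm : c ∈ sb Ω H := mul_mem (mul_mem ha hx) ha
  have hopc : op ρ c = Q := by
    rw [hc, op_mul ρ (mul_mem ha hx) ha, op_mul ρ ha hx, hxQ, hQ1]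
  have hec : cen H φ ∈ sb Ω H := cen_mem φ h
  have hac : a * c = c := by rw [hc, ← mul_assoc, ← mul_assoc, haa]
  have hca : c * a = c := by rw [hc, mul_assoc, haa]
  have hcom : ∀ {z : Al Ω G}, z ∈ sb Ω H → z * cen H φ = cen H φ * z := fun hz => (cen_comm h hz).symm
  have hbm : cen H φ * c ∈ sb Ω H := mul_mem hec hcm
  have hee := cen_idem (H := H) h
  have hbb : cen H φ * c * (cen H φ * c) = cen H φ * c := by
    have e1 : cen H φ * c * (cen H φ * c) = cen H φ * (c * c) := by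
      calc cen H φ * c * (cen H φ * c) = cen H φ * (c * cen H φ) * c := by simp only [mul_assoc]
        _ = cen H φ * (cen H φ * c) * c := by rw [hcom hcm]
        _ = (cen H φ * cen H φ) * (c * c) := by simp only [mul_assoc]
        _ = _ := by rw [hee]
    rw [e1]
    have e2 : cen H φ * (c * c) - cen H φ * c = 0 := by
      refine al_ext_tr (H := H) (sub_mem (mul_mem hec (mul_mem hcm hcm)) hbm) ?_
      intro ψ hψ y hy
      have e3 : (cen H φ * (c * c) - cen H φ * c) * y = cen H φ * ((c * c - c) * y) := by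
        rw [sub_mul, sub_mul, mul_sub]
        simp only [mul_assoc]
      have hm : (c * c - c) * y ∈ sb Ω H := mul_mem (sub_mem (mul_mem hcm hcm) hcm) hy
      rw [e3, tr_cen h hψ hm]
      split_ifs
      · rw [htr hm, op_mul ρ (sub_mem (mul_mem hcm hcm) hcm) hy, map_sub, op_mul ρ hcm hcm, hopc, hQ2,
          sub_self, zero_mul, map_zero]
      · rfl
    exact sub_eq_zero.mp e2
  have hrk : rk φ (cen H φ * c) = 1 := by
    apply rk_of_tr
    rw [tr_cen h h hcm, if_pos rfl, htr hcm, hopc, hQ3, Nat.cast_one]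
  have hrk0 : ∀ ψ ∈ ir Ω H, ψ ≠ φ → rk ψ (cen H φ * c) = 0 := by
    intro ψ hψ hne
    apply rk_of_tr
    rw [tr_cen h hψ hcm, if_neg hne, Nat.cast_zero]
  obtain ⟨hne, hsc⟩ := prim_of_rk hbm hbb h hrk hrk0
  refine ⟨cen H φ * c, hbm, hbb, ?_, ?_, hne, ?_, hrk, hrk0, hsc⟩
  · rw [← mul_assoc, hcom ha, mul_assoc, hac]
  · rw [mul_assoc, hca]
  · rw [← mul_assoc, hee]

/-- the form over a smaller field: primitive idempotents with the same central character are equivalent -/
theorem prim_equiv' {k : Type} [Field k] {a b : Al k G} (ha : a ∈ sb k H) (haa : a * a = a)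
    (hb : b ∈ sb k H) (hbb : b * b = b) (hpa : ∀ x ∈ sb k H, ∃ r : k, a * x * a = r • a)
    (hpb : ∀ x ∈ sb k H, ∃ r : k, b * x * b = r • b)
    (h0 : ∃ x ∈ sb k H, ∃ y ∈ sb k H, a * x * b * y * a ≠ 0) :
    ∃ x ∈ cr H a b, ∃ y ∈ cr H b a, x * y = a ∧ y * x = b := by
  obtain ⟨x, hx, y, hy, hxy⟩ := h0
  obtain ⟨r, hr⟩ := hpa (x * b * y) (mul_mem (mul_mem hx hb) hy)
  obtain ⟨s, hs⟩ := hpb (y * a * x) (mul_mem (mul_mem hy ha) hx)
  have hr' : a * x * b * y * a = r • a := by rw [← hr]; simp only [mul_assoc]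
  have hs' : b * y * a * x * b = s • b := by rw [← hs]; simp only [mul_assoc]
  have hr0 : r ≠ 0 := by
    rintro rfl
    rw [hr', zero_smul] at hxy
    exact hxy rfl
  have ha0 : a ≠ 0 := by
    rintro rfl
    simp at hxy
  have hb0 : b ≠ 0 := by
    rintro rfl
    simp at hxy
  have e1 : (a * x * b) * (b * y * a) = r • a := by
    rw [← hr']
    calc (a * x * b) * (b * y * a) = a * x * (b * b) * y * a := by simp only [mul_assoc]
      _ = _ := by rw [hbb]
  have e2 : (b * y * a) * (a * x * b) = s • b := by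
    rw [← hs']
    calc (b * y * a) * (a * x * b) = b * y * (a * a) * x * b := by simp only [mul_assoc]
      _ = _ := by rw [haa]
  have hsr : s = r := by
    have e3 : (b * y * a) * ((a * x * b) * (b * y * a)) = ((b * y * a) * (a * x * b)) * (b * y * a) := by
      simp only [mul_assoc]
    rw [e1, e2] at e3
    have e4 : r • (b * y * a) = s • (b * y * a) := by
      have e5 : (b * y * a) * (r • a) = r • (b * y * a) := by
        rw [mul_smul_comm, mul_assoc, haa]
      have e6 : (s • b) * (b * y * a) = s • (b * y * a) := by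
        rw [smul_mul_assoc, ← mul_assoc, ← mul_assoc, hbb]
      rw [← e5, ← e6, e3]
    have e7 : (b * y * a) ≠ 0 := by
      intro h
      rw [h, mul_zero] at e1
      exact (smul_ne_zero hr0 ha0) e1.symm
    have e8 : (r - s) • (b * y * a) = 0 := by rw [sub_smul, e4, sub_self]
    rcases smul_eq_zero.mp e8 with h | h
    · exact (sub_eq_zero.mp h).symm
    · exact absurd h e7
  refine ⟨a * x * b, A08_aux.mem_cr hx, b * (r⁻¹ • y) * a, A08_aux.mem_cr (Subalgebra.smul_mem _ hy _),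
    ?_, ?_⟩
  · rw [mul_smul_comm, smul_mul_assoc, mul_smul_comm, e1, smul_smul, inv_mul_cancel₀ hr0, one_smul]
  · rw [mul_smul_comm, smul_mul_assoc, smul_mul_assoc, e2, hsr, smul_smul, inv_mul_cancel₀ hr0, one_smul]

theorem prim_equiv {φ : G → Ω} (h : φ ∈ ir Ω H) {a b : Al Ω G} (ha : a ∈ sb Ω H) (haa : a * a = a)
    (hb : b ∈ sb Ω H) (hbb : b * b = b) (ha1 : rk φ a = 1) (hb1 : rk φ b = 1)
    (ha0 : ∀ ψ ∈ ir Ω H, ψ ≠ φ → rk ψ a = 0) (hb0 : ∀ ψ ∈ ir Ω H, ψ ≠ φ → rk ψ b = 0) :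
    ∃ x ∈ cr H a b, ∃ y ∈ cr H b a, x * y = a ∧ y * x = b := by
  obtain ⟨hane, has⟩ := prim_of_rk ha haa h ha1 ha0
  obtain ⟨hbne, hbs⟩ := prim_of_rk hb hbb h hb1 hb0
  obtain ⟨x, hx, hxne⟩ := (exists_common ha haa hb hbb).mpr
    ⟨φ, h, by rw [ha1]; exact one_ne_zero, by rw [hb1]; exact one_ne_zero⟩
  refine prim_equiv' ha haa hb hbb (fun x hx => ⟨_, has x hx⟩) (fun x hx => ⟨_, hbs x hx⟩)
    ⟨x, hx, ?_⟩
  by_contra hcon
  push Not at hcon
  apply hxne
  refine t_nondeg_sb (H := H) (mul_mem (mul_mem ha hx) hb) ?_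
  intro y hy
  have e1 : t (a * x * b * y) = t (a * x * b * y * a) := by
    rw [t_mul_comm (a * x * b * y) a]
    congr 1
    simp only [← mul_assoc, haa]
  rw [e1, hcon y hy, t_zero]

end

end LieP
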