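import Pool.Agent.LieP.A08

/-!
# MP_6c3636_al, LieP, module A09: multiplicities (helper7)

`e` is an idempotent of `sb Ω H` which commutes with `sb Ω H'`, `H' ≤ H`, `φ ∈ ir Ω H`. `H'` acts on the range of `e` in the
representation of `φ`. The multiplicity of `ψ ∈ ir Ω H'` in it is `mt H' φ e ψ`: `rk φ (e * cen H' ψ) = mt * dg ψ`. Proof of `mt_mul`: let `b` be a
primitive idempotent of type `ψ`; `cen H' ψ` is a sum of `dg ψ` orthogonal idempotents equivalent to `b` in `sb Ω H'`, so (`rk_equiv`, the equivalences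
commute with `e`) `rk φ (e * cen H' ψ) = dg ψ * rk φ (e * b)`. Or decompose the representation of `H'` on the range of `e` with
`Parker` P15 (`Parker.mul`).
-/

namespace LieP

noncomputable section

open Classical

variable {Ω : Type} [Field Ω] [IsAlgClosed Ω] [CharZero Ω] {G : Type} [Group G] [Finite G]

variable {H H' : Subgroup G} (hH : H' ≤ H) {φ : G → Ω} (hφ : φ ∈ ir Ω H) {e : Al Ω G}
  (he : e ∈ sb Ω H) (hee : e * e = e) (hc : ∀ a ∈ sb Ω H', e * a = a * e)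

namespace A09_aux

theorem cr_mem {a b x : Al Ω G} (ha : a ∈ sb Ω H') (hb : b ∈ sb Ω H') (hx : x ∈ cr H' a b) :
    x ∈ sb Ω H' := by
  obtain ⟨z, hz, rfl⟩ := hx
  have hz' : z ∈ sb Ω H' := hz
  exact (sb Ω H').mul_mem ha ((sb Ω H').mul_mem hz' hb)

include hee hc in
theorem mul4 {x y : Al Ω G} (hx : x ∈ sb Ω H') : e * x * (e * y) = e * (x * y) := by
  calc e * x * (e * y) = e * (x * e) * y := by simp only [mul_assoc]
    _ = e * (e * x) * y := by rw [hc x hx]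
    _ = (e * e) * (x * y) := by simp only [mul_assoc]
    _ = e * (x * y) := by rw [hee]

include hH hφ he hee hc

theorem equiv_rk {ψ : G → Ω} (hψ : ψ ∈ ir Ω H') {a b : Al Ω G} (ha : a ∈ sb Ω H') (haa : a * a = a)
    (hb : b ∈ sb Ω H') (hbb : b * b = b) (ha1 : rk ψ a = 1) (hb1 : rk ψ b = 1)
    (ha0 : ∀ χ ∈ ir Ω H', χ ≠ ψ → rk χ a = 0) (hb0 : ∀ χ ∈ ir Ω H', χ ≠ ψ → rk χ b = 0) :
    rk φ (e * a) = rk φ (e * b) := by
  obtain ⟨x, hx, y, hy, hxy, hyx⟩ := prim_equiv hψ ha haa hb hbb ha1 hb1 ha0 hb0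
  have hx' := cr_mem ha hb hx
  have hy' := cr_mem hb ha hy
  have e1 : e * x * (e * y) = e * a := by rw [mul4 hee hc hx', hxy]
  have e2 : e * y * (e * x) = e * b := by rw [mul4 hee hc hy', hyx]
  have m1 : e * x ∈ sb Ω H := (sb Ω H).mul_mem he (sb_mono hH hx')
  have m2 : e * y ∈ sb Ω H := (sb Ω H).mul_mem he (sb_mono hH hy')
  have h := rk_equiv hφ m1 m2 (by rw [e1, mul4 hee hc ha, haa]) (by rw [e2, mul4 hee hc hb, hbb])
  rwa [e1, e2] at h

theorem key {ψ : G → Ω} (hψ : ψ ∈ ir Ω H') {b : Al Ω G} (hb : b ∈ sb Ω H') (hbb : b * b = b)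
    (h1 : rk ψ b = 1) (h0 : ∀ χ ∈ ir Ω H', χ ≠ ψ → rk χ b = 0) (n : ℕ) :
    ∀ a ∈ sb Ω H', a * a = a → cen H' ψ * a = a → rk ψ a = n → rk φ (e * a) = n * rk φ (e * b) := by
  induction n with
  | zero =>
    intro a ha haa hca hn
    have h := (cen_mul_eq_zero hψ ha haa).2 hn
    rw [hca] at h
    rw [h, mul_zero, rk_zero, zero_mul]
  | succ n ih =>
    intro a ha haa hca hn
    obtain ⟨b', hb', hbb', hab, hba, -, hcb, hr, hr0, -⟩ :=
      exists_prim hψ ha haa (by rw [hn]; exact Nat.succ_ne_zero n)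
    have hs : a - b' ∈ sb Ω H' := (sb Ω H').sub_mem ha hb'
    have hid : (a - b') * (a - b') = a - b' := by
      rw [mul_sub, sub_mul, sub_mul, haa, hab, hba, hbb', sub_self, sub_zero]
    have h1' : (a - b') * b' = 0 := by rw [sub_mul, hab, hbb', sub_self]
    have h2' : b' * (a - b') = 0 := by rw [mul_sub, hba, hbb', sub_self]
    have hadd : rk ψ a = rk ψ (a - b') + rk ψ b' := by
      have h := rk_add hψ hs hid hb' hbb' h1' h2'
      rwa [sub_add_cancel] at h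
    have hn' : rk ψ (a - b') = n := by
      rw [hn, hr] at hadd
      exact (Nat.succ_injective hadd).symm
    have i1 := ih (a - b') hs hid (by rw [mul_sub, hca, hcb]) hn'
    have i2 : rk φ (e * b') = rk φ (e * b) :=
      equiv_rk hH hφ he hee hc hψ hb' hbb' hb hbb hr h1 hr0 h0
    have m1 : e * (a - b') ∈ sb Ω H := (sb Ω H).mul_mem he (sb_mono hH hs)
    have m2 : e * b' ∈ sb Ω H := (sb Ω H).mul_mem he (sb_mono hH hb')
    have h := rk_add hφ m1 (by rw [mul4 hee hc hs, hid]) m2 (by rw [mul4 hee hc hb', hbb'])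
      (by rw [mul4 hee hc hs, h1', mul_zero]) (by rw [mul4 hee hc hb', h2', mul_zero])
    rw [← mul_add, sub_add_cancel, i1, i2] at h
    rw [h, Nat.succ_mul]

omit hH hφ he hee hc in
theorem exists_b {ψ : G → Ω} (hψ : ψ ∈ ir Ω H') : ∃ b ∈ sb Ω H', b * b = b ∧ rk ψ b = 1 ∧
    ∀ χ ∈ ir Ω H', χ ≠ ψ → rk χ b = 0 := by
  obtain ⟨b, hb, hbb, -, -, -, -, hr, hr0, -⟩ :=
    exists_prim hψ (sb Ω H').one_mem (one_mul 1) (by rw [rk_one hψ]; exact (ir_one hψ).2.ne')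
  exact ⟨b, hb, hbb, hr, hr0⟩

omit hH hφ he hee hc in
theorem cen_facts {ψ : G → Ω} (hψ : ψ ∈ ir Ω H') {a : Al Ω G} (ha : a ∈ sb Ω H') (haa : a * a = a) :
    cen H' ψ * a ∈ sb Ω H' ∧ cen H' ψ * a * (cen H' ψ * a) = cen H' ψ * a ∧
      cen H' ψ * (cen H' ψ * a) = cen H' ψ * a ∧ rk ψ (cen H' ψ * a) = rk ψ a := by
  refine ⟨(sb Ω H').mul_mem (cen_mem ψ hψ) ha, ?_, ?_, ?_⟩
  · calc cen H' ψ * a * (cen H' ψ * a) = cen H' ψ * (a * cen H' ψ) * a := by simp only [mul_assoc]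
      _ = cen H' ψ * (cen H' ψ * a) * a := by rw [cen_comm hψ ha]
      _ = (cen H' ψ * cen H' ψ) * (a * a) := by simp only [mul_assoc]
      _ = cen H' ψ * a := by rw [cen_idem hψ, haa]
  · rw [← mul_assoc, cen_idem hψ]
  · rw [rk_cen hψ hψ ha haa, if_pos rfl]

theorem rk_cen_b {ψ : G → Ω} (hψ : ψ ∈ ir Ω H') {b : Al Ω G} (hb : b ∈ sb Ω H') (hbb : b * b = b)
    (h1 : rk ψ b = 1) (h0 : ∀ χ ∈ ir Ω H', χ ≠ ψ → rk χ b = 0) {a : Al Ω G} (ha : a ∈ sb Ω H')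
    (haa : a * a = a) : rk φ (e * (cen H' ψ * a)) = rk ψ a * rk φ (e * b) := by
  obtain ⟨f1, f2, f3, f4⟩ := cen_facts hψ ha haa
  exact key hH hφ he hee hc hψ hb hbb h1 h0 _ _ f1 f2 f3 f4

end A09_aux

include hH hφ he hee hc

theorem mt_prim {ψ : G → Ω} (hψ : ψ ∈ ir Ω H') {b : Al Ω G} (hb : b ∈ sb Ω H') (hbb : b * b = b)
    (h1 : rk ψ b = 1) (h0 : ∀ χ ∈ ir Ω H', χ ≠ ψ → rk χ b = 0) : mt H' φ e ψ = rk φ (e * b) := by
  have h := A09_aux.rk_cen_b hH hφ he hee hc hψ hb hbb h1 h0 (sb Ω H').one_mem (one_mul 1)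
  rw [mul_one, rk_one hψ] at h
  unfold mt
  rw [h, Nat.mul_div_cancel_left _ (ir_one hψ).2]

theorem mt_mul {ψ : G → Ω} (hψ : ψ ∈ ir Ω H') :
    mt H' φ e ψ * Parker.dg ψ = rk φ (e * cen H' ψ) := by
  obtain ⟨b, hb, hbb, h1, h0⟩ := A09_aux.exists_b hψ
  have h := A09_aux.rk_cen_b hH hφ he hee hc hψ hb hbb h1 h0 (sb Ω H').one_mem (one_mul 1)
  rw [mul_one, rk_one hψ] at h
  rw [mt_prim hH hφ he hee hc hψ hb hbb h1 h0, h, mul_comm]

/-- the part of an idempotent of `sb Ω H'` in the representation `ψ` -/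
theorem rk_mt_cen {ψ : G → Ω} (hψ : ψ ∈ ir Ω H') {a : Al Ω G} (ha : a ∈ sb Ω H') (haa : a * a = a) :
    rk φ (e * (cen H' ψ * a)) = mt H' φ e ψ * rk ψ a := by
  obtain ⟨b, hb, hbb, h1, h0⟩ := A09_aux.exists_b hψ
  rw [mt_prim hH hφ he hee hc hψ hb hbb h1 h0,
    A09_aux.rk_cen_b hH hφ he hee hc hψ hb hbb h1 h0 ha haa, mul_comm]

theorem rk_mt {a : Al Ω G} (ha : a ∈ sb Ω H') (haa : a * a = a) :
    rk φ (e * a) = ∑ ψ ∈ ir Ω H', mt H' φ e ψ * rk ψ a := by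
  have h1 : e * a = ∑ ψ ∈ ir Ω H', e * (cen H' ψ * a) := by
    rw [← Finset.mul_sum, ← Finset.sum_mul, sum_cen, one_mul]
  rw [h1, rk_sum hφ]
  · exact Finset.sum_congr rfl fun ψ hψ => rk_mt_cen hH hφ he hee hc hψ ha haa
  · intro ψ hψ
    exact (sb Ω H).mul_mem he (sb_mono hH (A09_aux.cen_facts hψ ha haa).1)
  · intro ψ hψ
    rw [A09_aux.mul4 hee hc (A09_aux.cen_facts hψ ha haa).1, (A09_aux.cen_facts hψ ha haa).2.1]
  · intro ψ hψ χ hχ hne
    rw [A09_aux.mul4 hee hc (A09_aux.cen_facts hψ ha haa).1]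
    have h2 : cen H' ψ * a * (cen H' χ * a) = 0 := by
      calc cen H' ψ * a * (cen H' χ * a) = cen H' ψ * (a * cen H' χ) * a := by simp only [mul_assoc]
        _ = cen H' ψ * (cen H' χ * a) * a := by rw [cen_comm hχ ha]
        _ = (cen H' ψ * cen H' χ) * (a * a) := by simp only [mul_assoc]
        _ = 0 := by rw [cen_mul_cen hψ hχ hne, zero_mul]
    rw [h2, mul_zero]

theorem mt_ne_zero_iff {ψ : G → Ω} (hψ : ψ ∈ ir Ω H') :
    mt H' φ e ψ ≠ 0 ↔ cen H φ * e * cen H' ψ ≠ 0 := by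
  have m : e * cen H' ψ ∈ sb Ω H := (sb Ω H).mul_mem he (sb_mono hH (cen_mem ψ hψ))
  have i : e * cen H' ψ * (e * cen H' ψ) = e * cen H' ψ := by
    rw [A09_aux.mul4 hee hc (cen_mem ψ hψ), cen_idem hψ]
  have h1 := mt_mul hH hφ he hee hc hψ
  have h2 := cen_mul_eq_zero hφ m i
  rw [mul_assoc, Ne, Ne, not_iff_not, h2, ← h1, Nat.mul_eq_zero]
  constructor
  · exact fun h => Or.inl h
  · rintro (h | h)
    · exact h
    · exact absurd h (ir_one hψ).2.ne'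

end

end LieP
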