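import Pool.Agent.LieP.A02
import Pool.Agent.LieP.A09
import Pool.Agent.Parker.P19

/-!
# MP_6c3636_al, LieP, module A10: two-groups (helper7)

`U` a `2`-group in which squares are products of commutators. Its irreducible representations of odd degree have degree `1` (degrees are powers of `2`:
they divide the order; library Parker P22 or the neighbouring files, or `Parker` `noOdd`), and are homomorphisms `l : U → Ωˣ` with `l^2 = 1`.
`rk φ e = ∑_ψ mt U φ e ψ * dg ψ`, modulo `2` only the linear `ψ` count, and `mt U φ e ψ = rk φ (e * el U l)`, `el Ω U l = cen U ψ`.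
-/

namespace LieP

noncomputable section

open Classical

variable {Ω : Type} [Field Ω] [IsAlgClosed Ω] [CharZero Ω] {G : Type} [Group G] [Finite G]


namespace A10_aux

omit [Finite G] in
theorem comm_char {U : Subgroup G} (c : U →* Ω) {g : G} (hg : g ∈ (⁅U, U⁆ : Subgroup G)) :
    ∃ h : g ∈ U, c ⟨g, h⟩ = 1 := by
  have hle : (⁅U, U⁆ : Subgroup G) ≤ (MonoidHom.ker c).map U.subtype := by
    rw [Subgroup.commutator_le]
    intro a ha b hb
    refine ⟨(⟨a, ha⟩ : U) * (⟨b, hb⟩ : U) * (⟨a, ha⟩ : U)⁻¹ * (⟨b, hb⟩ : U)⁻¹, ?_, rfl⟩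
    show c ((⟨a, ha⟩ : U) * (⟨b, hb⟩ : U) * (⟨a, ha⟩ : U)⁻¹ * (⟨b, hb⟩ : U)⁻¹) = 1
    rw [map_mul, map_mul, map_mul]
    have h1 : c (⟨a, ha⟩ : U) * c (⟨a, ha⟩ : U)⁻¹ = 1 := by rw [← map_mul, mul_inv_cancel, map_one]
    have h2 : c (⟨b, hb⟩ : U) * c (⟨b, hb⟩ : U)⁻¹ = 1 := by rw [← map_mul, mul_inv_cancel, map_one]
    calc c (⟨a, ha⟩ : U) * c (⟨b, hb⟩ : U) * c (⟨a, ha⟩ : U)⁻¹ * c (⟨b, hb⟩ : U)⁻¹
        = (c (⟨a, ha⟩ : U) * c (⟨a, ha⟩ : U)⁻¹) * (c (⟨b, hb⟩ : U) * c (⟨b, hb⟩ : U)⁻¹) := by ring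
      _ = 1 := by rw [h1, h2, one_mul]
  obtain ⟨x, hx, rfl⟩ := hle hg
  exact ⟨x.2, hx⟩

omit [CharZero Ω] in
/-- endomorphisms of a line -/
theorem end_line (T : Module.End Ω (Fin 1 → Ω)) :
    T = (LinearMap.trace Ω (Fin 1 → Ω) T) • (1 : Module.End Ω (Fin 1 → Ω)) := by
  have h1 : T = (T (fun _ => 1) 0) • (1 : Module.End Ω (Fin 1 → Ω)) := by
    refine LinearMap.ext fun x => ?_
    have hx : x = (x 0) • (fun _ : Fin 1 => (1 : Ω)) := by
      funext i
      rw [Subsingleton.elim i 0]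
      simp
    rw [hx, map_smul]
    funext i
    rw [Subsingleton.elim i 0]
    simp [mul_comm]
  have h2 : LinearMap.trace Ω (Fin 1 → Ω) T = T (fun _ => 1) 0 := by
    conv_lhs => rw [h1]
    rw [map_smul, LinearMap.trace_one]
    simp
  rw [h2]
  exact h1

/-- an irreducible representation of odd degree of a `2`-group has degree one -/
theorem odd_one : ∀ (n : ℕ) (K : Type) [Group K] [Finite K], Nat.card K = n →
    (∀ g : K, ∃ k : ℕ, g ^ (2 ^ k) = 1) → ∀ (V : Type) [AddCommGroup V] [Module Ω V]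
    [FiniteDimensional Ω V] (ρ : Representation Ω K V), ρ.IsIrreducible →
    Odd (Module.finrank Ω V) → Module.finrank Ω V = 1 := by
  intro n
  induction n using Nat.strong_induction_on with
  | _ n ih =>
    intro K _ _ hn h2 V _ _ _ ρ hρ hodd
    have hP : IsPGroup 2 K := h2
    have : Fact (Nat.Prime 2) := ⟨Nat.prime_two⟩
    by_cases hK : (⊥ : Subgroup K) = ⊤
    · have hsub : Subsingleton K := by
        refine ⟨fun a b => ?_⟩
        have ha : a ∈ (⊥ : Subgroup K) := by rw [hK]; exact Subgroup.mem_top a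
        have hb : b ∈ (⊥ : Subgroup K) := by rw [hK]; exact Subgroup.mem_top b
        rw [Subgroup.mem_bot] at ha hb
        rw [ha, hb]
      have hpos := Parker.irr_pos hρ
      obtain ⟨v, hv⟩ := Module.finrank_pos_iff_exists_ne_zero.1 hpos
      rcases Parker.irr_sub hρ (U := Submodule.span Ω {v}) (fun g x hx => by
        rw [Subsingleton.elim g 1, map_one]
        exact hx) with h | h
      · exact absurd (Submodule.span_singleton_eq_bot.1 h) hv
      · rw [← finrank_top Ω V, ← h]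
        exact finrank_span_singleton hv
    obtain ⟨k, hk⟩ := (IsPGroup.iff_card (p := 2)).1 hP
    obtain ⟨H, -, hH⟩ := Parker.exists_index_two (⊥ : Subgroup K) (k := k)
      (by rw [Subgroup.index_bot]; exact hk) hK
    have hHn : Nat.card H < n := by
      have h1 := H.card_mul_index
      rw [hH, hn] at h1
      have h3 : 0 < Nat.card H := Nat.card_pos
      omega
    have hne : ∃ x : K, x ∉ H := by
      by_contra hcon
      push Not at hcon
      have h1 : H = ⊤ := by
        rw [Subgroup.eq_top_iff']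
        exact hcon
      rw [h1, Subgroup.index_top] at hH
      omega
    obtain ⟨x, hx⟩ := hne
    have hconj : ∀ h ∈ H, x⁻¹ * h * x ∈ H := by
      intro h hh
      have h1 := (Subgroup.mul_mem_iff_of_index_two hH (a := x⁻¹) (b := h))
      have h3 : x⁻¹ ∉ H := fun h' => hx (by simpa using H.inv_mem h')
      have h4 : x⁻¹ * h ∉ H := fun h' => h3 ((h1.1 h').2 hh)
      exact (Subgroup.mul_mem_iff_of_index_two hH).2 ⟨fun h' => absurd h' h4, fun h' => absurd h' hx⟩
    -- minimal `H`-invariant subspaces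
    let P : ℕ → Prop := fun d => ∃ W : Submodule Ω V, W ≠ ⊥ ∧
      (∀ h ∈ H, ∀ w ∈ W, ρ h w ∈ W) ∧ Module.finrank Ω W = d
    have hpos := Parker.irr_pos hρ
    have hPex : ∃ d, P d := by
      refine ⟨Module.finrank Ω (⊤ : Submodule Ω V), ⊤, ?_, fun _ _ _ _ => Submodule.mem_top, rfl⟩
      intro h
      rw [← finrank_top Ω V, h, finrank_bot] at hpos
      exact lt_irrefl _ hpos
    obtain ⟨W, hW0, hWinv, hWd⟩ := Nat.find_spec hPex
    have hmin : ∀ W' : Submodule Ω V, W' ≠ ⊥ → (∀ h ∈ H, ∀ w ∈ W', ρ h w ∈ W') →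
        Module.finrank Ω W ≤ Module.finrank Ω W' := by
      intro W' h0 hinv
      rw [hWd]
      exact Nat.find_min' hPex ⟨W', h0, hinv, rfl⟩
    let W' : Submodule Ω V := W.map (ρ x)
    have hinj : Function.Injective (ρ x) := by
      intro a b hab
      have h1 := congrArg (ρ x⁻¹) hab
      rwa [Representation.inv_self_apply, Representation.inv_self_apply] at h1
    have hW'd : Module.finrank Ω W' = Module.finrank Ω W :=
      (Submodule.equivMapOfInjective (ρ x) hinj W).finrank_eq.symm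
    have hW'inv : ∀ h ∈ H, ∀ w ∈ W', ρ h w ∈ W' := by
      rintro h hh w ⟨w, hw, rfl⟩
      refine ⟨ρ (x⁻¹ * h * x) w, hWinv _ (hconj h hh) w hw, ?_⟩
      rw [← Module.End.mul_apply, ← Module.End.mul_apply, ← map_mul, ← map_mul]
      congr 2
      group
    by_cases hint : W ⊓ W' = ⊥
    · -- the sum is everything
      have htop : W ⊔ W' = ⊤ := by
        have hinv : ∀ g, ∀ v ∈ W ⊔ W', ρ g v ∈ W ⊔ W' := by
          intro g v hv
          obtain ⟨w, hw, w', hw', rfl⟩ := Submodule.mem_sup.1 hv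
          rw [map_add]
          by_cases hg : g ∈ H
          · exact Submodule.add_mem _ (Submodule.mem_sup_left (hWinv g hg w hw))
              (Submodule.mem_sup_right (hW'inv g hg w' hw'))
          · obtain ⟨w'', hw'', rfl⟩ := hw'
            have h3 : x⁻¹ ∉ H := fun h' => hx (by simpa using H.inv_mem h')
            have h4 : x⁻¹ * g ∈ H := (Subgroup.mul_mem_iff_of_index_two hH).2
              ⟨fun h' => absurd h' h3, fun h' => absurd h' hg⟩
            have h5 : g * x ∈ H := (Subgroup.mul_mem_iff_of_index_two hH).2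
              ⟨fun h' => absurd h' hg, fun h' => absurd h' hx⟩
            refine Submodule.add_mem _ (Submodule.mem_sup_right ⟨ρ (x⁻¹ * g) w, hWinv _ h4 w hw, ?_⟩)
              (Submodule.mem_sup_left ?_)
            · rw [← Module.End.mul_apply, ← map_mul, mul_inv_cancel_left]
            · rw [← Module.End.mul_apply, ← map_mul]
              exact hWinv _ h5 w'' hw''
        rcases Parker.irr_sub hρ hinv with h | h
        · exact absurd (eq_bot_iff.2 (le_sup_left.trans_eq h)) hW0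
        · exact h
      have h1 := Submodule.finrank_sup_add_finrank_inf_eq W W'
      rw [htop, hint, finrank_top, finrank_bot, hW'd] at h1
      rw [show Module.finrank Ω V = Module.finrank Ω W + Module.finrank Ω W by omega] at hodd
      exact absurd hodd (Nat.not_odd_iff_even.2 ⟨_, rfl⟩)
    · have h1 : Module.finrank Ω W ≤ Module.finrank Ω (W ⊓ W' : Submodule Ω V) :=
        hmin _ hint fun h hh w hw => ⟨hWinv h hh w hw.1, hW'inv h hh w hw.2⟩
      have h3 : W ⊓ W' = W := Submodule.eq_of_le_of_finrank_le inf_le_left h1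
      have h4 : W = W' := Submodule.eq_of_le_of_finrank_le (h3 ▸ inf_le_right) hW'd.le
      have hinv : ∀ g, ∀ v ∈ W, ρ g v ∈ W := by
        intro g v hv
        by_cases hg : g ∈ H
        · exact hWinv g hg v hv
        · have h5 : x⁻¹ ∉ H := fun h' => hx (by simpa using H.inv_mem h')
          have h6 : x⁻¹ * g ∈ H := (Subgroup.mul_mem_iff_of_index_two hH).2
            ⟨fun h' => absurd h' h5, fun h' => absurd h' hg⟩
          rw [h4]
          refine ⟨ρ (x⁻¹ * g) v, hWinv _ h6 v hv, ?_⟩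
          rw [← Module.End.mul_apply, ← map_mul, mul_inv_cancel_left]
      have hWtop : W = ⊤ := (Parker.irr_sub hρ hinv).resolve_left hW0
      have hirr : (Parker.rs H ρ).IsIrreducible := by
        refine Parker.irr_of_sub hpos fun U hU => ?_
        by_cases hU0 : U = ⊥
        · exact Or.inl hU0
        · right
          have h5 := hmin U hU0 fun h hh w hw => hU ⟨h, hh⟩ w hw
          refine Submodule.eq_top_of_finrank_eq (le_antisymm (Submodule.finrank_le U) ?_)
          rw [hWtop, finrank_top] at h5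
          exact h5
      refine ih (Nat.card H) hHn H rfl ?_ V (Parker.rs H ρ) hirr hodd
      intro g
      obtain ⟨j, hj⟩ := h2 g
      exact ⟨j, Subtype.ext (by simpa using hj)⟩

omit [IsAlgClosed Ω] in
/-- `1` and `-1` are different -/
theorem cast_inj {a b : ℤˣ} (h : (((a : ℤˣ) : ℤ) : Ω) = (((b : ℤˣ) : ℤ) : Ω)) : a = b :=
  Units.ext (Int.cast_injective h)

/-- the function of a linear character -/
def fl (Ω : Type) [Field Ω] (U : Subgroup G) (l : G → ℤˣ) : G → Ω :=
  fun g => if g ∈ U then (((l g : ℤˣ) : ℤ) : Ω) else 0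

theorem cen_fl {U : Subgroup G} {l : G → ℤˣ} (hl : Lin U l) : cen U (fl Ω U l) = el Ω U l := by
  refine al_ext fun g => ?_
  rw [coeff_el]
  unfold cen
  rw [coeff_mk]
  unfold fl
  rw [if_pos U.one_mem, lin_one hl]
  by_cases hg : g ∈ U
  · rw [if_pos hg, if_pos (U.inv_mem hg), lin_inv hl hg]
    simp
  · rw [if_neg hg, if_neg (fun h => hg (by simpa using U.inv_mem h))]
    simp

theorem fl_ir {U : Subgroup G} {l : G → ℤˣ} (hl : Lin U l) : fl Ω U l ∈ ir Ω U := by
  let ρ : Representation Ω U (Fin 1 → Ω) :=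
    { toFun := fun u => (((l (u : G) : ℤˣ) : ℤ) : Ω) • (1 : Module.End Ω (Fin 1 → Ω))
      map_one' := by
        show (((l ((1 : U) : G) : ℤˣ) : ℤ) : Ω) • (1 : Module.End Ω (Fin 1 → Ω)) = 1
        rw [Subgroup.coe_one, lin_one hl]
        simp
      map_mul' := by
        intro u v
        show (((l ((u * v : U) : G) : ℤˣ) : ℤ) : Ω) • (1 : Module.End Ω (Fin 1 → Ω)) =
          ((((l (u : G) : ℤˣ) : ℤ) : Ω) • (1 : Module.End Ω (Fin 1 → Ω))) *
            ((((l (v : G) : ℤˣ) : ℤ) : Ω) • (1 : Module.End Ω (Fin 1 → Ω)))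
        rw [Subgroup.coe_mul, hl u u.2 v v.2, smul_mul_smul_comm, mul_one]
        push_cast
        rfl }
  have hfin : Module.finrank Ω (Fin 1 → Ω) = 1 := by simp
  have hirr : ρ.IsIrreducible := by
    refine Parker.irr_of_sub (by rw [hfin]; exact one_pos) fun W _ => ?_
    by_cases hW : W = ⊥
    · exact Or.inl hW
    · right
      refine Submodule.eq_top_of_finrank_eq (le_antisymm (Submodule.finrank_le W) ?_)
      rw [hfin]
      rw [Nat.one_le_iff_ne_zero]
      intro h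
      exact hW (Submodule.finrank_eq_zero.1 h)
  have h1 := rep_ir (H := U) hirr
  have h3 : xt U ρ.character = fl Ω U l := by
    funext g
    unfold fl
    by_cases hg : g ∈ U
    · rw [xt_apply _ hg, if_pos hg]
      show LinearMap.trace Ω (Fin 1 → Ω) ((((l g : ℤˣ) : ℤ) : Ω) • (1 : Module.End Ω (Fin 1 → Ω))) = _
      rw [map_smul, LinearMap.trace_one]
      simp
    · rw [if_neg hg]
      exact dif_neg hg
  rw [← h3]
  exact h1

theorem dg_fl {U : Subgroup G} {l : G → ℤˣ} (hl : Lin U l) : Parker.dg (fl Ω U l) = 1 := by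
  have h := (ir_one (fl_ir (Ω := Ω) hl)).1
  unfold fl at h
  rw [if_pos U.one_mem, lin_one hl] at h
  have h1 : ((1 : ℕ) : Ω) = (Parker.dg (fl Ω U l) : Ω) := by
    rw [Nat.cast_one]
    unfold fl
    rw [← h]
    simp
  exact (Nat.cast_injective h1).symm

theorem odd_lin {U : Subgroup G} (h2 : ∀ u ∈ U, ∃ k : ℕ, u ^ (2 ^ k) = 1)
    (hsq : ∀ u ∈ U, u * u ∈ (⁅U, U⁆ : Subgroup G)) {ψ : G → Ω} (hψ : ψ ∈ ir Ω U)
    (hd : Odd (Parker.dg ψ)) : ∃ l ∈ lins U, ψ = fl Ω U l := by
  obtain ⟨n, ρ, hρ, hφ, -, hn, -⟩ := ir_rep hψ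
  have hfin : Module.finrank Ω (Fin n → Ω) = n := by simp
  have h1 : n = 1 := by
    have := odd_one (Ω := Ω) (Nat.card U) U rfl (fun g => by
      obtain ⟨j, hj⟩ := h2 g g.2
      exact ⟨j, Subtype.ext (by simpa using hj)⟩) (Fin n → Ω) ρ hρ (by rw [hfin, hn]; exact hd)
    rwa [hfin] at this
  clear hn
  subst h1
  let c : U →* Ω :=
    { toFun := fun u => ρ.character u
      map_one' := by
        show ρ.character 1 = 1
        rw [Representation.char_one]
        simp
      map_mul' := by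
        intro u v
        show LinearMap.trace Ω (Fin 1 → Ω) (ρ (u * v)) =
          LinearMap.trace Ω (Fin 1 → Ω) (ρ u) * LinearMap.trace Ω (Fin 1 → Ω) (ρ v)
        rw [map_mul]
        conv_lhs => rw [end_line (ρ u), smul_mul_assoc, one_mul, map_smul, smul_eq_mul] }
  have hc2 : ∀ u : U, c u = 1 ∨ c u = -1 := by
    intro u
    obtain ⟨h, hh⟩ := comm_char c (hsq u u.2)
    have h3 : c u * c u = 1 := by
      rw [← map_mul, ← hh]
      rfl
    rcases mul_self_eq_one_iff.1 h3 with h4 | h4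
    · exact Or.inl h4
    · exact Or.inr h4
  let l : G → ℤˣ := fun g => if h : g ∈ U then (if c ⟨g, h⟩ = 1 then 1 else -1) else 1
  have hlc : ∀ u : U, (((l (u : G) : ℤˣ) : ℤ) : Ω) = c u := by
    intro u
    have h3 : l (u : G) = if c u = 1 then 1 else -1 := dif_pos u.2
    rw [h3]
    rcases hc2 u with h4 | h4
    · rw [if_pos h4, h4]
      simp
    · have h5 : c u ≠ 1 := by
        rw [h4]
        intro h6
        have : (2 : Ω) = 0 := by linear_combination -h6
        exact two_ne_zero this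
      rw [if_neg h5, h4]
      simp
  have hl : Lin U l := by
    intro u hu v hv
    refine cast_inj (Ω := Ω) ?_
    have h3 := hlc ⟨u * v, U.mul_mem hu hv⟩
    have h4 := hlc ⟨u, hu⟩
    have h5 := hlc ⟨v, hv⟩
    have h6 : c ⟨u * v, U.mul_mem hu hv⟩ = c ⟨u, hu⟩ * c ⟨v, hv⟩ := by
      rw [← map_mul]
      rfl
    rw [Units.val_mul, Int.cast_mul]
    rw [← h4, ← h5, ← h3] at h6
    exact h6
  refine ⟨l, mem_lins.2 ⟨hl, fun g hg => dif_neg hg⟩, ?_⟩
  rw [hφ]
  funext g
  unfold fl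
  by_cases hg : g ∈ U
  · rw [xt_apply _ hg, if_pos hg]
    exact (hlc ⟨g, hg⟩).symm
  · rw [if_neg hg]
    exact dif_neg hg

end A10_aux

theorem exists_lin {U : Subgroup G} (h2 : ∀ u ∈ U, ∃ k : ℕ, u ^ (2 ^ k) = 1)
    (hsq : ∀ u ∈ U, u * u ∈ (⁅U, U⁆ : Subgroup G)) {ψ : G → Ω} (hψ : ψ ∈ ir Ω U) (hd : Odd (Parker.dg ψ)) :
    ∃ l ∈ lins U, ψ = (fun g => if g ∈ U then (((l g : ℤˣ) : ℤ) : Ω) else 0) ∧ cen U ψ = el Ω U l := by
  obtain ⟨l, hl, h⟩ := A10_aux.odd_lin h2 hsq hψ hd
  refine ⟨l, hl, h, ?_⟩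
  rw [h]
  exact A10_aux.cen_fl (mem_lins.1 hl).1

theorem lin_ir {U : Subgroup G} {l : G → ℤˣ} (hl : Lin U l) :
    (fun g => if g ∈ U then (((l g : ℤˣ) : ℤ) : Ω) else 0) ∈ ir Ω U ∧
      cen U (fun g => if g ∈ U then (((l g : ℤˣ) : ℤ) : Ω) else 0) = el Ω U l ∧
      Parker.dg (fun g => if g ∈ U then (((l g : ℤˣ) : ℤ) : Ω) else 0) = 1 :=
  ⟨A10_aux.fl_ir hl, A10_aux.cen_fl hl, A10_aux.dg_fl hl⟩

theorem two_parity {H U : Subgroup G} (hU : U ≤ H) (h2 : ∀ u ∈ U, ∃ k : ℕ, u ^ (2 ^ k) = 1)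
    (hsq : ∀ u ∈ U, u * u ∈ (⁅U, U⁆ : Subgroup G)) {φ : G → Ω} (hφ : φ ∈ ir Ω H) {e : Al Ω G}
    (he : e ∈ sb Ω H) (hee : e * e = e) (hc : ∀ u ∈ U, e * dl u = dl u * e) :
    (rk φ e : ZMod 2) = ∑ l ∈ lins U, (rk φ (e * el Ω U l) : ZMod 2) := by
  have hc' : ∀ a ∈ sb Ω U, e * a = a * e := by
    intro a ha
    refine sb_induction (H := U) (p := fun a => e * a = a * e) ?_ ?_ ?_ ha
    · rw [mul_zero, zero_mul]
    · intro a b ha hb
      show e * (a + b) = (a + b) * e
      rw [mul_add, add_mul, ha, hb]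
    · intro r g hg
      show e * (r • dl g) = (r • dl g) * e
      rw [mul_smul_comm, smul_mul_assoc, hc g hg]
  have h1 : rk φ e = ∑ ψ ∈ ir Ω U, rk φ (e * cen U ψ) := by
    have h3 := rk_mt hU hφ he hee hc' (a := 1) (sb Ω U).one_mem (mul_one 1)
    rw [mul_one] at h3
    rw [h3]
    refine Finset.sum_congr rfl fun ψ hψ => ?_
    rw [rk_one hψ]
    exact mt_mul hU hφ he hee hc' hψ
  have h3 : (lins U).image (A10_aux.fl Ω U) = (ir Ω U).filter fun ψ => Odd (Parker.dg ψ) := by
    ext ψ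
    rw [Finset.mem_image, Finset.mem_filter]
    constructor
    · rintro ⟨l, hl, rfl⟩
      have hl' := (mem_lins.1 hl).1
      refine ⟨A10_aux.fl_ir hl', ?_⟩
      rw [A10_aux.dg_fl hl']
      exact odd_one
    · rintro ⟨h4, h5⟩
      obtain ⟨l, hl, h6⟩ := A10_aux.odd_lin h2 hsq h4 h5
      exact ⟨l, hl, h6.symm⟩
  have hinj : Set.InjOn (A10_aux.fl Ω U) (lins U : Set (G → ℤˣ)) := by
    intro l hl l' hl' heq
    have h4 := (mem_lins.1 (Finset.mem_coe.1 hl)).2
    have h5 := (mem_lins.1 (Finset.mem_coe.1 hl')).2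
    funext g
    by_cases hg : g ∈ U
    · have h6 := congrFun heq g
      unfold A10_aux.fl at h6
      rw [if_pos hg, if_pos hg] at h6
      exact A10_aux.cast_inj h6
    · rw [h4 g hg, h5 g hg]
  rw [h1, Nat.cast_sum, ← Finset.sum_filter_add_sum_filter_not (ir Ω U) fun ψ => Odd (Parker.dg ψ)]
  have h4 : ∑ ψ ∈ (ir Ω U).filter (fun ψ => ¬ Odd (Parker.dg ψ)), (rk φ (e * cen U ψ) : ZMod 2) = 0 := by
    refine Finset.sum_eq_zero fun ψ hψ => ?_
    obtain ⟨hψ1, hψ2⟩ := Finset.mem_filter.1 hψ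
    rw [← mt_mul hU hφ he hee hc' hψ1, ZMod.natCast_eq_zero_iff_even]
    exact (Nat.not_odd_iff_even.1 hψ2).mul_left _
  rw [h4, add_zero, ← h3, Finset.sum_image hinj]
  refine Finset.sum_congr rfl fun l hl => ?_
  rw [A10_aux.cen_fl (mem_lins.1 hl).1]

end

end LieP
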