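import Pool.Agent.LieP.Defs2

/-!
# MP_6c3636_al, LieP, module B01: two-groups: self centralizing abelian normal subgroups (helper7)

Section 13, (13.2). Let `A ≥ V` be maximal among the abelian normal subgroups of the finite `2`-group `P`. If `C = C_P(A) ≠ A` then `C / A` is a nontrivial normal subgroup of the `2`-group `P / A`, so it meets the center of `P / A`
(`IsPGroup`: a nontrivial normal subgroup of a finite `p`-group meets the center nontrivially, e.g. count fixed points of the conjugation action); for `x ∈ C - A` with `x A` central in `P / A` the subgroup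
`⟨A, x⟩` is normal and abelian, a contradiction.
-/

namespace LieP

noncomputable section

open Classical


theorem exists_self_cent {P : Type} [Group P] [Finite P] (hP : IsPGroup 2 P) (V : Subgroup P) (hn : V.Normal)
    (hV : ∀ x ∈ V, ∀ y ∈ V, x * y = y * x) : ∃ A : Subgroup P, A.Normal ∧ V ≤ A ∧
      (∀ x ∈ A, ∀ y ∈ A, x * y = y * x) ∧ ∀ x, (∀ a ∈ A, x * a = a * x) → x ∈ A := by
  classical
  obtain ⟨A, hVA, hA⟩ := (Set.toFinite {A : Subgroup P | A.Normal ∧ V ≤ A ∧
    ∀ x ∈ A, ∀ y ∈ A, x * y = y * x}).exists_le_maximal (a := V) ⟨hn, le_rfl, hV⟩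
  obtain ⟨⟨hAn, hVA', hAc⟩, hmax⟩ := hA
  refine ⟨A, hAn, hVA, hAc, ?_⟩
  by_contra hcon
  push Not at hcon
  obtain ⟨x, hx, hxA⟩ := hcon
  have := hAn
  have hCn : (Subgroup.centralizer (A : Set P)).Normal := inferInstance
  have hNn : ((Subgroup.centralizer (A : Set P)).map (QuotientGroup.mk' A)).Normal :=
    Subgroup.Normal.map hCn _ (QuotientGroup.mk'_surjective A)
  have hQ : IsPGroup 2 (P ⧸ A) := hP.to_quotient A
  have hQ' : IsPGroup 2 (ConjAct (P ⧸ A)) := hQ
  have hxC : x ∈ Subgroup.centralizer (A : Set P) := by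
    rw [Subgroup.mem_centralizer_iff]
    intro a ha
    exact (hx a ha).symm
  have hNne : Nontrivial ((Subgroup.centralizer (A : Set P)).map (QuotientGroup.mk' A)) := by
    rw [Subgroup.nontrivial_iff_exists_ne_one]
    refine ⟨QuotientGroup.mk' A x, Subgroup.mem_map_of_mem _ hxC, ?_⟩
    intro h1
    exact hxA ((QuotientGroup.eq_one_iff x).1 h1)
  have hdvd : 2 ∣ Nat.card ((Subgroup.centralizer (A : Set P)).map (QuotientGroup.mk' A)) := by
    have : Fact (Nat.Prime 2) := ⟨Nat.prime_two⟩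
    obtain ⟨n, hn0, hnc⟩ := (hQ.to_subgroup
      ((Subgroup.centralizer (A : Set P)).map (QuotientGroup.mk' A))).nontrivial_iff_card.1 hNne
    rw [hnc]
    exact dvd_pow_self 2 hn0.ne'
  have : Fact (Nat.Prime 2) := ⟨Nat.prime_two⟩
  obtain ⟨b, hb, hb1⟩ := hQ'.exists_fixed_point_of_prime_dvd_card_of_fixed_point
    ((Subgroup.centralizer (A : Set P)).map (QuotientGroup.mk' A)) hdvd (a := 1)
    (by
      intro g
      exact smul_one g)
  obtain ⟨y, hyC, hyb⟩ := Subgroup.mem_map.1 b.2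
  have hyA : y ∉ A := by
    intro h
    apply hb1
    apply Subtype.ext
    rw [← hyb]
    exact ((QuotientGroup.eq_one_iff y).2 h).symm
  have hcen : ∀ g : P, g * y * g⁻¹ * y⁻¹ ∈ A := by
    intro g
    have h1 := hb (ConjAct.toConjAct (QuotientGroup.mk' A g))
    have h2 := congrArg Subtype.val h1
    rw [ConjAct.Subgroup.val_conj_smul, ConjAct.toConjAct_smul, ← hyb] at h2
    rw [← QuotientGroup.eq_one_iff]
    have h3 : (QuotientGroup.mk' A) (g * y * g⁻¹ * y⁻¹) = 1 := by
      rw [map_mul, map_mul, map_mul, map_inv, map_inv, h2, mul_inv_cancel]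
    exact h3
  -- the larger subgroup
  have hyc : ∀ a ∈ A, a * y = y * a := by
    intro a ha
    exact (Subgroup.mem_centralizer_iff.1 hyC) a ha
  have hBn : (A ⊔ Subgroup.zpowers y).Normal := by
    constructor
    intro n hn g
    rw [← SetLike.mem_coe, Subgroup.normal_mul] at hn
    obtain ⟨a, ha, z, hz, rfl⟩ := hn
    obtain ⟨k, rfl⟩ := Subgroup.mem_zpowers_iff.1 hz
    have e : g * (a * y ^ k) * g⁻¹ = (g * a * g⁻¹) * (g * y * g⁻¹) ^ k := by
      rw [conj_zpow]
      group
    show g * (a * y ^ k) * g⁻¹ ∈ A ⊔ Subgroup.zpowers y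
    rw [e]
    refine Subgroup.mul_mem _ (Subgroup.mem_sup_left (hAn.conj_mem a ha g)) (Subgroup.zpow_mem _ ?_ k)
    have e2 : g * y * g⁻¹ = (g * y * g⁻¹ * y⁻¹) * y := by group
    rw [e2]
    exact Subgroup.mul_mem _ (Subgroup.mem_sup_left (hcen g))
      (Subgroup.mem_sup_right (Subgroup.mem_zpowers y))
  have hBc : ∀ u ∈ A ⊔ Subgroup.zpowers y, ∀ v ∈ A ⊔ Subgroup.zpowers y, u * v = v * u := by
    intro u hu v hv
    rw [← SetLike.mem_coe, Subgroup.normal_mul] at hu hv
    obtain ⟨a, ha, z, hz, rfl⟩ := hu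
    obtain ⟨k, rfl⟩ := Subgroup.mem_zpowers_iff.1 hz
    obtain ⟨a', ha', z', hz', rfl⟩ := hv
    obtain ⟨k', rfl⟩ := Subgroup.mem_zpowers_iff.1 hz'
    have c1 : Commute a a' := hAc a ha a' ha'
    have c2 : Commute a (y ^ k') := Commute.zpow_right (hyc a ha) k'
    have c3 : Commute (y ^ k) a' := (Commute.zpow_right (hyc a' ha') k).symm
    have c4 : Commute (y ^ k) (y ^ k') := Commute.zpow_zpow_self y k k'
    exact (Commute.mul_left (Commute.mul_right c1 c2) (Commute.mul_right c3 c4))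
  have hle := hmax (y := A ⊔ Subgroup.zpowers y) ⟨hBn, hVA.trans le_sup_left, hBc⟩ le_sup_left
  exact hyA (hle (Subgroup.mem_sup_right (Subgroup.mem_zpowers y)))

end

end LieP
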