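import Pool.Agent.LieP.B01

/-!
# MP_6c3636_al, LieP, module B02: two-groups in which the abelian normal subgroups are cyclic (helper7)

Section 13, (13.2), the CLAIM and its consequence. `A = ⟨a⟩` is normal, self centralizing, of order `2^l`, all abelian normal subgroups of `P` are cyclic.
`no_mod`: `l ≥ 3`, suppose `g a g⁻¹ = a^(1+2^(l-1))`. `g^2` centralizes `a`, so `g^2 ∈ A`, `g^2 = a^(2 i)` as it commutes with `g`. With `h = g a^m`, `m = -i` (`i` even), `m = -i + 2^(l-2)` (`i` odd): `h^2 = 1`.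
`z = a^(2^(l-1))`. `{1, h, z, h z}` is an abelian normal subgroup which is not cyclic: `a h a⁻¹ = h z`; for `p ∈ P` `p h p⁻¹` acts on `A` as `h` (the automorphism group of the cyclic group `A` is abelian), so it is
`h a^m'`, its square is `1`, `2 m' + 2^(l-1) m' = 0 mod 2^l`, so `a^m' ∈ {1, z}`.
`index_two`: `P → (ZMod (2^l))ˣ`, `p ↦ i_p` (`p a p⁻¹ = a^(i_p)`) has kernel `A`. If the image contains neither `1 + 2^(l-1)` nor an element of order `4`... : the elements of order `2` are `-1, 1+2^(l-1), -1+2^(l-1)` (`l ≥ 3`); the last two are `3 mod 4`, not squares, and their product is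
`1 + 2^(l-1)`, so the image has at most two elements, and a nontrivial one is `3 mod 4`. Then `g^2 = a^d` commutes with `g`, so `(i-1) d = 0 mod 2^l`, `d = 0 mod 2^(l-1)`.
-/

namespace LieP

noncomputable section

open Classical

namespace B02_aux

variable {P : Type} [Group P] {a : P}

theorem zact (hn : (Subgroup.zpowers a).Normal) (p : P) : ∃ i : ℤ, p * a * p⁻¹ = a ^ i := by
  obtain ⟨n, h⟩ := Subgroup.mem_zpowers_iff.1 (hn.conj_mem a (Subgroup.mem_zpowers a) p)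
  exact ⟨n, h.symm⟩

theorem zact_pow {p : P} {i : ℤ} (h : p * a * p⁻¹ = a ^ i) (k : ℤ) :
    p * a ^ k * p⁻¹ = a ^ (i * k) := by
  rw [← conj_zpow, h, ← zpow_mul]

theorem comm_of_act {p : P} (h : p * a * p⁻¹ = a) : p * a = a * p := by
  calc p * a = (p * a * p⁻¹) * p := by group
    _ = a * p := by rw [h]

theorem act_of_mem {p : P} (h : p ∈ Subgroup.zpowers a) : p * a * p⁻¹ = a := by
  obtain ⟨n, rfl⟩ := Subgroup.mem_zpowers_iff.1 h
  group

theorem zpow_two_cases {v : P} (hv : v * v = 1) (n : ℤ) : v ^ n = 1 ∨ v ^ n = v := by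
  have h2 : v ^ (2:ℤ) = 1 := by
    rw [← hv]; exact zpow_two v
  rcases Int.even_or_odd' n with ⟨c, rfl | rfl⟩
  · left; rw [zpow_mul, h2, one_zpow]
  · right; rw [zpow_add, zpow_mul, h2, one_zpow, one_mul, zpow_one]

/-- the subgroup of the products `h^i * z^j` -/
def VV {h z : P} (hz : Commute h z) : Subgroup P where
  carrier := {x | ∃ i j : ℤ, x = h ^ i * z ^ j}
  mul_mem' := by
    rintro _ _ ⟨i, j, rfl⟩ ⟨i', j', rfl⟩
    refine ⟨i + i', j + j', ?_⟩
    have e : z ^ j * h ^ i' = h ^ i' * z ^ j := (hz.zpow_zpow i' j).eq.symm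
    calc h ^ i * z ^ j * (h ^ i' * z ^ j') = h ^ i * (z ^ j * h ^ i') * z ^ j' := by
          simp only [mul_assoc]
      _ = _ := by rw [e, zpow_add, zpow_add]; simp only [mul_assoc]
  one_mem' := ⟨0, 0, by simp⟩
  inv_mem' := by
    rintro _ ⟨i, j, rfl⟩
    refine ⟨-i, -j, ?_⟩
    rw [mul_inv_rev, ← zpow_neg, ← zpow_neg]
    exact (hz.zpow_zpow (-i) (-j)).eq.symm

end B02_aux

open B02_aux

theorem no_mod {P : Type} [Group P] [Finite P] (hP : IsPGroup 2 P)
    (hc : ∀ V : Subgroup P, V.Normal → (∀ x ∈ V, ∀ y ∈ V, x * y = y * x) → IsCyclic V) {a : P} {l : ℕ}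
    (hl : 3 ≤ l) (ho : orderOf a = 2 ^ l) (hn : (Subgroup.zpowers a).Normal)
    (hsc : ∀ x, x * a = a * x → x ∈ Subgroup.zpowers a) (g : P) : g * a * g⁻¹ ≠ a ^ (1 + 2 ^ (l - 1)) := by
  intro hg
  obtain ⟨r, rfl⟩ : ∃ r, l = r + 3 := ⟨l - 3, by omega⟩
  have e1 : r + 3 - 1 = r + 2 := by omega
  rw [e1] at hg
  obtain ⟨R, hR⟩ : ∃ R : ℤ, R = 2 ^ r := ⟨_, rfl⟩
  have hRpos : 0 < R := by rw [hR]; positivity
  have hone : ∀ m : ℤ, a ^ m = 1 ↔ 8 * R ∣ m := by
    intro m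
    rw [← orderOf_dvd_iff_zpow_eq_one, ho, hR]
    push_cast
    rw [pow_add, mul_comm]
    norm_num
  have hgE : g * a * g⁻¹ = a ^ (1 + 4 * R) := by
    rw [hg, ← zpow_natCast]
    congr 1
    rw [hR]
    push_cast
    rw [pow_add]
    ring
  obtain ⟨E, hE⟩ : ∃ E : ℤ, E = 1 + 4 * R := ⟨_, rfl⟩
  rw [← hE] at hgE
  have heq : ∀ m n : ℤ, a ^ m = a ^ n ↔ 8 * R ∣ m - n := by
    intro m n
    rw [← hone, zpow_sub, mul_inv_eq_one]
  have hgg : (g * g) * a * (g * g)⁻¹ = a := by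
    have e : (g * g) * a * (g * g)⁻¹ = g * (g * a * g⁻¹) * g⁻¹ := by group
    rw [e, hgE, zact_pow hgE]
    have : a ^ (E * E) = a ^ (1:ℤ) := by
      rw [heq]
      exact ⟨1 + 2 * R, by rw [hE]; ring⟩
    rw [this, zpow_one]
  obtain ⟨k, hk⟩ := Subgroup.mem_zpowers_iff.1 (hsc _ (comm_of_act hgg))
  -- k is even
  have hk2 : ∃ i, k = 2 * i := by
    have h1 : g * a ^ k * g⁻¹ = a ^ k := by rw [hk]; group
    rw [zact_pow hgE, heq] at h1
    obtain ⟨c, hc1⟩ := h1
    have h2 : 4 * R * k = 4 * R * (2 * c) := by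
      rw [hE] at hc1
      linear_combination hc1
    exact ⟨c, mul_left_cancel₀ (by positivity) h2⟩
  obtain ⟨i, rfl⟩ := hk2
  -- the involution h
  obtain ⟨m, hm⟩ : ∃ m : ℤ, 8 * R ∣ E * m + 2 * i + m := by
    rcases Int.even_or_odd' i with ⟨c, rfl | rfl⟩
    · refine ⟨-(2 * c), ⟨-c, ?_⟩⟩
      rw [hE]; ring
    · by_cases hr : r = 0
      · subst hr
        have hR1 : R = 1 := by rw [hR]; norm_num
        refine ⟨-(2 * c + 1) + 2 * R, ⟨-c + R + 0, ?_⟩⟩
        rw [hE, hR1]; ring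
      · refine ⟨-(2 * c + 1) + 2 * R, ⟨-c + R, ?_⟩⟩
        rw [hE]; ring
  obtain ⟨h, hh⟩ : ∃ h, h = g * a ^ m := ⟨_, rfl⟩
  have hh2 : h * h = 1 := by
    have e : h * h = (g * a ^ m * g⁻¹) * (g * g) * a ^ m := by rw [hh]; group
    rw [e, zact_pow hgE, ← hk, ← zpow_add, ← zpow_add, hone]
    exact hm
  have hhE : h * a * h⁻¹ = a ^ E := by
    have e : h * a * h⁻¹ = g * a * g⁻¹ := by rw [hh]; group
    rw [e, hgE]
  have hhn : h ∉ Subgroup.zpowers a := by
    intro h1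
    have h2 := act_of_mem h1
    rw [hhE] at h2
    have h3 : a ^ E = a ^ (1:ℤ) := by rw [h2, zpow_one]
    rw [heq, hE] at h3
    obtain ⟨c, hc1⟩ := h3
    have h4 : 4 * R * 1 = 4 * R * (2 * c) := by linear_combination hc1
    have h5 := mul_left_cancel₀ (by positivity) h4
    omega
  obtain ⟨z, hz⟩ : ∃ z, z = a ^ (4 * R) := ⟨_, rfl⟩
  have hz2 : z * z = 1 := by
    rw [hz, ← zpow_add, hone]
    exact ⟨1, by ring⟩
  have hz1 : z ≠ 1 := by
    rw [hz, Ne, hone]
    rintro ⟨c, hc1⟩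
    have h4 : 4 * R * 1 = 4 * R * (2 * c) := by linear_combination hc1
    have h5 := mul_left_cancel₀ (by positivity) h4
    omega
  have hzmem : z ∈ Subgroup.zpowers a := by rw [hz]; exact Subgroup.zpow_mem_zpowers a _
  -- z is central
  have hzc : ∀ p, p * z * p⁻¹ = z := by
    intro p
    obtain ⟨s, hs⟩ := zact hn p
    have h1 : p * z * p⁻¹ = z ^ s := by
      rw [hz, zact_pow hs, ← zpow_mul, mul_comm]
    rcases zpow_two_cases hz2 s with h2 | h2
    · exfalso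
      rw [h2] at h1
      apply hz1
      calc z = p⁻¹ * (p * z * p⁻¹) * p := by group
        _ = 1 := by rw [h1]; group
    · rw [h1, h2]
  have hcomm : Commute h z := by
    have h1 := hzc h
    show h * z = z * h
    calc h * z = (h * z * h⁻¹) * h := by group
      _ = z * h := by rw [h1]
  -- the conjugates of h
  have hcj : ∀ p, ∃ c : ℤ, p * h * p⁻¹ = h * z ^ c := by
    intro p
    obtain ⟨s, hs⟩ := zact hn p⁻¹
    rw [inv_inv] at hs
    have h1 : (p * h * p⁻¹) * a * (p * h * p⁻¹)⁻¹ = a ^ E := by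
      have e : (p * h * p⁻¹) * a * (p * h * p⁻¹)⁻¹ = p * (h * (p⁻¹ * a * p) * h⁻¹) * p⁻¹ := by group
      rw [e, hs, zact_pow hhE, mul_comm E s, zpow_mul, ← hs, ← conj_zpow]
      group
    have h2 : (h⁻¹ * (p * h * p⁻¹)) * a * (h⁻¹ * (p * h * p⁻¹))⁻¹ = a := by
      have e : (h⁻¹ * (p * h * p⁻¹)) * a * (h⁻¹ * (p * h * p⁻¹))⁻¹ =
          h⁻¹ * ((p * h * p⁻¹) * a * (p * h * p⁻¹)⁻¹) * h := by group
      rw [e, h1, ← hhE]
      group
    obtain ⟨m', hm'⟩ := Subgroup.mem_zpowers_iff.1 (hsc _ (comm_of_act h2))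
    have h3 : p * h * p⁻¹ = h * a ^ m' := by rw [hm']; group
    have h4 : (p * h * p⁻¹) * (p * h * p⁻¹) = 1 := by
      have e : (p * h * p⁻¹) * (p * h * p⁻¹) = p * (h * h) * p⁻¹ := by group
      rw [e, hh2]; group
    have h5 : a ^ (E * m' + m') = 1 := by
      rw [← h4, h3]
      have e : h * a ^ m' * (h * a ^ m') = (h * a ^ m' * h⁻¹) * (h * h) * a ^ m' := by group
      rw [e, zact_pow hhE, hh2, mul_one, zpow_add]
    rw [hone, hE] at h5
    obtain ⟨t, ht⟩ := h5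
    have h6 : (1 + 2 * R) * m' = 4 * R * t := by linarith
    refine ⟨(1 + 2 * R) * t - (1 + R) * m', ?_⟩
    rw [h3, hz, ← zpow_mul]
    congr 2
    linear_combination (1 + 2 * R) * h6
  -- the subgroup V
  have hVn : (VV hcomm).Normal := by
    constructor
    rintro _ ⟨i', j', rfl⟩ p
    obtain ⟨c, hc1⟩ := hcj p
    refine ⟨i', c * i' + j', ?_⟩
    have e : p * (h ^ i' * z ^ j') * p⁻¹ = (p * h * p⁻¹) ^ i' * (p * z * p⁻¹) ^ j' := by
      rw [conj_zpow, conj_zpow]; group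
    rw [e, hc1, hzc, (hcomm.zpow_right c).mul_zpow, ← zpow_mul, mul_assoc, ← zpow_add]
  have hVa : ∀ x ∈ VV hcomm, ∀ y ∈ VV hcomm, x * y = y * x := by
    rintro _ ⟨i1, j1, rfl⟩ _ ⟨i2, j2, rfl⟩
    have c1 : Commute (h ^ i1 * z ^ j1) (h ^ i2 * z ^ j2) := by
      apply Commute.mul_left
      · apply Commute.mul_right
        · exact (Commute.refl h).zpow_zpow _ _
        · exact hcomm.zpow_zpow _ _
      · apply Commute.mul_right
        · exact hcomm.symm.zpow_zpow _ _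
        · exact (Commute.refl z).zpow_zpow _ _
    exact c1.eq
  have hcyc := hc _ hVn hVa
  obtain ⟨⟨v, hv⟩, hgen⟩ := hcyc.exists_generator
  have hv2 : v * v = 1 := by
    obtain ⟨i', j', rfl⟩ := hv
    have c1 : Commute (h ^ i') (z ^ j') := hcomm.zpow_zpow _ _
    have e : h ^ i' * z ^ j' * (h ^ i' * z ^ j') = (h * h) ^ i' * (z * z) ^ j' := by
      rw [← pow_two, c1.mul_pow, ← zpow_natCast, ← zpow_natCast, ← zpow_mul, ← zpow_mul,
        mul_comm i', mul_comm j', zpow_mul, zpow_mul]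
      norm_num [pow_two]
    rw [e, hh2, hz2]
    simp
  have key : ∀ y ∈ VV hcomm, y ≠ 1 → y = v := by
    intro y hy hy1
    obtain ⟨n, hn1⟩ := Subgroup.mem_zpowers_iff.1 (hgen ⟨y, hy⟩)
    have h1 : v ^ n = y := congrArg Subtype.val hn1
    rcases zpow_two_cases hv2 n with h2 | h2
    · exact absurd (h1.symm.trans h2) hy1
    · rw [← h1, h2]
  have hh1 : h ≠ 1 := fun h1 => hhn (h1 ▸ Subgroup.one_mem _)
  have k1 := key h ⟨1, 0, by simp⟩ hh1
  have k2 := key z ⟨0, 1, by simp⟩ hz1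
  rw [k1, ← k2] at hhn
  exact hhn hzmem

theorem index_two {P : Type} [Group P] [Finite P] (hP : IsPGroup 2 P)
    (hc : ∀ V : Subgroup P, V.Normal → (∀ x ∈ V, ∀ y ∈ V, x * y = y * x) → IsCyclic V) {a : P} {l : ℕ}
    (ho : orderOf a = 2 ^ l) (hn : (Subgroup.zpowers a).Normal)
    (hsc : ∀ x, x * a = a * x → x ∈ Subgroup.zpowers a) :
    (∀ x, x ∈ Subgroup.zpowers a) ∨ ∃ (g : P) (i : ℕ), g ∉ Subgroup.zpowers a ∧
      (∀ x, x ∈ Subgroup.zpowers a ∨ x * g⁻¹ ∈ Subgroup.zpowers a) ∧ g * a * g⁻¹ = a ^ i ∧ i % 4 = 3 ∧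
      2 ≤ l ∧ a ^ (i * i) = a ∧ (g * g = 1 ∨ g * g = a ^ (2 ^ (l - 1))) := by
  have hpow : ∀ m n : ℕ, a ^ m = a ^ n ↔ m ≡ n [MOD 2 ^ l] := by
    intro m n
    rw [pow_eq_pow_iff_modEq, ho]
  have hone : ∀ m : ℕ, a ^ m = 1 ↔ 2 ^ l ∣ m := by
    intro m
    rw [← ho, orderOf_dvd_iff_pow_eq_one]
  have pow_of_mem : ∀ {x : P}, x ∈ Subgroup.zpowers a → ∃ n : ℕ, x = a ^ n := by
    intro x h
    obtain ⟨n, hn⟩ := (mem_powers_iff_mem_zpowers.2 h)
    exact ⟨n, hn.symm⟩
  have act : ∀ p : P, ∃ i : ℕ, p * a * p⁻¹ = a ^ i := fun p =>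
    pow_of_mem (hn.conj_mem a (Subgroup.mem_zpowers a) p)
  have act_pow : ∀ {p : P} {i : ℕ}, p * a * p⁻¹ = a ^ i → ∀ k : ℕ, p * a ^ k * p⁻¹ = a ^ (i * k) := by
    intro p i h k
    rw [← conj_pow, h, ← pow_mul]
  have act_mul : ∀ {p q : P} {i j : ℕ}, p * a * p⁻¹ = a ^ i → q * a * q⁻¹ = a ^ j →
      (p * q) * a * (p * q)⁻¹ = a ^ (i * j) := by
    intro p q i j h h'
    have e : (p * q) * a * (p * q)⁻¹ = p * (q * a * q⁻¹) * p⁻¹ := by group
    rw [e, h', act_pow h]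
  have memi : ∀ p : P, p * a * p⁻¹ = a → p ∈ Subgroup.zpowers a := fun p h =>
    hsc _ (comm_of_act h)
  -- i = 1 mod 4
  have cl : ∀ k : ℕ, ∀ (p : P) (i : ℕ), p ^ (2 ^ k) = 1 → p * a * p⁻¹ = a ^ i → i % 4 = 1 →
      p ∈ Subgroup.zpowers a := by
    intro k
    induction k with
    | zero =>
      intro p i h _ _
      rw [pow_zero, pow_one] at h
      rw [h]
      exact Subgroup.one_mem _
    | succ k ih =>
      intro p i h1 h2 h3
      apply memi
      have h4 : p * p ∈ Subgroup.zpowers a := by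
        apply ih (p * p) (i * i)
        · rw [← pow_two, ← pow_mul, ← h1]
          congr 1
          ring
        · exact act_mul h2 h2
        · rw [Nat.mul_mod, h3]
      have h5 := act_of_mem h4
      rw [act_mul h2 h2] at h5
      have h6 : i * i ≡ 1 [MOD 2 ^ l] := by
        rw [← hpow, h5, pow_one]
      obtain ⟨t, rfl⟩ : ∃ t, i = 4 * t + 1 := ⟨i / 4, by omega⟩
      have h7 : 2 ^ l ∣ 8 * (t * (2 * t + 1)) := by
        have e : (4 * t + 1) * (4 * t + 1) = 8 * (t * (2 * t + 1)) + 1 := by ring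
        rw [e] at h6
        have := (Nat.modEq_iff_dvd' (by omega)).1 h6.symm
        simpa using this
      rw [h2]
      rcases Nat.lt_or_ge l 3 with hl | hl
      · have h8 : a ^ (4 * t) = 1 := by
          rw [hone]
          have : 2 ^ l ∣ 4 := by
            interval_cases l <;> norm_num
          exact this.mul_right t
        rw [pow_succ, h8, one_mul]
      · obtain ⟨r, rfl⟩ : ∃ r, l = r + 3 := ⟨l - 3, by omega⟩
        have h8 : 2 ^ r ∣ t * (2 * t + 1) := by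
          rw [pow_add, mul_comm] at h7
          exact Nat.dvd_of_mul_dvd_mul_left (by norm_num : 0 < 8) (by simpa using h7)
        have h9 : 2 ^ r ∣ t := by
          apply Nat.Coprime.dvd_of_dvd_mul_right _ h8
          apply Nat.Coprime.pow_left
          rw [Nat.coprime_two_left]
          exact ⟨t, rfl⟩
        obtain ⟨c, rfl⟩ := h9
        rcases Nat.even_or_odd' c with ⟨d, rfl | rfl⟩
        · have : a ^ (4 * (2 ^ r * (2 * d))) = 1 := by
            rw [hone]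
            exact ⟨d, by rw [pow_add]; ring⟩
          rw [pow_succ, this, one_mul]
        · exfalso
          apply no_mod hP hc hl ho hn hsc p
          rw [h2, hpow]
          have e : r + 3 - 1 = r + 2 := by omega
          rw [e]
          have e2 : 4 * (2 ^ r * (2 * d + 1)) + 1 = 1 + 2 ^ (r + 2) + 2 ^ (r + 3) * d := by
            rw [pow_add, pow_add]; ring
          rw [e2]
          show (1 + 2 ^ (r + 2) + 2 ^ (r + 3) * d) % 2 ^ (r + 3) = _ % 2 ^ (r + 3)
          rw [Nat.add_mul_mod_self_left]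
  have cl' : ∀ (p : P) (i : ℕ), p * a * p⁻¹ = a ^ i → i % 4 = 1 → p ∈ Subgroup.zpowers a := by
    intro p i h1 h2
    obtain ⟨k, hk⟩ := hP p
    exact cl k p i hk h1 h2
  -- i = 3 mod 4 for the other elements
  have out : ∀ p, p ∉ Subgroup.zpowers a → ∀ i : ℕ, p * a * p⁻¹ = a ^ i → i % 4 = 3 := by
    intro p hp i h1
    by_contra h3
    have hl : l ≠ 0 := by
      rintro rfl
      rw [pow_zero, orderOf_eq_one_iff] at ho
      apply hp
      apply memi
      rw [ho]; group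
    have hodd : i % 2 = 1 := by
      by_contra h4
      obtain ⟨c, rfl⟩ : ∃ c, i = 2 * c := ⟨i / 2, by omega⟩
      obtain ⟨l', rfl⟩ : ∃ l', l = l' + 1 := ⟨l - 1, by omega⟩
      have h5 : a ^ (2 ^ l') = 1 := by
        have h6 : p * a ^ (2 ^ l') * p⁻¹ = 1 := by
          rw [act_pow h1, hone]
          exact ⟨c, by rw [pow_succ]; ring⟩
        calc a ^ (2 ^ l') = p⁻¹ * (p * a ^ (2 ^ l') * p⁻¹) * p := by group
          _ = 1 := by rw [h6]; group
      rw [hone] at h5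
      have := Nat.le_of_dvd (by positivity) h5
      rw [pow_succ] at this
      have : 0 < 2 ^ l' := by positivity
      omega
    exact hp (cl' p i h1 (by omega))
  by_cases hall : ∀ x, x ∈ Subgroup.zpowers a
  · exact Or.inl hall
  right
  push Not at hall
  obtain ⟨g, hg⟩ := hall
  obtain ⟨i, hi⟩ := act g
  have hi3 := out g hg i hi
  have hgg : g * g ∈ Subgroup.zpowers a := by
    apply cl' (g * g) (i * i) (act_mul hi hi)
    rw [Nat.mul_mod, hi3]
  have hii : a ^ (i * i) = a := by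
    have := act_of_mem hgg
    rw [act_mul hi hi] at this
    exact this
  have hl2 : 2 ≤ l := by
    by_contra hlt
    apply hg
    apply memi
    rw [hi]
    have h1 : a ^ 2 = 1 := by
      rw [hone]
      interval_cases l
      · norm_num
      · norm_num
    obtain ⟨t, rfl⟩ : ∃ t, i = 2 * t + 1 := ⟨i / 2, by omega⟩
    rw [pow_succ, pow_mul, h1, one_pow, one_mul]
  refine ⟨g, i, hg, ?_, hi, hi3, hl2, hii, ?_⟩
  · intro x
    by_cases hx : x ∈ Subgroup.zpowers a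
    · exact Or.inl hx
    right
    obtain ⟨j, hj⟩ := act x
    have hj3 := out x hx j hj
    have h1 : g⁻¹ * a * (g⁻¹)⁻¹ = a ^ i := by
      have h2 : g * a ^ i * g⁻¹ = a := by rw [act_pow hi, hii]
      calc g⁻¹ * a * (g⁻¹)⁻¹ = g⁻¹ * (g * a ^ i * g⁻¹) * g := by rw [h2, inv_inv]
        _ = a ^ i := by group
    apply cl' (x * g⁻¹) (j * i) (act_mul hj h1)
    rw [Nat.mul_mod, hj3, hi3]
  · obtain ⟨d, hd⟩ := pow_of_mem hgg
    have h1 : g * a ^ d * g⁻¹ = a ^ d := by rw [← hd]; group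
    rw [act_pow hi, hpow] at h1
    obtain ⟨t, rfl⟩ : ∃ t, i = 4 * t + 3 := ⟨i / 4, by omega⟩
    obtain ⟨l', rfl⟩ : ∃ l', l = l' + 1 := ⟨l - 1, by omega⟩
    have h2 : 2 ^ (l' + 1) ∣ 2 * ((2 * t + 1) * d) := by
      have e : (4 * t + 3) * d = 2 * ((2 * t + 1) * d) + d := by ring
      rw [e] at h1
      have := (Nat.modEq_iff_dvd' (by omega)).1 h1.symm
      simpa using this
    have h3 : 2 ^ l' ∣ (2 * t + 1) * d := by
      rw [pow_succ, mul_comm] at h2
      exact Nat.dvd_of_mul_dvd_mul_left (by norm_num : 0 < 2) h2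
    have h4 : 2 ^ l' ∣ d := by
      apply Nat.Coprime.dvd_of_dvd_mul_left _ h3
      apply Nat.Coprime.pow_left
      rw [Nat.coprime_two_left]
      exact ⟨t, rfl⟩
    obtain ⟨c, rfl⟩ := h4
    rw [hd, Nat.add_sub_cancel]
    rcases Nat.even_or_odd' c with ⟨e, rfl | rfl⟩
    · left
      rw [hone]
      exact ⟨e, by rw [pow_succ]; ring⟩
    · right
      rw [hpow]
      have e2 : 2 ^ l' * (2 * e + 1) = 2 ^ l' + 2 ^ (l' + 1) * e := by
        rw [pow_succ]; ring
      rw [e2]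
      show (2 ^ l' + 2 ^ (l' + 1) * e) % 2 ^ (l' + 1) = _ % 2 ^ (l' + 1)
      rw [Nat.add_mul_mod_self_left]

end

end LieP
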