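import Pool.Agent.LieP.Defs2
import Pool.Agent.ParkerGL.QDefs
import Pool.Agent.ParkerGL.D03
import Pool.Agent.ParkerGL.D04
import Pool.Agent.Parker.P15

/-!
# MP_6c3636_al, LieP, module B03: representations over the fixed field with odd multiplicity (helper7)

`OddRep K Ω G φ`: `φ` has odd multiplicity in a representation of `G` over `K`. `oddRep_cut`: apply the central idempotent of `φ` (its coefficients are in the fixed field; `ParkerGL.eK` has a hypothesis `Rl` with `du φ = φ`, which is not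
available here: redo it, the part of `T` given by the idempotent has the character `m φ`). `oddRep_ind`: cut to the character `m ψ`, `m` odd, and induce (Mathlib `Representation.ind`, or functions as in ParkerGL D04, or the
coinduced module `{f : G → X | f (p g) = ρ(p) f(g)}`); by Frobenius reciprocity the multiplicity of `φ` is `m * mul (φ|P) ψ`. `oddRep_pb`: pull back along a surjective homomorphism. `oddRep_twist`: tensor with a linear character with fixed values.
-/

namespace LieP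

noncomputable section

open Classical


namespace B03_aux

section Cut

variable {Ω : Type} [Field Ω] [IsAlgClosed Ω] [CharZero Ω] {Γ : Subgroup (RingAut Ω)} {K : Type} [Field K]
  [CharZero K] [Algebra K Ω] {G : Type} [Group G] [Finite G]

theorem exists_e (hK : ParkerGL.FixedField Γ K) {φ : G → Ω}
    (hf : ∀ g, Parker.Fx Γ (φ g)) :
    ∃ e : G → K, ∀ g, algebraMap K Ω (e g) = Parker.es φ g := by
  have h1 : ∀ g, ∃ y : K, algebraMap K Ω y = Parker.es φ g := by
    intro g
    refine (hK _).1 ?_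
    unfold Parker.es
    exact Parker.fx_mul (Parker.fx_mul (hf 1) (Parker.fx_inv (Parker.fx_natCast Γ _))) (hf _)
  choose e he using h1
  exact ⟨e, he⟩

theorem e_conv {φ : G → Ω} (hφ : φ ∈ Parker.irr Ω G) {e : G → K}
    (he : ∀ g, algebraMap K Ω (e g) = Parker.es φ g) : Parker.conv e e = e := by
  let _ := Fintype.ofFinite G
  funext g
  apply (algebraMap K Ω).injective
  have h0 : Parker.conv e e g = ∑ x, e x * e (x⁻¹ * g) := rfl
  rw [h0, map_sum, he]
  have h1 : ∀ x : G, algebraMap K Ω (e x * e (x⁻¹ * g)) =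
      φ 1 * (Nat.card G : Ω)⁻¹ * (Parker.es φ x * φ (g⁻¹ * x)) := by
    intro x
    rw [map_mul, he, he]
    have e : Parker.es φ (x⁻¹ * g) = φ 1 * (Nat.card G : Ω)⁻¹ * φ (g⁻¹ * x) := by
      unfold Parker.es
      rw [mul_inv_rev, inv_inv]
    rw [e]
    ring
  rw [Finset.sum_congr rfl fun x _ => h1 x, ← Finset.mul_sum, ParkerGL.D03_aux.es_sum hφ]
  rfl

theorem trace_E {X : Type} [AddCommGroup X] [Module K X] [FiniteDimensional K X]
    (ρ : Representation K G X) {φ : G → Ω} (hφ : φ ∈ Parker.irr Ω G) {e : G → K}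
    (he : ∀ g, algebraMap K Ω (e g) = Parker.es φ g) (g : G) :
    algebraMap K Ω (LinearMap.trace K X (ρ g * Parker.act ρ e)) =
      Parker.mul (fun g => algebraMap K Ω (ρ.character g)) φ * φ g := by
  let _ := Fintype.ofFinite G
  obtain ⟨τ, hτ, -, -⟩ := ParkerGL.base_change (Ω := Ω) ρ
  have hτ' : τ.character = fun g => algebraMap K Ω (ρ.character g) := funext hτ
  have h1 := Parker.idem_trace τ hφ g
  rw [Parker.P15_aux.trace_rho_act, hτ'] at h1
  rw [← h1, Parker.P15_aux.trace_rho_act, map_sum]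
  refine Finset.sum_congr rfl fun x _ => ?_
  rw [map_mul, he]

end Cut

section Ind

variable {K : Type} [Field K] [CharZero K] {G : Type} [Group G] [Finite G] {P : Subgroup G}
  {X : Type} [AddCommGroup X] [Module K X] [FiniteDimensional K X]

/-- the space of the induced module -/
def indS (ρ : Representation K P X) : Submodule K (G → X) where
  carrier := {f | ∀ (p : P) (g : G), f (p * g) = ρ p (f g)}
  add_mem' := by
    intro f f' hf hf' p g
    rw [Pi.add_apply, Pi.add_apply, hf, hf', map_add]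
  zero_mem' := by
    intro p g
    rw [Pi.zero_apply, Pi.zero_apply, map_zero]
  smul_mem' := by
    intro a f hf p g
    rw [Pi.smul_apply, Pi.smul_apply, hf, map_smul]

/-- the induced representation -/
def indR (ρ : Representation K P X) : Representation K G (indS ρ) where
  toFun := fun x =>
    { toFun := fun f => ⟨fun g => f.1 (g * x), fun p g => by
        show f.1 ((p : G) * g * x) = ρ p (f.1 (g * x))
        rw [mul_assoc, f.2]⟩
      map_add' := fun _ _ => rfl
      map_smul' := fun _ _ => rfl }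
  map_one' := by
    ext f g
    show f.1 (g * 1) = f.1 g
    rw [mul_one]
  map_mul' := by
    intro x y
    ext f g
    show f.1 (g * (x * y)) = f.1 (g * x * y)
    rw [mul_assoc]

open ParkerGL.D04_aux (pc pc_mul mk_mul_inv pc_out mk_out pc_spec sum_const_ge trace_pi)

/-- the space of the induced module is the space of the functions on `G ⧸ P` -/
def ev (ρ : Representation K P X) : indS ρ ≃ₗ[K] (G ⧸ P → X) where
  toFun f q := f.1 (q.out)⁻¹
  map_add' _ _ := rfl
  map_smul' _ _ := rfl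
  invFun h := ⟨fun g => ρ (pc P g) (h (QuotientGroup.mk g⁻¹)), by
    intro p g
    show ρ (pc P (p * g)) (h (QuotientGroup.mk ((p : G) * g)⁻¹)) =
      ρ p (ρ (pc P g) (h (QuotientGroup.mk g⁻¹)))
    rw [pc_mul, mk_mul_inv, map_mul]
    rfl⟩
  left_inv f := by
    apply Subtype.ext
    funext g
    show ρ (pc P g) (f.1 ((QuotientGroup.mk g⁻¹ : G ⧸ P).out)⁻¹) = f.1 g
    rw [← f.2 (pc P g), pc_spec]
  right_inv h := by
    funext q
    show ρ (pc P (q.out)⁻¹) (h (QuotientGroup.mk ((q.out)⁻¹)⁻¹)) = h q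
    rw [pc_out, mk_out, map_one]
    rfl

/-- the values of the character of `ρ`, extended by zero -/
def cx (ρ : Representation K P X) (g : G) : K := if h : g ∈ P then ρ.character ⟨g, h⟩ else 0

theorem cx_conj (ρ : Representation K P X) (p : P) (g : G) :
    cx ρ ((p : G) * g * (p : G)⁻¹) = cx ρ g := by
  unfold cx
  by_cases h : g ∈ P
  · have h' : (p : G) * g * (p : G)⁻¹ ∈ P := P.mul_mem (P.mul_mem p.2 h) (P.inv_mem p.2)
    rw [dif_pos h, dif_pos h']
    have h1 : (⟨(p : G) * g * (p : G)⁻¹, h'⟩ : P) = p * ⟨g, h⟩ * p⁻¹ := rfl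
    rw [h1, Representation.char_conj]
  · have h' : (p : G) * g * (p : G)⁻¹ ∉ P := by
      intro h1
      apply h
      have h2 := P.mul_mem (P.mul_mem (P.inv_mem p.2) h1) p.2
      have h3 : (p : G)⁻¹ * ((p : G) * g * (p : G)⁻¹) * p = g := by group
      rwa [h3] at h2
    rw [dif_neg h, dif_neg h']

theorem ind_ev (ρ : Representation K P X) (x : G) (h : G ⧸ P → X) (q : G ⧸ P) :
    ev ρ (indR ρ x ((ev ρ).symm h)) q =
      ρ (pc P ((q.out)⁻¹ * x)) (h (QuotientGroup.mk ((q.out)⁻¹ * x)⁻¹)) := rfl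

theorem char_ev [Fintype (G ⧸ P)] (ρ : Representation K P X) (x : G) :
    (indR ρ).character x = ∑ q : G ⧸ P, cx ρ ((q.out)⁻¹ * x * q.out) := by
  show LinearMap.trace K (indS ρ) (indR ρ x) = _
  rw [← LinearMap.trace_conj' (indR ρ x) (ev ρ), trace_pi]
  refine Finset.sum_congr rfl fun q _ => ?_
  have hin : (q.out)⁻¹ * x * q.out ∈ P ↔
      (QuotientGroup.mk ((q.out)⁻¹ * x)⁻¹ : G ⧸ P) = q := by
    conv_rhs => rhs; rw [← q.out_eq]
    have h1 : (QuotientGroup.mk ((q.out)⁻¹ * x)⁻¹ : G ⧸ P) = QuotientGroup.mk q.out ↔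
        (((q.out)⁻¹ * x)⁻¹)⁻¹ * q.out ∈ P := QuotientGroup.eq
    rw [inv_inv] at h1
    exact h1.symm
  by_cases h : (q.out)⁻¹ * x * q.out ∈ P
  · have hq := hin.1 h
    unfold cx
    rw [dif_pos h]
    show _ = LinearMap.trace K X (ρ ⟨(q.out)⁻¹ * x * q.out, h⟩)
    refine congrArg (LinearMap.trace K X) ?_
    apply LinearMap.ext
    intro v
    rw [LinearMap.comp_apply, LinearMap.comp_apply, LinearEquiv.conj_apply_apply]
    rw [LinearMap.proj_apply, ind_ev, LinearMap.single_apply]
    have h2 : pc P ((q.out)⁻¹ * x) = ⟨(q.out)⁻¹ * x * q.out, h⟩ := by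
      apply Subtype.ext
      show (q.out)⁻¹ * x * (QuotientGroup.mk ((q.out)⁻¹ * x)⁻¹ : G ⧸ P).out = _
      rw [hq]
    rw [h2, hq, Pi.single_eq_same]
  · have hq : (QuotientGroup.mk ((q.out)⁻¹ * x)⁻¹ : G ⧸ P) ≠ q := fun h1 => h (hin.2 h1)
    unfold cx
    rw [dif_neg h]
    refine (congrArg (LinearMap.trace K X) (?_ : _ = (0 : X →ₗ[K] X))).trans (map_zero _)
    apply LinearMap.ext
    intro v
    rw [LinearMap.comp_apply, LinearMap.comp_apply, LinearEquiv.conj_apply_apply]
    rw [LinearMap.proj_apply, ind_ev, LinearMap.single_apply, Pi.single_eq_of_ne hq, map_zero]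
    rfl

theorem ind_char [Fintype G] (ρ : Representation K P X) (x : G) :
    (indR ρ).character x = (Nat.card P : K)⁻¹ * ∑ g : G, cx ρ (g * x * g⁻¹) := by
  have := Fintype.ofFinite (G ⧸ P)
  have h1 := sum_const_ge (P := P) (K := K) (fun g => cx ρ (g * x * g⁻¹)) (by
    intro p g
    have h2 : (p : G) * g * x * ((p : G) * g)⁻¹ = (p : G) * (g * x * g⁻¹) * (p : G)⁻¹ := by group
    show cx ρ ((p : G) * g * x * ((p : G) * g)⁻¹) = _
    rw [h2, cx_conj])
  rw [char_ev, h1]
  refine Finset.sum_congr rfl fun q _ => ?_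
  rw [inv_inv]

/-- Frobenius reciprocity -/
theorem ind_ip {Ω : Type} [Field Ω] [Algebra K Ω] [CharZero Ω] [IsAlgClosed Ω]
    (ρ : Representation K P X) {φ : G → Ω}
    (hφ : ∀ g x, φ (g * x * g⁻¹) = φ x) :
    Parker.ip (fun g => algebraMap K Ω ((indR ρ).character g)) φ =
      Parker.ip (fun p => algebraMap K Ω (ρ.character p)) (fun p : P => φ p) := by
  have := Fintype.ofFinite G
  have := Fintype.ofFinite P
  have hG : (Nat.card G : Ω) ≠ 0 := Nat.cast_ne_zero.2 Nat.card_pos.ne'
  rw [Parker.ip_eq, Parker.ip_eq]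
  have h1 : ∀ x : G, algebraMap K Ω ((indR ρ).character x) =
      (Nat.card P : Ω)⁻¹ * ∑ g : G, algebraMap K Ω (cx ρ (g * x * g⁻¹)) := by
    intro x
    rw [ind_char, map_mul, map_inv₀, map_natCast, map_sum]
  have h2 : ∑ x : G, algebraMap K Ω ((indR ρ).character x) * φ x⁻¹ =
      (Nat.card P : Ω)⁻¹ * ∑ g : G, ∑ x : G, algebraMap K Ω (cx ρ (g * x * g⁻¹)) * φ x⁻¹ := by
    simp only [h1]
    rw [Finset.sum_comm, Finset.mul_sum]
    refine Finset.sum_congr rfl fun x _ => ?_
    rw [mul_assoc, Finset.sum_mul]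
  have h3 : ∀ g : G, ∑ x : G, algebraMap K Ω (cx ρ (g * x * g⁻¹)) * φ x⁻¹ =
      ∑ x : G, algebraMap K Ω (cx ρ x) * φ x⁻¹ := by
    intro g
    rw [← Equiv.sum_comp (MulAut.conj g).toEquiv (fun x => algebraMap K Ω (cx ρ x) * φ x⁻¹)]
    refine Finset.sum_congr rfl fun x _ => ?_
    show _ = algebraMap K Ω (cx ρ (g * x * g⁻¹)) * φ (g * x * g⁻¹)⁻¹
    have h4 : (g * x * g⁻¹)⁻¹ = g * x⁻¹ * g⁻¹ := by group
    rw [h4, hφ]
  have h5 : ∑ x : G, algebraMap K Ω (cx ρ x) * φ x⁻¹ =
      ∑ p : P, algebraMap K Ω (ρ.character p) * φ ((p⁻¹ : P) : G) := by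
    have h6 : ∀ x : G, algebraMap K Ω (cx ρ x) * φ x⁻¹ =
        if x ∈ P then algebraMap K Ω (cx ρ x) * φ x⁻¹ else 0 := by
      intro x
      by_cases h : x ∈ P
      · rw [if_pos h]
      · rw [if_neg h]
        unfold cx
        rw [dif_neg h, map_zero, zero_mul]
    rw [Finset.sum_congr rfl fun x _ => h6 x, ← Finset.sum_filter]
    symm
    refine Finset.sum_bij (fun p _ => (p : G)) ?_ ?_ ?_ ?_
    · intro p _
      simp
    · intro p _ p' _ h
      exact Subtype.ext h
    · intro g hg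
      exact ⟨⟨g, by simpa using hg⟩, Finset.mem_univ _, rfl⟩
    · intro p _
      have h7 : cx ρ (p : G) = ρ.character p := dif_pos p.2
      rw [h7]
      rfl
  rw [h2]
  simp only [h3]
  rw [Finset.sum_const, Finset.card_univ, nsmul_eq_mul, ← Nat.card_eq_fintype_card, h5]
  have h8 : (Nat.card G : Ω)⁻¹ * ((Nat.card P : Ω)⁻¹ * ((Nat.card G : Ω) *
      ∑ p : P, algebraMap K Ω (ρ.character p) * φ ((p⁻¹ : P) : G))) =
      (Nat.card P : Ω)⁻¹ * ∑ p : P, algebraMap K Ω (ρ.character p) * φ ((p⁻¹ : P) : G) := by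
    field_simp
  exact h8

end Ind

section PB

variable {Ω : Type} [Field Ω] [CharZero Ω] {G H : Type} [Group G] [Finite G] [Group H] [Finite H]

theorem mul_congr {G' : Type} [Group G'] [Finite G'] {χ φ : G → Ω} {χ' φ' : G' → Ω}
    (h : Parker.ip χ φ = Parker.ip χ' φ') : Parker.mul χ φ = Parker.mul χ' φ' := by
  unfold Parker.mul
  rw [h]

theorem ip_pb {f : G →* H} (hf : Function.Surjective f) (χ ψ : H → Ω) :
    Parker.ip (fun g => χ (f g)) (fun g => ψ (f g)) = Parker.ip χ ψ := by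
  have := Fintype.ofFinite G
  have := Fintype.ofFinite H
  have hG : (Nat.card G : Ω) ≠ 0 := Nat.cast_ne_zero.2 Nat.card_pos.ne'
  have hH : (Nat.card H : Ω) ≠ 0 := Nat.cast_ne_zero.2 Nat.card_pos.ne'
  rw [Parker.ip_eq, Parker.ip_eq]
  set c := (Finset.univ.filter (fun g : G => f g = 1)).card with hc
  have h0 : ∀ y : H, (Finset.univ.filter (fun g : G => f g = y)).card = c := by
    intro y
    exact MonoidHom.card_fiber_eq_of_mem_range f (hf y) (hf 1)
  have h1 : ∀ F : H → Ω, ∑ g : G, F (f g) = (c : Ω) * ∑ y : H, F y := by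
    intro F
    rw [← Finset.sum_fiberwise (s := (Finset.univ : Finset G)) (g := fun g => f g)
      (f := fun g => F (f g)), Finset.mul_sum]
    refine Finset.sum_congr rfl fun y _ => ?_
    rw [← h0 y, Finset.sum_congr rfl (g := fun _ => F y)
      (fun g hg => by rw [(Finset.mem_filter.1 hg).2]), Finset.sum_const, nsmul_eq_mul]
  have h2 : (Nat.card G : Ω) = c * Nat.card H := by
    have := h1 (fun _ => 1)
    rw [Finset.sum_const, Finset.sum_const, Finset.card_univ, Finset.card_univ, nsmul_eq_mul,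
      nsmul_eq_mul, mul_one, mul_one] at this
    rw [Nat.card_eq_fintype_card, Nat.card_eq_fintype_card]
    exact this
  have hc0 : (c : Ω) ≠ 0 := by
    intro h
    rw [h, zero_mul] at h2
    exact hG h2
  have h3 : ∑ g : G, χ (f g) * ψ (f g⁻¹) = (c : Ω) * ∑ y : H, χ y * ψ y⁻¹ := by
    rw [← h1 (fun y => χ y * ψ y⁻¹)]
    refine Finset.sum_congr rfl fun g _ => ?_
    rw [map_inv]
  rw [h3, h2]
  field_simp

theorem ip_twist (l : G →* Ωˣ) (χ ψ : G → Ω) :
    Parker.ip (fun g => ((l g : Ωˣ) : Ω) * χ g) (fun g => ((l g : Ωˣ) : Ω) * ψ g) =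
      Parker.ip χ ψ := by
  have := Fintype.ofFinite G
  rw [Parker.ip_eq, Parker.ip_eq]
  congr 1
  refine Finset.sum_congr rfl fun g _ => ?_
  have h1 : ((l g : Ωˣ) : Ω) * ((l g⁻¹ : Ωˣ) : Ω) = 1 := by
    rw [← Units.val_mul, ← map_mul, mul_inv_cancel, map_one, Units.val_one]
  calc ((l g : Ωˣ) : Ω) * χ g * (((l g⁻¹ : Ωˣ) : Ω) * ψ g⁻¹) =
      (((l g : Ωˣ) : Ω) * ((l g⁻¹ : Ωˣ) : Ω)) * (χ g * ψ g⁻¹) := by ring
    _ = _ := by rw [h1, one_mul]

end PB

end B03_aux

open B03_aux

section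

variable {Ω : Type} [Field Ω] [IsAlgClosed Ω] [CharZero Ω] {Γ : Subgroup (RingAut Ω)} {K : Type} [Field K]
  [CharZero K] [Algebra K Ω] {G : Type} [Group G] [Finite G]

variable (K) in
/-- `φ` has odd multiplicity in a representation over `K` -/
def OddRep (φ : G → Ω) : Prop :=
  ∃ (X : Type) (_ : AddCommGroup X) (_ : Module K X) (_ : FiniteDimensional K X)
    (ρ : Representation K G X), Odd (Parker.mul (fun g => algebraMap K Ω (ρ.character g)) φ)

theorem oddRep_cut (hK : ParkerGL.FixedField Γ K) {φ : G → Ω} (hφ : φ ∈ Parker.irr Ω G)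
    (hf : ∀ g, Parker.Fx Γ (φ g)) (h : OddRep K φ) :
    ∃ (X : Type) (_ : AddCommGroup X) (_ : Module K X) (_ : FiniteDimensional K X)
      (ρ : Representation K G X) (m : ℕ), Odd m ∧ ∀ g, algebraMap K Ω (ρ.character g) = m * φ g := by
  obtain ⟨X, _, _, _, ρ, hm⟩ := h
  obtain ⟨e, he⟩ := exists_e hK hf
  have hidem : Parker.act ρ e * Parker.act ρ e = Parker.act ρ e := by
    rw [← Parker.act_conv, e_conv hφ he]
  have hcomm : ∀ g, ρ g * Parker.act ρ e = Parker.act ρ e * ρ g := by
    intro g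
    refine Parker.P15_aux.act_comm ρ fun x => ?_
    apply (algebraMap K Ω).injective
    rw [he, he]
    exact Parker.P15_aux.es_class hφ g x
  have hst : ∀ g, ∀ x ∈ LinearMap.range (Parker.act ρ e), ρ g x ∈ LinearMap.range (Parker.act ρ e) := by
    rintro g _ ⟨x, rfl⟩
    exact ⟨ρ g x, (congrArg (fun T : Module.End K X => T x) (hcomm g)).symm⟩
  let ρ' : Representation K G (LinearMap.range (Parker.act ρ e)) :=
    { toFun := fun g => (ρ g).restrict (hst g)
      map_one' := by
        ext x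
        show ρ 1 (x : X) = x
        rw [map_one]
        rfl
      map_mul' := by
        intro g h
        ext x
        show ρ (g * h) (x : X) = ρ g (ρ h (x : X))
        rw [map_mul]
        rfl }
  refine ⟨LinearMap.range (Parker.act ρ e), inferInstance, inferInstance, inferInstance, ρ', _, hm,
    fun g => ?_⟩
  rw [← trace_E ρ hφ he g]
  show algebraMap K Ω (LinearMap.trace K (LinearMap.range (Parker.act ρ e))
    ((ρ g).restrict (hst g))) = _
  congr 1
  refine ParkerGL.D03_aux.trace_sub _ (fun x => ?_) ?_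
  · rw [hcomm]
    exact ⟨ρ g x, rfl⟩
  · rintro _ ⟨x, rfl⟩
    exact congrArg (fun T : Module.End K X => T x) hidem

theorem oddRep_ind (hK : ParkerGL.FixedField Γ K) {φ : G → Ω} (hφ : φ ∈ Parker.irr Ω G)
    {P : Subgroup G} {ψ : P → Ω} (hψ : ψ ∈ Parker.irr Ω P) (hf : ∀ g, Parker.Fx Γ (ψ g))
    (hm : Odd (Parker.mul (fun p : P => φ p) ψ)) (h : OddRep K ψ) : OddRep K φ := by
  obtain ⟨X, _, _, _, ρ, m, hodd, hch⟩ := oddRep_cut hK hψ hf h
  have : FiniteDimensional K (indS ρ) := inferInstance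
  refine ⟨indS ρ, inferInstance, inferInstance, inferInstance, indR ρ, ?_⟩
  obtain ⟨n, τ, hτ, rfl⟩ := Parker.mem_irr.1 hφ
  obtain ⟨σ, hσ, -, -⟩ := ParkerGL.base_change (Ω := Ω) (indR ρ)
  have hσ' : σ.character = fun g => algebraMap K Ω ((indR ρ).character g) := funext hσ
  have h1 := Parker.mul_spec σ hφ
  have h2 := ind_ip ρ (φ := τ.character) (fun g x => τ.char_conj x g)
  have h3 := Parker.mul_spec (Parker.rs P τ) hψ
  have h4 : (Parker.rs P τ).character = fun p : P => τ.character p := rfl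
  rw [h4] at h3
  have h5 : (fun p : P => algebraMap K Ω (ρ.character p)) = (m : Ω) • ψ := by
    funext p
    rw [hch p]
    rfl
  rw [h5, Parker.ip_smul_left, Parker.ip_comm ψ, ← h3, ← hσ', ← h1, ← Nat.cast_mul] at h2
  have h6 := Nat.cast_injective h2
  rw [← hσ', h6]
  exact hodd.mul hm

theorem oddRep_pb {H : Type} [Group H] [Finite H] {f : G →* H} (hf : Function.Surjective f) {ψ : H → Ω}
    (hψ : ψ ∈ Parker.irr Ω H) (h : OddRep K ψ) : OddRep K (fun g => ψ (f g)) := by
  obtain ⟨X, _, _, _, ρ, hm⟩ := h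
  refine ⟨X, inferInstance, inferInstance, inferInstance, MonoidHom.comp ρ f, ?_⟩
  have h1 := mul_congr (ip_pb hf (fun y => algebraMap K Ω (ρ.character y)) ψ)
  rw [← h1] at hm
  exact hm

theorem oddRep_twist (hK : ParkerGL.FixedField Γ K) {φ : G → Ω} (hφ : φ ∈ Parker.irr Ω G) (l : G →* Ωˣ)
    (hl : ∀ g, Parker.Fx Γ ((l g : Ωˣ) : Ω)) (h : OddRep K φ) :
    OddRep K (fun g => ((l g : Ωˣ) : Ω) * φ g) := by
  obtain ⟨X, _, _, _, ρ, hm⟩ := h
  have h1 : ∀ g, ∃ y : K, algebraMap K Ω y = ((l g : Ωˣ) : Ω) := fun g => (hK _).1 (hl g)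
  choose k hk using h1
  have hk1 : k 1 = 1 := by
    apply (algebraMap K Ω).injective
    rw [hk, map_one, map_one, Units.val_one]
  have hkm : ∀ x y, k (x * y) = k x * k y := by
    intro x y
    apply (algebraMap K Ω).injective
    rw [hk, map_mul, map_mul, hk, hk, Units.val_mul]
  let ρ' : Representation K G X :=
    { toFun := fun g => k g • ρ g
      map_one' := by rw [hk1, map_one, one_smul]
      map_mul' := by
        intro x y
        rw [hkm, map_mul, smul_mul_smul_comm] }
  refine ⟨X, inferInstance, inferInstance, inferInstance, ρ', ?_⟩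
  have h2 : (fun g => algebraMap K Ω (ρ'.character g)) =
      fun g => ((l g : Ωˣ) : Ω) * algebraMap K Ω (ρ.character g) := by
    funext g
    have h3 : ρ'.character g = k g * ρ.character g := by
      show LinearMap.trace K X (k g • ρ g) = _
      rw [map_smul, smul_eq_mul]
      rfl
    rw [h3, map_mul, hk]
  rw [h2, mul_congr (ip_twist l (fun g => algebraMap K Ω (ρ.character g)) φ)]
  exact hm

end

end

end LieP
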