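import Pool.Agent.LieP.B03
import Pool.Agent.Parker.P17

/-!
# MP_6c3636_al, LieP, module B04: two-groups: the minimal case, Clifford theory (helper7)

Section 13, (13.2). `θ ∈ irr P` with fixed values; `hmin`: no fixed irreducible character of a proper subgroup has odd multiplicity in the restriction of `θ`. `A` abelian normal, `lam : A → Ω` the character of a linear constituent of `θ|A`.
`I = {g : ∃ σ ∈ Γ, ∀ a ∈ A, lam (g a g⁻¹) = σ (lam a)}` is a subgroup (both actions permute the linear characters of `A` and commute) and contains the stabilizer of `lam`. By Clifford theory `θ|I` has exactly one irreducible constituent `θ'` whose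
restriction to `A` contains `lam`, with multiplicity one (the `lam`-isotypic part of `θ|A` is an irreducible module of the stabilizer `T`, `θ' = Ind_T^I` of it, `θ = Ind_I^P θ'`; Mackey / the isotypic parts for the `P`-conjugates of `lam`
are permuted; the sum over the `I`-orbit is an `I`-submodule, irreducible since an `I`-submodule is determined by its `lam`-part, a `T`-submodule). It is fixed by `Γ`: `σ θ'` is a constituent of `θ|I` over `σ lam`, and `σ lam` is a constituent of `θ|A`, so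
`σ lam = lam^g`, `g ∈ P` (all constituents of `θ|A` are conjugate), `g ∈ I`, so `σ θ'` lies over `lam` too. By `hmin` `I = P`.
`lam_faithful`: if `θ` is faithful (`θ g = θ 1 → g = 1`) then `lam` is injective: its kernel is contained in the kernels of all conjugates.
(Formal proof, helper74: the block idempotent of the `Γ`-orbit of `lam` is rational, so its character is fixed.)
-/

namespace LieP

noncomputable section

open Classical


section

variable {Ω : Type} [Field Ω] [IsAlgClosed Ω] [CharZero Ω] {Γ : Subgroup (RingAut Ω)} {P : Type} [Group P]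
  [Finite P]

namespace B04_aux

open Parker

/-- linear characters are irreducible -/
theorem lin_irr {A : Type} [Group A] [Finite A] (l : A →* Ωˣ) :
    (fun a => ((l a : Ωˣ) : Ω)) ∈ Parker.irr Ω A := by
  let ρ : Representation Ω A (Fin 1 → Ω) :=
    { toFun := fun g => ((l g : Ωˣ) : Ω) • 1
      map_one' := by rw [map_one, Units.val_one, one_smul]
      map_mul' := fun x y => by
        rw [map_mul, Units.val_mul, smul_mul_smul_comm, one_mul] }
  have hfr : Module.finrank Ω (Fin 1 → Ω) = 1 := by simp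
  have hc : ρ.character = fun g => ((l g : Ωˣ) : Ω) := by
    funext g
    show LinearMap.trace Ω _ (((l g : Ωˣ) : Ω) • (1 : Module.End Ω (Fin 1 → Ω))) = _
    rw [map_smul, LinearMap.trace_one, hfr, smul_eq_mul, Nat.cast_one, mul_one]
  have hirr : ρ.IsIrreducible := by
    refine irr_of_sub (by rw [hfr]; exact one_pos) fun U _ => ?_
    by_cases h : U = ⊥
    · exact Or.inl h
    · right
      apply Submodule.eq_top_of_finrank_eq
      have h1 : Module.finrank Ω U ≠ 0 := by
        rw [ne_eq, Submodule.finrank_eq_zero]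
        exact h
      have h2 := Submodule.finrank_le U
      omega
  rw [← hc]
  exact mem_irr.2 (mem_irrSet hirr)

/-- irreducible characters of commutative groups are linear -/
theorem irr_lin {A : Type} [Group A] [Finite A] (hA : ∀ x y : A, x * y = y * x) {φ : A → Ω}
    (hφ : φ ∈ Parker.irr Ω A) : ∃ l : A →* Ωˣ, φ = fun a => ((l a : Ωˣ) : Ω) := by
  obtain ⟨n, r, hr, rfl⟩ := mem_irr.1 hφ
  have h : ∀ x : A, ∃ a : Ω, r x = a • 1 := by
    intro x
    apply schur hr
    intro g
    rw [← map_mul, ← map_mul, hA]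
  choose a ha using h
  have hpos := irr_pos hr
  obtain ⟨v, hv⟩ := Module.finrank_pos_iff_exists_ne_zero.1 hpos
  have hspan : Submodule.span Ω {v} = ⊤ := by
    rcases irr_sub hr (U := Submodule.span Ω {v}) (fun g x hx => by
      rw [ha g, LinearMap.smul_apply, Module.End.one_apply]
      exact Submodule.smul_mem _ _ hx) with h1 | h1
    · exact absurd (Submodule.span_singleton_eq_bot.1 h1) hv
    · exact h1
  have hfr : Module.finrank Ω (Fin n → Ω) = 1 := by
    have h1 := finrank_span_singleton (K := Ω) hv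
    rw [hspan, finrank_top] at h1
    exact h1
  have hinj : ∀ x y : Ω, x • (1 : Module.End Ω (Fin n → Ω)) = y • 1 → x = y := by
    intro x y hxy
    have h1 := congrArg (fun f : Module.End Ω (Fin n → Ω) => f v) hxy
    simp only [LinearMap.smul_apply, Module.End.one_apply] at h1
    exact smul_left_injective Ω hv h1
  let f : A →* Ω :=
    { toFun := a
      map_one' := hinj _ _ (by rw [← ha 1, map_one, one_smul])
      map_mul' := fun x y => hinj _ _ (by
        rw [← ha (x * y), map_mul, ha x, ha y, smul_mul_smul_comm, one_mul]) }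
  refine ⟨f.toHomUnits, ?_⟩
  funext x
  show LinearMap.trace Ω _ (r x) = _
  rw [ha x, map_smul, LinearMap.trace_one, hfr, smul_eq_mul, Nat.cast_one, mul_one]
  rfl

/-- the restriction of an irreducible representation to a block has multiplicity one -/
theorem mul_blk {G : Type} [Group G] [Finite G] {V : Type} [AddCommGroup V] [Module Ω V]
    [FiniteDimensional Ω V] {ρ : Representation Ω G V} {N H : Subgroup G} [N.Normal] (hNH : N ≤ H)
    {O : Finset (N → Ω)} (hρ : ρ.IsIrreducible)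
    (h : Blk ρ H (∑ φ ∈ O, act (rs N ρ) (es φ))) :
    Parker.mul (rs H ρ).character h.rep.character = 1 := by
  have _ := Fintype.ofFinite N
  have hirr := blk_irr h hρ
  have hmem : h.rep.character ∈ Parker.irr Ω H := mem_irr.2 (mem_irrSet hirr)
  set E : Module.End Ω V := ∑ φ ∈ O, act (rs N ρ) (es φ) with hE
  set e : Module.End Ω V := act (rs H ρ) (es h.rep.character) with he
  -- `e E = E`
  have h1 : e * E = E := by
    apply LinearMap.ext
    intro x
    have h2 := P16_aux.act_coe h (es h.rep.character) ⟨E x, ⟨x, rfl⟩⟩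
    rw [idem_irr hirr] at h2
    exact h2.symm
  -- the trace of `E`
  have hEe : ∀ T : Module.End Ω V, E * T = ∑ φ ∈ O, ∑ n : N, es φ n • (ρ (n : G) * T) := by
    intro T
    rw [hE, Finset.sum_mul]
    refine Finset.sum_congr rfl fun φ _ => ?_
    rw [act_eq, Finset.sum_mul]
    refine Finset.sum_congr rfl fun n _ => ?_
    rw [smul_mul_assoc]
    rfl
  have h2 : LinearMap.trace Ω V (E * e) =
      (Parker.mul (rs H ρ).character h.rep.character : Ω) * LinearMap.trace Ω V (E * E) := by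
    rw [hEe, hEe, map_sum, map_sum, Finset.mul_sum]
    refine Finset.sum_congr rfl fun φ _ => ?_
    rw [map_sum, map_sum, Finset.mul_sum]
    refine Finset.sum_congr rfl fun n _ => ?_
    have h3 := idem_trace (rs H ρ) hmem ⟨(n : G), hNH n.2⟩
    have h4 := blk_char h ⟨(n : G), hNH n.2⟩
    rw [map_smul, map_smul, smul_eq_mul, smul_eq_mul]
    have h5 : LinearMap.trace Ω V (ρ (n : G) * e) =
        (Parker.mul (rs H ρ).character h.rep.character : Ω) *
          h.rep.character ⟨(n : G), hNH n.2⟩ := h3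
    rw [h5, h4]
    ring
  have hEE : E * E = E := h.idem
  have hcomm : LinearMap.trace Ω V (E * e) = LinearMap.trace Ω V E := by
    rw [LinearMap.trace_mul_comm, h1]
  rw [hcomm, hEE] at h2
  have h6 : LinearMap.trace Ω V E = (Module.finrank Ω (LinearMap.range E) : Ω) := by
    have h7 := blk_char h 1
    rw [Representation.char_one] at h7
    rw [h7]
    show LinearMap.trace Ω V E = LinearMap.trace Ω V (ρ 1 * E)
    rw [map_one, one_mul]
  have h8 : LinearMap.trace Ω V E ≠ 0 := by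
    rw [h6, Nat.cast_ne_zero]
    exact (irr_pos hirr).ne'
  have h9 : (Parker.mul (rs H ρ).character h.rep.character : Ω) = 1 := by
    have h10 : ((Parker.mul (rs H ρ).character h.rep.character : Ω) - 1) *
        LinearMap.trace Ω V E = 0 := by
      rw [sub_mul, one_mul, ← h2, sub_self]
    rcases mul_eq_zero.1 h10 with h11 | h11
    · exact sub_eq_zero.1 h11
    · exact absurd h11 h8
  exact_mod_cast h9

end B04_aux

open Parker in
theorem all_conj {θ : P → Ω} (hθ : θ ∈ Parker.irr Ω P) (hf : ∀ g, Parker.Fx Γ (θ g))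
    (hmin : ∀ (H : Subgroup P), H ≠ ⊤ → ∀ ψ ∈ Parker.irr Ω H, (∀ g, Parker.Fx Γ (ψ g)) →
      ¬ Odd (Parker.mul (fun p : H => θ p) ψ))
    (A : Subgroup P) [A.Normal] (hA : ∀ x ∈ A, ∀ y ∈ A, x * y = y * x) (lam : A →* Ωˣ)
    (hlam : Parker.mul (fun p : A => θ p) (fun a => ((lam a : Ωˣ) : Ω)) ≠ 0) (g : P) :
    ∃ σ ∈ Γ, ∀ a : A, ((lam (MulAut.conjNormal g a) : Ωˣ) : Ω) = σ ((lam a : Ωˣ) : Ω) := by
  obtain ⟨n, ρ, hρ, rfl⟩ := mem_irr.1 hθ
  set φ0 : A → Ω := fun a => ((lam a : Ωˣ) : Ω) with hφ0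
  have h0 : φ0 ∈ Parker.irr Ω A := B04_aux.lin_irr lam
  set O : Finset (A → Ω) :=
    (Parker.irr Ω A).filter (fun φ => ∃ σ ∈ Γ, φ = fun a => σ (φ0 a)) with hO
  have hOmem : ∀ φ, φ ∈ O ↔ φ ∈ Parker.irr Ω A ∧ ∃ σ ∈ Γ, φ = fun a => σ (φ0 a) := fun φ =>
    Finset.mem_filter
  have hOof : ∀ φ, (∃ σ ∈ Γ, φ = fun a => σ (φ0 a)) → φ ∈ O := by
    rintro φ ⟨σ, hσ, rfl⟩
    exact (hOmem _).2 ⟨sigma_mem_irr h0 σ, σ, hσ, rfl⟩
  have h0O : φ0 ∈ O := hOof _ ⟨1, Γ.one_mem, rfl⟩
  have inv1 : ∀ (σ : RingAut Ω) (x : Ω), σ⁻¹ (σ x) = x := fun σ x => RingEquiv.symm_apply_apply σ x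
  have hcjs : ∀ (g : P) (σ : RingAut Ω) (φ : A → Ω),
      cj A g (fun a => σ (φ a)) = fun a => σ (cj A g φ a) := fun _ _ _ => rfl
  let I : Subgroup P :=
    { carrier := {g | cj A g φ0 ∈ O}
      one_mem' := by
        show cj A 1 φ0 ∈ O
        rw [cj_one]
        exact h0O
      mul_mem' := by
        intro a b ha hb
        show cj A (a * b) φ0 ∈ O
        obtain ⟨-, σ, hσ, h1⟩ := (hOmem _).1 ha
        obtain ⟨-, τ, hτ, h2⟩ := (hOmem _).1 hb
        refine hOof _ ⟨τ * σ, Γ.mul_mem hτ hσ, ?_⟩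
        rw [cj_mul, h2, hcjs, h1]
        rfl
      inv_mem' := by
        intro a ha
        show cj A a⁻¹ φ0 ∈ O
        obtain ⟨-, σ, hσ, h1⟩ := (hOmem _).1 ha
        refine hOof _ ⟨σ⁻¹, Γ.inv_mem hσ, ?_⟩
        have h2 : φ0 = fun x => σ (cj A a⁻¹ φ0 x) := by
          rw [← hcjs, ← h1, ← cj_mul, inv_mul_cancel, cj_one]
        funext x
        have h3 := congrFun h2 x
        rw [h3, inv1] }
  have hIm : ∀ g, g ∈ I ↔ cj A g φ0 ∈ O := fun _ => Iff.rfl
  have hItop : I = ⊤ := by
    by_contra hI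
    have hAI : A ≤ I := by
      intro a ha
      have h1 : cj A a φ0 = φ0 := cj_self A h0 ⟨a, ha⟩
      rw [hIm, h1]
      exact h0O
    have hblk : Blk ρ I (∑ φ ∈ O, act (rs A ρ) (es φ)) := by
      refine clifford_blk A I (fun φ hφ => ((hOmem φ).1 hφ).1) ?_ ?_ ⟨φ0, h0O, hlam⟩
      · intro h hh φ hφ
        obtain ⟨-, σ, hσ, rfl⟩ := (hOmem _).1 hφ
        obtain ⟨-, τ, hτ, h2⟩ := (hOmem _).1 hh
        refine hOof _ ⟨σ * τ, Γ.mul_mem hσ hτ, ?_⟩
        rw [hcjs, h2]
        rfl
      · intro k hk φ hφ hcon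
        apply hk
        rw [hIm]
        obtain ⟨-, σ, hσ, rfl⟩ := (hOmem _).1 hφ
        obtain ⟨-, τ, hτ, h2⟩ := (hOmem _).1 hcon
        refine hOof _ ⟨σ⁻¹ * τ, Γ.mul_mem (Γ.inv_mem hσ) hτ, ?_⟩
        rw [hcjs] at h2
        funext x
        have h3 := congrArg (fun z => σ⁻¹ z) (congrFun h2 x)
        simp only [inv1] at h3
        exact h3
    have hrat : (∑ φ ∈ O, act (rs A ρ) (es φ)) ∈ Rat Γ ρ := by
      refine rat_res (H := A) (idem_rat (rs A ρ) (fun φ hφ => ((hOmem φ).1 hφ).1) ?_)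
      intro σ hσ φ hφ
      obtain ⟨-, τ, hτ, rfl⟩ := (hOmem _).1 hφ
      exact hOof _ ⟨σ * τ, Γ.mul_mem hσ hτ, rfl⟩
    have hfx : FxC Γ hblk.rep := blk_fxC hblk hf hrat
    have hirr := blk_irr hblk hρ
    have hmul := B04_aux.mul_blk hAI hρ hblk
    refine hmin I hI hblk.rep.character (mem_irr.2 (mem_irrSet hirr)) hfx ?_
    have h4 : (fun p : I => ρ.character p) = (rs I ρ).character := rfl
    rw [h4, hmul]
    exact odd_one
  have hg : g⁻¹ ∈ I := by rw [hItop]; exact Subgroup.mem_top _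
  obtain ⟨-, σ, hσ, h1⟩ := (hOmem _).1 hg
  refine ⟨σ, hσ, fun a => ?_⟩
  have h2 := congrFun h1 a
  have h3 : cj A g⁻¹ φ0 a = φ0 (MulAut.conjNormal g a) := by
    unfold cj
    rw [inv_inv]
  rw [h3] at h2
  exact h2

open Parker in
theorem exists_lam {θ : P → Ω} (hθ : θ ∈ Parker.irr Ω P) (A : Subgroup P)
    (hA : ∀ x ∈ A, ∀ y ∈ A, x * y = y * x) :
    ∃ lam : A →* Ωˣ, Parker.mul (fun p : A => θ p) (fun a => ((lam a : Ωˣ) : Ω)) ≠ 0 := by
  obtain ⟨n, ρ, hρ, rfl⟩ := mem_irr.1 hθ
  have h4 : (fun p : A => ρ.character p) = (rs A ρ).character := rfl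
  rw [h4]
  by_contra hcon
  push Not at hcon
  have h1 := finrank_eq_sum (rs A ρ)
  have h2 : ∑ φ ∈ Parker.irr Ω A, Parker.mul (rs A ρ).character φ * dg φ = 0 := by
    refine Finset.sum_eq_zero fun φ hφ => ?_
    obtain ⟨l, rfl⟩ := B04_aux.irr_lin (fun x y => Subtype.ext (hA x x.2 y y.2)) hφ
    rw [hcon l, zero_mul]
  rw [h2] at h1
  have h3 := irr_pos hρ
  omega

open Parker in
theorem lam_faithful {θ : P → Ω} (hθ : θ ∈ Parker.irr Ω P) (hfaith : ∀ g, θ g = θ 1 → g = 1)
    (A : Subgroup P) [A.Normal] (hA : ∀ x ∈ A, ∀ y ∈ A, x * y = y * x) (lam : A →* Ωˣ)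
    (hlam : Parker.mul (fun p : A => θ p) (fun a => ((lam a : Ωˣ) : Ω)) ≠ 0)
    (hc : ∀ g : P, ∃ σ ∈ Γ, ∀ a : A,
      ((lam (MulAut.conjNormal g a) : Ωˣ) : Ω) = σ ((lam a : Ωˣ) : Ω)) : Function.Injective lam := by
  have _ := hA
  obtain ⟨n, ρ, hρ, rfl⟩ := mem_irr.1 hθ
  have h4 : (fun p : A => ρ.character p) = (rs A ρ).character := rfl
  rw [h4] at hlam
  rw [injective_iff_map_eq_one]
  intro a ha
  apply Subtype.ext
  apply hfaith
  have h1 : (rs A ρ).character a = (rs A ρ).character 1 := by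
    rw [char_eq_sum (rs A ρ), Finset.sum_apply, Finset.sum_apply]
    refine Finset.sum_congr rfl fun φ hφ => ?_
    rw [Pi.smul_apply, Pi.smul_apply]
    by_cases hm : Parker.mul (rs A ρ).character φ = 0
    · rw [hm, Nat.cast_zero, zero_smul, zero_smul]
    · obtain ⟨g, rfl⟩ := clifford_trans A hρ (B04_aux.lin_irr lam) hφ hlam hm
      obtain ⟨σ, hσ, h2⟩ := hc g⁻¹
      congr 1
      show ((lam (MulAut.conjNormal g⁻¹ a) : Ωˣ) : Ω) = ((lam (MulAut.conjNormal g⁻¹ 1) : Ωˣ) : Ω)
      rw [h2, h2, ha, map_one]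
  exact h1

end

end

end LieP
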