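import Pool.Agent.LieP.B03

/-!
# MP_6c3636_al, LieP, module B05: two-groups: the two dimensional representation (helper7)

Section 13, (13.2), case `|P : A| = 2`. `A = ⟨a⟩`, `P = A ∪ A g`, `ζ = lam a` a primitive `2^l`-th root of unity, `g a g⁻¹ = a^i`, `i = 3 mod 4`, `σ₀ ζ = ζ^i` for some `σ₀ ∈ Γ`, `g^2 = 1` or `a^(2^(l-1))`, all `σ ∈ Γ` map `ζ` to `ζ` or `ζ^i`
(since `θ a = ζ + ζ^i` and `θ(a^j)` are fixed: `θ|A = lam + lam^i`). Let `Γ₁ = {σ ∈ Γ : σ ζ = ζ}`, of index two, `K₁ ⊆ Ω` its fixed field, `δ = σ₀|K₁`, an involution of `K₁` with fixed field (the image of) `K`,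
`θ₁ = ζ - ζ^i`, `δ θ₁ = - θ₁`, `K₁ = K ⊕ K θ₁`. The representation on the `K`-space `K₁` (or on `K²` with the basis `1, θ₁`): `a` acts as multiplication by `ζ`, `g` as `x ↦ c δ(x)`, with `c = 1` if
`g^2 = 1` and `c = ω + ω² i₀`, `i₀ = ζ^(2^(l-2))`, if `g^2 = a^(2^(l-1))` (which acts as `-1`): `δ i₀ = i₀^i = -i₀`, `c δ(c) = ω² + ω⁴ = -1`. The trace of `a^j` is `ζ^j + ζ^(ij)`, the trace of `a^j g` is `0`.
`θ` vanishes outside of `A` (`θ` is induced from `lam`: it is irreducible of degree two over `lam ≠ lam^i`; or `∑ θ(x) θ(x⁻¹) = |P|` and `∑_{x ∈ A} = 2 |A| = |P|`).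

Implementation: the irreducible representation over `Ω` has a basis in which the matrices of `a` and `g` have fixed entries.
-/

namespace LieP

noncomputable section

open Classical


section

namespace B05_aux

variable {Ω : Type} [Field Ω] [CharZero Ω] {Γ : Subgroup (RingAut Ω)}

omit [CharZero Ω] in
theorem prim_modEq {ζ : Ω} {N : ℕ} (hζ : IsPrimitiveRoot ζ N) (hN : N ≠ 0) (m n : ℕ) :
    ζ ^ m = ζ ^ n ↔ m ≡ n [MOD N] := by
  obtain ⟨u, rfl⟩ := hζ.isUnit hN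
  have h1 : orderOf u = N := by rw [← orderOf_units, ← hζ.eq_orderOf]
  rw [← h1, ← pow_eq_pow_iff_modEq, ← Units.val_pow_eq_pow_val, ← Units.val_pow_eq_pow_val,
    Units.val_inj]

omit [CharZero Ω] in
theorem zeta_ne {l i : ℕ} (hl : 2 ≤ l) (hi : i % 4 = 3) {ζ : Ω} (hζ : IsPrimitiveRoot ζ (2 ^ l)) :
    ζ ≠ ζ ^ i := by
  intro h
  have h1 : ζ ^ 1 = ζ ^ i := by rw [pow_one]; exact h
  have h2 : (1 : ℕ) ≡ i [MOD 2 ^ l] := (prim_modEq hζ (by positivity) 1 i).mp h1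
  have h4 : (4 : ℕ) ∣ 2 ^ l := by
    have : (2 : ℕ) ^ 2 ∣ 2 ^ l := pow_dvd_pow 2 hl
    simpa using this
  have h5 : (1 : ℕ) ≡ i [MOD 4] := h2.of_dvd h4
  unfold Nat.ModEq at h5
  omega

omit [CharZero Ω] in
/-- an automorphism fixing `ζ + ζ'` and `ζ ζ'` fixes or exchanges them -/
theorem sig_cases {σ : RingAut Ω} {ζ ζ' : Ω} (h1 : σ (ζ + ζ') = ζ + ζ') (h2 : σ (ζ * ζ') = ζ * ζ') :
    (σ ζ = ζ ∧ σ ζ' = ζ') ∨ (σ ζ = ζ' ∧ σ ζ' = ζ) := by
  rw [map_add] at h1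
  rw [map_mul] at h2
  have h3 : (σ ζ - ζ) * (σ ζ - ζ') = 0 := by
    have h4 : σ ζ' = ζ + ζ' - σ ζ := by rw [← h1]; ring
    rw [h4] at h2
    linear_combination -h2
  rcases mul_eq_zero.mp h3 with h4 | h4
  · left
    have h5 := sub_eq_zero.mp h4
    refine ⟨h5, ?_⟩
    rw [h5] at h1
    exact add_left_cancel h1
  · right
    have h5 := sub_eq_zero.mp h4
    refine ⟨h5, ?_⟩
    rw [h5, add_comm ζ ζ'] at h1
    exact add_left_cancel h1

/-- the numbers `p`, `q` with `c = p + q ζ` -/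
theorem exists_pq {ζ ζ' : Ω} (hne : ζ ≠ ζ') (h1 : Parker.Fx Γ (ζ + ζ')) (h2 : Parker.Fx Γ (ζ * ζ'))
    {i0 : Ω} {m : ℕ} (hi0 : ζ ^ m = i0) (hi0' : ζ' ^ m = -i0) (hi2 : i0 ^ 2 = -1)
    {ω : Ω} (hω : Parker.Fx Γ ω) (hω3 : ω ^ 3 = 1) (hω1 : ω ≠ 1) :
    ∃ p q : Ω, Parker.Fx Γ p ∧ Parker.Fx Γ q ∧ (p + q * ζ) * (p + q * ζ') = -1 := by
  have hd : ζ - ζ' ≠ 0 := sub_ne_zero.mpr hne
  have hd' : ζ' - ζ ≠ 0 := sub_ne_zero.mpr hne.symm
  have hω2 : ω ^ 2 + ω + 1 = 0 := by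
    have h3 : (ω - 1) * (ω ^ 2 + ω + 1) = 0 := by linear_combination hω3
    exact (mul_eq_zero.mp h3).resolve_left (sub_ne_zero.mpr hω1)
  set β : Ω := 2 * i0 / (ζ - ζ') with hβ
  set α : Ω := i0 - β * ζ with hα
  have hβm : β * (ζ - ζ') = 2 * i0 := by rw [hβ]; field_simp
  have hα1 : α + β * ζ = i0 := by rw [hα]; ring
  have hα2 : α + β * ζ' = -i0 := by rw [hα]; linear_combination -hβm
  have key : ∀ σ ∈ Γ, σ β = β ∧ σ α = α := by
    intro σ hσ
    rcases sig_cases (h1 σ hσ) (h2 σ hσ) with ⟨h3, h4⟩ | ⟨h3, h4⟩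
    · have h5 : σ i0 = i0 := by rw [← hi0, map_pow, h3]
      have h6 : σ β = β := by rw [hβ, map_div₀, map_mul, map_sub, h5, h3, h4, map_ofNat]
      refine ⟨h6, ?_⟩
      rw [hα, map_sub, map_mul, h5, h6, h3]
    · have h5 : σ i0 = -i0 := by rw [← hi0, map_pow, h3, hi0', hi0]
      have h6 : σ β = β := by
        rw [hβ, map_div₀, map_mul, map_sub, h5, h3, h4, map_ofNat, div_eq_div_iff hd' hd]
        ring
      refine ⟨h6, ?_⟩
      have h7 : σ α = σ (i0 - β * ζ) := by rw [hα]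
      rw [h7, map_sub, map_mul, h5, h6, h3]
      linear_combination -hα2
  refine ⟨ω + ω ^ 2 * α, ω ^ 2 * β, ?_, ?_, ?_⟩
  · intro σ hσ
    rw [map_add, map_mul, map_pow, hω σ hσ, (key σ hσ).2]
  · intro σ hσ
    rw [map_mul, map_pow, hω σ hσ, (key σ hσ).1]
  · have h8 : (ω + ω ^ 2 * α + ω ^ 2 * β * ζ) = ω + ω ^ 2 * i0 := by rw [← hα1]; ring
    have h9 : (ω + ω ^ 2 * α + ω ^ 2 * β * ζ') = ω - ω ^ 2 * i0 := by
      linear_combination (ω ^ 2) * hα2
    rw [h8, h9]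
    linear_combination (-ω ^ 4) * hi2 + ω * hω3 + hω2

/-- an eigenvector of a `2 × 2` matrix -/
theorem exists_eig {f : Module.End Ω (Fin 2 → Ω)} {ζ ζ' : Ω}
    (h1 : LinearMap.trace Ω (Fin 2 → Ω) f = ζ + ζ')
    (h2 : LinearMap.trace Ω (Fin 2 → Ω) (f * f) = ζ ^ 2 + ζ' ^ 2) :
    ∃ v : Fin 2 → Ω, v ≠ 0 ∧ f v = ζ • v := by
  set M := LinearMap.toMatrix' f with hM
  rw [LinearMap.trace_eq_matrix_trace Ω (Pi.basisFun Ω (Fin 2)), LinearMap.toMatrix_eq_toMatrix',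
    ← hM, Matrix.trace_fin_two] at h1
  rw [LinearMap.trace_eq_matrix_trace Ω (Pi.basisFun Ω (Fin 2)), LinearMap.toMatrix_eq_toMatrix',
    LinearMap.toMatrix'_mul, ← hM, Matrix.trace_fin_two, Matrix.mul_apply, Matrix.mul_apply,
    Fin.sum_univ_two, Fin.sum_univ_two] at h2
  have hdet : (M - ζ • (1 : Matrix (Fin 2) (Fin 2) Ω)).det = 0 := by
    rw [Matrix.det_fin_two]
    simp only [Matrix.sub_apply, Matrix.smul_apply, Matrix.one_apply, smul_eq_mul]
    simp only [Fin.isValue, ↓reduceIte, zero_ne_one, one_ne_zero, mul_one, mul_zero, sub_zero]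
    linear_combination ((M 0 0 + M 1 1 + ζ + ζ') / 2 - ζ) * h1 - (1 / 2) * h2
  obtain ⟨v, hv, hv0⟩ := Matrix.exists_mulVec_eq_zero_iff.mpr hdet
  refine ⟨v, hv, ?_⟩
  rw [Matrix.sub_mulVec, Matrix.smul_mulVec, Matrix.one_mulVec, sub_eq_zero] at hv0
  rw [← hv0, hM, LinearMap.toMatrix'_mulVec]

end B05_aux

variable {Ω : Type} [Field Ω] [IsAlgClosed Ω] [CharZero Ω] {Γ : Subgroup (RingAut Ω)} {K : Type} [Field K]
  [CharZero K] [Algebra K Ω] {P : Type} [Group P] [Finite P]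

theorem two_dim (hK : ParkerGL.FixedField Γ K) {θ : P → Ω} (hθ : θ ∈ Parker.irr Ω P)
    (hf : ∀ g, Parker.Fx Γ (θ g)) {a g : P} {l i : ℕ} (hl : 2 ≤ l) (ho : orderOf a = 2 ^ l)
    (hn : (Subgroup.zpowers a).Normal) (hg : g ∉ Subgroup.zpowers a)
    (hP : ∀ x, x ∈ Subgroup.zpowers a ∨ x * g⁻¹ ∈ Subgroup.zpowers a) (hga : g * a * g⁻¹ = a ^ i)
    (hi : i % 4 = 3) (hii : a ^ (i * i) = a) (hgg : g * g = 1 ∨ g * g = a ^ (2 ^ (l - 1))) {ζ : Ω}
    (hζ : IsPrimitiveRoot ζ (2 ^ l)) (hθA : ∀ j : ℕ, θ (a ^ j) = ζ ^ j + ζ ^ (i * j))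
    (hσ : ∃ σ ∈ Γ, σ ζ = ζ ^ i) {ω : Ω} (hω : Parker.Fx Γ ω) (hω3 : ω ^ 3 = 1) (hω1 : ω ≠ 1) :
    OddRep K θ := by
  obtain ⟨n, ρ, hρ, hρθ⟩ := Parker.mem_irr.mp hθ
  have hn2 : n = 2 := by
    have h1 : θ 1 = 2 := by
      have := hθA 0
      rw [pow_zero, pow_zero, mul_zero, pow_zero] at this
      rw [this]; norm_num
    rw [← hρθ, Representation.char_one, Module.finrank_fin_fun] at h1
    exact_mod_cast h1
  subst hn2
  -- the conjugate of `ζ`
  have hne := B05_aux.zeta_ne hl hi hζ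
  set ζ' : Ω := ζ ^ i with hζ'
  have hζi : ζ' ^ i = ζ := by
    have h1 : ζ ^ (i * i) = ζ ^ 1 := by
      rw [B05_aux.prim_modEq hζ (by positivity), ← ho, ← pow_eq_pow_iff_modEq, pow_one]
      exact hii
    rw [hζ', ← pow_mul, h1, pow_one]
  have hA1 : θ a = ζ + ζ' := by
    have := hθA 1
    rwa [pow_one, pow_one, mul_one] at this
  have hA2 : θ (a * a) = ζ ^ 2 + ζ' ^ 2 := by
    have := hθA 2
    rwa [pow_two, pow_mul] at this
  have hft : Parker.Fx Γ (ζ + ζ') := hA1 ▸ hf a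
  have hfn : Parker.Fx Γ (ζ * ζ') := by
    intro σ hσ
    have h1 := hf a σ hσ
    have h2 := hf (a * a) σ hσ
    rw [hA1] at h1
    rw [hA2] at h2
    have h3 : ζ * ζ' = ((ζ + ζ') ^ 2 - (ζ ^ 2 + ζ' ^ 2)) / 2 := by field_simp; ring
    rw [h3, map_div₀, map_sub, map_pow, h1, h2, map_ofNat]
  -- the fourth root of unity
  have hi0 : (ζ ^ (2 ^ (l - 2))) ^ 2 = ζ ^ (2 ^ (l - 1)) := by
    rw [← pow_mul, ← pow_succ]
    congr 2
    omega
  have hneg : ζ ^ (2 ^ (l - 1)) = -1 := by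
    have h1 : (ζ ^ (2 ^ (l - 1))) ^ 2 = 1 := by
      rw [← pow_mul, ← pow_succ, show l - 1 + 1 = l by omega]
      exact hζ.pow_eq_one
    have h2 : ζ ^ (2 ^ (l - 1)) ≠ 1 := by
      refine hζ.pow_ne_one_of_pos_of_lt (by positivity) ?_
      exact Nat.pow_lt_pow_right (by norm_num) (by omega)
    have h3 : (ζ ^ (2 ^ (l - 1)) - 1) * (ζ ^ (2 ^ (l - 1)) + 1) = 0 := by linear_combination h1
    exact eq_neg_of_add_eq_zero_left ((mul_eq_zero.mp h3).resolve_left (sub_ne_zero.mpr h2))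
  have hi0' : ζ' ^ (2 ^ (l - 2)) = - ζ ^ (2 ^ (l - 2)) := by
    have h1 : ζ' ^ (2 ^ (l - 2)) = (ζ ^ (2 ^ (l - 2))) ^ i := by
      rw [hζ', ← pow_mul, ← pow_mul, mul_comm]
    have h2 : i = 4 * (i / 4) + 3 := by omega
    have h3 : (ζ ^ (2 ^ (l - 2))) ^ 4 = 1 := by
      rw [show (4 : ℕ) = 2 * 2 by norm_num, pow_mul, hi0, hneg]; norm_num
    rw [h1, h2, pow_add, pow_mul, h3, one_pow, one_mul,
      show (3 : ℕ) = 2 + 1 by norm_num, pow_succ, hi0, hneg]
    ring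
  -- `c = p + q ζ`
  obtain ⟨ε, p, q, hp, hq, hpq, hε, hε0⟩ : ∃ ε p q : Ω, Parker.Fx Γ p ∧ Parker.Fx Γ q ∧
      (p + q * ζ) * (p + q * ζ') = ε ∧ (∀ v : Fin 2 → Ω, ρ a v = ζ • v → ρ (g * g) v = ε • v) ∧ ε ≠ 0 := by
    rcases hgg with h | h
    · refine ⟨1, 1, 0, fun σ _ => map_one σ, fun σ _ => map_zero σ, by ring, ?_, one_ne_zero⟩
      intro v _
      rw [h, map_one, one_smul]
      rfl
    · obtain ⟨p, q, hp, hq, hpq⟩ := B05_aux.exists_pq hne hft hfn (m := 2 ^ (l - 2)) rfl hi0'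
        (by rw [hi0, hneg]) hω hω3 hω1
      refine ⟨-1, p, q, hp, hq, hpq, ?_, by norm_num⟩
      intro v hv
      have h5 : ∀ j : ℕ, ρ (a ^ j) v = ζ ^ j • v := by
        intro j
        induction j with
        | zero => rw [pow_zero, pow_zero, map_one, one_smul]; rfl
        | succ j ih => rw [pow_succ, map_mul, Module.End.mul_apply, hv, map_smul, ih, smul_smul,
            pow_succ, mul_comm]
      rw [h, h5, hneg]
  -- the eigenvectors
  obtain ⟨v1, hv1, hav1⟩ : ∃ v : Fin 2 → Ω, v ≠ 0 ∧ ρ a v = ζ • v := by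
    refine B05_aux.exists_eig (ζ' := ζ') ?_ ?_
    · have := congrFun hρθ a
      rw [hA1] at this
      exact this
    · rw [← map_mul]
      have := congrFun hρθ (a * a)
      rw [hA2] at this
      exact this
  have hpow : ∀ j : ℕ, ρ (a ^ j) v1 = ζ ^ j • v1 := by
    intro j
    induction j with
    | zero => rw [pow_zero, pow_zero, map_one, one_smul]; rfl
    | succ j ih => rw [pow_succ, map_mul, Module.End.mul_apply, hav1, map_smul, ih, smul_smul,
        pow_succ, mul_comm]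
  have hc0 : (p + q * ζ) ≠ 0 := fun h => hε0 (by rw [← hpq, h, zero_mul])
  have hc0' : (p + q * ζ') ≠ 0 := fun h => hε0 (by rw [← hpq, h, mul_zero])
  set v2 : Fin 2 → Ω := (p + q * ζ')⁻¹ • ρ g v1 with hv2
  have hgv1 : ρ g v1 = (p + q * ζ') • v2 := by
    rw [hv2, smul_smul, mul_inv_cancel₀ hc0', one_smul]
  have hgv2 : ρ g v2 = (p + q * ζ) • v1 := by
    rw [hv2, map_smul, ← Module.End.mul_apply, ← map_mul, hε v1 hav1, smul_smul, ← hpq]
    congr 1
    field_simp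
  have hav2 : ρ a v2 = ζ' • v2 := by
    have h1 : a * g = g * a ^ i := by
      have h2 : g * a ^ i * g⁻¹ = a := by
        rw [← conj_pow, hga, ← pow_mul, hii]
      rw [mul_inv_eq_iff_eq_mul] at h2
      exact h2.symm
    rw [hv2, map_smul, ← Module.End.mul_apply, ← map_mul, h1, map_mul, Module.End.mul_apply, hpow,
      map_smul, smul_comm]
  have hv20 : v2 ≠ 0 := by
    intro h
    rw [h, map_zero] at hgv2
    rcases smul_eq_zero.mp hgv2.symm with h3 | h3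
    · exact hc0 h3
    · exact hv1 h3
  -- the basis
  set e1 : Fin 2 → Ω := v1 + v2 with he1
  set e2 : Fin 2 → Ω := ζ • v1 + ζ' • v2 with he2
  have hli : LinearIndependent Ω ![e1, e2] := by
    rw [LinearIndependent.pair_iff]
    intro x y hxy
    have h1 : (x + y * ζ) • v1 + (x + y * ζ') • v2 = 0 := by
      rw [← hxy, he1, he2]
      module
    have h2 : ((x + y * ζ) * ζ) • v1 + ((x + y * ζ') * ζ') • v2 = 0 := by
      have h3 := congrArg (ρ a) h1
      rw [map_add, map_smul, map_smul, hav1, hav2, map_zero, smul_smul, smul_smul] at h3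
      exact h3
    have h3 : ((x + y * ζ) * (ζ - ζ')) • v1 = 0 := by
      have h4 : ((x + y * ζ) * (ζ - ζ')) • v1 = (((x + y * ζ) * ζ) • v1 + ((x + y * ζ') * ζ') • v2) -
          ζ' • ((x + y * ζ) • v1 + (x + y * ζ') • v2) := by module
      rw [h4, h1, h2, smul_zero, sub_zero]
    have h5 : ((x + y * ζ') * (ζ' - ζ)) • v2 = 0 := by
      have h4 : ((x + y * ζ') * (ζ' - ζ)) • v2 = (((x + y * ζ) * ζ) • v1 + ((x + y * ζ') * ζ') • v2) -
          ζ • ((x + y * ζ) • v1 + (x + y * ζ') • v2) := by module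
      rw [h4, h1, h2, smul_zero, sub_zero]
    have h6 : x + y * ζ = 0 := by
      rcases smul_eq_zero.mp h3 with h | h
      · exact (mul_eq_zero.mp h).resolve_right (sub_ne_zero.mpr hne)
      · exact absurd h hv1
    have h7 : x + y * ζ' = 0 := by
      rcases smul_eq_zero.mp h5 with h | h
      · exact (mul_eq_zero.mp h).resolve_right (sub_ne_zero.mpr hne.symm)
      · exact absurd h hv20
    have h8 : y * (ζ - ζ') = 0 := by linear_combination h6 - h7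
    have h9 : y = 0 := (mul_eq_zero.mp h8).resolve_right (sub_ne_zero.mpr hne)
    refine ⟨?_, h9⟩
    rw [h9, zero_mul, add_zero] at h6
    exact h6
  let b : Module.Basis (Fin 2) Ω (Fin 2 → Ω) := basisOfLinearIndependentOfCardEqFinrank hli (by simp)
  have hb0 : b 0 = e1 := by simp [b]
  have hb1 : b 1 = e2 := by simp [b]
  have hae1 : ρ a e1 = e2 := by
    rw [he1, map_add, hav1, hav2]
  have hae2 : ρ a e2 = (-(ζ * ζ')) • e1 + (ζ + ζ') • e2 := by
    rw [he1, he2, map_add, map_smul, map_smul, hav1, hav2]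
    module
  have hge1 : ρ g e1 = p • e1 + q • e2 := by
    rw [he1, he2, map_add, hgv1, hgv2]
    module
  have hge2 : ρ g e2 = (p * (ζ + ζ') + q * (ζ * ζ')) • e1 + (-p) • e2 := by
    rw [he1, he2, map_add, map_smul, map_smul, hgv1, hgv2]
    module
  -- the matrices
  obtain ⟨tK, htK⟩ := (hK _).mp hft
  obtain ⟨nK, hnK⟩ := (hK _).mp hfn
  obtain ⟨pK, hpK⟩ := (hK _).mp hp
  obtain ⟨qK, hqK⟩ := (hK _).mp hq
  let φ : Matrix (Fin 2) (Fin 2) K →+* Matrix (Fin 2) (Fin 2) Ω := (algebraMap K Ω).mapMatrix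
  have hφ : Function.Injective φ := by
    intro M N h
    ext i j
    have := congrFun (congrFun h i) j
    exact (algebraMap K Ω).injective this
  let R : P →* Matrix (Fin 2) (Fin 2) Ω :=
    ((LinearMap.toMatrixAlgEquiv b : Module.End Ω (Fin 2 → Ω) ≃ₐ[Ω] Matrix (Fin 2) (Fin 2) Ω) :
      Module.End Ω (Fin 2 → Ω) →* Matrix (Fin 2) (Fin 2) Ω).comp ρ
  have hR : ∀ x, R x = LinearMap.toMatrix b b (ρ x) := fun x => rfl
  have hRa : R a = φ !![0, -nK; 1, tK] := by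
    have h1 : ρ a = Matrix.toLin b b (φ !![0, -nK; 1, tK]) := by
      refine b.ext fun j => ?_
      rw [Matrix.toLin_self, Fin.sum_univ_two]
      fin_cases j
      · simp [φ, hb0, hb1, hae1]
      · simp [φ, hb0, hb1, hae2, htK, hnK]
    rw [hR, h1, LinearMap.toMatrix_toLin]
  have hRg : R g = φ !![pK, pK * tK + qK * nK; qK, -pK] := by
    have h1 : ρ g = Matrix.toLin b b (φ !![pK, pK * tK + qK * nK; qK, -pK]) := by
      refine b.ext fun j => ?_
      rw [Matrix.toLin_self, Fin.sum_univ_two]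
      fin_cases j
      · simp [φ, hb0, hb1, hge1, hpK, hqK]
      · simp [φ, hb0, hb1, hge2, htK, hnK, hpK, hqK]
    rw [hR, h1, LinearMap.toMatrix_toLin]
  have hRA : ∀ x ∈ Subgroup.zpowers a, ∃ N, φ N = R x := by
    intro x hx
    obtain ⟨j, rfl⟩ := (mem_powers_iff_mem_zpowers.mpr hx)
    refine ⟨!![0, -nK; 1, tK] ^ j, ?_⟩
    rw [map_pow, ← hRa]
    exact (map_pow R a j).symm
  have hRx : ∀ x, ∃ N, φ N = R x := by
    intro x
    rcases hP x with h | h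
    · exact hRA x h
    · obtain ⟨N, hN⟩ := hRA _ h
      refine ⟨N * !![pK, pK * tK + qK * nK; qK, -pK], ?_⟩
      rw [map_mul, hN, ← hRg, ← map_mul, inv_mul_cancel_right]
  choose N hN using hRx
  let N' : P →* Matrix (Fin 2) (Fin 2) K :=
    { toFun := N
      map_one' := by
        apply hφ
        rw [hN, map_one, map_one]
      map_mul' := by
        intro x y
        apply hφ
        rw [hN, map_mul, map_mul, hN, hN] }
  let ρ' : Representation K P (Fin 2 → K) :=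
    ((Matrix.toLinAlgEquiv' : Matrix (Fin 2) (Fin 2) K ≃ₐ[K] Module.End K (Fin 2 → K)) :
      Matrix (Fin 2) (Fin 2) K →* Module.End K (Fin 2 → K)).comp N'
  have hch : (fun x => algebraMap K Ω (ρ'.character x)) = ρ.character := by
    funext x
    have h1 : ρ'.character x = Matrix.trace (N x) := by
      change LinearMap.trace K (Fin 2 → K) (Matrix.toLin' (N x)) = _
      rw [Matrix.trace_toLin'_eq]
    have h2 : ρ.character x = Matrix.trace (R x) := by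
      rw [hR]
      exact LinearMap.trace_eq_matrix_trace Ω b (ρ x)
    rw [h1, h2, ← hN, Matrix.trace_fin_two, Matrix.trace_fin_two, map_add]
    rfl
  refine ⟨Fin 2 → K, inferInstance, inferInstance, inferInstance, ρ', ?_⟩
  rw [hch, ← hρθ, Parker.mul_self hρ]
  exact odd_one

end

end

end LieP
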