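import Pool.Agent.LieP.B02
import Pool.Agent.LieP.B04
import Pool.Agent.LieP.B05

/-!
# MP_6c3636_al, LieP, module B06: two-groups (helper7)

Section 13, (13.2): strong induction on `|P|`. (a) If a fixed irreducible character of a proper subgroup has odd multiplicity: `oddRep_ind`. (b) If `θ` is not faithful: `oddRep_pb` for the quotient by the kernel. (c) Otherwise: all
abelian normal subgroups are cyclic (`exists_lam`, `all_conj`, `lam_faithful`: an abelian group with a faithful linear character is cyclic). `exists_self_cent` for `V = ⊥`: `A = ⟨a⟩`, `index_two`. If `A = P`, `θ = lam` has fixed values and degree one: representation on `K`.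
Otherwise `two_dim`: `θ|A` contains `lam` and its conjugate `lam^i` (`≠ lam` since `A` is self centralizing and `lam` injective) and has degree `≤ |P : A| = 2` (Frobenius reciprocity / `θ` is a constituent of `Ind lam`), so `θ|A = lam + lam^i`.
-/

namespace LieP

noncomputable section

open Classical


namespace B06_aux

theorem re_all_one : ∀ t : Multiset ℂ, (∀ z ∈ t, z.re ≤ 1) →
    t.sum.re ≤ (Multiset.card t : ℝ) ∧ (t.sum.re = (Multiset.card t : ℝ) → ∀ z ∈ t, z.re = 1) := by
  intro t
  induction t using Multiset.induction_on with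
  | empty => intro _; simp
  | cons a t ih =>
    intro h
    have ha := h a (Multiset.mem_cons_self a t)
    obtain ⟨h1, h2⟩ := ih fun z hz => h z (Multiset.mem_cons_of_mem hz)
    rw [Multiset.sum_cons, Complex.add_re, Multiset.card_cons, Nat.cast_add, Nat.cast_one]
    refine ⟨by linarith, fun h3 z hz => ?_⟩
    rcases Multiset.mem_cons.1 hz with rfl | hz
    · linarith
    · exact h2 (by linarith) z hz

section

variable {Ω : Type} [Field Ω] [CharZero Ω]

theorem emb : ∃ (L : Subfield Ω) (F : Ω → ℂ), (∀ (m : ℕ) (ζ : Ω), m ≠ 0 → ζ ^ m = 1 → ζ ∈ L) ∧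
    (∀ x ∈ L, ∀ y ∈ L, F (x + y) = F x + F y) ∧ (∀ x ∈ L, ∀ y ∈ L, F (x * y) = F x * F y) ∧
    F 1 = 1 ∧ F 0 = 0 ∧ ∀ x ∈ L, ∀ y ∈ L, F x = F y → x = y := by
  have _ : Algebra.IsAlgebraic ℚ (algebraicClosure ℚ Ω) := algebraicClosure.isAlgebraic ℚ Ω
  let A := algebraicClosure ℚ Ω
  let f : algebraicClosure ℚ Ω →ₐ[ℚ] ℂ := IsAlgClosed.lift
  refine ⟨A.toSubfield, fun x => if h : x ∈ A then f ⟨x, h⟩ else 0, ?_, ?_, ?_, ?_, ?_, ?_⟩
  · intro m ζ hm hζ
    show ζ ∈ A
    rw [mem_algebraicClosure_iff']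
    refine ⟨Polynomial.X ^ m - 1, ?_, ?_⟩
    · exact Polynomial.monic_X_pow_sub_C 1 hm
    · simp [hζ]
  · intro x hx y hy
    have hx' : x ∈ A := hx
    have hy' : y ∈ A := hy
    have hxy : x + y ∈ A := add_mem hx' hy'
    show (if h : x + y ∈ A then f ⟨x + y, h⟩ else 0) =
      (if h : x ∈ A then f ⟨x, h⟩ else 0) + (if h : y ∈ A then f ⟨y, h⟩ else 0)
    rw [dif_pos hx', dif_pos hy', dif_pos hxy, ← map_add]
    rfl
  · intro x hx y hy
    have hx' : x ∈ A := hx
    have hy' : y ∈ A := hy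
    have hxy : x * y ∈ A := mul_mem hx' hy'
    show (if h : x * y ∈ A then f ⟨x * y, h⟩ else 0) =
      (if h : x ∈ A then f ⟨x, h⟩ else 0) * (if h : y ∈ A then f ⟨y, h⟩ else 0)
    rw [dif_pos hx', dif_pos hy', dif_pos hxy, ← map_mul]
    rfl
  · show (if h : (1 : Ω) ∈ A then f ⟨1, h⟩ else 0) = 1
    rw [dif_pos (one_mem A)]
    exact map_one f
  · show (if h : (0 : Ω) ∈ A then f ⟨0, h⟩ else 0) = 0
    rw [dif_pos (zero_mem A)]
    exact map_zero f
  · intro x hx y hy h
    have hx' : x ∈ A := hx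
    have hy' : y ∈ A := hy
    have h' : (if h : x ∈ A then f ⟨x, h⟩ else 0) = (if h : y ∈ A then f ⟨y, h⟩ else 0) := h
    rw [dif_pos hx', dif_pos hy'] at h'
    exact congrArg Subtype.val (f.toRingHom.injective h')

/-- roots of unity whose sum is their number are all equal to `1` -/
theorem all_one {m : ℕ} (hm : m ≠ 0) (s : Multiset Ω) (h : ∀ ζ ∈ s, ζ ^ m = 1)
    (hs : s.sum = (Multiset.card s : Ω)) : ∀ ζ ∈ s, ζ = 1 := by
  obtain ⟨L, F, hL, hadd, hmul, h1, h0, hinj⟩ := emb (Ω := Ω)
  have hnat : ∀ n : ℕ, F (n : Ω) = n := by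
    intro n
    induction n with
    | zero => rw [Nat.cast_zero, Nat.cast_zero]; exact h0
    | succ n ih =>
      rw [Nat.cast_succ, hadd _ (natCast_mem L n) _ (one_mem L), ih, h1, Nat.cast_succ]
  have hsum : ∀ t : Multiset Ω, (∀ ζ ∈ t, ζ ∈ L) → F t.sum = (t.map F).sum := by
    intro t
    induction t using Multiset.induction_on with
    | empty => intro _; simpa using h0
    | cons a t ih =>
      intro ht
      have ha := ht a (Multiset.mem_cons_self a t)
      have ht' : ∀ ζ ∈ t, ζ ∈ L := fun ζ hζ => ht ζ (Multiset.mem_cons_of_mem hζ)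
      rw [Multiset.sum_cons, hadd _ ha _ (multiset_sum_mem _ ht'), ih ht', Multiset.map_cons,
        Multiset.sum_cons]
  have hsL : ∀ ζ ∈ s, ζ ∈ L := fun ζ hζ => hL m ζ hm (h ζ hζ)
  have hpow : ∀ ζ ∈ L, ∀ n : ℕ, F (ζ ^ n) = F ζ ^ n := by
    intro ζ hζ n
    induction n with
    | zero => rw [pow_zero, pow_zero]; exact h1
    | succ n ih => rw [pow_succ, hmul _ (pow_mem hζ n) _ hζ, ih, pow_succ]
  have hnorm : ∀ ζ ∈ s, ‖F ζ‖ = 1 := by
    intro ζ hζ
    have h2 := hpow ζ (hsL ζ hζ) m
    rw [h ζ hζ, h1] at h2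
    exact Complex.norm_eq_one_of_pow_eq_one h2.symm hm
  have h3 : (s.map F).sum = (Multiset.card s : ℂ) := by
    rw [← hsum s hsL, hs]
    exact hnat _
  have h4 := (re_all_one (s.map F) (by
    intro z hz
    obtain ⟨ζ, hζ, rfl⟩ := Multiset.mem_map.1 hz
    exact (Complex.re_le_norm _).trans_eq (hnorm ζ hζ))).2 (by
    rw [h3, Multiset.card_map]
    exact Complex.natCast_re _)
  intro ζ hζ
  have h5 := h4 (F ζ) (Multiset.mem_map_of_mem F hζ)
  have h6 : F ζ = 1 := by
    have h7 := hnorm ζ hζ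
    have h8 : Complex.normSq (F ζ) = 1 := by
      rw [Complex.normSq_eq_norm_sq, h7, one_pow]
    rw [Complex.normSq_apply, h5] at h8
    have h9 : (F ζ).im = 0 := by nlinarith
    exact Complex.ext (by rw [h5, Complex.one_re]) (by rw [h9, Complex.one_im])
  exact hinj ζ (hsL ζ hζ) 1 (one_mem L) (h6.trans h1.symm)

end

section

variable {Ω : Type} [Field Ω] [IsAlgClosed Ω] [CharZero Ω] {G : Type} [Group G] [Finite G]
  {V : Type} [AddCommGroup V] [Module Ω V] [FiniteDimensional Ω V]

/-- the kernel of a character -/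
theorem char_ker (ρ : Representation Ω G V) {g : G} (h : ρ.character g = ρ.character 1) :
    ρ g = 1 := by
  have hm : Nat.card G ≠ 0 := Nat.card_pos.ne'
  have hg : g ^ Nat.card G = 1 := pow_card_eq_one'
  obtain ⟨h1, h2⟩ := Parker.P08_aux.char_sum ρ hg
  have hsplit : (ρ g).charpoly.Splits := IsAlgClosed.splits _
  have hcard : Multiset.card (ρ g).charpoly.roots = Module.finrank Ω V := by
    rw [← LinearMap.charpoly_natDegree (ρ g)]
    exact hsplit.natDegree_eq_card_roots.symm
  rw [Representation.char_one, h1, ← hcard] at h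
  have h3 := all_one hm _ h2 h
  -- the minimal polynomial
  have hT : (ρ g) ^ Nat.card G = 1 := by rw [← map_pow, hg, map_one]
  have h4 : minpoly Ω (ρ g) ∣ Polynomial.X ^ Nat.card G - 1 := by
    refine minpoly.dvd _ _ ?_
    rw [map_sub, map_pow, Polynomial.aeval_X, hT, map_one, sub_self]
  have hsep : (Polynomial.X ^ Nat.card G - 1 : Polynomial Ω).Separable := by
    rw [Polynomial.X_pow_sub_one_separable_iff]
    exact_mod_cast hm
  have hsq : Squarefree (minpoly Ω (ρ g)) := (hsep.of_dvd h4).squarefree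
  have h5 : (ρ g).charpoly = (Polynomial.X - Polynomial.C 1) ^ Module.finrank Ω V := by
    have h6 := hsplit.eq_prod_roots_of_monic (LinearMap.charpoly_monic _)
    rw [Multiset.eq_replicate.2 ⟨hcard, h3⟩, Multiset.map_replicate, Multiset.prod_replicate] at h6
    exact h6
  have h6 : minpoly Ω (ρ g) ∣ (Polynomial.X - Polynomial.C 1) ^ (Module.finrank Ω V + 1) := by
    have h7 := LinearMap.minpoly_dvd_charpoly (ρ g)
    rw [h5] at h7
    exact h7.trans (pow_dvd_pow _ (Nat.le_succ _))
  have h7 := (hsq.dvd_pow_iff_dvd (Nat.succ_ne_zero _)).1 h6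
  obtain ⟨q, hq⟩ := h7
  have h8 := congrArg (Polynomial.aeval (ρ g)) hq
  rw [map_mul, minpoly.aeval, zero_mul, map_sub, Polynomial.aeval_X, Polynomial.aeval_C, map_one] at h8
  exact sub_eq_zero.1 h8

omit [IsAlgClosed Ω] in
theorem ip_of_mul {φ ψ : G → Ω} (h : Parker.mul φ ψ ≠ 0) : Parker.ip φ ψ ≠ 0 := by
  intro h0
  apply h
  unfold Parker.mul
  have hex : ∃ k : ℕ, (k : Ω) = Parker.ip φ ψ := ⟨0, by rw [h0]; simp⟩
  rw [dif_pos hex]
  exact_mod_cast hex.choose_spec.trans h0

/-- an eigenvector for a linear constituent -/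
theorem exists_eig (ρ : Representation Ω G V) (A : Subgroup G) (lam : A →* Ωˣ)
    (h : Parker.mul (fun p : A => ρ.character p) (fun a => ((lam a : Ωˣ) : Ω)) ≠ 0) :
    ∃ v : V, v ≠ 0 ∧ ∀ a : A, ρ a v = ((lam a : Ωˣ) : Ω) • v := by
  have _ := Fintype.ofFinite A
  have h1 := ip_of_mul h
  rw [Parker.ip_eq] at h1
  have h2 : ∑ x : A, ρ.character x * ((lam x⁻¹ : Ωˣ) : Ω) ≠ 0 := fun h0 => h1 (by rw [h0, mul_zero])
  let T : Module.End Ω V := ∑ x : A, ((lam x⁻¹ : Ωˣ) : Ω) • ρ x
  have hT : LinearMap.trace Ω V T ≠ 0 := by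
    rw [map_sum]
    have h3 : ∑ x : A, LinearMap.trace Ω V (((lam x⁻¹ : Ωˣ) : Ω) • ρ (x : G)) =
        ∑ x : A, ρ.character x * ((lam x⁻¹ : Ωˣ) : Ω) :=
      Finset.sum_congr rfl fun x _ => by rw [map_smul, smul_eq_mul, mul_comm]; rfl
    rw [h3]
    exact h2
  have hT0 : ∃ u, T u ≠ 0 := by
    by_contra hcon
    push Not at hcon
    apply hT
    rw [show T = 0 from LinearMap.ext hcon, map_zero]
  obtain ⟨u, hu⟩ := hT0
  refine ⟨T u, hu, fun a => ?_⟩
  have h4 : ρ (a : G) * T = ((lam a : Ωˣ) : Ω) • T := by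
    show ρ (a : G) * ∑ x : A, ((lam x⁻¹ : Ωˣ) : Ω) • ρ (x : G) =
      ((lam a : Ωˣ) : Ω) • ∑ x : A, ((lam x⁻¹ : Ωˣ) : Ω) • ρ (x : G)
    rw [Finset.mul_sum, Finset.smul_sum]
    refine Fintype.sum_equiv (Equiv.mulLeft a) _ _ fun x => ?_
    show ρ (a : G) * ((lam x⁻¹ : Ωˣ) : Ω) • ρ (x : G) =
      ((lam a : Ωˣ) : Ω) • ((lam (a * x)⁻¹ : Ωˣ) : Ω) • ρ ((a * x : A) : G)
    have e1 : ((lam a : Ωˣ) : Ω) * ((lam (a * x)⁻¹ : Ωˣ) : Ω) = ((lam x⁻¹ : Ωˣ) : Ω) := by
      rw [← Units.val_mul, map_inv, map_mul, map_inv, mul_inv, mul_inv_cancel_left]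
    rw [mul_smul_comm, ← map_mul, smul_smul, e1]
    rfl
  exact LinearMap.congr_fun h4 u

/-- the character on the cyclic subgroup in the two dimensional case -/
theorem two_char {ρ : Representation Ω G V} (hρ : ρ.IsIrreducible) {a g : G} {i e : ℕ}
    (hP : ∀ x, x ∈ Subgroup.zpowers a ∨ x * g⁻¹ ∈ Subgroup.zpowers a) (hga : g * a * g⁻¹ = a ^ i)
    (hii : a ^ (i * i) = a) (hgg : g * g = a ^ e) {ζ : Ω} {v : V} (hv : v ≠ 0)
    (hav : ρ a v = ζ • v) (hne : ζ ^ i ≠ ζ) (j : ℕ) :
    ρ.character (a ^ j) = ζ ^ j + ζ ^ (i * j) := by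
  have hpv : ∀ j : ℕ, ρ (a ^ j) v = ζ ^ j • v := by
    intro j
    induction j with
    | zero => rw [pow_zero, pow_zero, map_one, one_smul]; rfl
    | succ j ih =>
      rw [pow_succ', map_mul, Module.End.mul_apply, ih, map_smul, hav, smul_smul, pow_succ]
  set w := ρ g v with hw
  have hagi : a * g = g * a ^ i := by
    have h1 : g * a ^ i * g⁻¹ = (g * a * g⁻¹) ^ i := (conj_pow).symm
    rw [hga, ← pow_mul, hii] at h1
    calc a * g = (g * a ^ i * g⁻¹) * g := by rw [h1]
      _ = g * a ^ i := by group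
  have haw : ρ a w = ζ ^ i • w := by
    rw [hw, ← Module.End.mul_apply, ← map_mul, hagi, map_mul, Module.End.mul_apply, hpv, map_smul]
  have hpw : ∀ j : ℕ, ρ (a ^ j) w = ζ ^ (i * j) • w := by
    intro j
    induction j with
    | zero => rw [pow_zero, mul_zero, pow_zero, map_one, one_smul]; rfl
    | succ j ih =>
      rw [pow_succ', map_mul, Module.End.mul_apply, ih, map_smul, haw, smul_smul, ← pow_add,
        Nat.mul_succ]
  have hw0 : w ≠ 0 := by
    intro h0
    apply hv
    have h1 := congrArg (ρ g⁻¹) h0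
    rw [hw, Representation.inv_self_apply, map_zero] at h1
    exact h1
  have hgw : ρ g w = ζ ^ e • v := by
    rw [hw, ← Module.End.mul_apply, ← map_mul, hgg, hpv]
  have hpow : ∀ x ∈ Subgroup.zpowers a, ∃ j : ℕ, x = a ^ j := by
    intro x hx
    obtain ⟨j, hj⟩ := (mem_powers_iff_mem_zpowers.2 hx)
    exact ⟨j, hj.symm⟩
  let U : Submodule Ω V := Submodule.span Ω {v, w}
  have hvU : v ∈ U := Submodule.subset_span (by simp)
  have hwU : w ∈ U := Submodule.subset_span (by simp)
  have hU : ∀ x, ∀ u ∈ U, ρ x u ∈ U := by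
    intro x u hu
    obtain ⟨s, t, rfl⟩ := Submodule.mem_span_pair.1 hu
    rw [map_add, map_smul, map_smul]
    rcases hP x with hx | hx
    · obtain ⟨j, rfl⟩ := hpow x hx
      rw [hpv, hpw]
      exact add_mem (U.smul_mem _ (U.smul_mem _ hvU)) (U.smul_mem _ (U.smul_mem _ hwU))
    · obtain ⟨j, hj⟩ := hpow _ hx
      have hx' : x = a ^ j * g := by rw [← hj]; group
      rw [hx', map_mul, Module.End.mul_apply, Module.End.mul_apply, ← hw, hpw, hgw, map_smul, hpv]
      exact add_mem (U.smul_mem _ (U.smul_mem _ hwU))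
        (U.smul_mem _ (U.smul_mem _ (U.smul_mem _ hvU)))
  have hUtop : U = ⊤ := by
    rcases Parker.irr_sub hρ hU with h | h
    · exfalso
      rw [h, Submodule.mem_bot] at hvU
      exact hv hvU
    · exact h
  have hli : LinearIndependent Ω ![v, w] := by
    rw [LinearIndependent.pair_iff]
    intro s t hst
    have h1 := congrArg (ρ a) hst
    rw [map_add, map_smul, map_smul, hav, haw, map_zero] at h1
    have h2 : (t * (ζ ^ i - ζ)) • w = 0 := by
      have h3 : ζ • (s • v + t • w) = 0 := by rw [hst, smul_zero]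
      have h4 : (s • ζ • v + t • ζ ^ i • w) - ζ • (s • v + t • w) = (t * (ζ ^ i - ζ)) • w := by
        module
      rw [← h4, h1, h3, sub_zero]
    have h3 : t = 0 := by
      rcases smul_eq_zero.1 h2 with h4 | h4
      · rcases mul_eq_zero.1 h4 with h5 | h5
        · exact h5
        · exact absurd (sub_eq_zero.1 h5) hne
      · exact absurd h4 hw0
    refine ⟨?_, h3⟩
    rw [h3, zero_smul, add_zero] at hst
    exact (smul_eq_zero.1 hst).resolve_right hv
  have hspan : ⊤ ≤ Submodule.span Ω (Set.range ![v, w]) := by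
    rw [Matrix.range_cons, Matrix.range_cons, Matrix.range_empty, Set.union_empty]
    rw [show ({v} ∪ {w} : Set V) = {v, w} from rfl]
    exact hUtop.ge
  let b : Module.Basis (Fin 2) Ω V := Module.Basis.mk hli hspan
  have hb0 : b 0 = v := by rw [Module.Basis.mk_apply]; rfl
  have hb1 : b 1 = w := by rw [Module.Basis.mk_apply]; rfl
  show LinearMap.trace Ω V (ρ (a ^ j)) = _
  rw [LinearMap.trace_eq_matrix_trace Ω b, Matrix.trace_fin_two, LinearMap.toMatrix_apply,
    LinearMap.toMatrix_apply, hb0, hb1, hpv, hpw, map_smul, map_smul]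
  rw [← hb0, ← hb1, Module.Basis.repr_self, Module.Basis.repr_self]
  simp

end

section

variable {Ω : Type} [Field Ω] [IsAlgClosed Ω] [CharZero Ω] {Γ : Subgroup (RingAut Ω)} {K : Type}
  [Field K] [CharZero K] [Algebra K Ω] {P : Type} [Group P] [Finite P]

omit [CharZero K] in
/-- the abelian case -/
theorem oddRep_comm (hK : ParkerGL.FixedField Γ K) {n : ℕ} {ρ : Representation Ω P (Fin n → Ω)}
    (hρ : ρ.IsIrreducible) (hf : ∀ g, Parker.Fx Γ (ρ.character g))
    (hc : ∀ x y : P, x * y = y * x) : OddRep K ρ.character := by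
  have hscal : ∀ g, ∃ c : Ω, ρ g = c • 1 := fun g =>
    Parker.schur hρ (T := ρ g) fun h => by rw [← map_mul, ← map_mul, hc]
  have hpos := Parker.irr_pos hρ
  obtain ⟨v, hv⟩ := Module.finrank_pos_iff_exists_ne_zero.1 hpos
  have hfin : Module.finrank Ω (Fin n → Ω) = 1 := by
    rcases Parker.irr_sub hρ (U := Submodule.span Ω {v}) (fun g x hx => by
      obtain ⟨c, hc'⟩ := hscal g
      rw [hc']
      exact Submodule.smul_mem _ c hx) with h | h
    · exact absurd (Submodule.span_singleton_eq_bot.1 h) hv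
    · rw [← finrank_top Ω (Fin n → Ω), ← h]
      exact finrank_span_singleton hv
  have hval : ∀ g, ρ g = ρ.character g • 1 := by
    intro g
    obtain ⟨c, hc'⟩ := hscal g
    have h1 : ρ.character g = c := by
      show LinearMap.trace Ω (Fin n → Ω) (ρ g) = c
      rw [hc', map_smul, LinearMap.trace_one, hfin]
      simp
    rw [h1]
    exact hc'
  have hone : ρ.character 1 = 1 := by
    rw [Representation.char_one, hfin, Nat.cast_one]
  have hmul : ∀ g h, ρ.character (g * h) = ρ.character g * ρ.character h := by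
    intro g h
    show LinearMap.trace Ω (Fin n → Ω) (ρ (g * h)) = _
    rw [map_mul, hval g, hval h, smul_mul_smul_comm, mul_one, map_smul, LinearMap.trace_one, hfin]
    simp
  choose y hy using fun g => (hK (ρ.character g)).1 (hf g)
  have hinj : Function.Injective (algebraMap K Ω) := (algebraMap K Ω).injective
  let τ : Representation K P K :=
    { toFun := fun g => y g • (1 : Module.End K K)
      map_one' := by
        have h1 : y 1 = 1 := hinj (by rw [hy, hone, map_one])
        rw [h1, one_smul]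
      map_mul' := by
        intro g h
        have h1 : y (g * h) = y g * y h := hinj (by rw [hy, hmul, map_mul, hy, hy])
        rw [h1, smul_mul_smul_comm, mul_one] }
  refine ⟨K, inferInstance, inferInstance, inferInstance, τ, ?_⟩
  have h1 : (fun g => algebraMap K Ω (τ.character g)) = ρ.character := by
    funext g
    have h2 : τ.character g = y g := by
      show LinearMap.trace K K (y g • (1 : Module.End K K)) = y g
      rw [map_smul, LinearMap.trace_one, Module.finrank_self]
      simp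
    rw [h2, hy]
  rw [h1, Parker.mul_self hρ]
  exact odd_one

end

end B06_aux



theorem two_group {Ω : Type} [Field Ω] [IsAlgClosed Ω] [CharZero Ω] {Γ : Subgroup (RingAut Ω)} {K : Type}
    [Field K] [CharZero K] [Algebra K Ω] {P : Type} [Group P] [Finite P] (hK : ParkerGL.FixedField Γ K)
    (hP : IsPGroup 2 P) {θ : P → Ω} (hθ : θ ∈ Parker.irr Ω P) (hf : ∀ g, Parker.Fx Γ (θ g)) {ω : Ω}
    (hω : Parker.Fx Γ ω) (hω3 : ω ^ 3 = 1) (hω1 : ω ≠ 1) : OddRep K θ := by
  obtain ⟨N, hN⟩ : ∃ N, Nat.card P = N := ⟨_, rfl⟩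
  induction N using Nat.strong_induction_on generalizing P with
  | _ N ih =>
    -- (a) a fixed character of a proper subgroup with odd multiplicity
    by_cases hmin : ∀ (H : Subgroup P), H ≠ ⊤ → ∀ ψ ∈ Parker.irr Ω H, (∀ g, Parker.Fx Γ (ψ g)) →
      ¬ Odd (Parker.mul (fun p : H => θ p) ψ)
    swap
    · push Not at hmin
      obtain ⟨H, hH, ψ, hψ, hψf, hodd⟩ := hmin
      have hcard : Nat.card H < N := by
        rw [← hN]
        refine lt_of_le_of_ne (Nat.card_le_card_of_injective _ H.subtype_injective) fun h => hH ?_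
        exact Subgroup.eq_top_of_card_eq H h
      exact oddRep_ind hK hθ hψ hψf hodd (ih (Nat.card H) hcard (hP.to_subgroup H) hψ hψf rfl)
    obtain ⟨n, ρ, hρ, rfl⟩ := Parker.mem_irr.1 hθ
    -- (b) the kernel
    by_cases hker : ∀ g, ρ g = 1 → g = 1
    swap
    · push Not at hker
      obtain ⟨g0, hg0, hg1⟩ := hker
      let M : Subgroup P := MonoidHom.ker ρ
      have hM : 1 < Nat.card M := by
        have : Nontrivial M := ⟨⟨⟨g0, hg0⟩, 1, fun h => hg1 (congrArg Subtype.val h)⟩⟩
        exact Finite.one_lt_card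
      have hcard : Nat.card (P ⧸ M) < N := by
        rw [← hN, Subgroup.card_eq_card_quotient_mul_card_subgroup M]
        have h1 : 0 < Nat.card (P ⧸ M) := Nat.card_pos
        nlinarith
      let τ : Representation Ω (P ⧸ M) (Fin n → Ω) := QuotientGroup.lift M ρ le_rfl
      have hτ : ∀ g : P, τ (QuotientGroup.mk' M g) = ρ g := fun g => rfl
      have hirr : τ.IsIrreducible := by
        refine Parker.irr_of_sub (Parker.irr_pos hρ) fun U hU => Parker.irr_sub hρ fun g x hx => ?_
        rw [← hτ g]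
        exact hU _ x hx
      have hmem : τ.character ∈ Parker.irr Ω (P ⧸ M) := Parker.mem_irr.2 ⟨n, τ, hirr, rfl⟩
      have hfx : ∀ q, Parker.Fx Γ (τ.character q) := by
        intro q
        obtain ⟨g, rfl⟩ := QuotientGroup.mk'_surjective M q
        exact hf g
      exact oddRep_pb (QuotientGroup.mk'_surjective M) hmem
        (ih (Nat.card (P ⧸ M)) hcard (hP.to_quotient M) hmem hfx rfl)
    have hfaith : ∀ g, ρ.character g = ρ.character 1 → g = 1 := fun g hg =>
      hker g (B06_aux.char_ker ρ hg)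
    -- (c) abelian normal subgroups are cyclic
    have hcyc : ∀ V : Subgroup P, V.Normal → (∀ x ∈ V, ∀ y ∈ V, x * y = y * x) → IsCyclic V := by
      intro V hVn hV
      obtain ⟨lam, hlam⟩ := exists_lam hθ V hV
      have hinj := lam_faithful hθ hfaith V hV lam hlam (all_conj hθ hf hmin V hV lam hlam)
      exact isCyclic_of_injective_ringHom ((Units.coeHom Ω).comp lam)
        (Units.val_injective.comp hinj)
    obtain ⟨A, hAn, -, hAab, hAsc⟩ := exists_self_cent hP ⊥ inferInstance (by
      intro x hx y hy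
      rw [Subgroup.mem_bot] at hx hy
      rw [hx, hy])
    obtain ⟨⟨a, haA⟩, ha⟩ := (hcyc A hAn hAab).exists_generator
    have hAa : A = Subgroup.zpowers a := by
      refine le_antisymm ?_ (by rwa [Subgroup.zpowers_le])
      intro x hx
      obtain ⟨j, hj⟩ := ha ⟨x, hx⟩
      exact ⟨j, congrArg Subtype.val hj⟩
    subst hAa
    obtain ⟨l, ho⟩ := (IsPGroup.iff_orderOf.1 hP) a
    have hsc : ∀ x, x * a = a * x → x ∈ Subgroup.zpowers a := by
      intro x hx
      refine hAsc x fun b hb => ?_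
      obtain ⟨j, rfl⟩ := hb
      have h1 : Commute x a := hx
      exact h1.zpow_right j
    rcases index_two hP hcyc ho hAn hsc with hall | ⟨g, i, hg, hPg, hga, hi, hl, hii, hgg⟩
    · refine B06_aux.oddRep_comm hK hρ hf fun x y => ?_
      exact hAab x (hall x) y (hall y)
    · obtain ⟨lam, hlam⟩ := exists_lam hθ (Subgroup.zpowers a) hAab
      have hconj := all_conj hθ hf hmin (Subgroup.zpowers a) hAab lam hlam
      have hinj := lam_faithful hθ hfaith (Subgroup.zpowers a) hAab lam hlam hconj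
      let a' : Subgroup.zpowers a := ⟨a, Subgroup.mem_zpowers a⟩
      set ζ : Ω := ((lam a' : Ωˣ) : Ω) with hζdef
      have hord : orderOf ζ = 2 ^ l := by
        rw [hζdef, orderOf_units, orderOf_injective lam hinj, ← ho]
        exact Subgroup.orderOf_mk a _
      have hζ : IsPrimitiveRoot ζ (2 ^ l) := by
        rw [← hord]
        exact IsPrimitiveRoot.orderOf ζ
      have hne : ζ ^ i ≠ ζ := by
        intro h
        have h4 : 4 ∣ 2 ^ l := (pow_dvd_pow 2 hl : 2 ^ 2 ∣ 2 ^ l)
        have h7 : lam (a' ^ i) = lam a' := by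
          rw [map_pow]
          refine Units.ext ?_
          rw [Units.val_pow_eq_pow_val]
          exact h
        have h5 : a ^ i = a ^ 1 := by
          rw [pow_one]
          exact congrArg Subtype.val (hinj h7)
        rw [pow_inj_mod, ho] at h5
        have h6 := congrArg (· % 4) h5
        simp only [Nat.mod_mod_of_dvd _ h4] at h6
        omega
      have hσ : ∃ σ ∈ Γ, σ ζ = ζ ^ i := by
        obtain ⟨σ, hσ, h⟩ := hconj g
        refine ⟨σ, hσ, ?_⟩
        have h1 := h a'
        have h2 : MulAut.conjNormal g a' = a' ^ i := by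
          refine Subtype.ext ?_
          rw [MulAut.conjNormal_apply, Subgroup.coe_pow]
          exact hga
        rw [h2, map_pow, Units.val_pow_eq_pow_val] at h1
        exact h1.symm
      obtain ⟨v, hv, hav⟩ := B06_aux.exists_eig ρ (Subgroup.zpowers a) lam hlam
      have hee : ∃ e : ℕ, g * g = a ^ e := by
        rcases hgg with h | h
        · exact ⟨0, by rw [h, pow_zero]⟩
        · exact ⟨_, h⟩
      obtain ⟨e, he⟩ := hee
      have hθA : ∀ j : ℕ, ρ.character (a ^ j) = ζ ^ j + ζ ^ (i * j) := fun j =>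
        B06_aux.two_char hρ hPg hga hii he hv (hav a') hne j
      exact two_dim hK hθ hf hl ho hAn hg hPg hga hi hii hgg hζ hθA hσ hω hω3 hω1

end

end LieP
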