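import Pool.Agent.LieP.Defs2

/-!
# MP_6c3636_al, LieP, module B07: an odd integral class function (helper7)

Section 13, (13.3). `ι` = the set of the conjugacy classes of elements of odd order, `x i` a representative, `P i` a Sylow `2`-subgroup of the centralizer of `x i`. For `g = g' u` (`g'` of odd order, `u` of `2`-power order, powers of `g`) the `i`-th term is zero unless
`x i` is conjugate to `g'` (if `t g t⁻¹ = x v`, `v ∈ P`, then `t g' t⁻¹ = x` by uniqueness of the decomposition); after conjugation `g' = x`: the `t` are in the centralizer `C` of `x` and the number divided by `|P|` is the number of fixed points of `u` on `C / P`, which is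
`|C : P| = 1 mod 2`.
-/

namespace LieP

noncomputable section

open Classical

namespace B07_aux

/-- the exponent which gives the part of odd order -/
theorem exists_exp (G : Type) [Group G] [Finite G] : ∃ k : ℕ,
    (∀ a : G, Odd (orderOf a) → a ^ k = a) ∧ (∀ v : G, (∃ n, v ^ (2 ^ n) = 1) → v ^ k = 1) ∧
    (∀ g : G, Odd (orderOf (g ^ k))) ∧ (∀ g : G, ∃ n, ((g ^ k)⁻¹ * g) ^ (2 ^ n) = 1) := by
  obtain ⟨m, r, hr, hG⟩ := Nat.exists_eq_two_pow_mul_odd (n := Nat.card G) Nat.card_pos.ne'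
  have hco : Nat.Coprime (2 ^ m) r := (Nat.coprime_two_left.mpr hr).pow_left m
  obtain ⟨k, hk0, hk1⟩ := Nat.chineseRemainder hco 0 1
  have hk2 : 2 ^ m ∣ k := (Nat.modEq_zero_iff_dvd).mp hk0
  refine ⟨k, ?_, ?_, ?_, ?_⟩
  · intro a ha
    have h1 : orderOf a ∣ 2 ^ m * r := hG ▸ orderOf_dvd_natCard a
    have h2 : Nat.Coprime (orderOf a) (2 ^ m) := ((Nat.coprime_two_left.mpr ha).pow_left m).symm
    have h3 : orderOf a ∣ r := h2.dvd_of_dvd_mul_left h1
    have h4 : a ^ k = a ^ 1 := pow_eq_pow_iff_modEq.mpr (hk1.of_dvd h3)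
    rw [h4, pow_one]
  · rintro v ⟨n, hn⟩
    have h1 : orderOf v ∣ 2 ^ m * r := hG ▸ orderOf_dvd_natCard v
    have h2 : orderOf v ∣ 2 ^ n := orderOf_dvd_of_pow_eq_one hn
    have h3 : Nat.Coprime (orderOf v) r := Nat.Coprime.coprime_dvd_left h2 ((Nat.coprime_two_left.mpr hr).pow_left n)
    have h4 : orderOf v ∣ 2 ^ m := h3.dvd_of_dvd_mul_right h1
    exact orderOf_dvd_iff_pow_eq_one.mp (h4.trans hk2)
  · intro g
    have h1 : (g ^ k) ^ r = 1 := by
      rw [← pow_mul]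
      apply orderOf_dvd_iff_pow_eq_one.mp
      refine (orderOf_dvd_natCard g).trans ?_
      rw [hG]
      exact Nat.mul_dvd_mul hk2 dvd_rfl
    exact hr.of_dvd_nat (orderOf_dvd_of_pow_eq_one h1)
  · intro g
    refine ⟨m, ?_⟩
    have hc : Commute (g ^ k)⁻¹ g := ((Commute.refl g).pow_left k).inv_left
    rw [hc.mul_pow, inv_pow, ← pow_mul]
    have h1 : g ^ (k * 2 ^ m) = g ^ (2 ^ m) := by
      apply pow_eq_pow_iff_modEq.mpr
      refine Nat.ModEq.of_dvd (hG ▸ orderOf_dvd_natCard g) ?_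
      have h2 : k * 2 ^ m ≡ 1 * 2 ^ m [MOD r * 2 ^ m] := hk1.mul_right' (2 ^ m)
      rw [one_mul, mul_comm r] at h2
      exact h2
    rw [h1, inv_mul_cancel]

variable {G : Type} [Group G] [Finite G]

theorem conj_eq {k : ℕ} (h1 : ∀ a : G, Odd (orderOf a) → a ^ k = a)
    (h2 : ∀ v : G, (∃ n, v ^ (2 ^ n) = 1) → v ^ k = 1) {x : G} (hx : Odd (orderOf x))
    {C : Subgroup G} (hC : ∀ c, c ∈ C ↔ c * x = x * c)
    (P : Sylow 2 C) {g s : G} (h : x⁻¹ * (s * g * s⁻¹) ∈ (P : Subgroup C).map C.subtype) :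
    s * g ^ k * s⁻¹ = x := by
  obtain ⟨v, hv, hvx⟩ := h
  have hv' : (v : G) = x⁻¹ * (s * g * s⁻¹) := hvx
  have hc : Commute x (v : G) := ((hC v).mp v.2).symm
  obtain ⟨n, hn⟩ := P.isPGroup' ⟨v, hv⟩
  have hn' : (v : G) ^ (2 ^ n) = 1 := by
    have := congrArg (fun z : P => ((z : C) : G)) hn
    simpa using this
  have e1 : s * g * s⁻¹ = x * v := by rw [hv', mul_inv_cancel_left]
  have e2 : s * g ^ k * s⁻¹ = (s * g * s⁻¹) ^ k := by rw [conj_pow]
  rw [e2, e1, hc.mul_pow, h1 x hx, h2 v ⟨n, hn'⟩, mul_one]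

theorem main {k : ℕ} (h1 : ∀ a : G, Odd (orderOf a) → a ^ k = a)
    (h2 : ∀ v : G, (∃ n, v ^ (2 ^ n) = 1) → v ^ k = 1)
    (h4 : ∀ g : G, ∃ n, ((g ^ k)⁻¹ * g) ^ (2 ^ n) = 1) {x : G} (hx : Odd (orderOf x))
    {C : Subgroup G} (hC : ∀ c, c ∈ C ↔ c * x = x * c)
    (P : Sylow 2 C) (g s0 : G) (h0 : s0 * g ^ k * s0⁻¹ = x) :
    ∃ N, Odd N ∧ Nat.card {s : G // x⁻¹ * (s * g * s⁻¹) ∈ (P : Subgroup C).map C.subtype} =
      Nat.card ((P : Subgroup C).map C.subtype) * N := by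
  have hxg : x * (s0 * g * s0⁻¹) = (s0 * g * s0⁻¹) * x := by
    rw [← h0, ← conj_pow]
    exact (Commute.refl (s0 * g * s0⁻¹)).pow_left k
  have hu1 : x⁻¹ * (s0 * g * s0⁻¹) ∈ C := by
    rw [hC]
    rw [mul_assoc, ← hxg, inv_mul_cancel_left, mul_inv_cancel_left]
  set u : C := ⟨x⁻¹ * (s0 * g * s0⁻¹), hu1⟩ with hu
  have hup : ∃ n, u ^ (2 ^ n) = 1 := by
    obtain ⟨n, hn⟩ := h4 g
    refine ⟨n, ?_⟩
    apply Subtype.ext
    rw [Subgroup.coe_pow, Subgroup.coe_one]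
    show (x⁻¹ * (s0 * g * s0⁻¹)) ^ (2 ^ n) = 1
    have e1 : x⁻¹ * (s0 * g * s0⁻¹) = s0 * ((g ^ k)⁻¹ * g) * s0⁻¹ := by
      rw [← h0]; group
    rw [e1, conj_pow, hn, mul_one, mul_inv_cancel]
  have hZ : IsPGroup 2 (Subgroup.zpowers u) := by
    obtain ⟨n, hn⟩ := hup
    rintro ⟨z, j, rfl⟩
    refine ⟨n, Subtype.ext ?_⟩
    rw [Subgroup.coe_pow, Subgroup.coe_one]
    show (u ^ j) ^ (2 ^ n) = 1
    rw [← zpow_natCast, ← zpow_mul, mul_comm, zpow_mul, zpow_natCast, hn, one_zpow]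
  have hodd : Odd (Nat.card (MulAction.fixedPoints (Subgroup.zpowers u) (C ⧸ (P : Subgroup C)))) := by
    have e1 := hZ.card_modEq_card_fixedPoints (C ⧸ (P : Subgroup C))
    have e2 : ¬ 2 ∣ Nat.card (C ⧸ (P : Subgroup C)) := P.not_dvd_index
    rw [← Nat.not_even_iff_odd, even_iff_two_dvd]
    intro h
    apply e2
    exact (Nat.modEq_zero_iff_dvd).mp (e1.trans ((Nat.modEq_zero_iff_dvd).mpr h))
  refine ⟨_, hodd, ?_⟩
  have hcard : Nat.card ((P : Subgroup C).map C.subtype) = Nat.card (P : Subgroup C) :=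
    Nat.card_congr ((P : Subgroup C).equivMapOfInjective C.subtype C.subtype_injective).symm.toEquiv
  rw [hcard, ← Nat.card_prod,
    ← Nat.card_congr (QuotientGroup.preimageMkEquivSubgroupProdSet (P : Subgroup C)
      (MulAction.fixedPoints (Subgroup.zpowers u) (C ⧸ (P : Subgroup C))))]
  have hfix : ∀ c : C, (QuotientGroup.mk c : C ⧸ (P : Subgroup C)) ∈
      MulAction.fixedPoints (Subgroup.zpowers u) (C ⧸ (P : Subgroup C)) ↔ c⁻¹ * u * c ∈ (P : Subgroup C) := by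
    intro c
    have e0 : ∀ z : C, (QuotientGroup.mk (z * c) : C ⧸ (P : Subgroup C)) = QuotientGroup.mk c ↔
        c⁻¹ * z * c ∈ (P : Subgroup C) := by
      intro z
      rw [eq_comm, QuotientGroup.eq, mul_assoc]
    constructor
    · intro h
      have := h ⟨u, Subgroup.mem_zpowers u⟩
      exact (e0 u).mp this
    · intro h
      rintro ⟨z, j, rfl⟩
      show (QuotientGroup.mk (u ^ j * c) : C ⧸ (P : Subgroup C)) = QuotientGroup.mk c
      rw [e0]
      have e1 : c⁻¹ * u ^ j * c = (c⁻¹ * u * c) ^ j := by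
        have := conj_zpow (i := j) (a := c⁻¹) (b := u)
        rw [inv_inv] at this
        exact this.symm
      rw [e1]
      exact Subgroup.zpow_mem _ h j
  have hto : ∀ s : G, x⁻¹ * (s * g * s⁻¹) ∈ (P : Subgroup C).map C.subtype → s0 * s⁻¹ ∈ C := by
    intro s hs
    have e1 := conj_eq h1 h2 hx hC P hs
    rw [hC]
    calc s0 * s⁻¹ * x = s0 * s⁻¹ * (s * g ^ k * s⁻¹) := by rw [e1]
      _ = (s0 * g ^ k * s0⁻¹) * (s0 * s⁻¹) := by group
      _ = x * (s0 * s⁻¹) := by rw [h0]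
  have hcc : ∀ c : C, ((c⁻¹ * u * c : C) : G) = x⁻¹ * (((c : G)⁻¹ * s0) * g * ((c : G)⁻¹ * s0)⁻¹) := by
    intro c
    have e1 : (c : G) * x = x * c := (hC c).mp c.2
    have e2 : (c : G)⁻¹ * x⁻¹ = x⁻¹ * (c : G)⁻¹ := by
      rw [← mul_inv_rev, ← mul_inv_rev, e1]
    show (c : G)⁻¹ * (x⁻¹ * (s0 * g * s0⁻¹)) * c = _
    rw [← mul_assoc (c : G)⁻¹, e2]
    group
  refine Nat.card_congr
    { toFun := fun s => ⟨⟨s0 * s.1⁻¹, hto s.1 s.2⟩, ?_⟩
      invFun := fun c => ⟨((c.1 : C) : G)⁻¹ * s0, ?_⟩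
      left_inv := ?_
      right_inv := ?_ }
  · refine (hfix _).mpr ?_
    obtain ⟨v, hv, hvx⟩ := s.2
    have e3 : (⟨s0 * s.1⁻¹, hto s.1 s.2⟩ : C)⁻¹ * u * ⟨s0 * s.1⁻¹, hto s.1 s.2⟩ = v := by
      apply Subtype.ext
      rw [hcc]
      have hv' : (v : G) = x⁻¹ * (s.1 * g * s.1⁻¹) := hvx
      rw [hv']
      show x⁻¹ * ((s0 * s.1⁻¹)⁻¹ * s0 * g * ((s0 * s.1⁻¹)⁻¹ * s0)⁻¹) = _
      group
    rw [e3]
    exact hv
  · have hc2 := (hfix c.1).mp c.2
    exact ⟨_, hc2, hcc c.1⟩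
  · intro s
    apply Subtype.ext
    show (s0 * s.1⁻¹)⁻¹ * s0 = s.1
    group
  · intro c
    apply Subtype.ext
    apply Subtype.ext
    show s0 * ((c.1 : G)⁻¹ * s0)⁻¹ = c.1
    group

end B07_aux

theorem exists_family (G : Type) [Group G] [Finite G] :
    ∃ (ι : Type) (_ : Fintype ι) (x : ι → G) (P : ι → Subgroup G),
      (∀ i, Odd (orderOf (x i))) ∧ (∀ i, IsPGroup 2 (P i)) ∧ (∀ i, ∀ u ∈ P i, u * x i = x i * u) ∧
      (∀ i g, Nat.card (P i) ∣ Nat.card {s : G // (x i)⁻¹ * (s * g * s⁻¹) ∈ P i}) ∧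
      ∀ g, Odd (∑ i, Nat.card {s : G // (x i)⁻¹ * (s * g * s⁻¹) ∈ P i} / Nat.card (P i)) := by
  obtain ⟨k, h1, h2, h3, h4⟩ := B07_aux.exists_exp G
  let x : {c : ConjClasses G // ∃ a : G, Odd (orderOf a) ∧ ConjClasses.mk a = c} → G := fun i => i.2.choose
  have hxo : ∀ i, Odd (orderOf (x i)) := fun i => i.2.choose_spec.1
  have hxc : ∀ i, ConjClasses.mk (x i) = i.1 := fun i => i.2.choose_spec.2
  let P' : ∀ i : {c : ConjClasses G // ∃ a : G, Odd (orderOf a) ∧ ConjClasses.mk a = c},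
    Sylow 2 (Subgroup.centralizer ({x i} : Set G)) := fun i => default
  let P : {c : ConjClasses G // ∃ a : G, Odd (orderOf a) ∧ ConjClasses.mk a = c} → Subgroup G :=
    fun i => (P' i : Subgroup (Subgroup.centralizer ({x i} : Set G))).map
      (Subgroup.centralizer ({x i} : Set G)).subtype
  have hcon : ∀ i g s, (x i)⁻¹ * (s * g * s⁻¹) ∈ P i → s * g ^ k * s⁻¹ = x i :=
    fun i g s h => B07_aux.conj_eq h1 h2 (hxo i) (fun _ => Subgroup.mem_centralizer_singleton_iff) (P' i) h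
  have hF : Fintype {c : ConjClasses G // ∃ a : G, Odd (orderOf a) ∧ ConjClasses.mk a = c} :=
    Fintype.ofFinite _
  refine ⟨_, hF, x, P, hxo, ?_, ?_, ?_, ?_⟩
  · intro i
    exact (P' i).isPGroup'.map _
  · rintro i u ⟨v, hv, rfl⟩
    exact Subgroup.mem_centralizer_singleton_iff.mp v.2
  · intro i g
    by_cases h : ∃ s : G, (x i)⁻¹ * (s * g * s⁻¹) ∈ P i
    · obtain ⟨s, hs⟩ := h
      obtain ⟨N, hN, hc⟩ := B07_aux.main h1 h2 h4 (hxo i) (fun _ => Subgroup.mem_centralizer_singleton_iff) (P' i) g s (hcon i g s hs)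
      exact ⟨N, hc⟩
    · have : IsEmpty {s : G // (x i)⁻¹ * (s * g * s⁻¹) ∈ P i} := ⟨fun s => h ⟨s.1, s.2⟩⟩
      have e : Nat.card {s : G // (x i)⁻¹ * (s * g * s⁻¹) ∈ P i} = 0 := Nat.card_of_isEmpty
      rw [e]
      exact dvd_zero _
  · intro g
    let i0 : {c : ConjClasses G // ∃ a : G, Odd (orderOf a) ∧ ConjClasses.mk a = c} :=
      ⟨ConjClasses.mk (g ^ k), g ^ k, h3 g, rfl⟩
    rw [Finset.sum_eq_single i0]
    · have e1 : ConjClasses.mk (g ^ k) = ConjClasses.mk (x i0) := (hxc i0).symm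
      obtain ⟨s0, hs0⟩ := isConj_iff.mp (ConjClasses.mk_eq_mk_iff_isConj.mp e1)
      obtain ⟨N, hN, hc⟩ := B07_aux.main h1 h2 h4 (hxo i0) (fun _ => Subgroup.mem_centralizer_singleton_iff) (P' i0) g s0 hs0
      have e2 : Nat.card {s : G // (x i0)⁻¹ * (s * g * s⁻¹) ∈ P i0} = Nat.card (P i0) * N := hc
      rw [e2, Nat.mul_div_cancel_left _ Nat.card_pos]
      exact hN
    · intro i _ hi
      have : IsEmpty {s : G // (x i)⁻¹ * (s * g * s⁻¹) ∈ P i} := by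
        refine ⟨fun s => hi ?_⟩
        apply Subtype.ext
        rw [← hxc i]
        show ConjClasses.mk (x i) = ConjClasses.mk (g ^ k)
        exact ConjClasses.mk_eq_mk_iff_isConj.mpr (isConj_iff.mpr ⟨s.1, hcon i g s.1 s.2⟩).symm
      have e : Nat.card {s : G // (x i)⁻¹ * (s * g * s⁻¹) ∈ P i} = 0 := Nat.card_of_isEmpty
      rw [e, Nat.zero_div]
    · intro h
      exact absurd (Finset.mem_univ _) h

end

end LieP
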