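import Pool.Agent.LieP.B07
import Pool.Agent.Parker.P15
import Pool.Agent.Parker.P09
import Pool.Agent.ParkerGL.A06

/-!
# MP_6c3636_al, LieP, module B08: virtual characters with coefficients in a ring of roots of unity (helper7)

Section 13, (13.4). `Rt Ω r` is the subring generated by the `r`-th roots of unity; its elements are integral, and fixed by every `σ` which fixes the `r`-th roots of unity. `Vir r ψ`: `ψ` is a combination of irreducible characters with coefficients in `Rt Ω r`.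
`vir_mul`: products of irreducible characters are sums of irreducible characters with natural coefficients. `vir_res`: restriction. `vir_ind`: the function `g ↦ |P|⁻¹ #{s : x⁻¹ s g s⁻¹ ∈ P}` is induced from the class function `δ` on `H = ⟨x⟩ P` which is `|⟨x⟩|` on `x P` and `0` elsewhere, and
`δ = ∑ ν(x⁻¹) ν` over the linear characters of `⟨x⟩`, inflated to `H` (`H ≅ ⟨x⟩ × P`); Frobenius reciprocity. `r` is a multiple of the order of `x`.
-/

namespace LieP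

noncomputable section

open Classical


section

variable {Ω : Type} [Field Ω] [IsAlgClosed Ω] [CharZero Ω] {G : Type} [Group G] [Finite G]

/-- the ring generated by the `r`-th roots of unity -/
def Rt (Ω : Type) [Field Ω] (r : ℕ) : Subring Ω := Subring.closure {z | z ^ r = 1}

/-- `ψ` is a combination of irreducible characters with coefficients in `Rt Ω r` -/
def Vir (r : ℕ) (ψ : G → Ω) : Prop :=
  ∃ cc : (G → Ω) → Ω, (∀ χ, cc χ ∈ Rt Ω r) ∧ ∀ g, ψ g = ∑ χ ∈ Parker.irr Ω G, cc χ * χ g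

namespace B08_aux

omit [IsAlgClosed Ω] [CharZero Ω] in
theorem mem_rt {r : ℕ} {z : Ω} (h : z ^ r = 1) : z ∈ Rt Ω r := Subring.subset_closure h

theorem tr_mem {V : Type} [AddCommGroup V] [Module Ω V] [FiniteDimensional Ω V]
    (T : Module.End Ω V) {r : ℕ} (h : T ^ (r + 1) = T) : LinearMap.trace Ω V T ∈ Rt Ω r := by
  have h0 : LinearMap.trace Ω V T = T.charpoly.roots.sum :=
    Module.End.trace_eq_sum_roots_charpoly_of_splits (IsAlgClosed.splits _)
  rw [h0]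
  refine multiset_sum_mem _ fun ζ hζ => ?_
  have h1 : T.charpoly.IsRoot ζ := Polynomial.isRoot_of_mem_roots hζ
  rw [← Module.End.hasEigenvalue_iff_isRoot_charpoly] at h1
  obtain ⟨v, hv⟩ := h1.exists_hasEigenvector
  have h2 : (T ^ (r + 1)) v = ζ ^ (r + 1) • v := hv.pow_apply (r + 1)
  rw [h, hv.apply_eq_smul] at h2
  have h3 : (ζ ^ (r + 1) - ζ) • v = 0 := by
    rw [sub_smul, ← h2, sub_self]
  have h4 : ζ ^ (r + 1) - ζ = 0 := (smul_eq_zero.1 h3).resolve_right hv.2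
  have h5 : ζ * (ζ ^ r - 1) = 0 := by rw [← h4]; ring
  rcases mul_eq_zero.1 h5 with h6 | h6
  · rw [h6]
    exact Subring.zero_mem _
  · exact mem_rt (sub_eq_zero.1 h6)

/-- the trace of `x⁻¹` on the invariants of `P` -/
theorem core {V : Type} [AddCommGroup V] [Module Ω V] [FiniteDimensional Ω V]
    (ρ : Representation Ω G V) {r : ℕ} {x : G} (hx : x ^ r = 1) (P : Subgroup G)
    (hc : ∀ u ∈ P, u * x = x * u) [Fintype P] :
    (Nat.card P : Ω)⁻¹ * ∑ u : P, ρ.character (x * u)⁻¹ ∈ Rt Ω r := by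
  set e : Module.End Ω V := (Nat.card P : Ω)⁻¹ • ∑ u : P, ρ (u : G) with he
  have hP : (Nat.card P : Ω) ≠ 0 := Nat.cast_ne_zero.2 Nat.card_pos.ne'
  have h1 : ∀ v : P, ρ (v : G) * e = e := by
    intro v
    rw [he, mul_smul_comm, Finset.mul_sum]
    congr 1
    rw [← Equiv.sum_comp (Equiv.mulLeft v) (fun u : P => ρ (u : G))]
    refine Finset.sum_congr rfl fun u _ => ?_
    rw [← map_mul]
    rfl
  have h2 : e * e = e := by
    conv_lhs => rw [he]
    rw [smul_mul_assoc, Finset.sum_mul, Finset.sum_congr rfl fun u _ => h1 u, Finset.sum_const,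
      Finset.card_univ, ← Nat.card_eq_fintype_card, ← Nat.cast_smul_eq_nsmul Ω, smul_smul,
      inv_mul_cancel₀ hP, one_smul]
  have h3 : ρ x⁻¹ * e = e * ρ x⁻¹ := by
    rw [he, mul_smul_comm, smul_mul_assoc, Finset.mul_sum, Finset.sum_mul]
    congr 1
    refine Finset.sum_congr rfl fun u _ => ?_
    rw [← map_mul, ← map_mul]
    congr 1
    have h4 := hc u u.2
    rw [inv_mul_eq_iff_eq_mul, ← mul_assoc, ← h4, mul_assoc, mul_inv_cancel, mul_one]
  have h4 : ∀ n : ℕ, (e * ρ x⁻¹) ^ (n + 1) = e * ρ x⁻¹ ^ (n + 1) := by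
    intro n
    induction n with
    | zero => rw [zero_add, pow_one, pow_one]
    | succ n ih =>
      have h5 : ρ x⁻¹ ^ (n + 1) * e = e * ρ x⁻¹ ^ (n + 1) := by
        have h6 : Commute (ρ x⁻¹) e := h3
        exact (h6.pow_left (n + 1)).eq
      rw [pow_succ, ih, ← mul_assoc, mul_assoc e (ρ x⁻¹ ^ (n + 1)) e, h5, ← mul_assoc, h2, mul_assoc,
        ← pow_succ]
  have h5 : (e * ρ x⁻¹) ^ (r + 1) = e * ρ x⁻¹ := by
    rw [h4, ← map_pow, pow_succ, inv_pow, hx, inv_one, one_mul]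
  have h6 := tr_mem (e * ρ x⁻¹) h5
  have h7 : LinearMap.trace Ω V (e * ρ x⁻¹) =
      (Nat.card P : Ω)⁻¹ * ∑ u : P, ρ.character (x * u)⁻¹ := by
    rw [he, smul_mul_assoc, map_smul, smul_eq_mul, Finset.sum_mul, map_sum]
    congr 1
    rw [← Equiv.sum_comp (Equiv.inv P)]
    refine Finset.sum_congr rfl fun u _ => ?_
    rw [← map_mul, mul_inv_rev]
    rfl
  rw [← h7]
  exact h6

theorem core_irr {χ : G → Ω} (hχ : χ ∈ Parker.irr Ω G) {r : ℕ} {x : G} (hx : x ^ r = 1)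
    (P : Subgroup G) (hc : ∀ u ∈ P, u * x = x * u) [Fintype P] :
    (Nat.card P : Ω)⁻¹ * ∑ u : P, χ (x * u)⁻¹ ∈ Rt Ω r := by
  obtain ⟨n, τ, hτ, rfl⟩ := Parker.mem_irr.1 hχ
  exact core τ hx P hc

omit [IsAlgClosed Ω] [CharZero Ω] [Finite G] in
theorem sum_coset [Fintype G] (x : G) (P : Subgroup G) [Fintype P] (f : G → Ω) :
    ∑ g : G, (if x⁻¹ * g ∈ P then f g else 0) = ∑ u : P, f (x * u) := by
  rw [← Equiv.sum_comp (Equiv.mulLeft x)]
  have h1 : ∀ g : G, (if x⁻¹ * (Equiv.mulLeft x g) ∈ P then f (Equiv.mulLeft x g) else 0) =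
      if g ∈ P then f (x * g) else 0 := by
    intro g
    rw [Equiv.coe_mulLeft, inv_mul_cancel_left]
  rw [Finset.sum_congr rfl fun g _ => h1 g, ← Finset.sum_filter]
  refine (Finset.sum_subtype _ (fun g => ?_) _)
  simp

theorem vir_of_ip {r : ℕ} {ψ : G → Ω} (hcl : ∀ g x, ψ (g * x * g⁻¹) = ψ x)
    (h : ∀ χ ∈ Parker.irr Ω G, Parker.ip ψ χ ∈ Rt Ω r) : Vir r ψ := by
  refine ⟨fun χ => if χ ∈ Parker.irr Ω G then Parker.ip ψ χ else 0, fun χ => ?_, fun g => ?_⟩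
  · show (if χ ∈ Parker.irr Ω G then Parker.ip ψ χ else 0) ∈ Rt Ω r
    split_ifs with h1
    · exact h χ h1
    · exact Subring.zero_mem _
  · rw [ParkerGL.class_expand hcl g]
    refine Finset.sum_congr rfl fun χ hχ => ?_
    show _ = (if χ ∈ Parker.irr Ω G then Parker.ip ψ χ else 0) * χ g
    rw [if_pos hχ]

omit [IsAlgClosed Ω] [CharZero Ω] in
theorem vir_zero (r : ℕ) : Vir r (fun _ : G => (0 : Ω)) :=
  ⟨fun _ => 0, fun _ => Subring.zero_mem _, fun g => by simp⟩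

omit [IsAlgClosed Ω] [CharZero Ω] in
theorem vir_add' {r : ℕ} {ψ χ : G → Ω} (h : Vir r ψ) (h' : Vir r χ) :
    Vir r (fun g => ψ g + χ g) := by
  obtain ⟨a, ha, h1⟩ := h
  obtain ⟨b, hb, h2⟩ := h'
  refine ⟨fun φ => a φ + b φ, fun φ => Subring.add_mem _ (ha φ) (hb φ), fun g => ?_⟩
  show ψ g + χ g = _
  rw [h1, h2, ← Finset.sum_add_distrib]
  exact Finset.sum_congr rfl fun φ _ => (add_mul _ _ _).symm

omit [IsAlgClosed Ω] [CharZero Ω] in
theorem vir_fsum {r : ℕ} {ι : Type} (s : Finset ι) {ψ : ι → G → Ω} (h : ∀ i ∈ s, Vir r (ψ i)) :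
    Vir r (fun g => ∑ i ∈ s, ψ i g) := by
  induction s using Finset.induction_on with
  | empty => simpa using vir_zero (G := G) (Ω := Ω) r
  | insert i s hi ih =>
    have h1 := vir_add' (h i (Finset.mem_insert_self i s))
      (ih fun j hj => h j (Finset.mem_insert_of_mem hj))
    have h2 : (fun g => ∑ j ∈ insert i s, ψ j g) = fun g => ψ i g + ∑ j ∈ s, ψ j g := by
      funext g
      rw [Finset.sum_insert hi]
    rw [h2]
    exact h1

omit [IsAlgClosed Ω] [CharZero Ω] in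
theorem vir_smul' {r : ℕ} {ψ : G → Ω} (h : Vir r ψ) {z : Ω} (hz : z ∈ Rt Ω r) :
    Vir r (fun g => z * ψ g) := by
  obtain ⟨a, ha, h1⟩ := h
  refine ⟨fun φ => z * a φ, fun φ => Subring.mul_mem _ hz (ha φ), fun g => ?_⟩
  show z * ψ g = _
  rw [h1, Finset.mul_sum]
  exact Finset.sum_congr rfl fun φ _ => (mul_assoc _ _ _).symm

theorem vir_char' {V : Type} [AddCommGroup V] [Module Ω V] [FiniteDimensional Ω V]
    (ρ : Representation Ω G V) (r : ℕ) : Vir r ρ.character := by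
  refine ⟨fun φ => (Parker.mul ρ.character φ : Ω), fun φ => natCast_mem _ _, fun g => ?_⟩
  have h1 := congrFun (Parker.char_eq_sum ρ) g
  rw [h1, Finset.sum_apply]
  rfl

/-- a decomposition of an element of `⟨x⟩ P` -/
theorem mem_HP {x : G} {P H : Subgroup G} (hc : ∀ u ∈ P, u * x = x * u)
    (hH : H = Subgroup.zpowers x ⊔ P) {h : G} (hh : h ∈ H) :
    ∃ z ∈ Subgroup.zpowers x, ∃ u ∈ P, h = z * u := by
  have hcz : ∀ u ∈ P, ∀ z ∈ Subgroup.zpowers x, u * z = z * u := by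
    rintro u hu z ⟨n, rfl⟩
    have h1 : Commute u x := hc u hu
    exact (h1.zpow_right n).eq
  let K : Subgroup G :=
    { carrier := {g | ∃ z ∈ Subgroup.zpowers x, ∃ u ∈ P, g = z * u}
      mul_mem' := by
        rintro a b ⟨z, hz, u, hu, rfl⟩ ⟨z', hz', u', hu', rfl⟩
        refine ⟨z * z', Subgroup.mul_mem _ hz hz', u * u', P.mul_mem hu hu', ?_⟩
        rw [mul_assoc, ← mul_assoc u, hcz u hu z' hz', mul_assoc, ← mul_assoc]
      one_mem' := ⟨1, Subgroup.one_mem _, 1, P.one_mem, (mul_one 1).symm⟩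
      inv_mem' := by
        rintro a ⟨z, hz, u, hu, rfl⟩
        refine ⟨z⁻¹, Subgroup.inv_mem _ hz, u⁻¹, P.inv_mem hu, ?_⟩
        rw [mul_inv_rev, hcz _ (P.inv_mem hu) _ (Subgroup.inv_mem _ hz)] }
  have h1 : H ≤ K := by
    rw [hH]
    refine sup_le (fun z hz => ⟨z, hz, 1, P.one_mem, (mul_one z).symm⟩)
      (fun u hu => ⟨1, Subgroup.one_mem _, u, hu, (one_mul u).symm⟩)
  exact h1 hh

theorem card_HP {x : G} {P H : Subgroup G} (hP : IsPGroup 2 P) (ho : Odd (orderOf x))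
    (hc : ∀ u ∈ P, u * x = x * u) (hH : H = Subgroup.zpowers x ⊔ P) :
    Nat.card H = orderOf x * Nat.card P := by
  have hz : Subgroup.zpowers x ≤ H := hH ▸ le_sup_left
  have hPH : P ≤ H := hH ▸ le_sup_right
  have hdis : ∀ g : G, g ∈ Subgroup.zpowers x → g ∈ P → g = 1 := by
    intro g hg hgP
    have h1 : orderOf g ∣ orderOf x := orderOf_dvd_of_mem_zpowers hg
    obtain ⟨k, hk⟩ := hP ⟨g, hgP⟩
    have h2 : g ^ (2 ^ k) = 1 := congrArg Subtype.val hk
    have h3 : orderOf g ∣ 2 ^ k := orderOf_dvd_of_pow_eq_one h2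
    have h4 : Nat.Coprime (orderOf x) (2 ^ k) := (Nat.Coprime.pow_right k (Nat.coprime_two_right.2 ho))
    have h5 : orderOf g = 1 := Nat.eq_one_of_dvd_coprimes h4 h1 h3
    exact orderOf_eq_one_iff.1 h5
  rw [← Nat.card_zpowers, ← Nat.card_prod]
  refine (Nat.card_congr (Equiv.ofBijective (fun p : Subgroup.zpowers x × P =>
    (⟨(p.1 : G) * p.2, H.mul_mem (hz p.1.2) (hPH p.2.2)⟩ : H)) ⟨?_, ?_⟩)).symm
  · rintro ⟨z, u⟩ ⟨z', u'⟩ h
    have h1 : (z : G) * u = z' * u' := congrArg Subtype.val h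
    have h2 : (z' : G)⁻¹ * z = u' * (u : G)⁻¹ := by
      rw [inv_mul_eq_iff_eq_mul, ← mul_assoc, ← h1, mul_inv_cancel_right]
    have h3 : (z' : G)⁻¹ * z = 1 := hdis _
      (Subgroup.mul_mem _ (Subgroup.inv_mem _ z'.2) z.2)
      (by rw [h2]; exact P.mul_mem u'.2 (P.inv_mem u.2))
    have h4 : (z : G) = z' := (inv_mul_eq_one.1 h3).symm
    have h5 : (u : G) = u' := by
      rw [h4] at h1
      exact mul_left_cancel h1
    exact Prod.ext (Subtype.ext h4) (Subtype.ext h5)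
  · rintro ⟨h, hh⟩
    obtain ⟨z, hz', u, hu, rfl⟩ := mem_HP hc hH hh
    exact ⟨(⟨z, hz'⟩, ⟨u, hu⟩), rfl⟩

end B08_aux

open B08_aux

theorem rt_int {r : ℕ} (hr : r ≠ 0) {z : Ω} (hz : z ∈ Rt Ω r) : IsIntegral ℤ z := by
  refine Subring.closure_induction (p := fun z _ => IsIntegral ℤ z) ?_ ?_ ?_ ?_ ?_ ?_ hz
  · intro w hw
    have h1 : w ^ r = 1 := hw
    refine IsIntegral.of_pow (Nat.pos_of_ne_zero hr) ?_
    rw [h1]
    exact isIntegral_one
  · exact isIntegral_zero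
  · exact isIntegral_one
  · intro a b _ _ ha hb
    exact ha.add hb
  · intro a _ ha
    exact ha.neg
  · intro a b _ _ ha hb
    exact ha.mul hb

theorem rt_fx {r : ℕ} {z : Ω} (hz : z ∈ Rt Ω r) {σ : RingAut Ω} (hσ : ∀ w : Ω, w ^ r = 1 → σ w = w) :
    σ z = z := by
  refine Subring.closure_induction (p := fun z _ => σ z = z) ?_ ?_ ?_ ?_ ?_ ?_ hz
  · intro w hw
    exact hσ w hw
  · exact map_zero σ
  · exact map_one σ
  · intro a b _ _ ha hb
    rw [map_add, ha, hb]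
  · intro a _ ha
    rw [map_neg, ha]
  · intro a b _ _ ha hb
    rw [map_mul, ha, hb]

theorem vir_char {V : Type} [AddCommGroup V] [Module Ω V] [FiniteDimensional Ω V]
    (ρ : Representation Ω G V) (r : ℕ) : Vir r ρ.character := by
  exact vir_char' ρ r

theorem vir_one (r : ℕ) : Vir r (fun _ : G => (1 : Ω)) := by
  have h1 := vir_char' (Representation.trivial Ω G Ω) r
  have h2 : (Representation.trivial Ω G Ω).character = fun _ : G => (1 : Ω) := by
    funext g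
    show LinearMap.trace Ω Ω ((Representation.trivial Ω G Ω) g) = 1
    have h3 : (Representation.trivial Ω G Ω) g = (1 : Module.End Ω Ω) := rfl
    rw [h3, LinearMap.trace_one, Module.finrank_self, Nat.cast_one]
  rw [h2] at h1
  exact h1

theorem vir_add {r : ℕ} {ψ χ : G → Ω} (h : Vir r ψ) (h' : Vir r χ) : Vir r (fun g => ψ g + χ g) := by
  exact vir_add' h h'

theorem vir_sum {r : ℕ} {ι : Type} [Fintype ι] {ψ : ι → G → Ω} (h : ∀ i, Vir r (ψ i)) :
    Vir r (fun g => ∑ i, ψ i g) := by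
  exact vir_fsum Finset.univ fun i _ => h i

theorem vir_smul {r : ℕ} {ψ : G → Ω} (h : Vir r ψ) {z : Ω} (hz : z ∈ Rt Ω r) : Vir r (fun g => z * ψ g) := by
  exact vir_smul' h hz

theorem vir_mul {r : ℕ} {ψ χ : G → Ω} (h : Vir r ψ) (h' : Vir r χ) : Vir r (fun g => ψ g * χ g) := by
  obtain ⟨a, ha, h1⟩ := h
  obtain ⟨b, hb, h2⟩ := h'
  have h3 : (fun g => ψ g * χ g) = fun g => ∑ φ ∈ Parker.irr Ω G, ∑ θ ∈ Parker.irr Ω G,
      (a φ * b θ) * (φ g * θ g) := by
    funext g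
    rw [h1, h2, Finset.sum_mul_sum]
    refine Finset.sum_congr rfl fun φ _ => Finset.sum_congr rfl fun θ _ => ?_
    ring
  rw [h3]
  refine vir_fsum _ fun φ hφ => vir_fsum _ fun θ hθ => ?_
  refine vir_smul' ?_ (Subring.mul_mem _ (ha φ) (hb θ))
  obtain ⟨m, ρ, hρ, rfl⟩ := Parker.mem_irr.1 hφ
  obtain ⟨n, τ, hτ, rfl⟩ := Parker.mem_irr.1 hθ
  have h4 := vir_char' (ρ.tprod τ) r
  rw [Representation.char_tensor] at h4
  exact h4

theorem vir_pow {r : ℕ} {ψ : G → Ω} (h : Vir r ψ) (n : ℕ) : Vir r (fun g => ψ g ^ n) := by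
  induction n with
  | zero =>
    have h1 := vir_one (Ω := Ω) (G := G) r
    simpa using h1
  | succ n ih =>
    have h1 := vir_mul ih h
    have h2 : (fun g => ψ g ^ (n + 1)) = fun g => ψ g ^ n * ψ g := by
      funext g
      rw [pow_succ]
    rw [h2]
    exact h1

theorem vir_res {r : ℕ} {ψ : G → Ω} (h : Vir r ψ) (H : Subgroup G) : Vir r (fun g : H => ψ g) := by
  obtain ⟨a, ha, h1⟩ := h
  have h2 : (fun g : H => ψ g) = fun g : H => ∑ φ ∈ Parker.irr Ω G, a φ * φ (g : G) := by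
    funext g
    exact h1 g
  rw [h2]
  refine vir_fsum _ fun φ hφ => ?_
  obtain ⟨n, ρ, hρ, rfl⟩ := Parker.mem_irr.1 hφ
  exact vir_smul' (vir_char' (ρ.comp H.subtype) r) (ha _)

theorem vir_ip {r : ℕ} {ψ : G → Ω} (h : Vir r ψ) {χ : G → Ω} (hχ : χ ∈ Parker.irr Ω G) :
    Parker.ip ψ χ ∈ Rt Ω r := by
  obtain ⟨a, ha, h1⟩ := h
  have h2 : ψ = ∑ φ ∈ Parker.irr Ω G, a φ • φ := by
    funext g
    rw [h1 g, Finset.sum_apply]
    rfl
  rw [h2, Parker.ip_sum_left, Finset.sum_eq_single χ]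
  · rw [Parker.ip_smul_left, Parker.ip_irr hχ hχ, if_pos rfl, mul_one]
    exact ha χ
  · intro φ hφ hne
    rw [Parker.ip_smul_left, Parker.ip_irr hφ hχ, if_neg hne, mul_zero]
  · intro h3
    exact absurd hχ h3

theorem vir_ind {r : ℕ} (x : G) (hx : x ^ r = 1) (P : Subgroup G) (hP : IsPGroup 2 P)
    (ho : Odd (orderOf x)) (hc : ∀ u ∈ P, u * x = x * u) :
    Vir r (fun g => (Nat.card {s : G // x⁻¹ * (s * g * s⁻¹) ∈ P} : Ω) / (Nat.card P : Ω)) := by
  have := Fintype.ofFinite G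
  have := Fintype.ofFinite P
  refine vir_of_ip ?_ ?_
  · intro h g
    have h1 : Nat.card {s : G // x⁻¹ * (s * (h * g * h⁻¹) * s⁻¹) ∈ P} =
        Nat.card {s : G // x⁻¹ * (s * g * s⁻¹) ∈ P} := by
      refine Nat.card_congr ⟨fun s => ⟨s * h, ?_⟩, fun s => ⟨s * h⁻¹, ?_⟩, fun s => ?_, fun s => ?_⟩
      · have h2 := s.2
        have h3 : x⁻¹ * (s * h * g * (s * h)⁻¹) = x⁻¹ * (s * (h * g * h⁻¹) * (s : G)⁻¹) := by group
        rw [h3]
        exact h2
      · have h2 := s.2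
        have h3 : x⁻¹ * (s * h⁻¹ * (h * g * h⁻¹) * (s * h⁻¹)⁻¹) = x⁻¹ * (s * g * (s : G)⁻¹) := by
          group
        rw [h3]
        exact h2
      · apply Subtype.ext
        show (s : G) * h * h⁻¹ = s
        group
      · apply Subtype.ext
        show (s : G) * h⁻¹ * h = s
        group
    show (Nat.card {s : G // x⁻¹ * (s * (h * g * h⁻¹) * s⁻¹) ∈ P} : Ω) / (Nat.card P : Ω) = _
    rw [h1]
  · intro χ hχ
    rw [Parker.ip_eq]
    have hcard : ∀ g : G, (Nat.card {s : G // x⁻¹ * (s * g * s⁻¹) ∈ P} : Ω) =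
        ∑ s : G, if x⁻¹ * (s * g * s⁻¹) ∈ P then (1 : Ω) else 0 := by
      intro g
      rw [Nat.card_eq_fintype_card, Fintype.card_subtype, ← Finset.sum_filter, Finset.sum_const,
        nsmul_eq_mul, mul_one]
    have h1 : ∀ s : G, ∑ g : G, (if x⁻¹ * (s * g * s⁻¹) ∈ P then χ g⁻¹ else 0) =
        ∑ u : P, χ (x * u)⁻¹ := by
      intro s
      rw [← sum_coset x P (fun g => χ g⁻¹)]
      conv_rhs => rw [← Equiv.sum_comp (MulAut.conj s).toEquiv]
      refine Finset.sum_congr rfl fun g _ => ?_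
      have h2 : (MulAut.conj s).toEquiv g = s * g * s⁻¹ := rfl
      rw [h2]
      have h3 : χ (s * g * s⁻¹)⁻¹ = χ g⁻¹ := by
        have h4 : (s * g * s⁻¹)⁻¹ = s * g⁻¹ * s⁻¹ := by group
        rw [h4, Parker.P15_aux.irr_class hχ]
      rw [h3]
    have h2 : ∑ g : G, (Nat.card {s : G // x⁻¹ * (s * g * s⁻¹) ∈ P} : Ω) / (Nat.card P : Ω) * χ g⁻¹ =
        (Nat.card G : Ω) * ((Nat.card P : Ω)⁻¹ * ∑ u : P, χ (x * u)⁻¹) := by
      have h3 : ∀ g : G, (Nat.card {s : G // x⁻¹ * (s * g * s⁻¹) ∈ P} : Ω) / (Nat.card P : Ω) * χ g⁻¹ =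
          (Nat.card P : Ω)⁻¹ * ∑ s : G, if x⁻¹ * (s * g * s⁻¹) ∈ P then χ g⁻¹ else 0 := by
        intro g
        rw [hcard, div_eq_mul_inv, mul_comm _ (Nat.card P : Ω)⁻¹, mul_assoc, Finset.sum_mul]
        congr 1
        refine Finset.sum_congr rfl fun s _ => ?_
        split_ifs
        · rw [one_mul]
        · rw [zero_mul]
      rw [Finset.sum_congr rfl fun g _ => h3 g, ← Finset.mul_sum, Finset.sum_comm,
        Finset.sum_congr rfl fun s _ => h1 s, Finset.sum_const, Finset.card_univ,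
        ← Nat.card_eq_fintype_card, nsmul_eq_mul]
      ring
    rw [h2, ← mul_assoc, inv_mul_cancel₀ (Nat.cast_ne_zero.2 Nat.card_pos.ne'), one_mul]
    exact core_irr hχ hx P hc

/-- the function `δ` on the subgroup `H = ⟨x⟩ P` -/
theorem vir_delta {r : ℕ} (x : G) (hx : x ^ r = 1) (P H : Subgroup G) (hP : IsPGroup 2 P)
    (ho : Odd (orderOf x)) (hc : ∀ u ∈ P, u * x = x * u) (hH : H = Subgroup.zpowers x ⊔ P) :
    Vir r (fun g : H => if x⁻¹ * (g : G) ∈ P then (orderOf x : Ω) else 0) := by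
  have := Fintype.ofFinite H
  have hzH : Subgroup.zpowers x ≤ H := hH ▸ le_sup_left
  have hPH : P ≤ H := hH ▸ le_sup_right
  have hxH : x ∈ H := hzH (Subgroup.mem_zpowers x)
  have hcz : ∀ u ∈ P, ∀ z ∈ Subgroup.zpowers x, u * z = z * u := by
    rintro u hu z ⟨n, rfl⟩
    have h1 : Commute u x := hc u hu
    exact (h1.zpow_right n).eq
  have hxc : ∀ h ∈ H, h * x = x * h := by
    intro h hh
    obtain ⟨z, ⟨n, rfl⟩, u, hu, rfl⟩ := mem_HP hc hH hh
    have h1 : Commute u x := hc u hu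
    have h2 : Commute (x ^ n) x := (Commute.refl x).zpow_left n
    exact (h2.mul_left h1).eq
  have hPn : ∀ h ∈ H, ∀ p : G, p ∈ P → h * p * h⁻¹ ∈ P := by
    intro h hh p hp
    obtain ⟨z, hz, u, hu, rfl⟩ := mem_HP hc hH hh
    have h1 : z * u * p * (z * u)⁻¹ = u * p * u⁻¹ := by
      have h2 := hcz _ (P.mul_mem (P.mul_mem hu hp) (P.inv_mem hu)) z hz
      have h3 : z * u * p * (z * u)⁻¹ = z * (u * p * u⁻¹) * z⁻¹ := by group
      rw [h3, ← h2, mul_inv_cancel_right]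
    rw [h1]
    exact P.mul_mem (P.mul_mem hu hp) (P.inv_mem hu)
  have hcl : ∀ h g : H, (x⁻¹ * ((h * g * h⁻¹ : H) : G) ∈ P ↔ x⁻¹ * (g : G) ∈ P) := by
    intro h g
    have h1 : x⁻¹ * ((h * g * h⁻¹ : H) : G) = (h : G) * (x⁻¹ * g) * (h : G)⁻¹ := by
      have h2 : x⁻¹ * (h : G) = h * x⁻¹ := by
        rw [inv_mul_eq_iff_eq_mul, ← mul_assoc, ← hxc h h.2, mul_inv_cancel_right]
      show x⁻¹ * ((h : G) * g * (h : G)⁻¹) = _
      rw [← mul_assoc, ← mul_assoc, h2, mul_assoc (h : G)]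
    rw [h1]
    refine ⟨fun h3 => ?_, hPn h h.2 _⟩
    have h4 := hPn _ (H.inv_mem h.2) _ h3
    have h5 : (h : G)⁻¹ * ((h : G) * (x⁻¹ * g) * (h : G)⁻¹) * (h : G)⁻¹⁻¹ = x⁻¹ * g := by group
    rw [h5] at h4
    exact h4
  refine vir_of_ip ?_ ?_
  · intro h g
    show (if x⁻¹ * ((h * g * h⁻¹ : H) : G) ∈ P then (orderOf x : Ω) else 0) = _
    by_cases h1 : x⁻¹ * (g : G) ∈ P
    · rw [if_pos ((hcl h g).2 h1), if_pos h1]
    · rw [if_neg (fun h2 => h1 ((hcl h g).1 h2)), if_neg h1]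
  · intro χ hχ
    have hx' : (⟨x, hxH⟩ : H) ^ r = 1 := Subtype.ext hx
    have hc' : ∀ u ∈ P.subgroupOf H, u * (⟨x, hxH⟩ : H) = ⟨x, hxH⟩ * u := by
      intro u hu
      exact Subtype.ext (hc u (Subgroup.mem_subgroupOf.1 hu))
    have := Fintype.ofFinite (P.subgroupOf H)
    have h1 := core_irr hχ hx' (P.subgroupOf H) hc'
    have h2 : Nat.card (P.subgroupOf H) = Nat.card P :=
      Nat.card_congr (Subgroup.subgroupOfEquivOfLe hPH).toEquiv
    have h3 := card_HP hP ho hc hH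
    rw [Parker.ip_eq]
    have h4 : ∑ g : H, (if x⁻¹ * (g : G) ∈ P then (orderOf x : Ω) else 0) * χ g⁻¹ =
        (orderOf x : Ω) * ∑ u : P.subgroupOf H, χ ((⟨x, hxH⟩ : H) * u)⁻¹ := by
      rw [← sum_coset (⟨x, hxH⟩ : H) (P.subgroupOf H) (fun g => χ g⁻¹), Finset.mul_sum]
      refine Finset.sum_congr rfl fun g _ => ?_
      have h5 : (⟨x, hxH⟩ : H)⁻¹ * g ∈ P.subgroupOf H ↔ x⁻¹ * (g : G) ∈ P := by
        rw [Subgroup.mem_subgroupOf]
        rfl
      by_cases h6 : x⁻¹ * (g : G) ∈ P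
      · rw [if_pos h6, if_pos (h5.2 h6)]
      · rw [if_neg h6, if_neg (fun h7 => h6 (h5.1 h7)), zero_mul, mul_zero]
    rw [h4, h3]
    rw [h2] at h1
    have h5 : (orderOf x : Ω) ≠ 0 := by
      have h6 : 0 < orderOf x := orderOf_pos x
      exact_mod_cast h6.ne'
    have h6 : ((orderOf x * Nat.card P : ℕ) : Ω)⁻¹ * ((orderOf x : Ω) *
        ∑ u : P.subgroupOf H, χ ((⟨x, hxH⟩ : H) * u)⁻¹) =
        (Nat.card P : Ω)⁻¹ * ∑ u : P.subgroupOf H, χ ((⟨x, hxH⟩ : H) * u)⁻¹ := by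
      have h7 : (Nat.card P : Ω) ≠ 0 := Nat.cast_ne_zero.2 Nat.card_pos.ne'
      push_cast
      field_simp
    rw [h6]
    exact h1

end

end

end LieP
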