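import Pool.Agent.LieP.B03
import Pool.Agent.LieP.B08
import Pool.Agent.Parker.N02
import Pool.Agent.Parker.P05
import Pool.Agent.Parker.P08
import Pool.Agent.Parker.P09
import Pool.Agent.Parker.P15
import Pool.Agent.Parker.P19
import Pool.Agent.Parker.P32

/-!
# MP_6c3636_al, LieP, module B09: a subgroup with odd multiplicity (helper7)

Section 13, (13.4). `orbit_even`: every `σ ∈ Γ` acts on the irreducible characters of `H`, `|H|` dividing `2^k r`, as a permutation of `2`-power order (`σ` fixes the `r`-th roots of unity; on the `2^k`-th roots of unity `σ^(2^k)` is trivial; the characters are sums of `|H|`-th roots of unity).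
So `Γ` acts on `irr H` through a `2`-group (`IsPGroup`), orbits of non fixed characters have even length, and if `c_μ`, `m_μ` are constant on the orbits, `c_μ` integral, `m_μ` natural, even for the fixed `μ`, then `∑ c_μ m_μ` is `2` times an integral element.
`exists_odd_sub`: with the family of `exists_family`, `f g = ∑ i ..`, odd; `N = 2^(k+1)`: `f^N = 1 mod 2^(k+1)`, `r (f^N - 1) = 2 |G| h` with an integral class function `h`, so `ip (φ r f^N) φ = r + 2 ∑ h(g) φ(g) φ(g⁻¹)`. On the other hand `ip (φ f^(N-1) f) φ = ∑_i |H_i|⁻¹ ∑_{h ∈ H_i} φ f^(N-1) δ_i (h) φ(h⁻¹)`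
`= ∑_i ip (φ f^(N-1) δ_i | H_i) (φ | H_i) = ∑_i ∑_μ c_{i,μ} m_{i,μ}`, `c_{i,μ} = ip (φ f^(N-1) δ_i) μ ∈ Rt Ω r` (`Vir`), constant on orbits as the function is fixed by `Γ` and `c ∈ Rt` is fixed. If all `m_{i,μ}` with fixed `μ` were even, `r` would be twice an integral element, but `r / 2` is not integral.
-/

namespace LieP

noncomputable section

open Classical

namespace B09_aux

section

variable {Ω : Type} [Field Ω] [IsAlgClosed Ω] [CharZero Ω] {Γ : Subgroup (RingAut Ω)} {G : Type} [Group G]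
  [Finite G]

omit [IsAlgClosed Ω] [CharZero Ω] in
theorem pow_apply_nat {σ : RingAut Ω} {z : Ω} {u : ℕ} (h : σ z = z ^ u) (n : ℕ) : (σ ^ n) z = z ^ (u ^ n) := by
  induction n with
  | zero => rw [pow_zero, pow_zero, pow_one]; rfl
  | succ n ih =>
    rw [pow_succ, RingAut.mul_apply, h, map_pow, ih, ← pow_mul, pow_succ]

omit [IsAlgClosed Ω] [CharZero Ω] in
theorem pow_modEq {a : Ω} {n m m' : ℕ} (ha : a ^ n = 1) (h : m ≡ m' [MOD n]) : a ^ m = a ^ m' := by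
  have h' : m % n = m' % n := h
  rw [← Nat.div_add_mod m n, ← Nat.div_add_mod m' n, pow_add, pow_add, pow_mul, pow_mul, ha, one_pow,
    one_pow, h']

/-- an automorphism which fixes the `r`-th roots of unity has `2`-power order on the
`2 ^ k * r`-th roots of unity -/
theorem fix_roots {k r : ℕ} (hr : Odd r) {σ : RingAut Ω} (hσ : ∀ z : Ω, z ^ r = 1 → σ z = z) (z : Ω)
    (hz : z ^ (2 ^ k * r) = 1) : (σ ^ (2 ^ k)) z = z := by
  have hr0 : r ≠ 0 := by
    rintro rfl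
    exact absurd hr (by decide)
  have hz0 : z ≠ 0 := by
    rintro rfl
    rw [zero_pow (by positivity)] at hz
    exact zero_ne_one hz
  -- the `2 ^ k`-th roots of unity
  have hA : ∀ a : Ω, a ^ (2 ^ k) = 1 → (σ ^ (2 ^ k)) a = a := by
    have hne : NeZero (2 ^ k) := ⟨by positivity⟩
    have hne' : NeZero ((2 ^ k : ℕ) : Ω) := ⟨Nat.cast_ne_zero.2 (by positivity)⟩
    obtain ⟨ζ, hζ⟩ := HasEnoughRootsOfUnity.exists_primitiveRoot Ω (2 ^ k)
    have h3 : (σ ζ) ^ 2 ^ k = 1 := by rw [← map_pow, hζ.pow_eq_one, map_one]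
    obtain ⟨u, -, hu⟩ := hζ.eq_pow_of_pow_eq_one h3
    have h4 : IsPrimitiveRoot (σ ζ) (2 ^ k) := hζ.map_of_injective (f := σ) (RingEquiv.injective σ)
    have h5 : u.Coprime (2 ^ k) := by
      rw [← hu] at h4
      exact (hζ.pow_iff_coprime (by positivity) u).1 h4
    have h6 : u ^ (2 ^ k) ≡ 1 [MOD 2 ^ k] := by
      have h7 : Nat.totient (2 ^ k) ∣ 2 ^ k := by
        cases k with
        | zero => simp
        | succ l =>
          rw [Nat.totient_prime_pow_succ Nat.prime_two]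
          exact ⟨2, by rw [pow_succ]; ring⟩
      obtain ⟨q, hq⟩ := h7
      have h8 := Nat.ModEq.pow_totient h5
      have h9 := h8.pow q
      rw [← pow_mul, ← hq, one_pow] at h9
      exact h9
    intro a ha
    obtain ⟨j, -, hj⟩ := hζ.eq_pow_of_pow_eq_one ha
    have h10 : σ a = a ^ u := by
      rw [← hj, map_pow, ← hu, ← pow_mul, ← pow_mul, mul_comm]
    rw [pow_apply_nat h10]
    rw [pow_modEq ha h6, pow_one]
  have hB : ∀ b : Ω, b ^ r = 1 → (σ ^ (2 ^ k)) b = b := by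
    intro b hb
    have h1 : σ b = b ^ 1 := by rw [hσ b hb, pow_one]
    rw [pow_apply_nat h1, one_pow, pow_one]
  have hco : IsCoprime ((2 ^ k : ℕ) : ℤ) (r : ℤ) := by
    rw [Nat.isCoprime_iff_coprime]
    exact Nat.Coprime.pow_left k (Nat.coprime_two_left.2 hr)
  obtain ⟨a, b, hab⟩ := hco
  have e : z = (z ^ (2 ^ k)) ^ a * (z ^ r) ^ b := by
    rw [← zpow_natCast z (2 ^ k), ← zpow_natCast z r, ← zpow_mul, ← zpow_mul, ← zpow_add₀ hz0]
    have : (((2 ^ k : ℕ) : ℤ) * a + (r : ℤ) * b) = 1 := by rw [← hab]; ring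
    rw [this, zpow_one]
  have h1 : ((z ^ (2 ^ k)) ^ a) ^ r = 1 := by
    rw [← zpow_natCast, ← zpow_mul, mul_comm a, zpow_mul, zpow_natCast, ← pow_mul, hz, one_zpow]
  have h2 : ((z ^ r) ^ b) ^ (2 ^ k) = 1 := by
    rw [← zpow_natCast, ← zpow_mul, mul_comm b, zpow_mul, zpow_natCast, ← pow_mul, mul_comm r, hz,
      one_zpow]
  rw [e, map_mul, hB _ h1, hA _ h2]

/-- the values of the irreducible characters -/
theorem fix_irr {k r : ℕ} (hr : Odd r) (hG : ∀ g : G, g ^ (2 ^ k * r) = 1) {σ : RingAut Ω}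
    (hσ : ∀ z : Ω, z ^ r = 1 → σ z = z) {χ : G → Ω} (hχ : χ ∈ Parker.irr Ω G) (g : G) :
    (σ ^ (2 ^ k)) (χ g) = χ g := by
  obtain ⟨n, τ, hτ, rfl⟩ := Parker.mem_irr.1 hχ
  have hr0 : r ≠ 0 := by
    rintro rfl
    exact absurd hr (by decide)
  exact Parker.char_fixed τ (by positivity) (hG g) fun z hz => fix_roots hr hσ z hz

theorem two_mul_sum {k r : ℕ} (hr : Odd r) (hG : ∀ g : G, g ^ (2 ^ k * r) = 1)
    (hΓ : ∀ σ ∈ Γ, ∀ z : Ω, z ^ r = 1 → σ z = z) (cc : (G → Ω) → Ω) (m : (G → Ω) → ℕ)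
    (hcc : ∀ χ ∈ Parker.irr Ω G, IsIntegral ℤ (cc χ))
    (h1 : ∀ σ ∈ Γ, ∀ χ ∈ Parker.irr Ω G, cc (fun g => σ (χ g)) = cc χ ∧ m (fun g => σ (χ g)) = m χ)
    (h2 : ∀ χ ∈ Parker.irr Ω G, (∀ g, Parker.Fx Γ (χ g)) → Even (m χ)) :
    ∀ (n : ℕ) (S : Finset (G → Ω)), S.card = n → S ⊆ Parker.irr Ω G →
      (∀ σ ∈ Γ, ∀ χ ∈ S, (fun g => σ (χ g)) ∈ S) →
    ∃ z : Ω, IsIntegral ℤ z ∧ ∑ χ ∈ S, cc χ * (m χ : Ω) = 2 * z := by
  intro n
  induction n using Nat.strong_induction_on with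
  | _ n ih =>
    intro S hn hS hst
    by_cases hS0 : S = ∅
    · refine ⟨0, isIntegral_zero, ?_⟩
      rw [hS0, Finset.sum_empty, mul_zero]
    obtain ⟨χ, hχ⟩ := Finset.nonempty_iff_ne_empty.2 hS0
    let Θ : Finset (G → Ω) := S.filter fun ψ => ∃ σ ∈ Γ, ψ = fun g => σ (χ g)
    have memΘ : ∀ ψ, ψ ∈ Θ ↔ ∃ σ ∈ Γ, ψ = fun g => σ (χ g) := by
      intro ψ
      constructor
      · exact fun h => (Finset.mem_filter.1 h).2
      · rintro ⟨σ, hσ, rfl⟩
        exact Finset.mem_filter.2 ⟨hst σ hσ χ hχ, σ, hσ, rfl⟩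
    have hΘS : Θ ⊆ S := Finset.filter_subset _ _
    have hχΘ : χ ∈ Θ := (memΘ χ).2 ⟨1, Γ.one_mem, rfl⟩
    have hstΘ : ∀ σ ∈ Γ, ∀ ψ ∈ Θ, (fun g => σ (ψ g)) ∈ Θ := by
      intro σ hσ ψ hψ
      obtain ⟨τ, hτ, rfl⟩ := (memΘ ψ).1 hψ
      exact (memΘ _).2 ⟨σ * τ, Γ.mul_mem hσ hτ, rfl⟩
    have hlt : (S \ Θ).card < n := by
      rw [← hn]
      refine Finset.card_lt_card (Finset.ssubset_iff_subset_ne.2 ⟨Finset.sdiff_subset, fun h => ?_⟩)
      have h3 : χ ∈ S \ Θ := by rw [h]; exact hχ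
      exact (Finset.mem_sdiff.1 h3).2 hχΘ
    have hst' : ∀ σ ∈ Γ, ∀ ψ ∈ S \ Θ, (fun g => σ (ψ g)) ∈ S \ Θ := by
      intro σ hσ ψ hψ
      rw [Finset.mem_sdiff] at hψ ⊢
      refine ⟨hst σ hσ ψ hψ.1, fun h => hψ.2 ?_⟩
      have h3 := hstΘ σ⁻¹ (Γ.inv_mem hσ) _ h
      have h4 : (fun g => σ⁻¹ ((fun g => σ (ψ g)) g)) = ψ := by
        funext g
        exact RingEquiv.symm_apply_apply σ (ψ g)
      rw [h4] at h3
      exact h3
    obtain ⟨z, hz, hz'⟩ := ih _ hlt (S \ Θ) rfl (Finset.sdiff_subset.trans hS) hst'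
    -- the sum over the orbit
    have hcard : ∃ j : ℕ, Θ.card = 2 ^ j := by
      refine Parker.card_two_pow (E := Γ) (X := G → Ω) Θ ?_ ?_ ⟨χ, hχΘ⟩ ?_
      · intro e x hx
        exact hstΘ e e.2 x hx
      · intro e
        refine ⟨k, fun x hx => ?_⟩
        funext g
        exact fix_irr hr hG (hΓ e e.2) (hS (hΘS hx)) g
      · intro x hx y hy
        obtain ⟨σ, hσ, rfl⟩ := (memΘ x).1 hx
        obtain ⟨τ, hτ, rfl⟩ := (memΘ y).1 hy
        refine ⟨⟨τ * σ⁻¹, Γ.mul_mem hτ (Γ.inv_mem hσ)⟩, ?_⟩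
        funext g
        change (τ * σ⁻¹) (σ (χ g)) = τ (χ g)
        rw [RingAut.mul_apply]
        congr 1
        exact RingEquiv.symm_apply_apply σ (χ g)
    have hsum : ∑ ψ ∈ Θ, cc ψ * (m ψ : Ω) = (Θ.card : Ω) * (cc χ * (m χ : Ω)) := by
      rw [Finset.sum_congr rfl (g := fun _ => cc χ * (m χ : Ω)), Finset.sum_const, nsmul_eq_mul]
      intro ψ hψ
      obtain ⟨σ, hσ, rfl⟩ := (memΘ ψ).1 hψ
      rw [(h1 σ hσ χ (hS hχ)).1, (h1 σ hσ χ (hS hχ)).2]
    have heven : Even (Θ.card * m χ) := by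
      obtain ⟨j, hj⟩ := hcard
      cases j with
      | zero =>
        refine Even.mul_left (h2 χ (hS hχ) fun g σ hσ => ?_) _
        rw [pow_zero, Finset.card_eq_one] at hj
        obtain ⟨a, ha⟩ := hj
        have h3 := hstΘ σ hσ χ hχΘ
        have h4 := hχΘ
        rw [ha, Finset.mem_singleton] at h3 h4
        rw [← h4] at h3
        exact congrFun h3 g
      | succ j =>
        rw [hj, pow_succ]
        exact Even.mul_right (Even.mul_left (by decide) _) _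
    obtain ⟨q, hq⟩ := heven
    refine ⟨z + (q : Ω) * cc χ, ?_, ?_⟩
    · have hqi := isIntegral_algebraMap (R := ℤ) (A := Ω) (x := (q : ℤ))
      rw [algebraMap_int_eq, eq_intCast, Int.cast_natCast] at hqi
      exact hz.add (hqi.mul (hcc χ (hS hχ)))
    · rw [← Finset.sum_sdiff hΘS, hz', hsum]
      have h5 : (Θ.card : Ω) * (m χ : Ω) = (q : Ω) + (q : Ω) := by
        rw [← Nat.cast_mul, hq, Nat.cast_add]
      calc 2 * z + (Θ.card : Ω) * (cc χ * (m χ : Ω)) = 2 * z + cc χ * ((Θ.card : Ω) * (m χ : Ω)) := by ring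
        _ = 2 * (z + (q : Ω) * cc χ) := by rw [h5]; ring

end

end B09_aux

namespace B09_aux

section

variable {Ω : Type} [Field Ω] [IsAlgClosed Ω] [CharZero Ω] {Γ : Subgroup (RingAut Ω)} {G : Type} [Group G]
  [Finite G]

omit [Finite G] in
theorem mem_H {x : G} {P : Subgroup G} {y : G} (hy : x⁻¹ * y ∈ P) : y ∈ Subgroup.zpowers x ⊔ P := by
  have h1 : x * (x⁻¹ * y) ∈ Subgroup.zpowers x ⊔ P :=
    Subgroup.mul_mem_sup (Subgroup.mem_zpowers x) hy
  rwa [mul_inv_cancel_left] at h1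

theorem card_H {x : G} {P : Subgroup G} (hP : IsPGroup 2 P) (ho : Odd (orderOf x))
    (hc : ∀ u ∈ P, u * x = x * u) :
    Nat.card (Subgroup.zpowers x ⊔ P : Subgroup G) = orderOf x * Nat.card P := by
  have hcomm : ∀ (a : Subgroup.zpowers x) (u : P),
      Commute ((Subgroup.zpowers x).subtype a) (P.subtype u) := by
    rintro ⟨a, ha⟩ ⟨u, hu⟩
    obtain ⟨i, rfl⟩ := Subgroup.mem_zpowers_iff.1 ha
    have h1 : Commute x u := (hc u hu).symm
    exact h1.zpow_left i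
  have hdis : Disjoint ((Subgroup.zpowers x).subtype.range) (P.subtype.range) := by
    rw [Subgroup.range_subtype, Subgroup.range_subtype]
    refine Subgroup.disjoint_of_coprime_natCard ?_
    have : Fact (Nat.Prime 2) := ⟨Nat.prime_two⟩
    obtain ⟨n, hn⟩ := IsPGroup.iff_card.1 hP
    rw [hn, Nat.card_zpowers]
    exact Nat.Coprime.pow_right n (Nat.coprime_two_right.2 ho)
  have hinj : Function.Injective
      (MonoidHom.noncommCoprod (Subgroup.zpowers x).subtype P.subtype hcomm) :=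
    (MonoidHom.noncommCoprod_injective _ _ hcomm).2
      ⟨Subgroup.subtype_injective _, Subgroup.subtype_injective _, hdis⟩
  have hrange := MonoidHom.noncommCoprod_range (Subgroup.zpowers x).subtype P.subtype hcomm
  rw [Subgroup.range_subtype, Subgroup.range_subtype] at hrange
  rw [← hrange, ← Nat.card_congr (MonoidHom.ofInjective hinj).toEquiv, Nat.card_prod,
    Nat.card_zpowers]

omit [IsAlgClosed Ω] [CharZero Ω] [Finite G] in
theorem sum_fam [Fintype G] (x : G) (P : Subgroup G) (F : G → Ω) (hF : ∀ s g, F (s * g * s⁻¹) = F g) :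
    ∑ g, (Nat.card {s : G // x⁻¹ * (s * g * s⁻¹) ∈ P} : Ω) * F g =
      (Nat.card G : Ω) * ∑ y, if x⁻¹ * y ∈ P then F y else 0 := by
  have h1 : ∀ g, (Nat.card {s : G // x⁻¹ * (s * g * s⁻¹) ∈ P} : Ω) =
      ∑ s : G, if x⁻¹ * (s * g * s⁻¹) ∈ P then (1 : Ω) else 0 := by
    intro g
    rw [Nat.card_eq_fintype_card, Fintype.card_subtype, Finset.natCast_card_filter]
  have h2 : ∀ s : G, ∑ g, (if x⁻¹ * (s * g * s⁻¹) ∈ P then F g else 0) =
      ∑ y, if x⁻¹ * y ∈ P then F y else 0 := by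
    intro s
    refine Fintype.sum_equiv (MulAut.conj s).toEquiv _ _ fun g => ?_
    have e : (MulAut.conj s).toEquiv g = s * g * s⁻¹ := rfl
    rw [e, hF]
  calc ∑ g, (Nat.card {s : G // x⁻¹ * (s * g * s⁻¹) ∈ P} : Ω) * F g
      = ∑ g, ∑ s : G, if x⁻¹ * (s * g * s⁻¹) ∈ P then F g else 0 := by
        refine Finset.sum_congr rfl fun g _ => ?_
        rw [h1, Finset.sum_mul]
        refine Finset.sum_congr rfl fun s _ => ?_
        rw [ite_mul, one_mul, zero_mul]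
    _ = ∑ s : G, ∑ g, if x⁻¹ * (s * g * s⁻¹) ∈ P then F g else 0 := Finset.sum_comm
    _ = (Nat.card G : Ω) * ∑ y, if x⁻¹ * y ∈ P then F y else 0 := by
        rw [Finset.sum_congr rfl fun s _ => h2 s, Finset.sum_const, nsmul_eq_mul,
          Finset.card_univ, Nat.card_eq_fintype_card]

omit [IsAlgClosed Ω] in
theorem ip_delta [Fintype G] {x : G} {P H : Subgroup G} (hP : IsPGroup 2 P) (ho : Odd (orderOf x))
    (hc : ∀ u ∈ P, u * x = x * u) (hH : H = Subgroup.zpowers x ⊔ P) (φ a ψ : G → Ω) :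
    (Nat.card P : Ω) * Parker.ip
      (fun h : H => φ h * a h * (if x⁻¹ * (h : G) ∈ P then (orderOf x : Ω) else 0))
      (fun h : H => ψ h) = ∑ y, if x⁻¹ * y ∈ P then φ y * a y * ψ y⁻¹ else 0 := by
  have _ := Fintype.ofFinite H
  have hcard : (Nat.card H : Ω) = (orderOf x : Ω) * (Nat.card P : Ω) := by
    rw [hH, card_H hP ho hc, Nat.cast_mul]
  have ho0 : (orderOf x : Ω) ≠ 0 := Nat.cast_ne_zero.2 (orderOf_pos x).ne'
  have hP0 : (Nat.card P : Ω) ≠ 0 := Nat.cast_ne_zero.2 Nat.card_pos.ne'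
  have h1 : ∑ y, (if x⁻¹ * y ∈ P then φ y * a y * ψ y⁻¹ else 0) =
      ∑ h : H, if x⁻¹ * (h : G) ∈ P then φ h * a h * ψ (h : G)⁻¹ else 0 := by
    rw [← Finset.sum_subtype (Finset.univ.filter fun y : G => y ∈ H) (fun y => by simp)
      (fun y => if x⁻¹ * y ∈ P then φ y * a y * ψ y⁻¹ else 0)]
    refine (Finset.sum_filter_of_ne fun y _ hy => ?_).symm
    rw [hH]
    refine mem_H (by_contra fun h => hy ?_)
    rw [if_neg h]
  rw [Parker.ip_eq, h1, hcard, Finset.mul_sum, Finset.mul_sum]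
  refine Finset.sum_congr rfl fun h _ => ?_
  have e : ((h⁻¹ : H) : G) = (h : G)⁻¹ := rfl
  rw [e]
  split_ifs with hp
  · field_simp
  · ring

theorem ip_decomp {V : Type} [AddCommGroup V] [Module Ω V] [FiniteDimensional Ω V]
    (ρ : Representation Ω G V) (ψ : G → Ω) : Parker.ip ψ ρ.character =
      ∑ μ ∈ Parker.irr Ω G, Parker.ip ψ μ * (Parker.mul ρ.character μ : Ω) := by
  rw [Parker.ip_comm]
  conv_lhs => rw [Parker.char_eq_sum ρ]
  rw [Parker.ip_sum_left]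
  refine Finset.sum_congr rfl fun μ _ => ?_
  rw [Parker.ip_smul_left, Parker.ip_comm, mul_comm]

omit [IsAlgClosed Ω] [CharZero Ω] in
theorem ip_sigma (σ : RingAut Ω) (ψ μ : G → Ω) :
    σ (Parker.ip ψ μ) = Parker.ip (fun g => σ (ψ g)) (fun g => σ (μ g)) := by
  have _ := Fintype.ofFinite G
  rw [Parker.ip_eq, Parker.ip_eq, map_mul, map_inv₀, map_natCast, map_sum]
  congr 1
  refine Finset.sum_congr rfl fun g _ => ?_
  rw [map_mul]

theorem pow_odd {k n : ℕ} (hn : Odd n) : ∃ h : ℕ, n ^ (2 ^ k) = 1 + 2 ^ (k + 1) * h := by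
  have h1 : n.Coprime (2 ^ (k + 1)) := Nat.Coprime.pow_right _ (Nat.coprime_two_right.2 hn)
  have h2 := Nat.ModEq.pow_totient h1
  rw [Nat.totient_prime_pow_succ Nat.prime_two] at h2
  have h3 : 2 ^ k * (2 - 1) = 2 ^ k := by simp
  rw [h3] at h2
  have h4 : 1 ≤ n ^ (2 ^ k) := Nat.one_le_pow _ _ hn.pos
  obtain ⟨h, hh⟩ := (Nat.modEq_iff_dvd' h4).1 h2.symm
  exact ⟨h, by omega⟩

theorem dvd_r {k r n : ℕ} (hn : Odd n) (h : n ∣ 2 ^ k * r) : n ∣ r :=
  Nat.Coprime.dvd_of_dvd_mul_left (Nat.Coprime.pow_right k (Nat.coprime_two_right.2 hn)) h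

/-- the values of irreducible characters are integral -/
theorem irr_int {χ : G → Ω} (hχ : χ ∈ Parker.irr Ω G) (g : G) : IsIntegral ℤ (χ g) := by
  obtain ⟨n, τ, hτ, rfl⟩ := Parker.mem_irr.1 hχ
  exact Parker.P32_aux.char_integral τ g

omit [IsAlgClosed Ω] [CharZero Ω] in
theorem nat_int (n : ℕ) : IsIntegral ℤ (n : Ω) := by
  have h := isIntegral_algebraMap (R := ℤ) (A := Ω) (x := (n : ℤ))
  rwa [algebraMap_int_eq, eq_intCast, Int.cast_natCast] at h

end

end B09_aux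

section

variable {Ω : Type} [Field Ω] [IsAlgClosed Ω] [CharZero Ω] {Γ : Subgroup (RingAut Ω)} {G : Type} [Group G]
  [Finite G]

theorem orbit_even {k r : ℕ} (hr : Odd r) (hG : ∀ g : G, g ^ (2 ^ k * r) = 1)
    (hΓ : ∀ σ ∈ Γ, ∀ z : Ω, z ^ r = 1 → σ z = z) (cc : (G → Ω) → Ω) (m : (G → Ω) → ℕ)
    (hcc : ∀ χ ∈ Parker.irr Ω G, IsIntegral ℤ (cc χ))
    (h1 : ∀ σ ∈ Γ, ∀ χ ∈ Parker.irr Ω G, cc (fun g => σ (χ g)) = cc χ ∧ m (fun g => σ (χ g)) = m χ)
    (h2 : ∀ χ ∈ Parker.irr Ω G, (∀ g, Parker.Fx Γ (χ g)) → Even (m χ)) :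
    ∃ z : Ω, IsIntegral ℤ z ∧ ∑ χ ∈ Parker.irr Ω G, cc χ * (m χ : Ω) = 2 * z :=
  B09_aux.two_mul_sum hr hG hΓ cc m hcc h1 h2 _ _ rfl (Finset.Subset.refl _)
    fun σ _ _ hχ => Parker.sigma_mem_irr hχ σ

theorem exists_odd_sub {k r : ℕ} (hr : Odd r) (hG : Nat.card G = 2 ^ k * r)
    (hΓ : ∀ σ ∈ Γ, ∀ z : Ω, z ^ r = 1 → σ z = z) {φ : G → Ω} (hφ : φ ∈ Parker.irr Ω G)
    (hf : ∀ g, Parker.Fx Γ (φ g)) : ∃ (x : G) (P H : Subgroup G), Odd (orderOf x) ∧ IsPGroup 2 P ∧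
      (∀ u ∈ P, u * x = x * u) ∧ H = Subgroup.zpowers x ⊔ P ∧
      ∃ ψ ∈ Parker.irr Ω H, (∀ g, Parker.Fx Γ (ψ g)) ∧ Odd (Parker.mul (fun p : H => φ p) ψ) := by
  by_contra hcon
  have _ := Fintype.ofFinite G
  have hr0 : r ≠ 0 := by
    rintro rfl
    exact absurd hr (by decide)
  obtain ⟨n, τ, hτ, hτφ⟩ := Parker.mem_irr.1 hφ
  obtain ⟨ι, _, x, P, ho, hP, hc, hdvd, hodd⟩ := exists_family G
  -- the odd function and its powers
  let f : G → ℕ := fun g => ∑ i, Nat.card {s : G // (x i)⁻¹ * (s * g * s⁻¹) ∈ P i} / Nat.card (P i)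
  have hfodd : ∀ g, Odd (f g) := hodd
  have hfcast : ∀ g, (f g : Ω) = ∑ i, (Nat.card {s : G // (x i)⁻¹ * (s * g * s⁻¹) ∈ P i} : Ω) /
      (Nat.card (P i) : Ω) := by
    intro g
    rw [Nat.cast_sum]
    refine Finset.sum_congr rfl fun i _ => ?_
    exact Nat.cast_div (hdvd i g) (Nat.cast_ne_zero.2 Nat.card_pos.ne')
  have hconj : ∀ (i : ι) (s g : G),
      Nat.card {t : G // (x i)⁻¹ * (t * (s * g * s⁻¹) * t⁻¹) ∈ P i} =
        Nat.card {t : G // (x i)⁻¹ * (t * g * t⁻¹) ∈ P i} := by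
    intro i s g
    refine Nat.card_congr ((Equiv.mulRight s).subtypeEquiv fun t => ?_)
    have e : (Equiv.mulRight s) t * g * ((Equiv.mulRight s) t)⁻¹ = t * (s * g * s⁻¹) * t⁻¹ := by
      rw [Equiv.coe_mulRight, mul_inv_rev]
      simp only [mul_assoc]
    rw [e]
  have hfclass : ∀ s g, f (s * g * s⁻¹) = f g := by
    intro s g
    exact Finset.sum_congr rfl fun i _ => by rw [hconj]
  choose h hh using fun g => B09_aux.pow_odd (k := k) (hfodd g)
  have hxr : ∀ i, x i ^ r = 1 := by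
    intro i
    rw [← orderOf_dvd_iff_pow_eq_one]
    refine B09_aux.dvd_r (k := k) (ho i) ?_
    rw [← hG]
    exact orderOf_dvd_natCard (x i)
  -- virtual characters
  have hvφ : Vir r φ := by
    rw [← hτφ]
    exact vir_char τ r
  have hvf : Vir r (fun g => (f g : Ω)) := by
    have e : (fun g => (f g : Ω)) = fun g => ∑ i,
        (Nat.card {s : G // (x i)⁻¹ * (s * g * s⁻¹) ∈ P i} : Ω) / (Nat.card (P i) : Ω) :=
      funext hfcast
    rw [e]
    exact vir_sum fun i => vir_ind (x i) (hxr i) (P i) (hP i) (ho i) (hc i)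
  let a : G → Ω := fun g => (f g : Ω) ^ (2 ^ k - 1)
  have hva : Vir r (fun g => φ g * a g) := vir_mul hvφ (vir_pow hvf _)
  -- the subgroups
  have key : ∀ i, ∃ z : Ω, IsIntegral ℤ z ∧
      ∑ y, (if (x i)⁻¹ * y ∈ P i then φ y * a y * φ y⁻¹ else 0) = (Nat.card (P i) : Ω) * (2 * z) := by
    intro i
    let H : Subgroup G := Subgroup.zpowers (x i) ⊔ P i
    let ψ : H → Ω := fun y => φ y * a y * (if (x i)⁻¹ * (y : G) ∈ P i then (orderOf (x i) : Ω) else 0)
    have hvψ : Vir r ψ := vir_mul (vir_res hva H)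
      (vir_delta (x i) (hxr i) (P i) H (hP i) (ho i) (hc i) rfl)
    have hres : (fun y : H => φ y) = (Parker.rs H τ).character := by
      rw [← hτφ]
      rfl
    have hψfx : ∀ σ ∈ Γ, ∀ y, σ (ψ y) = ψ y := by
      intro σ hσ y
      have h3 : σ (φ (y : G)) = φ (y : G) := hf y σ hσ
      have h4 : σ (a (y : G)) = a (y : G) := by
        rw [map_pow, map_natCast]
      have h5 : σ (if (x i)⁻¹ * (y : G) ∈ P i then (orderOf (x i) : Ω) else 0) =
          if (x i)⁻¹ * (y : G) ∈ P i then (orderOf (x i) : Ω) else 0 := by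
        split_ifs
        · exact map_natCast σ _
        · exact map_zero σ
      change σ (φ y * a y * _) = φ y * a y * _
      rw [map_mul, map_mul, h3, h4, h5]
    have hHG : ∀ g : H, g ^ (2 ^ k * r) = 1 := by
      intro g
      rw [← hG]
      exact Subtype.ext (by
        rw [Subgroup.coe_pow, Subgroup.coe_one]
        exact pow_card_eq_one')
    obtain ⟨z, hz, hz'⟩ := orbit_even (Γ := Γ) (G := H) hr hHG hΓ
      (fun μ => Parker.ip ψ μ) (fun μ => Parker.mul (Parker.rs H τ).character μ)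
      (fun μ hμ => rt_int hr0 (vir_ip hvψ hμ))
      (fun σ hσ μ hμ => ⟨by
        have h3 : σ (Parker.ip ψ μ) = Parker.ip ψ μ := rt_fx (vir_ip hvψ hμ) (hΓ σ hσ)
        rw [B09_aux.ip_sigma] at h3
        have h4 : (fun g => σ (ψ g)) = ψ := funext fun y => hψfx σ hσ y
        rw [h4] at h3
        exact h3, by
        refine Parker.mul_sigma ?_ hμ
        intro y
        have h3 : σ (φ (y : G)) = φ (y : G) := hf y σ hσ
        have h4 : (Parker.rs H τ).character y = φ y := (congrFun hres y).symm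
        rw [h4, h3]⟩)
      (fun μ hμ hfx => by
        by_contra hne
        rw [Nat.not_even_iff_odd] at hne
        refine hcon ⟨x i, P i, H, ho i, hP i, hc i, rfl, μ, hμ, hfx, ?_⟩
        rw [hres]
        exact hne)
    refine ⟨z, hz, ?_⟩
    rw [← B09_aux.ip_delta (hP i) (ho i) (hc i) (H := H) rfl φ a φ]
    congr 1
    rw [← hz']
    have h6 := B09_aux.ip_decomp (Parker.rs H τ) ψ
    rw [← hres] at h6
    rw [← hres]
    exact h6
  choose z hz hz' using key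
  -- the two computations of the sum
  have hclass : ∀ s g, φ (s * g * s⁻¹) * a (s * g * s⁻¹) * φ (s * g * s⁻¹)⁻¹ = φ g * a g * φ g⁻¹ := by
    intro s g
    have e1 : (s * g * s⁻¹)⁻¹ = s * g⁻¹ * s⁻¹ := by group
    have e2 : a (s * g * s⁻¹) = a g := by
      change (f (s * g * s⁻¹) : Ω) ^ _ = (f g : Ω) ^ _
      rw [hfclass]
    rw [e1, e2, Parker.P15_aux.irr_class hφ, Parker.P15_aux.irr_class hφ]
  have hG0 : (Nat.card G : Ω) ≠ 0 := Nat.cast_ne_zero.2 Nat.card_pos.ne'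
  have hS1 : ∑ g, (f g : Ω) ^ (2 ^ k) * (φ g * φ g⁻¹) = (Nat.card G : Ω) * (2 * ∑ i, z i) := by
    have e1 : ∀ g, (f g : Ω) ^ (2 ^ k) * (φ g * φ g⁻¹) = ∑ i, (Nat.card (P i) : Ω)⁻¹ *
        ((Nat.card {s : G // (x i)⁻¹ * (s * g * s⁻¹) ∈ P i} : Ω) * (φ g * a g * φ g⁻¹)) := by
      intro g
      have e2 : (f g : Ω) ^ (2 ^ k) = (f g : Ω) ^ (2 ^ k - 1) * f g := by
        rw [← pow_succ]
        congr 1
        have := Nat.one_le_two_pow (n := k)
        omega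
      have e3 : (f g : Ω) ^ (2 ^ k) * (φ g * φ g⁻¹) = (f g : Ω) * (φ g * a g * φ g⁻¹) := by
        rw [e2]
        change (f g : Ω) ^ (2 ^ k - 1) * f g * (φ g * φ g⁻¹) =
          (f g : Ω) * (φ g * (f g : Ω) ^ (2 ^ k - 1) * φ g⁻¹)
        ring
      rw [e3]
      conv_lhs => rw [hfcast g]
      rw [Finset.sum_mul]
      refine Finset.sum_congr rfl fun i _ => ?_
      rw [div_eq_mul_inv]
      ring
    rw [Finset.sum_congr rfl fun g _ => e1 g, Finset.sum_comm, Finset.mul_sum, Finset.mul_sum]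
    refine Finset.sum_congr rfl fun i _ => ?_
    rw [← Finset.mul_sum, B09_aux.sum_fam (x i) (P i) (fun g => φ g * a g * φ g⁻¹) hclass, hz' i]
    have hP0 : (Nat.card (P i) : Ω) ≠ 0 := Nat.cast_ne_zero.2 Nat.card_pos.ne'
    field_simp
  have hS2 : ∑ g, (f g : Ω) ^ (2 ^ k) * (φ g * φ g⁻¹) = (Nat.card G : Ω) +
      2 ^ (k + 1) * ∑ g, (h g : Ω) * (φ g * φ g⁻¹) := by
    have e1 : ∀ g, (f g : Ω) ^ (2 ^ k) * (φ g * φ g⁻¹) = φ g * φ g⁻¹ +
        2 ^ (k + 1) * ((h g : Ω) * (φ g * φ g⁻¹)) := by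
      intro g
      have e2 : (f g : Ω) ^ (2 ^ k) = 1 + 2 ^ (k + 1) * (h g : Ω) := by
        have := congrArg (fun n : ℕ => (n : Ω)) (hh g)
        push_cast at this
        exact this
      rw [e2]
      ring
    rw [Finset.sum_congr rfl fun g _ => e1 g, Finset.sum_add_distrib, ← Finset.mul_sum]
    congr 1
    have h3 := Parker.ip_irr hφ hφ
    rw [if_pos rfl, Parker.ip_eq] at h3
    rw [inv_mul_eq_iff_eq_mul₀ hG0, mul_one] at h3
    exact h3
  have hW : IsIntegral ℤ (∑ g, (h g : Ω) * (φ g * φ g⁻¹)) :=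
    IsIntegral.sum _ fun g _ => (B09_aux.nat_int (h g)).mul
      ((B09_aux.irr_int hφ g).mul (B09_aux.irr_int hφ g⁻¹))
  have hZ : IsIntegral ℤ (∑ i, z i) := IsIntegral.sum _ fun i _ => hz i
  rw [hS1, hG] at hS2
  have h2 : (2 ^ k : Ω) ≠ 0 := pow_ne_zero _ two_ne_zero
  have hfin : 2 * ((r : Ω) * (∑ i, z i) - ∑ g, (h g : Ω) * (φ g * φ g⁻¹)) = ((r : ℤ) : Ω) := by
    rw [Int.cast_natCast]
    refine mul_left_cancel₀ h2 ?_
    push_cast at hS2
    rw [pow_succ] at hS2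
    linear_combination hS2
  obtain ⟨q, hq⟩ := Parker.P32_aux.exists_int_of_two_mul
    (((B09_aux.nat_int r).mul hZ).sub hW) hfin
  obtain ⟨j, hj⟩ := hr
  omega

end

end

end LieP
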