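import Pool.Agent.LieP.B06
import Pool.Agent.LieP.B09
import Pool.Agent.ParkerGL.QDefs
import Pool.Agent.ParkerGL.D02
import Pool.Agent.Parker.P13

/-!
# MP_6c3636_al, LieP, module B10: realisation over the fixed field (helper7)

Section 13, THEOREM. `realise`: `exists_odd_sub`; `H ≅ ⟨x⟩ × P` (orders coprime), `ψ = ν ⊗ η` with a linear character `ν` of `⟨x⟩` (values are `r`-th roots of unity, so fixed) and `η ∈ irr P`; `η = ν⁻¹ ψ` on `P` has fixed values; `two_group` for `P`, `oddRep_pb` for the projection `H → P`,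
`oddRep_twist` by `ν`, `oddRep_ind`. (`r₀` the odd part of `|G|`, all `σ ∈ Γ` fix the `3 r₀`-th roots of unity, in particular a cube root of unity.)
`realise_orth`: `oddRep_cut` gives a representation over `K` with character `m φ`; the symmetric invariant forms over `K` are the solutions of a system of linear equations over `K`; over `Ω` there is a nondegenerate one (the representation over `Ω` is a direct sum of `m` copies of
the orthogonal representation), the determinant is a polynomial in the coordinates of the solution space which does not vanish identically over `Ω`, so not over the infinite field `K`.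
-/

namespace LieP

noncomputable section

open Classical


section

variable {Ω : Type} [Field Ω] [IsAlgClosed Ω] [CharZero Ω] {Γ : Subgroup (RingAut Ω)} {K : Type} [Field K]
  [CharZero K] [Algebra K Ω] {G : Type} [Group G] [Finite G]

namespace B10_aux

/-- the elements `x ^ j * u` -/
def xP (x : G) (P : Subgroup G) (hc : ∀ u ∈ P, u * x = x * u) : Subgroup G where
  carrier := {h | ∃ j : ℤ, ∃ u ∈ P, h = x ^ j * u}
  mul_mem' := by
    rintro a b ⟨j, u, hu, rfl⟩ ⟨j', u', hu', rfl⟩
    refine ⟨j + j', u * u', P.mul_mem hu hu', ?_⟩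
    have h1 : Commute u (x ^ j') := (show Commute u x from hc u hu).zpow_right j'
    rw [zpow_add, mul_assoc, ← mul_assoc u, h1.eq]
    simp only [mul_assoc]
  one_mem' := ⟨0, 1, P.one_mem, by simp⟩
  inv_mem' := by
    rintro a ⟨j, u, hu, rfl⟩
    refine ⟨-j, u⁻¹, P.inv_mem hu, ?_⟩
    have h1 : Commute u (x ^ j) := (show Commute u x from hc u hu).zpow_right j
    rw [mul_inv_rev, zpow_neg]
    exact (h1.inv_inv).eq

theorem mem_xP {x : G} {P H : Subgroup G} (hc : ∀ u ∈ P, u * x = x * u)
    (hH : H = Subgroup.zpowers x ⊔ P) {h : G} (hh : h ∈ H) : ∃ j : ℤ, ∃ u ∈ P, h = x ^ j * u := by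
  have h1 : H ≤ xP x P hc := by
    rw [hH]
    refine sup_le ?_ ?_
    · rw [Subgroup.zpowers_le]
      exact ⟨1, 1, P.one_mem, by simp⟩
    · intro u hu
      exact ⟨0, u, hu, by simp⟩
  exact h1 hh

/-- an exponent -/
theorem exists_exp {x : G} {P : Subgroup G} (hx : Odd (orderOf x)) (hP : IsPGroup 2 P) :
    ∃ e : ℕ, x ^ e = 1 ∧ ∀ u ∈ P, u ^ e = u := by
  obtain ⟨m, hm⟩ := IsPGroup.iff_card.1 hP
  have hco : Nat.Coprime (orderOf x) (2 ^ m) :=
    (Nat.Coprime.pow_right m (Nat.coprime_two_right.2 hx))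
  obtain ⟨e, he0, he1⟩ := Nat.chineseRemainder hco 0 1
  refine ⟨e, ?_, ?_⟩
  · exact orderOf_dvd_iff_pow_eq_one.1 ((Nat.modEq_zero_iff_dvd).1 he0)
  · intro u hu
    have h1 : (⟨u, hu⟩ : P) ^ e = (⟨u, hu⟩ : P) ^ 1 := by
      rw [pow_eq_pow_iff_modEq]
      refine Nat.ModEq.of_dvd ?_ he1
      rw [← hm]
      exact orderOf_dvd_natCard _
    have h2 := congrArg (fun y : P => (y : G)) h1
    simpa using h2

theorem odd_dvd {x : G} {k r : ℕ} (hx : Odd (orderOf x)) (hG : Nat.card G = 2 ^ k * r) :
    orderOf x ∣ r := by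
  have h1 : orderOf x ∣ 2 ^ k * r := hG ▸ orderOf_dvd_natCard x
  exact (Nat.Coprime.pow_right k (Nat.coprime_two_right.2 hx)).dvd_of_dvd_mul_left h1

end B10_aux

open B10_aux

theorem realise (hK : ParkerGL.FixedField Γ K) {k r : ℕ} (hr : Odd r) (hG : Nat.card G = 2 ^ k * r)
    (hΓ : ∀ σ ∈ Γ, ∀ z : Ω, z ^ (3 * r) = 1 → σ z = z) {φ : G → Ω} (hφ : φ ∈ Parker.irr Ω G)
    (hf : ∀ g, Parker.Fx Γ (φ g)) : OddRep K φ := by
  have hr0 : r ≠ 0 := fun h => by rw [h] at hr; exact absurd hr (by decide)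
  -- a cube root of unity
  obtain ⟨ω, hω⟩ : ∃ ω : Ω, IsPrimitiveRoot ω 3 := by
    haveI : NeZero ((3 : ℕ) : Ω) := ⟨by exact_mod_cast (by norm_num : (3 : ℕ) ≠ 0)⟩
    exact HasEnoughRootsOfUnity.exists_primitiveRoot Ω 3
  have hω3 : ω ^ 3 = 1 := hω.pow_eq_one
  have hω1 : ω ≠ 1 := hω.ne_one (by norm_num)
  have hωf : Parker.Fx Γ ω := fun σ hσ => hΓ σ hσ ω (by rw [pow_mul, hω3, one_pow])
  obtain ⟨x, P, H, hx, hP, hc, hH, ψ, hψ, hψf, hodd⟩ :=
    exists_odd_sub (Γ := Γ) hr hG (fun σ hσ z hz => hΓ σ hσ z (by rw [mul_comm, pow_mul, hz, one_pow]))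
      hφ hf
  refine oddRep_ind hK hφ hψ hψf hodd ?_
  obtain ⟨e, hex, heu⟩ := exists_exp hx hP
  have hPH : P ≤ H := hH ▸ le_sup_right
  have hxH : x ∈ H := hH ▸ (le_sup_left (a := Subgroup.zpowers x) (b := P) (Subgroup.mem_zpowers x))
  have hpow : ∀ (j : ℤ) (u : G), u ∈ P → (x ^ j * u) ^ e = u := by
    intro j u hu
    have h1 : Commute (x ^ j) u := ((show Commute u x from hc u hu).zpow_right j).symm
    rw [h1.mul_pow, heu u hu]
    have h2 : (x ^ j) ^ e = 1 := by
      rw [← zpow_natCast, ← zpow_mul, mul_comm, zpow_mul, zpow_natCast, hex, one_zpow]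
    rw [h2, one_mul]
  -- the projection
  let f : H →* P :=
    { toFun := fun h => ⟨(h : G) ^ e, by
        obtain ⟨j, u, hu, hju⟩ := mem_xP hc hH h.2
        rw [hju, hpow j u hu]
        exact hu⟩
      map_one' := Subtype.ext (by simp)
      map_mul' := by
        intro a b
        refine Subtype.ext ?_
        obtain ⟨j, u, hu, hju⟩ := mem_xP hc hH a.2
        obtain ⟨j', u', hu', hju'⟩ := mem_xP hc hH b.2
        show ((a : G) * (b : G)) ^ e = (a : G) ^ e * (b : G) ^ e
        have h1 : (a : G) * (b : G) = x ^ (j + j') * (u * u') := by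
          have h2 : Commute u (x ^ j') := (show Commute u x from hc u hu).zpow_right j'
          rw [hju, hju', zpow_add, mul_assoc, ← mul_assoc u, h2.eq]
          simp only [mul_assoc]
        rw [h1, hpow _ _ (P.mul_mem hu hu'), hju, hju', hpow _ _ hu, hpow _ _ hu'] }
  let i : P →* H := Subgroup.inclusion hPH
  have hfi : ∀ u : P, f (i u) = u := fun u => Subtype.ext (heu u u.2)
  have hfs : Function.Surjective f := fun u => ⟨i u, hfi u⟩
  let xh : H := ⟨x, hxH⟩
  -- decomposition
  have hdec : ∀ h : H, ∃ j : ℤ, h = xh ^ j * i (f h) := by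
    intro h
    obtain ⟨j, u, hu, hju⟩ := mem_xP hc hH h.2
    refine ⟨j, Subtype.ext ?_⟩
    show (h : G) = ((xh ^ j : H) : G) * (h : G) ^ e
    rw [hju, hpow j u hu]
    rfl
  have hcen : ∀ h : H, xh * h = h * xh := by
    intro h
    obtain ⟨j, u, hu, hju⟩ := mem_xP hc hH h.2
    refine Subtype.ext ?_
    show x * (h : G) = (h : G) * x
    have h1 : Commute x (x ^ j) := (Commute.refl x).zpow_right j
    have h2 : Commute x u := (show Commute u x from hc u hu).symm
    rw [hju]
    exact (h1.mul_right h2).eq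
  obtain ⟨n, ρ, hρ, hρψ⟩ := Parker.mem_irr.1 hψ
  -- the scalar
  have hsc : ∃ a : Ω, ρ xh = a • 1 := Parker.schur hρ (fun g => by
    rw [← map_mul, ← map_mul, hcen])
  obtain ⟨a, ha⟩ := hsc
  have hV : 0 < Module.finrank Ω (Fin n → Ω) := Parker.irr_pos hρ
  obtain ⟨v, hv⟩ := Module.finrank_pos_iff_exists_ne_zero.1 hV
  have hinj : ∀ s t : Ω, s • (1 : Module.End Ω (Fin n → Ω)) = t • 1 → s = t := by
    intro s t hst
    have h1 := congrArg (fun T : Module.End Ω (Fin n → Ω) => T v) hst
    simp only [LinearMap.smul_apply, Module.End.one_apply] at h1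
    exact smul_left_injective Ω hv h1
  have ha1 : a ^ orderOf x = 1 := by
    apply hinj
    have h1 : ρ (xh ^ orderOf x) = 1 := by
      have h2 : xh ^ orderOf x = 1 := Subtype.ext (by
        show x ^ orderOf x = 1
        exact pow_orderOf_eq_one x)
      rw [h2, map_one]
    rw [map_pow, ha, smul_pow, one_pow] at h1
    rw [h1, one_smul]
  have ha0 : a ≠ 0 := by
    intro h0
    rw [h0, zero_pow (orderOf_pos x).ne'] at ha1
    exact zero_ne_one ha1
  have hzp : ∀ j : ℤ, ρ (xh ^ j) = (a ^ j) • 1 := by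
    intro j
    obtain ⟨m, rfl | rfl⟩ := j.eq_nat_or_neg
    · rw [zpow_natCast, zpow_natCast, map_pow, ha, smul_pow, one_pow]
    · have h1 : ρ (xh ^ m) = a ^ m • 1 := by rw [map_pow, ha, smul_pow, one_pow]
      have h2 : ρ (xh ^ (-(m : ℤ))) * ρ (xh ^ m) = 1 := by
        rw [← map_mul, zpow_neg, zpow_natCast, inv_mul_cancel, map_one]
      rw [h1] at h2
      have h3 : a ^ m • ρ (xh ^ (-(m : ℤ))) = 1 := by
        rw [← h2]
        ext1 w
        simp
      have h4 : a ^ (-(m : ℤ)) = (a ^ m)⁻¹ := by rw [zpow_neg, zpow_natCast]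
      rw [h4, ← h3, smul_smul, inv_mul_cancel₀ (pow_ne_zero m ha0), one_smul]
  -- the linear character
  have hν : ∀ h : H, ∃ s : Ω, s ^ r = 1 ∧ ρ h = s • ρ (i (f h)) ∧ ρ (h * (i (f h))⁻¹) = s • 1 := by
    intro h
    obtain ⟨j, hj⟩ := hdec h
    refine ⟨a ^ j, ?_, ?_, ?_⟩
    · obtain ⟨q, hq⟩ := odd_dvd hx hG
      rw [← zpow_natCast, ← zpow_mul, mul_comm, zpow_mul, zpow_natCast, hq, pow_mul, ha1, one_pow,
        one_zpow]
    · conv_lhs => rw [hj]
      rw [map_mul, hzp, smul_one_mul]
    · have h1 : h * (i (f h))⁻¹ = xh ^ j := mul_inv_eq_iff_eq_mul.2 hj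
      rw [h1, hzp]
  choose s hs1 hs2 hs3 using hν
  have hsm : ∀ h h' : H, s (h * h') = s h * s h' := by
    intro h h'
    apply hinj
    rw [← hs3, mul_smul, ← hs3 h']
    have h1 : h * h' * (i (f (h * h')))⁻¹ = (h * (i (f h))⁻¹) * (h' * (i (f h'))⁻¹) := by
      obtain ⟨j, hj⟩ := hdec h
      obtain ⟨j', hj'⟩ := hdec h'
      have h2 : h' * (i (f h'))⁻¹ = xh ^ j' := mul_inv_eq_iff_eq_mul.2 hj'
      have h3 : Commute xh ((i (f h))⁻¹) := hcen _
      rw [h2, map_mul, map_mul, mul_inv_rev, ← mul_assoc, mul_assoc h, h2, mul_assoc, mul_assoc]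
      rw [(h3.zpow_left j').eq]
    rw [h1, map_mul, hs3 h, smul_one_mul]
  have hs_one : s 1 = 1 := by
    have h1 := hsm 1 1
    rw [mul_one] at h1
    have h2 : s 1 ≠ 0 := by
      intro h0
      have := hs1 1
      rw [h0, zero_pow hr0] at this
      exact zero_ne_one this
    exact (mul_left_cancel₀ h2 (by rw [mul_one]; exact h1)).symm
  let ν₀ : H →* Ω := { toFun := s, map_one' := hs_one, map_mul' := hsm }
  let ν : H →* Ωˣ := ν₀.toHomUnits
  have hνs : ∀ h, ((ν h : Ωˣ) : Ω) = s h := fun h => rfl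
  -- the representation of P
  let τ : Representation Ω P (Fin n → Ω) := Parker.P13_aux.pb i ρ
  have hτ : τ.IsIrreducible := by
    refine Parker.irr_of_sub hV ?_
    intro U hU
    refine Parker.irr_sub hρ ?_
    intro h w hw
    rw [hs2 h]
    exact U.smul_mem _ (hU (f h) w hw)
  have hη : τ.character ∈ Parker.irr Ω P := Parker.mem_irr.2 (Parker.mem_irrSet hτ)
  have hηc : ∀ u : P, τ.character u = ψ (i u) := by
    intro u
    rw [← hρψ]
    rfl
  have hodd1 : OddRep K τ.character := two_group hK hP hη (fun u => by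
    rw [hηc]
    exact hψf _) hωf hω3 hω1
  have hodd2 : OddRep K (fun h => τ.character (f h)) := oddRep_pb hfs hη hodd1
  have hirr2 : (fun h => τ.character (f h)) ∈ Parker.irr Ω H :=
    Parker.mem_irr.2 (Parker.mem_irrSet (Parker.P13_aux.pb_irr hfs hτ))
  have hodd3 := oddRep_twist hK hirr2 ν (fun h => by
    intro σ hσ
    rw [hνs]
    exact hΓ σ hσ _ (by rw [mul_comm, pow_mul, hs1, one_pow])) hodd2
  have hfin : (fun h : H => ((ν h : Ωˣ) : Ω) * τ.character (f h)) = ψ := by
    funext h
    rw [hνs, hηc, ← hρψ]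
    show s h * LinearMap.trace Ω _ (ρ (i (f h))) = LinearMap.trace Ω _ (ρ h)
    rw [hs2 h, map_smul, smul_eq_mul]
  rw [hfin] at hodd3
  exact hodd3

namespace B10_aux

theorem orth_split {V : Type} [AddCommGroup V] [Module Ω V] {ρ : Representation Ω G V}
    (W U : Subrepresentation ρ) (h : IsCompl W.toSubmodule U.toSubmodule)
    (hW : Parker.Orth W.toRepresentation) (hU : Parker.Orth U.toRepresentation) : Parker.Orth ρ := by
  obtain ⟨B, hB⟩ := hW
  obtain ⟨B', hB'⟩ := hU
  let e := Submodule.prodEquivOfIsCompl W.toSubmodule U.toSubmodule h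
  have he : ∀ g x, e.symm (ρ g x) =
      (W.toRepresentation g (e.symm x).1, U.toRepresentation g (e.symm x).2) := by
    intro g x
    apply e.injective
    rw [LinearEquiv.apply_symm_apply]
    have h1 : ρ g x = ρ g (e (e.symm x)) := by rw [LinearEquiv.apply_symm_apply]
    rw [h1]
    show ρ g (((e.symm x).1 : V) + ((e.symm x).2 : V)) =
      ((W.toRepresentation g (e.symm x).1 : V) + (U.toRepresentation g (e.symm x).2 : V))
    rw [map_add]
    rfl
  let p : V →ₗ[Ω] W.toSubmodule := (LinearMap.fst Ω _ _).comp e.symm.toLinearMap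
  let q : V →ₗ[Ω] U.toSubmodule := (LinearMap.snd Ω _ _).comp e.symm.toLinearMap
  let C : LinearMap.BilinForm Ω V := B.compl₁₂ p p + B'.compl₁₂ q q
  have hC : ∀ x y, C x y = B (e.symm x).1 (e.symm y).1 + B' (e.symm x).2 (e.symm y).2 := fun x y => rfl
  refine ⟨C, ?_, ?_, ?_⟩
  · intro x y
    rw [hC, hC, hB.symm, hB'.symm]
  · intro x hx
    have h1 : (e.symm x).1 = 0 := hB.nondeg _ (fun w => by
      have h2 := hx (e (w, 0))
      rw [hC, LinearEquiv.symm_apply_apply] at h2
      simpa using h2)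
    have h2 : (e.symm x).2 = 0 := hB'.nondeg _ (fun w => by
      have h2 := hx (e (0, w))
      rw [hC, LinearEquiv.symm_apply_apply] at h2
      simpa using h2)
    have h3 : e.symm x = 0 := Prod.ext h1 h2
    exact (LinearEquiv.map_eq_zero_iff e.symm).1 h3
  · intro g x y
    rw [hC, hC, he, he]
    show B (W.toRepresentation g (e.symm x).1) (W.toRepresentation g (e.symm y).1) +
      B' (U.toRepresentation g (e.symm x).2) (U.toRepresentation g (e.symm y).2) = _
    rw [hB.inv, hB'.inv]

theorem orth_mult {n : ℕ} {ρ : Representation Ω G (Fin n → Ω)} (hρ : ρ.IsIrreducible)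
    (hO : Parker.Orth ρ) (m : ℕ) : ∀ (V : Type) [AddCommGroup V] [Module Ω V] [FiniteDimensional Ω V]
      (τ : Representation Ω G V), (∀ g, τ.character g = m * ρ.character g) → Parker.Orth τ := by
  induction m with
  | zero =>
    intro V _ _ _ τ h
    have h0 : Module.finrank Ω V = 0 := by
      have h1 := h 1
      rw [Nat.cast_zero, zero_mul] at h1
      have h2 : τ.character 1 = (Module.finrank Ω V : Ω) := by
        show LinearMap.trace Ω V (τ 1) = _
        rw [map_one, LinearMap.trace_one]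
      rw [h2] at h1
      exact_mod_cast h1
    haveI : Subsingleton V := Module.finrank_zero_iff.1 h0
    exact ⟨0, fun _ _ => rfl, fun x _ => Subsingleton.elim _ _, fun _ _ _ => rfl⟩
  | succ m ih =>
    intro V _ _ _ τ h
    have hφ : ρ.character ∈ Parker.irr Ω G := Parker.mem_irr.2 (Parker.mem_irrSet hρ)
    have hchar : τ.character = (((m + 1 : ℕ) : Ω)) • ρ.character := by
      funext g
      rw [h g]
      rfl
    have hmul : Parker.mul τ.character ρ.character ≠ 0 := by
      intro h0
      have h1 := Parker.mul_spec τ hφ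
      rw [h0, hchar, Parker.ip_smul_left, Parker.ip_self_irr ρ hρ, mul_one, Nat.cast_zero] at h1
      exact (Nat.cast_ne_zero.2 (Nat.succ_ne_zero m)) h1.symm
    obtain ⟨W, hW, hWc⟩ := Parker.exists_sub_of_mul hφ hmul
    obtain ⟨U, hU⟩ := Parker.P09_aux.exists_compl W
    have hs := (Parker.P09_aux.split W U hU).1
    have hUc : ∀ g, U.toRepresentation.character g = m * ρ.character g := by
      intro g
      have h1 := congrFun hs g
      rw [h g, Pi.add_apply, hWc] at h1
      push_cast at h1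
      linear_combination -h1
    have hUo := ih U.toSubmodule U.toRepresentation hUc
    obtain ⟨eq⟩ := Parker.equiv_of_char hρ hW hWc.symm
    exact orth_split W U hU (Parker.equiv_orth eq hO) hUo

theorem eval_det {d : ℕ} {L : Type} [Field L] [Fintype G] (A : G → Matrix (Fin d) (Fin d) K)
    (f : K →+* L) (y : Fin d × Fin d → L) :
    MvPolynomial.eval₂Hom f y (∑ g, ((A g).map (MvPolynomial.C (σ := Fin d × Fin d))).transpose *
      ((Matrix.of fun i j => MvPolynomial.X (i, j)) +
        (Matrix.of fun i j => MvPolynomial.X (i, j)).transpose) *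
      (A g).map (MvPolynomial.C (σ := Fin d × Fin d))).det =
    (∑ g, ((A g).map f).transpose * ((Matrix.of fun i j => y (i, j)) +
      (Matrix.of fun i j => y (i, j)).transpose) * (A g).map f).det := by
  rw [RingHom.map_det]
  congr 1
  ext i j
  simp only [RingHom.mapMatrix_apply, Matrix.map_apply, Matrix.sum_apply, Matrix.mul_apply, map_sum,
    map_mul, Matrix.transpose_apply, Matrix.add_apply, map_add, Matrix.of_apply,
    MvPolynomial.eval₂Hom_C, MvPolynomial.eval₂Hom_X']

theorem exists_form {X : Type} [AddCommGroup X] [Module K X] [FiniteDimensional K X]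
    (ρ : Representation K G X)
    (hO : Parker.Orth (ParkerGL.D02_aux.bc (Ω := Ω) (Module.finBasis K X) ρ)) :
    ∃ B : LinearMap.BilinForm K X, Parker.InvForm ρ B := by
  letI := Fintype.ofFinite G
  let d := Module.finrank K X
  let b : Module.Basis (Fin d) K X := Module.finBasis K X
  let A : G → Matrix (Fin d) (Fin d) K := fun g => LinearMap.toMatrix b b (ρ g)
  have hA1 : ∀ g h, A (g * h) = A g * A h := fun g h => by
    show LinearMap.toMatrix b b (ρ (g * h)) = _
    rw [map_mul, LinearMap.toMatrix_mul]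
  obtain ⟨B, hB⟩ := hO
  let N : Matrix (Fin d) (Fin d) Ω := LinearMap.BilinForm.toMatrix (Pi.basisFun Ω (Fin d)) B
  have hNs : N.transpose = N := by
    ext i j
    rw [Matrix.transpose_apply]
    show LinearMap.BilinForm.toMatrix (Pi.basisFun Ω (Fin d)) B j i =
      LinearMap.BilinForm.toMatrix (Pi.basisFun Ω (Fin d)) B i j
    rw [LinearMap.BilinForm.toMatrix_apply, LinearMap.BilinForm.toMatrix_apply]
    exact hB.symm _ _
  have hNd : N.det ≠ 0 := ParkerGL.gram_ne (Pi.basisFun Ω (Fin d)) hB.nondeg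
  have hNi : ∀ g, ((A g).map (algebraMap K Ω)).transpose * N * (A g).map (algebraMap K Ω) = N := by
    intro g
    have h1 : B.comp (ParkerGL.D02_aux.bc (Ω := Ω) b ρ g) (ParkerGL.D02_aux.bc (Ω := Ω) b ρ g) = B := by
      exact LinearMap.BilinForm.ext fun x y => hB.inv g x y
    have h2 := LinearMap.BilinForm.toMatrix_comp (Pi.basisFun Ω (Fin d)) (Pi.basisFun Ω (Fin d)) B
      (ParkerGL.D02_aux.bc (Ω := Ω) b ρ g) (ParkerGL.D02_aux.bc (Ω := Ω) b ρ g)
    rw [h1] at h2
    have h3 : LinearMap.toMatrix (Pi.basisFun Ω (Fin d)) (Pi.basisFun Ω (Fin d))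
        (ParkerGL.D02_aux.bc (Ω := Ω) b ρ g) = (A g).map (algebraMap K Ω) := by
      rw [LinearMap.toMatrix_eq_toMatrix']
      exact LinearMap.toMatrix'_toLin' _
    rw [h3] at h2
    exact h2.symm
  let p : MvPolynomial (Fin d × Fin d) K :=
    (∑ g, ((A g).map (MvPolynomial.C (σ := Fin d × Fin d))).transpose *
      ((Matrix.of fun i j => MvPolynomial.X (i, j)) +
        (Matrix.of fun i j => MvPolynomial.X (i, j)).transpose) *
      (A g).map (MvPolynomial.C (σ := Fin d × Fin d))).det
  have hp : p ≠ 0 := by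
    intro h0
    have h1 := eval_det A (algebraMap K Ω) (fun ij => (2 : Ω)⁻¹ * N ij.1 ij.2)
    have h2 : MvPolynomial.eval₂Hom (algebraMap K Ω) (fun ij : Fin d × Fin d =>
      (2 : Ω)⁻¹ * N ij.1 ij.2) p = 0 := by rw [h0, map_zero]
    have h3 : ((Matrix.of fun i j => (2 : Ω)⁻¹ * N i j) +
        (Matrix.of fun i j => (2 : Ω)⁻¹ * N i j).transpose) = N := by
      ext i j
      have h4 : N j i = N i j := by
        have := congrFun (congrFun hNs i) j
        rw [Matrix.transpose_apply] at this
        exact this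
      rw [Matrix.add_apply, Matrix.transpose_apply, Matrix.of_apply, Matrix.of_apply, h4]
      have : (2 : Ω) ≠ 0 := two_ne_zero
      field_simp
      ring
    have h5 : (∑ g, ((A g).map (algebraMap K Ω)).transpose * N * (A g).map (algebraMap K Ω)).det = 0 := by
      rw [← h3]
      exact h1.symm.trans h2
    rw [Finset.sum_congr rfl (fun g _ => hNi g), Finset.sum_const, Finset.card_univ,
      ← Nat.cast_smul_eq_nsmul Ω, Matrix.det_smul] at h5
    have h6 : ((Fintype.card G : ℕ) : Ω) ≠ 0 := Nat.cast_ne_zero.2 Fintype.card_ne_zero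
    exact (mul_ne_zero (pow_ne_zero _ h6) hNd) h5
  obtain ⟨y, hy⟩ : ∃ y : Fin d × Fin d → K, MvPolynomial.eval y p ≠ 0 := by
    by_contra hcon
    push Not at hcon
    exact hp (MvPolynomial.funext fun x => by rw [hcon x, map_zero])
  let S : Matrix (Fin d) (Fin d) K := (Matrix.of fun i j => y (i, j)) +
      (Matrix.of fun i j => y (i, j)).transpose
  have hSs : S.transpose = S := by
    ext i j
    show y (j, i) + y (i, j) = y (i, j) + y (j, i)
    exact add_comm _ _
  let M : Matrix (Fin d) (Fin d) K := ∑ g, (A g).transpose * S * A g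
  have hMd : M.det ≠ 0 := by
    have h1 := eval_det A (RingHom.id K) y
    have h2 : (∑ g, ((A g).map (RingHom.id K)).transpose * S * (A g).map (RingHom.id K)).det ≠ 0 := by
      intro h3
      exact hy (h1.trans h3)
    have h4 : ∀ g, (A g).map (RingHom.id K) = A g := fun g => by
      ext i j
      rfl
    simp only [h4] at h2
    exact h2
  have hMs : ∀ i j, M i j = M j i := by
    intro i j
    have h1 : M.transpose = M := by
      show (∑ g, (A g).transpose * S * A g).transpose = ∑ g, (A g).transpose * S * A g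
      rw [Matrix.transpose_sum]
      refine Finset.sum_congr rfl fun g _ => ?_
      rw [Matrix.transpose_mul, Matrix.transpose_mul, Matrix.transpose_transpose, hSs,
        Matrix.mul_assoc]
    have h2 := congrFun (congrFun h1 j) i
    rw [Matrix.transpose_apply] at h2
    exact h2
  have hMi : ∀ h, (A h).transpose * M * A h = M := by
    intro h
    show (A h).transpose * (∑ g, (A g).transpose * S * A g) * A h = ∑ g, (A g).transpose * S * A g
    rw [Matrix.mul_sum, Matrix.sum_mul,
      ← Equiv.sum_comp (Equiv.mulRight h) (fun g => (A g).transpose * S * A g)]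
    refine Finset.sum_congr rfl fun g _ => ?_
    show _ = (A (g * h)).transpose * S * A (g * h)
    rw [hA1, Matrix.transpose_mul]
    simp only [Matrix.mul_assoc]
  have hCa : ∀ x z, Matrix.toBilin b M x z = ∑ i, ∑ j, b.repr x i * M i j * b.repr z j := fun x z =>
    Matrix.toBilin_apply b M x z
  refine ⟨Matrix.toBilin b M, ?_, ?_, ?_⟩
  · intro x z
    rw [hCa, hCa, Finset.sum_comm]
    refine Finset.sum_congr rfl fun i _ => Finset.sum_congr rfl fun j _ => ?_
    rw [hMs j i]
    ring
  · intro x hx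
    have h1 : Matrix.vecMul (b.repr x) M = 0 := by
      funext j
      have h2 := hx (b j)
      rw [hCa] at h2
      show ∑ i, b.repr x i * M i j = 0
      rw [← h2]
      refine Finset.sum_congr rfl fun i _ => ?_
      rw [Finset.sum_eq_single j]
      · rw [Module.Basis.repr_self, Finsupp.single_eq_same, mul_one]
      · intro j' _ hj'
        rw [Module.Basis.repr_self, Finsupp.single_eq_of_ne hj', mul_zero]
      · intro hj
        exact absurd (Finset.mem_univ j) hj
    have h3 : (b.repr x : Fin d → K) = 0 := Matrix.eq_zero_of_vecMul_eq_zero hMd h1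
    have h4 : b.repr x = 0 := by
      ext i
      exact congrFun h3 i
    exact (LinearEquiv.map_eq_zero_iff b.repr).1 h4
  · intro g x z
    have h1 : (Matrix.toBilin b M).comp (ρ g) (ρ g) = Matrix.toBilin b M := by
      apply (LinearMap.BilinForm.toMatrix b).injective
      rw [LinearMap.BilinForm.toMatrix_comp b b, LinearMap.BilinForm.toMatrix_toBilin]
      exact hMi g
    exact LinearMap.congr_fun₂ h1 x z

end B10_aux

theorem realise_orth (hK : ParkerGL.FixedField Γ K) {k r : ℕ} (hr : Odd r)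
    (hG : Nat.card G = 2 ^ k * r) (hΓ : ∀ σ ∈ Γ, ∀ z : Ω, z ^ (3 * r) = 1 → σ z = z) {n : ℕ}
    {ρ : Representation Ω G (Fin n → Ω)} (hρ : ρ.IsIrreducible) (hf : Parker.FxC Γ ρ)
    (hO : Parker.Orth ρ) :
    ∃ (m : ℕ) (M : ParkerGL.QM K G), Odd m ∧ ∀ g, M.ch Ω g = m * ρ.character g := by
  have hφ : ρ.character ∈ Parker.irr Ω G := Parker.mem_irr.2 (Parker.mem_irrSet hρ)
  obtain ⟨X, _, _, _, τ, m, hm, hτ⟩ := oddRep_cut hK hφ hf (realise hK hr hG hΓ hφ hf)
  let b := Module.finBasis K X
  have hc : ∀ g, (ParkerGL.D02_aux.bc (Ω := Ω) b τ).character g = m * ρ.character g := by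
    intro g
    rw [← hτ g]
    have h1 : (ParkerGL.D02_aux.bc (Ω := Ω) b τ).character g =
        LinearMap.trace Ω (Fin (Module.finrank K X) → Ω)
          (Matrix.toLin' ((LinearMap.toMatrix b b (τ g)).map (algebraMap K Ω))) := rfl
    have h2 : τ.character g = Matrix.trace (LinearMap.toMatrix b b (τ g)) :=
      LinearMap.trace_eq_matrix_trace K b (τ g)
    rw [h1, h2, Matrix.trace_toLin'_eq]
    simp only [Matrix.trace, Matrix.diag_apply, Matrix.map_apply, map_sum]
  obtain ⟨B, hB⟩ := exists_form τ (orth_mult hρ hO m _ _ hc)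
  exact ⟨m, ⟨X, τ, B, hB⟩, hm, hτ⟩

end

end

end LieP
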