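import Pool.Agent.LieP.G04

/-!
# MP_6c3636_al, LieP, module C01: crossing one wall (5.4) (helper7)

Section 5, (5.4). `x0` is the base point, `X = S.X x0`, `y, z` regular (`S.Reg x0`), not in the same facet. `sp x y` is the set of the roots separating `x` and `y`. Replace `y` by a point `y'` of `X` in the facet of `y` such that for any two roots `a, b ∈ sp y z` which are not proportional on `X` we have `⟨a,y'⟩⟨b,z⟩ ≠ ⟨b,y'⟩⟨a,z⟩`: the functional `u ↦ ⟨a,u⟩⟨b,z⟩ - ⟨b,u⟩⟨a,z⟩` is not zero on `X`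
(`⟨a,z⟩, ⟨b,z⟩ ≠ 0`); finitely many proper subspaces of `X` do not contain an open subset: take `y' = y + r u` with `r > 0` small and `u ∈ X` outside of all these hyperplanes translated (for each pair the condition fails for at most one value of `r` if `u` is outside of the hyperplane). The segment `p t = y' + t (z - y')` meets the hyperplane of `a ∈ sp y' z` at `t_a = ⟨a,y'⟩ / (⟨a,y'⟩ - ⟨a,z⟩) ∈ (0,1)`; `t_a = t_b` iff
`⟨a,y'⟩⟨b,z⟩ = ⟨b,y'⟩⟨a,z⟩`, so only for proportional roots. Let `t₁` be the minimum, `w = p t₁`, `y₁ = p (t₁ + δ)` with small `δ > 0`. All roots not in `sp y z` (and not vanishing on `X`) have a constant sign on the segment (the value at `0` and at `1` has the same sign), so `sp y y₁` is the set of the roots with `t_a = t₁`.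
-/

namespace LieP

noncomputable section

open Classical

variable {G E : Type} [Group G] [NormedAddCommGroup E] [InnerProductSpace ℝ E]
  [FiniteDimensional ℝ E] (S : LieSys G E)

/-- the roots separating `x` and `y` -/
def sp (S : LieSys G E) (x y : E) : Finset E := S.R.filter fun a => inner ℝ a x * inner ℝ a y < 0

theorem mem_sp {x y a : E} : a ∈ sp S x y ↔ a ∈ S.R ∧ inner ℝ a x * inner ℝ a y < 0 := Finset.mem_filter

namespace C01_aux

theorem pos_iff {S : LieSys G E} {x y a : E} (h : S.eqv x y) (ha : a ∈ S.R) :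
    0 < inner ℝ a x ↔ 0 < inner ℝ a y := (eqv_iff S).1 h a ha

theorem neg_iff {S : LieSys G E} {x y a : E} (h : S.eqv x y) (ha : a ∈ S.R) :
    inner ℝ a x < 0 ↔ inner ℝ a y < 0 :=
  ⟨(le_iff_neg S).1 h.1 a ha, (le_iff_neg S).1 h.2 a ha⟩

theorem mul_iff {S : LieSys G E} {x x' y y' a : E} (h : S.eqv x x') (h' : S.eqv y y')
    (ha : a ∈ S.R) : inner ℝ a x * inner ℝ a y < 0 ↔ inner ℝ a x' * inner ℝ a y' < 0 := by
  rw [mul_neg_iff, mul_neg_iff, pos_iff h ha, pos_iff h' ha, neg_iff h ha, neg_iff h' ha]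

theorem reg_eqv {S : LieSys G E} {x0 y y' : E} (hy : S.Reg x0 y) (h : S.eqv y y') :
    S.Reg x0 y' := by
  intro a ha
  rw [← hy a ha]
  exact ⟨fun h0 => le_zero S h.1 ha h0, fun h0 => le_zero S h.2 ha h0⟩

theorem time_spec {p q : ℝ} (h : p * q < 0) : 0 < p / (p - q) ∧ p / (p - q) < 1 ∧
    (1 - p / (p - q)) * p + p / (p - q) * q = 0 := by
  have hne : p - q ≠ 0 := by
    intro h0
    have : p = q := by linarith
    rw [this] at h
    exact absurd h (not_lt.2 (mul_self_nonneg q))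
  have e : (1 - p / (p - q)) * p + p / (p - q) * q = 0 := by
    field_simp
    ring
  rcases mul_neg_iff.1 h with ⟨hp, hq⟩ | ⟨hp, hq⟩
  · have h1 : 0 < p - q := by linarith
    exact ⟨div_pos hp h1, (div_lt_one h1).2 (by linarith), e⟩
  · have h1 : p - q < 0 := by linarith
    exact ⟨div_pos_of_neg_of_neg hp h1, (div_lt_one_of_neg h1).2 (by linarith), e⟩

theorem time_le {p q t : ℝ} (h : p * q < 0) (ht : t ≤ p / (p - q)) :
    (0 < p → 0 ≤ (1 - t) * p + t * q) ∧ (p < 0 → (1 - t) * p + t * q ≤ 0) := by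
  constructor
  · intro hp
    have hq : q < 0 := by
      rcases mul_neg_iff.1 h with h1 | h1
      · exact h1.2
      · linarith [h1.1]
    have h1 : 0 < p - q := by linarith
    have h2 := (le_div_iff₀ h1).1 ht
    linarith
  · intro hp
    have hq : 0 < q := by
      rcases mul_neg_iff.1 h with h1 | h1
      · linarith [h1.1]
      · exact h1.2
    have h1 : p - q < 0 := by linarith
    have h2 := (le_div_iff_of_neg h1).1 ht
    linarith

omit [FiniteDimensional ℝ E] in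
theorem gen_point (X : Submodule ℝ E) {ι : Type} [Finite ι] (F : ι → Module.Dual ℝ E)
    (hF : ∀ i, ∃ x ∈ X, F i x ≠ 0) : ∃ u ∈ X, ∀ y : E, ∀ r0 : ℝ, 0 < r0 →
      ∃ r, 0 < r ∧ r ≤ r0 ∧ ∀ i, F i (y + r • u) ≠ 0 := by
  obtain ⟨u, hu, h⟩ := Module.Dual.exists_forall_mem_ne_zero_of_forall_exists X F hF
  refine ⟨u, hu, fun y r0 hr0 => ?_⟩
  have hfin : (Set.range fun i => -(F i y) / F i u).Finite := Set.finite_range _
  obtain ⟨r, hr, hr'⟩ := (Set.Ioc_infinite hr0).exists_notMem_finite hfin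
  refine ⟨r, hr.1, hr.2, fun i h0 => hr' ⟨i, ?_⟩⟩
  rw [map_add, map_smul, smul_eq_mul] at h0
  show -(F i y) / F i u = r
  rw [div_eq_iff (h i)]
  linarith

/-- the functional of a pair of roots -/
def Fn (z a b : E) : Module.Dual ℝ E where
  toFun u := inner ℝ a u * inner ℝ b z - inner ℝ b u * inner ℝ a z
  map_add' u v := by
    rw [inner_add_right, inner_add_right]
    ring
  map_smul' r u := by
    rw [inner_smul_right, inner_smul_right, RingHom.id_apply, smul_eq_mul]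
    ring

theorem exists_gen (S : LieSys G E) {x0 y : E} (z : E) (hy : S.Reg x0 y) :
    ∃ y', S.eqv y y' ∧ S.Reg x0 y' ∧ ∀ a ∈ S.R, ∀ b ∈ S.R,
      inner ℝ a y' * inner ℝ b z = inner ℝ b y' * inner ℝ a z →
        ∀ u ∈ S.X x0, inner ℝ a u * inner ℝ b z = inner ℝ b u * inner ℝ a z := by
  have hfin : Finite {p : S.R × S.R // ∃ u ∈ S.X x0, Fn z (p.1 : E) (p.2 : E) u ≠ 0} :=
    Subtype.finite
  have hfun : ∀ i : {p : S.R × S.R // ∃ u ∈ S.X x0, Fn z (p.1 : E) (p.2 : E) u ≠ 0},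
      ∃ u ∈ S.X x0, Fn z (i.1.1 : E) (i.1.2 : E) u ≠ 0 := fun i => i.2
  obtain ⟨e⟩ : Nonempty ({p : S.R × S.R // ∃ u ∈ S.X x0, Fn z (p.1 : E) (p.2 : E) u ≠ 0} ≃
      Fin (Nat.card {p : S.R × S.R // ∃ u ∈ S.X x0, Fn z (p.1 : E) (p.2 : E) u ≠ 0})) :=
    ⟨Finite.equivFin _⟩
  obtain ⟨u, hu, h1⟩ := gen_point (S.X x0) (fun j => Fn z ((e.symm j).1.1 : E)
    ((e.symm j).1.2 : E)) (fun j => hfun (e.symm j))
  obtain ⟨r0, hr0, h2⟩ := exists_small S y u
  obtain ⟨r, hr, hr', h3⟩ := h1 y r0 hr0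
  have he : S.eqv y (y + r • u) := by
    rw [eqv_iff]
    intro a ha
    rw [h2 r hr hr' a ha]
    constructor
    · exact Or.inl
    · rintro (h | ⟨h, h'⟩)
      · exact h
      · have h4 : inner ℝ a u = 0 := hu a ha ((hy a ha).1 h)
        rw [h4] at h'
        exact absurd h' (lt_irrefl _)
  refine ⟨y + r • u, he, reg_eqv hy he, fun a ha b hb h4 u' hu' => ?_⟩
  by_contra h5
  have h6 := h3 (e ⟨(⟨a, ha⟩, ⟨b, hb⟩), u', hu', fun h0 => h5 (sub_eq_zero.1 h0)⟩)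
  rw [Equiv.symm_apply_apply] at h6
  exact h6 (sub_eq_zero.2 h4)

end C01_aux

theorem sp_empty {x0 x y : E} (hx : S.Reg x0 x) (hy : S.Reg x0 y) : sp S x y = ∅ ↔ S.eqv x y := by
  rw [Finset.eq_empty_iff_forall_notMem, eqv_iff]
  constructor
  · intro h a ha
    have h1 : ¬ inner ℝ a x * inner ℝ a y < 0 := fun h0 => h a ((mem_sp S).2 ⟨ha, h0⟩)
    have h2 : inner ℝ a x = 0 ↔ inner ℝ a y = 0 := (hx a ha).trans (hy a ha).symm
    constructor
    · intro h3
      by_contra h4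
      have h5 : inner ℝ a y ≠ 0 := fun h0 => h3.ne' (h2.2 h0)
      exact h1 (mul_neg_of_pos_of_neg h3 (lt_of_le_of_ne (not_lt.1 h4) h5))
    · intro h3
      by_contra h4
      have h5 : inner ℝ a x ≠ 0 := fun h0 => h3.ne' (h2.1 h0)
      exact h1 (mul_neg_of_neg_of_pos (lt_of_le_of_ne (not_lt.1 h4) h5) h3)
  · intro h a ha
    obtain ⟨ha, h1⟩ := (mem_sp S).1 ha
    have h2 := h a ha
    rcases mul_neg_iff.1 h1 with ⟨h3, h4⟩ | ⟨h3, h4⟩
    · exact absurd (h2.1 h3) (not_lt.2 h4.le)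
    · exact absurd (h2.2 h4) (not_lt.2 h3.le)

theorem sp_symm (x y : E) : sp S x y = sp S y x := by
  ext a
  rw [mem_sp, mem_sp, mul_comm]

theorem sp_eqv {x x' y y' : E} (h : S.eqv x x') (h' : S.eqv y y') : sp S x y = sp S x' y' := by
  ext a
  rw [mem_sp, mem_sp]
  exact and_congr_right fun ha => C01_aux.mul_iff h h' ha

/-- `y`, `y'` are adjacent via `w` -/
structure Adj (S : LieSys G E) (x0 y y' w : E) : Prop where
  ry : S.Reg x0 y
  ry' : S.Reg x0 y'
  wX : w ∈ S.X x0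
  le : S.le w y
  le' : S.le w y'
  ne : ∃ a ∈ S.R, inner ℝ a w = 0 ∧ inner ℝ a x0 ≠ 0
  opp : ∀ a ∈ S.R, inner ℝ a w = 0 → inner ℝ a x0 ≠ 0 → inner ℝ a y * inner ℝ a y' < 0
  prop : ∀ a ∈ S.R, ∀ b ∈ S.R, inner ℝ a w = 0 → inner ℝ a x0 ≠ 0 → inner ℝ b w = 0 →
    inner ℝ b x0 ≠ 0 → ∃ r : ℝ, r ≠ 0 ∧ ∀ u ∈ S.X x0, inner ℝ b u = r * inner ℝ a u

theorem adj_symm {x0 y y' w : E} (h : Adj S x0 y y' w) : Adj S x0 y' y w := by
  exact ⟨h.ry', h.ry, h.wX, h.le', h.le, h.ne, fun a ha h1 h2 => by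
    rw [mul_comm]
    exact h.opp a ha h1 h2, h.prop⟩

theorem adj_sp {x0 y y' w : E} (h : Adj S x0 y y' w) {a : E} :
    a ∈ sp S y y' ↔ a ∈ S.R ∧ inner ℝ a w = 0 ∧ inner ℝ a x0 ≠ 0 := by
  rw [mem_sp]
  refine and_congr_right fun ha => ⟨fun h1 => ⟨?_, fun h0 => ?_⟩, fun h1 => h.opp a ha h1.1 h1.2⟩
  · rcases lt_trichotomy (inner ℝ a w) 0 with h2 | h2 | h2
    · have h3 := (le_iff_neg S).1 h.le a ha h2
      have h4 := (le_iff_neg S).1 h.le' a ha h2
      exact absurd h1 (not_lt.2 (mul_pos_of_neg_of_neg h3 h4).le)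
    · exact h2
    · exact absurd h1 (not_lt.2 (mul_pos (h.le a ha h2) (h.le' a ha h2)).le)
  · rw [(h.ry a ha).2 h0, zero_mul] at h1
    exact lt_irrefl _ h1

theorem exists_adj {x0 y z : E} (hy : S.Reg x0 y) (hz : S.Reg x0 z) (h : ¬ S.eqv y z) :
    ∃ y1 w, Adj S x0 y y1 w ∧ sp S y y1 ⊆ sp S y z ∧ sp S y1 z = sp S y z \ sp S y y1 := by
  obtain ⟨y', he, hy', hgen⟩ := C01_aux.exists_gen S z hy
  have hne : (sp S y z).Nonempty := by
    rw [Finset.nonempty_iff_ne_empty]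
    intro h0
    exact h ((sp_empty S hy hz).1 h0)
  have hB : ∀ a, a ∈ sp S y z ↔ a ∈ S.R ∧ inner ℝ a y' * inner ℝ a z < 0 := by
    intro a
    rw [sp_eqv S he (eqv_refl S z), mem_sp]
  obtain ⟨a1, ha1, hmin⟩ := Finset.exists_min_image (sp S y z)
    (fun a => inner ℝ a y' / (inner ℝ a y' - inner ℝ a z)) hne
  obtain ⟨t, ht⟩ : ∃ t : ℝ, t = inner ℝ a1 y' / (inner ℝ a1 y' - inner ℝ a1 z) := ⟨_, rfl⟩
  obtain ⟨ht0, ht1, ht2⟩ := C01_aux.time_spec ((hB a1).1 ha1).2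
  rw [← ht] at ht0 ht1 ht2
  have hmin' : ∀ a ∈ sp S y z, t ≤ inner ℝ a y' / (inner ℝ a y' - inner ℝ a z) := by
    intro a ha
    rw [ht]
    exact hmin a ha
  obtain ⟨w, hwd⟩ : ∃ w : E, w = (1 - t) • y' + t • z := ⟨_, rfl⟩
  have hw : ∀ a, inner ℝ a w = (1 - t) * inner ℝ a y' + t * inner ℝ a z := by
    intro a
    rw [hwd, inner_add_right, inner_smul_right, inner_smul_right]
  have hwX : w ∈ S.X x0 := by
    rw [hwd]
    exact (S.X x0).add_mem ((S.X x0).smul_mem _ (reg_mem_X S hy'))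
      ((S.X x0).smul_mem _ (reg_mem_X S hz))
  have ha1w : inner ℝ a1 w = 0 := by rw [hw, ht2]
  have ha1R : a1 ∈ S.R := ((hB a1).1 ha1).1
  have hle : S.le w y := by
    intro a ha h0
    rw [C01_aux.pos_iff he ha]
    rw [hw] at h0
    by_contra h1
    have h1' := not_lt.1 h1
    have h2 : (1 - t) * inner ℝ a y' ≤ 0 := mul_nonpos_of_nonneg_of_nonpos (by linarith) h1'
    have h3 : 0 < inner ℝ a z := by
      by_contra h3
      have : t * inner ℝ a z ≤ 0 := mul_nonpos_of_nonneg_of_nonpos ht0.le (not_lt.1 h3)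
      linarith
    have h4 : inner ℝ a y' ≠ 0 := by
      intro h4
      exact h3.ne' ((hz a ha).2 ((hy' a ha).1 h4))
    have h5 : inner ℝ a y' < 0 := lt_of_le_of_ne h1' h4
    have h6 := mul_neg_of_neg_of_pos h5 h3
    have h7 := (C01_aux.time_le h6 (hmin' a ((hB a).2 ⟨ha, h6⟩))).2 h5
    linarith
  have hry : S.Reg x0 (S.cm w z) := reg_cm S hz hwX
  -- the roots vanishing at `w`
  have hzero : ∀ a ∈ S.R, inner ℝ a w = 0 → inner ℝ a x0 ≠ 0 → inner ℝ a y' * inner ℝ a z < 0 := by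
    intro a ha h0 h1
    have h2 : inner ℝ a y' ≠ 0 := fun h2 => h1 ((hy' a ha).1 h2)
    have h3 : inner ℝ a z ≠ 0 := fun h3 => h1 ((hz a ha).1 h3)
    rw [hw] at h0
    rcases lt_or_gt_of_ne h2 with h4 | h4
    · have h5 : (1 - t) * inner ℝ a y' < 0 := mul_neg_of_pos_of_neg (by linarith) h4
      have h6 : 0 < inner ℝ a z := by
        by_contra h6
        have : t * inner ℝ a z ≤ 0 := mul_nonpos_of_nonneg_of_nonpos ht0.le (not_lt.1 h6)
        linarith
      exact mul_neg_of_neg_of_pos h4 h6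
    · have h5 : 0 < (1 - t) * inner ℝ a y' := mul_pos (by linarith) h4
      have h6 : inner ℝ a z < 0 := by
        by_contra h6
        have : 0 ≤ t * inner ℝ a z := mul_nonneg ht0.le (not_lt.1 h6)
        linarith
      exact mul_neg_of_pos_of_neg h4 h6
  -- signs at `cm w z`
  have hsz : ∀ a ∈ S.R, inner ℝ a w = 0 → (0 < inner ℝ a (S.cm w z) ↔ 0 < inner ℝ a z) ∧
      (inner ℝ a (S.cm w z) < 0 ↔ inner ℝ a z < 0) := by
    intro a ha h0
    have h1 := cm_pos S (x := w) (y := z) ha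
    have h2 := cm_pos S (x := w) (y := z) (S.neg a ha)
    rw [inner_neg_left, inner_neg_left, inner_neg_left, neg_pos, neg_pos, neg_pos, neg_eq_zero]
      at h2
    rw [h0] at h1 h2
    simp only [lt_irrefl, false_or, true_and] at h1 h2
    exact ⟨h1, h2⟩
  have hsn : ∀ a ∈ S.R, inner ℝ a w ≠ 0 → (0 < inner ℝ a (S.cm w z) ↔ 0 < inner ℝ a y) ∧
      (inner ℝ a (S.cm w z) < 0 ↔ inner ℝ a y < 0) := by
    intro a ha h0
    have h2 := le_cm S w z
    rcases lt_or_gt_of_ne h0 with h3 | h3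
    · have h4 := (le_iff_neg S).1 h2 a ha h3
      have h5 := (le_iff_neg S).1 hle a ha h3
      exact ⟨⟨fun h6 => absurd h6 (not_lt.2 h4.le), fun h6 => absurd h6 (not_lt.2 h5.le)⟩,
        ⟨fun _ => h5, fun _ => h4⟩⟩
    · have h4 := h2 a ha h3
      have h5 := hle a ha h3
      exact ⟨⟨fun _ => h5, fun _ => h4⟩,
        ⟨fun h6 => absurd h6 (not_lt.2 h4.le), fun h6 => absurd h6 (not_lt.2 h5.le)⟩⟩
  have hadj : Adj S x0 y (S.cm w z) w := by
    refine ⟨hy, hry, hwX, hle, le_cm S w z, ⟨a1, ha1R, ha1w, fun h0 => ?_⟩, ?_, ?_⟩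
    · have h1 := ((hB a1).1 ha1).2
      rw [(hy' a1 ha1R).2 h0, zero_mul] at h1
      exact lt_irrefl _ h1
    · intro a ha h0 h1
      have h2 := (C01_aux.mul_iff he (eqv_refl S z) ha).2 (hzero a ha h0 h1)
      rw [mul_neg_iff] at h2 ⊢
      rw [(hsz a ha h0).1, (hsz a ha h0).2]
      exact h2
    · intro a ha b hb h0 h1 h2 h3
      have haz : inner ℝ a z ≠ 0 := fun h4 => h1 ((hz a ha).1 h4)
      have hbz : inner ℝ b z ≠ 0 := fun h4 => h3 ((hz b hb).1 h4)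
      rw [hw] at h0 h2
      have h4 : inner ℝ a y' * inner ℝ b z = inner ℝ b y' * inner ℝ a z := by
        have h5 : (1 - t) * (inner ℝ a y' * inner ℝ b z - inner ℝ b y' * inner ℝ a z) = 0 := by
          linear_combination inner ℝ b z * h0 - inner ℝ a z * h2
        have h6 := (mul_eq_zero.1 h5).resolve_left (by linarith)
        linarith
      have h5 := hgen a ha b hb h4
      refine ⟨inner ℝ b z / inner ℝ a z, div_ne_zero hbz haz, fun u hu => ?_⟩
      have h6 := h5 u hu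
      rw [div_mul_eq_mul_div, eq_div_iff haz]
      linarith
  have hsub : sp S y (S.cm w z) ⊆ sp S y z := by
    intro a ha
    obtain ⟨h1, h2, h3⟩ := (adj_sp S hadj).1 ha
    exact (hB a).2 ⟨h1, hzero a h1 h2 h3⟩
  refine ⟨S.cm w z, w, hadj, hsub, ?_⟩
  ext a
  rw [Finset.mem_sdiff, mem_sp]
  constructor
  · rintro ⟨ha, h1⟩
    have h2 : inner ℝ a w ≠ 0 := by
      intro h0
      rw [mul_neg_iff, (hsz a ha h0).1, (hsz a ha h0).2] at h1
      rcases h1 with ⟨h2, h3⟩ | ⟨h2, h3⟩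
      · exact lt_asymm h2 h3
      · exact lt_asymm h2 h3
    refine ⟨?_, fun h3 => h2 ((adj_sp S hadj).1 h3).2.1⟩
    rw [mem_sp]
    refine ⟨ha, ?_⟩
    rw [mul_neg_iff] at h1 ⊢
    rw [← (hsn a ha h2).1, ← (hsn a ha h2).2]
    exact h1
  · rintro ⟨h1, h2⟩
    obtain ⟨ha, h1⟩ := (mem_sp S).1 h1
    refine ⟨ha, ?_⟩
    have h3 : inner ℝ a w ≠ 0 := by
      intro h0
      refine h2 ((adj_sp S hadj).2 ⟨ha, h0, fun h4 => ?_⟩)
      rw [(hy a ha).2 h4, zero_mul] at h1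
      exact lt_irrefl _ h1
    rw [mul_neg_iff] at h1 ⊢
    rw [(hsn a ha h3).1, (hsn a ha h3).2]
    exact h1

end

end LieP
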