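import Pool.Agent.LieP.M07

/-!
# MP_6c3636_al, LieP, module M08: cuspidal idempotents of Levi systems (helper7)

Sections 2, 4, 5. For `y ∈ X = S.X D.x` we have `L D.x ≤ L y` (`L_mono`), so `ε` is a cuspidal idempotent for the Levi system of `y`. `lev_NN`: `sb k (L D'.x ⊓ L y) = sb k (L D'.x)`. `lev_Ta`: if `a` is of type (a) for `D` and `⟨a,y⟩ = 0` then the element `v` fixes `y ∈ X`, so `v ∈ L y` (`fix_iff`).
`lev_W`: `w ∈ W`, `w y = y`: `rp w` fixes `y`, so it is in `L y`.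
-/

namespace LieP

noncomputable section

open Classical

variable {G E : Type} [Group G] [Finite G] [NormedAddCommGroup E] [InnerProductSpace ℝ E]
  [FiniteDimensional ℝ E] {S : LieSys G E} {k : Type} [Field k] [CharZero k]

namespace M08_aux

theorem hX {D : S.Cs k} {y : E} (hy : y ∈ S.X D.x) :
    ∀ a ∈ S.R, inner ℝ a D.x = 0 → inner ℝ a y = 0 := hy

theorem hL {D : S.Cs k} {y : E} (hy : y ∈ S.X D.x) : (lev S y).L D.x = S.L D.x :=
  lev_L S hy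

theorem hUL {D : S.Cs k} {y : E} (hy : y ∈ S.X D.x) (z : E) :
    (lev S y).U z ⊓ (lev S y).L D.x = S.U z ⊓ S.L D.x := by
  rw [hL hy]
  have h1 : S.L D.x ≤ S.L y := L_mono S hy
  ext g
  constructor
  · intro h
    exact ⟨h.1.1, h.2⟩
  · intro h
    exact ⟨⟨h.1, h1 h.2⟩, h.2⟩

theorem sp_congr {K K' : Submodule ℝ E} [K.HasOrthogonalProjection] [K'.HasOrthogonalProjection]
    (h : K = K') (a : E) : K.starProjection a = K'.starProjection a := by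
  subst h
  rfl

end M08_aux

open M08_aux

/-- the idempotent for the Levi system -/
def levD (D : S.Cs k) (y : E) (hy : y ∈ S.X D.x) : (lev S y).Cs k where
  x := D.x
  ε := D.ε
  mem := by
    rw [hL hy]
    exact D.mem
  idem := D.idem
  ne := D.ne
  prim := by
    intro a ha
    rw [hL hy] at ha
    exact D.prim a ha
  lft := by
    intro z hz a ha
    rw [hUL hy]
    rw [hL hy] at ha
    obtain ⟨g, h1, h2, h3⟩ := hz
    rw [hL hy] at h2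
    exact D.lft z ⟨g, h1.1, h2, h3⟩ a ha
  rgt := by
    intro z hz a ha
    rw [hUL hy]
    rw [hL hy] at ha
    obtain ⟨g, h1, h2, h3⟩ := hz
    rw [hL hy] at h2
    exact D.rgt z ⟨g, h1.1, h2, h3⟩ a ha

theorem levD_x (D : S.Cs k) {y : E} (hy : y ∈ S.X D.x) : (levD D y hy).x = D.x := rfl

theorem levD_eps (D : S.Cs k) {y : E} (hy : y ∈ S.X D.x) : (levD D y hy).ε = D.ε := rfl

theorem levD_f (D : S.Cs k) {y : E} (hy : y ∈ S.X D.x) (x : E) :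
    (levD D y hy).f x = av k (S.U x ⊓ S.L y) * D.ε := rfl

/-- in general -/
theorem M08_aux.e_levD_f0 (D : S.Cs k) {y : E} (hy : y ∈ S.X D.x) (x : E) :
    S.e k y * (levD D y hy).f x = D.f (S.cm y x) := by
  rw [levD_f, ← mul_assoc, ← (e_cm y x).1]
  rfl

theorem e_levD_f (D : S.Cs k) {y : E} (hy : y ∈ S.X D.x) {x : E} (h : S.le y x) :
    S.e k y * (levD D y hy).f x = D.f x := by
  rw [M08_aux.e_levD_f0]
  show S.e k (S.cm y x) * D.ε = S.e k x * D.ε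
  rw [e_eqv (cm_eqv S h)]

/-- in general -/
theorem e_levD_f' (D : S.Cs k) {y : E} (hy : y ∈ S.X D.x) (x : E) :
    S.e k y * (levD D y hy).f x = D.f (S.cm y x) := M08_aux.e_levD_f0 D hy x

theorem levD_reg {D : S.Cs k} {y : E} (hy : y ∈ S.X D.x) {x : E} :
    (lev S y).Reg D.x x ↔ S.Reg D.x (S.cm y x) := by
  constructor
  · intro h a ha
    rw [cm_zero S ha]
    constructor
    · rintro ⟨h1, h2⟩
      exact (h a ((mem_lR S).2 ⟨ha, h1⟩)).1 h2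
    · intro h1
      have h2 : inner ℝ a y = 0 := hy a ha h1
      exact ⟨h2, (h a ((mem_lR S).2 ⟨ha, h2⟩)).2 h1⟩
  · intro h a ha
    have ha' := (mem_lR S).1 ha
    have h1 := h a ha'.1
    rw [cm_zero S ha'.1] at h1
    exact ⟨fun h2 => h1.1 ⟨ha'.2, h2⟩, fun h2 => (h1.2 h2).2⟩

theorem levD_reg_of {D : S.Cs k} {y : E} {x : E} (h : S.Reg D.x x) : (lev S y).Reg D.x x :=
  fun a ha => h a ((mem_lR S).1 ha).1

theorem lev_Xx {D : S.Cs k} {y : E} (hy : y ∈ S.X D.x) : (lev S y).X D.x = S.X D.x :=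
  lev_X S hy

theorem lev_lin {D' D : S.Cs k} {y : E} (hy' : y ∈ S.X D'.x) (hy : y ∈ S.X D.x) (n : G) :
    lin (levD D' y hy') (levD D y hy) n = lin D' D n := by
  ext b
  constructor
  · rintro ⟨a, ha, hb⟩
    rw [levD_x, hL hy'] at ha
    exact ⟨a, ha, hb⟩
  · rintro ⟨a, ha, hb⟩
    rw [← hL hy'] at ha
    exact ⟨a, ha, hb⟩

theorem lev_NN {D' D : S.Cs k} {y : E} (hy' : y ∈ S.X D'.x) (hy : y ∈ S.X D.x) {n : G} :
    n ∈ (levD D' y hy').NN (levD D y hy) ↔ n ∈ D'.NN D ∧ n ∈ S.L y := by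
  constructor
  · rintro ⟨h1, h2, a, ha, h3⟩
    rw [levD_x, levD_x, hL hy, hL hy'] at h2
    rw [levD_x, hL hy'] at ha
    exact ⟨⟨h1.1, h2, a, ha, h3⟩, h1.2⟩
  · rintro ⟨⟨h1, h2, a, ha, h3⟩, h4⟩
    rw [← hL hy'] at ha
    rw [← hL hy, ← hL hy'] at h2
    exact ⟨⟨h1, h4⟩, h2, a, ha, h3⟩

theorem lev_Ta {D : S.Cs k} {y : E} (hy : y ∈ S.X D.x) {a : E} :
    (levD D y hy).Ta a ↔ D.Ta a ∧ inner ℝ a y = 0 := by
  constructor
  · rintro ⟨h1, h2, v, hv, h3, h4⟩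
    have h1' := (mem_lR S).1 h1
    have hv' := (lev_NN hy hy).1 hv
    rw [levD_x, hL hy] at h3
    rw [levD_x, lev_Xx hy] at h4
    exact ⟨⟨h1'.1, h2, v, hv'.1, h3, h4⟩, h1'.2⟩
  · rintro ⟨⟨h1, h2, v, hv, h3, h4⟩, h5⟩
    have h6 : v ∈ S.L y := (fix_iff S hv.1).1 (h4 y hy h5)
    have hv' := (lev_NN hy hy).2 ⟨hv, h6⟩
    rw [← hL hy] at h3
    rw [← lev_Xx hy] at h4
    exact ⟨(mem_lR S).2 ⟨h1, h5⟩, h2, v, hv', h3, h4⟩

theorem lev_W {D : S.Cs k} {y : E} (hy : y ∈ S.X D.x) {w : E ≃ₗᵢ[ℝ] E} :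
    w ∈ (levD D y hy).W ↔ w ∈ D.W ∧ w y = y := by
  rw [mem_W, mem_W]
  constructor
  · rintro ⟨h1, n, hn, h2⟩
    have hn' := (lev_NN hy hy).1 hn
    rw [levD_x, lev_Xx hy] at h1 h2
    refine ⟨⟨h1, n, hn'.1, h2⟩, ?_⟩
    rw [h2 y hy]
    exact (fix_iff S hn'.1.1).2 hn'.2
  · rintro ⟨⟨h1, n, hn, h2⟩, h3⟩
    rw [h2 y hy] at h3
    have hn' := (lev_NN hy hy).2 ⟨hn, (fix_iff S hn.1).1 h3⟩
    rw [← lev_Xx hy] at h1 h2
    exact ⟨h1, n, hn', h2⟩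

theorem lev_rp {D : S.Cs k} {y : E} (hy : y ∈ S.X D.x) {w : E ≃ₗᵢ[ℝ] E} (hw : w ∈ D.W) (h : w y = y) :
    ((levD D y hy).rp w)⁻¹ * D.rp w ∈ S.L D.x ∧ lin D D ((levD D y hy).rp w) = lin D D (D.rp w) := by
  have hw' : w ∈ (levD D y hy).W := (lev_W hy).2 ⟨hw, h⟩
  obtain ⟨h1, h2⟩ := W_rp hw'
  have h3 := (lev_NN hy hy).1 h1
  rw [levD_x, lev_Xx hy] at h2
  obtain ⟨h4, h5⟩ := rp_eq hw h3.1 h2
  refine ⟨?_, h5⟩
  have h6 := (S.L D.x).inv_mem h4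
  rw [mul_inv_rev, inv_inv] at h6
  exact h6

theorem M08_aux.pj_eq {D : S.Cs k} {y : E} (hy : y ∈ S.X D.x) (a : E) :
    (levD D y hy).pj a = D.pj a :=
  sp_congr (lev_Xx hy) a

theorem M08_aux.inner_pj {D : S.Cs k} {y : E} (hy : y ∈ S.X D.x) (a : E) :
    inner ℝ (D.pj a) y = inner ℝ a y := by
  show inner ℝ ((S.X D.x).starProjection a) y = inner ℝ a y
  rw [Submodule.inner_starProjection_left_eq_right, Submodule.starProjection_eq_self_iff.2 hy]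

theorem M08_aux.pj_ne {D : S.Cs k} {a : E} (h : D.Ta a) : ‖D.pj a‖⁻¹ ≠ 0 := by
  have h1 : D.x ∈ S.X D.x := fun _ _ h => h
  have h2 := M08_aux.inner_pj h1 a
  refine inv_ne_zero ?_
  rw [norm_ne_zero_iff]
  intro h3
  rw [h3, inner_zero_left] at h2
  exact h.2.1 h2.symm

theorem lev_Psi {D : S.Cs k} {y : E} (hy : y ∈ S.X D.x) :
    (levD D y hy).Psi = D.Psi.filter fun a => inner ℝ a y = 0 := by
  ext b
  rw [Finset.mem_filter]
  constructor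
  · intro h
    obtain ⟨a, ha, hb⟩ := Finset.mem_image.1 h
    obtain ⟨h1, h2⟩ := Finset.mem_filter.1 ha
    rw [lev_Ta hy] at h2
    rw [M08_aux.pj_eq hy] at hb
    refine ⟨Finset.mem_image.2 ⟨a, Finset.mem_filter.2 ⟨h2.1.1, h2.1⟩, hb⟩, ?_⟩
    rw [← hb, real_inner_smul_left, M08_aux.inner_pj hy, h2.2, mul_zero]
  · rintro ⟨h, h0⟩
    obtain ⟨a, ha, hb⟩ := Finset.mem_image.1 h
    obtain ⟨h1, h2⟩ := Finset.mem_filter.1 ha
    rw [← hb, real_inner_smul_left, M08_aux.inner_pj hy] at h0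
    have h3 : inner ℝ a y = 0 := (mul_eq_zero.1 h0).resolve_left (M08_aux.pj_ne h2)
    refine Finset.mem_image.2 ⟨a, Finset.mem_filter.2 ⟨(mem_lR S).2 ⟨h1, h3⟩, (lev_Ta hy).2 ⟨h2, h3⟩⟩, ?_⟩
    rw [M08_aux.pj_eq hy]
    exact hb

theorem lev_stD {D : S.Cs k} {y : E} (hy : y ∈ S.X D.x) :
    levD (stD D) y hy = stD (levD D y hy) := rfl

end

end LieP
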