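import Pool.Agent.LieP.C01
import Pool.Agent.LieP.M08

/-!
# MP_6c3636_al, LieP, module C02: the Levi system of a wall (5.1) (helper7)

Section 5, (5.1). `y`, `y'` adjacent via `w`, `x0 = D.x`. In the Levi system `lev S w` let `e1 = av (U y ⊓ L w)`, `e2 = av (U y' ⊓ L w)`, so `e y = e w * e1`, `e y' = e w * e2` (`e_face`). `tri`: `U y ⊓ U y' ⊓ L w = 1`: such a `g` is in `U (-y) ..`: by `s1` (with `z = w`: no root vanishing at `w` is positive at `y` and at `y'`) it is in `U (-y)`, `U_neg_disj`. (A root vanishing at `w` and on `X` vanishes at `y`, `y'`.)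
`opp_eqv`: in the Levi system `y'` has the signs of `-y`. `fixH`: let `n ∈ D.NN D`, `n ∈ L w` and `u ∈ X` with `⟨a,u⟩ = 0` for one (so, by `prop`, for all) roots `a` vanishing at `w` and not on `X`: then the roots vanishing at `w` vanish at `u`, `n ∈ L w ≤ L u`, `ac n u = u`. `refl`: if moreover `n ∉ L D.x` then `ac n` is not the identity on `X`, so it is the reflection in the hyperplane, it maps `y` to the facet of `y'` in the Levi system
(`⟨a, n y⟩` has the sign opposite to `⟨a,y⟩` for the roots `a` vanishing at `w` but not on `X`).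
-/

namespace LieP

noncomputable section

open Classical

variable {G E : Type} [Group G] [Finite G] [NormedAddCommGroup E] [InnerProductSpace ℝ E]
  [FiniteDimensional ℝ E] {S : LieSys G E} {k : Type} [Field k] [CharZero k]

theorem adj_eqv {D : S.Cs k} {y y' w : E} (h : Adj S D.x y y' w) : (lev S w).eqv y' (-y) := by
  refine ⟨(lev_le' S).2 fun a ha h0 h1 => ?_, (lev_le' S).2 fun a ha h0 h1 => ?_⟩
  · have h2 : inner ℝ a D.x ≠ 0 := fun h3 => h1.ne' ((h.ry' a ha).2 h3)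
    have h4 := h.opp a ha h0 h2
    rw [inner_neg_right]
    nlinarith
  · rw [inner_neg_right] at h1
    have h2 : inner ℝ a D.x ≠ 0 := fun h3 => by
      rw [(h.ry a ha).2 h3] at h1
      simp at h1
    have h4 := h.opp a ha h0 h2
    nlinarith

theorem adj_disj {D : S.Cs k} {y y' w : E} (h : Adj S D.x y y' w) {g : G} (h1 : g ∈ S.U y)
    (h2 : g ∈ S.U y') (h3 : g ∈ S.L w) : g = 1 := by
  refine U_neg_disj S h1 (S.s1 y y' (-y) w (fun a ha h0 h4 h5 => ?_) g h1 h2 h3)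
  exfalso
  have h6 : inner ℝ a D.x ≠ 0 := fun h7 => h4.ne' ((h.ry a ha).2 h7)
  have h8 := h.opp a ha h0 h6
  nlinarith [mul_pos h4 h5]

theorem adj_fix {D : S.Cs k} {y y' w : E} (h : Adj S D.x y y' w) {n : G} (hn : n ∈ D.NN D)
    (hw : n ∈ S.L w) {a : E} (ha : a ∈ sp S y y') {u : E} (hu : u ∈ S.X D.x) (h0 : inner ℝ a u = 0) :
    S.ac n u = u := by
  obtain ⟨ha1, ha2, ha3⟩ := (adj_sp S h).1 ha
  refine (fix_iff S (NN_H hn).1).2 (L_mono S (fun b hb h1 => ?_) hw)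
  by_cases h2 : inner ℝ b D.x = 0
  · exact hu b hb h2
  · obtain ⟨r, _, hr⟩ := h.prop a ha1 b hb ha2 ha3 h1 h2
    rw [hr u hu, h0, mul_zero]

theorem adj_pj_mem (D : S.Cs k) (a : E) : D.pj a ∈ S.X D.x := by
  unfold LieSys.Cs.pj
  exact Submodule.starProjection_apply_mem _ _

theorem adj_pj_inner (D : S.Cs k) (a : E) {u : E} (hu : u ∈ S.X D.x) :
    inner ℝ (D.pj a) u = inner ℝ a u := by
  unfold LieSys.Cs.pj
  rw [Submodule.inner_starProjection_left_eq_right, Submodule.starProjection_eq_self_iff.mpr hu]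

theorem adj_pj_ne {D : S.Cs k} {a : E} (ha : inner ℝ a D.x ≠ 0) : D.pj a ≠ 0 := by
  intro h
  apply ha
  rw [← adj_pj_inner D a (reg_mem_X S (reg_refl S D.x)), h, inner_zero_left]

/-- the action on `X` is the reflection -/
theorem adj_rf {D : S.Cs k} {y y' w : E} (h : Adj S D.x y y' w) {n : G} (hn : n ∈ D.NN D)
    (hw : n ∈ S.L w) (hL : n ∉ S.L D.x) {a : E} (ha : a ∈ sp S y y') {u : E} (hu : u ∈ S.X D.x) :
    S.ac n u = u - (2 * inner ℝ a u / inner ℝ (D.pj a) (D.pj a)) • D.pj a := by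
  obtain ⟨ha1, ha2, ha3⟩ := (adj_sp S h).1 ha
  have hv0 : D.pj a ≠ 0 := adj_pj_ne ha3
  have hvX : D.pj a ∈ S.X D.x := adj_pj_mem D a
  have hvin : ∀ x ∈ S.X D.x, inner ℝ a x = inner ℝ (D.pj a) x := fun x hx => (adj_pj_inner D a hx).symm
  generalize D.pj a = v at *
  have hvv : inner ℝ v v ≠ (0 : ℝ) := fun h1 => hv0 (inner_self_eq_zero.mp h1)
  have hfix : ∀ x ∈ S.X D.x, inner ℝ v x = (0 : ℝ) → S.ac n x = x := fun x hx h1 =>
    adj_fix h hn hw ha hx ((hvin x hx).trans h1)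
  have hTv : S.ac n v ∈ S.X D.x := ((NN_reg hn).2.1 v).2 hvX
  have hort : ∀ x ∈ S.X D.x, inner ℝ v x = (0 : ℝ) → inner ℝ (S.ac n v) x = (0 : ℝ) := by
    intro x hx h1
    have h2 := (S.ac n).inner_map_map v x
    rw [hfix x hx h1, h1] at h2
    exact h2
  obtain ⟨c, hc⟩ : ∃ c : ℝ, S.ac n v = c • v := by
    refine ⟨inner ℝ v (S.ac n v) / inner ℝ v v, ?_⟩
    have h1 : S.ac n v - (inner ℝ v (S.ac n v) / inner ℝ v v) • v ∈ S.X D.x :=
      Submodule.sub_mem _ hTv (Submodule.smul_mem _ _ hvX)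
    have h2 : inner ℝ v (S.ac n v - (inner ℝ v (S.ac n v) / inner ℝ v v : ℝ) • v) = (0 : ℝ) := by
      rw [inner_sub_right, inner_smul_right, div_mul_cancel₀ _ hvv, sub_self]
    have h3 := hort _ h1 h2
    have h4 : inner ℝ (S.ac n v - (inner ℝ v (S.ac n v) / inner ℝ v v : ℝ) • v)
        (S.ac n v - (inner ℝ v (S.ac n v) / inner ℝ v v : ℝ) • v) = (0 : ℝ) := by
      conv_lhs => rw [inner_sub_left]
      rw [h3, real_inner_smul_left, h2, mul_zero, sub_zero]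
    exact sub_eq_zero.mp (inner_self_eq_zero.mp h4)
  have hdec : ∀ x : E, x = (x - (inner ℝ v x / inner ℝ v v : ℝ) • v) + (inner ℝ v x / inner ℝ v v : ℝ) • v :=
    fun x => (sub_add_cancel _ _).symm
  have hac : ∀ x ∈ S.X D.x, S.ac n x = (x - (inner ℝ v x / inner ℝ v v : ℝ) • v) +
      (inner ℝ v x / inner ℝ v v : ℝ) • (c • v) := by
    intro x hx
    conv_lhs => rw [hdec x]
    rw [map_add, map_smul, hc]
    congr 1
    refine hfix _ (Submodule.sub_mem _ hx (Submodule.smul_mem _ _ hvX)) ?_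
    rw [inner_sub_right, inner_smul_right, div_mul_cancel₀ _ hvv, sub_self]
  have hc2 : c * c = 1 := by
    have h1 := (S.ac n).inner_map_map v v
    rw [hc, real_inner_smul_left, real_inner_smul_right] at h1
    have h2 : (c * c - 1) * inner ℝ v v = (0 : ℝ) := by linarith
    rcases mul_eq_zero.mp h2 with h3 | h3
    · linarith
    · exact absurd h3 hvv
  have hc1 : c = -1 := by
    rcases mul_self_eq_one_iff.mp hc2 with h1 | h1
    · exfalso
      apply hL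
      rw [L_reg S h.ry, ← fix_iff S (NN_H hn).1, hac y (reg_mem_X S h.ry), h1, one_smul,
        sub_add_cancel]
    · exact h1
  rw [hac u hu, hc1, hvin u hu, sub_add, ← smul_sub]
  congr 1
  rw [show v - (-1 : ℝ) • v = (2 : ℝ) • v by rw [neg_smul, one_smul, sub_neg_eq_add, two_smul],
    smul_smul]
  congr 1
  ring

theorem adj_rf_inner {D : S.Cs k} {y y' w : E} (h : Adj S D.x y y' w) {n : G} (hn : n ∈ D.NN D)
    (hw : n ∈ S.L w) (hL : n ∉ S.L D.x) {a : E} (ha : a ∈ sp S y y') {u : E} (hu : u ∈ S.X D.x) :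
    inner ℝ a (S.ac n u) = -inner ℝ a u := by
  obtain ⟨ha1, ha2, ha3⟩ := (adj_sp S h).1 ha
  have hvv : inner ℝ (D.pj a) (D.pj a) ≠ (0 : ℝ) := fun h1 =>
    adj_pj_ne ha3 (inner_self_eq_zero.mp h1)
  rw [adj_rf h hn hw hL ha hu, inner_sub_right, inner_smul_right, ← adj_pj_inner D a (adj_pj_mem D a),
    div_mul_cancel₀ _ hvv]
  ring

theorem adj_rf_rf {D : S.Cs k} {y y' w : E} (h : Adj S D.x y y' w) {n : G} (hn : n ∈ D.NN D)
    (hw : n ∈ S.L w) (hL : n ∉ S.L D.x) {u : E} (hu : u ∈ S.X D.x) :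
    S.ac n (S.ac n u) = u := by
  obtain ⟨a, ha1, ha2, ha3⟩ := h.ne
  have ha : a ∈ sp S y y' := (adj_sp S h).2 ⟨ha1, ha2, ha3⟩
  rw [adj_rf h hn hw hL ha (((NN_reg hn).2.1 u).2 hu), adj_rf_inner h hn hw hL ha hu,
    adj_rf h hn hw hL ha hu, mul_neg, neg_div, neg_smul, sub_neg_eq_add, sub_add_cancel]

theorem adj_rf_eqv {D : S.Cs k} {y y' w : E} (h : Adj S D.x y y' w) {n : G} (hn : n ∈ D.NN D)
    (hw : n ∈ S.L w) (hL : n ∉ S.L D.x) : (lev S w).eqv (S.ac n y) y' := by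
  have hyX : y ∈ S.X D.x := reg_mem_X S h.ry
  have hnX : S.ac n y ∈ S.X D.x := ((NN_reg hn).2.1 y).2 hyX
  refine ⟨(lev_le' S).2 fun a ha h0 h1 => ?_, (lev_le' S).2 fun a ha h0 h1 => ?_⟩
  · have h2 : inner ℝ a D.x ≠ 0 := fun h3 => h1.ne' (hnX a ha h3)
    have h4 := h.opp a ha h0 h2
    rw [adj_rf_inner h hn hw hL ((adj_sp S h).2 ⟨ha, h0, h2⟩) hyX] at h1
    nlinarith
  · have h2 : inner ℝ a D.x ≠ 0 := fun h3 => h1.ne' ((h.ry' a ha).2 h3)
    have h4 := h.opp a ha h0 h2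
    rw [adj_rf_inner h hn hw hL ((adj_sp S h).2 ⟨ha, h0, h2⟩) hyX]
    nlinarith

/-- the nontrivial elements of `N(ε)` in `L w` act as the reflection -/
theorem adj_refl {D : S.Cs k} {y y' w : E} (h : Adj S D.x y y' w) {n : G} (hn : n ∈ D.NN D)
    (hw : n ∈ S.L w) (hL : n ∉ S.L D.x) : (lev S w).eqv (S.ac n y) y' ∧ (lev S w).eqv (S.ac n y') y ∧
      n * n ∈ S.L D.x := by
  refine ⟨adj_rf_eqv h hn hw hL, adj_rf_eqv (adj_symm S h) hn hw hL, ?_⟩
  have hN := (NN_H hn).1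
  rw [L_reg S h.ry, ← fix_iff S (S.N.mul_mem hN hN), ac_mul_apply S hN hN]
  exact adj_rf_rf h hn hw hL (reg_mem_X S h.ry)

/-- type (a) or (b) -/
theorem adj_type {D : S.Cs k} {y y' w : E} (h : Adj S D.x y y' w) {a : E} (ha : a ∈ sp S y y') :
    D.Ta a ↔ ∃ n ∈ D.NN D, n ∈ S.L w ∧ n ∉ S.L D.x := by
  obtain ⟨ha1, ha2, ha3⟩ := (adj_sp S h).1 ha
  constructor
  · rintro ⟨_, _, v, hv, hvL, hvf⟩
    exact ⟨v, hv, (fix_iff S (NN_H hv).1).1 (hvf w h.wX ha2), hvL⟩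
  · rintro ⟨n, hn, hw, hL⟩
    exact ⟨ha1, ha3, n, hn, hL, fun x hx h0 => adj_fix h hn hw ha hx h0⟩

/-- two nontrivial elements differ by an element of `L` -/
theorem adj_uniq {D : S.Cs k} {y y' w : E} (h : Adj S D.x y y' w) {m n : G} (hm : m ∈ D.NN D)
    (hmw : m ∈ S.L w) (hmL : m ∉ S.L D.x) (hn : n ∈ D.NN D) (hw : n ∈ S.L w) (hL : n ∉ S.L D.x) :
    m⁻¹ * n ∈ S.L D.x := by
  obtain ⟨a, ha1, ha2, ha3⟩ := h.ne
  have ha : a ∈ sp S y y' := (adj_sp S h).2 ⟨ha1, ha2, ha3⟩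
  have hN := (NN_H hn).1
  have hM := (NN_H hm).1
  have hM' := S.N.inv_mem hM
  have hy := reg_mem_X S h.ry
  rw [L_reg S h.ry, ← fix_iff S (S.N.mul_mem hM' hN), ac_mul_apply S hM' hN,
    adj_rf h hn hw hL ha hy, ← adj_rf h hm hmw hmL ha hy, ac_inv_apply S hM]

end

end LieP
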