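import Pool.Agent.LieP.C02

/-!
# MP_6c3636_al, LieP, module C03: crossing a wall (5.1) (helper7)

Section 5, (5.1). `B = sb k (L w)`, `e1 = av (U y ⊓ L w)`, `e2 = av (U y' ⊓ L w)`, `f1 = e1 * ε` (`= (levD D w _).f y`). By `mackey_ind` in the Levi system (`levD D w`, `lev_NN`, `lev_lin`) `f1 B f1` is spanned by `f1` and the `f1 * c * f1`, `c ∈ lin D D v`, `v ∈ N(ε) ⊓ L w`, `v ∉ L` (`adj_uniq`: one line).
Type (b): there is no such `v`: `f1 * e2 * f1 = r • f1`; `t`: `t (e1 * e2 * ε) = r t (e1 * ε)`, both sides by `t_ee` in the Levi system, `U y ⊓ U y' ⊓ L w = 1` (`adj_disj`): `r = |U y' ⊓ L w|⁻¹ ≠ 0`. Multiply by `e w`: `e y * e y' * e y * ε = r • (e y * ε)` (`e_face`, `e w` commutes with `B` and `e w * e1 = e y`).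
Type (a): `v`, `c ∈ lin D D v` with inverse `c'` (`lin_unit`). `T = f1 * c * f1 = e1 * e2 * c` (`f_lin_f`, `ac v y` is in the facet of `y'` for the Levi system). `c * c = μ • ε`, `μ ≠ 0` (`v * v ∈ L`; `lin_mul`, `lin_eps`). `T * T = e1 * e2 * c * e1 * e2 * c = e1 * e2 * e2 * e1 * (c * c) = μ • (e1 * e2 * e1 * ε)` (`lin_e`: `c * e1 = e2 * c`, `c * e2 = e1 * c`).
`T * T = a • f1 + b • T`; `t T = 0` (`t_lin` in the Levi system), so `a t f1 = μ t (e1 * e2 * ε) ≠ 0`, `a ≠ 0`. So `T * (T - b) = a • f1`: `T` and `f1 * e2 * f1 = μ⁻¹ • T * T` are invertible in `f1 B f1`. In both cases: `inv`: there is `u ∈ f1 B f1` with `u * (f1 * e2 * f1) = f1 = (f1 * e2 * f1) * u`; multiply by `e w`.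
-/

namespace LieP

noncomputable section

open Classical

variable {G E : Type} [Group G] [Finite G] [NormedAddCommGroup E] [InnerProductSpace ℝ E]
  [FiniteDimensional ℝ E] {S : LieSys G E} {k : Type} [Field k] [CharZero k]

namespace C03_aux

variable {D : S.Cs k} {y y' w : E}

/-- the idempotent of the Levi system -/
abbrev F (D : S.Cs k) (w : E) (hw : w ∈ S.X D.x) (y : E) : Al k G := (levD D w hw).f y

theorem F_mem (hw : w ∈ S.X D.x) (y : E) : F D w hw y ∈ sb k (S.L w) := f_mem (levD D w hw) y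

theorem F_idem (hw : w ∈ S.X D.x) {y : E} (hy : S.Reg D.x y) :
    F D w hw y * F D w hw y = F D w hw y := f_idem (levD D w hw) (levD_reg_of hy)

theorem corner (hw : w ∈ S.X D.x) {y z : E} (hy : S.le w y) (hz : S.le w z) {c : Al k G}
    (hc : c ∈ sb k (S.L w)) :
    D.f y * c * D.f z = S.e k w * (F D w hw y * c * F D w hw z) := by
  rw [← e_levD_f D hw hy, ← e_levD_f D hw hz]
  have h1 : F D w hw y * c * S.e k w = S.e k w * (F D w hw y * c) :=
    e_comm (mul_mem (F_mem hw y) hc)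
  calc S.e k w * F D w hw y * c * (S.e k w * F D w hw z)
      = S.e k w * (F D w hw y * c * S.e k w) * F D w hw z := by simp only [mul_assoc]
    _ = S.e k w * (F D w hw y * c * F D w hw z) := by
        rw [h1, ← mul_assoc, e_idem]
        simp only [mul_assoc]

theorem lin_L (hw : w ∈ S.X D.x) {v : G} (hv : v ∈ S.L w) {b : Al k G} (hb : b ∈ lin D D v) :
    b ∈ sb k (S.L w) := by
  rw [← lev_lin hw hw v] at hb
  exact lin_mem (D' := levD D w hw) (D := levD D w hw) hv hb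

/-- the span in the Levi system -/
theorem span (h : Adj S D.x y y' w) {a : Al k G} (ha : a ∈ sb k (S.L w)) :
    (∃ r : k, F D w h.wX y * a * F D w h.wX y = r • F D w h.wX y) ∨
      ∃ v ∈ D.NN D, v ∈ S.L w ∧ v ∉ S.L D.x ∧ ∃ b ∈ lin D D v, ∃ r : k,
        F D w h.wX y * a * F D w h.wX y = r • F D w h.wX y + F D w h.wX y * b * F D w h.wX y := by
  have hreg : (lev S w).Reg D.x y := levD_reg_of h.ry
  refine mackey_ind (D' := levD D w h.wX) (D := levD D w h.wX) (x := y) (y := y) hreg hreg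
    (p := fun c => (∃ r : k, c = r • F D w h.wX y) ∨
      ∃ v ∈ D.NN D, v ∈ S.L w ∧ v ∉ S.L D.x ∧ ∃ b ∈ lin D D v, ∃ r : k,
        c = r • F D w h.wX y + F D w h.wX y * b * F D w h.wX y) ?_ ?_ ?_ ha
  · exact Or.inl ⟨0, (zero_smul _ _).symm⟩
  · rintro a b (⟨r, rfl⟩ | ⟨v, hv, hvw, hvL, c, hc, r, rfl⟩) (⟨s, rfl⟩ | ⟨v', hv', hvw', hvL', c', hc', s, rfl⟩)
    · exact Or.inl ⟨r + s, (add_smul _ _ _).symm⟩
    · exact Or.inr ⟨v', hv', hvw', hvL', c', hc', r + s, by rw [add_smul, add_assoc]⟩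
    · refine Or.inr ⟨v, hv, hvw, hvL, c, hc, r + s, ?_⟩
      rw [add_smul]
      abel
    · have h1 := (lin_congr hv (adj_uniq h hv hvw hvL hv' hvw' hvL') hv'.1).1
      rw [h1] at hc'
      refine Or.inr ⟨v, hv, hvw, hvL, c + c', lin_add hc hc', r + s, ?_⟩
      rw [add_smul, mul_add, add_mul]
      abel
  · intro n hn b hb
    rw [lev_NN] at hn
    rw [lev_lin] at hb
    by_cases hL : n ∈ S.L D.x
    · obtain ⟨r, rfl⟩ := lin_eps hn.1.1 hL hb
      left
      refine ⟨r, ?_⟩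
      rw [mul_smul_comm, smul_mul_assoc]
      congr 1
      have h1 := (f_abs (levD D w h.wX) hreg).2.2.2
      rw [levD_eps] at h1
      rw [h1]
      exact f_idem _ hreg
    · exact Or.inr ⟨n, hn.1, hn.2, hL, b, hb, 0, by rw [zero_smul, zero_add]⟩

/-- `e1 e2 e1 ε` -/
theorem FFF (h : Adj S D.x y y' w) : F D w h.wX y * F D w h.wX y' * F D w h.wX y =
    (lev S w).e k y * (lev S w).e k y' * (lev S w).e k y * D.ε := by
  have hreg : (lev S w).Reg D.x y := levD_reg_of h.ry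
  have hreg' : (lev S w).Reg D.x y' := levD_reg_of h.ry'
  have c1 : F D w h.wX y = D.ε * (lev S w).e k y := f_comm (levD D w h.wX) hreg
  have c2 : F D w h.wX y' = D.ε * (lev S w).e k y' := f_comm (levD D w h.wX) hreg'
  have d1 : F D w h.wX y = (lev S w).e k y * D.ε := rfl
  have d2 : F D w h.wX y' = (lev S w).e k y' * D.ε := rfl
  have i : D.ε * D.ε = D.ε := D.idem
  calc F D w h.wX y * F D w h.wX y' * F D w h.wX y
      = (lev S w).e k y * (D.ε * (D.ε * (lev S w).e k y')) * F D w h.wX y := by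
        rw [← c2, d1]
        simp only [mul_assoc]
    _ = (lev S w).e k y * (D.ε * (lev S w).e k y') * F D w h.wX y := by
        rw [← mul_assoc D.ε D.ε, i]
    _ = (lev S w).e k y * (lev S w).e k y' * (D.ε * (D.ε * (lev S w).e k y)) := by
        rw [← c2, d2, ← c1]
        simp only [mul_assoc]
    _ = (lev S w).e k y * (lev S w).e k y' * (lev S w).e k y * D.ε := by
        rw [← mul_assoc D.ε D.ε, i, ← c1, d1]
        simp only [mul_assoc]

theorem t_FFF (h : Adj S D.x y y' w) :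
    t (F D w h.wX y * F D w h.wX y' * F D w h.wX y) ≠ 0 := by
  have hreg : (lev S w).Reg D.x y := levD_reg_of h.ry
  have hreg' : (lev S w).Reg D.x y' := levD_reg_of h.ry'
  have c1 : D.ε * (lev S w).e k y = (lev S w).e k y * D.ε :=
    (f_comm (levD D w h.wX) hreg).symm
  rw [FFF h, mul_assoc, t_mul_comm, ← mul_assoc]
  have e1 : (lev S w).e k y * D.ε * (lev S w).e k y * (lev S w).e k y' =
      D.ε * ((lev S w).e k y * (lev S w).e k y') := by
    rw [mul_assoc ((lev S w).e k y) D.ε, c1, ← mul_assoc ((lev S w).e k y), e_idem, ← c1]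
    simp only [mul_assoc]
  rw [e1, t_mul_comm]
  exact t_ee_eps (levD D w h.wX) hreg hreg'

theorem t_F (h : Adj S D.x y y' w) : t (F D w h.wX y) ≠ 0 := by
  have hreg : (lev S w).Reg D.x y := levD_reg_of h.ry
  have h1 := t_ee_eps (levD D w h.wX) hreg hreg
  rw [e_idem] at h1
  exact h1

/-- the square of the operator of a wall -/
theorem sq_T (h : Adj S D.x y y' w) {v : G} (hv : v ∈ D.NN D)
    (hw : v ∈ S.L w) (hL : v ∉ S.L D.x) {b : Al k G} (hb : b ∈ lin D D v) (h0 : b ≠ 0) :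
    t (F D w h.wX y * b * F D w h.wX y) = 0 ∧ ∃ μ : k, μ ≠ 0 ∧
      (F D w h.wX y * b * F D w h.wX y) * (F D w h.wX y * b * F D w h.wX y) =
        μ • (F D w h.wX y * F D w h.wX y' * F D w h.wX y) := by
  have hreg : (lev S w).Reg D.x y := levD_reg_of h.ry
  have hreg' : (lev S w).Reg D.x y' := levD_reg_of h.ry'
  have hv1 : v ∈ (levD D w h.wX).NN (levD D w h.wX) := (lev_NN h.wX h.wX).2 ⟨hv, hw⟩
  have hb1 : b ∈ lin (levD D w h.wX) (levD D w h.wX) v := by rwa [lev_lin]
  obtain ⟨q1, q2, q3⟩ := adj_refl h hv hw hL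
  have e2 : (lev S w).e k (S.ac v y) = (lev S w).e k y' := e_eqv q1
  have e1 : (lev S w).e k (S.ac v y') = (lev S w).e k y := e_eqv q2
  have hT : F D w h.wX y * b * F D w h.wX y = (lev S w).e k y * (lev S w).e k y' * b := by
    have h1 := f_lin_f hv1 hb1 hreg hreg
    rw [← e2]
    exact h1
  have hbe1 : b * (lev S w).e k y = (lev S w).e k y' * b := by
    rw [← e2]
    exact lin_e hv1 hb1 hreg
  have hbe2 : b * (lev S w).e k y' = (lev S w).e k y * b := by
    rw [← e1]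
    exact lin_e hv1 hb1 hreg'
  constructor
  · rw [hT]
    refine t_lin hv1 ?_ hb1 hreg hreg'
    intro hh
    exact hL ((lev_L S (y0 := w) (x := D.x) fun a ha ha0 => h.wX a ha ha0).le hh)
  · obtain ⟨m1, m2⟩ := lin_mul hv hv hb hb
    obtain ⟨μ, hμ⟩ := lin_eps (NN_mul hv hv).1 q3 m1
    refine ⟨μ, ?_, ?_⟩
    · rintro rfl
      rw [zero_smul] at hμ
      exact m2 h0 h0 hμ
    · rw [hT, FFF h]
      calc (lev S w).e k y * (lev S w).e k y' * b * ((lev S w).e k y * (lev S w).e k y' * b)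
          = (lev S w).e k y * (lev S w).e k y' * (b * (lev S w).e k y) * (lev S w).e k y' * b := by
            simp only [mul_assoc]
        _ = (lev S w).e k y * ((lev S w).e k y' * (lev S w).e k y') * (b * (lev S w).e k y') * b := by
            rw [hbe1]
            simp only [mul_assoc]
        _ = (lev S w).e k y * (lev S w).e k y' * (lev S w).e k y * (b * b) := by
            rw [hbe2, e_idem]
            simp only [mul_assoc]
        _ = _ := by rw [hμ, mul_smul_comm]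

/-- the quadratic equation in the Levi system -/
theorem quad (h : Adj S D.x y y' w) {v : G} (hv : v ∈ D.NN D)
    (hw : v ∈ S.L w) (hL : v ∉ S.L D.x) {b : Al k G} (hb : b ∈ lin D D v) (h0 : b ≠ 0) :
    ∃ p q : k, p ≠ 0 ∧ (F D w h.wX y * b * F D w h.wX y) * (F D w h.wX y * b * F D w h.wX y) =
      p • F D w h.wX y + q • (F D w h.wX y * b * F D w h.wX y) := by
  obtain ⟨ht, μ, hμ, hsq⟩ := sq_T h hv hw hL hb h0
  have hbL := lin_L h.wX hw hb
  have hpq : ∃ p q : k, (F D w h.wX y * b * F D w h.wX y) * (F D w h.wX y * b * F D w h.wX y) =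
      p • F D w h.wX y + q • (F D w h.wX y * b * F D w h.wX y) := by
    have e1 : (F D w h.wX y * b * F D w h.wX y) * (F D w h.wX y * b * F D w h.wX y) =
        F D w h.wX y * (b * F D w h.wX y * b) * F D w h.wX y := by
      calc _ = F D w h.wX y * b * (F D w h.wX y * F D w h.wX y) * b * F D w h.wX y := by
            simp only [mul_assoc]
        _ = _ := by
            rw [F_idem h.wX h.ry]
            simp only [mul_assoc]
    rw [e1]
    rcases span h (a := b * F D w h.wX y * b) (mul_mem (mul_mem hbL (F_mem _ _)) hbL) with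
      ⟨r, hr⟩ | ⟨v', hv', hw', hL', b', hb', r, hr⟩
    · exact ⟨r, 0, by rw [hr, zero_smul, add_zero]⟩
    · rw [(lin_congr hv (adj_uniq h hv hw hL hv' hw' hL') hv'.1).1] at hb'
      obtain ⟨q, rfl⟩ := lin_smul_eq hv hb' hb h0
      refine ⟨r, q, ?_⟩
      rw [hr, mul_smul_comm, smul_mul_assoc]
  obtain ⟨p, q, hpq⟩ := hpq
  refine ⟨p, q, ?_, hpq⟩
  rintro rfl
  have h1 := congrArg t hpq
  rw [hsq, zero_smul, zero_add, t_smul, t_smul, ht, mul_zero] at h1
  exact (mul_ne_zero hμ (t_FFF h)) h1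

/-- the inverse in the Levi system -/
theorem inv (h : Adj S D.x y y' w) : ∃ u ∈ sb k (S.L w), F D w h.wX y * u = u ∧
    u * F D w h.wX y = u ∧ u * (F D w h.wX y * F D w h.wX y' * F D w h.wX y) = F D w h.wX y ∧
      (F D w h.wX y * F D w h.wX y' * F D w h.wX y) * u = F D w h.wX y := by
  have hFm := F_mem h.wX y
  have hFi := F_idem h.wX h.ry
  by_cases hex : ∃ v ∈ D.NN D, v ∈ S.L w ∧ v ∉ S.L D.x
  · obtain ⟨v, hv, hw, hL⟩ := hex
    obtain ⟨b, hb, b', hb', hbb, -, -⟩ := NN_cn hv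
    have h0 : b ≠ 0 := by
      rintro rfl
      rw [zero_mul] at hbb
      exact D.ne hbb.symm
    obtain ⟨ht, μ, hμ, hsq⟩ := sq_T h hv hw hL hb h0
    obtain ⟨p, q, hp, hpq⟩ := quad h hv hw hL hb h0
    have hbL := lin_L h.wX hw hb
    set f := F D w h.wX y with hf
    set T := f * b * f with hT
    have hfT : f * T = T := by
      rw [hT, ← mul_assoc, ← mul_assoc, hFi]
    have hTf : T * f = T := by
      rw [hT, mul_assoc, hFi]
    have hTm : T ∈ sb k (S.L w) := mul_mem (mul_mem hFm hbL) hFm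
    set V := p⁻¹ • (T - q • f) with hV
    have hTV : T * V = f := by
      rw [hV, mul_smul_comm, mul_sub, mul_smul_comm, hTf, hpq, add_sub_cancel_right, smul_smul,
        inv_mul_cancel₀ hp, one_smul]
    have hVT : V * T = f := by
      rw [hV, smul_mul_assoc, sub_mul, smul_mul_assoc, hfT, hpq, add_sub_cancel_right, smul_smul,
        inv_mul_cancel₀ hp, one_smul]
    have hfV : f * V = V := by
      rw [hV, mul_smul_comm, mul_sub, mul_smul_comm, hfT, hFi]
    have hVf : V * f = V := by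
      rw [hV, smul_mul_assoc, sub_mul, smul_mul_assoc, hTf, hFi]
    have hVm : V ∈ sb k (S.L w) :=
      (sb k (S.L w)).smul_mem ((sb k (S.L w)).sub_mem hTm ((sb k (S.L w)).smul_mem hFm q)) _
    have hFFF : f * F D w h.wX y' * f = μ⁻¹ • (T * T) := by
      rw [hsq, smul_smul, inv_mul_cancel₀ hμ, one_smul]
    refine ⟨μ • (V * V), (sb k (S.L w)).smul_mem (mul_mem hVm hVm) _, ?_, ?_, ?_, ?_⟩
    · rw [mul_smul_comm, ← mul_assoc, hfV]
    · rw [smul_mul_assoc, mul_assoc, hVf]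
    · rw [hFFF, smul_mul_smul_comm, mul_inv_cancel₀ hμ, one_smul, mul_assoc, ← mul_assoc V T,
        hVT, hfT, hVT]
    · rw [hFFF, smul_mul_smul_comm, inv_mul_cancel₀ hμ, one_smul, mul_assoc, ← mul_assoc T V,
        hTV, hfV, hTV]
  · have hspan : ∃ r : k, F D w h.wX y * F D w h.wX y' * F D w h.wX y = r • F D w h.wX y := by
      rcases span h (F_mem h.wX y') with h1 | ⟨v, hv, hw, hL, _⟩
      · exact h1
      · exact absurd ⟨v, hv, hw, hL⟩ hex
    obtain ⟨r, hr⟩ := hspan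
    have hr0 : r ≠ 0 := by
      rintro rfl
      have h1 := t_FFF h
      rw [hr, zero_smul, t_zero] at h1
      exact h1 rfl
    refine ⟨r⁻¹ • F D w h.wX y, (sb k (S.L w)).smul_mem hFm _, ?_, ?_, ?_, ?_⟩
    · rw [mul_smul_comm, hFi]
    · rw [smul_mul_assoc, hFi]
    · rw [hr, smul_mul_smul_comm, inv_mul_cancel₀ hr0, one_smul, hFi]
    · rw [hr, smul_mul_smul_comm, mul_inv_cancel₀ hr0, one_smul, hFi]

theorem fff (h : Adj S D.x y y' w) : D.f y * D.f y' * D.f y =
    S.e k w * (F D w h.wX y * F D w h.wX y' * F D w h.wX y) := by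
  have h1 : D.f y' * D.f y = S.e k w * (F D w h.wX y' * F D w h.wX y) := by
    have h2 := corner h.wX h.le' h.le (one_mem (sb k (S.L w)))
    rwa [mul_one, mul_one] at h2
  rw [mul_assoc, h1]
  have h3 := e_levD_f D h.wX h.le
  have h4 : F D w h.wX y * S.e k w = S.e k w * F D w h.wX y := e_comm (F_mem h.wX y)
  rw [← h3]
  show S.e k w * F D w h.wX y * (S.e k w * (F D w h.wX y' * F D w h.wX y)) = _
  rw [← mul_assoc (S.e k w * F D w h.wX y), mul_assoc (S.e k w) (F D w h.wX y) (S.e k w), h4,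
    ← mul_assoc (S.e k w) (S.e k w), e_idem]
  simp only [mul_assoc]

end C03_aux

theorem wall_b {D : S.Cs k} {y y' w : E} (h : Adj S D.x y y' w) (hb : ∀ a ∈ sp S y y', ¬ D.Ta a) :
    ∃ r : k, r ≠ 0 ∧ S.e k y * S.e k y' * S.e k y * D.ε = r • (S.e k y * D.ε) := by
  have hreg : (lev S w).Reg D.x y := levD_reg_of h.ry
  have hspan : ∃ r : k, C03_aux.F D w h.wX y * C03_aux.F D w h.wX y' * C03_aux.F D w h.wX y =
      r • C03_aux.F D w h.wX y := by
    rcases C03_aux.span h (C03_aux.F_mem h.wX y') with h1 | ⟨v, hv, hw, hL, _⟩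
    · exact h1
    · exfalso
      obtain ⟨a, ha, ha1, ha2⟩ := h.ne
      have hsp : a ∈ sp S y y' := (adj_sp S h).2 ⟨ha, ha1, ha2⟩
      exact hb a hsp ((adj_type h hsp).2 ⟨v, hv, hw, hL⟩)
  obtain ⟨r, hr⟩ := hspan
  refine ⟨r, ?_, ?_⟩
  · rintro rfl
    have h1 := C03_aux.t_FFF h
    rw [hr, zero_smul, t_zero] at h1
    exact h1 rfl
  · have h1 := C03_aux.fff h
    rw [hr, mul_smul_comm] at h1
    have h2 : S.e k w * C03_aux.F D w h.wX y = D.f y := e_levD_f D h.wX h.le
    rw [h2] at h1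
    have c1 : D.f y = D.ε * S.e k y := f_comm D h.ry
    have c2 : D.f y' = D.ε * S.e k y' := f_comm D h.ry'
    have d1 : D.f y = S.e k y * D.ε := rfl
    have d2 : D.f y' = S.e k y' * D.ε := rfl
    have i : D.ε * D.ε = D.ε := D.idem
    rw [← d1, ← h1]
    symm
    calc D.f y * D.f y' * D.f y
        = S.e k y * (D.ε * (D.ε * S.e k y')) * D.f y := by
          rw [← c2, d1]
          simp only [mul_assoc]
      _ = S.e k y * (D.ε * S.e k y') * D.f y := by
          rw [← mul_assoc D.ε D.ε, i]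
      _ = S.e k y * S.e k y' * (D.ε * (D.ε * S.e k y)) := by
          rw [← c2, d2, ← c1]
          simp only [mul_assoc]
      _ = S.e k y * S.e k y' * S.e k y * D.ε := by
          rw [← mul_assoc D.ε D.ε, i, ← c1, d1]
          simp only [mul_assoc]

theorem wall_inv {D : S.Cs k} {y y' w : E} (h : Adj S D.x y y' w) :
    ∃ u ∈ sb k (S.L w), D.f y * u * D.f y = u * D.f y ∧
      (D.f y * u * D.f y) * (D.f y * D.f y' * D.f y) = D.f y ∧
      (D.f y * D.f y' * D.f y) * (D.f y * u * D.f y) = D.f y := by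
  obtain ⟨u, hu, h1, h2, h3, h4⟩ := C03_aux.inv h
  have hew : S.e k w * S.e k w = S.e k w := e_idem w
  have hcu : u * S.e k w = S.e k w * u := e_comm hu
  have hc : D.f y * u * D.f y = S.e k w * u := by
    rw [C03_aux.corner h.wX h.le h.le hu, h1, h2]
  have hu' : u * D.f y = S.e k w * u := by
    rw [← e_levD_f D h.wX h.le, ← mul_assoc, hcu, mul_assoc]
    congr 1
  have hFF : C03_aux.F D w h.wX y * C03_aux.F D w h.wX y' * C03_aux.F D w h.wX y ∈ sb k (S.L w) :=
    mul_mem (mul_mem (C03_aux.F_mem _ _) (C03_aux.F_mem _ _)) (C03_aux.F_mem _ _)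
  have hcF := e_comm hFF
  have hf : S.e k w * C03_aux.F D w h.wX y = D.f y := e_levD_f D h.wX h.le
  refine ⟨u, hu, by rw [hc, hu'], ?_, ?_⟩
  · rw [hc, C03_aux.fff h, mul_assoc, ← mul_assoc u, hcu, mul_assoc (S.e k w) u, h3,
      ← mul_assoc, hew, hf]
  · rw [hc, C03_aux.fff h, mul_assoc, ← mul_assoc _ (S.e k w) u, hcF, mul_assoc (S.e k w) _ u, h4,
      ← mul_assoc, hew, hf]

/-- the operator of a wall of type (a) -/
theorem wall_a {D : S.Cs k} {y y' w : E} (h : Adj S D.x y y' w) {v : G} (hv : v ∈ D.NN D)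
    (hw : v ∈ S.L w) (hL : v ∉ S.L D.x) {b : Al k G} (hb : b ∈ lin D D v) (h0 : b ≠ 0) :
    ∃ p q : k, p ≠ 0 ∧ (D.f y * b * D.f y) * (D.f y * b * D.f y) = p • D.f y + q • (D.f y * b * D.f y) := by
  obtain ⟨p, q, hp, hpq⟩ := C03_aux.quad h hv hw hL hb h0
  have hbL := C03_aux.lin_L h.wX hw hb
  have hT : D.f y * b * D.f y = S.e k w * (C03_aux.F D w h.wX y * b * C03_aux.F D w h.wX y) :=
    C03_aux.corner h.wX h.le h.le hbL
  have hTm : C03_aux.F D w h.wX y * b * C03_aux.F D w h.wX y ∈ sb k (S.L w) :=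
    mul_mem (mul_mem (C03_aux.F_mem _ _) hbL) (C03_aux.F_mem _ _)
  have hf : S.e k w * C03_aux.F D w h.wX y = D.f y := e_levD_f D h.wX h.le
  refine ⟨p, q, hp, ?_⟩
  rw [hT, mul_assoc (S.e k w), ← mul_assoc _ (S.e k w), e_comm hTm, mul_assoc (S.e k w) _ _,
    ← mul_assoc (S.e k w) (S.e k w), e_idem, hpq, mul_add, mul_smul_comm, mul_smul_comm, hf]

/-- the elements of the corner of the Levi subgroup of a wall -/
theorem wall_span {D : S.Cs k} {y y' w : E} (h : Adj S D.x y y' w) {a : Al k G} (ha : a ∈ sb k (S.L w)) :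
    (∃ r : k, D.f y * a * D.f y = r • D.f y) ∨
      ∃ v ∈ D.NN D, v ∈ S.L w ∧ v ∉ S.L D.x ∧ ∃ b ∈ lin D D v, ∃ r : k,
        D.f y * a * D.f y = r • D.f y + D.f y * b * D.f y := by
  have hc := C03_aux.corner h.wX h.le h.le ha
  have hf : S.e k w * C03_aux.F D w h.wX y = D.f y := e_levD_f D h.wX h.le
  rcases C03_aux.span h ha with ⟨r, hr⟩ | ⟨v, hv, hw, hL, b, hb, r, hr⟩
  · left
    exact ⟨r, by rw [hc, hr, mul_smul_comm, hf]⟩
  · right
    refine ⟨v, hv, hw, hL, b, hb, r, ?_⟩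
    rw [hc, hr, mul_add, mul_smul_comm, hf,
      C03_aux.corner h.wX h.le h.le (C03_aux.lin_L h.wX hw hb)]

end

end LieP
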