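import Pool.Agent.LieP.C03
import Pool.Agent.LieP.A09

/-!
# MP_6c3636_al, LieP, module C04: the idempotents of the regular points are equivalent (5.2) (helper7)

Section 5, (5.2). `f_inv`: induction on the number of roots separating `x` and `y`. If it is `0` the facets agree, `f x = f y`. Otherwise `exists_adj` for `(x, y)`: `x, x₁` adjacent, `x₁` between `x` and `y`. `between`: `e x * e x₁ * e y = e x * e y`, `e y * e x₁ * e x = e y * e x`. So `f x * f y = f x * f x₁ * f y`, `f y * f x = f y * f x₁ * f x`, and `f x * f y * f x = f x * f x₁ * (f x₁ * f y * f x₁) * f x₁ * f x`.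
By induction `f x₁ * f y * f x₁` is invertible in `f x₁ A f x₁`. `A1 = f x * f x₁`, `A2 = f x₁ * f x`: `A1 * A2` is invertible in `f x A f x` and `A2 * A1` in `f x₁ A f x₁` (`wall_inv` for both directions), so `A1 : ` has a right and a left inverse `f x₁ → f x` etc.; the product is invertible.
It is convenient to prove the statement: there are `a = f x * a * f y`, `b = f y * b * f x` with `(f y * f x) * a = f y`, `a * (f y * f x) = f x`.. i.e. `f y * f x` is invertible as a map from the corner of `x` to the corner of `y` (`f_iso`), for all regular `x, y`; composition through `x₁`.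
`rk_f`: `a * (f y * f x)` and `(f y * f x) * a` are `f x`, `f y`: `rk_equiv` (A05).
-/

namespace LieP

noncomputable section

open Classical

variable {G E : Type} [Group G] [Finite G] [NormedAddCommGroup E] [InnerProductSpace ℝ E]
  [FiniteDimensional ℝ E] {S : LieSys G E} {k : Type} [Field k] [CharZero k]

namespace C04_aux

/-- composition of invertible elements of corners -/
theorem comp {H : Subgroup G} {fx f1 fy a1 a2 m1 m2 : Al k G} (h1 : f1 * f1 = f1)
    (hm1 : f1 * m1 = m1) (hm2 : m2 * f1 = m2)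
    (ha1 : a1 ∈ sb k H) (ha2 : a2 ∈ sb k H) (c1 : fx * a1 * f1 = a1) (c2 : f1 * a2 * fy = a2)
    (hx : fx * fx = fx) (hy : fy * fy = fy)
    (e1 : a1 * m1 = fx) (e2 : m1 * a1 = f1) (e3 : a2 * m2 = f1) (e4 : m2 * a2 = fy) :
    ∃ a ∈ sb k H, fx * a * fy = a ∧ a * (m2 * m1) = fx ∧ (m2 * m1) * a = fy := by
  refine ⟨a1 * a2, (sb k H).mul_mem ha1 ha2, ?_, ?_, ?_⟩
  · have h2 : fx * a1 = a1 := by rw [← c1, ← mul_assoc, ← mul_assoc, hx]
    have h3 : a2 * fy = a2 := by rw [← c2, mul_assoc, hy]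
    rw [← mul_assoc, h2, mul_assoc, h3]
  · calc a1 * a2 * (m2 * m1) = a1 * (a2 * m2) * m1 := by simp only [mul_assoc]
      _ = a1 * (f1 * m1) := by rw [e3, mul_assoc]
      _ = fx := by rw [hm1, e1]
  · calc m2 * m1 * (a1 * a2) = m2 * (m1 * a1) * a2 := by simp only [mul_assoc]
      _ = fy := by rw [e2, hm2, e4]

/-- crossing one wall -/
theorem iso_adj {D : S.Cs k} {y y' w : E} (h : Adj S D.x y y' w) :
    ∃ a ∈ sb k S.H, D.f y * a * D.f y' = a ∧ a * (D.f y' * D.f y) = D.f y ∧
      (D.f y' * D.f y) * a = D.f y' := by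
  obtain ⟨u, hu, -, h2, -⟩ := wall_inv h
  obtain ⟨u', hu', -, -, h3'⟩ := wall_inv (adj_symm S h)
  have i1 := f_idem D h.ry
  have i2 := f_idem D h.ry'
  have hLH : ∀ {b : Al k G}, b ∈ sb k (S.L w) → b ∈ sb k S.H := by
    intro b hb g hg
    exact hb g (fun hg' => hg (S.LH w hg'))
  set a := D.f y * u * D.f y * D.f y' with ha
  set b := D.f y * D.f y' * u' * D.f y' with hb
  have ham : a ∈ sb k S.H :=
    (sb k S.H).mul_mem ((sb k S.H).mul_mem ((sb k S.H).mul_mem (f_mem D y) (hLH hu)) (f_mem D y)) (f_mem D y')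
  have e1 : a * (D.f y' * D.f y) = D.f y := by
    calc a * (D.f y' * D.f y) = D.f y * u * (D.f y * (D.f y' * D.f y')) * D.f y := by
          rw [ha]; simp only [mul_assoc]
      _ = D.f y * u * ((D.f y * D.f y) * D.f y') * D.f y := by rw [i2, i1]
      _ = (D.f y * u * D.f y) * (D.f y * D.f y' * D.f y) := by simp only [mul_assoc]
      _ = D.f y := h2
  have e2 : (D.f y' * D.f y) * b = D.f y' := by
    calc (D.f y' * D.f y) * b = D.f y' * (D.f y * D.f y) * D.f y' * u' * D.f y' := by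
          rw [hb]; simp only [mul_assoc]
      _ = D.f y' * D.f y * (D.f y' * D.f y') * u' * D.f y' := by rw [i1, i2]
      _ = (D.f y' * D.f y * D.f y') * (D.f y' * u' * D.f y') := by simp only [mul_assoc]
      _ = D.f y' := h3'
  have hay : a * D.f y' = a := by rw [ha, mul_assoc, i2]
  have hyb : D.f y * b = b := by
    rw [hb, ← mul_assoc, ← mul_assoc, ← mul_assoc, i1]
  have hab : a = b := by
    calc a = a * D.f y' := hay.symm
      _ = a * ((D.f y' * D.f y) * b) := by rw [e2]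
      _ = (a * (D.f y' * D.f y)) * b := (mul_assoc a _ b).symm
      _ = b := by rw [e1, hyb]
  refine ⟨a, ham, ?_, e1, ?_⟩
  · rw [mul_assoc, hay, hab, hyb]
  · rw [hab, e2]

/-- betweenness for the idempotents `f` -/
theorem f_between {D : S.Cs k} {x y z : E} (hx : S.Reg D.x x) (hy : S.Reg D.x y) (hz : S.Reg D.x z)
    (h : ∀ a ∈ S.R, 0 < inner ℝ a y → 0 < inner ℝ a x ∨ 0 < inner ℝ a z) :
    D.f x * D.f y * D.f z = D.f x * D.f z := by
  have hb := between (S := S) (k := k) (reg_trans S (reg_symm S hx) hy) (reg_trans S (reg_symm S hx) hz) h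
  have hy' := f_comm D hy
  have hz' := f_comm D hz
  have e1 : D.f x * D.f y * D.f z = S.e k x * S.e k y * S.e k z * D.ε := by
    calc D.f x * D.f y * D.f z = S.e k x * (D.ε * S.e k y) * D.ε * D.f z := by
          unfold LieSys.Cs.f; simp only [mul_assoc]
      _ = S.e k x * (S.e k y * D.ε) * D.ε * D.f z := by
          rw [← hy']; rfl
      _ = S.e k x * S.e k y * (D.ε * D.ε) * D.f z := by simp only [mul_assoc]
      _ = S.e k x * S.e k y * (D.ε * (D.ε * S.e k z)) := by rw [D.idem, ← hz', mul_assoc]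
      _ = S.e k x * S.e k y * (D.ε * D.ε * S.e k z) := by simp only [mul_assoc]
      _ = S.e k x * S.e k y * (S.e k z * D.ε) := by rw [D.idem, ← hz']; rfl
      _ = S.e k x * S.e k y * S.e k z * D.ε := by simp only [mul_assoc]
  have e2 : D.f x * D.f z = S.e k x * S.e k z * D.ε := by
    calc D.f x * D.f z = S.e k x * (D.ε * (D.ε * S.e k z)) := by
          rw [← hz']; unfold LieSys.Cs.f; simp only [mul_assoc]
      _ = S.e k x * (D.ε * D.ε * S.e k z) := by simp only [mul_assoc]
      _ = S.e k x * (S.e k z * D.ε) := by rw [D.idem, ← hz']; rfl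
      _ = S.e k x * S.e k z * D.ε := by simp only [mul_assoc]
  rw [e1, e2, hb]

theorem iso_n (D : S.Cs k) (n : ℕ) : ∀ {x y : E}, S.Reg D.x x → S.Reg D.x y → (sp S x y).card = n →
    ∃ a ∈ sb k S.H, D.f x * a * D.f y = a ∧ a * (D.f y * D.f x) = D.f x ∧
      (D.f y * D.f x) * a = D.f y := by
  induction n using Nat.strong_induction_on with
  | _ n ih =>
    intro x y hx hy hn
    by_cases hxy : S.eqv x y
    · have h1 := f_eqv D hxy
      have i1 := f_idem D hx
      refine ⟨D.f x, f_mem D x, ?_, ?_, ?_⟩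
      · rw [← h1, i1, i1]
      · rw [← h1, i1, i1]
      · rw [← h1, i1, i1]
    · obtain ⟨x1, w, hadj, hsub, hdiff⟩ := exists_adj S hx hy hxy
      obtain ⟨b, hb, hbw, hbx⟩ := hadj.ne
      have hbsp : b ∈ sp S x x1 := (adj_sp S hadj).2 ⟨hb, hbw, hbx⟩
      have hlt : (sp S x1 y).card < n := by
        rw [← hn, hdiff]
        apply Finset.card_lt_card
        refine ⟨Finset.sdiff_subset, fun h => ?_⟩
        exact (Finset.mem_sdiff.1 (h (hsub hbsp))).2 hbsp
      obtain ⟨a2, ha2, c2, e3, e4⟩ := ih _ hlt hadj.ry' hy rfl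
      obtain ⟨a1, ha1, c1, e1, e2⟩ := iso_adj hadj
      have i0 := f_idem D hx
      have i1 := f_idem D hadj.ry'
      have i2 := f_idem D hy
      obtain ⟨a, ha, h1, h2, h3⟩ := comp (H := S.H) (fx := D.f x) (f1 := D.f x1) (fy := D.f y)
        (m1 := D.f x1 * D.f x) (m2 := D.f y * D.f x1) i1 (by rw [← mul_assoc, i1]) (by rw [mul_assoc, i1])
        ha1 ha2 c1 c2 i0 i2 e1 e2 e3 e4
      have hbt : D.f y * D.f x1 * D.f x = D.f y * D.f x := by
        refine f_between hy hadj.ry' hx fun a haR hpos => ?_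
        by_contra hcon
        push Not at hcon
        obtain ⟨hay, hax⟩ := hcon
        have hx1 : inner ℝ a x1 ≠ 0 := ne_of_gt hpos
        have hD : inner ℝ a D.x ≠ 0 := fun h => hx1 ((hadj.ry' a haR).2 h)
        have hax' : inner ℝ a x < 0 := lt_of_le_of_ne hax (fun h => hD ((hx a haR).1 h))
        have hay' : inner ℝ a y < 0 := lt_of_le_of_ne hay (fun h => hD ((hy a haR).1 h))
        have h5 : a ∈ sp S x x1 := (mem_sp S).2 ⟨haR, mul_neg_of_neg_of_pos hax' hpos⟩
        have h6 := ((mem_sp S).1 (hsub h5)).2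
        have h7 := mul_pos_of_neg_of_neg hax' hay'
        linarith
      have hm : D.f y * D.f x1 * (D.f x1 * D.f x) = D.f y * D.f x := by
        rw [← hbt]
        calc D.f y * D.f x1 * (D.f x1 * D.f x) = D.f y * (D.f x1 * D.f x1) * D.f x := by
              simp only [mul_assoc]
          _ = D.f y * D.f x1 * D.f x := by rw [i1]
      rw [hm] at h2 h3
      exact ⟨a, ha, h1, h2, h3⟩

end C04_aux

open C04_aux

/-- `f y * f x` is invertible -/
theorem f_iso (D : S.Cs k) {x y : E} (hx : S.Reg D.x x) (hy : S.Reg D.x y) :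
    ∃ a ∈ sb k S.H, D.f x * a * D.f y = a ∧ a * (D.f y * D.f x) = D.f x ∧
      (D.f y * D.f x) * a = D.f y :=
  iso_n D _ hx hy rfl

theorem f_inv (D : S.Cs k) {x y : E} (hx : S.Reg D.x x) (hy : S.Reg D.x y) :
    ∃ a ∈ sb k S.H, D.f x * a * D.f x = a ∧ (D.f x * D.f y * D.f x) * a = D.f x ∧
      a * (D.f x * D.f y * D.f x) = D.f x := by
  obtain ⟨a, ha, c1, e1, e2⟩ := f_iso D hx hy
  obtain ⟨b, hb, c2, e3, e4⟩ := f_iso D hy hx
  have i0 := f_idem D hx
  have i2 := f_idem D hy
  obtain ⟨u, hu, h1, h2, h3⟩ := comp (H := S.H) (fx := D.f x) (f1 := D.f y) (fy := D.f x)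
    (m1 := D.f y * D.f x) (m2 := D.f x * D.f y) i2 (by rw [← mul_assoc, i2]) (by rw [mul_assoc, i2])
    ha hb c1 c2 i0 i0 e1 e2 e3 e4
  have hm : D.f x * D.f y * (D.f y * D.f x) = D.f x * D.f y * D.f x := by
    calc D.f x * D.f y * (D.f y * D.f x) = D.f x * (D.f y * D.f y) * D.f x := by simp only [mul_assoc]
      _ = D.f x * D.f y * D.f x := by rw [i2]
  rw [hm] at h2 h3
  exact ⟨u, hu, h1, h3, h2⟩

section

variable {Ω : Type} [Field Ω] [IsAlgClosed Ω] [CharZero Ω]

theorem rk_f {D : S.Cs Ω} {x : E} (hx : S.Reg D.x x) {φ : G → Ω} (hφ : φ ∈ ir Ω S.H) :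
    rk φ (D.f x) = rk φ (D.f D.x) := by
  have h0 := reg_refl S D.x
  obtain ⟨a, ha, c1, e1, e2⟩ := f_iso D h0 hx
  have h1 := rk_equiv hφ (x := D.f x * D.f D.x) (y := a) ((sb Ω S.H).mul_mem (f_mem D x) (f_mem D D.x)) ha
    (by rw [e2, f_idem D hx]) (by rw [e1, f_idem D h0])
  rw [e1, e2] at h1
  exact h1

end

end

end LieP
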