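import Pool.Agent.LieP.C04

/-!
# MP_6c3636_al, LieP, module C05: the cocycle relation (5.3) (helper7)

Section 5, (5.3). Induction on the number of roots separating `y` and `z`. `0`: the facets of `y` and `z` agree, `e z * e y = e z`. Otherwise `exists_adj` for `(y, z)`: `y, y₁` adjacent via `w`, `sp y y₁ ⊆ sp y z`, `sp y₁ z = sp y z \ sp y y₁`. `e z * e y = e z * e y₁ * e y` (`between`: a root positive at `y₁` and not at `z` is not in `sp y₁ z`.. check: if `⟨a,y₁⟩ > 0`, `⟨a,z⟩ ≤ 0` then (regular) `⟨a,z⟩ < 0`, `a ∈ sp y₁ z ⊆ sp y z`, so `⟨a,y⟩ > 0`).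
If `sp y y₁` is disjoint from `sp x y`: `e y₁ * e y * e x = e y₁ * e x` (`between`), and the hypothesis holds for `x, y₁, z` (`sp x y₁ ⊆ sp x y ∪ sp y y₁`, `sp y y₁` is disjoint from `sp y₁ z`). Otherwise, as all roots of `sp y y₁` are proportional on `X` (`Adj.prop`, `adj_sp`), `sp y y₁ ⊆ sp x y`, so these roots are of type (b) (they separate `x, y` and `y, z`; `Ta_prop`), `y₁` is between `x` and `y`: `e y * e x = e y * e y₁ * e x`,
`e y₁ * e y * e y₁ * ε = r • (e y₁ * ε)` (`wall_b`, `adj_symm`; `ε` commutes with `e x`), so `e z * e y * e x * ε = r • (e z * e y₁ * e x * ε)`, induction for `x, y₁, z` (`sp x y₁ = sp x y \ sp y y₁`).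
`cocyc_r`: apply `st` to `cocyc` for `stD D` (`Ta_st`).
-/

namespace LieP

noncomputable section

open Classical

variable {G E : Type} [Group G] [Finite G] [NormedAddCommGroup E] [InnerProductSpace ℝ E]
  [FiniteDimensional ℝ E] {S : LieSys G E} {k : Type} [Field k] [CharZero k]

theorem cocyc (D : S.Cs k) {x y z : E} (hx : S.Reg D.x x) (hy : S.Reg D.x y) (hz : S.Reg D.x z)
    (h : ∀ a, D.Ta a → ¬ (inner ℝ a x * inner ℝ a y < 0 ∧ inner ℝ a y * inner ℝ a z < 0)) :
    ∃ r : k, r ≠ 0 ∧ S.e k z * S.e k y * S.e k x * D.ε = r • (S.e k z * S.e k x * D.ε) := by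
  induction hn : (sp S y z).card using Nat.strong_induction_on generalizing y with
  | _ n ih =>
  by_cases he : S.eqv y z
  · refine ⟨1, one_ne_zero, ?_⟩
    rw [one_smul, e_eqv he, e_idem]
  obtain ⟨y1, w, hadj, hsub, hsp⟩ := exists_adj S hy hz he
  have hy1 : S.Reg D.x y1 := hadj.ry'
  -- the number of the separating roots drops
  have hlt : (sp S y1 z).card < n := by
    rw [← hn]
    apply Finset.card_lt_card
    rw [hsp]
    refine ⟨Finset.sdiff_subset, fun hc => ?_⟩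
    obtain ⟨a, ha, h1, h2⟩ := hadj.ne
    have h3 : a ∈ sp S y y1 := (adj_sp S hadj).2 ⟨ha, h1, h2⟩
    exact (Finset.mem_sdiff.1 (hc (hsub h3))).2 h3
  -- signs
  have hnz : ∀ {u : E}, S.Reg D.x u → ∀ {v : E}, S.Reg D.x v → ∀ a ∈ S.R, inner ℝ a v ≠ 0 → inner ℝ a u ≠ 0 :=
    fun hu _ hv a ha h1 h2 => h1 ((hv a ha).2 ((hu a ha).1 h2))
  have hih : ∀ a, D.Ta a → ¬ (inner ℝ a x * inner ℝ a y1 < 0 ∧ inner ℝ a y1 * inner ℝ a z < 0) := by
    rintro a ha ⟨h1, h2⟩
    have haR : a ∈ S.R := ha.1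
    have h3 : a ∈ sp S y1 z := (mem_sp S).2 ⟨haR, h2⟩
    rw [hsp, Finset.mem_sdiff] at h3
    have h4 := ((mem_sp S).1 h3.1).2
    have h5 : inner ℝ a y1 ≠ 0 := fun h0 => by rw [h0, mul_zero] at h1; exact lt_irrefl _ h1
    have h6 : inner ℝ a y ≠ 0 := hnz hy hy1 a haR h5
    have h7 : ¬ inner ℝ a y * inner ℝ a y1 < 0 := fun h8 => h3.2 ((mem_sp S).2 ⟨haR, h8⟩)
    have h8 : 0 < inner ℝ a y * inner ℝ a y1 := lt_of_le_of_ne (not_lt.1 h7) (mul_ne_zero h6 h5).symm
    apply h a ha ⟨?_, h4⟩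
    rcases lt_or_gt_of_ne h5 with h9 | h9
    · have h10 : inner ℝ a y < 0 := by
        by_contra h11
        exact absurd h8 (not_lt.2 (mul_nonpos_of_nonneg_of_nonpos (not_lt.1 h11) h9.le))
      have h11 : 0 < inner ℝ a x := by
        by_contra h12
        exact absurd h1 (not_lt.2 (mul_nonneg_of_nonpos_of_nonpos (not_lt.1 h12) h9.le))
      exact mul_neg_of_pos_of_neg h11 h10
    · have h10 : 0 < inner ℝ a y := by
        by_contra h11
        exact absurd h8 (not_lt.2 (mul_nonpos_of_nonpos_of_nonneg (not_lt.1 h11) h9.le))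
      have h11 : inner ℝ a x < 0 := by
        by_contra h12
        exact absurd h1 (not_lt.2 (mul_nonneg (not_lt.1 h12) h9.le))
      exact mul_neg_of_neg_of_pos h11 h10
  obtain ⟨r, hr, h1⟩ := ih _ hlt hy1 hih rfl
  -- `e z * e y = e z * e y1 * e y`
  have hzy : S.e k z * S.e k y1 * S.e k y = S.e k z * S.e k y := by
    apply between (S := S) (k := k)
    · exact reg_trans S (reg_symm S hz) hy1
    · exact reg_trans S (reg_symm S hz) hy
    · intro a ha h2
      by_cases h3 : 0 < inner ℝ a z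
      · exact Or.inl h3
      · right
        have h4 : inner ℝ a z ≠ 0 := hnz hz hy1 a ha h2.ne'
        have h5 : inner ℝ a z < 0 := lt_of_le_of_ne (not_lt.1 h3) h4
        have h6 : a ∈ sp S y1 z := (mem_sp S).2 ⟨ha, mul_neg_of_pos_of_neg h2 h5⟩
        rw [hsp, Finset.mem_sdiff] at h6
        have h7 := ((mem_sp S).1 h6.1).2
        by_contra h8
        exact absurd h7 (not_lt.2 (mul_nonneg_of_nonpos_of_nonpos (not_lt.1 h8) h5.le))
  by_cases hA : ∀ a ∈ sp S y y1, a ∉ sp S x y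
  · -- no root of the wall separates `x` and `y`
    have h2 : S.e k y1 * S.e k y * S.e k x = S.e k y1 * S.e k x := by
      apply between (S := S) (k := k)
      · exact reg_trans S (reg_symm S hy1) hy
      · exact reg_trans S (reg_symm S hy1) hx
      · intro a ha h3
        by_cases h4 : 0 < inner ℝ a y1
        · exact Or.inl h4
        · right
          have h5 : inner ℝ a y1 < 0 := lt_of_le_of_ne (not_lt.1 h4) (hnz hy1 hy a ha h3.ne')
          have h6 : a ∈ sp S y y1 := (mem_sp S).2 ⟨ha, mul_neg_of_pos_of_neg h3 h5⟩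
          have h7 := hA a h6
          by_contra h8
          have h9 : inner ℝ a x < 0 := lt_of_le_of_ne (not_lt.1 h8) (hnz hx hy a ha h3.ne')
          exact h7 ((mem_sp S).2 ⟨ha, mul_neg_of_neg_of_pos h9 h3⟩)
    refine ⟨r, hr, ?_⟩
    rw [← h1, ← hzy, mul_assoc (S.e k z) (S.e k y1) (S.e k y), mul_assoc (S.e k z), h2, ← mul_assoc]
  · push Not at hA
    obtain ⟨a0, ha0, ha0'⟩ := hA
    have ha1 := (adj_sp S hadj).1 ha0
    have hall : ∀ b ∈ sp S y y1, b ∈ sp S x y := by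
      intro b hb
      have hb1 := (adj_sp S hadj).1 hb
      obtain ⟨q, hq, h2⟩ := hadj.prop a0 ha1.1 b hb1.1 ha1.2.1 ha1.2.2 hb1.2.1 hb1.2.2
      rw [mem_sp, h2 x (reg_mem_X S hx), h2 y (reg_mem_X S hy)]
      refine ⟨hb1.1, ?_⟩
      have h3 := ((mem_sp S).1 ha0').2
      have h4 : 0 < q * q := mul_self_pos.2 hq
      have h5 : q * inner ℝ a0 x * (q * inner ℝ a0 y) = q * q * (inner ℝ a0 x * inner ℝ a0 y) := by ring
      rw [h5]
      exact mul_neg_of_pos_of_neg h4 h3
    have hb : ∀ b ∈ sp S y1 y, ¬ D.Ta b := by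
      intro b hb hT
      rw [sp_symm] at hb
      exact h b hT ⟨((mem_sp S).1 (hall b hb)).2, ((mem_sp S).1 (hsub hb)).2⟩
    obtain ⟨q, hq, h2⟩ := wall_b (k := k) (adj_symm S hadj) hb
    have h3 : S.e k y * S.e k y1 * S.e k x = S.e k y * S.e k x := by
      apply between (S := S) (k := k)
      · exact reg_trans S (reg_symm S hy) hy1
      · exact reg_trans S (reg_symm S hy) hx
      · intro a ha h3
        by_cases h4 : 0 < inner ℝ a y
        · exact Or.inl h4
        · right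
          have h5 : inner ℝ a y < 0 := lt_of_le_of_ne (not_lt.1 h4) (hnz hy hy1 a ha h3.ne')
          have h6 : a ∈ sp S y y1 := (mem_sp S).2 ⟨ha, mul_neg_of_neg_of_pos h5 h3⟩
          have h7 := ((mem_sp S).1 (hall a h6)).2
          by_contra h8
          exact absurd h7 (not_lt.2 (mul_nonneg_of_nonpos_of_nonpos (not_lt.1 h8) h5.le))
    have h4 : S.e k x * D.ε = D.ε * S.e k x := f_comm D hx
    refine ⟨q * r, mul_ne_zero hq hr, ?_⟩
    calc S.e k z * S.e k y * S.e k x * D.ε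
        = S.e k z * S.e k y1 * (S.e k y * S.e k x) * D.ε := by rw [← hzy]; simp only [mul_assoc]
      _ = S.e k z * (S.e k y1 * S.e k y * S.e k y1) * (S.e k x * D.ε) := by
          rw [← h3]; simp only [mul_assoc]
      _ = S.e k z * (S.e k y1 * S.e k y * S.e k y1 * D.ε) * S.e k x := by
          rw [h4]; simp only [mul_assoc]
      _ = q • (S.e k z * S.e k y1 * (D.ε * S.e k x)) := by
          rw [h2, mul_smul_comm, smul_mul_assoc]; simp only [mul_assoc]
      _ = q • (S.e k z * S.e k y1 * S.e k x * D.ε) := by rw [← h4]; simp only [mul_assoc]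
      _ = (q * r) • (S.e k z * S.e k x * D.ε) := by rw [h1, smul_smul]

theorem cocyc_r (D : S.Cs k) {x y z : E} (hx : S.Reg D.x x) (hy : S.Reg D.x y) (hz : S.Reg D.x z)
    (h : ∀ a, D.Ta a → ¬ (inner ℝ a x * inner ℝ a y < 0 ∧ inner ℝ a y * inner ℝ a z < 0)) :
    ∃ r : k, r ≠ 0 ∧ D.ε * S.e k x * S.e k y * S.e k z = r • (D.ε * S.e k x * S.e k z) := by
  obtain ⟨r, hr, h1⟩ := cocyc (stD D) (x := x) (y := y) (z := z) hx hy hz
    (fun a ha => h a ((Ta_st D a).1 ha))
  refine ⟨r, hr, ?_⟩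
  have h2 := congrArg st h1
  rw [stD_eps] at h2
  simp only [st_mul, st_smul, st_st, st_e] at h2
  simpa only [mul_assoc] using h2

/-- the cocycle relation with an element absorbed by `ε` -/
theorem cocyc_mul (D : S.Cs k) {x y z : E} (hx : S.Reg D.x x) (hy : S.Reg D.x y) (hz : S.Reg D.x z)
    (h : ∀ a, D.Ta a → ¬ (inner ℝ a x * inner ℝ a y < 0 ∧ inner ℝ a y * inner ℝ a z < 0)) :
    ∃ r : k, r ≠ 0 ∧ ∀ b : Al k G, D.ε * b = b →
      S.e k z * S.e k y * S.e k x * b = r • (S.e k z * S.e k x * b) := by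
  obtain ⟨r, hr, h1⟩ := cocyc D hx hy hz h
  refine ⟨r, hr, fun b hb => ?_⟩
  rw [← hb, ← mul_assoc, h1, smul_mul_assoc, mul_assoc]

end

end LieP
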