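import Pool.Agent.LieP.C05

/-!
# MP_6c3636_al, LieP, module C06: elements of Levi subgroups (6.6) (helper7)

Section 6, (6.6). `y ∈ X`, `y ≤ x₁` regular, `v ∈ D.NN D`, `x` regular, `c ∈ lin D D v`, `a ∈ sb k (L y)`. `x' = ac v x`, `w = cm y x'`. `f x₁ * a * f x₁ * c * f x = f x₁ * a * f x₁ * e x' * c` (`lin_e`). `f x₁ a f x₁ = f x₁ a f x₁ * e y`; `e y * e x' = e w * e x'` (`e_mul_cm`). `f x₁ * a * f x₁ * f w`: by `mackey_ind` in the Levi system of `y` (`levD D y`, regular points `x₁`, `w`; `e_levD_f`) it is a sum of elements `f x₁ * c_u * f w`, `u ∈ D.NN D`, `u ∈ L y`.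
`f x₁ * c_u * f w * e x' * c = e x₁ * e (u w) * e (u x') * c_u * c` (`lin_e`) `= e x₁ * e (u x') * c_u * c` by `between` (`u w = cm y (u x')` has the signs of `y`, so of `x₁`, where `y` does not vanish, and those of `u x'` elsewhere) `= f x₁ * (c_u * c) * f x`.
-/

namespace LieP

noncomputable section

open Classical

variable {G E : Type} [Group G] [Finite G] [NormedAddCommGroup E] [InnerProductSpace ℝ E]
  [FiniteDimensional ℝ E] {S : LieSys G E} {k : Type} [Field k] [CharZero k]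

namespace C06_aux

theorem lf_mem (D : S.Cs k) {y : E} (hy : y ∈ S.X D.x) (x : E) :
    (levD D y hy).f x ∈ sb k (S.L y) := f_mem (levD D y hy) x

theorem push {D : S.Cs k} {y : E} (hy : y ∈ S.X D.x) {x1 w : E} (h1 : S.le y x1) (h2 : S.le y w)
    {b : Al k G} (hb : b ∈ sb k (S.L y)) :
    S.e k y * ((levD D y hy).f x1 * b * (levD D y hy).f w) = D.f x1 * b * D.f w := by
  have e1 : ((levD D y hy).f x1 * b) * S.e k y = S.e k y * ((levD D y hy).f x1 * b) :=
    e_comm ((sb k (S.L y)).mul_mem (lf_mem D hy x1) hb)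
  rw [← e_levD_f D hy h1, ← e_levD_f D hy h2]
  calc S.e k y * ((levD D y hy).f x1 * b * (levD D y hy).f w)
      = (S.e k y * S.e k y) * ((levD D y hy).f x1 * b) * (levD D y hy).f w := by
        rw [e_idem]; simp only [mul_assoc]
    _ = S.e k y * (S.e k y * ((levD D y hy).f x1 * b)) * (levD D y hy).f w := by
        simp only [mul_assoc]
    _ = S.e k y * (((levD D y hy).f x1 * b) * S.e k y) * (levD D y hy).f w := by rw [e1]
    _ = _ := by simp only [mul_assoc]

end C06_aux

open C06_aux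

theorem corner_left {D : S.Cs k} {y x1 x : E} (hy : y ∈ S.X D.x) (h1 : S.Reg D.x x1) (hle : S.le y x1)
    (hx : S.Reg D.x x) {p : Al k G → Prop} (h0 : p 0) (hadd : ∀ a b, p a → p b → p (a + b)) {v : G}
    (hv : v ∈ D.NN D) {c : Al k G} (hc : c ∈ lin D D v)
    (h : ∀ u ∈ D.NN D, u ∈ S.L y → ∀ b ∈ lin D D u, p (D.f x1 * (b * c) * D.f x)) {a : Al k G}
    (ha : a ∈ sb k (S.L y)) : p (D.f x1 * a * D.f x1 * c * D.f x) := by
  have hx' : S.Reg D.x (S.ac v x) := ((NN_reg hv).2.2 x).2 hx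
  set x' := S.ac v x with hx'd
  set w := S.cm y x' with hwd
  have hyw : S.le y w := le_cm S y x'
  have hw : S.Reg D.x w := by
    intro r hr
    rw [hwd, cm_zero S hr]
    constructor
    · exact fun h => (hx' r hr).1 h.2
    · exact fun h => ⟨hy r hr h, (hx' r hr).2 h⟩
  have hcf : c * D.f x = S.e k x' * c := by
    show c * (S.e k x * D.ε) = _
    rw [← mul_assoc, lin_e hv hc hx, mul_assoc, (lin_abs hc).2]
  have hf1 : D.f x1 * S.e k y = D.f x1 := by
    rw [f_comm D h1, mul_assoc, (e_le hle).2]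
  have hfw : D.f w * (S.e k x' * c) = S.e k w * (S.e k x' * c) := by
    rw [show D.f w = S.e k w * D.ε from rfl]
    have h2 : D.ε * (S.e k x' * c) = S.e k x' * c := by
      have h3 : D.ε * S.e k x' = S.e k x' * D.ε := (f_comm D hx').symm
      rw [← mul_assoc, h3, mul_assoc, (lin_abs hc).1]
    rw [mul_assoc, h2]
  -- the element
  have key : D.f x1 * a * D.f x1 * c * D.f x =
      S.e k y * ((levD D y hy).f x1 * (a * (levD D y hy).f x1) * (levD D y hy).f w) *
        (S.e k x' * c) := by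
    have hm : a * (levD D y hy).f x1 ∈ sb k (S.L y) := (sb k (S.L y)).mul_mem ha (lf_mem D hy x1)
    rw [push hy hle hyw hm]
    have h4 : D.f x1 * (a * (levD D y hy).f x1) * S.e k y = D.f x1 * a * D.f x1 := by
      have h5 : (levD D y hy).f x1 * S.e k y = S.e k y * (levD D y hy).f x1 := e_comm (lf_mem D hy x1)
      rw [mul_assoc, mul_assoc, h5, e_levD_f D hy hle, ← mul_assoc]
    have h6 : D.f x1 * (a * (levD D y hy).f x1) * D.f w =
        D.f x1 * a * D.f x1 * D.f w := by
      have h7 : D.f w = S.e k y * D.f w := by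
        show S.e k w * D.ε = S.e k y * (S.e k w * D.ε)
        rw [← mul_assoc, (e_le hyw).1]
      conv_lhs => rw [h7, ← mul_assoc, h4]
    have h8 : S.e k w * (S.e k x' * c) = S.e k y * (S.e k x' * c) := by
      rw [← mul_assoc, ← mul_assoc, (e_mul_cm y x').1]
    calc D.f x1 * a * D.f x1 * c * D.f x = D.f x1 * a * D.f x1 * (S.e k x' * c) := by
          rw [mul_assoc (D.f x1 * a * D.f x1), hcf]
      _ = D.f x1 * a * (D.f x1 * S.e k y) * (S.e k x' * c) := by rw [hf1]
      _ = D.f x1 * a * D.f x1 * (S.e k y * (S.e k x' * c)) := by simp only [mul_assoc]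
      _ = D.f x1 * a * D.f x1 * (D.f w * (S.e k x' * c)) := by rw [hfw, h8]
      _ = D.f x1 * (a * (levD D y hy).f x1) * D.f w * (S.e k x' * c) := by
          rw [h6]; simp only [mul_assoc]
  rw [key]
  refine mackey_ind (D' := levD D y hy) (D := levD D y hy) (x := w) (y := x1)
    (p := fun z => p (S.e k y * z * (S.e k x' * c))) (levD_reg_of hw) (levD_reg_of h1) ?_ ?_ ?_ ?_
  · simpa using h0
  · intro a b ha hb
    rw [mul_add, add_mul]
    exact hadd _ _ ha hb
  · intro u hu b hb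
    have hbm : b ∈ sb k (S.L y) := lin_mem (NN_H hu).2 hb
    rw [lev_NN] at hu
    rw [lev_lin] at hb
    rw [push hy hle hyw hbm]
    have e1 : D.f x1 * b * D.f w * (S.e k x' * c) = D.f x1 * (b * c) * D.f x := by
      rw [f_lin_f hu.1 hb hw h1, f_lin_f (NN_mul hu.1 hv) (lin_mul hu.1 hv hb hc).1 hx h1,
        ac_mul_apply S (NN_H hu.1).1 (NN_H hv).1]
      have e2 : b * (S.e k x' * c) = S.e k (S.ac u x') * (b * c) := by
        rw [← mul_assoc, lin_e hu.1 hb hx', mul_assoc]
      rw [mul_assoc (S.e k x1 * S.e k (S.ac u w)), e2, ← mul_assoc]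
      rw [between (S := S) (x := x1) (y := S.ac u w) (z := S.ac u x')]
      · intro r hr
        rw [((NN_reg hu.1).2.2 w).2 hw r hr, h1 r hr]
      · intro r hr
        rw [((NN_reg hu.1).2.2 x').2 hx' r hr, h1 r hr]
      · intro r hr hp
        have hq := (ac_cm S (NN_H hu.1).1 y x').1 r hr hp
        rw [(fix_iff S (NN_H hu.1).1).2 hu.2, cm_pos S hr] at hq
        rcases hq with hq | hq
        · exact Or.inl (hle r hr hq)
        · exact Or.inr hq.2
    rw [e1]
    exact h u hu.1 hu.2 b hb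
  · exact (sb k (S.L y)).mul_mem ha (lf_mem D hy x1)

/-- the corner of a Levi subgroup -/
theorem corner_lev {D : S.Cs k} {y x1 : E} (hy : y ∈ S.X D.x) (h1 : S.Reg D.x x1) (hle : S.le y x1)
    {p : Al k G → Prop} (h0 : p 0) (hadd : ∀ a b, p a → p b → p (a + b))
    (h : ∀ u ∈ D.NN D, u ∈ S.L y → ∀ b ∈ lin D D u, p (D.f x1 * b * D.f x1)) {a : Al k G}
    (ha : a ∈ sb k (S.L y)) : p (D.f x1 * a * D.f x1) := by
  rw [← push hy hle hle ha]
  refine mackey_ind (D' := levD D y hy) (D := levD D y hy) (x := x1) (y := x1)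
    (p := fun z => p (S.e k y * z)) (levD_reg_of h1) (levD_reg_of h1) ?_ ?_ ?_ ha
  · simpa using h0
  · intro a b ha hb
    rw [mul_add]
    exact hadd _ _ ha hb
  · intro u hu b hb
    have hbm : b ∈ sb k (S.L y) := lin_mem (NN_H hu).2 hb
    rw [lev_NN] at hu
    rw [lev_lin] at hb
    rw [push hy hle hle hbm]
    exact h u hu.1 hu.2 b hb

end

end LieP
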