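import Pool.Agent.LieP.M05

/-!
# MP_6c3636_al, LieP, module M06: independence of the operators (4.3) (helper7)

Section 4, (4.3). `t_lin`: `b = ε a n ε = (ε a (n ε n⁻¹)) n`, `t_ee_n` (`n` normalizes `L`). `indep`: let `∑ r_i e_y e_{n_i x} b_i = 0`; multiply on the right by `c'_j`, `c_j c'_j = ε`, `c'_j ∈ lin D D n_j⁻¹` (`lin_unit` for `b_j`) and take `t`: `b_i c'_j ∈ lin D D (n_i n_j⁻¹)`, so only `i = j` remains
(`t_lin`; `n_i n_j⁻¹ ∈ L` iff `n_j⁻¹ n_i ∈ L`), `t (e_y e_{n_j x} ε) ≠ 0` (`t_ee_eps`).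
-/

namespace LieP

noncomputable section

open Classical

variable {G E : Type} [Group G] [Finite G] [NormedAddCommGroup E] [InnerProductSpace ℝ E]
  [FiniteDimensional ℝ E] {S : LieSys G E} {k : Type} [Field k] [CharZero k]

namespace M06_aux

/-- `t` as a linear map -/
def tl (k G : Type) [Field k] [Group G] : Al k G →ₗ[k] k where
  toFun := t
  map_add' := t_add
  map_smul' := t_smul

end M06_aux

theorem t_lin {D : S.Cs k} {n : G} (hn : n ∈ D.NN D) (hL : n ∉ S.L D.x) {b : Al k G}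
    (hb : b ∈ lin D D n) {x y : E} (hx : S.Reg D.x x) (hy : S.Reg D.x y) :
    t (S.e k x * S.e k y * b) = 0 := by
  obtain ⟨a, ha, rfl⟩ := hb
  obtain ⟨hnN, hnL, -⟩ := hn
  have h1 : D.ε * a * dl n * D.ε = (D.ε * a * (dl n * D.ε * dl n⁻¹)) * dl n := by
    have h2 : (dl n⁻¹ : Al k G) * dl n = 1 := by
      rw [← dl_mul, inv_mul_cancel, dl_one]
    simp only [mul_assoc]
    rw [h2, mul_one]
  have h3 : D.ε * a * (dl n * D.ε * dl n⁻¹) ∈ sb k (S.L x) := by
    rw [← L_reg S hx]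
    exact Subalgebra.mul_mem _ (Subalgebra.mul_mem _ D.mem ha) (conj_mem hnL D.mem)
  have hLx := L_reg S hx
  rw [h1, ← mul_assoc]
  refine t_ee_n (reg_trans S (reg_symm S hx) hy) hnN ?_ ?_ h3
  · rw [← hLx]; exact hnL
  · rw [← hLx]; exact hL

theorem indep {D : S.Cs k} {ι : Type} {n : ι → G} (hn : ∀ i, n i ∈ D.NN D)
    (hne : ∀ i j, i ≠ j → (n i)⁻¹ * n j ∉ S.L D.x) {b : ι → Al k G} (hb : ∀ i, b i ∈ lin D D (n i))
    (hb0 : ∀ i, b i ≠ 0) {x y : E} (hx : S.Reg D.x x) (hy : S.Reg D.x y) :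
    LinearIndependent k fun i => S.e k y * S.e k (S.ac (n i) x) * b i := by
  rw [linearIndependent_iff']
  intro s g hg j hj
  obtain ⟨c, hc, hbc, -, -⟩ := lin_unit (hn j) (hb j) (hb0 j)
  have h1 : M06_aux.tl k G ((∑ i ∈ s, g i • (S.e k y * S.e k (S.ac (n i) x) * b i)) * c) = 0 := by
    rw [hg, zero_mul, map_zero]
  rw [Finset.sum_mul, map_sum, Finset.sum_eq_single j] at h1
  · rw [smul_mul_assoc, map_smul, mul_assoc, hbc, smul_eq_mul] at h1
    rcases mul_eq_zero.mp h1 with h2 | h2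
    · exact h2
    · exact absurd h2 (t_ee_eps D hy (((NN_reg (hn j)).2.2 x).mpr hx))
  · intro i _ hij
    rw [smul_mul_assoc, map_smul, mul_assoc]
    have h2 : t (S.e k y * S.e k (S.ac (n i) x) * (b i * c)) = 0 := by
      refine t_lin (NN_mul (hn i) (NN_inv (hn j))) ?_ (lin_mul (hn i) (NN_inv (hn j)) (hb i) hc).1
        hy (((NN_reg (hn i)).2.2 x).mpr hx)
      intro hmem
      refine hne j i hij.symm ?_
      rw [(hn j).2.1]
      have h3 : n j * ((n j)⁻¹ * n i) * (n j)⁻¹ = n i * (n j)⁻¹ := by group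
      rw [h3]
      exact hmem
    have h3 : M06_aux.tl k G (S.e k y * S.e k (S.ac (n i) x) * (b i * c)) = 0 := h2
    rw [h3, smul_zero]
  · intro h
    exact absurd hj h

/-- the same for operators between different idempotents -/
theorem lin_ne {D' D : S.Cs k} {n : G} (hn : n ∈ D'.NN D) {b : Al k G} (hb : b ∈ lin D' D n)
    (h0 : b ≠ 0) {x y : E} (hx : S.Reg D.x x) (hy : S.Reg D'.x y) : D'.f y * b * D.f x ≠ 0 := by
  rw [f_lin_f hn hb hx hy]
  obtain ⟨c, hc, hbc, -, -⟩ := lin_unit hn hb h0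
  intro h
  have h1 : S.e k y * S.e k (S.ac n x) * D'.ε = 0 := by
    rw [← hbc, ← mul_assoc, h, zero_mul]
  refine t_ee_eps D' hy (((NN_reg hn).2.2 x).mpr hx) ?_
  rw [h1, t_zero]

end

end LieP
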