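import Pool.Agent.LieP.Q02
import Pool.Agent.LieP.M06

/-!
# MP_6c3636_al, LieP, module D4: embedding of a representation in the group algebra (helper7)

Used in R05 (and (10.4)). `ρ` a representation of `H` over `Ω` on a finite dimensional space `V`, `f` an idempotent of `sb Ω H` with `rk φ f ≠ 0` for all irreducible constituents `φ` of `ρ`. `λ_i`, `i < n`, a basis of the dual space, `ι v i = f * (∑_{g ∈ H} λ_i (ρ g⁻¹ v) dl g) * f`. The map `κ_i : v ↦ ∑_{g ∈ H} λ_i (ρ g⁻¹ v) dl g` satisfies `κ_i (ρ h v) = dl h * κ_i v`, so `κ_i (op ρ a v) = a * κ_i v`.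
So `ι (op ρ a v) i = f * a * κ_i v * f = a * ι v i` for `a = f a f`. If `ι v = 0` put `w = op ρ f v`: `κ_i w * f = 0` for all `i`. The space `W = {w : κ_i w * f = 0 for all i}` is a subrepresentation; if it is not `0` let `W₁ ⊆ W` be irreducible with character `φ`; for all `w ∈ W₁` and all functionals `λ`: `∑_g λ (ρ g⁻¹ w) dl g * f = 0`; these elements (matrix coefficients of `W₁`) span the block `sb Ω H * cen H φ`
(in particular `cen H φ = ∑ ..` is a combination of them: `cen H φ = dg φ |H|⁻¹ ∑_g φ(g⁻¹) dl g`, `φ(g⁻¹) = ∑_j λ_j (ρ g⁻¹ w_j)`), so `cen H φ * f = 0`, contradiction to `rk φ f ≠ 0` (`cen_mul_eq_zero`).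
-/

namespace LieP

noncomputable section

open Classical

open ParkerGL (QM Qg cl dcf FixedField)

variable {Ω : Type} [Field Ω] [IsAlgClosed Ω] [CharZero Ω] {c : Parker.Ctx Ω}
  {Γ : Subgroup (RingAut Ω)} {K : Type} [Field K] [CharZero K] [Algebra K Ω]
  {G E : Type} [Group G] [Finite G] [NormedAddCommGroup E] [InnerProductSpace ℝ E]
  [FiniteDimensional ℝ E] {S : LieSys G E}

namespace D4_aux

variable {H : Subgroup G} {V : Type} [AddCommGroup V] [Module Ω V]

/-- the matrix coefficients as an element of the group algebra -/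
def kap (ρ : Representation Ω H V) (l : V →ₗ[Ω] Ω) : V →ₗ[Ω] Al Ω G where
  toFun v := mk fun g => if h : g ∈ H then l (ρ (⟨g, h⟩ : H)⁻¹ v) else 0
  map_add' u v := by
    refine al_ext fun g => ?_
    rw [coeff_add, coeff_mk, coeff_mk, coeff_mk]
    split_ifs with h
    · rw [map_add, map_add]
    · rw [add_zero]
  map_smul' r v := by
    refine al_ext fun g => ?_
    rw [RingHom.id_apply, coeff_smul, coeff_mk, coeff_mk]
    split_ifs with h
    · rw [map_smul, map_smul, smul_eq_mul]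
    · rw [mul_zero]

theorem kap_coeff (ρ : Representation Ω H V) (l : V →ₗ[Ω] Ω) (v : V) {g : G} (h : g ∈ H) :
    (kap ρ l v).coeff g = l (ρ (⟨g, h⟩ : H)⁻¹ v) := by
  have h1 : (kap ρ l v).coeff g = if h : g ∈ H then l (ρ (⟨g, h⟩ : H)⁻¹ v) else 0 :=
    coeff_mk _ g
  rw [h1, dif_pos h]

theorem kap_coeff' (ρ : Representation Ω H V) (l : V →ₗ[Ω] Ω) (v : V) {g : G} (h : g ∉ H) :
    (kap ρ l v).coeff g = 0 := by
  have h1 : (kap ρ l v).coeff g = if h : g ∈ H then l (ρ (⟨g, h⟩ : H)⁻¹ v) else 0 :=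
    coeff_mk _ g
  rw [h1, dif_neg h]

theorem kap_mem (ρ : Representation Ω H V) (l : V →ₗ[Ω] Ω) (v : V) : kap ρ l v ∈ sb Ω H :=
  fun _ hg => kap_coeff' ρ l v hg

theorem kap_one (ρ : Representation Ω H V) (l : V →ₗ[Ω] Ω) (v : V) :
    (kap ρ l v).coeff 1 = l v := by
  rw [kap_coeff ρ l v H.one_mem]
  have h1 : ((⟨1, H.one_mem⟩ : H)⁻¹) = 1 := by
    rw [show (⟨1, H.one_mem⟩ : H) = 1 from rfl, inv_one]
  rw [h1, map_one]
  rfl

theorem kap_left (ρ : Representation Ω H V) (l : V →ₗ[Ω] Ω) (v : V) {h : G} (hh : h ∈ H) :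
    kap ρ l (ρ ⟨h, hh⟩ v) = dl h * kap ρ l v := by
  refine al_ext fun x => ?_
  rw [coeff_dl_mul]
  by_cases hx : x ∈ H
  · have hx' : h⁻¹ * x ∈ H := H.mul_mem (H.inv_mem hh) hx
    rw [kap_coeff ρ l _ hx, kap_coeff ρ l _ hx']
    have h1 : ((⟨h⁻¹ * x, hx'⟩ : H)⁻¹) = (⟨x, hx⟩ : H)⁻¹ * ⟨h, hh⟩ := by
      refine Subtype.ext ?_
      show (h⁻¹ * x)⁻¹ = x⁻¹ * h
      rw [_root_.mul_inv_rev, inv_inv]
    rw [h1, map_mul]
    rfl
  · have hx' : h⁻¹ * x ∉ H := fun h' => hx (by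
      have := H.mul_mem hh h'
      rwa [mul_inv_cancel_left] at this)
    rw [kap_coeff' ρ l _ hx, kap_coeff' ρ l _ hx']

theorem kap_right (ρ : Representation Ω H V) (l : V →ₗ[Ω] Ω) (v : V) {h : G} (hh : h ∈ H) :
    kap ρ l v * dl h = kap ρ (l ∘ₗ ρ ⟨h, hh⟩) v := by
  refine al_ext fun x => ?_
  rw [coeff_mul_dl]
  by_cases hx : x ∈ H
  · have hx' : x * h⁻¹ ∈ H := H.mul_mem hx (H.inv_mem hh)
    rw [kap_coeff ρ _ _ hx, kap_coeff ρ _ _ hx']
    have h1 : ((⟨x * h⁻¹, hx'⟩ : H)⁻¹) = ⟨h, hh⟩ * (⟨x, hx⟩ : H)⁻¹ := by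
      refine Subtype.ext ?_
      show (x * h⁻¹)⁻¹ = h * x⁻¹
      rw [_root_.mul_inv_rev, inv_inv]
    rw [h1, map_mul]
    rfl
  · have hx' : x * h⁻¹ ∉ H := fun h' => hx (by
      have := H.mul_mem h' hh
      rwa [inv_mul_cancel_right] at this)
    rw [kap_coeff' ρ _ _ hx, kap_coeff' ρ _ _ hx']

theorem kap_op (ρ : Representation Ω H V) (l : V →ₗ[Ω] Ω) (v : V) {a : Al Ω G}
    (ha : a ∈ sb Ω H) : kap ρ l (op ρ a v) = a * kap ρ l v := by
  refine sb_induction (H := H) (p := fun a => kap ρ l (op ρ a v) = a * kap ρ l v) ?_ ?_ ?_ ha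
  · rw [map_zero, LinearMap.zero_apply, map_zero, zero_mul]
  · intro a b h1 h2
    rw [map_add, LinearMap.add_apply, map_add, h1, h2, add_mul]
  · intro r g hg
    rw [map_smul, LinearMap.smul_apply, map_smul, op_dl ρ hg, kap_left, smul_mul_assoc]

theorem kap_all (ρ : Representation Ω H V) {f : Al Ω G} {w : V}
    (hw : ∀ l : V →ₗ[Ω] Ω, kap ρ l w * f = 0) {x : Al Ω G} (hx : x ∈ sb Ω H) :
    ∀ l : V →ₗ[Ω] Ω, kap ρ l w * x * f = 0 := by
  refine sb_induction (H := H) (p := fun x => ∀ l : V →ₗ[Ω] Ω, kap ρ l w * x * f = 0)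
    ?_ ?_ ?_ hx
  · intro l
    rw [mul_zero, zero_mul]
  · intro a b h1 h2 l
    rw [mul_add, add_mul, h1 l, h2 l, add_zero]
  · intro r g hg l
    rw [mul_smul_comm, smul_mul_assoc, kap_right ρ l w hg, hw, smul_zero]

/-- the central idempotent of a character which does not occur acts as zero -/
theorem op_cen_zero [FiniteDimensional Ω V] (ρ : Representation Ω H V) {φ : G → Ω}
    (hφ : φ ∈ ir Ω H) (h0 : Parker.mul ρ.character (fun g : H => φ g) = 0) :
    op ρ (cen H φ) = 0 := by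
  obtain ⟨ψ, hψ, rfl⟩ := ir_iff.1 hφ
  have e1 : (fun g : H => xt H ψ (g : G)) = ψ := funext fun g => xt_apply ψ g.2
  rw [e1] at h0
  have h1 := Parker.idem_trace ρ hψ 1
  rw [h0, Nat.cast_zero, zero_mul, map_one, one_mul] at h1
  have h2 : op ρ (cen H (xt H ψ)) = Parker.act ρ (Parker.es ψ) := by
    rw [op_act]
    congr 1
    funext h
    show (cen H (xt H ψ)).coeff (h : G) = _
    unfold cen
    rw [coeff_mk, xt_apply ψ H.one_mem, xt_apply ψ (H.inv_mem h.2)]
    rfl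
  have h3 := rk_range ρ (cen_mem _ hφ) (cen_idem hφ)
  have h4 : rk (xt H ρ.character) (cen H (xt H ψ)) = 0 := by
    refine rk_of_tr ?_
    rw [← op_trace ρ (cen_mem _ hφ), h2, h1, Nat.cast_zero]
  rw [h4] at h3
  have h5 : LinearMap.range (op ρ (cen H (xt H ψ))) = ⊥ := Submodule.finrank_eq_zero.1 h3
  exact LinearMap.range_eq_bot.1 h5

theorem block_zero {φ : G → Ω} (hφ : φ ∈ ir Ω H) {f r₀ : Al Ω G} (hf : f ∈ sb Ω H)
    (hff : f * f = f) (hr₀ : r₀ ∈ sb Ω H) (hrk : rk φ f ≠ 0)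
    (h : ∀ x ∈ sb Ω H, cen H φ * r₀ * x * f = 0) : cen H φ * r₀ = 0 := by
  have hr : cen H φ * r₀ ∈ sb Ω H := Subalgebra.mul_mem _ (cen_mem φ hφ) hr₀
  refine al_ext_tr hr fun ψ hψ x hx => ?_
  by_cases hne : ψ = φ
  · subst hne
    obtain ⟨n, σ, hσ, hch, hsurj, -, -⟩ := ir_rep hψ
    have hrs : op σ (cen H ψ * r₀) = 0 := by
      have hfne : op σ f ≠ 0 := by
        intro h0
        apply hrk
        rw [hch, ← rk_range σ hf hff, h0, LinearMap.range_zero, finrank_bot]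
      obtain ⟨v, hv⟩ : ∃ v, op σ f v ≠ 0 := by
        by_contra hcon
        push Not at hcon
        exact hfne (LinearMap.ext hcon)
      refine LinearMap.ext fun z => ?_
      obtain ⟨m, hm⟩ : ∃ m : (Fin n → Ω) →ₗ[Ω] Ω, m (op σ f v) ≠ 0 := by
        by_contra hcon
        push Not at hcon
        exact hv ((Module.forall_dual_apply_eq_zero_iff Ω _).1 hcon)
      obtain ⟨a, ha, haT⟩ := hsurj (((m (op σ f v))⁻¹ • m).smulRight z)
      have h1 : op σ (cen H ψ * r₀ * a * f) v = 0 := by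
        rw [h a ha, map_zero]
        rfl
      rw [op_mul σ (Subalgebra.mul_mem _ hr ha) hf, op_mul σ hr ha, haT] at h1
      have h2 : (((m (op σ f v))⁻¹ • m).smulRight z) (op σ f v) = z := by
        rw [LinearMap.smulRight_apply, LinearMap.smul_apply, smul_eq_mul, inv_mul_cancel₀ hm,
          one_smul]
      have h3 : op σ (cen H ψ * r₀) ((((m (op σ f v))⁻¹ • m).smulRight z) (op σ f v)) = 0 := h1
      rw [h2] at h3
      exact h3
    rw [hch, ← op_trace σ (Subalgebra.mul_mem _ (hch ▸ hr) hx)]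
    rw [← hch, op_mul σ hr hx, hrs, zero_mul, map_zero]
  · rw [mul_assoc, tr_cen hφ hψ (Subalgebra.mul_mem _ hr₀ hx), if_neg hne]

theorem eq_zero [FiniteDimensional Ω V] (ρ : Representation Ω H V) {f : Al Ω G}
    (hf : f ∈ sb Ω H) (hff : f * f = f)
    (h : ∀ φ ∈ ir Ω H, Parker.mul ρ.character (fun g : H => φ g) ≠ 0 → rk φ f ≠ 0) {w : V}
    (hw : ∀ l : V →ₗ[Ω] Ω, kap ρ l w * f = 0) : w = 0 := by
  have h1 : w = ∑ φ ∈ ir Ω H, op ρ (cen H φ) w := by
    have h2 : op ρ (∑ φ ∈ ir Ω H, cen H φ) w = w := by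
      rw [sum_cen, op_one]
      rfl
    rw [map_sum, LinearMap.sum_apply] at h2
    exact h2.symm
  rw [h1]
  refine Finset.sum_eq_zero fun φ hφ => ?_
  by_cases hm : Parker.mul ρ.character (fun g : H => φ g) = 0
  · rw [op_cen_zero ρ hφ hm]
    rfl
  · have hrk := h φ hφ hm
    refine (Module.forall_dual_apply_eq_zero_iff Ω _).1 fun l => ?_
    have h3 : kap ρ l (op ρ (cen H φ) w) = 0 := by
      rw [kap_op ρ l w (cen_mem φ hφ)]
      refine block_zero hφ hf hff (kap_mem ρ l w) hrk fun x hx => ?_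
      rw [mul_assoc, mul_assoc, ← mul_assoc (kap ρ l w), kap_all ρ hw hx l, mul_zero]
    have h4 := kap_one ρ l (op ρ (cen H φ) w)
    rw [h3] at h4
    exact h4.symm

end D4_aux

open D4_aux in
theorem exists_iota {H : Subgroup G} {V : Type} [AddCommGroup V] [Module Ω V] [FiniteDimensional Ω V]
    (ρ : Representation Ω H V) {f : Al Ω G} (hf : f ∈ sb Ω H) (hff : f * f = f)
    (h : ∀ φ ∈ ir Ω H, Parker.mul ρ.character (fun g : H => φ g) ≠ 0 → rk φ f ≠ 0) :
    ∃ (n : ℕ) (ι : V →ₗ[Ω] (Fin n → Al Ω G)), (∀ v i, ι v i ∈ sb Ω H ∧ f * ι v i * f = ι v i) ∧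
      (∀ a ∈ sb Ω H, f * a * f = a → ∀ v i, ι (op ρ a v) i = a * ι v i) ∧
      ∀ v, ι v = 0 → op ρ f v = 0 := by
  let b := Module.finBasis Ω V
  let ι : V →ₗ[Ω] (Fin (Module.finrank Ω V) → Al Ω G) :=
    LinearMap.pi fun i =>
      (LinearMap.mulLeft Ω f ∘ₗ LinearMap.mulRight Ω f) ∘ₗ kap ρ (b.coord i)
  have hι : ∀ v i, ι v i = f * (kap ρ (b.coord i) v * f) := fun v i => rfl
  refine ⟨_, ι, ?_, ?_, ?_⟩
  · intro v i
    rw [hι]
    refine ⟨Subalgebra.mul_mem _ hf (Subalgebra.mul_mem _ (kap_mem ρ _ v) hf), ?_⟩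
    rw [← mul_assoc f f, hff, ← mul_assoc f (kap ρ (b.coord i) v), mul_assoc (f * _), hff]
  · intro a ha hfa v i
    have e1 : f * a = a := by
      rw [← hfa, ← mul_assoc, ← mul_assoc, hff]
    have e2 : a * f = a := by
      rw [← hfa, mul_assoc, hff]
    rw [hι, hι, kap_op ρ _ v ha, mul_assoc a, ← mul_assoc f a, e1, ← mul_assoc a f, e2]
  · intro v hv
    refine eq_zero ρ hf hff h fun l => ?_
    rw [kap_op ρ l v hf]
    have h1 : l = ∑ i, l (b i) • b.coord i := by
      refine b.ext fun j => ?_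
      rw [LinearMap.sum_apply, Finset.sum_eq_single j]
      · rw [LinearMap.smul_apply, Module.Basis.coord_apply, Module.Basis.repr_self,
          Finsupp.single_eq_same, smul_eq_mul, mul_one]
      · intro i _ hij
        rw [LinearMap.smul_apply, Module.Basis.coord_apply, Module.Basis.repr_self,
          Finsupp.single_eq_of_ne (by exact fun h => hij h), smul_zero]
      · intro hj
        exact absurd (Finset.mem_univ j) hj
    have h2 : kap ρ l v = ∑ i, l (b i) • kap ρ (b.coord i) v := by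
      refine al_ext fun g => ?_
      have hsum : ∀ s : Finset (Fin (Module.finrank Ω V)),
          (∑ i ∈ s, l (b i) • kap ρ (b.coord i) v).coeff g =
            ∑ i ∈ s, l (b i) * (kap ρ (b.coord i) v).coeff g := by
        intro s
        induction s using Finset.induction_on with
        | empty =>
          rw [Finset.sum_empty, Finset.sum_empty]
          rfl
        | insert a s ha ih =>
          rw [Finset.sum_insert ha, Finset.sum_insert ha, coeff_add, coeff_smul, ih]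
      rw [hsum]
      by_cases hg : g ∈ H
      · rw [kap_coeff ρ l v hg]
        have h3 : ∀ z : V, l z = ∑ i, l (b i) * b.coord i z := by
          intro z
          conv_lhs => rw [h1]
          rw [LinearMap.sum_apply]
          rfl
        rw [h3]
        exact Finset.sum_congr rfl fun i _ => by rw [kap_coeff ρ _ v hg]
      · rw [kap_coeff' ρ l v hg]
        symm
        refine Finset.sum_eq_zero fun i _ => ?_
        rw [kap_coeff' ρ _ v hg, mul_zero]
    rw [h2, Finset.mul_sum, Finset.sum_mul]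
    refine Finset.sum_eq_zero fun i _ => ?_
    have h4 : f * (kap ρ (b.coord i) v * f) = 0 := by
      rw [← hι, hv]
      rfl
    rw [mul_smul_comm, smul_mul_assoc, mul_assoc, h4, smul_zero]

end

end LieP
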