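import Pool.Agent.LieP.Defs2
import Pool.Agent.ParkerGL.QDefs

/-!
# MP_6c3636_al, groups of Lie type in characteristic two: definitions, part 4 (helper7)

Sections 11, 12. `K` is the fixed field of `Γ`. A quadratic module `M` of the subgroup `H` of `G`; elements `a` of the
group algebra `Al Ω G` with fixed coefficients (`FxA`) act on `M` by `oM M a`.
-/

namespace LieP

noncomputable section

open Classical

open ParkerGL (QM Qg cl dcf FixedField)

section

variable {Ω : Type} [Field Ω] {G : Type} [Group G]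

/-- the coefficients of `a` are fixed by `Γ` -/
def FxA (Γ : Subgroup (RingAut Ω)) (a : Al Ω G) : Prop := ∀ g, Parker.Fx Γ (a.coeff g)

/-- the automorphism `σ` applied to the coefficients -/
def sg [Finite G] (σ : RingAut Ω) (a : Al Ω G) : Al Ω G := mk fun g => σ (a.coeff g)

/-- descent of the coefficients to `K` -/
def dn (K : Type) [Field K] [Algebra K Ω] [Finite G] (a : Al Ω G) : Al K G :=
  mk fun g => if h : ∃ y : K, algebraMap K Ω y = a.coeff g then h.choose else 0

/-- `φ` is self dual -/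
def rl (φ : G → Ω) : Prop := ∀ g, φ g⁻¹ = φ g

variable {K : Type} [Field K] [Algebra K Ω] [Finite G] {H : Subgroup G}

/-- the operator of `a` on the quadratic module `M` of the subgroup `H` -/
def oM (M : QM K H) (a : Al Ω G) : Module.End K M.X := op M.ρ (dn K a)

/-- the multiplicity of `φ` in `M` -/
def mM (M : QM K H) (φ : G → Ω) : ℕ := Parker.mul (M.ch Ω) fun h : H => φ h

/-- the class of the form on the range of `a` -/
def dcA (c : Parker.Ctx Ω) (Γ : Subgroup (RingAut Ω)) (M : QM K H) (a : Al Ω G) : Qg c Γ :=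
  dcf c Γ (M.B.restrict (LinearMap.range (oM M a)))

/-- the form `B (v, j w)` -/
def bj (M : QM K H) (j : Al Ω G) : LinearMap.BilinForm K M.X :=
  M.B.compl₁₂ LinearMap.id (oM M j)

/-- the class of the form `B (v, j w)` on the range of `a` -/
def dcB (c : Parker.Ctx Ω) (Γ : Subgroup (RingAut Ω)) (M : QM K H) (j a : Al Ω G) : Qg c Γ :=
  dcf c Γ ((bj M j).restrict (LinearMap.range (oM M a)))

/-- `a` is a selfadjoint idempotent of the algebra of `H` with fixed coefficients, commuting with `H'` -/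
structure CutH (Γ : Subgroup (RingAut Ω)) (H H' : Subgroup G) (a : Al Ω G) : Prop where
  le : H' ≤ H
  mem : a ∈ sb Ω H
  idem : a * a = a
  fx : FxA Γ a
  st : st a = a
  comm : ∀ h ∈ H', dl h * a = a * dl h

end

/-- the statement of the induction of section 12 -/
structure TT {G E : Type} [Group G] [NormedAddCommGroup E] [InnerProductSpace ℝ E]
    (S : LieSys G E) [Finite G] {Ω : Type} [Field Ω] (c : Parker.Ctx Ω)
    (Γ : Subgroup (RingAut Ω)) (K : Type) [Field K] [Algebra K Ω] : Prop where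
  i : ∀ φ ∈ ir Ω S.H, rl φ → Even (Parker.dg φ) → ∀ (M : QM K S.H) (m : ℕ), Odd m →
    (∀ g : S.H, M.ch Ω g = m * φ g) → M.dc c Γ = 1
  ii : ∀ φ ∈ ir Ω S.H, rl φ → Odd (Parker.dg φ) → ∀ M : QM K S.H,
    (∀ g : S.H, M.ch Ω g = φ g) → ∀ y, ∀ ψ ∈ ir Ω (S.L y), rl ψ → Odd (Parker.dg ψ) →
      mt (S.L y) φ (S.e Ω y) ψ ≠ 0 →
        mt (S.L y) φ (S.e Ω y) ψ = 1 ∧ dcA c Γ M (S.e Ω y * cen (S.L y) ψ) = M.dc c Γ

end

end LieP
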