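import Pool.Agent.LieP.K03

/-!
# MP_6c3636_al, LieP, module K05: transversals of the facets of X, the series of the Levi systems (helper69)

Section 9. `TV D Y`: `Y` contains exactly one point of every `N(ε)`-orbit of facets of `X = S.X D.x`.
`exists_TV_sub`: there are finitely many sign vectors of the roots at points of `X`, so finitely many facets. `y ~ y'` iff `ac n y` is in the facet of `y'` for some `n ∈ D.NN D`: an equivalence relation on `X` (`NN_mul`, `NN_inv`, `NN_L` for `n = 1`, `ac_eqv`, `NN_reg`) with finitely many classes. In each class choose a point with `p`.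
`exists_NN_chamber`: let `w ∈ D.W` (finite, `fin_W`) with `inner x (w y)` maximal; `w y = ac n y`, `n = rp w ∈ NN D` (`W_rp`), is in `X` (`W_X`). For `a ∈ Psi` with `0 < inner a x`: `rfn a ∈ D.W` (`of_Psi`), `inner x (w y) ≥ inner x (rfn a (w y)) = inner x (w y) - 2 * inner a (w y) * inner a x` (`rfn_apply`), so `0 ≤ inner a (w y)`.
`mem_Cc_iff`: `Psi_of`, `of_Psi`. `NA_cm`: `cm_pos`, `mem_Cc_iff`, `reg_cm`.
`sr D y`: the series of the Levi system of `y` (defined for all `y`). `od D y`: its member of odd degree.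
-/

namespace LieP

noncomputable section

open Classical

variable {Ω : Type} [Field Ω] {G E : Type} [Group G] [Finite G]
  [NormedAddCommGroup E] [InnerProductSpace ℝ E] [FiniteDimensional ℝ E] {S : LieSys G E}

/-- transversals of the orbits of `N(ε)` on the facets of `X` -/
structure TV (D : S.Cs Ω) (Y : Finset E) : Prop where
  mem : ∀ y ∈ Y, y ∈ S.X D.x
  ex : ∀ y ∈ S.X D.x, ∃ n ∈ D.NN D, ∃ y' ∈ Y, S.eqv (S.ac n y) y'
  un : ∀ y ∈ Y, ∀ y' ∈ Y, ∀ n ∈ D.NN D, S.eqv (S.ac n y) y' → y = y'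

/-- the members of the series for the Levi system of `y` -/
def sr (D : S.Cs Ω) (y : E) : Finset (G → Ω) :=
  (ir Ω (S.L y)).filter fun ψ => rk ψ (av Ω (S.U D.x ⊓ S.L y) * D.ε) ≠ 0

/-- the member of odd degree -/
def od (D : S.Cs Ω) (y : E) : G → Ω :=
  if h : ∃ ψ ∈ sr D y, Odd (Parker.dg ψ) then h.choose else 0

/-- the closed chamber of `x` in `X` -/
def Cc (D : S.Cs Ω) (x : E) : Set E :=
  {y | y ∈ S.X D.x ∧ ∀ a ∈ D.Psi, 0 < inner ℝ a x → 0 ≤ inner ℝ a y}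

/-- the walls of the chamber of `x` containing `y` -/
def Jy (D : S.Cs Ω) (x y : E) : Finset E := (sm D.Psi x).filter fun a => inner ℝ a y = 0

variable [IsAlgClosed Ω] [CharZero Ω]

theorem sr_eq (D : S.Cs Ω) {y : E} (hy : y ∈ S.X D.x) : sr D y = (levD D y hy).Ser := rfl

theorem mem_sr {D : S.Cs Ω} {y : E} {ψ : G → Ω} : ψ ∈ sr D y ↔
    ψ ∈ ir Ω (S.L y) ∧ rk ψ (av Ω (S.U D.x ⊓ S.L y) * D.ε) ≠ 0 := Finset.mem_filter

namespace K05_aux

/-- the positive roots at `y` -/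
def pr (S : LieSys G E) (y : E) : Finset E := S.R.filter fun a => 0 < inner ℝ a y

theorem pr_eqv {y y' : E} (h : pr S y = pr S y') : S.eqv y y' := by
  rw [eqv_iff]
  intro a ha
  have h1 : a ∈ pr S y ↔ a ∈ pr S y' := by rw [h]
  unfold pr at h1
  rw [Finset.mem_filter, Finset.mem_filter] at h1
  constructor
  · intro h2
    exact (h1.mp ⟨ha, h2⟩).2
  · intro h2
    exact (h1.mpr ⟨ha, h2⟩).2

end K05_aux

/-- if a family of facets of `X` contains one of every orbit it contains a transversal -/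
theorem exists_TV_sub (D : S.Cs Ω) {p : E → Prop} (hp : ∀ y, p y → y ∈ S.X D.x)
    (h : ∀ y ∈ S.X D.x, ∃ n ∈ D.NN D, p (S.ac n y)) : ∃ Y : Finset E, TV D Y ∧ ∀ y ∈ Y, p y := by
  have hex : ∃ m : ℕ, ∃ Y : Finset E, ((∀ y ∈ Y, p y) ∧
      ∀ y ∈ S.X D.x, ∃ n ∈ D.NN D, ∃ y' ∈ Y, S.eqv (S.ac n y) y') ∧ Y.card = m := by
    let Y0 : Finset E := (S.R.powerset.filter fun s => ∃ y, p y ∧ K05_aux.pr S y = s).image
      fun s => if h : ∃ y, p y ∧ K05_aux.pr S y = s then h.choose else 0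
    refine ⟨Y0.card, Y0, ⟨?_, ?_⟩, rfl⟩
    · intro y hy
      obtain ⟨s, hs, rfl⟩ := Finset.mem_image.mp hy
      have h1 := (Finset.mem_filter.mp hs).2
      rw [dif_pos h1]
      exact h1.choose_spec.1
    · intro y hy
      obtain ⟨n, hn, hpn⟩ := h y hy
      have h1 : ∃ y', p y' ∧ K05_aux.pr S y' = K05_aux.pr S (S.ac n y) := ⟨_, hpn, rfl⟩
      refine ⟨n, hn, h1.choose, ?_, ?_⟩
      · refine Finset.mem_image.mpr ⟨K05_aux.pr S (S.ac n y), Finset.mem_filter.mpr ⟨?_, h1⟩, ?_⟩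
        · exact Finset.mem_powerset.mpr (Finset.filter_subset _ _)
        · rw [dif_pos h1]
      · exact K05_aux.pr_eqv h1.choose_spec.2.symm
  obtain ⟨Y, ⟨hY1, hY2⟩, hYc⟩ := Nat.find_spec hex
  refine ⟨Y, ⟨fun y hy => hp y (hY1 y hy), hY2, ?_⟩, hY1⟩
  intro y hy y' hy' n hn hnn
  by_contra hne
  have hlt : (Y.erase y).card < Nat.find hex := by
    rw [← hYc]
    exact Finset.card_erase_lt_of_mem hy
  refine Nat.find_min hex hlt ⟨Y.erase y, ⟨fun z hz => hY1 z (Finset.mem_of_mem_erase hz), ?_⟩, rfl⟩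
  intro z hz
  obtain ⟨m, hm, y'', hy'', hmz⟩ := hY2 z hz
  by_cases h1 : y'' = y
  · subst h1
    refine ⟨n * m, NN_mul hn hm, y', Finset.mem_erase.mpr ⟨fun h2 => hne h2.symm, hy'⟩, ?_⟩
    rw [ac_mul_apply S (NN_H hn).1 (NN_H hm).1]
    exact eqv_trans S ((ac_eqv S (NN_H hn).1).mpr hmz) hnn
  · exact ⟨m, hm, y'', Finset.mem_erase.mpr ⟨h1, hy''⟩, hmz⟩

/-- every point of `X` has a conjugate in the closed chamber of `x` -/
theorem exists_NN_chamber (D : S.Cs Ω) {x : E} (hx : S.Reg D.x x) {y : E} (hy : y ∈ S.X D.x) :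
    ∃ n ∈ D.NN D, S.ac n y ∈ Cc D x := by
  have hfin : Finite D.W := fin_W D
  obtain ⟨⟨w, hw⟩, hmax⟩ := Finite.exists_max fun w : D.W => inner ℝ x ((w : E ≃ₗᵢ[ℝ] E) y)
  obtain ⟨hn, hnw⟩ := W_rp hw
  refine ⟨D.rp w, hn, ?_⟩
  rw [← hnw y hy]
  refine ⟨W_X hw hy, fun a ha hax => ?_⟩
  obtain ⟨ha1, haX, -, haW, -⟩ := of_Psi ha
  have h1 := hmax ⟨rfn a * w, D.W.mul_mem haW hw⟩
  have h2 : inner ℝ x (rfn a (w y)) ≤ inner ℝ x (w y) := h1
  rw [rfn_apply ha1, inner_sub_right, inner_smul_right, real_inner_comm a x] at h2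
  have h3 : 0 ≤ inner ℝ a (w y) * inner ℝ a x := by linarith
  exact nonneg_of_mul_nonneg_left h3 hax

theorem exists_TV (D : S.Cs Ω) {x : E} (hx : S.Reg D.x x) :
    ∃ Y : Finset E, TV D Y ∧ ∀ y ∈ Y, y ∈ Cc D x :=
  exists_TV_sub D (fun _ h => h.1) fun _ hy => exists_NN_chamber D hx hy

theorem mem_Cc_iff {D : S.Cs Ω} {x y : E} (hx : S.Reg D.x x) : y ∈ Cc D x ↔
    y ∈ S.X D.x ∧ ∀ a, D.Ta a → 0 < inner ℝ a x → 0 ≤ inner ℝ a y := by
  have hxX : x ∈ S.X D.x := reg_mem_X S hx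
  constructor
  · rintro ⟨hy, h⟩
    refine ⟨hy, fun a ha hax => ?_⟩
    obtain ⟨b, hb, r, hr, hr'⟩ := Psi_of ha
    rw [hr' x hxX] at hax
    rw [hr' y hy]
    exact mul_nonneg hr.le (h b hb (pos_of_mul_pos_right hax hr.le))
  · rintro ⟨hy, h⟩
    refine ⟨hy, fun a ha hax => ?_⟩
    obtain ⟨-, -, -, -, b, hb, r, hr, hr'⟩ := of_Psi ha
    have h1 := h b hb (by rw [hr' x hxX]; exact mul_pos hr hax)
    rw [hr' y hy] at h1
    exact nonneg_of_mul_nonneg_right h1 hr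

/-- for a face `y` of the closed chamber the point `cm y x` is in the open chamber of `x` -/
theorem NA_cm {D : S.Cs Ω} {x y : E} (hx : S.Reg D.x x) (hy : y ∈ Cc D x) :
    D.NA x (S.cm y x) ∧ S.Reg D.x (S.cm y x) := by
  refine ⟨?_, reg_cm S hx hy.1⟩
  have h1 := ((mem_Cc_iff hx).mp hy).2
  have key : ∀ a, D.Ta a → 0 < inner ℝ a x → 0 < inner ℝ a (S.cm y x) := by
    intro a ha hax
    rw [cm_pos S ha.1]
    rcases (h1 a ha hax).lt_or_eq with h2 | h2
    · exact Or.inl h2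
    · exact Or.inr ⟨h2.symm, hax⟩
  intro a ha hneg
  rcases mul_neg_iff.mp hneg with ⟨h2, h3⟩ | ⟨h2, h3⟩
  · have := key a ha h2
    linarith
  · have h4 := key (-a) (Ta_neg ha) (by rw [inner_neg_left]; linarith)
    rw [inner_neg_left] at h4
    linarith

end

end LieP
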