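import Pool.Agent.LieP.Defs4
import Pool.Agent.LieP.K05

/-!
# MP_6c3636_al, groups of Lie type in characteristic two: definitions, part 5 (helper7)

Section 11: the isometry `τ`, the operator `j`. (The closed chamber `Cc`, the sets `Jy`: K05.)
-/

namespace LieP

noncomputable section

open Classical

section

variable {G E : Type} [Group G] [Finite G] [NormedAddCommGroup E] [InnerProductSpace ℝ E]
  [FiniteDimensional ℝ E] {S : LieSys G E} {Ω : Type} [Field Ω] [CharZero Ω]

/-- some root does not vanish at `y` -/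
def nz (S : LieSys G E) (y : E) : Prop := ∃ a ∈ S.R, inner ℝ a y ≠ 0

/-- the isometry of `n` on `X`, extended by the identity -/
def tE (D : S.Cs Ω) (n : G) : E ≃ₗᵢ[ℝ] E :=
  if h : ∃ t : E ≃ₗᵢ[ℝ] E, (∀ y ∈ S.X D.x, t y = S.ac n y) ∧ ∀ y ∈ (S.X D.x)ᗮ, t y = y then h.choose
  else 1

/-- the operator `j` of the element `b` -/
def jj (S : LieSys G E) (x : E) (b : Al Ω G) : Al Ω G := S.e Ω x * b * S.e Ω x

/-- the data of section 11: a generic cuspidal idempotent with fixed coefficients, a regular point `x`, an element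
`n` of `N(ε*, ε)` which preserves the chamber of `x`, and an element `b` of its line -/
structure TD (D : S.Cs Ω) (Γ : Subgroup (RingAut Ω)) (x : E) where
  /-- the element -/
  n : G
  /-- the operator -/
  b : Al Ω G
  gnr : D.gnr
  ta : D.TaH
  reg : S.Reg D.x x
  fe : FxA Γ D.ε
  mem : n ∈ (stD D).NN D
  na : D.NA x (S.ac n x)
  bl : b ∈ lin (stD D) D n
  b0 : b ≠ 0
  fb : FxA Γ b
  fx : ∀ φ ∈ ir Ω S.H, ∀ g, Parker.Fx Γ (φ g)

/-- the isometry `τ` -/
abbrev TD.t {D : S.Cs Ω} {Γ : Subgroup (RingAut Ω)} {x : E} (T : TD D Γ x) : E ≃ₗᵢ[ℝ] E := tE D T.n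

/-- the operator `j` -/
abbrev TD.j {D : S.Cs Ω} {Γ : Subgroup (RingAut Ω)} {x : E} (T : TD D Γ x) : Al Ω G := jj S x T.b

/-- the `τ`-stable sets of simple roots -/
def TD.JJ {D : S.Cs Ω} {Γ : Subgroup (RingAut Ω)} {x : E} (T : TD D Γ x) : Finset (Finset E) :=
  (sm D.Psi x).powerset.filter fun J => J.image T.t = J

end

end

end LieP
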