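import Pool.Agent.LieP.Defs2

/-!
# MP_6c3636_al, LieP, module F01: reflections (helper7)

`rfn a` is Mathlib's reflection in the orthogonal complement of `ℝ a`. `rfn_apply`: `Submodule.reflection_orthogonal_apply`,
`Submodule.starProjection_unit_singleton` or neighbours. `rfn_conj`: both sides are `x ↦ x - 2 ⟨w a, x⟩ (w a)`.
-/

namespace LieP

noncomputable section

open Classical

variable {E : Type} [NormedAddCommGroup E] [InnerProductSpace ℝ E] [FiniteDimensional ℝ E]

theorem rfn_apply {a : E} (ha : ‖a‖ = 1) (x : E) : rfn a x = x - (2 * inner ℝ a x) • a := by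
  unfold rfn
  rw [Submodule.reflection_orthogonal_apply, Submodule.reflection_singleton_apply, ha]
  simp only [RCLike.ofReal_real_eq_id, id_eq, one_pow, div_one]
  rw [neg_sub, two_smul, ← add_smul, two_mul]

theorem rfn_rfn (a x : E) : rfn a (rfn a x) = x := by
  unfold rfn
  exact Submodule.reflection_reflection _ x

theorem rfn_mul_self (a : E) : rfn a * rfn a = 1 := by
  ext x
  exact rfn_rfn a x

theorem rfn_inv (a : E) : (rfn a)⁻¹ = rfn a :=
  inv_eq_of_mul_eq_one_left (rfn_mul_self a)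

theorem rfn_self {a : E} (ha : ‖a‖ = 1) : rfn a a = -a := by
  rw [rfn_apply ha, real_inner_self_eq_norm_sq, ha]
  rw [one_pow, mul_one, two_smul]
  abel

theorem rfn_fix {a : E} (ha : ‖a‖ = 1) {x : E} (h : inner ℝ a x = 0) : rfn a x = x := by
  rw [rfn_apply ha, h, mul_zero, zero_smul, sub_zero]

theorem rfn_inner {a : E} (b x : E) : inner ℝ b (rfn a x) = inner ℝ (rfn a b) x := by
  rw [← (rfn a).inner_map_map b (rfn a x), rfn_rfn]

theorem rfn_conj (w : E ≃ₗᵢ[ℝ] E) {a : E} (ha : ‖a‖ = 1) : w * rfn a * w⁻¹ = rfn (w a) := by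
  ext x
  have hw : ‖w a‖ = 1 := by rw [w.norm_map, ha]
  have h1 : w (w⁻¹ x) = x := w.apply_symm_apply x
  rw [rfn_apply hw]
  show w (rfn a (w⁻¹ x)) = _
  rw [rfn_apply ha, map_sub, map_smul, h1]
  congr 3
  rw [← w.inner_map_map a (w⁻¹ x), h1]

theorem rfn_neg {a : E} (ha : ‖a‖ = 1) : rfn (-a) = rfn a := by
  ext x
  rw [rfn_apply ha, rfn_apply (by rw [norm_neg, ha]), inner_neg_left, mul_neg, neg_smul_neg]

theorem inner_act (w : E ≃ₗᵢ[ℝ] E) (a x : E) : inner ℝ a (w x) = inner ℝ (w⁻¹ a) x := by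
  have h1 : w (w⁻¹ a) = a := w.apply_symm_apply a
  rw [← w.inner_map_map (w⁻¹ a) x, h1]

end

end LieP
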