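import Pool.Agent.LieP.F01

/-!
# MP_6c3636_al, LieP, module F02: walls of the chamber (7.1) (helper7)

Section 7, (7.1) of the paper proof. Let `y` be positive on the simple roots and not in the chamber. Consider the segments
from the points `c` of the open chamber to `y`: for `b` in the positive roots with `⟨b, y⟩ ≤ 0` let `t_b = ⟨b,c⟩ / (⟨b,c⟩ - ⟨b,y⟩)` be the parameter where the
segment meets the hyperplane of `b`. For suitable `c` near the base point the minimum of the `t_b` is attained only once (for `b ≠ b'` the equality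
`⟨b,c⟩ ⟨b',y⟩ = ⟨b',c⟩ ⟨b,y⟩` is a nontrivial linear condition on `c`, unless `⟨b,y⟩ = ⟨b',y⟩ = 0`; in this case first replace `y` by `y - δ x`, `x` the base point, `δ > 0` small,
which keeps `y` positive on the simple roots and makes all these numbers negative). At this point the root `b` is zero and all other
positive roots are positive, so `b` is simple, contradiction. `mem_Cb`: apply `mem_C` to `y + δ x` for all `δ > 0`.
Note: distinct elements of `ps` are not proportional (unit vectors, both positive at `x`).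

Proof used here: take a minimal set `T` of positive roots whose positivity forces membership in the chamber; every element
of `T` is simple.
-/

namespace LieP

noncomputable section

open Classical

variable {E : Type} [NormedAddCommGroup E] [InnerProductSpace ℝ E] [FiniteDimensional ℝ E]

variable (Q : RG E)

namespace F02_aux

omit [FiniteDimensional ℝ E] in
theorem mem_ps {Psi : Finset E} {x a : E} : a ∈ ps Psi x ↔ a ∈ Psi ∧ 0 < inner ℝ a x := by
  simp [ps]

omit [FiniteDimensional ℝ E] in
/-- two different unit vectors have inner product less than one -/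
theorem inner_lt_one {a b : E} (ha : ‖a‖ = 1) (hb : ‖b‖ = 1) (hab : a ≠ b) : inner ℝ a b < 1 :=
  (inner_lt_one_iff_real_of_norm_eq_one ha hb).2 hab

end F02_aux

open F02_aux

theorem x_mem_C : Q.x ∈ Q.C := fun _ ha => (mem_ps.1 ha).2

theorem C_sub_Cb : Q.C ⊆ Q.Cb := fun _ hy a ha => (hy a ha).le

namespace F02_aux

omit [FiniteDimensional ℝ E] in
/-- a minimal set of positive roots defining the chamber consists of simple roots -/
theorem exists_sub : ∃ T ⊆ Q.S, ∀ y : E, (∀ a ∈ T, 0 < inner ℝ a y) → y ∈ Q.C := by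
  have hfin : ((ps Q.Psi Q.x).powerset.filter fun T : Finset E =>
      ∀ y : E, (∀ a ∈ T, 0 < inner ℝ a y) → y ∈ Q.C).Nonempty := by
    refine ⟨ps Q.Psi Q.x, ?_⟩
    rw [Finset.mem_filter]
    exact ⟨Finset.mem_powerset_self _, fun y hy => hy⟩
  obtain ⟨T, hT, hmin⟩ := Finset.exists_min_image _ Finset.card hfin
  rw [Finset.mem_filter, Finset.mem_powerset] at hT
  obtain ⟨hTps, hTC⟩ := hT
  refine ⟨T, ?_, hTC⟩
  intro a haT
  have haps := hTps haT
  have hax : 0 < inner ℝ a Q.x := (mem_ps.1 haps).2
  -- a point positive on `T` without `a` and outside of the chamber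
  obtain ⟨y₀, hy₀, hy₀C⟩ : ∃ y : E, (∀ b ∈ T.erase a, 0 < inner ℝ b y) ∧ y ∉ Q.C := by
    by_contra hcon
    push Not at hcon
    have h1 := hmin (T.erase a) (by
      rw [Finset.mem_filter, Finset.mem_powerset]
      exact ⟨(Finset.erase_subset _ _).trans hTps, hcon⟩)
    have h2 := Finset.card_erase_lt_of_mem haT
    omega
  have hay₀ : inner ℝ a y₀ ≤ 0 := by
    by_contra hcon
    push Not at hcon
    refine hy₀C (hTC y₀ fun b hb => ?_)
    by_cases hba : b = a
    · rw [hba]; exact hcon
    · exact hy₀ b (Finset.mem_erase.2 ⟨hba, hb⟩)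
  -- the point of the segment where `a` vanishes
  have hden : 0 < inner ℝ a Q.x - inner ℝ a y₀ := by linarith
  set p : E := (-inner ℝ a y₀ : ℝ) • Q.x + (inner ℝ a Q.x : ℝ) • y₀ with hp
  have hap : inner ℝ a p = 0 := by
    rw [hp, inner_add_right, inner_smul_right, inner_smul_right]
    ring
  have hTp : ∀ b ∈ T, b ≠ a → 0 < inner ℝ b p := by
    intro b hb hba
    rw [hp, inner_add_right, inner_smul_right, inner_smul_right]
    have h1 : 0 < inner ℝ b Q.x := (mem_ps.1 (hTps hb)).2
    have h2 : 0 < inner ℝ b y₀ := hy₀ b (Finset.mem_erase.2 ⟨hba, hb⟩)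
    have h3 : 0 ≤ -inner ℝ a y₀ * inner ℝ b Q.x := mul_nonneg (by linarith) h1.le
    have h4 : 0 < inner ℝ a Q.x * inner ℝ b y₀ := mul_pos hax h2
    linarith
  -- all positive roots different from `a` are positive at `p`
  have hall : ∀ b ∈ ps Q.Psi Q.x, b ≠ a → 0 < inner ℝ b p := by
    intro b hb hba
    by_contra hcon
    push Not at hcon
    have hua : ‖a‖ = 1 := Q.unit a (mem_ps.1 haps).1
    have hub : ‖b‖ = 1 := Q.unit b (mem_ps.1 hb).1
    have hab : inner ℝ a b < 1 := inner_lt_one hua hub (Ne.symm hba)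
    have hav : 0 < inner ℝ a (a - b) := by
      rw [inner_sub_right, real_inner_self_eq_norm_sq, hua]
      linarith
    have hbv : inner ℝ b (a - b) < 0 := by
      rw [inner_sub_right, real_inner_self_eq_norm_sq, hub, real_inner_comm b a] at *
      linarith
    -- a small positive number
    obtain ⟨ε, hε, hεT⟩ : ∃ ε : ℝ, 0 < ε ∧ ∀ c ∈ T, c ≠ a → 0 < inner ℝ c (p + ε • (a - b)) := by
      have hev : ∀ c ∈ T, ∀ᶠ ε : ℝ in nhdsWithin 0 (Set.Ioi 0), c ≠ a → 0 < inner ℝ c (p + ε • (a - b)) := by
        intro c hc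
        by_cases hca : c = a
        · exact Filter.Eventually.of_forall fun _ h => absurd hca h
        · have hcont : Continuous fun ε : ℝ => (inner ℝ c (p + ε • (a - b)) : ℝ) := by fun_prop
          have h0 : 0 < (inner ℝ c (p + (0 : ℝ) • (a - b)) : ℝ) := by
            rw [zero_smul, add_zero]; exact hTp c hc hca
          have h1 : ∀ᶠ ε : ℝ in nhds 0, 0 < (inner ℝ c (p + ε • (a - b)) : ℝ) :=
            hcont.continuousAt.eventually (lt_mem_nhds h0)
          exact (h1.filter_mono nhdsWithin_le_nhds).mono fun _ h _ => h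
      have hev2 : ∀ᶠ ε : ℝ in nhdsWithin 0 (Set.Ioi 0), ∀ c ∈ T, c ≠ a → 0 < inner ℝ c (p + ε • (a - b)) :=
        (Finset.eventually_all T).2 hev
      obtain ⟨ε, h1, h2⟩ := (hev2.and self_mem_nhdsWithin).exists
      exact ⟨ε, h2, h1⟩
    have hmem := hTC (p + ε • (a - b)) (by
      intro c hc
      by_cases hca : c = a
      · rw [hca, inner_add_right, inner_smul_right, hap, zero_add]
        exact mul_pos hε hav
      · exact hεT c hc hca)
    have h5 := hmem b hb
    rw [inner_add_right, inner_smul_right] at h5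
    have h6 : ε * inner ℝ b (a - b) < 0 := mul_neg_of_pos_of_neg hε hbv
    linarith
  show a ∈ sm Q.Psi Q.x
  rw [sm, Finset.mem_filter]
  exact ⟨haps, p, hap, hall⟩

end F02_aux

theorem mem_C {y : E} (h : ∀ a ∈ Q.S, 0 < inner ℝ a y) : y ∈ Q.C := by
  obtain ⟨T, hT, hTC⟩ := exists_sub Q
  exact hTC y fun a ha => h a (hT ha)

theorem mem_Cb {y : E} (h : ∀ a ∈ Q.S, 0 ≤ inner ℝ a y) : y ∈ Q.Cb := by
  intro b hb
  have key : ∀ δ : ℝ, 0 < δ → 0 < inner ℝ b y + δ * inner ℝ b Q.x := by
    intro δ hδ
    have h1 : y + δ • Q.x ∈ Q.C := mem_C Q fun a ha => by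
      rw [inner_add_right, inner_smul_right]
      have hax : 0 < inner ℝ a Q.x := (mem_ps.1 (Finset.mem_filter.1 ha).1).2
      have := h a ha
      have := mul_pos hδ hax
      linarith
    have h2 := h1 b hb
    rwa [inner_add_right, inner_smul_right] at h2
  by_contra hcon
  push Not at hcon
  have hbx : 0 < inner ℝ b Q.x := (mem_ps.1 hb).2
  have h3 := key (-(inner ℝ b y) / inner ℝ b Q.x) (div_pos (by linarith) hbx)
  rw [div_mul_cancel₀ _ hbx.ne'] at h3
  linarith

theorem ps_or_neg {a : E} (ha : a ∈ Q.Psi) : a ∈ ps Q.Psi Q.x ∨ -a ∈ ps Q.Psi Q.x := by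
  rcases lt_or_gt_of_ne (Q.reg a ha) with h | h
  · right
    rw [mem_ps, inner_neg_left]
    exact ⟨Q.neg a ha, by linarith⟩
  · left
    rw [mem_ps]
    exact ⟨ha, h⟩

/-- a point of the closed chamber plus a positive multiple of a point of the open chamber is in the open chamber -/
theorem add_mem_C {y z : E} (hy : y ∈ Q.Cb) (hz : z ∈ Q.C) {r : ℝ} (hr : 0 < r) : y + r • z ∈ Q.C := by
  intro a ha
  rw [inner_add_right, inner_smul_right]
  have h1 := hy a ha
  have h2 := mul_pos hr (hz a ha)
  linarith

end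

end LieP
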