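import Pool.Agent.LieP.F02

/-!
# MP_6c3636_al, LieP, module F03: inversions of a product with a simple reflection (7.2) (helper7)

Section 7, (7.2). `iv_rfn`: let `y` be the point of the simple root `a` (`⟨a,y⟩ = 0`, all other positive roots positive at `y`). For a positive root `b ≠ a`:
`⟨b, y⟩ > 0` and `rfn a y = y`, so `⟨b, rfn a (y + δ x)⟩ = ⟨b, y⟩ + δ ⟨b, rfn a x⟩ > 0` for small `δ > 0`, for all these `b` at once; `y + δ x` is in the open chamber; the group permutes the roots, and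
`b ↦ sign ⟨b, rfn a (·)⟩ = sign ⟨rfn a b, ·⟩` is constant on the open chamber. `iv_mul`: `b` is an inversion of `rfn a * w` iff `⟨rfn a b, w x⟩ < 0`; for `b ≠ a` positive `rfn a b` is positive.
-/

namespace LieP

noncomputable section

open Classical

variable {E : Type} [NormedAddCommGroup E] [InnerProductSpace ℝ E] [FiniteDimensional ℝ E]

variable (Q : RG E)

namespace F03_aux

theorem mem_ps {b : E} : b ∈ ps Q.Psi Q.x ↔ b ∈ Q.Psi ∧ 0 < inner ℝ b Q.x := by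
  unfold ps
  exact Finset.mem_filter

theorem mem_iv {w : E ≃ₗᵢ[ℝ] E} {b : E} :
    b ∈ iv Q.Psi Q.x w ↔ b ∈ ps Q.Psi Q.x ∧ inner ℝ b (w Q.x) < 0 := by
  unfold iv
  exact Finset.mem_filter

theorem mem_ds {w : E ≃ₗᵢ[ℝ] E} {b : E} :
    b ∈ ds Q.Psi Q.x w ↔ b ∈ Q.S ∧ inner ℝ b (w Q.x) < 0 := by
  unfold ds
  exact Finset.mem_filter

theorem mem_sm {a : E} (ha : a ∈ Q.S) : a ∈ ps Q.Psi Q.x ∧
    ∃ y, inner ℝ a y = 0 ∧ ∀ b ∈ ps Q.Psi Q.x, b ≠ a → 0 < inner ℝ b y := by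
  have h : a ∈ (ps Q.Psi Q.x).filter fun a => ∃ y, inner ℝ a y = 0 ∧
      ∀ b ∈ ps Q.Psi Q.x, b ≠ a → 0 < inner ℝ b y := ha
  exact Finset.mem_filter.1 h

/-- a root positive at one point of the open chamber is positive -/
theorem pos_of_C {y b : E} (hy : y ∈ Q.C) (hb : b ∈ Q.Psi) (h : 0 < inner ℝ b y) :
    b ∈ ps Q.Psi Q.x := by
  rcases ps_or_neg Q hb with h1 | h1
  · exact h1
  · have h2 : 0 < inner ℝ (-b) y := hy _ h1
    rw [inner_neg_left] at h2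
    linarith

theorem act_ne {w : E ≃ₗᵢ[ℝ] E} (hw : w ∈ Q.W) {a : E} (ha : a ∈ Q.Psi) :
    inner ℝ a (w Q.x) ≠ 0 := by
  rw [inner_act]
  exact Q.reg _ (Q.stab _ (Q.W.inv_mem hw) _ ha)

theorem rfn_mul_apply (a x : E) (w : E ≃ₗᵢ[ℝ] E) : (rfn a * w) x = rfn a (w x) := rfl

theorem rfn_a {a : E} (ha : a ∈ Q.S) : rfn a a = -a :=
  rfn_self (Q.unit a ((mem_ps Q).1 (mem_sm Q ha).1).1)

/-- a simple reflection permutes the other positive roots -/
theorem rfn_ps_aux {a b : E} (ha : a ∈ Q.S) (hb : b ∈ ps Q.Psi Q.x) (hne : b ≠ a) :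
    rfn a b ∈ ps Q.Psi Q.x := by
  obtain ⟨haps, y, hy0, hy⟩ := mem_sm Q ha
  have haP := ((mem_ps Q).1 haps).1
  have hbP := ((mem_ps Q).1 hb).1
  have hun := Q.unit a haP
  have hyC : y ∈ Q.Cb := by
    intro c hc
    by_cases h : c = a
    · rw [h, hy0]
    · exact (hy c hc h).le
  have hby := hy b hb hne
  set t : ℝ := inner ℝ b (rfn a Q.x) with ht
  set δ : ℝ := inner ℝ b y / (1 + |t|) with hδ
  have h1 : 0 < 1 + |t| := by positivity
  have hδ0 : 0 < δ := div_pos hby h1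
  have hz : y + δ • Q.x ∈ Q.C := add_mem_C Q hyC (x_mem_C Q) hδ0
  refine pos_of_C Q hz (Q.stab _ (Q.rf a haP) _ hbP) ?_
  rw [← rfn_inner, map_add, map_smul, rfn_fix hun hy0, inner_add_right, inner_smul_right, ← ht]
  have h2 : δ * (1 + |t|) = inner ℝ b y := div_mul_cancel₀ _ h1.ne'
  have h3 : -|t| ≤ t := neg_abs_le t
  nlinarith

end F03_aux

open F03_aux

theorem iv_rfn {a : E} (ha : a ∈ Q.S) : iv Q.Psi Q.x (rfn a) = {a} := by
  ext b
  rw [mem_iv, Finset.mem_singleton]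
  constructor
  · rintro ⟨hb, hlt⟩
    by_contra hne
    have h1 := ((mem_ps Q).1 (rfn_ps_aux Q ha hb hne)).2
    rw [rfn_inner] at hlt
    linarith
  · rintro rfl
    have hb := (mem_sm Q ha).1
    refine ⟨hb, ?_⟩
    rw [rfn_inner, rfn_a Q ha, inner_neg_left]
    have := ((mem_ps Q).1 hb).2
    linarith

/-- a simple reflection permutes the other positive roots -/
theorem rfn_ps {a b : E} (ha : a ∈ Q.S) (hb : b ∈ ps Q.Psi Q.x) (hne : b ≠ a) :
    rfn a b ∈ ps Q.Psi Q.x := by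
  exact rfn_ps_aux Q ha hb hne

theorem iv_one : iv Q.Psi Q.x 1 = ∅ := by
  rw [Finset.eq_empty_iff_forall_notMem]
  intro b hb
  rw [mem_iv] at hb
  have h1 := ((mem_ps Q).1 hb.1).2
  have h2 : inner ℝ b Q.x < 0 := hb.2
  linarith

theorem iv_mul_pos {a : E} (ha : a ∈ Q.S) {w : E ≃ₗᵢ[ℝ] E} (hw : w ∈ Q.W) (h : a ∉ ds Q.Psi Q.x w) :
    iv Q.Psi Q.x (rfn a * w) = insert a ((iv Q.Psi Q.x w).image (rfn a)) ∧
      a ∉ (iv Q.Psi Q.x w).image (rfn a) ∧ Q.len (rfn a * w) = Q.len w + 1 := by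
  have haps := (mem_sm Q ha).1
  have haP := ((mem_ps Q).1 haps).1
  have hpos : 0 < inner ℝ a (w Q.x) := by
    have h1 := act_ne Q hw haP
    have h2 : ¬ inner ℝ a (w Q.x) < 0 := fun h3 => h ((mem_ds Q).2 ⟨ha, h3⟩)
    exact lt_of_le_of_ne (not_lt.1 h2) h1.symm
  have e1 : iv Q.Psi Q.x (rfn a * w) = insert a ((iv Q.Psi Q.x w).image (rfn a)) := by
    ext b
    rw [mem_iv, Finset.mem_insert, Finset.mem_image, rfn_mul_apply, rfn_inner]
    constructor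
    · rintro ⟨hb, hlt⟩
      by_cases hba : b = a
      · exact Or.inl hba
      · exact Or.inr ⟨rfn a b, (mem_iv Q).2 ⟨rfn_ps_aux Q ha hb hba, hlt⟩, rfn_rfn a b⟩
    · rintro (rfl | ⟨c, hc, rfl⟩)
      · refine ⟨haps, ?_⟩
        rw [rfn_a Q ha, inner_neg_left]
        linarith
      · obtain ⟨hc1, hc2⟩ := (mem_iv Q).1 hc
        have hca : c ≠ a := by
          rintro rfl
          linarith
        refine ⟨rfn_ps_aux Q ha hc1 hca, ?_⟩
        rw [rfn_rfn]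
        exact hc2
  have e2 : a ∉ (iv Q.Psi Q.x w).image (rfn a) := by
    rw [Finset.mem_image]
    rintro ⟨c, hc, hca⟩
    have h1 : c = -a := by
      rw [← rfn_a Q ha]
      nth_rewrite 2 [← hca]
      exact (rfn_rfn a c).symm
    have h2 := ((mem_ps Q).1 ((mem_iv Q).1 hc).1).2
    have h3 := ((mem_ps Q).1 haps).2
    rw [h1, inner_neg_left] at h2
    linarith
  refine ⟨e1, e2, ?_⟩
  show (iv Q.Psi Q.x (rfn a * w)).card = (iv Q.Psi Q.x w).card + 1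
  rw [e1, Finset.card_insert_of_notMem e2, Finset.card_image_of_injective _ (rfn a).injective]

theorem iv_mul_neg {a : E} (ha : a ∈ Q.S) {w : E ≃ₗᵢ[ℝ] E} (hw : w ∈ Q.W) (h : a ∈ ds Q.Psi Q.x w) :
    iv Q.Psi Q.x (rfn a * w) = ((iv Q.Psi Q.x w).erase a).image (rfn a) ∧
      Q.len (rfn a * w) + 1 = Q.len w := by
  have haps := (mem_sm Q ha).1
  have hneg := ((mem_ds Q).1 h).2
  have haiv : a ∈ iv Q.Psi Q.x w := (mem_iv Q).2 ⟨haps, hneg⟩
  have e1 : iv Q.Psi Q.x (rfn a * w) = ((iv Q.Psi Q.x w).erase a).image (rfn a) := by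
    ext b
    rw [mem_iv, Finset.mem_image, rfn_mul_apply, rfn_inner]
    constructor
    · rintro ⟨hb, hlt⟩
      have hba : b ≠ a := by
        rintro rfl
        rw [rfn_a Q ha, inner_neg_left] at hlt
        linarith
      refine ⟨rfn a b, Finset.mem_erase.2 ⟨?_, (mem_iv Q).2 ⟨rfn_ps_aux Q ha hb hba, hlt⟩⟩,
        rfn_rfn a b⟩
      intro h1
      have h2 : b = -a := by
        rw [← rfn_a Q ha]
        nth_rewrite 2 [← h1]
        exact (rfn_rfn a b).symm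
      have h3 := ((mem_ps Q).1 hb).2
      have h4 := ((mem_ps Q).1 haps).2
      rw [h2, inner_neg_left] at h3
      linarith
    · rintro ⟨c, hc, rfl⟩
      obtain ⟨hca, hc⟩ := Finset.mem_erase.1 hc
      obtain ⟨hc1, hc2⟩ := (mem_iv Q).1 hc
      refine ⟨rfn_ps_aux Q ha hc1 hca, ?_⟩
      rw [rfn_rfn]
      exact hc2
  refine ⟨e1, ?_⟩
  show (iv Q.Psi Q.x (rfn a * w)).card + 1 = (iv Q.Psi Q.x w).card
  rw [e1, Finset.card_image_of_injective _ (rfn a).injective, Finset.card_erase_add_one haiv]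

theorem ds_rfn_mul {a : E} (ha : a ∈ Q.S) {w : E ≃ₗᵢ[ℝ] E} (hw : w ∈ Q.W) :
    a ∈ ds Q.Psi Q.x (rfn a * w) ↔ a ∉ ds Q.Psi Q.x w := by
  have haP := ((mem_ps Q).1 (mem_sm Q ha).1).1
  have h1 := act_ne Q hw haP
  rw [mem_ds, mem_ds, rfn_mul_apply, rfn_inner, rfn_a Q ha, inner_neg_left]
  constructor
  · rintro ⟨_, h2⟩ ⟨_, h3⟩
    linarith
  · intro h2
    refine ⟨ha, ?_⟩
    have h3 : ¬ inner ℝ a (w Q.x) < 0 := fun h4 => h2 ⟨ha, h4⟩
    have h4 := lt_of_le_of_ne (not_lt.1 h3) h1.symm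
    linarith

/-- `iv (w⁻¹) = - w⁻¹ (iv w)` -/
theorem iv_inv {w : E ≃ₗᵢ[ℝ] E} (hw : w ∈ Q.W) :
    iv Q.Psi Q.x w⁻¹ = (iv Q.Psi Q.x w).image fun a => -(w⁻¹ a) := by
  have hwi : ∀ v : E, w (w⁻¹ v) = v := fun v => w.apply_symm_apply v
  have hiw : ∀ v : E, w⁻¹ (w v) = v := fun v => w.symm_apply_apply v
  ext b
  rw [mem_iv, Finset.mem_image]
  constructor
  · rintro ⟨hb, hlt⟩
    obtain ⟨hbP, hbx⟩ := (mem_ps Q).1 hb
    have h1 : inner ℝ (w b) Q.x < 0 := by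
      rw [inner_act, inv_inv] at hlt
      exact hlt
    refine ⟨-(w b), (mem_iv Q).2 ⟨(mem_ps Q).2 ⟨Q.neg _ (Q.stab w hw b hbP), ?_⟩, ?_⟩, ?_⟩
    · rw [inner_neg_left]
      linarith
    · rw [inner_neg_left, w.inner_map_map]
      linarith
    · show -(w⁻¹ (-(w b))) = b
      rw [map_neg, hiw, neg_neg]
  · rintro ⟨a, ha, rfl⟩
    obtain ⟨ha1, ha2⟩ := (mem_iv Q).1 ha
    obtain ⟨haP, hax⟩ := (mem_ps Q).1 ha1
    refine ⟨(mem_ps Q).2 ⟨Q.neg _ (Q.stab _ (Q.W.inv_mem hw) a haP), ?_⟩, ?_⟩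
    · rw [inner_neg_left, ← inner_act]
      linarith
    · rw [inner_neg_left, LinearIsometryEquiv.inner_map_map]
      linarith

theorem len_inv {w : E ≃ₗᵢ[ℝ] E} (hw : w ∈ Q.W) : Q.len w⁻¹ = Q.len w := by
  show (iv Q.Psi Q.x w⁻¹).card = (iv Q.Psi Q.x w).card
  rw [iv_inv Q hw, Finset.card_image_of_injective]
  intro a b hab
  exact (w⁻¹).injective (neg_injective hab)

end

end LieP
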