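import Pool.Agent.LieP.F03

/-!
# MP_6c3636_al, LieP, module F04: generation by simple reflections, the longest element (7.3) (helper7)

Section 7, (7.3). `ds_nonempty`: if `ds w = ∅` then `w x` is positive on the simple roots (it is not orthogonal to any root, as `w` permutes the roots), so
in the open chamber (`mem_C`), `w = 1` by `smp`. `rg_ind`: induction on `len w`. `exists_longest`: `len` maximal. Uniqueness: `ds w = ds w' = S` gives `-w x, -w' x` in the open chamber (`mem_C`),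
so `w⁻¹ w' ...`: the signs of the roots at `w x` and `w' x` agree, so those at `x` and `w⁻¹ w' x`.
`ds_right`: `a` is a descent of `w⁻¹` iff `len (w * rfn a) < len w`.
-/

namespace LieP

noncomputable section

open Classical

variable {E : Type} [NormedAddCommGroup E] [InnerProductSpace ℝ E] [FiniteDimensional ℝ E]

variable (Q : RG E)

namespace F04_aux

theorem sm_ps {Psi : Finset E} {x a : E} (h : a ∈ sm Psi x) : a ∈ ps Psi x :=
  (Finset.mem_filter.mp h).1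

theorem ps_Psi {Psi : Finset E} {x a : E} (h : a ∈ ps Psi x) : a ∈ Psi :=
  (Finset.mem_filter.mp h).1

theorem S_Psi {a : E} (h : a ∈ Q.S) : a ∈ Q.Psi := ps_Psi (sm_ps h)

theorem rfn_mem {a : E} (h : a ∈ Q.S) : rfn a ∈ Q.W := Q.rf a (S_Psi Q h)

theorem ne_zero {w : E ≃ₗᵢ[ℝ] E} (hw : w ∈ Q.W) {a : E} (ha : a ∈ Q.Psi) :
    inner ℝ a (w Q.x) ≠ 0 := by
  rw [inner_act]
  exact Q.reg _ (Q.stab _ (Q.W.inv_mem hw) a ha)

theorem mem_ds {w : E ≃ₗᵢ[ℝ] E} {a : E} :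
    a ∈ ds Q.Psi Q.x w ↔ a ∈ Q.S ∧ inner ℝ a (w Q.x) < 0 := Finset.mem_filter

theorem neg_ps {w : E ≃ₗᵢ[ℝ] E} (h : ds Q.Psi Q.x w = Q.S) {b : E} (hb : b ∈ ps Q.Psi Q.x) :
    inner ℝ b (w Q.x) < 0 := by
  have h1 : -(w Q.x) ∈ Q.C := by
    refine mem_C Q fun a ha => ?_
    have h2 : a ∈ ds Q.Psi Q.x w := by rw [h]; exact ha
    rw [inner_neg_right]
    exact neg_pos.mpr ((mem_ds Q).mp h2).2
  have h3 : 0 < inner ℝ b (-(w Q.x)) := h1 b hb
  rw [inner_neg_right] at h3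
  exact neg_pos.mp h3

end F04_aux

open F04_aux

theorem ds_nonempty {w : E ≃ₗᵢ[ℝ] E} (hw : w ∈ Q.W) (h : w ≠ 1) : (ds Q.Psi Q.x w).Nonempty := by
  by_contra hc
  rw [Finset.not_nonempty_iff_eq_empty] at hc
  apply h
  have h1 : w Q.x ∈ Q.C := by
    refine mem_C Q fun a ha => ?_
    have h2 : ¬ inner ℝ a (w Q.x) < 0 := by
      intro h3
      have h4 : a ∈ ds Q.Psi Q.x w := (mem_ds Q).mpr ⟨ha, h3⟩
      rw [hc] at h4
      exact absurd h4 (Finset.notMem_empty a)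
    exact lt_of_le_of_ne (not_lt.mp h2) (ne_zero Q hw (S_Psi Q ha)).symm
  exact Q.smp w hw fun a ha h0 => h1 a (Finset.mem_filter.mpr ⟨ha, h0⟩)

theorem rg_ind {p : (E ≃ₗᵢ[ℝ] E) → Prop} (h1 : p 1)
    (hs : ∀ a ∈ Q.S, ∀ w ∈ Q.W, a ∉ ds Q.Psi Q.x w → p w → p (rfn a * w)) {w : E ≃ₗᵢ[ℝ] E}
    (hw : w ∈ Q.W) : p w := by
  have key : ∀ n : ℕ, ∀ w ∈ Q.W, Q.len w = n → p w := by
    intro n
    induction n with
    | zero =>
      intro w hw hn
      by_cases hw1 : w = 1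
      · rw [hw1]; exact h1
      · obtain ⟨a, ha⟩ := ds_nonempty Q hw hw1
        have h2 := (iv_mul_neg Q ((mem_ds Q).mp ha).1 hw ha).2
        omega
    | succ n ih =>
      intro w hw hn
      by_cases hw1 : w = 1
      · rw [hw1]; exact h1
      · obtain ⟨a, ha⟩ := ds_nonempty Q hw hw1
        have haS : a ∈ Q.S := ((mem_ds Q).mp ha).1
        have h2 := (iv_mul_neg Q haS hw ha).2
        have h3 : rfn a * w ∈ Q.W := Q.W.mul_mem (rfn_mem Q haS) hw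
        have h4 : a ∉ ds Q.Psi Q.x (rfn a * w) := by
          rw [ds_rfn_mul Q haS hw]
          exact fun h => h ha
        have h5 : p (rfn a * w) := ih _ h3 (by omega)
        have h6 := hs a haS _ h3 h4 h5
        rwa [← mul_assoc, rfn_mul_self, one_mul] at h6
  exact key _ w hw rfl

theorem rg_ind_right {p : (E ≃ₗᵢ[ℝ] E) → Prop} (h1 : p 1)
    (hs : ∀ a ∈ Q.S, ∀ w ∈ Q.W, a ∉ ds Q.Psi Q.x w⁻¹ → p w → p (w * rfn a)) {w : E ≃ₗᵢ[ℝ] E}
    (hw : w ∈ Q.W) : p w := by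
  have h2 : (fun u : E ≃ₗᵢ[ℝ] E => p u⁻¹) w⁻¹ := by
    refine rg_ind Q (p := fun u : E ≃ₗᵢ[ℝ] E => p u⁻¹) ?_ ?_ (Q.W.inv_mem hw)
    · show p (1 : E ≃ₗᵢ[ℝ] E)⁻¹
      rw [inv_one]; exact h1
    · intro a ha u hu hna hp
      show p (rfn a * u)⁻¹
      rw [mul_inv_rev, rfn_inv]
      refine hs a ha u⁻¹ (Q.W.inv_mem hu) ?_ hp
      rw [inv_inv]; exact hna
  have h3 : p (w⁻¹)⁻¹ := h2
  rwa [inv_inv] at h3

theorem wj_S : wj Q.S = Q.W := by
  apply le_antisymm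
  · refine (Subgroup.closure_le _).mpr ?_
    rintro _ ⟨a, ha, rfl⟩
    exact rfn_mem Q (Finset.mem_coe.mp ha)
  · intro w hw
    refine rg_ind Q (p := fun u => u ∈ wj Q.S) (one_mem _) ?_ hw
    intro a ha u _ _ hu
    exact Subgroup.mul_mem _ (Subgroup.subset_closure ⟨a, Finset.mem_coe.mpr ha, rfl⟩) hu

theorem exists_longest : ∃ w ∈ Q.W, ds Q.Psi Q.x w = Q.S ∧
    ∀ w' ∈ Q.W, ds Q.Psi Q.x w' = Q.S → w' = w := by
  have hfin : Finite Q.W := Q.fin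
  obtain ⟨⟨w, hw⟩, hmax⟩ := Finite.exists_max (fun u : Q.W => Q.len u.1)
  have hds : ds Q.Psi Q.x w = Q.S := by
    apply Finset.Subset.antisymm (Finset.filter_subset _ _)
    intro a ha
    by_contra hna
    have h1 := (iv_mul_pos Q ha hw hna).2.2
    have h2 : Q.len (rfn a * w) ≤ Q.len w :=
      hmax ⟨rfn a * w, Q.W.mul_mem (rfn_mem Q ha) hw⟩
    omega
  refine ⟨w, hw, hds, fun w' hw' hds' => ?_⟩
  have hx : ∀ b ∈ Q.Psi, 0 < inner ℝ b (w Q.x) → 0 < inner ℝ b (w' Q.x) := by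
    intro b hb h0
    rcases ps_or_neg Q hb with h | h
    · exact absurd h0 (not_lt.mpr (neg_ps Q hds h).le)
    · have h2 := neg_ps Q hds' h
      rw [inner_neg_left] at h2
      exact neg_neg_iff_pos.mp h2
  have h1 : w⁻¹ * w' = 1 := by
    refine Q.smp _ (Q.W.mul_mem (Q.W.inv_mem hw) hw') fun a ha h0 => ?_
    have h2 : (w⁻¹ * w') Q.x = w⁻¹ (w' Q.x) := rfl
    rw [h2, inner_act, inv_inv]
    refine hx _ (Q.stab w hw a ha) ?_
    rwa [w.inner_map_map]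
  exact (inv_mul_eq_one.mp h1).symm

theorem iv_eq_empty {w : E ≃ₗᵢ[ℝ] E} (hw : w ∈ Q.W) (h : iv Q.Psi Q.x w = ∅) : w = 1 := by
  by_contra hne
  obtain ⟨a, ha⟩ := ds_nonempty Q hw hne
  have h1 := (mem_ds Q).mp ha
  have h2 : a ∈ iv Q.Psi Q.x w := Finset.mem_filter.mpr ⟨sm_ps h1.1, h1.2⟩
  rw [h] at h2
  exact absurd h2 (Finset.notMem_empty a)

end

end LieP
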