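import Pool.Agent.LieP.F03

/-!
# MP_6c3636_al, LieP, module F05: simple roots (7.4) (helper7)

Section 7, (7.4). `inner_nonpos`: suppose `⟨a,b⟩ > 0`; `β = rfn a b = b - 2⟨a,b⟩ a` is positive (`rfn_ps`); at the point `y` of `b` (`⟨b,y⟩ = 0`, the other positive roots
positive): `0 ≤ ⟨β,y⟩ = -2⟨a,b⟩⟨a,y⟩ < 0`. `lin_indep`: a relation gives `v = ∑_I c_s s = ∑_I' c_t t` with positive coefficients, disjoint `I`, `I'`; `⟨v,v⟩ ≤ 0`, so `v = 0`, `⟨v,x⟩ > 0` if `I` is not empty.
`card_S`: linear independence. `exists_point`: a linear form on the span / the Gram matrix is invertible.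
-/

namespace LieP

noncomputable section

open Classical

variable {E : Type} [NormedAddCommGroup E] [InnerProductSpace ℝ E] [FiniteDimensional ℝ E]

variable (Q : RG E)

omit [FiniteDimensional ℝ E] in
private theorem S_sub_ps {a : E} (ha : a ∈ Q.S) : a ∈ ps Q.Psi Q.x := (Finset.mem_filter.1 ha).1

private theorem S_unit {a : E} (ha : a ∈ Q.S) : ‖a‖ = 1 :=
  Q.unit a (Finset.mem_filter.1 (S_sub_ps Q ha)).1

private theorem S_pos {a : E} (ha : a ∈ Q.S) : 0 < inner ℝ a Q.x :=
  (Finset.mem_filter.1 (S_sub_ps Q ha)).2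

theorem inner_nonpos {a b : E} (ha : a ∈ Q.S) (hb : b ∈ Q.S) (hne : a ≠ b) : inner ℝ a b ≤ 0 := by
  by_contra hpos
  have hpos : 0 < inner ℝ a b := not_le.1 hpos
  obtain ⟨y, hy0, hy⟩ := (Finset.mem_filter.1 hb).2
  have hay : 0 < inner ℝ a y := hy a (S_sub_ps Q ha) hne
  have hβ : rfn a b ∈ ps Q.Psi Q.x := rfn_ps Q ha (S_sub_ps Q hb) (Ne.symm hne)
  have hval : rfn a b = b - (2 * inner ℝ a b) • a := rfn_apply (S_unit Q ha) b
  have hβne : rfn a b ≠ b := by
    intro h
    rw [hval, sub_eq_self] at h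
    rcases smul_eq_zero.1 h with h1 | h1
    · linarith
    · have := S_unit Q ha
      rw [h1, norm_zero] at this
      exact zero_ne_one this
  have h1 := hy _ hβ hβne
  rw [hval, inner_sub_left, hy0, inner_smul_left] at h1
  have h2 : (0 : ℝ) < 2 * inner ℝ a b * inner ℝ a y := by positivity
  simp only [conj_trivial] at h1
  linarith

theorem lin_indep : LinearIndependent ℝ (fun a : Q.S => (a : E)) := by
  rw [Fintype.linearIndependent_iff]
  intro g hg
  have key : ∀ p m : Q.S → ℝ, (∀ i, 0 ≤ p i) → (∀ i, 0 ≤ m i) → (∀ i, p i * m i = 0) →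
      (∑ i, p i • (i : E)) = ∑ i, m i • (i : E) → ∀ i, p i = 0 := by
    intro p m hp hm hpm hv
    have h1 : inner ℝ (∑ i, p i • (i : E)) (∑ i, p i • (i : E)) ≤ 0 := by
      conv_lhs => rw [hv]
      rw [← hv]
      nth_rewrite 2 [hv]
      rw [sum_inner]
      refine Finset.sum_nonpos fun i _ => ?_
      rw [inner_sum]
      refine Finset.sum_nonpos fun j _ => ?_
      rw [inner_smul_left, inner_smul_right, conj_trivial, ← mul_assoc]
      by_cases hij : i = j
      · subst hij
        rw [hpm, zero_mul]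
      · exact mul_nonpos_of_nonneg_of_nonpos (mul_nonneg (hp i) (hm j))
          (inner_nonpos Q i.2 j.2 fun h => hij (Subtype.ext h))
    have h2 : (∑ i, p i • (i : E)) = 0 := by
      exact real_inner_self_nonpos.1 h1
    have h3 : ∑ i, p i * inner ℝ (i : E) Q.x = 0 := by
      have : inner ℝ (∑ i, p i • (i : E)) Q.x = 0 := by rw [h2, inner_zero_left]
      rw [sum_inner] at this
      simpa [inner_smul_left] using this
    intro i
    have h4 := (Finset.sum_eq_zero_iff_of_nonneg
      (fun i _ => mul_nonneg (hp i) (S_pos Q i.2).le)).1 h3 i (Finset.mem_univ i)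
    rcases mul_eq_zero.1 h4 with h | h
    · exact h
    · exact absurd h (S_pos Q i.2).ne'
  have hsub : (∑ i, max (g i) 0 • (i : E)) = ∑ i, max (-g i) 0 • (i : E) := by
    rw [← sub_eq_zero, ← Finset.sum_sub_distrib]
    rw [← hg]
    refine Finset.sum_congr rfl fun i _ => ?_
    rw [← sub_smul]
    congr 1
    rcases le_total (g i) 0 with h | h
    · rw [max_eq_right h, max_eq_left (by linarith)]; ring
    · rw [max_eq_left h, max_eq_right (by linarith)]; ring
  have hpm : ∀ i : Q.S, max (g i) 0 * max (-g i) 0 = 0 := by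
    intro i
    rcases le_total (g i) 0 with h | h
    · rw [max_eq_right h, zero_mul]
    · rw [max_eq_right (show -g i ≤ 0 by linarith), mul_zero]
  have hA := key (fun i => max (g i) 0) (fun i => max (-g i) 0) (fun i => le_max_right _ _)
    (fun i => le_max_right _ _) hpm hsub
  have hB := key (fun i => max (-g i) 0) (fun i => max (g i) 0) (fun i => le_max_right _ _)
    (fun i => le_max_right _ _) (fun i => by rw [mul_comm]; exact hpm i) hsub.symm
  intro i
  have h1 : g i ≤ 0 := by
    have : max (g i) 0 = 0 := hA i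
    rw [← this]; exact le_max_left _ _
  have h2 : -g i ≤ 0 := by
    have : max (-g i) 0 = 0 := hB i
    rw [← this]; exact le_max_left _ _
  linarith

theorem card_S : Q.S.card ≤ Module.finrank ℝ E := by
  have := (lin_indep Q).fintype_card_le_finrank
  rwa [Fintype.card_coe] at this

theorem exists_point (v : E → ℝ) :
    ∃ y : E, (∀ a ∈ Q.S, inner ℝ a y = v a) ∧ y ∈ Submodule.span ℝ (Q.S : Set E) := by
  set K := Submodule.span ℝ (Q.S : Set E) with hK
  have hli := lin_indep Q
  obtain ⟨f, hf⟩ : ∃ f : E →ₗ[ℝ] ℝ, ∀ a ∈ Q.S, f a = v a := by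
    let b := Module.Basis.extend (K := ℝ) (s := (Q.S : Set E)) (by exact hli)
    refine ⟨b.constr ℝ (fun i => v i), fun a ha => ?_⟩
    have hmem : a ∈ LinearIndepOn.extend (K := ℝ) (v := id) (s := (Q.S : Set E)) (by exact hli)
        (Set.subset_univ _) :=
      LinearIndepOn.subset_extend _ _ (by exact_mod_cast ha)
    have := b.constr_basis ℝ (fun i => v i) ⟨a, hmem⟩
    rw [Module.Basis.extend_apply_self] at this
    exact this
  let F : StrongDual ℝ E := f.toContinuousLinearMap
  let y' := (InnerProductSpace.toDual ℝ E).symm F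
  have hy' : ∀ z, inner ℝ z y' = f z := by
    intro z
    rw [real_inner_comm]
    exact InnerProductSpace.toDual_symm_apply
  refine ⟨K.starProjection y', fun a ha => ?_, K.starProjection_apply_mem y'⟩
  have haK : a ∈ K := Submodule.subset_span ha
  have h1 : inner ℝ a (y' - K.starProjection y') = 0 :=
    (Submodule.mem_orthogonal K _).1 (K.sub_starProjection_mem_orthogonal y') a haK
  rw [inner_sub_right, hy', hf a ha] at h1
  linarith

end

end LieP
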