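import Pool.Agent.LieP.F04
import Pool.Agent.LieP.F05

/-!
# MP_6c3636_al, LieP, module F06: fundamental domain, stabilizers (7.5), (7.6) (helper7)

Section 7, (7.5), (7.6). `exists_mem_Cb`: maximise `⟨x, w y⟩` over `w ∈ W` (finite): `⟨x, w y⟩ ≥ ⟨x, rfn a w y⟩ = ⟨x, w y⟩ - 2⟨a, w y⟩⟨a, x⟩` gives `⟨a, w y⟩ ≥ 0` for all positive roots.
`Cb_fix`: induction on `len w` (`rg_ind` form): if `w ≠ 1` choose `a ∈ ds w`; `⟨a, w y⟩ ≥ 0` as `w y ∈ Cb`, and `⟨a, w y⟩ = ⟨w⁻¹ a, y⟩ ≤ 0` as `w⁻¹ a` is negative (`⟨w⁻¹ a, x⟩ = ⟨a, w x⟩ < 0`), so it is `0`, `rfn a w y = w y`.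
`stab_iff`: the same induction. `iv_stab`: for `u y = y`: `y + δ x` is in the open chamber, `u (y + δ x) = y + δ u x`, so the inversions of `u` vanish at `y`.
`iv_min`: `y + δ w x` is positive on the simple roots for small `δ > 0`: for `a ∈ J`: `⟨a, w x⟩ > 0`, for the other simple roots `⟨a,y⟩ > 0`. So it is in the open chamber (`mem_C`).
For `J ⊆ S` there is `y ∈ Cb` with `Q.J y = J` (`exists_point`).
-/

namespace LieP

noncomputable section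

open Classical

variable {E : Type} [NormedAddCommGroup E] [InnerProductSpace ℝ E] [FiniteDimensional ℝ E]

variable (Q : RG E)

namespace F06_aux

theorem ps_mem {a : E} (ha : a ∈ ps Q.Psi Q.x) : a ∈ Q.Psi := (Finset.mem_filter.1 ha).1

theorem ps_pos {a : E} (ha : a ∈ ps Q.Psi Q.x) : 0 < inner ℝ a Q.x := (Finset.mem_filter.1 ha).2

theorem S_ps {a : E} (ha : a ∈ Q.S) : a ∈ ps Q.Psi Q.x := (Finset.mem_filter.1 ha).1

theorem iv_ps {w : E ≃ₗᵢ[ℝ] E} {a : E} (ha : a ∈ iv Q.Psi Q.x w) : a ∈ ps Q.Psi Q.x :=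
  (Finset.mem_filter.1 ha).1

theorem iv_neg {w : E ≃ₗᵢ[ℝ] E} {a : E} (ha : a ∈ iv Q.Psi Q.x w) : inner ℝ a (w Q.x) < 0 :=
  (Finset.mem_filter.1 ha).2

theorem mem_iv {w : E ≃ₗᵢ[ℝ] E} {a : E} (h : a ∈ ps Q.Psi Q.x) (h' : inner ℝ a (w Q.x) < 0) :
    a ∈ iv Q.Psi Q.x w := Finset.mem_filter.2 ⟨h, h'⟩

theorem ds_S {w : E ≃ₗᵢ[ℝ] E} {a : E} (ha : a ∈ ds Q.Psi Q.x w) : a ∈ Q.S :=
  (Finset.mem_filter.1 ha).1

theorem ds_neg {w : E ≃ₗᵢ[ℝ] E} {a : E} (ha : a ∈ ds Q.Psi Q.x w) : inner ℝ a (w Q.x) < 0 :=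
  (Finset.mem_filter.1 ha).2

theorem ds_iv {w : E ≃ₗᵢ[ℝ] E} {a : E} (ha : a ∈ ds Q.Psi Q.x w) : a ∈ iv Q.Psi Q.x w :=
  mem_iv Q (S_ps Q (ds_S Q ha)) (ds_neg Q ha)

theorem mem_J {y a : E} : a ∈ Q.J y ↔ a ∈ Q.S ∧ inner ℝ a y = 0 := Finset.mem_filter

/-- the scalar product of a root with an image of the base point is not zero -/
theorem ne_zero {w : E ≃ₗᵢ[ℝ] E} (hw : w ∈ Q.W) {a : E} (ha : a ∈ Q.Psi) :
    inner ℝ a (w Q.x) ≠ 0 := by
  rw [inner_act]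
  exact Q.reg _ (Q.stab _ (Q.W.inv_mem hw) _ ha)

/-- an inversion of `w` is not positive on `w y` for `y` in the closed chamber -/
theorem neg_le {y : E} (hy : y ∈ Q.Cb) {w : E ≃ₗᵢ[ℝ] E} (hw : w ∈ Q.W) {a : E}
    (ha : a ∈ iv Q.Psi Q.x w) : inner ℝ a (w y) ≤ 0 := by
  have h1 : -(w⁻¹ a) ∈ ps Q.Psi Q.x := by
    refine Finset.mem_filter.2 ⟨Q.neg _ (Q.stab _ (Q.W.inv_mem hw) _ (ps_mem Q (iv_ps Q ha))), ?_⟩
    rw [inner_neg_left, ← inner_act]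
    have := iv_neg Q ha
    linarith
  have h2 := hy _ h1
  rw [inner_neg_left, ← inner_act] at h2
  linarith

/-- an inversion of `w` vanishes on `w y` for `y` and `w y` in the closed chamber -/
theorem eq_zero {y : E} (hy : y ∈ Q.Cb) {w : E ≃ₗᵢ[ℝ] E} (hw : w ∈ Q.W) (h : w y ∈ Q.Cb) {a : E}
    (ha : a ∈ iv Q.Psi Q.x w) : inner ℝ a (w y) = 0 :=
  le_antisymm (neg_le Q hy hw ha) (h _ (iv_ps Q ha))

theorem S_unit {a : E} (ha : a ∈ Q.S) : ‖a‖ = 1 := Q.unit _ (ps_mem Q (S_ps Q ha))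

theorem rfn_W {a : E} (ha : a ∈ Q.S) : rfn a ∈ Q.W := Q.rf _ (ps_mem Q (S_ps Q ha))

/-- the step of both inductions -/
theorem step {y : E} (hy : y ∈ Q.Cb) {a : E} (ha : a ∈ Q.S) {w : E ≃ₗᵢ[ℝ] E} (hw : w ∈ Q.W)
    (hd : a ∉ ds Q.Psi Q.x w) (h : (rfn a * w) y ∈ Q.Cb) :
    inner ℝ a (w y) = 0 ∧ (rfn a * w) y = w y := by
  have h1 : a ∈ ds Q.Psi Q.x (rfn a * w) := (ds_rfn_mul Q ha hw).2 hd
  have h2 := eq_zero Q hy (Q.W.mul_mem (rfn_W Q ha) hw) h (ds_iv Q h1)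
  have h3 : (rfn a * w) y = rfn a (w y) := rfl
  have h4 : inner ℝ a (w y) = 0 := by
    rw [h3, rfn_inner, rfn_self (S_unit Q ha), inner_neg_left] at h2
    linarith
  exact ⟨h4, by rw [h3, rfn_fix (S_unit Q ha) h4]⟩

/-- lengths of reduced products -/
theorem len_mul {u w : E ≃ₗᵢ[ℝ] E} (hu : u ∈ Q.W) (hw : w ∈ Q.W)
    (h : Disjoint (iv Q.Psi Q.x u⁻¹) (iv Q.Psi Q.x w)) :
    Q.len (u * w) = Q.len u + Q.len w := by
  have hps : ∀ b ∈ iv Q.Psi Q.x w, u b ∈ ps Q.Psi Q.x := by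
    intro b hb
    have hb1 : b ∉ iv Q.Psi Q.x u⁻¹ := fun h' => (Finset.disjoint_left.1 h) h' hb
    have hb2 : inner ℝ b (u⁻¹ Q.x) ≠ 0 := ne_zero Q (Q.W.inv_mem hu) (ps_mem Q (iv_ps Q hb))
    have hb3 : ¬ inner ℝ b (u⁻¹ Q.x) < 0 := fun h' => hb1 (mem_iv Q (iv_ps Q hb) h')
    have hb4 : 0 < inner ℝ b (u⁻¹ Q.x) := lt_of_le_of_ne (not_lt.1 hb3) (Ne.symm hb2)
    rw [inner_act, inv_inv] at hb4
    exact Finset.mem_filter.2 ⟨Q.stab _ hu _ (ps_mem Q (iv_ps Q hb)), hb4⟩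
  have hin : ∀ b : E, inner ℝ (u b) ((u * w) Q.x) = inner ℝ b (w Q.x) := by
    intro b
    have : (u * w) Q.x = u (w Q.x) := rfl
    rw [this, LinearIsometryEquiv.inner_map_map]
  have h1 : iv Q.Psi Q.x (u * w) = iv Q.Psi Q.x u ∪ (iv Q.Psi Q.x w).image u := by
    ext a
    rw [Finset.mem_union, Finset.mem_image]
    constructor
    · intro ha
      have hap := iv_ps Q ha
      have han := iv_neg Q ha
      by_cases hau : a ∈ iv Q.Psi Q.x u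
      · exact Or.inl hau
      · right
        have h2 : u (u⁻¹ a) = a := by
          have : u (u⁻¹ a) = (u * u⁻¹) a := rfl
          rw [this, mul_inv_cancel]
          rfl
        refine ⟨u⁻¹ a, ?_, h2⟩
        have h3 : ¬ inner ℝ a (u Q.x) < 0 := fun h' => hau (mem_iv Q hap h')
        have h4 : 0 < inner ℝ a (u Q.x) :=
          lt_of_le_of_ne (not_lt.1 h3) (Ne.symm (ne_zero Q hu (ps_mem Q hap)))
        rw [inner_act] at h4
        refine mem_iv Q (Finset.mem_filter.2 ⟨Q.stab _ (Q.W.inv_mem hu) _ (ps_mem Q hap), h4⟩) ?_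
        rw [← hin, h2]
        exact han
    · rintro (ha | ⟨b, hb, rfl⟩)
      · have hap := iv_ps Q ha
        have h2 : -(u⁻¹ a) ∈ iv Q.Psi Q.x u⁻¹ := by
          rw [iv_inv Q hu]
          exact Finset.mem_image_of_mem (fun a => -(u⁻¹ a)) ha
        have h3 : -(u⁻¹ a) ∉ iv Q.Psi Q.x w := fun h' => (Finset.disjoint_left.1 h) h2 h'
        have h4 : ¬ inner ℝ (-(u⁻¹ a)) (w Q.x) < 0 := fun h' => h3 (mem_iv Q (iv_ps Q h2) h')
        have h5 : 0 < inner ℝ (-(u⁻¹ a)) (w Q.x) :=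
          lt_of_le_of_ne (not_lt.1 h4) (Ne.symm (ne_zero Q hw (ps_mem Q (iv_ps Q h2))))
        refine mem_iv Q hap ?_
        have h6 : (u * w) Q.x = u (w Q.x) := rfl
        rw [inner_neg_left, ← inner_act] at h5
        rw [h6]
        linarith
      · refine mem_iv Q (hps b hb) ?_
        rw [hin]
        exact iv_neg Q hb
  have h2 : Disjoint (iv Q.Psi Q.x u) ((iv Q.Psi Q.x w).image u) := by
    rw [Finset.disjoint_left]
    intro a ha ha'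
    obtain ⟨b, hb, rfl⟩ := Finset.mem_image.1 ha'
    have h3 := iv_neg Q ha
    rw [LinearIsometryEquiv.inner_map_map] at h3
    have h4 := ps_pos Q (iv_ps Q hb)
    linarith
  show (iv Q.Psi Q.x (u * w)).card = (iv Q.Psi Q.x u).card + (iv Q.Psi Q.x w).card
  rw [h1, Finset.card_union_of_disjoint h2, Finset.card_image_of_injective _ u.injective]

end F06_aux

open F06_aux

theorem exists_mem_Cb (y : E) : ∃ w ∈ Q.W, w y ∈ Q.Cb := by
  haveI := Q.fin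
  obtain ⟨w, hw⟩ := Finite.exists_max (fun w : Q.W => inner ℝ Q.x ((w : E ≃ₗᵢ[ℝ] E) y))
  refine ⟨w, w.2, ?_⟩
  intro a ha
  have h1 := hw ⟨rfn a * w, Q.W.mul_mem (Q.rf a (ps_mem Q ha)) w.2⟩
  have h2 : ((rfn a * (w : E ≃ₗᵢ[ℝ] E)) y) = rfn a ((w : E ≃ₗᵢ[ℝ] E) y) := rfl
  simp only at h1
  rw [h2, rfn_apply (Q.unit a (ps_mem Q ha)), inner_sub_right, inner_smul_right,
    real_inner_comm a Q.x] at h1
  have h3 := ps_pos Q ha
  by_contra hneg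
  have h4 : inner ℝ a ((w : E ≃ₗᵢ[ℝ] E) y) < 0 := not_le.1 hneg
  nlinarith [mul_pos_of_neg_of_neg h4 (neg_lt_zero.2 h3)]

theorem Cb_fix {y : E} (hy : y ∈ Q.Cb) {w : E ≃ₗᵢ[ℝ] E} (hw : w ∈ Q.W) (h : w y ∈ Q.Cb) : w y = y := by
  have key : ∀ w ∈ Q.W, w y ∈ Q.Cb → w y = y := by
    intro w hw
    refine rg_ind Q (p := fun w => w y ∈ Q.Cb → w y = y) (fun _ => rfl) ?_ hw
    intro a ha w hw hd ih h
    obtain ⟨_, h2⟩ := step Q hy ha hw hd h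
    rw [h2] at h ⊢
    exact ih h
  exact key w hw h

theorem wj_le {J : Finset E} (hJ : J ⊆ Q.S) : wj J ≤ Q.W := by
  unfold wj
  rw [Subgroup.closure_le]
  rintro _ ⟨a, ha, rfl⟩
  exact rfn_W Q (hJ ha)

theorem stab_iff {y : E} (hy : y ∈ Q.Cb) {w : E ≃ₗᵢ[ℝ] E} : (w ∈ Q.W ∧ w y = y) ↔ w ∈ wj (Q.J y) := by
  constructor
  · rintro ⟨hw, h⟩
    revert h
    refine rg_ind Q (p := fun w => w y = y → w ∈ wj (Q.J y)) (fun _ => Subgroup.one_mem _) ?_ hw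
    intro a ha w hw hd ih h
    have hC : (rfn a * w) y ∈ Q.Cb := by rw [h]; exact hy
    obtain ⟨h1, h2⟩ := step Q hy ha hw hd hC
    have h3 : w y = y := by rw [← h2, h]
    rw [h3] at h1
    exact Subgroup.mul_mem _ (Subgroup.subset_closure ⟨a, (mem_J Q).2 ⟨ha, h1⟩, rfl⟩) (ih h3)
  · intro h
    refine ⟨wj_le Q (Finset.filter_subset _ _) h, ?_⟩
    unfold wj at h
    induction h using Subgroup.closure_induction with
    | mem u hu =>
      obtain ⟨a, ha, rfl⟩ := hu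
      have ha' := (mem_J Q).1 ha
      exact rfn_fix (S_unit Q ha'.1) ha'.2
    | one => rfl
    | mul u v _ _ h1 h2 =>
      have : (u * v) y = u (v y) := rfl
      rw [this, h2, h1]
    | inv u _ h1 =>
      have : u⁻¹ (u y) = (u⁻¹ * u) y := rfl
      calc u⁻¹ y = u⁻¹ (u y) := by rw [h1]
        _ = y := by rw [this, inv_mul_cancel]; rfl

theorem exists_J {J : Finset E} (hJ : J ⊆ Q.S) : ∃ y ∈ Q.Cb, Q.J y = J := by
  obtain ⟨y, hy, -⟩ := exists_point Q (fun a => if a ∈ J then 0 else 1)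
  refine ⟨y, mem_Cb Q fun a ha => ?_, ?_⟩
  · rw [hy a ha]
    split_ifs <;> norm_num
  · ext a
    rw [mem_J]
    constructor
    · rintro ⟨ha, h⟩
      rw [hy a ha] at h
      by_contra hn
      rw [if_neg hn] at h
      exact one_ne_zero h
    · intro ha
      exact ⟨hJ ha, by rw [hy a (hJ ha), if_pos ha]⟩

theorem iv_stab {y : E} (hy : y ∈ Q.Cb) {u : E ≃ₗᵢ[ℝ] E} (hu : u ∈ wj (Q.J y)) {a : E}
    (ha : a ∈ iv Q.Psi Q.x u) : inner ℝ a y = 0 := by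
  obtain ⟨hu', h⟩ := (stab_iff Q hy).2 hu
  have h1 := eq_zero Q hy hu' (by rw [h]; exact hy) ha
  rwa [h] at h1

theorem iv_min {y : E} (hy : y ∈ Q.Cb) {w : E ≃ₗᵢ[ℝ] E} (hw : w ∈ Q.W)
    (h : Disjoint (ds Q.Psi Q.x w) (Q.J y)) {a : E} (ha : a ∈ iv Q.Psi Q.x w) : inner ℝ a y ≠ 0 := by
  intro h0
  have hev : ∀ᶠ δ : ℝ in nhdsWithin 0 (Set.Ioi 0), ∀ b ∈ Q.S, 0 < inner ℝ b (y + δ • w Q.x) := by
    rw [Filter.eventually_all_finset]
    intro b hb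
    by_cases hby : inner ℝ b y = 0
    · have hbd : b ∉ ds Q.Psi Q.x w := fun h' =>
        (Finset.disjoint_left.1 h) h' ((mem_J Q).2 ⟨hb, hby⟩)
      have h1 : ¬ inner ℝ b (w Q.x) < 0 := fun h' => hbd (Finset.mem_filter.2 ⟨hb, h'⟩)
      have h2 : 0 < inner ℝ b (w Q.x) :=
        lt_of_le_of_ne (not_lt.1 h1) (Ne.symm (ne_zero Q hw (ps_mem Q (S_ps Q hb))))
      filter_upwards [self_mem_nhdsWithin] with δ hδ
      rw [inner_add_right, inner_smul_right, hby, zero_add]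
      exact mul_pos hδ h2
    · have h1 : 0 < inner ℝ b y := lt_of_le_of_ne (hy b (S_ps Q hb)) (Ne.symm hby)
      have hc : Continuous fun δ : ℝ => inner ℝ b (y + δ • w Q.x) := by fun_prop
      have ht : Filter.Tendsto (fun δ : ℝ => inner ℝ b (y + δ • w Q.x)) (nhds 0)
          (nhds (inner ℝ b y)) := by
        have := hc.tendsto 0
        rwa [zero_smul, add_zero] at this
      exact (ht.eventually (lt_mem_nhds h1)).filter_mono nhdsWithin_le_nhds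
  obtain ⟨δ, hδ, hδ0⟩ := (hev.and self_mem_nhdsWithin).exists
  have h1 := mem_C Q hδ a (iv_ps Q ha)
  rw [inner_add_right, inner_smul_right, h0, zero_add] at h1
  have h2 := iv_neg Q ha
  have h3 : (0 : ℝ) < δ := hδ0
  nlinarith [mul_pos h3 (neg_pos.2 h2)]

theorem disj_min {J : Finset E} (hJ : J ⊆ Q.S) {u w : E ≃ₗᵢ[ℝ] E} (hu : u ∈ wj J) (hw : w ∈ Q.W)
    (h : Disjoint (ds Q.Psi Q.x w) J) : Disjoint (iv Q.Psi Q.x u⁻¹) (iv Q.Psi Q.x w) ∧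
      Q.len (u * w) = Q.len u + Q.len w := by
  obtain ⟨y, hy, hyJ⟩ := exists_J Q hJ
  have h1 : Disjoint (iv Q.Psi Q.x u⁻¹) (iv Q.Psi Q.x w) := by
    rw [Finset.disjoint_left]
    intro a ha ha'
    exact iv_min Q hy hw (by rw [hyJ]; exact h) ha'
      (iv_stab Q hy (by rw [hyJ]; exact Subgroup.inv_mem _ hu) ha)
  exact ⟨h1, len_mul Q (wj_le Q hJ hu) hw h1⟩

/-- every element of `W` is `u * w` with `u ∈ W_J` and `w` without descents in `J` -/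
theorem exists_min {J : Finset E} (hJ : J ⊆ Q.S) {w : E ≃ₗᵢ[ℝ] E} (hw : w ∈ Q.W) :
    ∃ u ∈ wj J, ∃ v ∈ Q.W, w = u * v ∧ Disjoint (ds Q.Psi Q.x v) J := by
  have key : ∀ n : ℕ, ∀ w ∈ Q.W, Q.len w = n →
      ∃ u ∈ wj J, ∃ v ∈ Q.W, w = u * v ∧ Disjoint (ds Q.Psi Q.x v) J := by
    intro n
    induction n using Nat.strong_induction_on with
    | _ n ih =>
      intro w hw hn
      by_cases hd : Disjoint (ds Q.Psi Q.x w) J
      · exact ⟨1, Subgroup.one_mem _, w, hw, (one_mul _).symm, hd⟩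
      · obtain ⟨a, had, haJ⟩ := Finset.not_disjoint_iff.1 hd
        have haS := hJ haJ
        obtain ⟨-, hl⟩ := iv_mul_neg Q haS hw had
        obtain ⟨u, hu, v, hv, huv, hdv⟩ := ih (Q.len (rfn a * w)) (by omega) (rfn a * w)
          (Q.W.mul_mem (rfn_W Q haS) hw) rfl
        refine ⟨rfn a * u, Subgroup.mul_mem _ (Subgroup.subset_closure ⟨a, haJ, rfl⟩) hu, v, hv,
          ?_, hdv⟩
        rw [mul_assoc, ← huv, ← mul_assoc, rfn_mul_self, one_mul]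
  exact key _ w hw rfl

end

end LieP
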