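import Pool.Agent.LieP.F06

/-!
# MP_6c3636_al, LieP, module F07: an isometry which fixes the chamber, parity of the number of sign vectors (7.7), (7.8) (helper7)

Section 7, (7.7), (7.8). `tau`: a linear isometry which permutes the roots and maps the base point into the open chamber permutes the positive roots and the simple roots.
`exists_tau_point`: take the point of `exists_point` in the span of the simple roots with values `0` on `J`, `1` elsewhere; it is unique in the span, the span and the values are `τ`-stable, so `τ y = y`.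
`sign_parity`: induction on the number of functionals (finset `R`): if `R = insert a R'`, each fibre of the sign vectors of `R'` is a set of the same form (with more conditions), and `a` takes on
this convex, relatively open cone either one sign or all three signs (if it takes two signs it takes all three: it is linear and the set is convex and relatively open; a set `{y : 0 < ⟨b,y⟩ (b ∈ B), ⟨b,y⟩ = 0 (b ∈ B')}`
on which `a` is `≥ 0` and `0` somewhere: then `a = 0` on it).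
-/

namespace LieP

noncomputable section

open Classical

variable {E : Type} [NormedAddCommGroup E] [InnerProductSpace ℝ E] [FiniteDimensional ℝ E]

namespace F07_aux

theorem surj (Q : RG E) {τ : E ≃ₗᵢ[ℝ] E} (h1 : ∀ a ∈ Q.Psi, τ a ∈ Q.Psi) {b : E}
    (hb : b ∈ Q.Psi) : ∃ a ∈ Q.Psi, τ a = b := by
  have h2 : Q.Psi.image τ ⊆ Q.Psi := by
    intro c hc
    obtain ⟨a, ha, rfl⟩ := Finset.mem_image.mp hc
    exact h1 a ha
  have h3 : Q.Psi.image τ = Q.Psi := by
    refine Finset.eq_of_subset_of_card_le h2 ?_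
    rw [Finset.card_image_of_injective _ τ.injective]
  rw [← h3] at hb
  obtain ⟨a, ha, rfl⟩ := Finset.mem_image.mp hb
  exact ⟨a, ha, rfl⟩

theorem Psi_iff (Q : RG E) {τ : E ≃ₗᵢ[ℝ] E} (h1 : ∀ a ∈ Q.Psi, τ a ∈ Q.Psi) {a : E} :
    a ∈ Q.Psi ↔ τ a ∈ Q.Psi := by
  refine ⟨h1 a, fun h => ?_⟩
  obtain ⟨b, hb, hab⟩ := surj Q h1 h
  rwa [τ.injective hab] at hb

theorem ps_iff (Q : RG E) {τ : E ≃ₗᵢ[ℝ] E} (h1 : ∀ a ∈ Q.Psi, τ a ∈ Q.Psi) (h2 : τ Q.x ∈ Q.C)
    {a : E} : a ∈ ps Q.Psi Q.x ↔ τ a ∈ ps Q.Psi Q.x := by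
  have key : ∀ b ∈ Q.Psi, (0 < inner ℝ b (τ Q.x) ↔ 0 < inner ℝ b Q.x) := by
    intro b hb
    constructor
    · intro h
      by_contra h3
      have h4 := Q.reg b hb
      have h5 : 0 < inner ℝ (-b) Q.x := by
        rw [inner_neg_left]
        have := lt_of_le_of_ne (not_lt.mp h3) h4
        linarith
      have h6 := h2 (-b) (Finset.mem_filter.mpr ⟨Q.neg b hb, h5⟩)
      rw [inner_neg_left] at h6
      linarith
    · intro h
      exact h2 b (Finset.mem_filter.mpr ⟨hb, h⟩)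
  unfold ps
  rw [Finset.mem_filter, Finset.mem_filter]
  constructor
  · rintro ⟨h3, h4⟩
    refine ⟨h1 a h3, ?_⟩
    rw [← key _ (h1 a h3), LinearIsometryEquiv.inner_map_map]
    exact h4
  · rintro ⟨h3, h4⟩
    refine ⟨(Psi_iff Q h1).mpr h3, ?_⟩
    rw [← key _ h3, LinearIsometryEquiv.inner_map_map] at h4
    exact h4

end F07_aux

theorem tau_ps (Q : RG E) {τ : E ≃ₗᵢ[ℝ] E} (h1 : ∀ a ∈ Q.Psi, τ a ∈ Q.Psi) (h2 : τ Q.x ∈ Q.C)
    {a : E} : (a ∈ ps Q.Psi Q.x ↔ τ a ∈ ps Q.Psi Q.x) ∧ (a ∈ Q.S ↔ τ a ∈ Q.S) := by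
  refine ⟨F07_aux.ps_iff Q h1 h2, ?_⟩
  show a ∈ sm Q.Psi Q.x ↔ τ a ∈ sm Q.Psi Q.x
  unfold sm
  rw [Finset.mem_filter, Finset.mem_filter]
  constructor
  · rintro ⟨h3, y, hy, hy2⟩
    refine ⟨(F07_aux.ps_iff Q h1 h2).mp h3, τ y, ?_, ?_⟩
    · rw [LinearIsometryEquiv.inner_map_map]; exact hy
    · intro b hb hne
      obtain ⟨c, hc, rfl⟩ := F07_aux.surj Q h1 (Finset.mem_filter.mp hb).1
      rw [LinearIsometryEquiv.inner_map_map]
      exact hy2 c ((F07_aux.ps_iff Q h1 h2).mpr hb) (fun h => hne (by rw [h]))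
  · rintro ⟨h3, y, hy, hy2⟩
    refine ⟨(F07_aux.ps_iff Q h1 h2).mpr h3, τ.symm y, ?_, ?_⟩
    · rw [← LinearIsometryEquiv.inner_map_map τ, LinearIsometryEquiv.apply_symm_apply]; exact hy
    · intro b hb hne
      rw [← LinearIsometryEquiv.inner_map_map τ, LinearIsometryEquiv.apply_symm_apply]
      exact hy2 (τ b) ((F07_aux.ps_iff Q h1 h2).mp hb) (fun h => hne (τ.injective h))

theorem tau_C (Q : RG E) {τ : E ≃ₗᵢ[ℝ] E} (h1 : ∀ a ∈ Q.Psi, τ a ∈ Q.Psi) (h2 : τ Q.x ∈ Q.C)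
    {y : E} : (y ∈ Q.C ↔ τ y ∈ Q.C) ∧ (y ∈ Q.Cb ↔ τ y ∈ Q.Cb) := by
  constructor
  · constructor
    · intro h b hb
      obtain ⟨c, hc, rfl⟩ := F07_aux.surj Q h1 (Finset.mem_filter.mp hb).1
      rw [LinearIsometryEquiv.inner_map_map]
      exact h c ((F07_aux.ps_iff Q h1 h2).mpr hb)
    · intro h b hb
      rw [← LinearIsometryEquiv.inner_map_map τ]
      exact h (τ b) ((F07_aux.ps_iff Q h1 h2).mp hb)
  · constructor
    · intro h b hb
      obtain ⟨c, hc, rfl⟩ := F07_aux.surj Q h1 (Finset.mem_filter.mp hb).1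
      rw [LinearIsometryEquiv.inner_map_map]
      exact h c ((F07_aux.ps_iff Q h1 h2).mpr hb)
    · intro h b hb
      rw [← LinearIsometryEquiv.inner_map_map τ]
      exact h (τ b) ((F07_aux.ps_iff Q h1 h2).mp hb)

theorem exists_tau_point (Q : RG E) {τ : E ≃ₗᵢ[ℝ] E} (h1 : ∀ a ∈ Q.Psi, τ a ∈ Q.Psi)
    (h2 : τ Q.x ∈ Q.C) {J : Finset E} (hJ : J ⊆ Q.S) (hτ : J.image τ = J) :
    ∃ y ∈ Q.Cb, τ y = y ∧ Q.J y = J ∧ y ∈ Submodule.span ℝ (Q.S : Set E) := by
  obtain ⟨y, hy, hys⟩ := exists_point Q (fun a => if a ∈ J then 0 else 1)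
  have hJτ : ∀ a, a ∈ J ↔ τ a ∈ J := by
    intro a
    constructor
    · intro h
      rw [← hτ]
      exact Finset.mem_image_of_mem _ h
    · intro h
      rw [← hτ] at h
      obtain ⟨b, hb, hab⟩ := Finset.mem_image.mp h
      rwa [τ.injective hab] at hb
  have hval : ∀ a ∈ Q.S, inner ℝ (τ a) (τ y) = inner ℝ (τ a) y := by
    intro a ha
    rw [LinearIsometryEquiv.inner_map_map, hy a ha, hy (τ a) ((tau_ps Q h1 h2).2.mp ha)]
    by_cases h : a ∈ J
    · rw [if_pos h, if_pos ((hJτ a).mp h)]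
    · rw [if_neg h, if_neg (fun h' => h ((hJτ a).mpr h'))]
  have hsurj : ∀ b ∈ Q.S, ∃ a ∈ Q.S, τ a = b := by
    intro b hb
    obtain ⟨a, _, hab⟩ := F07_aux.surj Q h1 (Finset.mem_filter.mp (Finset.mem_filter.mp hb).1).1
    refine ⟨a, (tau_ps Q h1 h2).2.mpr (by rw [hab]; exact hb), hab⟩
  have hτy : τ y ∈ Submodule.span ℝ (Q.S : Set E) := by
    have h3 : τ y ∈ (Submodule.span ℝ (Q.S : Set E)).map (τ.toLinearEquiv : E →ₗ[ℝ] E) :=
      Submodule.mem_map.mpr ⟨y, hys, rfl⟩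
    rw [Submodule.map_span] at h3
    refine Submodule.span_mono ?_ h3
    rintro _ ⟨a, ha, rfl⟩
    exact (tau_ps Q h1 h2).2.mp ha
  have hfix : τ y = y := by
    have h3 : τ y - y ∈ Submodule.span ℝ (Q.S : Set E) := Submodule.sub_mem _ hτy hys
    have h4 : ∀ b ∈ Q.S, inner ℝ b (τ y - y) = 0 := by
      intro b hb
      obtain ⟨a, ha, rfl⟩ := hsurj b hb
      rw [inner_sub_right, hval a ha, sub_self]
    have h5 : ∀ v ∈ Submodule.span ℝ (Q.S : Set E), inner ℝ v (τ y - y) = 0 := by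
      intro v hv
      refine Submodule.span_induction (fun b hb => h4 b hb) (inner_zero_left _)
        (fun u v _ _ hu hv => by rw [inner_add_left, hu, hv, add_zero])
        (fun r v _ hv => by rw [inner_smul_left, hv, mul_zero]) hv
    have h6 := h5 _ h3
    exact sub_eq_zero.mp (inner_self_eq_zero.mp h6)
  refine ⟨y, mem_Cb Q (fun a ha => ?_), hfix, ?_, hys⟩
  · rw [hy a ha]
    split_ifs
    · exact le_rfl
    · exact zero_le_one
  · ext a
    show a ∈ Q.S.filter (fun a => inner ℝ a y = 0) ↔ a ∈ J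
    rw [Finset.mem_filter]
    constructor
    · rintro ⟨h3, h4⟩
      rw [hy a h3] at h4
      by_contra h5
      rw [if_neg h5] at h4
      exact one_ne_zero h4
    · intro h
      refine ⟨hJ h, ?_⟩
      rw [hy a (hJ h), if_pos h]

/-- the sign vector of `y` -/
def sgv (R : Finset E) (y : E) : R → SignType := fun a => SignType.sign (inner ℝ (a : E) y)

namespace F07_aux

/-- the cone -/
def cn (A B : Finset E) (V : Submodule ℝ E) : Set E :=
  {y | y ∈ V ∧ (∀ a ∈ A, 0 < inner ℝ a y) ∧ ∀ b ∈ B, inner ℝ b y = 0}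

theorem fin_sign : ∀ F : Finset SignType, F.Nonempty → (0 ∈ F → 1 ∈ F → -1 ∈ F) →
    (0 ∈ F → -1 ∈ F → 1 ∈ F) → (1 ∈ F → -1 ∈ F → 0 ∈ F) → Odd F.card := by
  decide

theorem cn_sub (A B : Finset E) (V : Submodule ℝ E) {y₀ y₁ : E} (h0 : y₀ ∈ cn A B V)
    (h1 : y₁ ∈ cn A B V) : ∃ r : ℝ, 0 < r ∧ y₀ - r • y₁ ∈ cn A B V := by
  have h2 : ∀ c ∈ A, ∀ᶠ r : ℝ in nhdsWithin 0 (Set.Ioi 0), r * inner ℝ c y₁ < inner ℝ c y₀ := by
    intro c hc
    have h3 : Filter.Tendsto (fun r : ℝ => r * inner ℝ c y₁) (nhdsWithin 0 (Set.Ioi 0))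
        (nhds (0 * inner ℝ c y₁)) := by
      refine Filter.Tendsto.mono_left ?_ nhdsWithin_le_nhds
      exact (continuous_id.mul continuous_const).tendsto 0
    rw [zero_mul] at h3
    exact h3.eventually_lt_const (h0.2.1 c hc)
  have h4 : ∀ᶠ r : ℝ in nhdsWithin 0 (Set.Ioi 0), ∀ c ∈ A, r * inner ℝ c y₁ < inner ℝ c y₀ :=
    (Filter.eventually_all_finset A).mpr h2
  obtain ⟨r, hr, hr0⟩ := (h4.and self_mem_nhdsWithin).exists
  refine ⟨r, hr0, V.sub_mem h0.1 (V.smul_mem _ h1.1), fun c hc => ?_, fun b hb => ?_⟩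
  · rw [inner_sub_right, inner_smul_right]
    have := hr c hc
    linarith
  · rw [inner_sub_right, inner_smul_right, h0.2.2 b hb, h1.2.2 b hb, mul_zero, sub_zero]

theorem one_sign (A B : Finset E) (V : Submodule ℝ E) (a : E) (h : (cn A B V).Nonempty) :
    Odd ((fun y => SignType.sign (inner ℝ a y)) '' cn A B V).ncard := by
  rw [Set.ncard_eq_toFinset_card']
  refine fin_sign _ ?_ ?_ ?_ ?_
  · obtain ⟨y, hy⟩ := h
    exact ⟨_, Set.mem_toFinset.mpr ⟨y, hy, rfl⟩⟩
  · rw [Set.mem_toFinset, Set.mem_toFinset, Set.mem_toFinset]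
    rintro ⟨y₀, h0, h0'⟩ ⟨y₁, h1, h1'⟩
    obtain ⟨r, hr, hr'⟩ := cn_sub A B V h0 h1
    refine ⟨_, hr', ?_⟩
    have e0 : inner ℝ a y₀ = 0 := sign_eq_zero_iff.mp h0'
    have e1 : 0 < inner ℝ a y₁ := sign_eq_one_iff.mp h1'
    show SignType.sign (inner ℝ a (y₀ - r • y₁)) = -1
    rw [sign_eq_neg_one_iff, inner_sub_right, inner_smul_right, e0]
    have := mul_pos hr e1
    linarith
  · rw [Set.mem_toFinset, Set.mem_toFinset, Set.mem_toFinset]
    rintro ⟨y₀, h0, h0'⟩ ⟨y₁, h1, h1'⟩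
    obtain ⟨r, hr, hr'⟩ := cn_sub A B V h0 h1
    refine ⟨_, hr', ?_⟩
    have e0 : inner ℝ a y₀ = 0 := sign_eq_zero_iff.mp h0'
    have e1 : inner ℝ a y₁ < 0 := sign_eq_neg_one_iff.mp h1'
    show SignType.sign (inner ℝ a (y₀ - r • y₁)) = 1
    rw [sign_eq_one_iff, inner_sub_right, inner_smul_right, e0]
    have := mul_neg_of_pos_of_neg hr e1
    linarith
  · rw [Set.mem_toFinset, Set.mem_toFinset, Set.mem_toFinset]
    rintro ⟨y₀, h0, h0'⟩ ⟨y₁, h1, h1'⟩
    have e0 : 0 < inner ℝ a y₀ := sign_eq_one_iff.mp h0'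
    have e1 : inner ℝ a y₁ < 0 := sign_eq_neg_one_iff.mp h1'
    refine ⟨(-inner ℝ a y₁) • y₀ + (inner ℝ a y₀) • y₁, ⟨?_, fun c hc => ?_, fun b hb => ?_⟩, ?_⟩
    · exact V.add_mem (V.smul_mem _ h0.1) (V.smul_mem _ h1.1)
    · rw [inner_add_right, inner_smul_right, inner_smul_right]
      have h2 := mul_pos (neg_pos.mpr e1) (h0.2.1 c hc)
      have h3 := mul_pos e0 (h1.2.1 c hc)
      linarith
    · rw [inner_add_right, inner_smul_right, inner_smul_right, h0.2.2 b hb, h1.2.2 b hb, mul_zero,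
        mul_zero, add_zero]
    · show SignType.sign (inner ℝ a ((-inner ℝ a y₁) • y₀ + (inner ℝ a y₀) • y₁)) = 0
      rw [sign_eq_zero_iff, inner_add_right, inner_smul_right, inner_smul_right]
      ring

theorem fibre (R A B : Finset E) (V : Submodule ℝ E) (y₀ : E) (h : y₀ ∈ cn A B V) :
    ∃ A' B' : Finset E, y₀ ∈ cn A' B' V ∧ ∀ y, y ∈ cn A' B' V ↔ y ∈ cn A B V ∧ sgv R y = sgv R y₀ := by
  refine ⟨A ∪ (R.filter (fun b => 0 < inner ℝ b y₀) ∪
    (R.filter (fun b => inner ℝ b y₀ < 0)).image (fun b => -b)),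
    B ∪ R.filter (fun b => inner ℝ b y₀ = 0), ?_⟩
  have key : ∀ y, y ∈ cn (A ∪ (R.filter (fun b => 0 < inner ℝ b y₀) ∪
    (R.filter (fun b => inner ℝ b y₀ < 0)).image (fun b => -b)))
    (B ∪ R.filter (fun b => inner ℝ b y₀ = 0)) V ↔ y ∈ cn A B V ∧ sgv R y = sgv R y₀ := by
    intro y
    constructor
    · rintro ⟨hV, hA, hB⟩
      refine ⟨⟨hV, fun a ha => hA a (Finset.mem_union_left _ ha),
        fun b hb => hB b (Finset.mem_union_left _ hb)⟩, ?_⟩
      funext b
      show SignType.sign (inner ℝ (b : E) y) = SignType.sign (inner ℝ (b : E) y₀)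
      rcases lt_trichotomy (inner ℝ (b : E) y₀) 0 with h1 | h1 | h1
      · have h2 := hA (-(b : E)) (Finset.mem_union_right _ (Finset.mem_union_right _
          (Finset.mem_image.mpr ⟨b, Finset.mem_filter.mpr ⟨b.2, h1⟩, rfl⟩)))
        rw [inner_neg_left] at h2
        rw [sign_neg h1, sign_neg (by linarith)]
      · have h2 := hB b (Finset.mem_union_right _ (Finset.mem_filter.mpr ⟨b.2, h1⟩))
        rw [h1, h2]
      · have h2 := hA b (Finset.mem_union_right _ (Finset.mem_union_left _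
          (Finset.mem_filter.mpr ⟨b.2, h1⟩)))
        rw [sign_pos h1, sign_pos h2]
    · rintro ⟨⟨hV, hA, hB⟩, hs⟩
      have hs' : ∀ b ∈ R, SignType.sign (inner ℝ b y) = SignType.sign (inner ℝ b y₀) :=
        fun b hb => congrFun hs ⟨b, hb⟩
      refine ⟨hV, fun a ha => ?_, fun b hb => ?_⟩
      · rcases Finset.mem_union.mp ha with h1 | h1
        · exact hA a h1
        rcases Finset.mem_union.mp h1 with h2 | h2
        · obtain ⟨h3, h4⟩ := Finset.mem_filter.mp h2
          have h5 := hs' a h3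
          rw [sign_pos h4] at h5
          exact sign_eq_one_iff.mp h5
        · obtain ⟨b, hb, rfl⟩ := Finset.mem_image.mp h2
          obtain ⟨h3, h4⟩ := Finset.mem_filter.mp hb
          have h5 := hs' b h3
          rw [sign_neg h4] at h5
          have h6 := sign_eq_neg_one_iff.mp h5
          rw [inner_neg_left]
          linarith
      · rcases Finset.mem_union.mp hb with h1 | h1
        · exact hB b h1
        obtain ⟨h3, h4⟩ := Finset.mem_filter.mp h1
        have h5 := hs' b h3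
        rw [h4, sign_zero] at h5
        exact sign_eq_zero_iff.mp h5
  exact ⟨(key y₀).mpr ⟨h, rfl⟩, key⟩

end F07_aux

open F07_aux in
theorem sign_parity (R A B : Finset E) (V : Submodule ℝ E)
    (h : ∃ y ∈ V, (∀ a ∈ A, 0 < inner ℝ a y) ∧ ∀ b ∈ B, inner ℝ b y = 0) :
    Odd (sgv R '' {y | y ∈ V ∧ (∀ a ∈ A, 0 < inner ℝ a y) ∧ ∀ b ∈ B, inner ℝ b y = 0}).ncard := by
  obtain ⟨y₁, h1, h2, h3⟩ := h
  have hne : y₁ ∈ cn A B V := ⟨h1, h2, h3⟩
  show Odd (sgv R '' cn A B V).ncard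
  induction R using Finset.induction_on with
  | empty =>
    have h4 : (sgv (∅ : Finset E) '' cn A B V) = {sgv ∅ y₁} := by
      refine Set.eq_singleton_iff_unique_mem.mpr ⟨⟨y₁, hne, rfl⟩, fun u _ => ?_⟩
      funext b
      exact absurd b.2 (Finset.notMem_empty _)
    rw [h4, Set.ncard_singleton]
    exact odd_one
  | insert a R ha ih =>
    rw [Set.ncard_eq_toFinset_card'] at ih ⊢
    set s := (sgv (insert a R) '' cn A B V).toFinset with hs
    set t := (sgv R '' cn A B V).toFinset with ht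
    let f : (↥(insert a R) → SignType) → (R → SignType) :=
      fun u b => u ⟨(b : E), Finset.mem_insert_of_mem b.2⟩
    have hf : ∀ y, f (sgv (insert a R) y) = sgv R y := fun y => rfl
    have hmaps : ∀ u ∈ s, f u ∈ t := by
      intro u hu
      rw [hs, Set.mem_toFinset] at hu
      obtain ⟨y, hy, rfl⟩ := hu
      rw [ht, Set.mem_toFinset]
      exact ⟨y, hy, rfl⟩
    rw [Finset.card_eq_sum_card_fiberwise hmaps]
    have hodd : ∀ σ ∈ t, Odd (s.filter (fun u => f u = σ)).card := by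
      intro σ hσ
      rw [ht, Set.mem_toFinset] at hσ
      obtain ⟨y₀, hy₀, rfl⟩ := hσ
      obtain ⟨A', B', h5, h6⟩ := fibre R A B V y₀ hy₀
      have h7 := one_sign A' B' V a ⟨y₀, h5⟩
      rw [Set.ncard_eq_toFinset_card'] at h7
      have h8 : (s.filter (fun u => f u = sgv R y₀)).card =
          ((fun y => SignType.sign (inner ℝ a y)) '' cn A' B' V).toFinset.card := by
        refine Finset.card_bij (fun u _ => u ⟨a, Finset.mem_insert_self a R⟩) ?_ ?_ ?_
        · intro u hu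
          obtain ⟨h9, h10⟩ := Finset.mem_filter.mp hu
          rw [hs, Set.mem_toFinset] at h9
          obtain ⟨y, hy, rfl⟩ := h9
          rw [Set.mem_toFinset]
          exact ⟨y, (h6 y).mpr ⟨hy, by rw [← hf]; exact h10⟩, rfl⟩
        · intro u hu v hv huv
          have hu2 := (Finset.mem_filter.mp hu).2
          have hv2 := (Finset.mem_filter.mp hv).2
          funext b
          obtain ⟨b, hb⟩ := b
          rcases Finset.mem_insert.mp hb with rfl | hb'
          · exact huv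
          · have h9 : f u ⟨b, hb'⟩ = f v ⟨b, hb'⟩ := by rw [hu2, hv2]
            exact h9
        · intro σ' hσ'
          rw [Set.mem_toFinset] at hσ'
          obtain ⟨y, hy, rfl⟩ := hσ'
          obtain ⟨h9, h10⟩ := (h6 y).mp hy
          refine ⟨sgv (insert a R) y, Finset.mem_filter.mpr ⟨?_, ?_⟩, rfl⟩
          · rw [hs, Set.mem_toFinset]
            exact ⟨y, h9, rfl⟩
          · rw [hf]; exact h10
      rw [h8]
      exact h7
    rw [Finset.odd_sum_iff_odd_card_odd, Finset.filter_true_of_mem hodd]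
    exact ih

end

end LieP
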