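import Pool.Agent.LieP.F06

/-!
# MP_6c3636_al, LieP, module F08: the reflection group of a point (7.9) (helper7)

Section 7, (7.9). For `y ∈ Cb`: the roots vanishing at `y`, the stabilizer of `y` in `W` and the base point are again data. `par_S`: a simple root of `Q` in `J y` is simple for the smaller system (same point).
Conversely let `a` be positive, `⟨a,y⟩ = 0`, and `y'` a point with `⟨a,y'⟩ = 0`, `⟨b,y'⟩ > 0` for the other positive `b` with `⟨b,y⟩ = 0`: then `y + δ y'` (small `δ`) shows that `a` is simple for `Q`.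
-/

namespace LieP

noncomputable section

open Classical

variable {E : Type} [NormedAddCommGroup E] [InnerProductSpace ℝ E] [FiniteDimensional ℝ E]

variable (Q : RG E)

namespace F08_aux

omit [FiniteDimensional ℝ E] in
/-- a small number -/
theorem exists_small (F : Finset E) (y y' : E) :
    ∃ r : ℝ, 0 < r ∧ ∀ b ∈ F, 0 < inner ℝ b y → 0 < inner ℝ b (y + r • y') := by
  induction F using Finset.induction_on with
  | empty => exact ⟨1, one_pos, fun b hb => absurd hb (Finset.notMem_empty b)⟩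
  | insert c F hc ih =>
    obtain ⟨r, hr, h⟩ := ih
    by_cases h0 : 0 < inner ℝ c y
    · obtain ⟨s, hs, hs'⟩ : ∃ s : ℝ, 0 < s ∧ ∀ t : ℝ, 0 < t → t ≤ s →
          0 < inner ℝ c y + t * inner ℝ c y' := by
        refine ⟨inner ℝ c y / (2 * (|inner ℝ c y'| + 1)), by positivity, fun t ht hts => ?_⟩
        have h2 : t * |inner ℝ c y'| ≤ inner ℝ c y / 2 := by
          have h3 : 0 ≤ |inner ℝ c y'| := abs_nonneg _
          have h4 : t * (2 * (|inner ℝ c y'| + 1)) ≤ inner ℝ c y :=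
            (le_div_iff₀ (by positivity)).1 hts
          nlinarith
        have h5 : -(t * |inner ℝ c y'|) ≤ t * inner ℝ c y' := by
          have h6 := neg_abs_le (inner ℝ c y')
          nlinarith
        linarith
      refine ⟨min r s, lt_min hr hs, fun b hb hb0 => ?_⟩
      rcases Finset.mem_insert.1 hb with rfl | hb
      · rw [inner_add_right, inner_smul_right]
        exact hs' _ (lt_min hr hs) (min_le_right _ _)
      · have h1 := h b hb hb0
        rw [inner_add_right, inner_smul_right] at h1 ⊢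
        have h2 : 0 < min r s := lt_min hr hs
        have h3 : min r s ≤ r := min_le_left _ _
        rcases le_or_gt 0 (inner ℝ b y') with h4 | h4
        · nlinarith
        · nlinarith
    · refine ⟨r, hr, fun b hb hb0 => ?_⟩
      rcases Finset.mem_insert.1 hb with rfl | hb
      · exact absurd hb0 h0
      · exact h b hb hb0

theorem iv_zero {y : E} (hy : y ∈ Q.Cb) {w : E ≃ₗᵢ[ℝ] E} (hw : w ∈ Q.W) (hwy : w y = y) {a : E}
    (ha : a ∈ iv Q.Psi Q.x w) : inner ℝ a y = 0 :=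
  iv_stab Q hy ((stab_iff Q hy).1 ⟨hw, hwy⟩) ha

end F08_aux

/-- the data of the point `y` of the closed chamber -/
def par {y : E} (hy : y ∈ Q.Cb) : RG E where
  W :=
    { carrier := {w | w ∈ Q.W ∧ w y = y}
      mul_mem' := by
        rintro a b ⟨ha, ha'⟩ ⟨hb, hb'⟩
        refine ⟨Q.W.mul_mem ha hb, ?_⟩
        show a (b y) = y
        rw [hb', ha']
      one_mem' := ⟨Q.W.one_mem, rfl⟩
      inv_mem' := by
        rintro a ⟨ha, ha'⟩
        refine ⟨Q.W.inv_mem ha, ?_⟩
        have h : a⁻¹ (a y) = y := a.symm_apply_apply y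
        show a⁻¹ y = y
        rw [ha'] at h
        exact h }
  Psi := Q.Psi.filter fun a => inner ℝ a y = 0
  x := Q.x
  fin := by
    have := Q.fin
    refine Finite.of_injective (fun w => (⟨w.1, w.2.1⟩ : Q.W)) ?_
    intro a b hab
    have h1 : a.1 = b.1 := congrArg (fun w : Q.W => w.1) hab
    exact Subtype.ext h1
  unit := fun a ha => Q.unit a (Finset.mem_filter.1 ha).1
  neg := by
    intro a ha
    obtain ⟨h1, h2⟩ := Finset.mem_filter.1 ha
    refine Finset.mem_filter.2 ⟨Q.neg a h1, ?_⟩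
    rw [inner_neg_left, h2, neg_zero]
  stab := by
    rintro w ⟨hw, hwy⟩ a ha
    obtain ⟨h1, h2⟩ := Finset.mem_filter.1 ha
    refine Finset.mem_filter.2 ⟨Q.stab w hw a h1, ?_⟩
    have h3 : inner ℝ (w a) (w y) = inner ℝ a y := w.inner_map_map a y
    rw [hwy] at h3
    rw [h3, h2]
  rf := by
    intro a ha
    obtain ⟨h1, h2⟩ := Finset.mem_filter.1 ha
    exact ⟨Q.rf a h1, rfn_fix (Q.unit a h1) h2⟩
  reg := fun a ha => Q.reg a (Finset.mem_filter.1 ha).1
  smp := by
    rintro w ⟨hw, hwy⟩ h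
    refine Q.smp w hw fun a ha hax => ?_
    by_cases h0 : inner ℝ a y = 0
    · exact h a (Finset.mem_filter.2 ⟨ha, h0⟩) hax
    · rcases lt_trichotomy (inner ℝ a (w Q.x)) 0 with h1 | h1 | h1
      · exact absurd (F08_aux.iv_zero Q hy hw hwy
          (Finset.mem_filter.2 ⟨Finset.mem_filter.2 ⟨ha, hax⟩, h1⟩)) h0
      · exfalso
        rw [inner_act] at h1
        exact Q.reg _ (Q.stab _ (Q.W.inv_mem hw) a ha) h1
      · exact h1

theorem mem_par {y : E} (hy : y ∈ Q.Cb) {w : E ≃ₗᵢ[ℝ] E} : w ∈ (par Q hy).W ↔ w ∈ Q.W ∧ w y = y :=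
  Iff.rfl

theorem par_S {y : E} (hy : y ∈ Q.Cb) :
    sm (Q.Psi.filter fun a => inner ℝ a y = 0) Q.x = Q.J y := by
  have hps : ∀ b, b ∈ ps (Q.Psi.filter fun a => inner ℝ a y = 0) Q.x ↔
      b ∈ ps Q.Psi Q.x ∧ inner ℝ b y = 0 := by
    intro b
    constructor
    · intro h
      obtain ⟨h1, h2⟩ := Finset.mem_filter.1 h
      obtain ⟨h3, h4⟩ := Finset.mem_filter.1 h1
      exact ⟨Finset.mem_filter.2 ⟨h3, h2⟩, h4⟩
    · rintro ⟨h, h4⟩
      obtain ⟨h1, h2⟩ := Finset.mem_filter.1 h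
      exact Finset.mem_filter.2 ⟨Finset.mem_filter.2 ⟨h1, h4⟩, h2⟩
  ext a
  constructor
  · intro h
    obtain ⟨h1, y', h2, h3⟩ := Finset.mem_filter.1 h
    obtain ⟨h4, h5⟩ := (hps a).1 h1
    obtain ⟨r, hr, h6⟩ := F08_aux.exists_small (ps Q.Psi Q.x) y y'
    refine Finset.mem_filter.2 ⟨Finset.mem_filter.2 ⟨h4, y + r • y', ?_, fun b hb hne => ?_⟩, h5⟩
    · rw [inner_add_right, inner_smul_right, h5, h2, mul_zero, add_zero]
    · rcases (hy b hb).lt_or_eq with h7 | h7
      · exact h6 b hb h7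
      · rw [inner_add_right, inner_smul_right, ← h7, zero_add]
        exact mul_pos hr (h3 b ((hps b).2 ⟨hb, h7.symm⟩) hne)
  · intro h
    obtain ⟨h1, h5⟩ := Finset.mem_filter.1 h
    obtain ⟨h4, y', h2, h3⟩ := Finset.mem_filter.1 h1
    exact Finset.mem_filter.2 ⟨(hps a).2 ⟨h4, h5⟩, y', h2, fun b hb hne =>
      h3 b ((hps b).1 hb).1 hne⟩

theorem par_iv {y : E} (hy : y ∈ Q.Cb) {w : E ≃ₗᵢ[ℝ] E} (hw : w ∈ Q.W) (hwy : w y = y) :
    iv (Q.Psi.filter fun a => inner ℝ a y = 0) Q.x w = iv Q.Psi Q.x w := by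
  ext a
  constructor
  · intro h
    obtain ⟨h1, h2⟩ := Finset.mem_filter.1 h
    obtain ⟨h3, h4⟩ := Finset.mem_filter.1 h1
    exact Finset.mem_filter.2 ⟨Finset.mem_filter.2 ⟨(Finset.mem_filter.1 h3).1, h4⟩, h2⟩
  · intro h
    have h0 := F08_aux.iv_zero Q hy hw hwy h
    obtain ⟨h1, h2⟩ := Finset.mem_filter.1 h
    obtain ⟨h3, h4⟩ := Finset.mem_filter.1 h1
    exact Finset.mem_filter.2 ⟨Finset.mem_filter.2 ⟨Finset.mem_filter.2 ⟨h3, h0⟩, h4⟩, h2⟩

end

end LieP
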