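import Pool.Agent.LieP.Defs2

/-!
# MP_6c3636_al, LieP, module G01: facets (helper7)

Section 1, (1.1), (1.6). All proofs are sign considerations; `-a ∈ R` for `a ∈ R` (`neg`). `cm x y = x + ε y` with a small `ε > 0` (`S.eps`: the set in its definition is not empty since `R` is finite).
`exists_small`: for each of the finitely many roots with `⟨a,x⟩ ≠ 0` a bound. `exists_gn`: a real vector space is not a finite union of proper subspaces (`Subspace.biUnion_ne_univ_of_top_notMem` or neighbours), or a point of a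
moment curve. `L_neg`, `U_eqv`, ... : `s1` with `z = 0` (`s3`, `UH`), `s2`. `U_L_disj`: `s4'` with `v = 1`, `U_neg_disj`: `s4'` with `l = 1`.
-/

namespace LieP

noncomputable section

open Classical

variable {G E : Type} [Group G] [NormedAddCommGroup E] [InnerProductSpace ℝ E]
  [FiniteDimensional ℝ E] (S : LieSys G E)

theorem le_refl (x : E) : S.le x x := fun _ _ h => h

theorem le_trans {x y z : E} (h : S.le x y) (h' : S.le y z) : S.le x z := fun a ha h0 => h' a ha (h a ha h0)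

theorem le_iff_neg {x y : E} : S.le x y ↔ ∀ a ∈ S.R, inner ℝ a x < 0 → inner ℝ a y < 0 := by
  constructor
  · intro h a ha h0
    have h1 := h (-a) (S.neg a ha) (by rw [inner_neg_left]; linarith)
    rw [inner_neg_left] at h1
    linarith
  · intro h a ha h0
    have h1 := h (-a) (S.neg a ha) (by rw [inner_neg_left]; linarith)
    rw [inner_neg_left] at h1
    linarith

theorem le_zero {x y : E} (h : S.le x y) {a : E} (ha : a ∈ S.R) (h0 : inner ℝ a y = 0) :
    inner ℝ a x = 0 := by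
  rcases lt_trichotomy (inner ℝ a x) 0 with h1 | h1 | h1
  · have h2 := (le_iff_neg S).1 h a ha h1
    rw [h0] at h2
    exact absurd h2 (lt_irrefl _)
  · exact h1
  · have h2 := h a ha h1
    rw [h0] at h2
    exact absurd h2 (lt_irrefl _)

/-- a root which is positive at `y` is nonnegative at the faces of `y` -/
theorem le_nonneg {x y : E} (h : S.le x y) {a : E} (ha : a ∈ S.R) (h0 : 0 < inner ℝ a y) :
    0 ≤ inner ℝ a x := by
  by_contra h1
  have h2 := (le_iff_neg S).1 h a ha (lt_of_not_ge h1)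
  exact absurd h2 (lt_asymm h0)

theorem le_neg {x y : E} (h : S.le x y) : S.le (-x) (-y) := by
  intro a ha h0
  rw [inner_neg_right] at h0 ⊢
  have h2 := (le_iff_neg S).1 h a ha (by linarith)
  linarith

theorem zero_le (y : E) : S.le 0 y := by
  intro a _ h0
  rw [inner_zero_right] at h0
  exact absurd h0 (lt_irrefl _)

theorem le_add_left {x y z : E} (h : S.le x z) (h' : S.le y z) : S.le x (x + y) ∧ S.le (x + y) z := by
  constructor
  · intro a ha h0
    rw [inner_add_right]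
    have h1 := le_nonneg S h' ha (h a ha h0)
    linarith
  · intro a ha h0
    rw [inner_add_right] at h0
    by_contra h1
    have h2 : ¬ 0 < inner ℝ a x := fun h3 => h1 (h a ha h3)
    have h3 : ¬ 0 < inner ℝ a y := fun h3 => h1 (h' a ha h3)
    linarith [not_lt.1 h2, not_lt.1 h3]

theorem eqv_refl (x : E) : S.eqv x x := ⟨fun _ _ h => h, fun _ _ h => h⟩

theorem eqv_symm {x y : E} (h : S.eqv x y) : S.eqv y x := ⟨h.2, h.1⟩

theorem eqv_trans {x y z : E} (h : S.eqv x y) (h' : S.eqv y z) : S.eqv x z :=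
  ⟨fun a ha h0 => h'.1 a ha (h.1 a ha h0), fun a ha h0 => h.2 a ha (h'.2 a ha h0)⟩

theorem eqv_iff {x y : E} : S.eqv x y ↔ ∀ a ∈ S.R, (0 < inner ℝ a x ↔ 0 < inner ℝ a y) := by
  exact ⟨fun h a ha => ⟨h.1 a ha, h.2 a ha⟩,
    fun h => ⟨fun a ha => (h a ha).1, fun a ha => (h a ha).2⟩⟩

theorem eqv_neg {x y : E} (h : S.eqv x y) : S.eqv (-x) (-y) := by
  exact ⟨le_neg S h.1, le_neg S h.2⟩

theorem eqv_smul {r : ℝ} (hr : 0 < r) (x : E) : S.eqv (r • x) x := by
  rw [eqv_iff]
  intro a _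
  rw [real_inner_smul_right]
  exact mul_pos_iff_of_pos_left hr

theorem gn_eqv {x y : E} (h : S.gn x) (h' : S.le x y) : S.eqv x y ∧ S.gn y := by
  have h1 : S.le y x := by
    intro a ha h0
    rcases lt_trichotomy (inner ℝ a x) 0 with h1 | h1 | h1
    · exact absurd ((le_iff_neg S).1 h' a ha h1) (lt_asymm h0)
    · exact absurd h1 (h a ha)
    · exact h1
  exact ⟨⟨h', h1⟩, fun a ha h0 => h a ha (le_zero S h' ha h0)⟩

theorem gn_neg {x : E} (h : S.gn x) : S.gn (-x) := by
  intro a ha h0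
  rw [inner_neg_right] at h0
  exact h a ha (neg_eq_zero.1 h0)

theorem exists_small (x y : E) : ∃ r0 : ℝ, 0 < r0 ∧ ∀ r : ℝ, 0 < r → r ≤ r0 → ∀ a ∈ S.R,
    (0 < inner ℝ a (x + r • y) ↔ 0 < inner ℝ a x ∨ inner ℝ a x = 0 ∧ 0 < inner ℝ a y) := by
  have key : ∀ a ∈ S.R, ∀ᶠ r : ℝ in nhdsWithin 0 (Set.Ioi 0),
      (0 < inner ℝ a (x + r • y) ↔ 0 < inner ℝ a x ∨ inner ℝ a x = 0 ∧ 0 < inner ℝ a y) := by
    intro a _
    have hc : Filter.Tendsto (fun r : ℝ => inner ℝ a (x + r • y)) (nhdsWithin 0 (Set.Ioi 0))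
        (nhds (inner ℝ a x)) := by
      have h1 : Continuous fun r : ℝ => inner ℝ a (x + r • y) := by fun_prop
      have h2 := h1.tendsto 0
      simp only [zero_smul, add_zero] at h2
      exact h2.mono_left nhdsWithin_le_nhds
    rcases lt_trichotomy (inner ℝ a x) 0 with h1 | h1 | h1
    · filter_upwards [hc.eventually (gt_mem_nhds h1)] with r hr
      exact iff_of_false (lt_asymm hr)
        (by rintro (h | h); exacts [lt_asymm h1 h, h1.ne h.1])
    · filter_upwards [self_mem_nhdsWithin] with r hr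
      rw [inner_add_right, real_inner_smul_right, h1, zero_add, mul_pos_iff_of_pos_left hr]
      exact ⟨fun h => Or.inr ⟨rfl, h⟩, fun h => h.elim (fun h => absurd h (lt_irrefl _)) And.right⟩
    · filter_upwards [hc.eventually (lt_mem_nhds h1)] with r hr
      exact iff_of_true hr (Or.inl h1)
  have h2 := (Filter.eventually_all_finset S.R).2 key
  obtain ⟨u, hu, hs⟩ := mem_nhdsGT_iff_exists_Ioc_subset.1 h2
  exact ⟨u, hu, fun r h0 h1 a ha => hs ⟨h0, h1⟩ a ha⟩

namespace G01_aux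

theorem eps_spec (x y : E) : ∀ a ∈ S.R, 0 < inner ℝ a x → 0 < inner ℝ a (x + S.eps x y • y) := by
  have h : ∃ r : ℝ, 0 < r ∧ ∀ a ∈ S.R, (0 < inner ℝ a x → 0 < inner ℝ a (x + r • y)) := by
    obtain ⟨r0, h0, h1⟩ := exists_small S x y
    exact ⟨r0, h0, fun a ha h2 => (h1 r0 h0 (_root_.le_refl _) a ha).2 (Or.inl h2)⟩
  unfold LieSys.eps
  rw [dif_pos h]
  exact h.choose_spec.2

end G01_aux

theorem eps_pos (x y : E) : 0 < S.eps x y := by
  unfold LieSys.eps
  split_ifs with h
  · exact h.choose_spec.1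
  · exact one_pos

theorem cm_pos {x y a : E} (ha : a ∈ S.R) :
    0 < inner ℝ a (S.cm x y) ↔ 0 < inner ℝ a x ∨ inner ℝ a x = 0 ∧ 0 < inner ℝ a y := by
  have h1 := G01_aux.eps_spec S x y
  have h2 := eps_pos S x y
  unfold LieSys.cm
  rcases lt_trichotomy (inner ℝ a x) 0 with h3 | h3 | h3
  · have h4 := h1 (-a) (S.neg a ha) (by rw [inner_neg_left]; linarith)
    rw [inner_neg_left] at h4
    exact iff_of_false (by linarith)
      (by rintro (h | h); exacts [lt_asymm h3 h, h3.ne h.1])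
  · rw [inner_add_right, real_inner_smul_right, h3, zero_add, mul_pos_iff_of_pos_left h2]
    exact ⟨fun h => Or.inr ⟨rfl, h⟩, fun h => h.elim (fun h => absurd h (lt_irrefl _)) And.right⟩
  · exact iff_of_true (h1 a ha h3) (Or.inl h3)

theorem cm_zero {x y a : E} (ha : a ∈ S.R) :
    inner ℝ a (S.cm x y) = 0 ↔ inner ℝ a x = 0 ∧ inner ℝ a y = 0 := by
  have h1 := G01_aux.eps_spec S x y
  have h2 := eps_pos S x y
  unfold LieSys.cm
  rcases lt_trichotomy (inner ℝ a x) 0 with h3 | h3 | h3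
  · have h4 := h1 (-a) (S.neg a ha) (by rw [inner_neg_left]; linarith)
    rw [inner_neg_left] at h4
    exact iff_of_false (by linarith) (fun h => h3.ne h.1)
  · rw [inner_add_right, real_inner_smul_right, h3, zero_add, mul_eq_zero]
    exact ⟨fun h => ⟨rfl, h.resolve_left h2.ne'⟩, fun h => Or.inr h.2⟩
  · exact iff_of_false (h1 a ha h3).ne' (fun h => h3.ne' h.1)

theorem le_cm (x y : E) : S.le x (S.cm x y) := by
  intro a ha h0
  exact (cm_pos S ha).2 (Or.inl h0)

theorem cm_mono {x y y' : E} (h : S.le y y') : S.le (S.cm x y) (S.cm x y') := by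
  intro a ha h0
  rw [cm_pos S ha] at h0 ⊢
  exact h0.imp id fun h1 => ⟨h1.1, h a ha h1.2⟩

theorem cm_eqv {x y : E} (h : S.le x y) : S.eqv (S.cm x y) y := by
  rw [eqv_iff]
  intro a ha
  rw [cm_pos S ha]
  constructor
  · rintro (h0 | h0)
    · exact h a ha h0
    · exact h0.2
  · intro h0
    rcases (le_nonneg S h ha h0).lt_or_eq with h1 | h1
    · exact Or.inl h1
    · exact Or.inr ⟨h1.symm, h0⟩

theorem cm_congr {x x' y y' : E} (h : S.eqv x x') (h' : S.eqv y y') : S.eqv (S.cm x y) (S.cm x' y') := by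
  rw [eqv_iff]
  intro a ha
  rw [cm_pos S ha, cm_pos S ha, (eqv_iff S).1 h a ha, (eqv_iff S).1 h' a ha]
  have h1 : inner ℝ a x = 0 ↔ inner ℝ a x' = 0 :=
    ⟨fun h0 => le_zero S h.2 ha h0, fun h0 => le_zero S h.1 ha h0⟩
  rw [h1]

theorem cm_gn {x y : E} (h : S.gn y) : S.gn (S.cm x y) := by
  intro a ha h0
  exact h a ha ((cm_zero S ha).1 h0).2

theorem exists_gn : ∃ z, S.gn z := by
  have key : ∀ F : Finset E, (∀ a ∈ F, a ≠ 0) → ∃ z : E, ∀ a ∈ F, inner ℝ a z ≠ 0 := by
    intro F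
    induction F using Finset.induction_on with
    | empty => exact fun _ => ⟨0, fun a ha => absurd ha (Finset.notMem_empty a)⟩
    | insert a F _ ih =>
      intro hF
      obtain ⟨z, hz⟩ := ih fun b hb => hF b (Finset.mem_insert_of_mem hb)
      by_cases h0 : inner ℝ a z = 0
      · have ev : ∀ b ∈ F, ∀ᶠ r : ℝ in nhdsWithin 0 (Set.Ioi 0), inner ℝ b (z + r • a) ≠ 0 := by
          intro b hb
          have h1 : Continuous fun r : ℝ => inner ℝ b (z + r • a) := by fun_prop
          have h2 := h1.tendsto 0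
          simp only [zero_smul, add_zero] at h2
          exact (h2.mono_left nhdsWithin_le_nhds).eventually_ne (hz b hb)
        have h2 := (Filter.eventually_all_finset F).2 ev
        obtain ⟨r, hr, hr0⟩ := (h2.and self_mem_nhdsWithin).exists
        refine ⟨z + r • a, fun b hb => ?_⟩
        rcases Finset.mem_insert.1 hb with rfl | hb
        · rw [inner_add_right, real_inner_smul_right, h0, zero_add]
          exact mul_ne_zero (ne_of_gt hr0) (inner_self_ne_zero.2 (hF _ (Finset.mem_insert_self _ _)))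
        · exact hr b hb
      · exact ⟨z, fun b hb => by
          rcases Finset.mem_insert.1 hb with rfl | hb
          exacts [h0, hz b hb]⟩
  exact key S.R S.ne

theorem exists_gn_ge (x : E) : ∃ z, S.gn z ∧ S.le x z := by
  obtain ⟨z, hz⟩ := exists_gn S
  exact ⟨S.cm x z, cm_gn S hz, le_cm S x z⟩

theorem U_mono {x y : E} (h : S.le x y) : S.U x ≤ S.U y := by
  intro g hg
  refine S.s1 x x y 0 (fun a ha _ h0 _ => h a ha h0) g hg hg ?_
  rw [S.s3]
  exact S.UH x hg

theorem L_mono {x y : E} (h : ∀ a ∈ S.R, inner ℝ a x = 0 → inner ℝ a y = 0) : S.L x ≤ S.L y := by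
  intro g hg
  exact S.s2 x x y (fun a ha h0 _ => h a ha h0) g hg hg

theorem L_le {x y : E} (h : S.le x y) : S.L y ≤ S.L x := by
  exact L_mono S fun a ha h0 => le_zero S h ha h0

theorem U_eqv {x y : E} (h : S.eqv x y) : S.U x = S.U y := by
  exact le_antisymm (U_mono S h.1) (U_mono S h.2)

theorem L_eqv {x y : E} (h : S.eqv x y) : S.L x = S.L y := by
  exact le_antisymm (L_le S h.2) (L_le S h.1)

theorem L_reg {x y : E} (h : S.Reg x y) : S.L x = S.L y := by
  exact le_antisymm (L_mono S fun a ha => (h a ha).2) (L_mono S fun a ha => (h a ha).1)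

theorem L_neg (x : E) : S.L (-x) = S.L x := by
  refine le_antisymm (L_mono S fun a _ h0 => ?_) (L_mono S fun a _ h0 => ?_)
  · rw [inner_neg_right] at h0
    exact neg_eq_zero.1 h0
  · rw [inner_neg_right, h0, neg_zero]

theorem U_zero : S.U 0 = ⊥ := by
  rw [eq_bot_iff]
  intro g hg
  have h := S.s4' 0 1 (one_mem _) g (by rw [neg_zero]; exact hg) (by rw [one_mul]; exact hg)
  rw [one_mul] at h
  exact Subgroup.mem_bot.2 h

theorem U_L_disj {g : G} {y : E} (h : g ∈ S.U y) (h' : g ∈ S.L y) : g = 1 := by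
  have h1 := S.s4' y g h' 1 (one_mem _) (by rw [mul_one]; exact h)
  rwa [mul_one] at h1

theorem U_neg_disj {g : G} {y : E} (h : g ∈ S.U y) (h' : g ∈ S.U (-y)) : g = 1 := by
  have h1 := S.s4' y 1 (one_mem _) g h' (by rw [one_mul]; exact h)
  rwa [one_mul] at h1

theorem L_conj {y : E} {l u : G} (hl : l ∈ S.L y) : l * u * l⁻¹ ∈ S.U y ↔ u ∈ S.U y := by
  constructor
  · intro h
    have h1 := S.s4 y l⁻¹ (inv_mem hl) _ h
    have h2 : l⁻¹ * (l * u * l⁻¹) * l⁻¹⁻¹ = u := by group
    rwa [h2] at h1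
  · exact fun h => S.s4 y l hl u h

/-- (1.4) -/
theorem L_mono_iff {x y : E} : S.L x ≤ S.L y ↔ ∀ a ∈ S.R, inner ℝ a x = 0 → inner ℝ a y = 0 := by
  refine ⟨fun h a ha h0 => ?_, fun h => L_mono S h⟩
  rcases lt_trichotomy (inner ℝ a y) 0 with h3 | h3 | h3
  · obtain ⟨g, hg, h1⟩ := S.s10 (-a) (S.neg a ha)
    have h4 := (h1 x).2 (by rw [inner_neg_left, h0, neg_zero])
    have h5 := (h1 y).1 (by rw [inner_neg_left]; linarith)
    exact absurd (U_L_disj S h5 (h h4)) hg
  · exact h3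
  · obtain ⟨g, hg, h1⟩ := S.s10 a ha
    exact absurd (U_L_disj S ((h1 y).1 h3) (h ((h1 x).2 h0))) hg

theorem reg_refl (x : E) : S.Reg x x := fun _ _ => Iff.rfl

theorem reg_mem_X {x y : E} (h : S.Reg x y) : y ∈ S.X x := fun a ha h0 => (h a ha).2 h0

theorem reg_symm {x y : E} (h : S.Reg x y) : S.Reg y x := fun a ha => (h a ha).symm

theorem reg_trans {x y z : E} (h : S.Reg x y) (h' : S.Reg y z) : S.Reg x z :=
  fun a ha => (h' a ha).trans (h a ha)

theorem reg_neg {x y : E} (h : S.Reg x y) : S.Reg x (-y) := by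
  intro a ha
  rw [inner_neg_right, neg_eq_zero]
  exact h a ha

theorem reg_cm {x y x' : E} (h : S.Reg x x') (hy : y ∈ S.X x) : S.Reg x (S.cm y x') := by
  intro a ha
  rw [cm_zero S ha]
  exact ⟨fun h0 => (h a ha).1 h0.2, fun h0 => ⟨hy a ha h0, (h a ha).2 h0⟩⟩

theorem X_reg {x y : E} (h : S.Reg x y) : S.X x = S.X y := by
  ext z
  exact ⟨fun hz a ha h0 => hz a ha ((h a ha).1 h0), fun hz a ha h0 => hz a ha ((h a ha).2 h0)⟩

end

end LieP
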