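import Pool.Agent.LieP.G01

/-!
# MP_6c3636_al, LieP, module G02: the action of the monomial subgroup (helper7)

Section 1. `ac n` is a linear isometry for `n ∈ N`, `ac n⁻¹ = (ac n)⁻¹` (`ac_one`, `ac_mul`). `conj_U`: `s7U` for `n` and `n⁻¹`. `ac_R`: `s7R` for `n`, `n⁻¹`.
`fix_iff`: `s8` (with `v = u = 1`), `s8'`. `face_fix` is `s13`.
-/

namespace LieP

noncomputable section

open Classical

variable {G E : Type} [Group G] [NormedAddCommGroup E] [InnerProductSpace ℝ E]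
  [FiniteDimensional ℝ E] (S : LieSys G E)

theorem ac_inv {n : G} (hn : n ∈ S.N) : S.ac n⁻¹ = (S.ac n)⁻¹ := by
  apply eq_inv_of_mul_eq_one_left
  rw [← S.ac_mul _ (S.N.inv_mem hn) _ hn, inv_mul_cancel, S.ac_one]

theorem ac_inv_apply {n : G} (hn : n ∈ S.N) (x : E) : S.ac n⁻¹ (S.ac n x) = x := by
  have h : S.ac n⁻¹ * S.ac n = 1 := by rw [← S.ac_mul _ (S.N.inv_mem hn) _ hn, inv_mul_cancel, S.ac_one]
  exact congrArg (fun f : E ≃ₗᵢ[ℝ] E => f x) h

theorem ac_apply_inv {n : G} (hn : n ∈ S.N) (x : E) : S.ac n (S.ac n⁻¹ x) = x := by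
  have h : S.ac n * S.ac n⁻¹ = 1 := by rw [← S.ac_mul _ hn _ (S.N.inv_mem hn), mul_inv_cancel, S.ac_one]
  exact congrArg (fun f : E ≃ₗᵢ[ℝ] E => f x) h

theorem ac_mul_apply {m n : G} (hm : m ∈ S.N) (hn : n ∈ S.N) (x : E) :
    S.ac (m * n) x = S.ac m (S.ac n x) := by
  rw [S.ac_mul m hm n hn]
  rfl

theorem ac_inner {n : G} (hn : n ∈ S.N) (a x : E) : inner ℝ a (S.ac n x) = inner ℝ (S.ac n⁻¹ a) x := by
  rw [← (S.ac n).inner_map_map (S.ac n⁻¹ a) x, ac_apply_inv S hn]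

theorem ac_R {n : G} (hn : n ∈ S.N) {a : E} : S.ac n a ∈ S.R ↔ a ∈ S.R := by
  constructor
  · intro h
    have := S.s7R n⁻¹ (S.N.inv_mem hn) _ h
    rwa [ac_inv_apply S hn] at this
  · exact S.s7R n hn a

theorem conj_U {n : G} (hn : n ∈ S.N) {x : E} {u : G} : u ∈ S.U x ↔ n * u * n⁻¹ ∈ S.U (S.ac n x) := by
  constructor
  · exact S.s7U n hn x u
  · intro h
    have := S.s7U n⁻¹ (S.N.inv_mem hn) _ _ h
    rw [ac_inv_apply S hn] at this
    have e : n⁻¹ * (n * u * n⁻¹) * n⁻¹⁻¹ = u := by group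
    rwa [e] at this

theorem conj_L {n : G} (hn : n ∈ S.N) {x : E} {u : G} : u ∈ S.L x ↔ n * u * n⁻¹ ∈ S.L (S.ac n x) := by
  constructor
  · exact S.s7L n hn x u
  · intro h
    have := S.s7L n⁻¹ (S.N.inv_mem hn) _ _ h
    rw [ac_inv_apply S hn] at this
    have e : n⁻¹ * (n * u * n⁻¹) * n⁻¹⁻¹ = u := by group
    rwa [e] at this

theorem conj_N {n : G} (hn : n ∈ S.N) {u : G} : u ∈ S.N ↔ n * u * n⁻¹ ∈ S.N := by
  constructor
  · intro h
    exact S.N.mul_mem (S.N.mul_mem hn h) (S.N.inv_mem hn)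
  · intro h
    have := S.N.mul_mem (S.N.mul_mem (S.N.inv_mem hn) h) hn
    have e : n⁻¹ * (n * u * n⁻¹) * n = u := by group
    rwa [e] at this

theorem conj_H {n : G} (hn : n ∈ S.H) {u : G} : u ∈ S.H ↔ n * u * n⁻¹ ∈ S.H := by
  constructor
  · intro h
    exact S.H.mul_mem (S.H.mul_mem hn h) (S.H.inv_mem hn)
  · intro h
    have := S.H.mul_mem (S.H.mul_mem (S.H.inv_mem hn) h) hn
    have e : n⁻¹ * (n * u * n⁻¹) * n = u := by group
    rwa [e] at this

theorem ac_le {n : G} (hn : n ∈ S.N) {x y : E} : S.le (S.ac n x) (S.ac n y) ↔ S.le x y := by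
  have hn' : n⁻¹ ∈ S.N := S.N.inv_mem hn
  constructor
  · intro h a ha h0
    have h1 := h (S.ac n a) ((ac_R S hn).2 ha)
    rw [ac_inner S hn, ac_inner S hn, ac_inv_apply S hn] at h1
    exact h1 h0
  · intro h a ha h0
    rw [ac_inner S hn] at h0 ⊢
    exact h _ ((ac_R S hn').2 ha) h0

theorem ac_eqv {n : G} (hn : n ∈ S.N) {x y : E} : S.eqv (S.ac n x) (S.ac n y) ↔ S.eqv x y := by
  exact and_congr (ac_le S hn) (ac_le S hn)

theorem ac_gn {n : G} (hn : n ∈ S.N) {x : E} : S.gn (S.ac n x) ↔ S.gn x := by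
  have hn' : n⁻¹ ∈ S.N := S.N.inv_mem hn
  constructor
  · intro h a ha h0
    apply h (S.ac n a) ((ac_R S hn).2 ha)
    rw [ac_inner S hn, ac_inv_apply S hn]
    exact h0
  · intro h a ha h0
    rw [ac_inner S hn] at h0
    exact h _ ((ac_R S hn').2 ha) h0

theorem ac_cm {n : G} (hn : n ∈ S.N) (x y : E) :
    S.eqv (S.ac n (S.cm x y)) (S.cm (S.ac n x) (S.ac n y)) := by
  have hn' : n⁻¹ ∈ S.N := S.N.inv_mem hn
  rw [eqv_iff]
  intro a ha
  rw [ac_inner S hn, cm_pos S ((ac_R S hn').2 ha), cm_pos S ha, ac_inner S hn, ac_inner S hn]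

theorem ac_X {n : G} (hn : n ∈ S.N) {x y : E} : S.ac n y ∈ S.X (S.ac n x) ↔ y ∈ S.X x := by
  have hn' : n⁻¹ ∈ S.N := S.N.inv_mem hn
  constructor
  · intro h a ha h0
    have h1 := h (S.ac n a) ((ac_R S hn).2 ha)
    rw [ac_inner S hn, ac_inner S hn, ac_inv_apply S hn] at h1
    exact h1 h0
  · intro h a ha h0
    rw [ac_inner S hn] at h0 ⊢
    exact h _ ((ac_R S hn').2 ha) h0

theorem ac_reg {n : G} (hn : n ∈ S.N) {x y : E} : S.Reg (S.ac n x) (S.ac n y) ↔ S.Reg x y := by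
  have hn' : n⁻¹ ∈ S.N := S.N.inv_mem hn
  constructor
  · intro h a ha
    have h1 := h (S.ac n a) ((ac_R S hn).2 ha)
    rwa [ac_inner S hn, ac_inner S hn, ac_inv_apply S hn] at h1
  · intro h a ha
    rw [ac_inner S hn, ac_inner S hn]
    exact h _ ((ac_R S hn').2 ha)

theorem ac_zero_iff {n : G} (hn : n ∈ S.N) {y : E} :
    (∀ a ∈ S.R, inner ℝ a (S.ac n y) = 0) ↔ ∀ a ∈ S.R, inner ℝ a y = 0 := by
  have hn' : n⁻¹ ∈ S.N := S.N.inv_mem hn
  constructor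
  · intro h a ha
    have h1 := h (S.ac n a) ((ac_R S hn).2 ha)
    rwa [ac_inner S hn, ac_inv_apply S hn] at h1
  · intro h a ha
    rw [ac_inner S hn]
    exact h _ ((ac_R S hn').2 ha)

theorem fix_iff {n : G} (hn : n ∈ S.N) {x : E} : S.ac n x = x ↔ n ∈ S.L x := by
  constructor
  · exact S.s8' n hn x
  · intro h
    exact S.s8 n hn x ⟨1, Subgroup.one_mem _, n, h, 1, Subgroup.one_mem _, by group⟩

/-- two faces of a generic point which are conjugate under `N` are equal -/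
theorem face_fix {z : E} (hz : S.gn z) {n : G} (hn : n ∈ S.N) {y : E} (h : S.le y z)
    (h' : S.le (S.ac n y) z) : S.ac n y = y := by
  exact S.s13 z hz n hn y h h'

/-- if `n` normalizes `L x` then it preserves `X x` -/
theorem norm_X {n : G} (hn : n ∈ S.N) {x x' : E} (h : ∀ l, l ∈ S.L x ↔ n * l * n⁻¹ ∈ S.L x') :
    S.Reg x' (S.ac n x) ∧ ∀ y, S.ac n y ∈ S.X x' ↔ y ∈ S.X x := by
  have hL : S.L x' = S.L (S.ac n x) := by
    ext m
    have h1 := h (n⁻¹ * m * n)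
    have h2 := conj_L S hn (x := x) (u := n⁻¹ * m * n)
    have e : n * (n⁻¹ * m * n) * n⁻¹ = m := by group
    rw [e] at h1 h2
    rw [← h1, ← h2]
  have h3 := (L_mono_iff S (x := x') (y := S.ac n x)).1 (le_of_eq hL)
  have h4 := (L_mono_iff S (x := S.ac n x) (y := x')).1 (le_of_eq hL.symm)
  have hreg : S.Reg x' (S.ac n x) := fun a ha => ⟨h4 a ha, h3 a ha⟩
  refine ⟨hreg, ?_⟩
  intro y
  rw [← ac_X S hn (x := x) (y := y)]
  constructor
  · intro h5 a ha h0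
    exact h5 a ha (h4 a ha h0)
  · intro h5 a ha h0
    exact h5 a ha (h3 a ha h0)

/-- conjugate facets of a generic point: if `ac n y` is in the facet of `y` then `n ∈ L y` -/
theorem eqv_fix {n : G} (hn : n ∈ S.N) {y : E} (h : S.eqv (S.ac n y) y) : S.ac n y = y := by
  obtain ⟨z, hz, hyz⟩ := exists_gn_ge S y
  exact face_fix S hz hn hyz (le_trans S h.1 hyz)

end

end LieP
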