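import Pool.Agent.LieP.G02

/-!
# MP_6c3636_al, LieP, module G03: parabolic subgroups (helper7)

Section 1, (1.2), (1.3), (1.8). `mem_P`: the products `l u` form a subgroup (`s4`). `decomp_unique`: `a b c = a' b' c'`: `(a'⁻¹ a) = b' c' c⁻¹ b⁻¹ = (b' b⁻¹) (b c' c⁻¹ b⁻¹)`, in `L x · U (-x)` (use `s4` for `-x`, `L_neg`), so it is `1` by `s4'`; then `b⁻¹ b' = c c'⁻¹ ∈ L x ⊓ U (-x)`.
`L_cm`: `s2`, `L_le`. `mem_U_cm`: for `u ∈ U w`, `w = cm y x`, split by `y` (`s6` with `z = 0`): `u = a b c`; `b ∈ U w ⊓ L y`, so in `U x` by `s1` (with `z = y`); `c ∈ U w ⊓ U (-y) ≤ U (-w)` (`s1`: no root is positive at `w` and at `-y`), so `c = 1`. Conversely `U_mono` and `s1`.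
`P_L`: `s5L`. `U_P`: `s5U`. `P_mono`: `cm x y` is in the facet of `y`.
-/

namespace LieP

noncomputable section

open Classical

variable {G E : Type} [Group G] [NormedAddCommGroup E] [InnerProductSpace ℝ E]
  [FiniteDimensional ℝ E] (S : LieSys G E)

namespace G03_aux

/-- the subgroup of the products `l u` -/
def K (x : E) : Subgroup G where
  carrier := {g | ∃ l ∈ S.L x, ∃ u ∈ S.U x, g = l * u}
  one_mem' := ⟨1, (S.L x).one_mem, 1, (S.U x).one_mem, (mul_one 1).symm⟩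
  mul_mem' := by
    rintro _ _ ⟨l, hl, u, hu, rfl⟩ ⟨l', hl', u', hu', rfl⟩
    have h1 := S.s4 x l'⁻¹ ((S.L x).inv_mem hl') u hu
    rw [inv_inv] at h1
    exact ⟨l * l', (S.L x).mul_mem hl hl', l'⁻¹ * u * l' * u', (S.U x).mul_mem h1 hu', by group⟩
  inv_mem' := by
    rintro _ ⟨l, hl, u, hu, rfl⟩
    exact ⟨l⁻¹, (S.L x).inv_mem hl, l * u⁻¹ * l⁻¹, S.s4 x l hl _ ((S.U x).inv_mem hu), by group⟩

end G03_aux

theorem mem_P {x : E} {g : G} : g ∈ S.P x ↔ ∃ l ∈ S.L x, ∃ u ∈ S.U x, g = l * u := by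
  constructor
  · intro hg
    have hK : S.P x ≤ G03_aux.K S x := sup_le
      (fun l hl => ⟨l, hl, 1, (S.U x).one_mem, (mul_one l).symm⟩)
      (fun u hu => ⟨1, (S.L x).one_mem, u, hu, (one_mul u).symm⟩)
    exact hK hg
  · rintro ⟨l, hl, u, hu, rfl⟩
    exact (S.P x).mul_mem ((le_sup_left : S.L x ≤ S.P x) hl) ((le_sup_right : S.U x ≤ S.P x) hu)

theorem mem_P' {x : E} {g : G} : g ∈ S.P x ↔ ∃ u ∈ S.U x, ∃ l ∈ S.L x, g = u * l := by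
  rw [mem_P]
  constructor
  · rintro ⟨l, hl, u, hu, rfl⟩
    exact ⟨l * u * l⁻¹, S.s4 x l hl u hu, l, hl, by group⟩
  · rintro ⟨u, hu, l, hl, rfl⟩
    have h1 := S.s4 x l⁻¹ ((S.L x).inv_mem hl) u hu
    rw [inv_inv] at h1
    exact ⟨l, hl, l⁻¹ * u * l, h1, by group⟩

theorem P_le_H (x : E) : S.P x ≤ S.H := by
  exact sup_le (S.LH x) (S.UH x)

theorem L_le_P (x : E) : S.L x ≤ S.P x := le_sup_left

theorem U_le_P (x : E) : S.U x ≤ S.P x := le_sup_right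

theorem U_P_conj {x : E} {p u : G} (hp : p ∈ S.P x) : p * u * p⁻¹ ∈ S.U x ↔ u ∈ S.U x := by
  obtain ⟨l, hl, v, hv, rfl⟩ := (mem_P S).1 hp
  have h1 : l * v * u * (l * v)⁻¹ = l * (v * u * v⁻¹) * l⁻¹ := by group
  rw [h1, L_conj S hl]
  constructor
  · intro h
    have h2 := (S.U x).mul_mem ((S.U x).mul_mem ((S.U x).inv_mem hv) h) hv
    have h3 : v⁻¹ * (v * u * v⁻¹) * v = u := by group
    rwa [h3] at h2
  · intro h
    exact (S.U x).mul_mem ((S.U x).mul_mem hv h) ((S.U x).inv_mem hv)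

theorem card_P (x : E) [Finite G] : Nat.card (S.P x) = Nat.card (S.L x) * Nat.card (S.U x) := by
  rw [← Nat.card_prod]
  symm
  refine Nat.card_congr (Equiv.ofBijective
    (fun q : S.L x × S.U x => (⟨(q.1 : G) * (q.2 : G),
      (mem_P S).2 ⟨_, q.1.2, _, q.2.2, rfl⟩⟩ : S.P x)) ⟨?_, ?_⟩)
  · rintro ⟨⟨l, hl⟩, ⟨u, hu⟩⟩ ⟨⟨l', hl'⟩, ⟨u', hu'⟩⟩ h
    have h1 : l * u = l' * u' := congrArg Subtype.val h
    have h2 : l'⁻¹ * l = u' * u⁻¹ := by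
      rw [eq_mul_inv_iff_mul_eq, mul_assoc, h1]; group
    have h3 : l'⁻¹ * l = 1 := U_L_disj S
      (h2 ▸ (S.U x).mul_mem hu' ((S.U x).inv_mem hu)) ((S.L x).mul_mem ((S.L x).inv_mem hl') hl)
    have h4 : l = l' := by
      rw [inv_mul_eq_one] at h3
      exact h3.symm
    subst h4
    have h5 : u = u' := mul_left_cancel h1
    subst h5
    rfl
  · rintro ⟨g, hg⟩
    obtain ⟨l, hl, u, hu, h1⟩ := (mem_P S).1 hg
    exact ⟨(⟨l, hl⟩, ⟨u, hu⟩), Subtype.ext h1.symm⟩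

/-- (1.8) -/
theorem decomp_unique {x : E} {a b c a' b' c' : G} (ha : a ∈ S.U x) (hb : b ∈ S.L x) (hc : c ∈ S.U (-x))
    (ha' : a' ∈ S.U x) (hb' : b' ∈ S.L x) (hc' : c' ∈ S.U (-x)) (h : a * b * c = a' * b' * c') :
    a = a' ∧ b = b' ∧ c = c' := by
  have hL : b' * b⁻¹ ∈ S.L x := (S.L x).mul_mem hb' ((S.L x).inv_mem hb)
  have hb2 : b ∈ S.L (-x) := by rw [L_neg]; exact hb
  have hV : b * (c' * c⁻¹) * b⁻¹ ∈ S.U (-x) :=
    S.s4 (-x) b hb2 _ ((S.U (-x)).mul_mem hc' ((S.U (-x)).inv_mem hc))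
  have h1 : b' * b⁻¹ * (b * (c' * c⁻¹) * b⁻¹) = a'⁻¹ * a := by
    have h2 : b' * b⁻¹ * (b * (c' * c⁻¹) * b⁻¹) = a'⁻¹ * (a' * b' * c') * c⁻¹ * b⁻¹ := by group
    rw [h2, ← h]; group
  have h3 : b' * b⁻¹ * (b * (c' * c⁻¹) * b⁻¹) = 1 := by
    refine S.s4' x _ hL _ hV ?_
    rw [h1]
    exact (S.U x).mul_mem ((S.U x).inv_mem ha') ha
  have h4 : a = a' := by
    rw [h1, inv_mul_eq_one] at h3
    exact h3.symm
  subst h4
  have h5 : b * c = b' * c' := by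
    have h6 := h
    rw [mul_assoc, mul_assoc] at h6
    exact mul_left_cancel h6
  have h6 : b'⁻¹ * b = c' * c⁻¹ := by
    rw [eq_mul_inv_iff_mul_eq, mul_assoc, h5]; group
  have h7 : b'⁻¹ * b = 1 := U_L_disj S
    (h6 ▸ (S.U (-x)).mul_mem hc' ((S.U (-x)).inv_mem hc))
    (by rw [L_neg]; exact (S.L x).mul_mem ((S.L x).inv_mem hb') hb)
  have h8 : b = b' := by
    rw [inv_mul_eq_one] at h7
    exact h7.symm
  subst h8
  exact ⟨rfl, rfl, mul_left_cancel h5⟩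

theorem P_unique {x : E} {a b a' b' : G} (ha : a ∈ S.U x) (hb : b ∈ S.L x) (ha' : a' ∈ S.U x)
    (hb' : b' ∈ S.L x) (h : a * b = a' * b') : a = a' ∧ b = b' := by
  have h1 := decomp_unique S ha hb (S.U (-x)).one_mem ha' hb' (S.U (-x)).one_mem
    (by rw [mul_one, mul_one]; exact h)
  exact ⟨h1.1, h1.2.1⟩

theorem L_cm (y x : E) : S.L (S.cm y x) = S.L y ⊓ S.L x := by
  apply le_antisymm
  · intro g hg
    exact ⟨L_mono S (fun a ha h0 => ((cm_zero S ha).1 h0).1) hg,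
      L_mono S (fun a ha h0 => ((cm_zero S ha).1 h0).2) hg⟩
  · rintro g ⟨h1, h2⟩
    exact S.s2 y x (S.cm y x) (fun a ha h3 h4 => (cm_zero S ha).2 ⟨h3, h4⟩) g h1 h2

theorem mem_U_cm {y x : E} {u : G} :
    u ∈ S.U (S.cm y x) ↔ ∃ a ∈ S.U y, ∃ b ∈ S.U x, b ∈ S.L y ∧ u = a * b := by
  constructor
  · intro hu
    have hH : ∀ g ∈ S.U (S.cm y x), g ∈ S.L 0 := fun g hg => by
      rw [S.s3]; exact S.UH _ hg
    obtain ⟨a, ha, b, hb, c, hc, h1, h2, h3, h4⟩ := S.s6 y (S.cm y x) 0 u ⟨hu, hH u hu⟩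
    have h5 : b ∈ S.U x := by
      refine S.s1 (S.cm y x) (S.cm y x) x y ?_ b hb.1 hb.1 h2
      intro r hr h6 h7 _
      rcases (cm_pos S hr).1 h7 with h8 | h8
      · exact absurd h6 h8.ne'
      · exact h8.2
    have h6 : c ∈ S.U (-(S.cm y x)) := by
      refine S.s1 (S.cm y x) (-y) (-(S.cm y x)) 0 ?_ c hc.1 h3 hc.2
      intro r hr _ h7 h8
      rw [inner_neg_right] at h8
      rcases (cm_pos S hr).1 h7 with h9 | h9
      · linarith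
      · linarith [h9.1]
    have h7 : c = 1 := U_neg_disj S hc.1 h6
    exact ⟨a, h1, b, h5, h2, by rw [h4, h7, mul_one]⟩
  · rintro ⟨a, ha, b, hb, hb', rfl⟩
    refine (S.U _).mul_mem (U_mono S (le_cm S y x) ha) ?_
    exact S.s1 x x (S.cm y x) y (fun r hr h1 h2 _ => (cm_pos S hr).2 (Or.inr ⟨h1, h2⟩)) b hb hb hb' 

theorem U_cm_L (y x : E) : S.U (S.cm y x) ⊓ S.L y = S.U x ⊓ S.L y := by
  apply le_antisymm
  · rintro g ⟨h1, h2⟩
    refine ⟨S.s1 (S.cm y x) (S.cm y x) x y ?_ g h1 h1 h2, h2⟩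
    intro r hr h6 h7 _
    rcases (cm_pos S hr).1 h7 with h8 | h8
    · exact absurd h6 h8.ne'
    · exact h8.2
  · rintro g ⟨h1, h2⟩
    exact ⟨S.s1 x x (S.cm y x) y (fun r hr h3 h4 _ => (cm_pos S hr).2 (Or.inr ⟨h3, h4⟩)) g h1 h1 h2, h2⟩

theorem P_L {y z : E} {g : G} (h : g ∈ S.P y) (h' : g ∈ S.L z) :
    ∃ l ∈ S.L y, ∃ u ∈ S.U y, l ∈ S.L z ∧ u ∈ S.L z ∧ g = l * u := by
  obtain ⟨l, hl, u, hu, rfl⟩ := (mem_P S).1 h
  have h1 := S.s5L y z l hl u hu h'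
  refine ⟨l, hl, u, hu, h1, ?_, rfl⟩
  have h2 := (S.L z).mul_mem ((S.L z).inv_mem h1) h'
  rwa [inv_mul_cancel_left] at h2

theorem U_P {x y : E} {g : G} (h : g ∈ S.U x) (h' : g ∈ S.P y) :
    ∃ l ∈ S.L y, ∃ u ∈ S.U y, l ∈ S.U x ∧ u ∈ S.U x ∧ g = l * u := by
  obtain ⟨l, hl, u, hu, rfl⟩ := (mem_P S).1 h'
  have h1 := S.s5U y x l hl u hu h
  refine ⟨l, hl, u, hu, h1, ?_, rfl⟩
  have h2 := (S.U x).mul_mem ((S.U x).inv_mem h1) h
  rwa [inv_mul_cancel_left] at h2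

theorem P_cm {y x : E} {g : G} :
    g ∈ S.P (S.cm y x) ↔ ∃ u ∈ S.U y, ∃ p ∈ S.P x, p ∈ S.L y ∧ g = u * p := by
  constructor
  · intro hg
    obtain ⟨u, hu, l, hl, rfl⟩ := (mem_P' S).1 hg
    obtain ⟨a, ha, b, hb, hb', rfl⟩ := (mem_U_cm S).1 hu
    rw [L_cm] at hl
    refine ⟨a, ha, b * l, ?_, (S.L y).mul_mem hb' hl.1, by rw [mul_assoc]⟩
    exact (mem_P' S).2 ⟨b, hb, l, hl.2, rfl⟩
  · rintro ⟨u, hu, p, hp, hp', rfl⟩
    obtain ⟨l, hl, v, hv, hl', hv', rfl⟩ := P_L S hp hp'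
    refine (S.P _).mul_mem (U_le_P S _ (U_mono S (le_cm S y x) hu)) ?_
    refine (mem_P S).2 ⟨l, ?_, v, ?_, rfl⟩
    · rw [L_cm]
      exact ⟨hl', hl⟩
    · exact (mem_U_cm S).2 ⟨1, (S.U y).one_mem, v, hv, hv', (one_mul v).symm⟩

theorem P_mono {x y : E} (h : S.le x y) : S.P y ≤ S.P x := by
  intro g hg
  have h1 : S.eqv (S.cm x y) y := cm_eqv S h
  have h2 : S.P (S.cm x y) = S.P y := by
    show S.L (S.cm x y) ⊔ S.U (S.cm x y) = S.L y ⊔ S.U y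
    rw [L_eqv S h1, U_eqv S h1]
  rw [← h2] at hg
  obtain ⟨u, hu, p, _, hp', rfl⟩ := (P_cm S).1 hg
  exact (S.P x).mul_mem (U_le_P S x hu) (L_le_P S x hp')

theorem U_normal_cm {y x : E} (h : S.le y x) {u v : G} (hu : u ∈ S.U x) :
    u * v * u⁻¹ ∈ S.U y ↔ v ∈ S.U y := by
  exact U_P_conj S (P_mono S h (U_le_P S x hu))

end

end LieP
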