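import Pool.Agent.LieP.G03

/-!
# MP_6c3636_al, LieP, module G04: Sylow subgroups (helper7)

Section 1, (1.5). Let `z` be generic. `U z` is a Sylow `2`-subgroup of `H`: let `Q` be a `2`-subgroup of `H` which contains `U z` properly; then some `g ∈ Q`, `g ∉ U z` normalizes `U z` (`IsPGroup` normalizer condition). `g = u l n l' u'` (`s9` with `z = z'`), so `n` normalizes `U z` (`U_P_conj`), `U (ac n z) = U z`.
If `ac n z` is not in the facet of `z` there is a root `a` with `⟨a, ac n z⟩ > 0 > ⟨a, z⟩`, and the element of `s10` is in `U (ac n z) ⊓ U (-z)`, contradiction to `U_neg_disj`. So `ac n z = z` (`face_fix`), `n ∈ L z`, `g ∈ P z`. But `P z ⊓ Q = U z`: for `g = l u`, `l ∈ L z ⊓ Q` has odd and `2`-power order.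
`P_odd`: `U z ≤ P z ≤ P x` for `x ≤ z`. `card_lt`: the element of `s10` for a root with `⟨a,y⟩ > 0` is in `U y`, not in `L y`.
-/

namespace LieP

noncomputable section

open Classical

variable {G E : Type} [Group G] [NormedAddCommGroup E] [InnerProductSpace ℝ E]
  [FiniteDimensional ℝ E] (S : LieSys G E)

variable [Finite G]

theorem two_U (x : E) : IsPGroup 2 (S.U x) := by
  rintro ⟨u, hu⟩
  obtain ⟨k, hk⟩ := S.s11 x u hu
  exact ⟨k, Subtype.ext hk⟩

theorem card_U (x : E) : ∃ m : ℕ, Nat.card (S.U x) = 2 ^ m := by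
  haveI : Fact (Nat.Prime 2) := ⟨Nat.prime_two⟩
  exact IsPGroup.iff_card.1 (two_U S x)

theorem U_sylow {z : E} (hz : S.gn z) (Q : Subgroup G) (hQ : IsPGroup 2 Q) (hQH : Q ≤ S.H)
    (h : S.U z ≤ Q) : Q = S.U z := by
  haveI : Fact (Nat.Prime 2) := ⟨Nat.prime_two⟩
  by_contra hne
  have hlt : (S.U z).subgroupOf Q < ⊤ := by
    rw [lt_top_iff_ne_top]
    intro h1
    exact hne (_root_.le_antisymm (Subgroup.subgroupOf_eq_top.1 h1) h)
  haveI : Group.IsNilpotent Q := hQ.isNilpotent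
  have hn := Group.normalizerCondition_of_isNilpotent (G := Q) _ hlt
  obtain ⟨g, hg, hg'⟩ := SetLike.exists_of_lt hn
  have hgU : (g : G) ∉ S.U z := fun h1 => hg' (Subgroup.mem_subgroupOf.2 h1)
  have hgc : ∀ v : G, v ∈ S.U z ↔ (g : G) * v * (g : G)⁻¹ ∈ S.U z := by
    intro v
    constructor
    · intro hv
      have h1 := (Subgroup.mem_normalizer_iff.1 hg ⟨v, h hv⟩).1 (Subgroup.mem_subgroupOf.2 hv)
      exact Subgroup.mem_subgroupOf.1 h1
    · intro hv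
      have hvQ : v ∈ Q := by
        have h1 : (g : G)⁻¹ * ((g : G) * v * (g : G)⁻¹) * (g : G) ∈ Q :=
          Q.mul_mem (Q.mul_mem (Q.inv_mem g.2) (h hv)) g.2
        have h2 : (g : G)⁻¹ * ((g : G) * v * (g : G)⁻¹) * (g : G) = v := by group
        rwa [h2] at h1
      have h1 := (Subgroup.mem_normalizer_iff.1 hg ⟨v, hvQ⟩).2
        (Subgroup.mem_subgroupOf.2 hv)
      exact Subgroup.mem_subgroupOf.1 h1
  obtain ⟨u, hu, l, hl, n, hn, l', hl', u', hu', he⟩ := S.s9 z z hz hz (g : G) (hQH g.2)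
  have hp : u * l ∈ S.P z := (S.P z).mul_mem (U_le_P S z hu) (L_le_P S z hl)
  have hp' : l' * u' ∈ S.P z := (S.P z).mul_mem (L_le_P S z hl') (U_le_P S z hu')
  have hnc : ∀ v : G, n * v * n⁻¹ ∈ S.U z → v ∈ S.U z := by
    intro v hv
    have h1 : (u * l) * (n * v * n⁻¹) * (u * l)⁻¹ ∈ S.U z := (U_P_conj S hp).2 hv
    have h2 : (u * l) * (n * v * n⁻¹) * (u * l)⁻¹ =
        (g : G) * ((l' * u')⁻¹ * v * (l' * u')⁻¹⁻¹) * (g : G)⁻¹ := by
      rw [he]; group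
    rw [h2, ← hgc] at h1
    exact (U_P_conj S ((S.P z).inv_mem hp')).1 h1
  have hnc' : ∀ v : G, v ∈ S.U z → n * v * n⁻¹ ∈ S.U z := by
    intro v hv
    have h3 : (l' * u')⁻¹ * v * (l' * u')⁻¹⁻¹ ∈ S.U z := (U_P_conj S ((S.P z).inv_mem hp')).2 hv
    have h4 := (hgc _).1 h3
    have h2 : (g : G) * ((l' * u')⁻¹ * v * (l' * u')⁻¹⁻¹) * (g : G)⁻¹ =
        (u * l) * (n * v * n⁻¹) * (u * l)⁻¹ := by
      rw [he]; group
    rw [h2] at h4
    exact (U_P_conj S hp).1 h4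
  have hUle : S.U (S.ac n z) ≤ S.U z := by
    intro w hw
    have h1 : n * (n⁻¹ * w * n) * n⁻¹ ∈ S.U (S.ac n z) := by
      have h2 : n * (n⁻¹ * w * n) * n⁻¹ = w := by group
      rwa [h2]
    have h3 := hnc' _ ((conj_U S hn).2 h1)
    have h2 : n * (n⁻¹ * w * n) * n⁻¹ = w := by group
    rwa [h2] at h3
  have hle : S.le (S.ac n z) z := by
    intro a ha h0
    by_contra h1
    have h2 : inner ℝ a z < 0 := lt_of_le_of_ne (not_lt.1 h1) (hz a ha)
    obtain ⟨g', hg1, hg2⟩ := S.s10 a ha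
    have h3 : g' ∈ S.U z := hUle ((hg2 _).1 h0)
    have h4 : g' ∈ S.U (-z) := (hg2 _).1 (by rw [inner_neg_right]; linarith)
    exact hg1 (U_neg_disj S h3 h4)
  have hfix : S.ac n z = z := face_fix S hz hn (le_refl S z) hle
  have hnL : n ∈ S.L z := (fix_iff S hn).1 hfix
  have hgP : (g : G) ∈ S.P z := by
    have h1 : (g : G) = (u * l) * n * (l' * u') := by rw [he]; group
    rw [h1]
    exact (S.P z).mul_mem ((S.P z).mul_mem hp (L_le_P S z hnL)) hp'
  obtain ⟨m, hm, v, hv, hmv⟩ := (mem_P S).1 hgP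
  have hmQ : m ∈ Q := by
    have h1 : (g : G) * v⁻¹ = m := by rw [hmv]; group
    rw [← h1]
    exact Q.mul_mem g.2 (Q.inv_mem (h hv))
  obtain ⟨k, hk⟩ := hQ ⟨m, hmQ⟩
  have hk' : m ^ (2 ^ k) = 1 := congrArg Subtype.val hk
  have ho1 : orderOf m ∣ 2 ^ k := orderOf_dvd_of_pow_eq_one hk'
  have ho2 : orderOf m ∣ Nat.card (S.L z) := by
    have h1 : orderOf (⟨m, hm⟩ : S.L z) ∣ Nat.card (S.L z) := orderOf_dvd_natCard _
    rwa [Subgroup.orderOf_mk] at h1
  have hcop : Nat.Coprime (2 ^ k) (Nat.card (S.L z)) :=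
    Nat.Coprime.pow_left k ((Nat.coprime_two_left).2 (S.s11' z hz))
  have ho : orderOf m = 1 := Nat.eq_one_of_dvd_coprimes hcop ho1 ho2
  have hm1 : m = 1 := orderOf_eq_one_iff.1 ho
  apply hgU
  rw [hmv, hm1, one_mul]
  exact hv

theorem U_index_odd {z : E} (hz : S.gn z) : Odd ((S.U z).relIndex S.H) := by
  haveI : Fact (Nat.Prime 2) := ⟨Nat.prime_two⟩
  have hK : IsPGroup 2 ((S.U z).subgroupOf S.H) := by
    rintro ⟨⟨u, hu⟩, hu'⟩
    obtain ⟨k, hk⟩ := S.s11 z u (Subgroup.mem_subgroupOf.1 hu')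
    exact ⟨k, Subtype.ext (Subtype.ext hk)⟩
  have hmax : ∀ {Q' : Subgroup S.H}, IsPGroup 2 Q' → (S.U z).subgroupOf S.H ≤ Q' →
      Q' = (S.U z).subgroupOf S.H := by
    intro Q' hQ' hle
    have h1 : IsPGroup 2 (Q'.map S.H.subtype) := hQ'.map _
    have h2 : Q'.map S.H.subtype ≤ S.H := by
      rintro _ ⟨q, -, rfl⟩
      exact q.2
    have h3 : S.U z ≤ Q'.map S.H.subtype := by
      intro u hu
      exact ⟨⟨u, S.UH z hu⟩, hle (Subgroup.mem_subgroupOf.2 hu), rfl⟩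
    have h4 := U_sylow S hz _ h1 h2 h3
    apply _root_.le_antisymm _ hle
    intro q hq
    refine Subgroup.mem_subgroupOf.2 ?_
    rw [← h4]
    exact ⟨q, hq, rfl⟩
  let P : Sylow 2 S.H := { toSubgroup := (S.U z).subgroupOf S.H, isPGroup' := hK, is_maximal' := hmax }
  have h5 : ¬ 2 ∣ (P : Subgroup S.H).index := Sylow.not_dvd_index P
  rw [← Nat.not_even_iff_odd, even_iff_two_dvd]
  exact h5

theorem P_odd (x : E) : Odd ((S.P x).relIndex S.H) := by
  obtain ⟨z, hz, hxz⟩ := exists_gn_ge S x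
  have h1 : S.U z ≤ S.P x := _root_.le_trans (U_le_P S z) (P_mono S hxz)
  have h2 := Subgroup.relIndex_mul_relIndex _ _ _ h1 (P_le_H S x)
  have h3 := U_index_odd S hz
  rw [← h2] at h3
  exact (Nat.odd_mul.1 h3).2

theorem card_lt {y : E} (h : ∃ a ∈ S.R, inner ℝ a y ≠ 0) : Nat.card (S.L y) < Nat.card S.H := by
  obtain ⟨a, ha, h0⟩ := h
  have key : ∃ b ∈ S.R, 0 < inner ℝ b y := by
    rcases lt_or_gt_of_ne h0 with h1 | h1
    · exact ⟨-a, S.neg a ha, by rw [inner_neg_left]; linarith⟩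
    · exact ⟨a, ha, h1⟩
  obtain ⟨b, hb, hb0⟩ := key
  obtain ⟨g, hg1, hg2⟩ := S.s10 b hb
  have hgU : g ∈ S.U y := (hg2 y).1 hb0
  have hgL : g ∉ S.L y := fun h1 => hg1 (U_L_disj S hgU h1)
  have hlt : (S.L y : Set G) ⊂ (S.H : Set G) :=
    ⟨S.LH y, fun h1 => hgL (h1 (S.UH y hgU))⟩
  have h1 := Set.ncard_lt_ncard hlt (Set.toFinite _)
  exact h1

end

end LieP
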