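import Pool.Agent.LieP.G03

/-!
# MP_6c3636_al, LieP, module G05: faces of a generic point (helper7)

Section 1, (1.7). `z` generic. For `a ∈ R` with `⟨a,z⟩ > 0`: `a = ∑ c_b b` over `Dl z`, `c_b ≥ 0` (`s14''`). So `y` is a face of `z` iff `⟨b,y⟩ ≥ 0` for `b ∈ Dl z`, and then `⟨a,y⟩ = 0` iff `⟨b,y⟩ = 0` for all `b` with `c_b > 0`: the signs of the roots at `y` are determined by `JJ z y`.
-/

namespace LieP

noncomputable section

open Classical

variable {G E : Type} [Group G] [NormedAddCommGroup E] [InnerProductSpace ℝ E]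
  [FiniteDimensional ℝ E] (S : LieSys G E)

/-- the simple roots at `z` vanishing at `y` -/
def JJ (z y : E) : Finset E := (S.Dl z).filter fun a => inner ℝ a y = 0

/-- a point of the face of `z` with the set `J` -/
def fc (z : E) (J : Finset E) : E := if h : ∃ y, S.le y z ∧ JJ S z y = J then h.choose else 0

theorem G05_aux.comb {z : E} (hz : S.gn z) {a : E} (ha : a ∈ S.R) :
    ∃ c : E → ℝ, a = ∑ b ∈ S.Dl z, c b • b ∧ ((∀ b ∈ S.Dl z, 0 ≤ c b) ∨ ∀ b ∈ S.Dl z, c b ≤ 0) := by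
  rcases lt_or_gt_of_ne (hz a ha) with h | h
  · have h1 : 0 < inner ℝ (-a) z := by
      rw [inner_neg_left]
      exact neg_pos.2 h
    obtain ⟨c, hc, h2⟩ := S.s14'' z hz (-a) (S.neg a ha) h1
    refine ⟨fun b => -c b, ?_, Or.inr fun b hb => neg_nonpos.2 (hc b hb)⟩
    rw [← neg_neg a, h2, ← Finset.sum_neg_distrib]
    exact Finset.sum_congr rfl fun b _ => (neg_smul _ _).symm
  · obtain ⟨c, hc, h2⟩ := S.s14'' z hz a ha h
    exact ⟨c, h2, Or.inl hc⟩

theorem G05_aux.inner_sum (J : Finset E) (c : E → ℝ) (y : E) :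
    inner ℝ (∑ b ∈ J, c b • b) y = ∑ b ∈ J, c b * inner ℝ b y := by
  rw [_root_.sum_inner]
  exact Finset.sum_congr rfl fun b _ => by rw [real_inner_smul_left]

theorem le_gn_iff {z : E} (hz : S.gn z) {y : E} : S.le y z ↔ ∀ a ∈ S.Dl z, 0 ≤ inner ℝ a y := by
  constructor
  · intro h a ha
    exact le_nonneg S h (S.s14 z hz a ha).1 (S.s14 z hz a ha).2
  · intro h a ha h0
    by_contra h1
    have h2 : 0 < inner ℝ (-a) z := by
      rw [inner_neg_left]
      exact neg_pos.2 (lt_of_le_of_ne (not_lt.1 h1) (hz a ha))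
    obtain ⟨c, hc, h3⟩ := S.s14'' z hz (-a) (S.neg a ha) h2
    have h4 : 0 ≤ inner ℝ (-a) y := by
      rw [h3, G05_aux.inner_sum]
      exact Finset.sum_nonneg fun b hb => mul_nonneg (hc b hb) (h b hb)
    rw [inner_neg_left] at h4
    linarith

theorem face_le_iff {z : E} (hz : S.gn z) {y y' : E} (hy : S.le y z) (hy' : S.le y' z) :
    S.le y y' ↔ JJ S z y' ⊆ JJ S z y := by
  have hn := (le_gn_iff S hz).1 hy
  have hn' := (le_gn_iff S hz).1 hy'
  constructor
  · intro h b hb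
    rw [JJ, Finset.mem_filter] at hb ⊢
    refine ⟨hb.1, ?_⟩
    by_contra h0
    have h1 := h b (S.s14 z hz b hb.1).1 (lt_of_le_of_ne (hn b hb.1) (Ne.symm h0))
    rw [hb.2] at h1
    exact lt_irrefl _ h1
  · intro h a ha h0
    obtain ⟨c, hc, h1⟩ := S.s14'' z hz a ha (hy a ha h0)
    have h2 : 0 < ∑ b ∈ S.Dl z, c b * inner ℝ b y := by
      rw [← G05_aux.inner_sum, ← h1]
      exact h0
    obtain ⟨b, hb, h3⟩ := Finset.exists_lt_of_sum_lt (s := S.Dl z) (f := fun _ => (0 : ℝ))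
      (g := fun b => c b * inner ℝ b y) (by simpa using h2)
    have h3 : 0 < c b * inner ℝ b y := h3
    have h4 : 0 < c b := by
      rcases (hc b hb).eq_or_lt with h5 | h5
      · rw [← h5, zero_mul] at h3
        exact absurd h3 (lt_irrefl _)
      · exact h5
    have h5 : inner ℝ b y ≠ 0 := fun h6 => by
      rw [h6, mul_zero] at h3
      exact lt_irrefl _ h3
    have h6 : inner ℝ b y' ≠ 0 := fun h7 => h5
      ((Finset.mem_filter.1 (h (Finset.mem_filter.2 ⟨hb, h7⟩))).2)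
    have h7 : 0 < inner ℝ b y' := lt_of_le_of_ne (hn' b hb) (Ne.symm h6)
    rw [h1, G05_aux.inner_sum]
    exact Finset.sum_pos' (fun b' hb' => mul_nonneg (hc b' hb') (hn' b' hb')) ⟨b, hb, mul_pos h4 h7⟩

theorem face_eqv_iff {z : E} (hz : S.gn z) {y y' : E} (hy : S.le y z) (hy' : S.le y' z) :
    S.eqv y y' ↔ JJ S z y = JJ S z y' := by
  have h1 := face_le_iff S hz hy hy'
  have h2 := face_le_iff S hz hy' hy
  constructor
  · intro h
    exact Finset.Subset.antisymm (h2.1 h.2) (h1.1 h.1)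
  · intro h
    exact ⟨h1.2 h.symm.subset, h2.2 h.subset⟩

theorem fc_spec {z : E} (hz : S.gn z) {J : Finset E} (hJ : J ⊆ S.Dl z) :
    S.le (fc S z J) z ∧ JJ S z (fc S z J) = J := by
  have h : ∃ y, S.le y z ∧ JJ S z y = J := by
    obtain ⟨y, hy, hy'⟩ := S.s14' z hz J hJ
    refine ⟨y, (le_gn_iff S hz).2 fun a ha => ?_, ?_⟩
    · by_cases h : a ∈ J
      · rw [hy a h]
      · exact (hy' a ha h).le
    · ext a
      rw [JJ, Finset.mem_filter]
      constructor
      · rintro ⟨ha, h0⟩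
        by_contra h
        have h1 := hy' a ha h
        rw [h0] at h1
        exact lt_irrefl _ h1
      · intro h
        exact ⟨hJ h, hy a h⟩
  rw [fc, dif_pos h]
  exact h.choose_spec

theorem JJ_sub (z y : E) : JJ S z y ⊆ S.Dl z := Finset.filter_subset _ _

theorem JJ_add {z : E} (hz : S.gn z) {y y' : E} (hy : S.le y z) (hy' : S.le y' z) :
    JJ S z (y + y') = JJ S z y ∩ JJ S z y' := by
  have hn := (le_gn_iff S hz).1 hy
  have hn' := (le_gn_iff S hz).1 hy'
  ext a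
  rw [Finset.mem_inter, JJ, JJ, JJ, Finset.mem_filter, Finset.mem_filter, Finset.mem_filter, inner_add_right]
  constructor
  · rintro ⟨ha, h0⟩
    have h1 := hn a ha
    have h2 := hn' a ha
    exact ⟨⟨ha, by linarith⟩, ha, by linarith⟩
  · rintro ⟨⟨ha, h1⟩, -, h2⟩
    exact ⟨ha, by rw [h1, h2, add_zero]⟩

theorem JJ_top {z : E} (hz : S.gn z) {y : E} (hy : S.le y z) :
    JJ S z y = S.Dl z ↔ ∀ a ∈ S.R, inner ℝ a y = 0 := by
  constructor
  · intro h a ha
    obtain ⟨c, h1, -⟩ := G05_aux.comb S hz ha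
    rw [h1, G05_aux.inner_sum]
    refine Finset.sum_eq_zero fun b hb => ?_
    rw [← h] at hb
    rw [(Finset.mem_filter.1 hb).2, mul_zero]
  · intro h
    refine Finset.Subset.antisymm (JJ_sub S z y) fun a ha => Finset.mem_filter.2 ⟨ha, h a (S.s14 z hz a ha).1⟩

/-- relative version: if all simple roots at `z` vanishing at `y` vanish at `y'` then all roots vanishing at `y` vanish at `y'` -/
theorem JJ_rel {z : E} (hz : S.gn z) {y y' : E} (hy : S.le y z)
    (h : ∀ a ∈ S.Dl z, inner ℝ a y = 0 → inner ℝ a y' = 0) :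
    ∀ a ∈ S.R, inner ℝ a y = 0 → inner ℝ a y' = 0 := by
  have hn := (le_gn_iff S hz).1 hy
  intro a ha h0
  obtain ⟨c, h1, h2⟩ := G05_aux.comb S hz ha
  rw [h1, G05_aux.inner_sum] at h0
  rw [h1, G05_aux.inner_sum]
  have h3 : ∀ b ∈ S.Dl z, c b * inner ℝ b y = 0 := by
    rcases h2 with h2 | h2
    · exact (Finset.sum_eq_zero_iff_of_nonneg fun b hb => mul_nonneg (h2 b hb) (hn b hb)).1 h0
    · exact (Finset.sum_eq_zero_iff_of_nonpos fun b hb =>
        mul_nonpos_of_nonpos_of_nonneg (h2 b hb) (hn b hb)).1 h0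
  refine Finset.sum_eq_zero fun b hb => ?_
  rcases mul_eq_zero.1 (h3 b hb) with h4 | h4
  · rw [h4, zero_mul]
  · rw [h b hb h4, mul_zero]

end

end LieP
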