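import Pool.Agent.LieP.G05
import Pool.Agent.LieP.G04

/-!
# MP_6c3636_al, LieP, module G06: linear characters of the maximal unipotent subgroup (helper7)

Section 1, (1.7) and (8.-1) of the referee report. For `l` with `Lin (U z) l` the set `{J : l = 1 on U (fc z J)}` is closed under intersections (`w1`, `JJ_add`) and enlargement (`U_mono`), and contains `Dl z` (`U = ⊥` for a point where all roots vanish: it has the facet of `0`, `U_zero`). So it is `{J : J0 ⊆ J}`.
`exists_Rg`: for `b ∈ Dl z` let `y = fc z {b}`, `U z = U y (U z ⊓ L y)` (`mem_U_cm`, `z` is in the facet of `cm y z`), `U z ⊓ L y` is a nontrivial `2`-group (element of `s10` for `b`), so it has a nontrivial homomorphism to `ℤˣ` (a finite `2`-group `≠ 1` has a subgroup of index `2`, which is normal);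
extend it by `1` on `U y`: a homomorphism `l_b` of `U z` with `J0 = {b}`. The product `l` of the `l_b`: at `y_b = fc z (Dl z \ {b})` `l_{b'}` is `1` on `U y_b` for `b' ≠ b` (as `{b'} ⊆ Dl z \ {b}`) and `l_b` is not. So `J0 = Dl z`.
`card_Rg`: the regular characters form one orbit of `L z` (`w2`), `|L z|` is odd (`s11'`). `sum_faces`: the number of `J ⊆ Dl z` with `J0 ⊆ J` is `2^|Dl z \ J0|`.
-/

namespace LieP

noncomputable section

open Classical

variable {G E : Type} [Group G] [NormedAddCommGroup E] [InnerProductSpace ℝ E]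
  [FiniteDimensional ℝ E] (S : LieSys G E)

variable [Finite G]

private theorem lin_one {U : Subgroup G} {l : G → ℤˣ} (hl : Lin U l) : l 1 = 1 := by
  have h := hl 1 U.one_mem 1 U.one_mem
  rw [mul_one] at h
  exact mul_eq_left.mp h.symm

private theorem vanish_one {U : Subgroup G} {l : G → ℤˣ} (hl : Lin U l) {y : E}
    (hy : ∀ a ∈ S.R, inner ℝ a y = 0) : ∀ u ∈ S.U y, l u = 1 := by
  have h1 : S.eqv y 0 := by
    rw [eqv_iff]
    intro a ha
    rw [hy a ha, inner_zero_right]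
  intro u hu
  rw [U_eqv S h1, U_zero, Subgroup.mem_bot] at hu
  rw [hu]
  exact lin_one hl

private theorem good_iff {z : E} (hz : S.gn z) {l : G → ℤˣ} {y y' : E} (hy : S.le y z)
    (hy' : S.le y' z) (h : JJ S z y = JJ S z y') :
    (∀ u ∈ S.U y, l u = 1) ↔ ∀ u ∈ S.U y', l u = 1 := by
  rw [U_eqv S ((face_eqv_iff S hz hy hy').mpr h)]

theorem exists_J0 {z : E} (hz : S.gn z) {l : G → ℤˣ} (hl : Lin (S.U z) l) :
    ∃ J0 ⊆ S.Dl z, ∀ y, S.le y z → ((∀ u ∈ S.U y, l u = 1) ↔ J0 ⊆ JJ S z y) := by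
  have key : ∀ F : Finset (Finset E), (∀ J ∈ F, J ⊆ S.Dl z ∧ ∀ u ∈ S.U (fc S z J), l u = 1) →
      ∀ u ∈ S.U (fc S z ((S.Dl z).filter fun a => ∀ J ∈ F, a ∈ J)), l u = 1 := by
    intro F
    induction F using Finset.induction_on with
    | empty =>
      intro _
      have h1 : ((S.Dl z).filter fun a => ∀ J ∈ (∅ : Finset (Finset E)), a ∈ J) = S.Dl z := by
        rw [Finset.filter_eq_self]
        intro a _ J hJ
        exact absurd hJ (Finset.notMem_empty J)
      rw [h1]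
      have h2 := fc_spec S hz (Finset.Subset.refl (S.Dl z))
      exact vanish_one S hl ((JJ_top S hz h2.1).mp h2.2)
    | insert J F hJF ih =>
      intro hF
      have h1 := hF J (Finset.mem_insert_self J F)
      have h2 := ih fun J' hJ' => hF J' (Finset.mem_insert_of_mem hJ')
      set K := (S.Dl z).filter fun a => ∀ J ∈ F, a ∈ J with hK
      have hKs : K ⊆ S.Dl z := Finset.filter_subset _ _
      have h3 : ((S.Dl z).filter fun a => ∀ J' ∈ insert J F, a ∈ J') = J ∩ K := by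
        ext a
        simp only [Finset.mem_filter, Finset.mem_insert, forall_eq_or_imp, Finset.mem_inter, hK]
        constructor
        · rintro ⟨ha, haJ, haF⟩
          exact ⟨haJ, ha, haF⟩
        · rintro ⟨haJ, ha, haF⟩
          exact ⟨ha, haJ, haF⟩
      rw [h3]
      have s1 := fc_spec S hz h1.1
      have s2 := fc_spec S hz hKs
      have s3 := fc_spec S hz (J := J ∩ K) (Finset.inter_subset_left.trans h1.1)
      have h4 := le_add_left S s1.1 s2.1
      have h5 : JJ S z (fc S z J + fc S z K) = J ∩ K := by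
        rw [JJ_add S hz s1.1 s2.1, s1.2, s2.2]
      have h6 : ∀ u ∈ S.U (fc S z J + fc S z K), l u = 1 :=
        S.w1 z hz l hl _ _ s1.1 s2.1 h1.2 h2
      exact (good_iff S hz h4.2 s3.1 (h5.trans s3.2.symm)).mp h6
  let F : Finset (Finset E) := (S.Dl z).powerset.filter fun J => ∀ u ∈ S.U (fc S z J), l u = 1
  have hF : ∀ J ∈ F, J ⊆ S.Dl z ∧ ∀ u ∈ S.U (fc S z J), l u = 1 := by
    intro J hJ
    rw [Finset.mem_filter, Finset.mem_powerset] at hJ
    exact hJ
  have h0 := key F hF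
  set J0 := (S.Dl z).filter fun a => ∀ J ∈ F, a ∈ J with hJ0
  have hJ0s : J0 ⊆ S.Dl z := Finset.filter_subset _ _
  refine ⟨J0, hJ0s, fun y hy => ?_⟩
  have s0 := fc_spec S hz hJ0s
  have sy := fc_spec S hz (JJ_sub S z y)
  constructor
  · intro h a ha
    have h1 : JJ S z y ∈ F := by
      rw [Finset.mem_filter, Finset.mem_powerset]
      exact ⟨JJ_sub S z y, (good_iff S hz sy.1 hy sy.2).mpr h⟩
    exact (Finset.mem_filter.mp ha).2 _ h1
  · intro h u hu
    apply h0 u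
    apply U_mono S _ hu
    rw [face_le_iff S hz hy s0.1, s0.2]
    exact h

theorem Rg_iff {z : E} (hz : S.gn z) {l : G → ℤˣ} : S.Rg z l ↔ Lin (S.U z) l ∧
    ∀ y, S.le y z → ((∀ u ∈ S.U y, l u = 1) ↔ S.Dl z ⊆ JJ S z y) := by
  have h0 : ∀ y, S.le y z → (S.Dl z ⊆ JJ S z y ↔ ∀ a ∈ S.R, inner ℝ a y = 0) := by
    intro y hy
    rw [← JJ_top S hz hy]
    constructor
    · intro h
      exact Finset.Subset.antisymm (JJ_sub S z y) h
    · intro h
      rw [h]
  constructor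
  · rintro ⟨h1, h2⟩
    refine ⟨h1, fun y hy => ⟨fun h => (h0 y hy).mpr (h2 y hy h), fun h => ?_⟩⟩
    exact vanish_one S h1 ((h0 y hy).mp h)
  · rintro ⟨h1, h2⟩
    exact ⟨h1, fun y hy h => (h0 y hy).mp ((h2 y hy).mp h)⟩

/-- a homomorphism which is trivial on a proper subgroup of a `2`-group -/
private theorem exists_lin {U V : Subgroup G} (h2 : ∃ m : ℕ, Nat.card U = 2 ^ m) (hVU : V ≤ U)
    (hne : V ≠ U) : ∃ l ∈ lins U, (∀ u ∈ V, l u = 1) ∧ ∃ u ∈ U, l u ≠ 1 := by
  obtain ⟨m, hm⟩ := h2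
  have hp : Fact (Nat.Prime 2) := ⟨Nat.prime_two⟩
  have hV : ∃ n : ℕ, Nat.card V = 2 ^ n ∧ n < m := by
    have h1 : Nat.card V ∣ 2 ^ m := by
      rw [← hm]
      exact Subgroup.card_dvd_of_le hVU
    obtain ⟨n, hn, hn'⟩ := (Nat.dvd_prime_pow Nat.prime_two).mp h1
    refine ⟨n, hn', lt_of_le_of_ne hn ?_⟩
    intro h3
    apply hne
    apply Subgroup.eq_of_le_of_card_ge hVU
    rw [hn', hm, h3]
  obtain ⟨n, hn, hnm⟩ := hV
  have hcard : Nat.card (V.subgroupOf U) = 2 ^ n := by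
    rw [← hn]
    exact Nat.card_congr (Subgroup.subgroupOfEquivOfLe hVU).toEquiv
  obtain ⟨K, hK, hVK⟩ := Sylow.exists_subgroup_card_pow_prime_le 2 (n := n) (m := m - 1)
    (by rw [hm]; exact pow_dvd_pow 2 (Nat.sub_le m 1)) (V.subgroupOf U) hcard (by omega)
  have hidx : K.index = 2 := by
    have h1 := K.card_mul_index
    rw [hK, hm] at h1
    have h3 : 2 ^ m = 2 ^ (m - 1) * 2 := by
      rw [← pow_succ]
      congr 1
      omega
    rw [h3] at h1
    exact Nat.eq_of_mul_eq_mul_left (pow_pos (by norm_num) _) h1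
  let l : G → ℤˣ := fun u => if h : u ∈ U then (if (⟨u, h⟩ : U) ∈ K then 1 else -1) else 1
  have hl1 : ∀ u (h : u ∈ U), l u = if (⟨u, h⟩ : U) ∈ K then 1 else -1 := by
    intro u h
    exact dif_pos h
  refine ⟨l, ?_, ?_, ?_⟩
  · rw [lins, Set.Finite.mem_toFinset]
    refine ⟨?_, fun g hg => dif_neg hg⟩
    intro u hu v hv
    rw [hl1 u hu, hl1 v hv, hl1 (u * v) (U.mul_mem hu hv)]
    have h1 : ((⟨u * v, U.mul_mem hu hv⟩ : U) ∈ K) ↔ ((⟨u, hu⟩ : U) ∈ K ↔ (⟨v, hv⟩ : U) ∈ K) :=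
      Subgroup.mul_mem_iff_of_index_two hidx (a := (⟨u, hu⟩ : U)) (b := (⟨v, hv⟩ : U))
    by_cases hu' : (⟨u, hu⟩ : U) ∈ K
    · by_cases hv' : (⟨v, hv⟩ : U) ∈ K
      · rw [if_pos hu', if_pos hv', if_pos (h1.mpr ⟨fun _ => hv', fun _ => hu'⟩), one_mul]
      · rw [if_pos hu', if_neg hv', if_neg (fun h => hv' ((h1.mp h).mp hu')), one_mul]
    · by_cases hv' : (⟨v, hv⟩ : U) ∈ K
      · rw [if_neg hu', if_pos hv', if_neg (fun h => hu' ((h1.mp h).mpr hv')), mul_one]
      · rw [if_neg hu', if_neg hv',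
          if_pos (h1.mpr ⟨fun h => absurd h hu', fun h => absurd h hv'⟩)]
        norm_num
  · intro u hu
    rw [hl1 u (hVU hu), if_pos]
    exact hVK (Subgroup.mem_subgroupOf.mpr hu)
  · have h1 : K ≠ ⊤ := by
      intro h2
      rw [h2, Subgroup.index_top] at hidx
      exact absurd hidx (by norm_num)
    have h2 : ∃ u : U, u ∉ K := by
      by_contra h3
      push Not at h3
      exact h1 (Subgroup.eq_top_iff' K |>.mpr h3)
    obtain ⟨u, hu⟩ := h2
    refine ⟨u, u.2, ?_⟩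
    rw [hl1 (u : G) u.2, if_neg hu]
    decide

private theorem exists_lb {z : E} (hz : S.gn z) {b : E} (hb : b ∈ S.Dl z) :
    ∃ l ∈ lins (S.U z), ∀ y, S.le y z → ((∀ u ∈ S.U y, l u = 1) ↔ b ∈ JJ S z y) := by
  have hbs : ({b} : Finset E) ⊆ S.Dl z := Finset.singleton_subset_iff.mpr hb
  have sb := fc_spec S hz hbs
  have hbR := S.s14 z hz b hb
  have hb0 : inner ℝ b (fc S z {b}) = 0 := by
    have h1 : b ∈ JJ S z (fc S z {b}) := by
      rw [sb.2]
      exact Finset.mem_singleton_self b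
    exact (Finset.mem_filter.mp h1).2
  obtain ⟨g, hg1, hg⟩ := S.s10 b hbR.1
  have hle := U_mono S sb.1
  have hne : S.U (fc S z {b}) ≠ S.U z := by
    intro h
    apply hg1
    apply U_L_disj S (y := fc S z {b})
    · rw [h]
      exact (hg z).1 hbR.2
    · exact (hg _).2 hb0
  obtain ⟨l, hl, hl1, u, hu, hu1⟩ := exists_lin (card_U S z) hle hne
  refine ⟨l, hl, ?_⟩
  have hlin : Lin (S.U z) l := by
    rw [lins, Set.Finite.mem_toFinset] at hl
    exact hl.1
  obtain ⟨J0, hJ0, h0⟩ := exists_J0 S hz hlin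
  have h1 : J0 ⊆ {b} := by
    rw [← sb.2]
    exact (h0 _ sb.1).mp hl1
  have h2 : J0 = {b} := by
    rcases Finset.subset_singleton_iff.mp h1 with h3 | h3
    · exfalso
      apply hu1
      exact (h0 z (le_refl S z)).mpr (by rw [h3]; exact Finset.empty_subset _) u hu
    · exact h3
  intro y hy
  rw [h0 y hy, h2, Finset.singleton_subset_iff]

theorem exists_Rg {z : E} (hz : S.gn z) : ∃ l ∈ lins (S.U z), S.Rg z l := by
  have h1 : ∀ b : E, ∃ l : G → ℤˣ, b ∈ S.Dl z → (l ∈ lins (S.U z) ∧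
      ∀ y, S.le y z → ((∀ u ∈ S.U y, l u = 1) ↔ b ∈ JJ S z y)) := by
    intro b
    by_cases hb : b ∈ S.Dl z
    · obtain ⟨l, hl, hl'⟩ := exists_lb S hz hb
      exact ⟨l, fun _ => ⟨hl, hl'⟩⟩
    · exact ⟨1, fun h => absurd h hb⟩
  choose lb hlb using h1
  have hlin : ∀ b ∈ S.Dl z, Lin (S.U z) (lb b) ∧ ∀ g, g ∉ S.U z → lb b g = 1 := by
    intro b hb
    have h2 := (hlb b hb).1
    rw [lins, Set.Finite.mem_toFinset] at h2
    exact h2
  let l : G → ℤˣ := fun g => ∏ b ∈ S.Dl z, lb b g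
  have hl : Lin (S.U z) l := by
    intro u hu v hv
    show ∏ b ∈ S.Dl z, lb b (u * v) = (∏ b ∈ S.Dl z, lb b u) * ∏ b ∈ S.Dl z, lb b v
    rw [← Finset.prod_mul_distrib]
    exact Finset.prod_congr rfl fun b hb => (hlin b hb).1 u hu v hv
  refine ⟨l, ?_, ?_⟩
  · rw [lins, Set.Finite.mem_toFinset]
    exact ⟨hl, fun g hg => Finset.prod_eq_one fun b hb => (hlin b hb).2 g hg⟩
  · refine ⟨hl, fun y hy h => ?_⟩
    rw [← JJ_top S hz hy]
    refine Finset.Subset.antisymm (JJ_sub S z y) fun b hb => ?_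
    by_contra hbJ
    have hs : (S.Dl z).erase b ⊆ S.Dl z := Finset.erase_subset _ _
    have sy := fc_spec S hz hs
    have h2 : S.le (fc S z ((S.Dl z).erase b)) y := by
      rw [face_le_iff S hz sy.1 hy, sy.2]
      intro a ha
      rw [Finset.mem_erase]
      exact ⟨fun h3 => hbJ (h3 ▸ ha), JJ_sub S z y ha⟩
    have h3 : ∀ u ∈ S.U (fc S z ((S.Dl z).erase b)), lb b u = 1 := by
      intro u hu
      have h4 : ∏ b ∈ S.Dl z, lb b u = 1 := h u (U_mono S h2 hu)
      rw [← Finset.mul_prod_erase _ _ hb] at h4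
      have h5 : ∏ b' ∈ (S.Dl z).erase b, lb b' u = 1 := by
        refine Finset.prod_eq_one fun b' hb' => ?_
        refine ((hlb b' (hs hb')).2 _ sy.1).mpr ?_ u hu
        rw [sy.2]
        exact hb'
      rw [h5, mul_one] at h4
      exact h4
    have h4 := ((hlb b hb).2 _ sy.1).mp h3
    rw [sy.2] at h4
    exact Finset.notMem_erase b _ h4

theorem Rg_conj {z : E} (hz : S.gn z) {l l' : G → ℤˣ} (h : S.Rg z l) (h' : S.Rg z l') :
    ∃ s ∈ S.L z, ∀ u ∈ S.U z, l' u = l (s * u * s⁻¹) := by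
  refine S.w2 z hz l l' h.1 h'.1 fun y hy => ?_
  rw [((Rg_iff S hz).mp h).2 y hy, ((Rg_iff S hz).mp h').2 y hy]

theorem Rg_L {z : E} {l : G → ℤˣ} (h : S.Rg z l) {s : G} (hs : s ∈ S.L z) :
    S.Rg z (fun u => l (s * u * s⁻¹)) := by
  constructor
  · intro u hu v hv
    show l (s * (u * v) * s⁻¹) = l (s * u * s⁻¹) * l (s * v * s⁻¹)
    rw [← h.1 _ ((L_conj S hs).mpr hu) _ ((L_conj S hs).mpr hv)]
    congr 1
    group
  · intro y hy hu
    refine h.2 y hy fun u hu' => ?_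
    have hs' : s⁻¹ ∈ S.L y := (S.L y).inv_mem (L_le S hy hs)
    have h1 : s⁻¹ * u * s ∈ S.U y := by
      have h2 := (L_conj S hs').mpr hu'
      rwa [inv_inv] at h2
    have h3 : l (s * (s⁻¹ * u * s) * s⁻¹) = 1 := hu _ h1
    have h4 : s * (s⁻¹ * u * s) * s⁻¹ = u := by group
    rwa [h4] at h3

theorem Rg_ac {z : E} {l : G → ℤˣ} (h : S.Rg z l) {n : G} (hn : n ∈ S.N) :
    S.Rg (S.ac n z) (fun u => l (n⁻¹ * u * n)) := by
  have h0 : ∀ x, ∀ u ∈ S.U (S.ac n x), n⁻¹ * u * n ∈ S.U x := by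
    intro x u hu
    rw [conj_U S hn]
    have h1 : n * (n⁻¹ * u * n) * n⁻¹ = u := by group
    rwa [h1]
  constructor
  · intro u hu v hv
    show l (n⁻¹ * (u * v) * n) = l (n⁻¹ * u * n) * l (n⁻¹ * v * n)
    rw [← h.1 _ (h0 z u hu) _ (h0 z v hv)]
    congr 1
    group
  · intro y hy hu
    have h1 : S.ac n (S.ac n⁻¹ y) = y := ac_apply_inv S hn y
    have h2 : S.le (S.ac n⁻¹ y) z := by
      rw [← ac_le S hn, h1]
      exact hy
    have h3 := h.2 (S.ac n⁻¹ y) h2 fun u hu' => by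
      have h4 := (conj_U S hn).mp hu'
      rw [h1] at h4
      have h5 : l (n⁻¹ * (n * u * n⁻¹) * n) = 1 := hu _ h4
      have h6 : n⁻¹ * (n * u * n⁻¹) * n = u := by group
      rwa [h6] at h5
    rw [← ac_zero_iff S hn, h1] at h3
    exact h3

theorem Rg_eqv {z z' : E} {l : G → ℤˣ} (h : S.Rg z l) (h' : S.eqv z z') : S.Rg z' l := by
  constructor
  · rw [← U_eqv S h']
    exact h.1
  · intro y hy
    exact h.2 y (le_trans S hy h'.2)

theorem card_Rg {z : E} (hz : S.gn z) : Odd ((lins (S.U z)).filter fun l => S.Rg z l).card := by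
  obtain ⟨l0, hl0, hR⟩ := exists_Rg S hz
  rw [lins, Set.Finite.mem_toFinset] at hl0
  letI act : MulAction (S.L z) (G → ℤˣ) :=
    { smul := fun s l u => l ((s : G)⁻¹ * u * s)
      one_smul := by
        intro l
        funext u
        show l (((1 : S.L z) : G)⁻¹ * u * ((1 : S.L z) : G)) = l u
        rw [Subgroup.coe_one, inv_one, one_mul, mul_one]
      mul_smul := by
        intro s t l
        funext u
        show l (((s * t : S.L z) : G)⁻¹ * u * ((s * t : S.L z) : G)) =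
          l ((t : G)⁻¹ * ((s : G)⁻¹ * u * s) * t)
        rw [Subgroup.coe_mul]
        congr 1
        group }
  have hsm : ∀ (s : S.L z) (l : G → ℤˣ) (u : G), (s • l) u = l ((s : G)⁻¹ * u * s) :=
    fun _ _ _ => rfl
  have hinv : ∀ s : S.L z, ∀ u : G, ((s : G)⁻¹ * u * s ∈ S.U z ↔ u ∈ S.U z) := by
    intro s u
    have h1 := L_conj S (y := z) (u := u) ((S.L z).inv_mem s.2)
    rwa [inv_inv] at h1
  have hset : (((lins (S.U z)).filter fun l => S.Rg z l : Finset (G → ℤˣ)) : Set (G → ℤˣ)) =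
      MulAction.orbit (S.L z) l0 := by
    ext l
    rw [Finset.mem_coe, Finset.mem_filter, lins, Set.Finite.mem_toFinset]
    constructor
    · rintro ⟨⟨hl1, hl2⟩, hl3⟩
      obtain ⟨s, hs, hs'⟩ := Rg_conj S hz hR hl3
      refine ⟨⟨s⁻¹, (S.L z).inv_mem hs⟩, ?_⟩
      funext u
      show ((⟨s⁻¹, (S.L z).inv_mem hs⟩ : S.L z) • l0) u = l u
      rw [hsm]
      show l0 ((s⁻¹)⁻¹ * u * s⁻¹) = l u
      rw [inv_inv]
      by_cases hu : u ∈ S.U z
      · exact (hs' u hu).symm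
      · rw [hl2 u hu]
        apply hl0.2
        rw [L_conj S hs]
        exact hu
    · rintro ⟨s, rfl⟩
      have h1 : S.Rg z (s • l0) := by
        have h2 := Rg_L S hR ((S.L z).inv_mem s.2)
        have h3 : (s • l0) = fun u => l0 ((s : G)⁻¹ * u * ((s : G)⁻¹)⁻¹) := by
          funext u
          rw [hsm, inv_inv]
        rw [h3]
        exact h2
      refine ⟨⟨h1.1, fun u hu => ?_⟩, h1⟩
      show (s • l0) u = 1
      rw [hsm]
      apply hl0.2
      rw [hinv s u]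
      exact hu
  have hcard : ((lins (S.U z)).filter fun l => S.Rg z l).card =
      Nat.card (MulAction.orbit (S.L z) l0) := by
    rw [← hset]
    exact (Nat.card_eq_card_toFinset _).trans (by simp) |>.symm
  have hdvd : Nat.card (MulAction.orbit (S.L z) l0) ∣ Nat.card (S.L z) := by
    have := Fintype.ofFinite (S.L z)
    have := Fintype.ofFinite (MulAction.orbit (S.L z) l0)
    have := Fintype.ofFinite (MulAction.stabilizer (S.L z) l0)
    rw [Nat.card_eq_fintype_card, Nat.card_eq_fintype_card]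
    exact ⟨_, (MulAction.card_orbit_mul_card_stabilizer_eq_card_group (S.L z) l0).symm⟩
  rw [hcard]
  exact (S.s11' z hz).of_dvd_nat hdvd

theorem sum_faces {z : E} (hz : S.gn z) {l : G → ℤˣ} (hl : Lin (S.U z) l) :
    ∑ J ∈ (S.Dl z).powerset, (if ∀ u ∈ S.U (fc S z J), l u = 1 then (1 : ZMod 2) else 0) =
      if S.Rg z l then 1 else 0 := by
  obtain ⟨J0, hJ0, h0⟩ := exists_J0 S hz hl
  have h1 : ∀ J ∈ (S.Dl z).powerset,
      (if ∀ u ∈ S.U (fc S z J), l u = 1 then (1 : ZMod 2) else 0) = if J0 ⊆ J then 1 else 0 := by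
    intro J hJ
    have sJ := fc_spec S hz (Finset.mem_powerset.mp hJ)
    have h2 := h0 _ sJ.1
    rw [sJ.2] at h2
    by_cases h3 : J0 ⊆ J
    · rw [if_pos h3, if_pos (h2.mpr h3)]
    · rw [if_neg h3, if_neg (fun h4 => h3 (h2.mp h4))]
  rw [Finset.sum_congr rfl h1, Finset.sum_boole]
  have h2 : ((S.Dl z).powerset.filter fun J => J0 ⊆ J) = Finset.Icc J0 (S.Dl z) := by
    ext J
    rw [Finset.mem_filter, Finset.mem_powerset, Finset.mem_Icc]
    exact and_comm
  rw [h2, Finset.card_Icc_finset hJ0]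
  have hRg : S.Rg z l ↔ J0 = S.Dl z := by
    rw [Rg_iff S hz]
    constructor
    · rintro ⟨_, h3⟩
      have s0 := fc_spec S hz hJ0
      refine Finset.Subset.antisymm hJ0 ?_
      have h4 := (h3 _ s0.1).mp ((h0 _ s0.1).mpr (by rw [s0.2]))
      rwa [s0.2] at h4
    · intro h3
      refine ⟨hl, fun y hy => ?_⟩
      rw [h0 y hy, h3]
  by_cases h3 : J0 = S.Dl z
  · rw [if_pos (hRg.mpr h3), h3, Nat.sub_self, pow_zero, Nat.cast_one]
  · rw [if_neg (fun h4 => h3 (hRg.mp h4))]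
    have h4 : J0.card < (S.Dl z).card := Finset.card_lt_card (lt_of_le_of_ne hJ0 h3)
    obtain ⟨k, hk⟩ : ∃ k, (S.Dl z).card - J0.card = k + 1 := ⟨(S.Dl z).card - J0.card - 1, by omega⟩
    rw [hk, pow_succ, Nat.cast_mul]
    have h5 : ((2 : ℕ) : ZMod 2) = 0 := by decide
    rw [h5, mul_zero]

end

end LieP
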