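import Pool.Agent.LieP.G03

/-!
# MP_6c3636_al, LieP, module G07: Levi systems: definitions, axioms (S1) - (S8) (helper7)

Section 2. `y0` is fixed, `w x = cm y0 x`. The system of the Levi subgroup `L y0`: roots vanishing at `y0`, `U' x = U x ⊓ L y0`, `L' x = L x ⊓ L y0`.
`lU_eq`: `U_cm_L`. `lL_eq`: `L_cm`. (s1), (s2), (s6): use the axiom of `S` with `z` replaced by `cm y0 z` (a root vanishes at `cm y0 z` iff it vanishes at `y0` and at `z`, `cm_zero`; `L (cm y0 z) = L y0 ⊓ L z`).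
(s5P): `S.s5P` gives `l = m * v`; by `s5L` (with `x := y`, `y := y0`) `m ∈ L y0`. (s7): for `n ∈ lN` we have `ac n y0 = y0` (`fix_iff`). `lN` normalizes `L y0`.
-/

namespace LieP

noncomputable section

open Classical

variable {G E : Type} [Group G] [NormedAddCommGroup E] [InnerProductSpace ℝ E]
  [FiniteDimensional ℝ E] (S : LieSys G E)

/-- the roots of the Levi system -/
def lR (y0 : E) : Finset E := S.R.filter fun a => inner ℝ a y0 = 0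

/-- the unipotent radicals of the Levi system -/
def lU (y0 x : E) : Subgroup G := S.U x ⊓ S.L y0

/-- the Levi subgroups of the Levi system -/
def lL (y0 x : E) : Subgroup G := S.L x ⊓ S.L y0

/-- the monomial subgroup of the Levi system -/
def lN (y0 : E) : Subgroup G := S.N ⊓ S.L y0

/-- the simple roots of the Levi system -/
def lD (y0 z : E) : Finset E := (S.Dl (S.cm y0 z)).filter fun a => inner ℝ a y0 = 0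

theorem mem_lR {y0 a : E} : a ∈ lR S y0 ↔ a ∈ S.R ∧ inner ℝ a y0 = 0 := Finset.mem_filter

theorem lU_eq (y0 x : E) : lU S y0 x = S.U (S.cm y0 x) ⊓ S.L y0 := by
  exact (U_cm_L S y0 x).symm

theorem lL_eq (y0 x : E) : lL S y0 x = S.L (S.cm y0 x) := by
  rw [L_cm, inf_comm]
  rfl

theorem lN_fix {y0 : E} {n : G} (hn : n ∈ lN S y0) : S.ac n y0 = y0 := by
  exact (fix_iff S hn.1).2 hn.2

theorem lev_s1 (y0 : E) : ∀ x x' y z, (∀ a ∈ lR S y0, inner ℝ a z = 0 → 0 < inner ℝ a x → 0 < inner ℝ a x' → 0 < inner ℝ a y) →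
    ∀ g ∈ lU S y0 x, g ∈ lU S y0 x' → g ∈ lL S y0 z → g ∈ lU S y0 y := by
  intro x x' y z h g h1 h2 h3
  rw [lL_eq] at h3
  refine ⟨S.s1 x x' y (S.cm y0 z) (fun a ha h0 => ?_) g h1.1 h2.1 h3, h1.2⟩
  rw [cm_zero S ha] at h0
  exact h a ((mem_lR S).2 ⟨ha, h0.1⟩) h0.2

theorem lev_s2 (y0 : E) : ∀ x y w, (∀ a ∈ lR S y0, inner ℝ a x = 0 → inner ℝ a y = 0 → inner ℝ a w = 0) →
    ∀ g ∈ lL S y0 x, g ∈ lL S y0 y → g ∈ lL S y0 w := by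
  intro x y w h g h1 h2
  refine ⟨S.s2 (S.cm y0 x) y w (fun a ha h0 => ?_) g ?_ h2.1, h1.2⟩
  · rw [cm_zero S ha] at h0
    exact h a ((mem_lR S).2 ⟨ha, h0.1⟩) h0.2
  · rw [← lL_eq]
    exact h1

theorem lev_s3 (y0 : E) : lL S y0 0 = S.L y0 := by
  show S.L 0 ⊓ S.L y0 = S.L y0
  rw [S.s3]
  exact inf_eq_right.2 (S.LH y0)

theorem lev_s4 (y0 : E) : ∀ x, ∀ l ∈ lL S y0 x, ∀ u ∈ lU S y0 x, l * u * l⁻¹ ∈ lU S y0 x := by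
  intro x l hl u hu
  exact ⟨S.s4 x l hl.1 u hu.1, (S.L y0).mul_mem ((S.L y0).mul_mem hl.2 hu.2) ((S.L y0).inv_mem hl.2)⟩

theorem lev_s4_b (y0 : E) : ∀ x, ∀ l ∈ lL S y0 x, ∀ v ∈ lU S y0 (-x), l * v ∈ lU S y0 x → l * v = 1 := by
  intro x l hl v hv h
  exact S.s4' x l hl.1 v hv.1 h.1

theorem lev_s5U (y0 : E) : ∀ x y, ∀ l ∈ lL S y0 x, ∀ u ∈ lU S y0 x, l * u ∈ lU S y0 y → l ∈ lU S y0 y := by
  intro x y l hl u hu h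
  exact ⟨S.s5U x y l hl.1 u hu.1 h.1, hl.2⟩

theorem lev_s5L (y0 : E) : ∀ x y, ∀ l ∈ lL S y0 x, ∀ u ∈ lU S y0 x, l * u ∈ lL S y0 y → l ∈ lL S y0 y := by
  intro x y l hl u hu h
  exact ⟨S.s5L x y l hl.1 u hu.1 h.1, hl.2⟩

theorem lev_s5P (y0 : E) : ∀ x y, ∀ l ∈ lL S y0 x, ∀ u ∈ lU S y0 x, (∃ m ∈ lL S y0 y, ∃ v ∈ lU S y0 y, l * u = m * v) →
    ∃ m ∈ lL S y0 y, ∃ v ∈ lU S y0 y, l = m * v := by
  rintro x y l hl u hu ⟨m, hm, v, hv, h⟩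
  obtain ⟨m', hm', v', hv', h'⟩ := S.s5P x y l hl.1 u hu.1 ⟨m, hm.1, v, hv.1, h⟩
  have h1 : m' ∈ S.L y0 := S.s5L y y0 m' hm' v' hv' (by rw [← h']; exact hl.2)
  have h2 : v' ∈ S.L y0 := by
    have h3 : v' = m'⁻¹ * l := by rw [h', inv_mul_cancel_left]
    rw [h3]
    exact mul_mem (inv_mem h1) hl.2
  exact ⟨m', ⟨hm', h1⟩, v', ⟨hv', h2⟩, h'⟩

theorem lev_s6 (y0 : E) : ∀ x y z, ∀ u ∈ lU S y0 y ⊓ lL S y0 z, ∃ a ∈ lU S y0 y ⊓ lL S y0 z, ∃ b ∈ lU S y0 y ⊓ lL S y0 z, ∃ c ∈ lU S y0 y ⊓ lL S y0 z,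
    a ∈ lU S y0 x ∧ b ∈ lL S y0 x ∧ c ∈ lU S y0 (-x) ∧ u = a * b * c := by
  rintro x y z u ⟨hu1, hu2⟩
  have hu3 : u ∈ S.L (S.cm y0 z) := by
    rw [← lL_eq]
    exact hu2
  have key : ∀ g, g ∈ S.U y ⊓ S.L (S.cm y0 z) → g ∈ lU S y0 y ⊓ lL S y0 z ∧ g ∈ S.L y0 := by
    rintro g ⟨hg1, hg2⟩
    rw [← lL_eq] at hg2
    exact ⟨⟨⟨hg1, hg2.2⟩, hg2⟩, hg2.2⟩
  obtain ⟨a, ha, b, hb, c, hc, h1, h2, h3, h4⟩ := S.s6 x y (S.cm y0 z) u ⟨hu1.1, hu3⟩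
  exact ⟨a, (key a ha).1, b, (key b hb).1, c, (key c hc).1, ⟨h1, (key a ha).2⟩, ⟨h2, (key b hb).2⟩,
    ⟨h3, (key c hc).2⟩, h4⟩

theorem lev_s7U (y0 : E) : ∀ n ∈ lN S y0, ∀ x, ∀ u ∈ lU S y0 x, n * u * n⁻¹ ∈ lU S y0 (S.ac n x) := by
  intro n hn x u hu
  exact ⟨S.s7U n hn.1 x u hu.1, (S.L y0).mul_mem ((S.L y0).mul_mem hn.2 hu.2) ((S.L y0).inv_mem hn.2)⟩

theorem lev_s7L (y0 : E) : ∀ n ∈ lN S y0, ∀ x, ∀ u ∈ lL S y0 x, n * u * n⁻¹ ∈ lL S y0 (S.ac n x) := by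
  intro n hn x u hu
  exact ⟨S.s7L n hn.1 x u hu.1, (S.L y0).mul_mem ((S.L y0).mul_mem hn.2 hu.2) ((S.L y0).inv_mem hn.2)⟩

theorem lev_s7R (y0 : E) : ∀ n ∈ lN S y0, ∀ a ∈ lR S y0, S.ac n a ∈ lR S y0 := by
  intro n hn a ha
  rw [mem_lR] at ha ⊢
  refine ⟨S.s7R n hn.1 a ha.1, ?_⟩
  have h1 : inner ℝ (S.ac n a) (S.ac n y0) = inner ℝ a y0 := LinearIsometryEquiv.inner_map_map _ _ _
  rw [lN_fix S hn, ha.2] at h1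
  exact h1

theorem lev_s8 (y0 : E) : ∀ n ∈ lN S y0, ∀ x, (∃ v ∈ lU S y0 (-x), ∃ l ∈ lL S y0 x, ∃ u ∈ lU S y0 x, n = v * l * u) → S.ac n x = x := by
  rintro n hn x ⟨v, hv, l, hl, u, hu, h⟩
  exact S.s8 n hn.1 x ⟨v, hv.1, l, hl.1, u, hu.1, h⟩

theorem lev_s8_b (y0 : E) : ∀ n ∈ lN S y0, ∀ x, S.ac n x = x → n ∈ lL S y0 x := by
  intro n hn x h
  exact ⟨S.s8' n hn.1 x h, hn.2⟩

end

end LieP
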