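import Pool.Agent.LieP.G07
import Pool.Agent.LieP.G05

/-!
# MP_6c3636_al, LieP, module G08: Levi systems: axioms (S9) - (S14) (helper7)

Section 2. `z` is generic for the Levi system iff `cm y0 z` is generic (`lgn`).
(s9): `g ∈ L y0`; `S.s9` for `cm y0 z`, `cm y0 z'`: `g = u l n l' u'`, all four factors other than `n` are in `P y0` (`P_mono`, `y0` is a face of `cm y0 z`), so `n ∈ P y0`, `ac n y0 = y0` (`s8`), `n ∈ L y0`. `u = v₁ u₁`, `v₁ ∈ U y0`, `u₁ ∈ U z ⊓ L y0`, `u' = u₁' v₂` (`mem_U_cm`, `U_normal_cm`).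
Then `v₁` can be moved: `g = u₁ l n l' u₁' v₃` with `v₃ ∈ U y0` (all of `u₁ l n l' u₁'` is in `L y0`, which normalizes `U y0`), so `v₃ ∈ L y0 ⊓ U y0 = 1`.
(s12): `S.s12` for `cm y0 z`, `cm y0 z'`: `y0` and `ac n y0` are faces of `cm y0 z'`, so `ac n y0 = y0` (`face_fix`), `n ∈ L y0`; for a root vanishing at `y0`: `⟨a, ac n (cm y0 z)⟩ = ε ⟨a, ac n z⟩`.
(s13): apply `face_fix` (`z := cm y0 z`) to `y0 + r y` with small `r > 0` (`exists_small` for `y0, y` and `y0, ac n y`): `ac n (y0 + r y) = y0 + r ac n y`.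
(s14''): `a = ∑ c_b b` over `Dl (cm y0 z)`; evaluate at `y0`: `0 = ∑ c_b ⟨b,y0⟩` with all terms `≥ 0` (`b` is positive at `cm y0 z`, so `≥ 0` at the face `y0`), so `c_b = 0` unless `⟨b,y0⟩ = 0`.
-/

namespace LieP

noncomputable section

open Classical

variable {G E : Type} [Group G] [NormedAddCommGroup E] [InnerProductSpace ℝ E]
  [FiniteDimensional ℝ E] (S : LieSys G E)

theorem lgn {y0 z : E} : (∀ a ∈ lR S y0, inner ℝ a z ≠ 0) ↔ S.gn (S.cm y0 z) := by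
  constructor
  · intro h a ha h0
    have h1 := (cm_zero S ha).1 h0
    exact h a ((mem_lR S).2 ⟨ha, h1.1⟩) h1.2
  · intro h a ha h0
    have h1 := (mem_lR S).1 ha
    exact h a h1.1 ((cm_zero S h1.1).2 ⟨h1.2, h0⟩)

theorem lev_s9 (y0 : E) : ∀ z z', (∀ a ∈ lR S y0, inner ℝ a z ≠ 0) → (∀ a ∈ lR S y0, inner ℝ a z' ≠ 0) → ∀ g ∈ S.L y0,
    ∃ u ∈ lU S y0 z, ∃ l ∈ lL S y0 z, ∃ n ∈ lN S y0, ∃ l' ∈ lL S y0 z', ∃ u' ∈ lU S y0 z', g = u * l * n * l' * u' := by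
  intro z z' hz hz' g hg
  obtain ⟨u, hu, l, hl, n, hn, l', hl', u', hu', hgeq⟩ :=
    S.s9 (S.cm y0 z) (S.cm y0 z') ((lgn S).1 hz) ((lgn S).1 hz') g (S.LH y0 hg)
  have hlL : l ∈ lL S y0 z := by rw [lL_eq]; exact hl
  have hlL' : l' ∈ lL S y0 z' := by rw [lL_eq]; exact hl'
  obtain ⟨a, ha, b, hb, hbL, hab⟩ := (mem_U_cm S).1 hu
  obtain ⟨a', ha', b', hb', hbL', hab'⟩ := (mem_U_cm S).1 hu'
  have hnP : n ∈ S.P y0 := by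
    have h1 : n = (u * l)⁻¹ * g * (l' * u')⁻¹ := by
      rw [hgeq]; group
    rw [h1]
    have huP : u ∈ S.P y0 := by
      rw [hab]; exact (S.P y0).mul_mem (U_le_P S y0 ha) (L_le_P S y0 hbL)
    have huP' : u' ∈ S.P y0 := by
      rw [hab']; exact (S.P y0).mul_mem (U_le_P S y0 ha') (L_le_P S y0 hbL')
    have hlP : l ∈ S.P y0 := L_le_P S y0 hlL.2
    have hlP' : l' ∈ S.P y0 := L_le_P S y0 hlL'.2
    exact (S.P y0).mul_mem ((S.P y0).mul_mem ((S.P y0).inv_mem ((S.P y0).mul_mem huP hlP))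
      (L_le_P S y0 hg)) ((S.P y0).inv_mem ((S.P y0).mul_mem hlP' huP'))
  obtain ⟨l0, hl0, u0, hu0, hnlu⟩ := (mem_P S).1 hnP
  have hfix : S.ac n y0 = y0 :=
    S.s8 n hn y0 ⟨1, (S.U (-y0)).one_mem, l0, hl0, u0, hu0, by rw [one_mul]; exact hnlu⟩
  have hnL : n ∈ S.L y0 := S.s8' n hn y0 hfix
  have hm : b * l * n * l' * b' ∈ S.L y0 :=
    (S.L y0).mul_mem ((S.L y0).mul_mem ((S.L y0).mul_mem ((S.L y0).mul_mem hbL hlL.2) hnL) hlL'.2) hbL'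
  refine ⟨b, ⟨hb, hbL⟩, l, hlL, n, ⟨hn, hnL⟩, l', hlL', b', ⟨hb', hbL'⟩, ?_⟩
  set m : G := b * l * n * l' * b' with hmdef
  have h1 : m⁻¹ * a * m⁻¹⁻¹ ∈ S.U y0 := (L_conj S ((S.L y0).inv_mem hm)).2 ha
  have h2 : b'⁻¹ * a' * b'⁻¹⁻¹ ∈ S.U y0 := (L_conj S ((S.L y0).inv_mem hbL')).2 ha'
  have h3 : m⁻¹ * g = (m⁻¹ * a * m⁻¹⁻¹) * (b'⁻¹ * a' * b'⁻¹⁻¹) := by
    rw [hgeq, hab, hab', hmdef]; group
  have h4 : m⁻¹ * g ∈ S.U y0 := by rw [h3]; exact (S.U y0).mul_mem h1 h2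
  have h5 : m⁻¹ * g ∈ S.L y0 := (S.L y0).mul_mem ((S.L y0).inv_mem hm) hg
  have h6 : m⁻¹ * g = 1 := U_L_disj S h4 h5
  exact (inv_mul_eq_one.1 h6).symm

theorem lev_s10 (y0 : E) : ∀ a ∈ lR S y0, ∃ g : G, g ≠ 1 ∧ ∀ x, (0 < inner ℝ a x → g ∈ lU S y0 x) ∧ (inner ℝ a x = 0 → g ∈ lL S y0 x) := by
  intro a ha
  have h1 := (mem_lR S).1 ha
  obtain ⟨g, hg, h⟩ := S.s10 a h1.1
  exact ⟨g, hg, fun x => ⟨fun hx => ⟨(h x).1 hx, (h y0).2 h1.2⟩, fun hx => ⟨(h x).2 hx, (h y0).2 h1.2⟩⟩⟩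

theorem lev_s11 (y0 : E) : ∀ x, ∀ u ∈ lU S y0 x, ∃ k : ℕ, u ^ (2 ^ k) = 1 := by
  intro x u hu
  exact S.s11 x u hu.1

theorem lev_s11_b (y0 : E) : ∀ z, (∀ a ∈ lR S y0, inner ℝ a z ≠ 0) → Odd (Nat.card (lL S y0 z)) := by
  intro z hz
  rw [lL_eq]
  exact S.s11' (S.cm y0 z) ((lgn S).1 hz)

theorem lev_s12 (y0 : E) : ∀ z z', (∀ a ∈ lR S y0, inner ℝ a z ≠ 0) → (∀ a ∈ lR S y0, inner ℝ a z' ≠ 0) →
    ∃ n ∈ lN S y0, ∀ a ∈ lR S y0, (0 < inner ℝ a (S.ac n z) ↔ 0 < inner ℝ a z') := by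
  intro z z' hz hz'
  obtain ⟨n, hn, h⟩ := S.s12 (S.cm y0 z) (S.cm y0 z') ((lgn S).1 hz) ((lgn S).1 hz')
  have h1 : S.le (S.ac n (S.cm y0 z)) (S.cm y0 z') := fun a ha h0 => (h a ha).1 h0
  have h2 : S.le (S.ac n y0) (S.ac n (S.cm y0 z)) := (ac_le S hn).2 (le_cm S y0 z)
  have hfix : S.ac n y0 = y0 := face_fix S ((lgn S).1 hz') hn (le_cm S y0 z') (le_trans S h2 h1)
  have hnL : n ∈ S.L y0 := (fix_iff S hn).1 hfix
  refine ⟨n, ⟨hn, hnL⟩, fun a ha => ?_⟩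
  obtain ⟨haR, ha0⟩ := (mem_lR S).1 ha
  have h3 := h a haR
  have h4 : inner ℝ a (S.ac n (S.cm y0 z)) = S.eps y0 z * inner ℝ a (S.ac n z) := by
    unfold LieSys.cm
    rw [map_add, map_smul, hfix, inner_add_right, inner_smul_right, ha0, zero_add]
  have h5 : inner ℝ a (S.cm y0 z') = S.eps y0 z' * inner ℝ a z' := by
    unfold LieSys.cm
    rw [inner_add_right, inner_smul_right, ha0, zero_add]
  rw [h4, h5, mul_pos_iff_of_pos_left (eps_pos S y0 z), mul_pos_iff_of_pos_left (eps_pos S y0 z')] at h3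
  exact h3

theorem lev_s13 (y0 : E) : ∀ z, (∀ a ∈ lR S y0, inner ℝ a z ≠ 0) → ∀ n ∈ lN S y0, ∀ y,
    (∀ a ∈ lR S y0, 0 < inner ℝ a y → 0 < inner ℝ a z) →
    (∀ a ∈ lR S y0, 0 < inner ℝ a (S.ac n y) → 0 < inner ℝ a z) → S.ac n y = y := by
  intro z hz n hn y h h'
  have hfix : S.ac n y0 = y0 := lN_fix S hn
  obtain ⟨r1, hr1, h1⟩ := exists_small S y0 y
  obtain ⟨r2, hr2, h2⟩ := exists_small S y0 (S.ac n y)
  have hr : 0 < min r1 r2 := lt_min hr1 hr2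
  set r := min r1 r2 with hrdef
  have hac : S.ac n (y0 + r • y) = y0 + r • S.ac n y := by
    rw [map_add, map_smul, hfix]
  have hle1 : S.le (y0 + r • y) (S.cm y0 z) := by
    intro a ha h0
    rw [cm_pos S ha]
    rcases (h1 r hr (min_le_left _ _) a ha).1 h0 with h3 | h3
    · exact Or.inl h3
    · exact Or.inr ⟨h3.1, h a ((mem_lR S).2 ⟨ha, h3.1⟩) h3.2⟩
  have hle2 : S.le (S.ac n (y0 + r • y)) (S.cm y0 z) := by
    rw [hac]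
    intro a ha h0
    rw [cm_pos S ha]
    rcases (h2 r hr (min_le_right _ _) a ha).1 h0 with h3 | h3
    · exact Or.inl h3
    · exact Or.inr ⟨h3.1, h' a ((mem_lR S).2 ⟨ha, h3.1⟩) h3.2⟩
  have h4 := face_fix S ((lgn S).1 hz) hn.1 hle1 hle2
  rw [hac] at h4
  exact smul_right_injective E hr.ne' (add_left_cancel h4)

theorem lev_s14 (y0 : E) : ∀ z, (∀ a ∈ lR S y0, inner ℝ a z ≠ 0) → ∀ a ∈ lD S y0 z, a ∈ lR S y0 ∧ 0 < inner ℝ a z := by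
  intro z hz a ha
  obtain ⟨h1, h2⟩ := Finset.mem_filter.1 ha
  obtain ⟨h3, h4⟩ := S.s14 (S.cm y0 z) ((lgn S).1 hz) a h1
  refine ⟨(mem_lR S).2 ⟨h3, h2⟩, ?_⟩
  rcases (cm_pos S h3).1 h4 with h5 | h5
  · exact absurd h2 h5.ne'
  · exact h5.2

theorem lev_s14_b (y0 : E) : ∀ z, (∀ a ∈ lR S y0, inner ℝ a z ≠ 0) → ∀ J ⊆ lD S y0 z, ∃ y, (∀ a ∈ J, inner ℝ a y = 0) ∧
    ∀ a ∈ lD S y0 z, a ∉ J → 0 < inner ℝ a y := by
  intro z hz J hJ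
  obtain ⟨y, h1, h2⟩ := S.s14' (S.cm y0 z) ((lgn S).1 hz) J
    (fun a ha => (Finset.mem_filter.1 (hJ ha)).1)
  exact ⟨y, h1, fun a ha haJ => h2 a (Finset.mem_filter.1 ha).1 haJ⟩

theorem lev_s14_c (y0 : E) : ∀ z, (∀ a ∈ lR S y0, inner ℝ a z ≠ 0) → ∀ a ∈ lR S y0, 0 < inner ℝ a z →
    ∃ c : E → ℝ, (∀ b ∈ lD S y0 z, 0 ≤ c b) ∧ a = ∑ b ∈ lD S y0 z, c b • b := by
  intro z hz a ha haz
  obtain ⟨haR, ha0⟩ := (mem_lR S).1 ha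
  have hgn : S.gn (S.cm y0 z) := (lgn S).1 hz
  obtain ⟨c, hc, hsum⟩ := S.s14'' (S.cm y0 z) hgn a haR ((cm_pos S haR).2 (Or.inr ⟨ha0, haz⟩))
  refine ⟨c, fun b hb => hc b (Finset.mem_filter.1 hb).1, ?_⟩
  have h1 : ∑ b ∈ S.Dl (S.cm y0 z), c b * inner ℝ b y0 = 0 := by
    have h2 : inner ℝ a y0 = ∑ b ∈ S.Dl (S.cm y0 z), c b * inner ℝ b y0 := by
      conv_lhs => rw [hsum]
      rw [sum_inner]
      exact Finset.sum_congr rfl fun b _ => real_inner_smul_left b y0 (c b)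
    rw [← h2, ha0]
  have h3 : ∀ b ∈ S.Dl (S.cm y0 z), 0 ≤ c b * inner ℝ b y0 := by
    intro b hb
    obtain ⟨hbR, hbpos⟩ := S.s14 (S.cm y0 z) hgn b hb
    exact mul_nonneg (hc b hb) (le_nonneg S (le_cm S y0 z) hbR hbpos)
  have h4 := (Finset.sum_eq_zero_iff_of_nonneg h3).1 h1
  rw [hsum]
  symm
  unfold lD
  refine Finset.sum_filter_of_ne ?_
  intro b hb hne
  by_contra hb0
  rcases mul_eq_zero.1 (h4 b hb) with h5 | h5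
  · exact hne (by rw [h5, zero_smul])
  · exact hb0 h5

end

end LieP
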