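import Pool.Agent.LieP.G08

/-!
# MP_6c3636_al, LieP, module G09: Levi systems: axioms (W0) - (W3) (helper7)

Section 2. Put `ζ = cm y0 z`; `U ζ = U y0 (U z ⊓ L y0)` semidirect (`mem_U_cm`, `P_unique`, `s4`), `pr` is the projection `U ζ → U z ⊓ L y0`, a homomorphism. `ex l = l ∘ pr` (`1` outside of `U ζ`).
(w0): `u ∈ lU`, `u u ∈ ⁅U ζ, U ζ⁆`, apply `pr`: `pr` maps `⁅U ζ, U ζ⁆` to `⁅lU, lU⁆`. (`lU y0 z = U ζ ⊓ L y0`, `lU_eq`.)
`ex_iff`: for a face `y` of `ζ`: `ex l = 1` on `U y` iff `ex l = 1` on `U (y + y0)` (`w1` with `ex l = 1` on `U y0`; `U_mono`) iff `l = 1` on `U y ⊓ L y0` (`y + y0` is in the facet of `cm y0 y`, `mem_U_cm`).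
(w1): `y0 + r y`, `y0 + r y'` (small `r`) are faces of `ζ` in the facets of `cm y0 y`, `cm y0 y'`, `ex l = 1` on their `U`; by `w1` `ex l = 1` on `U (2 y0 + r (y + y'))`, which contains `U (y + y') ⊓ L y0` (`s1` with `z = y0`).
(w2): `ex_iff`, `S.w2`, restrict to `U z ⊓ L y0`. (w3): for `x, y` take `cm y0 x`, `cm y0 y`: if `g ∈ U ζ ⊓ U (cm y0 x)`, `g = a b`, `a ∈ U y0`, `b ∈ U z ⊓ L y0`, then `b ∈ U (cm y0 x)` (`s5U`), so `b ∈ U x` (`U_cm_L`), `ex l g = l b = 1`.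
-/

namespace LieP

noncomputable section

open Classical

variable {G E : Type} [Group G] [NormedAddCommGroup E] [InnerProductSpace ℝ E]
  [FiniteDimensional ℝ E] (S : LieSys G E)

/-- the projection to `U z ⊓ L y0` -/
def pr (y0 z : E) (g : G) : G := if h : ∃ a ∈ S.U y0, ∃ b ∈ lU S y0 z, g = a * b then h.choose_spec.2.choose else 1

/-- the extension of a character of `U z ⊓ L y0` -/
def ex (y0 z : E) (l : G → ℤˣ) (g : G) : ℤˣ := if g ∈ S.U (S.cm y0 z) then l (pr S y0 z g) else 1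

theorem pr_mul {y0 z : E} {a b : G} (ha : a ∈ S.U y0) (hb : b ∈ lU S y0 z) : pr S y0 z (a * b) = b := by
  have h : ∃ a' ∈ S.U y0, ∃ b' ∈ lU S y0 z, a * b = a' * b' := ⟨a, ha, b, hb, rfl⟩
  have hp : pr S y0 z (a * b) = h.choose_spec.2.choose := dif_pos h
  have h1 := h.choose_spec.1
  have h2 := h.choose_spec.2.choose_spec
  rw [hp]
  exact (P_unique S h1 h2.1.2 ha hb.2 h2.2.symm).2

private theorem dec {y0 z : E} {u : G} (hu : u ∈ S.U (S.cm y0 z)) :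
    ∃ a ∈ S.U y0, ∃ b ∈ lU S y0 z, u = a * b := by
  obtain ⟨a, ha, b, hb, hb', h⟩ := (mem_U_cm S).1 hu
  exact ⟨a, ha, b, ⟨hb, hb'⟩, h⟩

private theorem rec_mem {y0 z : E} {a b : G} (ha : a ∈ S.U y0) (hb : b ∈ lU S y0 z) :
    a * b ∈ S.U (S.cm y0 z) := (mem_U_cm S).2 ⟨a, ha, b, hb.1, hb.2, rfl⟩

private theorem lU_sub {y0 z : E} {b : G} (hb : b ∈ lU S y0 z) : b ∈ S.U (S.cm y0 z) := by
  have := rec_mem S (y0 := y0) (z := z) (Subgroup.one_mem _) hb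
  rwa [one_mul] at this

private theorem U0_sub {y0 z : E} {a : G} (ha : a ∈ S.U y0) : a ∈ S.U (S.cm y0 z) :=
  U_mono S (le_cm S y0 z) ha

private theorem mem_lU {y0 z : E} {b : G} (hb : b ∈ S.U (S.cm y0 z)) (hb' : b ∈ S.L y0) :
    b ∈ lU S y0 z := by
  rw [lU_eq]
  exact ⟨hb, hb'⟩

private theorem pr_mem {y0 z : E} {u : G} (hu : u ∈ S.U (S.cm y0 z)) : pr S y0 z u ∈ lU S y0 z := by
  obtain ⟨a, ha, b, hb, rfl⟩ := dec S hu
  rw [pr_mul S ha hb]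
  exact hb

private theorem pr_lU {y0 z : E} {b : G} (hb : b ∈ lU S y0 z) : pr S y0 z b = b := by
  have := pr_mul S (Subgroup.one_mem (S.U y0)) hb
  rwa [one_mul] at this

private theorem pr_U0 {y0 z : E} {a : G} (ha : a ∈ S.U y0) : pr S y0 z a = 1 := by
  have := pr_mul S (z := z) ha (Subgroup.one_mem _)
  rwa [mul_one] at this

private theorem pr_hom {y0 z : E} {u v : G} (hu : u ∈ S.U (S.cm y0 z)) (hv : v ∈ S.U (S.cm y0 z)) :
    pr S y0 z (u * v) = pr S y0 z u * pr S y0 z v := by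
  obtain ⟨a, ha, b, hb, rfl⟩ := dec S hu
  obtain ⟨a', ha', b', hb', rfl⟩ := dec S hv
  rw [pr_mul S ha hb, pr_mul S ha' hb']
  have h1 : a * b * (a' * b') = (a * (b * a' * b⁻¹)) * (b * b') := by group
  rw [h1]
  exact pr_mul S (Subgroup.mul_mem _ ha (S.s4 y0 b hb.2 a' ha')) (Subgroup.mul_mem _ hb hb')

private theorem pr_one (y0 z : E) : pr S y0 z 1 = 1 := pr_lU S (Subgroup.one_mem _)

private theorem pr_inv {y0 z : E} {u : G} (hu : u ∈ S.U (S.cm y0 z)) :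
    pr S y0 z u⁻¹ = (pr S y0 z u)⁻¹ := by
  rw [eq_inv_iff_mul_eq_one, ← pr_hom S (Subgroup.inv_mem _ hu) hu, inv_mul_cancel, pr_one]

private theorem lin_one {H : Subgroup G} {l : G → ℤˣ} (hl : Lin H l) : l 1 = 1 := by
  have := hl 1 H.one_mem 1 H.one_mem
  rw [mul_one] at this
  exact (mul_eq_left.1 this.symm)

private theorem ex_pr {y0 z : E} {l : G → ℤˣ} {u : G} (hu : u ∈ S.U (S.cm y0 z)) :
    ex S y0 z l u = l (pr S y0 z u) := if_pos hu

theorem ex_lin {y0 z : E} {l : G → ℤˣ} (hl : Lin (lU S y0 z) l) :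
    Lin (S.U (S.cm y0 z)) (ex S y0 z l) ∧ (∀ u ∈ S.U y0, ex S y0 z l u = 1) ∧
      ∀ u ∈ lU S y0 z, ex S y0 z l u = l u := by
  refine ⟨fun u hu v hv => ?_, fun u hu => ?_, fun u hu => ?_⟩
  · rw [ex_pr S hu, ex_pr S hv, ex_pr S (Subgroup.mul_mem _ hu hv), pr_hom S hu hv]
    exact hl _ (pr_mem S hu) _ (pr_mem S hv)
  · rw [ex_pr S (U0_sub S hu), pr_U0 S hu]
    exact lin_one hl
  · rw [ex_pr S (lU_sub S hu), pr_lU S hu]

theorem ex_iff {y0 z : E} (hz : S.gn (S.cm y0 z)) {l : G → ℤˣ} (hl : Lin (lU S y0 z) l) {y : E}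
    (hy : S.le y (S.cm y0 z)) : (∀ u ∈ S.U y, ex S y0 z l u = 1) ↔ ∀ u ∈ lU S y0 y, l u = 1 := by
  obtain ⟨e1, e2, e3⟩ := ex_lin S hl
  constructor
  · intro h u hu
    have h1 : u ∈ S.U (S.cm y0 z) := U_mono S hy hu.1
    rw [← e3 u (mem_lU S h1 hu.2)]
    exact h u hu.1
  · intro h u hu
    have h0 : S.le y0 (S.cm y0 z) := le_cm S y0 z
    obtain ⟨h1, h2⟩ := le_add_left S hy h0
    have h3 : S.eqv (y + y0) (S.cm y0 y) := by
      rw [eqv_iff]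
      intro a ha
      rw [cm_pos S ha, inner_add_right]
      constructor
      · intro hp
        have hp' : 0 < inner ℝ a (S.cm y0 z) := h2 a ha (by rw [inner_add_right]; exact hp)
        have k1 := le_nonneg S hy ha hp'
        have k2 := le_nonneg S h0 ha hp'
        rcases k2.lt_or_eq with k | k
        · exact Or.inl k
        · refine Or.inr ⟨k.symm, ?_⟩
          rw [← k, add_zero] at hp
          exact hp
      · rintro (hp | ⟨hp, hp'⟩)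
        · have k1 := le_nonneg S hy ha (h0 a ha hp)
          linarith
        · rw [hp, add_zero]
          exact hp'
    have h4 : u ∈ S.U (S.cm y0 y) := by
      rw [← U_eqv S h3]
      exact U_mono S h1 hu
    obtain ⟨a, ha, b, hb, rfl⟩ := dec S h4
    have hb1 : b ∈ S.U (S.cm y0 z) := U_mono S hy hb.1
    rw [e1 a (U0_sub S ha) b hb1, e2 a ha, one_mul, e3 b (mem_lU S hb1 hb.2)]
    exact h b hb

private theorem le_of_lR {y0 z y : E} (h : ∀ a ∈ lR S y0, 0 < inner ℝ a y → 0 < inner ℝ a z) :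
    S.le (S.cm y0 y) (S.cm y0 z) := by
  intro a ha hp
  rw [cm_pos S ha] at hp ⊢
  rcases hp with hp | ⟨hp, hp'⟩
  · exact Or.inl hp
  · exact Or.inr ⟨hp, h a ((mem_lR S).2 ⟨ha, hp⟩) hp'⟩

private theorem lR_of_le {y0 z y : E} (h : S.le y (S.cm y0 z)) :
    ∀ a ∈ lR S y0, 0 < inner ℝ a y → 0 < inner ℝ a z := by
  intro a ha hp
  obtain ⟨ha1, ha2⟩ := (mem_lR S).1 ha
  have := h a ha1 hp
  rw [cm_pos S ha1] at this
  rcases this with h1 | ⟨_, h1⟩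
  · rw [ha2] at h1
    exact absurd h1 (lt_irrefl _)
  · exact h1

private theorem lR_nonneg {y0 z y : E} (h : ∀ a ∈ lR S y0, 0 < inner ℝ a y → 0 < inner ℝ a z) {a : E}
    (ha : a ∈ lR S y0) (hp : 0 < inner ℝ a z) : 0 ≤ inner ℝ a y := by
  by_contra hc
  obtain ⟨ha1, ha2⟩ := (mem_lR S).1 ha
  have h1 : -a ∈ lR S y0 := (mem_lR S).2 ⟨S.neg a ha1, by rw [inner_neg_left, ha2, neg_zero]⟩
  have h2 := h (-a) h1 (by rw [inner_neg_left]; linarith)
  rw [inner_neg_left] at h2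
  linarith

theorem lev_w0 (y0 : E) : ∀ z, (∀ a ∈ lR S y0, inner ℝ a z ≠ 0) → ∀ u ∈ lU S y0 z, u * u ∈ (⁅lU S y0 z, lU S y0 z⁆ : Subgroup G) := by
  intro z hz u hu
  have hg : S.gn (S.cm y0 z) := (lgn S).1 hz
  have h1 := S.w0 _ hg u (lU_sub S hu)
  let K : Subgroup G :=
    { carrier := {x | x ∈ S.U (S.cm y0 z) ∧ pr S y0 z x ∈ (⁅lU S y0 z, lU S y0 z⁆ : Subgroup G)}
      mul_mem' := by
        rintro a b ⟨ha, ha'⟩ ⟨hb, hb'⟩
        refine ⟨Subgroup.mul_mem _ ha hb, ?_⟩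
        rw [pr_hom S ha hb]
        exact Subgroup.mul_mem _ ha' hb'
      one_mem' := ⟨Subgroup.one_mem _, by rw [pr_one]; exact Subgroup.one_mem _⟩
      inv_mem' := by
        rintro a ⟨ha, ha'⟩
        refine ⟨Subgroup.inv_mem _ ha, ?_⟩
        rw [pr_inv S ha]
        exact Subgroup.inv_mem _ ha' }
  have h2 : (⁅S.U (S.cm y0 z), S.U (S.cm y0 z)⁆ : Subgroup G) ≤ K := by
    rw [Subgroup.commutator_le]
    intro a ha b hb
    refine ⟨?_, ?_⟩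
    · rw [commutatorElement_def]
      exact Subgroup.mul_mem _ (Subgroup.mul_mem _ (Subgroup.mul_mem _ ha hb)
        (Subgroup.inv_mem _ ha)) (Subgroup.inv_mem _ hb)
    · rw [commutatorElement_def, pr_hom S (Subgroup.mul_mem _ (Subgroup.mul_mem _ ha hb)
        (Subgroup.inv_mem _ ha)) (Subgroup.inv_mem _ hb), pr_hom S (Subgroup.mul_mem _ ha hb)
        (Subgroup.inv_mem _ ha), pr_hom S ha hb, pr_inv S ha, pr_inv S hb, ← commutatorElement_def]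
      exact Subgroup.commutator_mem_commutator (pr_mem S ha) (pr_mem S hb)
  have h3 := (h2 h1).2
  rwa [pr_lU S (Subgroup.mul_mem _ hu hu)] at h3

theorem lev_w1 (y0 : E) : ∀ z, (∀ a ∈ lR S y0, inner ℝ a z ≠ 0) → ∀ l : G → ℤˣ, Lin (lU S y0 z) l → ∀ y y',
    (∀ a ∈ lR S y0, 0 < inner ℝ a y → 0 < inner ℝ a z) → (∀ a ∈ lR S y0, 0 < inner ℝ a y' → 0 < inner ℝ a z) →
    (∀ u ∈ lU S y0 y, l u = 1) → (∀ u ∈ lU S y0 y', l u = 1) → ∀ u ∈ lU S y0 (y + y'), l u = 1 := by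
  intro z hz l hl y y' hy hy' h h' u hu
  have hg : S.gn (S.cm y0 z) := (lgn S).1 hz
  have k := le_of_lR S hy
  have k' := le_of_lR S hy'
  have e1 : ∀ u ∈ S.U (S.cm y0 y), ex S y0 z l u = 1 := by
    rw [ex_iff S hg hl k]
    intro v hv
    refine h v ?_
    rw [lU_eq]
    exact hv
  have e2 : ∀ u ∈ S.U (S.cm y0 y'), ex S y0 z l u = 1 := by
    rw [ex_iff S hg hl k']
    intro v hv
    refine h' v ?_
    rw [lU_eq]
    exact hv
  have e3 := S.w1 _ hg _ (ex_lin S hl).1 _ _ k k' e1 e2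
  have e4 := (ex_iff S hg hl (le_add_left S k k').2).1 e3
  refine e4 u ⟨?_, hu.2⟩
  refine S.s1 (y + y') (y + y') _ y0 ?_ u hu.1 hu.1 hu.2
  intro a ha h0 hp _
  have ha' : a ∈ lR S y0 := (mem_lR S).2 ⟨ha, h0⟩
  have hε := eps_pos S y0 y
  have hε' := eps_pos S y0 y'
  have ez : 0 < inner ℝ a z := by
    rw [inner_add_right] at hp
    by_cases hc : 0 < inner ℝ a y
    · exact hy a ha' hc
    · exact hy' a ha' (by linarith)
  have n1 := lR_nonneg S hy ha' ez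
  have n2 := lR_nonneg S hy' ha' ez
  rw [inner_add_right] at hp
  unfold LieSys.cm
  rw [inner_add_right, inner_add_right, inner_add_right, inner_smul_right, inner_smul_right, h0]
  rcases n1.lt_or_eq with n | n
  · have := mul_pos hε n
    have := mul_nonneg hε'.le n2
    linarith
  · have := mul_nonneg hε.le n1
    have := mul_pos hε' (show 0 < inner ℝ a y' by linarith)
    linarith

theorem lev_w2 (y0 : E) : ∀ z, (∀ a ∈ lR S y0, inner ℝ a z ≠ 0) → ∀ l l' : G → ℤˣ, Lin (lU S y0 z) l → Lin (lU S y0 z) l' →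
    (∀ y, (∀ a ∈ lR S y0, 0 < inner ℝ a y → 0 < inner ℝ a z) →
      ((∀ u ∈ lU S y0 y, l u = 1) ↔ ∀ u ∈ lU S y0 y, l' u = 1)) →
    ∃ s ∈ lL S y0 z, ∀ u ∈ lU S y0 z, l' u = l (s * u * s⁻¹) := by
  intro z hz l l' hl hl' h
  have hg : S.gn (S.cm y0 z) := (lgn S).1 hz
  obtain ⟨s, hs, hs'⟩ := S.w2 _ hg _ _ (ex_lin S hl).1 (ex_lin S hl').1 (by
    intro y hy
    rw [ex_iff S hg hl hy, ex_iff S hg hl' hy]
    exact h y (lR_of_le S hy))
  have hs1 : s ∈ lL S y0 z := by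
    rw [lL_eq]
    exact hs
  refine ⟨s, hs1, fun u hu => ?_⟩
  have h1 := hs' u (lU_sub S hu)
  rw [(ex_lin S hl').2.2 u hu, (ex_lin S hl).2.2 _ (lev_s4 S y0 z s hs1 u hu)] at h1
  exact h1

theorem lev_w3 (y0 : E) : ∀ z, (∀ a ∈ lR S y0, inner ℝ a z ≠ 0) → ∀ l : G → ℤˣ, Lin (lU S y0 z) l → ∀ x y,
    (∀ u ∈ lU S y0 z, u ∈ lU S y0 x → l u = 1) → (∀ a ∈ lR S y0, 0 < inner ℝ a y → 0 < inner ℝ a z) →
    (∀ a ∈ lD S y0 z, 0 < inner ℝ a y → 0 < inner ℝ a x) → ∀ u ∈ lU S y0 y, l u = 1 := by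
  intro z hz l hl x y h hy hD u hu
  have hg : S.gn (S.cm y0 z) := (lgn S).1 hz
  have k := le_of_lR S hy
  have key := S.w3 _ hg _ (ex_lin S hl).1 (S.cm y0 x) (S.cm y0 y) (by
    intro v hv hv'
    obtain ⟨a, ha, b, hb, rfl⟩ := dec S hv
    rw [ex_pr S hv, pr_mul S ha hb]
    refine h b hb ?_
    have hb1 : b ∈ S.U (S.cm y0 x) := by
      have := Subgroup.mul_mem _ (Subgroup.inv_mem _ (U0_sub S (z := x) ha)) hv'
      rwa [inv_mul_cancel_left] at this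
    exact mem_lU S hb1 hb.2) k (by
    intro a ha hp
    have haR := (S.s14 _ hg a ha).1
    rw [cm_pos S haR] at hp ⊢
    rcases hp with hp | ⟨hp, hp'⟩
    · exact Or.inl hp
    · exact Or.inr ⟨hp, hD a (Finset.mem_filter.2 ⟨ha, hp⟩) hp'⟩)
  have hu1 : u ∈ S.U (S.cm y0 y) := lU_sub S hu
  have hu2 : u ∈ lU S y0 z := mem_lU S (U_mono S k hu1) hu.2
  rw [← (ex_lin S hl).2.2 u hu2]
  exact key u hu1

end

end LieP
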