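import Pool.Agent.LieP.G09

/-!
# MP_6c3636_al, LieP, module G10: Levi systems: axiom (W4), the Levi system (helper7)

Section 2. (w4): apply `S.w4` to `ζ = cm y0 z`, `Y = cm y0 y`: `lU S y0 z ⊓ lL S y0 y = S.U ζ ⊓ S.L Y` and `lL S y0 y = S.L Y` (`lU_eq`, `lL_eq`; both sides are intersections of `U z`, `L y0`, `L y`). For a face `y'` of `ζ`: `⟨a,y'⟩ > 0`, `⟨a,y0⟩ = 0` gives `⟨a,z⟩ > 0`, so the hypothesis can be used for `y'`.
The remaining facts are immediate from the definition.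
-/

namespace LieP

noncomputable section

open Classical

variable {G E : Type} [Group G] [NormedAddCommGroup E] [InnerProductSpace ℝ E]
  [FiniteDimensional ℝ E] (S : LieSys G E)

theorem lev_w4 (y0 : E) : ∀ z, (∀ a ∈ lR S y0, inner ℝ a z ≠ 0) → ∀ y, (∀ a ∈ lR S y0, 0 < inner ℝ a y → 0 < inner ℝ a z) →
    ∀ l : G → ℤˣ, Lin (lU S y0 z ⊓ lL S y0 y) l →
    (∀ y', (∀ a ∈ lR S y0, 0 < inner ℝ a y' → 0 < inner ℝ a z) → (∀ u ∈ lU S y0 y', u ∈ lL S y0 y → l u = 1) →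
      ∀ a ∈ lR S y0, inner ℝ a y = 0 → inner ℝ a y' = 0) →
    ∀ [Finite G] (k : Type) [Field k] [CharZero k], ∀ a ∈ sb k (lL S y0 y), ∀ b ∈ sb k (lL S y0 y),
      el k (lU S y0 z ⊓ lL S y0 y) l * a * el k (lU S y0 z ⊓ lL S y0 y) l * b * el k (lU S y0 z ⊓ lL S y0 y) l =
        el k (lU S y0 z ⊓ lL S y0 y) l * b * el k (lU S y0 z ⊓ lL S y0 y) l * a * el k (lU S y0 z ⊓ lL S y0 y) l := by
  intro z hz y hy l hl hyp
  have hL : S.L y0 ⊓ S.L (S.cm y0 y) = S.L (S.cm y0 y) := by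
    rw [L_cm]; ext g; simp only [Subgroup.mem_inf]; tauto
  have hU : lU S y0 z ⊓ lL S y0 y = S.U (S.cm y0 z) ⊓ S.L (S.cm y0 y) := by
    rw [lU_eq, lL_eq, inf_assoc, hL]
  have h1 : ∀ a ∈ S.R, inner ℝ a (S.cm y0 z) ≠ 0 := by
    intro a ha h0
    have h2 := (cm_zero S ha).1 h0
    exact hz a ((mem_lR S).2 ⟨ha, h2.1⟩) h2.2
  have h2 : ∀ a ∈ S.R, 0 < inner ℝ a (S.cm y0 y) → 0 < inner ℝ a (S.cm y0 z) := by
    intro a ha h0
    rw [cm_pos S ha] at h0 ⊢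
    rcases h0 with h0 | h0
    · exact Or.inl h0
    · exact Or.inr ⟨h0.1, hy a ((mem_lR S).2 ⟨ha, h0.1⟩) h0.2⟩
  rw [hU] at hl
  intro _ k _ _ a ha b hb
  rw [lL_eq] at ha hb
  rw [hU]
  refine S.w4 (S.cm y0 z) h1 (S.cm y0 y) h2 l hl ?_ k a ha b hb
  clear ha hb a b
  · intro y' hy' hu a ha h0
    have h4 := (cm_zero S ha).1 h0
    refine hyp y' ?_ ?_ a ((mem_lR S).2 ⟨ha, h4.1⟩) h4.2
    · intro b hb hb0
      rw [mem_lR] at hb
      have h5 := hy' b hb.1 hb0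
      rw [cm_pos S hb.1] at h5
      rcases h5 with h5 | h5
      · rw [hb.2] at h5
        exact absurd h5 (lt_irrefl _)
      · exact h5.2
    · intro u hu1 hu2
      rw [lL_eq] at hu2
      exact hu u hu1.1 hu2

/-- the system of the Levi subgroup `L y0` -/
def lev (y0 : E) : LieSys G E where
  H := S.L y0
  R := lR S y0
  N := lN S y0
  ac := S.ac
  U := lU S y0
  L := lL S y0
  Dl := lD S y0
  neg := by
    intro a ha
    rw [mem_lR] at ha ⊢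
    refine ⟨S.neg a ha.1, ?_⟩
    rw [inner_neg_left, ha.2, neg_zero]
  ne := fun a ha => S.ne a (Finset.mem_filter.mp ha).1
  NH := fun _ h => h.2
  UH := fun _ _ h => h.2
  LH := fun _ _ h => h.2
  ac_one := S.ac_one
  ac_mul := fun m hm n hn => S.ac_mul m hm.1 n hn.1
  s1 := lev_s1 S y0
  s2 := lev_s2 S y0
  s3 := lev_s3 S y0
  s4 := lev_s4 S y0
  s4' := lev_s4_b S y0
  s5U := lev_s5U S y0
  s5L := lev_s5L S y0
  s5P := lev_s5P S y0
  s6 := lev_s6 S y0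
  s7U := lev_s7U S y0
  s7L := lev_s7L S y0
  s7R := lev_s7R S y0
  s8 := lev_s8 S y0
  s8' := lev_s8_b S y0
  s9 := lev_s9 S y0
  s10 := lev_s10 S y0
  s11 := lev_s11 S y0
  s11' := lev_s11_b S y0
  s12 := lev_s12 S y0
  s13 := lev_s13 S y0
  s14 := lev_s14 S y0
  s14' := lev_s14_b S y0
  s14'' := lev_s14_c S y0
  w0 := lev_w0 S y0
  w1 := lev_w1 S y0
  w2 := lev_w2 S y0
  w3 := lev_w3 S y0
  w4 := lev_w4 S y0

theorem lev_le {y0 x y : E} : (lev S y0).le x y ↔ S.le (S.cm y0 x) (S.cm y0 y) := by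
  constructor
  · intro h a ha h0
    rw [cm_pos S ha] at h0 ⊢
    rcases h0 with h0 | h0
    · exact Or.inl h0
    · exact Or.inr ⟨h0.1, h a ((mem_lR S).2 ⟨ha, h0.1⟩) h0.2⟩
  · intro h a ha h0
    have ha' := (mem_lR S).1 ha
    have h1 := h a ha'.1 ((cm_pos S ha'.1).2 (Or.inr ⟨ha'.2, h0⟩))
    rcases (cm_pos S ha'.1).1 h1 with h2 | h2
    · rw [ha'.2] at h2
      exact absurd h2 (lt_irrefl _)
    · exact h2.2

theorem lev_le' {y0 x y : E} : (lev S y0).le x y ↔ ∀ a ∈ S.R, inner ℝ a y0 = 0 → 0 < inner ℝ a x → 0 < inner ℝ a y :=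
  ⟨fun h a ha h0 => h a ((mem_lR S).2 ⟨ha, h0⟩),
    fun h a ha => h a ((mem_lR S).1 ha).1 ((mem_lR S).1 ha).2⟩

theorem lev_gn {y0 z : E} : (lev S y0).gn z ↔ S.gn (S.cm y0 z) := by
  constructor
  · intro h a ha h0
    have h2 := (cm_zero S ha).1 h0
    exact h a ((mem_lR S).2 ⟨ha, h2.1⟩) h2.2
  · intro h a ha h0
    have ha' := (mem_lR S).1 ha
    exact h a ha'.1 ((cm_zero S ha'.1).2 ⟨ha'.2, h0⟩)

theorem lev_gn_of {y0 z : E} (h : S.gn z) : (lev S y0).gn z :=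
  fun a ha => h a ((mem_lR S).1 ha).1

theorem lev_le_of {y0 x y : E} (h : S.le x y) : (lev S y0).le x y :=
  fun a ha => h a ((mem_lR S).1 ha).1

theorem lev_cm (y0 x y : E) : (lev S y0).eqv ((lev S y0).cm x y) (S.cm x y) := by
  rw [eqv_iff]
  intro a ha
  rw [cm_pos (lev S y0) ha, cm_pos S ((mem_lR S).1 ha).1]

/-- the Levi subgroups of the Levi system for the points of `X` -/
theorem lev_L {y0 x : E} (h : ∀ a ∈ S.R, inner ℝ a x = 0 → inner ℝ a y0 = 0) : (lev S y0).L x = S.L x :=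
  inf_eq_left.2 (L_mono S h)

theorem lev_X {y0 x : E} (h : ∀ a ∈ S.R, inner ℝ a x = 0 → inner ℝ a y0 = 0) :
    (lev S y0).X x = S.X x := by
  ext v
  constructor
  · intro hv a ha h0
    exact hv a ((mem_lR S).2 ⟨ha, h a ha h0⟩) h0
  · intro hv a ha h0
    exact hv a ((mem_lR S).1 ha).1 h0

theorem lev_zero {y0 y : E} : (∀ a ∈ (lev S y0).R, inner ℝ a y = 0) ↔
    ∀ a ∈ S.R, inner ℝ a y0 = 0 → inner ℝ a y = 0 :=
  ⟨fun h a ha h0 => h a ((mem_lR S).2 ⟨ha, h0⟩),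
    fun h a ha => h a ((mem_lR S).1 ha).1 ((mem_lR S).1 ha).2⟩

/-- the Levi subgroups of a Levi system are Levi subgroups -/
theorem lev_L_cm (y0 y : E) : (lev S y0).L y = S.L (S.cm y0 y) :=
  lL_eq S y0 y

theorem lev_U_cm (y0 y : E) : (lev S y0).U y = S.U (S.cm y0 y) ⊓ S.L y0 :=
  lU_eq S y0 y

theorem lev_P (y0 y : E) : (lev S y0).P y = S.P y ⊓ S.L y0 := by
  ext g
  rw [mem_P (lev S y0), Subgroup.mem_inf]
  constructor
  · rintro ⟨l, hl, u, hu, rfl⟩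
    exact ⟨(mem_P S).2 ⟨l, hl.1, u, hu.1, rfl⟩, (S.L y0).mul_mem hl.2 hu.2⟩
  · rintro ⟨h, h'⟩
    obtain ⟨l, hl, u, hu, hl', hu', rfl⟩ := P_L S h h'
    exact ⟨l, ⟨hl, hl'⟩, u, ⟨hu, hu'⟩, rfl⟩

end

end LieP
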