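import Pool.Agent.LieP.F06

/-!
# MP_6c3636_al, LieP, module H01: Hecke algebras: multiplication (10) (helper7)

Section 10. `D : HD c Q A`. `T_one_mul`: `mul` with `u = 1` (`iv 1 = ∅`). `T_left`: `mul` with `u = rfn s` (`iv (rfn s)⁻¹ = {s}` and `s ∈ iv w` iff `s` is a descent); if `s` is a descent of `w` then
`T w = T (rfn s) * T (rfn s * w)` and `sq`. `T_right`: the same with `w = rfn s`. `sp_mul`: from `T_left` by induction (`rg_ind`), `T u` is a product of `T (rfn s)`.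
-/

namespace LieP

noncomputable section

open Classical

variable {E : Type} [NormedAddCommGroup E] [InnerProductSpace ℝ E] [FiniteDimensional ℝ E]

variable {Ω : Type} [Field Ω] {c : Parker.Ctx Ω} {Q : RG E} {A : Type} [Ring A] [Algebra Ω A]
  (D : HD c Q A)

namespace H01_aux

omit [FiniteDimensional ℝ E] in
theorem S_Psi {s : E} (hs : s ∈ Q.S) : s ∈ Q.Psi :=
  (Finset.mem_filter.mp (Finset.mem_filter.mp hs).1).1

omit [FiniteDimensional ℝ E] in
theorem rW {s : E} (hs : s ∈ Q.S) : rfn s ∈ Q.W := Q.rf s (S_Psi hs)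

omit [FiniteDimensional ℝ E] in
theorem not_iv {s : E} (hs : s ∈ Q.S) {w : E ≃ₗᵢ[ℝ] E} (h : s ∉ ds Q.Psi Q.x w) :
    s ∉ iv Q.Psi Q.x w := by
  intro h1
  exact h (Finset.mem_filter.mpr ⟨hs, (Finset.mem_filter.mp h1).2⟩)

end H01_aux

open H01_aux

theorem T_one_mul {w : E ≃ₗᵢ[ℝ] E} (hw : w ∈ Q.W) : D.T 1 * D.T w = D.T w := by
  have h := D.mul 1 Q.W.one_mem w hw (by rw [inv_one, iv_one]; exact Finset.disjoint_empty_left _)
  rwa [one_mul] at h

theorem T_mul_one {w : E ≃ₗᵢ[ℝ] E} (hw : w ∈ Q.W) : D.T w * D.T 1 = D.T w := by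
  have h := D.mul w hw 1 Q.W.one_mem (by rw [iv_one]; exact Finset.disjoint_empty_right _)
  rwa [mul_one] at h

theorem T_left {s : E} (hs : s ∈ Q.S) {w : E ≃ₗᵢ[ℝ] E} (hw : w ∈ Q.W) (h : s ∉ ds Q.Psi Q.x w) :
    D.T (rfn s) * D.T w = D.T (rfn s * w) := by
  refine D.mul _ (rW hs) w hw ?_
  rw [rfn_inv, iv_rfn Q hs, Finset.disjoint_singleton_left]
  exact not_iv hs h

theorem T_left' {s : E} (hs : s ∈ Q.S) {w : E ≃ₗᵢ[ℝ] E} (hw : w ∈ Q.W) (h : s ∈ ds Q.Psi Q.x w) :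
    D.T (rfn s) * D.T w = (1 - D.p s) • D.T w + D.p s • D.T (rfn s * w) := by
  have h1 : rfn s * w ∈ Q.W := Q.W.mul_mem (rW hs) hw
  have h2 : s ∉ ds Q.Psi Q.x (rfn s * w) := fun h3 => ((ds_rfn_mul Q hs hw).mp h3) h
  have h4 := T_left D hs h1 h2
  rw [← mul_assoc, rfn_mul_self, one_mul] at h4
  rw [← h4, ← mul_assoc, D.sq s hs, add_mul, smul_mul_assoc, smul_mul_assoc, h4, T_one_mul D h1]

theorem T_right {s : E} (hs : s ∈ Q.S) {w : E ≃ₗᵢ[ℝ] E} (hw : w ∈ Q.W) (h : s ∉ ds Q.Psi Q.x w⁻¹) :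
    D.T w * D.T (rfn s) = D.T (w * rfn s) := by
  refine D.mul w hw _ (rW hs) ?_
  rw [iv_rfn Q hs, Finset.disjoint_singleton_right]
  exact not_iv hs h

theorem T_right' {s : E} (hs : s ∈ Q.S) {w : E ≃ₗᵢ[ℝ] E} (hw : w ∈ Q.W) (h : s ∈ ds Q.Psi Q.x w⁻¹) :
    D.T w * D.T (rfn s) = (1 - D.p s) • D.T w + D.p s • D.T (w * rfn s) := by
  have h1 : w * rfn s ∈ Q.W := Q.W.mul_mem hw (rW hs)
  have hi : (w * rfn s)⁻¹ = rfn s * w⁻¹ := by rw [mul_inv_rev, rfn_inv]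
  have h2 : s ∉ ds Q.Psi Q.x (w * rfn s)⁻¹ := by
    rw [hi]
    exact fun h3 => ((ds_rfn_mul Q hs (Q.W.inv_mem hw)).mp h3) h
  have h4 := T_right D hs h1 h2
  rw [mul_assoc, rfn_mul_self, mul_one] at h4
  rw [← h4, mul_assoc, D.sq s hs, mul_add, mul_smul_comm, mul_smul_comm, h4, T_mul_one D h1]

theorem sp_mem {w : E ≃ₗᵢ[ℝ] E} (hw : w ∈ Q.W) : D.T w ∈ D.sp := by
  exact Submodule.subset_span ⟨w, hw, rfl⟩

theorem sp_mul {a b : A} (ha : a ∈ D.sp) (hb : b ∈ D.sp) : a * b ∈ D.sp := by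
  have hs : ∀ s ∈ Q.S, ∀ b ∈ D.sp, D.T (rfn s) * b ∈ D.sp := by
    intro s hs b hb
    induction hb using Submodule.span_induction with
    | mem x hx =>
      obtain ⟨w, hw, rfl⟩ := hx
      by_cases h : s ∈ ds Q.Psi Q.x w
      · rw [T_left' D hs hw h]
        exact D.sp.add_mem (D.sp.smul_mem _ (sp_mem D hw))
          (D.sp.smul_mem _ (sp_mem D (Q.W.mul_mem (rW hs) hw)))
      · rw [T_left D hs hw h]
        exact sp_mem D (Q.W.mul_mem (rW hs) hw)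
    | zero => rw [mul_zero]; exact D.sp.zero_mem
    | add x y _ _ hx hy => rw [mul_add]; exact D.sp.add_mem hx hy
    | smul r x _ hx => rw [mul_smul_comm]; exact D.sp.smul_mem _ hx
  have h1 : ∀ b ∈ D.sp, D.T 1 * b ∈ D.sp := by
    intro b hb
    induction hb using Submodule.span_induction with
    | mem x hx =>
      obtain ⟨w, hw, rfl⟩ := hx
      rw [T_one_mul D hw]
      exact sp_mem D hw
    | zero => rw [mul_zero]; exact D.sp.zero_mem
    | add x y _ _ hx hy => rw [mul_add]; exact D.sp.add_mem hx hy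
    | smul r x _ hx => rw [mul_smul_comm]; exact D.sp.smul_mem _ hx
  have hw : ∀ w ∈ Q.W, ∀ b ∈ D.sp, D.T w * b ∈ D.sp := by
    intro w hw
    refine rg_ind Q (p := fun w => ∀ b ∈ D.sp, D.T w * b ∈ D.sp) h1 ?_ hw
    intro s hs' w hw h ih b hb
    rw [← T_left D hs' hw h, mul_assoc]
    exact hs s hs' _ (ih b hb)
  induction ha using Submodule.span_induction with
  | mem x hx =>
    obtain ⟨w, hw', rfl⟩ := hx
    exact hw w hw' b hb
  | zero => rw [zero_mul]; exact D.sp.zero_mem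
  | add x y _ _ hx hy => rw [add_mul]; exact D.sp.add_mem hx hy
  | smul r x _ hx => rw [smul_mul_assoc]; exact D.sp.smul_mem _ hx

theorem one_sp {a : A} (ha : a ∈ D.sp) : D.T 1 * a = a ∧ a * D.T 1 = a := by
  induction ha using Submodule.span_induction with
  | mem x hx =>
    obtain ⟨w, hw, rfl⟩ := hx
    exact ⟨T_one_mul D hw, T_mul_one D hw⟩
  | zero => exact ⟨mul_zero _, zero_mul _⟩
  | add x y _ _ hx hy => rw [mul_add, add_mul, hx.1, hx.2, hy.1, hy.2]; exact ⟨rfl, rfl⟩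
  | smul r x _ hx => rw [mul_smul_comm, smul_mul_assoc, hx.1, hx.2]; exact ⟨rfl, rfl⟩

theorem g_sp : D.g ∈ D.sp := by
  have := Q.fin
  have := Fintype.ofFinite Q.W
  rw [D.g_eq, finsum_eq_sum_of_fintype]
  exact Submodule.sum_mem _ fun w _ => D.sp.smul_mem _ (sp_mem D w.2)

theorem T_g {w : E ≃ₗᵢ[ℝ] E} (hw : w ∈ Q.W) : D.T w * D.g = D.g ∧ D.g * D.T w = D.g := by
  have h1 := one_sp D (g_sp D)
  refine ⟨?_, ?_⟩
  · refine rg_ind Q (p := fun w => D.T w * D.g = D.g) h1.1 ?_ hw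
    intro s hs w hw h ih
    rw [← T_left D hs hw h, mul_assoc, ih, D.gT s hs]
  · refine rg_ind Q (p := fun w => D.g * D.T w = D.g) h1.2 ?_ hw
    intro s hs w hw h ih
    rw [← T_left D hs hw h, ← mul_assoc, D.Tg s hs, ih]

end

end LieP
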