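import Pool.Agent.LieP.H01

/-!
# MP_6c3636_al, LieP, module H02: Hecke algebras: the idempotents (10.1) (helper7)

Section 10, (10.1). `E_J = heS`. `T_s E_J = - p_s E_J` for `s ∈ J`: pair `u` and `rfn s * u` (`T_left`, `T_left'`), lengths differ by one. So `T_u E_J = (-1)^(len u) p_u E_J`, `p_u` a product of `p_s` (`s ∈ J`), and
`E_J^2 = γ E_J`, `γ = ∑_{u ∈ W_J} p_u = 1 + (terms of absolute value < 1)`. So `γ ≠ 0`. `E_J ≠ 0` by linear independence, hence the scalar in `he` is `γ⁻¹`.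
`he_mul`: `J ⊆ K`: `T_u E_K = (-1)^(len u) p_u E_K` for `u ∈ W_J`. `he_g`: `E_J T_s g = E_J g = - p_s E_J g`.
-/

namespace LieP

noncomputable section

open Classical

variable {E : Type} [NormedAddCommGroup E] [InnerProductSpace ℝ E] [FiniteDimensional ℝ E]

variable {Ω : Type} [Field Ω] {c : Parker.Ctx Ω} {Q : RG E} {A : Type} [Ring A] [Algebra Ω A]
  (D : HD c Q A)


namespace H02_aux

theorem fin_wj {J : Finset E} (hJ : J ⊆ Q.S) : Finite (wj J) := by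
  have := Q.fin
  exact Finite.of_injective (Subgroup.inclusion (wj_le Q hJ)) (Subgroup.inclusion_injective _)

theorem unitS {s : E} (hs : s ∈ Q.S) : ‖s‖ = 1 := by
  have h1 : s ∈ ps Q.Psi Q.x := (Finset.mem_filter.mp hs).1
  exact Q.unit s (Finset.mem_filter.mp h1).1

theorem rfn_ne_one {s : E} (hs : s ∈ Q.S) : rfn s ≠ (1 : E ≃ₗᵢ[ℝ] E) := by
  intro h
  have h1 := rfn_self (unitS hs)
  rw [h] at h1
  have h2 : s = -s := h1
  have h3 : (2 : ℝ) • s = 0 := by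
    rw [two_smul]
    nth_rewrite 1 [h2]
    exact neg_add_cancel s
  have h4 : s = 0 := (smul_eq_zero.mp h3).resolve_left two_ne_zero
  have h5 := unitS hs
  rw [h4, norm_zero] at h5
  exact zero_ne_one h5

theorem rfn_mem_wj {J : Finset E} {s : E} (hs : s ∈ J) : rfn s ∈ wj J :=
  Subgroup.subset_closure ⟨s, hs, rfl⟩

theorem ds_wj {J : Finset E} (hJ : J ⊆ Q.S) {w : E ≃ₗᵢ[ℝ] E} (hw : w ∈ wj J) {a : E}
    (ha : a ∈ ds Q.Psi Q.x w) : a ∈ J := by
  obtain ⟨y, hy, hyJ⟩ := exists_J Q hJ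
  have h1 : a ∈ Q.S := (Finset.mem_filter.mp ha).1
  have h2 : a ∈ iv Q.Psi Q.x w :=
    Finset.mem_filter.mpr ⟨(Finset.mem_filter.mp h1).1, (Finset.mem_filter.mp ha).2⟩
  have h3 := iv_stab Q hy (hyJ ▸ hw) h2
  rw [← hyJ]
  exact Finset.mem_filter.mpr ⟨h1, h3⟩

theorem wj_ind {J : Finset E} (hJ : J ⊆ Q.S) {p : (E ≃ₗᵢ[ℝ] E) → Prop} (h1 : p 1)
    (hs : ∀ a ∈ J, ∀ v ∈ wj J, a ∉ ds Q.Psi Q.x v → p v → p (rfn a * v)) :
    ∀ n : ℕ, ∀ w ∈ wj J, Q.len w = n → p w := by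
  intro n
  induction n using Nat.strong_induction_on with
  | _ n ih =>
    intro w hw hn
    by_cases hw1 : w = 1
    · rw [hw1]; exact h1
    obtain ⟨a, ha⟩ := ds_nonempty Q (wj_le Q hJ hw) hw1
    have haJ := ds_wj hJ hw ha
    have haS := hJ haJ
    have hv : rfn a * w ∈ wj J := (wj J).mul_mem (rfn_mem_wj haJ) hw
    have h2 := (iv_mul_neg Q haS (wj_le Q hJ hw) ha).2
    have h3 : a ∉ ds Q.Psi Q.x (rfn a * w) := fun h =>
      ((ds_rfn_mul Q haS (wj_le Q hJ hw)).mp h) ha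
    have h4 := hs a haJ _ hv h3 (ih (Q.len (rfn a * w)) (by omega) _ hv rfl)
    rw [← mul_assoc, rfn_mul_self, one_mul] at h4
    exact h4

/-- the terms of the alternating sum -/
def F (w : E ≃ₗᵢ[ℝ] E) : A := ((-1 : Ω) ^ (iv Q.Psi Q.x w).card) • D.T w

theorem F_pos {s : E} (hs : s ∈ Q.S) {w : E ≃ₗᵢ[ℝ] E} (hw : w ∈ Q.W)
    (h : s ∉ ds Q.Psi Q.x w) : D.T (rfn s) * F D w = -F D (rfn s * w) := by
  unfold F
  have h1 := (iv_mul_pos Q hs hw h).2.2
  rw [mul_smul_comm, T_left D hs hw h]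
  have h2 : (iv Q.Psi Q.x (rfn s * w)).card = (iv Q.Psi Q.x w).card + 1 := h1
  rw [h2, pow_succ, mul_neg_one, neg_smul, neg_neg]

theorem F_neg {s : E} (hs : s ∈ Q.S) {w : E ≃ₗᵢ[ℝ] E} (hw : w ∈ Q.W)
    (h : s ∈ ds Q.Psi Q.x w) :
    D.T (rfn s) * F D w = (1 - D.p s) • F D w - D.p s • F D (rfn s * w) := by
  unfold F
  have h1 := (iv_mul_neg Q hs hw h).2
  rw [mul_smul_comm, T_left' D hs hw h]
  have h2 : (iv Q.Psi Q.x (rfn s * w)).card + 1 = (iv Q.Psi Q.x w).card := h1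
  rw [← h2, pow_succ, mul_neg_one, neg_smul, neg_smul, smul_add, smul_neg, smul_comm _ (1 - D.p s),
    smul_comm _ (D.p s)]
  abel

theorem F_pos' {s : E} (hs : s ∈ Q.S) {w : E ≃ₗᵢ[ℝ] E} (hw : w ∈ Q.W)
    (h : s ∉ ds Q.Psi Q.x w⁻¹) : F D w * D.T (rfn s) = -F D (w * rfn s) := by
  unfold F
  have h1 := (iv_mul_pos Q hs (Q.W.inv_mem hw) h).2.2
  have hws : w * rfn s ∈ Q.W := Q.W.mul_mem hw (Q.rf s (Finset.mem_filter.mp (Finset.mem_filter.mp hs).1).1)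
  have h3 : (w * rfn s)⁻¹ = rfn s * w⁻¹ := by rw [mul_inv_rev, rfn_inv]
  have h4 := len_inv Q hws
  rw [h3] at h4
  have h5 := len_inv Q hw
  rw [smul_mul_assoc, T_right D hs hw h]
  have h2 : (iv Q.Psi Q.x (w * rfn s)).card = (iv Q.Psi Q.x w).card + 1 := by
    have e1 : (iv Q.Psi Q.x (rfn s * w⁻¹)).card = (iv Q.Psi Q.x w⁻¹).card + 1 := h1
    have e2 : (iv Q.Psi Q.x (rfn s * w⁻¹)).card = (iv Q.Psi Q.x (w * rfn s)).card := h4
    have e3 : (iv Q.Psi Q.x w⁻¹).card = (iv Q.Psi Q.x w).card := h5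
    omega
  rw [h2, pow_succ, mul_neg_one, neg_smul, neg_neg]

theorem F_neg' {s : E} (hs : s ∈ Q.S) {w : E ≃ₗᵢ[ℝ] E} (hw : w ∈ Q.W)
    (h : s ∈ ds Q.Psi Q.x w⁻¹) :
    F D w * D.T (rfn s) = (1 - D.p s) • F D w - D.p s • F D (w * rfn s) := by
  unfold F
  have h1 := (iv_mul_neg Q hs (Q.W.inv_mem hw) h).2
  have hws : w * rfn s ∈ Q.W := Q.W.mul_mem hw (Q.rf s (Finset.mem_filter.mp (Finset.mem_filter.mp hs).1).1)
  have h3 : (w * rfn s)⁻¹ = rfn s * w⁻¹ := by rw [mul_inv_rev, rfn_inv]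
  have h4 := len_inv Q hws
  rw [h3] at h4
  have h5 := len_inv Q hw
  rw [smul_mul_assoc, T_right' D hs hw h]
  have h2 : (iv Q.Psi Q.x (w * rfn s)).card + 1 = (iv Q.Psi Q.x w).card := by
    have e1 : (iv Q.Psi Q.x (rfn s * w⁻¹)).card + 1 = (iv Q.Psi Q.x w⁻¹).card := h1
    have e2 : (iv Q.Psi Q.x (rfn s * w⁻¹)).card = (iv Q.Psi Q.x (w * rfn s)).card := h4
    have e3 : (iv Q.Psi Q.x w⁻¹).card = (iv Q.Psi Q.x w).card := h5
    omega
  rw [← h2, pow_succ, mul_neg_one, neg_smul, neg_smul, smul_add, smul_neg, smul_comm _ (1 - D.p s),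
    smul_comm _ (D.p s)]
  abel

theorem heS_sum {J : Finset E} [Fintype (wj J)] :
    heS Ω D.T Q.Psi Q.x J = ∑ w : wj J, F D w :=
  finsum_eq_sum_of_fintype _

theorem heS_sp {J : Finset E} (hJ : J ⊆ Q.S) : heS Ω D.T Q.Psi Q.x J ∈ D.sp := by
  have := fin_wj hJ
  let := Fintype.ofFinite (wj J)
  rw [heS_sum]
  exact Submodule.sum_mem _ fun w _ => Submodule.smul_mem _ _ (sp_mem D (wj_le Q hJ w.2))

theorem heS_ne {J : Finset E} (hJ : J ⊆ Q.S) : heS Ω D.T Q.Psi Q.x J ≠ 0 := by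
  have := fin_wj hJ
  let := Fintype.ofFinite (wj J)
  have := Q.fin
  let := Fintype.ofFinite Q.W
  intro h
  rw [heS_sum] at h
  have h1 : ∑ w : wj J, F D w =
      ∑ w : wj J, ((-1 : Ω) ^ (iv Q.Psi Q.x w).card) •
        (fun v : Q.W => D.T v) (Subgroup.inclusion (wj_le Q hJ) w) := rfl
  rw [h1] at h
  have hli := D.li.comp _ (Subgroup.inclusion_injective (wj_le Q hJ))
  have h2 := (Fintype.linearIndependent_iff.mp hli) _ h 1
  exact pow_ne_zero _ (neg_ne_zero.mpr one_ne_zero) h2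

end H02_aux

open H02_aux



theorem T_heS {J : Finset E} (hJ : J ⊆ Q.S) {s : E} (hs : s ∈ J) :
    D.T (rfn s) * heS Ω D.T Q.Psi Q.x J = -(D.p s) • heS Ω D.T Q.Psi Q.x J ∧
      heS Ω D.T Q.Psi Q.x J * D.T (rfn s) = -(D.p s) • heS Ω D.T Q.Psi Q.x J := by
  have := fin_wj hJ
  let := Fintype.ofFinite (wj J)
  have hsS := hJ hs
  rw [heS_sum]
  constructor
  · have h0 : ∑ w : wj J, (D.T (rfn s) * F D w + D.p s • F D w) = 0 := by
      refine Finset.sum_involution (fun w _ => (⟨rfn s, rfn_mem_wj hs⟩ : wj J) * w) ?_ ?_ ?_ ?_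
      · intro w _
        have hw := wj_le Q hJ w.2
        have hsw : rfn s * (w : E ≃ₗᵢ[ℝ] E) ∈ Q.W := wj_le Q hJ ((wj J).mul_mem (rfn_mem_wj hs) w.2)
        have hss : rfn s * (rfn s * (w : E ≃ₗᵢ[ℝ] E)) = w := by
          rw [← mul_assoc, rfn_mul_self, one_mul]
        show D.T (rfn s) * F D w + D.p s • F D w +
          (D.T (rfn s) * F D (rfn s * (w : E ≃ₗᵢ[ℝ] E)) + D.p s • F D (rfn s * (w : E ≃ₗᵢ[ℝ] E))) = 0
        by_cases h : s ∈ ds Q.Psi Q.x (w : E ≃ₗᵢ[ℝ] E)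
        · have h' : s ∉ ds Q.Psi Q.x (rfn s * (w : E ≃ₗᵢ[ℝ] E)) := fun h1 =>
            ((ds_rfn_mul Q hsS hw).mp h1) h
          rw [F_neg D hsS hw h, F_pos D hsS hsw h', hss, sub_smul, one_smul]
          abel
        · have h' : s ∈ ds Q.Psi Q.x (rfn s * (w : E ≃ₗᵢ[ℝ] E)) := (ds_rfn_mul Q hsS hw).mpr h
          rw [F_pos D hsS hw h, F_neg D hsS hsw h', hss, sub_smul, one_smul]
          abel
      · intro w _ _ h
        have h1 : rfn s * (w : E ≃ₗᵢ[ℝ] E) = w := congrArg Subtype.val h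
        exact rfn_ne_one hsS (mul_eq_right.mp h1)
      · intro w _
        exact Finset.mem_univ _
      · intro w _
        apply Subtype.ext
        show rfn s * (rfn s * (w : E ≃ₗᵢ[ℝ] E)) = w
        rw [← mul_assoc, rfn_mul_self, one_mul]
    rw [Finset.sum_add_distrib, ← Finset.mul_sum, ← Finset.smul_sum] at h0
    rw [neg_smul]
    exact eq_neg_of_add_eq_zero_left h0
  · have h0 : ∑ w : wj J, (F D w * D.T (rfn s) + D.p s • F D w) = 0 := by
      have hinv : ∀ v : E ≃ₗᵢ[ℝ] E, (v * rfn s)⁻¹ = rfn s * v⁻¹ := fun v => by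
        rw [mul_inv_rev, rfn_inv]
      refine Finset.sum_involution (fun w _ => w * (⟨rfn s, rfn_mem_wj hs⟩ : wj J)) ?_ ?_ ?_ ?_
      · intro w _
        have hw := wj_le Q hJ w.2
        have hw' := Q.W.inv_mem hw
        have hsw : (w : E ≃ₗᵢ[ℝ] E) * rfn s ∈ Q.W := wj_le Q hJ ((wj J).mul_mem w.2 (rfn_mem_wj hs))
        have hss : (w : E ≃ₗᵢ[ℝ] E) * rfn s * rfn s = w := by
          rw [mul_assoc, rfn_mul_self, mul_one]
        show F D w * D.T (rfn s) + D.p s • F D w +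
          (F D ((w : E ≃ₗᵢ[ℝ] E) * rfn s) * D.T (rfn s) + D.p s • F D ((w : E ≃ₗᵢ[ℝ] E) * rfn s)) = 0
        by_cases h : s ∈ ds Q.Psi Q.x (w : E ≃ₗᵢ[ℝ] E)⁻¹
        · have h' : s ∉ ds Q.Psi Q.x ((w : E ≃ₗᵢ[ℝ] E) * rfn s)⁻¹ := fun h1 => by
            rw [hinv] at h1
            exact ((ds_rfn_mul Q hsS hw').mp h1) h
          rw [F_neg' D hsS hw h, F_pos' D hsS hsw h', hss, sub_smul, one_smul]
          abel
        · have h' : s ∈ ds Q.Psi Q.x ((w : E ≃ₗᵢ[ℝ] E) * rfn s)⁻¹ := by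
            rw [hinv]
            exact (ds_rfn_mul Q hsS hw').mpr h
          rw [F_pos' D hsS hw h, F_neg' D hsS hsw h', hss, sub_smul, one_smul]
          abel
      · intro w _ _ h
        have h1 : (w : E ≃ₗᵢ[ℝ] E) * rfn s = w := congrArg Subtype.val h
        exact rfn_ne_one hsS (mul_eq_left.mp h1)
      · intro w _
        exact Finset.mem_univ _
      · intro w _
        apply Subtype.ext
        show (w : E ≃ₗᵢ[ℝ] E) * rfn s * rfn s = w
        rw [mul_assoc, rfn_mul_self, mul_one]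
    rw [Finset.sum_add_distrib, ← Finset.sum_mul, ← Finset.smul_sum] at h0
    rw [neg_smul]
    exact eq_neg_of_add_eq_zero_left h0

namespace H02_aux

/-- the eigenvalues -/
theorem eig {J : Finset E} (hJ : J ⊆ Q.S) {w : E ≃ₗᵢ[ℝ] E} (hw : w ∈ wj J) :
    ∃ r : Ω, c.av r ≤ 1 ∧ (w ≠ 1 → c.av r < 1) ∧ (w = 1 → r = 1) ∧
      (∀ X : A, D.T 1 * X = X → (∀ s ∈ J, D.T (rfn s) * X = -(D.p s) • X) →
        F D w * X = r • X) ∧
      (∀ X : A, X * D.T 1 = X → (∀ s ∈ J, X * D.T (rfn s) = -(D.p s) • X) →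
        X * F D w = r • X) := by
  refine wj_ind hJ (p := fun w => ∃ r : Ω, c.av r ≤ 1 ∧ (w ≠ 1 → c.av r < 1) ∧ (w = 1 → r = 1) ∧
      (∀ X : A, D.T 1 * X = X → (∀ s ∈ J, D.T (rfn s) * X = -(D.p s) • X) →
        F D w * X = r • X) ∧
      (∀ X : A, X * D.T 1 = X → (∀ s ∈ J, X * D.T (rfn s) = -(D.p s) • X) →
        X * F D w = r • X)) ?_ ?_ (Q.len w) w hw rfl
  · have hF : F D 1 = D.T 1 := by
      unfold F
      rw [iv_one, Finset.card_empty, pow_zero, one_smul]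
    refine ⟨1, ?_, ?_, fun _ => rfl, ?_, ?_⟩
    · rw [map_one]
    · exact fun h => absurd rfl h
    · intro X h1 _
      rw [hF, h1, one_smul]
    · intro X h1 _
      rw [hF, h1, one_smul]
  · rintro a ha v hv hav ⟨r, hr1, -, -, h1, h2⟩
    have haS := hJ ha
    have hvW := wj_le Q hJ hv
    have hF : F D (rfn a * v) = -(D.T (rfn a) * F D v) := by
      rw [F_pos D haS hvW hav, neg_neg]
    have hlt : c.av (D.p a * r) < 1 := by
      rw [map_mul]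
      exact mul_lt_one_of_nonneg_of_lt_one_left (c.av.nonneg _) (D.lt a haS) hr1
    refine ⟨D.p a * r, hlt.le, fun _ => hlt, ?_, ?_, ?_⟩
    · intro h
      exfalso
      have h3 := (iv_mul_pos Q haS hvW hav).2.2
      have h4 : Q.len (rfn a * v) = 0 := by
        rw [h]
        show (iv Q.Psi Q.x 1).card = 0
        rw [iv_one, Finset.card_empty]
      omega
    · intro X hX1 hX2
      rw [hF, neg_mul, mul_assoc, h1 X hX1 hX2, mul_smul_comm, hX2 a ha, smul_smul, mul_neg, neg_smul,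
        neg_neg, mul_comm]
    · intro X hX1 hX2
      rw [hF, mul_neg, ← mul_assoc, hX2 a ha, smul_mul_assoc, h2 X hX1 hX2, smul_smul, neg_mul, neg_smul,
        neg_neg]

theorem gam {J : Finset E} (hJ : J ⊆ Q.S) :
    ∃ γ : Ω, c.av γ = 1 ∧ c.av (γ - 1) < 1 ∧
      (∀ X : A, D.T 1 * X = X → (∀ s ∈ J, D.T (rfn s) * X = -(D.p s) • X) →
        heS Ω D.T Q.Psi Q.x J * X = γ • X) ∧
      (∀ X : A, X * D.T 1 = X → (∀ s ∈ J, X * D.T (rfn s) = -(D.p s) • X) →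
        X * heS Ω D.T Q.Psi Q.x J = γ • X) := by
  have := fin_wj hJ
  let := Fintype.ofFinite (wj J)
  choose r h1 h2 h3 h4 h5 using fun w : wj J => eig D hJ w.2
  have h6 : c.av ((∑ w : wj J, r w) - 1) < 1 := by
    have e1 : (∑ w : wj J, r w) - 1 = ∑ w ∈ Finset.univ.erase (1 : wj J), r w := by
      rw [← Finset.add_sum_erase _ _ (Finset.mem_univ (1 : wj J)), h3 1 rfl, add_sub_cancel_left]
    rw [e1]
    have e2 : ∀ t : Finset (wj J), (∀ w ∈ t, w ≠ 1) → c.av (∑ w ∈ t, r w) < 1 := by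
      intro t
      induction t using Finset.induction_on with
      | empty => intro _; rw [Finset.sum_empty, map_zero]; exact one_pos
      | insert w t hwt ih =>
        intro h
        rw [Finset.sum_insert hwt]
        refine lt_of_le_of_lt (c.na _ _) (max_lt (h2 w ?_) (ih fun v hv => h v (Finset.mem_insert_of_mem hv)))
        exact fun h' => h w (Finset.mem_insert_self _ _) (Subtype.ext h')
    exact e2 _ fun w hw => (Finset.mem_erase.mp hw).1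
  refine ⟨∑ w : wj J, r w, ?_, h6, ?_, ?_⟩
  · set γ := ∑ w : wj J, r w
    apply le_antisymm
    · have e1 : γ = (γ - 1) + 1 := by ring
      rw [e1]
      refine (c.na _ _).trans (max_le h6.le ?_)
      rw [map_one]
    · by_contra hlt
      push Not at hlt
      have e1 : (1 : Ω) = γ + -(γ - 1) := by ring
      have e2 : c.av (1 : Ω) < 1 := by
        rw [e1]
        refine lt_of_le_of_lt (c.na _ _) (max_lt hlt ?_)
        rw [c.av.map_neg]
        exact h6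
      rw [map_one] at e2
      exact lt_irrefl _ e2
  · intro X hX1 hX2
    rw [heS_sum, Finset.sum_mul, Finset.sum_smul]
    exact Finset.sum_congr rfl fun w _ => h4 w X hX1 hX2
  · intro X hX1 hX2
    rw [heS_sum, Finset.mul_sum, Finset.sum_smul]
    exact Finset.sum_congr rfl fun w _ => h5 w X hX1 hX2

theorem one_heS {J : Finset E} (hJ : J ⊆ Q.S) :
    D.T 1 * heS Ω D.T Q.Psi Q.x J = heS Ω D.T Q.Psi Q.x J ∧
      heS Ω D.T Q.Psi Q.x J * D.T 1 = heS Ω D.T Q.Psi Q.x J :=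
  one_sp D (heS_sp D hJ)

theorem main {J : Finset E} (hJ : J ⊆ Q.S) :
    ∃ γ : Ω, c.av γ = 1 ∧ c.av (γ - 1) < 1 ∧
      D.e J = γ⁻¹ • heS Ω D.T Q.Psi Q.x J ∧
      (∀ X : A, D.T 1 * X = X → (∀ s ∈ J, D.T (rfn s) * X = -(D.p s) • X) → D.e J * X = X) ∧
      (∀ X : A, X * D.T 1 = X → (∀ s ∈ J, X * D.T (rfn s) = -(D.p s) • X) → X * D.e J = X) := by
  obtain ⟨γ, h1, h2, h3, h4⟩ := gam D hJ
  have hγ : γ ≠ 0 := by
    intro h
    rw [h, map_zero] at h1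
    exact zero_ne_one h1
  have hsq : heS Ω D.T Q.Psi Q.x J * heS Ω D.T Q.Psi Q.x J = γ • heS Ω D.T Q.Psi Q.x J :=
    h3 _ (one_heS D hJ).1 fun s hs => (T_heS D hJ hs).1
  have hex : ∃ r : Ω, r ≠ 0 ∧ (r • heS Ω D.T Q.Psi Q.x J) * (r • heS Ω D.T Q.Psi Q.x J) =
      r • heS Ω D.T Q.Psi Q.x J := by
    refine ⟨γ⁻¹, inv_ne_zero hγ, ?_⟩
    rw [smul_mul_smul_comm, hsq, smul_smul, mul_assoc, inv_mul_cancel₀ hγ, mul_one]
  have he : D.e J = γ⁻¹ • heS Ω D.T Q.Psi Q.x J := by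
    have e1 : D.e J = hex.choose • heS Ω D.T Q.Psi Q.x J := dif_pos hex
    obtain ⟨hr, hrr⟩ := hex.choose_spec
    set r := hex.choose
    rw [smul_mul_smul_comm, hsq, smul_smul] at hrr
    have e2 : (r * r * γ - r) • heS Ω D.T Q.Psi Q.x J = 0 := by rw [sub_smul, hrr, sub_self]
    have e3 := (smul_eq_zero.mp e2).resolve_right (heS_ne D hJ)
    have e4 : r * (r * γ - 1) = 0 := by
      rw [← e3]; ring
    have e5 := (mul_eq_zero.mp e4).resolve_left hr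
    have e6 : r = γ⁻¹ := eq_inv_of_mul_eq_one_left (sub_eq_zero.mp e5)
    rw [e1, e6]
  refine ⟨γ, h1, h2, he, ?_, ?_⟩
  · intro X hX1 hX2
    rw [he, smul_mul_assoc, h3 X hX1 hX2, smul_smul, inv_mul_cancel₀ hγ, one_smul]
  · intro X hX1 hX2
    rw [he, mul_smul_comm, h4 X hX1 hX2, smul_smul, inv_mul_cancel₀ hγ, one_smul]

end H02_aux

theorem he_eq {J : Finset E} (hJ : J ⊆ Q.S) : ∃ r : Ω, c.av r = 1 ∧ c.av (r - 1) < 1 ∧
    D.e J = r • heS Ω D.T Q.Psi Q.x J := by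
  obtain ⟨γ, h1, h2, h3, -, -⟩ := H02_aux.main D hJ
  have hγ : γ ≠ 0 := by
    intro h
    rw [h, map_zero] at h1
    exact zero_ne_one h1
  refine ⟨γ⁻¹, ?_, ?_, h3⟩
  · rw [map_inv₀, h1, inv_one]
  · have e1 : γ⁻¹ - 1 = -(γ⁻¹ * (γ - 1)) := by
      rw [mul_sub, inv_mul_cancel₀ hγ]; ring
    rw [e1, c.av.map_neg, map_mul, map_inv₀, h1, inv_one, one_mul]
    exact h2

theorem he_sp {J : Finset E} (hJ : J ⊆ Q.S) : D.e J ∈ D.sp := by
  obtain ⟨r, -, -, h⟩ := he_eq D hJ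
  rw [h]
  exact Submodule.smul_mem _ _ (H02_aux.heS_sp D hJ)

theorem T_he {J : Finset E} (hJ : J ⊆ Q.S) {s : E} (hs : s ∈ J) :
    D.T (rfn s) * D.e J = -(D.p s) • D.e J ∧ D.e J * D.T (rfn s) = -(D.p s) • D.e J := by
  obtain ⟨r, -, -, h⟩ := he_eq D hJ
  rw [h, mul_smul_comm, smul_mul_assoc, (T_heS D hJ hs).1, (T_heS D hJ hs).2]
  exact ⟨smul_comm _ _ _, smul_comm _ _ _⟩

theorem he_idem {J : Finset E} (hJ : J ⊆ Q.S) : D.e J * D.e J = D.e J := by
  obtain ⟨γ, -, -, -, h, -⟩ := H02_aux.main D hJ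
  exact h _ (one_sp D (he_sp D hJ)).1 fun s hs => (T_he D hJ hs).1

theorem he_ne {J : Finset E} (hJ : J ⊆ Q.S) : D.e J ≠ 0 := by
  obtain ⟨r, h1, -, h⟩ := he_eq D hJ
  rw [h]
  refine smul_ne_zero ?_ (H02_aux.heS_ne D hJ)
  intro h'
  rw [h', map_zero] at h1
  exact zero_ne_one h1

theorem he_empty : D.e ∅ = D.T 1 := by
  have hJ : (∅ : Finset E) ⊆ Q.S := Finset.empty_subset _
  obtain ⟨γ, -, -, -, h, -⟩ := H02_aux.main D hJ
  have := H02_aux.fin_wj hJ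
  let := Fintype.ofFinite (wj (∅ : Finset E))
  obtain ⟨r, -, -, hr⟩ := he_eq D hJ
  have h1 : D.e ∅ * D.T 1 = D.T 1 :=
    h _ (T_one_mul D Q.W.one_mem) fun s hs => absurd hs (Finset.notMem_empty s)
  rw [← h1, (one_sp D (he_sp D hJ)).2]

/-- the idempotent of a parabolic subgroup for a vector with the eigenvalues `- p_s` -/
theorem he_fix {J : Finset E} (hJ : J ⊆ Q.S) {a : A} (ha : D.T 1 * a = a)
    (h : ∀ s ∈ J, D.T (rfn s) * a = -(D.p s) • a) : D.e J * a = a := by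
  obtain ⟨γ, -, -, -, h1, -⟩ := H02_aux.main D hJ
  exact h1 a ha h

theorem he_mul {J K : Finset E} (hJK : J ⊆ K) (hK : K ⊆ Q.S) :
    D.e J * D.e K = D.e K ∧ D.e K * D.e J = D.e K := by
  obtain ⟨γ, -, -, -, h1, h2⟩ := H02_aux.main D (hJK.trans hK)
  exact ⟨h1 _ (one_sp D (he_sp D hK)).1 fun s hs => (T_he D hK (hJK hs)).1,
    h2 _ (one_sp D (he_sp D hK)).2 fun s hs => (T_he D hK (hJK hs)).2⟩

theorem he_g {J : Finset E} (hJ : J ⊆ Q.S) (hne : J.Nonempty) : D.e J * D.g = 0 ∧ D.g * D.e J = 0 := by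
  obtain ⟨s, hs⟩ := hne
  have h0 := D.ne s (hJ hs)
  constructor
  · have h1 : D.e J * D.g = -(D.p s) • (D.e J * D.g) := by
      calc D.e J * D.g = D.e J * (D.T (rfn s) * D.g) := by rw [D.gT s (hJ hs)]
        _ = D.e J * D.T (rfn s) * D.g := by rw [mul_assoc]
        _ = -(D.p s) • (D.e J * D.g) := by rw [(T_he D hJ hs).2, smul_mul_assoc]
    have h2 : (1 + D.p s) • (D.e J * D.g) = 0 := by
      rw [add_smul, one_smul]
      nth_rewrite 1 [h1]
      rw [neg_smul, neg_add_cancel]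
    exact (smul_eq_zero.mp h2).resolve_left h0
  · have h1 : D.g * D.e J = -(D.p s) • (D.g * D.e J) := by
      calc D.g * D.e J = D.g * D.T (rfn s) * D.e J := by rw [D.Tg s (hJ hs)]
        _ = D.g * (D.T (rfn s) * D.e J) := by rw [mul_assoc]
        _ = -(D.p s) • (D.g * D.e J) := by rw [(T_he D hJ hs).1, mul_smul_comm]
    have h2 : (1 + D.p s) • (D.g * D.e J) = 0 := by
      rw [add_smul, one_smul]
      nth_rewrite 1 [h1]
      rw [neg_smul, neg_add_cancel]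
    exact (smul_eq_zero.mp h2).resolve_left h0

/-- the idempotent `e_S` is central and primitive in the span -/
theorem he_S {a : A} (ha : a ∈ D.sp) : ∃ r : Ω, D.e Q.S * a = r • D.e Q.S ∧ a * D.e Q.S = r • D.e Q.S := by
  have hS : Q.S ⊆ Q.S := Finset.Subset.refl _
  refine Submodule.span_induction (p := fun a _ => ∃ r : Ω, D.e Q.S * a = r • D.e Q.S ∧
    a * D.e Q.S = r • D.e Q.S) ?_ ?_ ?_ ?_ ha
  · rintro _ ⟨w, hw, rfl⟩
    have hw' : w ∈ wj Q.S := by rw [wj_S]; exact hw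
    obtain ⟨r, -, -, -, h1, h2⟩ := H02_aux.eig D hS hw'
    have e1 := h1 _ (one_sp D (he_sp D hS)).1 fun s hs => (T_he D hS hs).1
    have e2 := h2 _ (one_sp D (he_sp D hS)).2 fun s hs => (T_he D hS hs).2
    unfold H02_aux.F at e1 e2
    rw [smul_mul_assoc] at e1
    rw [mul_smul_comm] at e2
    set n := (iv Q.Psi Q.x w).card
    have hn : ((-1 : Ω) ^ n) * ((-1 : Ω) ^ n) = 1 := by
      rw [← mul_pow, neg_one_mul, neg_neg, one_pow]
    refine ⟨(-1 : Ω) ^ n * r, ?_, ?_⟩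
    · rw [mul_smul, ← e2, smul_smul, hn, one_smul]
    · rw [mul_smul, ← e1, smul_smul, hn, one_smul]
  · exact ⟨0, by rw [mul_zero, zero_smul], by rw [zero_mul, zero_smul]⟩
  · rintro a b _ _ ⟨r, h1, h2⟩ ⟨r', h1', h2'⟩
    exact ⟨r + r', by rw [mul_add, h1, h1', add_smul], by rw [add_mul, h2, h2', add_smul]⟩
  · rintro t a _ ⟨r, h1, h2⟩
    exact ⟨t * r, by rw [mul_smul_comm, h1, smul_smul], by rw [smul_mul_assoc, h2, smul_smul]⟩

/-- an idempotent in the span of the `T w` with `T_s a = - p_s a` for all simple `s` is `e_S` -/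
theorem eq_he_S {a : A} (ha : a ∈ D.sp) (h0 : a ≠ 0) (haa : a * a = a)
    (h : ∀ s ∈ Q.S, D.T (rfn s) * a = -(D.p s) • a) : a = D.e Q.S := by
  have hS : Q.S ⊆ Q.S := Finset.Subset.refl _
  have h1 := he_fix D hS (one_sp D ha).1 h
  obtain ⟨r, h2, -⟩ := he_S D ha
  rw [h1] at h2
  have h3 : r ≠ 0 := by
    intro hr
    rw [hr, zero_smul] at h2
    exact h0 h2
  have h4 : a * a = (r * r) • D.e Q.S := by
    rw [h2, smul_mul_smul_comm, he_idem D hS]
  rw [haa, h2] at h4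
  have h5 : (r - r * r) • D.e Q.S = 0 := by rw [sub_smul, ← h4, sub_self]
  have h6 := (smul_eq_zero.mp h5).resolve_right (he_ne D hS)
  have h7 : r * (1 - r) = 0 := by rw [← h6]; ring
  have h8 := (mul_eq_zero.mp h7).resolve_left h3
  have h9 : r = 1 := (sub_eq_zero.mp h8).symm
  rw [h2, h9, one_smul]

end

end LieP
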