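import Pool.Agent.LieP.H02

/-!
# MP_6c3636_al, LieP, module H03: Hecke algebras: coefficients (10.2) (helper7)

Section 10, (10.2). `D.cf w : A → Ω` is the coefficient of `T w` for elements of the span (`LinearIndependent.repr` or a dual functional). All relations of (10.2):
`e_J = r E_J` with `|r - 1| < 1`. `e_J T_w` for a descent `a ∈ J` of `w`: modulo elements of absolute value `< 1` `T_a T_w = T_w` and `e_J T_a = 0`, so all coefficients of `e_J T_w` have absolute value `< 1`: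
exactly `e_J T_a T_w = - p_a e_J T_w` and `T_a T_w = (1 - p_a) T_w + p_a T_{aw}`, so `e_J T_w = p_a (e_J T_w - e_J T_{aw} - e_J T_w) = - p_a e_J T_{aw}`. If `w` has no descent in `J`: `e_J T_w = r ∑ (-1)^(len u) T_{u w}`, `len (u w) = len u + len w` (`disj_min`).
`g`: `T_a g = g` gives for the coefficients `gc w = p_a gc (a w)` if `a` is not a descent of `w`; the sum of the coefficients is `1`, so `|gc w0 - 1| < 1` and `|gc w| < 1` for the other `w`.
-/

namespace LieP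

noncomputable section

open Classical

variable {E : Type} [NormedAddCommGroup E] [InnerProductSpace ℝ E] [FiniteDimensional ℝ E]

variable {Ω : Type} [Field Ω] {c : Parker.Ctx Ω} {Q : RG E} {A : Type} [Ring A] [Algebra Ω A]
  (D : HD c Q A)

/-- the coefficient of `T w` -/
def cf (w : E ≃ₗᵢ[ℝ] E) : A →ₗ[Ω] Ω :=
  if h : ∃ f : A →ₗ[Ω] Ω, ∀ u ∈ Q.W, f (D.T u) = if u = w then 1 else 0 then h.choose else 0

/-- existence of the coefficient functional -/
private theorem cf_ex {w : E ≃ₗᵢ[ℝ] E} (hw : w ∈ Q.W) :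
    ∃ f : A →ₗ[Ω] Ω, ∀ u ∈ Q.W, f (D.T u) = if u = w then 1 else 0 := by
  obtain ⟨f, hf⟩ := LinearMap.exists_extend
    ((Finsupp.lapply (⟨w, hw⟩ : Q.W)).comp (D.li.repr : _ →ₗ[Ω] (Q.W →₀ Ω)))
  refine ⟨f, fun u hu => ?_⟩
  have h1 : D.T u ∈ Submodule.span Ω (Set.range fun w : Q.W => D.T w) :=
    Submodule.subset_span ⟨⟨u, hu⟩, rfl⟩
  have h2 := LinearMap.congr_fun hf ⟨D.T u, h1⟩
  have h3 : D.li.repr ⟨D.T u, h1⟩ = Finsupp.single (⟨u, hu⟩ : Q.W) 1 :=
    D.li.repr_eq_single ⟨u, hu⟩ ⟨D.T u, h1⟩ rfl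
  rw [LinearMap.comp_apply, Submodule.subtype_apply] at h2
  rw [h2, LinearMap.comp_apply]
  show (D.li.repr ⟨D.T u, h1⟩) (⟨w, hw⟩ : Q.W) = _
  rw [h3, Finsupp.single_apply]
  by_cases h : u = w
  · subst h
    simp
  · have h' : (⟨u, hu⟩ : Q.W) ≠ ⟨w, hw⟩ := fun h4 => h (congrArg Subtype.val h4)
    rw [if_neg h', if_neg h]

theorem cf_T {u w : E ≃ₗᵢ[ℝ] E} (hu : u ∈ Q.W) (hw : w ∈ Q.W) :
    cf D w (D.T u) = if u = w then 1 else 0 := by
  unfold cf
  rw [dif_pos (cf_ex D hw)]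
  exact (cf_ex D hw).choose_spec u hu

private theorem rfn_W {s : E} (hs : s ∈ Q.S) : rfn s ∈ Q.W := by
  apply Q.rf
  have h1 : s ∈ ps Q.Psi Q.x := (Finset.mem_filter.mp hs).1
  exact (Finset.mem_filter.mp h1).1

private theorem cf_expand {a : A} (ha : a ∈ D.sp) :
    a = ∑ᶠ w : Q.W, cf D w a • D.T w := by
  have := Q.fin
  have := Fintype.ofFinite Q.W
  rw [finsum_eq_sum_of_fintype]
  induction ha using Submodule.span_induction with
  | mem x hx =>
    obtain ⟨u, hu, rfl⟩ := hx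
    have h1 : ∀ w : Q.W, cf D w (D.T u) • D.T w = if w = ⟨u, hu⟩ then D.T w else 0 := by
      intro w
      rw [cf_T D hu w.2]
      by_cases h : u = (w : E ≃ₗᵢ[ℝ] E)
      · have h' : w = ⟨u, hu⟩ := Subtype.ext h.symm
        rw [if_pos h, if_pos h', one_smul]
      · have h' : w ≠ ⟨u, hu⟩ := fun h2 => h (congrArg Subtype.val h2).symm
        rw [if_neg h, if_neg h', zero_smul]
    rw [Finset.sum_congr rfl fun w _ => h1 w, Finset.sum_ite_eq']
    simp
  | zero => simp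
  | add x y _ _ hx hy =>
    conv_lhs => rw [hx, hy]
    rw [← Finset.sum_add_distrib]
    refine Finset.sum_congr rfl fun w _ => ?_
    rw [map_add, add_smul]
  | smul r x _ hx =>
    conv_lhs => rw [hx]
    rw [Finset.smul_sum]
    refine Finset.sum_congr rfl fun w _ => ?_
    rw [map_smul, smul_assoc]

theorem sp_ext {a b : A} (ha : a ∈ D.sp) (hb : b ∈ D.sp) (h : ∀ w ∈ Q.W, cf D w a = cf D w b) :
    a = b := by
  rw [cf_expand D ha, cf_expand D hb]
  exact finsum_congr fun w => by rw [h w w.2]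

private theorem cf_left {s : E} (hs : s ∈ Q.S) {u : E ≃ₗᵢ[ℝ] E} (hu : u ∈ Q.W) {b : A}
    (hb : b ∈ D.sp) :
    cf D u (D.T (rfn s) * b) = if s ∈ ds Q.Psi Q.x u then (1 - D.p s) * cf D u b + cf D (rfn s * u) b
      else D.p s * cf D (rfn s * u) b := by
  have hsu : rfn s * u ∈ Q.W := Q.W.mul_mem (rfn_W hs) hu
  induction hb using Submodule.span_induction with
  | mem x hx =>
    obtain ⟨w, hw, rfl⟩ := hx
    have hsw : rfn s * w ∈ Q.W := Q.W.mul_mem (rfn_W hs) hw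
    have k1 : rfn s * w = u ↔ w = rfn s * u := by
      constructor
      · rintro rfl
        rw [← mul_assoc, rfn_mul_self, one_mul]
      · rintro rfl
        rw [← mul_assoc, rfn_mul_self, one_mul]
    have k2 := ds_rfn_mul Q hs hu
    have k3 := ds_rfn_mul Q hs hw
    rw [cf_T D hw hu, cf_T D hw hsu]
    by_cases h : s ∈ ds Q.Psi Q.x w
    · rw [T_left' D hs hw h, map_add, map_smul, map_smul, cf_T D hw hu, cf_T D hsw hu]
      by_cases h1 : w = u
      · subst h1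
        have h2 : w ≠ rfn s * w := fun h3 => (k2.mp (h3 ▸ h)) h
        have h3 : rfn s * w ≠ w := fun h4 => h2 h4.symm
        rw [if_pos rfl, if_neg h2, if_neg h3, if_pos h]
        simp
      · by_cases h2 : w = rfn s * u
        · have h3 : s ∉ ds Q.Psi Q.x u := k2.mp (h2 ▸ h)
          rw [if_neg h1, if_pos (k1.mpr h2), if_neg h3, if_pos h2]
          simp
        · have h3 : rfn s * w ≠ u := fun h4 => h2 (k1.mp h4)
          rw [if_neg h1, if_neg h3, if_neg h2]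
          simp
    · rw [T_left D hs hw h, cf_T D hsw hu]
      by_cases h2 : w = rfn s * u
      · have h3 : s ∈ ds Q.Psi Q.x u := by
          by_contra h4
          exact h (h2 ▸ k2.mpr h4)
        have h1 : w ≠ u := fun h4 => h (h4 ▸ h3)
        rw [if_pos (k1.mpr h2), if_pos h3, if_neg h1, if_pos h2]
        simp
      · have h3 : rfn s * w ≠ u := fun h4 => h2 (k1.mp h4)
        rw [if_neg h3, if_neg h2]
        by_cases h1 : w = u
        · rw [if_pos h1, if_neg (h1 ▸ h)]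
          simp
        · rw [if_neg h1]
          simp
  | zero => simp
  | add x y _ _ hx hy =>
    rw [mul_add, map_add, hx, hy, map_add, map_add]
    split_ifs <;> ring
  | smul r x _ hx =>
    rw [mul_smul_comm, map_smul, hx, map_smul, map_smul]
    simp only [smul_eq_mul]
    split_ifs <;> ring

/-- elements with small coefficients -/
private def Gd (b : A) : Prop := b ∈ D.sp ∧ ∀ u ∈ Q.W, c.av (cf D u b) ≤ 1

private theorem Gd_add {a b : A} (ha : Gd D a) (hb : Gd D b) : Gd D (a + b) :=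
  ⟨D.sp.add_mem ha.1 hb.1, fun u hu => by
    rw [map_add]
    exact (c.na _ _).trans (max_le (ha.2 u hu) (hb.2 u hu))⟩

private theorem Gd_zero : Gd D (0 : A) := ⟨D.sp.zero_mem, fun u hu => by
    rw [map_zero, map_zero]
    exact zero_le_one⟩

private theorem Gd_smul {r : Ω} (hr : c.av r ≤ 1) {a : A} (ha : Gd D a) : Gd D (r • a) :=
  ⟨D.sp.smul_mem r ha.1, fun u hu => by
    rw [map_smul, smul_eq_mul, map_mul]
    exact mul_le_one₀ hr (c.av.nonneg _) (ha.2 u hu)⟩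

private theorem Gd_sum {ι : Type*} (s : Finset ι) (f : ι → A) (h : ∀ i ∈ s, Gd D (f i)) :
    Gd D (∑ i ∈ s, f i) := by
  induction s using Finset.induction_on with
  | empty => exact Gd_zero D
  | insert i s hi ih =>
    rw [Finset.sum_insert hi]
    exact Gd_add D (h i (Finset.mem_insert_self i s))
      (ih fun j hj => h j (Finset.mem_insert_of_mem hj))

private theorem av_one_sub {r : Ω} (hr : c.av r < 1) : c.av (1 - r) ≤ 1 := by
  have h := c.na 1 (-r)
  rw [← sub_eq_add_neg] at h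
  refine h.trans (max_le ?_ ?_)
  · rw [map_one]
  · rw [AbsoluteValue.map_neg]
    exact hr.le

private theorem Gd_left {s : E} (hs : s ∈ Q.S) {b : A} (hb : Gd D b) : Gd D (D.T (rfn s) * b) := by
  refine ⟨sp_mul D (sp_mem D (rfn_W hs)) hb.1, fun u hu => ?_⟩
  have hsu : rfn s * u ∈ Q.W := Q.W.mul_mem (rfn_W hs) hu
  rw [cf_left D hs hu hb.1]
  split_ifs with h
  · refine (c.na _ _).trans (max_le ?_ (hb.2 _ hsu))
    rw [map_mul]
    exact mul_le_one₀ (av_one_sub (D.lt s hs)) (c.av.nonneg _) (hb.2 u hu)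
  · rw [map_mul]
    exact mul_le_one₀ (D.lt s hs).le (c.av.nonneg _) (hb.2 _ hsu)

private theorem Gd_T {w : E ≃ₗᵢ[ℝ] E} (hw : w ∈ Q.W) : Gd D (D.T w) :=
  ⟨sp_mem D hw, fun u hu => by
    rw [cf_T D hw hu]
    split_ifs
    · rw [map_one]
    · rw [map_zero]
      exact zero_le_one⟩

private theorem Gd_mul {v w : E ≃ₗᵢ[ℝ] E} (hv : v ∈ Q.W) (hw : w ∈ Q.W) : Gd D (D.T v * D.T w) := by
  have key : v ∈ Q.W ∧ Gd D (D.T v * D.T w) := by
    refine rg_ind Q (p := fun v => v ∈ Q.W ∧ Gd D (D.T v * D.T w)) ?_ ?_ hv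
    · refine ⟨Q.W.one_mem, ?_⟩
      rw [T_one_mul D hw]
      exact Gd_T D hw
    · rintro a ha u hu hau ⟨_, ih⟩
      refine ⟨Q.W.mul_mem (rfn_W ha) hu, ?_⟩
      rw [← T_left D ha hu hau, mul_assoc]
      exact Gd_left D ha ih
  exact key.2

private theorem Gd_he {J : Finset E} (hJ : J ⊆ Q.S) {w : E ≃ₗᵢ[ℝ] E} (hw : w ∈ Q.W) :
    Gd D (D.e J * D.T w) := by
  obtain ⟨r, hr, _, he⟩ := he_eq D hJ
  rw [he, smul_mul_assoc]
  refine Gd_smul D hr.le ?_
  unfold heS
  have : Finite (wj J) := by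
    have := Q.fin
    exact Finite.Set.subset (Q.W : Set (E ≃ₗᵢ[ℝ] E)) (wj_le Q hJ)
  have := Fintype.ofFinite (wj J)
  rw [finsum_eq_sum_of_fintype, Finset.sum_mul]
  refine Gd_sum D _ _ fun v _ => ?_
  rw [smul_mul_assoc]
  refine Gd_smul D ?_ (Gd_mul D (wj_le Q hJ v.2) hw)
  rw [map_pow, AbsoluteValue.map_neg, map_one, one_pow]

/-- the operator `e_J` does not increase the maximum norm -/
theorem cf_he_le {J : Finset E} (hJ : J ⊆ Q.S) {u w : E ≃ₗᵢ[ℝ] E} (hu : u ∈ Q.W) (hw : w ∈ Q.W) :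
    c.av (cf D u (D.e J * D.T w)) ≤ 1 :=
  (Gd_he D hJ hw).2 u hu

theorem cf_he_lt {J : Finset E} (hJ : J ⊆ Q.S) {u w : E ≃ₗᵢ[ℝ] E} (hu : u ∈ Q.W) (hw : w ∈ Q.W)
    (h : ¬ Disjoint (ds Q.Psi Q.x w) J) : c.av (cf D u (D.e J * D.T w)) < 1 := by
  rw [Finset.not_disjoint_iff] at h
  obtain ⟨a, haw, haJ⟩ := h
  have haS := hJ haJ
  have hw' : rfn a * w ∈ Q.W := Q.W.mul_mem (rfn_W haS) hw
  have h1 : a ∉ ds Q.Psi Q.x (rfn a * w) := fun h2 => (ds_rfn_mul Q haS hw).mp h2 haw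
  have h2 : D.T (rfn a) * D.T (rfn a * w) = D.T w := by
    rw [T_left D haS hw' h1, ← mul_assoc, rfn_mul_self, one_mul]
  rw [← h2, ← mul_assoc, (T_he D hJ haJ).2, smul_mul_assoc, map_smul, smul_eq_mul, map_mul,
    AbsoluteValue.map_neg]
  calc c.av (D.p a) * c.av (cf D u (D.e J * D.T (rfn a * w)))
      ≤ c.av (D.p a) * 1 := mul_le_mul_of_nonneg_left (cf_he_le D hJ hu hw') (c.av.nonneg _)
    _ < 1 := by rw [mul_one]; exact D.lt a haS

/-- the coefficients of `e_J T_w` if `w` has no descents in `J` -/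
private theorem cf_he_free {J : Finset E} (hJ : J ⊆ Q.S) {w : E ≃ₗᵢ[ℝ] E} (hw : w ∈ Q.W)
    (h : Disjoint (ds Q.Psi Q.x w) J) : ∃ r : Ω, c.av (r - 1) < 1 ∧ ∀ u ∈ Q.W,
      cf D u (D.e J * D.T w) = r * ∑ᶠ v : wj J, if (v : E ≃ₗᵢ[ℝ] E) * w = u then
        ((-1 : Ω) ^ (iv Q.Psi Q.x v).card) else 0 := by
  obtain ⟨r, hr, hr1, he⟩ := he_eq D hJ
  refine ⟨r, hr1, fun u hu => ?_⟩
  rw [he, smul_mul_assoc, map_smul, smul_eq_mul]
  congr 1
  unfold heS
  have : Finite (wj J) := by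
    have := Q.fin
    exact Finite.Set.subset (Q.W : Set (E ≃ₗᵢ[ℝ] E)) (wj_le Q hJ)
  have := Fintype.ofFinite (wj J)
  rw [finsum_eq_sum_of_fintype, finsum_eq_sum_of_fintype, Finset.sum_mul, map_sum]
  refine Finset.sum_congr rfl fun v _ => ?_
  have hv := wj_le Q hJ v.2
  rw [smul_mul_assoc, map_smul, D.mul v hv w hw (disj_min Q hJ v.2 hw h).1,
    cf_T D (Q.W.mul_mem hv hw) hu]
  split_ifs <;> simp

theorem cf_he_self {J : Finset E} (hJ : J ⊆ Q.S) {w : E ≃ₗᵢ[ℝ] E} (hw : w ∈ Q.W)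
    (h : Disjoint (ds Q.Psi Q.x w) J) : c.av (cf D w (D.e J * D.T w) - 1) < 1 := by
  obtain ⟨r, hr1, hr⟩ := cf_he_free D hJ hw h
  rw [hr w hw]
  have : Finite (wj J) := by
    have := Q.fin
    exact Finite.Set.subset (Q.W : Set (E ≃ₗᵢ[ℝ] E)) (wj_le Q hJ)
  have := Fintype.ofFinite (wj J)
  rw [finsum_eq_sum_of_fintype]
  have h1 : ∀ v : wj J, (if (v : E ≃ₗᵢ[ℝ] E) * w = w then
        ((-1 : Ω) ^ (iv Q.Psi Q.x v).card) else 0) = if v = 1 then 1 else 0 := by
    intro v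
    by_cases hv : v = 1
    · subst hv
      have h2 : ((1 : wj J) : E ≃ₗᵢ[ℝ] E) * w = w := by
        rw [Subgroup.coe_one, one_mul]
      rw [if_pos h2, if_pos rfl, Subgroup.coe_one, iv_one, Finset.card_empty, pow_zero]
    · have h2 : (v : E ≃ₗᵢ[ℝ] E) * w ≠ w := by
        intro h3
        apply hv
        apply Subtype.ext
        rw [Subgroup.coe_one]
        exact mul_eq_right.mp h3
      rw [if_neg h2, if_neg hv]
  rw [Finset.sum_congr rfl fun v _ => h1 v, Finset.sum_ite_eq']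
  simpa using hr1

theorem cf_he_other {J : Finset E} (hJ : J ⊆ Q.S) {u w : E ≃ₗᵢ[ℝ] E} (hu : u ∈ Q.W) (hw : w ∈ Q.W)
    (hne : u ≠ w) (hlen : Q.len u ≤ Q.len w) : c.av (cf D u (D.e J * D.T w)) < 1 := by
  by_cases h : Disjoint (ds Q.Psi Q.x w) J
  · obtain ⟨r, hr1, hr⟩ := cf_he_free D hJ hw h
    rw [hr u hu]
    have h1 : ∀ v : wj J, (if (v : E ≃ₗᵢ[ℝ] E) * w = u then
        ((-1 : Ω) ^ (iv Q.Psi Q.x v).card) else 0) = 0 := by
      intro v
      apply if_neg
      intro h2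
      have hl := (disj_min Q hJ v.2 hw h).2
      rw [h2] at hl
      have h3 : Q.len (v : E ≃ₗᵢ[ℝ] E) = 0 := by omega
      have h4 : (v : E ≃ₗᵢ[ℝ] E) = 1 :=
        iv_eq_empty Q (wj_le Q hJ v.2) (Finset.card_eq_zero.mp h3)
      rw [h4, one_mul] at h2
      exact hne h2.symm
    rw [finsum_congr h1, finsum_zero, mul_zero, map_zero]
    exact zero_lt_one
  · exact cf_he_lt D hJ hu hw h

private theorem av_sum_lt {ι : Type*} (s : Finset ι) (f : ι → Ω) {M : ℝ} (hM : 0 < M)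
    (h : ∀ i ∈ s, c.av (f i) < M) : c.av (∑ i ∈ s, f i) < M := by
  induction s using Finset.induction_on with
  | empty => rw [Finset.sum_empty, map_zero]; exact hM
  | insert i s hi ih =>
    rw [Finset.sum_insert hi]
    exact (c.na _ _).trans_lt (max_lt (h i (Finset.mem_insert_self i s))
      (ih fun j hj => h j (Finset.mem_insert_of_mem hj)))

private theorem cf_g_all : ∃ w0 ∈ Q.W, ds Q.Psi Q.x w0 = Q.S ∧
    (∀ w ∈ Q.W, ds Q.Psi Q.x w = Q.S → w = w0) ∧ c.av (cf D w0 D.g - 1) < 1 ∧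
    ∀ w ∈ Q.W, ds Q.Psi Q.x w ≠ Q.S → c.av (cf D w D.g) < 1 := by
  obtain ⟨w0, hw0, hds, huniq⟩ := exists_longest Q
  refine ⟨w0, hw0, hds, huniq, ?_⟩
  have := Q.fin
  have := Fintype.ofFinite Q.W
  have hsum : ∑ w : Q.W, cf D w D.g = 1 := by
    rw [← D.g_sum, finsum_eq_sum_of_fintype]
    refine Finset.sum_congr rfl fun w _ => ?_
    conv_lhs => rw [D.g_eq]
    rw [finsum_eq_sum_of_fintype, map_sum]
    have h1 : ∀ v : Q.W, cf D w (D.gc v • D.T v) = if v = w then D.gc v else 0 := by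
      intro v
      rw [map_smul, cf_T D v.2 w.2, smul_eq_mul]
      by_cases h : v = w
      · rw [if_pos h, if_pos (congrArg Subtype.val h), mul_one]
      · rw [if_neg h, if_neg (fun h2 => h (Subtype.ext h2)), mul_zero]
    rw [Finset.sum_congr rfl fun v _ => h1 v, Finset.sum_ite_eq']
    simp
  have hstep : ∀ u ∈ Q.W, ds Q.Psi Q.x u ≠ Q.S → ∃ a ∈ Q.S,
      cf D u D.g = D.p a * cf D (rfn a * u) D.g := by
    intro u hu hne
    have h1 : ∃ a ∈ Q.S, a ∉ ds Q.Psi Q.x u := by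
      by_contra h2
      push Not at h2
      exact hne (Finset.Subset.antisymm (Finset.filter_subset _ _) h2)
    obtain ⟨a, ha, ha'⟩ := h1
    refine ⟨a, ha, ?_⟩
    conv_lhs => rw [← D.gT a ha]
    rw [cf_left D ha hu (g_sp D), if_neg ha']
  obtain ⟨m, _, hm⟩ := Finset.exists_max_image Finset.univ (fun w : Q.W => c.av (cf D w D.g))
    ⟨⟨w0, hw0⟩, Finset.mem_univ _⟩
  have hM : 0 < c.av (cf D m D.g) := by
    by_contra h1
    have h2 : ∀ w : Q.W, cf D w D.g = 0 := by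
      intro w
      have h3 := hm w (Finset.mem_univ _)
      have h4 : c.av (cf D w D.g) = 0 :=
        le_antisymm (h3.trans (not_lt.mp h1)) (c.av.nonneg _)
      exact c.av.eq_zero.mp h4
    rw [Finset.sum_congr rfl fun w _ => h2 w, Finset.sum_const_zero] at hsum
    exact zero_ne_one hsum
  have hlt : ∀ u ∈ Q.W, ds Q.Psi Q.x u ≠ Q.S → c.av (cf D u D.g) < c.av (cf D m D.g) := by
    intro u hu hne
    obtain ⟨a, ha, h1⟩ := hstep u hu hne
    rw [h1, map_mul]
    have h2 := hm ⟨rfn a * u, Q.W.mul_mem (rfn_W ha) hu⟩ (Finset.mem_univ _)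
    calc c.av (D.p a) * c.av (cf D (rfn a * u) D.g) ≤ c.av (D.p a) * c.av (cf D m D.g) :=
          mul_le_mul_of_nonneg_left h2 (c.av.nonneg _)
      _ < 1 * c.av (cf D m D.g) := mul_lt_mul_of_pos_right (D.lt a ha) hM
      _ = _ := one_mul _
  have hmw : (m : E ≃ₗᵢ[ℝ] E) = w0 := by
    apply huniq m m.2
    by_contra h1
    exact lt_irrefl _ (hlt m m.2 h1)
  have hrest : c.av (∑ w ∈ Finset.univ.erase m, cf D w D.g) < c.av (cf D m D.g) := by
    refine av_sum_lt _ _ hM fun w hw => hlt w w.2 fun h1 => ?_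
    apply (Finset.mem_erase.mp hw).1
    apply Subtype.ext
    rw [huniq w w.2 h1, hmw]
  have hsplit : cf D m D.g + ∑ w ∈ Finset.univ.erase m, cf D w D.g = 1 := by
    rw [← hsum]
    exact Finset.add_sum_erase _ (fun w : Q.W => cf D w D.g) (Finset.mem_univ m)
  have hM1 : c.av (cf D m D.g) = 1 := by
    set R := ∑ w ∈ Finset.univ.erase m, cf D w D.g with hR
    apply le_antisymm
    · have h1 : cf D m D.g = 1 + -R := by rw [← hsplit]; ring
      have h2 := c.na 1 (-R)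
      rw [← h1, map_one, AbsoluteValue.map_neg] at h2
      rcases le_max_iff.mp h2 with h3 | h3
      · exact h3
      · exact absurd h3 (not_le.mpr hrest)
    · have h2 := c.na (cf D m D.g) R
      rw [hsplit, map_one] at h2
      exact h2.trans (max_le le_rfl hrest.le)
  constructor
  · rw [← hmw]
    have h1 : cf D m D.g - 1 = -∑ w ∈ Finset.univ.erase m, cf D w D.g := by
      rw [← hsplit]; ring
    rw [h1, AbsoluteValue.map_neg]
    rw [hM1] at hrest
    exact hrest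
  · intro w hw hne
    have := hlt w hw hne
    rwa [hM1] at this

theorem cf_g_long {w : E ≃ₗᵢ[ℝ] E} (hw : w ∈ Q.W) (h : ds Q.Psi Q.x w = Q.S) :
    c.av (cf D w D.g - 1) < 1 := by
  obtain ⟨w0, _, _, h2, h3, _⟩ := cf_g_all D
  rw [h2 w hw h]
  exact h3

theorem cf_g_other {w : E ≃ₗᵢ[ℝ] E} (hw : w ∈ Q.W) (h : ds Q.Psi Q.x w ≠ Q.S) :
    c.av (cf D w D.g) < 1 := by
  obtain ⟨w0, _, _, _, _, h4⟩ := cf_g_all D
  exact h4 w hw h

end

end LieP
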