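import Pool.Agent.LieP.F06
import Pool.Agent.Parker.N02

/-!
# MP_6c3636_al, LieP, module H06: weights (10.5) (helper7)

Section 10, (10.5). `ζ` a primitive `(2^N - 1)`-th root of unity, `|S| < N`. Number the orbits of `τ` by `i(q) < N`. `root_sum`: for a nonempty set `I` of exponents `< N` the sum `f(ζ) = ∑_{i ∈ I} ζ^i` has absolute value `1`:
if `|f(ζ)| < 1` then `|f(ζ^(2^j))| < 1` for all `j` (`f(x^2) - f(x)^2` is `2` times an integral element), so the polynomial `f` of degree `< N` has in the residue field (characteristic `2`) the `N` roots `ζ^(2^j)`, `0 ≤ j < N`, which are pairwise different there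
(`|ζ^a - ζ^b| = 1` for `a ≠ b mod 2^N - 1`: the product of the `1 - ζ^a`, `0 < a < 2^N - 1`, is the odd number `2^N - 1`).
-/

namespace LieP

noncomputable section

open Classical

variable {E : Type} [NormedAddCommGroup E] [InnerProductSpace ℝ E] [FiniteDimensional ℝ E]

namespace H06_aux

theorem sum_le {Ω : Type} [Field Ω] (c : Parker.Ctx Ω) {ι : Type*} (S : Finset ι) (f : ι → Ω)
    {M : ℝ} (hM : 0 ≤ M) (h : ∀ i ∈ S, c.av (f i) ≤ M) : c.av (∑ i ∈ S, f i) ≤ M := by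
  induction S using Finset.induction_on with
  | empty => simpa using hM
  | insert a S ha ih =>
    rw [Finset.sum_insert ha]
    exact (c.na _ _).trans (max_le (h a (Finset.mem_insert_self a S))
      (ih fun i hi => h i (Finset.mem_insert_of_mem hi)))

theorem av_eq_one {Ω : Type} [Field Ω] (c : Parker.Ctx Ω) {x y : Ω} (hy : c.av y = 1)
    (h : c.av (x - y) < 1) : c.av x = 1 := by
  apply le_antisymm
  · have h1 := c.na (x - y) y
    rw [sub_add_cancel] at h1
    exact h1.trans (max_le h.le hy.le)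
  · by_contra hlt
    push Not at hlt
    have h1 := c.na (-(x - y)) x
    have h2 : -(x - y) + x = y := by ring
    rw [h2, hy, c.av.map_neg] at h1
    exact absurd h1 (not_le.mpr (max_lt h hlt))

/-- the number of an element of a finite set -/
def num {α : Type} (O : Finset α) (q : α) : ℕ := if h : q ∈ O then (O.equivFin ⟨q, h⟩ : ℕ) else 0

theorem num_lt {α : Type} {O : Finset α} {q : α} (h : q ∈ O) : num O q < O.card := by
  rw [num, dif_pos h]
  exact (O.equivFin ⟨q, h⟩).2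

theorem num_inj {α : Type} {O : Finset α} {q r : α} (h : q ∈ O) (h' : r ∈ O)
    (he : num O q = num O r) : q = r := by
  rw [num, num, dif_pos h, dif_pos h'] at he
  have h1 := O.equivFin.injective (Fin.ext he)
  exact congrArg Subtype.val h1

end H06_aux

open H06_aux

theorem root_sum {Ω : Type} [Field Ω] [CharZero Ω] (c : Parker.Ctx Ω) (h2 : c.av 2 < 1) {N : ℕ} {ζ : Ω}
    (hζ : IsPrimitiveRoot ζ (2 ^ N - 1)) (I : Finset ℕ) (hI : ∀ i ∈ I, i < N) (h0 : I.Nonempty) :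
    c.av (∑ i ∈ I, ζ ^ i) = 1 := by
  obtain ⟨i0, hi0⟩ := h0
  have hN : 0 < N := lt_of_le_of_lt (Nat.zero_le _) (hI i0 hi0)
  have hpow : 2 ≤ 2 ^ N := by
    calc 2 = 2 ^ 1 := (pow_one 2).symm
      _ ≤ 2 ^ N := Nat.pow_le_pow_right (by norm_num) hN
  have hne : 2 ^ N - 1 ≠ 0 := by omega
  have hodd : Odd (2 ^ N - 1) := by
    obtain ⟨M, rfl⟩ : ∃ M, N = M + 1 := ⟨N - 1, by omega⟩
    refine ⟨2 ^ M - 1, ?_⟩
    have h3 : 0 < 2 ^ M := by positivity
    rw [pow_succ]
    omega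
  have hav : c.av ζ = 1 := Parker.av_root c hne hζ.pow_eq_one
  have hle : c.av (∑ i ∈ I, ζ ^ i) ≤ 1 :=
    sum_le c I _ zero_le_one fun i _ => by rw [map_pow, hav, one_pow]
  by_contra hne1
  have hlt : c.av (∑ i ∈ I, ζ ^ i) < 1 := lt_of_le_of_ne hle hne1
  have hz : ζ ∈ Parker.vr c := Parker.mem_vr.2 hav.le
  obtain ⟨z, hzdef⟩ : ∃ z : Parker.vr c, (z : Ω) = ζ := ⟨⟨ζ, hz⟩, rfl⟩
  obtain ⟨zb, hzb⟩ : ∃ zb : Parker.rf c, zb = IsLocalRing.residue (Parker.vr c) z := ⟨_, rfl⟩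
  have hsum : ∑ i ∈ I, zb ^ i = 0 := by
    have h3 : IsLocalRing.residue (Parker.vr c) (∑ i ∈ I, z ^ i) = 0 := by
      rw [Parker.residue_eq_zero]
      have h4 : ((∑ i ∈ I, z ^ i : Parker.vr c) : Ω) = ∑ i ∈ I, ζ ^ i := by
        rw [← hzdef]
        push_cast
        rfl
      rw [h4]
      exact hlt
    rw [map_sum] at h3
    rw [← h3]
    refine Finset.sum_congr rfl fun i _ => ?_
    rw [map_pow, hzb]
  have hchar : CharP (Parker.rf c) 2 := by
    have h3 : (2 : Parker.rf c) = 0 := Parker.rf_two h2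
    exact CharTwo.of_one_ne_zero_of_two_eq_zero one_ne_zero h3
  have hfact : Fact (Nat.Prime 2) := ⟨Nat.prime_two⟩
  have hroots : ∀ j : ℕ, ∑ i ∈ I, (zb ^ (2 ^ j)) ^ i = 0 := by
    intro j
    have h3 : (∑ i ∈ I, zb ^ i) ^ (2 ^ j) = ∑ i ∈ I, (zb ^ i) ^ (2 ^ j) :=
      sum_pow_char_pow 2 j I _
    rw [hsum, zero_pow (by positivity)] at h3
    rw [h3]
    refine Finset.sum_congr rfl fun i _ => ?_
    rw [← pow_mul, ← pow_mul, mul_comm]
  have hinj : Set.InjOn (fun j : ℕ => zb ^ (2 ^ j)) (Finset.range N : Set ℕ) := by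
    intro j hj l hl hjl
    have hj' : j < N := Finset.mem_range.1 (Finset.mem_coe.1 hj)
    have hl' : l < N := Finset.mem_range.1 (Finset.mem_coe.1 hl)
    by_contra hne2
    have hN2 : 2 ≤ N := by omega
    have hlt2 : ∀ m < N, 2 ^ m < 2 ^ N - 1 := by
      intro m hm
      have h3 : 2 ^ m ≤ 2 ^ (N - 1) := Nat.pow_le_pow_right (by norm_num) (by omega)
      have h4 : 2 ^ N = 2 * 2 ^ (N - 1) := by
        rw [← pow_succ']
        congr 1
        omega
      have h5 : 2 ^ 1 ≤ 2 ^ (N - 1) := Nat.pow_le_pow_right (by norm_num) (by omega)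
      omega
    have h3 : ζ ^ (2 ^ j) ≠ ζ ^ (2 ^ l) := by
      intro h4
      have h5 := hζ.pow_inj (hlt2 j hj') (hlt2 l hl') h4
      exact hne2 (Nat.pow_right_injective (le_refl 2) h5)
    have h4 : c.av (ζ ^ (2 ^ j) - ζ ^ (2 ^ l)) = 1 := by
      refine Parker.av_sub_root c hodd ?_ ?_ h3
      · rw [← pow_mul, mul_comm, pow_mul, hζ.pow_eq_one, one_pow]
      · rw [← pow_mul, mul_comm, pow_mul, hζ.pow_eq_one, one_pow]
    have h5 : IsLocalRing.residue (Parker.vr c) (z ^ (2 ^ j) - z ^ (2 ^ l)) = 0 := by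
      rw [map_sub, map_pow, map_pow, ← hzb]
      exact sub_eq_zero.2 hjl
    rw [Parker.residue_eq_zero] at h5
    have h6 : ((z ^ (2 ^ j) - z ^ (2 ^ l) : Parker.vr c) : Ω) = ζ ^ (2 ^ j) - ζ ^ (2 ^ l) := by
      rw [← hzdef]
      push_cast
      rfl
    rw [h6, h4] at h5
    exact lt_irrefl 1 h5
  obtain ⟨f, hf⟩ : ∃ f : Polynomial (Parker.rf c), f = ∑ i ∈ I, Polynomial.X ^ i := ⟨_, rfl⟩
  have hcoeff : f.coeff i0 = 1 := by
    rw [hf, Polynomial.finset_sum_coeff]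
    simp only [Polynomial.coeff_X_pow]
    rw [Finset.sum_ite_eq I i0 (fun _ => (1 : Parker.rf c)), if_pos hi0]
  have hf0 : f ≠ 0 := by
    intro h3
    rw [h3, Polynomial.coeff_zero] at hcoeff
    exact zero_ne_one hcoeff
  have hdeg : f.natDegree < N := by
    rw [hf]
    refine lt_of_le_of_lt (Polynomial.natDegree_sum_le_of_forall_le (n := N - 1) I _ ?_) (by omega)
    intro i hi
    rw [Polynomial.natDegree_X_pow]
    have := hI i hi
    omega
  have hsub : (Finset.range N).image (fun j : ℕ => zb ^ (2 ^ j)) ⊆ f.roots.toFinset := by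
    intro y hy
    obtain ⟨j, _, rfl⟩ := Finset.mem_image.1 hy
    rw [Multiset.mem_toFinset, Polynomial.mem_roots hf0, Polynomial.IsRoot, hf,
      Polynomial.eval_finset_sum]
    simp only [Polynomial.eval_pow, Polynomial.eval_X]
    exact hroots j
  have h3 := Finset.card_le_card hsub
  rw [Finset.card_image_of_injOn hinj, Finset.card_range] at h3
  have h4 := (Multiset.toFinset_card_le f.roots).trans (Polynomial.card_roots' f)
  omega

namespace H06_aux

theorem pair_comm' (s t : E) : ({s, t} : Finset E) = {t, s} := Finset.pair_comm s t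

/-- sums of the `± ζ ^ i` with different `i` -/
theorem sign_sum {Ω : Type} [Field Ω] [CharZero Ω] (c : Parker.Ctx Ω) (h2 : c.av 2 < 1) {N : ℕ} {ζ : Ω}
    (hζ : IsPrimitiveRoot ζ (2 ^ N - 1)) {α : Type} (P : Finset α) (hP : P.Nonempty) (i : α → ℕ)
    (hi : ∀ s ∈ P, i s < N) (hinj : Set.InjOn i (P : Set α)) (b : α → Ω)
    (hb : ∀ s ∈ P, b s = ζ ^ i s ∨ b s = - ζ ^ i s) : c.av (∑ s ∈ P, b s) = 1 := by
  have h1 : c.av (∑ s ∈ P, ζ ^ i s) = 1 := by
    have h3 := root_sum c h2 hζ (P.image i) (by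
      intro j hj
      obtain ⟨s, hs, rfl⟩ := Finset.mem_image.1 hj
      exact hi s hs) (hP.image i)
    rwa [Finset.sum_image hinj] at h3
  have hN : 0 < N := by
    obtain ⟨s, hs⟩ := hP
    exact lt_of_le_of_lt (Nat.zero_le _) (hi s hs)
  have hpow : 2 ≤ 2 ^ N := by
    calc 2 = 2 ^ 1 := (pow_one 2).symm
      _ ≤ 2 ^ N := Nat.pow_le_pow_right (by norm_num) hN
  have hav : c.av ζ = 1 := Parker.av_root c (by omega) hζ.pow_eq_one
  refine av_eq_one c h1 ?_
  rw [← Finset.sum_sub_distrib]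
  refine lt_of_le_of_lt (sum_le c P _ (c.av.nonneg 2) fun s hs => ?_) h2
  rcases hb s hs with h | h
  · rw [h, sub_self, map_zero]
    exact c.av.nonneg 2
  · rw [h]
    have h3 : - ζ ^ i s - ζ ^ i s = - (2 * ζ ^ i s) := by ring
    rw [h3, c.av.map_neg, map_mul, map_pow, hav, one_pow, mul_one]

end H06_aux

theorem exists_wt {Ω : Type} [Field Ω] [CharZero Ω] (c : Parker.Ctx Ω) (h2 : c.av 2 < 1) (Q : RG E) {N : ℕ} {ζ : Ω}
    (hζ : IsPrimitiveRoot ζ (2 ^ N - 1)) (hN : Q.S.card < N) (τ : E → E) (h1 : ∀ s ∈ Q.S, τ s ∈ Q.S)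
    (hτ : ∀ s ∈ Q.S, τ (τ s) = s) : ∃ w : WT c Q, w.τ = τ ∧
      (∀ q ∈ w.orb, ∃ i : ℕ, w.a q = ζ ^ i) ∧
      (∀ s ∈ Q.S, w.b s = 0 ∨ ∃ i : ℕ, w.b s = ζ ^ i ∨ w.b s = - ζ ^ i) ∧
      ((∀ s ∈ Q.S, τ s = s) → ∀ s, w.b s = 0) := by
  obtain ⟨O, hO⟩ : ∃ O : Finset (Finset E), O = Q.S.image fun s => ({s, τ s} : Finset E) := ⟨_, rfl⟩
  have hOc : O.card ≤ Q.S.card := by rw [hO]; exact Finset.card_image_le
  have hmemO : ∀ s ∈ Q.S, ({s, τ s} : Finset E) ∈ O := by
    intro s hs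
    rw [hO]
    exact Finset.mem_image.2 ⟨s, hs, rfl⟩
  obtain ⟨b, hb⟩ : ∃ b : E → Ω, b = fun s => if s ∈ Q.S then
      (if num Q.S s < num Q.S (τ s) then ζ ^ num O {s, τ s} else
        if num Q.S (τ s) < num Q.S s then - ζ ^ num O {s, τ s} else 0) else 0 := ⟨_, rfl⟩
  have hb1 : ∀ s ∈ Q.S, b (τ s) = - b s := by
    intro s hs
    rw [hb]
    simp only
    rw [if_pos hs, if_pos (h1 s hs), hτ s hs, Finset.pair_comm (τ s) s]
    rcases lt_trichotomy (num Q.S s) (num Q.S (τ s)) with h | h | h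
    · rw [if_neg (not_lt.2 h.le), if_pos h, if_pos h]
    · rw [if_neg (by omega), if_neg (by omega), if_neg (by omega), if_neg (by omega), neg_zero]
    · rw [if_pos h, if_neg (not_lt.2 h.le), if_pos h, neg_neg]
  have hb2 : ∀ s ∈ Q.S, τ s ≠ s → b s = ζ ^ num O {s, τ s} ∨ b s = - ζ ^ num O {s, τ s} := by
    intro s hs hne
    rw [hb]
    simp only
    rw [if_pos hs]
    rcases lt_trichotomy (num Q.S s) (num Q.S (τ s)) with h | h | h
    · rw [if_pos h]; exact Or.inl rfl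
    · exact absurd (num_inj hs (h1 s hs) h).symm hne
    · rw [if_neg (not_lt.2 h.le), if_pos h]; exact Or.inr rfl
  have hb3 : ∀ s, (s ∈ Q.S → τ s = s) → b s = 0 := by
    intro s hs
    rw [hb]
    simp only
    by_cases h : s ∈ Q.S
    · rw [if_pos h, hs h, if_neg (lt_irrefl _), if_neg (lt_irrefl _)]
    · rw [if_neg h]
  refine ⟨⟨τ, fun q => ζ ^ num O q, b, h1, hτ, hb1, ?_, ?_⟩, rfl, ?_, ?_, ?_⟩
  · intro P hP hne
    rw [← hO] at hP
    exact sign_sum c h2 hζ P hne (num O) (fun q hq => ((num_lt (hP hq)).trans_le hOc).trans hN)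
      (fun q hq r hr h => num_inj (hP (Finset.mem_coe.1 hq)) (hP (Finset.mem_coe.1 hr)) h) _
      (fun q _ => Or.inl rfl)
  · intro P hP hne hd
    refine sign_sum c h2 hζ P hne (fun s => num O {s, τ s})
      (fun s hs => ((num_lt (hmemO s (hP hs))).trans_le hOc).trans hN) ?_ b
      (fun s hs => hb2 s (hP hs) fun h => hd s hs (by rw [h]; exact hs))
    intro s hs r hr h
    have hs' := Finset.mem_coe.1 hs
    have hr' := Finset.mem_coe.1 hr
    have h3 : ({s, τ s} : Finset E) = {r, τ r} := num_inj (hmemO s (hP hs')) (hmemO r (hP hr')) h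
    have h4 : r ∈ ({s, τ s} : Finset E) := by rw [h3]; exact Finset.mem_insert_self _ _
    rcases Finset.mem_insert.1 h4 with h5 | h5
    · exact h5.symm
    · exact absurd ((Finset.mem_singleton.1 h5) ▸ hr') (hd s hs')
  · intro q _
    exact ⟨_, rfl⟩
  · intro s hs
    by_cases h : τ s = s
    · exact Or.inl (hb3 s fun _ => h)
    · exact Or.inr ⟨_, hb2 s hs h⟩
  · intro h s
    exact hb3 s (h s)

end

end LieP
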