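import Pool.Agent.LieP.H03
import Pool.Agent.LieP.H06
import Pool.Agent.Parker.N02

/-!
# MP_6c3636_al, LieP, module H04: Lemma H: the operator is an isometry (helper7)

Section 10, proof of Lemma H. `v : w.JJ → D.sp`-valued (`v J ∈ D.sp`), norm = maximum of the `|cf D u (v J)|`. Let the norm be `1` and `u` of minimal length such that some `|cf D u (v J)| = 1`.
Modulo elements of absolute value `< 1` the coefficients at `u` of `(S v)_J` are given by the block matrix of the proof (`H03`), which is invertible over the residue field by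
`cond1`, `cond2` (residue characteristic `2`). It is enough to prove: if all coefficients of `v` have absolute value `≤ 1` and one has absolute value `1`, then one coefficient of `S v` has absolute value `1` (at `u`).
(`v = 0` or scaling by an element of `Ω`: the maximum is attained.) Work with `x ~ y :⇔ c.av (x - y) < 1`, or with the residue field of Parker N02.
-/

namespace LieP

noncomputable section

open Classical

namespace H04_aux

/-! ### characteristic two combinatorics -/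

section Comb

variable {k : Type} [Field k]

lemma neg_eq (h2 : (2 : k) = 0) (x : k) : -x = x := by
  have : x + x = 0 := by rw [← two_mul, h2, zero_mul]
  exact neg_eq_of_add_eq_zero_left this

lemma sum_symm (h2 : (2 : k) = 0) {ι : Type} (s : Finset ι) (f : ι → ι → k)
    (hf : ∀ i ∈ s, ∀ j ∈ s, f i j = f j i) :
    ∑ i ∈ s, ∑ j ∈ s, f i j = ∑ i ∈ s, f i i := by
  have h1 : ∑ p ∈ (s ×ˢ s).filter (fun p => p.1 ≠ p.2), f p.1 p.2 = 0 := by
    refine Finset.sum_involution (fun p _ => (p.2, p.1)) ?_ ?_ ?_ ?_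
    · rintro ⟨i, j⟩ hp
      simp only [Finset.mem_filter, Finset.mem_product] at hp
      show f i j + f j i = 0
      rw [hf j hp.1.2 i hp.1.1, ← two_mul, h2, zero_mul]
    · rintro ⟨i, j⟩ hp _ h
      simp only [Finset.mem_filter, Finset.mem_product] at hp
      simp only [Prod.mk.injEq] at h
      exact hp.2 h.2
    · rintro ⟨i, j⟩ hp
      simp only [Finset.mem_filter, Finset.mem_product] at hp ⊢
      exact ⟨⟨hp.1.2, hp.1.1⟩, fun h => hp.2 h.symm⟩
    · rintro ⟨i, j⟩ _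
      rfl
  rw [← Finset.sum_product', ← Finset.sum_filter_add_sum_filter_not (s ×ˢ s) (fun p => p.1 ≠ p.2),
    h1, zero_add]
  have h3 : (s ×ˢ s).filter (fun p => ¬ p.1 ≠ p.2) = s.image (fun i => (i, i)) := by
    ext ⟨i, j⟩
    simp only [Finset.mem_filter, Finset.mem_product, not_not, Finset.mem_image, Prod.mk.injEq]
    constructor
    · rintro ⟨⟨h4, h5⟩, rfl⟩
      exact ⟨i, h4, rfl, rfl⟩
    · rintro ⟨a, ha, rfl, rfl⟩
      exact ⟨⟨ha, ha⟩, rfl⟩
  rw [h3, Finset.sum_image]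
  intro i _ j _ h
  simpa using h

/-- flips: the operator `A = ∑ a q • flip q` is injective, also after adding a multiple of the
projection to one coordinate -/
lemma flip_inj (h2 : (2 : k) = 0) {α ι : Type} (Js : Finset α) (s : Finset ι) (a : ι → k)
    (fl : ι → α → α) (hmem : ∀ q ∈ s, ∀ J ∈ Js, fl q J ∈ Js)
    (hinv : ∀ q ∈ s, ∀ J ∈ Js, fl q (fl q J) = J)
    (hcomm : ∀ q ∈ s, ∀ q' ∈ s, ∀ J ∈ Js, fl q (fl q' J) = fl q' (fl q J))
    (ha : ∑ q ∈ s, a q ≠ 0) (o : α) (ho : o ∈ Js) (hne : ∀ q ∈ s, fl q o ≠ o)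
    (β : k) (x : α → k)
    (hx : ∀ J ∈ Js, (∑ q ∈ s, a q * x (fl q J)) + (if J = o then β * x o else 0) = 0) :
    ∀ J ∈ Js, x J = 0 := by
  have hA : ∀ J ∈ Js, ∑ q ∈ s, a q * (∑ q' ∈ s, a q' * x (fl q' (fl q J))) =
      (∑ q ∈ s, a q) ^ 2 * x J := by
    intro J hJ
    have e1 : ∑ q ∈ s, a q * (∑ q' ∈ s, a q' * x (fl q' (fl q J))) =
        ∑ q ∈ s, ∑ q' ∈ s, a q * a q' * x (fl q' (fl q J)) := by
      refine Finset.sum_congr rfl fun q _ => ?_
      rw [Finset.mul_sum]
      exact Finset.sum_congr rfl fun q' _ => by ring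
    rw [e1, sum_symm h2 s (fun q q' => a q * a q' * x (fl q' (fl q J)))
      (fun q hq q' hq' => by
        show a q * a q' * x (fl q' (fl q J)) = a q' * a q * x (fl q (fl q' J))
        rw [hcomm q' hq' q hq J hJ, mul_comm (a q)])]
    have e2 : (∑ q ∈ s, a q) ^ 2 = ∑ q ∈ s, a q * a q := by
      rw [sq, Finset.sum_mul_sum, sum_symm h2 s (fun q q' => a q * a q')
        (fun q _ q' _ => mul_comm _ _)]
    rw [e2, Finset.sum_mul]
    refine Finset.sum_congr rfl fun q hq => ?_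
    rw [hinv q hq J hJ]
  -- first the coordinate `o`
  have ho0 : x o = 0 := by
    have h3 := hA o ho
    have h4 : ∑ q ∈ s, a q * (∑ q' ∈ s, a q' * x (fl q' (fl q o))) = 0 := by
      refine Finset.sum_eq_zero fun q hq => ?_
      have h5 := hx (fl q o) (hmem q hq o ho)
      rw [if_neg (hne q hq), add_zero] at h5
      rw [h5, mul_zero]
    rw [h4] at h3
    have h6 := mul_eq_zero.mp h3.symm
    rcases h6 with h6 | h6
    · exact absurd (pow_eq_zero_iff (two_ne_zero)|>.mp h6) ha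
    · exact h6
  intro J hJ
  have h3 := hA J hJ
  have h4 : ∑ q ∈ s, a q * (∑ q' ∈ s, a q' * x (fl q' (fl q J))) = 0 := by
    refine Finset.sum_eq_zero fun q hq => ?_
    have h5 := hx (fl q J) (hmem q hq J hJ)
    rw [ho0, mul_zero, ite_self, add_zero] at h5
    rw [h5, mul_zero]
  rw [h4] at h3
  have h6 := mul_eq_zero.mp h3.symm
  rcases h6 with h6 | h6
  · exact absurd (pow_eq_zero_iff (two_ne_zero)|>.mp h6) ha
  · exact h6

end Comb

/-! ### the residue map -/

section Res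

variable {Ω : Type} [Field Ω] (c : Parker.Ctx Ω)

/-- the residue of an element of absolute value at most one -/
def rs (x : Ω) : Parker.rf c :=
  if h : c.av x ≤ 1 then IsLocalRing.residue (Parker.vr c) ⟨x, h⟩ else 0

variable {c}

lemma rs_of {x : Ω} (h : c.av x ≤ 1) : rs c x = IsLocalRing.residue (Parker.vr c) ⟨x, h⟩ := dif_pos h

lemma rs_add {x y : Ω} (hx : c.av x ≤ 1) (hy : c.av y ≤ 1) : rs c (x + y) = rs c x + rs c y := by
  rw [rs_of hx, rs_of hy, rs_of ((c.na x y).trans (max_le hx hy)), ← map_add]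
  rfl

lemma rs_mul {x y : Ω} (hx : c.av x ≤ 1) (hy : c.av y ≤ 1) : rs c (x * y) = rs c x * rs c y := by
  have hxy : c.av (x * y) ≤ 1 := by
    rw [map_mul]; exact mul_le_one₀ hx (c.av.nonneg y) hy
  rw [rs_of hx, rs_of hy, rs_of hxy, ← map_mul]
  rfl

lemma av_zero_le : c.av (0 : Ω) ≤ 1 := by rw [map_zero]; exact zero_le_one

lemma rs_zero : rs c (0 : Ω) = 0 := by
  rw [rs_of av_zero_le]
  exact map_zero _

lemma rs_one : rs c (1 : Ω) = 1 := by
  rw [rs_of (by rw [map_one])]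
  exact map_one _

lemma rs_eq_zero {x : Ω} (hx : c.av x ≤ 1) : rs c x = 0 ↔ c.av x < 1 := by
  rw [rs_of hx]; exact Parker.residue_eq_zero _

lemma rs_ne_zero {x : Ω} (hx : c.av x ≤ 1) : rs c x ≠ 0 ↔ c.av x = 1 := by
  rw [rs_of hx]; exact Parker.residue_ne_zero _

lemma rs_neg {x : Ω} (hx : c.av x ≤ 1) : rs c (-x) = - rs c x := by
  have h : c.av (-x) ≤ 1 := by simpa using hx
  have := rs_add hx h
  rw [add_neg_cancel, rs_zero] at this
  exact (neg_eq_of_add_eq_zero_right this.symm).symm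

lemma rs_sub {x y : Ω} (hx : c.av x ≤ 1) (hy : c.av y ≤ 1) : rs c (x - y) = rs c x - rs c y := by
  rw [sub_eq_add_neg, rs_add hx (by simpa using hy), rs_neg hy, sub_eq_add_neg]

lemma av_sum_le {r : ℝ} (hr : 0 ≤ r) {ι : Type} (s : Finset ι) (f : ι → Ω)
    (h : ∀ i ∈ s, c.av (f i) ≤ r) : c.av (∑ i ∈ s, f i) ≤ r := by
  induction s using Finset.induction_on with
  | empty => simpa using hr
  | insert a s ha ih =>
    rw [Finset.sum_insert ha]
    exact (c.na _ _).trans (max_le (h a (Finset.mem_insert_self _ _))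
      (ih fun i hi => h i (Finset.mem_insert_of_mem hi)))

lemma av_sum_lt {ι : Type} (s : Finset ι) (f : ι → Ω)
    (h : ∀ i ∈ s, c.av (f i) < 1) : c.av (∑ i ∈ s, f i) < 1 := by
  induction s using Finset.induction_on with
  | empty => simp
  | insert a s ha ih =>
    rw [Finset.sum_insert ha]
    exact (c.na _ _).trans_lt (max_lt (h a (Finset.mem_insert_self _ _))
      (ih fun i hi => h i (Finset.mem_insert_of_mem hi)))

lemma rs_sum {ι : Type} (s : Finset ι) (f : ι → Ω) (h : ∀ i ∈ s, c.av (f i) ≤ 1) :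
    rs c (∑ i ∈ s, f i) = ∑ i ∈ s, rs c (f i) := by
  induction s using Finset.induction_on with
  | empty => simp [rs_zero]
  | insert a s ha ih =>
    have h1 := h a (Finset.mem_insert_self _ _)
    have h2 : ∀ i ∈ s, c.av (f i) ≤ 1 := fun i hi => h i (Finset.mem_insert_of_mem hi)
    rw [Finset.sum_insert ha, Finset.sum_insert ha, rs_add h1 (av_sum_le zero_le_one s f h2), ih h2]

lemma rs_congr {x y : Ω} (hy : c.av y ≤ 1) (h : c.av (x - y) < 1) : rs c x = rs c y := by
  have hx : x = (x - y) + y := by ring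
  rw [hx, rs_add h.le hy, (rs_eq_zero h.le).mpr h, zero_add]

end Res

/-! ### expansions in the basis -/

section Exp

variable {E : Type} [NormedAddCommGroup E] [InnerProductSpace ℝ E] [FiniteDimensional ℝ E]

variable {Ω : Type} [Field Ω] {c : Parker.Ctx Ω} {Q : RG E} {A : Type} [Ring A]
  [Algebra Ω A] (D : HD c Q A)

/-- the elements of the group as a finset -/
def WF (Q : RG E) : Finset (E ≃ₗᵢ[ℝ] E) :=
  (@Set.toFinite _ (Q.W : Set (E ≃ₗᵢ[ℝ] E)) Q.fin).toFinset

lemma mem_WF {Q : RG E} {y : E ≃ₗᵢ[ℝ] E} : y ∈ WF Q ↔ y ∈ Q.W := by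
  simp [WF]

lemma sp_expand {a : A} (ha : a ∈ D.sp) : a = ∑ y ∈ WF Q, cf D y a • D.T y := by
  have hmem : ∑ y ∈ WF Q, cf D y a • D.T y ∈ D.sp :=
    Submodule.sum_mem _ fun y hy => Submodule.smul_mem _ _ (sp_mem D (mem_WF.mp hy))
  refine sp_ext D ha hmem fun u hu => ?_
  rw [map_sum, Finset.sum_eq_single u]
  · rw [map_smul, cf_T D hu hu, if_pos rfl, smul_eq_mul, mul_one]
  · intro y hy hne
    rw [map_smul, cf_T D (mem_WF.mp hy) hu, if_neg hne, smul_eq_mul, mul_zero]
  · intro h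
    exact absurd (mem_WF.mpr hu) h

lemma cf_mul_expand (b : A) {a : A} (ha : a ∈ D.sp) (u : E ≃ₗᵢ[ℝ] E) :
    cf D u (b * a) = ∑ y ∈ WF Q, cf D y a * cf D u (b * D.T y) := by
  conv_lhs => rw [sp_expand D ha]
  rw [Finset.mul_sum, map_sum]
  refine Finset.sum_congr rfl fun y _ => ?_
  rw [mul_smul_comm, map_smul, smul_eq_mul]

lemma g_mul {a : A} (ha : a ∈ D.sp) : D.g * a = (∑ y ∈ WF Q, cf D y a) • D.g := by
  conv_lhs => rw [sp_expand D ha]
  rw [Finset.mul_sum, Finset.sum_smul]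
  refine Finset.sum_congr rfl fun y hy => ?_
  rw [mul_smul_comm, (T_g D (mem_WF.mp hy)).2]

lemma cf_g_le {u : E ≃ₗᵢ[ℝ] E} (hu : u ∈ Q.W) : c.av (cf D u D.g) ≤ 1 := by
  by_cases h : ds Q.Psi Q.x u = Q.S
  · have h1 := cf_g_long D hu h
    have e : cf D u D.g = (cf D u D.g - 1) + 1 := by ring
    rw [e]
    exact (c.na _ _).trans (max_le h1.le (by rw [map_one]))
  · exact (cf_g_other D hu h).le

lemma cf_he_mul_le {r : ℝ} (hr : 0 ≤ r) {K : Finset E} (hK : K ⊆ Q.S) {a : A} (ha : a ∈ D.sp)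
    (h : ∀ y ∈ Q.W, c.av (cf D y a) ≤ r) {u : E ≃ₗᵢ[ℝ] E} (hu : u ∈ Q.W) :
    c.av (cf D u (D.e K * a)) ≤ r := by
  rw [cf_mul_expand D _ ha]
  refine av_sum_le hr _ _ fun y hy => ?_
  rw [map_mul]
  have h1 := h y (mem_WF.mp hy)
  have h2 := cf_he_le D hK hu (mem_WF.mp hy)
  calc c.av (cf D y a) * c.av (cf D u (D.e K * D.T y)) ≤ r * 1 :=
        mul_le_mul h1 h2 (c.av.nonneg _) hr
    _ = r := mul_one r

lemma cf_g_mul_le {r : ℝ} (hr : 0 ≤ r) {a : A} (ha : a ∈ D.sp)
    (h : ∀ y ∈ Q.W, c.av (cf D y a) ≤ r) {u : E ≃ₗᵢ[ℝ] E} (hu : u ∈ Q.W) :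
    c.av (cf D u (D.g * a)) ≤ r := by
  rw [g_mul D ha, map_smul, smul_eq_mul, map_mul]
  have h1 : c.av (∑ y ∈ WF Q, cf D y a) ≤ r := av_sum_le hr _ _ fun y hy => h y (mem_WF.mp hy)
  calc c.av (∑ y ∈ WF Q, cf D y a) * c.av (cf D u D.g) ≤ r * 1 :=
        mul_le_mul h1 (cf_g_le D hu) (c.av.nonneg _) hr
    _ = r := mul_one r

/-- the residue of the coefficient at `u` of `e_K a` -/
lemma rs_he {K : Finset E} (hK : K ⊆ Q.S) {a : A} (ha : a ∈ D.sp)
    (h : ∀ y ∈ Q.W, c.av (cf D y a) ≤ 1) {u : E ≃ₗᵢ[ℝ] E} (hu : u ∈ Q.W)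
    (hmin : ∀ y ∈ Q.W, Q.len y < Q.len u → c.av (cf D y a) < 1) :
    rs c (cf D u (D.e K * a)) = if Disjoint (ds Q.Psi Q.x u) K then rs c (cf D u a) else 0 := by
  have hle : ∀ y ∈ WF Q, c.av (cf D y a * cf D u (D.e K * D.T y)) ≤ 1 := by
    intro y hy
    rw [map_mul]
    exact mul_le_one₀ (h y (mem_WF.mp hy)) (c.av.nonneg _) (cf_he_le D hK hu (mem_WF.mp hy))
  rw [cf_mul_expand D _ ha, rs_sum _ _ hle, Finset.sum_eq_single u]
  · rw [rs_mul (h u hu) (cf_he_le D hK hu hu)]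
    split_ifs with hd
    · have h1 := cf_he_self D hK hu hd
      rw [rs_congr (y := (1 : Ω)) (by rw [map_one]) h1, rs_one, mul_one]
    · have h1 := cf_he_lt D hK hu hu hd
      rw [(rs_eq_zero h1.le).mpr h1, mul_zero]
  · intro y hy hne
    have hyW := mem_WF.mp hy
    rw [rs_eq_zero (hle y hy), map_mul]
    rcases le_or_gt (Q.len u) (Q.len y) with hl | hl
    · have h1 := cf_he_other D hK hu hyW (Ne.symm hne) hl
      have h2 := h y hyW
      calc c.av (cf D y a) * c.av (cf D u (D.e K * D.T y)) ≤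
            1 * c.av (cf D u (D.e K * D.T y)) := mul_le_mul_of_nonneg_right h2 (c.av.nonneg _)
        _ < 1 := by rw [one_mul]; exact h1
    · have h1 := hmin y hyW hl
      have h2 := cf_he_le D hK hu hyW
      calc c.av (cf D y a) * c.av (cf D u (D.e K * D.T y)) ≤ c.av (cf D y a) * 1 :=
            mul_le_mul_of_nonneg_left h2 (c.av.nonneg _)
        _ < 1 := by rw [mul_one]; exact h1
  · intro hn
    exact absurd (mem_WF.mpr hu) hn

/-- the longest element is the only longest element -/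
lemma len_lt {u y : E ≃ₗᵢ[ℝ] E} (hu : u ∈ Q.W) (hy : y ∈ Q.W) (h : ds Q.Psi Q.x u = Q.S)
    (hne : y ≠ u) : Q.len y < Q.len u := by
  have hall : ∀ z : E ≃ₗᵢ[ℝ] E, ds Q.Psi Q.x z = Q.S → iv Q.Psi Q.x z = ps Q.Psi Q.x := by
    intro z hz
    have hC : -(z Q.x) ∈ Q.C := by
      refine mem_C Q fun a ha => ?_
      rw [← hz] at ha
      have := (Finset.mem_filter.mp ha).2
      rw [inner_neg_right]
      linarith
    refine Finset.filter_true_of_mem fun a ha => ?_
    have := hC a ha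
    rw [inner_neg_right] at this
    linarith
  have hsub : iv Q.Psi Q.x y ⊆ iv Q.Psi Q.x u := by
    rw [hall u h]
    exact Finset.filter_subset _ _
  refine lt_of_le_of_ne (Finset.card_le_card hsub) fun hcard => ?_
  have heq : iv Q.Psi Q.x y = iv Q.Psi Q.x u := Finset.eq_of_subset_of_card_le hsub hcard.ge
  have hds : ds Q.Psi Q.x y = Q.S := by
    refine Finset.filter_true_of_mem fun a ha => ?_
    have ha1 : a ∈ ps Q.Psi Q.x := (Finset.mem_filter.mp ha).1
    rw [← hall u h, ← heq] at ha1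
    exact (Finset.mem_filter.mp ha1).2
  obtain ⟨w0, -, -, huniq⟩ := exists_longest Q
  exact hne ((huniq y hy hds).trans (huniq u hu h).symm)

lemma rs_g {a : A} (ha : a ∈ D.sp)
    (h : ∀ y ∈ Q.W, c.av (cf D y a) ≤ 1) {u : E ≃ₗᵢ[ℝ] E} (hu : u ∈ Q.W)
    (hmin : ∀ y ∈ Q.W, Q.len y < Q.len u → c.av (cf D y a) < 1) :
    rs c (cf D u (D.g * a)) = if ds Q.Psi Q.x u = Q.S then rs c (cf D u a) else 0 := by
  have hs : c.av (∑ y ∈ WF Q, cf D y a) ≤ 1 :=
    av_sum_le zero_le_one _ _ fun y hy => h y (mem_WF.mp hy)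
  rw [g_mul D ha, map_smul, smul_eq_mul, rs_mul hs (cf_g_le D hu)]
  split_ifs with hd
  · have h1 := cf_g_long D hu hd
    rw [rs_congr (y := (1 : Ω)) (by rw [map_one]) h1, rs_one, mul_one,
      rs_sum _ _ (fun y hy => h y (mem_WF.mp hy)), Finset.sum_eq_single u]
    · intro y hy hne
      have hyW := mem_WF.mp hy
      rw [rs_eq_zero (h y hyW)]
      exact hmin y hyW (len_lt hu hyW hd hne)
    · intro hn
      exact absurd (mem_WF.mpr hu) hn
  · have h1 := cf_g_other D hu hd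
    rw [(rs_eq_zero h1.le).mpr h1, mul_zero]

end Exp

/-! ### orbits -/

section Orb

variable {E : Type} [NormedAddCommGroup E] [InnerProductSpace ℝ E] [FiniteDimensional ℝ E]

variable {Ω : Type} [Field Ω] [CharZero Ω] {c : Parker.Ctx Ω} {Q : RG E} (w : WT c Q)

lemma mem_orb {q : Finset E} : q ∈ w.orb ↔ ∃ s ∈ Q.S, ({s, w.τ s} : Finset E) = q := by
  rw [WT.orb, Finset.mem_image]

lemma mem_JJ {J : Finset E} : J ∈ w.JJ ↔ J ⊆ Q.S ∧ ∀ s ∈ J, w.τ s ∈ J := by
  rw [WT.JJ, Finset.mem_filter, Finset.mem_powerset]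
  constructor
  · rintro ⟨h1, h2⟩
    refine ⟨h1, fun s hs => ?_⟩
    have : w.τ s ∈ J.image w.τ := Finset.mem_image_of_mem _ hs
    rwa [h2] at this
  · rintro ⟨h1, h2⟩
    refine ⟨h1, ?_⟩
    ext s
    rw [Finset.mem_image]
    constructor
    · rintro ⟨t, ht, rfl⟩
      exact h2 t ht
    · intro hs
      exact ⟨w.τ s, h2 s hs, w.inv s (h1 hs)⟩

lemma empty_JJ : (∅ : Finset E) ∈ w.JJ := by
  rw [mem_JJ]
  exact ⟨Finset.empty_subset _, fun s hs => absurd hs (Finset.notMem_empty s)⟩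

lemma orb_sub {q : Finset E} (hq : q ∈ w.orb) : q ⊆ Q.S := by
  obtain ⟨s, hs, rfl⟩ := (mem_orb w).mp hq
  intro t ht
  rw [Finset.mem_insert, Finset.mem_singleton] at ht
  rcases ht with rfl | rfl
  · exact hs
  · exact w.maps s hs

lemma orb_stable {q : Finset E} (hq : q ∈ w.orb) {t : E} (ht : t ∈ q) : w.τ t ∈ q := by
  obtain ⟨s, hs, rfl⟩ := (mem_orb w).mp hq
  rw [Finset.mem_insert, Finset.mem_singleton] at ht
  rcases ht with rfl | rfl
  · simp
  · rw [w.inv s hs]; simp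

lemma orb_ne {q : Finset E} (hq : q ∈ w.orb) : q.Nonempty := by
  obtain ⟨s, hs, rfl⟩ := (mem_orb w).mp hq
  exact ⟨s, by simp⟩

/-- an orbit is contained in a stable set or disjoint from it -/
lemma orb_dich {q J : Finset E} (hq : q ∈ w.orb) (hJ : J ∈ w.JJ) : q ⊆ J ∨ Disjoint q J := by
  obtain ⟨hJ1, hJ2⟩ := (mem_JJ w).mp hJ
  obtain ⟨s, hs, rfl⟩ := (mem_orb w).mp hq
  by_cases h : s ∈ J
  · left
    intro t ht
    rw [Finset.mem_insert, Finset.mem_singleton] at ht
    rcases ht with rfl | rfl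
    · exact h
    · exact hJ2 s h
  · right
    rw [Finset.disjoint_left]
    intro t ht htJ
    rw [Finset.mem_insert, Finset.mem_singleton] at ht
    rcases ht with rfl | rfl
    · exact h htJ
    · have := hJ2 _ htJ
      rw [w.inv s hs] at this
      exact h this

lemma orb_JJ {q : Finset E} (hq : q ∈ w.orb) : q ∈ w.JJ :=
  (mem_JJ w).mpr ⟨orb_sub w hq, fun _ ht => orb_stable w hq ht⟩

lemma union_JJ {q J : Finset E} (hq : q ∈ w.orb) (hJ : J ∈ w.JJ) : J ∪ q ∈ w.JJ := by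
  obtain ⟨hJ1, hJ2⟩ := (mem_JJ w).mp hJ
  refine (mem_JJ w).mpr ⟨Finset.union_subset hJ1 (orb_sub w hq), fun s hs => ?_⟩
  rw [Finset.mem_union] at hs ⊢
  rcases hs with hs | hs
  · exact Or.inl (hJ2 s hs)
  · exact Or.inr (orb_stable w hq hs)

lemma sdiff_JJ {q J : Finset E} (hq : q ∈ w.orb) (hJ : J ∈ w.JJ) : J \ q ∈ w.JJ := by
  obtain ⟨hJ1, hJ2⟩ := (mem_JJ w).mp hJ
  refine (mem_JJ w).mpr ⟨Finset.sdiff_subset.trans hJ1, fun s hs => ?_⟩
  rw [Finset.mem_sdiff] at hs ⊢
  refine ⟨hJ2 s hs.1, fun h => hs.2 ?_⟩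
  have := orb_stable w hq h
  rwa [w.inv s (hJ1 hs.1)] at this

lemma av_a {q : Finset E} (hq : q ∈ w.orb) : c.av (w.a q) = 1 := by
  have := w.cond1 {q} (by
    intro x hx
    rw [Finset.mem_singleton] at hx
    rw [hx]; exact hq) (Finset.singleton_nonempty q)
  rwa [Finset.sum_singleton] at this

lemma av_b {s : E} (hs : s ∈ Q.S) : c.av (w.b s) ≤ 1 := by
  by_cases h : w.τ s = s
  · have h1 := w.bt s hs
    rw [h] at h1
    have h2 : (2 : Ω) * w.b s = 0 := by linear_combination h1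
    have h3 : w.b s = 0 := by
      rcases mul_eq_zero.mp h2 with h3 | h3
      · exact absurd h3 two_ne_zero
      · exact h3
    rw [h3, map_zero]; exact zero_le_one
  · have := w.cond2 {s} (by
      intro x hx
      rw [Finset.mem_singleton] at hx
      rw [hx]; exact hs) (Finset.singleton_nonempty s) (by
      intro x hx
      rw [Finset.mem_singleton] at hx ⊢
      rw [hx]; exact h)
    rw [Finset.sum_singleton] at this
    exact this.le

end Orb

/-! ### the operator -/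

section Oper

variable {E : Type} [NormedAddCommGroup E] [InnerProductSpace ℝ E] [FiniteDimensional ℝ E]

variable {Ω : Type} [Field Ω] [CharZero Ω] {c : Parker.Ctx Ω} {Q : RG E} {A : Type} [Ring A]
  [Algebra Ω A] (D : HD c Q A) (w : WT c Q)

lemma Sv_eq (v : Finset E → A) {J : Finset E} (hJ : J ∈ w.JJ) :
    ∑ J' ∈ w.JJ, w.ent D J J' * v J' =
      (∑ q ∈ w.orb, if Disjoint q J then w.a q • (D.e (J ∪ q) * v (J ∪ q)) else 0) -
      (∑ q ∈ w.orb, if q ⊆ J then w.a q • (D.e J * v (J \ q)) else 0) +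
      (v J - D.e J * v J) +
      (if J = ∅ then (∑ s ∈ Q.S, w.b s • (D.e {s} * v ∅)) + D.g * v ∅ else 0) := by
  have e0 : ∀ J' ∈ w.JJ, w.ent D J J' * v J' =
      (∑ q ∈ w.orb, if Disjoint q J ∧ J' = J ∪ q then w.a q • (D.e J' * v J') else 0) -
      (∑ q ∈ w.orb, if q ⊆ J ∧ J' = J \ q then w.a q • (D.e J * v J') else 0) +
      (if J = J' then (v J' - D.e J * v J') +
        (if J = ∅ then (∑ s ∈ Q.S, w.b s • (D.e {s} * v J')) + D.g * v J' else 0) else 0) := by
    intro J' _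
    unfold WT.ent
    rw [add_mul, sub_mul, Finset.sum_mul, Finset.sum_mul]
    congr 1
    · congr 1
      · refine Finset.sum_congr rfl fun q _ => ?_
        split_ifs
        · rw [smul_mul_assoc]
        · rw [zero_mul]
      · refine Finset.sum_congr rfl fun q _ => ?_
        split_ifs
        · rw [smul_mul_assoc]
        · rw [zero_mul]
    · split_ifs
      · rw [add_mul, sub_mul, one_mul, add_mul, Finset.sum_mul]
        congr 2
        refine Finset.sum_congr rfl fun s _ => ?_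
        rw [smul_mul_assoc]
      · rw [add_zero, add_zero, sub_mul, one_mul]
      · rw [zero_mul]
  rw [Finset.sum_congr rfl e0, Finset.sum_add_distrib, Finset.sum_sub_distrib, Finset.sum_comm,
    Finset.sum_comm (s := w.JJ) (t := w.orb)]
  rw [add_assoc (_ - _)]
  congr 1
  · congr 1
    · refine Finset.sum_congr rfl fun q hq => ?_
      by_cases hd : Disjoint q J
      · rw [if_pos hd, Finset.sum_eq_single (J ∪ q)]
        · rw [if_pos ⟨hd, rfl⟩]
        · intro J' _ hne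
          rw [if_neg fun h => hne h.2]
        · intro hn
          exact absurd (union_JJ w hq hJ) hn
      · rw [if_neg hd]
        refine Finset.sum_eq_zero fun J' _ => ?_
        rw [if_neg fun h => hd h.1]
    · refine Finset.sum_congr rfl fun q hq => ?_
      by_cases hd : q ⊆ J
      · rw [if_pos hd, Finset.sum_eq_single (J \ q)]
        · rw [if_pos ⟨hd, rfl⟩]
        · intro J' _ hne
          rw [if_neg fun h => hne h.2]
        · intro hn
          exact absurd (sdiff_JJ w hq hJ) hn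
      · rw [if_neg hd]
        refine Finset.sum_eq_zero fun J' _ => ?_
        rw [if_neg fun h => hd h.1]
  · rw [Finset.sum_eq_single J]
    · rw [if_pos rfl]
      by_cases h : J = ∅
      · rw [if_pos h, if_pos h, h]
      · rw [if_neg h, if_neg h]
    · intro J' _ hne
      rw [if_neg (Ne.symm hne)]
    · intro hn
      exact absurd hJ hn

lemma cf_Sv (v : Finset E → A) {J : Finset E} (hJ : J ∈ w.JJ) (u : E ≃ₗᵢ[ℝ] E) :
    cf D u (∑ J' ∈ w.JJ, w.ent D J J' * v J') =
      (∑ q ∈ w.orb, if Disjoint q J then w.a q * cf D u (D.e (J ∪ q) * v (J ∪ q)) else 0) -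
      (∑ q ∈ w.orb, if q ⊆ J then w.a q * cf D u (D.e J * v (J \ q)) else 0) +
      (cf D u (v J) - cf D u (D.e J * v J)) +
      (if J = ∅ then (∑ s ∈ Q.S, w.b s * cf D u (D.e {s} * v ∅)) + cf D u (D.g * v ∅) else 0) := by
  rw [Sv_eq D w v hJ, map_add, map_add, map_sub, map_sub, map_sum, map_sum]
  congr 1
  · congr 1
    congr 1
    · refine Finset.sum_congr rfl fun q _ => ?_
      split_ifs
      · rw [map_smul, smul_eq_mul]
      · rw [map_zero]
    · refine Finset.sum_congr rfl fun q _ => ?_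
      split_ifs
      · rw [map_smul, smul_eq_mul]
      · rw [map_zero]
  · split_ifs
    · rw [map_add, map_sum]
      congr 1
      refine Finset.sum_congr rfl fun s _ => ?_
      rw [map_smul, smul_eq_mul]
    · rw [map_zero]

lemma singleton_sub {s : E} (hs : s ∈ Q.S) : ({s} : Finset E) ⊆ Q.S := by
  intro x hx
  rw [Finset.mem_singleton] at hx
  rw [hx]; exact hs

/-- bounds for the terms of `cf_Sv` -/
lemma terms_le (v : Finset E → A) (hv : ∀ J ∈ w.JJ, v J ∈ D.sp) {r : ℝ} (hr : 0 ≤ r)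
    (h1 : ∀ J ∈ w.JJ, ∀ u ∈ Q.W, c.av (cf D u (v J)) ≤ r) {J : Finset E} (hJ : J ∈ w.JJ)
    {u : E ≃ₗᵢ[ℝ] E} (hu : u ∈ Q.W) :
    (∀ q ∈ w.orb, c.av (if Disjoint q J then w.a q * cf D u (D.e (J ∪ q) * v (J ∪ q)) else 0) ≤ r) ∧
    (∀ q ∈ w.orb, c.av (if q ⊆ J then w.a q * cf D u (D.e J * v (J \ q)) else 0) ≤ r) ∧
    c.av (cf D u (D.e J * v J)) ≤ r ∧
    (∀ s ∈ Q.S, c.av (w.b s * cf D u (D.e {s} * v ∅)) ≤ r) ∧
    c.av (cf D u (D.g * v ∅)) ≤ r := by
  have hJS := ((mem_JJ w).mp hJ).1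
  have he := empty_JJ w
  refine ⟨fun q hq => ?_, fun q hq => ?_, ?_, fun s hs => ?_, ?_⟩
  · split_ifs
    · have hJq := union_JJ w hq hJ
      rw [map_mul, av_a w hq, one_mul]
      exact cf_he_mul_le D hr ((mem_JJ w).mp hJq).1 (hv _ hJq) (h1 _ hJq) hu
    · rw [map_zero]; exact hr
  · split_ifs
    · have hJq := sdiff_JJ w hq hJ
      rw [map_mul, av_a w hq, one_mul]
      exact cf_he_mul_le D hr hJS (hv _ hJq) (h1 _ hJq) hu
    · rw [map_zero]; exact hr
  · exact cf_he_mul_le D hr hJS (hv _ hJ) (h1 _ hJ) hu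
  · rw [map_mul]
    have h3 := cf_he_mul_le D hr (singleton_sub hs) (hv _ he) (h1 _ he) hu
    calc c.av (w.b s) * c.av (cf D u (D.e {s} * v ∅)) ≤ 1 * r :=
          mul_le_mul (av_b w hs) h3 (c.av.nonneg _) zero_le_one
      _ = r := one_mul r
  · exact cf_g_mul_le D hr (hv _ he) (h1 _ he) hu

lemma av_sub_le {r : ℝ} {x y : Ω} (hx : c.av x ≤ r) (hy : c.av y ≤ r) : c.av (x - y) ≤ r := by
  rw [sub_eq_add_neg]
  exact (c.na _ _).trans (max_le hx (by simpa using hy))

lemma Sv_le (v : Finset E → A) (hv : ∀ J ∈ w.JJ, v J ∈ D.sp) {r : ℝ}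
    (h1 : ∀ J ∈ w.JJ, ∀ u ∈ Q.W, c.av (cf D u (v J)) ≤ r) :
    ∀ J ∈ w.JJ, ∀ u ∈ Q.W, c.av (cf D u (∑ J' ∈ w.JJ, w.ent D J J' * v J')) ≤ r := by
  intro J hJ u hu
  have hr : 0 ≤ r := (c.av.nonneg _).trans (h1 J hJ u hu)
  obtain ⟨t1, t2, t3, t4, t5⟩ := terms_le D w v hv hr h1 hJ hu
  rw [cf_Sv D w v hJ]
  refine (c.na _ _).trans (max_le ((c.na _ _).trans (max_le ?_ ?_)) ?_)
  · exact av_sub_le (av_sum_le hr _ _ t1) (av_sum_le hr _ _ t2)
  · exact av_sub_le (h1 J hJ u hu) t3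
  · split_ifs
    · exact (c.na _ _).trans (max_le (av_sum_le hr _ _ t4) t5)
    · rw [map_zero]; exact hr

/-- the residues of the coefficients of the image -/
lemma rs_Sv (v : Finset E → A) (hv : ∀ J ∈ w.JJ, v J ∈ D.sp)
    (h1 : ∀ J ∈ w.JJ, ∀ u ∈ Q.W, c.av (cf D u (v J)) ≤ 1) {J : Finset E} (hJ : J ∈ w.JJ)
    {u : E ≃ₗᵢ[ℝ] E} (hu : u ∈ Q.W)
    (hmin : ∀ J ∈ w.JJ, ∀ y ∈ Q.W, Q.len y < Q.len u → c.av (cf D y (v J)) < 1) :
    rs c (cf D u (∑ J' ∈ w.JJ, w.ent D J J' * v J')) =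
      (∑ q ∈ w.orb, if Disjoint q J then rs c (w.a q) *
        (if Disjoint (ds Q.Psi Q.x u) (J ∪ q) then rs c (cf D u (v (J ∪ q))) else 0) else 0) -
      (∑ q ∈ w.orb, if q ⊆ J then rs c (w.a q) *
        (if Disjoint (ds Q.Psi Q.x u) J then rs c (cf D u (v (J \ q))) else 0) else 0) +
      (rs c (cf D u (v J)) -
        (if Disjoint (ds Q.Psi Q.x u) J then rs c (cf D u (v J)) else 0)) +
      (if J = ∅ then (∑ s ∈ Q.S, rs c (w.b s) *
          (if Disjoint (ds Q.Psi Q.x u) {s} then rs c (cf D u (v ∅)) else 0)) +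
        (if ds Q.Psi Q.x u = Q.S then rs c (cf D u (v ∅)) else 0) else 0) := by
  obtain ⟨t1, t2, t3, t4, t5⟩ := terms_le D w v hv zero_le_one h1 hJ hu
  have hJS := ((mem_JJ w).mp hJ).1
  have he := empty_JJ w
  have s1 := av_sum_le zero_le_one _ _ t1
  have s2 := av_sum_le zero_le_one _ _ t2
  have s4 := av_sum_le zero_le_one _ _ t4
  have s5 : c.av (if J = ∅ then (∑ s ∈ Q.S, w.b s * cf D u (D.e {s} * v ∅)) +
      cf D u (D.g * v ∅) else 0) ≤ 1 := by
    split_ifs
    · exact (c.na _ _).trans (max_le s4 t5)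
    · rw [map_zero]; exact zero_le_one
  rw [cf_Sv D w v hJ, rs_add ((c.na _ _).trans (max_le (av_sub_le s1 s2)
    (av_sub_le (h1 J hJ u hu) t3))) s5, rs_add (av_sub_le s1 s2) (av_sub_le (h1 J hJ u hu) t3),
    rs_sub s1 s2, rs_sub (h1 J hJ u hu) t3, rs_sum _ _ t1, rs_sum _ _ t2,
    rs_he D hJS (hv J hJ) (h1 J hJ) hu (hmin J hJ)]
  congr 1
  · congr 1
    congr 1
    · refine Finset.sum_congr rfl fun q hq => ?_
      have hJq := union_JJ w hq hJ
      have hJqS := ((mem_JJ w).mp hJq).1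
      by_cases hd : Disjoint q J
      · rw [if_pos hd, if_pos hd, rs_mul (av_a w hq).le
          (cf_he_mul_le D zero_le_one hJqS (hv _ hJq) (h1 _ hJq) hu),
          rs_he D hJqS (hv _ hJq) (h1 _ hJq) hu (hmin _ hJq)]
      · rw [if_neg hd, if_neg hd, rs_zero]
    · refine Finset.sum_congr rfl fun q hq => ?_
      have hJq := sdiff_JJ w hq hJ
      by_cases hd : q ⊆ J
      · rw [if_pos hd, if_pos hd, rs_mul (av_a w hq).le
          (cf_he_mul_le D zero_le_one hJS (hv _ hJq) (h1 _ hJq) hu),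
          rs_he D hJS (hv _ hJq) (h1 _ hJq) hu (hmin _ hJq)]
      · rw [if_neg hd, if_neg hd, rs_zero]
  · by_cases hE : J = ∅
    · rw [if_pos hE, if_pos hE, rs_add s4 t5, rs_sum _ _ t4,
        rs_g D (hv _ he) (h1 _ he) hu (hmin _ he)]
      congr 1
      refine Finset.sum_congr rfl fun s hs => ?_
      rw [rs_mul (av_b w hs) (cf_he_mul_le D zero_le_one (singleton_sub hs) (hv _ he) (h1 _ he) hu),
        rs_he D (singleton_sub hs) (hv _ he) (h1 _ he) hu (hmin _ he)]
    · rw [if_neg hE, if_neg hE, rs_zero]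

/-- the block matrix is injective -/
lemma block (h2 : c.av 2 < 1) (u : E ≃ₗᵢ[ℝ] E) (hds : ds Q.Psi Q.x u ⊆ Q.S)
    (x : Finset E → Parker.rf c)
    (hx : ∀ J ∈ w.JJ,
      (∑ q ∈ w.orb, if Disjoint q J then rs c (w.a q) *
        (if Disjoint (ds Q.Psi Q.x u) (J ∪ q) then x (J ∪ q) else 0) else 0) -
      (∑ q ∈ w.orb, if q ⊆ J then rs c (w.a q) *
        (if Disjoint (ds Q.Psi Q.x u) J then x (J \ q) else 0) else 0) +
      (x J - (if Disjoint (ds Q.Psi Q.x u) J then x J else 0)) +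
      (if J = ∅ then (∑ s ∈ Q.S, rs c (w.b s) *
          (if Disjoint (ds Q.Psi Q.x u) {s} then x ∅ else 0)) +
        (if ds Q.Psi Q.x u = Q.S then x ∅ else 0) else 0) = 0) :
    ∀ J ∈ w.JJ, x J = 0 := by
  have h2' := Parker.rf_two h2
  set Dd := ds Q.Psi Q.x u with hDd
  -- sets meeting the descents
  have hcase1 : ∀ J ∈ w.JJ, ¬ Disjoint Dd J → x J = 0 := by
    intro J hJ hd
    have h3 := hx J hJ
    have hne : J ≠ ∅ := by
      rintro rfl
      exact hd (Finset.disjoint_empty_right _)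
    have e1 : (∑ q ∈ w.orb, if Disjoint q J then rs c (w.a q) *
        (if Disjoint Dd (J ∪ q) then x (J ∪ q) else 0) else 0) = 0 := by
      refine Finset.sum_eq_zero fun q _ => ?_
      rw [if_neg (show ¬ Disjoint Dd (J ∪ q) from fun h =>
        hd (h.mono_right Finset.subset_union_left)), mul_zero, ite_self]
    have e2 : (∑ q ∈ w.orb, if q ⊆ J then rs c (w.a q) *
        (if Disjoint Dd J then x (J \ q) else 0) else 0) = 0 := by
      refine Finset.sum_eq_zero fun q _ => ?_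
      rw [if_neg hd, mul_zero, ite_self]
    rw [e1, e2, if_neg hd, if_neg hne, sub_zero, sub_zero, zero_add, add_zero] at h3
    exact h3
  -- the other sets
  let O := w.orb.filter fun q => Disjoint Dd q
  let Js := w.JJ.filter fun J => Disjoint Dd J
  let fl : Finset E → Finset E → Finset E := fun q J => if q ⊆ J then J \ q else J ∪ q
  let β : Parker.rf c := (∑ s ∈ Q.S, rs c (w.b s) * (if Disjoint Dd {s} then 1 else 0)) +
    (if Dd = Q.S then 1 else 0)
  have hO : ∀ q, q ∈ O ↔ q ∈ w.orb ∧ Disjoint Dd q := fun q => Finset.mem_filter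
  have hJs : ∀ J, J ∈ Js ↔ J ∈ w.JJ ∧ Disjoint Dd J := fun J => Finset.mem_filter
  have hsub_not : ∀ q ∈ w.orb, ∀ J : Finset E, q ⊆ J → ¬ Disjoint q J := by
    intro q hq J h hd
    obtain ⟨t, ht⟩ := orb_ne w hq
    exact Finset.disjoint_left.mp hd ht (h ht)
  have heq : ∀ J ∈ Js, (∑ q ∈ O, rs c (w.a q) * x (fl q J)) +
      (if J = ∅ then β * x ∅ else 0) = 0 := by
    intro J hJ
    obtain ⟨hJ1, hJd⟩ := (hJs J).mp hJ
    have h3 := hx J hJ1
    rw [if_pos hJd, sub_self, add_zero] at h3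
    have e1 : (∑ q ∈ w.orb, if Disjoint q J then rs c (w.a q) *
        (if Disjoint Dd (J ∪ q) then x (J ∪ q) else 0) else 0) -
        (∑ q ∈ w.orb, if q ⊆ J then rs c (w.a q) *
        (if Disjoint Dd J then x (J \ q) else 0) else 0) = ∑ q ∈ O, rs c (w.a q) * x (fl q J) := by
      rw [← Finset.sum_sub_distrib, Finset.sum_filter]
      refine Finset.sum_congr rfl fun q hq => ?_
      rw [if_pos hJd]
      rcases orb_dich w hq hJ1 with h4 | h4
      · have h5 : ¬ Disjoint q J := hsub_not q hq J h4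
        have h6 : Disjoint Dd q := hJd.mono_right h4
        rw [if_neg h5, if_pos h4, if_pos h6, zero_sub, neg_eq h2']
        show _ = rs c (w.a q) * x (if q ⊆ J then J \ q else J ∪ q)
        rw [if_pos h4]
      · have h5 : ¬ q ⊆ J := fun h => hsub_not q hq J h h4
        rw [if_pos h4, if_neg h5, sub_zero]
        by_cases h6 : Disjoint Dd q
        · rw [if_pos h6, if_pos (Finset.disjoint_union_right.mpr ⟨hJd, h6⟩)]
          show _ = rs c (w.a q) * x (if q ⊆ J then J \ q else J ∪ q)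
          rw [if_neg h5]
        · rw [if_neg h6, if_neg fun h => h6 (Finset.disjoint_union_right.mp h).2, mul_zero]
    rw [e1] at h3
    by_cases hE : J = ∅
    · rw [if_pos hE] at h3 ⊢
      have e2 : β * x ∅ = (∑ s ∈ Q.S, rs c (w.b s) * (if Disjoint Dd {s} then x ∅ else 0)) +
          (if Dd = Q.S then x ∅ else 0) := by
        show ((∑ s ∈ Q.S, rs c (w.b s) * (if Disjoint Dd {s} then 1 else 0)) +
          (if Dd = Q.S then 1 else 0)) * x ∅ = _
        rw [add_mul, Finset.sum_mul]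
        congr 1
        · refine Finset.sum_congr rfl fun s _ => ?_
          split_ifs <;> ring
        · split_ifs <;> ring
      rw [e2]
      exact h3
    · rw [if_neg hE] at h3 ⊢
      exact h3
  have hoJ : (∅ : Finset E) ∈ Js := (hJs ∅).mpr ⟨empty_JJ w, Finset.disjoint_empty_right _⟩
  have hmain : ∀ J ∈ Js, x J = 0 := by
    by_cases hOne : O.Nonempty
    · have hsum : ∑ q ∈ O, rs c (w.a q) ≠ 0 := by
        have h3 := w.cond1 O (Finset.filter_subset _ _) hOne
        have h4 : rs c (∑ q ∈ O, w.a q) ≠ 0 := (rs_ne_zero h3.le).mpr h3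
        rwa [rs_sum _ _ (fun q hq => (av_a w ((hO q).mp hq).1).le)] at h4
      refine flip_inj h2' Js O (fun q => rs c (w.a q)) fl ?_ ?_ ?_ hsum ∅ hoJ ?_ β x (fun J hJ => by
        have h3 := heq J hJ
        by_cases hE : J = ∅
        · rw [if_pos hE] at h3 ⊢
          exact h3
        · rw [if_neg hE] at h3 ⊢
          exact h3)
      · intro q hq J hJ
        obtain ⟨hJ1, hJd⟩ := (hJs J).mp hJ
        obtain ⟨hq1, hqd⟩ := (hO q).mp hq
        rw [hJs]
        show (if q ⊆ J then J \ q else J ∪ q) ∈ w.JJ ∧ Disjoint Dd (if q ⊆ J then J \ q else J ∪ q)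
        split_ifs
        · exact ⟨sdiff_JJ w hq1 hJ1, hJd.mono_right Finset.sdiff_subset⟩
        · exact ⟨union_JJ w hq1 hJ1, Finset.disjoint_union_right.mpr ⟨hJd, hqd⟩⟩
      · intro q hq J hJ
        obtain ⟨hJ1, hJd⟩ := (hJs J).mp hJ
        obtain ⟨hq1, hqd⟩ := (hO q).mp hq
        show (if q ⊆ (if q ⊆ J then J \ q else J ∪ q) then (if q ⊆ J then J \ q else J ∪ q) \ q
          else (if q ⊆ J then J \ q else J ∪ q) ∪ q) = J
        rcases orb_dich w hq1 hJ1 with h4 | h4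
        · rw [if_pos h4, if_neg, Finset.sdiff_union_of_subset h4]
          intro h5
          exact hsub_not q hq1 _ h5 Finset.disjoint_sdiff
        · have h5 : ¬ q ⊆ J := fun h => hsub_not q hq1 J h h4
          rw [if_neg h5, if_pos Finset.subset_union_right, Finset.union_sdiff_right,
            Finset.sdiff_eq_self_of_disjoint h4.symm]
      · intro q hq q' hq' J hJ
        obtain ⟨hJ1, hJd⟩ := (hJs J).mp hJ
        obtain ⟨hq1, hqd⟩ := (hO q).mp hq
        obtain ⟨hq1', hqd'⟩ := (hO q').mp hq'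
        by_cases hqq : q = q'
        · rw [hqq]
        have hdis : Disjoint q q' := by
          rcases orb_dich w hq1 (orb_JJ w hq1') with h4 | h4
          · exfalso
            apply hqq
            rcases orb_dich w hq1' (orb_JJ w hq1) with h5 | h5
            · exact Finset.Subset.antisymm h4 h5
            · exact absurd h5.symm (hsub_not q hq1 q' h4)
          · exact h4
        have key : ∀ q ∈ w.orb, ∀ K ∈ w.JJ, (if q ⊆ K then K \ q else K ∪ q) = symmDiff K q := by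
          intro q hq K hK
          rcases orb_dich w hq hK with h4 | h4
          · rw [if_pos h4, symmDiff_comm, symmDiff_of_le h4]
          · rw [if_neg (fun h => hsub_not q hq K h h4), Disjoint.symmDiff_eq_sup h4.symm]
            rfl
        have hJJfl : ∀ q ∈ w.orb, ∀ K ∈ w.JJ, (if q ⊆ K then K \ q else K ∪ q) ∈ w.JJ := by
          intro q hq K hK
          split_ifs
          · exact sdiff_JJ w hq hK
          · exact union_JJ w hq hK
        show (if q ⊆ (if q' ⊆ J then J \ q' else J ∪ q') then (if q' ⊆ J then J \ q' else J ∪ q') \ q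
            else (if q' ⊆ J then J \ q' else J ∪ q') ∪ q) =
          (if q' ⊆ (if q ⊆ J then J \ q else J ∪ q) then (if q ⊆ J then J \ q else J ∪ q) \ q'
            else (if q ⊆ J then J \ q else J ∪ q) ∪ q')
        rw [key q hq1 _ (hJJfl q' hq1' J hJ1), key q' hq1' _ (hJJfl q hq1 J hJ1),
          key q hq1 J hJ1, key q' hq1' J hJ1, symmDiff_assoc, symmDiff_assoc, symmDiff_comm q' q]
      · intro q hq
        obtain ⟨hq1, hqd⟩ := (hO q).mp hq
        show (if q ⊆ (∅ : Finset E) then ∅ \ q else ∅ ∪ q) ≠ ∅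
        have hqn := orb_ne w hq1
        rw [if_neg (fun h => hqn.ne_empty (Finset.subset_empty.mp h)), Finset.empty_union]
        exact hqn.ne_empty
    · rw [Finset.not_nonempty_iff_eq_empty] at hOne
      have hall : ∀ J ∈ Js, J = ∅ := by
        intro J hJ
        obtain ⟨hJ1, hJd⟩ := (hJs J).mp hJ
        by_contra hne
        obtain ⟨s, hs⟩ := Finset.nonempty_iff_ne_empty.mpr hne
        obtain ⟨g1, g2⟩ := (mem_JJ w).mp hJ1
        have hq : ({s, w.τ s} : Finset E) ∈ O := by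
          rw [hO]
          refine ⟨(mem_orb w).mpr ⟨s, g1 hs, rfl⟩, hJd.mono_right ?_⟩
          intro t ht
          rw [Finset.mem_insert, Finset.mem_singleton] at ht
          rcases ht with rfl | rfl
          · exact hs
          · exact g2 s hs
        rw [hOne] at hq
        exact absurd hq (Finset.notMem_empty _)
      have hβ : β ≠ 0 := by
        show (∑ s ∈ Q.S, rs c (w.b s) * (if Disjoint Dd {s} then 1 else 0)) +
          (if Dd = Q.S then 1 else 0) ≠ 0
        by_cases hS : Dd = Q.S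
        · rw [if_pos hS, Finset.sum_eq_zero, zero_add]
          · exact one_ne_zero
          · intro s hs
            rw [if_neg, mul_zero]
            intro h
            rw [Finset.disjoint_singleton_right] at h
            apply h
            rw [hS]; exact hs
        · rw [if_neg hS, add_zero]
          have hP : (Q.S.filter fun s => s ∉ Dd).Nonempty := by
            by_contra hcon
            rw [Finset.not_nonempty_iff_eq_empty, Finset.filter_eq_empty_iff] at hcon
            apply hS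
            refine Finset.Subset.antisymm hds fun s hs => ?_
            have := hcon hs
            push Not at this
            exact this
          have hc2 := w.cond2 (Q.S.filter fun s => s ∉ Dd) (Finset.filter_subset _ _) hP (by
            intro s hs hτ
            rw [Finset.mem_filter] at hs hτ
            have hq : ({s, w.τ s} : Finset E) ∈ O := by
              rw [hO]
              refine ⟨(mem_orb w).mpr ⟨s, hs.1, rfl⟩, ?_⟩
              rw [Finset.disjoint_right]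
              intro t ht
              rw [Finset.mem_insert, Finset.mem_singleton] at ht
              rcases ht with rfl | rfl
              · exact hs.2
              · exact hτ.2
            rw [hOne] at hq
            exact absurd hq (Finset.notMem_empty _))
          have h4 : rs c (∑ s ∈ Q.S.filter fun s => s ∉ Dd, w.b s) ≠ 0 :=
            (rs_ne_zero hc2.le).mpr hc2
          rw [rs_sum _ _ (fun s hs => av_b w (Finset.mem_filter.mp hs).1)] at h4
          have e3 : (∑ s ∈ Q.S, rs c (w.b s) * (if Disjoint Dd {s} then 1 else 0)) =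
              ∑ s ∈ Q.S.filter fun s => s ∉ Dd, rs c (w.b s) := by
            rw [Finset.sum_filter]
            refine Finset.sum_congr rfl fun s _ => ?_
            by_cases hsD : s ∈ Dd
            · rw [if_neg (fun h => Finset.disjoint_singleton_right.mp h hsD), if_neg (not_not.mpr hsD),
                mul_zero]
            · rw [if_pos (Finset.disjoint_singleton_right.mpr hsD), if_pos hsD, mul_one]
          rw [e3]
          exact h4
      intro J hJ
      rw [hall J hJ]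
      have h3 := heq ∅ hoJ
      rw [hOne, Finset.sum_empty, zero_add, if_pos rfl] at h3
      rcases mul_eq_zero.mp h3 with h4 | h4
      · exact absurd h4 hβ
      · exact h4
  intro J hJ
  by_cases hd : Disjoint Dd J
  · exact hmain J ((hJs J).mpr ⟨hJ, hd⟩)
  · exact hcase1 J hJ hd

end Oper

end H04_aux

open H04_aux

variable {E : Type} [NormedAddCommGroup E] [InnerProductSpace ℝ E] [FiniteDimensional ℝ E]

variable {Ω : Type} [Field Ω] [CharZero Ω] {c : Parker.Ctx Ω} {Q : RG E} {A : Type} [Ring A]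
  [Algebra Ω A] (D : HD c Q A) (w : WT c Q)

theorem isom_aux (h2 : c.av 2 < 1) (v : Finset E → A) (hv : ∀ J ∈ w.JJ, v J ∈ D.sp)
    (h1 : ∀ J ∈ w.JJ, ∀ u ∈ Q.W, c.av (cf D u (v J)) ≤ 1)
    (h0 : ∃ J ∈ w.JJ, ∃ u ∈ Q.W, c.av (cf D u (v J)) = 1) :
    ∃ J ∈ w.JJ, ∃ u ∈ Q.W, c.av (cf D u (∑ J' ∈ w.JJ, w.ent D J J' * v J')) = 1 := by
  have hex : ∃ n : ℕ, ∃ J ∈ w.JJ, ∃ u ∈ Q.W, Q.len u = n ∧ c.av (cf D u (v J)) = 1 := by
    obtain ⟨J, hJ, u, hu, h⟩ := h0
    exact ⟨Q.len u, J, hJ, u, hu, rfl, h⟩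
  obtain ⟨J0, hJ0, u, hu, hlen, hone⟩ := Nat.find_spec hex
  have hmin : ∀ J ∈ w.JJ, ∀ y ∈ Q.W, Q.len y < Q.len u → c.av (cf D y (v J)) < 1 := by
    intro J hJ y hy hl
    refine lt_of_le_of_ne (h1 J hJ y hy) fun h => ?_
    rw [hlen] at hl
    exact Nat.find_min hex hl ⟨J, hJ, y, hy, rfl, h⟩
  by_contra hcon
  push Not at hcon
  have hz : ∀ J ∈ w.JJ, rs c (cf D u (∑ J' ∈ w.JJ, w.ent D J J' * v J')) = 0 := by
    intro J hJ
    have h3 := Sv_le D w v hv h1 J hJ u hu
    exact (rs_eq_zero h3).mpr (lt_of_le_of_ne h3 (hcon J hJ u hu))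
  have hds : ds Q.Psi Q.x u ⊆ Q.S := Finset.filter_subset _ _
  have hb := block w h2 u hds (fun J => rs c (cf D u (v J))) (fun J hJ => by
    have h3 := hz J hJ
    rw [rs_Sv D w v hv h1 hJ hu hmin] at h3
    exact h3) J0 hJ0
  exact ((rs_ne_zero (h1 J0 hJ0 u hu)).mpr hone) hb

theorem isom_le (h2 : c.av 2 < 1) (v : Finset E → A) (hv : ∀ J ∈ w.JJ, v J ∈ D.sp) {r : ℝ}
    (h1 : ∀ J ∈ w.JJ, ∀ u ∈ Q.W, c.av (cf D u (v J)) ≤ r) :
    ∀ J ∈ w.JJ, ∀ u ∈ Q.W, c.av (cf D u (∑ J' ∈ w.JJ, w.ent D J J' * v J')) ≤ r :=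
  Sv_le D w v hv h1

/-- an eigenvalue of the operator on tuples of elements of the span has absolute value one -/
theorem eig_one (h2 : c.av 2 < 1) {n : ℕ} (v : Finset E → Fin n → A) (hv : ∀ J ∈ w.JJ, ∀ i, v J i ∈ D.sp)
    (h0 : ∃ J ∈ w.JJ, v J ≠ 0) {r : Ω}
    (h : ∀ J ∈ w.JJ, ∀ i, ∑ J' ∈ w.JJ, w.ent D J J' * v J' i = r • v J i) : c.av r = 1 := by
  obtain ⟨J0, hJ0, hne⟩ := h0
  obtain ⟨i, hi⟩ : ∃ i, v J0 i ≠ 0 := by
    by_contra hcon
    push Not at hcon
    exact hne (funext hcon)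
  -- the maximum of the coefficients
  have hne0 : ∃ u ∈ Q.W, cf D u (v J0 i) ≠ 0 := by
    by_contra hcon
    push Not at hcon
    apply hi
    refine sp_ext D (hv J0 hJ0 i) (Submodule.zero_mem _) fun u hu => ?_
    rw [hcon u hu, map_zero]
  obtain ⟨u0, hu0, hu0'⟩ := hne0
  obtain ⟨⟨J1, u1⟩, hmem, hmax⟩ := Finset.exists_max_image (w.JJ ×ˢ WF Q)
    (fun p => c.av (cf D p.2 (v p.1 i))) ⟨(J0, u0), Finset.mem_product.mpr ⟨hJ0, mem_WF.mpr hu0⟩⟩
  obtain ⟨hJ1, hu1⟩ := Finset.mem_product.mp hmem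
  simp only at hJ1 hu1 hmax
  have hu1' := mem_WF.mp hu1
  have hpos : 0 < c.av (cf D u1 (v J1 i)) := by
    have h3 := hmax (J0, u0) (Finset.mem_product.mpr ⟨hJ0, mem_WF.mpr hu0⟩)
    exact (c.av.pos hu0').trans_le h3
  set m := cf D u1 (v J1 i) with hm
  have hm0 : m ≠ 0 := by
    intro h3
    rw [h3, map_zero] at hpos
    exact lt_irrefl _ hpos
  let v' : Finset E → A := fun J => m⁻¹ • v J i
  have hv' : ∀ J ∈ w.JJ, v' J ∈ D.sp := fun J hJ => Submodule.smul_mem _ _ (hv J hJ i)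
  have h1 : ∀ J ∈ w.JJ, ∀ u ∈ Q.W, c.av (cf D u (v' J)) ≤ 1 := by
    intro J hJ u hu
    show c.av (cf D u (m⁻¹ • v J i)) ≤ 1
    rw [map_smul, smul_eq_mul, map_mul, map_inv₀]
    have h3 := hmax (J, u) (Finset.mem_product.mpr ⟨hJ, mem_WF.mpr hu⟩)
    simp only at h3
    rw [inv_mul_le_iff₀ hpos, mul_one]
    exact h3
  have hone : c.av (cf D u1 (v' J1)) = 1 := by
    show c.av (cf D u1 (m⁻¹ • v J1 i)) = 1
    rw [map_smul, smul_eq_mul, ← hm, inv_mul_cancel₀ hm0, map_one]
  have hS : ∀ J ∈ w.JJ, ∑ J' ∈ w.JJ, w.ent D J J' * v' J' = r • v' J := by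
    intro J hJ
    show ∑ J' ∈ w.JJ, w.ent D J J' * (m⁻¹ • v J' i) = r • (m⁻¹ • v J i)
    rw [smul_comm, ← h J hJ i, Finset.smul_sum]
    exact Finset.sum_congr rfl fun J' _ => by rw [mul_smul_comm]
  obtain ⟨J2, hJ2, u2, hu2, h3⟩ := isom_aux D w h2 v' hv' h1 ⟨J1, hJ1, u1, hu1', hone⟩
  rw [hS J2 hJ2, map_smul, smul_eq_mul, map_mul] at h3
  have h4 := h1 J2 hJ2 u2 hu2
  have h5 := isom_le D w h2 v' hv' h1 J1 hJ1 u1 hu1'
  rw [hS J1 hJ1, map_smul, smul_eq_mul, map_mul, hone, mul_one] at h5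
  refine le_antisymm h5 ?_
  calc (1 : ℝ) = c.av r * c.av (cf D u2 (v' J2)) := h3.symm
    _ ≤ c.av r * 1 := mul_le_mul_of_nonneg_left h4 (c.av.nonneg _)
    _ = c.av r := mul_one _

end

end LieP
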