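import Pool.Agent.LieP.H04

/-!
# MP_6c3636_al, LieP, module H05: Lemma H (helper7)

Section 10. `lemH`: all eigenvalues of the operator on `w.JJ → V` have absolute value `1` (the determinant is their product, `Ω` algebraically closed). An eigenvector `v`, eigenvalue `r`: on the part `π (1 - T 1)` the operator is the identity
(`D.e J = T 1 * D.e J * T 1`, `g` too), so if `(1 - π (T 1)) v ≠ 0` then `r = 1`; otherwise `ι v J ≠ 0` for some `J` (`h3`) and `eig_one` applies to `ι (v J)`, by `h2`.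
`he_parity`: `w` with `τ = id`, `b = 0` (`exists_wt`); on `⊕_J range π(e_J)` the operator of `lemH` (with `π g = 0`) is injective and exchanges even and odd `|J|`: the entry `J, J'` is nonzero only if `J, J'` differ by one element
(on the ranges `(1 - e_J)` vanishes). So the two dimensions are equal.
-/

namespace LieP

noncomputable section

open Classical

variable {E : Type} [NormedAddCommGroup E] [InnerProductSpace ℝ E] [FiniteDimensional ℝ E]

variable {Ω : Type} [Field Ω] [IsAlgClosed Ω] [CharZero Ω] {c : Parker.Ctx Ω} {Q : RG E}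
  {A : Type} [Ring A] [Algebra Ω A] (D : HD c Q A) (w : WT c Q) {V : Type} [AddCommGroup V] [Module Ω V]
  [FiniteDimensional Ω V]

/-- the operator of (10.3) on the tuples of elements of `V` -/
def opS (π : A →ₗ[Ω] Module.End Ω V) : Module.End Ω (w.JJ → V) :=
  LinearMap.pi fun J => ∑ J' : w.JJ, (π (w.ent D J J')).comp (LinearMap.proj J')

omit [FiniteDimensional ℝ E] [IsAlgClosed Ω] [CharZero Ω] [FiniteDimensional Ω V] in
theorem H05_aux.opS_apply (π : A →ₗ[Ω] Module.End Ω V) (v : w.JJ → V) (J : w.JJ) :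
    opS D w π v J = ∑ J' : w.JJ, π (w.ent D J J') (v J') := by
  simp [opS]

omit [FiniteDimensional ℝ E] [IsAlgClosed Ω] [CharZero Ω] in
theorem H05_aux.JJ_sub {J : Finset E} (hJ : J ∈ w.JJ) : J ⊆ Q.S := by
  unfold WT.JJ at hJ
  rw [Finset.mem_filter, Finset.mem_powerset] at hJ
  exact hJ.1

omit [IsAlgClosed Ω] [CharZero Ω] in
/-- the entry minus the part of `1 - T 1` is in the span -/
theorem H05_aux.ent0 {J J' : Finset E} (hJ : J ∈ w.JJ) (hJ' : J' ∈ w.JJ) :
    w.ent D J J' - (if J = J' then 1 - D.T 1 else 0) ∈ D.sp := by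
  have hs := H05_aux.JJ_sub w hJ
  have hs' := H05_aux.JJ_sub w hJ'
  have h1 : (∑ q ∈ w.orb, if Disjoint q J ∧ J' = J ∪ q then w.a q • D.e J' else 0) ∈ D.sp := by
    refine Submodule.sum_mem _ fun q _ => ?_
    split_ifs
    · exact Submodule.smul_mem _ _ (he_sp D hs')
    · exact Submodule.zero_mem _
  have h2 : (∑ q ∈ w.orb, if q ⊆ J ∧ J' = J \ q then w.a q • D.e J else 0) ∈ D.sp := by
    refine Submodule.sum_mem _ fun q _ => ?_
    split_ifs
    · exact Submodule.smul_mem _ _ (he_sp D hs)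
    · exact Submodule.zero_mem _
  have h3 : (if J = ∅ then (∑ s ∈ Q.S, w.b s • D.e {s}) + D.g else 0) ∈ D.sp := by
    split_ifs
    · refine Submodule.add_mem _ (Submodule.sum_mem _ fun s hs => ?_) (g_sp D)
      exact Submodule.smul_mem _ _ (he_sp D (Finset.singleton_subset_iff.mpr hs))
    · exact Submodule.zero_mem _
  have h4 : D.T 1 ∈ D.sp := sp_mem D Q.W.one_mem
  unfold WT.ent
  by_cases h : J = J'
  · rw [if_pos h, if_pos h]
    have h5 : ((∑ q ∈ w.orb, if Disjoint q J ∧ J' = J ∪ q then w.a q • D.e J' else 0) -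
        (∑ q ∈ w.orb, if q ⊆ J ∧ J' = J \ q then w.a q • D.e J else 0) +
        ((1 - D.e J) + (if J = ∅ then (∑ s ∈ Q.S, w.b s • D.e {s}) + D.g else 0))) - (1 - D.T 1) =
        ((∑ q ∈ w.orb, if Disjoint q J ∧ J' = J ∪ q then w.a q • D.e J' else 0) -
        (∑ q ∈ w.orb, if q ⊆ J ∧ J' = J \ q then w.a q • D.e J else 0)) +
        ((D.T 1 - D.e J) + (if J = ∅ then (∑ s ∈ Q.S, w.b s • D.e {s}) + D.g else 0)) := by
      abel
    rw [h5]
    exact Submodule.add_mem _ (Submodule.sub_mem _ h1 h2)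
      (Submodule.add_mem _ (Submodule.sub_mem _ h4 (he_sp D hs)) h3)
  · rw [if_neg h, if_neg h, add_zero, sub_zero]
    exact Submodule.sub_mem _ h1 h2

omit [IsAlgClosed Ω] [FiniteDimensional Ω V] in
/-- the operator of the complement of `T 1` -/
theorem H05_aux.compl_ent (π : A →ₗ[Ω] Module.End Ω V) (hπ1 : π 1 = 1)
    (hπ : ∀ a ∈ D.sp, ∀ b ∈ D.sp, π (a * b) = π a * π b) {J J' : Finset E} (hJ : J ∈ w.JJ)
    (hJ' : J' ∈ w.JJ) : (1 - π (D.T 1)) * π (w.ent D J J') = if J = J' then 1 - π (D.T 1) else 0 := by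
  have h0 := H05_aux.ent0 D w hJ hJ'
  have h4 : D.T 1 ∈ D.sp := sp_mem D Q.W.one_mem
  have h5 : π (D.T 1) * π (w.ent D J J' - (if J = J' then 1 - D.T 1 else 0)) =
      π (w.ent D J J' - (if J = J' then 1 - D.T 1 else 0)) := by
    rw [← hπ _ h4 _ h0, (one_sp D h0).1]
  have h6 : π (D.T 1) * π (D.T 1) = π (D.T 1) := by
    rw [← hπ _ h4 _ h4, (one_sp D h4).1]
  have h7 : π (w.ent D J J') = π (w.ent D J J' - (if J = J' then 1 - D.T 1 else 0)) +
      if J = J' then 1 - π (D.T 1) else 0 := by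
    rw [map_sub]
    split_ifs
    · rw [map_sub, hπ1]; abel
    · rw [map_zero]; abel
  rw [h7, mul_add, sub_mul, one_mul, h5, sub_self, zero_add]
  split_ifs
  · rw [mul_sub, mul_one, sub_mul, one_mul, h6, sub_self, sub_zero]
  · rw [mul_zero]

omit [IsAlgClosed Ω] [FiniteDimensional Ω V] in
theorem H05_aux.iota_ent (π : A →ₗ[Ω] Module.End Ω V) (hπ1 : π 1 = 1) {n : ℕ} (ι : V →ₗ[Ω] (Fin n → A))
    (hι : ∀ v i, ι v i ∈ D.sp) (hι' : ∀ a ∈ D.sp, ∀ v i, ι (π a v) i = a * ι v i)
    {J J' : Finset E} (hJ : J ∈ w.JJ) (hJ' : J' ∈ w.JJ) (v : V) (i : Fin n) :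
    ι (π (w.ent D J J') v) i = w.ent D J J' * ι v i := by
  have h0 := H05_aux.ent0 D w hJ hJ'
  have h4 : D.T 1 ∈ D.sp := sp_mem D Q.W.one_mem
  have h7 : w.ent D J J' = (w.ent D J J' - (if J = J' then 1 - D.T 1 else 0)) +
      if J = J' then 1 - D.T 1 else 0 := by
    abel
  rw [h7, map_add, LinearMap.add_apply, map_add, Pi.add_apply, hι' _ h0, add_mul]
  congr 1
  split_ifs
  · rw [map_sub, hπ1, LinearMap.sub_apply, Module.End.one_apply, map_sub, Pi.sub_apply, hι' _ h4,
      sub_mul, one_mul]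
  · rw [map_zero, LinearMap.zero_apply, map_zero, Pi.zero_apply, zero_mul]

/-- eigenvalues have absolute value one -/
theorem H05_aux.eig (h2 : c.av 2 < 1) (π : A →ₗ[Ω] Module.End Ω V) (hπ1 : π 1 = 1)
    (hπ : ∀ a ∈ D.sp, ∀ b ∈ D.sp, π (a * b) = π a * π b) {n : ℕ} (ι : V →ₗ[Ω] (Fin n → A))
    (hι : ∀ v i, ι v i ∈ D.sp) (hι' : ∀ a ∈ D.sp, ∀ v i, ι (π a v) i = a * ι v i)
    (h3 : ∀ v, ι v = 0 → π (D.T 1) v = 0) (v : w.JJ → V) (hv : v ≠ 0) (r : Ω)
    (hr : opS D w π v = r • v) : c.av r = 1 := by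
  have hrJ : ∀ J : w.JJ, ∑ J' : w.JJ, π (w.ent D J J') (v J') = r • v J := by
    intro J
    rw [← H05_aux.opS_apply, hr, Pi.smul_apply]
  by_cases hc : ∃ J : w.JJ, (1 - π (D.T 1)) (v J) ≠ 0
  · obtain ⟨J, hJ⟩ := hc
    have h1 : (1 - π (D.T 1)) (∑ J' : w.JJ, π (w.ent D J J') (v J')) = (1 - π (D.T 1)) (v J) := by
      rw [map_sum]
      have h5 : ∀ J' : w.JJ, (1 - π (D.T 1)) (π (w.ent D J J') (v J')) =
          if J = J' then (1 - π (D.T 1)) (v J) else 0 := by
        intro J'
        have h6 := congrArg (fun f : Module.End Ω V => f (v J'))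
          (H05_aux.compl_ent D w π hπ1 hπ J.2 J'.2)
        simp only [Module.End.mul_apply] at h6
        rw [h6]
        by_cases h : J = J'
        · subst h
          rw [if_pos rfl, if_pos rfl]
        · rw [if_neg h, if_neg (fun h' => h (Subtype.ext h')), LinearMap.zero_apply]
      rw [Finset.sum_congr rfl fun J' _ => h5 J', Finset.sum_ite_eq]
      simp
    rw [hrJ J, map_smul] at h1
    have h6 : (r - 1) • (1 - π (D.T 1)) (v J) = 0 := by
      rw [sub_smul, one_smul, h1, sub_self]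
    rcases smul_eq_zero.mp h6 with h7 | h7
    · rw [sub_eq_zero.mp h7, map_one]
    · exact absurd h7 hJ
  · have hc' : ∀ J : w.JJ, π (D.T 1) (v J) = v J := by
      intro J
      by_contra h
      refine hc ⟨J, fun h' => h ?_⟩
      rw [LinearMap.sub_apply, Module.End.one_apply, sub_eq_zero] at h'
      exact h'.symm
    obtain ⟨J0, hJ0⟩ : ∃ J, v J ≠ 0 := Function.ne_iff.mp hv
    have hι0 : ι (v J0) ≠ 0 := by
      intro h
      have := h3 _ h
      rw [hc' J0] at this
      exact hJ0 this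
    refine eig_one D w h2 (n := n) (fun J => if h : J ∈ w.JJ then ι (v ⟨J, h⟩) else 0) ?_ ?_ (r := r) ?_
    · intro J hJ i
      rw [dif_pos hJ]
      exact hι _ _
    · refine ⟨J0, J0.2, ?_⟩
      rw [dif_pos J0.2]
      exact hι0
    · intro J hJ i
      simp only [dif_pos hJ]
      have h8 := congrArg (fun x => ι x i) (hrJ ⟨J, hJ⟩)
      simp only [map_sum, Finset.sum_apply, map_smul, Pi.smul_apply] at h8
      rw [← h8, ← Finset.sum_coe_sort]
      refine Finset.sum_congr rfl fun J' _ => ?_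
      rw [dif_pos J'.2, H05_aux.iota_ent D w π hπ1 ι hι hι' hJ J'.2]

theorem lemH (h2 : c.av 2 < 1) (π : A →ₗ[Ω] Module.End Ω V) (hπ1 : π 1 = 1)
    (hπ : ∀ a ∈ D.sp, ∀ b ∈ D.sp, π (a * b) = π a * π b) {n : ℕ} (ι : V →ₗ[Ω] (Fin n → A))
    (hι : ∀ v i, ι v i ∈ D.sp) (hι' : ∀ a ∈ D.sp, ∀ v i, ι (π a v) i = a * ι v i)
    (h3 : ∀ v, ι v = 0 → π (D.T 1) v = 0) : c.av (LinearMap.det (opS D w π)) = 1 := by
  rw [Module.End.det_eq_prod_roots_charpoly_of_splits (IsAlgClosed.splits _)]
  have h : ∀ r ∈ (opS D w π).charpoly.roots, c.av r = 1 := by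
    intro r hr
    have h1 := (Module.End.hasEigenvalue_iff_isRoot_charpoly (opS D w π) r).mpr
      (Polynomial.isRoot_of_mem_roots hr)
    obtain ⟨v, hv⟩ := h1.exists_hasEigenvector
    exact H05_aux.eig D w h2 π hπ1 hπ ι hι hι' h3 v hv.2 r (Module.End.mem_eigenspace_iff.mp hv.1)
  rw [map_multiset_prod]
  refine Multiset.prod_eq_one fun x hx => ?_
  obtain ⟨r, hr, rfl⟩ := Multiset.mem_map.mp hx
  exact h r hr

omit [FiniteDimensional ℝ E] [IsAlgClosed Ω] [CharZero Ω] in
/-- the tuples with entries in the submodules `N J` -/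
theorem H05_aux.finrank_tuples {ι' : Type} [Fintype ι'] (N : ι' → Submodule Ω V) :
    Module.finrank Ω (LinearMap.range
      (LinearMap.pi fun J => (N J).subtype.comp (LinearMap.proj J) : ((J : ι') → N J) →ₗ[Ω] (ι' → V))) =
      ∑ J, Module.finrank Ω (N J) := by
  rw [LinearMap.finrank_range_of_inj, Module.finrank_pi_fintype]
  intro x y hxy
  funext J
  have := congrFun hxy J
  exact Subtype.ext this

theorem he_parity (h2 : c.av 2 < 1) (π : A →ₗ[Ω] Module.End Ω V) (hπ1 : π 1 = 1)
    (hπ : ∀ a ∈ D.sp, ∀ b ∈ D.sp, π (a * b) = π a * π b) {n : ℕ} (ι : V →ₗ[Ω] (Fin n → A))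
    (hι : ∀ v i, ι v i ∈ D.sp) (hι' : ∀ a ∈ D.sp, ∀ v i, ι (π a v) i = a * ι v i)
    (h3 : ∀ v, ι v = 0 → π (D.T 1) v = 0) (hg : π D.g = 0) :
    Even (∑ J ∈ Q.S.powerset, Module.finrank Ω (LinearMap.range (π (D.e J)))) := by
  have hne : (2 ^ (Q.S.card + 1) - 1 : ℕ) ≠ 0 := by
    have : 2 ≤ 2 ^ (Q.S.card + 1) := by
      calc 2 = 2 ^ 1 := rfl
        _ ≤ 2 ^ (Q.S.card + 1) := Nat.pow_le_pow_right (by norm_num) (by omega)
    omega
  have : NeZero ((2 ^ (Q.S.card + 1) - 1 : ℕ) : Ω) := ⟨Nat.cast_ne_zero.mpr hne⟩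
  obtain ⟨ζ, hζ⟩ := HasEnoughRootsOfUnity.exists_primitiveRoot Ω (2 ^ (Q.S.card + 1) - 1)
  obtain ⟨w, hwτ, -, -, hwb⟩ := exists_wt c h2 Q hζ (Nat.lt_succ_self _) id (fun s hs => hs)
    (fun s _ => rfl)
  have hb := hwb fun s _ => rfl
  have hdet := lemH D w h2 π hπ1 hπ ι hι hι' h3
  have hinj : Function.Injective (opS D w π) := by
    have h1 : LinearMap.det (opS D w π) ≠ 0 := by
      intro h
      rw [h, map_zero] at hdet
      exact zero_ne_one hdet
    exact (LinearMap.equivOfDetNeZero _ h1).injective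
  have hJJ : w.JJ = Q.S.powerset := by
    unfold WT.JJ
    rw [hwτ]
    refine Finset.filter_true_of_mem fun J _ => Finset.image_id
  have horb : ∀ q ∈ w.orb, ∃ s ∈ Q.S, q = {s} := by
    intro q hq
    unfold WT.orb at hq
    obtain ⟨s, hs, rfl⟩ := Finset.mem_image.mp hq
    refine ⟨s, hs, ?_⟩
    rw [hwτ]
    simp
  -- the submodules
  set N : ℕ → w.JJ → Submodule Ω V := fun j J =>
    if (J : Finset E).card % 2 = j then LinearMap.range (π (D.e J)) else ⊥ with hN
  set I : (j : ℕ) → ((J : w.JJ) → N j J) →ₗ[Ω] (w.JJ → V) := fun j =>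
    LinearMap.pi fun J => (N j J).subtype.comp (LinearMap.proj J) with hI
  have hmem : ∀ j (v : w.JJ → V), v ∈ LinearMap.range (I j) ↔ ∀ J, v J ∈ N j J := by
    intro j v
    constructor
    · rintro ⟨x, rfl⟩ J
      exact (x J).2
    · intro h
      exact ⟨fun J => ⟨v J, h J⟩, rfl⟩
  have key : ∀ j j' : ℕ, j < 2 → j' < 2 → j ≠ j' → ∀ v ∈ LinearMap.range (I j),
      opS D w π v ∈ LinearMap.range (I j') := by
    intro j j' hj hj' hjj v hv
    rw [hmem] at hv ⊢
    intro J
    rw [H05_aux.opS_apply]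
    refine Submodule.sum_mem _ fun J' _ => ?_
    have hJ := H05_aux.JJ_sub w J.2
    have hJ' := H05_aux.JJ_sub w J'.2
    have hv' := hv J'
    simp only [hN] at hv' ⊢
    split_ifs at hv' with h5
    · obtain ⟨x, hx⟩ := hv'
      have he : π (D.e J') (v J') = v J' := by
        rw [← hx, ← Module.End.mul_apply, ← hπ _ (he_sp D hJ') _ (he_sp D hJ'), he_idem D hJ']
      -- the three parts
      have hp1 : π (∑ q ∈ w.orb, if Disjoint q (J : Finset E) ∧ (J' : Finset E) = (J : Finset E) ∪ q then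
          w.a q • D.e J' else 0) (v J') ∈ (if (J : Finset E).card % 2 = j' then
            LinearMap.range (π (D.e J)) else ⊥) := by
        rw [map_sum, LinearMap.sum_apply]
        refine Submodule.sum_mem _ fun q hq => ?_
        obtain ⟨s, hs, rfl⟩ := horb q hq
        by_cases h : Disjoint {s} (J : Finset E) ∧ (J' : Finset E) = (J : Finset E) ∪ {s}
        · rw [if_pos h, map_smul, LinearMap.smul_apply, he]
          refine Submodule.smul_mem _ _ ?_
          have hcard : (J' : Finset E).card = (J : Finset E).card + 1 := by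
            rw [h.2, Finset.card_union_of_disjoint h.1.symm, Finset.card_singleton]
          rw [if_pos (by omega)]
          refine ⟨v J', ?_⟩
          rw [← he, ← Module.End.mul_apply, ← hπ _ (he_sp D hJ) _ (he_sp D hJ'),
            (he_mul D (by rw [h.2]; exact Finset.subset_union_left) hJ').1]
        · rw [if_neg h, map_zero, LinearMap.zero_apply]
          exact Submodule.zero_mem _
      have hp2 : π (∑ q ∈ w.orb, if q ⊆ (J : Finset E) ∧ (J' : Finset E) = (J : Finset E) \ q then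
          w.a q • D.e J else 0) (v J') ∈ (if (J : Finset E).card % 2 = j' then
            LinearMap.range (π (D.e J)) else ⊥) := by
        rw [map_sum, LinearMap.sum_apply]
        refine Submodule.sum_mem _ fun q hq => ?_
        obtain ⟨s, hs, rfl⟩ := horb q hq
        by_cases h : {s} ⊆ (J : Finset E) ∧ (J' : Finset E) = (J : Finset E) \ {s}
        · rw [if_pos h, map_smul, LinearMap.smul_apply]
          refine Submodule.smul_mem _ _ ?_
          have hcard : (J' : Finset E).card + 1 = (J : Finset E).card := by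
            rw [h.2, Finset.card_sdiff_of_subset h.1, Finset.card_singleton]
            have : 0 < (J : Finset E).card :=
              Finset.card_pos.mpr ⟨s, Finset.singleton_subset_iff.mp h.1⟩
            omega
          rw [if_pos (by omega)]
          exact ⟨v J', rfl⟩
        · rw [if_neg h, map_zero, LinearMap.zero_apply]
          exact Submodule.zero_mem _
      have hp3 : π (if (J : Finset E) = J' then (1 - D.e J) + (if (J : Finset E) = ∅ then
          (∑ s ∈ Q.S, w.b s • D.e {s}) + D.g else 0) else 0) (v J') = 0 := by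
        by_cases h : (J : Finset E) = J'
        · rw [if_pos h, map_add, map_sub, hπ1, h, LinearMap.add_apply, LinearMap.sub_apply, he,
            Module.End.one_apply, sub_self, zero_add]
          split_ifs
          · rw [map_add, hg, add_zero, Finset.sum_eq_zero, map_zero, LinearMap.zero_apply]
            intro s _
            rw [hb s, zero_smul]
          · rw [map_zero, LinearMap.zero_apply]
        · rw [if_neg h, map_zero, LinearMap.zero_apply]
      unfold WT.ent
      rw [map_add, map_sub, LinearMap.add_apply, hp3, add_zero, LinearMap.sub_apply]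
      exact Submodule.sub_mem _ hp1 hp2
    · rw [(Submodule.mem_bot Ω).mp hv', map_zero]
      exact Submodule.zero_mem _
  have hle : ∀ j j' : ℕ, j < 2 → j' < 2 → j ≠ j' →
      ∑ J : w.JJ, Module.finrank Ω (N j J) ≤ ∑ J : w.JJ, Module.finrank Ω (N j' J) := by
    intro j j' hj hj' hjj
    rw [← H05_aux.finrank_tuples (N j), ← H05_aux.finrank_tuples (N j')]
    change Module.finrank Ω (LinearMap.range (I j)) ≤ Module.finrank Ω (LinearMap.range (I j'))
    rw [(Submodule.equivMapOfInjective (opS D w π) hinj (LinearMap.range (I j))).finrank_eq]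
    refine Submodule.finrank_mono ?_
    rintro _ ⟨v, hv, rfl⟩
    exact key j j' hj hj' hjj v hv
  have heq : ∑ J : w.JJ, Module.finrank Ω (N 0 J) = ∑ J : w.JJ, Module.finrank Ω (N 1 J) :=
    le_antisymm (hle 0 1 (by norm_num) (by norm_num) (by norm_num))
      (hle 1 0 (by norm_num) (by norm_num) (by norm_num))
  have hsum : ∑ J ∈ Q.S.powerset, Module.finrank Ω (LinearMap.range (π (D.e J))) =
      ∑ J : w.JJ, Module.finrank Ω (N 0 J) + ∑ J : w.JJ, Module.finrank Ω (N 1 J) := by
    rw [← hJJ, ← Finset.sum_coe_sort, ← Finset.sum_add_distrib]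
    refine Finset.sum_congr rfl fun J _ => ?_
    change _ = Module.finrank Ω ((if (J : Finset E).card % 2 = 0 then
      LinearMap.range (π (D.e J)) else ⊥ : Submodule Ω V)) +
      Module.finrank Ω ((if (J : Finset E).card % 2 = 1 then
      LinearMap.range (π (D.e J)) else ⊥ : Submodule Ω V))
    rcases Nat.mod_two_eq_zero_or_one (J : Finset E).card with h | h
    · rw [if_pos h, if_neg (by omega), finrank_bot, add_zero]
    · rw [if_neg (by omega), if_pos h, finrank_bot, zero_add]
  rw [hsum, heq]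
  exact ⟨_, rfl⟩

end

end LieP
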