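import Pool.Agent.LieP.Defs3

/-!
# MP_6c3636_al, section 15: definitions for the groups `G(n, F, σ)` (helper89)

`co w i` are the coordinates of `w : En n`, `rt i j` is the vector with `⟨rt i j, w⟩ = w_i - w_j`, `Rt n` the set of the
`rt i j`, `i ≠ j`. `Sp S A`: the matrix `A` has the entries of the identity matrix outside of the relation `S`; `GS S` is the
group of the matrices with this property (`S` transitive). `UU σ x` is the group `U(x)`, `MoN σ` the monomial group,
`pm g` the permutation of a monomial matrix, `acG g` its action on `En n`.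
-/

namespace LieP.GI

noncomputable section

open Classical Matrix

section Coordinates

variable {n : ℕ}

theorem pinv (π : Equiv.Perm (Fin n)) (i : Fin n) : π⁻¹ (π i) = i := π.symm_apply_apply i

theorem pinv' (π : Equiv.Perm (Fin n)) (i : Fin n) : π (π⁻¹ i) = i := π.apply_symm_apply i

/-- coordinates -/
def co (w : En n) : Fin n → ℝ := fun i => (w : EuclideanSpace ℝ (Fin n)) i

theorem co_rev (w : En n) (i : Fin n) : co w (Fin.rev i) = - co w i := w.2 i

theorem co_add (x y : En n) (i : Fin n) : co (x + y) i = co x i + co y i := rfl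

theorem co_smul (r : ℝ) (x : En n) (i : Fin n) : co (r • x) i = r * co x i := rfl

theorem co_neg (x : En n) (i : Fin n) : co (-x) i = - co x i := rfl

theorem co_sub (x y : En n) (i : Fin n) : co (x - y) i = co x i - co y i := rfl

theorem co_zero (i : Fin n) : co (0 : En n) i = 0 := rfl

theorem co_ext {x y : En n} (h : ∀ i, co x i = co y i) : x = y := by
  apply Subtype.ext
  ext i
  exact h i

/-- the point with given coordinates -/
def ofc (f : Fin n → ℝ) (h : ∀ i, f (Fin.rev i) = - f i) : En n := ⟨WithLp.toLp 2 f, h⟩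

theorem co_ofc (f : Fin n → ℝ) (h : ∀ i, f (Fin.rev i) = - f i) (i : Fin n) : co (ofc f h) i = f i := rfl

theorem inner_co (x y : En n) : inner ℝ x y = ∑ i, co x i * co y i := by
  rw [Submodule.coe_inner, PiLp.inner_apply]
  refine Finset.sum_congr rfl fun i _ => ?_
  rw [real_inner_comm]
  rfl

/-- the coordinates of a root -/
def rtf (i j k : Fin n) : ℝ :=
  ((if k = i then 1 else 0) - (if k = j then 1 else 0) - (if k = Fin.rev i then 1 else 0) +
    (if k = Fin.rev j then 1 else 0)) / 2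

theorem rtf_rev (i j k : Fin n) : rtf i j (Fin.rev k) = - rtf i j k := by
  have h1 : ∀ a : Fin n, (Fin.rev k = a) = (k = Fin.rev a) := fun a => by
    apply propext
    constructor
    · rintro rfl; rw [Fin.rev_rev]
    · rintro rfl; rw [Fin.rev_rev]
  unfold rtf
  simp only [h1, Fin.rev_rev]
  ring

/-- the root -/
def rt (i j : Fin n) : En n := ofc (rtf i j) (rtf_rev i j)

theorem inner_rt (i j : Fin n) (x : En n) : inner ℝ (rt i j) x = co x i - co x j := by
  rw [inner_co]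
  have h : ∀ k, co (rt i j) k * co x k =
      ((if k = i then co x k else 0) - (if k = j then co x k else 0) - (if k = Fin.rev i then co x k else 0) +
        (if k = Fin.rev j then co x k else 0)) / 2 := by
    intro k
    show rtf i j k * co x k = _
    unfold rtf
    have hh : ∀ p : Prop, ∀ [Decidable p], (if p then co x k else 0) = (if p then (1 : ℝ) else 0) * co x k := by
      intro p _
      split_ifs <;> simp
    rw [hh, hh, hh, hh]
    ring
  rw [Finset.sum_congr rfl fun k _ => h k, ← Finset.sum_div, Finset.sum_add_distrib, Finset.sum_sub_distrib,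
    Finset.sum_sub_distrib]
  simp only [Finset.sum_ite_eq', Finset.mem_univ, if_true, co_rev]
  ring

/-- the set of the roots -/
def Rt (n : ℕ) : Finset (En n) :=
  (Finset.univ.filter fun p : Fin n × Fin n => p.1 ≠ p.2).image fun p => rt p.1 p.2

theorem mem_Rt {a : En n} : a ∈ Rt n ↔ ∃ i j, i ≠ j ∧ a = rt i j := by
  unfold Rt
  simp only [Finset.mem_image, Finset.mem_filter, Finset.mem_univ, true_and, Prod.exists]
  constructor
  · rintro ⟨i, j, h, h'⟩
    exact ⟨i, j, h, h'.symm⟩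
  · rintro ⟨i, j, h, h'⟩
    exact ⟨i, j, h, h'.symm⟩

theorem forall_Rt {P : En n → Prop} : (∀ a ∈ Rt n, P a) ↔ ∀ i j : Fin n, i ≠ j → P (rt i j) := by
  constructor
  · intro h i j hij
    exact h _ (mem_Rt.2 ⟨i, j, hij, rfl⟩)
  · intro h a ha
    obtain ⟨i, j, hij, rfl⟩ := mem_Rt.1 ha
    exact h i j hij

theorem pos_rt {i j : Fin n} {x : En n} : 0 < inner ℝ (rt i j) x ↔ co x j < co x i := by
  rw [inner_rt, sub_pos]

theorem zero_rt {i j : Fin n} {x : En n} : inner ℝ (rt i j) x = 0 ↔ co x i = co x j := by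
  rw [inner_rt, sub_eq_zero]

/-- the point `z_0`, with the coordinates `n - 1 - 2 i` -/
def z0 (n : ℕ) : En n := ofc (fun i => (n : ℝ) - 1 - 2 * (i : ℕ)) (by
  intro i
  have h1 : ((Fin.rev i : Fin n) : ℕ) + ((i : ℕ) + 1) = n := by
    rw [Fin.val_rev]
    have := i.2
    omega
  have h2 : (((Fin.rev i : Fin n) : ℕ) : ℝ) + ((i : ℕ) + 1) = n := by exact_mod_cast h1
  linarith)

theorem z0_lt {i j : Fin n} : co (z0 n) j < co (z0 n) i ↔ i < j := by
  show (n : ℝ) - 1 - 2 * ((j : ℕ) : ℝ) < (n : ℝ) - 1 - 2 * ((i : ℕ) : ℝ) ↔ _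
  rw [Fin.lt_def]
  constructor
  · intro h
    have h1 : ((i : ℕ) : ℝ) < ((j : ℕ) : ℝ) := by linarith
    exact_mod_cast h1
  · intro h
    have h1 : ((i : ℕ) : ℝ) < ((j : ℕ) : ℝ) := by exact_mod_cast h
    linarith

end Coordinates

section Supports

variable {n : ℕ} {F : Type} [Field F]

/-- the entries outside of `S` are those of the identity matrix -/
def Sp (S : Fin n → Fin n → Prop) (A : Matrix (Fin n) (Fin n) F) : Prop :=
  ∀ i j, ¬ S i j → A i j = (1 : Matrix (Fin n) (Fin n) F) i j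

theorem Sp.mul {S : Fin n → Fin n → Prop} (hS : ∀ i j k, S i j → S j k → S i k)
    {A B : Matrix (Fin n) (Fin n) F} (hA : Sp S A) (hB : Sp S B) : Sp S (A * B) := by
  intro i j hij
  have h1 : ∀ k, A i k * B k j = (1 : Matrix (Fin n) (Fin n) F) i k * (1 : Matrix (Fin n) (Fin n) F) k j := by
    intro k
    by_cases h : S i k
    · have h2 : ¬ S k j := fun h' => hij (hS _ _ _ h h')
      rw [hB k j h2]
      by_cases h3 : k = j
      · rw [h3] at h
        exact absurd h hij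
      · rw [Matrix.one_apply_ne h3, mul_zero, mul_zero]
    · rw [hA i k h]
      by_cases h3 : i = k
      · subst h3
        rw [hB i j hij]
      · rw [Matrix.one_apply_ne h3, zero_mul, zero_mul]
  rw [Matrix.mul_apply, Finset.sum_congr rfl fun k _ => h1 k, ← Matrix.mul_apply, Matrix.one_mul]

/-- the group of the matrices with the entries of the identity outside of the relation `S` -/
def GS (F : Type) [Field F] (S : Fin n → Fin n → Prop) (hS : ∀ i j k, S i j → S j k → S i k) :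
    Subgroup (GL (Fin n) F) where
  carrier := {g | Sp S (g : Matrix (Fin n) (Fin n) F) ∧ Sp S ((g⁻¹ : GL (Fin n) F) : Matrix (Fin n) (Fin n) F)}
  mul_mem' := by
    rintro a b ⟨ha, ha'⟩ ⟨hb, hb'⟩
    refine ⟨?_, ?_⟩
    · rw [Units.val_mul]
      exact ha.mul hS hb
    · rw [_root_.mul_inv_rev, Units.val_mul]
      exact hb'.mul hS ha'
  one_mem' := by
    refine ⟨fun i j _ => ?_, fun i j _ => ?_⟩
    · rw [Units.val_one]
    · rw [inv_one, Units.val_one]
  inv_mem' := by
    rintro g ⟨h1, h2⟩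
    refine ⟨h2, ?_⟩
    rw [inv_inv]
    exact h1

theorem mem_GS [Finite F] {S : Fin n → Fin n → Prop} {hS : ∀ i j k, S i j → S j k → S i k} {g : GL (Fin n) F} :
    g ∈ GS F S hS ↔ Sp S (g : Matrix (Fin n) (Fin n) F) := by
  refine ⟨fun h => h.1, fun h => ⟨h, ?_⟩⟩
  have hf : Finite (GL (Fin n) F) := inferInstance
  obtain ⟨k, hk, hk'⟩ := (isOfFinOrder_of_finite g).exists_pow_eq_one
  have hpow : ∀ m : ℕ, Sp S ((g ^ m : GL (Fin n) F) : Matrix (Fin n) (Fin n) F) := by
    intro m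
    induction m with
    | zero => rw [pow_zero, Units.val_one]; exact fun i j _ => rfl
    | succ m ih => rw [pow_succ, Units.val_mul]; exact ih.mul hS h
  have h1 : g⁻¹ = g ^ (k - 1) := by
    rw [inv_eq_iff_mul_eq_one, ← pow_succ', Nat.sub_add_cancel hk, hk']
  rw [h1]
  exact hpow _

/-- the group `U(x)` -/
def UU (σ : F ≃+* F) (x : Fin n → ℝ) : Subgroup (GL (Fin n) F) :=
  UG σ Fin.revPerm ⊓ GS F (fun i j => x j < x i) (fun _ _ _ h h' => h'.trans h)

theorem mem_UU [Finite F] {σ : F ≃+* F} {x : Fin n → ℝ} {g : GL (Fin n) F} :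
    g ∈ UU σ x ↔ g ∈ UG σ Fin.revPerm ∧
      ∀ i j, ¬ x j < x i → (g : Matrix (Fin n) (Fin n) F) i j = (1 : Matrix (Fin n) (Fin n) F) i j := by
  unfold UU
  rw [Subgroup.mem_inf, mem_GS]
  exact Iff.rfl

theorem UL_eq (σ : F ≃+* F) (x : Fin n → ℝ) :
    UL σ Fin.revPerm x = UG σ Fin.revPerm ⊓ GS F (fun i j => x i = x j) (fun _ _ _ h h' => h.trans h') := by
  ext g
  rw [Subgroup.mem_inf]
  have key : ∀ A : Matrix (Fin n) (Fin n) F, (∀ i j, x i ≠ x j → A i j = 0) ↔ Sp (fun i j => x i = x j) A := by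
    intro A
    constructor
    · intro h i j hij
      rw [h i j hij, Matrix.one_apply_ne (fun h' => hij (congrArg x h'))]
    · intro h i j hij
      rw [h i j hij, Matrix.one_apply_ne (fun h' => hij (congrArg x h'))]
  constructor
  · rintro ⟨h1, h2, h3⟩
    exact ⟨h1, (key _).1 h2, (key _).1 h3⟩
  · rintro ⟨h1, h2, h3⟩
    exact ⟨h1, (key _).2 h2, (key _).2 h3⟩

theorem mem_UL [Finite F] {σ : F ≃+* F} {x : Fin n → ℝ} {g : GL (Fin n) F} :
    g ∈ UL σ Fin.revPerm x ↔ g ∈ UG σ Fin.revPerm ∧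
      ∀ i j, x i ≠ x j → (g : Matrix (Fin n) (Fin n) F) i j = 0 := by
  constructor
  · rintro ⟨h1, h2, _⟩
    exact ⟨h1, h2⟩
  · rintro ⟨h1, h2⟩
    rw [UL_eq, Subgroup.mem_inf]
    refine ⟨h1, mem_GS.2 fun i j hij => ?_⟩
    rw [h2 i j hij, Matrix.one_apply_ne (fun h' => hij (congrArg x h'))]

/-- the entries of the inverse of an element of `UG` -/
theorem inv_apply_UG {σ : F ≃+* F} {g : GL (Fin n) F} (hg : g ∈ UG σ Fin.revPerm) (i j : Fin n) :
    ((g⁻¹ : GL (Fin n) F) : Matrix (Fin n) (Fin n) F) i j =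
      σ ((g : Matrix (Fin n) (Fin n) F) (Fin.rev j) (Fin.rev i)) := by
  have h1 : adj σ Fin.revPerm (g : Matrix (Fin n) (Fin n) F) * (g : Matrix (Fin n) (Fin n) F) = 1 := hg
  have h2 : (g : Matrix (Fin n) (Fin n) F) * ((g⁻¹ : GL (Fin n) F) : Matrix (Fin n) (Fin n) F) = 1 := by
    rw [← Units.val_mul, mul_inv_cancel, Units.val_one]
  have h3 : adj σ Fin.revPerm (g : Matrix (Fin n) (Fin n) F) =
      ((g⁻¹ : GL (Fin n) F) : Matrix (Fin n) (Fin n) F) := by
    rw [← Matrix.mul_one (adj σ Fin.revPerm (g : Matrix (Fin n) (Fin n) F)), ← h2, ← Matrix.mul_assoc, h1,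
      Matrix.one_mul]
  rw [← h3]
  rfl

end Supports

section Monomial

variable {n : ℕ} {F : Type} [Field F]

/-- `g` is monomial with the permutation `π` -/
def IsMo (g : GL (Fin n) F) (π : Equiv.Perm (Fin n)) : Prop :=
  ∀ i j, i ≠ π j → (g : Matrix (Fin n) (Fin n) F) i j = 0

theorem IsMo.ne {g : GL (Fin n) F} {π : Equiv.Perm (Fin n)} (h : IsMo g π) (j : Fin n) :
    (g : Matrix (Fin n) (Fin n) F) (π j) j ≠ 0 := by
  intro h0
  have h1 : ∀ i, (g : Matrix (Fin n) (Fin n) F) i j = 0 := by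
    intro i
    by_cases hi : i = π j
    · rw [hi, h0]
    · exact h i j hi
  have h2 : (((g⁻¹ : GL (Fin n) F) : Matrix (Fin n) (Fin n) F) * (g : Matrix (Fin n) (Fin n) F)) j j = 1 := by
    rw [← Units.val_mul, inv_mul_cancel, Units.val_one, Matrix.one_apply_eq]
  rw [Matrix.mul_apply, Finset.sum_eq_zero fun k _ => by rw [h1 k, mul_zero]] at h2
  exact zero_ne_one h2

theorem IsMo.uniq {g : GL (Fin n) F} {π ρ : Equiv.Perm (Fin n)} (h : IsMo g π) (h' : IsMo g ρ) : π = ρ := by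
  ext1 j
  by_contra hne
  exact h.ne j (h' _ _ hne)

theorem IsMo.mul {g h : GL (Fin n) F} {π ρ : Equiv.Perm (Fin n)} (hg : IsMo g π) (hh : IsMo h ρ) :
    IsMo (g * h) (π * ρ) := by
  intro i j hij
  rw [Units.val_mul, Matrix.mul_apply]
  refine Finset.sum_eq_zero fun k _ => ?_
  by_cases hk : k = ρ j
  · rw [hg i k (by rw [hk]; exact hij), zero_mul]
  · rw [hh k j hk, mul_zero]

theorem IsMo.mul_apply {g h : GL (Fin n) F} {π : Equiv.Perm (Fin n)} (hg : IsMo g π) (i j : Fin n) :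
    ((g * h : GL (Fin n) F) : Matrix (Fin n) (Fin n) F) (π i) j =
      (g : Matrix (Fin n) (Fin n) F) (π i) i * (h : Matrix (Fin n) (Fin n) F) i j := by
  rw [Units.val_mul, Matrix.mul_apply, Finset.sum_eq_single i]
  · intro k _ hk
    rw [hg (π i) k (fun h' => hk (π.injective h').symm), zero_mul]
  · intro h'
    exact absurd (Finset.mem_univ _) h'

theorem IsMo.apply_mul {g h : GL (Fin n) F} {π : Equiv.Perm (Fin n)} (hg : IsMo g π) (i j : Fin n) :
    ((h * g : GL (Fin n) F) : Matrix (Fin n) (Fin n) F) i j =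
      (h : Matrix (Fin n) (Fin n) F) i (π j) * (g : Matrix (Fin n) (Fin n) F) (π j) j := by
  rw [Units.val_mul, Matrix.mul_apply, Finset.sum_eq_single (π j)]
  · intro k _ hk
    rw [hg k j hk, mul_zero]
  · intro h'
    exact absurd (Finset.mem_univ _) h'

theorem IsMo.inv_apply {g : GL (Fin n) F} {π : Equiv.Perm (Fin n)} (hg : IsMo g π) (i j : Fin n) :
    ((g⁻¹ : GL (Fin n) F) : Matrix (Fin n) (Fin n) F) i j =
      if j = π i then ((g : Matrix (Fin n) (Fin n) F) j i)⁻¹ else 0 := by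
  have h1 := hg.mul_apply (h := g⁻¹) i j
  rw [mul_inv_cancel, Units.val_one, Matrix.one_apply] at h1
  split_ifs with h
  · subst h
    rw [if_pos rfl] at h1
    exact eq_inv_of_mul_eq_one_right h1.symm
  · rw [if_neg (fun h' => h h'.symm)] at h1
    rcases mul_eq_zero.1 h1.symm with h2 | h2
    · exact absurd h2 (hg.ne i)
    · exact h2

theorem IsMo.inv {g : GL (Fin n) F} {π : Equiv.Perm (Fin n)} (hg : IsMo g π) : IsMo g⁻¹ π⁻¹ := by
  intro i j hij
  rw [hg.inv_apply, if_neg]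
  intro h
  apply hij
  rw [h, pinv]

theorem IsMo.one : IsMo (1 : GL (Fin n) F) 1 := by
  intro i j hij
  have h : i ≠ j := hij
  rw [Units.val_one, Matrix.one_apply_ne h]

/-- conjugation by a monomial matrix -/
theorem IsMo.conj {g h : GL (Fin n) F} {π : Equiv.Perm (Fin n)} (hg : IsMo g π) (i j : Fin n) :
    ((g * h * g⁻¹ : GL (Fin n) F) : Matrix (Fin n) (Fin n) F) (π i) (π j) =
      (g : Matrix (Fin n) (Fin n) F) (π i) i * (h : Matrix (Fin n) (Fin n) F) i j *
        ((g : Matrix (Fin n) (Fin n) F) (π j) j)⁻¹ := by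
  have h1 := hg.inv.apply_mul (h := g * h) (π i) (π j)
  rw [pinv, hg.mul_apply, hg.inv_apply, if_pos rfl] at h1
  exact h1

/-- the monomial group -/
def MoN (σ : F ≃+* F) : Subgroup (GL (Fin n) F) where
  carrier := {g | g ∈ UG σ Fin.revPerm ∧ ∃ π, IsMo g π}
  mul_mem' := by
    rintro a b ⟨ha, π, hπ⟩ ⟨hb, ρ, hρ⟩
    exact ⟨Subgroup.mul_mem _ ha hb, _, hπ.mul hρ⟩
  one_mem' := ⟨Subgroup.one_mem _, _, IsMo.one⟩
  inv_mem' := by
    rintro a ⟨ha, π, hπ⟩
    exact ⟨Subgroup.inv_mem _ ha, _, hπ.inv⟩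

theorem mem_MoN {σ : F ≃+* F} {g : GL (Fin n) F} :
    g ∈ MoN σ ↔ g ∈ UG σ Fin.revPerm ∧ ∃ π, IsMo g π := Iff.rfl

/-- the permutation of a monomial matrix -/
def pm (g : GL (Fin n) F) : Equiv.Perm (Fin n) := if h : ∃ π, IsMo g π then h.choose else 1

theorem pm_eq {g : GL (Fin n) F} {π : Equiv.Perm (Fin n)} (h : IsMo g π) : pm g = π := by
  have h' : ∃ π, IsMo g π := ⟨π, h⟩
  rw [pm, dif_pos h']
  exact h'.choose_spec.uniq h

theorem pm_spec {σ : F ≃+* F} {g : GL (Fin n) F} (h : g ∈ MoN σ) : IsMo g (pm g) := by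
  obtain ⟨_, π, hπ⟩ := h
  rw [pm_eq hπ]
  exact hπ

theorem pm_one : pm (1 : GL (Fin n) F) = 1 := pm_eq IsMo.one

theorem pm_mul {σ : F ≃+* F} {g h : GL (Fin n) F} (hg : g ∈ MoN σ) (hh : h ∈ MoN σ) :
    pm (g * h) = pm g * pm h := pm_eq ((pm_spec hg).mul (pm_spec hh))

theorem pm_inv {σ : F ≃+* F} {g : GL (Fin n) F} (hg : g ∈ MoN σ) : pm g⁻¹ = (pm g)⁻¹ := pm_eq (pm_spec hg).inv

theorem pm_rev {σ : F ≃+* F} {g : GL (Fin n) F} (hg : g ∈ MoN σ) (i : Fin n) :
    pm g (Fin.rev i) = Fin.rev (pm g i) := by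
  have h1 := inv_apply_UG hg.1 i (pm g i)
  rw [(pm_spec hg).inv_apply, if_pos rfl] at h1
  by_contra hne
  rw [pm_spec hg _ _ (fun h => hne h.symm), map_zero, inv_eq_zero] at h1
  exact (pm_spec hg).ne i h1

/-- the diagonal entries of the monomial elements of `UG` -/
theorem entry_rev {σ : F ≃+* F} {g : GL (Fin n) F} (hg : g ∈ MoN σ) (i : Fin n) :
    (g : Matrix (Fin n) (Fin n) F) (pm g i) i *
      σ ((g : Matrix (Fin n) (Fin n) F) (pm g (Fin.rev i)) (Fin.rev i)) = 1 := by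
  have h1 := inv_apply_UG hg.1 i (pm g i)
  rw [(pm_spec hg).inv_apply, if_pos rfl, ← pm_rev hg] at h1
  rw [← h1, mul_inv_cancel₀ ((pm_spec hg).ne i)]

end Monomial

section Action

variable {n : ℕ} {F : Type} [Field F]

/-- the action of a permutation which commutes with `rev` -/
def acL (π : Equiv.Perm (Fin n)) (h : ∀ i, π (Fin.rev i) = Fin.rev (π i)) : En n ≃ₗᵢ[ℝ] En n where
  toFun w := ofc (fun i => co w (π⁻¹ i)) (by
    intro i
    have h1 : π⁻¹ (Fin.rev i) = Fin.rev (π⁻¹ i) := by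
      apply π.injective
      rw [h, pinv', pinv']
    rw [h1, co_rev])
  invFun w := ofc (fun i => co w (π i)) (by
    intro i
    rw [h, co_rev])
  left_inv w := co_ext fun i => by
    show co w (π⁻¹ (π i)) = co w i
    rw [pinv]
  right_inv w := co_ext fun i => by
    show co w (π (π⁻¹ i)) = co w i
    rw [pinv']
  map_add' x y := rfl
  map_smul' r x := rfl
  norm_map' w := by
    have h1 : ∀ v : En n, ‖v‖ ^ 2 = ∑ i, co v i * co v i := by
      intro v
      rw [← inner_co, real_inner_self_eq_norm_sq]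
    have h2 : ∀ a b : ℝ, 0 ≤ a → 0 ≤ b → a ^ 2 = b ^ 2 → a = b := by
      intro a b ha hb h
      exact (sq_eq_sq₀ ha hb).1 h
    refine h2 _ _ (norm_nonneg _) (norm_nonneg _) ?_
    rw [h1, h1]
    exact Equiv.sum_comp π⁻¹ (fun i => co w i * co w i)

theorem co_acL (π : Equiv.Perm (Fin n)) (h : ∀ i, π (Fin.rev i) = Fin.rev (π i)) (w : En n) (i : Fin n) :
    co (acL π h w) i = co w (π⁻¹ i) := rfl

/-- the action of a monomial matrix -/
def acG (g : GL (Fin n) F) : En n ≃ₗᵢ[ℝ] En n :=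
  if h : ∀ i, pm g (Fin.rev i) = Fin.rev (pm g i) then acL (pm g) h else 1

theorem co_acG {σ : F ≃+* F} {g : GL (Fin n) F} (hg : g ∈ MoN σ) (w : En n) (i : Fin n) :
    co (acG g w) (pm g i) = co w i := by
  rw [acG, dif_pos (fun i => pm_rev hg i), co_acL, pinv]

theorem co_acG' {σ : F ≃+* F} {g : GL (Fin n) F} (hg : g ∈ MoN σ) (w : En n) (i : Fin n) :
    co (acG g w) i = co w ((pm g)⁻¹ i) := by
  rw [acG, dif_pos (fun i => pm_rev hg i), co_acL]

theorem acG_one (σ : F ≃+* F) : acG (1 : GL (Fin n) F) = 1 := by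
  ext1 w
  apply co_ext
  intro i
  have h := co_acG' (σ := σ) (Subgroup.one_mem (MoN σ)) w i
  rw [pm_one] at h
  exact h

theorem acG_mul {σ : F ≃+* F} {g h : GL (Fin n) F} (hg : g ∈ MoN σ) (hh : h ∈ MoN σ) :
    acG (g * h) = acG g * acG h := by
  ext1 w
  apply co_ext
  intro i
  show _ = co (acG g (acG h w)) i
  rw [co_acG' (Subgroup.mul_mem _ hg hh), co_acG' hg, co_acG' hh, pm_mul hg hh, _root_.mul_inv_rev]
  rfl

theorem acG_rt {σ : F ≃+* F} {g : GL (Fin n) F} (hg : g ∈ MoN σ) (i j : Fin n) :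
    acG g (rt i j) = rt (pm g i) (pm g j) := by
  apply ext_inner_right ℝ
  intro w
  obtain ⟨v, rfl⟩ := (acG g).surjective w
  rw [LinearIsometryEquiv.inner_map_map, inner_rt, inner_rt, co_acG hg, co_acG hg]

end Action

end

end LieP.GI
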