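import Pool.Agent.LieP.I01

/-!
# MP_6c3636_al, section 15: definitions, part 2 (helper89)

`theta σ g = (g*)⁻¹`; `en g r s` entries with indices in `ℕ`; `Uk σ k` the filtration of the unitriangular group;
`IsRe`, `re`, `reN` root elements; `PP σ y` parabolic subgroups, `lev y g` the Levi part; `rv y` the reversal of the levels of `y`,
`ty y` the antiautomorphism; `l0` the standard character; `Hyp σ n` the hypotheses of section 15.
-/

namespace LieP.GI

noncomputable section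

open Classical Matrix

variable {n : ℕ} {F : Type} [Field F]

/-- the hypotheses on `σ` and `n` -/
def Hyp (σ : F ≃+* F) (n : ℕ) : Prop :=
  (∀ x, σ (σ x) = x) ∧ ((∀ x, σ x = x) → Even n ∧ 2 < Nat.card F)

/-- `y ≤ z_0` -/
theorem le_z0 {y : En n} :
    (∀ a ∈ Rt n, 0 < inner ℝ a y → 0 < inner ℝ a (z0 n)) ↔ Antitone (co y) := by
  rw [forall_Rt]
  constructor
  · intro h i j hij
    by_contra hlt
    have hne : j ≠ i := by
      rintro rfl
      exact hlt le_rfl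
    have h1 := h j i hne
    rw [pos_rt, pos_rt, z0_lt] at h1
    exact absurd (h1 (lt_of_not_ge hlt)) (not_lt.2 hij)
  · intro h i j _ h1
    rw [pos_rt] at h1
    rw [pos_rt, z0_lt]
    by_contra h2
    exact absurd (h (not_lt.1 h2)) (not_le.2 h1)

/-- `z_0` is generic -/
theorem gn_z0 : ∀ a ∈ Rt n, inner ℝ a (z0 n) ≠ 0 := by
  rw [forall_Rt]
  intro i j hij h
  rw [zero_rt] at h
  rcases lt_or_gt_of_ne hij with h1 | h1
  · exact absurd h.symm (z0_lt.2 h1).ne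
  · exact absurd h (z0_lt.2 h1).ne

section Theta

/-- the automorphism `g ↦ (g*)⁻¹` -/
def theta (σ : F ≃+* F) (g : GL (Fin n) F) : GL (Fin n) F where
  val := adj σ Fin.revPerm ((g⁻¹ : GL (Fin n) F) : Matrix (Fin n) (Fin n) F)
  inv := adj σ Fin.revPerm (g : Matrix (Fin n) (Fin n) F)
  val_inv := by rw [← adj_mul, ← Units.val_mul, mul_inv_cancel, Units.val_one, adj_one]
  inv_val := by rw [← adj_mul, ← Units.val_mul, inv_mul_cancel, Units.val_one, adj_one]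

theorem theta_apply (σ : F ≃+* F) (g : GL (Fin n) F) (i j : Fin n) :
    (theta σ g : Matrix (Fin n) (Fin n) F) i j =
      σ (((g⁻¹ : GL (Fin n) F) : Matrix (Fin n) (Fin n) F) (Fin.rev j) (Fin.rev i)) := rfl

theorem theta_inv_apply (σ : F ≃+* F) (g : GL (Fin n) F) (i j : Fin n) :
    (((theta σ g)⁻¹ : GL (Fin n) F) : Matrix (Fin n) (Fin n) F) i j =
      σ ((g : Matrix (Fin n) (Fin n) F) (Fin.rev j) (Fin.rev i)) := rfl

theorem theta_mul (σ : F ≃+* F) (g h : GL (Fin n) F) : theta σ (g * h) = theta σ g * theta σ h := by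
  apply Units.ext
  show adj σ Fin.revPerm (((g * h)⁻¹ : GL (Fin n) F) : Matrix (Fin n) (Fin n) F) = _
  rw [_root_.mul_inv_rev, Units.val_mul, adj_mul]
  rfl

theorem theta_one (σ : F ≃+* F) : theta σ (1 : GL (Fin n) F) = 1 := by
  have h := theta_mul σ (1 : GL (Fin n) F) 1
  rw [mul_one] at h
  exact (mul_eq_left (a := theta σ (1 : GL (Fin n) F))).1 h.symm

theorem theta_inv (σ : F ≃+* F) (g : GL (Fin n) F) : theta σ g⁻¹ = (theta σ g)⁻¹ := by
  rw [eq_inv_iff_mul_eq_one, ← theta_mul, inv_mul_cancel, theta_one]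

theorem theta_eq {σ : F ≃+* F} {g : GL (Fin n) F} : theta σ g = g ↔ g ∈ UG σ Fin.revPerm := by
  constructor
  · intro h
    show adj σ Fin.revPerm (g : Matrix (Fin n) (Fin n) F) * (g : Matrix (Fin n) (Fin n) F) = 1
    have h1 : (g : Matrix (Fin n) (Fin n) F) =
        adj σ Fin.revPerm ((g⁻¹ : GL (Fin n) F) : Matrix (Fin n) (Fin n) F) := by
      conv_lhs => rw [← h]
      rfl
    have h2 : adj σ Fin.revPerm (g : Matrix (Fin n) (Fin n) F) * (g : Matrix (Fin n) (Fin n) F) =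
        adj σ Fin.revPerm (g : Matrix (Fin n) (Fin n) F) *
          adj σ Fin.revPerm ((g⁻¹ : GL (Fin n) F) : Matrix (Fin n) (Fin n) F) :=
      congrArg (fun A => adj σ Fin.revPerm (g : Matrix (Fin n) (Fin n) F) * A) h1
    rw [h2, ← adj_mul, ← Units.val_mul, inv_mul_cancel, Units.val_one, adj_one]
  · intro h
    apply inv_injective
    apply Units.ext
    ext i j
    rw [theta_inv_apply, inv_apply_UG h]

theorem theta_GS {σ : F ≃+* F} {S T : Fin n → Fin n → Prop} {hS : ∀ i j k, S i j → S j k → S i k}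
    {hT : ∀ i j k, T i j → T j k → T i k} (hST : ∀ i j, S (Fin.rev j) (Fin.rev i) → T i j)
    {g : GL (Fin n) F} (hg : g ∈ GS F S hS) : theta σ g ∈ GS F T hT := by
  have h1 : ∀ i j : Fin n, σ ((1 : Matrix (Fin n) (Fin n) F) (Fin.rev j) (Fin.rev i)) =
      (1 : Matrix (Fin n) (Fin n) F) i j := by
    intro i j
    by_cases h : i = j
    · rw [h, Matrix.one_apply_eq, Matrix.one_apply_eq, map_one]
    · rw [Matrix.one_apply_ne h, Matrix.one_apply_ne (fun h' => h (Fin.rev_injective h').symm), map_zero]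
  refine ⟨fun i j hij => ?_, fun i j hij => ?_⟩
  · rw [theta_apply, hg.2 _ _ (fun h => hij (hST i j h)), h1]
  · rw [theta_inv_apply, hg.1 _ _ (fun h => hij (hST i j h)), h1]

theorem theta_IsMo {σ : F ≃+* F} {g : GL (Fin n) F} {π : Equiv.Perm (Fin n)} (hg : IsMo g π) :
    IsMo (theta σ g) (Fin.revPerm * π * Fin.revPerm) := by
  intro i j hij
  rw [theta_apply, hg.inv_apply, if_neg, map_zero]
  intro h
  apply hij
  show i = Fin.rev (π (Fin.rev j))
  rw [← h, Fin.rev_rev]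

end Theta

section Entries

/-- entries with indices in `ℕ` -/
def en (g : GL (Fin n) F) (r s : ℕ) : F :=
  if h : r < n ∧ s < n then (g : Matrix (Fin n) (Fin n) F) ⟨r, h.1⟩ ⟨s, h.2⟩ else 0

theorem en_eq (g : GL (Fin n) F) {r s : ℕ} (hr : r < n) (hs : s < n) :
    en g r s = (g : Matrix (Fin n) (Fin n) F) ⟨r, hr⟩ ⟨s, hs⟩ := by
  rw [en, dif_pos ⟨hr, hs⟩]

theorem en_coe (g : GL (Fin n) F) (i j : Fin n) :
    en g (i : ℕ) (j : ℕ) = (g : Matrix (Fin n) (Fin n) F) i j := en_eq g i.2 j.2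

/-- the filtration of the unitriangular group -/
def Uk (n : ℕ) (σ : F ≃+* F) (k : ℕ) : Subgroup (GL (Fin n) F) :=
  UG σ Fin.revPerm ⊓ GS F (fun i j => (i : ℕ) + k ≤ j ∧ i < j)
    (fun _ _ _ h h' => ⟨by have := Fin.lt_def.1 h'.2; omega, h.2.trans h'.2⟩)

theorem mem_Uk [Finite F] {σ : F ≃+* F} {k : ℕ} {g : GL (Fin n) F} :
    g ∈ Uk n σ k ↔ g ∈ UG σ Fin.revPerm ∧
      ∀ i j : Fin n, ¬ ((i : ℕ) + k ≤ j ∧ i < j) →
        (g : Matrix (Fin n) (Fin n) F) i j = (1 : Matrix (Fin n) (Fin n) F) i j := by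
  unfold Uk
  rw [Subgroup.mem_inf, mem_GS]
  exact Iff.rfl

theorem Uk_one [Finite F] (σ : F ≃+* F) : Uk n σ 1 = UU σ (co (z0 n)) := by
  ext g
  rw [mem_Uk, mem_UU]
  have h : ∀ i j : Fin n, ((i : ℕ) + 1 ≤ j ∧ i < j) ↔ co (z0 n) j < co (z0 n) i := by
    intro i j
    rw [z0_lt]
    constructor
    · exact fun h => h.2
    · exact fun h => ⟨Fin.lt_def.1 h, h⟩
  constructor
  · rintro ⟨h1, h2⟩
    exact ⟨h1, fun i j hij => h2 i j (fun h' => hij ((h i j).1 h'))⟩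
  · rintro ⟨h1, h2⟩
    exact ⟨h1, fun i j hij => h2 i j (fun h' => hij ((h i j).2 h'))⟩

theorem Uk_anti [Finite F] (σ : F ≃+* F) {k l : ℕ} (h : k ≤ l) : Uk n σ l ≤ Uk n σ k := by
  intro g hg
  rw [mem_Uk] at hg ⊢
  exact ⟨hg.1, fun i j hij => hg.2 i j (fun h' => hij ⟨by omega, h'.2⟩)⟩

end Entries

section Root

/-- `g` is a root element for the position `(i, j)` with the entry `s` -/
structure IsRe (σ : F ≃+* F) (i j : Fin n) (s : F) (g : GL (Fin n) F) : Prop where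
  mem : g ∈ UG σ Fin.revPerm
  e1 : (g : Matrix (Fin n) (Fin n) F) i j = s
  e2 : (g : Matrix (Fin n) (Fin n) F) (Fin.rev j) (Fin.rev i) = σ s
  e3 : ∀ p q : Fin n, ¬ (p = i ∧ q = j) → ¬ (p = Fin.rev j ∧ q = Fin.rev i) →
    ¬ (j = Fin.rev j ∧ p = i ∧ q = Fin.rev i) → ¬ (i = Fin.rev i ∧ p = Fin.rev j ∧ q = j) →
    (g : Matrix (Fin n) (Fin n) F) p q = (1 : Matrix (Fin n) (Fin n) F) p q

/-- the root element -/
def re (σ : F ≃+* F) (i j : Fin n) (s : F) : GL (Fin n) F := if h : ∃ g, IsRe σ i j s g then h.choose else 1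

/-- the simple root element -/
def reN (n : ℕ) (σ : F ≃+* F) (r : ℕ) (s : F) : GL (Fin n) F :=
  if h : r + 1 < n then re σ ⟨r, Nat.lt_of_succ_lt h⟩ ⟨r + 1, h⟩ s else 1

/-- `s` is allowed at the simple root `r` -/
def Al0 (n : ℕ) (σ : F ≃+* F) (r : ℕ) (s : F) : Prop := 2 * r + 2 = n → σ s = s

/-- the character `l` is trivial on the simple root subgroup `r` -/
def Tv (n : ℕ) (σ : F ≃+* F) (l : GL (Fin n) F → ℤˣ) (r : ℕ) : Prop :=
  ∀ s, Al0 n σ r s → l (reN n σ r s) = 1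

/-- coordinates with indices in `ℕ` -/
def cn (y : Fin n → ℝ) (r : ℕ) : ℝ := if h : r < n then y ⟨r, h⟩ else 0

theorem cn_eq (y : Fin n → ℝ) {r : ℕ} (h : r < n) : cn y r = y ⟨r, h⟩ := by rw [cn, dif_pos h]

/-- the simple roots at `z_0` -/
def Dl0 (n : ℕ) : Finset (En n) :=
  ((Finset.range n).filter fun r => 2 * r + 2 ≤ n).image
    fun r => if h : r + 1 < n then rt ⟨r, Nat.lt_of_succ_lt h⟩ ⟨r + 1, h⟩ else 0

theorem mem_Dl0 {a : En n} : a ∈ Dl0 n ↔ ∃ (r : ℕ) (_ : 2 * r + 2 ≤ n) (h : r + 1 < n),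
    a = rt ⟨r, Nat.lt_of_succ_lt h⟩ ⟨r + 1, h⟩ := by
  unfold Dl0
  rw [Finset.mem_image]
  constructor
  · rintro ⟨r, hr, rfl⟩
    rw [Finset.mem_filter, Finset.mem_range] at hr
    have h : r + 1 < n := by omega
    exact ⟨r, hr.2, h, by rw [dif_pos h]⟩
  · rintro ⟨r, hr, h, rfl⟩
    exact ⟨r, Finset.mem_filter.2 ⟨Finset.mem_range.2 (by omega), hr⟩, by rw [dif_pos h]⟩

end Root

section Levi

/-- the parabolic subgroup -/
def PP (σ : F ≃+* F) (y : Fin n → ℝ) : Subgroup (GL (Fin n) F) :=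
  UG σ Fin.revPerm ⊓ GS F (fun i j => y j ≤ y i) (fun _ _ _ h h' => h'.trans h)

theorem mem_PP [Finite F] {σ : F ≃+* F} {y : Fin n → ℝ} {g : GL (Fin n) F} :
    g ∈ PP σ y ↔ g ∈ UG σ Fin.revPerm ∧ ∀ i j, y i < y j → (g : Matrix (Fin n) (Fin n) F) i j = 0 := by
  unfold PP
  rw [Subgroup.mem_inf, mem_GS]
  constructor
  · rintro ⟨h1, h2⟩
    refine ⟨h1, fun i j hij => ?_⟩
    rw [h2 i j (not_le.2 hij), Matrix.one_apply_ne (fun h' => hij.ne (congrArg y h'))]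
  · rintro ⟨h1, h2⟩
    refine ⟨h1, fun i j hij => ?_⟩
    rw [h2 i j (not_le.1 hij), Matrix.one_apply_ne (fun h' => (not_le.1 hij).ne (congrArg y h'))]

/-- the block diagonal part -/
def bp (y : Fin n → ℝ) (A : Matrix (Fin n) (Fin n) F) : Matrix (Fin n) (Fin n) F :=
  fun i j => if y i = y j then A i j else 0

/-- the Levi part -/
def lev (y : Fin n → ℝ) (g : GL (Fin n) F) : GL (Fin n) F :=
  if h : bp y (g : Matrix (Fin n) (Fin n) F) * bp y ((g⁻¹ : GL (Fin n) F) : Matrix (Fin n) (Fin n) F) = 1 ∧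
      bp y ((g⁻¹ : GL (Fin n) F) : Matrix (Fin n) (Fin n) F) * bp y (g : Matrix (Fin n) (Fin n) F) = 1 then
    ⟨bp y (g : Matrix (Fin n) (Fin n) F), bp y ((g⁻¹ : GL (Fin n) F) : Matrix (Fin n) (Fin n) F), h.1, h.2⟩
  else 1

/-- the reversal of the levels of the antitone function `y` -/
def rv (y : Fin n → ℝ) (i : Fin n) : Fin n :=
  if h : (Finset.univ.filter fun j => y i < y j).card + (Finset.univ.filter fun j => y i ≤ y j).card - 1 - (i : ℕ) < n then
    ⟨_, h⟩ else i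

/-- the antiautomorphism on matrices -/
def tm (y : Fin n → ℝ) (A : Matrix (Fin n) (Fin n) F) : Matrix (Fin n) (Fin n) F :=
  fun i j => A (rv y j) (rv y i)

/-- the antiautomorphism on the group -/
def ty (y : Fin n → ℝ) (g : GL (Fin n) F) : GL (Fin n) F :=
  if h : tm y (g : Matrix (Fin n) (Fin n) F) * tm y ((g⁻¹ : GL (Fin n) F) : Matrix (Fin n) (Fin n) F) = 1 ∧
      tm y ((g⁻¹ : GL (Fin n) F) : Matrix (Fin n) (Fin n) F) * tm y (g : Matrix (Fin n) (Fin n) F) = 1 then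
    ⟨tm y (g : Matrix (Fin n) (Fin n) F), tm y ((g⁻¹ : GL (Fin n) F) : Matrix (Fin n) (Fin n) F), h.1, h.2⟩
  else 1

/-- the standard character -/
def l0 (y : Fin n → ℝ) (ψ ψ' : F → ℤˣ) (g : GL (Fin n) F) : ℤˣ :=
  ∏ r ∈ (Finset.range n).filter fun r => 2 * r + 2 ≤ n ∧ cn y r = cn y (r + 1),
    if 2 * r + 2 = n then ψ' (en g r (r + 1)) else ψ (en g r (r + 1))

/-- the pair of characters of `F` used in the standard character -/
structure PsPair (σ : F ≃+* F) (ψ ψ' : F → ℤˣ) : Prop where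
  add : ∀ x y, ψ (x + y) = ψ x * ψ y
  add' : ∀ x y, ψ' (x + y) = ψ' x * ψ' y
  inv : ∀ x, ψ (σ x) = ψ x
  nt : ∀ c, (∀ x, ψ (c * x) = ψ x) → c = 1
  nt' : ∀ c, σ c = c → (∀ x, σ x = x → ψ' (c * x) = ψ' x) → c = 1

end Levi

end

end LieP.GI
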