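import Pool.Agent.LieP.Defs

/-!
# MP_6c3636_al, section 15: systems given at one generic point (helper89)

`PS G E`: all properties of `LieSys G E`, but (S9), (S13), (S14), (W0)-(W4) only at one generic point `z0`. Theorem (module
I09): it can be completed to a `LieSys`, with `Dl z := (D0).image (ac (nz z))`.
-/

namespace LieP.GI

noncomputable section

open Classical

/-- systems whose properties (S9), (S13), (S14), (W0)-(W4) are given at one generic point -/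
structure PS (G E : Type) [Group G] [NormedAddCommGroup E] [InnerProductSpace ℝ E] where
  /-- the group -/
  H : Subgroup G
  /-- the roots -/
  R : Finset E
  /-- the monomial subgroup -/
  N : Subgroup G
  /-- the action of `N` -/
  ac : G → E ≃ₗᵢ[ℝ] E
  /-- the unipotent radicals -/
  U : E → Subgroup G
  /-- the Levi subgroups -/
  L : E → Subgroup G
  /-- the generic point -/
  z0 : E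
  /-- the simple roots at `z0` -/
  D0 : Finset E
  gen0 : ∀ a ∈ R, inner ℝ a z0 ≠ 0
  neg : ∀ a ∈ R, -a ∈ R
  ne : ∀ a ∈ R, a ≠ 0
  NH : N ≤ H
  UH : ∀ x, U x ≤ H
  LH : ∀ x, L x ≤ H
  ac_one : ac 1 = 1
  ac_mul : ∀ m ∈ N, ∀ n ∈ N, ac (m * n) = ac m * ac n
  s1 : ∀ x x' y z, (∀ a ∈ R, inner ℝ a z = 0 → 0 < inner ℝ a x → 0 < inner ℝ a x' → 0 < inner ℝ a y) →
    ∀ g ∈ U x, g ∈ U x' → g ∈ L z → g ∈ U y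
  s2 : ∀ x y w, (∀ a ∈ R, inner ℝ a x = 0 → inner ℝ a y = 0 → inner ℝ a w = 0) →
    ∀ g ∈ L x, g ∈ L y → g ∈ L w
  s3 : L 0 = H
  s4 : ∀ x, ∀ l ∈ L x, ∀ u ∈ U x, l * u * l⁻¹ ∈ U x
  s4' : ∀ x, ∀ l ∈ L x, ∀ v ∈ U (-x), l * v ∈ U x → l * v = 1
  s5U : ∀ x y, ∀ l ∈ L x, ∀ u ∈ U x, l * u ∈ U y → l ∈ U y
  s5L : ∀ x y, ∀ l ∈ L x, ∀ u ∈ U x, l * u ∈ L y → l ∈ L y
  s5P : ∀ x y, ∀ l ∈ L x, ∀ u ∈ U x, (∃ m ∈ L y, ∃ v ∈ U y, l * u = m * v) →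
    ∃ m ∈ L y, ∃ v ∈ U y, l = m * v
  s6 : ∀ x y z, ∀ u ∈ U y ⊓ L z, ∃ a ∈ U y ⊓ L z, ∃ b ∈ U y ⊓ L z, ∃ c ∈ U y ⊓ L z,
    a ∈ U x ∧ b ∈ L x ∧ c ∈ U (-x) ∧ u = a * b * c
  s7U : ∀ n ∈ N, ∀ x, ∀ u ∈ U x, n * u * n⁻¹ ∈ U (ac n x)
  s7L : ∀ n ∈ N, ∀ x, ∀ u ∈ L x, n * u * n⁻¹ ∈ L (ac n x)
  s7R : ∀ n ∈ N, ∀ a ∈ R, ac n a ∈ R
  s8 : ∀ n ∈ N, ∀ x, (∃ v ∈ U (-x), ∃ l ∈ L x, ∃ u ∈ U x, n = v * l * u) → ac n x = x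
  s8' : ∀ n ∈ N, ∀ x, ac n x = x → n ∈ L x
  s10 : ∀ a ∈ R, ∃ g : G, g ≠ 1 ∧ ∀ x, (0 < inner ℝ a x → g ∈ U x) ∧ (inner ℝ a x = 0 → g ∈ L x)
  s11 : ∀ x, ∀ u ∈ U x, ∃ k : ℕ, u ^ (2 ^ k) = 1
  s11' : ∀ z, (∀ a ∈ R, inner ℝ a z ≠ 0) → Odd (Nat.card (L z))
  s12 : ∀ z z', (∀ a ∈ R, inner ℝ a z ≠ 0) → (∀ a ∈ R, inner ℝ a z' ≠ 0) →
    ∃ n ∈ N, ∀ a ∈ R, (0 < inner ℝ a (ac n z) ↔ 0 < inner ℝ a z')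
  b9 : ∀ g ∈ H, ∃ u ∈ U z0, ∃ n ∈ N, ∃ u' ∈ U z0, g = u * n * u'
  b13 : ∀ n ∈ N, ∀ y, (∀ a ∈ R, 0 < inner ℝ a y → 0 < inner ℝ a z0) →
    (∀ a ∈ R, 0 < inner ℝ a (ac n y) → 0 < inner ℝ a z0) → ac n y = y
  b14 : ∀ a ∈ D0, a ∈ R ∧ 0 < inner ℝ a z0
  b14' : ∀ J ⊆ D0, ∃ y, (∀ a ∈ J, inner ℝ a y = 0) ∧ ∀ a ∈ D0, a ∉ J → 0 < inner ℝ a y
  b14'' : ∀ a ∈ R, 0 < inner ℝ a z0 →
    ∃ c : E → ℝ, (∀ b ∈ D0, 0 ≤ c b) ∧ a = ∑ b ∈ D0, c b • b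
  bw0 : ∀ u ∈ U z0, u * u ∈ (⁅U z0, U z0⁆ : Subgroup G)
  bw1 : ∀ l : G → ℤˣ, Lin (U z0) l → ∀ y y',
    (∀ a ∈ R, 0 < inner ℝ a y → 0 < inner ℝ a z0) → (∀ a ∈ R, 0 < inner ℝ a y' → 0 < inner ℝ a z0) →
    (∀ u ∈ U y, l u = 1) → (∀ u ∈ U y', l u = 1) → ∀ u ∈ U (y + y'), l u = 1
  bw2 : ∀ l l' : G → ℤˣ, Lin (U z0) l → Lin (U z0) l' →
    (∀ y, (∀ a ∈ R, 0 < inner ℝ a y → 0 < inner ℝ a z0) →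
      ((∀ u ∈ U y, l u = 1) ↔ ∀ u ∈ U y, l' u = 1)) →
    ∃ s ∈ L z0, ∀ u ∈ U z0, l' u = l (s * u * s⁻¹)
  bw3 : ∀ l : G → ℤˣ, Lin (U z0) l → ∀ x y,
    (∀ u ∈ U z0, u ∈ U x → l u = 1) → (∀ a ∈ R, 0 < inner ℝ a y → 0 < inner ℝ a z0) →
    (∀ a ∈ D0, 0 < inner ℝ a y → 0 < inner ℝ a x) → ∀ u ∈ U y, l u = 1
  bw4 : ∀ y, (∀ a ∈ R, 0 < inner ℝ a y → 0 < inner ℝ a z0) →
    ∀ l : G → ℤˣ, Lin (U z0 ⊓ L y) l →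
    (∀ y', (∀ a ∈ R, 0 < inner ℝ a y' → 0 < inner ℝ a z0) → (∀ u ∈ U y', u ∈ L y → l u = 1) →
      ∀ a ∈ R, inner ℝ a y = 0 → inner ℝ a y' = 0) →
    ∀ [Finite G] (k : Type) [Field k] [CharZero k], ∀ a ∈ sb k (L y), ∀ b ∈ sb k (L y),
      el k (U z0 ⊓ L y) l * a * el k (U z0 ⊓ L y) l * b * el k (U z0 ⊓ L y) l =
        el k (U z0 ⊓ L y) l * b * el k (U z0 ⊓ L y) l * a * el k (U z0 ⊓ L y) l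

namespace PS

variable {G E : Type} [Group G] [NormedAddCommGroup E] [InnerProductSpace ℝ E] (P : PS G E)

/-- an element of `N` which maps `z0` into the facet of `z` -/
def nz (z : E) : G :=
  if h : ∃ n ∈ P.N, ∀ a ∈ P.R, (0 < inner ℝ a (P.ac n P.z0) ↔ 0 < inner ℝ a z) then h.choose else 1

theorem nz_spec (z : E) (hz : ∀ a ∈ P.R, inner ℝ a z ≠ 0) :
    P.nz z ∈ P.N ∧ ∀ a ∈ P.R, (0 < inner ℝ a (P.ac (P.nz z) P.z0) ↔ 0 < inner ℝ a z) := by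
  have h : ∃ n ∈ P.N, ∀ a ∈ P.R, (0 < inner ℝ a (P.ac n P.z0) ↔ 0 < inner ℝ a z) :=
    P.s12 P.z0 z P.gen0 hz
  rw [nz, dif_pos h]
  exact h.choose_spec

/-- the simple roots -/
def Dl (z : E) : Finset E := P.D0.image (P.ac (P.nz z))

end PS

end

end LieP.GI
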