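import Pool.Agent.LieP.I03

/-!
# MP_6c3636_al, section 15, module I04 (helper89)

Basic facts for the transport from `z0` to an arbitrary generic point (abstract; `P : PS G E`).
-/

namespace LieP.GI

noncomputable section

open Classical

variable {G E : Type} [Group G] [NormedAddCommGroup E] [InnerProductSpace ℝ E]

theorem I04_zero (P : PS G E) {x x' : E} (h : ∀ a ∈ P.R, (0 < inner ℝ a x ↔ 0 < inner ℝ a x')) :
    ∀ a ∈ P.R, inner ℝ a x = 0 → inner ℝ a x' = 0 := by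
  intro a ha h0
  have h1 := h a ha
  have h2 := h (-a) (P.neg a ha)
  rw [inner_neg_left, inner_neg_left, h0, neg_zero] at h2
  rw [h0] at h1
  have h3 : ¬ 0 < inner ℝ a x' := fun h' => lt_irrefl _ (h1.2 h')
  have h4 : ¬ 0 < -inner ℝ a x' := fun h' => lt_irrefl _ (h2.2 h')
  linarith [not_lt.1 h3, not_lt.1 h4]

theorem PS.L_sim (P : PS G E) {x x' : E} (h : ∀ a ∈ P.R, (0 < inner ℝ a x ↔ 0 < inner ℝ a x')) :
    P.L x = P.L x' := by
  apply le_antisymm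
  · intro g hg
    exact P.s2 x x x' (fun a ha h1 _ => I04_zero P h a ha h1) g hg hg
  · intro g hg
    exact P.s2 x' x' x (fun a ha h1 _ => I04_zero P (fun a ha => (h a ha).symm) a ha h1) g hg hg

theorem PS.U_sim (P : PS G E) {x x' : E} (h : ∀ a ∈ P.R, (0 < inner ℝ a x ↔ 0 < inner ℝ a x')) :
    P.U x = P.U x' := by
  have key : ∀ y y' : E, (∀ a ∈ P.R, (0 < inner ℝ a y ↔ 0 < inner ℝ a y')) → P.U y ≤ P.U y' := by
    intro y y' hy g hg
    refine P.s1 y y y' 0 (fun a ha _ h1 _ => (hy a ha).1 h1) g hg hg ?_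
    rw [P.s3]
    exact P.UH y hg
  exact le_antisymm (key _ _ h) (key _ _ fun a ha => (h a ha).symm)

theorem PS.ac_inv (P : PS G E) {n : G} (hn : n ∈ P.N) : P.ac n⁻¹ = (P.ac n)⁻¹ := by
  rw [eq_inv_iff_mul_eq_one, ← P.ac_mul _ (P.N.inv_mem hn) _ hn, inv_mul_cancel, P.ac_one]

theorem I04_ac (P : PS G E) {n : G} (hn : n ∈ P.N) (x : E) : P.ac n⁻¹ (P.ac n x) = x := by
  rw [P.ac_inv hn]
  exact (P.ac n).symm_apply_apply x

theorem I04_ac' (P : PS G E) {n : G} (hn : n ∈ P.N) (x : E) : P.ac n (P.ac n⁻¹ x) = x := by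
  rw [P.ac_inv hn]
  exact (P.ac n).apply_symm_apply x

theorem PS.U_conj (P : PS G E) {n : G} (hn : n ∈ P.N) {x : E} {u : G} :
    u ∈ P.U (P.ac n x) ↔ n⁻¹ * u * n ∈ P.U x := by
  constructor
  · intro h
    have h1 := P.s7U n⁻¹ (P.N.inv_mem hn) _ u h
    rw [I04_ac P hn, inv_inv] at h1
    exact h1
  · intro h
    have h1 := P.s7U n hn _ _ h
    rwa [show n * (n⁻¹ * u * n) * n⁻¹ = u by group] at h1

theorem PS.L_conj (P : PS G E) {n : G} (hn : n ∈ P.N) {x : E} {u : G} :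
    u ∈ P.L (P.ac n x) ↔ n⁻¹ * u * n ∈ P.L x := by
  constructor
  · intro h
    have h1 := P.s7L n⁻¹ (P.N.inv_mem hn) _ u h
    rw [I04_ac P hn, inv_inv] at h1
    exact h1
  · intro h
    have h1 := P.s7L n hn _ _ h
    rwa [show n * (n⁻¹ * u * n) * n⁻¹ = u by group] at h1

theorem PS.U_gen (P : PS G E) {z : E} (hz : ∀ a ∈ P.R, inner ℝ a z ≠ 0) {u : G} :
    u ∈ P.U z ↔ (P.nz z)⁻¹ * u * P.nz z ∈ P.U P.z0 := by
  obtain ⟨h1, h2⟩ := P.nz_spec z hz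
  rw [← P.U_sim h2, P.U_conj h1]

theorem PS.L_gen (P : PS G E) {z : E} (hz : ∀ a ∈ P.R, inner ℝ a z ≠ 0) {u : G} :
    u ∈ P.L z ↔ (P.nz z)⁻¹ * u * P.nz z ∈ P.L P.z0 := by
  obtain ⟨h1, h2⟩ := P.nz_spec z hz
  rw [← P.L_sim h2, P.L_conj h1]

theorem PS.pos_gen (P : PS G E) {n : G} (hn : n ∈ P.N) (a y : E) :
    inner ℝ ((P.ac n) a) y = inner ℝ a ((P.ac n⁻¹) y) := by
  rw [← LinearIsometryEquiv.inner_map_map (P.ac n⁻¹), I04_ac P hn]

theorem PS.le_gen (P : PS G E) {z : E} (hz : ∀ a ∈ P.R, inner ℝ a z ≠ 0) {y : E} :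
    (∀ a ∈ P.R, 0 < inner ℝ a y → 0 < inner ℝ a z) ↔
      ∀ a ∈ P.R, 0 < inner ℝ a (P.ac (P.nz z)⁻¹ y) → 0 < inner ℝ a P.z0 := by
  obtain ⟨h1, h2⟩ := P.nz_spec z hz
  constructor
  · intro h a ha h3
    rw [← P.pos_gen h1] at h3
    have h4 := (h2 _ (P.s7R _ h1 a ha)).2 (h _ (P.s7R _ h1 a ha) h3)
    rwa [LinearIsometryEquiv.inner_map_map] at h4
  · intro h a ha h3
    rw [← h2 a ha]
    have h4 := h _ (P.s7R _ (P.N.inv_mem h1) a ha)
    rw [LinearIsometryEquiv.inner_map_map] at h4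
    have h5 := h4 h3
    rw [P.pos_gen (P.N.inv_mem h1), inv_inv] at h5
    exact h5

end

end LieP.GI
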