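import Pool.Agent.LieP.I04

/-!
# MP_6c3636_al, section 15, module I05 (helper89)

Transport of (S9), (S13), (S14) from `z0` to generic points.
-/

namespace LieP.GI

noncomputable section

open Classical

variable {G E : Type} [Group G] [NormedAddCommGroup E] [InnerProductSpace ℝ E]

theorem PS.t9 (P : PS G E) : ∀ z z', (∀ a ∈ P.R, inner ℝ a z ≠ 0) → (∀ a ∈ P.R, inner ℝ a z' ≠ 0) → ∀ g ∈ P.H,
    ∃ u ∈ P.U z, ∃ l ∈ P.L z, ∃ n ∈ P.N, ∃ l' ∈ P.L z', ∃ u' ∈ P.U z', g = u * l * n * l' * u' := by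
  intro z z' hz hz' g hg
  have hm := (P.nz_spec z hz).1
  have hm' := (P.nz_spec z' hz').1
  obtain ⟨u, hu, n, hn, u', hu', h⟩ := P.b9 ((P.nz z)⁻¹ * g * P.nz z')
    (P.H.mul_mem (P.H.mul_mem (P.H.inv_mem (P.NH hm)) hg) (P.NH hm'))
  refine ⟨P.nz z * u * (P.nz z)⁻¹, ?_, 1, (P.L z).one_mem, P.nz z * n * (P.nz z')⁻¹,
    P.N.mul_mem (P.N.mul_mem hm hn) (P.N.inv_mem hm'), 1, (P.L z').one_mem, P.nz z' * u' * (P.nz z')⁻¹, ?_, ?_⟩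
  · rw [P.U_gen hz]
    rwa [show (P.nz z)⁻¹ * (P.nz z * u * (P.nz z)⁻¹) * P.nz z = u by group]
  · rw [P.U_gen hz']
    rwa [show (P.nz z')⁻¹ * (P.nz z' * u' * (P.nz z')⁻¹) * P.nz z' = u' by group]
  · have h1 : g = P.nz z * ((P.nz z)⁻¹ * g * P.nz z') * (P.nz z')⁻¹ := by group
    rw [h1, h]
    group

theorem PS.t13 (P : PS G E) : ∀ z, (∀ a ∈ P.R, inner ℝ a z ≠ 0) → ∀ n ∈ P.N, ∀ y,
    (∀ a ∈ P.R, 0 < inner ℝ a y → 0 < inner ℝ a z) →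
    (∀ a ∈ P.R, 0 < inner ℝ a (P.ac n y) → 0 < inner ℝ a z) → P.ac n y = y := by
  intro z hz n hn y hy hy'
  have hm := (P.nz_spec z hz).1
  have hmi := P.N.inv_mem hm
  rw [P.le_gen hz] at hy hy'
  have h1 : P.ac ((P.nz z)⁻¹ * n * P.nz z) (P.ac (P.nz z)⁻¹ y) = P.ac (P.nz z)⁻¹ (P.ac n y) := by
    rw [P.ac_mul _ (P.N.mul_mem hmi hn) _ hm, P.ac_mul _ hmi _ hn]
    show P.ac (P.nz z)⁻¹ (P.ac n (P.ac (P.nz z) (P.ac (P.nz z)⁻¹ y))) = _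
    rw [I04_ac' P hm]
  have h2 := P.b13 ((P.nz z)⁻¹ * n * P.nz z) (P.N.mul_mem (P.N.mul_mem hmi hn) hm) (P.ac (P.nz z)⁻¹ y) hy
    (by rw [h1]; exact hy')
  rw [h1] at h2
  exact (P.ac (P.nz z)⁻¹).injective h2

theorem I05_mem (P : PS G E) {z a : E} : a ∈ P.Dl z ↔ ∃ b ∈ P.D0, P.ac (P.nz z) b = a := by
  unfold PS.Dl
  rw [Finset.mem_image]

theorem PS.t14 (P : PS G E) : ∀ z, (∀ a ∈ P.R, inner ℝ a z ≠ 0) → ∀ a ∈ P.Dl z, a ∈ P.R ∧ 0 < inner ℝ a z := by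
  intro z hz a ha
  obtain ⟨h1, h2⟩ := P.nz_spec z hz
  obtain ⟨b, hb, rfl⟩ := (I05_mem P).1 ha
  obtain ⟨h3, h4⟩ := P.b14 b hb
  refine ⟨P.s7R _ h1 b h3, ?_⟩
  rw [← h2 _ (P.s7R _ h1 b h3), LinearIsometryEquiv.inner_map_map]
  exact h4

theorem PS.t14' (P : PS G E) : ∀ z, (∀ a ∈ P.R, inner ℝ a z ≠ 0) → ∀ J ⊆ P.Dl z, ∃ y, (∀ a ∈ J, inner ℝ a y = 0) ∧
    ∀ a ∈ P.Dl z, a ∉ J → 0 < inner ℝ a y := by
  intro z hz J hJ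
  obtain ⟨y, hy, hy'⟩ := P.b14' (P.D0.filter fun b => P.ac (P.nz z) b ∈ J) (Finset.filter_subset _ _)
  refine ⟨P.ac (P.nz z) y, fun a ha => ?_, fun a ha ha' => ?_⟩
  · obtain ⟨b, hb, rfl⟩ := (I05_mem P).1 (hJ ha)
    rw [LinearIsometryEquiv.inner_map_map]
    exact hy b (Finset.mem_filter.2 ⟨hb, ha⟩)
  · obtain ⟨b, hb, rfl⟩ := (I05_mem P).1 ha
    rw [LinearIsometryEquiv.inner_map_map]
    exact hy' b hb fun h => ha' (Finset.mem_filter.1 h).2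

theorem PS.t14'' (P : PS G E) : ∀ z, (∀ a ∈ P.R, inner ℝ a z ≠ 0) → ∀ a ∈ P.R, 0 < inner ℝ a z →
    ∃ c : E → ℝ, (∀ b ∈ P.Dl z, 0 ≤ c b) ∧ a = ∑ b ∈ P.Dl z, c b • b := by
  intro z hz a ha h
  obtain ⟨h1, h2⟩ := P.nz_spec z hz
  have hmi := P.N.inv_mem h1
  have h3 : 0 < inner ℝ (P.ac (P.nz z)⁻¹ a) P.z0 := by
    rw [P.pos_gen hmi, inv_inv, h2 a ha]
    exact h
  obtain ⟨c, hc, hs⟩ := P.b14'' (P.ac (P.nz z)⁻¹ a) (P.s7R _ hmi a ha) h3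
  refine ⟨fun b => c (P.ac (P.nz z)⁻¹ b), fun b hb => ?_, ?_⟩
  · obtain ⟨d, hd, rfl⟩ := (I05_mem P).1 hb
    show 0 ≤ c (P.ac (P.nz z)⁻¹ (P.ac (P.nz z) d))
    rw [I04_ac P h1]
    exact hc d hd
  · have h4 : a = P.ac (P.nz z) (P.ac (P.nz z)⁻¹ a) := (I04_ac' P h1 a).symm
    conv_lhs => rw [h4, hs, map_sum]
    unfold PS.Dl
    rw [Finset.sum_image (fun x _ y _ hxy => (P.ac (P.nz z)).injective hxy)]
    refine Finset.sum_congr rfl fun b _ => ?_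
    show (P.ac (P.nz z)) (c b • b) = c (P.ac (P.nz z)⁻¹ (P.ac (P.nz z) b)) • (P.ac (P.nz z)) b
    rw [I04_ac P h1, map_smul]

end

end LieP.GI
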