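import Pool.Agent.LieP.I04

/-!
# MP_6c3636_al, section 15, module I06 (helper89)

Transport of (W0)-(W3) from `z0` to generic points.
-/

namespace LieP.GI

noncomputable section

open Classical

variable {G E : Type} [Group G] [NormedAddCommGroup E] [InnerProductSpace ℝ E]

theorem I06_mem (P : PS G E) {z : E} (hz : ∀ a ∈ P.R, inner ℝ a z ≠ 0) {u : G} (hu : u ∈ P.U P.z0) :
    P.nz z * u * (P.nz z)⁻¹ ∈ P.U z := by
  rw [P.U_gen hz]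
  have h : (P.nz z)⁻¹ * (P.nz z * u * (P.nz z)⁻¹) * P.nz z = u := by group
  rw [h]
  exact hu

theorem I06_cj (m u : G) : m⁻¹ * (m * u * m⁻¹) * m = u := by group

theorem I06_cj' (m u : G) : m * (m⁻¹ * u * m) * m⁻¹ = u := by group

/-- `y` and its transport -/
theorem I06_U (P : PS G E) {z : E} (hz : ∀ a ∈ P.R, inner ℝ a z ≠ 0) (y : E) {u : G} :
    u ∈ P.U (P.ac (P.nz z)⁻¹ y) ↔ P.nz z * u * (P.nz z)⁻¹ ∈ P.U y := by
  have h1 := (P.nz_spec z hz).1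
  have h2 := P.U_conj h1 (x := P.ac (P.nz z)⁻¹ y) (u := P.nz z * u * (P.nz z)⁻¹)
  rw [I04_ac' P h1, I06_cj] at h2
  exact h2.symm

theorem I06_Lin (P : PS G E) {z : E} (hz : ∀ a ∈ P.R, inner ℝ a z ≠ 0) {l : G → ℤˣ} (hl : Lin (P.U z) l) :
    Lin (P.U P.z0) (fun g => l (P.nz z * g * (P.nz z)⁻¹)) := by
  intro u hu v hv
  show l (P.nz z * (u * v) * (P.nz z)⁻¹) = l (P.nz z * u * (P.nz z)⁻¹) * l (P.nz z * v * (P.nz z)⁻¹)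
  rw [← hl _ (I06_mem P hz hu) _ (I06_mem P hz hv)]
  congr 1
  group

theorem PS.tw0 (P : PS G E) : ∀ z, (∀ a ∈ P.R, inner ℝ a z ≠ 0) → ∀ u ∈ P.U z,
    u * u ∈ (⁅P.U z, P.U z⁆ : Subgroup G) := by
  intro z hz u hu
  have h1 := P.bw0 _ ((P.U_gen hz).1 hu)
  have h2 : (P.U P.z0).map (MulAut.conj (P.nz z)).toMonoidHom = P.U z := by
    ext g
    rw [Subgroup.mem_map]
    constructor
    · rintro ⟨x, hx, rfl⟩
      exact I06_mem P hz hx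
    · intro hg
      exact ⟨(P.nz z)⁻¹ * g * P.nz z, (P.U_gen hz).1 hg, I06_cj' _ _⟩
  have h3 := Subgroup.mem_map_of_mem (MulAut.conj (P.nz z)).toMonoidHom h1
  rw [Subgroup.map_commutator, h2] at h3
  have h4 : (MulAut.conj (P.nz z)).toMonoidHom ((P.nz z)⁻¹ * u * P.nz z * ((P.nz z)⁻¹ * u * P.nz z)) = u * u := by
    show P.nz z * ((P.nz z)⁻¹ * u * P.nz z * ((P.nz z)⁻¹ * u * P.nz z)) * (P.nz z)⁻¹ = u * u
    group
  rw [h4] at h3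
  exact h3

theorem PS.tw1 (P : PS G E) : ∀ z, (∀ a ∈ P.R, inner ℝ a z ≠ 0) → ∀ l : G → ℤˣ, Lin (P.U z) l → ∀ y y',
    (∀ a ∈ P.R, 0 < inner ℝ a y → 0 < inner ℝ a z) → (∀ a ∈ P.R, 0 < inner ℝ a y' → 0 < inner ℝ a z) →
    (∀ u ∈ P.U y, l u = 1) → (∀ u ∈ P.U y', l u = 1) → ∀ u ∈ P.U (y + y'), l u = 1 := by
  intro z hz l hl y y' hy hy' h h' u hu
  have h1 := P.bw1 _ (I06_Lin P hz hl) (P.ac (P.nz z)⁻¹ y) (P.ac (P.nz z)⁻¹ y') ((P.le_gen hz).1 hy)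
    ((P.le_gen hz).1 hy') (fun v hv => h _ ((I06_U P hz y).1 hv)) (fun v hv => h' _ ((I06_U P hz y').1 hv))
    ((P.nz z)⁻¹ * u * P.nz z) (by rw [← map_add, I06_U P hz, I06_cj']; exact hu)
  have h2 : l (P.nz z * ((P.nz z)⁻¹ * u * P.nz z) * (P.nz z)⁻¹) = 1 := h1
  rwa [I06_cj'] at h2

theorem PS.tw2 (P : PS G E) : ∀ z, (∀ a ∈ P.R, inner ℝ a z ≠ 0) → ∀ l l' : G → ℤˣ, Lin (P.U z) l → Lin (P.U z) l' →
    (∀ y, (∀ a ∈ P.R, 0 < inner ℝ a y → 0 < inner ℝ a z) →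
      ((∀ u ∈ P.U y, l u = 1) ↔ ∀ u ∈ P.U y, l' u = 1)) →
    ∃ s ∈ P.L z, ∀ u ∈ P.U z, l' u = l (s * u * s⁻¹) := by
  intro z hz l l' hl hl' h
  have hm := (P.nz_spec z hz).1
  have key : ∀ (k : G → ℤˣ) (y : E),
      (∀ u ∈ P.U y, k (P.nz z * u * (P.nz z)⁻¹) = 1) ↔ ∀ u ∈ P.U (P.ac (P.nz z) y), k u = 1 := by
    intro k y
    constructor
    · intro h1 u hu
      have h2 := h1 _ ((P.U_conj hm).1 hu)
      rwa [I06_cj'] at h2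
    · intro h1 u hu
      apply h1
      rw [P.U_conj hm, I06_cj]
      exact hu
  obtain ⟨s, hs, hs'⟩ := P.bw2 _ _ (I06_Lin P hz hl) (I06_Lin P hz hl') (fun y hy => by
    rw [key l y, key l' y]
    apply h
    rw [P.le_gen hz, I04_ac P hm]
    exact hy)
  refine ⟨P.nz z * s * (P.nz z)⁻¹, ?_, fun u hu => ?_⟩
  · rw [P.L_gen hz, I06_cj]
    exact hs
  · have h1 : l' (P.nz z * ((P.nz z)⁻¹ * u * P.nz z) * (P.nz z)⁻¹) =
        l (P.nz z * (s * ((P.nz z)⁻¹ * u * P.nz z) * s⁻¹) * (P.nz z)⁻¹) := hs' _ ((P.U_gen hz).1 hu)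
    rw [I06_cj'] at h1
    rw [h1]
    congr 1
    group

theorem PS.tw3 (P : PS G E) : ∀ z, (∀ a ∈ P.R, inner ℝ a z ≠ 0) → ∀ l : G → ℤˣ, Lin (P.U z) l → ∀ x y,
    (∀ u ∈ P.U z, u ∈ P.U x → l u = 1) → (∀ a ∈ P.R, 0 < inner ℝ a y → 0 < inner ℝ a z) →
    (∀ a ∈ P.Dl z, 0 < inner ℝ a y → 0 < inner ℝ a x) → ∀ u ∈ P.U y, l u = 1 := by
  intro z hz l hl x y hx hy hD u hu
  have hm := (P.nz_spec z hz).1
  have hmi := P.N.inv_mem hm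
  have h1 := P.bw3 _ (I06_Lin P hz hl) (P.ac (P.nz z)⁻¹ x) (P.ac (P.nz z)⁻¹ y)
    (fun v hv hv' => hx _ (I06_mem P hz hv) ((I06_U P hz x).1 hv')) ((P.le_gen hz).1 hy)
    (fun a ha h2 => by
      rw [← P.pos_gen hm] at h2 ⊢
      exact hD _ (Finset.mem_image_of_mem _ ha) h2)
    ((P.nz z)⁻¹ * u * P.nz z) (by rw [I06_U P hz, I06_cj']; exact hu)
  have h2 : l (P.nz z * ((P.nz z)⁻¹ * u * P.nz z) * (P.nz z)⁻¹) = 1 := h1
  rwa [I06_cj'] at h2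

end

end LieP.GI
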