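import Pool.Agent.LieP.I05
import Pool.Agent.LieP.I06
import Pool.Agent.LieP.I07

/-!
# MP_6c3636_al, section 15, module I09 (helper89)

Assembly of the abstract transport: all fields of `LieSys` with `Dl := P.Dl`.
-/

namespace LieP.GI

noncomputable section

open Classical

variable {G E : Type} [Group G] [NormedAddCommGroup E] [InnerProductSpace ℝ E]

/-- the system of `P` -/
def PS.toSys (P : PS G E) : LieSys G E where
  H := P.H
  R := P.R
  N := P.N
  ac := P.ac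
  U := P.U
  L := P.L
  Dl := P.Dl
  neg := P.neg
  ne := P.ne
  NH := P.NH
  UH := P.UH
  LH := P.LH
  ac_one := P.ac_one
  ac_mul := P.ac_mul
  s1 := P.s1
  s2 := P.s2
  s3 := P.s3
  s4 := P.s4
  s4' := P.s4'
  s5U := P.s5U
  s5L := P.s5L
  s5P := P.s5P
  s6 := P.s6
  s7U := P.s7U
  s7L := P.s7L
  s7R := P.s7R
  s8 := P.s8
  s8' := P.s8'
  s9 := P.t9
  s10 := P.s10
  s11 := P.s11
  s11' := P.s11'
  s12 := P.s12
  s13 := P.t13
  s14 := P.t14
  s14' := P.t14'
  s14'' := P.t14''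
  w0 := P.tw0
  w1 := P.tw1
  w2 := P.tw2
  w3 := P.tw3
  w4 := P.tw4

theorem PS.sys (P : PS G E) : ∃ S : LieSys G E, S.H = P.H ∧ S.L = P.L :=
  ⟨P.toSys, rfl, rfl⟩

end

end LieP.GI
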