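import Pool.Agent.LieP.I02

/-!
# MP_6c3636_al, section 15, module I10 (stub by helper89, proof by helper21)

The axioms (S1)-(S5) for `G(n, F, σ)` (supports). Use `mem_UU`, `mem_UL`, `forall_Rt`, `pos_rt`, `zero_rt`.
`mul_same`: for `l ∈ L x`, `u ∈ U x`: `(l u)_{ij} = Σ_k l_{ik} u_{kj}`, only `k` with `x_k = x_i = x_j` count, and there `u_{kj} = δ_{kj}`.
(s4): `l u l⁻¹ = 1 + l (u - 1) l⁻¹`. (s4'): `l v` has support in `{x_i ≤ x_j}` and is in `U x`, so it is `1`.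
(s5): where `x_i ≠ x_j` the entry of `l` is `0`, where `x_i = x_j` it is the entry of `l u`.
-/

namespace LieP.GI

noncomputable section

open Classical Matrix

variable {n : ℕ} {F : Type} [Field F]

theorem c_neg : ∀ a ∈ Rt n, -a ∈ Rt n := by
  rw [forall_Rt]
  intro i j hij
  rw [mem_Rt]
  refine ⟨j, i, hij.symm, co_ext fun k => ?_⟩
  rw [co_neg]
  show - rtf i j k = rtf j i k
  unfold rtf
  ring

theorem c_ne : ∀ a ∈ Rt n, a ≠ 0 := by
  rintro a ha rfl
  exact gn_z0 _ ha (inner_zero_left _)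

theorem mul_same [Finite F] {σ : F ≃+* F} {x : Fin n → ℝ} {l u : GL (Fin n) F} (hl : l ∈ UL σ Fin.revPerm x)
    (hu : u ∈ UU σ x) {i j : Fin n} (hij : x i = x j) :
    ((l * u : GL (Fin n) F) : Matrix (Fin n) (Fin n) F) i j = (l : Matrix (Fin n) (Fin n) F) i j := by
  rw [mem_UL] at hl
  rw [mem_UU] at hu
  rw [Units.val_mul, Matrix.mul_apply, Finset.sum_eq_single j]
  · rw [hu.2 j j (lt_irrefl _), Matrix.one_apply_eq, mul_one]
  · intro k _ hk
    by_cases h : x i = x k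
    · rw [hu.2 k j (by rw [← h, hij]; exact lt_irrefl _), Matrix.one_apply_ne hk, mul_zero]
    · rw [hl.2 i k h, zero_mul]
  · intro h
    exact absurd (Finset.mem_univ _) h

theorem c_s1 [Finite F] (σ : F ≃+* F) : ∀ x x' y z : En n,
    (∀ a ∈ Rt n, inner ℝ a z = 0 → 0 < inner ℝ a x → 0 < inner ℝ a x' → 0 < inner ℝ a y) →
    ∀ g ∈ UU σ (co x), g ∈ UU σ (co x') → g ∈ UL σ Fin.revPerm (co z) → g ∈ UU σ (co y) := by
  intro x x' y z h g hx hx' hz
  rw [mem_UU] at hx hx' ⊢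
  rw [mem_UL] at hz
  refine ⟨hx.1, fun i j hij => ?_⟩
  by_cases he : i = j
  · subst he
    exact hx.2 i i (lt_irrefl _)
  by_contra hne
  have h1 : co x j < co x i := by
    by_contra h1
    exact hne (hx.2 i j h1)
  have h2 : co x' j < co x' i := by
    by_contra h2
    exact hne (hx'.2 i j h2)
  have h3 : co z i = co z j := by
    by_contra h3
    exact hne (by rw [hz.2 i j h3, Matrix.one_apply_ne he])
  have h4 := h (rt i j) (mem_Rt.2 ⟨i, j, he, rfl⟩) (zero_rt.2 h3) (pos_rt.2 h1) (pos_rt.2 h2)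
  exact hij (pos_rt.1 h4)

theorem c_s2 [Finite F] (σ : F ≃+* F) : ∀ x y w : En n,
    (∀ a ∈ Rt n, inner ℝ a x = 0 → inner ℝ a y = 0 → inner ℝ a w = 0) →
    ∀ g ∈ UL σ Fin.revPerm (co x), g ∈ UL σ Fin.revPerm (co y) → g ∈ UL σ Fin.revPerm (co w) := by
  intro x y w h g hx hy
  rw [mem_UL] at hx hy ⊢
  refine ⟨hx.1, fun i j hij => ?_⟩
  by_contra hne
  have he : i ≠ j := by
    rintro rfl
    exact hij rfl
  have h1 : co x i = co x j := by
    by_contra h1
    exact hne (hx.2 i j h1)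
  have h2 : co y i = co y j := by
    by_contra h2
    exact hne (hy.2 i j h2)
  exact hij (zero_rt.1 (h (rt i j) (mem_Rt.2 ⟨i, j, he, rfl⟩) (zero_rt.2 h1) (zero_rt.2 h2)))

theorem c_s3 (σ : F ≃+* F) : UL σ Fin.revPerm (co (0 : En n)) = UG σ Fin.revPerm := by
  ext g
  constructor
  · intro h
    exact h.1
  · intro h
    refine ⟨h, fun i j hij => absurd ?_ hij, fun i j hij => absurd ?_ hij⟩
    · rw [co_zero, co_zero]
    · rw [co_zero, co_zero]

theorem I10_inv_UL [Finite F] {σ : F ≃+* F} {x : Fin n → ℝ} {l : GL (Fin n) F} (hl : l ∈ UL σ Fin.revPerm x)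
    {i j : Fin n} (h : x i ≠ x j) : ((l⁻¹ : GL (Fin n) F) : Matrix (Fin n) (Fin n) F) i j = 0 :=
  (mem_UL.1 (Subgroup.inv_mem _ hl)).2 i j h

theorem I10_UL_UG {σ : F ≃+* F} {x : Fin n → ℝ} {l : GL (Fin n) F} (hl : l ∈ UL σ Fin.revPerm x) :
    l ∈ UG σ Fin.revPerm := hl.1

theorem c_s4 [Finite F] (σ : F ≃+* F) : ∀ x : En n, ∀ l ∈ UL σ Fin.revPerm (co x), ∀ u ∈ UU σ (co x),
    l * u * l⁻¹ ∈ UU σ (co x) := by
  intro x l hl u hu
  have hl' := mem_UL.1 hl
  rw [mem_UU] at hu ⊢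
  refine ⟨Subgroup.mul_mem _ (Subgroup.mul_mem _ hl'.1 hu.1) (Subgroup.inv_mem _ hl'.1), fun i j hij => ?_⟩
  have h1 : ((l * u * l⁻¹ : GL (Fin n) F) : Matrix (Fin n) (Fin n) F) =
      1 + (l : Matrix (Fin n) (Fin n) F) * ((u : Matrix (Fin n) (Fin n) F) - 1) *
        ((l⁻¹ : GL (Fin n) F) : Matrix (Fin n) (Fin n) F) := by
    rw [Matrix.mul_sub, Matrix.sub_mul, Matrix.mul_one, ← Units.val_mul l l⁻¹, mul_inv_cancel, Units.val_one,
      Units.val_mul, Units.val_mul]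
    abel
  rw [h1, Matrix.add_apply]
  have h2 : ((l : Matrix (Fin n) (Fin n) F) * ((u : Matrix (Fin n) (Fin n) F) - 1) *
        ((l⁻¹ : GL (Fin n) F) : Matrix (Fin n) (Fin n) F)) i j = 0 := by
    rw [Matrix.mul_apply]
    refine Finset.sum_eq_zero fun b _ => ?_
    by_cases hb : co x b = co x j
    · rw [Matrix.mul_apply, Finset.sum_mul]
      refine Finset.sum_eq_zero fun a _ => ?_
      by_cases ha : co x i = co x a
      · rw [Matrix.sub_apply, hu.2 a b (by rw [← ha, hb]; exact hij), sub_self, mul_zero, zero_mul]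
      · rw [hl'.2 i a ha, zero_mul, zero_mul]
    · rw [I10_inv_UL hl hb, mul_zero]
  rw [h2, add_zero]

theorem c_s4' [Finite F] (σ : F ≃+* F) : ∀ x : En n, ∀ l ∈ UL σ Fin.revPerm (co x), ∀ v ∈ UU σ (co (-x)),
    l * v ∈ UU σ (co x) → l * v = 1 := by
  intro x l hl v hv h
  rw [mem_UL] at hl
  rw [mem_UU] at hv h
  apply Units.ext
  ext i j
  rw [Units.val_one]
  by_cases hij : co x j < co x i
  · have hne : i ≠ j := by
      rintro rfl
      exact lt_irrefl _ hij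
    rw [Matrix.one_apply_ne hne, Units.val_mul, Matrix.mul_apply]
    refine Finset.sum_eq_zero fun k _ => ?_
    by_cases hk : co x i = co x k
    · have h1 : ¬ co (-x) j < co (-x) k := by
        rw [co_neg, co_neg, neg_lt_neg_iff, ← hk]
        exact not_lt.2 hij.le
      have h2 : k ≠ j := by
        rintro rfl
        exact hij.ne hk.symm
      rw [hv.2 k j h1, Matrix.one_apply_ne h2, mul_zero]
    · rw [hl.2 i k hk, zero_mul]
  · exact h.2 i j hij

theorem c_s5U [Finite F] (σ : F ≃+* F) : ∀ x y : En n, ∀ l ∈ UL σ Fin.revPerm (co x), ∀ u ∈ UU σ (co x),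
    l * u ∈ UU σ (co y) → l ∈ UU σ (co y) := by
  intro x y l hl u hu h
  have hl' := mem_UL.1 hl
  rw [mem_UU] at h ⊢
  refine ⟨hl'.1, fun i j hij => ?_⟩
  by_cases hx : co x i = co x j
  · rw [← mul_same hl hu hx]
    exact h.2 i j hij
  · rw [hl'.2 i j hx, Matrix.one_apply_ne (fun h' => hx (congrArg (co x) h'))]

theorem c_s5L [Finite F] (σ : F ≃+* F) : ∀ x y : En n, ∀ l ∈ UL σ Fin.revPerm (co x), ∀ u ∈ UU σ (co x),
    l * u ∈ UL σ Fin.revPerm (co y) → l ∈ UL σ Fin.revPerm (co y) := by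
  intro x y l hl u hu h
  have hl' := mem_UL.1 hl
  rw [mem_UL] at h ⊢
  refine ⟨hl'.1, fun i j hij => ?_⟩
  by_cases hx : co x i = co x j
  · rw [← mul_same hl hu hx]
    exact h.2 i j hij
  · exact hl'.2 i j hx

end

end LieP.GI
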