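import Pool.Agent.LieP.I10

/-!
# MP_6c3636_al, section 15, module I11 (stub by helper89)

The Levi part `lev y g` of `g ∈ PP σ y` and (S5) for parabolic subgroups.
`bp_mul`: `(A B)_{ij}` with `y_i = y_j`: `A_{ik} B_{kj} ≠ 0` needs `y_i ≥ y_k ≥ y_j`. `lev_coe`: `PP` is a group, so `g⁻¹` has the support
condition too, `bp g * bp g⁻¹ = bp 1 = 1`. `lev_mem`: `adj (bp A) = bp (adj A)` as `y_{rev i} = - y_i`. `lev_split`: `v := (lev y g)⁻¹ * g`, `lev y v = 1` and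
`v ∈ PP`, so `v_{ij} = δ_{ij}` if `y_i = y_j`. `lev_z0`: entries. (s5P): `l * u = m * v` is in `PP y`, so `l` is (the entries of `l` are entries of `l u` or `0`),
then `lev_split`.
-/

namespace LieP.GI

noncomputable section

open Classical Matrix

variable {n : ℕ} {F : Type} [Field F]

theorem bp_mul {y : Fin n → ℝ} {A B : Matrix (Fin n) (Fin n) F} (hA : ∀ i j, y i < y j → A i j = 0)
    (hB : ∀ i j, y i < y j → B i j = 0) : bp y (A * B) = bp y A * bp y B := by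
  ext i j
  rw [Matrix.mul_apply]
  unfold bp
  split_ifs with h
  · rw [Matrix.mul_apply]
    refine Finset.sum_congr rfl fun k _ => ?_
    by_cases h1 : y i = y k
    · rw [if_pos h1, if_pos (h1.symm.trans h)]
    · rw [if_neg h1, zero_mul]
      rcases lt_or_gt_of_ne h1 with h2 | h2
      · rw [hA i k h2, zero_mul]
      · rw [hB k j (h ▸ h2), mul_zero]
  · symm
    refine Finset.sum_eq_zero fun k _ => ?_
    by_cases h1 : y i = y k
    · rw [if_neg (fun h2 : y k = y j => h (h1.trans h2)), mul_zero]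
    · rw [if_neg h1, zero_mul]

theorem I11_bp_one (y : Fin n → ℝ) : bp y (1 : Matrix (Fin n) (Fin n) F) = 1 := by
  ext i j
  unfold bp
  split_ifs with h
  · rfl
  · rw [Matrix.one_apply_ne (fun h' => h (congrArg y h'))]

theorem UU_le_PP [Finite F] (σ : F ≃+* F) (y : Fin n → ℝ) : UU σ y ≤ PP σ y := by
  intro g hg
  obtain ⟨h1, h2⟩ := mem_UU.1 hg
  refine mem_PP.2 ⟨h1, fun i j hij => ?_⟩
  rw [h2 i j (not_lt.2 hij.le), Matrix.one_apply_ne (fun h' => hij.ne (congrArg y h'))]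

theorem UL_le_PP [Finite F] (σ : F ≃+* F) (y : Fin n → ℝ) : UL σ Fin.revPerm y ≤ PP σ y := by
  intro g hg
  obtain ⟨h1, h2⟩ := mem_UL.1 hg
  exact mem_PP.2 ⟨h1, fun i j hij => h2 i j hij.ne⟩

theorem z0_le_PP [Finite F] (σ : F ≃+* F) {y : Fin n → ℝ} (hy : Antitone y) : UU σ (co (z0 n)) ≤ PP σ y := by
  intro g hg
  obtain ⟨h1, h2⟩ := mem_UU.1 hg
  refine mem_PP.2 ⟨h1, fun i j hij => ?_⟩
  have h3 : ¬ i ≤ j := fun h => absurd (hy h) (not_le.2 hij)
  rw [h2 i j (fun h => h3 (z0_lt.1 h).le), Matrix.one_apply_ne (fun h' => h3 h'.le)]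

theorem I11_bp_inv [Finite F] {σ : F ≃+* F} {y : Fin n → ℝ} {g : GL (Fin n) F} (hg : g ∈ PP σ y) :
    bp y (g : Matrix (Fin n) (Fin n) F) * bp y ((g⁻¹ : GL (Fin n) F) : Matrix (Fin n) (Fin n) F) = 1 ∧
      bp y ((g⁻¹ : GL (Fin n) F) : Matrix (Fin n) (Fin n) F) * bp y (g : Matrix (Fin n) (Fin n) F) = 1 := by
  have h1 := (mem_PP.1 hg).2
  have h2 := (mem_PP.1 (Subgroup.inv_mem _ hg)).2
  refine ⟨?_, ?_⟩
  · rw [← bp_mul h1 h2, ← Units.val_mul, mul_inv_cancel, Units.val_one, I11_bp_one]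
  · rw [← bp_mul h2 h1, ← Units.val_mul, inv_mul_cancel, Units.val_one, I11_bp_one]

theorem lev_coe [Finite F] {σ : F ≃+* F} {y : Fin n → ℝ} {g : GL (Fin n) F} (hg : g ∈ PP σ y) :
    (lev y g : Matrix (Fin n) (Fin n) F) = bp y (g : Matrix (Fin n) (Fin n) F) := by
  unfold lev
  rw [dif_pos (I11_bp_inv hg)]

theorem lev_mul [Finite F] {σ : F ≃+* F} {y : Fin n → ℝ} {g h : GL (Fin n) F} (hg : g ∈ PP σ y) (hh : h ∈ PP σ y) :
    lev y (g * h) = lev y g * lev y h := by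
  apply Units.ext
  rw [Units.val_mul, lev_coe hg, lev_coe hh, lev_coe (Subgroup.mul_mem _ hg hh), Units.val_mul,
    bp_mul (mem_PP.1 hg).2 (mem_PP.1 hh).2]

theorem lev_mem [Finite F] {σ : F ≃+* F} {y : Fin n → ℝ} (hy : ∀ i, y (Fin.rev i) = - y i) {g : GL (Fin n) F}
    (hg : g ∈ PP σ y) : lev y g ∈ UL σ Fin.revPerm y := by
  obtain ⟨h1, h2⟩ := mem_PP.1 hg
  refine mem_UL.2 ⟨?_, fun i j hij => ?_⟩
  · show adj σ Fin.revPerm (lev y g : Matrix (Fin n) (Fin n) F) * (lev y g : Matrix (Fin n) (Fin n) F) = 1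
    have h3 : adj σ Fin.revPerm (bp y (g : Matrix (Fin n) (Fin n) F)) =
        bp y (adj σ Fin.revPerm (g : Matrix (Fin n) (Fin n) F)) := by
      ext i j
      show σ (if y (Fin.rev j) = y (Fin.rev i) then (g : Matrix (Fin n) (Fin n) F) (Fin.rev j) (Fin.rev i) else 0) =
        if y i = y j then σ ((g : Matrix (Fin n) (Fin n) F) (Fin.rev j) (Fin.rev i)) else 0
      rw [hy i, hy j]
      by_cases h : y i = y j
      · rw [if_pos h, if_pos (by rw [h])]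
      · rw [if_neg h, if_neg (fun h' => h (neg_injective h').symm), map_zero]
    have h4 : ∀ i j, y i < y j → adj σ Fin.revPerm (g : Matrix (Fin n) (Fin n) F) i j = 0 := by
      intro i j hij
      show σ ((g : Matrix (Fin n) (Fin n) F) (Fin.rev j) (Fin.rev i)) = 0
      rw [h2 _ _ (by rw [hy i, hy j]; exact neg_lt_neg hij), map_zero]
    have h5 : adj σ Fin.revPerm (g : Matrix (Fin n) (Fin n) F) * (g : Matrix (Fin n) (Fin n) F) = 1 := h1
    rw [lev_coe hg, h3, ← bp_mul h4 h2, h5, I11_bp_one]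
  · rw [lev_coe hg]
    exact if_neg hij

theorem lev_UL [Finite F] {σ : F ≃+* F} {y : Fin n → ℝ} {g : GL (Fin n) F} (hg : g ∈ UL σ Fin.revPerm y) :
    lev y g = g := by
  apply Units.ext
  rw [lev_coe (UL_le_PP σ y hg)]
  ext i j
  unfold bp
  split_ifs with h
  · rfl
  · exact ((mem_UL.1 hg).2 i j h).symm

theorem lev_UU [Finite F] {σ : F ≃+* F} {y : Fin n → ℝ} {g : GL (Fin n) F} (hg : g ∈ UU σ y) : lev y g = 1 := by
  apply Units.ext
  rw [lev_coe (UU_le_PP σ y hg), Units.val_one]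
  ext i j
  unfold bp
  split_ifs with h
  · exact (mem_UU.1 hg).2 i j (not_lt.2 h.le)
  · rw [Matrix.one_apply_ne (fun h' => h (congrArg y h'))]

theorem lev_split [Finite F] {σ : F ≃+* F} {y : Fin n → ℝ} (hy : ∀ i, y (Fin.rev i) = - y i) {g : GL (Fin n) F}
    (hg : g ∈ PP σ y) : ∃ v ∈ UU σ y, g = lev y g * v := by
  have h1 := lev_mem hy hg
  have h2 : lev y g ∈ PP σ y := UL_le_PP σ y h1
  have h3 : (lev y g)⁻¹ * g ∈ PP σ y := Subgroup.mul_mem _ (Subgroup.inv_mem _ h2) hg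
  have h4 : lev y ((lev y g)⁻¹ * g) = 1 := by
    have h5 := lev_mul h2 h3
    rw [mul_inv_cancel_left, lev_UL h1] at h5
    exact (mul_eq_left.1 h5.symm)
  have h5 : bp y (((lev y g)⁻¹ * g : GL (Fin n) F) : Matrix (Fin n) (Fin n) F) = 1 := by
    rw [← lev_coe h3, h4, Units.val_one]
  refine ⟨(lev y g)⁻¹ * g, mem_UU.2 ⟨(mem_PP.1 h3).1, fun i j hij => ?_⟩, (mul_inv_cancel_left _ _).symm⟩
  by_cases h : y i = y j
  · have h6 := congrFun (congrFun h5 i) j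
    unfold bp at h6
    rw [if_pos h] at h6
    exact h6
  · rw [(mem_PP.1 h3).2 i j (lt_of_le_of_ne (not_lt.1 hij) h),
      Matrix.one_apply_ne (fun h' => h (congrArg y h'))]

theorem lev_z0 [Finite F] {σ : F ≃+* F} {y : Fin n → ℝ} (hy : ∀ i, y (Fin.rev i) = - y i) {g : GL (Fin n) F}
    (hg : g ∈ PP σ y) (h : g ∈ UU σ (co (z0 n))) : lev y g ∈ UU σ (co (z0 n)) := by
  refine mem_UU.2 ⟨(mem_UL.1 (lev_mem hy hg)).1, fun i j hij => ?_⟩
  rw [lev_coe hg]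
  unfold bp
  split_ifs with h1
  · exact (mem_UU.1 h).2 i j hij
  · rw [Matrix.one_apply_ne (fun h' => h1 (congrArg y h'))]

theorem c_s5P [Finite F] (σ : F ≃+* F) : ∀ x y : En n, ∀ l ∈ UL σ Fin.revPerm (co x), ∀ u ∈ UU σ (co x),
    (∃ m ∈ UL σ Fin.revPerm (co y), ∃ v ∈ UU σ (co y), l * u = m * v) →
    ∃ m ∈ UL σ Fin.revPerm (co y), ∃ v ∈ UU σ (co y), l = m * v := by
  rintro x y l hl u hu ⟨m, hm, v, hv, h⟩
  have h1 : l * u ∈ PP σ (co y) := by
    rw [h]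
    exact Subgroup.mul_mem _ (UL_le_PP σ _ hm) (UU_le_PP σ _ hv)
  have h2 : l ∈ PP σ (co y) := by
    refine mem_PP.2 ⟨(mem_UL.1 hl).1, fun i j hij => ?_⟩
    by_cases hx : co x i = co x j
    · rw [← mul_same hl hu hx]
      exact (mem_PP.1 h1).2 i j hij
    · exact (mem_UL.1 hl).2 i j hx
  obtain ⟨w, hw, h3⟩ := lev_split (co_rev y) h2
  exact ⟨_, lev_mem (co_rev y) h2, w, hw, h3⟩

end

end LieP.GI
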