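import Pool.Agent.LieP.I02

/-!
# MP_6c3636_al, section 15, module I12 (stub by helper89)

(S6) in `GL_n(F)`, by counting. `S` a transitive irreflexive relation. The set of the matrices `g` with `Sp S g` has `|F| ^ #S` elements
(`g ↦ (g_{ij})_{S i j}`; every such matrix is invertible: it is `1 + nilpotent`, or use that `S` is contained in the strict part of some order; e.g. the set
`{A : Sp S A}` is a finite monoid under multiplication, contained in `1 + (nilpotent matrices)`; `A - 1` has support in `S`, its `(m+1)`-st power has a nonzero entry only if there is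
an `S`-chain of length `m+1`, which is impossible for `m ≥ n`).
The same for `S ∩ {x_i > x_j}`, `S ∩ {x_i = x_j}`, `S ∩ {x_i < x_j}`, three groups `Q₊, Q₀, Q₋` with `|Q₊| |Q₀| |Q₋| = |Q|`; the product map
`Q₊ × Q₀ × Q₋ → Q` is injective by `gl6u`, so it is surjective.
`gl6u`: `a b c = a' b' c'`. `a'⁻¹ a = b' c' c⁻¹ b⁻¹`; the left hand side has the entries of `1` unless `x_i > x_j`, the right hand side has support in `x_i ≤ x_j`
(products of matrices with support in `x_i ≤ x_j`); so both are `1`. Then `b'⁻¹ b = c' c⁻¹` is block diagonal and equal to `1` on the blocks.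
-/

namespace LieP.GI

noncomputable section

open Classical Matrix

variable {n : ℕ} {F : Type} [Field F]

theorem I12_mono {S T : Fin n → Fin n → Prop} (h : ∀ i j, S i j → T i j) {A : Matrix (Fin n) (Fin n) F}
    (hA : Sp S A) : Sp T A := fun i j hij => hA i j fun h' => hij (h i j h')

theorem I12_one {S T : Fin n → Fin n → Prop} (h : ∀ i j, S i j → ¬ T i j) {g : GL (Fin n) F}
    (hS : Sp S (g : Matrix (Fin n) (Fin n) F)) (hT : Sp T (g : Matrix (Fin n) (Fin n) F)) : g = 1 := by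
  apply Units.ext
  ext i j
  rw [Units.val_one]
  by_cases h1 : S i j
  · exact hT i j (h i j h1)
  · exact hS i j h1

theorem gl6u [Finite F] (x : Fin n → ℝ) {a b c a' b' c' : GL (Fin n) F}
    (ha : Sp (fun i j => x j < x i) (a : Matrix (Fin n) (Fin n) F))
    (ha' : Sp (fun i j => x j < x i) (a' : Matrix (Fin n) (Fin n) F))
    (hb : Sp (fun i j => x i = x j) (b : Matrix (Fin n) (Fin n) F))
    (hb' : Sp (fun i j => x i = x j) (b' : Matrix (Fin n) (Fin n) F))
    (hc : Sp (fun i j => x i < x j) (c : Matrix (Fin n) (Fin n) F))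
    (hc' : Sp (fun i j => x i < x j) (c' : Matrix (Fin n) (Fin n) F)) (h : a * b * c = a' * b' * c') :
    a = a' ∧ b = b' ∧ c = c' := by
  have tG : ∀ i j k : Fin n, x j < x i → x k < x j → x k < x i := fun _ _ _ h h' => h'.trans h
  have tE : ∀ i j k : Fin n, x i = x j → x j = x k → x i = x k := fun _ _ _ h h' => h.trans h'
  have tL : ∀ i j k : Fin n, x i < x j → x j < x k → x i < x k := fun _ _ _ h h' => h.trans h'
  have tB : ∀ i j k : Fin n, x i ≤ x j → x j ≤ x k → x i ≤ x k := fun _ _ _ h h' => h.trans h'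
  have e1 : a'⁻¹ * a = b' * c' * c⁻¹ * b⁻¹ := by
    have e2 : a'⁻¹ * (a * b * c) * c⁻¹ * b⁻¹ = a'⁻¹ * (a' * b' * c') * c⁻¹ * b⁻¹ := by rw [h]
    have e3 : a'⁻¹ * (a * b * c) * c⁻¹ * b⁻¹ = a'⁻¹ * a := by group
    have e4 : a'⁻¹ * (a' * b' * c') * c⁻¹ * b⁻¹ = b' * c' * c⁻¹ * b⁻¹ := by group
    rw [← e3, e2, e4]
  have hBb : ∀ {g : GL (Fin n) F}, Sp (fun i j => x i = x j) (g : Matrix (Fin n) (Fin n) F) →
      g ∈ GS F (fun i j => x i ≤ x j) tB := fun hg => mem_GS.2 (I12_mono (fun _ _ h => h.le) hg)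
  have hBc : ∀ {g : GL (Fin n) F}, Sp (fun i j => x i < x j) (g : Matrix (Fin n) (Fin n) F) →
      g ∈ GS F (fun i j => x i ≤ x j) tB := fun hg => mem_GS.2 (I12_mono (fun _ _ h => h.le) hg)
  have e5 : a'⁻¹ * a ∈ GS F (fun i j => x j < x i) tG :=
    Subgroup.mul_mem _ (Subgroup.inv_mem _ (mem_GS.2 ha')) (mem_GS.2 ha)
  have e6 : a'⁻¹ * a ∈ GS F (fun i j => x i ≤ x j) tB := by
    rw [e1]
    exact Subgroup.mul_mem _ (Subgroup.mul_mem _ (Subgroup.mul_mem _ (hBb hb') (hBc hc'))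
      (Subgroup.inv_mem _ (hBc hc))) (Subgroup.inv_mem _ (hBb hb))
  have e7 := I12_one (fun i j h1 h2 => absurd h1 (not_lt.2 h2)) (mem_GS.1 e5) (mem_GS.1 e6)
  have e8 : a = a' := by rw [← mul_one a', ← e7, mul_inv_cancel_left]
  rw [e7] at e1
  have e9 : b'⁻¹ * b = c' * c⁻¹ := by
    have e10 : b' * (c' * c⁻¹) = b := by
      have e11 : b' * c' * c⁻¹ * b⁻¹ * b = 1 * b := by rw [← e1]
      rw [inv_mul_cancel_right, one_mul] at e11
      rw [← mul_assoc]
      exact e11
    rw [← e10, inv_mul_cancel_left]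
  have e12 : b'⁻¹ * b ∈ GS F (fun i j => x i = x j) tE :=
    Subgroup.mul_mem _ (Subgroup.inv_mem _ (mem_GS.2 hb')) (mem_GS.2 hb)
  have e13 : b'⁻¹ * b ∈ GS F (fun i j => x i < x j) tL := by
    rw [e9]
    exact Subgroup.mul_mem _ (mem_GS.2 hc') (Subgroup.inv_mem _ (mem_GS.2 hc))
  have e14 := I12_one (fun i j h1 h2 => absurd h1 h2.ne) (mem_GS.1 e12) (mem_GS.1 e13)
  have e15 : b = b' := by rw [← mul_one b', ← e14, mul_inv_cancel_left]
  rw [e14] at e9
  have e16 : c = c' := by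
    have e17 : 1 * c = c' * c⁻¹ * c := by rw [← e9]
    rw [inv_mul_cancel_right, one_mul] at e17
    exact e17
  exact ⟨e8, e15, e16⟩

/-- the matrices `A` with `Sp S A` are invertible -/
theorem I12_det {S : Fin n → Fin n → Prop} (hS : ∀ i j k, S i j → S j k → S i k) (hi : ∀ i, ¬ S i i)
    {A : Matrix (Fin n) (Fin n) F} (hA : Sp S A) : A.det = 1 := by
  have hr : ∀ i j, S i j → (Finset.univ.filter fun k => S k i).card < (Finset.univ.filter fun k => S k j).card := by
    intro i j hij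
    apply Finset.card_lt_card
    rw [Finset.ssubset_iff_of_subset]
    · exact ⟨i, Finset.mem_filter.2 ⟨Finset.mem_univ _, hij⟩, fun h => hi i (Finset.mem_filter.1 h).2⟩
    · intro k hk
      exact Finset.mem_filter.2 ⟨Finset.mem_univ _, hS k i j (Finset.mem_filter.1 hk).2 hij⟩
  have hb : Matrix.BlockTriangular A (fun i => (Finset.univ.filter fun k => S k i).card) := by
    intro i j hij
    rw [hA i j (fun h => absurd (hr i j h) (not_lt.2 hij.le)), Matrix.one_apply_ne]
    rintro rfl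
    exact lt_irrefl _ hij
  rw [hb.det]
  apply Finset.prod_eq_one
  intro a _
  have h1 : A.toSquareBlock (fun i => (Finset.univ.filter fun k => S k i).card) a = 1 := by
    ext i j
    rw [Matrix.toSquareBlock_def, Matrix.of_apply]
    rw [hA i.1 j.1 (fun h => by
      have h2 := hr _ _ h
      have h3 := i.2
      have h4 := j.2
      omega)]
    by_cases h : i = j
    · rw [h, Matrix.one_apply_eq, Matrix.one_apply_eq]
    · rw [Matrix.one_apply_ne h, Matrix.one_apply_ne (fun h' => h (Subtype.ext h'))]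
  rw [h1, Matrix.det_one]

/-- the matrix with given entries -/
def I12_mat (F : Type) [Field F] (S : Fin n → Fin n → Prop) (f : {p : Fin n × Fin n // S p.1 p.2} → F) :
    Matrix (Fin n) (Fin n) F :=
  fun i j => if h : S i j then f ⟨(i, j), h⟩ else (1 : Matrix (Fin n) (Fin n) F) i j

theorem I12_matSp (S : Fin n → Fin n → Prop) (f : {p : Fin n × Fin n // S p.1 p.2} → F) :
    Sp S (I12_mat F S f) := fun i j hij => by rw [I12_mat, dif_neg hij]

theorem card_Sp [Finite F] {S : Fin n → Fin n → Prop} (hS : ∀ i j k, S i j → S j k → S i k) (hi : ∀ i, ¬ S i i) :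
    Nat.card (GS F S hS) = Nat.card F ^ (Finset.univ.filter fun p : Fin n × Fin n => S p.1 p.2).card := by
  have hu : ∀ f : {p : Fin n × Fin n // S p.1 p.2} → F, IsUnit (I12_mat F S f).det := fun f => by
    rw [I12_det hS hi (I12_matSp S f)]
    exact isUnit_one
  have hcoe : ∀ f : {p : Fin n × Fin n // S p.1 p.2} → F,
      ((Matrix.GeneralLinearGroup.mk'' (I12_mat F S f) (hu f) : GL (Fin n) F) : Matrix (Fin n) (Fin n) F) =
        I12_mat F S f := fun f => rfl
  let φ : ({p : Fin n × Fin n // S p.1 p.2} → F) ≃ GS F S hS :=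
    { toFun := fun f => ⟨Matrix.GeneralLinearGroup.mk'' (I12_mat F S f) (hu f),
        mem_GS.2 (by rw [hcoe]; exact I12_matSp S f)⟩
      invFun := fun g p => (g.1 : Matrix (Fin n) (Fin n) F) p.1.1 p.1.2
      left_inv := by
        intro f
        ext ⟨⟨i, j⟩, hp⟩
        show I12_mat F S f i j = _
        rw [I12_mat, dif_pos hp]
      right_inv := by
        intro g
        apply Subtype.ext
        apply Units.ext
        ext i j
        show I12_mat F S (fun p => (g.1 : Matrix (Fin n) (Fin n) F) p.1.1 p.1.2) i j = _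
        rw [I12_mat]
        split_ifs with h
        · rfl
        · exact (mem_GS.1 g.2 i j h).symm }
  rw [← Nat.card_congr φ, Nat.card_fun, Nat.card_eq_fintype_card (α := {p : Fin n × Fin n // S p.1 p.2}),
    Fintype.card_subtype]

theorem gl6 [Finite F] {S : Fin n → Fin n → Prop} (hS : ∀ i j k, S i j → S j k → S i k) (hi : ∀ i, ¬ S i i)
    (x : Fin n → ℝ) {u : GL (Fin n) F} (hu : u ∈ GS F S hS) :
    ∃ a ∈ GS F S hS, ∃ b ∈ GS F S hS, ∃ c ∈ GS F S hS,
      Sp (fun i j => x j < x i) (a : Matrix (Fin n) (Fin n) F) ∧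
      Sp (fun i j => x i = x j) (b : Matrix (Fin n) (Fin n) F) ∧
      Sp (fun i j => x i < x j) (c : Matrix (Fin n) (Fin n) F) ∧ u = a * b * c := by
  have t1 : ∀ i j k : Fin n, (S i j ∧ x j < x i) → (S j k ∧ x k < x j) → (S i k ∧ x k < x i) :=
    fun i j k h h' => ⟨hS i j k h.1 h'.1, h'.2.trans h.2⟩
  have t2 : ∀ i j k : Fin n, (S i j ∧ x i = x j) → (S j k ∧ x j = x k) → (S i k ∧ x i = x k) :=
    fun i j k h h' => ⟨hS i j k h.1 h'.1, h.2.trans h'.2⟩
  have t3 : ∀ i j k : Fin n, (S i j ∧ x i < x j) → (S j k ∧ x j < x k) → (S i k ∧ x i < x k) :=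
    fun i j k h h' => ⟨hS i j k h.1 h'.1, h.2.trans h'.2⟩
  have c1 := card_Sp (F := F) t1 (fun i h => hi i h.1)
  have c2 := card_Sp (F := F) t2 (fun i h => hi i h.1)
  have c3 := card_Sp (F := F) t3 (fun i h => hi i h.1)
  have c0 := card_Sp (F := F) hS hi
  have l1 : ∀ {g : GL (Fin n) F}, g ∈ GS F _ t1 → g ∈ GS F S hS := fun hg =>
    mem_GS.2 (I12_mono (fun _ _ h => h.1) (mem_GS.1 hg))
  have l2 : ∀ {g : GL (Fin n) F}, g ∈ GS F _ t2 → g ∈ GS F S hS := fun hg =>
    mem_GS.2 (I12_mono (fun _ _ h => h.1) (mem_GS.1 hg))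
  have l3 : ∀ {g : GL (Fin n) F}, g ∈ GS F _ t3 → g ∈ GS F S hS := fun hg =>
    mem_GS.2 (I12_mono (fun _ _ h => h.1) (mem_GS.1 hg))
  have m1 : ∀ {g : GL (Fin n) F}, g ∈ GS F _ t1 → Sp (fun i j => x j < x i) (g : Matrix (Fin n) (Fin n) F) :=
    fun hg => I12_mono (fun _ _ h => h.2) (mem_GS.1 hg)
  have m2 : ∀ {g : GL (Fin n) F}, g ∈ GS F _ t2 → Sp (fun i j => x i = x j) (g : Matrix (Fin n) (Fin n) F) :=
    fun hg => I12_mono (fun _ _ h => h.2) (mem_GS.1 hg)
  have m3 : ∀ {g : GL (Fin n) F}, g ∈ GS F _ t3 → Sp (fun i j => x i < x j) (g : Matrix (Fin n) (Fin n) F) :=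
    fun hg => I12_mono (fun _ _ h => h.2) (mem_GS.1 hg)
  let φ : (GS F _ t1 × GS F _ t2) × GS F _ t3 → GS F S hS := fun p =>
    ⟨p.1.1.1 * p.1.2.1 * p.2.1, Subgroup.mul_mem _ (Subgroup.mul_mem _ (l1 p.1.1.2) (l2 p.1.2.2)) (l3 p.2.2)⟩
  have hφ : Function.Injective φ := by
    rintro ⟨⟨⟨a, ha⟩, ⟨b, hb⟩⟩, ⟨c, hc⟩⟩ ⟨⟨⟨a', ha'⟩, ⟨b', hb'⟩⟩, ⟨c', hc'⟩⟩ h
    have h1 : a * b * c = a' * b' * c' := congrArg Subtype.val h
    obtain ⟨e1, e2, e3⟩ := gl6u x (m1 ha) (m1 ha') (m2 hb) (m2 hb') (m3 hc) (m3 hc') h1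
    subst e1 e2 e3
    rfl
  have hcard : Nat.card (GS F S hS) ≤ Nat.card ((GS F _ t1 × GS F _ t2) × GS F _ t3) := by
    rw [Nat.card_prod, Nat.card_prod, c1, c2, c3, c0, ← pow_add, ← pow_add]
    refine le_of_eq (congrArg _ ?_)
    rw [← Finset.card_union_of_disjoint, ← Finset.card_union_of_disjoint]
    · congr 1
      ext p
      simp only [Finset.mem_union, Finset.mem_filter, Finset.mem_univ, true_and]
      constructor
      · intro h
        rcases lt_trichotomy (x p.1) (x p.2) with h1 | h1 | h1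
        · exact Or.inr ⟨h, h1⟩
        · exact Or.inl (Or.inr ⟨h, h1⟩)
        · exact Or.inl (Or.inl ⟨h, h1⟩)
      · rintro ((h | h) | h) <;> exact h.1
    · rw [Finset.disjoint_left]
      intro p hp hp'
      simp only [Finset.mem_union, Finset.mem_filter, Finset.mem_univ, true_and] at hp hp'
      rcases hp with h | h
      · exact lt_asymm h.2 hp'.2
      · exact absurd h.2 hp'.2.ne
    · rw [Finset.disjoint_left]
      intro p hp hp'
      simp only [Finset.mem_filter, Finset.mem_univ, true_and] at hp hp'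
      exact absurd hp'.2.symm hp.2.ne
  obtain ⟨⟨⟨⟨a, ha⟩, ⟨b, hb⟩⟩, ⟨c, hc⟩⟩, h⟩ := (hφ.bijective_of_nat_card_le hcard).2 ⟨u, hu⟩
  exact ⟨a, l1 ha, b, l2 hb, c, l3 hc, m1 ha, m2 hb, m3 hc, (congrArg Subtype.val h).symm⟩

end

end LieP.GI
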