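import Pool.Agent.LieP.I02
import Pool.Agent.LieP.I30

/-!
# MP_6c3636_al, section 15, module I15 (stub by helper89)

Root elements and (S10). `i ≠ j`, `s ∈ F`, `σ s = s` if `j = rev i`.
Case `j = rev i`: `g = 1 + s E_{ij}`. Case `j ≠ rev i`, `j ≠ rev j`, `i ≠ rev i`: `g = 1 + s E_{ij} + σ(s) E_{rev j, rev i}`, `X := g - 1` has `adj X = X`, `X² = 0`.
Case `j = rev j`: `g = 1 + s E_{ij} + σ(s) E_{j, rev i} + a E_{i, rev i}` with `a + σ a = s σ(s)` (`ff4` of I30; here `n` is odd, so by `Hyp` `σ` is not the identity).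
Case `i = rev i`: `g = 1 + s E_{ij} + σ(s) E_{rev j, i} + a E_{rev j, j}`, same `a`. In all cases `adj g * g = 1` (char 2).
`re_U`, `re_L`: the positions of the nontrivial entries. (s10): `re i j 1`, which is `≠ 1` as its entry at `(i,j)` is `1`.
-/

namespace LieP.GI

noncomputable section

open Classical Matrix

variable {n : ℕ} {F : Type} [Field F]

theorem I15_adj_add (σ : F ≃+* F) (A B : Matrix (Fin n) (Fin n) F) :
    adj σ Fin.revPerm (A + B) = adj σ Fin.revPerm A + adj σ Fin.revPerm B := by
  ext p q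
  exact map_add σ _ _

theorem I15_single (i j p q : Fin n) (s : F) :
    Matrix.single i j s p q = if i = p ∧ j = q then s else 0 := by
  split_ifs with h
  · obtain ⟨h1, h2⟩ := h
    subst h1
    subst h2
    exact Matrix.single_apply_same _ _ _
  · exact Matrix.single_apply_of_ne _ _ _ _ _ h

theorem I15_adj_single (σ : F ≃+* F) (i j : Fin n) (s : F) :
    adj σ Fin.revPerm (Matrix.single i j s) = Matrix.single (Fin.rev j) (Fin.rev i) (σ s) := by
  ext p q
  show σ (Matrix.single i j s (Fin.rev q) (Fin.rev p)) = _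
  rw [I15_single, I15_single]
  by_cases h : i = Fin.rev q ∧ j = Fin.rev p
  · rw [if_pos h, if_pos]
    exact ⟨by rw [h.2, Fin.rev_rev], by rw [h.1, Fin.rev_rev]⟩
  · rw [if_neg h, map_zero, if_neg]
    rintro ⟨h1, h2⟩
    exact h ⟨by rw [← h2, Fin.rev_rev], by rw [← h1, Fin.rev_rev]⟩

theorem I15_mk (σ : F ≃+* F) (X : Matrix (Fin n) (Fin n) F)
    (h : adj σ Fin.revPerm X + X + adj σ Fin.revPerm X * X = 0) :
    ∃ g : GL (Fin n) F, g ∈ UG σ Fin.revPerm ∧ (g : Matrix (Fin n) (Fin n) F) = 1 + X := by
  have h1 : adj σ Fin.revPerm (1 + X) * (1 + X) = 1 := by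
    rw [I15_adj_add, adj_one]
    have h2 : (1 + adj σ Fin.revPerm X) * (1 + X) =
        1 + (adj σ Fin.revPerm X + X + adj σ Fin.revPerm X * X) := by noncomm_ring
    rw [h2, h, add_zero]
  exact ⟨⟨1 + X, adj σ Fin.revPerm (1 + X), mul_eq_one_comm.1 h1, h1⟩, h1, rfl⟩

theorem I15_self [CharP F 2] (X : Matrix (Fin n) (Fin n) F) : X + X = 0 := by
  ext p q
  exact CharTwo.add_self_eq_zero (X p q)

theorem I15_ss (i j k l : Fin n) (s t : F) :
    Matrix.single i j s * Matrix.single k l t = if j = k then Matrix.single i l (s * t) else 0 := by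
  split_ifs with h
  · subst h
    rw [Matrix.single_mul_single_same]
  · exact Matrix.single_mul_single_of_ne _ _ _ _ h _

theorem I15_fix {i j : Fin n} (hi : i = Fin.rev i) (hj : j = Fin.rev j) : i = j := by
  have h1 := congrArg Fin.val hi
  have h2 := congrArg Fin.val hj
  rw [Fin.val_rev] at h1 h2
  have h3 := i.2
  have h4 := j.2
  apply Fin.ext
  omega

theorem I15_norm {σ : F ≃+* F} (hH : Hyp σ n) {j : Fin n} (hj : j = Fin.rev j) [CharP F 2] (s : F) :
    ∃ a : F, a + σ a = s * σ s := by
  refine ff4 hH.1 ?_ (by rw [map_mul, hH.1, mul_comm])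
  intro h
  have h1 := (hH.2 (fun x => by rw [h]; rfl)).1
  have h2 := congrArg Fin.val hj
  rw [Fin.val_rev] at h2
  have h3 := j.2
  obtain ⟨m, hm⟩ := h1
  omega

theorem exists_re [Finite F] [CharP F 2] {σ : F ≃+* F} (hH : Hyp σ n) {i j : Fin n} (hij : i ≠ j) {s : F}
    (hs : j = Fin.rev i → σ s = s) : IsRe σ i j s (re σ i j s) := by
  have hex : ∃ g, IsRe σ i j s g := by
    have hrr : Fin.rev i ≠ Fin.rev j := fun h => hij (Fin.rev_injective h)
    by_cases hj : j = Fin.rev i
    · -- the position is on the antidiagonal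
      have hi : i = Fin.rev j := by rw [hj, Fin.rev_rev]
      obtain ⟨g, hg, hgX⟩ := I15_mk σ (Matrix.single i j s) (by
        rw [I15_adj_single, ← hi, ← hj, hs hj, I15_self, zero_add, I15_ss, if_neg (fun h => hij h.symm)])
      refine ⟨g, hg, ?_, ?_, ?_⟩
      · rw [hgX, Matrix.add_apply, Matrix.one_apply_ne hij, I15_single, if_pos ⟨rfl, rfl⟩, zero_add]
      · rw [hgX, ← hi, ← hj, Matrix.add_apply, Matrix.one_apply_ne hij, I15_single, if_pos ⟨rfl, rfl⟩,
          zero_add, hs hj]
      · intro p q h1 _ _ _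
        rw [hgX, Matrix.add_apply, I15_single, if_neg (fun h => h1 ⟨h.1.symm, h.2.symm⟩), add_zero]
    · have hj' : i ≠ Fin.rev j := fun h => hj (by rw [h, Fin.rev_rev])
      by_cases hjj : j = Fin.rev j
      · have hii : i ≠ Fin.rev i := fun h => hij (I15_fix h hjj)
        obtain ⟨a, ha⟩ := I15_norm hH hjj s
        obtain ⟨g, hg, hgX⟩ := I15_mk σ (Matrix.single i j s + Matrix.single (Fin.rev j) (Fin.rev i) (σ s) +
            Matrix.single i (Fin.rev i) a) (by
          rw [I15_adj_add, I15_adj_add, I15_adj_single, I15_adj_single, I15_adj_single, hH.1,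
            Fin.rev_rev, Fin.rev_rev, ← hjj]
          simp only [add_mul, mul_add, I15_ss, if_neg hii.symm, if_neg (Ne.symm hj), if_neg hij.symm,
            if_neg hij, if_pos rfl, if_true, add_zero, zero_add]
          have h3 : Matrix.single i (Fin.rev i) (s * σ s) =
              Matrix.single i (Fin.rev i) a + Matrix.single i (Fin.rev i) (σ a) := by
            rw [← ha, Matrix.single_add]
          rw [h3]
          have h4 : ∀ A B C D : Matrix (Fin n) (Fin n) F,
              A + B + C + (B + A + D) + (D + C) = (A + A) + (B + B) + (C + C) + (D + D) := by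
            intro A B C D
            abel
          rw [h4]
          simp only [I15_self, add_zero])
        refine ⟨g, hg, ?_, ?_, ?_⟩
        · rw [hgX, Matrix.add_apply, Matrix.add_apply, Matrix.add_apply, Matrix.one_apply_ne hij,
            I15_single, I15_single, I15_single, if_pos ⟨rfl, rfl⟩, if_neg (fun h => hj h.2.symm),
            if_neg (fun h => hj h.2.symm)]
          simp
        · rw [hgX, Matrix.add_apply, Matrix.add_apply, Matrix.add_apply, Matrix.one_apply_ne hrr.symm,
            I15_single, I15_single, I15_single, if_neg (fun h => hj' h.1), if_pos ⟨rfl, rfl⟩,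
            if_neg (fun h => hj' h.1)]
          simp
        · intro p q h1 h2 h3 _
          rw [hgX, Matrix.add_apply, Matrix.add_apply, Matrix.add_apply, I15_single, I15_single, I15_single,
            if_neg (fun h => h1 ⟨h.1.symm, h.2.symm⟩), if_neg (fun h => h2 ⟨h.1.symm, h.2.symm⟩),
            if_neg (fun h => h3 ⟨hjj, h.1.symm, h.2.symm⟩)]
          simp
      · by_cases hii : i = Fin.rev i
        · obtain ⟨a, ha⟩ := I15_norm hH hii s
          obtain ⟨g, hg, hgX⟩ := I15_mk σ (Matrix.single i j s + Matrix.single (Fin.rev j) (Fin.rev i) (σ s) +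
              Matrix.single (Fin.rev j) j a) (by
            rw [I15_adj_add, I15_adj_add, I15_adj_single, I15_adj_single, I15_adj_single, hH.1,
              Fin.rev_rev, Fin.rev_rev, ← hii]
            simp only [add_mul, mul_add, I15_ss, if_neg hjj, if_neg (Ne.symm hjj), if_neg hij.symm,
              if_neg hj', if_neg hij, if_pos rfl, if_true, add_zero, zero_add]
            have h3 : Matrix.single (Fin.rev j) j (σ s * s) =
                Matrix.single (Fin.rev j) j a + Matrix.single (Fin.rev j) j (σ a) := by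
              rw [mul_comm, ← ha, Matrix.single_add]
            rw [h3]
            have h4 : ∀ A B C D : Matrix (Fin n) (Fin n) F,
                A + B + C + (B + A + D) + (D + C) = (A + A) + (B + B) + (C + C) + (D + D) := by
              intro A B C D
              abel
            rw [h4]
            simp only [I15_self, add_zero])
          refine ⟨g, hg, ?_, ?_, ?_⟩
          · rw [hgX, Matrix.add_apply, Matrix.add_apply, Matrix.add_apply, Matrix.one_apply_ne hij,
              I15_single, I15_single, I15_single, if_pos ⟨rfl, rfl⟩, if_neg (fun h => hj h.2.symm),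
              if_neg (fun h => hj' h.1.symm)]
            simp
          · rw [hgX, Matrix.add_apply, Matrix.add_apply, Matrix.add_apply, Matrix.one_apply_ne hrr.symm,
              I15_single, I15_single, I15_single, if_neg (fun h => hj' h.1), if_pos ⟨rfl, rfl⟩,
              if_neg (fun h => hj h.2)]
            simp
          · intro p q h1 h2 _ h3
            rw [hgX, Matrix.add_apply, Matrix.add_apply, Matrix.add_apply, I15_single, I15_single, I15_single,
              if_neg (fun h => h1 ⟨h.1.symm, h.2.symm⟩), if_neg (fun h => h2 ⟨h.1.symm, h.2.symm⟩),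
              if_neg (fun h => h3 ⟨hii, h.1.symm, h.2.symm⟩)]
            simp
        · obtain ⟨g, hg, hgX⟩ := I15_mk σ (Matrix.single i j s + Matrix.single (Fin.rev j) (Fin.rev i) (σ s)) (by
            rw [I15_adj_add, I15_adj_single, I15_adj_single, hH.1, Fin.rev_rev, Fin.rev_rev]
            simp only [add_mul, mul_add, I15_ss, if_neg hjj, if_neg (Ne.symm hii), if_neg hij.symm,
              if_neg hrr, add_zero, zero_add]
            rw [add_comm (Matrix.single (Fin.rev j) (Fin.rev i) (σ s)), I15_self])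
          refine ⟨g, hg, ?_, ?_, ?_⟩
          · rw [hgX, Matrix.add_apply, Matrix.add_apply, Matrix.one_apply_ne hij,
              I15_single, I15_single, if_pos ⟨rfl, rfl⟩, if_neg (fun h => hj h.2.symm)]
            simp
          · rw [hgX, Matrix.add_apply, Matrix.add_apply, Matrix.one_apply_ne hrr.symm,
              I15_single, I15_single, if_neg (fun h => hj' h.1), if_pos ⟨rfl, rfl⟩]
            simp
          · intro p q h1 h2 _ _
            rw [hgX, Matrix.add_apply, Matrix.add_apply, I15_single, I15_single,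
              if_neg (fun h => h1 ⟨h.1.symm, h.2.symm⟩), if_neg (fun h => h2 ⟨h.1.symm, h.2.symm⟩)]
            simp
  rw [re, dif_pos hex]
  exact hex.choose_spec

theorem IsRe.U [Finite F] {σ : F ≃+* F} {i j : Fin n} {s : F} {g : GL (Fin n) F} (h : IsRe σ i j s g)
    {x : Fin n → ℝ} (hx : ∀ i, x (Fin.rev i) = - x i) (hij : x j < x i) : g ∈ UU σ x := by
  rw [mem_UU]
  refine ⟨h.mem, fun p q hpq => h.e3 p q ?_ ?_ ?_ ?_⟩
  · rintro ⟨rfl, rfl⟩
    exact hpq hij
  · rintro ⟨rfl, rfl⟩
    apply hpq
    rw [hx, hx]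
    linarith
  · rintro ⟨hj, rfl, rfl⟩
    apply hpq
    have h1 := hx j
    rw [← hj] at h1
    rw [hx]
    linarith
  · rintro ⟨hi, rfl, rfl⟩
    apply hpq
    have h1 := hx i
    rw [← hi] at h1
    rw [hx]
    linarith

theorem IsRe.L [Finite F] {σ : F ≃+* F} {i j : Fin n} {s : F} {g : GL (Fin n) F} (h : IsRe σ i j s g)
    {x : Fin n → ℝ} (hx : ∀ i, x (Fin.rev i) = - x i) (hij : x i = x j) : g ∈ UL σ Fin.revPerm x := by
  rw [mem_UL]
  refine ⟨h.mem, fun p q hpq => ?_⟩
  rw [h.e3 p q ?_ ?_ ?_ ?_, Matrix.one_apply_ne (fun h' => hpq (congrArg x h'))]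
  · rintro ⟨rfl, rfl⟩
    exact hpq hij
  · rintro ⟨rfl, rfl⟩
    apply hpq
    rw [hx, hx, hij]
  · rintro ⟨hj, rfl, rfl⟩
    apply hpq
    have h1 := hx j
    rw [← hj] at h1
    rw [hx]
    linarith
  · rintro ⟨hi, rfl, rfl⟩
    apply hpq
    have h1 := hx i
    rw [← hi] at h1
    rw [hx]
    linarith

theorem c_s10 [Finite F] [CharP F 2] {σ : F ≃+* F} (hH : Hyp σ n) : ∀ a ∈ Rt n, ∃ g : GL (Fin n) F, g ≠ 1 ∧
    ∀ x : En n, (0 < inner ℝ a x → g ∈ UU σ (co x)) ∧ (inner ℝ a x = 0 → g ∈ UL σ Fin.revPerm (co x)) := by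
  rw [forall_Rt]
  intro i j hij
  have h := exists_re hH hij (s := 1) (fun _ => map_one σ)
  refine ⟨re σ i j 1, ?_, fun x => ⟨fun h1 => ?_, fun h1 => ?_⟩⟩
  · intro h1
    have h2 := h.e1
    rw [h1, Units.val_one, Matrix.one_apply_ne hij] at h2
    exact zero_ne_one h2
  · rw [pos_rt] at h1
    exact h.U (co_rev x) h1
  · rw [zero_rt] at h1
    exact h.L (co_rev x) h1

end

end LieP.GI
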