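import Pool.Agent.LieP.I02

/-!
# MP_6c3636_al, section 15, module I22 (stub by helper89)

Entries of the elements of the filtration `Uk`. All by `mem_Uk` and the definition of the product; `en g r s = 0` outside of the range.
`en_rev_Uk`: `x⁻¹ = adj x`, `inv_apply_UG`, `en_inv_Uk` and char 2. `comm_Uk`: `x y x⁻¹ y⁻¹ - 1 = (x y - y x) x⁻¹ y⁻¹`, `x y - y x = (x-1)(y-1) - (y-1)(x-1)` has support in `{j ≥ i + b + 1}`, and multiplication with
the unitriangular `x⁻¹ y⁻¹` does not change the entries on the superdiagonal `j = i + b + 1`.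
-/

namespace LieP.GI

noncomputable section

open Classical Matrix

variable {n : ℕ} {F : Type} [Field F]

/-- support in `j ≥ i + m` -/
def I22_Z (m : ℕ) (A : Matrix (Fin n) (Fin n) F) : Prop := ∀ i j : Fin n, (j : ℕ) < (i : ℕ) + m → A i j = 0

theorem I22_Z.mul {a b : ℕ} {A B : Matrix (Fin n) (Fin n) F} (hA : I22_Z a A) (hB : I22_Z b B) :
    I22_Z (a + b) (A * B) := by
  intro i j hij
  rw [Matrix.mul_apply]
  refine Finset.sum_eq_zero fun k _ => ?_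
  by_cases h : (k : ℕ) < (i : ℕ) + a
  · rw [hA i k h, zero_mul]
  · rw [hB k j (by omega), mul_zero]

theorem I22_Z.mul_top {a b : ℕ} {A B : Matrix (Fin n) (Fin n) F} (hA : I22_Z a A) (hB : I22_Z b B) (i j k : Fin n)
    (hj : (j : ℕ) = (i : ℕ) + (a + b)) (hk : (k : ℕ) = (i : ℕ) + a) : (A * B) i j = A i k * B k j := by
  rw [Matrix.mul_apply, Finset.sum_eq_single k]
  · intro l _ hl
    have hl' : (l : ℕ) ≠ (k : ℕ) := fun h => hl (Fin.ext h)
    by_cases h : (l : ℕ) < (i : ℕ) + a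
    · rw [hA i l h, zero_mul]
    · rw [hB l j (by omega), mul_zero]
  · intro h
    exact absurd (Finset.mem_univ _) h

theorem I22_Z.mono {a b : ℕ} (h : b ≤ a) {A : Matrix (Fin n) (Fin n) F} (hA : I22_Z a A) : I22_Z b A :=
  fun i j hij => hA i j (by omega)

theorem I22_Z.add {a : ℕ} {A B : Matrix (Fin n) (Fin n) F} (hA : I22_Z a A) (hB : I22_Z a B) : I22_Z a (A + B) :=
  fun i j hij => by rw [Matrix.add_apply, hA i j hij, hB i j hij, add_zero]

theorem I22_Z.sub {a : ℕ} {A B : Matrix (Fin n) (Fin n) F} (hA : I22_Z a A) (hB : I22_Z a B) : I22_Z a (A - B) :=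
  fun i j hij => by rw [Matrix.sub_apply, hA i j hij, hB i j hij, sub_zero]

theorem I22_Z_of [Finite F] {σ : F ≃+* F} {k : ℕ} {g : GL (Fin n) F} (hg : g ∈ Uk n σ k) :
    I22_Z k ((g : Matrix (Fin n) (Fin n) F) - 1) := by
  intro i j hij
  rw [Matrix.sub_apply, (mem_Uk.1 hg).2 i j (fun h => by omega), sub_self]

theorem I22_of_Z [Finite F] {σ : F ≃+* F} {k : ℕ} (hk : 1 ≤ k) {g : GL (Fin n) F} (hg : g ∈ UG σ Fin.revPerm)
    (hZ : I22_Z k ((g : Matrix (Fin n) (Fin n) F) - 1)) : g ∈ Uk n σ k := by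
  rw [mem_Uk]
  refine ⟨hg, fun i j hij => ?_⟩
  have h1 : (j : ℕ) < (i : ℕ) + k := by
    by_contra h
    exact hij ⟨by omega, Fin.lt_def.2 (by omega)⟩
  have h2 := hZ i j h1
  rw [Matrix.sub_apply] at h2
  exact sub_eq_zero.1 h2

theorem I22_top (A : Matrix (Fin n) (Fin n) F) (i j : Fin n) (h : (i : ℕ) < j) : (A - 1) i j = A i j := by
  rw [Matrix.sub_apply, Matrix.one_apply_ne (fun h' => by rw [h'] at h; exact lt_irrefl _ h), sub_zero]

theorem Uk_en_diag [Finite F] {σ : F ≃+* F} {k : ℕ} {g : GL (Fin n) F} (hg : g ∈ Uk n σ k) {r : ℕ} (hr : r < n) :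
    en g r r = 1 := by
  rw [en_eq g hr hr, (mem_Uk.1 hg).2 _ _ (fun h => lt_irrefl _ h.2), Matrix.one_apply_eq]

theorem Uk_en_low [Finite F] {σ : F ≃+* F} {k : ℕ} {g : GL (Fin n) F} (hg : g ∈ Uk n σ k) {r s : ℕ} (h : s < r) :
    en g r s = 0 := by
  by_cases hr : r < n
  · have hs : s < n := h.trans hr
    rw [en_eq g hr hs, (mem_Uk.1 hg).2 _ _ (fun h' => absurd h'.2 (fun h'' => by
      have := Fin.lt_def.1 h''
      simp only at this
      omega)), Matrix.one_apply_ne (fun h' => by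
      have := Fin.mk.inj h'
      omega)]
  · rw [en, dif_neg (fun h' => hr h'.1)]

theorem Uk_en_zero [Finite F] {σ : F ≃+* F} {k : ℕ} {g : GL (Fin n) F} (hg : g ∈ Uk n σ k) {r s : ℕ} (h : r < s)
    (h' : s < r + k) : en g r s = 0 := by
  by_cases hs : s < n
  · have hr : r < n := h.trans hs
    rw [en_eq g hr hs, (mem_Uk.1 hg).2 _ _ (fun h'' => by
      have h3 : r + k ≤ s := h''.1
      omega), Matrix.one_apply_ne (fun h'' => by
      have := Fin.mk.inj h''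
      omega)]
  · rw [en, dif_neg (fun h'' => hs h''.2)]

theorem en_mul_Uk [Finite F] {σ : F ≃+* F} {k : ℕ} (hk : 1 ≤ k) {x y : GL (Fin n) F} (hx : x ∈ Uk n σ k)
    (hy : y ∈ Uk n σ k) (r : ℕ) : en (x * y) r (r + k) = en x r (r + k) + en y r (r + k) := by
  by_cases h : r + k < n
  · have hr : r < n := by omega
    rw [en_eq _ hr h, en_eq _ hr h, en_eq _ hr h, Units.val_mul]
    have h1 : (x : Matrix (Fin n) (Fin n) F) * (y : Matrix (Fin n) (Fin n) F) - 1 =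
        ((x : Matrix (Fin n) (Fin n) F) - 1) + ((y : Matrix (Fin n) (Fin n) F) - 1) +
          ((x : Matrix (Fin n) (Fin n) F) - 1) * ((y : Matrix (Fin n) (Fin n) F) - 1) := by
      noncomm_ring
    have hlt : ((⟨r, hr⟩ : Fin n) : ℕ) < ((⟨r + k, h⟩ : Fin n) : ℕ) := by
      show r < r + k
      omega
    have h2 := congrFun (congrFun h1 ⟨r, hr⟩) ⟨r + k, h⟩
    rw [I22_top _ _ _ hlt, Matrix.add_apply, Matrix.add_apply, I22_top _ _ _ hlt, I22_top _ _ _ hlt,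
      (I22_Z_of hx).mul (I22_Z_of hy) ⟨r, hr⟩ ⟨r + k, h⟩ (by show r + k < r + (k + k); omega), add_zero] at h2
    exact h2
  · have h3 : ∀ g : GL (Fin n) F, en g r (r + k) = 0 := fun g => by
      rw [en, dif_neg (fun h' => h h'.2)]
    rw [h3, h3, h3, add_zero]

theorem I22_en_one {k : ℕ} (hk : 1 ≤ k) (r : ℕ) : en (1 : GL (Fin n) F) r (r + k) = 0 := by
  by_cases h : r + k < n
  · have hr : r < n := by omega
    rw [en_eq _ hr h, Units.val_one, Matrix.one_apply_ne (fun h' => by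
      have := Fin.mk.inj h'
      omega)]
  · rw [en, dif_neg (fun h' => h h'.2)]

theorem en_inv_Uk [Finite F] {σ : F ≃+* F} {k : ℕ} (hk : 1 ≤ k) {x : GL (Fin n) F} (hx : x ∈ Uk n σ k) (r : ℕ) :
    en x⁻¹ r (r + k) = - en x r (r + k) := by
  have h1 := en_mul_Uk hk (Subgroup.inv_mem _ hx) hx r
  rw [inv_mul_cancel, I22_en_one hk] at h1
  exact eq_neg_of_add_eq_zero_left h1.symm

theorem en_rev_Uk [Finite F] [CharP F 2] {σ : F ≃+* F} {k : ℕ} (hk : 1 ≤ k) {x : GL (Fin n) F} (hx : x ∈ Uk n σ k)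
    (hσ : ∀ x, σ (σ x) = x) {r : ℕ} (h : r + k < n) : en x (n - 1 - (r + k)) (n - 1 - r) = σ (en x r (r + k)) := by
  have hr : r < n := by omega
  have h1 : en x⁻¹ r (r + k) = en x r (r + k) := by
    rw [en_inv_Uk hk hx, CharTwo.neg_eq]
  rw [← h1, en_eq _ hr h, inv_apply_UG (mem_Uk.1 hx).1, hσ, ← en_coe]
  have e1 : ((Fin.rev (⟨r + k, h⟩ : Fin n) : Fin n) : ℕ) = n - 1 - (r + k) := by
    rw [Fin.val_rev]
    show n - (r + k + 1) = _
    omega
  have e2 : ((Fin.rev (⟨r, hr⟩ : Fin n) : Fin n) : ℕ) = n - 1 - r := by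
    rw [Fin.val_rev]
    show n - (r + 1) = _
    omega
  rw [e1, e2]

theorem Uk_succ [Finite F] {σ : F ≃+* F} {k : ℕ} (hk : 1 ≤ k) {x : GL (Fin n) F} (hx : x ∈ Uk n σ k)
    (h : ∀ r, r + k < n → en x r (r + k) = 0) : x ∈ Uk n σ (k + 1) := by
  refine I22_of_Z (by omega) (mem_Uk.1 hx).1 fun i j hij => ?_
  by_cases h1 : (j : ℕ) < (i : ℕ) + k
  · exact I22_Z_of hx i j h1
  · have h2 : (j : ℕ) = (i : ℕ) + k := by omega
    rw [I22_top _ _ _ (by omega), ← en_coe, h2]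
    exact h _ (by have := j.2; omega)

theorem Uk_top [Finite F] {σ : F ≃+* F} {x : GL (Fin n) F} (hx : x ∈ Uk n σ n) : x = 1 := by
  apply Units.ext
  rw [Units.val_one]
  ext i j
  exact (mem_Uk.1 hx).2 i j (fun h => by have := j.2; omega)

theorem mem_comm {G : Type} [Group G] {U V : Subgroup G} {x y : G} (hx : x ∈ U) (hy : y ∈ V) :
    x * y * x⁻¹ * y⁻¹ ∈ (⁅U, V⁆ : Subgroup G) := Subgroup.commutator_mem_commutator hx hy

theorem comm_Uk [Finite F] {σ : F ≃+* F} {b : ℕ} (hb : 1 ≤ b) {x y : GL (Fin n) F} (hx : x ∈ Uk n σ 1)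
    (hy : y ∈ Uk n σ b) : x * y * x⁻¹ * y⁻¹ ∈ Uk n σ (b + 1) ∧ ∀ r, r + b + 1 < n →
      en (x * y * x⁻¹ * y⁻¹) r (r + (b + 1)) =
        en x r (r + 1) * en y (r + 1) (r + 1 + b) - en y r (r + b) * en x (r + b) (r + b + 1) := by
  obtain ⟨X, hX⟩ : ∃ X : Matrix (Fin n) (Fin n) F, X = (x : Matrix (Fin n) (Fin n) F) - 1 := ⟨_, rfl⟩
  obtain ⟨Y, hY⟩ : ∃ Y : Matrix (Fin n) (Fin n) F, Y = (y : Matrix (Fin n) (Fin n) F) - 1 := ⟨_, rfl⟩
  obtain ⟨W, hW⟩ : ∃ W : Matrix (Fin n) (Fin n) F,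
    W = ((x⁻¹ * y⁻¹ : GL (Fin n) F) : Matrix (Fin n) (Fin n) F) := ⟨_, rfl⟩
  have hZX : I22_Z 1 X := hX ▸ I22_Z_of hx
  have hZY : I22_Z b Y := hY ▸ I22_Z_of hy
  have hy1 : y ∈ Uk n σ 1 := Uk_anti σ hb hy
  have hZW : I22_Z 1 (W - 1) := hW ▸ I22_Z_of (Subgroup.mul_mem _ (Subgroup.inv_mem _ hx) (Subgroup.inv_mem _ hy1))
  have hxy : (x * y * x⁻¹ * y⁻¹ : GL (Fin n) F) = (x * y) * (x⁻¹ * y⁻¹) := by group
  have hyx : (y * x) * (x⁻¹ * y⁻¹) = (1 : GL (Fin n) F) := by group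
  have hyx' : ((y : Matrix (Fin n) (Fin n) F) * (x : Matrix (Fin n) (Fin n) F)) * W = 1 := by
    rw [hW, ← Units.val_mul, ← Units.val_mul, hyx, Units.val_one]
  have hC : ((x * y * x⁻¹ * y⁻¹ : GL (Fin n) F) : Matrix (Fin n) (Fin n) F) - 1 =
      (X * Y - Y * X) + (X * Y - Y * X) * (W - 1) := by
    have hD : X * Y - Y * X = (x : Matrix (Fin n) (Fin n) F) * (y : Matrix (Fin n) (Fin n) F) -
        (y : Matrix (Fin n) (Fin n) F) * (x : Matrix (Fin n) (Fin n) F) := by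
      rw [hX, hY]
      noncomm_ring
    have hDW : (X * Y - Y * X) + (X * Y - Y * X) * (W - 1) = (X * Y - Y * X) * W := by
      noncomm_ring
    rw [hDW, hD, hxy, Units.val_mul, Units.val_mul, ← hW, Matrix.sub_mul, hyx']
  have hZD : I22_Z (b + 1) (X * Y - Y * X) := by
    refine I22_Z.sub ?_ (hZY.mul hZX)
    have h1 := hZX.mul hZY
    rw [add_comm 1 b] at h1
    exact h1
  have hZE : I22_Z (b + 2) ((X * Y - Y * X) * (W - 1)) := hZD.mul hZW
  refine ⟨I22_of_Z (by omega) ?_ ?_, fun r hr => ?_⟩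
  · have hx' := (mem_Uk.1 hx).1
    have hy' := (mem_Uk.1 hy).1
    exact Subgroup.mul_mem _ (Subgroup.mul_mem _ (Subgroup.mul_mem _ hx' hy') (Subgroup.inv_mem _ hx'))
      (Subgroup.inv_mem _ hy')
  · rw [hC]
    exact hZD.add (hZE.mono (by omega))
  · have hr0 : r < n := by omega
    have hr1 : r + 1 < n := by omega
    have hrb : r + b < n := by omega
    have hrb1 : r + (b + 1) < n := by omega
    have h1 := congrFun (congrFun hC ⟨r, hr0⟩) ⟨r + (b + 1), hrb1⟩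
    have e1 : r + 1 + b = r + (b + 1) := by omega
    have e2 : r + b + 1 = r + (b + 1) := by omega
    rw [I22_top _ _ _ (by show r < r + (b + 1); omega), Matrix.add_apply,
      hZE ⟨r, hr0⟩ ⟨r + (b + 1), hrb1⟩ (by show r + (b + 1) < r + (b + 2); omega), add_zero, Matrix.sub_apply,
      hZX.mul_top hZY ⟨r, hr0⟩ ⟨r + (b + 1), hrb1⟩ ⟨r + 1, hr1⟩ (by show r + (b + 1) = r + (1 + b); omega) rfl,
      hZY.mul_top hZX ⟨r, hr0⟩ ⟨r + (b + 1), hrb1⟩ ⟨r + b, hrb⟩ rfl rfl, hX, hY,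
      I22_top _ _ _ (by show r < r + 1; omega), I22_top _ _ _ (by show r + 1 < r + (b + 1); omega),
      I22_top _ _ _ (by show r < r + b; omega), I22_top _ _ _ (by show r + b < r + (b + 1); omega)] at h1
    rw [e1, e2, en_eq _ hr0 hrb1, en_eq _ hr0 hr1, en_eq _ hr1 hrb1, en_eq _ hr0 hrb, en_eq _ hrb hrb1]
    exact h1

end

end LieP.GI
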