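import Pool.Agent.LieP.I15
import Pool.Agent.LieP.I22

/-!
# MP_6c3636_al, section 15, module I23 (stub by helper89)

Root elements in the filtration. `(i, j)`, `i < j`: the nontrivial entries of a root element are at `(i, j)`, `(rev j, rev i)` (same distance) and possibly at `(i, rev i)` resp. `(rev j, j)` with
distance `2 (j - i)`. `reN_mem`: `q + r + 2 = n` and `2 q + 2 ≤ n`, `2 r + 2 ≤ n` imply `q = r`.
-/

namespace LieP.GI

noncomputable section

open Classical Matrix

variable {n : ℕ} {F : Type} [Field F]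

theorem IsRe.uk [Finite F] {σ : F ≃+* F} {i j : ℕ} (hij : i < j) (hj : j < n) {s : F} {g : GL (Fin n) F}
    (h : IsRe σ (⟨i, hij.trans hj⟩ : Fin n) ⟨j, hj⟩ s g) {k : ℕ} (hk : i + k = j) :
    g ∈ Uk n σ k ∧ ∀ r, r + k < n → en g r (r + k) = if r = i then s else if r + j + 1 = n then σ s else 0 := by
  have hri : ((Fin.rev (⟨i, hij.trans hj⟩ : Fin n) : Fin n) : ℕ) = n - (i + 1) := Fin.val_rev _
  have hrj : ((Fin.rev (⟨j, hj⟩ : Fin n) : Fin n) : ℕ) = n - (j + 1) := Fin.val_rev _
  refine ⟨mem_Uk.2 ⟨h.mem, ?_⟩, ?_⟩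
  · intro p q hpq
    apply h.e3
    · rintro ⟨rfl, rfl⟩
      apply hpq
      refine ⟨?_, Fin.lt_def.2 ?_⟩
      · show i + k ≤ j
        omega
      · show i < j
        omega
    · rintro ⟨rfl, rfl⟩
      apply hpq
      refine ⟨?_, Fin.lt_def.2 ?_⟩
      · rw [hri, hrj]
        omega
      · rw [hri, hrj]
        omega
    · rintro ⟨h1, rfl, rfl⟩
      have h2 : j = n - (j + 1) := by
        rw [← hrj, ← h1]
      apply hpq
      refine ⟨?_, Fin.lt_def.2 ?_⟩
      · rw [hri]
        show i + k ≤ _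
        omega
      · rw [hri]
        show i < _
        omega
    · rintro ⟨h1, rfl, rfl⟩
      have h2 : i = n - (i + 1) := by
        rw [← hri, ← h1]
      apply hpq
      refine ⟨?_, Fin.lt_def.2 ?_⟩
      · rw [hrj]
        show _ ≤ j
        omega
      · rw [hrj]
        show _ < j
        omega
  · intro r hr
    have hr' : r < n := by omega
    rw [en_eq g hr' hr]
    split_ifs with h1 h2
    · subst h1
      have h3 : (⟨r + k, hr⟩ : Fin n) = ⟨j, hj⟩ := Fin.ext hk
      rw [h3]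
      exact h.e1
    · have h3 : (⟨r, hr'⟩ : Fin n) = Fin.rev ⟨j, hj⟩ := by
        apply Fin.ext
        rw [hrj]
        show r = _
        omega
      have h4 : (⟨r + k, hr⟩ : Fin n) = Fin.rev ⟨i, hij.trans hj⟩ := by
        apply Fin.ext
        rw [hri]
        show r + k = _
        omega
      rw [h3, h4]
      exact h.e2
    · rw [h.e3]
      · apply Matrix.one_apply_ne
        intro h3
        have h4 : r = r + k := congrArg Fin.val h3
        omega
      · rintro ⟨h3, _⟩
        exact h1 (congrArg Fin.val h3)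
      · rintro ⟨h3, _⟩
        have h4 := congrArg Fin.val h3
        rw [hrj] at h4
        have h5 : r = n - (j + 1) := h4
        omega
      · rintro ⟨_, h3, _⟩
        exact h1 (congrArg Fin.val h3)
      · rintro ⟨_, h3, _⟩
        have h4 := congrArg Fin.val h3
        rw [hrj] at h4
        have h5 : r = n - (j + 1) := h4
        omega

theorem reN_mem [Finite F] [CharP F 2] {σ : F ≃+* F} (hH : Hyp σ n) {r : ℕ} (hr : 2 * r + 2 ≤ n) {s : F}
    (hs : Al0 n σ r s) : reN n σ r s ∈ Uk n σ 1 ∧ en (reN n σ r s) r (r + 1) = s ∧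
      ∀ q, q ≠ r → 2 * q + 2 ≤ n → en (reN n σ r s) q (q + 1) = 0 := by
  have hn : r + 1 < n := by omega
  have h0 : reN n σ r s = re σ ⟨r, Nat.lt_of_succ_lt hn⟩ ⟨r + 1, hn⟩ s := by
    rw [reN, dif_pos hn]
  have hre : IsRe σ (⟨r, Nat.lt_of_succ_lt hn⟩ : Fin n) ⟨r + 1, hn⟩ s
      (re σ ⟨r, Nat.lt_of_succ_lt hn⟩ ⟨r + 1, hn⟩ s) := by
    apply exists_re hH
    · intro h
      have h1 : r = r + 1 := congrArg Fin.val h
      omega
    · intro h
      apply hs
      have h1 := congrArg Fin.val h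
      rw [Fin.val_rev] at h1
      have h2 : r + 1 = n - (r + 1) := h1
      omega
  obtain ⟨h1, h2⟩ := IsRe.uk (Nat.lt_succ_self r) hn hre (k := 1) rfl
  rw [h0]
  refine ⟨h1, ?_, ?_⟩
  · rw [h2 r hn, if_pos rfl]
  · intro q hq hq2
    rw [h2 q (by omega), if_neg hq, if_neg (by omega)]

theorem reN_isRe [Finite F] [CharP F 2] {σ : F ≃+* F} (hH : Hyp σ n) {r : ℕ} (hr : 2 * r + 2 ≤ n) (h : r + 1 < n)
    {s : F} (hs : Al0 n σ r s) : IsRe σ ⟨r, Nat.lt_of_succ_lt h⟩ ⟨r + 1, h⟩ s (reN n σ r s) := by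
  rw [reN, dif_pos h]
  apply exists_re hH
  · intro h'
    have h1 : r = r + 1 := congrArg Fin.val h'
    omega
  · intro h'
    apply hs
    have h1 := congrArg Fin.val h'
    rw [Fin.val_rev] at h1
    have h2 : r + 1 = n - (r + 1) := h1
    omega

end

end LieP.GI
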