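import Pool.Agent.LieP.I23

/-!
# MP_6c3636_al, section 15, module I24 (stub by helper89)

(15.1)(a). `x := re i (i+1) t`, `y := re (i+1) (i+k) 1`, `d := ⁅x, y⁆`; `comm_Uk` with `b = k - 1`, `IsRe.uk`. The nonzero `x_{r,r+1}`: `r = i` (entry `t`), `r = n-2-i ≥ i` (entry `σ t`). The nonzero
`y_{r,r+k-1}`: `r = i+1` and `r = n-1-i-k ≥ i` (entry `1`). So the entries at `r < i` vanish and the entry at `r = i` is `t` if `2i+k+1 < n`, and `t + σ(t)` if `2i+k+1 = n` (then `n-1-i-k = i`).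
In the first case take `t = s`, in the second `t + σ t = s` (`ff4` of I30). `re i (i+1) t` needs: if `i + 1 = rev i` then `σ t = t`; but `2i + 3 ≤ n`.
-/

namespace LieP.GI

noncomputable section

open Classical Matrix

variable {n : ℕ} {F : Type} [Field F]

theorem commA [Finite F] [CharP F 2] {σ : F ≃+* F} (hH : Hyp σ n) {k i : ℕ} (hk : 2 ≤ k) (h : 2 * i + k + 1 ≤ n)
    {s : F} (hs : 2 * i + k + 1 = n → σ s = s ∧ ∃ x, σ x ≠ x) :
    ∃ d ∈ (⁅Uk n σ 1, Uk n σ 1⁆ : Subgroup (GL (Fin n) F)), d ∈ Uk n σ k ∧ en d i (i + k) = s ∧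
      ∀ r, r < i → en d r (r + k) = 0 := by
  obtain ⟨b, rfl⟩ : ∃ b, k = b + 1 := ⟨k - 1, by omega⟩
  have hb : 1 ≤ b := by omega
  have h3 : i + 1 < n := by omega
  have h4 : i + (b + 1) < n := by omega
  obtain ⟨t, ht⟩ : ∃ t : F, (2 * i + (b + 1) + 1 = n → t - σ t = s) ∧ (2 * i + (b + 1) + 1 ≠ n → t = s) := by
    by_cases h0 : 2 * i + (b + 1) + 1 = n
    · obtain ⟨h1, x0, hx0⟩ := hs h0
      obtain ⟨t, ht⟩ := ff4' hH.1 (fun h => hx0 (h x0)) h1
      refine ⟨t, fun _ => ?_, fun h => absurd h0 h⟩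
      rw [CharTwo.sub_eq_add]
      exact ht
    · exact ⟨s, fun h => absurd h h0, fun _ => rfl⟩
  have hx := exists_re (σ := σ) hH (i := (⟨i, Nat.lt_of_succ_lt h3⟩ : Fin n)) (j := ⟨i + 1, h3⟩) (s := t)
    (fun h => by
      have := congrArg Fin.val h
      simp at this) (fun h => by
      have h5 := congrArg Fin.val h
      rw [Fin.val_rev] at h5
      simp only at h5
      omega)
  have hy := exists_re (σ := σ) hH (i := (⟨i + 1, h3⟩ : Fin n)) (j := ⟨i + (b + 1), h4⟩) (s := (1 : F))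
    (fun h => by
      have h5 := congrArg Fin.val h
      simp only at h5
      omega) (fun _ => map_one σ)
  obtain ⟨hx1, hx2⟩ := hx.uk (Nat.lt_succ_self i) h3 (k := 1) rfl
  obtain ⟨hy1, hy2⟩ := hy.uk (i := i + 1) (j := i + (b + 1)) (by omega) h4 (k := b) (by omega)
  obtain ⟨h5, h6⟩ := comm_Uk hb hx1 hy1
  refine ⟨_, mem_comm hx1 (Uk_anti σ hb hy1), h5, ?_, fun r hr => ?_⟩
  · rw [h6 i (by omega), hx2 i (by omega), hy2 (i + 1) (by omega), hy2 i (by omega),
      hx2 (i + b) (by omega), if_pos rfl, if_pos rfl, if_neg (by omega : ¬ i = i + 1),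
      if_neg (by omega : ¬ i + b = i), mul_one]
    by_cases h0 : 2 * i + (b + 1) + 1 = n
    · rw [if_pos (by omega), if_pos (by omega), map_one, one_mul, ht.1 h0]
    · rw [if_neg (by omega), zero_mul, sub_zero, ht.2 h0]
  · rw [h6 r (by omega), hx2 r (by omega), hy2 r (by omega), if_neg (by omega), if_neg (by omega),
      if_neg (by omega), if_neg (by omega), zero_mul, zero_mul, sub_zero]

end

end LieP.GI
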