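import Pool.Agent.LieP.I23

/-!
# MP_6c3636_al, section 15, module I25 (stub by helper89)

(15.1)(b), symplectic case: `σ = 1`, `n` even, `|F| > 2`, `i + k = rev i`, so `k` is odd, `k ≥ 3`. Write `a' = rev a`. `x(t) = 1 + t (E_{i,i+1} + E_{(i+1)',i'})`, `y(s) = 1 + s E_{i+1,(i+1)'}` (both in `Uk 1`; `x(t)² = 1 = y(s)²`).
`⁅x(t), y(s)⁆ = 1 + s t (E_{i,(i+1)'} + E_{i+1,i'}) + s t² E_{i,i'}`. `⁅x(t),y(s)⁆ * ⁅x(c t), y(c⁻¹ s)⁆⁻¹ = 1 + (1+c) s t² E_{i,i'}`; choose `c ≠ 0, 1` and `t = 1`, and `s/(1+c)` instead of `s`.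
It is enough to compute the entries which are needed, or to compute with `Matrix.single` (`transvection`).
-/

namespace LieP.GI

noncomputable section

open Classical Matrix

variable {n : ℕ} {F : Type} [Field F]

theorem I25_sq {A : Matrix (Fin n) (Fin n) F} (h : A * A = 0) : (1 + A) * (1 - A) = 1 := by
  have h1 : (1 + A) * (1 - A) = 1 - A * A := by noncomm_ring
  rw [h1, h, sub_zero]

theorem I25_sq' {A : Matrix (Fin n) (Fin n) F} (h : A * A = 0) : (1 - A) * (1 + A) = 1 := by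
  have h1 : (1 - A) * (1 + A) = 1 - A * A := by noncomm_ring
  rw [h1, h, sub_zero]

/-- the unit `1 + A` -/
def I25_un (A : Matrix (Fin n) (Fin n) F) (h : A * A = 0) : GL (Fin n) F := ⟨1 + A, 1 - A, I25_sq h, I25_sq' h⟩

theorem I25_UG [CharP F 2] {σ : F ≃+* F} (h1 : ∀ x, σ x = x) {A : Matrix (Fin n) (Fin n) F} (h : A * A = 0)
    (hs : ∀ i j, A (Fin.rev j) (Fin.rev i) = A i j) : I25_un A h ∈ UG σ Fin.revPerm := by
  show adj σ Fin.revPerm (1 + A) * (1 + A) = 1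
  have e1 : adj σ Fin.revPerm (1 + A) = 1 - A := by
    ext i j
    show σ ((1 + A) (Fin.rev j) (Fin.rev i)) = (1 - A) i j
    rw [h1, Matrix.add_apply, hs, Matrix.sub_apply, CharTwo.sub_eq_add]
    congr 1
    by_cases h2 : i = j
    · rw [h2, Matrix.one_apply_eq, Matrix.one_apply_eq]
    · rw [Matrix.one_apply_ne h2, Matrix.one_apply_ne (fun h' => h2 (Fin.rev_injective h').symm)]
  rw [e1, I25_sq' h]

theorem I25_U1 [Finite F] [CharP F 2] {σ : F ≃+* F} (h1 : ∀ x, σ x = x) {A : Matrix (Fin n) (Fin n) F} (h : A * A = 0)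
    (hs : ∀ i j, A (Fin.rev j) (Fin.rev i) = A i j) (hZ : I22_Z 1 A) : I25_un A h ∈ Uk n σ 1 := by
  refine I22_of_Z le_rfl (I25_UG h1 h hs) ?_
  show I22_Z 1 ((1 + A) - 1)
  rw [add_sub_cancel_left]
  exact hZ

theorem I25_cm {P Q : Matrix (Fin n) (Fin n) F} (hP : P * P = 0) (hQ : Q * Q = 0) (hQP : Q * (P * Q) = 0) (t s : F) :
    (1 + t • P) * (1 + s • Q) * (1 - t • P) * (1 - s • Q) =
      1 + (t * s) • (P * Q) - (t * s) • (Q * P) - (t * t * s) • (P * (Q * P)) := by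
  simp only [mul_add, add_mul, mul_sub, sub_mul, one_mul, mul_one, Algebra.smul_mul_assoc, Algebra.mul_smul_comm,
    smul_smul, mul_assoc, hP, hQ, hQP, smul_zero, mul_zero, smul_add, smul_sub, add_zero]
  module

theorem I25_cm' {P Q : Matrix (Fin n) (Fin n) F} (hP : P * P = 0) (hQ : Q * Q = 0) (hQP : Q * (P * Q) = 0) (t s : F) :
    (1 + s • Q) * (1 + t • P) * (1 - s • Q) * (1 - t • P) =
      1 - (t * s) • (P * Q) + (t * s) • (Q * P) + (t * t * s) • (P * (Q * P)) := by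
  simp only [mul_add, add_mul, mul_sub, sub_mul, one_mul, mul_one, Algebra.smul_mul_assoc, Algebra.mul_smul_comm,
    smul_smul, mul_assoc, hP, hQ, hQP, smul_zero, mul_zero, smul_add, smul_sub, add_zero]
  module

theorem I25_pr {P Q : Matrix (Fin n) (Fin n) F} (hP : P * P = 0) (hQ : Q * Q = 0) (hQP : Q * (P * Q) = 0) (u v w : F) :
    (1 + u • (P * Q) - u • (Q * P) - v • (P * (Q * P))) * (1 - u • (P * Q) + u • (Q * P) + w • (P * (Q * P))) =
      1 + (w - v) • (P * (Q * P)) := by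
  have hP' : ∀ Z, P * (P * Z) = 0 := fun Z => by rw [← mul_assoc, hP, zero_mul]
  have hQ' : ∀ Z, Q * (Q * Z) = 0 := fun Z => by rw [← mul_assoc, hQ, zero_mul]
  have hQP' : ∀ Z, Q * (P * (Q * Z)) = 0 := fun Z => by
    have : Q * (P * (Q * Z)) = (Q * (P * Q)) * Z := by noncomm_ring
    rw [this, hQP, zero_mul]
  simp only [mul_add, add_mul, mul_sub, sub_mul, one_mul, mul_one, Algebra.smul_mul_assoc, Algebra.mul_smul_comm,
    smul_smul, mul_assoc, hP, hQ, hQP, hP', hQ', hQP', smul_zero, mul_zero]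
  module

theorem I25_c [Finite F] (h : 2 < Nat.card F) : ∃ c : F, c ≠ 0 ∧ c ≠ 1 := by
  by_contra hc
  push Not at hc
  have h1 : (Set.univ : Set F) ⊆ {0, 1} := fun x _ => by
    by_cases hx : x = 0
    · exact Or.inl hx
    · exact Or.inr (hc x hx)
  have h2 := Set.ncard_le_ncard h1 (Set.toFinite _)
  rw [Set.ncard_univ] at h2
  have h3 := Set.ncard_insert_le (0 : F) {1}
  rw [Set.ncard_singleton] at h3
  omega

theorem commB [Finite F] [CharP F 2] {σ : F ≃+* F} (hH : Hyp σ n) (h1 : ∀ x, σ x = x) {k i : ℕ} (hk : 2 ≤ k)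
    (h : 2 * i + k + 1 = n) (s : F) :
    ∃ d ∈ (⁅Uk n σ 1, Uk n σ 1⁆ : Subgroup (GL (Fin n) F)), d ∈ Uk n σ k ∧ en d i (i + k) = s ∧
      ∀ r, r < i → en d r (r + k) = 0 := by
  obtain ⟨c, hc0, hc1⟩ := I25_c (hH.2 h1).2
  obtain ⟨m, hm⟩ := (hH.2 h1).1
  have hk3 : 3 ≤ k := by omega
  have ia : i < n := by omega
  have ib : i + 1 < n := by omega
  have ic : i + k - 1 < n := by omega
  have id : i + k < n := by omega
  obtain ⟨a, ha⟩ : ∃ a : Fin n, a = ⟨i, ia⟩ := ⟨_, rfl⟩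
  obtain ⟨b, hb⟩ : ∃ b : Fin n, b = ⟨i + 1, ib⟩ := ⟨_, rfl⟩
  obtain ⟨e, he⟩ : ∃ e : Fin n, e = ⟨i + k - 1, ic⟩ := ⟨_, rfl⟩
  obtain ⟨f, hf⟩ : ∃ f : Fin n, f = ⟨i + k, id⟩ := ⟨_, rfl⟩
  have va : (a : ℕ) = i := by rw [ha]
  have vb : (b : ℕ) = i + 1 := by rw [hb]
  have ve : (e : ℕ) = i + k - 1 := by rw [he]
  have vf : (f : ℕ) = i + k := by rw [hf]
  have ra : Fin.rev a = f := by
    apply Fin.ext
    rw [Fin.val_rev, va, vf]
    omega
  have rb : Fin.rev b = e := by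
    apply Fin.ext
    rw [Fin.val_rev, vb, ve]
    omega
  have re' : Fin.rev e = b := by rw [← rb, Fin.rev_rev]
  have rf : Fin.rev f = a := by rw [← ra, Fin.rev_rev]
  have hba : b ≠ a := fun h' => by have := congrArg Fin.val h'; omega
  have hbe : b ≠ e := fun h' => by have := congrArg Fin.val h'; omega
  have hfa : f ≠ a := fun h' => by have := congrArg Fin.val h'; omega
  have hfe : f ≠ e := fun h' => by have := congrArg Fin.val h'; omega
  have hfb : f ≠ b := fun h' => by have := congrArg Fin.val h'; omega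
  have hea : e ≠ a := fun h' => by have := congrArg Fin.val h'; omega
  obtain ⟨P, hPd⟩ : ∃ P : Matrix (Fin n) (Fin n) F, P = Matrix.single a b 1 + Matrix.single e f 1 := ⟨_, rfl⟩
  obtain ⟨Q, hQd⟩ : ∃ Q : Matrix (Fin n) (Fin n) F, Q = Matrix.single b e 1 := ⟨_, rfl⟩
  have hP : P * P = 0 := by
    rw [hPd, add_mul, mul_add, mul_add, Matrix.single_mul_single_of_ne _ _ _ _ hba,
      Matrix.single_mul_single_of_ne _ _ _ _ hbe, Matrix.single_mul_single_of_ne _ _ _ _ hfa,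
      Matrix.single_mul_single_of_ne _ _ _ _ hfe]
    simp only [add_zero]
  have hQ : Q * Q = 0 := by
    rw [hQd, Matrix.single_mul_single_of_ne _ _ _ _ hbe.symm]
  have hPQ : P * Q = Matrix.single a e 1 := by
    rw [hPd, hQd, add_mul, Matrix.single_mul_single_same, Matrix.single_mul_single_of_ne _ _ _ _ hfb, mul_one,
      add_zero]
  have hQP' : Q * P = Matrix.single b f 1 := by
    rw [hPd, hQd, mul_add, Matrix.single_mul_single_same, Matrix.single_mul_single_of_ne _ _ _ _ hea, mul_one,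
      zero_add]
  have hQP : Q * (P * Q) = 0 := by
    rw [hPQ, hQd, Matrix.single_mul_single_of_ne _ _ _ _ hea]
  have hPQP : P * (Q * P) = Matrix.single a f 1 := by
    rw [hQP', hPd, add_mul, Matrix.single_mul_single_same, Matrix.single_mul_single_of_ne _ _ _ _ hfb, mul_one,
      add_zero]
  have hr : ∀ p q : Fin n, (p = Fin.rev q) = (Fin.rev p = q) := fun p q => by
    apply propext
    constructor
    · rintro rfl; rw [Fin.rev_rev]
    · rintro rfl; rw [Fin.rev_rev]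
  have sP : ∀ t : F, ∀ i j, (t • P) (Fin.rev j) (Fin.rev i) = (t • P) i j := by
    intro t i j
    rw [hPd]
    simp only [Matrix.smul_apply, Matrix.add_apply, Matrix.single_apply, hr, ra, rb, re', rf]
    rw [add_comm]
    simp only [and_comm]
  have sQ : ∀ t : F, ∀ i j, (t • Q) (Fin.rev j) (Fin.rev i) = (t • Q) i j := by
    intro t i j
    rw [hQd]
    simp only [Matrix.smul_apply, Matrix.single_apply, hr, rb, re']
    simp only [and_comm]
  have zP : ∀ t : F, I22_Z 1 (t • P) := by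
    intro t p q hpq
    rw [hPd, Matrix.smul_apply, Matrix.add_apply, Matrix.single_apply, Matrix.single_apply, if_neg, if_neg, add_zero,
      smul_zero]
    · rintro ⟨rfl, rfl⟩
      omega
    · rintro ⟨rfl, rfl⟩
      omega
  have zQ : ∀ t : F, I22_Z 1 (t • Q) := by
    intro t p q hpq
    rw [hQd, Matrix.smul_apply, Matrix.single_apply, if_neg, smul_zero]
    rintro ⟨rfl, rfl⟩
    omega
  have qP : ∀ t : F, (t • P) * (t • P) = 0 := fun t => by
    rw [Algebra.smul_mul_assoc, Algebra.mul_smul_comm, hP, smul_zero, smul_zero]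
  have qQ : ∀ t : F, (t • Q) * (t • Q) = 0 := fun t => by
    rw [Algebra.smul_mul_assoc, Algebra.mul_smul_comm, hQ, smul_zero, smul_zero]
  have uP : ∀ t : F, I25_un (t • P) (qP t) ∈ Uk n σ 1 := fun t => I25_U1 h1 _ (sP t) (zP t)
  have uQ : ∀ t : F, I25_un (t • Q) (qQ t) ∈ Uk n σ 1 := fun t => I25_U1 h1 _ (sQ t) (zQ t)
  obtain ⟨s0, hs0⟩ : ∃ s0 : F, s0 = s / (c - 1) := ⟨_, rfl⟩
  have hc1' : c - 1 ≠ 0 := sub_ne_zero.2 hc1
  obtain ⟨d, hd⟩ : ∃ d : GL (Fin n) F, d =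
      (I25_un _ (qP 1) * I25_un _ (qQ s0) * (I25_un _ (qP 1))⁻¹ * (I25_un _ (qQ s0))⁻¹) *
      (I25_un _ (qP c) * I25_un _ (qQ (c⁻¹ * s0)) * (I25_un _ (qP c))⁻¹ * (I25_un _ (qQ (c⁻¹ * s0)))⁻¹)⁻¹ :=
    ⟨_, rfl⟩
  have hd1 : d ∈ (⁅Uk n σ 1, Uk n σ 1⁆ : Subgroup (GL (Fin n) F)) := by
    rw [hd]
    exact Subgroup.mul_mem _ (mem_comm (uP _) (uQ _)) (Subgroup.inv_mem _ (mem_comm (uP _) (uQ _)))
  have hdU : d ∈ UG σ Fin.revPerm := by
    rw [hd]
    have gP : ∀ t : F, I25_un (t • P) (qP t) ∈ UG σ Fin.revPerm := fun t => I25_UG h1 _ (sP t)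
    have gQ : ∀ t : F, I25_un (t • Q) (qQ t) ∈ UG σ Fin.revPerm := fun t => I25_UG h1 _ (sQ t)
    exact Subgroup.mul_mem _ (Subgroup.mul_mem _ (Subgroup.mul_mem _ (Subgroup.mul_mem _ (gP _) (gQ _))
      (Subgroup.inv_mem _ (gP _))) (Subgroup.inv_mem _ (gQ _))) (Subgroup.inv_mem _
      (Subgroup.mul_mem _ (Subgroup.mul_mem _ (Subgroup.mul_mem _ (gP _) (gQ _))
      (Subgroup.inv_mem _ (gP _))) (Subgroup.inv_mem _ (gQ _))))
  have hdM : (d : Matrix (Fin n) (Fin n) F) = 1 + s • Matrix.single a f 1 := by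
    have e1 : d = (I25_un _ (qP 1) * I25_un _ (qQ s0) * (I25_un _ (qP 1))⁻¹ * (I25_un _ (qQ s0))⁻¹) *
      (I25_un _ (qQ (c⁻¹ * s0)) * I25_un _ (qP c) * (I25_un _ (qQ (c⁻¹ * s0)))⁻¹ * (I25_un _ (qP c))⁻¹) := by
      rw [hd]
      group
    rw [e1]
    show ((1 + (1 : F) • P) * (1 + s0 • Q) * (1 - (1 : F) • P) * (1 - s0 • Q)) *
      ((1 + (c⁻¹ * s0) • Q) * (1 + c • P) * (1 - (c⁻¹ * s0) • Q) * (1 - c • P)) = _
    have e2 : c * (c⁻¹ * s0) = s0 := by rw [← mul_assoc, mul_inv_cancel₀ hc0, one_mul]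
    have e3 : c * c * (c⁻¹ * s0) = c * s0 := by rw [mul_assoc, e2]
    rw [I25_cm hP hQ hQP, I25_cm' hP hQ hQP, one_mul, one_mul, one_mul, e2, e3, I25_pr hP hQ hQP, hPQP]
    have e4 : c * s0 - s0 = s := by
      rw [hs0]
      field_simp
    rw [e4]
  have hk1 : 1 ≤ k := by omega
  refine ⟨d, hd1, I22_of_Z hk1 hdU ?_, ?_, fun r hri => ?_⟩
  · rw [hdM, add_sub_cancel_left]
    intro p q hpq
    rw [Matrix.smul_apply, Matrix.single_apply, if_neg, smul_zero]
    rintro ⟨rfl, rfl⟩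
    omega
  · have e5 : en d i (i + k) = (d : Matrix (Fin n) (Fin n) F) a f := by
      rw [en_eq d ia id, ha, hf]
    rw [e5, hdM, Matrix.add_apply, Matrix.one_apply_ne hfa.symm, zero_add, Matrix.smul_apply, Matrix.single_apply,
      if_pos ⟨rfl, rfl⟩, smul_eq_mul, mul_one]
  · have hr0 : r < n := by omega
    have hrk : r + k < n := by omega
    rw [en_eq d hr0 hrk, hdM, Matrix.add_apply, Matrix.one_apply_ne (fun h' => by
      have := Fin.mk.inj h'
      omega), zero_add, Matrix.smul_apply, Matrix.single_apply, if_neg, smul_zero]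
    rintro ⟨h', _⟩
    rw [ha] at h'
    have := Fin.mk.inj h'
    omega

end

end LieP.GI
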