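import Pool.Agent.LieP.I24
import Pool.Agent.LieP.I25

/-!
# MP_6c3636_al, section 15, module I26 (stub by helper89)

(15.1). Claim (double induction, downwards in `k`, `2 ≤ k ≤ n`, and in `p`): `u ∈ Uk k`, `en u r (r+k) = 0` for `r < p` implies `u ∈ D := ⁅Uk 1, Uk 1⁆`. If `p + k ≥ n` then `u ∈ Uk (k+1)` (`Uk_succ`), for `k = n`: `Uk_top`.
Step: `s := en u p (p+k)`. If `2p+k+1 > n` then the mirror position `n-1-p-k < p`, so `s = 0` by `en_rev_Uk`. Otherwise take `d` of `commA` (or `commB` if `2p+k+1 = n` and `σ` is the identity; `σ s = s` by `en_rev_Uk` if `2p+k+1 = n`):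
`d⁻¹ u ∈ Uk k` has vanishing entries at `r ≤ p`.
-/

namespace LieP.GI

noncomputable section

open Classical Matrix

variable {n : ℕ} {F : Type} [Field F]

private theorem I26_en_zero {g : GL (Fin n) F} {r s : ℕ} (h : ¬ (r < n ∧ s < n)) : en g r s = 0 := by
  unfold en
  rw [dif_neg h]

private theorem I26_step [Finite F] [CharP F 2] {σ : F ≃+* F} (hH : Hyp σ n) {k p : ℕ} (hk : 2 ≤ k)
    (hp : p + k < n) {u : GL (Fin n) F} (hu : u ∈ Uk n σ k) (h0 : ∀ r, r < p → en u r (r + k) = 0)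
    (ih : ∀ u ∈ Uk n σ k, (∀ r, r < p + 1 → en u r (r + k) = 0) →
      u ∈ (⁅Uk n σ 1, Uk n σ 1⁆ : Subgroup (GL (Fin n) F))) :
    u ∈ (⁅Uk n σ 1, Uk n σ 1⁆ : Subgroup (GL (Fin n) F)) := by
  have hk1 : 1 ≤ k := by omega
  have hrev := en_rev_Uk hk1 hu hH.1 hp
  by_cases h1 : n < 2 * p + k + 1
  · refine ih u hu fun r hr => ?_
    rcases Nat.lt_succ_iff_lt_or_eq.1 hr with h2 | h2
    · exact h0 r h2
    · rw [h2]
      have h3 : n - 1 - (p + k) < p := by omega
      have h4 := h0 _ h3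
      rw [show n - 1 - (p + k) + k = n - 1 - p by omega, hrev] at h4
      exact (map_eq_zero_iff σ σ.injective).1 h4
  · have hd : ∃ d ∈ (⁅Uk n σ 1, Uk n σ 1⁆ : Subgroup (GL (Fin n) F)), d ∈ Uk n σ k ∧
        en d p (p + k) = en u p (p + k) ∧ ∀ r, r < p → en d r (r + k) = 0 := by
      by_cases h2 : 2 * p + k + 1 = n
      · have hs : σ (en u p (p + k)) = en u p (p + k) := by
          rw [show n - 1 - (p + k) = p by omega, show n - 1 - p = p + k by omega] at hrev
          exact hrev.symm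
        by_cases h3 : ∃ x, σ x ≠ x
        · exact commA hH hk h2.le fun _ => ⟨hs, h3⟩
        · push Not at h3
          exact commB hH h3 hk h2 _
      · exact commA hH hk (by omega) fun h3 => absurd h3 h2
    obtain ⟨d, hd1, hd2, hd3, hd4⟩ := hd
    have h2 : d⁻¹ * u ∈ Uk n σ k := (Uk n σ k).mul_mem ((Uk n σ k).inv_mem hd2) hu
    have h3 : d⁻¹ * u ∈ (⁅Uk n σ 1, Uk n σ 1⁆ : Subgroup (GL (Fin n) F)) := by
      refine ih _ h2 fun r hr => ?_
      rw [en_mul_Uk hk1 ((Uk n σ k).inv_mem hd2) hu, en_inv_Uk hk1 hd2]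
      rcases Nat.lt_succ_iff_lt_or_eq.1 hr with h4 | h4
      · rw [hd4 r h4, h0 r h4, neg_zero, add_zero]
      · rw [h4, hd3, neg_add_cancel]
    have h4 := Subgroup.mul_mem _ hd1 h3
    rwa [mul_inv_cancel_left] at h4

private theorem I26_main [Finite F] [CharP F 2] {σ : F ≃+* F} (hH : Hyp σ n) (m : ℕ) :
    ∀ k, n ≤ k + m → 2 ≤ k → ∀ u ∈ Uk n σ k,
      u ∈ (⁅Uk n σ 1, Uk n σ 1⁆ : Subgroup (GL (Fin n) F)) := by
  induction m with
  | zero =>
    intro k hk _ u hu
    rw [Uk_top (Uk_anti σ (k := n) (l := k) (by omega) hu)]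
    exact Subgroup.one_mem _
  | succ m ihm =>
    intro k hk hk2
    have key : ∀ q p, n ≤ p + k + q → ∀ u ∈ Uk n σ k, (∀ r, r < p → en u r (r + k) = 0) →
        u ∈ (⁅Uk n σ 1, Uk n σ 1⁆ : Subgroup (GL (Fin n) F)) := by
      intro q
      induction q with
      | zero =>
        intro p hp u hu h0
        exact ihm (k + 1) (by omega) (by omega) u
          (Uk_succ (by omega) hu fun r hr => h0 r (by omega))
      | succ q ihq =>
        intro p hp u hu h0
        by_cases h1 : n ≤ p + k + q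
        · exact ihq p h1 u hu h0
        · exact I26_step hH hk2 (by omega) hu h0 fun u hu h0 => ihq (p + 1) (by omega) u hu h0
    intro u hu
    exact key n 0 (by omega) u hu fun r hr => absurd hr (by omega)

theorem U2_le [Finite F] [CharP F 2] {σ : F ≃+* F} (hH : Hyp σ n) :
    Uk n σ 2 ≤ (⁅Uk n σ 1, Uk n σ 1⁆ : Subgroup (GL (Fin n) F)) := by
  intro u hu
  exact I26_main hH n 2 (by omega) le_rfl u hu

end

end LieP.GI
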