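import Pool.Agent.LieP.I26

/-!
# MP_6c3636_al, section 15, module I27 (stub by helper89)

Characters of `U_1`. `lin_comm`: `{u ∈ U : l u = 1}` is a subgroup containing the commutators. `al0_en`: `en_rev_Uk`. `U1_ind`: downward induction on `p`: `u ∈ Uk 1`, `u_r = 0` for `r < p` [`u_r = en u r (r+1)`] and the hypothesis for `r ≥ p`
imply `u ∈ K`; if `2p+2 > n` then all `u_r` vanish (`en_rev_Uk`), `u ∈ Uk 2`; step: `(reN p u_p)⁻¹ u`. `lin_ext`: `K := {u ∈ Uk 1 : l u = l' u}`. `lin_congr`: `u v⁻¹ ∈ Uk 2`. `lin_add`: `reN (s+t)` and `reN s * reN t` have the same superdiagonal.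
-/

namespace LieP.GI

noncomputable section

open Classical Matrix

variable {n : ℕ} {F : Type} [Field F]

private theorem I27_one {G : Type} [Group G] {U : Subgroup G} {l : G → ℤˣ} (hl : Lin U l) : l 1 = 1 := by
  have h := hl 1 U.one_mem 1 U.one_mem
  rw [mul_one] at h
  exact mul_eq_left.1 h.symm

private theorem I27_inv {G : Type} [Group G] {U : Subgroup G} {l : G → ℤˣ} (hl : Lin U l) {u : G} (hu : u ∈ U) :
    l u⁻¹ = (l u)⁻¹ := by
  rw [eq_inv_iff_mul_eq_one, ← hl _ (U.inv_mem hu) _ hu, inv_mul_cancel, I27_one hl]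

theorem lin_comm {G : Type} [Group G] {U : Subgroup G} {l : G → ℤˣ} (hl : Lin U l) :
    ∀ u ∈ (⁅U, U⁆ : Subgroup G), l u = 1 := by
  let K : Subgroup G :=
    { carrier := {u | u ∈ U ∧ l u = 1}
      mul_mem' := by
        rintro a b ⟨ha, ha'⟩ ⟨hb, hb'⟩
        refine ⟨U.mul_mem ha hb, ?_⟩
        rw [hl a ha b hb, ha', hb', mul_one]
      one_mem' := ⟨U.one_mem, I27_one hl⟩
      inv_mem' := by
        rintro a ⟨ha, ha'⟩
        refine ⟨U.inv_mem ha, ?_⟩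
        rw [I27_inv hl ha, ha', inv_one] }
  have hK : (⁅U, U⁆ : Subgroup G) ≤ K := by
    rw [Subgroup.commutator_le]
    intro a ha b hb
    have ha' := U.inv_mem ha
    have hb' := U.inv_mem hb
    refine ⟨?_, ?_⟩
    · rw [commutatorElement_def]
      exact U.mul_mem (U.mul_mem (U.mul_mem ha hb) ha') hb'
    · rw [commutatorElement_def, hl _ (U.mul_mem (U.mul_mem ha hb) ha') _ hb', hl _ (U.mul_mem ha hb) _ ha',
        hl _ ha _ hb, I27_inv hl ha, I27_inv hl hb, mul_comm (l a) (l b), mul_inv_cancel_right, mul_inv_cancel]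
  intro u hu
  exact (hK hu).2

theorem al0_en [Finite F] [CharP F 2] {σ : F ≃+* F} (hH : Hyp σ n) {u : GL (Fin n) F} (hu : u ∈ Uk n σ 1) (r : ℕ) :
    Al0 n σ r (en u r (r + 1)) := by
  intro h
  have h1 := en_rev_Uk le_rfl hu hH.1 (r := r) (by omega)
  have e1 : n - 1 - (r + 1) = r := by omega
  have e2 : n - 1 - r = r + 1 := by omega
  rw [e1, e2] at h1
  exact h1.symm

theorem U2_of [Finite F] [CharP F 2] {σ : F ≃+* F} (hH : Hyp σ n) {u : GL (Fin n) F} (hu : u ∈ Uk n σ 1)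
    (h : ∀ r, 2 * r + 2 ≤ n → en u r (r + 1) = 0) : u ∈ Uk n σ 2 := by
  refine Uk_succ le_rfl hu fun r hr => ?_
  by_cases h2 : 2 * r + 2 ≤ n
  · exact h r h2
  · have h1 := en_rev_Uk le_rfl hu hH.1 hr
    have h3 := h (n - 1 - (r + 1)) (by omega)
    have e2 : n - 1 - r = n - 1 - (r + 1) + 1 := by omega
    rw [e2, h3] at h1
    exact (map_eq_zero σ).1 h1.symm

private theorem I27_ind [Finite F] [CharP F 2] {σ : F ≃+* F} (hH : Hyp σ n) (K : Subgroup (GL (Fin n) F))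
    (hK : Uk n σ 2 ≤ K) : ∀ m p : ℕ, p + m = n → ∀ u ∈ Uk n σ 1, (∀ r, r < p → en u r (r + 1) = 0) →
      (∀ r, p ≤ r → 2 * r + 2 ≤ n → reN n σ r (en u r (r + 1)) ∈ K) → u ∈ K := by
  intro m
  induction m with
  | zero =>
    intro p hp u hu h1 _
    exact hK (U2_of hH hu fun r hr => h1 r (by omega))
  | succ m ih =>
    intro p hp u hu h1 h2
    by_cases hpn : 2 * p + 2 ≤ n
    · have hs : Al0 n σ p (en u p (p + 1)) := al0_en hH hu p
      obtain ⟨g1, g2, g3⟩ := reN_mem hH hpn hs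
      have hgK := h2 p le_rfl hpn
      have hv : (reN n σ p (en u p (p + 1)))⁻¹ * u ∈ Uk n σ 1 := (Uk n σ 1).mul_mem ((Uk n σ 1).inv_mem g1) hu
      have hen : ∀ r, en ((reN n σ p (en u p (p + 1)))⁻¹ * u) r (r + 1) =
          - en (reN n σ p (en u p (p + 1))) r (r + 1) + en u r (r + 1) := by
        intro r
        rw [en_mul_Uk le_rfl ((Uk n σ 1).inv_mem g1) hu, en_inv_Uk le_rfl g1]
      have hmem : (reN n σ p (en u p (p + 1)))⁻¹ * u ∈ K := by
        refine ih (p + 1) (by omega) _ hv ?_ ?_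
        · intro r hr
          rw [hen]
          by_cases hrp : r = p
          · rw [hrp, g2, neg_add_cancel]
          · rw [g3 r hrp (by omega), h1 r (by omega), neg_zero, add_zero]
        · intro r hr hrn
          rw [hen, g3 r (by omega) hrn, neg_zero, zero_add]
          exact h2 r (by omega) hrn
      have h3 := K.mul_mem hgK hmem
      rw [mul_inv_cancel_left] at h3
      exact h3
    · exact hK (U2_of hH hu fun r hr => h1 r (by omega))

theorem U1_ind [Finite F] [CharP F 2] {σ : F ≃+* F} (hH : Hyp σ n) (K : Subgroup (GL (Fin n) F)) (hK : Uk n σ 2 ≤ K)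
    {u : GL (Fin n) F} (hu : u ∈ Uk n σ 1) (h : ∀ r, 2 * r + 2 ≤ n → reN n σ r (en u r (r + 1)) ∈ K) : u ∈ K :=
  I27_ind hH K hK n 0 (zero_add n) u hu (fun r hr => absurd hr (Nat.not_lt_zero r)) fun r _ hr => h r hr

theorem lin_congr [Finite F] [CharP F 2] {σ : F ≃+* F} (hH : Hyp σ n) {l : GL (Fin n) F → ℤˣ} (hl : Lin (Uk n σ 1) l)
    {u v : GL (Fin n) F} (hu : u ∈ Uk n σ 1) (hv : v ∈ Uk n σ 1)
    (h : ∀ r, 2 * r + 2 ≤ n → en u r (r + 1) = en v r (r + 1)) : l u = l v := by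
  have hv' := (Uk n σ 1).inv_mem hv
  have huv := (Uk n σ 1).mul_mem hu hv'
  have h2 : u * v⁻¹ ∈ Uk n σ 2 := by
    refine U2_of hH huv fun r hr => ?_
    rw [en_mul_Uk le_rfl hu hv', en_inv_Uk le_rfl hv, h r hr, add_neg_cancel]
  have h3 := lin_comm hl _ (U2_le hH h2)
  have h4 := hl _ huv _ hv
  rw [inv_mul_cancel_right, h3, one_mul] at h4
  exact h4

theorem lin_ext [Finite F] [CharP F 2] {σ : F ≃+* F} (hH : Hyp σ n) {l l' : GL (Fin n) F → ℤˣ}
    (hl : Lin (Uk n σ 1) l) (hl' : Lin (Uk n σ 1) l')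
    (h : ∀ r, 2 * r + 2 ≤ n → ∀ s, Al0 n σ r s → l (reN n σ r s) = l' (reN n σ r s)) :
    ∀ u ∈ Uk n σ 1, l u = l' u := by
  let K : Subgroup (GL (Fin n) F) :=
    { carrier := {u | u ∈ Uk n σ 1 ∧ l u = l' u}
      mul_mem' := by
        rintro a b ⟨ha, ha'⟩ ⟨hb, hb'⟩
        refine ⟨(Uk n σ 1).mul_mem ha hb, ?_⟩
        rw [hl a ha b hb, hl' a ha b hb, ha', hb']
      one_mem' := ⟨(Uk n σ 1).one_mem, by rw [I27_one hl, I27_one hl']⟩
      inv_mem' := by
        rintro a ⟨ha, ha'⟩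
        refine ⟨(Uk n σ 1).inv_mem ha, ?_⟩
        rw [I27_inv hl ha, I27_inv hl' ha, ha'] }
  have hK : Uk n σ 2 ≤ K := by
    intro u hu
    refine ⟨Uk_anti σ (by omega) hu, ?_⟩
    rw [lin_comm hl _ (U2_le hH hu), lin_comm hl' _ (U2_le hH hu)]
  intro u hu
  have h1 : u ∈ K := by
    refine U1_ind hH K hK hu fun r hr => ?_
    have hs := al0_en hH hu r
    exact ⟨(reN_mem hH hr hs).1, h r hr _ hs⟩
  exact h1.2

theorem lin_add [Finite F] [CharP F 2] {σ : F ≃+* F} (hH : Hyp σ n) {l : GL (Fin n) F → ℤˣ} (hl : Lin (Uk n σ 1) l)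
    {r : ℕ} (hr : 2 * r + 2 ≤ n) {s t : F} (hs : Al0 n σ r s) (ht : Al0 n σ r t) :
    l (reN n σ r (s + t)) = l (reN n σ r s) * l (reN n σ r t) := by
  have hst : Al0 n σ r (s + t) := fun h => by rw [map_add, hs h, ht h]
  obtain ⟨a1, a2, a3⟩ := reN_mem hH hr hs
  obtain ⟨b1, b2, b3⟩ := reN_mem hH hr ht
  obtain ⟨c1, c2, c3⟩ := reN_mem hH hr hst
  rw [← hl _ a1 _ b1]
  refine lin_congr hH hl c1 ((Uk n σ 1).mul_mem a1 b1) fun q hq => ?_
  rw [en_mul_Uk le_rfl a1 b1]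
  by_cases hqr : q = r
  · rw [hqr, a2, b2, c2]
  · rw [a3 q hqr hq, b3 q hqr hq, c3 q hqr hq, add_zero]

end

end LieP.GI
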