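import Pool.Agent.LieP.I27

/-!
# MP_6c3636_al, section 15, module I28 (stub by helper89)

(15.2), (W0), (W1), (W3) at `z_0`. `char_face`: if `y_r > y_{r+1}` then `reN r s ∈ U y` (`IsRe.U`); conversely `K := {u ∈ U z_0 : l u = 1}`, `U1_ind`: for `u ∈ U y` and `y_r = y_{r+1}`: `u_r = 0` and `reN r 0 ∈ Uk 2`.
(w0): `u² ∈ Uk 2 ≤ ⁅,⁆` (superdiagonal `u_r + u_r = 0`). (w1): `y_r + y'_r > y_{r+1} + y'_{r+1}` iff one of the two is strict. (w3): if `y_r > y_{r+1}` then `x_r > x_{r+1}` (`Dl0`), and `reN r s ∈ U z_0 ∩ U x`. `Uk_one`, `le_z0`.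
-/

namespace LieP.GI

noncomputable section

open Classical Matrix

variable {n : ℕ} {F : Type} [Field F]

theorem I28_reU [Finite F] [CharP F 2] {σ : F ≃+* F} (hH : Hyp σ n) {r : ℕ} (hr : 2 * r + 2 ≤ n) {s : F}
    (hs : Al0 n σ r s) {y : En n} (hy : cn (co y) (r + 1) < cn (co y) r) : reN n σ r s ∈ UU σ (co y) := by
  have h : r + 1 < n := by omega
  have h1 := reN_isRe hH hr h hs
  rw [cn_eq _ h, cn_eq _ (Nat.lt_of_succ_lt h)] at hy
  exact h1.U (fun i => co_rev y i) hy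

theorem I28_Ule [Finite F] {σ : F ≃+* F} {y : En n} (hy : Antitone (co y)) : UU σ (co y) ≤ Uk n σ 1 := by
  intro u hu
  rw [Uk_one]
  rw [mem_UU] at hu ⊢
  refine ⟨hu.1, fun i j hij => hu.2 i j (not_lt.2 (hy ?_))⟩
  by_contra h
  exact hij (z0_lt.2 (not_le.1 h))

/-- the kernel of a linear character -/
def I28_ker {G : Type} [Group G] (U : Subgroup G) (l : G → ℤˣ) (hl : Lin U l) : Subgroup G where
  carrier := {u | u ∈ U ∧ l u = 1}
  mul_mem' := by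
    rintro a b ⟨ha, ha'⟩ ⟨hb, hb'⟩
    exact ⟨Subgroup.mul_mem _ ha hb, by rw [hl a ha b hb, ha', hb', mul_one]⟩
  one_mem' := ⟨Subgroup.one_mem _, by
    have h := hl 1 (Subgroup.one_mem _) 1 (Subgroup.one_mem _)
    rw [mul_one] at h
    exact (mul_eq_left (a := l 1)).1 h.symm⟩
  inv_mem' := by
    rintro a ⟨ha, ha'⟩
    refine ⟨Subgroup.inv_mem _ ha, ?_⟩
    have h := hl a ha a⁻¹ (Subgroup.inv_mem _ ha)
    have h0 := hl 1 (Subgroup.one_mem _) 1 (Subgroup.one_mem _)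
    rw [mul_one] at h0
    have h1 : l 1 = 1 := (mul_eq_left (a := l 1)).1 h0.symm
    rw [mul_inv_cancel, h1, ha', one_mul] at h
    exact h.symm

theorem char_face [Finite F] [CharP F 2] {σ : F ≃+* F} (hH : Hyp σ n) {l : GL (Fin n) F → ℤˣ}
    (hl : Lin (UU σ (co (z0 n))) l) {y : En n} (hy : Antitone (co y)) :
    (∀ u ∈ UU σ (co y), l u = 1) ↔
      ∀ r, 2 * r + 2 ≤ n → cn (co y) (r + 1) < cn (co y) r → Tv n σ l r := by
  rw [← Uk_one] at hl
  constructor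
  · intro h r hr hlt s hs
    exact h _ (I28_reU hH hr hs hlt)
  · intro h u hu
    have hK : Uk n σ 2 ≤ I28_ker (Uk n σ 1) l hl := by
      intro g hg
      exact ⟨Uk_anti σ (by norm_num) hg, lin_comm hl g (U2_le hH hg)⟩
    have hu1 : u ∈ Uk n σ 1 := I28_Ule hy hu
    have key : u ∈ I28_ker (Uk n σ 1) l hl := by
      refine U1_ind hH _ hK hu1 fun r hr => ?_
      have hn : r + 1 < n := by omega
      by_cases hlt : cn (co y) (r + 1) < cn (co y) r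
      · exact ⟨(reN_mem hH hr (al0_en hH hu1 r)).1, h r hr hlt _ (al0_en hH hu1 r)⟩
      · have h0 : en u r (r + 1) = 0 := by
          rw [en_eq u (Nat.lt_of_succ_lt hn) hn]
          rw [cn_eq _ hn, cn_eq _ (Nat.lt_of_succ_lt hn)] at hlt
          rw [(mem_UU.1 hu).2 _ _ hlt, Matrix.one_apply_ne]
          intro h'
          have h'' := congrArg Fin.val h'
          simp at h''
        rw [h0]
        apply hK
        have hs0 : Al0 n σ r 0 := fun _ => map_zero σ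
        obtain ⟨h1, h2, h3⟩ := reN_mem hH hr hs0
        refine U2_of hH h1 fun q hq => ?_
        by_cases hqr : q = r
        · rw [hqr, h2]
        · exact h3 q hqr hq
    exact key.2

theorem c_bw0 [Finite F] [CharP F 2] {σ : F ≃+* F} (hH : Hyp σ n) : ∀ u ∈ UU σ (co (z0 n)),
    u * u ∈ (⁅UU σ (co (z0 n)), UU σ (co (z0 n))⁆ : Subgroup (GL (Fin n) F)) := by
  rw [← Uk_one]
  intro u hu
  apply U2_le hH
  refine U2_of hH (Subgroup.mul_mem _ hu hu) fun r _ => ?_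
  rw [en_mul_Uk le_rfl hu hu, CharTwo.add_self_eq_zero]

theorem c_bw1 [Finite F] [CharP F 2] {σ : F ≃+* F} (hH : Hyp σ n) : ∀ l : GL (Fin n) F → ℤˣ,
    Lin (UU σ (co (z0 n))) l → ∀ y y' : En n,
    (∀ a ∈ Rt n, 0 < inner ℝ a y → 0 < inner ℝ a (z0 n)) → (∀ a ∈ Rt n, 0 < inner ℝ a y' → 0 < inner ℝ a (z0 n)) →
    (∀ u ∈ UU σ (co y), l u = 1) → (∀ u ∈ UU σ (co y'), l u = 1) → ∀ u ∈ UU σ (co (y + y')), l u = 1 := by
  intro l hl y y' hy hy' h h'
  rw [le_z0] at hy hy'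
  have hyy : Antitone (co (y + y')) := by
    intro i j hij
    rw [co_add, co_add]
    exact add_le_add (hy hij) (hy' hij)
  rw [char_face hH hl hy] at h
  rw [char_face hH hl hy'] at h'
  rw [char_face hH hl hyy]
  intro r hr hlt
  have hn : r + 1 < n := by omega
  rw [cn_eq _ hn, cn_eq _ (Nat.lt_of_succ_lt hn), co_add, co_add] at hlt
  by_cases h1 : co y ⟨r + 1, hn⟩ < co y ⟨r, Nat.lt_of_succ_lt hn⟩
  · refine h r hr ?_
    rw [cn_eq _ hn, cn_eq _ (Nat.lt_of_succ_lt hn)]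
    exact h1
  · refine h' r hr ?_
    rw [cn_eq _ hn, cn_eq _ (Nat.lt_of_succ_lt hn)]
    linarith [not_lt.1 h1]

theorem c_bw3 [Finite F] [CharP F 2] {σ : F ≃+* F} (hH : Hyp σ n) : ∀ l : GL (Fin n) F → ℤˣ,
    Lin (UU σ (co (z0 n))) l → ∀ x y : En n,
    (∀ u ∈ UU σ (co (z0 n)), u ∈ UU σ (co x) → l u = 1) →
    (∀ a ∈ Rt n, 0 < inner ℝ a y → 0 < inner ℝ a (z0 n)) →
    (∀ a ∈ Dl0 n, 0 < inner ℝ a y → 0 < inner ℝ a x) → ∀ u ∈ UU σ (co y), l u = 1 := by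
  intro l hl x y h1 hy h2
  rw [le_z0] at hy
  rw [char_face hH hl hy]
  intro r hr hlt s hs
  have hn : r + 1 < n := by omega
  have h3 := h2 (rt ⟨r, Nat.lt_of_succ_lt hn⟩ ⟨r + 1, hn⟩) (mem_Dl0.2 ⟨r, hr, hn, rfl⟩)
  rw [pos_rt, pos_rt] at h3
  rw [cn_eq _ hn, cn_eq _ (Nat.lt_of_succ_lt hn)] at hlt
  refine h1 _ ?_ (I28_reU hH hr hs ?_)
  · rw [← Uk_one]
    exact (reN_mem hH hr hs).1
  · rw [cn_eq _ hn, cn_eq _ (Nat.lt_of_succ_lt hn)]
    exact h3 hlt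

end

end LieP.GI
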