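import Pool.Agent.LieP.Defs

/-!
# MP_6c3636_al, section 15, module I41 (stub by helper89)

Gelfand trick. `e := el k U l`. `T a := mk (fun g => a.coeff (τ g))` is an antiautomorphism of the group algebra (linear, `T (a b) = T b T a`, `T (dl g) = dl (τ g)`), `T e = e` (as `τ` permutes `U` and `l (τ u) = l u`).
`e u = l u • e = u e` for `u ∈ U`. For `m ∈ N`: if there is `u ∈ U` with `m⁻¹ u m ∈ U`, `l u ≠ l (m⁻¹ u m)` then `e m e = 0` (`e u m e = e m (m⁻¹ u m) e`; characteristic 0); otherwise `τ m = m` and `T (e m e) = e m e`. So `T (e a e) = e a e` for all `a ∈ sb k H` (span of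
the `dl g`, `g = u m u'`). Hence `e a e e b e = T (e b e e a e) ... = e b e e a e` (`e b e a e` is also of the form `e a' e`).
-/

namespace LieP.GI

noncomputable section

open Classical

section aux

variable {k G : Type} [Field k] [Group G] [Finite G]

/-- an element is the combination of the `dl g` -/
theorem I41_sum [Fintype G] (a : Al k G) : a = ∑ g : G, a.coeff g • dl g := by
  apply MonoidAlgebra.ext
  ext h
  rw [MonoidAlgebra.coeff_sum, Finsupp.finset_sum_apply]
  rw [Finset.sum_eq_single h]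
  · rw [MonoidAlgebra.coeff_smul_apply]
    unfold dl
    rw [MonoidAlgebra.coeff_single, Finsupp.single_eq_same, smul_eq_mul, mul_one]
  · intro g _ hg
    rw [MonoidAlgebra.coeff_smul_apply]
    unfold dl
    rw [MonoidAlgebra.coeff_single, Finsupp.single_eq_of_ne hg.symm, smul_zero]
  · intro h'
    exact absurd (Finset.mem_univ h) h'

theorem I41_dl_mul (g h : G) : (dl g : Al k G) * dl h = dl (g * h) := by
  unfold dl
  rw [MonoidAlgebra.single_mul_single, one_mul]

theorem I41_dl_one : (dl 1 : Al k G) = 1 := rfl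

theorem I41_coeff_el (U : Subgroup G) (l : G → ℤˣ) (g : G) :
    (el k U l).coeff g = if g ∈ U then (Nat.card U : k)⁻¹ * (((l g : ℤˣ) : ℤ) : k) else 0 := rfl

/-- the reversed homomorphism -/
def I41_F {τ : G → G} (hτ : ∀ g h, τ (g * h) = τ h * τ g) : Al k G →ₐ[k] (Al k G)ᵐᵒᵖ :=
  MonoidAlgebra.lift k (Al k G)ᵐᵒᵖ G
    { toFun := fun g => MulOpposite.op (dl (τ g))
      map_one' := by
        have h1 : τ 1 = 1 := by
          have h2 := hτ 1 1
          rw [mul_one] at h2
          have h3 : τ 1 * 1 = τ 1 * τ 1 := by rw [mul_one]; exact h2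
          exact (mul_left_cancel h3).symm
        rw [h1, I41_dl_one, MulOpposite.op_one]
      map_mul' := by
        intro g h
        rw [hτ, ← I41_dl_mul, MulOpposite.op_mul] }

/-- the antiautomorphism -/
def I41_T {τ : G → G} (hτ : ∀ g h, τ (g * h) = τ h * τ g) (a : Al k G) : Al k G :=
  MulOpposite.unop (I41_F hτ a)

variable {τ : G → G} (hτ : ∀ g h, τ (g * h) = τ h * τ g)

theorem I41_T_mul (a b : Al k G) : I41_T hτ (a * b) = I41_T hτ b * I41_T hτ a := by
  unfold I41_T
  rw [map_mul, MulOpposite.unop_mul]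

theorem I41_T_smul (r : k) (a : Al k G) : I41_T hτ (r • a) = r • I41_T hτ a := by
  unfold I41_T
  rw [map_smul, MulOpposite.unop_smul]

theorem I41_T_sum {ι : Type} (s : Finset ι) (f : ι → Al k G) :
    I41_T hτ (∑ i ∈ s, f i) = ∑ i ∈ s, I41_T hτ (f i) := by
  unfold I41_T
  rw [map_sum, Finset.unop_sum]

theorem I41_T_dl (g : G) : I41_T hτ (dl g : Al k G) = dl (τ g) := by
  unfold I41_T I41_F dl
  rw [MonoidAlgebra.lift_single]
  show MulOpposite.unop ((1 : k) • MulOpposite.op (dl (τ g))) = _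
  rw [one_smul]
  rfl

theorem I41_dl_el {U : Subgroup G} {l : G → ℤˣ} (hl : Lin U l) {u : G} (hu : u ∈ U) :
    (dl u : Al k G) * el k U l = (((l u : ℤˣ) : ℤ) : k) • el k U l := by
  have := Fintype.ofFinite G
  have key : ∀ g, (el k U l).coeff (u * g) = (((l u : ℤˣ) : ℤ) : k) * (el k U l).coeff g := by
    intro g
    rw [I41_coeff_el, I41_coeff_el]
    by_cases hg : g ∈ U
    · rw [if_pos hg, if_pos (U.mul_mem hu hg), hl u hu g hg]
      push_cast
      ring
    · rw [if_neg hg, if_neg (fun h => hg ((U.mul_mem_cancel_left hu).1 h)), mul_zero]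
  have hsq : (((l u : ℤˣ) : ℤ) : k) * (((l u : ℤˣ) : ℤ) : k) = 1 := by
    rw [← Int.cast_mul, ← Units.val_mul, Int.units_mul_self]
    simp
  conv_lhs => rw [I41_sum (el k U l)]
  conv_rhs => rw [I41_sum (el k U l), ← Equiv.sum_comp (Equiv.mulLeft u)]
  rw [Finset.mul_sum, Finset.smul_sum]
  refine Finset.sum_congr rfl fun g _ => ?_
  rw [mul_smul_comm, I41_dl_mul, Equiv.coe_mulLeft, key, smul_smul, ← mul_assoc, hsq, one_mul]

theorem I41_el_dl {U : Subgroup G} {l : G → ℤˣ} (hl : Lin U l) {u : G} (hu : u ∈ U) :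
    el k U l * (dl u : Al k G) = (((l u : ℤˣ) : ℤ) : k) • el k U l := by
  have := Fintype.ofFinite G
  have key : ∀ g, (el k U l).coeff (g * u) = (((l u : ℤˣ) : ℤ) : k) * (el k U l).coeff g := by
    intro g
    rw [I41_coeff_el, I41_coeff_el]
    by_cases hg : g ∈ U
    · rw [if_pos hg, if_pos (U.mul_mem hg hu), hl g hg u hu]
      push_cast
      ring
    · rw [if_neg hg, if_neg (fun h => hg ((U.mul_mem_cancel_right hu).1 h)), mul_zero]
  have hsq : (((l u : ℤˣ) : ℤ) : k) * (((l u : ℤˣ) : ℤ) : k) = 1 := by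
    rw [← Int.cast_mul, ← Units.val_mul, Int.units_mul_self]
    simp
  conv_lhs => rw [I41_sum (el k U l)]
  conv_rhs => rw [I41_sum (el k U l), ← Equiv.sum_comp (Equiv.mulRight u)]
  rw [Finset.sum_mul, Finset.smul_sum]
  refine Finset.sum_congr rfl fun g _ => ?_
  rw [smul_mul_assoc, I41_dl_mul, Equiv.coe_mulRight, key, smul_smul, ← mul_assoc, hsq, one_mul]

theorem I41_el_el [CharZero k] {U : Subgroup G} {l : G → ℤˣ} (hl : Lin U l) :
    el k U l * el k U l = el k U l := by
  have := Fintype.ofFinite G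
  conv_lhs => enter [1]; rw [I41_sum (el k U l)]
  rw [Finset.sum_mul]
  have h1 : ∀ g : G, ((el k U l).coeff g • (dl g : Al k G)) * el k U l =
      (if g ∈ U then (Nat.card U : k)⁻¹ else 0) • el k U l := by
    intro g
    rw [I41_coeff_el]
    by_cases hg : g ∈ U
    · rw [if_pos hg, if_pos hg, smul_mul_assoc, I41_dl_el hl hg, smul_smul, mul_assoc]
      have hsq : (((l g : ℤˣ) : ℤ) : k) * (((l g : ℤˣ) : ℤ) : k) = 1 := by
        rw [← Int.cast_mul, ← Units.val_mul, Int.units_mul_self]
        simp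
      rw [hsq, mul_one]
    · rw [if_neg hg, if_neg hg, zero_smul, zero_mul, zero_smul]
  rw [Finset.sum_congr rfl fun g _ => h1 g, ← Finset.sum_smul]
  have h2 : (∑ g : G, if g ∈ U then (Nat.card U : k)⁻¹ else 0) = 1 := by
    rw [← Finset.sum_filter, Finset.sum_const, nsmul_eq_mul]
    have h3 : (Finset.univ.filter fun g : G => g ∈ U).card = Nat.card U := by
      rw [Nat.card_eq_fintype_card, Fintype.card_subtype]
    rw [h3]
    refine mul_inv_cancel₀ ?_
    rw [Nat.cast_ne_zero]
    exact Nat.card_pos.ne'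
  rw [h2, one_smul]

theorem I41_T_el (hi : ∀ g, τ (τ g) = g) {U : Subgroup G} (hUτ : ∀ u ∈ U, τ u ∈ U) {l : G → ℤˣ}
    (hlτ : ∀ u ∈ U, l (τ u) = l u) : I41_T hτ (el k U l) = el k U l := by
  have := Fintype.ofFinite G
  have key : ∀ g, (el k U l).coeff (τ g) = (el k U l).coeff g := by
    intro g
    rw [I41_coeff_el, I41_coeff_el]
    by_cases hg : g ∈ U
    · rw [if_pos hg, if_pos (hUτ g hg), hlτ g hg]
    · rw [if_neg hg, if_neg (fun h => hg (by have := hUτ _ h; rwa [hi] at this))]
  conv_lhs => rw [I41_sum (el k U l)]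
  conv_rhs => rw [I41_sum (el k U l), ← Equiv.sum_comp (⟨τ, τ, hi, hi⟩ : G ≃ G)]
  rw [I41_T_sum]
  refine Finset.sum_congr rfl fun g _ => ?_
  rw [I41_T_smul, I41_T_dl]
  show _ = (el k U l).coeff (τ g) • dl (τ g)
  rw [key]

end aux

theorem gelfand {G : Type} [Group G] [Finite G] {k : Type} [Field k] [CharZero k] {H U : Subgroup G} (hU : U ≤ H)
    {N : Set G} (hN : N ⊆ H) {τ : G → G} (hτ : ∀ g h, τ (g * h) = τ h * τ g) (hi : ∀ g, τ (τ g) = g)
    (hH : ∀ g ∈ H, τ g ∈ H) (hUτ : ∀ u ∈ U, τ u ∈ U) {l : G → ℤˣ} (hl : Lin U l) (hlτ : ∀ u ∈ U, l (τ u) = l u)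
    (hd : ∀ g ∈ H, ∃ u ∈ U, ∃ m ∈ N, ∃ u' ∈ U, g = u * m * u')
    (hn : ∀ m ∈ N, (∀ u ∈ U, m⁻¹ * u * m ∈ U → l u = l (m⁻¹ * u * m)) → τ m = m) :
    ∀ a ∈ sb k H, ∀ b ∈ sb k H, el k U l * a * el k U l * b * el k U l = el k U l * b * el k U l * a * el k U l := by
  have := Fintype.ofFinite G
  have hone : ∀ g ∈ H, I41_T hτ (el k U l * dl g * el k U l) = el k U l * dl g * el k U l := by
    intro g hg
    obtain ⟨u, hu, m, hm, u', hu', rfl⟩ := hd g hg
    have e1 : el k U l * (dl (u * m * u') : Al k G) * el k U l =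
        ((((l u : ℤˣ) : ℤ) : k) * (((l u' : ℤˣ) : ℤ) : k)) • (el k U l * dl m * el k U l) := by
      rw [← I41_dl_mul, ← I41_dl_mul]
      have e2 : el k U l * (dl u * dl m * dl u' : Al k G) * el k U l =
          (el k U l * dl u) * dl m * (dl u' * el k U l) := by simp only [mul_assoc]
      rw [e2, I41_el_dl hl hu, I41_dl_el hl hu', smul_mul_assoc, smul_mul_smul_comm]
    rw [e1, I41_T_smul]
    congr 1
    by_cases hc : ∀ u ∈ U, m⁻¹ * u * m ∈ U → l u = l (m⁻¹ * u * m)
    · rw [I41_T_mul, I41_T_mul, I41_T_el hτ hi hUτ hlτ, I41_T_dl, hn m hm hc, mul_assoc]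
    · push Not at hc
      obtain ⟨v, hv, hv', hne⟩ := hc
      have h1 : el k U l * (dl v * dl m : Al k G) * el k U l =
          el k U l * (dl m * dl (m⁻¹ * v * m) : Al k G) * el k U l := by
        rw [I41_dl_mul, I41_dl_mul]
        congr 3
        group
      have h2 : el k U l * (dl v * dl m : Al k G) * el k U l =
          (((l v : ℤˣ) : ℤ) : k) • (el k U l * dl m * el k U l) := by
        rw [← mul_assoc, I41_el_dl hl hv, smul_mul_assoc, smul_mul_assoc]
      have h3 : el k U l * (dl m * dl (m⁻¹ * v * m) : Al k G) * el k U l =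
          (((l (m⁻¹ * v * m) : ℤˣ) : ℤ) : k) • (el k U l * dl m * el k U l) := by
        have e2 : el k U l * (dl m * dl (m⁻¹ * v * m) : Al k G) * el k U l =
            el k U l * dl m * (dl (m⁻¹ * v * m) * el k U l) := by simp only [mul_assoc]
        rw [e2, I41_dl_el hl hv', mul_smul_comm]
      rw [h2, h3] at h1
      have h4 : ((((l v : ℤˣ) : ℤ) : k) - (((l (m⁻¹ * v * m) : ℤˣ) : ℤ) : k)) •
          (el k U l * (dl m : Al k G) * el k U l) = 0 := by
        rw [sub_smul, h1, sub_self]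
      have h5 : ((((l v : ℤˣ) : ℤ) : k) - (((l (m⁻¹ * v * m) : ℤˣ) : ℤ) : k)) ≠ 0 := by
        intro h6
        rw [sub_eq_zero, Int.cast_inj] at h6
        exact hne (Units.ext h6)
      rw [(smul_eq_zero.1 h4).resolve_left h5]
      have h7 := I41_T_smul hτ (0 : k) (0 : Al k G)
      rw [zero_smul, zero_smul] at h7
      exact h7
  have hall : ∀ a ∈ sb k H, I41_T hτ (el k U l * a * el k U l) = el k U l * a * el k U l := by
    intro a ha
    rw [I41_sum a, Finset.mul_sum, Finset.sum_mul, I41_T_sum]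
    refine Finset.sum_congr rfl fun g _ => ?_
    rw [mul_smul_comm, smul_mul_assoc, I41_T_smul]
    by_cases hg : g ∈ H
    · rw [hone g hg]
    · rw [show a.coeff g = 0 from ha g hg, zero_smul, zero_smul]
  have he : el k U l ∈ sb k H := by
    intro g hg
    rw [I41_coeff_el, if_neg (fun h => hg (hU h))]
  intro a ha b hb
  have h1 : el k U l * a * el k U l * b * el k U l = (el k U l * a * el k U l) * (el k U l * b * el k U l) := by
    have e1 : (el k U l * a * el k U l) * (el k U l * b * el k U l) =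
        el k U l * a * (el k U l * el k U l) * b * el k U l := by simp only [mul_assoc]
    rw [e1, I41_el_el hl]
  have h2 : el k U l * b * el k U l * a * el k U l = (el k U l * b * el k U l) * (el k U l * a * el k U l) := by
    have e1 : (el k U l * b * el k U l) * (el k U l * a * el k U l) =
        el k U l * b * (el k U l * el k U l) * a * el k U l := by simp only [mul_assoc]
    rw [e1, I41_el_el hl]
  have h3 : I41_T hτ (el k U l * a * el k U l * b * el k U l) = el k U l * a * el k U l * b * el k U l := by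
    have e1 : el k U l * a * el k U l * b * el k U l = el k U l * (a * el k U l * b) * el k U l := by
      simp only [mul_assoc]
    rw [e1]
    exact hall _ ((sb k H).mul_mem ((sb k H).mul_mem ha he) hb)
  rw [← h3, h1, I41_T_mul, hall a ha, hall b hb, h2]

end

end LieP.GI
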