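import Pool.Agent.LieP.I02

/-!
# MP_6c3636_al, section 15, module I43 (stub by helper89)

The reversal of the levels of an antitone `y`. `{j : y i < y j}` is the initial segment `[0, lo)`, `{j : y i ≤ y j}` the initial segment `[0, hi)`, the level of `i` is `[lo, hi)`, `rv y i = lo + hi - 1 - i`.
-/

namespace LieP.GI

noncomputable section

open Classical Matrix

variable {n : ℕ} {F : Type} [Field F]

theorem I43_init {p : Fin n → Prop} (hp : ∀ {i j : Fin n}, i ≤ j → p j → p i) (j : Fin n) :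
    p j ↔ (j : ℕ) < (Finset.univ.filter p).card := by
  constructor
  · intro h
    have h1 : Finset.Iic j ⊆ Finset.univ.filter p := by
      intro i hi
      exact Finset.mem_filter.2 ⟨Finset.mem_univ _, hp (Finset.mem_Iic.1 hi) h⟩
    have h2 := Finset.card_le_card h1
    rw [Fin.card_Iic] at h2
    omega
  · intro h
    by_contra h0
    have h1 : Finset.univ.filter p ⊆ Finset.Iio j := by
      intro i hi
      rw [Finset.mem_Iio]
      by_contra h2
      exact h0 (hp (not_lt.1 h2) (Finset.mem_filter.1 hi).2)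
    have h2 := Finset.card_le_card h1
    rw [Fin.card_Iio] at h2
    omega

/-- the start of the level -/
def I43_lo (y : Fin n → ℝ) (i : Fin n) : ℕ := (Finset.univ.filter fun j => y i < y j).card

/-- the end of the level -/
def I43_hi (y : Fin n → ℝ) (i : Fin n) : ℕ := (Finset.univ.filter fun j => y i ≤ y j).card

theorem I43_lo_iff {y : Fin n → ℝ} (hy : Antitone y) (i j : Fin n) : y i < y j ↔ (j : ℕ) < I43_lo y i :=
  I43_init (p := fun j => y i < y j) (fun h h1 => lt_of_lt_of_le h1 (hy h)) j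

theorem I43_hi_iff {y : Fin n → ℝ} (hy : Antitone y) (i j : Fin n) : y i ≤ y j ↔ (j : ℕ) < I43_hi y i :=
  I43_init (p := fun j => y i ≤ y j) (fun h h1 => le_trans h1 (hy h)) j

theorem I43_hi_le (y : Fin n → ℝ) (i : Fin n) : I43_hi y i ≤ n := by
  have h := Finset.card_filter_le (Finset.univ : Finset (Fin n)) (fun j => y i ≤ y j)
  rw [Finset.card_univ, Fintype.card_fin] at h
  exact h

theorem I43_bd {y : Fin n → ℝ} (hy : Antitone y) (i : Fin n) : I43_lo y i ≤ i ∧ (i : ℕ) < I43_hi y i :=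
  ⟨not_lt.1 fun h => lt_irrefl _ ((I43_lo_iff hy i i).2 h), (I43_hi_iff hy i i).1 le_rfl⟩

theorem I43_val {y : Fin n → ℝ} (hy : Antitone y) (i : Fin n) :
    (rv y i : ℕ) = I43_lo y i + I43_hi y i - 1 - i := by
  have h1 := I43_bd hy i
  have h2 := I43_hi_le y i
  have h3 : I43_lo y i + I43_hi y i - 1 - i < n := by omega
  unfold I43_lo I43_hi at h3 ⊢
  unfold rv
  rw [dif_pos h3]

theorem I43_lo_congr {y : Fin n → ℝ} {i j : Fin n} (h : y i = y j) : I43_lo y i = I43_lo y j := by
  unfold I43_lo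
  rw [h]

theorem I43_hi_congr {y : Fin n → ℝ} {i j : Fin n} (h : y i = y j) : I43_hi y i = I43_hi y j := by
  unfold I43_hi
  rw [h]

theorem I43_lo_rev {y : Fin n → ℝ} (hy' : ∀ i, y (Fin.rev i) = - y i) (i : Fin n) :
    I43_lo y (Fin.rev i) + I43_hi y i = n := by
  have h1 : I43_lo y (Fin.rev i) = (Finset.univ.filter fun j => ¬ y i ≤ y j).card := by
    unfold I43_lo
    refine Finset.card_bij (fun j _ => Fin.rev j) ?_ ?_ ?_
    · intro j hj
      have h2 := (Finset.mem_filter.1 hj).2
      refine Finset.mem_filter.2 ⟨Finset.mem_univ _, ?_⟩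
      rw [hy'] at h2
      rw [hy']
      linarith
    · intro a _ b _ h
      exact Fin.rev_injective h
    · intro j hj
      have h2 := (Finset.mem_filter.1 hj).2
      refine ⟨Fin.rev j, Finset.mem_filter.2 ⟨Finset.mem_univ _, ?_⟩, Fin.rev_rev j⟩
      rw [hy', hy']
      linarith
  rw [h1, add_comm]
  unfold I43_hi
  rw [Finset.card_filter_add_card_filter_not, Finset.card_univ, Fintype.card_fin]

theorem I43_hi_rev {y : Fin n → ℝ} (hy' : ∀ i, y (Fin.rev i) = - y i) (i : Fin n) :
    I43_hi y (Fin.rev i) + I43_lo y i = n := by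
  have h := I43_lo_rev hy' (Fin.rev i)
  rw [Fin.rev_rev] at h
  omega

theorem rv_eq {y : Fin n → ℝ} (hy : Antitone y) (i : Fin n) : y (rv y i) = y i := by
  have h1 := I43_bd hy i
  have h2 := I43_val hy i
  refine le_antisymm ?_ ?_
  · refine not_lt.1 fun h => ?_
    have h3 := (I43_lo_iff hy i (rv y i)).1 h
    omega
  · refine (I43_hi_iff hy i (rv y i)).2 ?_
    omega

theorem rv_rv {y : Fin n → ℝ} (hy : Antitone y) (i : Fin n) : rv y (rv y i) = i := by
  have h1 := I43_bd hy i
  have h2 := I43_val hy i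
  have h3 := I43_val hy (rv y i)
  rw [I43_lo_congr (rv_eq hy i), I43_hi_congr (rv_eq hy i)] at h3
  refine Fin.ext ?_
  omega

theorem rv_lt {y : Fin n → ℝ} (hy : Antitone y) {i j : Fin n} (h : y i = y j) (hij : i < j) : rv y j < rv y i := by
  have h1 := I43_bd hy i
  have h2 := I43_bd hy j
  have h3 := I43_val hy i
  have h4 := I43_val hy j
  rw [← I43_lo_congr h, ← I43_hi_congr h] at h2 h4
  rw [Fin.lt_def] at hij ⊢
  omega

theorem rv_succ {y : Fin n → ℝ} (hy : Antitone y) {i j : Fin n} (h : y i = y j) (hij : (j : ℕ) = i + 1) :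
    (rv y i : ℕ) = rv y j + 1 := by
  have h1 := I43_bd hy i
  have h2 := I43_bd hy j
  have h3 := I43_val hy i
  have h4 := I43_val hy j
  rw [← I43_lo_congr h, ← I43_hi_congr h] at h2 h4
  omega

theorem rv_rev {y : Fin n → ℝ} (hy : Antitone y) (hy' : ∀ i, y (Fin.rev i) = - y i) (i : Fin n) :
    rv y (Fin.rev i) = Fin.rev (rv y i) := by
  have h1 := I43_bd hy i
  have h2 := I43_hi_le y i
  have h3 := I43_val hy i
  have h4 := I43_val hy (Fin.rev i)
  have h5 := I43_lo_rev hy' i
  have h6 := I43_hi_rev hy' i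
  have h7 := i.isLt
  refine Fin.ext ?_
  rw [Fin.val_rev]
  rw [Fin.val_rev] at h4
  omega

theorem rv_zero {y : Fin n → ℝ} (hy : Antitone y) (hy' : ∀ i, y (Fin.rev i) = - y i) {i : Fin n} (h : y i = 0) :
    rv y i = Fin.rev i := by
  have h0 : y (Fin.rev i) = y i := by rw [hy', h, neg_zero]
  have h1 := I43_bd hy i
  have h3 := I43_val hy i
  have h5 := I43_lo_rev hy' i
  rw [I43_lo_congr h0] at h5
  refine Fin.ext ?_
  rw [Fin.val_rev]
  omega

end

end LieP.GI
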