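import Pool.Agent.LieP.I43

/-!
# MP_6c3636_al, section 15, module I44 (stub by helper89)

The antiautomorphism `ty y` of `GL_n(F)`: `(tm A)(tm B) = tm (B A)` as `rv y` is a bijection. `adj (tm A) = tm (adj A)` by `rv_rev`. `ty_U`: positions inside a level: `j < i` gives `rv j > rv i`.
-/

namespace LieP.GI

noncomputable section

open Classical Matrix

variable {n : ℕ} {F : Type} [Field F]

theorem I44_inj {y : Fin n → ℝ} (hy : Antitone y) : Function.Injective (rv y) :=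
  Function.LeftInverse.injective (rv_rv hy)

theorem I44_bij {y : Fin n → ℝ} (hy : Antitone y) : Function.Bijective (rv y) :=
  ⟨I44_inj hy, fun i => ⟨rv y i, rv_rv hy i⟩⟩

theorem I44_mul {y : Fin n → ℝ} (hy : Antitone y) (A B : Matrix (Fin n) (Fin n) F) :
    tm y A * tm y B = tm y (B * A) := by
  ext i j
  rw [Matrix.mul_apply]
  show ∑ k, A (rv y k) (rv y i) * B (rv y j) (rv y k) = (B * A) (rv y j) (rv y i)
  rw [Matrix.mul_apply, ← (I44_bij hy).sum_comp fun k => B (rv y j) k * A k (rv y i)]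
  exact Finset.sum_congr rfl fun k _ => mul_comm _ _

theorem I44_one {y : Fin n → ℝ} (hy : Antitone y) : tm y (1 : Matrix (Fin n) (Fin n) F) = 1 := by
  ext i j
  show (1 : Matrix (Fin n) (Fin n) F) (rv y j) (rv y i) = _
  by_cases h : i = j
  · rw [h, Matrix.one_apply_eq, Matrix.one_apply_eq]
  · rw [Matrix.one_apply_ne h, Matrix.one_apply_ne (fun h' => h (I44_inj hy h').symm)]

theorem I44_val {y : Fin n → ℝ} (hy : Antitone y) (g : GL (Fin n) F) :
    (ty y g : Matrix (Fin n) (Fin n) F) = tm y (g : Matrix (Fin n) (Fin n) F) := by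
  have h : tm y (g : Matrix (Fin n) (Fin n) F) * tm y ((g⁻¹ : GL (Fin n) F) : Matrix (Fin n) (Fin n) F) = 1 ∧
      tm y ((g⁻¹ : GL (Fin n) F) : Matrix (Fin n) (Fin n) F) * tm y (g : Matrix (Fin n) (Fin n) F) = 1 := by
    rw [I44_mul hy, I44_mul hy, ← Units.val_mul, ← Units.val_mul, inv_mul_cancel, mul_inv_cancel,
      Units.val_one, I44_one hy]
    exact ⟨rfl, rfl⟩
  rw [ty, dif_pos h]

theorem ty_apply {y : Fin n → ℝ} (hy : Antitone y) (g : GL (Fin n) F) (i j : Fin n) :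
    (ty y g : Matrix (Fin n) (Fin n) F) i j = (g : Matrix (Fin n) (Fin n) F) (rv y j) (rv y i) := by
  rw [I44_val hy]
  rfl

theorem ty_mul {y : Fin n → ℝ} (hy : Antitone y) (g h : GL (Fin n) F) : ty y (g * h) = ty y h * ty y g := by
  apply Units.ext
  rw [Units.val_mul, I44_val hy, I44_val hy, I44_val hy, I44_mul hy, Units.val_mul]

theorem ty_ty {y : Fin n → ℝ} (hy : Antitone y) (g : GL (Fin n) F) : ty y (ty y g) = g := by
  apply Units.ext
  ext i j
  rw [ty_apply hy, ty_apply hy, rv_rv hy, rv_rv hy]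

theorem ty_UG {σ : F ≃+* F} {y : Fin n → ℝ} (hy : Antitone y) (hy' : ∀ i, y (Fin.rev i) = - y i) {g : GL (Fin n) F}
    (hg : g ∈ UG σ Fin.revPerm) : ty y g ∈ UG σ Fin.revPerm := by
  have h1 : adj σ Fin.revPerm (g : Matrix (Fin n) (Fin n) F) * (g : Matrix (Fin n) (Fin n) F) = 1 := hg
  have h2 : (g : Matrix (Fin n) (Fin n) F) * adj σ Fin.revPerm (g : Matrix (Fin n) (Fin n) F) = 1 :=
    mul_eq_one_comm.1 h1
  show adj σ Fin.revPerm (ty y g : Matrix (Fin n) (Fin n) F) * (ty y g : Matrix (Fin n) (Fin n) F) = 1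
  have h3 : adj σ Fin.revPerm (ty y g : Matrix (Fin n) (Fin n) F) =
      tm y (adj σ Fin.revPerm (g : Matrix (Fin n) (Fin n) F)) := by
    ext i j
    show σ ((ty y g : Matrix (Fin n) (Fin n) F) (Fin.rev j) (Fin.rev i)) =
      σ ((g : Matrix (Fin n) (Fin n) F) (Fin.rev (rv y i)) (Fin.rev (rv y j)))
    rw [ty_apply hy, rv_rev hy hy', rv_rev hy hy']
  rw [h3, I44_val hy, I44_mul hy, h2, I44_one hy]

theorem ty_UL [Finite F] {σ : F ≃+* F} {y : Fin n → ℝ} (hy : Antitone y) (hy' : ∀ i, y (Fin.rev i) = - y i)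
    {g : GL (Fin n) F} (hg : g ∈ UL σ Fin.revPerm y) : ty y g ∈ UL σ Fin.revPerm y := by
  rw [mem_UL] at hg ⊢
  refine ⟨ty_UG hy hy' hg.1, fun i j hij => ?_⟩
  rw [ty_apply hy]
  refine hg.2 _ _ ?_
  rw [rv_eq hy, rv_eq hy]
  exact fun h => hij h.symm

theorem ty_U [Finite F] {σ : F ≃+* F} {y : Fin n → ℝ} (hy : Antitone y) (hy' : ∀ i, y (Fin.rev i) = - y i)
    {g : GL (Fin n) F} (hg : g ∈ UU σ (co (z0 n)) ⊓ UL σ Fin.revPerm y) :
    ty y g ∈ UU σ (co (z0 n)) ⊓ UL σ Fin.revPerm y := by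
  obtain ⟨h1, h2⟩ := Subgroup.mem_inf.1 hg
  have h3 := ty_UL hy hy' h2
  refine Subgroup.mem_inf.2 ⟨?_, h3⟩
  rw [mem_UU] at h1 ⊢
  refine ⟨(mem_UL.1 h3).1, fun i j hij => ?_⟩
  rw [z0_lt] at hij
  by_cases hne : y i = y j
  · rw [ty_apply hy]
    by_cases hij' : i = j
    · subst hij'
      rw [h1.2 _ _ (lt_irrefl _), Matrix.one_apply_eq, Matrix.one_apply_eq]
    · have hlt : j < i := lt_of_le_of_ne (not_lt.1 hij) (Ne.symm hij')
      have h4 : rv y i < rv y j := rv_lt hy hne.symm hlt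
      rw [h1.2 _ _ (fun h5 => absurd (z0_lt.1 h5) (not_lt.2 h4.le)), Matrix.one_apply_ne h4.ne',
        Matrix.one_apply_ne hij']
  · rw [(mem_UL.1 h3).2 i j hne, Matrix.one_apply_ne (fun h => hne (congrArg y h))]

end

end LieP.GI
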