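import Pool.Agent.LieP.I27
import Pool.Agent.LieP.I44

/-!
# MP_6c3636_al, section 15, module I46 (stub by helper89)

The standard character `l0`. `l0_lin`: `en_mul_Uk` for `k = 1`, `add`, `add'`. `l0_Tv`: `reN_mem`: `l0 (reN r s)` is `ψ s` (resp. `ψ' s` if `2r+2 = n`) if `y_r = y_{r+1}` and `1` otherwise (`ψ 0 = 1`); `nt`, `nt'` with `c = 0`: nontrivial.
`l0_ty`: the entry of `ty u` at `(r, r+1)` is that of `u` at `(rv (r+1), rv r)`, and `rv r = rv (r+1) + 1` (`rv_succ`). Let `2r+2 ≤ n`, `y_r = y_{r+1}`. If `y_r = 0`: `rv = rev` there (`rv_zero`), `u_{n-2-r} = σ(u_r)` (`en_rev_Uk`), same factor by `inv` (`2r+2 = n`: `n-2-r = r`).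
If `y_r ≠ 0`: `y_r > 0` (antitone, `y_{rev i} = - y_i`), `r* := rv (r+1)` has `y_{r*} = y_{r*+1} = y_r > 0`, so `2 r* + 2 < n`, and `r ↦ r*` is an involution of the set of these `r`. Reindex the product.
-/

namespace LieP.GI

noncomputable section

open Classical Matrix

variable {n : ℕ} {F : Type} [Field F]

private theorem I46_zero {ψ : F → ℤˣ} (h : ∀ x y, ψ (x + y) = ψ x * ψ y) : ψ 0 = 1 := by
  have h1 := h 0 0
  rw [add_zero] at h1
  exact mul_eq_left.1 h1.symm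

private theorem I46_pos {Y : Fin n → ℝ} (hy : Antitone Y) (hy' : ∀ i, Y (Fin.rev i) = - Y i) {c : Fin n}
    (h : 0 < Y c) : 2 * (c : ℕ) + 1 < n := by
  by_contra hc
  have h1 : Fin.rev c ≤ c := by
    rw [Fin.le_def, Fin.val_rev]
    omega
  have h2 := hy h1
  rw [hy'] at h2
  linarith

private theorem I46_nonneg {Y : Fin n → ℝ} (hy : Antitone Y) (hy' : ∀ i, Y (Fin.rev i) = - Y i) {c : Fin n}
    (h : 2 * (c : ℕ) + 2 ≤ n) : 0 ≤ Y c := by
  have h1 : c ≤ Fin.rev c := by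
    rw [Fin.le_def, Fin.val_rev]
    omega
  have h2 := hy h1
  rw [hy'] at h2
  linarith

/-- the reindexing -/
private def I46_rs (Y : Fin n → ℝ) (r : ℕ) : ℕ :=
  if cn Y r = 0 then r else if h : r + 1 < n then (rv Y ⟨r + 1, h⟩ : ℕ) else r

private theorem I46_main {Y : Fin n → ℝ} (hy : Antitone Y) (hy' : ∀ i, Y (Fin.rev i) = - Y i) {r : ℕ}
    (hr : 2 * r + 2 ≤ n) (hc : cn Y r = cn Y (r + 1)) (h0 : cn Y r ≠ 0) (h : r + 1 < n) :
    I46_rs Y r = (rv Y ⟨r + 1, h⟩ : ℕ) ∧ (rv Y ⟨r, Nat.lt_of_succ_lt h⟩ : ℕ) = I46_rs Y r + 1 ∧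
      2 * r + 2 ≠ n ∧ 2 * I46_rs Y r + 2 < n ∧ cn Y (I46_rs Y r) = cn Y (I46_rs Y r + 1) ∧
      cn Y (I46_rs Y r) ≠ 0 ∧ I46_rs Y (I46_rs Y r) = r := by
  have hrn : r < n := Nat.lt_of_succ_lt h
  have e1 : I46_rs Y r = (rv Y ⟨r + 1, h⟩ : ℕ) := by
    rw [I46_rs, if_neg h0, dif_pos h]
  have hab : Y ⟨r, hrn⟩ = Y ⟨r + 1, h⟩ := by
    rw [cn_eq Y hrn, cn_eq Y h] at hc
    exact hc
  have hne : Y ⟨r, hrn⟩ ≠ 0 := by
    rw [cn_eq Y hrn] at h0
    exact h0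
  have hpos : 0 < Y ⟨r, hrn⟩ := lt_of_le_of_ne (I46_nonneg hy hy' hr) (Ne.symm hne)
  have e2 : (rv Y ⟨r, hrn⟩ : ℕ) = (rv Y ⟨r + 1, h⟩ : ℕ) + 1 := rv_succ hy hab rfl
  have e3 : 2 * (r + 1) + 1 < n := I46_pos hy hy' (c := ⟨r + 1, h⟩) (by rw [← hab]; exact hpos)
  have e4 : 2 * (rv Y ⟨r, hrn⟩ : ℕ) + 1 < n := I46_pos hy hy' (by rw [rv_eq hy]; exact hpos)
  have e5 : cn Y (rv Y ⟨r + 1, h⟩ : ℕ) = Y ⟨r + 1, h⟩ := by
    rw [cn_eq Y (rv Y ⟨r + 1, h⟩).2]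
    exact rv_eq hy _
  have hlt : (rv Y ⟨r + 1, h⟩ : ℕ) + 1 < n := by
    rw [← e2]
    exact (rv Y ⟨r, hrn⟩).2
  have e6 : (⟨(rv Y ⟨r + 1, h⟩ : ℕ) + 1, hlt⟩ : Fin n) = rv Y ⟨r, hrn⟩ := Fin.ext e2.symm
  have e7 : cn Y ((rv Y ⟨r + 1, h⟩ : ℕ) + 1) = Y ⟨r, hrn⟩ := by
    rw [cn_eq Y hlt, e6]
    exact rv_eq hy _
  refine ⟨e1, by rw [e1, e2], by omega, ?_, ?_, ?_, ?_⟩
  · rw [e1]
    omega
  · rw [e1, e5, e7, hab]
  · rw [e1, e5, ← hab]
    exact hne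
  · have h1 : cn Y (rv Y ⟨r + 1, h⟩ : ℕ) ≠ 0 := by
      rw [e5, ← hab]
      exact hne
    rw [e1, I46_rs, if_neg h1, dif_pos hlt, e6, rv_rv hy]

theorem l0_lin [Finite F] {σ : F ≃+* F} {ψ ψ' : F → ℤˣ} (hp : PsPair σ ψ ψ') (y : Fin n → ℝ) :
    Lin (UU σ (co (z0 n))) (l0 y ψ ψ') := by
  intro u hu v hv
  rw [← Uk_one] at hu hv
  unfold l0
  rw [← Finset.prod_mul_distrib]
  refine Finset.prod_congr rfl fun r _ => ?_
  rw [en_mul_Uk le_rfl hu hv r]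
  split_ifs
  · exact hp.add' _ _
  · exact hp.add _ _

theorem l0_reN [Finite F] [CharP F 2] {σ : F ≃+* F} (hH : Hyp σ n) {ψ ψ' : F → ℤˣ} (hp : PsPair σ ψ ψ') (y : Fin n → ℝ)
    {r : ℕ} (hr : 2 * r + 2 ≤ n) {s : F} (hs : Al0 n σ r s) :
    l0 y ψ ψ' (reN n σ r s) = if cn y r = cn y (r + 1) then (if 2 * r + 2 = n then ψ' s else ψ s) else 1 := by
  obtain ⟨_, h2, h3⟩ := reN_mem hH hr hs
  have hz : ψ 0 = 1 := I46_zero hp.add
  have hz' : ψ' 0 = 1 := I46_zero hp.add'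
  have hq : ∀ q, q ≠ r → 2 * q + 2 ≤ n →
      (if 2 * q + 2 = n then ψ' (en (reN n σ r s) q (q + 1)) else ψ (en (reN n σ r s) q (q + 1))) = 1 := by
    intro q hqr hqn
    rw [h3 q hqr hqn, hz, hz', ite_self]
  unfold l0
  by_cases hc : cn y r = cn y (r + 1)
  · rw [if_pos hc, Finset.prod_eq_single r]
    · rw [h2]
    · intro q hq' hqr
      rw [Finset.mem_filter] at hq'
      exact hq q hqr hq'.2.1
    · intro h
      exact absurd (Finset.mem_filter.2 ⟨Finset.mem_range.2 (by omega), hr, hc⟩) h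
  · rw [if_neg hc]
    refine Finset.prod_eq_one fun q hq' => ?_
    rw [Finset.mem_filter] at hq'
    refine hq q ?_ hq'.2.1
    rintro rfl
    exact hc hq'.2.2

theorem l0_Tv [Finite F] [CharP F 2] {σ : F ≃+* F} (hH : Hyp σ n) {ψ ψ' : F → ℤˣ} (hp : PsPair σ ψ ψ') (y : Fin n → ℝ)
    {r : ℕ} (hr : 2 * r + 2 ≤ n) : Tv n σ (l0 y ψ ψ') r ↔ cn y r ≠ cn y (r + 1) := by
  have hz : ψ 0 = 1 := I46_zero hp.add
  have hz' : ψ' 0 = 1 := I46_zero hp.add'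
  constructor
  · intro hT hc
    by_cases hn : 2 * r + 2 = n
    · have h1 : ∀ s, σ s = s → ψ' s = 1 := by
        intro s hs
        have hs' : Al0 n σ r s := fun _ => hs
        have h2 := hT s hs'
        rw [l0_reN hH hp y hr hs', if_pos hc, if_pos hn] at h2
        exact h2
      refine zero_ne_one (hp.nt' 0 (map_zero σ) fun x hx => ?_)
      rw [zero_mul, hz', h1 x hx]
    · have h1 : ∀ s, ψ s = 1 := by
        intro s
        have hs' : Al0 n σ r s := fun h => absurd h hn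
        have h2 := hT s hs'
        rw [l0_reN hH hp y hr hs', if_pos hc, if_neg hn] at h2
        exact h2
      refine zero_ne_one (hp.nt 0 fun x => ?_)
      rw [zero_mul, hz, h1 x]
  · intro hc s hs
    rw [l0_reN hH hp y hr hs, if_neg hc]

theorem l0_ty [Finite F] [CharP F 2] {σ : F ≃+* F} (hH : Hyp σ n) {ψ ψ' : F → ℤˣ} (hp : PsPair σ ψ ψ') {y : En n}
    (hy : Antitone (co y)) : ∀ u ∈ UU σ (co (z0 n)) ⊓ UL σ Fin.revPerm (co y),
      l0 (co y) ψ ψ' (ty (co y) u) = l0 (co y) ψ ψ' u := by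
  intro u hu
  have hu1 : u ∈ Uk n σ 1 := by
    rw [Uk_one]
    exact (Subgroup.mem_inf.1 hu).1
  have hy' : ∀ i, co y (Fin.rev i) = - co y i := co_rev y
  unfold l0
  have hmem : ∀ r ∈ (Finset.range n).filter (fun r => 2 * r + 2 ≤ n ∧ cn (co y) r = cn (co y) (r + 1)),
      I46_rs (co y) r ∈ (Finset.range n).filter (fun r => 2 * r + 2 ≤ n ∧ cn (co y) r = cn (co y) (r + 1)) ∧
        I46_rs (co y) (I46_rs (co y) r) = r := by
    intro r hr
    by_cases h0 : cn (co y) r = 0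
    · have e : I46_rs (co y) r = r := by rw [I46_rs, if_pos h0]
      rw [e, e]
      exact ⟨hr, rfl⟩
    · rw [Finset.mem_filter, Finset.mem_range] at hr
      obtain ⟨_, _, _, h4, h5, _, h7⟩ := I46_main hy hy' hr.2.1 hr.2.2 h0 (by omega)
      refine ⟨?_, h7⟩
      rw [Finset.mem_filter, Finset.mem_range]
      exact ⟨by omega, h4.le, h5⟩
  refine Finset.prod_nbij' (I46_rs (co y)) (I46_rs (co y)) (fun r hr => (hmem r hr).1) (fun r hr => (hmem r hr).1)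
    (fun r hr => (hmem r hr).2) (fun r hr => (hmem r hr).2) ?_
  intro r hr
  rw [Finset.mem_filter, Finset.mem_range] at hr
  obtain ⟨hrn, hr2, hc⟩ := hr
  have h : r + 1 < n := by omega
  have key : en (ty (co y) u) r (r + 1) = en u (rv (co y) ⟨r + 1, h⟩ : ℕ) (rv (co y) ⟨r, hrn⟩ : ℕ) := by
    rw [en_eq _ hrn h, ty_apply hy, en_coe]
  by_cases h0 : cn (co y) r = 0
  · have e : I46_rs (co y) r = r := by rw [I46_rs, if_pos h0]
    have ha : co y ⟨r, hrn⟩ = 0 := by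
      rw [cn_eq _ hrn] at h0
      exact h0
    have hb : co y ⟨r + 1, h⟩ = 0 := by
      rw [hc, cn_eq _ h] at h0
      exact h0
    have e1 : (rv (co y) ⟨r + 1, h⟩ : ℕ) = n - 1 - (r + 1) := by
      rw [rv_zero hy hy' hb, Fin.val_rev]
      show n - (r + 1 + 1) = n - 1 - (r + 1)
      omega
    have e2 : (rv (co y) ⟨r, hrn⟩ : ℕ) = n - 1 - r := by
      rw [rv_zero hy hy' ha, Fin.val_rev]
      show n - (r + 1) = n - 1 - r
      omega
    rw [e]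
    have e3 : en (ty (co y) u) r (r + 1) = en u (n - 1 - (r + 1)) (n - 1 - r) := by
      rw [key, e1, e2]
    by_cases hn : 2 * r + 2 = n
    · rw [if_pos hn, if_pos hn, e3]
      have e4 : n - 1 - (r + 1) = r := by omega
      have e5 : n - 1 - r = r + 1 := by omega
      rw [e4, e5]
    · rw [if_neg hn, if_neg hn, e3, en_rev_Uk le_rfl hu1 hH.1 h, hp.inv]
  · obtain ⟨h1, h2, h3, h4, _, _, _⟩ := I46_main hy hy' hr2 hc h0 h
    rw [if_neg h3, if_neg (by omega : ¬ 2 * I46_rs (co y) r + 2 = n), key, h2, ← h1]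

end

end LieP.GI
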