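import Pool.Agent.LieP.I46

/-!
# MP_6c3636_al, section 15, module I47 (stub by helper89)

Monomial elements `m ∈ L y` with `e m e ≠ 0`. `π = pm m`. Let `π j = π i + 1`, `i < j`, `y` equal at `π i, π j` (so at `i, j`, as `m ∈ L y` gives `y_{π i} = y_i`). Put `r := π i`. First let `2r+2 ≤ n`. `u := reN r s` (`s` allowed), `u ∈ U z_0 ⊓ L y` (`IsRe.U`, `IsRe.L`).
`u' := m⁻¹ u m`: entry at `(a, b)`: `m_a⁻¹ u_{π a, π b} m_b`, `m_a := m_{π a, a}` (`IsMo.conj` for `m⁻¹` or `m`). Nontrivial entries of `u`: `(r, r+1)`, its mirror, and possibly one more [`(r, rev r)` if `r + 1 = rev (r+1)`]; of `u'`: `(i, j)`, `(rev j, rev i)`, and possibly `(i, rev i)` if `j = rev j` (`pm_rev`);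
all above the diagonal since `i < j`; so `u' ∈ U z_0 ⊓ L y` and `l0 u = l0 u'` by hypothesis; `l0 u = ψ s` (or `ψ' s` if `2r+2 = n`) by `l0_reN`. If `j ≠ i+1` then all entries of `u'` on the first superdiagonal vanish (the third position has distance `2 (j-i) ≥ 2`), `l0 u' = 1` for all allowed `s`: contradiction to `nt`, `nt'` (`c = 0`).
So `j = i+1`, and `l0 u' = ψ (m_i⁻¹ s m_{i+1})` [if `2i+2 < n`; if `2i+2 > n` the mirror position is in the left half with the entry `σ(..)`, use `inv`; `2r+2 = n` iff `π j = rev (π i)` iff `j = rev i` iff `2i+2 = n`; then `ψ'`, and `m_i⁻¹ m_{i+1}` is fixed by `σ` by `entry_rev`]. `nt`: `m_i⁻¹ m_{i+1} = 1`.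
If `2r+2 > n`: apply the first case to `(rev j, rev i)` instead of `(i, j)` (`pm_rev`; `π (rev i) = rev (π j) + 1`), and `entry_rev`: `m_a σ(m_{rev a}) = 1`.
-/

namespace LieP.GI

noncomputable section

open Classical Matrix

variable {n : ℕ} {F : Type} [Field F]

namespace I47_aux

theorem ps_zero {σ : F ≃+* F} {ψ ψ' : F → ℤˣ} (hp : PsPair σ ψ ψ') : ψ 0 = 1 := by
  have h := hp.add 0 0
  rw [add_zero] at h
  exact (mul_eq_left (a := ψ 0)).1 h.symm

theorem ps_zero' {σ : F ≃+* F} {ψ ψ' : F → ℤˣ} (hp : PsPair σ ψ ψ') : ψ' 0 = 1 := by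
  have h := hp.add' 0 0
  rw [add_zero] at h
  exact (mul_eq_left (a := ψ' 0)).1 h.symm

/-- the conjugate of a root element by a monomial element is a root element -/
theorem re_conj {σ : F ≃+* F} {m u : GL (Fin n) F} (hm : m ∈ MoN σ) {i j : Fin n} {s : F}
    (hu : IsRe σ (pm m i) (pm m j) s u) :
    IsRe σ i j (((m : Matrix (Fin n) (Fin n) F) (pm m i) i)⁻¹ * s *
      (m : Matrix (Fin n) (Fin n) F) (pm m j) j) (m⁻¹ * u * m) := by
  have hmo := pm_spec hm
  have key : ∀ a b : Fin n, ((m⁻¹ * u * m : GL (Fin n) F) : Matrix (Fin n) (Fin n) F) a b =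
      ((m : Matrix (Fin n) (Fin n) F) (pm m a) a)⁻¹ * (u : Matrix (Fin n) (Fin n) F) (pm m a) (pm m b) *
        (m : Matrix (Fin n) (Fin n) F) (pm m b) b := by
    intro a b
    have h1 := hmo.conj (h := m⁻¹ * u * m) a b
    have h2 : m * (m⁻¹ * u * m) * m⁻¹ = u := by group
    rw [h2] at h1
    rw [h1]
    have ha := hmo.ne a
    have hb := hmo.ne b
    field_simp
  have inj : ∀ {a b : Fin n}, pm m a = pm m b → a = b := fun h => (pm m).injective h
  refine ⟨?_, ?_, ?_, ?_⟩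
  · exact Subgroup.mul_mem _ (Subgroup.mul_mem _ (Subgroup.inv_mem _ hm.1) hu.mem) hm.1
  · rw [key, hu.e1]
  · have e1 := entry_rev hm (Fin.rev i)
    have e2 := entry_rev hm (Fin.rev j)
    rw [Fin.rev_rev] at e1 e2
    rw [pm_rev hm] at e1 e2
    rw [key, pm_rev hm, pm_rev hm, hu.e2, map_mul, map_mul, map_inv₀, eq_inv_of_mul_eq_one_left e1,
      eq_inv_of_mul_eq_one_left e2, inv_inv]
    ring
  · intro p q h1 h2 h3 h4
    rw [key, hu.e3 (pm m p) (pm m q) (fun h => h1 ⟨inj h.1, inj h.2⟩)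
      (fun h => h2 ⟨inj (h.1.trans (pm_rev hm j).symm), inj (h.2.trans (pm_rev hm i).symm)⟩)
      (fun h => h3 ⟨inj (h.1.trans (pm_rev hm j).symm), inj h.2.1, inj (h.2.2.trans (pm_rev hm i).symm)⟩)
      (fun h => h4 ⟨inj (h.1.trans (pm_rev hm i).symm), inj (h.2.1.trans (pm_rev hm j).symm), inj h.2.2⟩)]
    by_cases hpq : p = q
    · rw [hpq, Matrix.one_apply_eq, Matrix.one_apply_eq, mul_one, inv_mul_cancel₀ (hmo.ne q)]
    · rw [Matrix.one_apply_ne hpq, Matrix.one_apply_ne (fun h => hpq (inj h)), mul_zero, zero_mul]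

theorem l0_near [Finite F] {σ : F ≃+* F} {ψ ψ' : F → ℤˣ} (hp : PsPair σ ψ ψ') (y : En n) {i j : Fin n} {t : F}
    {g : GL (Fin n) F} (hg : IsRe σ i j t g) (hij : (j : ℕ) = i + 1) (hy : co y i = co y j) :
    l0 (co y) ψ ψ' g = if 2 * (i : ℕ) + 2 = n then ψ' t else ψ t := by
  have hlt : (i : ℕ) < j := by omega
  have hj : (j : ℕ) < n := j.2
  have hj' : (i : ℕ) + 1 < n := by omega
  have hen : ∀ r, r + 1 < n → en g r (r + 1) = if r = (i : ℕ) then t else if r + (j : ℕ) + 1 = n then σ t else 0 :=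
    (IsRe.uk (i := (i : ℕ)) (j := (j : ℕ)) hlt hj (k := 1) hg hij.symm).2
  have hj2 : (⟨(i : ℕ) + 1, hj'⟩ : Fin n) = j := Fin.ext hij.symm
  unfold l0
  by_cases h : 2 * (i : ℕ) + 2 ≤ n
  · rw [Finset.prod_eq_single (i : ℕ)]
    · rw [hen _ hj', if_pos rfl]
    · intro r hr hri
      rw [Finset.mem_filter, Finset.mem_range] at hr
      rw [hen r (by omega), if_neg hri, if_neg (show ¬ r + (j : ℕ) + 1 = n by omega)]
      split_ifs
      exacts [ps_zero' hp, ps_zero hp]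
    · intro hni
      exfalso
      apply hni
      rw [Finset.mem_filter, Finset.mem_range]
      refine ⟨i.2, h, ?_⟩
      rw [cn_eq _ i.2, cn_eq _ hj', hj2]
      exact hy
  · have hk : n - 2 - (i : ℕ) < n := by omega
    have hk' : n - 2 - (i : ℕ) + 1 < n := by omega
    rw [if_neg (by omega), Finset.prod_eq_single (n - 2 - (i : ℕ))]
    · rw [hen _ hk', if_neg (by omega), if_neg (by omega), if_pos (by omega), hp.inv]
    · intro r hr hri
      rw [Finset.mem_filter, Finset.mem_range] at hr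
      rw [hen r (by omega), if_neg (show ¬ r = (i : ℕ) by omega), if_neg (show ¬ r + (j : ℕ) + 1 = n by omega)]
      split_ifs
      exacts [ps_zero' hp, ps_zero hp]
    · intro hni
      exfalso
      apply hni
      rw [Finset.mem_filter, Finset.mem_range]
      refine ⟨hk, by omega, ?_⟩
      have h1 : (⟨n - 2 - (i : ℕ), hk⟩ : Fin n) = Fin.rev j := by
        apply Fin.ext
        rw [Fin.val_rev]
        show n - 2 - (i : ℕ) = n - ((j : ℕ) + 1)
        omega
      have h2 : (⟨n - 2 - (i : ℕ) + 1, hk'⟩ : Fin n) = Fin.rev i := by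
        apply Fin.ext
        rw [Fin.val_rev]
        show n - 2 - (i : ℕ) + 1 = n - ((i : ℕ) + 1)
        omega
      rw [cn_eq _ hk, cn_eq _ hk', h1, h2, co_rev, co_rev, hy]

theorem l0_far [Finite F] {σ : F ≃+* F} {ψ ψ' : F → ℤˣ} (hp : PsPair σ ψ ψ') (y : Fin n → ℝ) {i j : Fin n} {t : F}
    {g : GL (Fin n) F} (hg : IsRe σ i j t g) (hij : (i : ℕ) + 1 < j) : l0 y ψ ψ' g = 1 := by
  have hlt : (i : ℕ) < j := by omega
  have hj : (j : ℕ) < n := j.2
  have hu : g ∈ Uk n σ ((j : ℕ) - i) :=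
    (IsRe.uk (i := (i : ℕ)) (j := (j : ℕ)) hlt hj (k := (j : ℕ) - i) hg (by omega)).1
  rw [mem_Uk] at hu
  unfold l0
  refine Finset.prod_eq_one fun r hr => ?_
  rw [Finset.mem_filter, Finset.mem_range] at hr
  have hr1 : r + 1 < n := by omega
  have h0 : en g r (r + 1) = 0 := by
    rw [en_eq g hr.1 hr1, hu.2 _ _ (fun h => ?_), Matrix.one_apply_ne]
    · intro h
      have := congrArg Fin.val h
      simp at this
    · have h1 : r + ((j : ℕ) - i) ≤ r + 1 := h.1
      omega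
  rw [h0]
  split_ifs
  exacts [ps_zero' hp, ps_zero hp]

theorem first [Finite F] [CharP F 2] {σ : F ≃+* F} (hH : Hyp σ n) {ψ ψ' : F → ℤˣ} (hp : PsPair σ ψ ψ') {y : En n}
    {m : GL (Fin n) F} (hm : m ∈ MoN σ) (hm' : m ∈ UL σ Fin.revPerm (co y))
    (h : ∀ u ∈ UU σ (co (z0 n)) ⊓ UL σ Fin.revPerm (co y),
      m⁻¹ * u * m ∈ UU σ (co (z0 n)) ⊓ UL σ Fin.revPerm (co y) →
        l0 (co y) ψ ψ' u = l0 (co y) ψ ψ' (m⁻¹ * u * m))
    {i j : Fin n} (hij : (pm m j : ℕ) = pm m i + 1) (hyij : co y (pm m i) = co y (pm m j)) (hlt : i < j)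
    (hr : 2 * (pm m i : ℕ) + 2 ≤ n) :
    (j : ℕ) = i + 1 ∧
      (m : Matrix (Fin n) (Fin n) F) (pm m i) i = (m : Matrix (Fin n) (Fin n) F) (pm m j) j := by
  have hmo := pm_spec hm
  have hyy : ∀ a : Fin n, co y (pm m a) = co y a := by
    intro a
    by_contra hne
    exact hmo.ne a ((mem_UL.1 hm').2 _ _ hne)
  have hyij' : co y i = co y j := by rw [← hyy i, ← hyy j, hyij]
  have hr1 : (pm m i : ℕ) + 1 < n := by rw [← hij]; exact (pm m j).2
  have e2 : (⟨(pm m i : ℕ) + 1, hr1⟩ : Fin n) = pm m j := Fin.ext hij.symm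
  have hlt' : (i : ℕ) < j := hlt
  have key : ∀ s : F, Al0 n σ (pm m i : ℕ) s →
      (if 2 * (pm m i : ℕ) + 2 = n then ψ' s else ψ s) =
        l0 (co y) ψ ψ' (m⁻¹ * reN n σ (pm m i : ℕ) s * m) ∧
      IsRe σ i j (((m : Matrix (Fin n) (Fin n) F) (pm m i) i)⁻¹ * s *
        (m : Matrix (Fin n) (Fin n) F) (pm m j) j) (m⁻¹ * reN n σ (pm m i : ℕ) s * m) := by
    intro s hs
    have h1 : IsRe σ (pm m i) (pm m j) s (reN n σ (pm m i : ℕ) s) := by
      have h0 := reN_isRe hH hr hr1 hs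
      rw [e2] at h0
      exact h0
    have h2 := re_conj hm h1
    refine ⟨?_, h2⟩
    have hπ : pm m i < pm m j := by
      rw [Fin.lt_def, hij]
      exact Nat.lt_succ_self _
    have hcn : cn (co y) (pm m i : ℕ) = cn (co y) ((pm m i : ℕ) + 1) := by
      rw [cn_eq _ (pm m i).2, cn_eq _ hr1, e2]
      exact hyij
    have hl := h _ (Subgroup.mem_inf.2 ⟨h1.U (co_rev (z0 n)) (z0_lt.2 hπ), h1.L (co_rev y) hyij⟩)
      (Subgroup.mem_inf.2 ⟨h2.U (co_rev (z0 n)) (z0_lt.2 hlt), h2.L (co_rev y) hyij'⟩)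
    rw [l0_reN hH hp (co y) hr hs, if_pos hcn] at hl
    exact hl
  have hrev : 2 * (pm m i : ℕ) + 2 = n ↔ j = Fin.rev i := by
    rw [← (pm m).injective.eq_iff (a := j), pm_rev hm, Fin.ext_iff, Fin.val_rev, hij]
    omega
  have hdi := hmo.ne i
  have hdj := hmo.ne j
  by_cases hn : 2 * (pm m i : ℕ) + 2 = n
  · have hji : j = Fin.rev i := hrev.1 hn
    by_cases hfar : (i : ℕ) + 1 < j
    · exfalso
      refine zero_ne_one (hp.nt' 0 (map_zero σ) fun x hx => ?_)
      have h1 := key x (fun _ => hx)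
      rw [if_pos hn, l0_far hp (co y) h1.2 hfar] at h1
      rw [zero_mul, ps_zero' hp, h1.1]
    · have hjj : (j : ℕ) = i + 1 := by omega
      refine ⟨hjj, ?_⟩
      have hn' : 2 * (i : ℕ) + 2 = n := by
        have := congrArg Fin.val hji
        rw [Fin.val_rev] at this
        omega
      have hc := hp.nt' (((m : Matrix (Fin n) (Fin n) F) (pm m i) i)⁻¹ *
        (m : Matrix (Fin n) (Fin n) F) (pm m j) j) ?_ ?_
      · exact ((inv_mul_eq_one₀ hdi).1 hc)
      · have a1 := entry_rev hm i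
        have a2 := entry_rev hm j
        rw [hji, Fin.rev_rev] at a2
        rw [← hji] at a1 a2
        rw [map_mul, map_inv₀, eq_inv_of_mul_eq_one_right a1, eq_inv_of_mul_eq_one_right a2, inv_inv, mul_comm]
      · intro x hx
        have h1 := key x (fun _ => hx)
        rw [if_pos hn, l0_near hp y h1.2 hjj hyij', if_pos hn'] at h1
        rw [h1.1]
        congr 1
        ring
  · by_cases hfar : (i : ℕ) + 1 < j
    · exfalso
      refine zero_ne_one (hp.nt 0 fun x => ?_)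
      have h1 := key x (fun h' => absurd h' hn)
      rw [if_neg hn, l0_far hp (co y) h1.2 hfar] at h1
      rw [zero_mul, ps_zero hp, h1.1]
    · have hjj : (j : ℕ) = i + 1 := by omega
      refine ⟨hjj, ?_⟩
      have hn' : ¬ 2 * (i : ℕ) + 2 = n := by
        intro h'
        apply hn
        rw [hrev]
        apply Fin.ext
        rw [Fin.val_rev]
        omega
      have hc := hp.nt (((m : Matrix (Fin n) (Fin n) F) (pm m i) i)⁻¹ *
        (m : Matrix (Fin n) (Fin n) F) (pm m j) j) ?_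
      · exact ((inv_mul_eq_one₀ hdi).1 hc)
      · intro x
        have h1 := key x (fun h' => absurd h' hn)
        rw [if_neg hn, l0_near hp y h1.2 hjj hyij', if_neg hn'] at h1
        rw [h1.1]
        congr 1
        ring

end I47_aux

theorem mono_step [Finite F] [CharP F 2] {σ : F ≃+* F} (hH : Hyp σ n) {ψ ψ' : F → ℤˣ} (hp : PsPair σ ψ ψ') {y : En n}
    (hy : Antitone (co y)) {m : GL (Fin n) F} (hm : m ∈ MoN σ) (hm' : m ∈ UL σ Fin.revPerm (co y))
    (h : ∀ u ∈ UU σ (co (z0 n)) ⊓ UL σ Fin.revPerm (co y),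
      m⁻¹ * u * m ∈ UU σ (co (z0 n)) ⊓ UL σ Fin.revPerm (co y) →
        l0 (co y) ψ ψ' u = l0 (co y) ψ ψ' (m⁻¹ * u * m))
    {i j : Fin n} (hij : (pm m j : ℕ) = pm m i + 1) (hyij : co y (pm m i) = co y (pm m j)) (hlt : i < j) :
    (j : ℕ) = i + 1 ∧
      (m : Matrix (Fin n) (Fin n) F) (pm m i) i = (m : Matrix (Fin n) (Fin n) F) (pm m j) j := by
  by_cases hr : 2 * (pm m i : ℕ) + 2 ≤ n
  · exact I47_aux.first hH hp hm hm' h hij hyij hlt hr
  · have hj := (pm m j).2
    have hj2 := j.2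
    have hlt' : (i : ℕ) < j := hlt
    have h1 := I47_aux.first hH hp hm hm' h (i := Fin.rev j) (j := Fin.rev i) ?_ ?_ ?_ ?_
    · obtain ⟨h2, h3⟩ := h1
      rw [Fin.val_rev, Fin.val_rev] at h2
      refine ⟨by omega, ?_⟩
      have a1 := entry_rev hm i
      have a2 := entry_rev hm j
      rw [eq_inv_of_mul_eq_one_left a1, eq_inv_of_mul_eq_one_left a2, h3]
    · rw [pm_rev hm, pm_rev hm, Fin.val_rev, Fin.val_rev]
      omega
    · rw [pm_rev hm, pm_rev hm, co_rev, co_rev, hyij]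
    · rw [Fin.rev_lt_rev]
      exact hlt
    · rw [pm_rev hm, Fin.val_rev]
      omega

end

end LieP.GI
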