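import Pool.Agent.LieP.M08
import Pool.Agent.LieP.A09

/-!
# MP_6c3636_al, LieP, module K01: every irreducible character is in a series (9.1) (helper69)

Section 9, (9.1). `Z_cm_ssub`: `Z (cm y w) = Z y ∩ Z w` (`cm_zero`); if `Z y ⊆ Z w` then `L y ≤ L w` (`L_mono`) and an element of `U w ⊓ L y` is in `U w ⊓ L w`, so it is `1` (`U_L_disj`).
`exists_min_face`: `rk φ (e 0) = dg φ ≠ 0` (`e_zero`, `rk_one`, `ir_one`); choose `y` with `rk φ (e y) ≠ 0` and `(Z y).card` minimal, `Z_cm_ssub`.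
`cusp_of`: `e (cm y w) = e y * av (U w ⊓ L y)` (`e_cm`), so `0 = rk φ (e y * av (U w ⊓ L y)) = ∑ mt * rk ψ (av (U w ⊓ L y))` (`rk_mt`, `e_comm`, `av_idem`), all terms are natural numbers.
`exists_Cs`: `ε` from `exists_prim` (with `a = 1`, `rk_one`, `ir_one`). `lft`: if `av (U w ⊓ L y) * a * ε ≠ 0` then by `exists_common` (`H = L y`) some `χ ∈ ir (L y)` has `rk χ (av _) ≠ 0` and `rk χ ε ≠ 0`, so `χ = ψ`, contradiction to `h`. `rgt` in the same way.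
`exists_Ser`: `rk φ (e y) = ∑ mt * dg ψ` (`rk_mt` with `a = 1`), so some `mt ≠ 0`; `cusp_of`, `exists_Cs`; `mt_prim`: `rk φ (e y * ε) = mt ≠ 0`, and `D.f D.x = e y * ε`.
-/

namespace LieP

noncomputable section

open Classical

variable {Ω : Type} [Field Ω] [IsAlgClosed Ω] [CharZero Ω] {G E : Type} [Group G] [Finite G]
  [NormedAddCommGroup E] [InnerProductSpace ℝ E] [FiniteDimensional ℝ E] {S : LieSys G E}

theorem mem_Ser {D : S.Cs Ω} {φ : G → Ω} : φ ∈ D.Ser ↔ φ ∈ ir Ω S.H ∧ rk φ (D.f D.x) ≠ 0 :=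
  Finset.mem_filter

theorem Z_cm_ssub {y w : E} (h : ∃ g ∈ S.U w, g ∈ S.L y ∧ g ≠ 1) : S.Z (S.cm y w) ⊂ S.Z y := by
  refine ⟨fun a ha => ?_, fun hsub => ?_⟩
  · obtain ⟨h1, h2⟩ := Finset.mem_filter.1 ha
    exact Finset.mem_filter.2 ⟨h1, ((cm_zero S h1).1 h2).1⟩
  · obtain ⟨g, hg1, hg2, hg3⟩ := h
    have h1 : ∀ a ∈ S.R, inner ℝ a y = 0 → inner ℝ a w = 0 := by
      intro a ha h0
      exact ((cm_zero S ha).1 (Finset.mem_filter.1 (hsub (Finset.mem_filter.2 ⟨ha, h0⟩))).2).2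
    exact hg3 (U_L_disj S hg1 (L_mono S h1 hg2))

theorem exists_min_face {φ : G → Ω} (hφ : φ ∈ ir Ω S.H) : ∃ y, rk φ (S.e Ω y) ≠ 0 ∧
    ∀ w, (∃ g ∈ S.U w, g ∈ S.L y ∧ g ≠ 1) → rk φ (S.e Ω (S.cm y w)) = 0 := by
  have h0 : ∃ n, ∃ y, rk φ (S.e Ω y) ≠ 0 ∧ (S.Z y).card = n := by
    refine ⟨_, 0, ?_, rfl⟩
    rw [e_zero (fun a _ => inner_zero_right a), rk_one hφ]
    exact (ir_one hφ).2.ne'
  obtain ⟨y, hy, hcard⟩ := Nat.find_spec h0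
  refine ⟨y, hy, fun w hw => ?_⟩
  by_contra hcon
  have h1 := Finset.card_lt_card (Z_cm_ssub hw)
  rw [hcard] at h1
  exact Nat.find_min h0 h1 ⟨_, hcon, rfl⟩

theorem cusp_of {φ : G → Ω} (hφ : φ ∈ ir Ω S.H) {y : E}
    (hmin : ∀ w, (∃ g ∈ S.U w, g ∈ S.L y ∧ g ≠ 1) → rk φ (S.e Ω (S.cm y w)) = 0) {ψ : G → Ω}
    (hψ : ψ ∈ ir Ω (S.L y)) (hmt : mt (S.L y) φ (S.e Ω y) ψ ≠ 0) :
    ∀ w, (∃ g ∈ S.U w, g ∈ S.L y ∧ g ≠ 1) → rk ψ (av Ω (S.U w ⊓ S.L y)) = 0 := by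
  intro w hw
  have h1 := hmin w hw
  rw [(e_cm y w).1, rk_mt (S.LH y) hφ (e_mem y) (e_idem y) (fun a ha => (e_comm ha).symm)
    (av_mem inf_le_right) (av_idem _)] at h1
  have h2 := Finset.sum_eq_zero_iff.1 h1 ψ hψ
  exact (Nat.mul_eq_zero.1 h2).resolve_left hmt

theorem exists_Cs {y : E} {ψ : G → Ω} (hψ : ψ ∈ ir Ω (S.L y))
    (h : ∀ w, (∃ g ∈ S.U w, g ∈ S.L y ∧ g ≠ 1) → rk ψ (av Ω (S.U w ⊓ S.L y)) = 0) :
    ∃ D : S.Cs Ω, D.x = y ∧ rk ψ D.ε = 1 ∧ ∀ χ ∈ ir Ω (S.L y), χ ≠ ψ → rk χ D.ε = 0 := by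
  obtain ⟨b, hb, hbb, _, _, hb0, _, hb1, hb2, hb3⟩ := exists_prim hψ (one_mem _) (one_mul 1)
    (by rw [rk_one hψ]; exact (ir_one hψ).2.ne')
  have hl : ∀ w, (∃ g ∈ S.U w, g ∈ S.L y ∧ g ≠ 1) → ∀ a ∈ sb Ω (S.L y), av Ω (S.U w ⊓ S.L y) * a * b = 0 := by
    intro w hw a ha
    by_contra hcon
    obtain ⟨χ, hχ, h1, h2⟩ := (exists_common (av_mem inf_le_right) (av_idem _) hb hbb).1 ⟨a, ha, hcon⟩
    by_cases h3 : χ = ψ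
    · subst h3
      exact h1 (h w hw)
    · exact h2 (hb2 χ hχ h3)
  have hr : ∀ w, (∃ g ∈ S.U w, g ∈ S.L y ∧ g ≠ 1) → ∀ a ∈ sb Ω (S.L y), b * a * av Ω (S.U w ⊓ S.L y) = 0 := by
    intro w hw a ha
    by_contra hcon
    obtain ⟨χ, hχ, h1, h2⟩ := (exists_common hb hbb (av_mem inf_le_right) (av_idem _)).1 ⟨a, ha, hcon⟩
    by_cases h3 : χ = ψ
    · subst h3
      exact h2 (h w hw)
    · exact h1 (hb2 χ hχ h3)
  exact ⟨⟨y, b, hb, hbb, hb0, fun a ha => ⟨_, hb3 a ha⟩, hl, hr⟩, rfl, hb1, hb2⟩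

/-- (9.1) -/
theorem exists_Ser {φ : G → Ω} (hφ : φ ∈ ir Ω S.H) : ∃ D : S.Cs Ω, φ ∈ D.Ser := by
  obtain ⟨y, hy, hmin⟩ := exists_min_face hφ
  have hc : ∀ a ∈ sb Ω (S.L y), S.e Ω y * a = a * S.e Ω y := fun a ha => (e_comm ha).symm
  have h1 := rk_mt (S.LH y) hφ (e_mem y) (e_idem y) hc (one_mem (sb Ω (S.L y))) (one_mul 1)
  rw [mul_one] at h1
  have h2 : ∃ ψ ∈ ir Ω (S.L y), mt (S.L y) φ (S.e Ω y) ψ * rk ψ (1 : Al Ω G) ≠ 0 := by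
    by_contra hcon
    push Not at hcon
    rw [Finset.sum_eq_zero hcon] at h1
    exact hy h1
  obtain ⟨ψ, hψ, h3⟩ := h2
  have h4 : mt (S.L y) φ (S.e Ω y) ψ ≠ 0 := left_ne_zero_of_mul h3
  obtain ⟨D, hD, h5, h6⟩ := exists_Cs hψ (cusp_of hφ hmin hψ h4)
  refine ⟨D, mem_Ser.2 ⟨hφ, ?_⟩⟩
  have h7 : D.ε ∈ sb Ω (S.L y) := by rw [← hD]; exact D.mem
  have h8 := mt_prim (S.LH y) hφ (e_mem y) (e_idem y) hc hψ h7 D.idem h5 h6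
  have h9 : D.f D.x = S.e Ω y * D.ε := by rw [hD]; rfl
  rw [h9, ← h8]
  exact h4

end

end LieP
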