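import Pool.Agent.LieP.K01
import Pool.Agent.LieP.C04

/-!
# MP_6c3636_al, LieP, module K02: series with a common member, series of Levi systems (9.2), (9.3) (helper69)

Section 9, (9.2), (9.3). `Ser_common`: `exists_common` (for `D'.f D'.x`, `D.f D.x`, `f_mem`, `f_idem`) and `mackey_zero`.
`upD`: a cuspidal idempotent of the Levi system of `y` is one of `S`, with the point `cm y D1.x`: `L (cm y D1.x) = L y ⊓ L D1.x` (`L_cm`) is `(lev S y).L D1.x`, and `(lev S y).U w ⊓ (lev S y).L D1.x = U w ⊓ L (cm y D1.x)`.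
`lev_upD`: `U (cm y x) ⊓ L y = U x ⊓ L y` (`U_cm_L`). `upD_Ser`: `e (cm y D1.x) * ε = e y * (av (U D1.x ⊓ L y) * ε)` (`e_cm`), `rk_mt`.
`cjD`: conjugation of everything with `n` (`conj_U`, `conj_L`, `av_conj`, `conj_mem`; a root system point `w` corresponds to `ac n⁻¹ w`). `cjD_NN`: with `a = 1`: `(n ε n⁻¹) n ε = n ε ≠ 0`.
-/

namespace LieP

noncomputable section

open Classical

variable {Ω : Type} [Field Ω] [IsAlgClosed Ω] [CharZero Ω] {G E : Type} [Group G] [Finite G]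
  [NormedAddCommGroup E] [InnerProductSpace ℝ E] [FiniteDimensional ℝ E] {S : LieSys G E}

/-- (9.2) -/
theorem Ser_common {D' D : S.Cs Ω} {φ : G → Ω} (h' : φ ∈ D'.Ser) (h : φ ∈ D.Ser) :
    ∃ n, n ∈ D'.NN D := by
  by_contra hcon
  push Not at hcon
  obtain ⟨hφ, h1⟩ := mem_Ser.1 h
  obtain ⟨-, h2⟩ := mem_Ser.1 h'
  obtain ⟨x, hx, hne⟩ := (exists_common (f_mem D' D'.x) (f_idem D' (reg_refl S _)) (f_mem D D.x)
    (f_idem D (reg_refl S _))).2 ⟨φ, hφ, h2, h1⟩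
  exact hne (mackey_zero (reg_refl S _) (reg_refl S _) hcon hx)

namespace K02_aux

omit [IsAlgClosed Ω] [CharZero Ω] [Finite G] in
theorem inf_eq (y x w : E) :
    (lev S y).U w ⊓ (lev S y).L x = S.U w ⊓ S.L (S.cm y x) := by
  show (S.U w ⊓ S.L y) ⊓ (S.L x ⊓ S.L y) = _
  rw [L_cm]
  ext g
  simp only [Subgroup.mem_inf]
  tauto

omit [IsAlgClosed Ω] [CharZero Ω] [Finite G] in
theorem hyp {y x w : E} (h : ∃ g ∈ S.U w, g ∈ S.L (S.cm y x) ∧ g ≠ 1) :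
    ∃ g ∈ (lev S y).U w, g ∈ (lev S y).L x ∧ g ≠ 1 := by
  obtain ⟨g, hg, hL, hne⟩ := h
  have hL' := hL
  rw [L_cm, Subgroup.mem_inf] at hL'
  exact ⟨g, Subgroup.mem_inf.2 ⟨hg, hL'.1⟩, Subgroup.mem_inf.2 ⟨hL'.2, hL'.1⟩, hne⟩

end K02_aux

open K02_aux

/-- a cuspidal idempotent of the Levi system of `y` as a cuspidal idempotent of `S` -/
def upD {y : E} (D1 : (lev S y).Cs Ω) : S.Cs Ω where
  x := S.cm y D1.x
  ε := D1.ε
  mem := by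
    rw [← lev_L_cm]
    exact D1.mem
  idem := D1.idem
  ne := D1.ne
  prim := by
    rw [← lev_L_cm]
    exact D1.prim
  lft := by
    intro w hw a ha
    rw [← inf_eq]
    rw [← lev_L_cm] at ha
    exact D1.lft w (hyp hw) a ha
  rgt := by
    intro w hw a ha
    rw [← inf_eq]
    rw [← lev_L_cm] at ha
    exact D1.rgt w (hyp hw) a ha

theorem upD_mem {y : E} (D1 : (lev S y).Cs Ω) : y ∈ S.X (upD D1).x := by
  intro a ha h0
  exact ((cm_zero S ha).1 h0).1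

theorem lev_upD {y : E} (D1 : (lev S y).Cs Ω) :
    (levD (upD D1) y (upD_mem D1)).f (S.cm y D1.x) = D1.f D1.x := by
  rw [levD_f]
  show av Ω (S.U (S.cm y D1.x) ⊓ S.L y) * D1.ε = av Ω (S.U D1.x ⊓ S.L y) * D1.ε
  rw [U_cm_L]

theorem upD_Ser {φ : G → Ω} (hφ : φ ∈ ir Ω S.H) {y : E} {ψ : G → Ω} (hψ : ψ ∈ ir Ω (S.L y))
    (hmt : mt (S.L y) φ (S.e Ω y) ψ ≠ 0) {D1 : (lev S y).Cs Ω} (h : ψ ∈ D1.Ser) :
    φ ∈ (upD D1).Ser ∧ ψ ∈ (levD (upD D1) y (upD_mem D1)).Ser := by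
  have h1 : rk ψ (D1.f D1.x) ≠ 0 := (mem_Ser.1 h).2
  constructor
  · refine mem_Ser.2 ⟨hφ, ?_⟩
    have h2 : (upD D1).f (upD D1).x = S.e Ω y * D1.f D1.x := by
      show S.e Ω (S.cm y D1.x) * D1.ε = S.e Ω y * (av Ω (S.U D1.x ⊓ S.L y) * D1.ε)
      rw [(e_cm (S := S) y D1.x).1, mul_assoc]
    rw [h2, rk_mt (S.LH y) hφ (e_mem y) (e_idem y) (fun a ha => (e_comm ha).symm)
      (f_mem D1 D1.x) (f_idem D1 (reg_refl _ _))]
    intro h0
    have h3 := (Finset.sum_eq_zero_iff.1 h0) ψ hψ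
    exact (mul_ne_zero hmt h1) h3
  · refine mem_Ser.2 ⟨hψ, ?_⟩
    have h2 : (levD (upD D1) y (upD_mem D1)).f (levD (upD D1) y (upD_mem D1)).x = D1.f D1.x :=
      lev_upD D1
    rw [h2]
    exact h1

namespace K02_aux

variable {n : G}

omit [IsAlgClosed Ω] [CharZero Ω] [Finite G] in
theorem dl_cancel (n : G) : (dl n⁻¹ : Al Ω G) * dl n = 1 := by
  rw [← dl_mul, inv_mul_cancel, dl_one]

omit [IsAlgClosed Ω] [CharZero Ω] [Finite G] in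
theorem dl_cancel' (n : G) : (dl n : Al Ω G) * dl n⁻¹ = 1 := by
  rw [← dl_mul, mul_inv_cancel, dl_one]

omit [IsAlgClosed Ω] [CharZero Ω] [Finite G] in
/-- conjugation back -/
theorem back (hn : n ∈ S.N) {x : E} {a : Al Ω G} (ha : a ∈ sb Ω (S.L (S.ac n x))) :
    dl n⁻¹ * a * dl n ∈ sb Ω (S.L x) := by
  have h1 : ∀ l, l ∈ S.L (S.ac n x) ↔ n⁻¹ * l * n⁻¹⁻¹ ∈ S.L x := by
    intro l
    have := conj_L S (S.N.inv_mem hn) (x := S.ac n x) (u := l)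
    rwa [ac_inv_apply S hn] at this
  have h2 := conj_mem h1 ha
  rwa [inv_inv] at h2

omit [IsAlgClosed Ω] in
theorem conj_av (hn : n ∈ S.N) (x w : E) :
    av Ω (S.U w ⊓ S.L (S.ac n x)) = dl n * av Ω (S.U (S.ac n⁻¹ w) ⊓ S.L x) * dl n⁻¹ := by
  symm
  apply av_conj
  intro l
  rw [Subgroup.mem_inf, Subgroup.mem_inf, conj_U S hn (x := S.ac n⁻¹ w), ac_apply_inv S hn, conj_L S hn (x := x)]

omit [IsAlgClosed Ω] [CharZero Ω] [Finite G] in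
theorem hyp' (hn : n ∈ S.N) {x w : E} (h : ∃ g ∈ S.U w, g ∈ S.L (S.ac n x) ∧ g ≠ 1) :
    ∃ g ∈ S.U (S.ac n⁻¹ w), g ∈ S.L x ∧ g ≠ 1 := by
  obtain ⟨g, hg, hL, hne⟩ := h
  have hg' : n * (n⁻¹ * g * n) * n⁻¹ = g := by group
  refine ⟨n⁻¹ * g * n, ?_, ?_, ?_⟩
  · rw [conj_U S hn (x := S.ac n⁻¹ w), ac_apply_inv S hn, hg']
    exact hg
  · rw [conj_L S hn (x := x), hg']
    exact hL
  · intro h1
    rw [h1, mul_one, mul_inv_cancel] at hg'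
    exact hne hg'.symm

end K02_aux

/-- the conjugate of a cuspidal idempotent -/
def cjD (D : S.Cs Ω) (n : G) (hn : n ∈ S.N) : S.Cs Ω where
  x := S.ac n D.x
  ε := dl n * D.ε * dl n⁻¹
  mem := conj_mem (fun l => conj_L S hn) D.mem
  idem := by
    have h1 : dl n * D.ε * dl n⁻¹ * (dl n * D.ε * dl n⁻¹) =
        dl n * (D.ε * (dl n⁻¹ * dl n) * D.ε) * dl n⁻¹ := by noncomm_ring
    rw [h1, dl_cancel, mul_one, D.idem]
  ne := by
    intro h0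
    apply D.ne
    have h1 : dl n⁻¹ * (dl n * D.ε * dl n⁻¹) * dl n = (dl n⁻¹ * dl n) * D.ε * (dl n⁻¹ * dl n) := by
      noncomm_ring
    rw [h0, dl_cancel, one_mul, mul_one, mul_zero, zero_mul] at h1
    exact h1.symm
  prim := by
    intro a ha
    obtain ⟨r, hr⟩ := D.prim _ (back hn ha)
    refine ⟨r, ?_⟩
    have h1 : dl n * D.ε * dl n⁻¹ * a * (dl n * D.ε * dl n⁻¹) =
        dl n * (D.ε * (dl n⁻¹ * a * dl n) * D.ε) * dl n⁻¹ := by noncomm_ring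
    rw [h1, hr, mul_smul_comm, smul_mul_assoc]
  lft := by
    intro w hw a ha
    rw [conj_av hn]
    have h1 : dl n * av Ω (S.U (S.ac n⁻¹ w) ⊓ S.L D.x) * dl n⁻¹ * a * (dl n * D.ε * dl n⁻¹) =
        dl n * (av Ω (S.U (S.ac n⁻¹ w) ⊓ S.L D.x) * (dl n⁻¹ * a * dl n) * D.ε) * dl n⁻¹ := by
      noncomm_ring
    rw [h1, D.lft _ (hyp' hn hw) _ (back hn ha), mul_zero, zero_mul]
  rgt := by
    intro w hw a ha
    rw [conj_av hn]
    have h1 : dl n * D.ε * dl n⁻¹ * a * (dl n * av Ω (S.U (S.ac n⁻¹ w) ⊓ S.L D.x) * dl n⁻¹) =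
        dl n * (D.ε * (dl n⁻¹ * a * dl n) * av Ω (S.U (S.ac n⁻¹ w) ⊓ S.L D.x)) * dl n⁻¹ := by
      noncomm_ring
    rw [h1, D.rgt _ (hyp' hn hw) _ (back hn ha), mul_zero, zero_mul]

theorem cjD_NN (D : S.Cs Ω) {n : G} (hn : n ∈ S.N) : n ∈ (cjD D n hn).NN D := by
  refine ⟨hn, fun l => conj_L S hn, 1, Subalgebra.one_mem _, ?_⟩
  show dl n * D.ε * dl n⁻¹ * 1 * dl n * D.ε ≠ 0
  have h1 : dl n * D.ε * dl n⁻¹ * 1 * dl n * D.ε = dl n * (D.ε * (dl n⁻¹ * dl n) * D.ε) := by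
    noncomm_ring
  rw [h1, dl_cancel, mul_one, D.idem]
  intro h0
  apply D.ne
  have h2 : dl n⁻¹ * (dl n * D.ε) = (dl n⁻¹ * dl n) * D.ε := by noncomm_ring
  rw [h0, dl_cancel, one_mul, mul_zero] at h2
  exact h2.symm

end

end LieP
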