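import Pool.Agent.LieP.K02

/-!
# MP_6c3636_al, LieP, module K03: series of Levi systems (9.3) (helper69)

Section 9, (9.3). `NN_Ser`: `n ∈ D'.NN D`, `y' = ac n y`. `rk (cjg n ψ) (dl n * a * dl n⁻¹) = rk ψ a` (`rk_cjg`) for `a = (levD D y hy).f D.x = av (U D.x ⊓ L y) * ε`: `dl n * a * dl n⁻¹ = av (U (ac n D.x) ⊓ L y') * ε''`, `ε'' = dl n * ε * dl n⁻¹ ∈ sb (L D'.x)` (`av_conj`, `conj_U`, `conj_L`).
By `NN_cn` there are `c ∈ lin D' D n`, `c' ∈ lin D D' n⁻¹` with `c c' = D'.ε`, `c' c = D.ε`; so `x = c * dl n⁻¹`, `y = dl n * c'` are in `sb (L D'.x)`, `x y = D'.ε`, `y x = ε''`. The idempotent `A = av (U (ac n D.x) ⊓ L y')` commutes with `sb (L D'.x)` (`L D'.x = L (ac n D.x)`, `NN_reg`, and `L D'.x ≤ L y'`; `av_comm`),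
so `rk (cjg n ψ) (A * ε'') = rk (cjg n ψ) (A * D'.ε)` (`rk_equiv` with `A x` and `y A`), and `A * D'.ε = (levD D' y' hy').f (ac n D.x)`. `ac n D.x` is regular for `levD D' y' hy'` (`NN_reg`, `levD_reg_of`), so the rank is the same as at `D'.x` (`rk_f`, series C, for the system `lev S y'`).
`exists_NN_Ser`: `exists_Ser` for `lev S y` (`(lev S y).H = S.L y`), `upD_Ser`, `Ser_common` for `D` and `upD D1`: `n ∈ D.NN (upD D1)`; `NN_Ser`.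
`NN_of_two`: put `Dn = cjD D n⁻¹`, so `n ∈ D.NN Dn` (`cjD_NN`, `NN_inv`), `y ∈ X Dn.x` and `ψ ∈ (levD Dn y _).Ser` by `NN_Ser`; the same for `n'`. `Ser_common` for `lev S y` gives `l ∈ (levD Dn' y _).NN (levD Dn y _)`, `lev_NN`: `l ∈ Dn'.NN Dn`, `l ∈ L y`; `NN_mul`.
-/

namespace LieP

noncomputable section

open Classical

variable {Ω : Type} [Field Ω] [IsAlgClosed Ω] [CharZero Ω] {G E : Type} [Group G] [Finite G]
  [NormedAddCommGroup E] [InnerProductSpace ℝ E] [FiniteDimensional ℝ E] {S : LieSys G E}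

namespace K03_aux

omit [IsAlgClosed Ω] in
/-- the products with `dl n` of the elements of the lines -/
theorem exists_xy {D' D : S.Cs Ω} {n : G} (hn : n ∈ D'.NN D) :
    ∃ x ∈ sb Ω (S.L D'.x), ∃ y ∈ sb Ω (S.L D'.x), x * y = D'.ε ∧ y * x = dl n * D.ε * dl n⁻¹ := by
  obtain ⟨c, ⟨a, ha, hc⟩, c', ⟨a', ha', hc'⟩, h1, h2, -⟩ := NN_cn hn
  have e1 : (dl n⁻¹ * dl n : Al Ω G) = 1 := by rw [← dl_mul, inv_mul_cancel, dl_one]
  have m1 : dl n * D.ε * dl n⁻¹ ∈ sb Ω (S.L D'.x) := conj_mem hn.2.1 D.mem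
  have m2 : dl n * (D.ε * a') * dl n⁻¹ ∈ sb Ω (S.L D'.x) :=
    conj_mem hn.2.1 (mul_mem D.mem ha')
  refine ⟨c * dl n⁻¹, ?_, dl n * c', ?_, ?_, ?_⟩
  · have h3 : c * dl n⁻¹ = D'.ε * a * (dl n * D.ε * dl n⁻¹) := by
      rw [hc]
      simp only [mul_assoc]
    rw [h3]
    exact mul_mem (mul_mem D'.mem ha) m1
  · have h3 : dl n * c' = (dl n * (D.ε * a') * dl n⁻¹) * D'.ε := by
      rw [hc']
      simp only [mul_assoc]
    rw [h3]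
    exact mul_mem m2 D'.mem
  · calc c * dl n⁻¹ * (dl n * c') = c * (dl n⁻¹ * dl n) * c' := by simp only [mul_assoc]
      _ = D'.ε := by rw [e1, mul_one, h1]
  · calc dl n * c' * (c * dl n⁻¹) = dl n * (c' * c) * dl n⁻¹ := by simp only [mul_assoc]
      _ = dl n * D.ε * dl n⁻¹ := by rw [h2]

theorem rk_key {D' D : S.Cs Ω} {n : G} (hn : n ∈ D'.NN D) {y : E} (hy : y ∈ S.X D.x)
    (hy' : S.ac n y ∈ S.X D'.x) {ψ : G → Ω} (hψ : ψ ∈ ir Ω (S.L y)) :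
    rk (cjg n ψ) ((levD D' (S.ac n y) hy').f D'.x) = rk ψ ((levD D y hy).f D.x) := by
  have hN : n ∈ S.N := (NN_H hn).1
  have hψ' : cjg n ψ ∈ ir Ω (S.L (S.ac n y)) := cjg_ir (fun l => conj_L S hN) hψ
  have e1 : (dl n⁻¹ * dl n : Al Ω G) = 1 := by rw [← dl_mul, inv_mul_cancel, dl_one]
  have hreg : S.Reg D'.x (S.ac n D.x) := (NN_reg hn).1
  -- the rank at the point `ac n D.x`
  have s1 : rk (cjg n ψ) ((levD D' (S.ac n y) hy').f (S.ac n D.x)) =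
      rk (cjg n ψ) ((levD D' (S.ac n y) hy').f D'.x) :=
    rk_f (S := lev S (S.ac n y)) (D := levD D' (S.ac n y) hy') (levD_reg_of hreg) hψ'
  have s2 : (levD D' (S.ac n y) hy').f (S.ac n D.x) =
      av Ω (S.U (S.ac n D.x) ⊓ S.L (S.ac n y)) * D'.ε := rfl
  have s3 : (levD D y hy).f D.x = av Ω (S.U D.x ⊓ S.L y) * D.ε := rfl
  rw [← s1, s2, s3, ← rk_cjg n ψ (av Ω (S.U D.x ⊓ S.L y) * D.ε)]
  -- the conjugate
  have s4 : dl n * av Ω (S.U D.x ⊓ S.L y) * dl n⁻¹ =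
      av Ω (S.U (S.ac n D.x) ⊓ S.L (S.ac n y)) := by
    refine av_conj fun l => ?_
    rw [Subgroup.mem_inf, Subgroup.mem_inf]
    exact and_congr (conj_U S hN) (conj_L S hN)
  have s5 : dl n * (av Ω (S.U D.x ⊓ S.L y) * D.ε) * dl n⁻¹ =
      av Ω (S.U (S.ac n D.x) ⊓ S.L (S.ac n y)) * (dl n * D.ε * dl n⁻¹) := by
    rw [← s4]
    calc dl n * (av Ω (S.U D.x ⊓ S.L y) * D.ε) * dl n⁻¹
        = dl n * av Ω (S.U D.x ⊓ S.L y) * 1 * D.ε * dl n⁻¹ := by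
          rw [mul_one]
          simp only [mul_assoc]
      _ = dl n * av Ω (S.U D.x ⊓ S.L y) * (dl n⁻¹ * dl n) * D.ε * dl n⁻¹ := by rw [e1]
      _ = dl n * av Ω (S.U D.x ⊓ S.L y) * dl n⁻¹ * (dl n * D.ε * dl n⁻¹) := by
          simp only [mul_assoc]
  rw [s5]
  -- the subgroups
  have hLreg : S.L D'.x = S.L (S.ac n D.x) := L_reg S hreg
  have hLy : S.L D'.x ≤ S.L (S.ac n y) := L_mono S hy'
  have hcomm : ∀ a ∈ sb Ω (S.L D'.x), a * av Ω (S.U (S.ac n D.x) ⊓ S.L (S.ac n y)) =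
      av Ω (S.U (S.ac n D.x) ⊓ S.L (S.ac n y)) * a := by
    intro a ha
    refine av_comm (fun l hl u hu => ?_) ha
    rw [Subgroup.mem_inf] at hu ⊢
    exact ⟨S.s4 _ l (hLreg ▸ hl) u hu.1,
      mul_mem (mul_mem (hLy hl) hu.2) (inv_mem (hLy hl))⟩
  have hA : av Ω (S.U (S.ac n D.x) ⊓ S.L (S.ac n y)) ∈ sb Ω (S.L (S.ac n y)) := av_mem inf_le_right
  have hAA := av_idem (k := Ω) (S.U (S.ac n D.x) ⊓ S.L (S.ac n y))
  obtain ⟨x, hx, z, hz, hxz, hzx⟩ := exists_xy hn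
  have hε'' : dl n * D.ε * dl n⁻¹ ∈ sb Ω (S.L D'.x) := conj_mem hn.2.1 D.mem
  have hεε : dl n * D.ε * dl n⁻¹ * (dl n * D.ε * dl n⁻¹) = dl n * D.ε * dl n⁻¹ := by
    calc dl n * D.ε * dl n⁻¹ * (dl n * D.ε * dl n⁻¹)
        = dl n * (D.ε * (dl n⁻¹ * dl n) * D.ε) * dl n⁻¹ := by simp only [mul_assoc]
      _ = dl n * D.ε * dl n⁻¹ := by rw [e1, mul_one, D.idem]
  generalize av Ω (S.U (S.ac n D.x) ⊓ S.L (S.ac n y)) = A at hcomm hA hAA ⊢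
  generalize (dl n * D.ε * dl n⁻¹ : Al Ω G) = ε'' at hzx hε'' hεε ⊢
  have p1 : A * x * (z * A) = A * D'.ε := by
    calc A * x * (z * A) = A * ((x * z) * A) := by simp only [mul_assoc]
      _ = A * D'.ε := by rw [hxz, hcomm _ D'.mem, ← mul_assoc, hAA]
  have p2 : z * A * (A * x) = A * ε'' := by
    calc z * A * (A * x) = z * (A * A) * x := by simp only [mul_assoc]
      _ = A * (z * x) := by rw [hAA, hcomm z hz, mul_assoc]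
      _ = A * ε'' := by rw [hzx]
  have idp : ∀ a ∈ sb Ω (S.L D'.x), a * a = a → A * a * (A * a) = A * a := by
    intro a ha haa
    calc A * a * (A * a) = A * (a * A) * a := by simp only [mul_assoc]
      _ = A * A * (a * a) := by
          rw [hcomm a ha]
          simp only [mul_assoc]
      _ = A * a := by rw [hAA, haa]
  have q := rk_equiv hψ' (x := A * x) (y := z * A) (mul_mem hA (sb_mono hLy hx))
    (mul_mem (sb_mono hLy hz) hA) (by rw [p1]; exact idp _ D'.mem D'.idem)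
    (by rw [p2]; exact idp _ hε'' hεε)
  rw [p1, p2] at q
  exact q

end K03_aux

theorem NN_Ser {D' D : S.Cs Ω} {n : G} (hn : n ∈ D'.NN D) {y : E} (hy : y ∈ S.X D.x)
    (hy' : S.ac n y ∈ S.X D'.x) {ψ : G → Ω} (hψ : ψ ∈ ir Ω (S.L y)) :
    cjg n ψ ∈ (levD D' (S.ac n y) hy').Ser ↔ ψ ∈ (levD D y hy).Ser := by
  have hψ' : cjg n ψ ∈ ir Ω (S.L (S.ac n y)) := cjg_ir (fun l => conj_L S (NN_H hn).1) hψ
  have key := K03_aux.rk_key hn hy hy' hψ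
  rw [mem_Ser, mem_Ser]
  constructor
  · rintro ⟨-, h2⟩
    exact ⟨hψ, fun h3 => h2 (key.trans h3)⟩
  · rintro ⟨-, h2⟩
    exact ⟨hψ', fun h3 => h2 (key.symm.trans h3)⟩

/-- (9.3) -/
theorem exists_NN_Ser {D : S.Cs Ω} {φ : G → Ω} (h : φ ∈ D.Ser) {y : E} {ψ : G → Ω}
    (hψ : ψ ∈ ir Ω (S.L y)) (hmt : mt (S.L y) φ (S.e Ω y) ψ ≠ 0) :
    ∃ n ∈ S.N, ∃ hy : S.ac n y ∈ S.X D.x, cjg n ψ ∈ (levD D (S.ac n y) hy).Ser := by
  obtain ⟨D1, hD1⟩ := exists_Ser (S := lev S y) (φ := ψ) hψ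
  obtain ⟨h1, h2⟩ := upD_Ser (mem_Ser.1 h).1 hψ hmt hD1
  obtain ⟨n, hn⟩ := Ser_common h h1
  have h3 : S.ac n y ∈ S.X D.x := ((NN_reg hn).2.1 y).2 (upD_mem D1)
  exact ⟨n, (NN_H hn).1, h3, (NN_Ser hn (upD_mem D1) h3 hψ).2 h2⟩

theorem NN_of_two {D : S.Cs Ω} {y : E} {ψ : G → Ω} (hψ : ψ ∈ ir Ω (S.L y)) {n n' : G}
    (hn : n ∈ S.N) (hn' : n' ∈ S.N) (hy : S.ac n y ∈ S.X D.x) (hy' : S.ac n' y ∈ S.X D.x)
    (h : cjg n ψ ∈ (levD D (S.ac n y) hy).Ser) (h' : cjg n' ψ ∈ (levD D (S.ac n' y) hy').Ser) :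
    ∃ l ∈ S.N, l ∈ S.L y ∧ n' * l * n⁻¹ ∈ D.NN D := by
  have a1 : n⁻¹ ∈ (cjD D n⁻¹ (S.N.inv_mem hn)).NN D := cjD_NN D (S.N.inv_mem hn)
  have a2 : n ∈ D.NN (cjD D n⁻¹ (S.N.inv_mem hn)) := by
    have := NN_inv a1
    rwa [inv_inv] at this
  have b1 : n'⁻¹ ∈ (cjD D n'⁻¹ (S.N.inv_mem hn')).NN D := cjD_NN D (S.N.inv_mem hn')
  have b2 : n' ∈ D.NN (cjD D n'⁻¹ (S.N.inv_mem hn')) := by
    have := NN_inv b1
    rwa [inv_inv] at this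
  have a3 : y ∈ S.X (cjD D n⁻¹ (S.N.inv_mem hn)).x := ((NN_reg a2).2.1 y).1 hy
  have b3 : y ∈ S.X (cjD D n'⁻¹ (S.N.inv_mem hn')).x := ((NN_reg b2).2.1 y).1 hy'
  have a4 : ψ ∈ (levD (cjD D n⁻¹ (S.N.inv_mem hn)) y a3).Ser := (NN_Ser a2 a3 hy hψ).1 h
  have b4 : ψ ∈ (levD (cjD D n'⁻¹ (S.N.inv_mem hn')) y b3).Ser := (NN_Ser b2 b3 hy' hψ).1 h'
  obtain ⟨l, hl⟩ := Ser_common (S := lev S y) b4 a4
  have h5 := (lev_NN b3 a3).1 hl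
  exact ⟨l, (NN_H h5.1).1, h5.2, NN_mul (NN_mul b2 h5.1) a1⟩

/-- the series depends only on the facet of the point -/
theorem Ser_eqv {D : S.Cs Ω} {y y' : E} (hy : y ∈ S.X D.x) (hy' : y' ∈ S.X D.x) (h : S.eqv y y') :
    (levD D y hy).Ser = (levD D y' hy').Ser := by
  have hL : S.L y = S.L y' := L_eqv S h
  ext φ
  rw [mem_Ser, mem_Ser]
  show (φ ∈ ir Ω (S.L y) ∧ rk φ (av Ω (S.U D.x ⊓ S.L y) * D.ε) ≠ 0) ↔
    (φ ∈ ir Ω (S.L y') ∧ rk φ (av Ω (S.U D.x ⊓ S.L y') * D.ε) ≠ 0)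
  rw [hL]

end

end LieP
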