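import Pool.Agent.LieP.V01
import Pool.Agent.LieP.A02

/-!
# MP_6c3636_al, LieP, module V02: conjugate Levi systems (helper64)

Section 8, (8.2). `n ∈ N`. The system `lev S (ac n y)` is the conjugate of `lev S y` by `n`: `a ∈ lR S y` iff `ac n a ∈ lR S (ac n y)` (`ac_R`, `ac n` is an isometry), `u ∈ lU S y x` iff `n u n⁻¹ ∈ lU S (ac n y) (ac n x)` (`conj_U`, `conj_L`).
`lev_Rg_ac`: for a face `y'` of `ac n z` (in `lev S (ac n y)`) use the hypothesis for `ac n⁻¹ y'` (`ac_apply_inv`, `ac_inner`, `ac_inv`).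
`tr_dual`, `rk_dual`: `tr (φ ∘ inv) a = tr φ (st a)` (`coeff_st`, reindex the sum). `gen_dual`: `gen_eq` for `φ` and the dual character (`ir_dual`), `st_el`.
`gen_cjg`: take a generic `z` (`exists_gn`), it is generic for `lev S y` (`lev_gn_of`); `exists_Rg` for `lev S y`; `gen_eq` for the two systems (with `z`, `l` and `ac n z`, `u ↦ l (n⁻¹ u n)`), `el_conj`, `rk_cjg`, `cjg_ir`.
-/

namespace LieP

noncomputable section

open Classical

variable {Ω : Type} [Field Ω] [IsAlgClosed Ω] [CharZero Ω] {G E : Type} [Group G] [Finite G]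
  [NormedAddCommGroup E] [InnerProductSpace ℝ E] [FiniteDimensional ℝ E] (S : LieSys G E)

theorem mem_lev_U_ac {n : G} (hn : n ∈ S.N) {y x : E} {u : G} :
    u ∈ (lev S y).U x ↔ n * u * n⁻¹ ∈ (lev S (S.ac n y)).U (S.ac n x) := by
  exact and_congr (conj_U S hn) (conj_L S hn)

theorem mem_lev_L_ac {n : G} (hn : n ∈ S.N) {y x : E} {u : G} :
    u ∈ (lev S y).L x ↔ n * u * n⁻¹ ∈ (lev S (S.ac n y)).L (S.ac n x) := by
  exact and_congr (conj_L S hn) (conj_L S hn)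

theorem mem_lev_R_ac {n : G} (hn : n ∈ S.N) {y a : E} :
    a ∈ (lev S y).R ↔ S.ac n a ∈ (lev S (S.ac n y)).R := by
  show a ∈ lR S y ↔ S.ac n a ∈ lR S (S.ac n y)
  rw [mem_lR, mem_lR, ac_R S hn, LinearIsometryEquiv.inner_map_map]

theorem lev_le_ac {n : G} (hn : n ∈ S.N) {y x x' : E} :
    (lev S (S.ac n y)).le (S.ac n x) (S.ac n x') ↔ (lev S y).le x x' := by
  constructor
  · intro h a ha h0
    have h1 := h (S.ac n a) ((mem_lev_R_ac S hn).1 ha)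
    rw [LinearIsometryEquiv.inner_map_map, LinearIsometryEquiv.inner_map_map] at h1
    exact h1 h0
  · intro h a ha h0
    have ha' : S.ac n (S.ac n⁻¹ a) = a := ac_apply_inv S hn a
    rw [← ha'] at ha h0 ⊢
    rw [LinearIsometryEquiv.inner_map_map] at h0 ⊢
    exact h _ ((mem_lev_R_ac S hn).2 ha) h0

theorem lev_gn_ac {n : G} (hn : n ∈ S.N) {y z : E} :
    (lev S (S.ac n y)).gn (S.ac n z) ↔ (lev S y).gn z := by
  constructor
  · intro h a ha
    have h1 := h (S.ac n a) ((mem_lev_R_ac S hn).1 ha)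
    rwa [LinearIsometryEquiv.inner_map_map] at h1
  · intro h a ha
    have ha' : S.ac n (S.ac n⁻¹ a) = a := ac_apply_inv S hn a
    rw [← ha'] at ha ⊢
    rw [LinearIsometryEquiv.inner_map_map]
    exact h _ ((mem_lev_R_ac S hn).2 ha)

theorem lev_Rg_ac {n : G} (hn : n ∈ S.N) {y z : E} {l : G → ℤˣ} (h : (lev S y).Rg z l) :
    (lev S (S.ac n y)).Rg (S.ac n z) (fun u => l (n⁻¹ * u * n)) := by
  have hc : ∀ (x : E) (u : G), u ∈ (lev S (S.ac n y)).U (S.ac n x) →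
      n⁻¹ * u * n ∈ (lev S y).U x := by
    intro x u hu
    refine (mem_lev_U_ac S hn).2 ?_
    have h1 : n * (n⁻¹ * u * n) * n⁻¹ = u := by group
    rw [h1]
    exact hu
  refine ⟨fun u hu v hv => ?_, fun y' hy' h1 a ha => ?_⟩
  · have h1 : n⁻¹ * (u * v) * n = (n⁻¹ * u * n) * (n⁻¹ * v * n) := by group
    show l (n⁻¹ * (u * v) * n) = l (n⁻¹ * u * n) * l (n⁻¹ * v * n)
    rw [h1]
    exact h.1 _ (hc z u hu) _ (hc z v hv)
  · have hy0 : S.ac n (S.ac n⁻¹ y') = y' := ac_apply_inv S hn y'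
    have ha0 : S.ac n (S.ac n⁻¹ a) = a := ac_apply_inv S hn a
    rw [← hy0] at hy' h1 ⊢
    rw [← ha0] at ha ⊢
    rw [LinearIsometryEquiv.inner_map_map]
    refine h.2 _ ((lev_le_ac S hn).1 hy') (fun u hu => ?_) _ ((mem_lev_R_ac S hn).2 ha)
    have h2 := h1 (n * u * n⁻¹) ((mem_lev_U_ac S hn).1 hu)
    have h3 : n⁻¹ * (n * u * n⁻¹) * n = u := by group
    simp only [h3] at h2
    exact h2

theorem gen_cjg {n : G} (hn : n ∈ S.N) (y : E) {ψ : G → Ω} (hψ : ψ ∈ ir Ω (S.L y)) :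
    (lev S (S.ac n y)).gen (cjg n ψ) = (lev S y).gen ψ := by
  obtain ⟨z, hz⟩ := exists_gn S
  have hz1 : (lev S y).gn z := lev_gn_of S hz
  obtain ⟨l, -, hl⟩ := exists_Rg (lev S y) hz1
  have hn' : ∀ g, g ∈ S.L y ↔ n * g * n⁻¹ ∈ S.L (S.ac n y) := fun g => conj_L S hn
  have h1 : (lev S y).gen ψ = rk ψ (el Ω ((lev S y).U z) l) := gen_eq (lev S y) hz1 hl hψ
  have h2 : (lev S (S.ac n y)).gen (cjg n ψ) = rk (cjg n ψ)
      (el Ω ((lev S (S.ac n y)).U (S.ac n z)) (fun u => l (n⁻¹ * u * n))) :=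
    gen_eq (lev S (S.ac n y)) ((lev_gn_ac S hn).2 hz1) (lev_Rg_ac S hn hl) (cjg_ir hn' hψ)
  have h3 : dl n * el Ω ((lev S y).U z) l * dl n⁻¹ =
      el Ω ((lev S (S.ac n y)).U (S.ac n z)) (fun g => l (n⁻¹ * g * n)) :=
    el_conj (fun g => mem_lev_U_ac S hn) l
  rw [h1, h2, ← h3, rk_cjg]

omit [IsAlgClosed Ω] [CharZero Ω] in
theorem tr_dual (φ : G → Ω) (a : Al Ω G) : tr (fun g => φ g⁻¹) a = tr φ (st a) := by
  have _ := Fintype.ofFinite G
  rw [tr_fin, tr_fin]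
  refine Fintype.sum_equiv (Equiv.inv G) _ _ fun g => ?_
  rw [Equiv.inv_apply, coeff_st, inv_inv]

omit [IsAlgClosed Ω] [CharZero Ω] in
theorem rk_dual (φ : G → Ω) (a : Al Ω G) : rk (fun g => φ g⁻¹) a = rk φ (st a) := by
  unfold rk
  rw [tr_dual]

theorem gen_dual {φ : G → Ω} (hφ : φ ∈ ir Ω S.H) : S.gen (fun g => φ g⁻¹) = S.gen φ := by
  obtain ⟨z, hz⟩ := exists_gn S
  obtain ⟨l, -, hl⟩ := exists_Rg S hz
  rw [gen_eq S hz hl hφ, gen_eq S hz hl (ir_dual hφ), rk_dual, st_el hl.1]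

end

end LieP
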