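import Pool.Agent.LieP.V08
import Pool.Agent.LieP.A09

/-!
# MP_6c3636_al, LieP, module V09: generic members and Levi subgroups (8.7), (9.4) (helper64)

Section 8, (8.7); section 9, (9.4). Everything is for a point `y` with `L D.x ≤ L y` (`hy : y ∈ S.X D.x`) and the cuspidal idempotent `D'` of the system `lev S y` with the same `x` and `ε`.
`tp_lev`: `(lev S y).L D.x = L D.x ⊓ L y = L D.x` (`lev_L` or `L_mono`), so `D'.tp` and `D.tp` have the same description (`tp_spec`). `gnr_lev`: `gnr_iff_odd` for `D` and `D'`.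
`f_cm`: `S.e Ω (cm y D.x) = S.e Ω y * av Ω (U D.x ⊓ L y)` (`e_face_av`, `le_cm`, `U_cm_L`) and `D'.f D'.x = av Ω (U D.x ⊓ L y) * D.ε`.
`mt_star_le`: let `b` be a primitive idempotent of `sb Ω (L y)` of type `ψ` (`exists_prim` with `a = 1`); `rodier` for `y`, `p = b`: the right side is `(lev S y).gen ψ`; the term of `D.star` on the left is `1 * rk D.star (S.e Ω y * b) = mt ..` (`mt_prim`, `star_spec`; `S.e Ω y` commutes with `sb Ω (L y)`: `av_comm`).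
`star_lev`: if `mt ≠ 0` then `(lev S y).gen ψ ≠ 0`, so `ψ = D'.star` (`star_spec` for `D'`, `gnr_lev`). `mt_star_lev`: `rk D.star (D.f (cm y D.x)) = 1` by hypothesis `hr`, `= rk D.star (S.e Ω y * D'.f D'.x) = ∑ ψ, mt ψ * rk ψ (D'.f D'.x)` (`rk_mt`), so there is `ψ` with `mt ψ = 1` and `rk ψ (D'.f D'.x) = 1`, this `ψ` is in `D'.Ser`, so
it is `D'.star` by `star_lev`.
`rk_el_lev`: `el_split_one`, `rk_mt`, `gen_eq` for `lev S y` (`lev_gn_of`).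
-/

namespace LieP

noncomputable section

open Classical

variable {Ω : Type} [Field Ω] [IsAlgClosed Ω] [CharZero Ω] {G E : Type} [Group G] [Finite G]
  [NormedAddCommGroup E] [InnerProductSpace ℝ E] [FiniteDimensional ℝ E] {S : LieSys G E}

namespace V09_aux

variable (S) in
omit [IsAlgClosed Ω] in
theorem e_mem (y : E) : S.e Ω y ∈ sb Ω S.H := av_mem (S.UH y)

variable (S) in
omit [IsAlgClosed Ω] in
theorem e_idem (y : E) : S.e Ω y * S.e Ω y = S.e Ω y := av_idem _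

variable (S) in
omit [IsAlgClosed Ω] in
theorem e_comm (y : E) : ∀ a ∈ sb Ω (S.L y), S.e Ω y * a = a * S.e Ω y :=
  fun _ ha => (av_comm (S.s4 y) ha).symm

theorem star_mem (D : S.Cs Ω) (h : D.gnr) : D.star ∈ ir Ω S.H :=
  ((D.mem_Ser).mp (D.star_spec h).1).1

end V09_aux

namespace LieSys.Cs

theorem tp_lev (D : S.Cs Ω) {y : E} (hy : y ∈ S.X D.x) (D' : (lev S y).Cs Ω) (hx : D'.x = D.x)
    (hε : D'.ε = D.ε) : D'.tp = D.tp := by
  obtain ⟨h1, h2, -⟩ := D'.tp_spec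
  obtain ⟨-, -, h3⟩ := D.tp_spec
  rw [hx, lev_L S hy] at h1
  rw [hε] at h2
  by_contra hne
  rw [h3 _ h1 hne] at h2
  exact zero_ne_one h2

theorem gnr_lev (D : S.Cs Ω) {y : E} (hy : y ∈ S.X D.x) (D' : (lev S y).Cs Ω) (hx : D'.x = D.x)
    (hε : D'.ε = D.ε) : D'.gnr ↔ D.gnr := by
  rw [D'.gnr_iff_odd, D.gnr_iff_odd, D.tp_lev hy D' hx hε]

theorem f_cm (D : S.Cs Ω) {y : E} (hy : y ∈ S.X D.x) (D' : (lev S y).Cs Ω) (hx : D'.x = D.x)
    (hε : D'.ε = D.ε) : D.f (S.cm y D.x) = S.e Ω y * D'.f D'.x := by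
  show S.e Ω (S.cm y D.x) * D.ε = S.e Ω y * ((lev S y).e Ω D'.x * D'.ε)
  rw [hx, hε, e_face_av S (le_cm S y D.x), U_cm_L, mul_assoc]
  rfl

theorem mt_star_le (D : S.Cs Ω) (h : D.gnr) (y : E) {ψ : G → Ω} (hψ : ψ ∈ ir Ω (S.L y)) :
    mt (S.L y) D.star (S.e Ω y) ψ ≤ (lev S y).gen ψ := by
  have hst := V09_aux.star_mem D h
  have h0 : rk ψ (1 : Al Ω G) ≠ 0 := by
    rw [rk_one hψ]
    exact (ir_one hψ).2.ne'
  obtain ⟨b, hb, hbb, -, -, -, -, hb1, hb0, -⟩ := exists_prim hψ (one_mem (sb Ω (S.L y)))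
    (mul_one 1) h0
  rw [mt_prim (S.LH y) hst (V09_aux.e_mem S y) (V09_aux.e_idem S y) (V09_aux.e_comm S y) hψ hb hbb
    hb1 hb0]
  have h1 := rodier S y hb hbb
  have h2 : ∑ χ ∈ ir Ω (S.L y), (lev S y).gen χ * rk χ b = (lev S y).gen ψ := by
    rw [Finset.sum_eq_single ψ, hb1, mul_one]
    · intro χ hχ hne
      rw [hb0 χ hχ hne, mul_zero]
    · intro h3
      exact absurd hψ h3
  rw [h2] at h1
  rw [← h1]
  have h4 : rk D.star (S.e Ω y * b) = S.gen D.star * rk D.star (S.e Ω y * b) := by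
    rw [(D.star_spec h).2.1, one_mul]
  rw [h4]
  exact Finset.single_le_sum (f := fun φ => S.gen φ * rk φ (S.e Ω y * b)) (fun _ _ => Nat.zero_le _) hst

/-- (8.7) -/
theorem star_lev (D : S.Cs Ω) (h : D.gnr) {y : E} (hy : y ∈ S.X D.x) (D' : (lev S y).Cs Ω)
    (hx : D'.x = D.x) (hε : D'.ε = D.ε) {ψ : G → Ω} (hψ : ψ ∈ D'.Ser)
    (h0 : mt (S.L y) D.star (S.e Ω y) ψ ≠ 0) : ψ = D'.star := by
  have h1 : ψ ∈ ir Ω (S.L y) := ((D'.mem_Ser).mp hψ).1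
  have h2 := D.mt_star_le h y h1
  have h3 : (lev S y).gen ψ ≠ 0 := by omega
  exact (D'.star_spec ((D.gnr_lev hy D' hx hε).mpr h)).2.2.2 ψ hψ h3

theorem mt_star_lev (D : S.Cs Ω) (h : D.gnr) (hr : ∀ x, S.Reg D.x x → rk D.star (D.f x) = 1) {y : E}
    (hy : y ∈ S.X D.x) (D' : (lev S y).Cs Ω) (hx : D'.x = D.x) (hε : D'.ε = D.ε) :
    mt (S.L y) D.star (S.e Ω y) D'.star = 1 := by
  have hst := V09_aux.star_mem D h
  have h1 := hr (S.cm y D.x) (reg_cm S (reg_refl S D.x) hy)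
  have hm : D'.f D'.x ∈ sb Ω (S.L y) := D'.f_mem_H (reg_refl _ _)
  have hi : D'.f D'.x * D'.f D'.x = D'.f D'.x := D'.f_idem_H (reg_refl _ _)
  rw [D.f_cm hy D' hx hε, rk_mt (S.LH y) hst (V09_aux.e_mem S y) (V09_aux.e_idem S y)
    (V09_aux.e_comm S y) hm hi] at h1
  obtain ⟨ψ, hψ, hne⟩ : ∃ ψ ∈ ir Ω (S.L y),
      mt (S.L y) D.star (S.e Ω y) ψ * rk ψ (D'.f D'.x) ≠ 0 := by
    by_contra hcon
    push Not at hcon
    rw [Finset.sum_eq_zero hcon] at h1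
    exact zero_ne_one h1
  have hle : mt (S.L y) D.star (S.e Ω y) ψ * rk ψ (D'.f D'.x) ≤ 1 := by
    rw [← h1]
    exact Finset.single_le_sum
      (f := fun ψ => mt (S.L y) D.star (S.e Ω y) ψ * rk ψ (D'.f D'.x)) (fun _ _ => Nat.zero_le _) hψ
  have h2 : mt (S.L y) D.star (S.e Ω y) ψ * rk ψ (D'.f D'.x) = 1 := by omega
  have h3 : mt (S.L y) D.star (S.e Ω y) ψ = 1 := Nat.eq_one_of_mul_eq_one_right h2
  have h4 : rk ψ (D'.f D'.x) = 1 := Nat.eq_one_of_mul_eq_one_left h2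
  have h5 : ψ ∈ D'.Ser := (D'.mem_Ser).mpr ⟨hψ, by rw [h4]; exact one_ne_zero⟩
  rw [← D.star_lev h hy D' hx hε h5 (by rw [h3]; exact one_ne_zero)]
  exact h3

end LieSys.Cs

variable (S)

/-- the second step of (9.4) -/
theorem rk_el_lev {z y : E} (hz : S.gn z) (hy : S.le y z) {l : G → ℤˣ} (hl : Lin (S.U z) l)
    (h1 : ∀ u ∈ S.U y, l u = 1) (hr : (lev S y).Rg z l) {φ : G → Ω} (hφ : φ ∈ ir Ω S.H) :
    rk φ (el Ω (S.U z) l) = ∑ ψ ∈ ir Ω (S.L y), mt (S.L y) φ (S.e Ω y) ψ * (lev S y).gen ψ := by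
  have hl' : Lin (S.U z ⊓ S.L y) l := fun u hu v hv => hl u hu.1 v hv.1
  rw [el_split_one S hy hl h1, rk_mt (S.LH y) hφ (V09_aux.e_mem S y) (V09_aux.e_idem S y)
    (V09_aux.e_comm S y) (el_mem inf_le_right l) (el_idem hl')]
  refine Finset.sum_congr rfl fun ψ hψ => ?_
  rw [gen_eq (lev S y) (lev_gn_of S hz) hr hψ]
  rfl

end

end LieP
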