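import Pool.Agent.LieP.K03
import Pool.Agent.LieP.V09
import Pool.Agent.LieP.V02

/-!
# MP_6c3636_al, LieP, module K04: series of idempotents which are not generic (9.4) (helper69)

Section 9, (9.4). `rk_el_zero`: `exists_face_Rg S hz hl` gives a face `y` of `z` with `l = 1` on `U y` and `(lev S y).Rg z l`; `rk_el_lev`: `rk φ (el Ω (U z) l) = ∑ ψ, mt ψ * (lev S y).gen ψ`. If `mt ψ ≠ 0` then `exists_NN_Ser` gives `n ∈ N`, `hy` with `cjg n ψ ∈ (levD D (ac n y) hy).Ser`; this idempotent is not generic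
(`D.gnr_lev hy (levD D (ac n y) hy) rfl rfl`), so `(lev S (ac n y)).gen (cjg n ψ) = 0` (`LieSys.Cs.not_gnr`), and `(lev S (ac n y)).gen (cjg n ψ) = (lev S y).gen ψ` (`gen_cjg`). So all terms are `0`.
`even_of_not_gnr`: `exists_gn`; `rk_parity` for `e = 1` (or `rk_parity_e` for `y = 0`): `dg φ = rk φ 1 = ∑_l rk φ (el (U z) l) = 0` modulo `2` (`rk_one`, `mem_lins`).
-/

namespace LieP

noncomputable section

open Classical

variable {Ω : Type} [Field Ω] [IsAlgClosed Ω] [CharZero Ω] {G E : Type} [Group G] [Finite G]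
  [NormedAddCommGroup E] [InnerProductSpace ℝ E] [FiniteDimensional ℝ E] {S : LieSys G E}

/-- (9.4) -/
theorem rk_el_zero {D : S.Cs Ω} (hD : ¬ D.gnr) {φ : G → Ω} (h : φ ∈ D.Ser) {z : E} (hz : S.gn z)
    {l : G → ℤˣ} (hl : Lin (S.U z) l) : rk φ (el Ω (S.U z) l) = 0 := by
  obtain ⟨y, hy, h1, hr⟩ := exists_face_Rg S hz hl
  rw [rk_el_lev S hz hy hl h1 hr (mem_Ser.1 h).1]
  refine Finset.sum_eq_zero fun ψ hψ => ?_
  by_cases hmt : mt (S.L y) φ (S.e Ω y) ψ = 0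
  · rw [hmt, zero_mul]
  obtain ⟨n, hn, hy', hs⟩ := exists_NN_Ser h hψ hmt
  have hg : ¬ (levD D (S.ac n y) hy').gnr := fun h' =>
    hD ((D.gnr_lev hy' (levD D (S.ac n y) hy') rfl rfl).1 h')
  have h2 : (lev S (S.ac n y)).gen (cjg n ψ) = 0 := LieSys.Cs.not_gnr _ hg hs
  rw [← gen_cjg S hn y hψ, h2, mul_zero]

theorem even_of_not_gnr {D : S.Cs Ω} (hD : ¬ D.gnr) {φ : G → Ω} (h : φ ∈ D.Ser) :
    Even (Parker.dg φ) := by
  obtain ⟨z, hz⟩ := exists_gn S
  have hφ := (mem_Ser.1 h).1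
  have h1 := rk_parity S hz hφ (e := 1) (sb Ω S.H).one_mem (one_mul 1) (fun u _ => by rw [one_mul, mul_one])
  rw [rk_one hφ, Finset.sum_eq_zero fun l hl => by
    rw [one_mul, rk_el_zero hD h hz (mem_lins.1 hl).1, Nat.cast_zero]] at h1
  exact ZMod.natCast_eq_zero_iff_even.1 h1

end

end LieP
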