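import Pool.Agent.LieP.K05
import Pool.Agent.LieP.G05

/-!
# MP_6c3636_al, LieP, module K06: the bijection of (9.5) (helper69)

Section 9, (9.5). `z` is generic. `tn S z y ∈ N` moves `y` to a face of `z` (`exists_gn_ge`, `s12`, `ac_le`: if `y ≤ z'` and `ac n z'` is in the facet of `z` then `ac n y ≤ z`). `tn_eqv`: `face_eqv_iff`, `fc_spec`. `tn_unique`: `m * (tn S z y)⁻¹` maps the face `ac (tn S z y) y` of `z` to a face of `z`, so it fixes it (`face_fix`) and is in its `L` (`fix_iff`);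
`cjg_of_mem`, `cjg_cjg`. `cjg_L`: `cjg_ir` with `conj_L`.
`tn_inj`: let `y = fc S z J` be the face for both, `χ` the common character of `L y`, `n₁ = (tn S z y₁)⁻¹`, `n₂ = (tn S z y₂)⁻¹`; `ac n₁ y` is in the facet of `y₁`, `cjg n₁ χ = ψ₁` is in the series of `levD D (ac n₁ y) _` (`Ser_eqv`, `sr_eq`), the same for `2`. `NN_of_two`: `l ∈ N ⊓ L y` with `m = n₂ l n₁⁻¹ ∈ D.NN D`.
`ac m y₁` is in the facet of `ac m (ac n₁ y) = ac n₂ (ac l y) = ac n₂ y` (`fix_iff`), which is the facet of `y₂`. So `y₁ = y₂` (`TV.un`) and `ac m y₁ = y₁` (`eqv_fix`), `m ∈ L y₁`, `ψ₂ = cjg n₂ χ = cjg n₂ (cjg l χ) = cjg m ψ₁ = ψ₁` (`cjg_of_mem`, `cjg_cjg`).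
`tn_surj`: `TV.ex` for `ac n (fc S z J)`: `m ∈ D.NN D`, `y ∈ Y`, `ac m (ac n (fc S z J))` in the facet of `y`. `ψ = cjg (m * n) χ` is in `sr D y` (`NN_Ser`, `Ser_eqv`, `sr_eq`); `(m n)⁻¹` maps `y` to the facet of `fc S z J`, so to a face of `z`: `tn_unique`.
-/

namespace LieP

noncomputable section

open Classical

variable {Ω : Type} [Field Ω] [IsAlgClosed Ω] [CharZero Ω] {G E : Type} [Group G] [Finite G]
  [NormedAddCommGroup E] [InnerProductSpace ℝ E] [FiniteDimensional ℝ E] {S : LieSys G E}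

/-- an element of `N` which moves `y` to a face of `z` -/
def tn (S : LieSys G E) (z y : E) : G := if h : ∃ n ∈ S.N, S.le (S.ac n y) z then h.choose else 1

theorem tn_spec {z : E} (hz : S.gn z) (y : E) : tn S z y ∈ S.N ∧ S.le (S.ac (tn S z y) y) z := by
  have h : ∃ n ∈ S.N, S.le (S.ac n y) z := by
    obtain ⟨z', hz', hy⟩ := exists_gn_ge S y
    obtain ⟨n, hn, h1⟩ := S.s12 z' z hz' hz
    exact ⟨n, hn, le_trans S ((ac_le S hn).2 hy) fun a ha h0 => (h1 a ha).1 h0⟩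
  unfold tn
  rw [dif_pos h]
  exact h.choose_spec

theorem tn_eqv {z : E} (hz : S.gn z) (y : E) :
    S.eqv (S.ac (tn S z y) y) (fc S z (JJ S z (S.ac (tn S z y) y))) := by
  have h1 := fc_spec S hz (JJ_sub S z (S.ac (tn S z y) y))
  exact (face_eqv_iff S hz (tn_spec hz y).2 h1.1).2 h1.2.symm

theorem cjg_L {n : G} (hn : n ∈ S.N) {y y' : E} (h : S.eqv (S.ac n y) y') {ψ : G → Ω}
    (hψ : ψ ∈ ir Ω (S.L y)) : cjg n ψ ∈ ir Ω (S.L y') := by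
  refine cjg_ir (fun l => ?_) hψ
  rw [← L_eqv S h]
  exact conj_L S hn

theorem tn_unique {z : E} (hz : S.gn z) {y : E} {m : G} (hm : m ∈ S.N) (h : S.le (S.ac m y) z)
    {ψ : G → Ω} (hψ : ψ ∈ ir Ω (S.L y)) :
    S.ac m y = S.ac (tn S z y) y ∧ cjg m ψ = cjg (tn S z y) ψ := by
  obtain ⟨ht, hle⟩ := tn_spec hz y
  have hk : m * (tn S z y)⁻¹ ∈ S.N := S.N.mul_mem hm (S.N.inv_mem ht)
  have h1 : S.ac (m * (tn S z y)⁻¹) (S.ac (tn S z y) y) = S.ac m y := by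
    rw [← ac_mul_apply S hk ht, inv_mul_cancel_right]
  have h2 : S.ac (m * (tn S z y)⁻¹) (S.ac (tn S z y) y) = S.ac (tn S z y) y :=
    face_fix S hz hk hle (by rw [h1]; exact h)
  refine ⟨h1.symm.trans h2, ?_⟩
  have h3 : m * (tn S z y)⁻¹ ∈ S.L (S.ac (tn S z y) y) := (fix_iff S hk).1 h2
  have h4 : cjg (tn S z y) ψ ∈ ir Ω (S.L (S.ac (tn S z y) y)) := cjg_L ht (eqv_refl S _) hψ
  have h5 := cjg_of_mem h4 h3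
  rw [cjg_cjg, inv_mul_cancel_right] at h5
  exact h5

theorem tn_inj {D : S.Cs Ω} {Y : Finset E} (hY : TV D Y) {z : E} (hz : S.gn z) {y₁ y₂ : E}
    (h₁ : y₁ ∈ Y) (h₂ : y₂ ∈ Y) {ψ₁ ψ₂ : G → Ω} (hψ₁ : ψ₁ ∈ sr D y₁) (hψ₂ : ψ₂ ∈ sr D y₂)
    (hJ : JJ S z (S.ac (tn S z y₁) y₁) = JJ S z (S.ac (tn S z y₂) y₂))
    (hc : cjg (tn S z y₁) ψ₁ = cjg (tn S z y₂) ψ₂) : y₁ = y₂ ∧ ψ₁ = ψ₂ := by
  obtain ⟨ht₁, -⟩ := tn_spec hz y₁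
  obtain ⟨ht₂, -⟩ := tn_spec hz y₂
  have he₁ := tn_eqv hz y₁
  have he₂ := tn_eqv hz y₂
  rw [← hJ] at he₂
  have hi₁ := (mem_sr.1 hψ₁).1
  have hi₂ := (mem_sr.1 hψ₂).1
  have hχ₁ := cjg_L ht₁ he₁ hi₁
  generalize fc S z (JJ S z (S.ac (tn S z y₁) y₁)) = y at he₁ he₂ hχ₁
  have hn₁ : (tn S z y₁)⁻¹ ∈ S.N := S.N.inv_mem ht₁
  have hn₂ : (tn S z y₂)⁻¹ ∈ S.N := S.N.inv_mem ht₂
  have hf₁ : S.eqv y₁ (S.ac (tn S z y₁)⁻¹ y) := by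
    have h1 := (ac_eqv S hn₁).2 he₁
    rwa [ac_inv_apply S ht₁] at h1
  have hf₂ : S.eqv y₂ (S.ac (tn S z y₂)⁻¹ y) := by
    have h1 := (ac_eqv S hn₂).2 he₂
    rwa [ac_inv_apply S ht₂] at h1
  have hX₁ : S.ac (tn S z y₁)⁻¹ y ∈ S.X D.x := fun a ha h0 =>
    le_zero S hf₁.2 ha (hY.mem y₁ h₁ a ha h0)
  have hX₂ : S.ac (tn S z y₂)⁻¹ y ∈ S.X D.x := fun a ha h0 =>
    le_zero S hf₂.2 ha (hY.mem y₂ h₂ a ha h0)
  have hc₁ : cjg (tn S z y₁)⁻¹ (cjg (tn S z y₁) ψ₁) = ψ₁ := by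
    rw [cjg_cjg, inv_mul_cancel, cjg_one]
  have hc₂ : cjg (tn S z y₂)⁻¹ (cjg (tn S z y₁) ψ₁) = ψ₂ := by
    rw [hc, cjg_cjg, inv_mul_cancel, cjg_one]
  have hs₁ : cjg (tn S z y₁)⁻¹ (cjg (tn S z y₁) ψ₁) ∈
      (levD D (S.ac (tn S z y₁)⁻¹ y) hX₁).Ser := by
    rw [hc₁, Ser_eqv hX₁ (hY.mem y₁ h₁) (eqv_symm S hf₁)]
    exact hψ₁
  have hs₂ : cjg (tn S z y₂)⁻¹ (cjg (tn S z y₁) ψ₁) ∈
      (levD D (S.ac (tn S z y₂)⁻¹ y) hX₂).Ser := by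
    rw [hc₂, Ser_eqv hX₂ (hY.mem y₂ h₂) (eqv_symm S hf₂)]
    exact hψ₂
  obtain ⟨l, hlN, hlL, hm⟩ := NN_of_two hχ₁ hn₁ hn₂ hX₁ hX₂ hs₁ hs₂
  have hmN : (tn S z y₂)⁻¹ * l * (tn S z y₁)⁻¹⁻¹ ∈ S.N := hm.1
  have ha : S.ac ((tn S z y₂)⁻¹ * l * (tn S z y₁)⁻¹⁻¹) (S.ac (tn S z y₁)⁻¹ y) =
      S.ac (tn S z y₂)⁻¹ y := by
    rw [← ac_mul_apply S hmN hn₁, inv_mul_cancel_right, ac_mul_apply S hn₂ hlN,
      (fix_iff S hlN).2 hlL]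
  have hb : S.eqv (S.ac ((tn S z y₂)⁻¹ * l * (tn S z y₁)⁻¹⁻¹) y₁) y₂ := by
    have h1 := (ac_eqv S hmN).2 hf₁
    rw [ha] at h1
    exact eqv_trans S h1 (eqv_symm S hf₂)
  have hy : y₁ = y₂ := hY.un y₁ h₁ y₂ h₂ _ hm hb
  refine ⟨hy, ?_⟩
  obtain ⟨m, hmd⟩ : ∃ m, m = (tn S z y₂)⁻¹ * l * (tn S z y₁)⁻¹⁻¹ := ⟨_, rfl⟩
  rw [← hmd] at hb hmN
  rw [← hy] at hb
  have hmL := (fix_iff S hmN).1 (eqv_fix S hmN hb)
  have h1 := cjg_of_mem hi₁ hmL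
  rw [hmd, ← cjg_cjg, ← cjg_cjg, inv_inv, cjg_of_mem hχ₁ hlL, hc₂] at h1
  exact h1.symm

theorem tn_surj {D : S.Cs Ω} {Y : Finset E} (hY : TV D Y) {z : E} (hz : S.gn z) {J : Finset E}
    (hJ : J ⊆ S.Dl z) {χ : G → Ω} (hχ : χ ∈ ir Ω (S.L (fc S z J))) {n : G} (hn : n ∈ S.N)
    (hy : S.ac n (fc S z J) ∈ S.X D.x) (h : cjg n χ ∈ (levD D (S.ac n (fc S z J)) hy).Ser) :
    ∃ y ∈ Y, ∃ ψ ∈ sr D y, JJ S z (S.ac (tn S z y) y) = J ∧ cjg (tn S z y) ψ = χ := by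
  obtain ⟨m, hm, y, hyY, he⟩ := hY.ex _ hy
  have hmN : m ∈ S.N := hm.1
  have hfc := fc_spec S hz hJ
  have hX : S.ac m (S.ac n (fc S z J)) ∈ S.X D.x := ((NN_reg hm).2.1 _).2 hy
  have hχn : cjg n χ ∈ ir Ω (S.L (S.ac n (fc S z J))) := cjg_L hn (eqv_refl S _) hχ
  have h1 := (NN_Ser hm hy hX hχn).2 h
  rw [Ser_eqv hX (hY.mem y hyY) he, cjg_cjg] at h1
  have hmn : m * n ∈ S.N := S.N.mul_mem hmN hn
  have hp : (m * n)⁻¹ ∈ S.N := S.N.inv_mem hmn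
  have h2 : cjg (m * n) χ ∈ sr D y := h1
  have hi := (mem_sr.1 h2).1
  have he' : S.eqv (fc S z J) (S.ac (m * n)⁻¹ y) := by
    have h3 := (ac_eqv S hp).2 he
    rwa [← ac_mul_apply S hmN hn, ac_inv_apply S hmn] at h3
  have hle : S.le (S.ac (m * n)⁻¹ y) z := le_trans S he'.2 hfc.1
  obtain ⟨h4, h5⟩ := tn_unique hz hp hle hi
  refine ⟨y, hyY, _, h2, ?_, ?_⟩
  · rw [← h4, ← (face_eqv_iff S hz hfc.1 hle).1 he', hfc.2]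
  · rw [← h5, cjg_cjg, inv_mul_cancel, cjg_one]

end

end LieP
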