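import Pool.Agent.LieP.K06
import Pool.Agent.LieP.V09

/-!
# MP_6c3636_al, LieP, module K07: the parity formula (9.5) (helper69)

Section 9, (9.5). `sum_bij`: write both sides as sums over sigma types (`Finset.sum_sigma'`) and use `Finset.sum_bij_ne_zero` (or restrict both sums to the terms which are not zero) with the map `(y, ψ) ↦ (JJ S z (ac (tn S z y) y), cjg (tn S z y) ψ)`: `tn_inj`, `tn_surj` (with `h3`), the values agree by `h1`, `h2`, `tn_eqv`.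
`JJ = Dl z` iff all roots vanish at `y` (`JJ_top`, `ac_zero_iff`). `cjg_L` for membership.
`od_spec`: `TS (lev S y) c`, field `tb`, for `levD D y hy` (generic by `D.gnr_lev hy (levD D y hy) rfl rfl`), `sr_eq`, the definition of `od`.
`parity`: by `sum_gen` (modulo `2`): `dg φ = gen φ + ∑_{J ≠ Dl z} rk φ (e (fc S z J))` (`J = Dl z`: all roots vanish, `JJ_top`, `e_zero`, `rk_one`), `rk φ (e y) = ∑_ψ mt ψ * dg ψ` (`rk_mt` with `a = 1`). Apply `sum_bij` with `M = ZMod 2`, `F y ψ = mt (S.L y) φ (S.e Ω y) ψ * dg ψ`: `h1`: `rk_cjg`, `cjg_of_mem` (for `φ`, `n ∈ N ≤ H`), `dl_e`, `cen_conj`, `cjg_dg`;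
`h2`: `e_eqv`, `L_eqv`; `h3`: `exists_NN_Ser`. For `y` in the filter only the member of odd degree of `sr D y` contributes.
-/

namespace LieP

noncomputable section

open Classical

variable {Ω : Type} [Field Ω] [IsAlgClosed Ω] [CharZero Ω] {G E : Type} [Group G] [Finite G]
  [NormedAddCommGroup E] [InnerProductSpace ℝ E] [FiniteDimensional ℝ E] {S : LieSys G E}

theorem sum_bij {D : S.Cs Ω} {Y : Finset E} (hY : TV D Y) {M : Type} [AddCommMonoid M]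
    (F : E → (G → Ω) → M)
    (h1 : ∀ n ∈ S.N, ∀ y, ∀ ψ ∈ ir Ω (S.L y), F (S.ac n y) (cjg n ψ) = F y ψ)
    (h2 : ∀ y y', S.eqv y y' → ∀ ψ, F y ψ = F y' ψ)
    (h3 : ∀ y, ∀ ψ ∈ ir Ω (S.L y), F y ψ ≠ 0 →
      ∃ n ∈ S.N, ∃ hy : S.ac n y ∈ S.X D.x, cjg n ψ ∈ (levD D (S.ac n y) hy).Ser)
    {z : E} (hz : S.gn z) :
    ∑ J ∈ (S.Dl z).powerset.erase (S.Dl z), ∑ ψ ∈ ir Ω (S.L (fc S z J)), F (fc S z J) ψ =
      ∑ y ∈ Y.filter (fun y => ∃ a ∈ S.R, inner ℝ a y ≠ 0), ∑ ψ ∈ sr D y, F y ψ := by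
  have htop : ∀ y, JJ S z (S.ac (tn S z y) y) = S.Dl z ↔ ∀ a ∈ S.R, inner ℝ a y = 0 := by
    intro y
    rw [JJ_top S hz (tn_spec hz y).2]
    exact ac_zero_iff S (tn_spec hz y).1
  have hF : ∀ y, ∀ ψ ∈ ir Ω (S.L y), F y ψ =
      F (fc S z (JJ S z (S.ac (tn S z y) y))) (cjg (tn S z y) ψ) := by
    intro y ψ hψ
    rw [← h1 _ (tn_spec hz y).1 y ψ hψ]
    exact h2 _ _ (tn_eqv hz y) _
  rw [Finset.sum_sigma', Finset.sum_sigma']
  symm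
  refine Finset.sum_bij_ne_zero
    (fun (p : Σ _ : E, G → Ω) _ _ =>
      (⟨JJ S z (S.ac (tn S z p.1) p.1), cjg (tn S z p.1) p.2⟩ : Σ _ : Finset E, G → Ω)) ?_ ?_ ?_ ?_
  · rintro ⟨y, ψ⟩ hp -
    rw [Finset.mem_sigma, Finset.mem_filter] at hp
    obtain ⟨⟨hyY, a, ha, hay⟩, hψ⟩ := hp
    rw [Finset.mem_sigma, Finset.mem_erase, Finset.mem_powerset]
    refine ⟨⟨?_, JJ_sub S z _⟩, ?_⟩
    · intro h
      exact hay ((htop y).1 h a ha)
    · exact cjg_L (tn_spec hz y).1 (tn_eqv hz y) (mem_sr.1 hψ).1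
  · rintro ⟨y₁, ψ₁⟩ hp₁ - ⟨y₂, ψ₂⟩ hp₂ - h
    rw [Finset.mem_sigma, Finset.mem_filter] at hp₁ hp₂
    have hJ : JJ S z (S.ac (tn S z y₁) y₁) = JJ S z (S.ac (tn S z y₂) y₂) := congrArg Sigma.fst h
    have hc : cjg (tn S z y₁) ψ₁ = cjg (tn S z y₂) ψ₂ := by
      have h' := (Sigma.mk.inj_iff.1 h).2
      exact eq_of_heq h'
    obtain ⟨e1, e2⟩ := tn_inj hY hz hp₁.1.1 hp₂.1.1 hp₁.2 hp₂.2 hJ hc
    subst e1 e2
    rfl
  · rintro ⟨J, χ⟩ hp hne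
    rw [Finset.mem_sigma, Finset.mem_erase, Finset.mem_powerset] at hp
    obtain ⟨⟨hJ1, hJ2⟩, hχ⟩ := hp
    obtain ⟨n, hn, hy, hS⟩ := h3 _ χ hχ hne
    obtain ⟨y, hyY, ψ, hψ, e1, e2⟩ := tn_surj hY hz hJ2 hχ hn hy hS
    have hψ' := (mem_sr.1 hψ).1
    refine ⟨⟨y, ψ⟩, ?_, ?_, ?_⟩
    · rw [Finset.mem_sigma, Finset.mem_filter]
      refine ⟨⟨hyY, ?_⟩, hψ⟩
      by_contra hcon
      push Not at hcon
      exact hJ1 (e1.symm.trans ((htop y).2 hcon))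
    · show F y ψ ≠ 0
      rw [hF y ψ hψ', e1, e2]
      exact hne
    · rw [e1, e2]
  · rintro ⟨y, ψ⟩ hp -
    rw [Finset.mem_sigma] at hp
    exact hF y ψ (mem_sr.1 hp.2).1

theorem mt_ac {φ : G → Ω} (hφ : φ ∈ ir Ω S.H) {n : G} (hn : n ∈ S.N) (y : E) {ψ : G → Ω}
    (hψ : ψ ∈ ir Ω (S.L y)) :
    mt (S.L (S.ac n y)) φ (S.e Ω (S.ac n y)) (cjg n ψ) = mt (S.L y) φ (S.e Ω y) ψ := by
  have h1 : dl n * (S.e Ω y * cen (S.L y) ψ) * dl n⁻¹ =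
      S.e Ω (S.ac n y) * cen (S.L (S.ac n y)) (cjg n ψ) := by
    rw [← cen_conj (fun l => conj_L S hn) ψ, ← mul_assoc, dl_e hn, mul_assoc, mul_assoc, mul_assoc]
  unfold mt
  rw [cjg_dg, ← h1]
  congr 1
  conv_lhs => rw [← cjg_of_mem hφ (S.NH hn)]
  exact rk_cjg n φ _

theorem mt_eqv {φ : G → Ω} {y y' : E} (h : S.eqv y y') (ψ : G → Ω) :
    mt (S.L y) φ (S.e Ω y) ψ = mt (S.L y') φ (S.e Ω y') ψ := by
  rw [L_eqv S h, e_eqv h]

variable {c : Parker.Ctx Ω}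

theorem od_spec (IH : ∀ y, (∃ a ∈ S.R, inner ℝ a y ≠ 0) → TS (lev S y) c) {D : S.Cs Ω}
    (hD : D.gnr) {y : E} (hy : y ∈ S.X D.x) (h : ∃ a ∈ S.R, inner ℝ a y ≠ 0) :
    od D y ∈ sr D y ∧ Odd (Parker.dg (od D y)) ∧
      (∀ ψ ∈ sr D y, Odd (Parker.dg ψ) → ψ = od D y) ∧
      ∀ x, (lev S y).Reg D.x x →
        (levD D y hy).f x * cen (S.L y) (od D y) = (levD D y hy).eJ x (sm (levD D y hy).Psi x) := by
  have hg : (levD D y hy).gnr := (D.gnr_lev hy (levD D y hy) rfl rfl).2 hD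
  obtain ⟨φ, h1, h2, h3, h4⟩ := (IH y h).tb (levD D y hy) hg
  have hex : ∃ ψ ∈ sr D y, Odd (Parker.dg ψ) := ⟨φ, by rw [sr_eq D hy]; exact h1, h2⟩
  have hod : od D y = hex.choose := dif_pos hex
  have hs := hex.choose_spec
  rw [← hod] at hs
  have he : od D y = φ := h3 _ (by rw [← sr_eq D hy]; exact hs.1) hs.2
  refine ⟨hs.1, hs.2, ?_, ?_⟩
  · intro ψ hψ ho
    rw [he]
    exact h3 ψ (by rw [← sr_eq D hy]; exact hψ) ho
  · intro x hx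
    rw [he]
    exact h4 x hx

/-- (9.5) -/
theorem parity (IH : ∀ y, (∃ a ∈ S.R, inner ℝ a y ≠ 0) → TS (lev S y) c) {D : S.Cs Ω}
    (hD : D.gnr) {Y : Finset E} (hY : TV D Y) {φ : G → Ω} (hφ : φ ∈ D.Ser) :
    (Parker.dg φ : ZMod 2) = (S.gen φ : ZMod 2) +
      ∑ y ∈ Y.filter (fun y => ∃ a ∈ S.R, inner ℝ a y ≠ 0),
        (mt (S.L y) φ (S.e Ω y) (od D y) : ZMod 2) := by
  have hφH : φ ∈ ir Ω S.H := (mem_Ser.1 hφ).1
  obtain ⟨z, hz⟩ := exists_gn S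
  -- the ranks as sums of multiplicities
  have hrk : ∀ y : E, (rk φ (S.e Ω y) : ZMod 2) =
      ∑ ψ ∈ ir Ω (S.L y), ((mt (S.L y) φ (S.e Ω y) ψ * Parker.dg ψ : ℕ) : ZMod 2) := by
    intro y
    have h1 := rk_mt (S.LH y) hφH (e_mem (k := Ω) (S := S) y) (e_idem y)
      (fun a ha => (e_comm ha).symm) (one_mem (sb Ω (S.L y))) (one_mul 1)
    rw [mul_one] at h1
    rw [h1, Nat.cast_sum]
    refine Finset.sum_congr rfl fun ψ hψ => ?_
    rw [rk_one hψ]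
  have hsum := sum_gen S hz hφH
  have hmem : S.Dl z ∈ (S.Dl z).powerset := Finset.mem_powerset_self _
  rw [← Finset.add_sum_erase _ _ hmem] at hsum
  -- the term of the full set
  have htop : (rk φ (S.e Ω (fc S z (S.Dl z))) : ZMod 2) = Parker.dg φ := by
    obtain ⟨e1, e2⟩ := fc_spec S hz (subset_refl (S.Dl z))
    rw [e_zero ((JJ_top S hz e1).1 e2), rk_one hφH]
  rw [htop] at hsum
  have hkey := sum_bij hY (M := ZMod 2)
    (fun y ψ => ((mt (S.L y) φ (S.e Ω y) ψ * Parker.dg ψ : ℕ) : ZMod 2))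
    (fun n hn y ψ hψ => by rw [mt_ac hφH hn y hψ, cjg_dg])
    (fun y y' h ψ => by rw [mt_eqv h])
    (fun y ψ hψ hne => exists_NN_Ser hφ hψ (fun h0 => hne (by rw [h0, zero_mul, Nat.cast_zero])))
    hz
  have hL : ∑ J ∈ (S.Dl z).powerset.erase (S.Dl z), (rk φ (S.e Ω (fc S z J)) : ZMod 2) =
      ∑ y ∈ Y.filter (fun y => ∃ a ∈ S.R, inner ℝ a y ≠ 0),
        (mt (S.L y) φ (S.e Ω y) (od D y) : ZMod 2) := by
    rw [Finset.sum_congr rfl fun J _ => hrk (fc S z J), hkey]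
    refine Finset.sum_congr rfl fun y hy => ?_
    rw [Finset.mem_filter] at hy
    obtain ⟨o1, o2, o3, -⟩ := od_spec IH hD (hY.mem y hy.1) hy.2
    rw [Finset.sum_eq_single (od D y)]
    · obtain ⟨m, hm⟩ := o2
      rw [Nat.cast_mul, hm]
      push_cast
      have h2 : (2 : ZMod 2) = 0 := by decide
      rw [h2, zero_mul, zero_add, mul_one]
    · intro ψ hψ hne
      have hev : Even (Parker.dg ψ) := by
        rw [← Nat.not_odd_iff_even]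
        exact fun ho => hne (o3 ψ hψ ho)
      obtain ⟨m, hm⟩ := hev
      rw [Nat.cast_mul, hm]
      push_cast
      rw [CharTwo.add_self_eq_zero, mul_zero]
    · intro h
      exact absurd o1 h
  rw [hL] at hsum
  rw [← hsum, add_assoc, CharTwo.add_self_eq_zero, add_zero]

end

end LieP
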