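import Mathlib

/-!
# MP_6c3636_al, LieP, module K08: two operators with vanishing mixed traces (9.8), linear algebra (helper69)

Section 9, (9.8). `trace_zero`: the matrix of `f` in the basis `b` has zero diagonal (`LinearMap.trace_eq_matrix_trace`).
`ev`: the projections `e θ = l⁻¹ ∑ θ⁻ⁱ rⁱ` of an operator with `r ^ l = 1`. `ev_idem`, `ev_comm`. `finrank_ev`: `p * ev` is idempotent, the dimension of its range is its trace (`LinearMap.IsIdempotentElem`, `LinearMap.IsProj.trace`, or A04 `rk_range`-type lemma `LinearMap.trace_eq_finrank`-like for idempotents), which is `l⁻¹ trace p` as the other traces vanish.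
So the dimension does not depend on `θ`.
-/

namespace LieP

noncomputable section

variable {Ω : Type} [Field Ω] [CharZero Ω] {V : Type} [AddCommGroup V] [Module Ω V] [FiniteDimensional Ω V]

theorem trace_zero {ι : Type} [Fintype ι] (b : Module.Basis ι Ω V) (f : Module.End Ω V)
    (h : ∀ i, b.repr (f (b i)) i = 0) : LinearMap.trace Ω V f = 0 := by
  classical
  rw [LinearMap.trace_eq_matrix_trace Ω b, Matrix.trace]
  refine Finset.sum_eq_zero fun i _ => ?_
  rw [Matrix.diag_apply, LinearMap.toMatrix_apply]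
  exact h i

/-- the projection to the eigenspace of `θ` of an operator with `r ^ l = 1` -/
def ev (l : ℕ) (θ : Ω) (r : Module.End Ω V) : Module.End Ω V :=
  (l : Ω)⁻¹ • ∑ i ∈ Finset.range l, (θ⁻¹ ^ i) • r ^ i

private theorem geom_mul {l : ℕ} {t : Module.End Ω V} (ht : t ^ l = 1) :
    t * ∑ i ∈ Finset.range l, t ^ i = ∑ i ∈ Finset.range l, t ^ i := by
  rw [Finset.mul_sum]
  have e1 : ∀ i ∈ Finset.range l, t * t ^ i = t ^ (i + 1) := fun i _ => (pow_succ' t i).symm
  rw [Finset.sum_congr rfl e1]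
  have e2 := Finset.sum_range_succ (fun i => t ^ i) l
  have e3 := Finset.sum_range_succ' (fun i => t ^ i) l
  rw [e3, ht, pow_zero] at e2
  exact add_right_cancel e2

private theorem ev_eq (l : ℕ) (θ : Ω) (r : Module.End Ω V) :
    ev l θ r = (l : Ω)⁻¹ • ∑ i ∈ Finset.range l, (θ⁻¹ • r) ^ i := by
  unfold ev
  congr 1
  refine Finset.sum_congr rfl fun i _ => ?_
  rw [smul_pow]

private theorem smul_pow_one {l : ℕ} {θ : Ω} (hθ : θ ^ l = 1) {r : Module.End Ω V}
    (hr : r ^ l = 1) : (θ⁻¹ • r) ^ l = 1 := by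
  rw [smul_pow, hr, inv_pow, hθ, inv_one, one_smul]

theorem ev_idem {l : ℕ} (hl : 0 < l) {θ : Ω} (hθ : θ ^ l = 1) {r : Module.End Ω V} (hr : r ^ l = 1) :
    ev l θ r * ev l θ r = ev l θ r := by
  have ht := smul_pow_one hθ hr
  have h1 := geom_mul ht
  rw [ev_eq]
  set t := θ⁻¹ • r with htd
  set S := ∑ i ∈ Finset.range l, t ^ i with hS
  have h2 : ∀ i, t ^ i * S = S := by
    intro i
    induction i with
    | zero => rw [pow_zero, one_mul]
    | succ i ih => rw [pow_succ, mul_assoc, h1, ih]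
  have h3 : S * S = (l : Ω) • S := by
    conv_lhs => rw [hS]
    rw [Finset.sum_mul, Finset.sum_congr rfl fun i _ => h2 i, Finset.sum_const, Finset.card_range]
    exact (Nat.cast_smul_eq_nsmul Ω l S).symm
  have hl' : (l : Ω) ≠ 0 := by exact_mod_cast hl.ne'
  rw [smul_mul_assoc, mul_smul_comm, h3, smul_smul ((l : Ω)⁻¹) (l : Ω), inv_mul_cancel₀ hl', one_smul]

private theorem comm_ev {l : ℕ} {θ : Ω} {p r : Module.End Ω V} (hpr : p * r = r * p) :
    p * ev l θ r = ev l θ r * p := by
  have h : Commute p r := hpr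
  have h1 : Commute p (ev l θ r) := by
    unfold ev
    exact (Commute.sum_right _ _ _ fun i _ => (h.pow_right i).smul_right _).smul_right _
  exact h1

theorem finrank_ev {l : ℕ} (hl : 0 < l) {θ : Ω} (hθ : θ ^ l = 1) {p r : Module.End Ω V}
    (hp : p * p = p) (hpr : p * r = r * p) (hr : r ^ l = 1)
    (h : ∀ i, 0 < i → i < l → LinearMap.trace Ω V (p * r ^ i) = 0) :
    (Module.finrank Ω (LinearMap.range (p * ev l θ r)) : Ω) = (l : Ω)⁻¹ * LinearMap.trace Ω V p := by
  have hid : IsIdempotentElem (p * ev l θ r) := by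
    show p * ev l θ r * (p * ev l θ r) = p * ev l θ r
    have h1 := comm_ev (l := l) (θ := θ) hpr
    calc p * ev l θ r * (p * ev l θ r) = p * (ev l θ r * p) * ev l θ r := by noncomm_ring
      _ = p * (p * ev l θ r) * ev l θ r := by rw [h1]
      _ = (p * p) * (ev l θ r * ev l θ r) := by noncomm_ring
      _ = p * ev l θ r := by rw [hp, ev_idem hl hθ hr]
  have h2 := (LinearMap.isProj_range_iff_isIdempotentElem _).2 hid
  rw [← h2.trace]
  unfold ev
  rw [mul_smul_comm, map_smul, smul_eq_mul, Finset.mul_sum, map_sum]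
  congr 1
  rw [Finset.sum_eq_single 0]
  · simp
  · intro i hi hi0
    rw [mul_smul_comm, map_smul, h i (Nat.pos_of_ne_zero hi0) (Finset.mem_range.1 hi), smul_zero]
  · intro h0
    exact absurd (Finset.mem_range.2 hl) h0

theorem finrank_ev_eq {l : ℕ} (hl : 0 < l) {θ θ' : Ω} (hθ : θ ^ l = 1) (hθ' : θ' ^ l = 1)
    {p r : Module.End Ω V} (hp : p * p = p) (hpr : p * r = r * p) (hr : r ^ l = 1)
    (h : ∀ i, 0 < i → i < l → LinearMap.trace Ω V (p * r ^ i) = 0) :
    Module.finrank Ω (LinearMap.range (p * ev l θ r)) = Module.finrank Ω (LinearMap.range (p * ev l θ' r)) := by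
  have h1 := finrank_ev hl hθ hp hpr hr h
  have h2 := finrank_ev hl hθ' hp hpr hr h
  exact_mod_cast h1.trans h2.symm

end

end LieP
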