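import Pool.Agent.LieP.C05
import Pool.Agent.LieP.K01

/-!
# MP_6c3636_al, LieP, module K09: the operators from `x` to `x1` (helper69)

Sections 4, 6, for (9.8). `cw D w` is a nonzero element of the line of `w`, `Mx D x1 x w = f x1 * c_w * f x`. `cw_spec`: `W_rp`, `NN_cn` (the element `c` with `c c' = ε` is not zero). `Mx_eq`: `f_lin_f` and `ac (rp w) x = w x` (`W_rp`, `reg_mem_X`). `Mx_lin`: `lin_smul_eq`.
`Mx_li`: `indep` (with `x := x`, `y := x1`, the elements `rp w`; `rp_inj`). `Mx_span`: `mackey_ind` (with `D' = D`): for `n ∈ D.NN D` there is `w ∈ D.W` with `w = ac n` on `X` (`W_of`), `rp_eq`: `lin D D n = lin D D (rp w)`.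
`Mx_mul`: `Mx D x2 x1 u * Mx D x1 x w = f x2 * c_u * f x1 * c_w * f x = e x2 * e (u x1) * c_u * e (w x) * c_w = e x2 * e (u x1) * e (u (w x)) * (c_u * c_w)` (`f_lin_f`, `lin_e`, `Mx_eq`), `c_u * c_w = ε * (..)` (`lin_abs`), is a nonzero multiple of `c_{u w}` (`lin_mul`, `rp_mul`, `lin_congr`), and `cocyc` for `x := u (w x)`, `y := u x1`, `z := x2`.
-/

namespace LieP

noncomputable section

open Classical

variable {Ω : Type} [Field Ω] [IsAlgClosed Ω] [CharZero Ω] {G E : Type} [Group G] [Finite G]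
  [NormedAddCommGroup E] [InnerProductSpace ℝ E] [FiniteDimensional ℝ E] {S : LieSys G E}

/-- a nonzero element of the line of `w` -/
def cw (D : S.Cs Ω) (w : E ≃ₗᵢ[ℝ] E) : Al Ω G :=
  if h : ∃ b ∈ lin D D (D.rp w), b ≠ 0 then h.choose else 0

/-- the operator of `w` from `x` to `x1` -/
def Mx (D : S.Cs Ω) (x1 x : E) (w : E ≃ₗᵢ[ℝ] E) : Al Ω G := D.f x1 * cw D w * D.f x

theorem cw_spec {D : S.Cs Ω} {w : E ≃ₗᵢ[ℝ] E} (hw : w ∈ D.W) :
    cw D w ∈ lin D D (D.rp w) ∧ cw D w ≠ 0 := by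
  have hn := (W_rp hw).1
  obtain ⟨c, hc, c', hc', h1, h2, h3⟩ := NN_cn hn
  have h0 : c ≠ 0 := by
    intro h
    rw [h, zero_mul] at h1
    exact D.ne h1.symm
  have h : ∃ b ∈ lin D D (D.rp w), b ≠ 0 := ⟨c, hc, h0⟩
  have h4 : cw D w = h.choose := dif_pos h
  rw [h4]
  exact h.choose_spec

theorem Mx_eq {D : S.Cs Ω} {x1 x : E} (hx1 : S.Reg D.x x1) (hx : S.Reg D.x x) {w : E ≃ₗᵢ[ℝ] E}
    (hw : w ∈ D.W) : Mx D x1 x w = S.e Ω x1 * S.e Ω (w x) * cw D w := by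
  have h1 := f_lin_f (W_rp hw).1 (cw_spec hw).1 hx hx1
  show D.f x1 * cw D w * D.f x = _
  rw [h1, (W_rp hw).2 x (reg_mem_X S hx)]

theorem Mx_ne {D : S.Cs Ω} {x1 x : E} (hx1 : S.Reg D.x x1) (hx : S.Reg D.x x) {w : E ≃ₗᵢ[ℝ] E}
    (hw : w ∈ D.W) : Mx D x1 x w ≠ 0 := by
  exact lin_ne (W_rp hw).1 (cw_spec hw).1 (cw_spec hw).2 hx hx1

theorem Mx_mem {D : S.Cs Ω} {x1 x : E} (hx1 : S.Reg D.x x1) (hx : S.Reg D.x x) {w : E ≃ₗᵢ[ℝ] E}
    (hw : w ∈ D.W) : Mx D x1 x w ∈ cr S.H (D.f x1) (D.f x) := by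
  have h1 : cw D w ∈ sb Ω S.H := lin_mem (NN_H (W_rp hw).1).2 (cw_spec hw).1
  refine Submodule.mem_map.2 ⟨cw D w, h1, ?_⟩
  show D.f x1 * (cw D w * D.f x) = D.f x1 * cw D w * D.f x
  rw [mul_assoc]

theorem Mx_lin {D : S.Cs Ω} {x1 x : E} {w : E ≃ₗᵢ[ℝ] E} (hw : w ∈ D.W) {b : Al Ω G}
    (hb : b ∈ lin D D (D.rp w)) : ∃ r : Ω, D.f x1 * b * D.f x = r • Mx D x1 x w := by
  obtain ⟨r, hr⟩ := lin_smul_eq (W_rp hw).1 hb (cw_spec hw).1 (cw_spec hw).2
  refine ⟨r, ?_⟩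
  rw [hr, mul_smul_comm, smul_mul_assoc]
  rfl

theorem Mx_li {D : S.Cs Ω} {x1 x : E} (hx1 : S.Reg D.x x1) (hx : S.Reg D.x x) :
    LinearIndependent Ω fun w : D.W => Mx D x1 x w := by
  have h1 := indep (D := D) (ι := D.W) (n := fun w => D.rp w) (fun w => (W_rp w.2).1)
    (fun i j hij h => hij (Subtype.ext (rp_inj i.2 j.2 h))) (b := fun w => cw D w)
    (fun w => (cw_spec w.2).1) (fun w => (cw_spec w.2).2) hx hx1
  have h2 : (fun w : D.W => Mx D x1 x w) =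
      fun w : D.W => S.e Ω x1 * S.e Ω (S.ac (D.rp w) x) * cw D w := by
    funext w
    rw [Mx_eq hx1 hx w.2, (W_rp w.2).2 x (reg_mem_X S hx)]
  rw [h2]
  exact h1

theorem Mx_span {D : S.Cs Ω} {x1 x : E} (hx1 : S.Reg D.x x1) (hx : S.Reg D.x x) :
    Submodule.span Ω (Set.range fun w : D.W => Mx D x1 x w) = cr S.H (D.f x1) (D.f x) := by
  apply le_antisymm
  · rw [Submodule.span_le]
    rintro _ ⟨w, rfl⟩
    exact Mx_mem hx1 hx w.2
  · rintro _ ⟨a, ha, rfl⟩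
    show D.f x1 * (a * D.f x) ∈ _
    rw [← mul_assoc]
    refine mackey_ind (D' := D) hx hx1
      (p := fun b => b ∈ Submodule.span Ω (Set.range fun w : D.W => Mx D x1 x w)) ?_ ?_ ?_ ha
    · exact Submodule.zero_mem _
    · exact fun b c hb hc => Submodule.add_mem _ hb hc
    · intro n hn b hb
      obtain ⟨w, hw, h1⟩ := W_of hn
      have h2 := (rp_eq hw hn h1).2
      rw [h2] at hb
      obtain ⟨r, hr⟩ := Mx_lin (x1 := x1) (x := x) hw hb
      rw [hr]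
      exact Submodule.smul_mem _ _ (Submodule.subset_span ⟨⟨w, hw⟩, rfl⟩)

theorem Mx_mul {D : S.Cs Ω} {x2 x1 x : E} (hx2 : S.Reg D.x x2) (hx1 : S.Reg D.x x1)
    (hx : S.Reg D.x x) {u w : E ≃ₗᵢ[ℝ] E} (hu : u ∈ D.W) (hw : w ∈ D.W)
    (h : ∀ a, D.Ta a → ¬ (inner ℝ a x2 * inner ℝ a (u x1) < 0 ∧
      inner ℝ a (u x1) * inner ℝ a (u (w x)) < 0)) :
    ∃ r : Ω, r ≠ 0 ∧ Mx D x2 x1 u * Mx D x1 x w = r • Mx D x2 x (u * w) := by
  have huN := (W_rp hu).1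
  have hwN := (W_rp hw).1
  have huw : u * w ∈ D.W := D.W.mul_mem hu hw
  have hcu := (cw_spec hu).1
  have hcw := (cw_spec hw).1
  have hwx : S.Reg D.x (w x) := W_reg hw hx
  have hux1 : S.Reg D.x (u x1) := W_reg hu hx1
  have huwx : S.Reg D.x (u (w x)) := W_reg hu hwx
  have hcomm : ∀ y, S.Reg D.x y → D.ε * S.e Ω y = S.e Ω y * D.ε := by
    intro y hy
    exact e_comm (by rw [← L_reg S hy]; exact D.mem)
  have h1 : cw D u * S.e Ω x1 = S.e Ω (u x1) * cw D u := by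
    rw [lin_e huN hcu hx1, (W_rp hu).2 x1 (reg_mem_X S hx1)]
  have h2 : cw D u * S.e Ω (w x) = S.e Ω (u (w x)) * cw D u := by
    rw [lin_e huN hcu hwx, (W_rp hu).2 (w x) (reg_mem_X S hwx)]
  have h3 : Mx D x2 x1 u * Mx D x1 x w =
      S.e Ω x2 * S.e Ω (u x1) * S.e Ω (u (w x)) * (cw D u * cw D w) := by
    have h4 : D.f x1 * Mx D x1 x w = Mx D x1 x w := by
      show D.f x1 * (D.f x1 * cw D w * D.f x) = D.f x1 * cw D w * D.f x
      rw [← mul_assoc, ← mul_assoc, f_idem D hx1]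
    have h5 : D.ε * cw D u = cw D u := (lin_abs hcu).1
    calc Mx D x2 x1 u * Mx D x1 x w = D.f x2 * cw D u * (D.f x1 * Mx D x1 x w) := by
          show D.f x2 * cw D u * D.f x1 * Mx D x1 x w = _
          rw [mul_assoc (D.f x2 * cw D u)]
      _ = D.f x2 * cw D u * (S.e Ω x1 * S.e Ω (w x) * cw D w) := by
          rw [h4, Mx_eq hx1 hx hw]
      _ = D.f x2 * ((cw D u * S.e Ω x1) * S.e Ω (w x)) * cw D w := by
          simp only [mul_assoc]
      _ = D.f x2 * (S.e Ω (u x1) * (cw D u * S.e Ω (w x))) * cw D w := by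
          rw [h1]
          simp only [mul_assoc]
      _ = S.e Ω x2 * ((D.ε * S.e Ω (u x1)) * (S.e Ω (u (w x)) * cw D u)) * cw D w := by
          rw [h2]
          show S.e Ω x2 * D.ε * _ * _ = _
          simp only [mul_assoc]
      _ = S.e Ω x2 * (S.e Ω (u x1) * ((D.ε * S.e Ω (u (w x))) * cw D u)) * cw D w := by
          rw [hcomm _ hux1]
          simp only [mul_assoc]
      _ = S.e Ω x2 * (S.e Ω (u x1) * (S.e Ω (u (w x)) * (D.ε * cw D u))) * cw D w := by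
          rw [hcomm _ huwx]
          simp only [mul_assoc]
      _ = _ := by
          rw [h5]
          simp only [mul_assoc]
  obtain ⟨r, hr, h4⟩ := cocyc_mul D huwx hux1 hx2 (fun a ha h5 =>
    h a ha ⟨by rw [mul_comm]; exact h5.2, by rw [mul_comm]; exact h5.1⟩)
  have h5 : D.ε * (cw D u * cw D w) = cw D u * cw D w := by
    rw [← mul_assoc, (lin_abs hcu).1]
  have h6 := h4 _ h5
  have h7 := lin_mul huN hwN hcu hcw
  have hN : D.rp u * D.rp w ∈ S.N := S.N.mul_mem (NN_H huN).1 (NN_H hwN).1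
  have h8 := (lin_congr (W_rp huw).1 (rp_mul hu hw) hN).1
  have h9 : cw D u * cw D w ∈ lin D D (D.rp (u * w)) := by
    rw [← h8]
    exact h7.1
  obtain ⟨s, hs⟩ := lin_smul_eq (W_rp huw).1 h9 (cw_spec huw).1 (cw_spec huw).2
  have hs0 : s ≠ 0 := by
    intro h10
    rw [h10, zero_smul] at hs
    exact h7.2 (cw_spec hu).2 (cw_spec hw).2 hs
  refine ⟨r * s, mul_ne_zero hr hs0, ?_⟩
  rw [h3, h6, hs, mul_smul_comm, smul_smul, Mx_eq hx2 hx huw]
  rfl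

end

end LieP
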