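import Pool.Agent.LieP.O01
import Pool.Agent.LieP.C06

/-!
# MP_6c3636_al, LieP, module O07: (6.4), (6.6) (helper69)

`Mx_left`: `corner_left` (C06) with `v = D.rp w`, `c = cw D w` (`W_rp`, `cw_spec`), `p b = (b is in the span)` (`Mx D x1 x w = D.f x1 * cw D w * D.f x` by definition, so `D.f x1 * a * Mx D x1 x w = D.f x1 * a * D.f x1 * cw D w * D.f x`). For `n ∈ D.NN D`, `n ∈ S.L y`, `b ∈ lin D D n`: there is `u ∈ D.W` with `u = ac n` on `X` (`W_of`), `u y = y` since `ac n y = y` (`S.s8` for `n = 1 * n * 1`),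
`b * cw D w` is in the line of `n * rp w`, i.e. of `rp u * rp w` (`rp_eq`), i.e. of `rp (u * w)` (`lin_mul`, `rp_mul`, `lin_congr`), so `D.f x1 * (b * cw D w) * D.f x` is a multiple of `Mx D x1 x (u * w)` (`Mx_lin`).
`f_sb_f`: in the same way from `corner_lev`: `D.f x1 * b * D.f x1` is a multiple of `Mx D x1 x1 u`, so of `D.T x1 u` (`T_spec`).
-/

namespace LieP

noncomputable section

open Classical

variable {Ω : Type} [Field Ω] [IsAlgClosed Ω] [CharZero Ω] {G E : Type} [Group G] [Finite G]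
  [NormedAddCommGroup E] [InnerProductSpace ℝ E] [FiniteDimensional ℝ E] {S : LieSys G E}

namespace O07_aux

theorem fix_of_L {n : G} (hn : n ∈ S.N) {y : E} (hL : n ∈ S.L y) : S.ac n y = y := by
  refine S.s8 n hn y ⟨1, (S.U (-y)).one_mem, n, hL, 1, (S.U y).one_mem, ?_⟩
  rw [one_mul, mul_one]

theorem lin_cw {D : S.Cs Ω} {u w : E ≃ₗᵢ[ℝ] E} (hu : u ∈ D.W) (hw : w ∈ D.W) {n : G}
    (hn : n ∈ D.NN D) (h : ∀ y ∈ S.X D.x, u y = S.ac n y) {b : Al Ω G} (hb : b ∈ lin D D n) :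
    b * cw D w ∈ lin D D (D.rp (u * w)) := by
  have h1 : b ∈ lin D D (D.rp u) := by
    rw [← (rp_eq hu hn h).2]
    exact hb
  have h2 := (lin_mul (W_rp hu).1 (W_rp hw).1 h1 (cw_spec hw).1).1
  have h3 : lin D D (D.rp u * D.rp w) = lin D D (D.rp (u * w)) :=
    (lin_congr (W_rp (D.W.mul_mem hu hw)).1 (rp_mul hu hw)
      (NN_H (NN_mul (W_rp hu).1 (W_rp hw).1)).1).1
  rw [← h3]
  exact h2

end O07_aux

/-- (6.6) -/
theorem Mx_left {D : S.Cs Ω} {x1 x : E} (hx1 : S.Reg D.x x1) (hx : S.Reg D.x x) {y : E}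
    (hy : y ∈ S.X D.x) (hle : S.le y x1) {a : Al Ω G} (ha : a ∈ sb Ω (S.L y)) {w : E ≃ₗᵢ[ℝ] E}
    (hw : w ∈ D.W) : D.f x1 * a * Mx D x1 x w ∈
      Submodule.span Ω {b | ∃ u ∈ D.W, u y = y ∧ b = Mx D x1 x (u * w)} := by
  have key := corner_left (k := Ω) hy hx1 hle hx
    (p := fun b => b ∈ Submodule.span Ω {b | ∃ u ∈ D.W, u y = y ∧ b = Mx D x1 x (u * w)})
    (Submodule.zero_mem _) (fun a b ha hb => Submodule.add_mem _ ha hb) (W_rp hw).1
    (cw_spec hw).1 ?_ ha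
  · have e1 : D.f x1 * a * Mx D x1 x w = D.f x1 * a * D.f x1 * cw D w * D.f x := by
      unfold Mx
      simp only [mul_assoc]
    rw [e1]
    exact key
  · intro n hn hL b hb
    obtain ⟨u, hu, hun⟩ := W_of hn
    have h1 : u y = y := by
      rw [hun y hy]
      exact O07_aux.fix_of_L (NN_H hn).1 hL
    obtain ⟨r, hr⟩ := Mx_lin (x1 := x1) (x := x) (D.W.mul_mem hu hw) (O07_aux.lin_cw hu hw hn hun hb)
    show D.f x1 * (b * cw D w) * D.f x ∈ _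
    rw [hr]
    exact Submodule.smul_mem _ _ (Submodule.subset_span ⟨u, hu, h1, rfl⟩)

/-- (6.4) -/
theorem f_sb_f {D : S.Cs Ω} (hD : D.gnr) {x1 : E} (hx1 : S.Reg D.x x1) {y : E} (hy : y ∈ S.X D.x)
    (hle : S.le y x1) {a : Al Ω G} (ha : a ∈ sb Ω (S.L y)) :
    D.f x1 * a * D.f x1 ∈ Submodule.span Ω {b | ∃ u ∈ D.W, u y = y ∧ b = D.T x1 u} := by
  refine corner_lev (k := Ω) hy hx1 hle
    (p := fun b => b ∈ Submodule.span Ω {b | ∃ u ∈ D.W, u y = y ∧ b = D.T x1 u})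
    (Submodule.zero_mem _) (fun a b ha hb => Submodule.add_mem _ ha hb) ?_ ha
  intro n hn hL b hb
  obtain ⟨u, hu, hun⟩ := W_of hn
  have h1 : u y = y := by
    rw [hun y hy]
    exact O07_aux.fix_of_L (NN_H hn).1 hL
  have h2 : b ∈ lin D D (D.rp u) := by
    rw [← (rp_eq hu hn hun).2]
    exact hb
  obtain ⟨r, hr⟩ := Mx_lin (x1 := x1) (x := x1) hu h2
  obtain ⟨⟨q, hq0, hq⟩, -, -⟩ := T_spec hD hx1 hu
  have h3 : Mx D x1 x1 u = q⁻¹ • D.T x1 u := by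
    rw [hq, smul_smul, inv_mul_cancel₀ hq0, one_smul]
  show D.f x1 * b * D.f x1 ∈ _
  rw [hr, h3, smul_smul]
  exact Submodule.smul_mem _ _ (Submodule.subset_span ⟨u, hu, h1, rfl⟩)

end

end LieP
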