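import Pool.Agent.LieP.O05
import Pool.Agent.LieP.O07

/-!
# MP_6c3636_al, LieP, module K10: an element of the Weyl group without inversions, its eigenprojections (9.8) (helper69)

Section 9, (9.8). `NAc D x v l`: `v ∈ W` has prime order `l` and no root of type (a) separates `x` and `v ^ i x`.
`exists_NAc`: `¬ TaH` gives `n ∈ D.NN D`, `x` with `NA x (ac n x)`, `n ∉ L D.x`; `w ∈ D.W` with `w = ac n` on `X` (`W_of`), `w ≠ 1` (`NN_fix`); `NA x (w ^ i x)` by induction (`NA_W`, `NA_trans`, `W_reg`). `D.W` is finite (`fin_W`), `orderOf w > 1`, a prime `l` dividing it, `v = w ^ (orderOf w / l)`.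
`Tp`: `T_mul` (no root of type (a) separates `x` and `v ^ i x`). `eth D x v l θ = l⁻¹ ∑ θ⁻ⁱ T (v ^ i)`. `eth_spec`: as for the projections of a cyclic group (`Tp`, `v ^ l = 1`, `T_one`, `T_abs`): `T (v ^ j) * eth = θ ^ j • eth`.
`eth_t`: `T_t` (`v ^ i ≠ 1` for `0 < i < l`), `T_one`. `eth_star`: `tr D.star (T (v ^ i)) = 1` (`T_spec`), so `tr D.star eth = l⁻¹ ∑ θ⁻ⁱ`, `rk_of_tr`. `eth_ser`: `rk_le` (`eth = f x * eth = eth * f x`) and `rk_f`.
-/

namespace LieP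

noncomputable section

open Classical

variable {Ω : Type} [Field Ω] [IsAlgClosed Ω] [CharZero Ω] {G E : Type} [Group G] [Finite G]
  [NormedAddCommGroup E] [InnerProductSpace ℝ E] [FiniteDimensional ℝ E] {S : LieSys G E}

/-- `v` has prime order `l` and no root of type (a) separates `x` and `v ^ i x` -/
structure NAc (D : S.Cs Ω) (x : E) (v : E ≃ₗᵢ[ℝ] E) (l : ℕ) : Prop where
  mem : v ∈ D.W
  pr : l.Prime
  ord : orderOf v = l
  na : ∀ i : ℕ, D.NA x ((v ^ i) x)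

/-- the projection to the eigenspace of `θ` -/
def eth (D : S.Cs Ω) (x : E) (v : E ≃ₗᵢ[ℝ] E) (l : ℕ) (θ : Ω) : Al Ω G :=
  (l : Ω)⁻¹ • ∑ i ∈ Finset.range l, (θ⁻¹ ^ i) • D.T x (v ^ i)

theorem exists_NAc {D : S.Cs Ω} (h : ¬ D.TaH) : ∃ x v l, S.Reg D.x x ∧ NAc D x v l := by
  unfold LieSys.Cs.TaH at h
  push Not at h
  obtain ⟨n, hn, x, hx, hna, hnL⟩ := h
  obtain ⟨w, hw, hwn⟩ := W_of hn
  have hxX := reg_mem_X S hx
  have hw1 : w ≠ 1 := fun h1 => hnL ((NN_fix hn hw hwn).1 h1)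
  have hnw : D.NA x (w x) := by rw [hwn x hxX]; exact hna
  have hpow : ∀ i : ℕ, S.Reg D.x ((w ^ i) x) := fun i => W_reg (pow_mem hw i) hx
  have hni : ∀ i : ℕ, D.NA x ((w ^ i) x) := by
    intro i
    induction i with
    | zero =>
      intro a _ hlt
      rw [pow_zero] at hlt
      exact absurd hlt (not_lt.2 (mul_self_nonneg _))
    | succ i ih =>
      have h1 : (w ^ (i + 1)) x = w ((w ^ i) x) := by rw [pow_succ']; rfl
      rw [h1]
      exact NA_trans (W_reg hw hx) hnw ((NA_W hw hxX (reg_mem_X S (hpow i))).2 ih)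
  haveI := fin_W D
  have hfo : IsOfFinOrder w := by
    have h1 : IsOfFinOrder (⟨w, hw⟩ : D.W) := isOfFinOrder_of_finite _
    exact (Submonoid.isOfFinOrder_coe (H := D.W.toSubmonoid) (x := ⟨w, hw⟩)).2 h1
  have ho0 : 0 < orderOf w := hfo.orderOf_pos
  have ho1 : orderOf w ≠ 1 := fun h1 => hw1 (orderOf_eq_one_iff.1 h1)
  have hp : (orderOf w).minFac.Prime := Nat.minFac_prime ho1
  have hdvd : (orderOf w).minFac ∣ orderOf w := Nat.minFac_dvd _
  have hk0 : orderOf w / (orderOf w).minFac ≠ 0 :=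
    (Nat.div_pos (Nat.le_of_dvd ho0 hdvd) hp.pos).ne'
  refine ⟨x, w ^ (orderOf w / (orderOf w).minFac), (orderOf w).minFac, hx, pow_mem hw _, hp, ?_, ?_⟩
  · rw [orderOf_pow_of_dvd hk0 (Nat.div_dvd_of_dvd hdvd), Nat.div_div_self hdvd ho0.ne']
  · intro i
    rw [← pow_mul]
    exact hni _

theorem per_sum {M : Type} [AddCommGroup M] (g : ℕ → M) (l : ℕ) (hg : ∀ j, g (j + l) = g j) (i : ℕ) :
    ∑ j ∈ Finset.range l, g (i + j) = ∑ j ∈ Finset.range l, g j := by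
  induction i with
  | zero => simp
  | succ i ih =>
    rw [← ih]
    have h1 : ∑ j ∈ Finset.range (l + 1), g (i + j) = ∑ j ∈ Finset.range l, g (i + j) + g (i + l) :=
      Finset.sum_range_succ _ _
    have h2 : ∑ j ∈ Finset.range (l + 1), g (i + j) =
        ∑ j ∈ Finset.range l, g (i + (j + 1)) + g (i + 0) := Finset.sum_range_succ' _ _
    rw [h1, hg, add_zero, add_left_inj] at h2
    rw [h2]
    exact Finset.sum_congr rfl fun j _ => by rw [show i + 1 + j = i + (j + 1) by ring]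

variable {D : S.Cs Ω} (hD : D.gnr) {x : E} (hx : S.Reg D.x x) {v : E ≃ₗᵢ[ℝ] E} {l : ℕ}
  (hv : NAc D x v l)

include hD hx hv

theorem Tp (i j : ℕ) : D.T x (v ^ i) * D.T x (v ^ j) = D.T x (v ^ (i + j)) := by
  rw [T_mul hD hx (pow_mem hv.mem i) (pow_mem hv.mem j) (fun a ha h => hv.na i a ha h.1), pow_add]

theorem T_eth {θ : Ω} (hθ : θ ^ l = 1) (i : ℕ) :
    D.T x (v ^ i) * eth D x v l θ = θ ^ i • eth D x v l θ ∧
      eth D x v l θ * D.T x (v ^ i) = θ ^ i • eth D x v l θ := by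
  have hl0 : l ≠ 0 := hv.pr.ne_zero
  have hθ0 : θ ≠ 0 := by
    intro h0
    rw [h0, zero_pow hl0] at hθ
    exact zero_ne_one hθ
  have hvl : v ^ l = 1 := by rw [← hv.ord]; exact pow_orderOf_eq_one v
  have hper : ∀ j, (θ⁻¹ ^ (j + l)) • D.T x (v ^ (j + l)) = (θ⁻¹ ^ j) • D.T x (v ^ j) := by
    intro j
    rw [pow_add, pow_add, hvl, inv_pow θ l, hθ, inv_one, mul_one, mul_one]
  have h1 := per_sum (fun j => (θ⁻¹ ^ j) • D.T x (v ^ j)) l hper i
  have h2 : ∀ j, (θ⁻¹ ^ j) • D.T x (v ^ (i + j)) = θ ^ i • ((θ⁻¹ ^ (i + j)) • D.T x (v ^ (i + j))) := by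
    intro j
    rw [smul_smul, pow_add θ⁻¹ i j, ← mul_assoc, ← mul_pow, mul_inv_cancel₀ hθ0, one_pow, one_mul]
  have h3 : ∑ j ∈ Finset.range l, (θ⁻¹ ^ j) • D.T x (v ^ (i + j)) =
      θ ^ i • ∑ j ∈ Finset.range l, (θ⁻¹ ^ j) • D.T x (v ^ j) := by
    rw [← h1, Finset.smul_sum]
    exact Finset.sum_congr rfl fun j _ => h2 j
  constructor
  · unfold eth
    rw [mul_smul_comm, Finset.mul_sum, smul_comm (θ ^ i), ← h3]
    congr 1
    refine Finset.sum_congr rfl fun j _ => ?_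
    rw [mul_smul_comm, Tp hD hx hv]
  · unfold eth
    rw [smul_mul_assoc, Finset.sum_mul, smul_comm (θ ^ i), ← h3]
    congr 1
    refine Finset.sum_congr rfl fun j _ => ?_
    rw [smul_mul_assoc, Tp hD hx hv, add_comm]

theorem eth_spec {θ : Ω} (hθ : θ ^ l = 1) : eth D x v l θ ∈ sb Ω S.H ∧
    eth D x v l θ * eth D x v l θ = eth D x v l θ ∧ D.f x * eth D x v l θ = eth D x v l θ ∧
      eth D x v l θ * D.f x = eth D x v l θ := by
  have hl0 : (l : Ω) ≠ 0 := Nat.cast_ne_zero.2 hv.pr.ne_zero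
  have hθ0 : θ ≠ 0 := by
    intro h0
    rw [h0, zero_pow hv.pr.ne_zero] at hθ
    exact zero_ne_one hθ
  have h0 := T_eth hD hx hv hθ 0
  rw [pow_zero, T_one hD hx, pow_zero, one_smul] at h0
  refine ⟨?_, ?_, h0.1, h0.2⟩
  · unfold eth
    refine (sb Ω S.H).smul_mem (sum_mem fun i _ => (sb Ω S.H).smul_mem ?_ _) _
    exact (T_abs hD hx (pow_mem hv.mem i)).1
  · have h1 : eth D x v l θ * eth D x v l θ =
        (l : Ω)⁻¹ • ∑ i ∈ Finset.range l, (θ⁻¹ ^ i) • (D.T x (v ^ i) * eth D x v l θ) := by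
      conv_lhs => rw [show eth D x v l θ * eth D x v l θ =
        ((l : Ω)⁻¹ • ∑ i ∈ Finset.range l, (θ⁻¹ ^ i) • D.T x (v ^ i)) * eth D x v l θ from rfl]
      rw [smul_mul_assoc, Finset.sum_mul]
      congr 1
      exact Finset.sum_congr rfl fun i _ => smul_mul_assoc _ _ _
    rw [h1]
    have h2 : ∀ i ∈ Finset.range l, (θ⁻¹ ^ i) • (D.T x (v ^ i) * eth D x v l θ) = eth D x v l θ := by
      intro i _
      rw [(T_eth hD hx hv hθ i).1, smul_smul, ← mul_pow, inv_mul_cancel₀ hθ0, one_pow, one_smul]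
    rw [Finset.sum_congr rfl h2, Finset.sum_const, Finset.card_range, ← Nat.cast_smul_eq_nsmul Ω,
      smul_smul, inv_mul_cancel₀ hl0, one_smul]

theorem eth_t (θ : Ω) : (l : Ω) * t (eth D x v l θ) = t (D.f x) := by
  have hl0 : (l : Ω) ≠ 0 := Nat.cast_ne_zero.2 hv.pr.ne_zero
  have hts : ∀ (s : Finset ℕ) (F : ℕ → Al Ω G), t (∑ i ∈ s, F i) = ∑ i ∈ s, t (F i) := by
    intro s F
    induction s using Finset.induction_on with
    | empty => rw [Finset.sum_empty, Finset.sum_empty, t_zero]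
    | insert a s ha ih => rw [Finset.sum_insert ha, Finset.sum_insert ha, t_add, ih]
  unfold eth
  rw [t_smul, ← mul_assoc, mul_inv_cancel₀ hl0, one_mul, hts, Finset.sum_eq_single 0]
  · rw [pow_zero, pow_zero, one_smul, T_one hD hx]
  · intro i hi h0
    have h1 : v ^ i ≠ 1 := by
      intro h2
      have h3 := orderOf_dvd_of_pow_eq_one h2
      rw [hv.ord] at h3
      exact absurd (Nat.le_of_dvd (Nat.pos_of_ne_zero h0) h3) (not_le.2 (Finset.mem_range.1 hi))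
    rw [t_smul, T_t hD hx (pow_mem hv.mem i) h1, mul_zero]
  · intro h
    exact absurd (Finset.mem_range.2 hv.pr.pos) h

theorem eth_star {θ : Ω} (hθ : θ ^ l = 1) :
    rk D.star (eth D x v l θ) = if θ = 1 then 1 else 0 := by
  have hl0 : (l : Ω) ≠ 0 := Nat.cast_ne_zero.2 hv.pr.ne_zero
  refine rk_of_tr ?_
  have h1 : tr D.star (eth D x v l θ) = (l : Ω)⁻¹ * ∑ i ∈ Finset.range l, θ⁻¹ ^ i := by
    unfold eth
    rw [map_smul, map_sum, smul_eq_mul]
    congr 1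
    refine Finset.sum_congr rfl fun i _ => ?_
    rw [map_smul, (T_spec hD hx (pow_mem hv.mem i)).2.1, smul_eq_mul, mul_one]
  rw [h1]
  split_ifs with h
  · rw [h]
    simp only [inv_one, one_pow, Finset.sum_const, Finset.card_range, nsmul_eq_mul, mul_one]
    rw [inv_mul_cancel₀ hl0, Nat.cast_one]
  · have h2 : θ⁻¹ ≠ 1 := fun h3 => h (inv_eq_one.1 h3)
    rw [geom_sum_eq h2, inv_pow, hθ, inv_one, sub_self, zero_div, mul_zero, Nat.cast_zero]

theorem eth_ser {θ : Ω} (hθ : θ ^ l = 1) {φ : G → Ω} (hφ : φ ∈ ir Ω S.H)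
    (h : rk φ (eth D x v l θ) ≠ 0) : φ ∈ D.Ser := by
  obtain ⟨h1, h2, h3, h4⟩ := eth_spec hD hx hv hθ
  have h5 := rk_le hφ h1 h2 (f_mem D x) (f_idem D hx) h4 h3
  rw [rk_f hx hφ] at h5
  refine Finset.mem_filter.2 ⟨hφ, fun h6 => h ?_⟩
  rw [h6] at h5
  exact Nat.le_zero.1 h5

end

end LieP
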