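import Pool.Agent.LieP.K10

/-!
# MP_6c3636_al, LieP, module K11: the dimension of the induced module is odd (9.8) (helper69)

Section 9, (9.8). `card_t_rk`: `card_t`, `rk_tr`. `odd_f`: `D.f x = S.e Ω x * ε`; `t (e x * e x * ε) = |U x|⁻¹ t ε` (`t_ee` with `x = y`; or directly), `|L x| t ε = ∑ dg ψ * tr ψ ε = dg D.tp` (`card_t` for `L D.x = L x` (`L_reg`), `rk_tr`, `tp_spec`), so `|H| t (f x) = (|H| / (|L x| |U x|)) dg D.tp`, `|P x| = |L x| |U x|` (`card_P`),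
`|H| / |P x|` is the odd number `(P x).relIndex H` (`P_odd`, `Subgroup.relIndex_mul_card` or neighbours, `P_le_H`), `dg D.tp` is odd (`gnr_iff_odd`).
`sum_eth`: let `m` be the number of `odd_f`; `l * ∑ dg φ * rk φ (eth θ) = m` by `card_t_rk` and `eth_t`, so `l` is odd, and `N = m / l`.
-/

namespace LieP

noncomputable section

open Classical

variable {Ω : Type} [Field Ω] [IsAlgClosed Ω] [CharZero Ω] {G E : Type} [Group G] [Finite G]
  [NormedAddCommGroup E] [InnerProductSpace ℝ E] [FiniteDimensional ℝ E] {S : LieSys G E}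

theorem card_t_rk {H : Subgroup G} {a : Al Ω G} (ha : a ∈ sb Ω H) (haa : a * a = a) :
    ((∑ φ ∈ ir Ω H, Parker.dg φ * rk φ a : ℕ) : Ω) = (Nat.card H : Ω) * t a := by
  rw [card_t ha, Nat.cast_sum]
  refine Finset.sum_congr rfl fun φ hφ => ?_
  rw [Nat.cast_mul, rk_tr hφ ha haa]

theorem odd_f {D : S.Cs Ω} (hD : D.gnr) {x : E} (hx : S.Reg D.x x) :
    ∃ m : ℕ, Odd m ∧ (m : Ω) = (Nat.card S.H : Ω) * t (D.f x) := by
  have hL : S.L D.x = S.L x := L_reg S hx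
  have hmem : D.ε ∈ sb Ω (S.L x) := hL ▸ D.mem
  have hreg : S.Reg x x := fun a _ => Iff.rfl
  have h1 : t (D.f x) = (Nat.card (S.U x) : Ω)⁻¹ * t D.ε := by
    have h2 := t_ee hreg hmem
    rw [e_idem, inf_idem] at h2
    have hU : (Nat.card (S.U x) : Ω) ≠ 0 := Nat.cast_ne_zero.2 Nat.card_pos.ne'
    show t (S.e Ω x * D.ε) = _
    rw [h2, mul_inv, ← mul_assoc, mul_inv_cancel₀ hU, one_mul]
  have h3 : (Nat.card (S.L x) : Ω) * t D.ε = (Parker.dg D.tp : Ω) := by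
    obtain ⟨h4, h5, h6⟩ := D.tp_spec
    rw [← hL, ← card_t_rk D.mem D.idem, Finset.sum_eq_single D.tp]
    · rw [h5, mul_one]
    · intro ψ hψ hne
      rw [h6 ψ hψ hne, mul_zero]
    · intro h7
      exact absurd h4 h7
  have h8 : Nat.card S.H = (S.P x).relIndex S.H * (Nat.card (S.L x) * Nat.card (S.U x)) := by
    rw [← card_P S x]
    have h9 := Subgroup.relIndex_mul_relIndex ⊥ (S.P x) S.H bot_le (P_le_H S x)
    rw [Subgroup.relIndex_bot_left, Subgroup.relIndex_bot_left] at h9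
    rw [← h9, mul_comm]
  refine ⟨(S.P x).relIndex S.H * Parker.dg D.tp, (P_odd S x).mul (D.gnr_iff_odd.1 hD), ?_⟩
  have hU : (Nat.card (S.U x) : Ω) ≠ 0 := Nat.cast_ne_zero.2 Nat.card_pos.ne'
  rw [h1, h8, Nat.cast_mul, Nat.cast_mul, Nat.cast_mul, ← h3]
  field_simp

theorem odd_sum_f {D : S.Cs Ω} (hD : D.gnr) {x : E} (hx : S.Reg D.x x) :
    Odd (∑ φ ∈ ir Ω S.H, Parker.dg φ * rk φ (D.f x)) := by
  obtain ⟨m, hm, hm'⟩ := odd_f hD hx
  have h1 := card_t_rk (f_mem D x) (f_idem D hx)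
  rw [← hm'] at h1
  rw [Nat.cast_injective (R := Ω) h1]
  exact hm

theorem sum_eth {D : S.Cs Ω} (hD : D.gnr) {x : E} (hx : S.Reg D.x x) {v : E ≃ₗᵢ[ℝ] E} {l : ℕ}
    (hv : NAc D x v l) : Odd l ∧ ∀ θ : Ω, θ ^ l = 1 →
      Odd (∑ φ ∈ ir Ω S.H, Parker.dg φ * rk φ (eth D x v l θ)) := by
  obtain ⟨m, hm, hm'⟩ := odd_f hD hx
  have key : ∀ θ : Ω, θ ^ l = 1 →
      l * (∑ φ ∈ ir Ω S.H, Parker.dg φ * rk φ (eth D x v l θ)) = m := by
    intro θ hθ
    obtain ⟨h1, h2, -⟩ := eth_spec hD hx hv hθ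
    apply Nat.cast_injective (R := Ω)
    rw [Nat.cast_mul, card_t_rk h1 h2, hm', ← eth_t hD hx hv θ]
    ring
  constructor
  · have h1 := key 1 (one_pow _)
    rw [← h1] at hm
    exact (Nat.odd_mul.1 hm).1
  · intro θ hθ
    have h1 := key θ hθ
    rw [← h1] at hm
    exact (Nat.odd_mul.1 hm).2

end

end LieP
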