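import Pool.Agent.LieP.K10
import Pool.Agent.LieP.K08

/-!
# MP_6c3636_al, LieP, module K12: independence of the eigenvalue (9.8) (helper69)

Section 9, (9.8). `V = cr S.H (D.f x1) (D.f x)` with the basis `Mx D x1 x w`, `w ∈ D.W` (`Mx_li`, `Mx_span`; `Basis.mk` or `Basis.span`), `p` = left multiplication by `e = D.f x1 * a * D.f x1`, `r` = right multiplication by `D.T x v`. `p * p = p`, `p * r = r * p`, `r ^ l = 1` (`Tp`, `v ^ l = 1`, `T_one`; elements of `V` are fixed by right multiplication with `D.f x`).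
`trace_pr`: the diagonal coefficient of `p (r ^ i (Mx w)) = e * Mx w * T (v ^ i)` at `Mx w` is `0` for `0 < i < l`: `Mx w * T (v ^ i)` is a multiple of `Mx (w * v ^ i)` (`T_spec`, `Mx_mul` with `x2 := x1`, `x1 := x`: no root of type (a) separates `w x` and `w (v ^ i x)`: `NA_W`), `e * Mx (w * v ^ i)` is in the span of the `Mx (u * w * v ^ i)`, `u ∈ D.W`, `u y = y` (`Mx_left`).
`ne_of_TaH`: if `u * w * v ^ i = w` then `u⁻¹ = w * v ^ i * w⁻¹` fixes `y` and no root of type (a) separates `w x` and `u⁻¹ (w x) = w (v ^ i x)`. Let `n = D.rp u⁻¹`: `n ∈ (levD D y hy).NN (levD D y hy)` (`W_rp`, `fix_iff`, `lev_NN`), `w x` is regular for the Levi system (`levD_reg_of`), the roots of type (a) of `levD` are of type (a) for `D` (`lev_Ta`), so `n ∈ (lev S y).L D.x` by `TaH`, so `u⁻¹ = 1` (`NN_fix`), `v ^ i = 1`, contradiction to the order.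
`rank_indep`: `finrank_cr`: both sides are `finrank (cr S.H e (eth θ))`; `cr S.H e (eth θ)` is the image of the range of `p * ev l θ r` (`ev l θ r` is the right multiplication by `eth D x v l θ`) under the inclusion of `V`; `finrank_ev_eq`, `trace_zero`.
-/

namespace LieP

noncomputable section

open Classical

variable {Ω : Type} [Field Ω] [IsAlgClosed Ω] [CharZero Ω] {G E : Type} [Group G] [Finite G]
  [NormedAddCommGroup E] [InnerProductSpace ℝ E] [FiniteDimensional ℝ E] {S : LieSys G E}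

theorem ne_of_TaH {D : S.Cs Ω} {x : E} (hx : S.Reg D.x x) {v : E ≃ₗᵢ[ℝ] E} {l : ℕ}
    (hv : NAc D x v l) {y : E} (hy : y ∈ S.X D.x) (hT : (levD D y hy).TaH) {i : ℕ} (hi : 0 < i)
    (hil : i < l) {u w : E ≃ₗᵢ[ℝ] E} (hu : u ∈ D.W) (huy : u y = y) (hw : w ∈ D.W) :
    u * (w * v ^ i) ≠ w := by
  intro he
  have hxX : x ∈ S.X D.x := reg_mem_X S hx
  have hvi : v ^ i ∈ D.W := D.W.pow_mem hv.mem i
  have hui : u⁻¹ ∈ D.W := D.W.inv_mem hu
  have h1 : w * v ^ i = u⁻¹ * w := by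
    rw [eq_inv_mul_iff_mul_eq]
    exact he
  have h2 : w ((v ^ i) x) = u⁻¹ (w x) := by
    have := congrArg (fun t : E ≃ₗᵢ[ℝ] E => t x) h1
    exact this
  have h3 : D.NA (w x) (w ((v ^ i) x)) := (NA_W hw hxX (W_X hvi hxX)).2 (hv.na i)
  obtain ⟨hn, hag⟩ := W_rp hui
  have hnN : D.rp u⁻¹ ∈ S.N := hn.1
  have huy' : u⁻¹ y = y := by
    have h4 : u⁻¹ (u y) = y := by
      show (u⁻¹ * u) y = y
      rw [inv_mul_cancel]
      rfl
    rw [huy] at h4
    exact h4
  have hL : D.rp u⁻¹ ∈ S.L y := (fix_iff S hnN).1 (by rw [← hag y hy, huy'])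
  have h5 : D.rp u⁻¹ ∈ (lev S y).L D.x := by
    refine hT _ ((lev_NN hy hy).2 ⟨hn, hL⟩) (w x) (levD_reg_of (W_reg hw hx)) ?_
    intro b hb
    have hb' := ((lev_Ta hy).1 hb).1
    have h6 := h3 b hb'
    rw [h2, hag _ (W_X hw hxX)] at h6
    exact h6
  have h6 : D.rp u⁻¹ ∈ S.L D.x := h5.1
  have h7 : u⁻¹ = 1 := (NN_fix hn hui hag).2 h6
  rw [h7, one_mul, mul_eq_left] at h1
  have h8 := orderOf_dvd_of_pow_eq_one h1
  rw [hv.ord] at h8
  exact absurd (Nat.le_of_dvd hi h8) (not_le.2 hil)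

/-- membership -/
theorem mem_cr_iff {H : Subgroup G} {a b z : Al Ω G} :
    z ∈ cr H a b ↔ ∃ x ∈ sb Ω H, a * (x * b) = z := by
  constructor
  · rintro ⟨x, hx, h⟩
    exact ⟨x, hx, h⟩
  · rintro ⟨x, hx, h⟩
    exact ⟨x, hx, h⟩

theorem rank_indep {D : S.Cs Ω} (hD : D.gnr) {x : E} (hx : S.Reg D.x x) {v : E ≃ₗᵢ[ℝ] E} {l : ℕ}
    (hv : NAc D x v l) {y : E} (hy : y ∈ S.X D.x) (hT : (levD D y hy).TaH) {x1 : E}
    (hx1 : S.Reg D.x x1) (hle : S.le y x1) {a : Al Ω G} (ha : a ∈ sb Ω (S.L y))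
    (hE : D.f x1 * a * D.f x1 * (D.f x1 * a * D.f x1) = D.f x1 * a * D.f x1) {θ θ' : Ω}
    (hθ : θ ^ l = 1) (hθ' : θ' ^ l = 1) :
    ∑ φ ∈ ir Ω S.H, rk φ (D.f x1 * a * D.f x1) * rk φ (eth D x v l θ) =
      ∑ φ ∈ ir Ω S.H, rk φ (D.f x1 * a * D.f x1) * rk φ (eth D x v l θ') := by
  have haH : a ∈ sb Ω S.H := sb_mono (S.LH y) ha
  have hfm : ∀ z, D.f z ∈ sb Ω S.H := fun z => f_mem D z
  have hf1 := f_idem D hx1
  have hf := f_idem D hx
  have hvW : ∀ i : ℕ, v ^ i ∈ D.W := fun i => D.W.pow_mem hv.mem i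
  have hl : 0 < l := hv.pr.pos
  have hvl : v ^ l = 1 := by rw [← hv.ord, pow_orderOf_eq_one]
  set e := D.f x1 * a * D.f x1 with he
  have heH : e ∈ sb Ω S.H := (sb Ω S.H).mul_mem ((sb Ω S.H).mul_mem (hfm _) haH) (hfm _)
  have hfe : D.f x1 * e = e := by rw [he, ← mul_assoc, ← mul_assoc, hf1]
  have hef : e * D.f x1 = e := by rw [he, mul_assoc (D.f x1 * a), hf1]
  set V := cr S.H (D.f x1) (D.f x) with hV
  have hV1 : ∀ m ∈ V, D.f x1 * m = m := by
    intro m hm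
    obtain ⟨z, _, rfl⟩ := mem_cr_iff.1 hm
    rw [← mul_assoc, hf1]
  have hV2 : ∀ m ∈ V, m * D.f x = m := by
    intro m hm
    obtain ⟨z, _, rfl⟩ := mem_cr_iff.1 hm
    rw [mul_assoc, mul_assoc, hf]
  have hP : ∀ m ∈ V, LinearMap.mulLeft Ω e m ∈ V := by
    intro m hm
    obtain ⟨z, hz, rfl⟩ := mem_cr_iff.1 hm
    refine mem_cr_iff.2 ⟨e * z, (sb Ω S.H).mul_mem heH hz, ?_⟩
    rw [LinearMap.mulLeft_apply, ← mul_assoc, ← mul_assoc, hfe, ← mul_assoc, hef, mul_assoc]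
  have hR : ∀ m ∈ V, LinearMap.mulRight Ω (D.T x v) m ∈ V := by
    intro m hm
    obtain ⟨hT1, hT2, hT3⟩ := T_abs hD hx hv.mem
    obtain ⟨z, hz, hzm⟩ := mem_cr_iff.1 hm
    refine mem_cr_iff.2 ⟨z * D.T x v, (sb Ω S.H).mul_mem hz hT1, ?_⟩
    rw [LinearMap.mulRight_apply, ← hzm, mul_assoc z, hT3, mul_assoc, mul_assoc, hT2]
  let p : Module.End Ω V := (LinearMap.mulLeft Ω e).restrict hP
  let r : Module.End Ω V := (LinearMap.mulRight Ω (D.T x v)).restrict hR
  have hp : ∀ m : V, ((p m : V) : Al Ω G) = e * m := fun m => rfl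
  have hr : ∀ m : V, ((r m : V) : Al Ω G) = m * D.T x v := fun m => rfl
  have hri : ∀ (i : ℕ) (m : V), (((r ^ i) m : V) : Al Ω G) = m * D.T x (v ^ i) := by
    intro i
    induction i with
    | zero =>
      intro m
      rw [pow_zero, pow_zero, T_one hD hx, hV2 _ m.2]
      rfl
    | succ i ih =>
      intro m
      rw [pow_succ']
      show ((r ((r ^ i) m) : V) : Al Ω G) = _
      have h1 := Tp hD hx hv i 1
      rw [pow_one] at h1
      rw [hr, ih, mul_assoc, h1]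
  have hpp : p * p = p := by
    refine LinearMap.ext fun m => Subtype.ext ?_
    show e * (e * (m : Al Ω G)) = e * m
    rw [← mul_assoc, hE]
  have hpr : p * r = r * p := by
    refine LinearMap.ext fun m => Subtype.ext ?_
    exact (mul_assoc e (m : Al Ω G) (D.T x v)).symm
  have hrl : r ^ l = 1 := by
    refine LinearMap.ext fun m => Subtype.ext ?_
    rw [hri, hvl, T_one hD hx, hV2 _ m.2]
    rfl
  have hev : ∀ (t : Ω) (m : V), (((ev l t r) m : V) : Al Ω G) = m * eth D x v l t := by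
    intro t m
    rw [ev, eth, LinearMap.smul_apply, LinearMap.sum_apply, mul_smul_comm, Finset.mul_sum,
      Submodule.coe_smul, Submodule.coe_sum]
    congr 1
    refine Finset.sum_congr rfl fun i _ => ?_
    rw [LinearMap.smul_apply, Submodule.coe_smul, hri, mul_smul_comm]
  haveI : Fintype D.W := @Fintype.ofFinite _ (fin_W D)
  have hli : LinearIndependent Ω fun w : D.W => (⟨Mx D x1 x w, Mx_mem hx1 hx w.2⟩ : V) := by
    refine LinearIndependent.of_comp V.subtype ?_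
    exact Mx_li hx1 hx
  have hsp : ⊤ ≤ Submodule.span Ω (Set.range fun w : D.W => (⟨Mx D x1 x w, Mx_mem hx1 hx w.2⟩ : V)) := by
    rintro ⟨m, hm⟩ -
    have h1 : m ∈ Submodule.span Ω (Set.range fun w : D.W => Mx D x1 x w) := by
      rw [Mx_span hx1 hx]
      exact hm
    have h2 : (Set.range fun w : D.W => Mx D x1 x w) =
        V.subtype '' (Set.range fun w : D.W => (⟨Mx D x1 x w, Mx_mem hx1 hx w.2⟩ : V)) := by
      rw [← Set.range_comp]
      rfl
    rw [h2, Submodule.span_image] at h1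
    obtain ⟨m', hm', h3⟩ := h1
    have h4 : m' = ⟨m, hm⟩ := Subtype.ext h3
    rw [← h4]
    exact hm'
  let b : Module.Basis D.W Ω V := Module.Basis.mk hli hsp
  have hb : ∀ w : D.W, ((b w : V) : Al Ω G) = Mx D x1 x w := by
    intro w
    rw [Module.Basis.mk_apply]
  have htr : ∀ i, 0 < i → i < l → LinearMap.trace Ω V (p * r ^ i) = 0 := by
    intro i hi hil
    refine trace_zero b _ fun w => ?_
    obtain ⟨⟨q, _, hq⟩, _, _⟩ := T_spec hD hx (hvW i)
    have hwX := W_X w.2 (reg_mem_X S hx)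
    obtain ⟨q', _, hq'⟩ := Mx_mul (D := D) hx1 hx hx w.2 (hvW i) (by
      intro c hc hcc
      have h1 := (NA_W w.2 (reg_mem_X S hx) (W_X (hvW i) (reg_mem_X S hx))).2 (hv.na i)
      exact h1 c hc hcc.2)
    have h1 : (((p * r ^ i) (b w) : V) : Al Ω G) =
        (q * q') • (D.f x1 * a * Mx D x1 x ((w : E ≃ₗᵢ[ℝ] E) * v ^ i)) := by
      show ((p ((r ^ i) (b w)) : V) : Al Ω G) = _
      rw [hp, hri, hb, hq, mul_smul_comm, hq', smul_smul, mul_smul_comm, he, mul_assoc (D.f x1 * a)]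
      congr 2
      rw [Mx, ← mul_assoc, ← mul_assoc, hf1]
    have h2 : ∀ z ∈ Submodule.span Ω {b | ∃ u ∈ D.W, u y = y ∧
        b = Mx D x1 x (u * ((w : E ≃ₗᵢ[ℝ] E) * v ^ i))}, ∃ z' : V, (z' : Al Ω G) = z ∧
          b.repr z' w = 0 := by
      intro z hz
      induction hz using Submodule.span_induction with
      | mem z hz =>
        obtain ⟨u, hu, huy, rfl⟩ := hz
        have hm : u * ((w : E ≃ₗᵢ[ℝ] E) * v ^ i) ∈ D.W := D.W.mul_mem hu (D.W.mul_mem w.2 (hvW i))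
        refine ⟨b ⟨_, hm⟩, hb _, ?_⟩
        rw [Module.Basis.repr_self, Finsupp.single_apply, if_neg]
        intro h
        exact ne_of_TaH hx hv hy hT hi hil hu huy w.2 (congrArg Subtype.val h)
      | zero => exact ⟨0, rfl, by rw [map_zero]; rfl⟩
      | add z1 z2 _ _ h1 h2 =>
        obtain ⟨z1', hz1, hz1'⟩ := h1
        obtain ⟨z2', hz2, hz2'⟩ := h2
        refine ⟨z1' + z2', by rw [Submodule.coe_add, hz1, hz2], ?_⟩
        rw [map_add, Finsupp.add_apply, hz1', hz2', add_zero]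
      | smul t z _ h =>
        obtain ⟨z', hz, hz'⟩ := h
        refine ⟨t • z', by rw [Submodule.coe_smul, hz], ?_⟩
        rw [map_smul, Finsupp.smul_apply, hz', smul_zero]
    obtain ⟨z', hz, hz'⟩ := h2 _ (Submodule.smul_mem _ (q * q')
      (Mx_left hx1 hx hy hle ha (D.W.mul_mem w.2 (hvW i))))
    have h3 : z' = (p * r ^ i) (b w) := Subtype.ext (hz.trans h1.symm)
    rw [← h3]
    exact hz'
  have hcr : ∀ t : Ω, t ^ l = 1 → Module.finrank Ω (cr S.H e (eth D x v l t)) =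
      Module.finrank Ω (LinearMap.range (p * ev l t r)) := by
    intro t ht
    obtain ⟨_, _, h1, _⟩ := eth_spec hD hx hv ht
    have h2 : cr S.H e (eth D x v l t) = Submodule.map V.subtype (LinearMap.range (p * ev l t r)) := by
      ext m
      constructor
      · intro hm
        obtain ⟨z, hz, rfl⟩ := mem_cr_iff.1 hm
        refine ⟨(p * ev l t r) ⟨D.f x1 * (z * D.f x), mem_cr_iff.2 ⟨z, hz, rfl⟩⟩, ⟨_, rfl⟩, ?_⟩
        show ((p ((ev l t r) _) : V) : Al Ω G) = _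
        rw [hp, hev]
        show e * (D.f x1 * (z * D.f x) * eth D x v l t) = _
        rw [mul_assoc (D.f x1), mul_assoc z, h1, ← mul_assoc, hef]
      · rintro ⟨m', ⟨m'', rfl⟩, rfl⟩
        obtain ⟨z, hz, hz'⟩ := mem_cr_iff.1 m''.2
        refine mem_cr_iff.2 ⟨z, hz, ?_⟩
        show _ = ((p ((ev l t r) m'') : V) : Al Ω G)
        rw [hp, hev, ← hz', mul_assoc (D.f x1), mul_assoc z, h1, ← mul_assoc e (D.f x1), hef]
    rw [h2, Submodule.finrank_map_subtype_eq]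
  have hs := eth_spec hD hx hv hθ
  have hs' := eth_spec hD hx hv hθ'
  rw [← finrank_cr heH hE hs.1 hs.2.1, ← finrank_cr heH hE hs'.1 hs'.2.1, hcr θ hθ, hcr θ' hθ']
  exact finrank_ev_eq hl hθ hθ' hpp hpr hrl htr

end

end LieP
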