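import Pool.Agent.LieP.O05
import Pool.Agent.LieP.O07
import Pool.Agent.LieP.K07

/-!
# MP_6c3636_al, LieP, module K13: the idempotent of the member of odd degree (9.8), (9.9) (helper69)

Section 9. `y ∈ X`, not all roots vanish at `y`, `x1` regular with `y ≤ x1`; `b = (levD D y hy).f x1 * cen (S.L y) (od D y)`. By `od_spec` `b = (levD D y hy).eJ x1 (sm (levD D y hy).Psi x1)`. `hd` for the system `lev S y` and `levD D y hy` (generic: `D.gnr_lev hy (levD D y hy) rfl rfl`; `TaH` and the inequalities from `IH y h`, fields `ta`, `tc`; `levD_reg_of`)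
is a datum `HD` with `D.e J = eJ`, `D.sp = cr (S.L y) f f` (`T_span`). `he_S`: `b a b` is a multiple of `b` for `a` in the span, so for all `a ∈ sb (S.L y)` (`b a b = b (f a f) b`), `he_ne`, `he_idem`: `prim_unique`: `b` has rank `1` on one character `ψ ∈ ir (S.L y)` and `0` on the others; `cen (S.L y) (od D y) * b = b ≠ 0` gives `ψ = od D y` (`cen_mul_eq_zero`, `rk_cen`).
`e_b`: `S.e Ω y * (levD D y hy).f x1 = D.f x1` (`e_levD_f`). `f_cen`: `cen (S.L y) (od D y)` commutes with `(levD D y hy).f x1 ∈ sb (S.L y)` and with `S.e Ω y` (`cen_comm`, `e_comm`), so with `D.f x1`.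
`mt_od`: `mt_prim` with `e = S.e Ω y` and `b`. `lev_f_star`: `rk (od D y) ((levD D y hy).f x1) = 1` (`rk_cen`).
-/

namespace LieP

noncomputable section

open Classical

variable {Ω : Type} [Field Ω] [IsAlgClosed Ω] [CharZero Ω] {G E : Type} [Group G] [Finite G]
  [NormedAddCommGroup E] [InnerProductSpace ℝ E] [FiniteDimensional ℝ E] {S : LieSys G E}
  {c : Parker.Ctx Ω}

variable (IH : ∀ y, (∃ a ∈ S.R, inner ℝ a y ≠ 0) → TS (lev S y) c) {D : S.Cs Ω} (hD : D.gnr)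
  {y : E} (hy : y ∈ S.X D.x) (h : ∃ a ∈ S.R, inner ℝ a y ≠ 0) {x1 : E} (hx1 : S.Reg D.x x1)
  (hle : S.le y x1)

include IH hD hy h hx1 hle

theorem od_prim : (levD D y hy).f x1 * cen (S.L y) (od D y) ∈ sb Ω (S.L y) ∧
    (levD D y hy).f x1 * cen (S.L y) (od D y) * ((levD D y hy).f x1 * cen (S.L y) (od D y)) =
      (levD D y hy).f x1 * cen (S.L y) (od D y) ∧
    rk (od D y) ((levD D y hy).f x1 * cen (S.L y) (od D y)) = 1 ∧
    ∀ χ ∈ ir Ω (S.L y), χ ≠ od D y → rk χ ((levD D y hy).f x1 * cen (S.L y) (od D y)) = 0 := by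
  have hg : (levD D y hy).gnr := (lev_gnr hy).2 hD
  have hta : (levD D y hy).TaH := (IH y h).ta _ hg
  have hr1 : (lev S y).Reg (levD D y hy).x x1 := levD_reg_of hx1
  have hc := (IH y h).tc (levD D y hy) hg x1 hr1
  obtain ⟨h1, h2, h3, h4⟩ := od_spec IH hD hy h
  have h5 := h4 x1 hr1
  have hod : od D y ∈ ir Ω (S.L y) := (mem_sr.1 h1).1
  have hJ : sm (levD D y hy).Psi x1 ⊆ (levD D y hy).Psi := fun a ha =>
    (Finset.mem_filter.1 (Finset.mem_filter.1 ha).1).1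
  have hfm : (levD D y hy).f x1 ∈ sb Ω (S.L y) := f_mem (levD D y hy) x1
  have hbm : (levD D y hy).f x1 * cen (S.L y) (od D y) ∈ sb Ω (S.L y) :=
    Subalgebra.mul_mem _ hfm (cen_mem _ hod)
  have hbb : (levD D y hy).f x1 * cen (S.L y) (od D y) *
      ((levD D y hy).f x1 * cen (S.L y) (od D y)) =
      (levD D y hy).f x1 * cen (S.L y) (od D y) := by
    rw [h5]
    exact (eJ_abs hg hr1 hJ).2.1
  have hb0 : (levD D y hy).f x1 * cen (S.L y) (od D y) ≠ 0 := by
    rw [h5]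
    exact eJ_ne hg hta hr1 hc (Finset.Subset.refl _)
  have hbp : ∀ a ∈ sb Ω (S.L y), ∃ r : Ω, (levD D y hy).f x1 * cen (S.L y) (od D y) * a *
      ((levD D y hy).f x1 * cen (S.L y) (od D y)) =
        r • ((levD D y hy).f x1 * cen (S.L y) (od D y)) := by
    intro a ha
    rw [h5]
    exact eJ_prim hg hta hr1 hc ha
  obtain ⟨φ, hφ, h6, h7⟩ := prim_unique hbm hbb hb0 hbp
  have h8 : φ = od D y := by
    by_contra hne
    have h9 := h7 (od D y) hod (Ne.symm hne)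
    have h10 := (cen_mul_eq_zero hod hbm hbb).2 h9
    apply hb0
    rw [cen_comm hod hbm, mul_assoc, cen_idem hod] at h10
    exact h10
  rw [h8] at h6 h7
  exact ⟨hbm, hbb, h6, h7⟩

theorem e_b : S.e Ω y * ((levD D y hy).f x1 * cen (S.L y) (od D y)) =
    D.f x1 * cen (S.L y) (od D y) := by
  rw [← mul_assoc, e_levD_f D hy hle]

theorem f_cen : D.f x1 * cen (S.L y) (od D y) = D.f x1 * cen (S.L y) (od D y) * D.f x1 ∧
    D.f x1 * cen (S.L y) (od D y) * (D.f x1 * cen (S.L y) (od D y)) =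
      D.f x1 * cen (S.L y) (od D y) := by
  have hod : od D y ∈ ir Ω (S.L y) := (mem_sr.1 (od_spec IH hD hy h).1).1
  have hfm : (levD D y hy).f x1 ∈ sb Ω (S.L y) := f_mem (levD D y hy) x1
  have hcm : cen (S.L y) (od D y) ∈ sb Ω (S.L y) := cen_mem _ hod
  have h1 : cen (S.L y) (od D y) * D.f x1 = D.f x1 * cen (S.L y) (od D y) := by
    rw [← e_levD_f D hy hle, ← mul_assoc, e_comm hcm, mul_assoc, cen_comm hod hfm,
      mul_assoc]
  have h2 : D.f x1 * cen (S.L y) (od D y) * D.f x1 = D.f x1 * cen (S.L y) (od D y) := by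
    rw [mul_assoc, h1, ← mul_assoc, f_idem D hx1]
  refine ⟨h2.symm, ?_⟩
  rw [← mul_assoc, h2, mul_assoc, cen_idem hod]

theorem mt_od {φ : G → Ω} (hφ : φ ∈ ir Ω S.H) :
    mt (S.L y) φ (S.e Ω y) (od D y) = rk φ (D.f x1 * cen (S.L y) (od D y)) := by
  have hod : od D y ∈ ir Ω (S.L y) := (mem_sr.1 (od_spec IH hD hy h).1).1
  obtain ⟨h1, h2, h3, h4⟩ := od_prim IH hD hy h hx1 hle
  rw [mt_prim (S.LH y) hφ (e_mem y) (e_idem y) (fun a ha => (e_comm ha).symm) hod h1 h2 h3 h4,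
    e_b IH hD hy h hx1 hle]

theorem lev_f_od : rk (od D y) ((levD D y hy).f x1) = 1 := by
  have hod : od D y ∈ ir Ω (S.L y) := (mem_sr.1 (od_spec IH hD hy h).1).1
  obtain ⟨h1, h2, h3, h4⟩ := od_prim IH hD hy h hx1 hle
  have hr1 : (lev S y).Reg (levD D y hy).x x1 := levD_reg_of hx1
  have hfm : (levD D y hy).f x1 ∈ sb Ω (S.L y) := f_mem (levD D y hy) x1
  have h5 := rk_cen hod hod hfm (f_idem (levD D y hy) hr1)
  rw [cen_comm hod hfm, if_pos rfl] at h5
  rw [← h5]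
  exact h3

end

end LieP
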