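import Pool.Agent.LieP.K11
import Pool.Agent.LieP.K12
import Pool.Agent.LieP.K13

/-!
# MP_6c3636_al, LieP, module K14: the property (Ta) (9.8) (helper69)

Section 9, (9.8). Suppose `¬ D.TaH`: `exists_NAc` gives `x`, `v`, `l`. `exists_TV`: a transversal `Y`. For `θ ^ l = 1` modulo `2`: `sum_eth`: `1 = ∑_φ dg φ * rk φ (eth θ)`; for the `φ` with `rk φ (eth θ) ≠ 0` (in `D.Ser` by `eth_ser`) insert `parity`: `1 = ∑_φ gen φ * rk φ (eth θ) + ∑_{y ∈ Y'} ∑_φ mt (S.L y) φ (S.e Ω y) (od D y) * rk φ (eth θ)`.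
The first sum is `rk D.star (eth θ)` (`LieSys.Cs.star_spec`: only `D.star` has `gen ≠ 0`), which is `1` for `θ = 1` and `0` otherwise (`eth_star`). For `y ∈ Y'` let `x1 = S.cm y x` (`reg_cm`, `le_cm`); `mt = rk φ (D.f x1 * cen * D.f x1)` (`mt_od`, `f_cen`), so the inner sum does not depend on `θ` (`rank_indep` with `a = cen (S.L y) (od D y)`; `(levD D y hy).TaH` from `(IH y h).ta`).
`l` is odd and prime, so there is `θ' ≠ 1` with `θ' ^ l = 1` (`Ω` is algebraically closed of characteristic `0`: a primitive `l`-th root of unity). Comparing `θ = 1` and `θ'` gives `1 = 0` in `ZMod 2`.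
-/

namespace LieP

noncomputable section

open Classical

variable {Ω : Type} [Field Ω] [IsAlgClosed Ω] [CharZero Ω] {G E : Type} [Group G] [Finite G]
  [NormedAddCommGroup E] [InnerProductSpace ℝ E] [FiniteDimensional ℝ E] {S : LieSys G E}
  {c : Parker.Ctx Ω}

namespace K14_aux

/-- the generic part of the parity formula -/
theorem sum_gen {D : S.Cs Ω} (hD : D.gnr) {x : E} (hx : S.Reg D.x x) {v : E ≃ₗᵢ[ℝ] E} {l : ℕ}
    (hv : NAc D x v l) {θ : Ω} (hθ : θ ^ l = 1) :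
    ∑ φ ∈ ir Ω S.H, (S.gen φ : ZMod 2) * (rk φ (eth D x v l θ) : ZMod 2) =
      if θ = 1 then 1 else 0 := by
  obtain ⟨hs, hg, -, hu⟩ := D.star_spec hD
  rw [Finset.sum_eq_single D.star]
  · rw [hg, eth_star hD hx hv hθ]
    split_ifs <;> simp
  · intro φ hφ hne
    by_cases h0 : rk φ (eth D x v l θ) = 0
    · rw [h0, Nat.cast_zero, mul_zero]
    · have h1 : S.gen φ = 0 := by
        by_contra h1
        exact hne (hu φ (eth_ser hD hx hv hθ hφ h0) h1)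
      rw [h1, Nat.cast_zero, zero_mul]
  · intro h
    exact absurd (star_ir hD) h

/-- the terms of the parity formula do not depend on the eigenvalue -/
theorem term_indep (IH : ∀ y, (∃ a ∈ S.R, inner ℝ a y ≠ 0) → TS (lev S y) c) {D : S.Cs Ω}
    (hD : D.gnr) {x : E} (hx : S.Reg D.x x) {v : E ≃ₗᵢ[ℝ] E} {l : ℕ} (hv : NAc D x v l)
    {y : E} (hy : y ∈ S.X D.x) (h : ∃ a ∈ S.R, inner ℝ a y ≠ 0) {θ θ' : Ω}
    (hθ : θ ^ l = 1) (hθ' : θ' ^ l = 1) :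
    ∑ φ ∈ ir Ω S.H, mt (S.L y) φ (S.e Ω y) (od D y) * rk φ (eth D x v l θ) =
      ∑ φ ∈ ir Ω S.H, mt (S.L y) φ (S.e Ω y) (od D y) * rk φ (eth D x v l θ') := by
  have hx1 : S.Reg D.x (S.cm y x) := reg_cm S hx hy
  have hle : S.le y (S.cm y x) := le_cm S y x
  have hT : (levD D y hy).TaH := (IH y h).ta _ ((D.gnr_lev hy (levD D y hy) rfl rfl).2 hD)
  obtain ⟨hfc, hff⟩ := f_cen IH hD hy h hx1 hle
  have hmem : od D y ∈ ir Ω (S.L y) := (mem_sr.1 (od_spec IH hD hy h).1).1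
  have hE : D.f (S.cm y x) * cen (S.L y) (od D y) * D.f (S.cm y x) *
      (D.f (S.cm y x) * cen (S.L y) (od D y) * D.f (S.cm y x)) =
      D.f (S.cm y x) * cen (S.L y) (od D y) * D.f (S.cm y x) := by
    rw [← hfc]
    exact hff
  have key := rank_indep hD hx hv hy hT hx1 hle (cen_mem (od D y) hmem) hE hθ hθ'
  rw [← hfc] at key
  have hcg : ∀ η : Ω, ∑ φ ∈ ir Ω S.H, mt (S.L y) φ (S.e Ω y) (od D y) * rk φ (eth D x v l η) =
      ∑ φ ∈ ir Ω S.H, rk φ (D.f (S.cm y x) * cen (S.L y) (od D y)) * rk φ (eth D x v l η) := by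
    intro η
    refine Finset.sum_congr rfl fun φ hφ => ?_
    rw [mt_od IH hD hy h hx1 hle hφ]
  rw [hcg, hcg]
  exact key

end K14_aux

theorem sum_parity (IH : ∀ y, (∃ a ∈ S.R, inner ℝ a y ≠ 0) → TS (lev S y) c) {D : S.Cs Ω}
    (hD : D.gnr) {Y : Finset E} (hY : TV D Y) {x : E} (hx : S.Reg D.x x) {v : E ≃ₗᵢ[ℝ] E} {l : ℕ}
    (hv : NAc D x v l) {θ : Ω} (hθ : θ ^ l = 1) :
    (1 : ZMod 2) = (if θ = 1 then 1 else 0) +
      ∑ y ∈ Y.filter (fun y => ∃ a ∈ S.R, inner ℝ a y ≠ 0),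
        ∑ φ ∈ ir Ω S.H, (mt (S.L y) φ (S.e Ω y) (od D y) : ZMod 2) * (rk φ (eth D x v l θ) : ZMod 2) := by
  have h1 : (1 : ZMod 2) =
      ∑ φ ∈ ir Ω S.H, (Parker.dg φ : ZMod 2) * (rk φ (eth D x v l θ) : ZMod 2) := by
    have h := (sum_eth hD hx hv).2 θ hθ
    rw [← ZMod.natCast_eq_one_iff_odd] at h
    rw [← h]
    push_cast
    rfl
  have h2 : ∀ φ ∈ ir Ω S.H, (Parker.dg φ : ZMod 2) * (rk φ (eth D x v l θ) : ZMod 2) =
      (S.gen φ : ZMod 2) * (rk φ (eth D x v l θ) : ZMod 2) +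
        ∑ y ∈ Y.filter (fun y => ∃ a ∈ S.R, inner ℝ a y ≠ 0),
          (mt (S.L y) φ (S.e Ω y) (od D y) : ZMod 2) * (rk φ (eth D x v l θ) : ZMod 2) := by
    intro φ hφ
    by_cases h0 : rk φ (eth D x v l θ) = 0
    · simp [h0]
    · rw [parity IH hD hY (eth_ser hD hx hv hθ hφ h0), add_mul, Finset.sum_mul]
  rw [Finset.sum_congr rfl h2, Finset.sum_add_distrib, K14_aux.sum_gen hD hx hv hθ,
    Finset.sum_comm] at h1
  exact h1

/-- (9.8) -/
theorem taH (IH : ∀ y, (∃ a ∈ S.R, inner ℝ a y ≠ 0) → TS (lev S y) c) {D : S.Cs Ω}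
    (hD : D.gnr) : D.TaH := by
  by_contra hT
  obtain ⟨x, v, l, hx, hv⟩ := exists_NAc hT
  obtain ⟨Y, hY, -⟩ := exists_TV D hx
  have hl : 1 < l := hv.pr.one_lt
  have : NeZero l := ⟨hv.pr.ne_zero⟩
  obtain ⟨θ', hθ'⟩ := HasEnoughRootsOfUnity.exists_primitiveRoot Ω l
  have h1 : (1 : Ω) ^ l = 1 := one_pow l
  have h2 : θ' ^ l = 1 := hθ'.pow_eq_one
  have hne : θ' ≠ 1 := hθ'.ne_one hl
  have e1 := sum_parity IH hD hY hx hv h1
  have e2 := sum_parity IH hD hY hx hv h2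
  rw [if_pos rfl] at e1
  rw [if_neg hne, zero_add] at e2
  have hs : (∑ y ∈ Y.filter (fun y => ∃ a ∈ S.R, inner ℝ a y ≠ 0),
        ∑ φ ∈ ir Ω S.H, (mt (S.L y) φ (S.e Ω y) (od D y) : ZMod 2) *
          (rk φ (eth D x v l (1 : Ω)) : ZMod 2)) =
      ∑ y ∈ Y.filter (fun y => ∃ a ∈ S.R, inner ℝ a y ≠ 0),
        ∑ φ ∈ ir Ω S.H, (mt (S.L y) φ (S.e Ω y) (od D y) : ZMod 2) *
          (rk φ (eth D x v l θ') : ZMod 2) := by
    refine Finset.sum_congr rfl fun y hy => ?_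
    rw [Finset.mem_filter] at hy
    have h := K14_aux.term_indep IH hD hx hv (hY.mem y hy.1) hy.2 h1 h2
    exact_mod_cast congrArg (Nat.cast : ℕ → ZMod 2) h
  rw [hs, ← e2] at e1
  exact absurd e1 (by decide)

end

end LieP
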