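import Pool.Agent.LieP.K11
import Pool.Agent.LieP.K13

/-!
# MP_6c3636_al, LieP, module K15: rank one (9.6) (helper69)

Section 9, (9.6). Hypothesis `h1`: all roots vanish at the points of `X` orthogonal to `a`, `a ∈ Psi`. `X` is the orthogonal sum of `ℝ a` and of `X ⊓ a⊥`, so the facet of `y ∈ X` is determined by the sign of `inner a y` (a root `b` is on `X` the multiple `inner b a • a` plus a functional vanishing on `X`...: `inner b y = inner a y * inner b a`).
`W_two`: for `w ∈ D.W` `w x ∈ X` is regular (`W_reg`), `inner a (w x) ≠ 0` (`Psi_reg`). If it has the sign of `inner a x` then `w x` is in the facet of `x`, `w x = ac (rp w) x` (`W_rp`), `eqv_fix`, so `w = 1` (`W_fix`). Otherwise apply this to `rfn a * w` (`of_Psi`, `rfn_apply`).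
`TV_one`: `{x, 0}` is a transversal: `y ∈ X` with `inner a y ≠ 0` is in the facet of `x` or of `rfn a x` (`ac (rp (rfn a)) x = rfn a x`); otherwise all roots vanish at `y`, `y` is in the facet of `0`. `1 ∈ NN D` (`NN_L`).
`od_one`: `lev_f_od` with `y = x1 = x`: `(levD D x _).f x = av Ω (U x ⊓ L x) * ε = ε` (`U_L_disj`, `av_bot`), so `rk (od D x) ε = 1` and `od D x = D.tp` (`tp_spec`, `L_reg`), `mt_prim` with `b = ε`.
`two_ser`: `∑ (rk φ (f x))^2 = finrank (cr S.H f f) = 2` (`finrank_cr`, `T_li`, `T_span`, `W_two`, `rfn a ≠ 1`), `rk_star`.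
`p_one`: `0 = |H| t (T x (rfn a)) = ∑ dg φ * tr φ (T)` (`card_t`, `T_t`), `tr φ T = 0` if `rk φ (f x) = 0` (`tr_zero_of_rk`, `T_abs`), `tr D.star T = 1` (`T_spec`); `τ = tr φ₀ T` satisfies `τ τ = (1 - p) τ + p` (`T_sq`, `tr_corner`, `rk_tr`), so `(τ - 1) (τ + p) = 0`, and `dg φ₀ * τ = - dg D.star`, so `τ ≠ 1` (the degrees are positive), `p = - τ`.
`parity` for `Y = {x, 0}`: `dg φ = gen φ + rk φ (f x)` for `φ ∈ D.Ser`: `dg D.star` is even, `dg φ₀` is odd (`star_spec`).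
`tc_one`: `c.av (even) ≤ c.av 2 < 1`, `c.av (odd) = 1` (`Parker.Ctx`).
-/

namespace LieP

noncomputable section

open Classical

namespace K15_aux

section A

variable {Ω : Type} [Field Ω] [IsAlgClosed Ω] [CharZero Ω] {G E : Type} [Group G] [Finite G]
  [NormedAddCommGroup E] [InnerProductSpace ℝ E] [FiniteDimensional ℝ E] {S : LieSys G E}

variable {D : S.Cs Ω} {x : E} {a : E} (ha : a ∈ ps D.Psi x)

include ha in
theorem ps1 : a ∈ D.Psi ∧ 0 < inner ℝ a x := Finset.mem_filter.1 ha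

variable (h1 : ∀ y ∈ S.X D.x, inner ℝ a y = 0 → ∀ b ∈ S.R, inner ℝ b y = 0)

include ha h1

theorem key {b : E} (hb : b ∈ S.R) {y : E} (hy : y ∈ S.X D.x) :
    inner ℝ b y = inner ℝ a y * inner ℝ b a := by
  obtain ⟨hn, haX, -, -, -⟩ := of_Psi (ps1 ha).1
  have e1 : inner ℝ a a = (1 : ℝ) := by rw [real_inner_self_eq_norm_sq, hn]; norm_num
  have e2 := h1 (y - (inner ℝ a y : ℝ) • a) (Submodule.sub_mem _ hy (Submodule.smul_mem _ _ haX))
    (by rw [inner_sub_right, inner_smul_right, e1]; ring) b hb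
  rw [inner_sub_right, inner_smul_right] at e2
  linarith

theorem eqv_pos {y y' : E} (hy : y ∈ S.X D.x) (hy' : y' ∈ S.X D.x) (h : 0 < inner ℝ a y)
    (h' : 0 < inner ℝ a y') : S.eqv y y' := by
  rw [eqv_iff S]
  intro b hb
  rw [key ha h1 hb hy, key ha h1 hb hy', mul_pos_iff_of_pos_left h, mul_pos_iff_of_pos_left h']

end A

section B

variable {E : Type} [NormedAddCommGroup E] [InnerProductSpace ℝ E] [FiniteDimensional ℝ E]

theorem rfn_ne_one {a : E} (ha : ‖a‖ = 1) : rfn a ≠ 1 := by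
  intro h
  have h2 := rfn_self ha
  rw [h] at h2
  have h3 : a = -a := h2
  have h4 : a = 0 := by
    have h5 : (2 : ℝ) • a = 0 := by
      rw [two_smul]
      nth_rewrite 2 [h3]
      exact add_neg_cancel a
    exact (smul_eq_zero.1 h5).resolve_left two_ne_zero
  rw [h4, norm_zero] at ha
  exact zero_ne_one ha

theorem eq_of_rfn {a b : E} (ha : ‖a‖ = 1) (hb : ‖b‖ = 1) (h : rfn b = rfn a) {x : E}
    (hax : 0 < inner ℝ a x) (hbx : 0 < inner ℝ b x) : b = a := by
  have h2 : rfn a b = -b := by rw [← h]; exact rfn_self hb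
  rw [rfn_apply ha] at h2
  have h3 : b = (inner ℝ a b : ℝ) • a := by
    have h4 : (2 : ℝ) • b = (2 : ℝ) • ((inner ℝ a b : ℝ) • a) := by
      rw [smul_smul, two_smul]
      have h5 : b = -b + (2 * inner ℝ a b : ℝ) • a := by rw [← h2]; abel
      nth_rewrite 2 [h5]
      abel
    exact smul_right_injective E (two_ne_zero) h4
  have h6 : |(inner ℝ a b : ℝ)| = 1 := by
    have h7 := congrArg norm h3
    rw [norm_smul, ha, hb, mul_one, Real.norm_eq_abs] at h7
    exact h7.symm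
  have h8 : 0 < (inner ℝ a b : ℝ) := by
    rw [h3, real_inner_smul_left] at hbx
    rw [mul_comm, mul_pos_iff_of_pos_left hax] at hbx
    exact hbx
  rw [abs_of_pos h8] at h6
  rw [h6, one_smul] at h3
  exact h3

end B

section C

theorem sum_sq_one {ι : Type} [DecidableEq ι] (s : Finset ι) (n : ι → ℕ)
    (h : ∑ i ∈ s, n i * n i = 1) : ∃ i ∈ s, n i = 1 ∧ ∀ j ∈ s, j ≠ i → n j = 0 := by
  have h1 : ∃ i ∈ s, n i ≠ 0 := by
    by_contra h2
    push Not at h2
    rw [Finset.sum_eq_zero (fun i hi => by rw [h2 i hi, mul_zero])] at h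
    exact zero_ne_one h
  obtain ⟨i, hi, h2⟩ := h1
  rw [← Finset.add_sum_erase s _ hi] at h
  have h3 : 1 ≤ n i * n i := Nat.one_le_iff_ne_zero.2 (Nat.mul_ne_zero h2 h2)
  have h4 : n i * n i = 1 := by omega
  have h5 : ∑ j ∈ s.erase i, n j * n j = 0 := by omega
  refine ⟨i, hi, Nat.eq_one_of_mul_eq_one_left h4, fun j hj hji => ?_⟩
  have h6 := Finset.sum_eq_zero_iff.1 h5 j (Finset.mem_erase.2 ⟨hji, hj⟩)
  exact mul_self_eq_zero.1 h6

theorem av_nat {Ω : Type} [Field Ω] (c : Parker.Ctx Ω) (n : ℕ) : c.av (n : Ω) ≤ 1 := by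
  induction n with
  | zero => simp
  | succ n ih =>
    have h := c.na (n : Ω) 1
    rw [Nat.cast_succ]
    refine h.trans (max_le ih ?_)
    rw [map_one]

end C

end K15_aux

open K15_aux

variable {Ω : Type} [Field Ω] [IsAlgClosed Ω] [CharZero Ω] {G E : Type} [Group G] [Finite G]
  [NormedAddCommGroup E] [InnerProductSpace ℝ E] [FiniteDimensional ℝ E] {S : LieSys G E}
  {c : Parker.Ctx Ω}

variable {D : S.Cs Ω} {x : E} (hx : S.Reg D.x x) {a : E} (ha : a ∈ ps D.Psi x)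
  (h1 : ∀ y ∈ S.X D.x, inner ℝ a y = 0 → ∀ b ∈ S.R, inner ℝ b y = 0)

include hx ha h1

theorem W_two {w : E ≃ₗᵢ[ℝ] E} : w ∈ D.W ↔ w = 1 ∨ w = rfn a := by
  obtain ⟨hn, haX, -, hW, -⟩ := of_Psi (ps1 ha).1
  have same : ∀ w : E ≃ₗᵢ[ℝ] E, w ∈ D.W → 0 < inner ℝ a (w x) → w = 1 := by
    intro w hw h
    have hxX := reg_mem_X S hx
    obtain ⟨hN, hwy⟩ := W_rp hw
    have e1 := eqv_pos ha h1 (W_X hw hxX) hxX h (ps1 ha).2
    rw [hwy x hxX] at e1
    have e2 := eqv_fix S hN.1 e1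
    rw [← hwy x hxX] at e2
    exact W_fix hw hx e2
  constructor
  · intro hw
    have h2 := Psi_reg (W_reg hw hx) (ps1 ha).1
    rcases lt_or_gt_of_ne h2 with h3 | h3
    · right
      have h4 : rfn a * w = 1 := by
        refine same _ (Subgroup.mul_mem _ hW hw) ?_
        show 0 < inner ℝ a (rfn a (w x))
        rw [rfn_inner, rfn_self hn, inner_neg_left]
        linarith
      have h5 := eq_inv_of_mul_eq_one_right h4
      rw [h5, rfn_inv]
    · exact Or.inl (same w hw h3)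
  · rintro (h | h)
    · rw [h]
      exact Subgroup.one_mem _
    · rw [h]
      exact hW

theorem TV_one : TV D {x, 0} := by
  obtain ⟨hn, haX, -, hW, b0, hb0, r, hr, hb1⟩ := of_Psi (ps1 ha).1
  have hxX := reg_mem_X S hx
  have hne : inner ℝ b0 x ≠ 0 := by
    rw [hb1 x hxX]
    exact (mul_pos hr (ps1 ha).2).ne'
  have hone : (1 : G) ∈ D.NN D := NN_L (Subgroup.one_mem _) (Subgroup.one_mem _)
  have hac : ∀ y, S.ac 1 y = y := fun y => by rw [S.ac_one]; rfl
  refine ⟨?_, ?_, ?_⟩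
  · intro y hy
    rw [Finset.mem_insert, Finset.mem_singleton] at hy
    rcases hy with rfl | rfl
    · exact hxX
    · exact Submodule.zero_mem _
  · intro y hy
    rcases lt_trichotomy (inner ℝ a y : ℝ) 0 with h | h | h
    · obtain ⟨hN, hwy⟩ := W_rp hW
      refine ⟨D.rp (rfn a), hN, x, by simp, ?_⟩
      rw [← hwy y hy]
      refine eqv_pos ha h1 (W_X hW hy) hxX ?_ (ps1 ha).2
      rw [rfn_inner, rfn_self hn, inner_neg_left]
      linarith
    · refine ⟨1, hone, 0, by simp, ?_⟩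
      rw [hac, eqv_iff S]
      intro b hb
      rw [h1 y hy h b hb, inner_zero_right]
    · refine ⟨1, hone, x, by simp, ?_⟩
      rw [hac]
      exact eqv_pos ha h1 hy hxX h (ps1 ha).2
  · intro y hy y' hy' n hnN he
    have hnn : n ∈ S.N := hnN.1
    rw [Finset.mem_insert, Finset.mem_singleton] at hy hy'
    rcases hy with rfl | rfl <;> rcases hy' with rfl | rfl
    · rfl
    · exfalso
      have h2 : ∀ b ∈ S.R, inner ℝ b (S.ac n y) = 0 := by
        intro b hb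
        have e1 := (eqv_iff S).1 he b hb
        have e2 := (eqv_iff S).1 he (-b) (S.neg b hb)
        rw [inner_zero_right] at e1 e2
        rw [inner_neg_left] at e2
        by_contra h3
        rcases lt_or_gt_of_ne h3 with h4 | h4
        · exact lt_irrefl _ (e2.1 (by linarith))
        · exact lt_irrefl _ (e1.1 h4)
      exact hne ((ac_zero_iff S hnn).1 h2 b0 hb0.1)
    · exfalso
      rw [map_zero] at he
      have e1 := (eqv_iff S).1 he b0 hb0.1
      have e2 := (eqv_iff S).1 he (-b0) (S.neg b0 hb0.1)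
      rw [inner_zero_right] at e1 e2
      rw [inner_neg_left] at e2
      rcases lt_or_gt_of_ne hne with h4 | h4
      · exact lt_irrefl _ (e2.2 (by linarith))
      · exact lt_irrefl _ (e1.2 h4)
    · rfl

theorem ne_x : ∃ b ∈ S.R, inner ℝ b x ≠ 0 := by
  obtain ⟨hn, haX, -, hW, b0, hb0, r, hr, hb1⟩ := of_Psi (ps1 ha).1
  refine ⟨b0, hb0.1, ?_⟩
  rw [hb1 x (reg_mem_X S hx)]
  exact (mul_pos hr (ps1 ha).2).ne'

variable (hD : D.gnr)

include hD

theorem od_one (IH : ∀ y, (∃ a ∈ S.R, inner ℝ a y ≠ 0) → TS (lev S y) c) {φ : G → Ω}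
    (hφ : φ ∈ ir Ω S.H) : mt (S.L x) φ (S.e Ω x) (od D x) = rk φ (D.f x) := by
  have hxX := reg_mem_X S hx
  have hne := ne_x hx ha h1
  have hL : S.L D.x = S.L x := L_reg S hx
  have e0 : (levD D x hxX).f x = D.ε := by
    rw [levD_f]
    have e1 : S.U x ⊓ S.L x = ⊥ := by
      rw [eq_bot_iff]
      intro g hg
      exact Subgroup.mem_bot.2 (U_L_disj S hg.1 hg.2)
    rw [e1, av_bot, one_mul]
  have e1 := lev_f_od IH hD hxX hne hx (le_refl S x)
  rw [e0] at e1
  have hod : od D x ∈ ir Ω (S.L x) := (mem_sr.1 (od_spec IH hD hxX hne).1).1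
  have e2 : od D x = D.tp := by
    by_contra h
    have e3 := D.tp_spec.2.2 (od D x) (by rw [hL]; exact hod) h
    omega
  have hmem : D.ε ∈ sb Ω (S.L x) := by rw [← hL]; exact D.mem
  have e4 := mt_prim (H := S.H) (H' := S.L x) (S.LH x) hφ (e := S.e Ω x)
    (av_mem (S.UH x)) (av_idem _) (fun b hb => (av_comm (S.s4 x) hb).symm) hod hmem D.idem e1
    (fun χ hχ hne' => D.tp_spec.2.2 χ (by rw [hL]; exact hχ) (by rw [← e2]; exact hne'))
  exact e4

theorem two_ser : ∃ φ₀ ∈ ir Ω S.H, φ₀ ≠ D.star ∧ rk φ₀ (D.f x) = 1 ∧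
    ∀ ψ ∈ ir Ω S.H, ψ ≠ φ₀ → ψ ≠ D.star → rk ψ (D.f x) = 0 := by
  obtain ⟨hn, haX, -, hW, -⟩ := of_Psi (ps1 ha).1
  have hf := D.f_mem_H hx
  have hff := D.f_idem_H hx
  have c1 : Nat.card D.W = 2 := by
    have c2 : ((D.W : Subgroup (E ≃ₗᵢ[ℝ] E)) : Set (E ≃ₗᵢ[ℝ] E)) = {1, rfn a} := by
      ext w
      rw [SetLike.mem_coe, W_two hx ha h1]
      rfl
    have c3 : Nat.card D.W = Set.ncard ((D.W : Subgroup (E ≃ₗᵢ[ℝ] E)) : Set (E ≃ₗᵢ[ℝ] E)) := rfl
    rw [c3, c2, Set.ncard_pair (rfn_ne_one hn).symm]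
  have := fin_W D
  have := Fintype.ofFinite D.W
  have d1 := finrank_span_eq_card (T_li hD hx)
  rw [T_span hD hx, finrank_cr hf hff hf hff, ← Nat.card_eq_fintype_card, c1,
    ← Finset.add_sum_erase _ _ (star_ir hD), rk_star hD hx] at d1
  have d2 : ∑ φ ∈ (ir Ω S.H).erase D.star, rk φ (D.f x) * rk φ (D.f x) = 1 := by omega
  obtain ⟨φ₀, h2, h3, h4⟩ := sum_sq_one _ (fun φ => rk φ (D.f x)) d2
  rw [Finset.mem_erase] at h2
  exact ⟨φ₀, h2.2, h2.1, h3, fun ψ hψ e1 e2 => h4 ψ (Finset.mem_erase.2 ⟨e2, hψ⟩) e1⟩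

theorem p_one (IH : ∀ y, (∃ a ∈ S.R, inner ℝ a y ≠ 0) → TS (lev S y) c) :
    ∃ m n : ℕ, Even m ∧ Odd n ∧ 0 < m ∧ D.p x a * (n : Ω) = (m : Ω) := by
  obtain ⟨hn, haX, -, hW, -⟩ := of_Psi (ps1 ha).1
  have hf := D.f_mem_H hx
  have hff := D.f_idem_H hx
  have hne := ne_x hx ha h1
  obtain ⟨φ₀, h2, h3, h4, h5⟩ := two_ser hx ha h1 hD
  have hsm : a ∈ sm D.Psi x := by
    refine Finset.mem_filter.2 ⟨ha, 0, inner_zero_right _, fun b hb hba => ?_⟩
    exfalso
    obtain ⟨hbn, -, -, hbW, -⟩ := of_Psi (ps1 hb).1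
    rcases (W_two hx ha h1).1 hbW with h6 | h6
    · exact rfn_ne_one hbn h6
    · exact hba (eq_of_rfn hn hbn h6 (ps1 ha).2 (ps1 hb).2)
  obtain ⟨t1, t2, t3⟩ := T_abs hD hx hW
  have tst := (T_spec hD hx hW).2.1
  have tsq := T_sq hD hx hsm
  have par := fun φ (hφ : φ ∈ D.Ser) => parity IH hD (TV_one hx ha h1) hφ
  have hfil : ({x, 0} : Finset E).filter (fun y => ∃ a ∈ S.R, inner ℝ a y ≠ 0) = {x} := by
    ext y
    rw [Finset.mem_filter, Finset.mem_insert, Finset.mem_singleton, Finset.mem_singleton]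
    constructor
    · rintro ⟨h6 | h6, b, hb, h7⟩
      · exact h6
      · rw [h6, inner_zero_right] at h7
        exact absurd rfl h7
    · intro h6
      rw [h6]
      exact ⟨Or.inl rfl, hne⟩
  rw [hfil] at par
  simp only [Finset.sum_singleton] at par
  have ev : Even (Parker.dg D.star) := by
    have e1 := par D.star (D.star_spec hD).1
    rw [od_one hx ha h1 hD IH (star_ir hD), (D.star_spec hD).2.1, rk_star hD hx] at e1
    rw [even_iff_two_dvd, ← ZMod.natCast_eq_zero_iff, e1]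
    decide
  have hser : φ₀ ∈ D.Ser := by
    rw [D.mem_Ser, ← rk_f hx h2, h4]
    exact ⟨h2, one_ne_zero⟩
  have od' : Odd (Parker.dg φ₀) := by
    have e1 := par φ₀ hser
    have e2 : S.gen φ₀ = 0 := by
      by_contra h6
      exact h3 ((D.star_spec hD).2.2.2 φ₀ hser h6)
    rw [od_one hx ha h1 hD IH h2, e2, h4, Nat.cast_zero, zero_add] at e1
    rw [← Nat.not_even_iff_odd, even_iff_two_dvd, ← ZMod.natCast_eq_zero_iff, e1]
    decide
  have pos : 0 < Parker.dg D.star := by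
    have e1 := rk_le_dg (star_ir hD) hf hff
    rw [rk_star hD hx] at e1
    exact e1
  have s1 : (Parker.dg D.star : Ω) + (Parker.dg φ₀ : Ω) * tr φ₀ (D.T x (rfn a)) = 0 := by
    have e1 := card_t t1
    rw [T_t hD hx hW (rfn_ne_one hn), mul_zero, ← Finset.add_sum_erase _ _ (star_ir hD),
      ← Finset.add_sum_erase _ _ (Finset.mem_erase.2 ⟨h3, h2⟩), tst, mul_one] at e1
    rw [Finset.sum_eq_zero, add_zero] at e1
    · exact e1.symm
    · intro ψ hψ
      rw [Finset.mem_erase, Finset.mem_erase] at hψ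
      have e2 := tr_zero_of_rk hψ.2.2 hf hff (h5 ψ hψ.2.2 hψ.1 hψ.2.1) t1
      rw [t3] at e2
      rw [e2, mul_zero]
  have s2 : tr φ₀ (D.T x (rfn a)) * tr φ₀ (D.T x (rfn a)) =
      (1 - D.p x a) * tr φ₀ (D.T x (rfn a)) + D.p x a := by
    have e1 := tr_corner h2 hf hff h4 t1 t1
    rw [t2, t3, mul_assoc, t3, tsq, map_add, map_smul, map_smul, ← rk_tr h2 hf hff, h4,
      Nat.cast_one, smul_eq_mul, smul_eq_mul, mul_one] at e1
    exact e1.symm
  have s3 : tr φ₀ (D.T x (rfn a)) ≠ 1 := by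
    intro h6
    rw [h6, mul_one, ← Nat.cast_add] at s1
    have e1 := Nat.cast_eq_zero.1 s1
    omega
  have s4 : D.p x a = - tr φ₀ (D.T x (rfn a)) := by
    have e1 : (tr φ₀ (D.T x (rfn a)) - 1) * (tr φ₀ (D.T x (rfn a)) + D.p x a) = 0 := by
      linear_combination s2
    rcases mul_eq_zero.1 e1 with e2 | e2
    · exact absurd (sub_eq_zero.1 e2) s3
    · exact eq_neg_of_add_eq_zero_right e2
  refine ⟨Parker.dg D.star, Parker.dg φ₀, ev, od', pos, ?_⟩
  rw [s4]
  linear_combination -s1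

theorem tc_one (h2 : c.av 2 < 1) (IH : ∀ y, (∃ a ∈ S.R, inner ℝ a y ≠ 0) → TS (lev S y) c) :
    c.av (D.p x a) < 1 ∧ 1 + D.p x a ≠ 0 := by
  obtain ⟨m, n, ⟨l, hl⟩, hn, hm, h⟩ := p_one hx ha h1 hD IH
  have e1 : c.av (D.p x a) < 1 := by
    have e2 := congrArg c.av h
    rw [map_mul, c.odd n hn, mul_one, hl, ← two_mul, Nat.cast_mul, map_mul] at e2
    rw [e2]
    calc c.av ((2 : ℕ) : Ω) * c.av (l : Ω) ≤ c.av ((2 : ℕ) : Ω) * 1 :=
          mul_le_mul_of_nonneg_left (av_nat c l) (c.av.nonneg _)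
      _ = c.av 2 := by rw [mul_one]; norm_num
      _ < 1 := h2
  refine ⟨e1, fun h3 => ?_⟩
  have h4 : D.p x a = -1 := eq_neg_of_add_eq_zero_right h3
  rw [h4, AbsoluteValue.map_neg, map_one] at e1
  exact lt_irrefl _ e1

end

end LieP
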