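import Pool.Agent.LieP.K15

/-!
# MP_6c3636_al, LieP, module K16: the parameters (9.7) (helper69)

Section 9, (9.7). Let `a ∈ sm D.Psi x`, `v` a point of its definition (`inner a v = 0`, positive on the other `b ∈ ps D.Psi x`), `y` the orthogonal projection of `v` to `X = S.X D.x` (`Psi ⊆ X` (`of_Psi`), so the scalar products with `Psi` are the same). `y ∈ Cc D x`.
Case 1: some root does not vanish at `y`. Put `x1 = S.cm y x`: regular, `NA x x1` (`NA_cm`), `S.le y x1`. `D.p x a = D.p x1 a` (`p_NA`) `= (levD D y hy).p x1 a` (`lev_p`, `sm_NA`), and `(IH y h).tc` for `levD D y hy` (generic: `D.gnr_lev hy (levD D y hy) rfl rfl`; `levD_reg_of`): `a ∈ sm (levD D y hy).Psi x1`: `lev_Psi`;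
an element `b ≠ a` of `ps (levD D y hy).Psi x1` would be in `ps D.Psi x` (`sm_NA`) with `inner b y = 0`, contradiction.
Case 2: all roots vanish at `y`. Then `inner b y = 0` for all `b ∈ Psi` (`of_Psi`), so `ps D.Psi x = {a}`. If some `y' ∈ X` with `inner a y' = 0` has a root not vanishing at `y'` then case 1 applies to `y'` (in `Cc D x`). Otherwise `tc_one`.
-/

namespace LieP

noncomputable section

open Classical

variable {Ω : Type} [Field Ω] [IsAlgClosed Ω] [CharZero Ω] {G E : Type} [Group G] [Finite G]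
  [NormedAddCommGroup E] [InnerProductSpace ℝ E] [FiniteDimensional ℝ E] {S : LieSys G E}
  {c : Parker.Ctx Ω}

theorem tc_face (IH : ∀ y, (∃ a ∈ S.R, inner ℝ a y ≠ 0) → TS (lev S y) c) {D : S.Cs Ω}
    (hD : D.gnr) {x : E} (hx : S.Reg D.x x) {a : E} (ha : a ∈ sm D.Psi x) {y : E}
    (hy : y ∈ S.X D.x) (h : ∃ b ∈ S.R, inner ℝ b y ≠ 0) (h0 : inner ℝ a y = 0)
    (h1 : ∀ b ∈ ps D.Psi x, b ≠ a → 0 < inner ℝ b y) :
    c.av (D.p x a) < 1 ∧ 1 + D.p x a ≠ 0 := by
  have hay : y ∈ Cc D x := by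
    refine ⟨hy, fun b hb hb0 => ?_⟩
    by_cases hba : b = a
    · rw [hba, h0]
    · exact (h1 b (Finset.mem_filter.mpr ⟨hb, hb0⟩) hba).le
  have haP : a ∈ D.Psi := (Finset.mem_filter.mp (Finset.mem_filter.mp ha).1).1
  obtain ⟨hNA, hx1⟩ := NA_cm hx hay
  have hle : S.le y (S.cm y x) := le_cm S y x
  have hsm := (sm_NA hx hx1 hNA).2
  have ha1 : a ∈ sm D.Psi (S.cm y x) := hsm ▸ ha
  rw [p_NA hD hx hx1 hNA haP, ← lev_p hD hy hx1 hle ha1 h0]
  have hmem : a ∈ sm (levD D y hy).Psi (S.cm y x) := by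
    rw [lev_sm hy hx1 hle]
    exact Finset.mem_filter.mpr ⟨ha1, h0⟩
  exact (IH y h).tc (levD D y hy) ((lev_gnr hy).2 hD) (S.cm y x) (levD_reg_of hx1) a hmem

/-- (9.7) -/
theorem tc_all (h2 : c.av 2 < 1) (IH : ∀ y, (∃ a ∈ S.R, inner ℝ a y ≠ 0) → TS (lev S y) c)
    {D : S.Cs Ω} (hD : D.gnr) {x : E} (hx : S.Reg D.x x) {a : E} (ha : a ∈ sm D.Psi x) :
    c.av (D.p x a) < 1 ∧ 1 + D.p x a ≠ 0 := by
  have hmem := Finset.mem_filter.mp ha
  obtain ⟨v, hv0, hv⟩ := hmem.2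
  -- the projection of the point to the space
  have hinner : ∀ b ∈ D.Psi, inner ℝ b (D.pj v) = inner ℝ b v := by
    intro b hb
    have hbX : b ∈ S.X D.x := (of_Psi hb).2.1
    have h3 : D.pj v = (S.X D.x).starProjection v := rfl
    rw [h3]
    have h4 := (S.X D.x).sub_starProjection_mem_orthogonal v
    have h5 : inner ℝ b (v - (S.X D.x).starProjection v) = 0 :=
      (Submodule.mem_orthogonal _ _).mp h4 b hbX
    rw [inner_sub_right] at h5
    linarith
  have hyX : D.pj v ∈ S.X D.x := Submodule.starProjection_apply_mem _ _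
  have haP : a ∈ D.Psi := (Finset.mem_filter.mp hmem.1).1
  have h0 : inner ℝ a (D.pj v) = 0 := by rw [hinner a haP, hv0]
  have h1 : ∀ b ∈ ps D.Psi x, b ≠ a → 0 < inner ℝ b (D.pj v) := by
    intro b hb hba
    rw [hinner b (Finset.mem_filter.mp hb).1]
    exact hv b hb hba
  by_cases hcase : ∃ b ∈ S.R, inner ℝ b (D.pj v) ≠ 0
  · exact tc_face IH hD hx ha hyX hcase h0 h1
  · have hall : ∀ b ∈ S.R, inner ℝ b (D.pj v) = 0 := by
      intro b hb
      by_contra hne
      exact hcase ⟨b, hb, hne⟩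
    have hPsi : ∀ b ∈ ps D.Psi x, b = a := by
      intro b hb
      by_contra hba
      obtain ⟨k, hk, r, hr, hkr⟩ := (of_Psi (Finset.mem_filter.mp hb).1).2.2.2.2
      have h6 := hkr (D.pj v) hyX
      rw [hall k hk.1] at h6
      have h7 := mul_pos hr (h1 b hb hba)
      linarith
    by_cases h8 : ∃ y ∈ S.X D.x, inner ℝ a y = 0 ∧ ∃ b ∈ S.R, inner ℝ b y ≠ 0
    · obtain ⟨y, hy, hay, hby⟩ := h8
      exact tc_face IH hD hx ha hy hby hay fun b hb hba => absurd (hPsi b hb) hba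
    · have h9 : ∀ y ∈ S.X D.x, inner ℝ a y = 0 → ∀ b ∈ S.R, inner ℝ b y = 0 := by
        intro y hy hay b hb
        by_contra hne
        exact h8 ⟨y, hy, hay, b, hb, hne⟩
      exact tc_one hx hmem.1 h9 hD h2 IH

end

end LieP
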