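import Pool.Agent.LieP.K13
import Pool.Agent.LieP.F07
import Pool.Agent.LieP.F08

/-!
# MP_6c3636_al, LieP, module K17: the facets in the closed chamber (9.9), (9.10) (helper69)

Section 9, (9.9), (9.10). `Q = rg D hT x hx`. `y ∈ Cc D x` iff `y ∈ S.X D.x` and `y ∈ Q.Cb`; `Jy D x y = Q.J y`.
`f_cen_eJ`: `x1 = S.cm y x`, `NA_cm`. By `e_b`, `od_spec`, `lev_eJ`: `D.f x1 * cen (S.L y) (od D y) = S.e Ω y * (levD D y hy).eJ x1 (sm (levD D y hy).Psi x1) = D.eJ x1 (..)`, and `sm (levD D y hy).Psi x1 = Jy D x1 y` (`lev_Psi`, `par_S` for `rg D hT x1 _`), `Jy D x1 y = Jy D x y` (`sm_NA`).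
`mt_eJ`: `mt_od`, `f_cen_eJ`, `rk_eJ_NA`.
`TVC D x Y`: `Y` contains exactly one point of every facet of `X` in the closed chamber. `exists_TVC`: representatives of the facets of the points of `Cc D x` (finitely many sign vectors). It is a transversal: `exists_NN_chamber`; if `ac n y` is in the facet of `y'`, `y, y' ∈ Y`, `n ∈ D.NN D`, take `w ∈ D.W` with `w = ac n` on `X` (`W_of`): `w y ∈ Q.Cb`
(the signs of the roots at `w y` and `y'` agree), so `w y = y` (`Cb_fix`), `y` is in the facet of `y'`, so `y = y'`.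
`card_J`: `sign_parity` with `R = S.R`, `A = sm D.Psi x \ J`, `B = J`, `V = S.X D.x`: a point exists: `exists_J` for `Q` (project to `X`); the set is `{y ∈ Cc D x | Jy D x y = J}` (`mem_Cb`), the facets correspond to the sign vectors.
`zero_mem`: the facet of `0`. `sum_J`: `∑_{y ∈ Y} F (Jy D x y) = ∑_{J ⊆ S} card * F J` (`Finset.sum_fiberwise` or `Finset.card_eq_sum_card_fiberwise`), minus the term of the facet of `0`.
-/

namespace LieP

noncomputable section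

open Classical

variable {Ω : Type} [Field Ω] [IsAlgClosed Ω] [CharZero Ω] {G E : Type} [Group G] [Finite G]
  [NormedAddCommGroup E] [InnerProductSpace ℝ E] [FiniteDimensional ℝ E] {S : LieSys G E}
  {c : Parker.Ctx Ω}

theorem Cc_iff {D : S.Cs Ω} (hT : D.TaH) {x : E} (hx : S.Reg D.x x) {y : E} :
    y ∈ Cc D x ↔ y ∈ S.X D.x ∧ y ∈ (rg D hT x hx).Cb := by
  constructor
  · rintro ⟨h1, h2⟩
    exact ⟨h1, fun a ha => h2 a (Finset.mem_filter.1 ha).1 (Finset.mem_filter.1 ha).2⟩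
  · rintro ⟨h1, h2⟩
    exact ⟨h1, fun a ha hax => h2 a (Finset.mem_filter.2 ⟨ha, hax⟩)⟩

theorem f_cen_eJ (IH : ∀ y, (∃ a ∈ S.R, inner ℝ a y ≠ 0) → TS (lev S y) c) {D : S.Cs Ω}
    (hD : D.gnr) (hT : D.TaH) {x : E} (hx : S.Reg D.x x) {y : E} (hy : y ∈ Cc D x)
    (h : ∃ a ∈ S.R, inner ℝ a y ≠ 0) :
    D.f (S.cm y x) * cen (S.L y) (od D y) = D.eJ (S.cm y x) (Jy D x y) := by
  obtain ⟨hNA, hx1⟩ := NA_cm hx hy
  have hyX : y ∈ S.X D.x := hy.1
  have hle : S.le y (S.cm y x) := le_cm S y x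
  have h1 := e_b IH hD hyX h hx1 hle
  have h2 := (od_spec IH hD hyX h).2.2.2 (S.cm y x) (levD_reg_of hx1)
  have h3 : sm (levD D y hyX).Psi (S.cm y x) = Jy D x y := by
    rw [lev_sm hyX hx1 hle]
    unfold Jy
    rw [(sm_NA hx hx1 hNA).2]
  rw [← h1, h2, h3]
  refine lev_eJ hD hyX hx1 hle ?_
  rw [← (sm_NA hx hx1 hNA).2]
  exact fun a ha => ha

/-- (9.9) -/
theorem mt_eJ (IH : ∀ y, (∃ a ∈ S.R, inner ℝ a y ≠ 0) → TS (lev S y) c) {D : S.Cs Ω}
    (hD : D.gnr) (hT : D.TaH) {x : E} (hx : S.Reg D.x x) {y : E} (hy : y ∈ Cc D x)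
    (h : ∃ a ∈ S.R, inner ℝ a y ≠ 0) {φ : G → Ω} (hφ : φ ∈ ir Ω S.H) :
    mt (S.L y) φ (S.e Ω y) (od D y) = rk φ (D.eJ x (Jy D x y)) := by
  obtain ⟨hNA, hx1⟩ := NA_cm hx hy
  rw [mt_od IH hD hy.1 h hx1 (le_cm S y x) hφ, f_cen_eJ IH hD hT hx hy h]
  exact (rk_eJ_NA hD hx hx1 hNA (J := Jy D x y) (Finset.filter_subset _ _) hφ).symm

/-- transversals in the closed chamber -/
structure TVC (D : S.Cs Ω) (x : E) (Y : Finset E) : Prop where
  tv : TV D Y
  mem : ∀ y ∈ Y, y ∈ Cc D x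
  ex : ∀ y ∈ Cc D x, ∃ y' ∈ Y, S.eqv y y'
  un : ∀ y ∈ Y, ∀ y' ∈ Y, S.eqv y y' → y = y'

namespace K17_aux

omit [Finite G] [FiniteDimensional ℝ E] in
theorem eqv_sgv {y y' : E} : S.eqv y y' ↔ sgv S.R y = sgv S.R y' := by
  constructor
  · intro h
    funext a
    show SignType.sign (inner ℝ (a : E) y) = SignType.sign (inner ℝ (a : E) y')
    have h1 : 0 < inner ℝ (a : E) y ↔ 0 < inner ℝ (a : E) y' := ⟨h.1 a a.2, h.2 a a.2⟩
    have h2 : 0 < inner ℝ (-(a : E)) y ↔ 0 < inner ℝ (-(a : E)) y' :=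
      ⟨h.1 _ (S.neg a a.2), h.2 _ (S.neg a a.2)⟩
    rw [inner_neg_left, inner_neg_left, Left.neg_pos_iff, Left.neg_pos_iff] at h2
    rcases lt_trichotomy (inner ℝ (a : E) y) 0 with h3 | h3 | h3
    · rw [sign_neg h3, sign_neg (h2.1 h3)]
    · have h4 : inner ℝ (a : E) y' = 0 := by
        refine le_antisymm (not_lt.1 fun h5 => ?_) (not_lt.1 fun h5 => ?_)
        · exact absurd (h1.2 h5) (by rw [h3]; exact lt_irrefl _)
        · exact absurd (h2.2 h5) (by rw [h3]; exact lt_irrefl _)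
      rw [h3, h4]
    · rw [sign_pos h3, sign_pos (h1.1 h3)]
  · intro h
    have key : ∀ a ∈ S.R, SignType.sign (inner ℝ a y) = SignType.sign (inner ℝ a y') :=
      fun a ha => congrFun h ⟨a, ha⟩
    refine ⟨fun a ha h0 => ?_, fun a ha h0 => ?_⟩
    · have := key a ha
      rw [sign_pos h0] at this
      exact sign_eq_one_iff.1 this.symm
    · have := key a ha
      rw [sign_pos h0] at this
      exact sign_eq_one_iff.1 this

omit [IsAlgClosed Ω] in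
/-- the signs of the elements of `Psi` depend only on the facet -/
theorem Psi_sign {D : S.Cs Ω} {a : E} (ha : a ∈ D.Psi) {y y' : E} (hy : y ∈ S.X D.x)
    (hy' : y' ∈ S.X D.x) (h : S.eqv y y') : (0 < inner ℝ a y ↔ 0 < inner ℝ a y') ∧
      (inner ℝ a y = 0 ↔ inner ℝ a y' = 0) := by
  obtain ⟨-, -, -, -, b, hb, r, hr, h1⟩ := of_Psi ha
  have h2 : ∀ z ∈ S.X D.x, (0 < inner ℝ a z ↔ 0 < inner ℝ b z) := by
    intro z hz
    rw [h1 z hz]
    exact (mul_pos_iff_of_pos_left hr).symm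
  have h3 : ∀ z ∈ S.X D.x, (inner ℝ a z = 0 ↔ inner ℝ b z = 0) := by
    intro z hz
    rw [h1 z hz, mul_eq_zero]
    exact ⟨Or.inr, fun h => h.resolve_left hr.ne'⟩
  have h4 := congrFun (eqv_sgv.1 h) ⟨b, hb.1⟩
  have h5 : SignType.sign (inner ℝ b y) = SignType.sign (inner ℝ b y') := h4
  refine ⟨?_, ?_⟩
  · rw [h2 y hy, h2 y' hy']
    exact ⟨h.1 b hb.1, h.2 b hb.1⟩
  · rw [h3 y hy, h3 y' hy', ← sign_eq_zero_iff, h5, sign_eq_zero_iff]

theorem Cc_eqv {D : S.Cs Ω} {x : E} {y y' : E} (hy : y ∈ Cc D x) (hy' : y' ∈ S.X D.x)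
    (h : S.eqv y y') : y' ∈ Cc D x := by
  refine ⟨hy', fun a ha hax => ?_⟩
  have h1 := hy.2 a ha hax
  rcases h1.lt_or_eq with h2 | h2
  · exact ((Psi_sign ha hy.1 hy' h).1.1 h2).le
  · exact ((Psi_sign ha hy.1 hy' h).2.1 h2.symm).ge

end K17_aux

open K17_aux

theorem exists_TVC {D : S.Cs Ω} (hT : D.TaH) {x : E} (hx : S.Reg D.x x) :
    ∃ Y : Finset E, TVC D x Y := by
  have hfin : (sgv S.R '' Cc D x).Finite := Set.toFinite _
  set g : (S.R → SignType) → E := fun s =>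
    if h : ∃ y ∈ Cc D x, sgv S.R y = s then h.choose else 0 with hg
  have hg1 : ∀ s ∈ sgv S.R '' Cc D x, g s ∈ Cc D x ∧ sgv S.R (g s) = s := by
    rintro s ⟨y, hy, hs⟩
    have h : ∃ y ∈ Cc D x, sgv S.R y = s := ⟨y, hy, hs⟩
    have h1 : g s = h.choose := dif_pos h
    rw [h1]
    exact h.choose_spec
  have hmem : ∀ y ∈ hfin.toFinset.image g, y ∈ Cc D x := by
    intro y hy
    obtain ⟨s, hs, rfl⟩ := Finset.mem_image.1 hy
    exact (hg1 s (hfin.mem_toFinset.1 hs)).1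
  have hex : ∀ y ∈ Cc D x, ∃ y' ∈ hfin.toFinset.image g, S.eqv y y' := by
    intro y hy
    have h1 : sgv S.R y ∈ sgv S.R '' Cc D x := ⟨y, hy, rfl⟩
    exact ⟨g (sgv S.R y), Finset.mem_image_of_mem _ (hfin.mem_toFinset.2 h1),
      eqv_sgv.2 (hg1 _ h1).2.symm⟩
  have hun : ∀ y ∈ hfin.toFinset.image g, ∀ y' ∈ hfin.toFinset.image g, S.eqv y y' → y = y' := by
    intro y hy y' hy' h
    obtain ⟨s, hs, rfl⟩ := Finset.mem_image.1 hy
    obtain ⟨s', hs', rfl⟩ := Finset.mem_image.1 hy'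
    have h1 := eqv_sgv.1 h
    rw [(hg1 s (hfin.mem_toFinset.1 hs)).2, (hg1 s' (hfin.mem_toFinset.1 hs')).2] at h1
    rw [h1]
  refine ⟨hfin.toFinset.image g, ⟨⟨fun y hy => (hmem y hy).1, ?_, ?_⟩, hmem, hex, hun⟩⟩
  · intro y hy
    obtain ⟨n, hn, h1⟩ := exists_NN_chamber D hx hy
    obtain ⟨y', hy', h2⟩ := hex _ h1
    exact ⟨n, hn, y', hy', h2⟩
  · intro y hy y' hy' n hn h
    have hyX := (hmem y hy).1
    obtain ⟨w, hw, h1⟩ := W_of hn
    have h2 : S.ac n y ∈ Cc D x :=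
      Cc_eqv (hmem y' hy') (((NN_reg hn).2.1 y).2 hyX) (eqv_symm S h)
    have h3 : w y ∈ (rg D hT x hx).Cb := by
      rw [h1 y hyX]
      exact ((Cc_iff hT hx).1 h2).2
    have h4 : w y = y := Cb_fix (rg D hT x hx) ((Cc_iff hT hx).1 (hmem y hy)).2 hw h3
    rw [h1 y hyX] at h4
    rw [h4] at h
    exact hun y hy y' hy' h

namespace K17_aux

theorem cone_iff {D : S.Cs Ω} (hT : D.TaH) {x : E} (hx : S.Reg D.x x) {J : Finset E}
    (hJ : J ⊆ sm D.Psi x) {y : E} : (y ∈ Cc D x ∧ Jy D x y = J) ↔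
      (y ∈ S.X D.x ∧ (∀ a ∈ sm D.Psi x \ J, 0 < inner ℝ a y) ∧ ∀ b ∈ J, inner ℝ b y = 0) := by
  constructor
  · rintro ⟨h1, h2⟩
    refine ⟨h1.1, fun a ha => ?_, fun b hb => ?_⟩
    · obtain ⟨h3, h4⟩ := Finset.mem_sdiff.1 ha
      have h5 := (Finset.mem_filter.1 (Finset.mem_filter.1 h3).1)
      have h6 := h1.2 a h5.1 h5.2
      refine lt_of_le_of_ne h6 fun h7 => h4 ?_
      rw [← h2]
      exact Finset.mem_filter.2 ⟨h3, h7.symm⟩
    · rw [← h2] at hb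
      exact (Finset.mem_filter.1 hb).2
  · rintro ⟨h1, h2, h3⟩
    have h4 : ∀ a ∈ sm D.Psi x, 0 ≤ inner ℝ a y := by
      intro a ha
      by_cases h5 : a ∈ J
      · exact (h3 a h5).ge
      · exact (h2 a (Finset.mem_sdiff.2 ⟨ha, h5⟩)).le
    refine ⟨(Cc_iff hT hx).2 ⟨h1, mem_Cb (rg D hT x hx) h4⟩, ?_⟩
    ext a
    unfold Jy
    rw [Finset.mem_filter]
    constructor
    · rintro ⟨h5, h6⟩
      by_contra h7
      exact absurd h6 (h2 a (Finset.mem_sdiff.2 ⟨h5, h7⟩)).ne'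
    · intro h5
      exact ⟨hJ h5, h3 a h5⟩

end K17_aux

theorem card_J {D : S.Cs Ω} (hT : D.TaH) {x : E} (hx : S.Reg D.x x) {Y : Finset E}
    (hY : TVC D x Y) {J : Finset E} (hJ : J ⊆ sm D.Psi x) :
    Odd (Y.filter fun y => Jy D x y = J).card := by
  have hpt : ∃ y ∈ S.X D.x, (∀ a ∈ sm D.Psi x \ J, 0 < inner ℝ a y) ∧ ∀ b ∈ J, inner ℝ b y = 0 := by
    obtain ⟨y, hy, hyJ⟩ := exists_J (rg D hT x hx) hJ
    have hp : ∀ a ∈ D.Psi, inner ℝ a (D.pj y) = inner ℝ a y := by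
      intro a ha
      have h1 : a ∈ S.X D.x := (of_Psi ha).2.1
      have h2 : y - (S.X D.x).starProjection y ∈ (S.X D.x)ᗮ :=
        Submodule.sub_starProjection_mem_orthogonal y
      have h3 : inner ℝ a (y - (S.X D.x).starProjection y) = 0 :=
        (Submodule.mem_orthogonal _ _).1 h2 a h1
      rw [inner_sub_right] at h3
      exact (sub_eq_zero.1 h3).symm
    have h4 : D.pj y ∈ Cc D x ∧ Jy D x (D.pj y) = J := by
      refine ⟨⟨Submodule.starProjection_apply_mem _ _, fun a ha hax => ?_⟩, ?_⟩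
      · rw [hp a ha]
        exact hy a (Finset.mem_filter.2 ⟨ha, hax⟩)
      · rw [← hyJ]
        ext a
        constructor
        · intro h5
          obtain ⟨h6, h7⟩ := Finset.mem_filter.1 h5
          refine Finset.mem_filter.2 ⟨h6, ?_⟩
          rw [← hp a (Finset.mem_filter.1 (Finset.mem_filter.1 h6).1).1]
          exact h7
        · intro h5
          obtain ⟨h6, h7⟩ := Finset.mem_filter.1 h5
          refine Finset.mem_filter.2 ⟨h6, ?_⟩
          rw [hp a (Finset.mem_filter.1 (Finset.mem_filter.1 h6).1).1]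
          exact h7
    have h5 := (cone_iff hT hx hJ).1 h4
    exact ⟨D.pj y, h5.1, h5.2.1, h5.2.2⟩
  have hodd := sign_parity S.R (sm D.Psi x \ J) J (S.X D.x) hpt
  have hset : sgv S.R '' {y | y ∈ S.X D.x ∧ (∀ a ∈ sm D.Psi x \ J, 0 < inner ℝ a y) ∧
      ∀ b ∈ J, inner ℝ b y = 0} = (((Y.filter fun y => Jy D x y = J).image (sgv S.R) :
        Finset (S.R → SignType)) : Set (S.R → SignType)) := by
    ext s
    constructor
    · rintro ⟨y, hy, rfl⟩
      have h1 := (cone_iff hT hx hJ).2 hy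
      obtain ⟨y', hy', h2⟩ := hY.ex y h1.1
      have h3 : y' ∈ Cc D x := hY.mem y' hy'
      rw [Finset.mem_coe, Finset.mem_image]
      refine ⟨y', Finset.mem_filter.2 ⟨hy', ?_⟩, (eqv_sgv.1 h2).symm⟩
      rw [← h1.2]
      ext a
      unfold Jy
      rw [Finset.mem_filter, Finset.mem_filter]
      constructor
      · rintro ⟨h4, h5⟩
        exact ⟨h4, (Psi_sign (Finset.mem_filter.1 (Finset.mem_filter.1 h4).1).1 h1.1.1 h3.1 h2).2.2 h5⟩
      · rintro ⟨h4, h5⟩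
        exact ⟨h4, (Psi_sign (Finset.mem_filter.1 (Finset.mem_filter.1 h4).1).1 h1.1.1 h3.1 h2).2.1 h5⟩
    · intro hs
      rw [Finset.mem_coe, Finset.mem_image] at hs
      obtain ⟨y, hy, rfl⟩ := hs
      obtain ⟨h1, h2⟩ := Finset.mem_filter.1 hy
      exact ⟨y, (cone_iff hT hx hJ).1 ⟨hY.mem y h1, h2⟩, rfl⟩
  rw [hset, Set.ncard_coe_finset, Finset.card_image_of_injOn] at hodd
  · exact hodd
  · intro y hy y' hy' h
    exact hY.un y (Finset.mem_filter.1 hy).1 y' (Finset.mem_filter.1 hy').1 (eqv_sgv.2 h)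

theorem zero_mem {D : S.Cs Ω} {x : E} {Y : Finset E} (hY : TVC D x Y) :
    ∃ y₀ ∈ Y, (∀ a ∈ S.R, inner ℝ a y₀ = 0) ∧ Jy D x y₀ = sm D.Psi x ∧
      ∀ y ∈ Y, (∀ a ∈ S.R, inner ℝ a y = 0) → y = y₀ := by
  have h0 : (0 : E) ∈ Cc D x :=
    ⟨Submodule.zero_mem _, fun a _ _ => (inner_zero_right a).ge⟩
  obtain ⟨y₀, hy₀, h1⟩ := hY.ex 0 h0
  have h2 : ∀ a ∈ S.R, inner ℝ a y₀ = 0 := by
    intro a ha
    have h3 := congrFun (eqv_sgv.1 h1) ⟨a, ha⟩
    have h4 : SignType.sign (inner ℝ a (0 : E)) = SignType.sign (inner ℝ a y₀) := h3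
    rw [inner_zero_right, sign_zero] at h4
    exact sign_eq_zero_iff.1 h4.symm
  refine ⟨y₀, hy₀, h2, ?_, fun y hy h => ?_⟩
  · unfold Jy
    refine Finset.filter_true_of_mem fun a ha => ?_
    have h3 : a ∈ D.Psi := (Finset.mem_filter.1 (Finset.mem_filter.1 ha).1).1
    exact (Psi_sign h3 h0.1 (hY.mem y₀ hy₀).1 h1).2.1 (inner_zero_right a)
  · refine hY.un y hy y₀ hy₀ ⟨fun a ha h3 => ?_, fun a ha h3 => ?_⟩
    · rw [h a ha] at h3
      exact absurd h3 (lt_irrefl _)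
    · rw [h2 a ha] at h3
      exact absurd h3 (lt_irrefl _)

theorem sum_J {D : S.Cs Ω} (hT : D.TaH) {x : E} (hx : S.Reg D.x x) {Y : Finset E}
    (hY : TVC D x Y) (F : Finset E → ZMod 2) :
    ∑ y ∈ Y.filter (fun y => ∃ a ∈ S.R, inner ℝ a y ≠ 0), F (Jy D x y) =
      ∑ J ∈ (sm D.Psi x).powerset, F J + F (sm D.Psi x) := by
  obtain ⟨y₀, hy₀, h1, h2, h3⟩ := zero_mem hY
  have hall : ∑ y ∈ Y, F (Jy D x y) = ∑ J ∈ (sm D.Psi x).powerset, F J := by
    rw [← Finset.sum_fiberwise_of_maps_to (t := (sm D.Psi x).powerset) (g := fun y => Jy D x y)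
      (fun y _ => Finset.mem_powerset.2 (Finset.filter_subset _ _))]
    refine Finset.sum_congr rfl fun J hJ => ?_
    rw [Finset.sum_congr rfl (g := fun _ => F J)
      (fun y hy => by rw [(Finset.mem_filter.1 hy).2]), Finset.sum_const, nsmul_eq_mul]
    have h4 := card_J hT hx hY (Finset.mem_powerset.1 hJ)
    rw [ZMod.natCast_eq_one_iff_odd.2 h4, one_mul]
  have hcomp : Y.filter (fun y => ¬ ∃ a ∈ S.R, inner ℝ a y ≠ 0) = {y₀} := by
    ext y
    rw [Finset.mem_filter, Finset.mem_singleton]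
    constructor
    · rintro ⟨h4, h5⟩
      refine h3 y h4 fun a ha => ?_
      by_contra h6
      exact h5 ⟨a, ha, h6⟩
    · rintro rfl
      refine ⟨hy₀, ?_⟩
      rintro ⟨a, ha, h4⟩
      exact h4 (h1 a ha)
  have h5 := Finset.sum_filter_add_sum_filter_not Y (fun y => ∃ a ∈ S.R, inner ℝ a y ≠ 0)
    (fun y => F (Jy D x y))
  rw [hcomp, Finset.sum_singleton, h2, hall] at h5
  rw [← h5, add_assoc, CharTwo.add_self_eq_zero, add_zero]

end

end LieP
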