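import Pool.Agent.LieP.O05
import Pool.Agent.LieP.O07
import Pool.Agent.LieP.K01
import Pool.Agent.LieP.H05

/-!
# MP_6c3636_al, LieP, module K18: Lemma H for the members of the series (9.10) (helper69)

Section 9, (9.10). `DH = hd D hD hT c x hx hc`: `DH.e J = D.eJ x J`, `DH.T 1 = D.f x` (`T_one`), `DH.sp = cr S.H (D.f x) (D.f x)` (`T_span`), `DH.g = D.f x * cen S.H D.star`.
`embed`: `ρ` the representation of `φ` (`ir_rep`), `b` a primitive idempotent of type `φ` with `f x * b = b = b * f x` (`exists_prim`), `v₀ ≠ 0` with `op ρ b v₀ = v₀`. For every `v` there is exactly one `a_v ∈ sb Ω S.H` with `a_v * b = a_v` and `op ρ a_v v₀ = v` (existence: `op ρ` is surjective, `a_v = a * b`; uniqueness: if `a = a * b` and `op ρ a v₀ = 0`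
then `op ρ a = 0` as `op ρ b` has rank one, and the other irreducible representations kill `a = a * b`: `al_ext_tr`), so it is linear in `v`. `ι v = f x * a_v` (as a function `Fin 1 → Al Ω G`): in `cr S.H (f x) (f x)`; `a_{op ρ a v} = a * a_v` for `a ∈ sb Ω S.H`; for `a ∈ DH.sp`: `a = a * f x = f x * a`. If `ι v = 0` then `0 = op ρ (f x * a_v) v₀ = op ρ (f x) v`.
`even_sum`: `he_parity` for `π = op ρ`: `π g = 0` as `rk φ (f x * cen S.H D.star) = 0` (`rk_cen`, `cen_mul_eq_zero`); `rk_range`.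
`star_eJ`: `J = ∅`: `he_empty`, `T_one`, `rk_star`. Otherwise `he_g`: `D.eJ x J * (f x * cen S.H D.star) = 0`, so `rk D.star (D.eJ x J) = 0` (`cen_mul_eq_zero`, `cen_comm`).
-/

namespace LieP

noncomputable section

open Classical

variable {Ω : Type} [Field Ω] [IsAlgClosed Ω] [CharZero Ω] {G E : Type} [Group G] [Finite G]
  [NormedAddCommGroup E] [InnerProductSpace ℝ E] [FiniteDimensional ℝ E] {S : LieSys G E}
  {c : Parker.Ctx Ω}

/-- the representation `ρ` of `φ` is embedded in the corner algebra as a module -/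
theorem embed {f : Al Ω G} (hf : f ∈ sb Ω S.H) (hff : f * f = f) {φ : G → Ω} (hφ : φ ∈ ir Ω S.H)
    (h0 : rk φ f ≠ 0) {n : ℕ} {ρ : Representation Ω S.H (Fin n → Ω)} (hρ : ρ.IsIrreducible)
    (hφρ : φ = xt S.H ρ.character)
    (hs : ∀ T : Module.End Ω (Fin n → Ω), ∃ a ∈ sb Ω S.H, op ρ a = T) :
    ∃ ι : (Fin n → Ω) →ₗ[Ω] (Fin 1 → Al Ω G), (∀ v i, ι v i ∈ cr S.H f f) ∧
      (∀ a ∈ cr S.H f f, ∀ v i, ι (op ρ a v) i = a * ι v i) ∧ ∀ v, ι v = 0 → op ρ f v = 0 := by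
  obtain ⟨b, hb, hbb, hfb, hbf, -, -, hb1, hb0, -⟩ := exists_prim hφ hf hff h0
  have hfr : Module.finrank Ω (LinearMap.range (op ρ b)) = 1 := by
    rw [rk_range ρ hb hbb, ← hφρ, hb1]
  obtain ⟨v₀', hv₀', hspan'⟩ := finrank_eq_one_iff'.mp hfr
  obtain ⟨v₀, ⟨u₀, hu₀⟩⟩ := v₀'
  have hspan : ∀ v, ∃ r : Ω, r • v₀ = op ρ b v := by
    intro v
    obtain ⟨r, hr⟩ := hspan' ⟨op ρ b v, v, rfl⟩
    exact ⟨r, congrArg Subtype.val hr⟩
  have hv₀ : v₀ ≠ 0 := fun h => hv₀' (Subtype.ext h)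
  have hbv₀ : op ρ b v₀ = v₀ := by
    rw [← hu₀, ← Module.End.mul_apply, ← op_mul ρ hb hb, hbb]
  -- the module
  let M : Submodule Ω (Al Ω G) :=
    { carrier := {a | a ∈ sb Ω S.H ∧ a * b = a}
      add_mem' := by
        rintro a a' ⟨h1, h2⟩ ⟨h3, h4⟩
        refine ⟨Subalgebra.add_mem _ h1 h3, ?_⟩
        rw [add_mul, h2, h4]
      zero_mem' := ⟨Subalgebra.zero_mem _, zero_mul _⟩
      smul_mem' := by
        rintro r a ⟨h1, h2⟩
        refine ⟨Subalgebra.smul_mem _ h1 r, ?_⟩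
        rw [smul_mul_assoc, h2] }
  let ev : M →ₗ[Ω] (Fin n → Ω) := ((LinearMap.applyₗ v₀).comp (op ρ)).comp M.subtype
  have hev : ∀ a : M, ev a = op ρ (a : Al Ω G) v₀ := fun a => rfl
  have hinj : Function.Injective ev := by
    rw [injective_iff_map_eq_zero]
    rintro ⟨a, ha, hab⟩ h
    rw [hev] at h
    apply Subtype.ext
    show a = 0
    have hop : op ρ a = 0 := by
      refine LinearMap.ext fun v => ?_
      obtain ⟨r, hr⟩ := hspan v
      rw [← hab, op_mul ρ ha hb, Module.End.mul_apply, ← hr, map_smul]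
      have h' : op ρ a v₀ = 0 := h
      rw [h', smul_zero]
      rfl
    refine al_ext_tr ha fun ψ hψ x hx => ?_
    by_cases hne : ψ = φ
    · rw [hne, hφρ, ← op_trace ρ (Subalgebra.mul_mem _ ha hx), op_mul ρ ha hx, hop, zero_mul, map_zero]
    · rw [tr_mul_comm hψ ha hx, ← hab, ← mul_assoc]
      exact tr_zero_of_rk hψ hb hbb (hb0 ψ hψ hne) (Subalgebra.mul_mem _ hx ha)
  have hsurj : Function.Surjective ev := by
    intro v
    obtain ⟨i, hi⟩ : ∃ i, v₀ i ≠ 0 := by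
      by_contra hcon
      push Not at hcon
      exact hv₀ (funext hcon)
    obtain ⟨a, ha, haT⟩ := hs ((LinearMap.proj i).smulRight ((v₀ i)⁻¹ • v))
    refine ⟨⟨a * b, Subalgebra.mul_mem _ ha hb, by rw [mul_assoc, hbb]⟩, ?_⟩
    rw [hev]
    show op ρ (a * b) v₀ = v
    rw [op_mul ρ ha hb, Module.End.mul_apply, hbv₀, haT, LinearMap.smulRight_apply, smul_smul]
    show (v₀ i * (v₀ i)⁻¹) • v = v
    rw [mul_inv_cancel₀ hi, one_smul]
  let e : M ≃ₗ[Ω] (Fin n → Ω) := LinearEquiv.ofBijective ev ⟨hinj, hsurj⟩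
  have he : ∀ v, op ρ ((e.symm v : M) : Al Ω G) v₀ = v := fun v => e.apply_symm_apply v
  have hmem : ∀ v, ((e.symm v : M) : Al Ω G) ∈ sb Ω S.H := fun v => (e.symm v).2.1
  have hmb : ∀ v, ((e.symm v : M) : Al Ω G) * b = ((e.symm v : M) : Al Ω G) := fun v => (e.symm v).2.2
  have hmf : ∀ v, ((e.symm v : M) : Al Ω G) * f = ((e.symm v : M) : Al Ω G) := by
    intro v
    rw [← hmb v, mul_assoc, hbf]
  let ι : (Fin n → Ω) →ₗ[Ω] (Fin 1 → Al Ω G) := LinearMap.pi fun _ =>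
    (LinearMap.mulLeft Ω f).comp (M.subtype.comp (e.symm : (Fin n → Ω) →ₗ[Ω] M))
  have hι : ∀ v i, ι v i = f * ((e.symm v : M) : Al Ω G) := fun v i => rfl
  refine ⟨ι, ?_, ?_, ?_⟩
  · intro v i
    rw [hι]
    refine ⟨((e.symm v : M) : Al Ω G), hmem v, ?_⟩
    show f * (((e.symm v : M) : Al Ω G) * f) = f * ((e.symm v : M) : Al Ω G)
    rw [hmf]
  · rintro a ⟨y, hy, hya⟩ v i
    have hya' : a = f * (y * f) := hya.symm
    have ha : a ∈ sb Ω S.H := by
      rw [hya']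
      exact Subalgebra.mul_mem _ hf (Subalgebra.mul_mem _ hy hf)
    have hfa : f * a = a := by
      rw [hya', ← mul_assoc, hff]
    have haf : a * f = a := by
      rw [hya', mul_assoc, mul_assoc, hff]
    rw [hι, hι]
    have hM : a * ((e.symm v : M) : Al Ω G) ∈ M :=
      ⟨Subalgebra.mul_mem _ ha (hmem v), by rw [mul_assoc, hmb]⟩
    have h1 : e.symm (op ρ a v) = ⟨a * ((e.symm v : M) : Al Ω G), hM⟩ := by
      rw [LinearEquiv.symm_apply_eq]
      show op ρ a v = op ρ (a * ((e.symm v : M) : Al Ω G)) v₀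
      rw [op_mul ρ ha (hmem v), Module.End.mul_apply, he]
    rw [h1]
    show f * (a * ((e.symm v : M) : Al Ω G)) = a * (f * ((e.symm v : M) : Al Ω G))
    rw [← mul_assoc, hfa, ← mul_assoc, haf]
  · intro v hv
    have h1 : f * ((e.symm v : M) : Al Ω G) = 0 := by
      rw [← hι v 0, hv]
      rfl
    rw [← he v, ← Module.End.mul_apply, ← op_mul ρ hf (hmem v), h1, map_zero]
    rfl

variable (h2 : c.av 2 < 1) {D : S.Cs Ω} (hD : D.gnr) (hT : D.TaH) {x : E} (hx : S.Reg D.x x)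
  (hc : ∀ a ∈ sm D.Psi x, c.av (D.p x a) < 1 ∧ 1 + D.p x a ≠ 0)

include h2 hD hT hx hc

theorem even_sum {φ : G → Ω} (hφ : φ ∈ ir Ω S.H) (h0 : rk φ (D.f x) ≠ 0) (hne : φ ≠ D.star) :
    Even (∑ J ∈ (sm D.Psi x).powerset, rk φ (D.eJ x J)) := by
  obtain ⟨n, ρ, hirr, hφρ, hs, -, -⟩ := ir_rep hφ
  have hf := f_mem D x
  have hff := f_idem D hx
  obtain ⟨ι, hι1, hι2, hι3⟩ := embed hf hff hφ h0 hirr hφρ hs
  have hsp : (hd D hD hT c x hx hc).sp = cr S.H (D.f x) (D.f x) := by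
    rw [← T_span hD hx]
    show Submodule.span Ω (D.T x '' (D.W : Set (E ≃ₗᵢ[ℝ] E))) = _
    rw [Set.image_eq_range]
    rfl
  have hcr : ∀ a ∈ cr S.H (D.f x) (D.f x), a ∈ sb Ω S.H := by
    rintro a ⟨y, hy, hya⟩
    have hya' : a = D.f x * (y * D.f x) := hya.symm
    rw [hya']
    exact Subalgebra.mul_mem _ hf (Subalgebra.mul_mem _ hy hf)
  have hst := star_ir hD
  have hg0 : op ρ (D.f x * cen S.H D.star) = 0 := by
    have hgm : cen S.H D.star * D.f x ∈ sb Ω S.H := Subalgebra.mul_mem _ (cen_mem _ hst) hf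
    have hgg : cen S.H D.star * D.f x * (cen S.H D.star * D.f x) = cen S.H D.star * D.f x := by
      rw [mul_assoc, ← mul_assoc (D.f x) (cen S.H D.star), ← cen_comm hst hf, mul_assoc, hff,
        ← mul_assoc, cen_idem hst]
    have h1 : rk φ (cen S.H D.star * D.f x) = 0 := by
      rw [rk_cen hst hφ hf hff, if_neg hne]
    have h2 := rk_range ρ hgm hgg
    rw [← hφρ, h1, Submodule.finrank_eq_zero, LinearMap.range_eq_bot] at h2
    rw [← cen_comm hst hf, h2]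
  have key := he_parity (hd D hD hT c x hx hc) h2 (op ρ) (op_one ρ)
    (fun a ha b hb => op_mul ρ (hcr a (hsp ▸ ha)) (hcr b (hsp ▸ hb))) ι
    (fun v i => hsp ▸ hι1 v i) (fun a ha v i => hι2 a (hsp ▸ ha) v i)
    (fun v hv => by
      have h3 := hι3 v hv
      show op ρ (D.T x 1) v = 0
      rw [T_one hD hx]
      exact h3) hg0
  have h4 : ∑ J ∈ (sm D.Psi x).powerset, rk φ (D.eJ x J) =
      ∑ J ∈ (rg D hT x hx).S.powerset,
        Module.finrank Ω (LinearMap.range (op ρ ((hd D hD hT c x hx hc).e J))) := by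
    refine Finset.sum_congr rfl fun J hJ => ?_
    have hJ' : J ⊆ D.Psi := by
      intro a ha
      have := Finset.mem_powerset.mp hJ ha
      exact (Finset.mem_filter.mp (Finset.mem_filter.mp this).1).1
    obtain ⟨h5, h6, -, -⟩ := eJ_abs hD hx hJ'
    rw [hd_e, rk_range ρ h5 h6, ← hφρ]
  rw [h4]
  exact key

omit h2 in
theorem star_eJ {J : Finset E} (hJ : J ⊆ sm D.Psi x) :
    rk D.star (D.eJ x J) = if J = ∅ then 1 else 0 := by
  by_cases h : J = ∅
  · rw [if_pos h, h, eJ_empty hD hT hx hc, rk_star hD hx]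
  · rw [if_neg h]
    exact rk_star_eJ hD hT hx hc hJ (Finset.nonempty_iff_ne_empty.mpr h)

end

end LieP
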