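import Pool.Agent.LieP.K14
import Pool.Agent.LieP.K16
import Pool.Agent.LieP.K17
import Pool.Agent.LieP.K18

/-!
# MP_6c3636_al, LieP, module K19: the member of odd degree (9.10), the induction (helper69)

Section 9, (9.10). `dg_eJ`: `parity` for a transversal in the closed chamber (`exists_TVC`), `mt_eJ`, `sum_J` with `F J = rk φ (D.eJ x J)`: `dg φ = gen φ + ∑_J rk φ (e_J) + rk φ (e_S)` modulo `2`. `φ ≠ D.star`: `gen φ = 0` (`LieSys.Cs.star_spec`), `even_sum`. `φ = D.star`: `gen φ = 1`, `star_eJ`: the sum is `1`.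
`exists_odd`: `he_S`, `he_ne`, `he_idem`, `he_sp` for `hd`: `e_S` is an idempotent of `sb Ω S.H` with `e_S a e_S` a multiple of `e_S` for all `a` (`e_S a e_S = e_S (f a f) e_S`), `prim_unique`: exactly one `φ₀` with `rk φ₀ e_S = 1`, the others have rank `0`. `φ₀ ∈ D.Ser`: `rk_le`, `rk_f`. So `φ₀` is the only member of `D.Ser` of odd degree (`dg_eJ`).
`f_cen_odd`: `a = D.f x * cen S.H φ₀` is an idempotent of the span. `e_S` is central in the span (`he_S`). In the representation `ρ` of `φ₀` (`ir_rep`): `F = op ρ (f x)`, `P = op ρ e_S`, `P = P F = F P`, `P ≠ 0`, `P` commutes with all `F T F` (`T` any endomorphism, `he_S`). If `F v = v`, choose `w ≠ 0` with `P w = w` and `T` with `T w = v`: `P v = P (F T F) w = (F T F) P w = v`. So `P = F`, and `a = e_S` by `al_ext_tr` (both are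
killed by the other characters: `cen_mul_cen`, `rk`). Or: `rk φ₀ (f x) = 1` and `rk_sub`-type argument: `a - e_S` is an idempotent of rank `0` for all characters (`rk_add`, `eq_zero_of_rk`).
`ts_step`: `taH`, `tc_all`, `exists_odd`, `f_cen_odd` (the member of odd degree does not depend on `x`: it is the only one). `ts_all`: strong induction on `Nat.card S.H` (`card_lt`; `(lev S y).H = S.L y`).
-/

namespace LieP

noncomputable section

open Classical

variable {Ω : Type} [Field Ω] [IsAlgClosed Ω] [CharZero Ω] {G E : Type} [Group G] [Finite G]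
  [NormedAddCommGroup E] [InnerProductSpace ℝ E] [FiniteDimensional ℝ E] {S : LieSys G E}
  {c : Parker.Ctx Ω}

theorem K19_aux.sm_sub {D : S.Cs Ω} {x : E} : sm D.Psi x ⊆ D.Psi := fun _ h =>
  (Finset.mem_filter.1 (Finset.mem_filter.1 h).1).1

theorem dg_eJ (h2 : c.av 2 < 1) (IH : ∀ y, (∃ a ∈ S.R, inner ℝ a y ≠ 0) → TS (lev S y) c)
    {D : S.Cs Ω} (hD : D.gnr) {x : E} (hx : S.Reg D.x x) {φ : G → Ω} (hφ : φ ∈ D.Ser) :
    (Parker.dg φ : ZMod 2) = (rk φ (D.eJ x (sm D.Psi x)) : ZMod 2) := by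
  have hT : D.TaH := taH IH hD
  have hc : ∀ a ∈ sm D.Psi x, c.av (D.p x a) < 1 ∧ 1 + D.p x a ≠ 0 :=
    fun a ha => tc_all h2 IH hD hx ha
  have hφ' := mem_Ser.1 hφ
  obtain ⟨Y, hY⟩ := exists_TVC hT hx
  have h1 := parity IH hD hY.tv hφ
  have h3 : ∑ y ∈ Y.filter (fun y => ∃ a ∈ S.R, inner ℝ a y ≠ 0),
      (mt (S.L y) φ (S.e Ω y) (od D y) : ZMod 2) =
      ∑ y ∈ Y.filter (fun y => ∃ a ∈ S.R, inner ℝ a y ≠ 0),
        (fun J : Finset E => (rk φ (D.eJ x J) : ZMod 2)) (Jy D x y) := by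
    refine Finset.sum_congr rfl fun y hy => ?_
    have hy' := Finset.mem_filter.1 hy
    rw [mt_eJ IH hD hT hx (hY.mem y hy'.1) hy'.2 hφ'.1]
  have h3' := h3.trans (sum_J hT hx hY (fun J : Finset E => (rk φ (D.eJ x J) : ZMod 2)))
  rw [h1, h3']
  by_cases hs : φ = D.star
  · have h4 : ∑ J ∈ (sm D.Psi x).powerset, (rk φ (D.eJ x J) : ZMod 2) = 1 := by
      have h5 : ∀ J ∈ (sm D.Psi x).powerset, (rk φ (D.eJ x J) : ZMod 2) = if J = ∅ then 1 else 0 := by
        intro J hJ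
        rw [hs, star_eJ hD hT hx hc (Finset.mem_powerset.1 hJ)]
        split_ifs
        · exact Nat.cast_one
        · exact Nat.cast_zero
      rw [Finset.sum_congr rfl h5, Finset.sum_ite_eq' , if_pos (Finset.empty_mem_powerset _)]
    have h5 : S.gen φ = 1 := by rw [hs]; exact (LieSys.Cs.star_spec D hD).2.1
    rw [h4, h5, Nat.cast_one, ← add_assoc, show (1 : ZMod 2) + 1 = 0 from by decide, zero_add]
  · have h4 : S.gen φ = 0 := by
      by_contra h5
      exact hs ((LieSys.Cs.star_spec D hD).2.2.2 φ hφ h5)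
    have h5 : rk φ (D.f x) ≠ 0 := by
      rw [rk_f hx hφ'.1]
      exact hφ'.2
    have h6 := even_sum h2 hD hT hx hc hφ'.1 h5 hs
    have h7 : ∑ J ∈ (sm D.Psi x).powerset, (rk φ (D.eJ x J) : ZMod 2) = 0 := by
      rw [← Nat.cast_sum]
      exact ZMod.natCast_eq_zero_iff_even.2 h6
    rw [h7, h4, Nat.cast_zero, zero_add, zero_add]

theorem exists_odd (h2 : c.av 2 < 1) (IH : ∀ y, (∃ a ∈ S.R, inner ℝ a y ≠ 0) → TS (lev S y) c)
    {D : S.Cs Ω} (hD : D.gnr) {x : E} (hx : S.Reg D.x x) :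
    ∃ φ ∈ D.Ser, Odd (Parker.dg φ) ∧ (∀ ψ ∈ D.Ser, Odd (Parker.dg ψ) → ψ = φ) ∧
      rk φ (D.eJ x (sm D.Psi x)) = 1 ∧ ∀ ψ ∈ ir Ω S.H, ψ ≠ φ → rk ψ (D.eJ x (sm D.Psi x)) = 0 := by
  have hT : D.TaH := taH IH hD
  have hc : ∀ a ∈ sm D.Psi x, c.av (D.p x a) < 1 ∧ 1 + D.p x a ≠ 0 :=
    fun a ha => tc_all h2 IH hD hx ha
  obtain ⟨he1, he2, he3, he4⟩ := eJ_abs hD hx (K19_aux.sm_sub (D := D) (x := x))
  obtain ⟨φ, hφ, h1, h0⟩ := prim_unique he1 he2 (eJ_ne hD hT hx hc (Finset.Subset.refl _))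
    (fun a ha => eJ_prim hD hT hx hc ha)
  have hφS : φ ∈ D.Ser := by
    refine mem_Ser.2 ⟨hφ, ?_⟩
    rw [← rk_f hx hφ]
    have h3 := rk_le hφ he1 he2 (f_mem D x) (f_idem D hx) he4 he3
    omega
  refine ⟨φ, hφS, ?_, ?_, h1, h0⟩
  · apply ZMod.natCast_eq_one_iff_odd.1
    rw [dg_eJ h2 IH hD hx hφS, h1, Nat.cast_one]
  · intro ψ hψ hodd
    by_contra hne
    have h3 := dg_eJ h2 IH hD hx hψ
    rw [h0 ψ (mem_Ser.1 hψ).1 hne, Nat.cast_zero] at h3
    exact (Nat.not_even_iff_odd.2 hodd) (ZMod.natCast_eq_zero_iff_even.1 h3)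

theorem f_cen_odd (h2 : c.av 2 < 1) (IH : ∀ y, (∃ a ∈ S.R, inner ℝ a y ≠ 0) → TS (lev S y) c)
    {D : S.Cs Ω} (hD : D.gnr) {x : E} (hx : S.Reg D.x x) {φ : G → Ω} (hφ : φ ∈ ir Ω S.H)
    (h1 : rk φ (D.eJ x (sm D.Psi x)) = 1)
    (h0 : ∀ ψ ∈ ir Ω S.H, ψ ≠ φ → rk ψ (D.eJ x (sm D.Psi x)) = 0) :
    D.f x * cen S.H φ = D.eJ x (sm D.Psi x) := by
  have hT : D.TaH := taH IH hD
  have hc : ∀ a ∈ sm D.Psi x, c.av (D.p x a) < 1 ∧ 1 + D.p x a ≠ 0 :=
    fun a ha => tc_all h2 IH hD hx ha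
  obtain ⟨he1, he2, he3, he4⟩ := eJ_abs hD hx (K19_aux.sm_sub (D := D) (x := x))
  set e := D.eJ x (sm D.Psi x) with he
  set z := cen S.H φ with hz
  have hzm : z ∈ sb Ω S.H := cen_mem φ hφ
  have hzz : z * z = z := cen_idem hφ
  have hfm : D.f x ∈ sb Ω S.H := f_mem D x
  have hff : D.f x * D.f x = D.f x := f_idem D hx
  have hzf : z * D.f x = D.f x * z := cen_comm hφ hfm
  -- `z * e = e`
  have hze : z * e = e := by
    have h3 : e = ∑ ψ ∈ ir Ω S.H, cen S.H ψ * e := by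
      rw [← Finset.sum_mul, sum_cen, one_mul]
    have h4 : ∑ ψ ∈ ir Ω S.H, cen S.H ψ * e = z * e := by
      refine Finset.sum_eq_single φ (fun ψ hψ hne => ?_) (fun h => absurd hφ h)
      exact (cen_mul_eq_zero hψ he1 he2).2 (h0 ψ hψ hne)
    rw [← h4, ← h3]
  have hez : e * z = e := by rw [← cen_comm hφ he1]; exact hze
  -- the idempotent `b`
  set b := D.f x * z - e with hb
  have hbm : b ∈ sb Ω S.H := (sb Ω S.H).sub_mem ((sb Ω S.H).mul_mem hfm hzm) he1
  have h3 : D.f x * z * (D.f x * z) = D.f x * z := by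
    calc D.f x * z * (D.f x * z) = D.f x * (z * D.f x) * z := by simp only [mul_assoc]
      _ = (D.f x * D.f x) * (z * z) := by rw [hzf]; simp only [mul_assoc]
      _ = D.f x * z := by rw [hff, hzz]
  have h4 : D.f x * z * e = e := by rw [mul_assoc, hze, he3]
  have h5 : e * (D.f x * z) = e := by rw [← mul_assoc, he4, hez]
  have hbb : b * b = b := by
    rw [hb, mul_sub, sub_mul, sub_mul, h3, h4, h5, he2]
    abel
  have hzb : z * b = b := by
    rw [hb, mul_sub, hze, ← mul_assoc, hzf, mul_assoc, hzz]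
  -- `e * a * b = 0`
  have heab : ∀ a ∈ sb Ω S.H, e * a * b = 0 := by
    intro a ha
    have h6 : D.f x * a * D.f x ∈ (hd D hD hT c x hx hc).sp := by
      have h7 : D.f x * a * D.f x ∈ cr S.H (D.f x) (D.f x) := by
        refine ⟨a, ha, ?_⟩
        show D.f x * (a * D.f x) = _
        rw [mul_assoc]
      rw [← T_span hD hx] at h7
      refine Submodule.span_mono ?_ h7
      rintro _ ⟨w, rfl⟩
      exact ⟨w, w.2, rfl⟩
    obtain ⟨r, hr1, -⟩ := he_S (hd D hD hT c x hx hc) h6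
    have hr : e * (D.f x * a * D.f x) = r • e := hr1
    have h7 : e * a * D.f x = r • e := by
      calc e * a * D.f x = e * D.f x * a * D.f x := by rw [he4]
        _ = e * (D.f x * a * D.f x) := by simp only [mul_assoc]
        _ = r • e := hr
    have h8 : e * a * (D.f x * z) = r • e := by
      rw [← mul_assoc, h7, smul_mul_assoc, hez]
    have h9 : e * a * e = r • e := by
      calc e * a * e = e * a * D.f x * e := by rw [mul_assoc (e * a), he3]
        _ = r • e := by rw [h7, smul_mul_assoc, he2]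
    rw [hb, mul_sub, h8, h9, sub_self]
  have hb0 : b = 0 := by
    apply eq_zero_of_rk hbm hbb
    intro ψ hψ
    by_cases hne : ψ = φ
    · subst hne
      by_contra h6
      obtain ⟨a, ha, h7⟩ := (exists_common he1 he2 hbm hbb).2 ⟨ψ, hψ, by rw [h1]; exact one_ne_zero, h6⟩
      exact h7 (heab a ha)
    · have h6 := rk_cen hφ hψ hbm hbb
      rw [if_neg hne, ← hz, hzb] at h6
      exact h6
  exact sub_eq_zero.1 hb0

theorem ts_step (h2 : c.av 2 < 1) (IH : ∀ y, (∃ a ∈ S.R, inner ℝ a y ≠ 0) → TS (lev S y) c) :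
    TS S c := by
  refine ⟨fun D hD => taH IH hD, fun D hD => ?_, fun D hD x hx a ha => tc_all h2 IH hD hx ha⟩
  obtain ⟨φ, hφ, hodd, huniq, -, -⟩ := exists_odd h2 IH hD (reg_refl S D.x)
  refine ⟨φ, hφ, hodd, huniq, fun x hx => ?_⟩
  obtain ⟨φ', hφ', hodd', -, h1, h0⟩ := exists_odd h2 IH hD hx
  obtain rfl := huniq φ' hφ' hodd'
  exact f_cen_odd h2 IH hD hx (mem_Ser.1 hφ').1 h1 h0

/-- the theorem of section 9 -/
theorem ts_all (h2 : c.av 2 < 1) (S : LieSys G E) : TS S c := by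
  induction hn : Nat.card S.H using Nat.strong_induction_on generalizing S with
  | _ n ih =>
  apply ts_step h2
  intro y hy
  exact ih (Nat.card (lev S y).H) (by rw [← hn]; exact card_lt S hy) (lev S y) rfl

end

end LieP
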