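import Pool.Agent.LieP.G10
import Pool.Agent.LieP.A02

/-!
# MP_6c3636_al, LieP, module M01: the idempotents e x (3.1), (3.2) (helper7)

Section 3. `S.e k x = av k (S.U x)`. `e_comm`: `av_comm`, `s4`. `dl_e`: `av_conj`, `conj_U`. `e_cm`: `U (cm y x) = U y (U x ⊓ L y)` (`mem_U_cm`), `av_eq_mul` (and the same with the factors in the other order: `L y` normalizes `U y`).
`e_mul_cm`: `av (U x ⊓ L y) * e x = e x`.
-/

namespace LieP

noncomputable section

open Classical

variable {G E : Type} [Group G] [Finite G] [NormedAddCommGroup E] [InnerProductSpace ℝ E]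
  [FiniteDimensional ℝ E] {S : LieSys G E} {k : Type} [Field k] [CharZero k]

theorem e_idem (x : E) : S.e k x * S.e k x = S.e k x := by
  exact av_idem _

theorem e_mem (x : E) : S.e k x ∈ sb k S.H := by
  exact av_mem (S.UH x)

theorem st_e (x : E) : st (S.e k x) = S.e k x := by
  exact st_av _

theorem e_ne (x : E) : S.e k x ≠ 0 := by
  exact av_ne_zero _

theorem e_comm {x : E} {a : Al k G} (ha : a ∈ sb k (S.L x)) : a * S.e k x = S.e k x * a := by
  exact av_comm (fun l hl u hu => S.s4 x l hl u hu) ha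

theorem e_eqv {x y : E} (h : S.eqv x y) : S.e k x = S.e k y := by
  unfold LieSys.e
  rw [U_eqv S h]

theorem e_zero {x : E} (h : ∀ a ∈ S.R, inner ℝ a x = 0) : S.e k x = 1 := by
  have h1 : S.eqv x 0 := by
    rw [eqv_iff]
    intro a ha
    rw [h a ha, inner_zero_right]
  rw [e_eqv h1]
  unfold LieSys.e
  rw [U_zero, av_bot]

theorem dl_e {n : G} (hn : n ∈ S.N) (x : E) : dl n * S.e k x = S.e k (S.ac n x) * dl n := by
  unfold LieSys.e
  have h1 : dl n * av k (S.U x) * dl n⁻¹ = av k (S.U (S.ac n x)) :=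
    av_conj (fun l => conj_U S hn)
  rw [← h1, mul_assoc (dl n * av k (S.U x)), ← dl_mul, inv_mul_cancel, dl_one, mul_one]

theorem e_le {x y : E} (h : S.le x y) : S.e k x * S.e k y = S.e k y ∧ S.e k y * S.e k x = S.e k y := by
  exact ⟨av_mul_av (U_mono S h), av_mul_av' (U_mono S h)⟩

theorem e_cm (y x : E) : S.e k (S.cm y x) = S.e k y * av k (S.U x ⊓ S.L y) ∧
    S.e k (S.cm y x) = av k (S.U x ⊓ S.L y) * S.e k y := by
  have hA : S.U y ≤ S.U (S.cm y x) := U_mono S (le_cm S y x)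
  have hB : S.U x ⊓ S.L y ≤ S.U (S.cm y x) := by
    rw [← U_cm_L]
    exact inf_le_left
  constructor
  · symm
    refine av_eq_mul' hA hB (fun g hg => ?_)
    obtain ⟨a, ha, b, hb, hb', h⟩ := (mem_U_cm S).1 hg
    exact ⟨a, ha, b, ⟨hb, hb'⟩, h⟩
  · symm
    refine av_eq_mul' hB hA (fun g hg => ?_)
    obtain ⟨a, ha, b, hb, hb', h⟩ := (mem_U_cm S).1 hg
    refine ⟨b, ⟨hb, hb'⟩, b⁻¹ * a * b, ?_, ?_⟩
    · have h1 := S.s4 y b⁻¹ ((S.L y).inv_mem hb') a ha
      rwa [inv_inv] at h1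
    · rw [h]
      group

theorem e_mul_cm (y x : E) : S.e k y * S.e k x = S.e k (S.cm y x) * S.e k x ∧
    S.e k x * S.e k y = S.e k x * S.e k (S.cm y x) := by
  constructor
  · rw [(e_cm y x).1, mul_assoc]
    congr 1
    exact (av_mul_av inf_le_left).symm
  · rw [(e_cm y x).2, ← mul_assoc]
    congr 1
    exact (av_mul_av' inf_le_left).symm

/-- for a face `y` of `x` -/
theorem e_face {x y : E} (h : S.le y x) : S.e k x = S.e k y * (lev S y).e k x ∧
    S.e k x = (lev S y).e k x * S.e k y := by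
  have h1 : S.e k x = S.e k (S.cm y x) := (e_eqv (cm_eqv S h)).symm
  rw [h1]
  exact e_cm y x

end

end LieP
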