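import Pool.Agent.LieP.M01

/-!
# MP_6c3636_al, LieP, module M02: betweenness, traces (3.3) - (3.5) (helper7)

Section 3. `split`: for `Reg x y` (so `L x = L y`) an element of `U y` is `a b c` with `a ∈ U x`, `b ∈ L x`, `c ∈ U (-x)`, all in `U y` (`s6` with `z = 0`), `b ∈ L y ⊓ U y = 1`. `U y ⊓ U x ⊓ U (-x) = 1`. `av_eq_mul`.
`between`: `e y = av (U y ⊓ U x) * av (U y ⊓ U (-x))`, and `U y ⊓ U (-x) ≤ U z` by `s1`. `t_ee`: `t (e x * e y * b) = ∑ (|U x| |U y|)⁻¹ b(l)` over `(u,u',l)` with `u u' l = 1`: `u⁻¹ = u' l = l (l⁻¹ u' l)`, so `l ∈ U x` (`s5U` for `y`: `l ∈ L y`, `l⁻¹ u' l ∈ U y`), `l = 1` (`U_L_disj`), `u' = u⁻¹`.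
`t_ee_n`: otherwise `u u' l n = 1`, `l ∈ L x`: `n⁻¹ = u u' l`; `u = a b`, `a ∈ U x ⊓ U (-y)`, `b ∈ U x ⊓ U y` (`split` as sets), so `n⁻¹ = a (b u') l = a l (..)`, in `U (-y) · L y · U y`, so `ac n⁻¹ y = y` (`s8`), `n ∈ L y = L x`.
-/

namespace LieP

noncomputable section

open Classical

variable {G E : Type} [Group G] [Finite G] [NormedAddCommGroup E] [InnerProductSpace ℝ E]
  [FiniteDimensional ℝ E] {S : LieSys G E} {k : Type} [Field k] [CharZero k]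

theorem split {x y : E} (h : S.Reg x y) {u : G} (hu : u ∈ S.U y) :
    ∃ a ∈ S.U y ⊓ S.U x, ∃ c ∈ S.U y ⊓ S.U (-x), u = a * c := by
  have h0 : u ∈ S.U y ⊓ S.L 0 := by
    refine ⟨hu, ?_⟩
    rw [S.s3]
    exact S.UH y hu
  obtain ⟨a, ha, b, hb, c, hc, hax, hbx, hcx, heq⟩ := S.s6 x y 0 u h0
  have hbL : b ∈ S.L y := by
    rw [← L_reg S h]
    exact hbx
  have hb1 : b = 1 := U_L_disj S hb.1 hbL
  refine ⟨a, ⟨ha.1, hax⟩, c, ⟨hc.1, hcx⟩, ?_⟩
  rw [heq, hb1, mul_one]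

theorem e_split {x y : E} (h : S.Reg x y) :
    S.e k y = av k (S.U y ⊓ S.U x) * av k (S.U y ⊓ S.U (-x)) ∧
      S.e k y = av k (S.U y ⊓ S.U (-x)) * av k (S.U y ⊓ S.U x) := by
  constructor
  · exact av_eq_mul inf_le_left inf_le_left (fun g hg => split h hg)
      (fun g hg hg' => U_neg_disj S hg.2 hg'.2)
  · refine av_eq_mul inf_le_left inf_le_left (fun g hg => ?_)
      (fun g hg hg' => U_neg_disj S hg'.2 hg.2)
    obtain ⟨a, ha, c, hc, heq⟩ := split h ((S.U y).inv_mem hg)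
    refine ⟨c⁻¹, Subgroup.inv_mem _ hc, a⁻¹, Subgroup.inv_mem _ ha, ?_⟩
    rw [← _root_.mul_inv_rev, ← heq, inv_inv]

theorem between {x y z : E} (hxy : S.Reg x y) (hxz : S.Reg x z)
    (h : ∀ a ∈ S.R, 0 < inner ℝ a y → 0 < inner ℝ a x ∨ 0 < inner ℝ a z) :
    S.e k x * S.e k y * S.e k z = S.e k x * S.e k z := by
  have h1 : S.U y ⊓ S.U (-x) ≤ S.U z := by
    intro g hg
    have hg0 : g ∈ S.L 0 := by
      rw [S.s3]
      exact S.UH y hg.1
    refine S.s1 y (-x) z 0 (fun a ha _ h2 h3 => ?_) g hg.1 hg.2 hg0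
    rcases h a ha h2 with h4 | h4
    · rw [inner_neg_right] at h3
      linarith
    · exact h4
  have h2 : S.e k x * av k (S.U y ⊓ S.U x) = S.e k x := av_mul_av' inf_le_right
  have h3 : av k (S.U y ⊓ S.U (-x)) * S.e k z = S.e k z := av_mul_av h1
  rw [(e_split (k := k) hxy).1, ← mul_assoc, h2, mul_assoc, h3]

private theorem coeff_ee (x y : E) (g : G) :
    (S.e k x * S.e k y).coeff g =
      (Nat.card {u : G // u ∈ S.U x ∧ u⁻¹ * g ∈ S.U y} : k) *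
        ((Nat.card (S.U x) : k) * (Nat.card (S.U y) : k))⁻¹ := by
  letI : Fintype G := Fintype.ofFinite G
  rw [coeff_mul_fin]
  have h1 : ∀ u : G, (S.e k x).coeff u * (S.e k y).coeff (u⁻¹ * g) =
      if u ∈ S.U x ∧ u⁻¹ * g ∈ S.U y then
        ((Nat.card (S.U x) : k) * (Nat.card (S.U y) : k))⁻¹ else 0 := by
    intro u
    have h2 : (S.e k x).coeff u = if u ∈ S.U x then (Nat.card (S.U x) : k)⁻¹ else 0 :=
      coeff_av (S.U x) u
    have h3 : (S.e k y).coeff (u⁻¹ * g) =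
        if u⁻¹ * g ∈ S.U y then (Nat.card (S.U y) : k)⁻¹ else 0 := coeff_av (S.U y) (u⁻¹ * g)
    rw [h2, h3]
    by_cases ha : u ∈ S.U x
    · by_cases hb : u⁻¹ * g ∈ S.U y
      · rw [if_pos ha, if_pos hb, if_pos ⟨ha, hb⟩, mul_inv]
      · have hc : ¬ (u ∈ S.U x ∧ u⁻¹ * g ∈ S.U y) := fun h => hb h.2
        rw [if_neg hb, if_neg hc, mul_zero]
    · have hc : ¬ (u ∈ S.U x ∧ u⁻¹ * g ∈ S.U y) := fun h => ha h.1
      rw [if_neg ha, if_neg hc, zero_mul]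
  have h4 : Nat.card {u : G // u ∈ S.U x ∧ u⁻¹ * g ∈ S.U y} =
      (Finset.univ.filter fun u : G => u ∈ S.U x ∧ u⁻¹ * g ∈ S.U y).card := by
    rw [Nat.card_eq_fintype_card, Fintype.card_subtype]
  rw [Finset.sum_congr rfl (fun u _ => h1 u), ← Finset.sum_filter, Finset.sum_const, nsmul_eq_mul,
    h4]

theorem t_ee {x y : E} (hxy : S.Reg x y) {b : Al k G} (hb : b ∈ sb k (S.L x)) :
    t (S.e k x * S.e k y * b) = (Nat.card (S.U x ⊓ S.U y : Subgroup G) : k) *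
      ((Nat.card (S.U x) : k) * (Nat.card (S.U y) : k))⁻¹ * t b := by
  refine sb_induction (p := fun b => t (S.e k x * S.e k y * b) =
    (Nat.card (S.U x ⊓ S.U y : Subgroup G) : k) *
      ((Nat.card (S.U x) : k) * (Nat.card (S.U y) : k))⁻¹ * t b) ?_ ?_ ?_ hb
  · rw [mul_zero, t_zero, mul_zero]
  · intro a b ha hb'
    rw [mul_add, t_add, t_add, ha, hb', mul_add]
  · intro r l hl
    rw [mul_smul_comm, t_smul, t_smul, t_mul_dl, coeff_ee]
    by_cases h1 : l = 1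
    · subst h1
      have h2 : t (dl (1 : G) : Al k G) = 1 := by
        unfold t
        rw [coeff_dl, if_pos rfl]
      have h3 : Nat.card {u : G // u ∈ S.U x ∧ u⁻¹ * (1 : G)⁻¹ ∈ S.U y} =
          Nat.card (S.U x ⊓ S.U y : Subgroup G) := by
        refine Nat.card_congr (Equiv.subtypeEquivRight fun u => ?_)
        rw [inv_one, mul_one, Subgroup.mem_inf, Subgroup.inv_mem_iff]
      rw [h2, h3]
      ring
    · have h2 : t (dl l : Al k G) = 0 := by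
        unfold t
        rw [coeff_dl, if_neg (fun h => h1 h.symm)]
      have h3 : Nat.card {u : G // u ∈ S.U x ∧ u⁻¹ * l⁻¹ ∈ S.U y} = 0 := by
        have : IsEmpty {u : G // u ∈ S.U x ∧ u⁻¹ * l⁻¹ ∈ S.U y} := by
          refine ⟨fun u => ?_⟩
          obtain ⟨u, hu, hv⟩ := u
          have hlx : l⁻¹ ∈ S.L x := (S.L x).inv_mem hl
          have hly : l⁻¹ ∈ S.L y := by
            rw [← L_reg S hxy]
            exact hlx
          have h4 : l⁻¹ * (u⁻¹ * l⁻¹)⁻¹ ∈ S.U x := by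
            have h5 : l⁻¹ * (u⁻¹ * l⁻¹)⁻¹ = u := by group
            rw [h5]
            exact hu
          have h6 : l⁻¹ ∈ S.U x := S.s5U y x l⁻¹ hly _ ((S.U y).inv_mem hv) h4
          exact h1 (inv_eq_one.1 (U_L_disj S h6 hlx))
        exact Nat.card_of_isEmpty
      rw [h2, h3, Nat.cast_zero, zero_mul, mul_zero, mul_zero]

theorem t_ee_n {x y : E} (hxy : S.Reg x y) {n : G} (hn : n ∈ S.N)
    (hnL : ∀ l, l ∈ S.L x ↔ n * l * n⁻¹ ∈ S.L x) (hn' : n ∉ S.L x) {b : Al k G} (hb : b ∈ sb k (S.L x)) :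
    t (S.e k x * S.e k y * b * dl n) = 0 := by
  refine sb_induction (p := fun b => t (S.e k x * S.e k y * b * dl n) = 0) ?_ ?_ ?_ hb
  · rw [mul_zero, zero_mul, t_zero]
  · intro a b ha hb'
    rw [mul_add, add_mul, t_add, ha, hb', add_zero]
  · intro r l hl
    rw [mul_smul_comm, smul_mul_assoc, t_smul, mul_assoc, ← dl_mul, t_mul_dl, coeff_ee]
    have h3 : Nat.card {u : G // u ∈ S.U x ∧ u⁻¹ * (l * n)⁻¹ ∈ S.U y} = 0 := by
      have : IsEmpty {u : G // u ∈ S.U x ∧ u⁻¹ * (l * n)⁻¹ ∈ S.U y} := by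
        refine ⟨fun u => ?_⟩
        obtain ⟨u, hu, hv⟩ := u
        have hLxy : S.L x = S.L y := L_reg S hxy
        have hly : l ∈ S.L y := by
          rw [← hLxy]
          exact hl
        obtain ⟨a, ha, c, hc, hac⟩ := split (reg_symm S hxy) ((S.U x).inv_mem hu)
        have h4 : a⁻¹ * (u⁻¹ * (l * n)⁻¹) ∈ S.U y := (S.U y).mul_mem ((S.U y).inv_mem ha.2) hv
        have h5 : l⁻¹ * (a⁻¹ * (u⁻¹ * (l * n)⁻¹)) * l⁻¹⁻¹ ∈ S.U y :=
          (L_conj S ((S.L y).inv_mem hly)).2 h4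
        have hu' : u = c⁻¹ * a⁻¹ := by
          rw [← _root_.mul_inv_rev, ← hac, inv_inv]
        have h6 : n⁻¹ = c⁻¹ * l * (l⁻¹ * (a⁻¹ * (u⁻¹ * (l * n)⁻¹)) * l⁻¹⁻¹) := by
          rw [hu']
          group
        have h7 : S.ac n⁻¹ y = y := S.s8 n⁻¹ (S.N.inv_mem hn) y
          ⟨c⁻¹, (S.U (-y)).inv_mem hc.2, l, hly, _, h5, h6⟩
        have h8 : n⁻¹ ∈ S.L y := S.s8' n⁻¹ (S.N.inv_mem hn) y h7
        rw [← hLxy] at h8
        exact hn' ((S.L x).inv_mem_iff.1 h8)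
      exact Nat.card_of_isEmpty
    rw [h3, Nat.cast_zero, zero_mul, mul_zero]

end

end LieP
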