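import Pool.Agent.LieP.M02

/-!
# MP_6c3636_al, LieP, module M03: cuspidal idempotents (helper7)

Section 4. `D.f x = e x * ε`; for `Reg D.x x` `L x = L D.x`, so `ε` commutes with `e x` (`e_comm`). `t_eps`: `t ε ≠ 0`: `a ↦ a ε` is a projection of the space `sb k (L D.x)` onto a nonzero subspace, its trace is `|L| t ε` (or: if `t ε = 0` then, as `ε a ε` is a multiple of `ε`, `t (a ε) = t (ε a ε) = 0` for all `a`, so `ε = 0` by `t_nondeg_sb`).
`stD`: the idempotent `ε*`; `lft` and `rgt` are exchanged by `st`.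
`f_ne`: `t (e x * ε) ≠ 0` (`t_ee` with `x = y`).
-/

namespace LieP

noncomputable section

open Classical

variable {G E : Type} [Group G] [Finite G] [NormedAddCommGroup E] [InnerProductSpace ℝ E]
  [FiniteDimensional ℝ E] {S : LieSys G E} {k : Type} [Field k] [CharZero k]

theorem M03_aux.st_zero : st (0 : Al k G) = 0 := by
  have := st_smul (0 : k) (0 : Al k G)
  rwa [zero_smul, zero_smul] at this

theorem M03_aux.mem_L (D : S.Cs k) {x : E} (hx : S.Reg D.x x) : D.ε ∈ sb k (S.L x) := by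
  have h := D.mem
  rwa [L_reg S hx] at h

theorem eps_mem_H (D : S.Cs k) : D.ε ∈ sb k S.H := sb_mono (S.LH D.x) D.mem

theorem f_mem (D : S.Cs k) (x : E) : D.f x ∈ sb k S.H := mul_mem (e_mem x) (eps_mem_H D)

theorem f_comm (D : S.Cs k) {x : E} (hx : S.Reg D.x x) : D.f x = D.ε * S.e k x :=
  (e_comm (M03_aux.mem_L D hx)).symm

theorem f_idem (D : S.Cs k) {x : E} (hx : S.Reg D.x x) : D.f x * D.f x = D.f x := by
  have h1 : D.f x * D.f x = S.e k x * (D.ε * S.e k x) * D.ε := by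
    unfold LieSys.Cs.f
    simp only [mul_assoc]
  rw [h1, e_comm (M03_aux.mem_L D hx)]
  calc S.e k x * (S.e k x * D.ε) * D.ε = (S.e k x * S.e k x) * (D.ε * D.ε) := by simp only [mul_assoc]
    _ = D.f x := by rw [e_idem, D.idem]; rfl

theorem f_abs (D : S.Cs k) {x : E} (hx : S.Reg D.x x) : S.e k x * D.f x = D.f x ∧
    D.f x * S.e k x = D.f x ∧ D.ε * D.f x = D.f x ∧ D.f x * D.ε = D.f x := by
  refine ⟨?_, ?_, ?_, ?_⟩
  · unfold LieSys.Cs.f
    rw [← mul_assoc, e_idem]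
  · rw [f_comm D hx, mul_assoc, e_idem]
  · rw [f_comm D hx, ← mul_assoc, D.idem]
  · unfold LieSys.Cs.f
    rw [mul_assoc, D.idem]

theorem f_eqv (D : S.Cs k) {x y : E} (h : S.eqv x y) : D.f x = D.f y := by
  unfold LieSys.Cs.f
  rw [e_eqv h]

theorem t_eps (D : S.Cs k) : t D.ε ≠ 0 := by
  intro h0
  apply D.ne
  refine t_nondeg_sb D.mem fun b hb => ?_
  obtain ⟨r, hr⟩ := D.prim b hb
  have h1 : t (D.ε * b) = t (D.ε * b * D.ε) := by
    rw [t_mul_comm (D.ε * b) D.ε, ← mul_assoc, D.idem]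
  rw [h1, hr, t_smul, h0, mul_zero]

theorem t_ee_eps (D : S.Cs k) {x y : E} (hx : S.Reg D.x x) (hy : S.Reg D.x y) :
    t (S.e k x * S.e k y * D.ε) ≠ 0 := by
  rw [t_ee (reg_trans S (reg_symm S hx) hy) (M03_aux.mem_L D hx)]
  refine mul_ne_zero (mul_ne_zero ?_ (inv_ne_zero (mul_ne_zero ?_ ?_))) (t_eps D)
  · exact Nat.cast_ne_zero.mpr Nat.card_pos.ne'
  · exact Nat.cast_ne_zero.mpr Nat.card_pos.ne'
  · exact Nat.cast_ne_zero.mpr Nat.card_pos.ne'

theorem f_ne (D : S.Cs k) {x : E} (hx : S.Reg D.x x) : D.f x ≠ 0 := by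
  intro h0
  apply t_ee_eps D hx hx
  rw [e_idem]
  have h1 : S.e k x * D.ε = 0 := h0
  rw [h1, t_zero]

/-- the idempotent `ε*` -/
def stD (D : S.Cs k) : S.Cs k where
  x := D.x
  ε := st D.ε
  mem := st_mem.mpr D.mem
  idem := by rw [← st_mul, D.idem]
  ne := by
    intro h
    apply D.ne
    rw [← st_st D.ε, h, M03_aux.st_zero]
  prim := by
    intro a ha
    obtain ⟨r, hr⟩ := D.prim (st a) (st_mem.mpr ha)
    refine ⟨r, ?_⟩
    rw [← st_smul, ← hr, st_mul, st_mul, st_st, mul_assoc]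
  lft := by
    intro y hy a ha
    have h1 := congrArg st (D.rgt y hy (st a) (st_mem.mpr ha))
    rw [st_mul, st_mul, st_st, st_av, M03_aux.st_zero, ← mul_assoc] at h1
    exact h1
  rgt := by
    intro y hy a ha
    have h1 := congrArg st (D.lft y hy (st a) (st_mem.mpr ha))
    rw [st_mul, st_mul, st_st, st_av, M03_aux.st_zero, ← mul_assoc] at h1
    exact h1

theorem stD_x (D : S.Cs k) : (stD D).x = D.x := rfl

theorem stD_eps (D : S.Cs k) : (stD D).ε = st D.ε := rfl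

theorem st_f (D : S.Cs k) {x : E} (hx : S.Reg D.x x) : st (D.f x) = (stD D).f x := by
  unfold LieSys.Cs.f
  rw [st_mul, st_e, stD_eps]
  exact e_comm (M03_aux.mem_L (stD D) hx)

end

end LieP
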