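import Pool.Agent.LieP.M03
import Pool.Agent.LieP.A08

/-!
# MP_6c3636_al, LieP, module M04: the lines of the operators (4.1) (helper7)

Section 4, (4.1). `lin D' D n` is the space `ε' k[L'] n ε`. Let `n ∈ N(ε',ε)`. `e'' = n ε n⁻¹` is an idempotent of `sb k L'` with `e'' a e'' ∈ k e''`, and `ε' a e'' ≠ 0` for some `a ∈ sb k L'`; `t (ε' a e'' b) ≠ 0` for some `b` (`t_nondeg_sb`), so `ε' a e'' b ε' ≠ 0`:
`prim_equiv'` (A08) applies to `ε'`, `e''` (hypothesis `h0` of it: the product `ε' a e'' b ε'` is not zero). So there are `x ∈ cr L' ε' e''`, `y ∈ cr L' e'' ε'`, `x y = ε'`, `y x = e''`. `c = x n`, `c' = n⁻¹ y`. `b ∈ lin`: `b = c (c' b)`, `c' b ∈ ε sb(L) ε = k ε`.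
`NN_mul`: `c_m c_n ≠ 0` is in `lin D'' D (m n)`.
-/

namespace LieP

noncomputable section

open Classical

variable {G E : Type} [Group G] [Finite G] [NormedAddCommGroup E] [InnerProductSpace ℝ E]
  [FiniteDimensional ℝ E] {S : LieSys G E} {k : Type} [Field k] [CharZero k]

namespace M04_aux

theorem dd (n : G) : (dl n : Al k G) * dl n⁻¹ = 1 := by
  rw [← dl_mul, mul_inv_cancel, dl_one]

theorem dd' (n : G) : (dl n⁻¹ : Al k G) * dl n = 1 := by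
  rw [← dl_mul, inv_mul_cancel, dl_one]

theorem cancel_l (n : G) (a : Al k G) : dl n * (dl n⁻¹ * a) = a := by
  rw [← mul_assoc, dd, one_mul]

theorem cancel_l' (n : G) (a : Al k G) : dl n⁻¹ * (dl n * a) = a := by
  rw [← mul_assoc, dd', one_mul]

theorem conj_inv {H H' : Subgroup G} {n : G} (h : ∀ l, l ∈ H ↔ n * l * n⁻¹ ∈ H') :
    ∀ l, l ∈ H' ↔ n⁻¹ * l * n⁻¹⁻¹ ∈ H := by
  intro l
  rw [h (n⁻¹ * l * n⁻¹⁻¹)]
  have h1 : n * (n⁻¹ * l * n⁻¹⁻¹) * n⁻¹ = l := by group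
  rw [h1]

theorem conj_mem' {H H' : Subgroup G} {n : G} (h : ∀ l, l ∈ H ↔ n * l * n⁻¹ ∈ H') {a : Al k G}
    (ha : a ∈ sb k H') : dl n⁻¹ * a * dl n ∈ sb k H := by
  have h1 := conj_mem (conj_inv h) ha
  rwa [inv_inv] at h1

theorem st_zero : st (0 : Al k G) = 0 := by
  have h := st_smul (0 : k) (0 : Al k G)
  rwa [zero_smul, zero_smul] at h

end M04_aux

/-- the space of the operators of `n` -/
def lin (D' D : S.Cs k) (n : G) : Set (Al k G) :=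
  {b | ∃ a ∈ sb k (S.L D'.x), b = D'.ε * a * dl n * D.ε}

theorem lin_zero (D' D : S.Cs k) (n : G) : (0 : Al k G) ∈ lin D' D n := by
  exact ⟨0, (sb k (S.L D'.x)).zero_mem, by rw [mul_zero, zero_mul, zero_mul]⟩

theorem lin_add {D' D : S.Cs k} {n : G} {b c : Al k G} (hb : b ∈ lin D' D n) (hc : c ∈ lin D' D n) :
    b + c ∈ lin D' D n := by
  obtain ⟨a, ha, rfl⟩ := hb
  obtain ⟨a', ha', rfl⟩ := hc
  exact ⟨a + a', (sb k (S.L D'.x)).add_mem ha ha', by rw [mul_add, add_mul, add_mul]⟩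

theorem lin_smul {D' D : S.Cs k} {n : G} {b : Al k G} (r : k) (hb : b ∈ lin D' D n) :
    r • b ∈ lin D' D n := by
  obtain ⟨a, ha, rfl⟩ := hb
  exact ⟨r • a, (sb k (S.L D'.x)).smul_mem ha r, by
    rw [mul_smul_comm, smul_mul_assoc, smul_mul_assoc]⟩

theorem lin_abs {D' D : S.Cs k} {n : G} {b : Al k G} (hb : b ∈ lin D' D n) :
    D'.ε * b = b ∧ b * D.ε = b := by
  obtain ⟨a, ha, rfl⟩ := hb
  constructor
  · rw [← mul_assoc, ← mul_assoc, ← mul_assoc, D'.idem]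
  · rw [mul_assoc, D.idem]

theorem lin_mem {D' D : S.Cs k} {n : G} (hn : n ∈ S.H) {b : Al k G} (hb : b ∈ lin D' D n) :
    b ∈ sb k S.H := by
  obtain ⟨a, ha, rfl⟩ := hb
  exact (sb k S.H).mul_mem ((sb k S.H).mul_mem ((sb k S.H).mul_mem (eps_mem_H D')
    (sb_mono (S.LH D'.x) ha)) (dl_mem.2 hn)) (eps_mem_H D)

theorem NN_H {D' D : S.Cs k} {n : G} (hn : n ∈ D'.NN D) : n ∈ S.N ∧ n ∈ S.H := by
  exact ⟨hn.1, S.NH hn.1⟩

theorem NN_L {D : S.Cs k} {n : G} (hn : n ∈ S.N) (hL : n ∈ S.L D.x) : n ∈ D.NN D := by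
  refine ⟨hn, fun l => ⟨fun hl => ?_, fun hl => ?_⟩, dl n⁻¹, dl_mem.2 ((S.L D.x).inv_mem hL), ?_⟩
  · exact (S.L D.x).mul_mem ((S.L D.x).mul_mem hL hl) ((S.L D.x).inv_mem hL)
  · have h1 := (S.L D.x).mul_mem ((S.L D.x).mul_mem ((S.L D.x).inv_mem hL) hl) hL
    have h2 : n⁻¹ * (n * l * n⁻¹) * n = l := by group
    rwa [h2] at h1
  · rw [mul_assoc D.ε, M04_aux.dd', mul_one, D.idem]
    exact D.ne

theorem NN_reg {D' D : S.Cs k} {n : G} (hn : n ∈ D'.NN D) : S.Reg D'.x (S.ac n D.x) ∧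
    (∀ y, S.ac n y ∈ S.X D'.x ↔ y ∈ S.X D.x) ∧ ∀ y, S.Reg D'.x (S.ac n y) ↔ S.Reg D.x y := by
  obtain ⟨h1, h2⟩ := norm_X S hn.1 hn.2.1
  refine ⟨h1, h2, fun y => ⟨fun h => ?_, fun h => ?_⟩⟩
  · exact (ac_reg S hn.1).1 (reg_trans S (reg_symm S h1) h)
  · exact reg_trans S h1 ((ac_reg S hn.1).2 h)

theorem NN_cn {D' D : S.Cs k} {n : G} (hn : n ∈ D'.NN D) : ∃ c ∈ lin D' D n, ∃ c' ∈ lin D D' n⁻¹,
    c * c' = D'.ε ∧ c' * c = D.ε ∧ ∀ b ∈ lin D' D n, ∃ r : k, b = r • c := by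
  obtain ⟨hN, hL, a, ha, hne⟩ := hn
  have m2 : dl n * D.ε * dl n⁻¹ ∈ sb k (S.L D'.x) := conj_mem hL D.mem
  have i2 : dl n * D.ε * dl n⁻¹ * (dl n * D.ε * dl n⁻¹) = (dl n * D.ε * dl n⁻¹ : Al k G) := by
    calc dl n * D.ε * dl n⁻¹ * (dl n * D.ε * dl n⁻¹)
        = dl n * D.ε * (dl n⁻¹ * (dl n * (D.ε * dl n⁻¹))) := by simp only [mul_assoc]
      _ = dl n * (D.ε * D.ε) * dl n⁻¹ := by rw [M04_aux.cancel_l']; simp only [mul_assoc]
      _ = dl n * D.ε * dl n⁻¹ := by rw [D.idem]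
  have p2 : ∀ x ∈ sb k (S.L D'.x), ∃ r : k, dl n * D.ε * dl n⁻¹ * x * (dl n * D.ε * dl n⁻¹) =
      r • (dl n * D.ε * dl n⁻¹ : Al k G) := by
    intro x hx
    obtain ⟨r, hr⟩ := D.prim _ (M04_aux.conj_mem' hL hx)
    refine ⟨r, ?_⟩
    calc dl n * D.ε * dl n⁻¹ * x * (dl n * D.ε * dl n⁻¹)
        = dl n * (D.ε * (dl n⁻¹ * x * dl n) * D.ε) * dl n⁻¹ := by simp only [mul_assoc]
      _ = r • (dl n * D.ε * dl n⁻¹) := by rw [hr, mul_smul_comm, smul_mul_assoc]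
  have h1 : D'.ε * a * (dl n * D.ε * dl n⁻¹) ≠ 0 := by
    intro h0
    apply hne
    calc D'.ε * a * dl n * D.ε = D'.ε * a * (dl n * D.ε * (dl n⁻¹ * dl n)) := by
          rw [M04_aux.dd', mul_one]; simp only [mul_assoc]
      _ = D'.ε * a * (dl n * D.ε * dl n⁻¹) * dl n := by simp only [mul_assoc]
      _ = 0 := by rw [h0, zero_mul]
  have h2 : D'.ε * a * (dl n * D.ε * dl n⁻¹) ∈ sb k (S.L D'.x) :=
    (sb k (S.L D'.x)).mul_mem ((sb k (S.L D'.x)).mul_mem D'.mem ha) m2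
  have h3 : ∃ b ∈ sb k (S.L D'.x), t (D'.ε * a * (dl n * D.ε * dl n⁻¹) * b) ≠ 0 := by
    by_contra h4
    push Not at h4
    exact h1 (t_nondeg_sb h2 h4)
  obtain ⟨b, hb, htb⟩ := h3
  have h5 : D'.ε * a * (dl n * D.ε * dl n⁻¹) * b * D'.ε ≠ 0 := by
    intro h0
    apply htb
    have h6 : D'.ε * a * (dl n * D.ε * dl n⁻¹) * b =
        D'.ε * (D'.ε * a * (dl n * D.ε * dl n⁻¹) * b) := by
      simp only [← mul_assoc]
      rw [D'.idem]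
    rw [h6, t_mul_comm, h0, t_zero]
  obtain ⟨x, hx, y, hy, hxy, hyx⟩ := prim_equiv' D'.mem D'.idem m2 i2 D'.prim p2
    ⟨a, ha, b, hb, h5⟩
  obtain ⟨z, hz, hzx⟩ := hx
  obtain ⟨w, hw, hwy⟩ := hy
  have hz' : z ∈ sb k (S.L D'.x) := hz
  have hw' : w ∈ sb k (S.L D'.x) := hw
  have hx1 : x = D'.ε * (z * (dl n * D.ε * dl n⁻¹)) := hzx.symm
  have hy1 : y = dl n * D.ε * dl n⁻¹ * (w * D'.ε) := hwy.symm
  have c1 : x * dl n = D'.ε * z * dl n * D.ε := by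
    rw [hx1]
    simp only [mul_assoc]
    rw [M04_aux.dd', mul_one]
  have c2 : dl n⁻¹ * y = D.ε * (dl n⁻¹ * w * dl n) * dl n⁻¹ * D'.ε := by
    rw [hy1]
    simp only [mul_assoc]
    rw [M04_aux.cancel_l', M04_aux.cancel_l]
  have l1 : x * dl n ∈ lin D' D n := ⟨z, hz', c1⟩
  refine ⟨x * dl n, l1, dl n⁻¹ * y, ⟨_, M04_aux.conj_mem' hL hw', c2⟩, ?_, ?_, ?_⟩
  · rw [mul_assoc, M04_aux.cancel_l, hxy]
  · rw [mul_assoc, ← mul_assoc y, hyx]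
    simp only [mul_assoc]
    rw [M04_aux.dd', mul_one, M04_aux.cancel_l']
  · intro b' hb'
    have hb1 := lin_abs hb'
    obtain ⟨a', ha', hb2⟩ := hb'
    obtain ⟨r, hr⟩ := D.prim ((dl n⁻¹ * w * dl n) * (dl n⁻¹ * (D'.ε * a') * dl n))
      ((sb k (S.L D.x)).mul_mem (M04_aux.conj_mem' hL hw')
        (M04_aux.conj_mem' hL ((sb k (S.L D'.x)).mul_mem D'.mem ha')))
    refine ⟨r, ?_⟩
    have h7 : dl n⁻¹ * y * b' = r • D.ε := by
      rw [c2, ← hr]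
      nth_rewrite 1 [hb2]
      calc D.ε * (dl n⁻¹ * w * dl n) * dl n⁻¹ * D'.ε * (D'.ε * a' * dl n * D.ε)
          = D.ε * (dl n⁻¹ * w * dl n) * dl n⁻¹ * ((D'.ε * D'.ε) * a' * dl n * D.ε) := by
            simp only [mul_assoc]
        _ = D.ε * (dl n⁻¹ * w * dl n * (dl n⁻¹ * (D'.ε * a') * dl n)) * D.ε := by
            rw [D'.idem]
            simp only [mul_assoc]
    have h8 : x * dl n * (dl n⁻¹ * y) = D'.ε := by rw [mul_assoc, M04_aux.cancel_l, hxy]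
    calc b' = x * dl n * (dl n⁻¹ * y) * b' := by rw [h8, hb1.1]
      _ = x * dl n * (dl n⁻¹ * y * b') := by rw [mul_assoc]
      _ = r • (x * dl n * D.ε) := by rw [h7, mul_smul_comm]
      _ = r • (x * dl n) := by rw [(lin_abs l1).2]

theorem NN_inv {D' D : S.Cs k} {n : G} (hn : n ∈ D'.NN D) : n⁻¹ ∈ D.NN D' := by
  obtain ⟨c, hc, c', hc', h1, h2, -⟩ := NN_cn hn
  refine ⟨S.N.inv_mem hn.1, M04_aux.conj_inv hn.2.1, ?_⟩
  have h3 : c' ≠ 0 := by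
    intro h0
    rw [h0, mul_zero] at h1
    exact D'.ne h1.symm
  obtain ⟨a, ha, rfl⟩ := hc'
  exact ⟨a, ha, h3⟩

theorem lin_mul {D'' D' D : S.Cs k} {m n : G} (hm : m ∈ D''.NN D') (hn : n ∈ D'.NN D) {b c : Al k G}
    (hb : b ∈ lin D'' D' m) (hc : c ∈ lin D' D n) :
    b * c ∈ lin D'' D (m * n) ∧ (b ≠ 0 → c ≠ 0 → b * c ≠ 0) := by
  constructor
  · obtain ⟨a, ha, rfl⟩ := hb
    obtain ⟨a', ha', rfl⟩ := hc
    refine ⟨a * (dl m * (D'.ε * a') * dl m⁻¹), (sb k (S.L D''.x)).mul_mem ha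
      (conj_mem hm.2.1 ((sb k (S.L D'.x)).mul_mem D'.mem ha')), ?_⟩
    calc D''.ε * a * dl m * D'.ε * (D'.ε * a' * dl n * D.ε)
        = D''.ε * a * dl m * ((D'.ε * D'.ε) * a' * dl n * D.ε) := by simp only [mul_assoc]
      _ = D''.ε * a * dl m * (D'.ε * a' * (dl m⁻¹ * (dl m * (dl n * D.ε)))) := by
          rw [D'.idem, M04_aux.cancel_l']
          simp only [mul_assoc]
      _ = D''.ε * (a * (dl m * (D'.ε * a') * dl m⁻¹)) * dl (m * n) * D.ε := by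
          rw [dl_mul]
          simp only [mul_assoc]
  · intro hb0 hc0
    obtain ⟨c1, hc1, c1', hc1', h1, h2, h3⟩ := NN_cn hm
    obtain ⟨c2, hc2, c2', hc2', h4, h5, h6⟩ := NN_cn hn
    obtain ⟨r, hr⟩ := h3 b hb
    obtain ⟨s, hs⟩ := h6 c hc
    have hr0 : r ≠ 0 := by
      rintro rfl
      rw [zero_smul] at hr
      exact hb0 hr
    have hs0 : s ≠ 0 := by
      rintro rfl
      rw [zero_smul] at hs
      exact hc0 hs
    intro h0
    rw [hr, hs, smul_mul_assoc, mul_smul_comm, smul_smul] at h0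
    have h7 : c1 * c2 = 0 := (smul_eq_zero.1 h0).resolve_left (mul_ne_zero hr0 hs0)
    have h8 : c1 = 0 := by
      calc c1 = c1 * D'.ε := (lin_abs hc1).2.symm
        _ = c1 * c2 * c2' := by rw [← h4, mul_assoc]
        _ = 0 := by rw [h7, zero_mul]
    rw [h8, zero_mul] at h1
    exact D''.ne h1.symm

theorem NN_mul {D'' D' D : S.Cs k} {m n : G} (hm : m ∈ D''.NN D') (hn : n ∈ D'.NN D) :
    m * n ∈ D''.NN D := by
  obtain ⟨c1, hc1, c1', hc1', h1, h2, h3⟩ := NN_cn hm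
  obtain ⟨c2, hc2, c2', hc2', h4, h5, h6⟩ := NN_cn hn
  have n1 : c1 ≠ 0 := by
    rintro rfl
    rw [zero_mul] at h1
    exact D''.ne h1.symm
  have n2 : c2 ≠ 0 := by
    rintro rfl
    rw [zero_mul] at h4
    exact D'.ne h4.symm
  obtain ⟨h7, h8⟩ := lin_mul hm hn hc1 hc2
  refine ⟨S.N.mul_mem hm.1 hn.1, fun l => ?_, ?_⟩
  · rw [hn.2.1 l, hm.2.1 (n * l * n⁻¹)]
    have h9 : m * (n * l * n⁻¹) * m⁻¹ = m * n * l * (m * n)⁻¹ := by group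
    rw [h9]
  · have h9 := h8 n1 n2
    obtain ⟨a, ha, h10⟩ := h7
    rw [h10] at h9
    exact ⟨a, ha, h9⟩

/-- a nonzero element of the line is invertible -/
theorem lin_unit {D' D : S.Cs k} {n : G} (hn : n ∈ D'.NN D) {b : Al k G} (hb : b ∈ lin D' D n)
    (h0 : b ≠ 0) : ∃ c ∈ lin D D' n⁻¹, b * c = D'.ε ∧ c * b = D.ε ∧ c ≠ 0 := by
  obtain ⟨c, hc, c', hc', h1, h2, h3⟩ := NN_cn hn
  obtain ⟨r, hr⟩ := h3 b hb
  have hr0 : r ≠ 0 := by
    rintro rfl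
    rw [zero_smul] at hr
    exact h0 hr
  have e1 : b * (r⁻¹ • c') = D'.ε := by
    rw [hr, smul_mul_assoc, mul_smul_comm, smul_smul, mul_inv_cancel₀ hr0, one_smul, h1]
  refine ⟨r⁻¹ • c', lin_smul _ hc', e1, ?_, ?_⟩
  · rw [hr, smul_mul_assoc, mul_smul_comm, smul_smul, inv_mul_cancel₀ hr0, one_smul, h2]
  · intro h4
    rw [h4, mul_zero] at e1
    exact D'.ne e1.symm

theorem lin_smul_eq {D' D : S.Cs k} {n : G} (hn : n ∈ D'.NN D) {b c : Al k G} (hb : b ∈ lin D' D n)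
    (hc : c ∈ lin D' D n) (h0 : c ≠ 0) : ∃ r : k, b = r • c := by
  obtain ⟨c0, hc0, c', hc', h1, h2, h3⟩ := NN_cn hn
  obtain ⟨r, hr⟩ := h3 b hb
  obtain ⟨s, hs⟩ := h3 c hc
  have hs0 : s ≠ 0 := by
    rintro rfl
    rw [zero_smul] at hs
    exact h0 hs
  exact ⟨r * s⁻¹, by rw [hr, hs, smul_smul, mul_assoc, inv_mul_cancel₀ hs0, mul_one]⟩

theorem lin_eps {D : S.Cs k} {b : Al k G} {n : G} (hn : n ∈ S.N) (hL : n ∈ S.L D.x)
    (hb : b ∈ lin D D n) : ∃ r : k, b = r • D.ε := by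
  obtain ⟨a, ha, rfl⟩ := hb
  obtain ⟨r, hr⟩ := D.prim (a * dl n) ((sb k (S.L D.x)).mul_mem ha (dl_mem.2 hL))
  exact ⟨r, by rw [← hr]; simp only [mul_assoc]⟩

theorem lin_congr {D' D : S.Cs k} {m n : G} (hn : n ∈ D'.NN D) (h : n⁻¹ * m ∈ S.L D.x) (hm : m ∈ S.N) :
    lin D' D m = lin D' D n ∧ m ∈ D'.NN D := by
  have hlN : n⁻¹ * m ∈ S.N := S.N.mul_mem (S.N.inv_mem hn.1) hm
  have h1 : n⁻¹ * m ∈ D.NN D := NN_L hlN h
  have e1 : n * (n⁻¹ * m) = m := by group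
  have h2 : m ∈ D'.NN D := by
    have h3 := NN_mul hn h1
    rwa [e1] at h3
  have key : ∀ l : G, l ∈ S.L D.x → D.ε ∈ lin D D l := by
    intro l hl
    refine ⟨dl l⁻¹, dl_mem.2 ((S.L D.x).inv_mem hl), ?_⟩
    rw [mul_assoc D.ε, M04_aux.dd', mul_one, D.idem]
  refine ⟨Set.Subset.antisymm (fun b hb => ?_) (fun b hb => ?_), h2⟩
  · have h3 : (n⁻¹ * m)⁻¹ ∈ D.NN D := NN_inv h1
    have h4 := (lin_mul h2 h3 hb (key _ ((S.L D.x).inv_mem h))).1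
    have e2 : m * (n⁻¹ * m)⁻¹ = n := by group
    rw [(lin_abs hb).2, e2] at h4
    exact h4
  · have h4 := (lin_mul hn h1 hb (key _ h)).1
    rw [(lin_abs hb).2, e1] at h4
    exact h4

theorem lin_e {D' D : S.Cs k} {n : G} (hn : n ∈ D'.NN D) {b : Al k G} (hb : b ∈ lin D' D n) {x : E}
    (hx : S.Reg D.x x) : b * S.e k x = S.e k (S.ac n x) * b := by
  have h1 : S.L D.x = S.L x := L_reg S hx
  have h2 : S.L D'.x = S.L (S.ac n x) := L_reg S (((NN_reg hn).2.2 x).2 hx)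
  obtain ⟨a, ha, rfl⟩ := hb
  have h3 : D.ε * S.e k x = S.e k x * D.ε := e_comm (by rw [← h1]; exact D.mem)
  have h4 : D'.ε * a * S.e k (S.ac n x) = S.e k (S.ac n x) * (D'.ε * a) :=
    e_comm (by rw [← h2]; exact (sb k (S.L D'.x)).mul_mem D'.mem ha)
  calc D'.ε * a * dl n * D.ε * S.e k x = D'.ε * a * (dl n * S.e k x) * D.ε := by
        rw [mul_assoc _ D.ε, h3]
        simp only [mul_assoc]
    _ = D'.ε * a * S.e k (S.ac n x) * dl n * D.ε := by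
        rw [dl_e hn.1]
        simp only [mul_assoc]
    _ = S.e k (S.ac n x) * (D'.ε * a * dl n * D.ε) := by
        rw [h4]
        simp only [mul_assoc]

theorem f_lin_f {D' D : S.Cs k} {n : G} (hn : n ∈ D'.NN D) {b : Al k G} (hb : b ∈ lin D' D n) {x y : E}
    (hx : S.Reg D.x x) (hy : S.Reg D'.x y) :
    D'.f y * b * D.f x = S.e k y * S.e k (S.ac n x) * b := by
  have h1 := lin_e hn hb hx
  have h2 := lin_abs hb
  show S.e k y * D'.ε * b * (S.e k x * D.ε) = _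
  calc S.e k y * D'.ε * b * (S.e k x * D.ε) = S.e k y * ((D'.ε * b) * S.e k x) * D.ε := by
        simp only [mul_assoc]
    _ = S.e k y * S.e k (S.ac n x) * (b * D.ε) := by
        rw [h2.1, h1]
        simp only [mul_assoc]
    _ = S.e k y * S.e k (S.ac n x) * b := by rw [h2.2]

theorem st_lin {D' D : S.Cs k} {n : G} (hn : n ∈ D'.NN D) {b : Al k G} (hb : b ∈ lin D' D n) :
    st b ∈ lin (stD D) (stD D') n⁻¹ := by
  obtain ⟨a, ha, rfl⟩ := hb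
  refine ⟨dl n⁻¹ * st a * dl n, M04_aux.conj_mem' hn.2.1 (st_mem.2 ha), ?_⟩
  rw [stD_eps, stD_eps]
  simp only [st_mul, st_dl, mul_assoc]
  rw [M04_aux.cancel_l]

theorem NN_st {D' D : S.Cs k} {n : G} : n ∈ D'.NN D ↔ n⁻¹ ∈ (stD D).NN (stD D') := by
  constructor
  · intro hn
    refine ⟨S.N.inv_mem hn.1, M04_aux.conj_inv hn.2.1, ?_⟩
    obtain ⟨a, ha, h1⟩ := hn.2.2
    refine ⟨dl n⁻¹ * st a * dl n, M04_aux.conj_mem' hn.2.1 (st_mem.2 ha), ?_⟩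
    intro h0
    apply h1
    have h2 := congrArg st h0
    rw [M04_aux.st_zero] at h2
    rw [← h2, stD_eps, stD_eps]
    simp only [st_mul, st_dl, st_st, inv_inv, mul_assoc]
    rw [M04_aux.cancel_l]
  · intro hn
    have h3 : ∀ l, l ∈ S.L D.x ↔ n * l * n⁻¹ ∈ S.L D'.x := by
      have h4 := M04_aux.conj_inv hn.2.1
      rw [inv_inv] at h4
      exact h4
    refine ⟨by rw [← inv_inv n]; exact S.N.inv_mem hn.1, h3, ?_⟩
    obtain ⟨a, ha, h1⟩ := hn.2.2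
    have ha' : a ∈ sb k (S.L D.x) := ha
    refine ⟨dl n * st a * dl n⁻¹, conj_mem h3 (st_mem.2 ha'), ?_⟩
    intro h0
    apply h1
    have h2 := congrArg st h0
    rw [M04_aux.st_zero] at h2
    rw [← h2, stD_eps, stD_eps]
    simp only [st_mul, st_dl, st_st, inv_inv, mul_assoc]
    rw [M04_aux.cancel_l']

theorem Ta_st (D : S.Cs k) (a : E) : (stD D).Ta a ↔ D.Ta a := by
  have key : ∀ v ∈ S.N, ∀ x, S.ac v x = x → S.ac v⁻¹ x = x := by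
    intro v hv x hx
    have h1 := ac_inv_apply S hv x
    rwa [hx] at h1
  constructor
  · rintro ⟨h1, h2, v, hv, h3, h4⟩
    have hv' : v⁻¹ ∈ D.NN D := NN_st.2 (by rw [inv_inv]; exact hv)
    exact ⟨h1, h2, v⁻¹, hv', fun h => h3 (by rw [← inv_inv v]; exact (S.L D.x).inv_mem h),
      fun x hx h0 => key v hv.1 x (h4 x hx h0)⟩
  · rintro ⟨h1, h2, v, hv, h3, h4⟩
    exact ⟨h1, h2, v⁻¹, NN_st.1 hv, fun h => h3 (by rw [← inv_inv v]; exact (S.L D.x).inv_mem h),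
      fun x hx h0 => key v hv.1 x (h4 x hx h0)⟩

end

end LieP
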