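import Pool.Agent.LieP.M04

/-!
# MP_6c3636_al, LieP, module M05: the Mackey formula (4.2) (helper7)

Section 4, (4.2). `y ≤ z'`, `x ≤ z` generic (`exists_gn_ge`), `g = u l n l' u'` (`s9` for `z', z`); `u l ∈ P z' ≤ P y`, `l' u' ∈ P z ≤ P x` (`P_mono`): `g = (u₁ l₁) n (l₂ u₂)`, `u₁ ∈ U y`, `l₁ ∈ L y = L'`, `l₂ ∈ L`, `u₂ ∈ U x`. `f'_y g f_x = ε' e_y l₁ n l₂ e_x ε`.
`e_y l₁ n l₂ e_x ε = l₁ e_y e_{nx} n l₂ ε` and `e_y = e_y av (U y ⊓ L (n x))`, `av (U y ⊓ L (n x)) n l₂ = n av (U (n⁻¹ y) ⊓ L) l₂`; this is killed by `ε` if `U (n⁻¹ y) ⊓ L ≠ 1` (`D.lft`; `av` commutes with `e_{nx}` as it is in `sb k (L (n x))`). Likewise `0` if `U (n x) ⊓ L' ≠ 1` (`D'.rgt`).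
Otherwise by `s10` (with `neg`) no root vanishing at `x` is `≠ 0` at `n⁻¹ y` and conversely, so `Reg x (n⁻¹ y)`, `n L n⁻¹ = L'`, and `f'_y g f_x = f'_y (ε' l₁ n l₂ ε) f_x`, `ε' l₁ n l₂ ε ∈ lin D' D n`; if this is `0` the left alternative holds, otherwise `n ∈ D'.NN D`.
-/

namespace LieP

noncomputable section

open Classical

variable {G E : Type} [Group G] [Finite G] [NormedAddCommGroup E] [InnerProductSpace ℝ E]
  [FiniteDimensional ℝ E] {S : LieSys G E} {k : Type} [Field k] [CharZero k]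

namespace M05_aux

/-- if no element of `U y` except `1` is in `L x` then the roots vanishing at `x` vanish at `y` -/
theorem zero_of {x y : E} (h : ∀ g ∈ S.U y, g ∈ S.L x → g = 1) {a : E} (ha : a ∈ S.R)
    (h0 : inner ℝ a x = 0) : inner ℝ a y = 0 := by
  rcases lt_trichotomy (inner ℝ a y) 0 with h1 | h1 | h1
  · obtain ⟨g, hg1, hg⟩ := S.s10 (-a) (S.neg a ha)
    exact absurd (h g ((hg y).1 (by rw [inner_neg_left]; linarith))
      ((hg x).2 (by rw [inner_neg_left, h0, neg_zero]))) hg1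
  · exact h1
  · obtain ⟨g, hg1, hg⟩ := S.s10 a ha
    exact absurd (h g ((hg y).1 h1) ((hg x).2 h0)) hg1

/-- the decomposition of an element of `H` -/
theorem decomp (x y : E) {g : G} (hg : g ∈ S.H) : ∃ u₁ ∈ S.U y, ∃ l₁ ∈ S.L y, ∃ n ∈ S.N,
    ∃ l₂ ∈ S.L x, ∃ u₂ ∈ S.U x, g = u₁ * l₁ * n * (l₂ * u₂) := by
  obtain ⟨z, hz, hxz⟩ := exists_gn_ge S x
  obtain ⟨z', hz', hyz'⟩ := exists_gn_ge S y
  obtain ⟨u, hu, l, hl, n, hn, l', hl', u', hu', rfl⟩ := S.s9 z' z hz' hz g hg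
  have h1 : u * l ∈ S.P y := P_mono S hyz' (mul_mem (U_le_P S z' hu) (L_le_P S z' hl))
  have h2 : l' * u' ∈ S.P x := P_mono S hxz (mul_mem (L_le_P S z hl') (U_le_P S z hu'))
  obtain ⟨u₁, hu₁, l₁, hl₁, e1⟩ := (mem_P' S).1 h1
  obtain ⟨l₂, hl₂, u₂, hu₂, e2⟩ := (mem_P S).1 h2
  exact ⟨u₁, hu₁, l₁, hl₁, n, hn, l₂, hl₂, u₂, hu₂, by rw [← e1, ← e2]; group⟩

end M05_aux

open M05_aux

theorem mackey {D' D : S.Cs k} {x y : E} (hx : S.Reg D.x x) (hy : S.Reg D'.x y) {g : G} (hg : g ∈ S.H) :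
    D'.f y * dl g * D.f x = 0 ∨ ∃ n ∈ D'.NN D, ∃ b ∈ lin D' D n,
      D'.f y * dl g * D.f x = D'.f y * b * D.f x := by
  obtain ⟨u₁, hu₁, l₁, hl₁, n, hn, l₂, hl₂, u₂, hu₂, rfl⟩ := decomp (S := S) x y hg
  have hLx : S.L D.x = S.L x := L_reg S hx
  have hLy : S.L D'.x = S.L y := L_reg S hy
  have hl1 : (dl l₁ : Al k G) ∈ sb k (S.L y) := dl_mem.2 hl₁
  have hl2 : (dl l₂ : Al k G) ∈ sb k (S.L x) := dl_mem.2 hl₂
  -- the first reduction
  have e1 : D'.f y * dl u₁ = D'.f y := by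
    rw [f_comm D' hy, mul_assoc]
    exact congrArg _ (av_dl hu₁)
  have e2 : dl u₂ * D.f x = D.f x := by
    show dl u₂ * (S.e k x * D.ε) = S.e k x * D.ε
    rw [← mul_assoc]
    exact congrArg (· * D.ε) (dl_av hu₂)
  have e3 : D'.f y * dl (u₁ * l₁ * n * (l₂ * u₂)) * D.f x =
      D'.f y * dl l₁ * dl n * dl l₂ * D.f x := by
    simp only [dl_mul]
    calc D'.f y * (dl u₁ * dl l₁ * dl n * (dl l₂ * dl u₂)) * D.f x
        = (D'.f y * dl u₁) * dl l₁ * dl n * dl l₂ * (dl u₂ * D.f x) := by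
          simp only [mul_assoc]
      _ = _ := by rw [e1, e2]
  rw [e3]
  have e4 : dl n * dl l₂ * D.f x = S.e k (S.ac n x) * dl n * (dl l₂ * D.ε) := by
    show dl n * dl l₂ * (S.e k x * D.ε) = _
    calc dl n * dl l₂ * (S.e k x * D.ε) = dl n * (dl l₂ * S.e k x) * D.ε := by
          simp only [mul_assoc]
      _ = dl n * (S.e k x * dl l₂) * D.ε := by rw [e_comm hl2]
      _ = (dl n * S.e k x) * dl l₂ * D.ε := by simp only [mul_assoc]
      _ = _ := by rw [dl_e hn]; simp only [mul_assoc]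
  have e4' : dl n * dl l₂ * D.f x = dl n * S.e k x * (dl l₂ * D.ε) := by
    rw [e4, dl_e hn]
  have e5 : S.e k y * dl n = dl n * S.e k (S.ac n⁻¹ y) := by
    rw [dl_e hn, ac_apply_inv S hn]
  have e6 : D'.f y * dl l₁ = (D'.ε * dl l₁) * S.e k y := by
    rw [f_comm D' hy, mul_assoc, ← e_comm hl1, ← mul_assoc]
  by_cases h1 : ∃ v ∈ S.U (S.ac n⁻¹ y), v ∈ S.L D.x ∧ v ≠ 1
  · left
    have h2 := D.lft (S.ac n⁻¹ y) h1 (dl l₂) (by rw [hLx]; exact hl2)
    have h3 : S.e k (S.ac n⁻¹ y) = S.e k (S.ac n⁻¹ y) * av k (S.U (S.ac n⁻¹ y) ⊓ S.L D.x) :=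
      (av_mul_av' inf_le_left).symm
    have h4 : av k (S.U (S.ac n⁻¹ y) ⊓ S.L D.x) * S.e k x =
        S.e k x * av k (S.U (S.ac n⁻¹ y) ⊓ S.L D.x) :=
      e_comm (av_mem (by rw [hLx]; exact inf_le_right))
    calc D'.f y * dl l₁ * dl n * dl l₂ * D.f x
        = (D'.f y * dl l₁) * (dl n * dl l₂ * D.f x) := by simp only [mul_assoc]
      _ = (D'.ε * dl l₁) * (S.e k y * dl n) * S.e k x * (dl l₂ * D.ε) := by
          rw [e6, e4']; simp only [mul_assoc]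
      _ = (D'.ε * dl l₁) * dl n * S.e k (S.ac n⁻¹ y) *
            (S.e k x * (av k (S.U (S.ac n⁻¹ y) ⊓ S.L D.x) * dl l₂ * D.ε)) := by
          rw [e5, h3]
          calc (D'.ε * dl l₁) * (dl n * (S.e k (S.ac n⁻¹ y) * av k (S.U (S.ac n⁻¹ y) ⊓ S.L D.x))) *
                S.e k x * (dl l₂ * D.ε) = (D'.ε * dl l₁) * dl n * S.e k (S.ac n⁻¹ y) *
                  (av k (S.U (S.ac n⁻¹ y) ⊓ S.L D.x) * S.e k x) * (dl l₂ * D.ε) := by
                simp only [mul_assoc]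
            _ = _ := by rw [h4, ← h3]; simp only [mul_assoc]
      _ = 0 := by rw [h2, mul_zero, mul_zero]
  by_cases h2 : ∃ v ∈ S.U (S.ac n x), v ∈ S.L D'.x ∧ v ≠ 1
  · left
    have h3 := D'.rgt (S.ac n x) h2 (dl l₁) (by rw [hLy]; exact hl1)
    have h4 : S.e k (S.ac n x) = av k (S.U (S.ac n x) ⊓ S.L D'.x) * S.e k (S.ac n x) :=
      (av_mul_av inf_le_left).symm
    have h5 : av k (S.U (S.ac n x) ⊓ S.L D'.x) * S.e k y =
        S.e k y * av k (S.U (S.ac n x) ⊓ S.L D'.x) :=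
      e_comm (av_mem (by rw [hLy]; exact inf_le_right))
    calc D'.f y * dl l₁ * dl n * dl l₂ * D.f x
        = (D'.f y * dl l₁) * (dl n * dl l₂ * D.f x) := by simp only [mul_assoc]
      _ = (D'.ε * dl l₁) * S.e k y * S.e k (S.ac n x) * (dl n * (dl l₂ * D.ε)) := by
          rw [e6, e4]; simp only [mul_assoc]
      _ = (D'.ε * dl l₁ * av k (S.U (S.ac n x) ⊓ S.L D'.x)) * S.e k y * S.e k (S.ac n x) *
            (dl n * (dl l₂ * D.ε)) := by
          conv_lhs => rw [h4]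
          calc (D'.ε * dl l₁) * S.e k y * (av k (S.U (S.ac n x) ⊓ S.L D'.x) * S.e k (S.ac n x)) *
                (dl n * (dl l₂ * D.ε)) = (D'.ε * dl l₁) * (S.e k y *
                  av k (S.U (S.ac n x) ⊓ S.L D'.x)) * S.e k (S.ac n x) * (dl n * (dl l₂ * D.ε)) := by
                simp only [mul_assoc]
            _ = _ := by rw [← h5]; simp only [mul_assoc]
      _ = 0 := by rw [h3, zero_mul, zero_mul, zero_mul]
  -- the regular case
  push Not at h1 h2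
  have hreg : S.Reg D.x (S.ac n⁻¹ y) := by
    intro a ha
    constructor
    · intro h0
      by_contra hne
      have hb : S.ac n a ∈ S.R := (ac_R S hn).2 ha
      have h3 : inner ℝ (S.ac n a) y = 0 := by
        rw [← ac_apply_inv S hn y, LinearIsometryEquiv.inner_map_map]
        exact h0
      have h4 : inner ℝ (S.ac n a) D'.x = 0 := (hy _ hb).1 h3
      have h5 := zero_of (S := S) h2 hb h4
      rw [LinearIsometryEquiv.inner_map_map] at h5
      exact hne ((hx a ha).1 h5)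
    · intro h0
      exact zero_of (S := S) h1 ha h0
  have hconj : ∀ l, l ∈ S.L D.x ↔ n * l * n⁻¹ ∈ S.L D'.x := by
    intro l
    rw [L_reg S hreg, hLy, conj_L S hn (u := l), ac_apply_inv S hn]
  have hbm : D'.ε * dl l₁ * dl n * dl l₂ * D.ε ∈ lin D' D n := by
    refine ⟨dl l₁ * dl (n * l₂ * n⁻¹), mul_mem (by rw [hLy]; exact hl1)
      (dl_mem.2 ((hconj l₂).1 (by rw [hLx]; exact hl₂))), ?_⟩
    have h6 : (dl (n * l₂ * n⁻¹) : Al k G) * dl n = dl n * dl l₂ := by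
      rw [← dl_mul, ← dl_mul]
      congr 1
      group
    calc D'.ε * dl l₁ * dl n * dl l₂ * D.ε = D'.ε * dl l₁ * (dl n * dl l₂) * D.ε := by
          simp only [mul_assoc]
      _ = _ := by rw [← h6]; simp only [mul_assoc]
  have hfin : D'.f y * dl l₁ * dl n * dl l₂ * D.f x =
      D'.f y * (D'.ε * dl l₁ * dl n * dl l₂ * D.ε) * D.f x := by
    calc D'.f y * dl l₁ * dl n * dl l₂ * D.f x
        = (D'.f y * D'.ε) * dl l₁ * dl n * dl l₂ * (D.ε * D.f x) := by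
          rw [(f_abs D' hy).2.2.2, (f_abs D hx).2.2.1]
      _ = _ := by simp only [mul_assoc]
  by_cases h0 : D'.ε * dl l₁ * dl n * dl l₂ * D.ε = 0
  · left
    rw [hfin, h0, mul_zero, zero_mul]
  · right
    refine ⟨n, ⟨hn, hconj, ?_⟩, _, hbm, hfin⟩
    obtain ⟨a, ha, hab⟩ := hbm
    exact ⟨a, ha, by rw [← hab]; exact h0⟩

theorem mackey_ind {D' D : S.Cs k} {x y : E} (hx : S.Reg D.x x) (hy : S.Reg D'.x y) {p : Al k G → Prop}
    (h0 : p 0) (hadd : ∀ a b, p a → p b → p (a + b))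
    (h : ∀ n ∈ D'.NN D, ∀ b ∈ lin D' D n, p (D'.f y * b * D.f x)) {a : Al k G} (ha : a ∈ sb k S.H) :
    p (D'.f y * a * D.f x) := by
  refine sb_induction (p := fun a => p (D'.f y * a * D.f x)) ?_ ?_ ?_ ha
  · rw [mul_zero, zero_mul]
    exact h0
  · intro a b ha hb
    rw [mul_add, add_mul]
    exact hadd _ _ ha hb
  · intro r g hg
    have e1 : D'.f y * (r • dl g) * D.f x = r • (D'.f y * dl g * D.f x) := by
      rw [mul_smul_comm, smul_mul_assoc]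
    rw [e1]
    rcases mackey hx hy hg with h1 | ⟨n, hn, b, hb, h1⟩
    · rw [h1, smul_zero]
      exact h0
    · have e2 : r • (D'.f y * b * D.f x) = D'.f y * (r • b) * D.f x := by
        rw [mul_smul_comm, smul_mul_assoc]
      rw [h1, e2]
      exact h n hn _ (lin_smul r hb)

theorem mackey_zero {D' D : S.Cs k} {x y : E} (hx : S.Reg D.x x) (hy : S.Reg D'.x y)
    (h : ∀ n, n ∉ D'.NN D) {a : Al k G} (ha : a ∈ sb k S.H) : D'.f y * a * D.f x = 0 :=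
  mackey_ind (p := fun a => a = 0) hx hy rfl (fun a b ha hb => by rw [ha, hb, add_zero])
    (fun n hn => absurd hn (h n)) ha

end

end LieP
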