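import Pool.Agent.LieP.M06
import Pool.Agent.LieP.F01

/-!
# MP_6c3636_al, LieP, module M07: the Weyl group of a cuspidal idempotent (helper7)

Section 4, (4.5), section 5. `D.WS`: isometries of `E` which are the identity on the orthogonal complement of `X = S.X D.x` and agree with `ac n`, `n ∈ N(ε)`, on `X`. `n ∈ N(ε)` maps `X` onto `X` (`NN_reg`), so `WS` is a group: `mem_W`. `W_of`: extend `ac n|X` by the identity.
`W_fix`: `n y = y`, `y ∈ Reg`: `n ∈ L y = L D.x ≤ L x'` for all `x' ∈ X`, so `ac n x' = x'` (`fix_iff`). `rp_eq`: `(rp w)⁻¹ n` fixes `X` pointwise. `fin_W`: `w ↦ rp w` is injective on `W`. `Ta_ac`: conjugate `v` with `n`.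
`Ta_rfn`: the element `v ∈ N(ε)` of type (a) fixes the hyperplane `a⊥` of `X` pointwise and is not the identity on `X` (`W_fix`), so its extension `w` is the reflection in `pj a`: an isometry of `E` fixing the complement of `X` and `X ⊓ a⊥`, that is the orthogonal complement of `pj a`, is `1` or the reflection.
`Psi_of`, `of_Psi`: `⟨b, y⟩ = ⟨pj b, y⟩` for `y ∈ X`.
-/

namespace LieP

noncomputable section

open Classical

variable {G E : Type} [Group G] [Finite G] [NormedAddCommGroup E] [InnerProductSpace ℝ E]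
  [FiniteDimensional ℝ E] {S : LieSys G E} {k : Type} [Field k] [CharZero k]

namespace M07_aux

/-- extension of an isometry of a subspace by the identity -/
theorem ext_iso (X : Submodule ℝ E) (φ : E ≃ₗᵢ[ℝ] E) (h : ∀ x ∈ X, φ x ∈ X) :
    ∃ w : E ≃ₗᵢ[ℝ] E, (∀ x ∈ Xᗮ, w x = x) ∧ ∀ x ∈ X, w x = φ x := by
  let P : E →ₗ[ℝ] E := (X.starProjection : E →L[ℝ] E)
  have hP1 : ∀ x, P x ∈ X := fun x => X.starProjection_apply_mem x
  have hP2 : ∀ x, x - P x ∈ Xᗮ := fun x => X.sub_starProjection_mem_orthogonal x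
  let f : E →ₗ[ℝ] E := φ.toLinearEquiv.toLinearMap ∘ₗ P + (LinearMap.id - P)
  have hf : ∀ x, f x = φ (P x) + (x - P x) := fun x => rfl
  have hn : ∀ x, ‖f x‖ = ‖x‖ := by
    intro x
    have h1 : inner ℝ (φ (P x)) (x - P x) = 0 :=
      X.inner_right_of_mem_orthogonal (h _ (hP1 x)) (hP2 x)
    have h2 : inner ℝ (P x) (x - P x) = 0 := X.inner_right_of_mem_orthogonal (hP1 x) (hP2 x)
    have h3 : ‖f x‖ * ‖f x‖ = ‖x‖ * ‖x‖ := by
      rw [hf x, norm_add_mul_self_real, h1, φ.norm_map]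
      have h4 := norm_add_mul_self_real (P x) (x - P x)
      rw [h2] at h4
      rw [← h4, add_sub_cancel]
    exact (mul_self_inj (norm_nonneg _) (norm_nonneg _)).1 h3
  let g : E →ₗᵢ[ℝ] E := ⟨f, hn⟩
  refine ⟨g.toLinearIsometryEquiv rfl, fun x hx => ?_, fun x hx => ?_⟩
  · rw [LinearIsometry.toLinearIsometryEquiv_apply]
    show f x = x
    have h5 : P x = 0 := (X.starProjection_apply_eq_zero_iff).2 hx
    rw [hf x, h5, map_zero, sub_zero, zero_add]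
  · rw [LinearIsometry.toLinearIsometryEquiv_apply]
    show f x = φ x
    have h5 : P x = x := (X.starProjection_eq_self_iff).2 hx
    rw [hf x, h5, sub_self, add_zero]

/-- two isometries which agree on `X` and its complement are equal -/
theorem iso_ext (X : Submodule ℝ E) {u w : E ≃ₗᵢ[ℝ] E} (h : ∀ x ∈ X, u x = w x)
    (h' : ∀ x ∈ Xᗮ, u x = w x) : u = w := by
  refine LinearIsometryEquiv.ext fun x => ?_
  have h1 : x = X.starProjection x + (x - X.starProjection x) := (add_sub_cancel _ _).symm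
  rw [h1, map_add, map_add, h _ (X.starProjection_apply_mem x),
    h' _ (X.sub_starProjection_mem_orthogonal x)]

/-- an isometry fixing the complement of the unit vector `u` is `1` or the reflection -/
theorem iso_fix {u : E} (hu : ‖u‖ = 1) {w : E ≃ₗᵢ[ℝ] E} (h : ∀ x, inner ℝ u x = 0 → w x = x) :
    w = 1 ∨ w = rfn u := by
  have huu : inner ℝ u u = (1 : ℝ) := by
    rw [real_inner_self_eq_norm_mul_norm, hu, mul_one]
  have h1 : ∀ x, inner ℝ u x = 0 → inner ℝ (w u) x = (0 : ℝ) := by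
    intro x hx
    have h2 : inner ℝ (w u) (w x) = inner ℝ u x := w.inner_map_map u x
    rw [h x hx] at h2
    rw [h2, hx]
  let r : ℝ := inner ℝ u (w u)
  let d : E := w u - r • u
  have hd : inner ℝ u d = (0 : ℝ) := by
    show inner ℝ u (w u - r • u) = (0 : ℝ)
    rw [inner_sub_right, inner_smul_right, huu, mul_one]
    exact sub_self _
  have hdd : inner ℝ d d = (0 : ℝ) := by
    have h3 : inner ℝ d d = inner ℝ (w u) d - r * inner ℝ u d := by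
      show inner ℝ (w u - r • u) d = _
      rw [inner_sub_left, inner_smul_left]
      rfl
    rw [h3, h1 d hd, hd, mul_zero, sub_zero]
  have hd0 : d = 0 := inner_self_eq_zero.1 hdd
  have hwu : w u = r • u := sub_eq_zero.1 hd0
  have hr : r * r = 1 := by
    have h4 : inner ℝ (w u) (w u) = inner ℝ u u := w.inner_map_map u u
    rw [hwu, inner_smul_left, inner_smul_right, huu, mul_one] at h4
    exact h4
  have hwx : ∀ x, w x = x + ((r - 1) * inner ℝ u x) • u := by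
    intro x
    have h5 : inner ℝ u (x - (inner ℝ u x : ℝ) • u) = (0 : ℝ) := by
      rw [inner_sub_right, inner_smul_right, huu, mul_one, sub_self]
    have h6 := h _ h5
    rw [map_sub, map_smul, hwu] at h6
    have h7 : w x = x - (inner ℝ u x : ℝ) • u + (inner ℝ u x : ℝ) • r • u := by
      rw [← h6]; abel
    rw [h7, smul_smul, sub_mul, one_mul, sub_smul, mul_comm r]
    abel
  rcases mul_self_eq_one_iff.1 hr with h8 | h8
  · left
    refine LinearIsometryEquiv.ext fun x => ?_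
    rw [hwx x, h8, sub_self, zero_mul, zero_smul, add_zero]
    rfl
  · right
    refine LinearIsometryEquiv.ext fun x => ?_
    have h9 : ((-1 : ℝ) - 1) * inner ℝ u x = -(2 * inner ℝ u x) := by ring
    rw [hwx x, h8, rfn_apply hu x, h9, neg_smul, sub_eq_add_neg]

theorem pj_inner (D : S.Cs k) (b : E) {y : E} (hy : y ∈ S.X D.x) :
    inner ℝ (D.pj b) y = inner ℝ b y := by
  have h1 : inner ℝ (b - D.pj b) y = (0 : ℝ) :=
    (S.X D.x).inner_left_of_mem_orthogonal hy ((S.X D.x).sub_starProjection_mem_orthogonal b)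
  rw [inner_sub_left, sub_eq_zero] at h1
  exact h1.symm

theorem pj_mem (D : S.Cs k) (b : E) : D.pj b ∈ S.X D.x := (S.X D.x).starProjection_apply_mem b

theorem pj_neg (D : S.Cs k) (b : E) : D.pj (-b) = - D.pj b := map_neg _ _

theorem x_mem (D : S.Cs k) : D.x ∈ S.X D.x := reg_mem_X S (reg_refl S D.x)

theorem pj_ne {D : S.Cs k} {b : E} (h : D.Ta b) : D.pj b ≠ 0 := by
  intro h0
  have h1 := pj_inner D b (x_mem D)
  rw [h0, inner_zero_left] at h1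
  exact h.2.1 h1.symm

/-- an element of `L D.x` acts trivially on `X` -/
theorem L_fix {D : S.Cs k} {n : G} (hn : n ∈ S.N) (hL : n ∈ S.L D.x) {y : E} (hy : y ∈ S.X D.x) :
    S.ac n y = y :=
  (fix_iff S hn).2 (L_mono S (x := D.x) (y := y) hy hL)

theorem one_NN (D : S.Cs k) : (1 : G) ∈ D.NN D := NN_L S.N.one_mem (S.L D.x).one_mem

theorem WS_one (D : S.Cs k) : (1 : E ≃ₗᵢ[ℝ] E) ∈ D.WS := by
  refine ⟨fun x _ => rfl, 1, one_NN D, fun x _ => ?_⟩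
  rw [S.ac_one]

theorem WS_mul {D : S.Cs k} {u w : E ≃ₗᵢ[ℝ] E} (hu : u ∈ D.WS) (hw : w ∈ D.WS) : u * w ∈ D.WS := by
  obtain ⟨hu1, m, hm, hu2⟩ := hu
  obtain ⟨hw1, n, hn, hw2⟩ := hw
  refine ⟨fun x hx => ?_, m * n, NN_mul hm hn, fun x hx => ?_⟩
  · show u (w x) = x
    rw [hw1 x hx, hu1 x hx]
  · show u (w x) = _
    rw [hw2 x hx, hu2 _ (((NN_reg hn).2.1 x).2 hx), ac_mul_apply S (NN_H hm).1 (NN_H hn).1]

theorem WS_inv {D : S.Cs k} {w : E ≃ₗᵢ[ℝ] E} (hw : w ∈ D.WS) : w⁻¹ ∈ D.WS := by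
  obtain ⟨hw1, n, hn, hw2⟩ := hw
  have hn' := NN_inv hn
  refine ⟨fun x hx => ?_, n⁻¹, hn', fun x hx => ?_⟩
  · show w.symm x = x
    rw [LinearIsometryEquiv.symm_apply_eq, hw1 x hx]
  · show w.symm x = _
    rw [LinearIsometryEquiv.symm_apply_eq, hw2 _ (((NN_reg hn').2.1 x).2 hx),
      ac_apply_inv S (NN_H hn).1]

/-- `WS` as a subgroup -/
def WG (D : S.Cs k) : Subgroup (E ≃ₗᵢ[ℝ] E) where
  carrier := D.WS
  mul_mem' := WS_mul
  one_mem' := WS_one D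
  inv_mem' := WS_inv

end M07_aux

open M07_aux

theorem mem_W {D : S.Cs k} {w : E ≃ₗᵢ[ℝ] E} : w ∈ D.W ↔ w ∈ D.WS := by
  constructor
  · intro h
    have h1 : D.W ≤ WG D := (Subgroup.closure_le (WG D)).2 fun x hx => hx
    exact h1 h
  · intro h
    exact Subgroup.subset_closure h

theorem W_rp {D : S.Cs k} {w : E ≃ₗᵢ[ℝ] E} (hw : w ∈ D.W) :
    D.rp w ∈ D.NN D ∧ ∀ y ∈ S.X D.x, w y = S.ac (D.rp w) y := by
  have h := (mem_W.1 hw).2
  have h1 : D.rp w = h.choose := by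
    unfold LieSys.Cs.rp
    rw [dif_pos h]
  rw [h1]
  exact h.choose_spec

theorem W_of {D : S.Cs k} {n : G} (hn : n ∈ D.NN D) : ∃ w ∈ D.W, ∀ y ∈ S.X D.x, w y = S.ac n y := by
  obtain ⟨w, h1, h2⟩ := ext_iso (S.X D.x) (S.ac n) fun x hx => ((NN_reg hn).2.1 x).2 hx
  exact ⟨w, mem_W.2 ⟨h1, n, hn, h2⟩, h2⟩

theorem W_X {D : S.Cs k} {w : E ≃ₗᵢ[ℝ] E} (hw : w ∈ D.W) {y : E} (hy : y ∈ S.X D.x) : w y ∈ S.X D.x := by
  obtain ⟨h1, h2⟩ := W_rp hw
  rw [h2 y hy]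
  exact ((NN_reg h1).2.1 y).2 hy

theorem W_reg {D : S.Cs k} {w : E ≃ₗᵢ[ℝ] E} (hw : w ∈ D.W) {y : E} (hy : S.Reg D.x y) :
    S.Reg D.x (w y) := by
  obtain ⟨h1, h2⟩ := W_rp hw
  rw [h2 y (reg_mem_X S hy)]
  exact ((NN_reg h1).2.2 y).2 hy

theorem W_ext {D : S.Cs k} {w w' : E ≃ₗᵢ[ℝ] E} (hw : w ∈ D.W) (hw' : w' ∈ D.W)
    (h : ∀ y ∈ S.X D.x, w y = w' y) : w = w' := by
  refine iso_ext (S.X D.x) h fun x hx => ?_
  rw [(mem_W.1 hw).1 x hx, (mem_W.1 hw').1 x hx]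

theorem W_fix {D : S.Cs k} {w : E ≃ₗᵢ[ℝ] E} (hw : w ∈ D.W) {y : E} (hy : S.Reg D.x y) (h : w y = y) :
    w = 1 := by
  obtain ⟨h1, h2⟩ := W_rp hw
  have h3 : S.ac (D.rp w) y = y := by rw [← h2 y (reg_mem_X S hy), h]
  have h4 : D.rp w ∈ S.L D.x := by
    rw [L_reg S hy]
    exact (fix_iff S (NN_H h1).1).1 h3
  refine W_ext hw (one_mem _) fun x hx => ?_
  rw [h2 x hx, L_fix (NN_H h1).1 h4 hx]
  rfl

theorem rp_eq {D : S.Cs k} {w : E ≃ₗᵢ[ℝ] E} (hw : w ∈ D.W) {n : G} (hn : n ∈ D.NN D)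
    (h : ∀ y ∈ S.X D.x, w y = S.ac n y) : (D.rp w)⁻¹ * n ∈ S.L D.x ∧ lin D D n = lin D D (D.rp w) := by
  obtain ⟨h1, h2⟩ := W_rp hw
  have hN1 := (NN_H h1).1
  have hN := (NN_H hn).1
  have h3 : (D.rp w)⁻¹ * n ∈ S.L D.x := by
    refine (fix_iff S (S.N.mul_mem (S.N.inv_mem hN1) hN)).1 ?_
    rw [ac_mul_apply S (S.N.inv_mem hN1) hN, ← h _ (x_mem D), h2 _ (x_mem D), ac_inv_apply S hN1]
  exact ⟨h3, (lin_congr h1 h3 hN).1⟩

theorem rp_one (D : S.Cs k) : D.rp 1 ∈ S.L D.x := by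
  obtain ⟨h1, h2⟩ := W_rp (D := D) (w := 1) (one_mem _)
  exact (fix_iff S (NN_H h1).1).1 (h2 _ (x_mem D)).symm

theorem rp_mul {D : S.Cs k} {u w : E ≃ₗᵢ[ℝ] E} (hu : u ∈ D.W) (hw : w ∈ D.W) :
    (D.rp (u * w))⁻¹ * (D.rp u * D.rp w) ∈ S.L D.x := by
  obtain ⟨h1, h2⟩ := W_rp hu
  obtain ⟨h3, h4⟩ := W_rp hw
  refine (rp_eq (mul_mem hu hw) (NN_mul h1 h3) fun y hy => ?_).1
  show u (w y) = _
  rw [h2 _ (W_X hw hy), h4 y hy, ac_mul_apply S (NN_H h1).1 (NN_H h3).1]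

theorem rp_inj {D : S.Cs k} {u w : E ≃ₗᵢ[ℝ] E} (hu : u ∈ D.W) (hw : w ∈ D.W)
    (h : (D.rp u)⁻¹ * D.rp w ∈ S.L D.x) : u = w := by
  obtain ⟨h1, h2⟩ := W_rp hu
  obtain ⟨h3, h4⟩ := W_rp hw
  have hN1 := (NN_H h1).1
  have hN3 := (NN_H h3).1
  refine W_ext hu hw fun y hy => ?_
  have h5 := L_fix (S.N.mul_mem (S.N.inv_mem hN1) hN3) h hy
  have h6 : S.ac (D.rp u) (S.ac ((D.rp u)⁻¹ * D.rp w) y) = S.ac (D.rp w) y := by
    rw [ac_mul_apply S (S.N.inv_mem hN1) hN3, ac_apply_inv S hN1]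
  rw [h2 y hy, h4 y hy, ← h6, h5]

theorem fin_W (D : S.Cs k) : Finite D.W := by
  refine Finite.of_injective (fun w : D.W => D.rp w.1) fun u w h => ?_
  refine Subtype.ext (rp_inj u.2 w.2 ?_)
  have h1 : D.rp u.1 = D.rp w.1 := h
  rw [h1, inv_mul_cancel]
  exact one_mem _

/-- an element of `N(ε)` fixing a regular point is in `L` -/
theorem NN_fix {D : S.Cs k} {n : G} (hn : n ∈ D.NN D) {w : E ≃ₗᵢ[ℝ] E} (hw : w ∈ D.W)
    (h : ∀ y ∈ S.X D.x, w y = S.ac n y) : w = 1 ↔ n ∈ S.L D.x := by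
  constructor
  · intro h1
    have h2 := h _ (x_mem D)
    rw [h1] at h2
    exact (fix_iff S (NN_H hn).1).1 h2.symm
  · intro h1
    refine W_ext hw (one_mem _) fun y hy => ?_
    rw [h y hy, L_fix (NN_H hn).1 h1 hy]
    rfl

theorem M07_aux.Ta_ac1 {D : S.Cs k} {n : G} (hn : n ∈ D.NN D) {a : E} (h : D.Ta a) :
    D.Ta (S.ac n a) := by
  obtain ⟨ha, hx, v, hv, hvL, hv2⟩ := h
  have hN := (NN_H hn).1
  have hn' := NN_inv hn
  have hN' := (NN_H hn').1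
  have hVN := (NN_H hv).1
  have h0 : ∀ y, inner ℝ (S.ac n a) y = (inner ℝ a (S.ac n⁻¹ y) : ℝ) := by
    intro y
    have h1 := ac_inner S hN' a y
    rw [inv_inv] at h1
    exact h1.symm
  refine ⟨(ac_R S hN).2 ha, fun h1 => ?_, n * v * n⁻¹, NN_mul (NN_mul hn hv) hn', fun h1 => ?_,
    fun x hx' h1 => ?_⟩
  · rw [h0] at h1
    have h2 := ((NN_reg hn').2.2 D.x).2 (reg_refl S D.x)
    exact hx ((h2 a ha).1 h1)
  · exact hvL ((hn.2.1 v).2 h1)
  · rw [h0] at h1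
    rw [ac_mul_apply S (S.N.mul_mem hN hVN) hN', ac_mul_apply S hN hVN,
      hv2 _ (((NN_reg hn').2.1 x).2 hx') h1, ac_apply_inv S hN]

theorem Ta_ac {D : S.Cs k} {n : G} (hn : n ∈ D.NN D) {a : E} : D.Ta (S.ac n a) ↔ D.Ta a := by
  constructor
  · intro h
    have h1 := M07_aux.Ta_ac1 (NN_inv hn) h
    rw [ac_inv_apply S (NN_H hn).1] at h1
    exact h1
  · exact M07_aux.Ta_ac1 hn

theorem Ta_neg {D : S.Cs k} {a : E} (h : D.Ta a) : D.Ta (-a) := by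
  obtain ⟨ha, hx, v, hv, hvL, hv2⟩ := h
  refine ⟨S.neg a ha, ?_, v, hv, hvL, fun x hx' h1 => hv2 x hx' ?_⟩
  · rw [inner_neg_left]
    exact neg_ne_zero.2 hx
  · rw [inner_neg_left] at h1
    exact neg_eq_zero.1 h1

/-- the types depend only on the hyperplane of `X` -/
theorem Ta_prop {D : S.Cs k} {a b : E} (h : D.Ta a) (hb : b ∈ S.R) {r : ℝ} (hr : r ≠ 0)
    (h1 : ∀ y ∈ S.X D.x, inner ℝ b y = r * inner ℝ a y) : D.Ta b := by
  obtain ⟨ha, hx, v, hv, hvL, hv2⟩ := h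
  refine ⟨hb, ?_, v, hv, hvL, fun x hx' h2 => hv2 x hx' ?_⟩
  · rw [h1 _ (x_mem D)]
    exact mul_ne_zero hr hx
  · rw [h1 x hx'] at h2
    exact (mul_eq_zero.1 h2).resolve_left hr

theorem M07_aux.unit_pj {D : S.Cs k} {a : E} (h : D.Ta a) : ‖‖D.pj a‖⁻¹ • D.pj a‖ = 1 := by
  have h1 : ‖D.pj a‖ ≠ 0 := norm_ne_zero_iff.2 (pj_ne h)
  rw [norm_smul, norm_inv, norm_norm, inv_mul_cancel₀ h1]

theorem Ta_rfn {D : S.Cs k} {a : E} (h : D.Ta a) : rfn (‖D.pj a‖⁻¹ • D.pj a) ∈ D.W := by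
  have h' := h
  obtain ⟨ha, hx, v, hv, hvL, hv2⟩ := h'
  obtain ⟨w, hw, hwv⟩ := W_of hv
  have hpj : ‖D.pj a‖ ≠ 0 := norm_ne_zero_iff.2 (pj_ne h)
  have h1 : ∀ x, inner ℝ (‖D.pj a‖⁻¹ • D.pj a) x = (0 : ℝ) → w x = x := by
    intro x hx0
    rw [inner_smul_left] at hx0
    have h2 : inner ℝ (D.pj a) x = (0 : ℝ) :=
      (mul_eq_zero.1 hx0).resolve_left (by
        show ‖D.pj a‖⁻¹ ≠ 0
        exact inv_ne_zero hpj)
    have h3 : x = (S.X D.x).starProjection x + (x - (S.X D.x).starProjection x) :=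
      (add_sub_cancel _ _).symm
    have h4 : (S.X D.x).starProjection x ∈ S.X D.x := (S.X D.x).starProjection_apply_mem x
    have h5 : x - (S.X D.x).starProjection x ∈ (S.X D.x)ᗮ :=
      (S.X D.x).sub_starProjection_mem_orthogonal x
    have h6 : inner ℝ a ((S.X D.x).starProjection x) = (0 : ℝ) := by
      rw [← pj_inner D a h4]
      have h7 : inner ℝ (D.pj a) (x - (S.X D.x).starProjection x) = (0 : ℝ) :=
        (S.X D.x).inner_right_of_mem_orthogonal (pj_mem D a) h5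
      rw [inner_sub_right, h2, zero_sub, neg_eq_zero] at h7
      exact h7
    have h8 : w ((S.X D.x).starProjection x) = (S.X D.x).starProjection x := by
      rw [hwv _ h4, hv2 _ h4 h6]
    have h9 : w (x - (S.X D.x).starProjection x) = x - (S.X D.x).starProjection x :=
      (mem_W.1 hw).1 _ h5
    calc w x = w ((S.X D.x).starProjection x + (x - (S.X D.x).starProjection x)) := by
          rw [add_sub_cancel]
      _ = x := by rw [map_add, h8, h9, add_sub_cancel]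
  rcases iso_fix (M07_aux.unit_pj h) h1 with h2 | h2
  · exact absurd ((NN_fix hv hw hwv).1 h2) hvL
  · rw [← h2]
    exact hw

theorem Psi_of {D : S.Cs k} {b : E} (h : D.Ta b) :
    ∃ a ∈ D.Psi, ∃ r : ℝ, 0 < r ∧ ∀ y ∈ S.X D.x, inner ℝ b y = r * inner ℝ a y := by
  have hpj : ‖D.pj b‖ ≠ 0 := norm_ne_zero_iff.2 (pj_ne h)
  refine ⟨‖D.pj b‖⁻¹ • D.pj b, ?_, ‖D.pj b‖, norm_pos_iff.2 (pj_ne h), fun y hy => ?_⟩
  · exact Finset.mem_image.2 ⟨b, Finset.mem_filter.2 ⟨h.1, h⟩, rfl⟩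
  · rw [inner_smul_left, ← pj_inner D b hy]
    show _ = ‖D.pj b‖ * (‖D.pj b‖⁻¹ * _)
    rw [← mul_assoc, mul_inv_cancel₀ hpj, one_mul]

theorem of_Psi {D : S.Cs k} {a : E} (h : a ∈ D.Psi) :
    ‖a‖ = 1 ∧ a ∈ S.X D.x ∧ -a ∈ D.Psi ∧ rfn a ∈ D.W ∧
      ∃ b, D.Ta b ∧ ∃ r : ℝ, 0 < r ∧ ∀ y ∈ S.X D.x, inner ℝ b y = r * inner ℝ a y := by
  obtain ⟨b, hb, rfl⟩ := Finset.mem_image.1 h
  have hb' : D.Ta b := (Finset.mem_filter.1 hb).2
  have hpj : ‖D.pj b‖ ≠ 0 := norm_ne_zero_iff.2 (pj_ne hb')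
  refine ⟨M07_aux.unit_pj hb', (S.X D.x).smul_mem _ (pj_mem D b), ?_, Ta_rfn hb', b, hb',
    ‖D.pj b‖, norm_pos_iff.2 (pj_ne hb'), fun y hy => ?_⟩
  · refine Finset.mem_image.2 ⟨-b, Finset.mem_filter.2 ⟨S.neg b hb'.1, Ta_neg hb'⟩, ?_⟩
    rw [pj_neg, norm_neg, smul_neg]
  · rw [inner_smul_left, ← pj_inner D b hy]
    show _ = ‖D.pj b‖ * (‖D.pj b‖⁻¹ * _)
    rw [← mul_assoc, mul_inv_cancel₀ hpj, one_mul]

theorem W_Psi {D : S.Cs k} {w : E ≃ₗᵢ[ℝ] E} (hw : w ∈ D.W) {a : E} (h : a ∈ D.Psi) : w a ∈ D.Psi := by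
  obtain ⟨b, hb, rfl⟩ := Finset.mem_image.1 h
  have hb' : D.Ta b := (Finset.mem_filter.1 hb).2
  obtain ⟨h1, h2⟩ := W_rp hw
  have hN := (NN_H h1).1
  have hT : D.Ta (S.ac (D.rp w) b) := (Ta_ac h1).2 hb'
  have h3 : D.pj (S.ac (D.rp w) b) = w (D.pj b) := by
    refine (Submodule.eq_starProjection_of_mem_of_inner_eq_zero (W_X hw (pj_mem D b))
      fun y hy => ?_)
    have h4 : S.ac (D.rp w)⁻¹ y ∈ S.X D.x := ((NN_reg (NN_inv h1)).2.1 y).2 hy
    have h5 : y = S.ac (D.rp w) (S.ac (D.rp w)⁻¹ y) := (ac_apply_inv S hN y).symm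
    have h6 : y = w (S.ac (D.rp w)⁻¹ y) := by rw [h2 _ h4]; exact h5
    rw [inner_sub_left, sub_eq_zero]
    calc inner ℝ (S.ac (D.rp w) b) y
        = inner ℝ (S.ac (D.rp w) b) (S.ac (D.rp w) (S.ac (D.rp w)⁻¹ y)) := by rw [← h5]
      _ = inner ℝ b (S.ac (D.rp w)⁻¹ y) := (S.ac (D.rp w)).inner_map_map _ _
      _ = inner ℝ (D.pj b) (S.ac (D.rp w)⁻¹ y) := (pj_inner D b h4).symm
      _ = inner ℝ (w (D.pj b)) (w (S.ac (D.rp w)⁻¹ y)) := (w.inner_map_map _ _).symm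
      _ = inner ℝ (w (D.pj b)) y := by rw [← h6]
  refine Finset.mem_image.2 ⟨S.ac (D.rp w) b, Finset.mem_filter.2 ⟨hT.1, hT⟩, ?_⟩
  rw [h3, w.norm_map, map_smul]

theorem Psi_reg {D : S.Cs k} {x : E} (hx : S.Reg D.x x) {a : E} (h : a ∈ D.Psi) : inner ℝ a x ≠ 0 := by
  obtain ⟨-, -, -, -, b, hb, r, hr, h1⟩ := of_Psi h
  intro h2
  have h3 := h1 x (reg_mem_X S hx)
  rw [h2, mul_zero] at h3
  exact hb.2.1 ((hx b hb.1).1 h3)

/-- no root of type (a) separates `x` and `y` iff the vectors of `Psi` have the same signs -/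
theorem NA_iff {D : S.Cs k} {x y : E} (hx : y ∈ S.X D.x) (hy : x ∈ S.X D.x) :
    D.NA x y ↔ ∀ a ∈ D.Psi, ¬ inner ℝ a x * inner ℝ a y < 0 := by
  constructor
  · intro h a ha h0
    obtain ⟨-, -, -, -, b, hb, r, hr, h1⟩ := of_Psi ha
    refine h b hb ?_
    rw [h1 x hy, h1 y hx]
    have h2 : r * inner ℝ a x * (r * inner ℝ a y) = r * r * (inner ℝ a x * inner ℝ a y) := by ring
    rw [h2]
    exact mul_neg_of_pos_of_neg (mul_pos hr hr) h0
  · intro h b hb h0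
    obtain ⟨a, ha, r, hr, h1⟩ := Psi_of hb
    refine h a ha ?_
    rw [h1 x hy, h1 y hx] at h0
    have h2 : r * inner ℝ a x * (r * inner ℝ a y) = r * r * (inner ℝ a x * inner ℝ a y) := by ring
    rw [h2] at h0
    by_contra h3
    exact absurd h0 (not_lt.2 (mul_nonneg (mul_pos hr hr).le (not_lt.1 h3)))

theorem NA_symm {D : S.Cs k} {x y : E} (h : D.NA x y) : D.NA y x := by
  intro a ha h0
  refine h a ha ?_
  rw [mul_comm]
  exact h0

theorem NA_trans {D : S.Cs k} {x y z : E} (hy : S.Reg D.x y) (h : D.NA x y) (h' : D.NA y z) :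
    D.NA x z := by
  intro a ha h0
  have h1 := not_lt.1 (h a ha)
  have h2 := not_lt.1 (h' a ha)
  have h3 : inner ℝ a y ≠ (0 : ℝ) := fun h4 => ha.2.1 ((hy a ha.1).1 h4)
  have h4 : 0 < inner ℝ a y * (inner ℝ a y : ℝ) := mul_self_pos.2 h3
  have h5 := mul_nonneg h1 h2
  have h6 : inner ℝ a x * inner ℝ a y * (inner ℝ a y * inner ℝ a z) =
      (inner ℝ a y * inner ℝ a y) * (inner ℝ a x * (inner ℝ a z : ℝ)) := by ring
  rw [h6] at h5
  exact absurd h5 (not_le.2 (mul_neg_of_pos_of_neg h4 h0))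

theorem M07_aux.NA_ac1 {D : S.Cs k} {n : G} (hn : n ∈ D.NN D) {x y : E} (h : D.NA x y) :
    D.NA (S.ac n x) (S.ac n y) := by
  intro a ha h0
  have hN := (NN_H hn).1
  rw [ac_inner S hN, ac_inner S hN] at h0
  exact h _ ((Ta_ac (NN_inv hn)).2 ha) h0

theorem NA_ac {D : S.Cs k} {n : G} (hn : n ∈ D.NN D) {x y : E} :
    D.NA (S.ac n x) (S.ac n y) ↔ D.NA x y := by
  constructor
  · intro h
    have h1 := M07_aux.NA_ac1 (NN_inv hn) h
    rw [ac_inv_apply S (NN_H hn).1, ac_inv_apply S (NN_H hn).1] at h1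
    exact h1
  · exact M07_aux.NA_ac1 hn

theorem NA_W {D : S.Cs k} {w : E ≃ₗᵢ[ℝ] E} (hw : w ∈ D.W) {x y : E} (hx : x ∈ S.X D.x)
    (hy : y ∈ S.X D.x) : D.NA (w x) (w y) ↔ D.NA x y := by
  obtain ⟨h1, h2⟩ := W_rp hw
  rw [h2 x hx, h2 y hy]
  exact NA_ac h1

end

end LieP
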