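import Pool.Agent.LieP.K09
import Pool.Agent.LieP.V09
import Pool.Agent.LieP.C04
import Pool.Agent.LieP.A06

/-!
# MP_6c3636_al, LieP, module O01: the normalised operators (section 6) (helper69)

`x` is regular, `w ∈ D.W`, `M = Mx D x x w` (K09), `star = D.star`, `H = S.H`.
`ln_iff`: `D.ln n x` is the set of the `e x * c * e x`, `c ∈ lin D D n` (definitions); `c = ε * c * ε` (`lin_abs`), `e x * ε = f x`, `ε * e x = f x` (`f_comm`), so `e x * c * e x = f x * c * f x`; `Mx_lin`, and conversely `r • cw D w ∈ lin` (`lin_smul`, `cw_spec`).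
`rk_star`: `star_spec` (V08), `mem_Ser`, `rk_f` (C04). `tr_mul_star`: `tr_corner` (`a = f a f`, `b = f b f`). `Mx_unit`: let `c' ∈ lin` be the inverse of `c = cw D w` (`lin_unit`; `W_rp`: `rp w ∈ D.NN D`), `a` the element of `f_inv` (C04) for `x`, `w x` (`W_reg`): `a = f x * a * f x`, `(f x * f (w x) * f x) * a = f x`. By `Mx_eq` `M = e x * e (w x) * c`, `M * c' = e x * e (w x) * ε = f x * f (w x)` (`f_comm`, `f_abs`), so `M * (c' * (f x * a)) = f x`; put `b = f x * (c' * (f x * a)) * f x`, `M * f x = M`.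
`tr_Mx_ne`: `Mx_unit`, `tr_mul_star`: `1 = tr star (f x) = tr star M * tr star b` (`rk_tr`). `T_uniq`: by `ln_iff` all elements of the line are multiples of `M`, those with `tr star = 1` are equal. `T_spec`: `ln_iff`, `tr_Mx_ne`; so there is an element with `tr star = 1` in the line, and `D.T x w` is one by definition (`dif_pos`, `choose_spec`).
`T_one`: `f x ∈ D.ln (rp 1) x` (`rp_one`: `rp 1 ∈ L D.x`; `lin D D (rp 1)` contains `ε`: `lin_congr` for `n = 1`, `NN_L`; `1 ∈ S.N`), `tr star (f x) = 1`, `T_uniq`. `T_abs`, `T_mem`: `T = r • M`, `Mx_mem`. `T_li`, `T_span`: `Mx_li`, `Mx_span` (`T x w` is a nonzero multiple of `M`).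
`T_t`: `T_spec`, `Mx_eq`, `t_lin` (M06) for `n = rp w`, the points `x`, `w x` (`rp w ∉ L` as `w ≠ 1`: `NN_fix`). `T_star`: `z = cen S.H star` is central in `sb Ω S.H` and idempotent (A07), `g = f x * z` is a primitive idempotent (`prim_of_rk`, `rk` of `g` is `1` at `star` and `0` at the other characters: `cen_mul ..`, A07), `g * T * g = tr star (g * T * g) • g`, `g * T * g = T * z`, and `tr star (T * z) = tr star T = 1`.
-/

namespace LieP

noncomputable section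

open Classical

variable {Ω : Type} [Field Ω] [IsAlgClosed Ω] [CharZero Ω] {G E : Type} [Group G] [Finite G]
  [NormedAddCommGroup E] [InnerProductSpace ℝ E] [FiniteDimensional ℝ E] {S : LieSys G E}

namespace O01_aux

theorem ln_eq {D : S.Cs Ω} {x : E} (hx : S.Reg D.x x) {n : G} {b : Al Ω G} :
    b ∈ D.ln n x ↔ ∃ c ∈ lin D D n, b = D.f x * c * D.f x := by
  have key : ∀ c ∈ lin D D n, S.e Ω x * c * S.e Ω x = D.f x * c * D.f x := by
    intro c hc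
    obtain ⟨h1, h2⟩ := lin_abs hc
    have e1 : D.f x = S.e Ω x * D.ε := rfl
    have e2 : D.f x = D.ε * S.e Ω x := f_comm D hx
    have e3 : D.f x * c * D.f x = S.e Ω x * D.ε * c * (D.ε * S.e Ω x) := by
      rw [← e1, ← e2]
    rw [e3, mul_assoc (S.e Ω x) D.ε c, h1, ← mul_assoc, mul_assoc (S.e Ω x) c D.ε, h2]
  constructor
  · rintro ⟨a, ha, rfl⟩
    exact ⟨_, ⟨a, ha, rfl⟩, key _ ⟨a, ha, rfl⟩⟩
  · rintro ⟨c, hc, rfl⟩
    obtain ⟨a, ha, h⟩ := hc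
    refine ⟨a, ha, ?_⟩
    rw [← h]
    exact (key c ⟨a, ha, h⟩).symm

theorem mem_cr {H : Subgroup G} {f b : Al Ω G} :
    b ∈ cr H f f ↔ ∃ a ∈ sb Ω H, b = f * (a * f) := by
  constructor
  · rintro ⟨a, ha, h⟩
    exact ⟨a, ha, h.symm⟩
  · rintro ⟨a, ha, h⟩
    exact ⟨a, ha, h.symm⟩

end O01_aux

open O01_aux

theorem ln_iff {D : S.Cs Ω} {x : E} (hx : S.Reg D.x x) {w : E ≃ₗᵢ[ℝ] E} (hw : w ∈ D.W) {b : Al Ω G} :
    b ∈ D.ln (D.rp w) x ↔ ∃ r : Ω, b = r • Mx D x x w := by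
  rw [ln_eq hx]
  constructor
  · rintro ⟨c, hc, rfl⟩
    exact Mx_lin hw hc
  · rintro ⟨r, rfl⟩
    refine ⟨r • cw D w, lin_smul r (cw_spec hw).1, ?_⟩
    rw [mul_smul_comm, smul_mul_assoc]
    rfl

theorem rk_star {D : S.Cs Ω} (hD : D.gnr) {x : E} (hx : S.Reg D.x x) : rk D.star (D.f x) = 1 := by
  obtain ⟨h1, -, h3, -⟩ := LieSys.Cs.star_spec D hD
  rw [rk_f hx (mem_Ser.1 h1).1, h3]

theorem star_ir {D : S.Cs Ω} (hD : D.gnr) : D.star ∈ ir Ω S.H := by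
  exact (mem_Ser.1 (LieSys.Cs.star_spec D hD).1).1

/-- the trace of `star` is multiplicative on the algebra of the operators -/
theorem tr_mul_star {D : S.Cs Ω} (hD : D.gnr) {x : E} (hx : S.Reg D.x x) {a b : Al Ω G}
    (ha : a ∈ cr S.H (D.f x) (D.f x)) (hb : b ∈ cr S.H (D.f x) (D.f x)) :
    tr D.star (a * b) = tr D.star a * tr D.star b := by
  obtain ⟨u, hu, rfl⟩ := mem_cr.1 ha
  obtain ⟨v, hv, rfl⟩ := mem_cr.1 hb
  have h1 := tr_corner (star_ir hD) (f_mem D x) (f_idem D hx) (rk_star hD hx) hu hv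
  have e1 : D.f x * (u * D.f x) * (D.f x * (v * D.f x)) = D.f x * u * D.f x * v * D.f x := by
    rw [← mul_assoc (D.f x) u, ← mul_assoc, mul_assoc (D.f x * u) (D.f x) (D.f x), f_idem D hx,
      ← mul_assoc]
  rw [e1, h1, mul_assoc (D.f x) u, mul_assoc (D.f x) v]

theorem Mx_unit {D : S.Cs Ω} {x : E} (hx : S.Reg D.x x) {w : E ≃ₗᵢ[ℝ] E} (hw : w ∈ D.W) :
    ∃ b ∈ cr S.H (D.f x) (D.f x), Mx D x x w * b = D.f x := by
  obtain ⟨hn, -⟩ := W_rp hw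
  obtain ⟨hc, hc0⟩ := cw_spec hw
  obtain ⟨c', hc', h1, -, -⟩ := lin_unit hn hc hc0
  obtain ⟨a, ha, -, h2, -⟩ := f_inv D hx (W_reg hw hx)
  have hM : Mx D x x w * D.f x = Mx D x x w := by
    show D.f x * cw D w * D.f x * D.f x = D.f x * cw D w * D.f x
    rw [mul_assoc, f_idem D hx]
  have hMc : Mx D x x w * c' = D.f x * D.f (w x) := by
    have e1 : D.f x = S.e Ω x * D.ε := rfl
    have e2 : D.f (w x) = S.e Ω (w x) * D.ε := rfl
    have e3 := f_comm D (W_reg hw hx)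
    rw [Mx_eq hx hx hw, mul_assoc, h1, mul_assoc, ← e2, e1, mul_assoc,
      (f_abs D (W_reg hw hx)).2.2.1]
  refine ⟨D.f x * (c' * (D.f x * a) * D.f x), mem_cr.2 ⟨_, ?_, rfl⟩, ?_⟩
  · exact (sb Ω S.H).mul_mem (lin_mem (NN_H (NN_inv hn)).2 hc')
      ((sb Ω S.H).mul_mem (f_mem D x) ha)
  · rw [← mul_assoc, hM, ← mul_assoc, ← mul_assoc, hMc, ← mul_assoc, h2, f_idem D hx]

theorem tr_Mx_ne {D : S.Cs Ω} (hD : D.gnr) {x : E} (hx : S.Reg D.x x) {w : E ≃ₗᵢ[ℝ] E} (hw : w ∈ D.W) :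
    tr D.star (Mx D x x w) ≠ 0 := by
  obtain ⟨b, hb, h1⟩ := Mx_unit hx hw
  have h2 := tr_mul_star hD hx (Mx_mem hx hx hw) hb
  rw [h1, ← rk_tr (star_ir hD) (f_mem D x) (f_idem D hx), rk_star hD hx, Nat.cast_one] at h2
  intro h0
  rw [h0, zero_mul] at h2
  exact one_ne_zero h2

theorem T_uniq {D : S.Cs Ω} (hD : D.gnr) {x : E} (hx : S.Reg D.x x) {w : E ≃ₗᵢ[ℝ] E} (hw : w ∈ D.W)
    {b : Al Ω G} (hb : b ∈ D.ln (D.rp w) x) (h1 : tr D.star b = 1) : b = D.T x w := by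
  have hM := tr_Mx_ne hD hx hw
  have h : ∃ b ∈ D.ln (D.rp w) x, tr D.star b = 1 := ⟨b, hb, h1⟩
  have hT : D.T x w = h.choose := by
    unfold LieSys.Cs.T
    rw [dif_pos h]
  obtain ⟨h2, h3⟩ := h.choose_spec
  rw [← hT] at h2 h3
  obtain ⟨r, hr⟩ := (ln_iff hx hw).1 hb
  obtain ⟨s, hs⟩ := (ln_iff hx hw).1 h2
  rw [hr, map_smul, smul_eq_mul] at h1
  rw [hs, map_smul, smul_eq_mul] at h3
  have h4 : r = s := mul_right_cancel₀ hM (h1.trans h3.symm)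
  rw [hr, hs, h4]

theorem T_spec {D : S.Cs Ω} (hD : D.gnr) {x : E} (hx : S.Reg D.x x) {w : E ≃ₗᵢ[ℝ] E} (hw : w ∈ D.W) :
    (∃ r : Ω, r ≠ 0 ∧ D.T x w = r • Mx D x x w) ∧ tr D.star (D.T x w) = 1 ∧
      D.T x w ∈ D.ln (D.rp w) x := by
  have hM := tr_Mx_ne hD hx hw
  have h : ∃ b ∈ D.ln (D.rp w) x, tr D.star b = 1 := by
    refine ⟨(tr D.star (Mx D x x w))⁻¹ • Mx D x x w, (ln_iff hx hw).2 ⟨_, rfl⟩, ?_⟩
    rw [map_smul, smul_eq_mul, inv_mul_cancel₀ hM]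
  have hT : D.T x w = h.choose := by
    unfold LieSys.Cs.T
    rw [dif_pos h]
  obtain ⟨h1, h2⟩ := h.choose_spec
  rw [← hT] at h1 h2
  refine ⟨?_, h2, h1⟩
  obtain ⟨r, hr⟩ := (ln_iff hx hw).1 h1
  refine ⟨r, ?_, hr⟩
  rintro rfl
  rw [hr, zero_smul, map_zero] at h2
  exact zero_ne_one h2

theorem T_one {D : S.Cs Ω} (hD : D.gnr) {x : E} (hx : S.Reg D.x x) : D.T x 1 = D.f x := by
  have h1 : (1 : E ≃ₗᵢ[ℝ] E) ∈ D.W := D.W.one_mem
  symm
  refine T_uniq hD hx h1 ((ln_eq hx).2 ⟨D.ε, ?_, ?_⟩) ?_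
  · have h2 := (lin_congr (D' := D) (D := D) (n := 1) (m := D.rp 1)
      (NN_L S.N.one_mem (S.L D.x).one_mem) (by rw [inv_one, one_mul]; exact rp_one D)
      (W_rp h1).1.1).1
    rw [h2]
    refine ⟨D.ε, D.mem, ?_⟩
    rw [D.idem, dl_one, mul_one, D.idem]
  · rw [(f_abs D hx).2.2.2, f_idem D hx]
  · rw [← rk_tr (star_ir hD) (f_mem D x) (f_idem D hx), rk_star hD hx, Nat.cast_one]

theorem T_mem {D : S.Cs Ω} (hD : D.gnr) {x : E} (hx : S.Reg D.x x) {w : E ≃ₗᵢ[ℝ] E} (hw : w ∈ D.W) :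
    D.T x w ∈ cr S.H (D.f x) (D.f x) := by
  obtain ⟨⟨r, -, hr⟩, -, -⟩ := T_spec hD hx hw
  rw [hr]
  exact Submodule.smul_mem _ r (Mx_mem hx hx hw)

theorem T_abs {D : S.Cs Ω} (hD : D.gnr) {x : E} (hx : S.Reg D.x x) {w : E ≃ₗᵢ[ℝ] E} (hw : w ∈ D.W) :
    D.T x w ∈ sb Ω S.H ∧ D.f x * D.T x w = D.T x w ∧ D.T x w * D.f x = D.T x w := by
  obtain ⟨a, ha, h⟩ := mem_cr.1 (T_mem hD hx hw)
  rw [h]
  refine ⟨(sb Ω S.H).mul_mem (f_mem D x) ((sb Ω S.H).mul_mem ha (f_mem D x)), ?_, ?_⟩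
  · rw [← mul_assoc, f_idem D hx]
  · rw [mul_assoc, mul_assoc, f_idem D hx]

theorem T_li {D : S.Cs Ω} (hD : D.gnr) {x : E} (hx : S.Reg D.x x) :
    LinearIndependent Ω fun w : D.W => D.T x w := by
  choose r hr0 hr using fun w : D.W => (T_spec hD hx w.2).1
  have h1 := (Mx_li (D := D) hx hx).units_smul fun w => Units.mk0 (r w) (hr0 w)
  have h2 : (fun w : D.W => D.T x w) =
      (fun w => Units.mk0 (r w) (hr0 w)) • fun w : D.W => Mx D x x w := by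
    funext w
    rw [hr w]
    rfl
  rw [h2]
  exact h1

theorem T_span {D : S.Cs Ω} (hD : D.gnr) {x : E} (hx : S.Reg D.x x) :
    Submodule.span Ω (Set.range fun w : D.W => D.T x w) = cr S.H (D.f x) (D.f x) := by
  rw [← Mx_span hx hx]
  apply le_antisymm
  · rw [Submodule.span_le]
    rintro _ ⟨w, rfl⟩
    obtain ⟨⟨r, -, hr⟩, -, -⟩ := T_spec hD hx w.2
    show D.T x w ∈ _
    rw [hr]
    exact Submodule.smul_mem _ r (Submodule.subset_span ⟨w, rfl⟩)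
  · rw [Submodule.span_le]
    rintro _ ⟨w, rfl⟩
    obtain ⟨⟨r, hr0, hr⟩, -, -⟩ := T_spec hD hx w.2
    have h1 : Mx D x x w = r⁻¹ • D.T x w := by
      rw [hr, smul_smul, inv_mul_cancel₀ hr0, one_smul]
    show Mx D x x w ∈ _
    rw [h1]
    exact Submodule.smul_mem _ _ (Submodule.subset_span ⟨w, rfl⟩)

theorem T_t {D : S.Cs Ω} (hD : D.gnr) {x : E} (hx : S.Reg D.x x) {w : E ≃ₗᵢ[ℝ] E} (hw : w ∈ D.W)
    (h1 : w ≠ 1) : t (D.T x w) = 0 := by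
  obtain ⟨⟨r, -, hr⟩, -, -⟩ := T_spec hD hx hw
  obtain ⟨hn, hw'⟩ := W_rp hw
  have hL : D.rp w ∉ S.L D.x := fun h => h1 ((NN_fix hn hw hw').2 h)
  rw [hr, t_smul, Mx_eq hx hx hw, t_lin hn hL (cw_spec hw).1 hx (W_reg hw hx), mul_zero]

theorem T_star {D : S.Cs Ω} (hD : D.gnr) {x : E} (hx : S.Reg D.x x) {w : E ≃ₗᵢ[ℝ] E} (hw : w ∈ D.W) :
    D.T x w * cen S.H D.star = D.f x * cen S.H D.star ∧
      cen S.H D.star * D.T x w = D.f x * cen S.H D.star := by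
  have hs := star_ir hD
  obtain ⟨h1, h2, h3⟩ := T_abs hD hx hw
  have hz := cen_mem D.star hs
  have hc := cen_comm hs h1
  have hcf := cen_comm hs (f_mem D x)
  have hzz := cen_idem hs
  have htr := (T_spec hD hx hw).2.1
  have hff := f_idem D hx
  have hfm := f_mem D x
  have hrk : ∀ ψ ∈ ir Ω S.H, rk ψ (cen S.H D.star * D.f x) = if ψ = D.star then 1 else 0 := by
    intro ψ hψ
    rw [rk_cen hs hψ hfm hff, rk_star hD hx]
  have hgg : cen S.H D.star * D.f x * (cen S.H D.star * D.f x) = cen S.H D.star * D.f x := by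
    rw [mul_assoc, ← mul_assoc (D.f x), ← hcf, mul_assoc _ (D.f x) (D.f x), hff, ← mul_assoc, hzz]
  have hgT : cen S.H D.star * D.f x * D.T x w * (cen S.H D.star * D.f x) =
      cen S.H D.star * D.T x w := by
    rw [mul_assoc _ (D.f x) (D.T x w), h2, mul_assoc, ← mul_assoc (D.T x w), ← hc, mul_assoc _ _
      (D.f x), h3, ← mul_assoc, hzz]
  obtain ⟨-, h5⟩ := prim_of_rk ((sb Ω S.H).mul_mem hz hfm) hgg hs
    (by rw [hrk _ hs, if_pos rfl]) (fun ψ hψ hne => by rw [hrk ψ hψ, if_neg hne])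
  have h6 := h5 (D.T x w) h1
  rw [hgT, tr_cen hs hs h1, if_pos rfl, htr, one_smul, hcf] at h6
  exact ⟨by rw [← hc]; exact h6, h6⟩

end

end LieP
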