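import Pool.Agent.LieP.O01

/-!
# MP_6c3636_al, LieP, module O02: products of the normalised operators (6.2) (helper69)

`T_mul`: by `T_spec` and `Mx_mul` (K09, with `x2 = x1 = x`) `T x u * T x w = r • Mx D x x (u * w)` with `r ≠ 0`, this is a multiple of `T x (u * w)`; `tr D.star` of both sides (`tr_mul_star`, `T_spec`). `Ta_Psi`: the hypothesis for the roots of type (a) follows from that for `D.Psi` (`Psi_of`, `W_X`).
`T_mul'`: `T_mul`, `Ta_Psi`. `T_inv_pair`: `Disjoint (iv Psi x u⁻¹) (iv Psi x w)` gives the hypothesis of `T_mul'`: let `a ∈ Psi`, `⟨a, x⟩ ⟨a, u x⟩ < 0` and `⟨a, u x⟩ ⟨a, u (w x)⟩ < 0`; `b = ± u⁻¹ a ∈ Psi` (`W_Psi`, `of_Psi`), with the sign such that `⟨b, x⟩ > 0` (`⟨u⁻¹ a, x⟩ = ⟨a, u x⟩ ≠ 0`); then `⟨b, u⁻¹ x⟩ < 0` and `⟨b, w x⟩ < 0`.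
-/

namespace LieP

noncomputable section

open Classical

variable {Ω : Type} [Field Ω] [IsAlgClosed Ω] [CharZero Ω] {G E : Type} [Group G] [Finite G]
  [NormedAddCommGroup E] [InnerProductSpace ℝ E] [FiniteDimensional ℝ E] {S : LieSys G E}

theorem T_mul {D : S.Cs Ω} (hD : D.gnr) {x : E} (hx : S.Reg D.x x) {u w : E ≃ₗᵢ[ℝ] E} (hu : u ∈ D.W)
    (hw : w ∈ D.W) (h : ∀ a, D.Ta a → ¬ (inner ℝ a x * inner ℝ a (u x) < 0 ∧
      inner ℝ a (u x) * inner ℝ a (u (w x)) < 0)) : D.T x u * D.T x w = D.T x (u * w) := by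
  obtain ⟨⟨r1, hr1, e1⟩, t1, -⟩ := T_spec hD hx hu
  obtain ⟨⟨r2, hr2, e2⟩, t2, -⟩ := T_spec hD hx hw
  obtain ⟨⟨r3, hr3, e3⟩, t3, -⟩ := T_spec hD hx (D.W.mul_mem hu hw)
  obtain ⟨r, hr, e4⟩ := Mx_mul hx hx hx hu hw h
  have h5 : D.T x u * D.T x w = (r1 * r2 * r * r3⁻¹) • D.T x (u * w) := by
    rw [e1, e2, e3, smul_mul_smul_comm, e4, smul_smul, smul_smul]
    congr 1
    field_simp
  have h6 : tr D.star (D.T x u * D.T x w) = 1 := by
    rw [tr_mul_star hD hx (T_mem hD hx hu) (T_mem hD hx hw), t1, t2, mul_one]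
  have h7 : r1 * r2 * r * r3⁻¹ = 1 := by
    rw [h5, map_smul, t3, smul_eq_mul, mul_one] at h6
    exact h6
  rw [h5, h7, one_smul]

theorem Ta_Psi {D : S.Cs Ω} {x y z : E} (hx : x ∈ S.X D.x) (hy : y ∈ S.X D.x) (hz : z ∈ S.X D.x)
    (h : ∀ a ∈ D.Psi, ¬ (inner ℝ a x * inner ℝ a y < 0 ∧ inner ℝ a y * inner ℝ a z < 0)) :
    ∀ a, D.Ta a → ¬ (inner ℝ a x * inner ℝ a y < 0 ∧ inner ℝ a y * inner ℝ a z < 0) := by
  rintro a ha ⟨h1, h2⟩
  obtain ⟨b, hb, r, hr, e⟩ := Psi_of ha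
  rw [e x hx, e y hy] at h1
  rw [e y hy, e z hz] at h2
  have hrr : 0 < r * r := mul_pos hr hr
  refine h b hb ⟨?_, ?_⟩
  · have h3 : r * inner ℝ b x * (r * inner ℝ b y) = (r * r) * (inner ℝ b x * inner ℝ b y) := by ring
    rw [h3] at h1
    by_contra h4
    exact absurd h1 (not_lt.2 (mul_nonneg hrr.le (not_lt.1 h4)))
  · have h3 : r * inner ℝ b y * (r * inner ℝ b z) = (r * r) * (inner ℝ b y * inner ℝ b z) := by ring
    rw [h3] at h2
    by_contra h4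
    exact absurd h2 (not_lt.2 (mul_nonneg hrr.le (not_lt.1 h4)))

theorem T_mul' {D : S.Cs Ω} (hD : D.gnr) {x : E} (hx : S.Reg D.x x) {u w : E ≃ₗᵢ[ℝ] E} (hu : u ∈ D.W)
    (hw : w ∈ D.W) (h : ∀ a ∈ D.Psi, ¬ (inner ℝ a x * inner ℝ a (u x) < 0 ∧
      inner ℝ a (u x) * inner ℝ a (u (w x)) < 0)) : D.T x u * D.T x w = D.T x (u * w) := by
  have hX : x ∈ S.X D.x := reg_mem_X S hx
  exact T_mul hD hx hu hw (Ta_Psi hX (W_X hu hX) (W_X hu (W_X hw hX)) h)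

theorem T_inv_pair {D : S.Cs Ω} (hD : D.gnr) {x : E} (hx : S.Reg D.x x) {u w : E ≃ₗᵢ[ℝ] E}
    (hu : u ∈ D.W) (hw : w ∈ D.W) (h : Disjoint (iv D.Psi x u⁻¹) (iv D.Psi x w)) :
    D.T x u * D.T x w = D.T x (u * w) := by
  refine T_mul' hD hx hu hw ?_
  rintro a ha ⟨h1, h2⟩
  have hb : u⁻¹ a ∈ D.Psi := W_Psi (D.W.inv_mem hu) ha
  have k1 : inner ℝ (u⁻¹ a) x = inner ℝ a (u x) := by
    rw [← LinearIsometryEquiv.inner_map_map u (u⁻¹ a) x]
    congr 1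
    exact u.apply_symm_apply a
  have k2 : inner ℝ (u⁻¹ a) (u⁻¹ x) = inner ℝ a x := LinearIsometryEquiv.inner_map_map u⁻¹ a x
  have k3 : inner ℝ (u⁻¹ a) (w x) = inner ℝ a (u (w x)) := by
    rw [← LinearIsometryEquiv.inner_map_map u (u⁻¹ a) (w x)]
    congr 1
    exact u.apply_symm_apply a
  rw [Finset.disjoint_left] at h
  rcases lt_or_ge 0 (inner ℝ a (u x)) with h3 | h3
  · have h4 : inner ℝ a x < 0 := by
      by_contra h5
      exact absurd h1 (not_lt.2 (mul_nonneg (not_lt.1 h5) h3.le))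
    have h6 : inner ℝ a (u (w x)) < 0 := by
      by_contra h5
      exact absurd h2 (not_lt.2 (mul_nonneg h3.le (not_lt.1 h5)))
    refine h (a := u⁻¹ a) ?_ ?_
    · simp only [iv, ps, Finset.mem_filter]
      exact ⟨⟨hb, by rw [k1]; exact h3⟩, by rw [k2]; exact h4⟩
    · simp only [iv, ps, Finset.mem_filter]
      exact ⟨⟨hb, by rw [k1]; exact h3⟩, by rw [k3]; exact h6⟩
  · have h4 : 0 < inner ℝ a x := by
      by_contra h5
      exact absurd h1 (not_lt.2 (mul_nonneg_of_nonpos_of_nonpos (not_lt.1 h5) h3))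
    have h6 : 0 < inner ℝ a (u (w x)) := by
      by_contra h5
      exact absurd h2 (not_lt.2 (mul_nonneg_of_nonpos_of_nonpos h3 (not_lt.1 h5)))
    have h7 : inner ℝ a (u x) < 0 := by
      refine lt_of_le_of_ne h3 fun h8 => ?_
      rw [h8, mul_zero] at h1
      exact lt_irrefl _ h1
    have hb' : -(u⁻¹ a) ∈ D.Psi := (of_Psi hb).2.2.1
    refine h (a := -(u⁻¹ a)) ?_ ?_
    · simp only [iv, ps, Finset.mem_filter, inner_neg_left]
      exact ⟨⟨hb', by rw [k1]; linarith⟩, by rw [k2]; linarith⟩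
    · simp only [iv, ps, Finset.mem_filter, inner_neg_left]
      exact ⟨⟨hb', by rw [k1]; linarith⟩, by rw [k3]; linarith⟩

end

end LieP
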