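import Pool.Agent.LieP.O02

/-!
# MP_6c3636_al, LieP, module O03: another point in the same chamber (helper69)

`x`, `x1` regular, `D.NA x x1`. `al = f x * f x1`, `be = f x1 * f x`.
`sm_NA`: `NA_iff`, `Psi_reg`: `⟨a, x⟩ > 0 ↔ ⟨a, x1⟩ > 0` for `a ∈ Psi`, so the positive roots, hence the simple roots, the inversions (`⟨a, w x⟩ = ⟨w⁻¹ a, x⟩`, `W_Psi`) are the same.
`trans`: `al = e x * e x1 * ε`, `al * be = e x * e x1 * e x * ε = q • f x` with `q ≠ 0` (`f_comm`, `f_abs`, `cocyc` (C05) for `x`, `x1`, `x`); likewise `be * al = q' • f x1`; `q • al = (al * be) * al = al * (be * al) = q' • al`, `al ≠ 0`. `al * T x1 w * be`: `al`, `be` are nonzero multiples of `Mx D x x1 1`, `Mx D x1 x 1` (`cw D 1` is a nonzero multiple of `ε`: `lin_eps`, `rp_one`), `T x1 w` of `Mx D x1 x1 w`;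
by `Mx_mul` twice the product is a multiple `c • T x w` (no root of type (a) separates `x` and `x1`, nor `w x1` and `w x`: `NA_W`); `tr D.star (al * T x1 w * be) = tr D.star (T x1 w * (be * al)) = q` (`tr_mul_comm`, A05; `T_spec`), so `c = q`. By symmetry (`NA_symm`) the second equation (or multiply the first with `be`, `al`).
`T_conj_lin`: the map `a ↦ q⁻¹ • (be * a * al)` is an isomorphism of the algebras `cr S.H (f x) (f x)` and `cr S.H (f x1) (f x1)`; only this form is needed: for `a, b` with `a = f x * a`, `b = b * f x`: `(be * b * al) * (be * a * al) = q • (be * (b * a) * al)` (`al * be = q • f x`).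
`p_NA`: `T x (rfn a) * T x (rfn a) = (1 - r) • T x (rfn a) + r • f x` iff the same for `x1` (conjugate with `be`, `al`; `rfn a ∈ D.W`: `of_Psi`), and `r` is determined by the equation (`T x (rfn a)`, `f x = T x 1` are linearly independent, `T_li`, `rfn a ≠ 1`); so the two `choose` agree.
`eJ_NA`: `heS D.T x1 .. J` is `q⁻¹ • (be * heS D.T x .. J * al)` (`wj J ≤ D.W`: `of_Psi`; the signs agree: `sm_NA`), it is not zero (`T_li`), so `r` with `r • heS` idempotent, `r ≠ 0` is unique, and it is the same for `x` and `x1`. `rk_eJ_NA`: `rk_equiv` (A05) for `q⁻¹ • (al * eJ x1 J)` and `eJ x1 J * be` (`eJ` is idempotent or zero by definition).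
-/

namespace LieP

noncomputable section

open Classical

variable {Ω : Type} [Field Ω] [IsAlgClosed Ω] [CharZero Ω] {G E : Type} [Group G] [Finite G]
  [NormedAddCommGroup E] [InnerProductSpace ℝ E] [FiniteDimensional ℝ E] {S : LieSys G E}

namespace O03_aux

/-- no root separates in the chosen sense -/
theorem pos_iff {D : S.Cs Ω} {x x1 : E} (hx : S.Reg D.x x) (hx1 : S.Reg D.x x1) (h : D.NA x x1)
    {a : E} (ha : a ∈ D.Psi) : (0 < inner ℝ a x ↔ 0 < inner ℝ a x1) := by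
  have h1 := (NA_iff (reg_mem_X S hx1) (reg_mem_X S hx)).1 h a ha
  have h2 : inner ℝ a x ≠ 0 := Psi_reg hx ha
  have h3 : inner ℝ a x1 ≠ 0 := Psi_reg hx1 ha
  constructor
  · intro h4
    by_contra h5
    exact h1 (mul_neg_of_pos_of_neg h4 (lt_of_le_of_ne (not_lt.1 h5) h3))
  · intro h4
    by_contra h5
    exact h1 (mul_neg_of_neg_of_pos (lt_of_le_of_ne (not_lt.1 h5) h2) h4)

theorem neg_iff {D : S.Cs Ω} {x x1 : E} (hx : S.Reg D.x x) (hx1 : S.Reg D.x x1) (h : D.NA x x1)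
    {a : E} (ha : a ∈ D.Psi) : (inner ℝ a x < 0 ↔ inner ℝ a x1 < 0) := by
  have h1 := pos_iff hx hx1 h ha
  have h2 : inner ℝ a x ≠ 0 := Psi_reg hx ha
  have h3 : inner ℝ a x1 ≠ 0 := Psi_reg hx1 ha
  constructor
  · intro h4
    rcases lt_or_gt_of_ne h3 with h5 | h5
    · exact h5
    · exact absurd (h1.2 h5) (not_lt.2 h4.le)
  · intro h4
    rcases lt_or_gt_of_ne h2 with h5 | h5
    · exact h5
    · exact absurd (h1.1 h5) (not_lt.2 h4.le)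

/-- the basic relation -/
theorem fff {D : S.Cs Ω} {x x1 : E} (hx : S.Reg D.x x) (hx1 : S.Reg D.x x1) (h : D.NA x x1) :
    ∃ q : Ω, q ≠ 0 ∧ D.f x * D.f x1 * D.f x = q • D.f x := by
  obtain ⟨r, hr, h1⟩ := cocyc D hx hx1 hx (fun a ha h2 => h a ha h2.1)
  refine ⟨r, hr, ?_⟩
  have e1 : D.f x * D.f x1 = S.e Ω x * D.f x1 := by
    show S.e Ω x * D.ε * D.f x1 = _
    rw [mul_assoc, (f_abs D hx1).2.2.1]
  have e2 : D.f x1 * D.f x = S.e Ω x1 * D.f x := by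
    show S.e Ω x1 * D.ε * D.f x = _
    rw [mul_assoc, (f_abs D hx).2.2.1]
  have e3 : D.f x * D.f x1 * D.f x = S.e Ω x * S.e Ω x1 * S.e Ω x * D.ε := by
    rw [e1, mul_assoc, e2]
    show S.e Ω x * (S.e Ω x1 * (S.e Ω x * D.ε)) = _
    rw [mul_assoc, mul_assoc]
  rw [e3, h1, e_idem]
  rfl

/-- both relations with the same factor -/
theorem fff2 {D : S.Cs Ω} {x x1 : E} (hx : S.Reg D.x x) (hx1 : S.Reg D.x x1) (h : D.NA x x1) :
    ∃ q : Ω, q ≠ 0 ∧ D.f x * D.f x1 * D.f x = q • D.f x ∧ D.f x1 * D.f x * D.f x1 = q • D.f x1 := by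
  obtain ⟨q, hq, h1⟩ := fff hx hx1 h
  obtain ⟨q', hq', h2⟩ := fff hx1 hx (NA_symm h)
  refine ⟨q, hq, h1, ?_⟩
  have h3 : D.f x * D.f x1 ≠ 0 := by
    intro h4
    rw [h4, zero_mul] at h1
    exact (smul_ne_zero hq (f_ne D hx)) h1.symm
  have h4 : q • (D.f x * D.f x1) = q' • (D.f x * D.f x1) := by
    rw [← smul_mul_assoc, ← h1, ← mul_smul_comm, ← h2]
    simp only [mul_assoc]
  have h5 : q = q' := by
    by_contra h6
    have h7 : (q - q') • (D.f x * D.f x1) = 0 := by rw [sub_smul, h4, sub_self]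
    exact (smul_ne_zero (sub_ne_zero.2 h6) h3) h7
  rw [h5]
  exact h2

theorem cw_one (D : S.Cs Ω) : ∃ r : Ω, r ≠ 0 ∧ cw D 1 = r • D.ε := by
  have hw : (1 : E ≃ₗᵢ[ℝ] E) ∈ D.W := D.W.one_mem
  obtain ⟨r, hr⟩ := lin_eps (NN_H (W_rp hw).1).1 (rp_one D) (cw_spec hw).1
  refine ⟨r, ?_, hr⟩
  intro h0
  apply (cw_spec hw).2
  rw [hr, h0, zero_smul]

theorem Mx_one {D : S.Cs Ω} {x x1 : E} (hx : S.Reg D.x x) :
    ∃ r : Ω, r ≠ 0 ∧ D.f x * D.f x1 = r • Mx D x x1 1 := by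
  obtain ⟨r, hr, h1⟩ := cw_one D
  refine ⟨r⁻¹, inv_ne_zero hr, ?_⟩
  show _ = r⁻¹ • (D.f x * cw D 1 * D.f x1)
  rw [h1, mul_smul_comm, smul_mul_assoc, smul_smul, inv_mul_cancel₀ hr, one_smul,
    (f_abs D hx).2.2.2]

/-- the conjugate of `T x1 w` is a multiple of `T x w` -/
theorem conj_T {D : S.Cs Ω} (hD : D.gnr) {x x1 : E} (hx : S.Reg D.x x) (hx1 : S.Reg D.x x1)
    (h : D.NA x x1) {w : E ≃ₗᵢ[ℝ] E} (hw : w ∈ D.W) :
    ∃ c : Ω, D.f x * D.f x1 * D.T x1 w * (D.f x1 * D.f x) = c • D.T x w := by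
  obtain ⟨r1, hr1, h1⟩ := Mx_one (D := D) (x := x) (x1 := x1) hx
  obtain ⟨r2, hr2, h2⟩ := Mx_one (D := D) (x := x1) (x1 := x) hx1
  obtain ⟨⟨r3, hr3, h3⟩, -, -⟩ := T_spec hD hx1 hw
  obtain ⟨⟨r4, hr4, h4⟩, -, -⟩ := T_spec hD hx hw
  obtain ⟨r5, hr5, h5⟩ := Mx_mul (D := D) (x2 := x) (x1 := x1) (x := x1) hx hx1 hx1 D.W.one_mem hw
    (fun a ha h6 => h a ha h6.1)
  obtain ⟨r6, hr6, h6⟩ := Mx_mul (D := D) (x2 := x) (x1 := x1) (x := x) hx hx1 hx hw D.W.one_mem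
    (fun a ha h6 => ((NA_W hw (reg_mem_X S hx1) (reg_mem_X S hx)).2 (NA_symm h)) a ha h6.2)
  rw [one_mul] at h5
  rw [mul_one] at h6
  refine ⟨r1 * r3 * r5 * r2 * r6 * r4⁻¹, ?_⟩
  rw [h1, h2, h3, h4, smul_mul_smul_comm, h5, smul_smul, smul_mul_smul_comm, h6, smul_smul, smul_smul]
  congr 1
  rw [inv_mul_cancel_right₀ hr4]

theorem trans' {D : S.Cs Ω} (hD : D.gnr) {x x1 : E} (hx : S.Reg D.x x) (hx1 : S.Reg D.x x1)
    (h : D.NA x x1) {q : Ω} (hq : D.f x1 * D.f x * D.f x1 = q • D.f x1) {w : E ≃ₗᵢ[ℝ] E}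
    (hw : w ∈ D.W) : D.f x * D.f x1 * D.T x1 w * (D.f x1 * D.f x) = q • D.T x w := by
  obtain ⟨c, hc⟩ := conj_T hD hx hx1 h hw
  have m1 : D.f x * D.f x1 ∈ sb Ω S.H := (sb Ω S.H).mul_mem (f_mem D x) (f_mem D x1)
  have m2 : D.T x1 w * (D.f x1 * D.f x) ∈ sb Ω S.H :=
    (sb Ω S.H).mul_mem (T_abs hD hx1 hw).1 ((sb Ω S.H).mul_mem (f_mem D x1) (f_mem D x))
  have e1 : D.T x1 w * (D.f x1 * D.f x) * (D.f x * D.f x1) = q • D.T x1 w := by
    have e2 : D.T x1 w * (D.f x1 * D.f x) * (D.f x * D.f x1) =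
        D.T x1 w * (D.f x1 * (D.f x * D.f x) * D.f x1) := by simp only [mul_assoc]
    rw [e2, f_idem D hx, hq, mul_smul_comm, (T_abs hD hx1 hw).2.2]
  have e3 : tr D.star (D.f x * D.f x1 * D.T x1 w * (D.f x1 * D.f x)) = q := by
    rw [mul_assoc (D.f x * D.f x1), tr_mul_comm (star_ir hD) m1 m2, e1, map_smul,
      (T_spec hD hx1 hw).2.1, smul_eq_mul, mul_one]
  have e4 : c = q := by
    rw [hc, map_smul, (T_spec hD hx hw).2.1, smul_eq_mul, mul_one] at e3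
    exact e3
  rw [hc, e4]

/-- the conjugation with the transition -/
def kp (D : S.Cs Ω) (x x1 : E) : Al Ω G →ₗ[Ω] Al Ω G :=
  (LinearMap.mulLeft Ω (D.f x1 * D.f x)).comp (LinearMap.mulRight Ω (D.f x * D.f x1))

theorem kp_apply (D : S.Cs Ω) (x x1 : E) (a : Al Ω G) :
    kp D x x1 a = D.f x1 * D.f x * a * (D.f x * D.f x1) := by
  show D.f x1 * D.f x * (a * (D.f x * D.f x1)) = _
  rw [mul_assoc (D.f x1 * D.f x)]

theorem kp_mul {D : S.Cs Ω} {x x1 : E} {q : Ω} (hq : D.f x * D.f x1 * (D.f x1 * D.f x) = q • D.f x)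
    {a b : Al Ω G} (ha : a * D.f x = a) : kp D x x1 a * kp D x x1 b = q • kp D x x1 (a * b) := by
  rw [kp_apply, kp_apply, kp_apply]
  have e1 : D.f x1 * D.f x * a * (D.f x * D.f x1) * (D.f x1 * D.f x * b * (D.f x * D.f x1)) =
      D.f x1 * D.f x * (a * (D.f x * D.f x1 * (D.f x1 * D.f x))) * b * (D.f x * D.f x1) := by
    simp only [mul_assoc]
  rw [e1, hq, mul_smul_comm, ha, mul_smul_comm, smul_mul_assoc, smul_mul_assoc]
  simp only [mul_assoc]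

/-- the number chosen for a predicate -/
def chz {Ω : Type} [Field Ω] (P : Ω → Prop) : Ω := if h : ∃ r : Ω, P r then h.choose else 0

theorem finite_wj {D : S.Cs Ω} {J : Finset E} (hJ : wj J ≤ D.W) : Finite (wj J) := by
  have := fin_W D
  exact Finite.of_injective (Subgroup.inclusion hJ) (Subgroup.inclusion_injective hJ)

theorem heS_eq {D : S.Cs Ω} {J : Finset E} [Fintype (wj J)] (x : E) :
    heS Ω (D.T x) D.Psi x J = ∑ w : wj J, ((-1 : Ω) ^ (iv D.Psi x w).card) • D.T x w :=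
  finsum_eq_sum_of_fintype _

theorem eJ_eq (D : S.Cs Ω) (x : E) (J : Finset E) :
    D.eJ x J = chz (fun r : Ω => r ≠ 0 ∧ (r • heS Ω (D.T x) D.Psi x J) *
      (r • heS Ω (D.T x) D.Psi x J) = r • heS Ω (D.T x) D.Psi x J) • heS Ω (D.T x) D.Psi x J := by
  unfold LieSys.Cs.eJ he chz
  split_ifs with h
  · rfl
  · rw [zero_smul]

theorem sm_sub (Psi : Finset E) (x : E) : sm Psi x ⊆ Psi :=
  (Finset.filter_subset _ _).trans (Finset.filter_subset _ _)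

end O03_aux

open O03_aux

theorem sm_NA {D : S.Cs Ω} {x x1 : E} (hx : S.Reg D.x x) (hx1 : S.Reg D.x x1) (h : D.NA x x1) :
    ps D.Psi x = ps D.Psi x1 ∧ sm D.Psi x = sm D.Psi x1 := by
  have h1 : ps D.Psi x = ps D.Psi x1 := Finset.filter_congr fun a ha => pos_iff hx hx1 h ha
  refine ⟨h1, ?_⟩
  unfold sm
  rw [h1]

theorem iv_NA {D : S.Cs Ω} {x x1 : E} (hx : S.Reg D.x x) (hx1 : S.Reg D.x x1) (h : D.NA x x1)
    {w : E ≃ₗᵢ[ℝ] E} (hw : w ∈ D.W) : iv D.Psi x w = iv D.Psi x1 w := by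
  unfold iv
  rw [(sm_NA hx hx1 h).1]
  refine Finset.filter_congr fun a ha => ?_
  have h1 : a ∈ D.Psi := (Finset.mem_filter.1 ha).1
  rw [inner_act w a x, inner_act w a x1]
  exact neg_iff hx hx1 h (W_Psi (D.W.inv_mem hw) h1)

/-- the transition between two points of the same chamber -/
theorem trans {D : S.Cs Ω} (hD : D.gnr) {x x1 : E} (hx : S.Reg D.x x) (hx1 : S.Reg D.x x1)
    (h : D.NA x x1) : ∃ q : Ω, q ≠ 0 ∧ D.f x * D.f x1 * (D.f x1 * D.f x) = q • D.f x ∧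
      D.f x1 * D.f x * (D.f x * D.f x1) = q • D.f x1 ∧
      (∀ w ∈ D.W, D.f x * D.f x1 * D.T x1 w * (D.f x1 * D.f x) = q • D.T x w) ∧
      ∀ w ∈ D.W, D.f x1 * D.f x * D.T x w * (D.f x * D.f x1) = q • D.T x1 w := by
  obtain ⟨q, hq, h1, h2⟩ := fff2 hx hx1 h
  refine ⟨q, hq, ?_, ?_, fun w hw => trans' hD hx hx1 h h2 hw,
    fun w hw => trans' hD hx1 hx (NA_symm h) h1 hw⟩
  · have e1 : D.f x * D.f x1 * (D.f x1 * D.f x) = D.f x * (D.f x1 * D.f x1) * D.f x := by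
      simp only [mul_assoc]
    rw [e1, f_idem D hx1, h1]
  · have e1 : D.f x1 * D.f x * (D.f x * D.f x1) = D.f x1 * (D.f x * D.f x) * D.f x1 := by
      simp only [mul_assoc]
    rw [e1, f_idem D hx, h2]

namespace O03_aux

/-- everything for a given factor -/
theorem trans_q {D : S.Cs Ω} (hD : D.gnr) {x x1 : E} (hx : S.Reg D.x x) (hx1 : S.Reg D.x x1)
    (h : D.NA x x1) {q : Ω} (hq : D.f x * D.f x1 * (D.f x1 * D.f x) = q • D.f x) : q ≠ 0 ∧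
      D.f x1 * D.f x * (D.f x * D.f x1) = q • D.f x1 ∧
      (∀ w ∈ D.W, kp D x1 x (D.T x1 w) = q • D.T x w) ∧
      ∀ w ∈ D.W, kp D x x1 (D.T x w) = q • D.T x1 w := by
  obtain ⟨q', h0, h1, h2, h3, h4⟩ := trans hD hx hx1 h
  have h5 : q = q' := by
    by_contra h6
    have h7 : (q - q') • D.f x = 0 := by rw [sub_smul, ← hq, ← h1, sub_self]
    exact (smul_ne_zero (sub_ne_zero.2 h6) (f_ne D hx)) h7
  subst h5
  refine ⟨h0, h2, fun w hw => ?_, fun w hw => ?_⟩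
  · rw [kp_apply]
    exact h3 w hw
  · rw [kp_apply]
    exact h4 w hw

theorem smul_cancel {q : Ω} (hq : q ≠ 0) {a b : Al Ω G} (h : q • a = q • b) : a = b := by
  have h1 := congrArg (fun c => q⁻¹ • c) h
  simp only [smul_smul] at h1
  rw [inv_mul_cancel₀ hq, one_smul, one_smul] at h1
  exact h1

theorem p_imp {D : S.Cs Ω} (hD : D.gnr) {x x1 : E} (hx : S.Reg D.x x) (hx1 : S.Reg D.x x1)
    (h : D.NA x x1) {a : E} (ha : a ∈ D.Psi) {r : Ω}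
    (h1 : D.T x (rfn a) * D.T x (rfn a) = (1 - r) • D.T x (rfn a) + r • D.f x) :
    D.T x1 (rfn a) * D.T x1 (rfn a) = (1 - r) • D.T x1 (rfn a) + r • D.f x1 := by
  obtain ⟨q, h0, hq, -, -, -⟩ := trans hD hx hx1 h
  obtain ⟨-, -, -, h3⟩ := trans_q hD hx hx1 h hq
  have hw : rfn a ∈ D.W := (of_Psi ha).2.2.2.1
  have h4 : kp D x x1 (D.f x) = q • D.f x1 := by
    have := h3 1 D.W.one_mem
    rw [T_one hD hx, T_one hD hx1] at this
    exact this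
  have h5 := kp_mul (D := D) (x := x) (x1 := x1) hq (a := D.T x (rfn a)) (b := D.T x (rfn a))
    (T_abs hD hx hw).2.2
  rw [h3 _ hw, h1, map_add, map_smul, map_smul, h3 _ hw, h4, smul_mul_smul_comm, ← smul_smul] at h5
  have h6 := smul_cancel h0 h5
  rw [smul_comm (1 - r) q, smul_comm r q, ← smul_add] at h6
  exact smul_cancel h0 h6

theorem kp_heS {D : S.Cs Ω} (hD : D.gnr) {x x1 : E} (hx : S.Reg D.x x) (hx1 : S.Reg D.x x1)
    (h : D.NA x x1) {J : Finset E} (hJ : wj J ≤ D.W) {q : Ω}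
    (hq : D.f x * D.f x1 * (D.f x1 * D.f x) = q • D.f x) :
    kp D x x1 (heS Ω (D.T x) D.Psi x J) = q • heS Ω (D.T x1) D.Psi x1 J := by
  have := finite_wj hJ
  let _ := Fintype.ofFinite (wj J)
  obtain ⟨-, -, -, h3⟩ := trans_q hD hx hx1 h hq
  rw [heS_eq, heS_eq, map_sum, Finset.smul_sum]
  refine Finset.sum_congr rfl fun w _ => ?_
  rw [map_smul, h3 _ (hJ w.2), iv_NA hx hx1 h (hJ w.2), smul_comm]

theorem heS_abs {D : S.Cs Ω} (hD : D.gnr) {x : E} (hx : S.Reg D.x x) {J : Finset E}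
    (hJ : wj J ≤ D.W) : heS Ω (D.T x) D.Psi x J ∈ sb Ω S.H ∧
      D.f x * heS Ω (D.T x) D.Psi x J = heS Ω (D.T x) D.Psi x J ∧
      heS Ω (D.T x) D.Psi x J * D.f x = heS Ω (D.T x) D.Psi x J := by
  have := finite_wj hJ
  let _ := Fintype.ofFinite (wj J)
  rw [heS_eq]
  refine ⟨Subalgebra.sum_mem _ fun w _ => Subalgebra.smul_mem _ (T_abs hD hx (hJ w.2)).1 _, ?_, ?_⟩
  · rw [Finset.mul_sum]
    refine Finset.sum_congr rfl fun w _ => ?_
    rw [mul_smul_comm, (T_abs hD hx (hJ w.2)).2.1]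
  · rw [Finset.sum_mul]
    refine Finset.sum_congr rfl fun w _ => ?_
    rw [smul_mul_assoc, (T_abs hD hx (hJ w.2)).2.2]

theorem he_imp {D : S.Cs Ω} (hD : D.gnr) {x x1 : E} (hx : S.Reg D.x x) (hx1 : S.Reg D.x x1)
    (h : D.NA x x1) {J : Finset E} (hJ : wj J ≤ D.W) {r : Ω}
    (h1 : (r • heS Ω (D.T x) D.Psi x J) * (r • heS Ω (D.T x) D.Psi x J) =
      r • heS Ω (D.T x) D.Psi x J) :
    (r • heS Ω (D.T x1) D.Psi x1 J) * (r • heS Ω (D.T x1) D.Psi x1 J) =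
      r • heS Ω (D.T x1) D.Psi x1 J := by
  obtain ⟨q, h0, hq, -, -, -⟩ := trans hD hx hx1 h
  have h5 := kp_mul (D := D) (x := x) (x1 := x1) hq (a := r • heS Ω (D.T x) D.Psi x J)
    (b := r • heS Ω (D.T x) D.Psi x J) (by rw [smul_mul_assoc, (heS_abs hD hx hJ).2.2])
  rw [h1, map_smul, kp_heS hD hx hx1 h hJ hq, smul_comm r q, smul_mul_smul_comm, ← smul_smul] at h5
  exact smul_cancel h0 (smul_cancel h0 h5)

end O03_aux

theorem p_NA {D : S.Cs Ω} (hD : D.gnr) {x x1 : E} (hx : S.Reg D.x x) (hx1 : S.Reg D.x x1)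
    (h : D.NA x x1) {a : E} (ha : a ∈ D.Psi) : D.p x a = D.p x1 a := by
  show chz (fun r : Ω => D.T x (rfn a) * D.T x (rfn a) = (1 - r) • D.T x (rfn a) + r • D.f x) =
    chz (fun r : Ω => D.T x1 (rfn a) * D.T x1 (rfn a) = (1 - r) • D.T x1 (rfn a) + r • D.f x1)
  refine congrArg chz (funext fun r => propext ⟨fun h1 => ?_, fun h1 => ?_⟩)
  · exact p_imp hD hx hx1 h ha h1
  · exact p_imp hD hx1 hx (NA_symm h) ha h1

theorem wj_le_W {D : S.Cs Ω} {J : Finset E} (hJ : J ⊆ D.Psi) : wj J ≤ D.W := by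
  refine (Subgroup.closure_le _).2 ?_
  rintro _ ⟨a, ha, rfl⟩
  exact (of_Psi (hJ ha)).2.2.2.1

theorem heS_ne {D : S.Cs Ω} (hD : D.gnr) {x : E} (hx : S.Reg D.x x) {J : Finset E} (hJ : J ⊆ D.Psi) :
    heS Ω (D.T x) D.Psi x J ≠ 0 := by
  have hJ' := wj_le_W (D := D) hJ
  have := finite_wj hJ'
  let _ := Fintype.ofFinite (wj J)
  rw [heS_eq]
  intro h0
  have h1 : LinearIndependent Ω fun w : wj J => D.T x w :=
    (T_li hD hx).comp (Subgroup.inclusion hJ') (Subgroup.inclusion_injective hJ')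
  have h2 := (Fintype.linearIndependent_iff.1 h1) (fun w => (-1 : Ω) ^ (iv D.Psi x w).card) h0 1
  exact (pow_ne_zero _ (neg_ne_zero.2 one_ne_zero)) h2

theorem eJ_abs {D : S.Cs Ω} (hD : D.gnr) {x : E} (hx : S.Reg D.x x) {J : Finset E} (hJ : J ⊆ D.Psi) :
    D.eJ x J ∈ sb Ω S.H ∧ D.eJ x J * D.eJ x J = D.eJ x J ∧ D.f x * D.eJ x J = D.eJ x J ∧
      D.eJ x J * D.f x = D.eJ x J := by
  have h1 := heS_abs hD hx (wj_le_W (D := D) hJ)
  unfold LieSys.Cs.eJ he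
  split_ifs with h
  · refine ⟨Subalgebra.smul_mem _ h1.1 _, h.choose_spec.2, ?_, ?_⟩
    · rw [mul_smul_comm, h1.2.1]
    · rw [smul_mul_assoc, h1.2.2]
  · exact ⟨Subalgebra.zero_mem _, mul_zero _, mul_zero _, zero_mul _⟩

theorem eJ_NA {D : S.Cs Ω} (hD : D.gnr) {x x1 : E} (hx : S.Reg D.x x) (hx1 : S.Reg D.x x1)
    (h : D.NA x x1) {J : Finset E} (hJ : J ⊆ D.Psi) {q : Ω}
    (hq : D.f x * D.f x1 * (D.f x1 * D.f x) = q • D.f x) :
    D.f x1 * D.f x * D.eJ x J * (D.f x * D.f x1) = q • D.eJ x1 J := by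
  have hJ' := wj_le_W (D := D) hJ
  have h1 : (fun r : Ω => r ≠ 0 ∧ (r • heS Ω (D.T x) D.Psi x J) *
      (r • heS Ω (D.T x) D.Psi x J) = r • heS Ω (D.T x) D.Psi x J) =
      (fun r : Ω => r ≠ 0 ∧ (r • heS Ω (D.T x1) D.Psi x1 J) *
      (r • heS Ω (D.T x1) D.Psi x1 J) = r • heS Ω (D.T x1) D.Psi x1 J) :=
    funext fun r => propext ⟨fun h2 => ⟨h2.1, he_imp hD hx hx1 h hJ' h2.2⟩,
      fun h2 => ⟨h2.1, he_imp hD hx1 hx (NA_symm h) hJ' h2.2⟩⟩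
  rw [← kp_apply, eJ_eq, eJ_eq, h1, map_smul, kp_heS hD hx hx1 h hJ' hq, smul_comm]

theorem rk_eJ_NA {D : S.Cs Ω} (hD : D.gnr) {x x1 : E} (hx : S.Reg D.x x) (hx1 : S.Reg D.x x1)
    (h : D.NA x x1) {J : Finset E} (hJ : J ⊆ sm D.Psi x) {φ : G → Ω} (hφ : φ ∈ ir Ω S.H) :
    rk φ (D.eJ x J) = rk φ (D.eJ x1 J) := by
  have hJ' : J ⊆ D.Psi := hJ.trans (sm_sub _ _)
  obtain ⟨q, h0, hq, hq', -, -⟩ := trans hD hx hx1 h
  have h1 := eJ_NA hD hx1 hx (NA_symm h) hJ' hq'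
  obtain ⟨m1, i1, -, -⟩ := eJ_abs hD hx hJ'
  obtain ⟨m2, i2, a2, b2⟩ := eJ_abs hD hx1 hJ'
  have mx : q⁻¹ • (D.f x * D.f x1 * D.eJ x1 J) ∈ sb Ω S.H := Subalgebra.smul_mem _
    ((sb Ω S.H).mul_mem ((sb Ω S.H).mul_mem (f_mem D x) (f_mem D x1)) m2) _
  have my : D.eJ x1 J * (D.f x1 * D.f x) ∈ sb Ω S.H :=
    (sb Ω S.H).mul_mem m2 ((sb Ω S.H).mul_mem (f_mem D x1) (f_mem D x))
  have e1 : q⁻¹ • (D.f x * D.f x1 * D.eJ x1 J) * (D.eJ x1 J * (D.f x1 * D.f x)) = D.eJ x J := by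
    have e2 : D.f x * D.f x1 * D.eJ x1 J * (D.eJ x1 J * (D.f x1 * D.f x)) =
        D.f x * D.f x1 * (D.eJ x1 J * D.eJ x1 J) * (D.f x1 * D.f x) := by simp only [mul_assoc]
    rw [smul_mul_assoc, e2, i2, h1, smul_smul, inv_mul_cancel₀ h0, one_smul]
  have e3 : D.eJ x1 J * (D.f x1 * D.f x) * (q⁻¹ • (D.f x * D.f x1 * D.eJ x1 J)) = D.eJ x1 J := by
    have e4 : D.eJ x1 J * (D.f x1 * D.f x) * (D.f x * D.f x1 * D.eJ x1 J) =
        D.eJ x1 J * (D.f x1 * D.f x * (D.f x * D.f x1)) * D.eJ x1 J := by simp only [mul_assoc]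
    rw [mul_smul_comm, e4, hq', mul_smul_comm, smul_mul_assoc, smul_smul, inv_mul_cancel₀ h0,
      one_smul, b2, i2]
  have h2 := rk_equiv hφ mx my (by rw [e1, i1]) (by rw [e3, i2])
  rw [e1, e3] at h2
  exact h2

end

end LieP
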