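import Pool.Agent.LieP.O06

/-!
# MP_6c3636_al, LieP, module O04: the quadratic relation (6.3) (helper69)

`a ∈ sm D.Psi x`. `exists_wall`: let `y` be as in the definition of `sm` (`⟨a, y⟩ = 0`, `⟨b, y⟩ > 0` for the other positive `b`); its projection `y'` to `X = S.X D.x` has the same products with the elements of `Psi` (they are in `X`: `of_Psi`). The finitely many roots `k ∈ S.R` with `⟨k, D.x⟩ ≠ 0` such that `D.pj k` is not a multiple of `a` define nonzero functionals on `X ∩ aᗮ`,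
so there is `u ∈ X ∩ aᗮ` with `⟨k, u⟩ ≠ 0` for all of them (a finite union of proper subspaces of a real vector space is a proper subset: `Submodule.iUnion_ssubset_of_forall_ne_top_of_card_lt` or `Subspace.biUnion_ne_univ_of_top_nmem` or similar); `z = y' + r • u` for a small `r > 0` outside of a finite set. `pj k = r • a` with `r ≠ 0` since `k` is not zero at `D.x ∈ X`.
`wall_fix`: let `w ∈ D.W`, `w z = z`, `n = rp w ∈ D.NN D` (`W_rp`), `ac n z = z`, `n ∈ L z` (`s8'`). Let `y ∈ X`, `⟨a, y⟩ = 0`. Every root `k` with `⟨k, z⟩ = 0` has `⟨k, y⟩ = 0` (if `⟨k, D.x⟩ = 0` then as `y ∈ X`, otherwise `⟨k, y⟩ = ⟨pj k, y⟩ = r ⟨a, y⟩`), so `n ∈ L y` (`L_mono`), `ac n y = y` (`S.s8` with `v = u = 1`, `l = n`), `w y = y`. `w` is also the identity on the orthogonal complement of `X` (`mem_W`), so it fixes `aᗮ` (`a ∈ X`), it is an isometry, `‖a‖ = 1`, so `w a = a` or `w a = -a`.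
`cm_wall`: `x1 = S.cm z x` (`reg_cm`, `le_cm`). `NA x x1`: let `k` be of type (a); `b ∈ D.Psi` as in `Psi_of`, up to the sign `b ∈ ps D.Psi x`; if `b = a` then `⟨k, z⟩ = 0` and `⟨k, x1⟩` has the sign of `⟨k, x⟩` (`cm_pos`, `cm_zero`), otherwise `⟨b, z⟩ > 0` and `⟨k, x1⟩` has the sign of `⟨k, z⟩`.
`T_sq`: `s = rfn a ∈ D.W` (`of_Psi`), `s z = z`. `D' = levD D z _`, its Weyl group is `{1, s}` (`lev_W`, `wall_fix`), `T' = D'.T x1 s`, `T' * T' ∈ cr (L z) (D'.f x1) (D'.f x1)` is a combination `α • D'.T x1 1 + β • T'` (`T_span` for `D'`; `gnr` of `D'`: V09 `gnr_lev`; `(lev S z).H = S.L z`), `tr D'.star` gives `α + β = 1` (`tr_mul_star`, `T_spec`).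
Multiply by `e z` (it is idempotent and commutes with `sb Ω (L z)`: `e_comm`): by `lev_T` (O06) `T x1 s * T x1 s = (1 - α) • T x1 s + α • f x1` (`T_one`, `e_levD_f`). Conjugate with `f x * f x1`, `f x1 * f x` (`trans`, O03): the same equation at `x`. So the `r` in the definition of `D.p x a` exists, `choose_spec`.
-/

namespace LieP

noncomputable section

open Classical

variable {Ω : Type} [Field Ω] [IsAlgClosed Ω] [CharZero Ω] {G E : Type} [Group G] [Finite G]
  [NormedAddCommGroup E] [InnerProductSpace ℝ E] [FiniteDimensional ℝ E] {S : LieSys G E}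

namespace O04_aux

omit [FiniteDimensional ℝ E] in
/-- a vector on which finitely many functionals do not vanish -/
theorem exists_avoid (W : Submodule ℝ E) (K : Finset E)
    (h : ∀ k ∈ K, ∃ u ∈ W, inner ℝ k u ≠ 0) : ∃ u ∈ W, ∀ k ∈ K, inner ℝ k u ≠ 0 := by
  induction K using Finset.induction_on with
  | empty => exact ⟨0, W.zero_mem, fun k hk => absurd hk (Finset.notMem_empty k)⟩
  | insert k K hk ih =>
    obtain ⟨u0, hu0, h0⟩ := ih fun k' hk' => h k' (Finset.mem_insert_of_mem hk')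
    obtain ⟨u1, hu1, h1⟩ := h k (Finset.mem_insert_self k K)
    obtain ⟨t, ht⟩ := Infinite.exists_notMem_finset
      ((insert k K).image fun k' => -inner ℝ k' u0 / inner ℝ k' u1)
    refine ⟨u0 + t • u1, W.add_mem hu0 (W.smul_mem t hu1), fun k' hk' hz => ?_⟩
    rw [inner_add_right, inner_smul_right] at hz
    by_cases h2 : inner ℝ k' u1 = 0
    · rw [h2, mul_zero, add_zero] at hz
      rcases Finset.mem_insert.1 hk' with rfl | h3
      · exact h1 h2
      · exact h0 k' h3 hz
    · refine ht (Finset.mem_image.2 ⟨k', hk', ?_⟩)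
      rw [div_eq_iff h2]
      linarith

/-- the roots and their projections -/
theorem pj_inner (D : S.Cs Ω) (k : E) {y : E} (hy : y ∈ S.X D.x) :
    inner ℝ k y = inner ℝ (D.pj k) y := by
  have h := Submodule.starProjection_inner_eq_zero (K := S.X D.x) k y hy
  rw [inner_sub_left] at h
  show _ = inner ℝ ((S.X D.x).starProjection k) y
  linarith

end O04_aux

open O04_aux

/-- a point of the wall of `a` on which only the multiples of `a` vanish -/
theorem exists_wall {D : S.Cs Ω} {x : E} (hx : S.Reg D.x x) {a : E} (ha : a ∈ sm D.Psi x) :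
    ∃ z ∈ S.X D.x, inner ℝ a z = 0 ∧ (∀ b ∈ ps D.Psi x, b ≠ a → 0 < inner ℝ b z) ∧
      ∀ k ∈ S.R, inner ℝ k z = 0 → inner ℝ k D.x ≠ 0 → ∃ r : ℝ, r ≠ 0 ∧ D.pj k = r • a := by
  obtain ⟨haps, y, hay, hby⟩ := Finset.mem_filter.1 ha
  have haP : a ∈ D.Psi := (Finset.mem_filter.1 haps).1
  obtain ⟨ha1, haX, _, _, _⟩ := of_Psi haP
  have hDx : D.x ∈ S.X D.x := reg_mem_X S (reg_refl S D.x)
  set y' := (S.X D.x).starProjection y with hy'
  have hy'X : y' ∈ S.X D.x := Submodule.starProjection_apply_mem _ _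
  have hyy : ∀ b ∈ S.X D.x, inner ℝ b y' = inner ℝ b y := by
    intro b hb
    have h := Submodule.starProjection_inner_eq_zero (K := S.X D.x) y b hb
    rw [inner_sub_left] at h
    rw [real_inner_comm y' b, real_inner_comm y b]
    linarith
  obtain ⟨u, hu, hku⟩ := exists_avoid (S.X D.x ⊓ (ℝ ∙ a)ᗮ)
    (S.R.filter fun k => ¬ ∃ r : ℝ, D.pj k = r • a) (by
      intro k hk
      obtain ⟨hkR, hk'⟩ := Finset.mem_filter.1 hk
      have hpX : D.pj k ∈ S.X D.x := Submodule.starProjection_apply_mem _ _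
      refine ⟨D.pj k - (inner ℝ a (D.pj k) : ℝ) • a, ⟨Submodule.sub_mem _ hpX
        (Submodule.smul_mem _ _ haX), ?_⟩, ?_⟩
      · refine (Submodule.mem_orthogonal_singleton_iff_inner_right).2 ?_
        rw [inner_sub_right, inner_smul_right, real_inner_self_eq_norm_sq, ha1]
        ring
      · intro h0
        rw [pj_inner D k (Submodule.sub_mem _ hpX (Submodule.smul_mem _ _ haX))] at h0
        have h1 : inner ℝ (D.pj k - (inner ℝ a (D.pj k) : ℝ) • a)
            (D.pj k - (inner ℝ a (D.pj k) : ℝ) • a) = 0 := by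
          rw [inner_sub_left, h0, inner_smul_left, inner_sub_right, inner_smul_right,
            real_inner_self_eq_norm_sq, ha1]
          ring
        rw [inner_self_eq_zero] at h1
        exact hk' ⟨_, sub_eq_zero.1 h1⟩)
  have huX : u ∈ S.X D.x := hu.1
  have hau : inner ℝ a u = 0 := (Submodule.mem_orthogonal_singleton_iff_inner_right).1 hu.2
  refine ⟨S.cm y' u, Submodule.add_mem _ hy'X (Submodule.smul_mem _ _ huX), ?_, ?_, ?_⟩
  · show inner ℝ a (y' + S.eps y' u • u) = 0
    rw [inner_add_right, inner_smul_right, hau, hyy a haX, hay, mul_zero, add_zero]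
  · intro b hb hba
    obtain ⟨_, hbX, _, _, b', hb', r, hr, hbr⟩ := of_Psi (Finset.mem_filter.1 hb).1
    have h1 : 0 < inner ℝ b y' := by
      rw [hyy b hbX]
      exact hby b hb hba
    have h2 : 0 < inner ℝ b' (S.cm y' u) := by
      rw [cm_pos S hb'.1]
      left
      rw [hbr y' hy'X]
      exact mul_pos hr h1
    rw [hbr (S.cm y' u) (Submodule.add_mem _ hy'X (Submodule.smul_mem _ _ huX))] at h2
    exact (pos_iff_pos_of_mul_pos h2).1 hr
  · intro k hk hkz hkx
    rw [cm_zero S hk] at hkz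
    by_contra hcon
    have h1 : k ∈ S.R.filter fun k => ¬ ∃ r : ℝ, D.pj k = r • a := by
      refine Finset.mem_filter.2 ⟨hk, ?_⟩
      rintro ⟨r, hr⟩
      by_cases hr0 : r = 0
      · rw [hr0, zero_smul] at hr
        apply hkx
        rw [pj_inner D k hDx, hr, inner_zero_left]
      · exact hcon ⟨r, hr0, hr⟩
    exact hku k h1 hkz.2

theorem wall_fix {D : S.Cs Ω} {x : E} (hx : S.Reg D.x x) {a : E} (ha : a ∈ sm D.Psi x) {z : E}
    (hz : z ∈ S.X D.x) (hk : ∀ k ∈ S.R, inner ℝ k z = 0 → inner ℝ k D.x ≠ 0 →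
      ∃ r : ℝ, r ≠ 0 ∧ D.pj k = r • a) {w : E ≃ₗᵢ[ℝ] E} (hw : w ∈ D.W) (hwz : w z = z) :
    w = 1 ∨ w = rfn a := by
  obtain ⟨haps, _⟩ := Finset.mem_filter.1 ha
  have haP : a ∈ D.Psi := (Finset.mem_filter.1 haps).1
  obtain ⟨ha1, haX, _, _, _⟩ := of_Psi haP
  obtain ⟨hn, hag⟩ := W_rp hw
  have hnN : D.rp w ∈ S.N := hn.1
  have hLz : D.rp w ∈ S.L z := (fix_iff S hnN).1 (by rw [← hag z hz, hwz])
  have hfixX : ∀ y ∈ S.X D.x, inner ℝ a y = 0 → w y = y := by
    intro y hy hay
    have h1 : S.L z ≤ S.L y := by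
      refine L_mono S fun k hkR hkz => ?_
      by_cases h0 : inner ℝ k D.x = 0
      · exact hy k hkR h0
      · obtain ⟨r, _, hr⟩ := hk k hkR hkz h0
        rw [pj_inner D k hy, hr, inner_smul_left, hay, mul_zero]
    rw [hag y hy]
    exact (fix_iff S hnN).2 (h1 hLz)
  have hfix : ∀ v, inner ℝ a v = 0 → w v = v := by
    intro v hv
    have h1 : (S.X D.x).starProjection v ∈ S.X D.x := Submodule.starProjection_apply_mem _ _
    have h2 : v - (S.X D.x).starProjection v ∈ (S.X D.x)ᗮ :=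
      Submodule.sub_starProjection_mem_orthogonal _
    have h3 := (mem_W.1 hw).1 _ h2
    have h4 : inner ℝ a ((S.X D.x).starProjection v) = 0 := by
      have h5 := Submodule.starProjection_inner_eq_zero (K := S.X D.x) v a haX
      rw [inner_sub_left, real_inner_comm a v, hv] at h5
      rw [real_inner_comm]
      linarith
    have h5 := hfixX _ h1 h4
    have h6 : v = (S.X D.x).starProjection v + (v - (S.X D.x).starProjection v) := by abel
    calc w v = w ((S.X D.x).starProjection v + (v - (S.X D.x).starProjection v)) := by rw [← h6]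
      _ = (S.X D.x).starProjection v + (v - (S.X D.x).starProjection v) := by
        rw [map_add, h5, h3]
      _ = v := h6.symm
  have hwa : ∃ c : ℝ, w a = c • a := by
    have h1 : w a ∈ (ℝ ∙ a)ᗮᗮ := by
      rw [Submodule.mem_orthogonal]
      intro v hv
      have hv' : inner ℝ a v = 0 := (Submodule.mem_orthogonal_singleton_iff_inner_right).1 hv
      rw [real_inner_comm, ← hfix v hv', LinearIsometryEquiv.inner_map_map]
      exact hv'
    rw [Submodule.orthogonal_orthogonal, Submodule.mem_span_singleton] at h1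
    obtain ⟨c, hc⟩ := h1
    exact ⟨c, hc.symm⟩
  obtain ⟨c, hc⟩ := hwa
  have hc1 : |c| = 1 := by
    have h1 := LinearIsometryEquiv.norm_map w a
    rw [hc, norm_smul, ha1, mul_one] at h1
    exact h1
  have hdec : ∀ v, w v = v + ((c - 1) * inner ℝ a v) • a := by
    intro v
    have h1 : inner ℝ a (v - (inner ℝ a v : ℝ) • a) = 0 := by
      rw [inner_sub_right, inner_smul_right, real_inner_self_eq_norm_sq, ha1]
      ring
    have h2 := hfix _ h1
    rw [map_sub, map_smul, hc] at h2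
    have h3 : w v = v - (inner ℝ a v : ℝ) • a + (inner ℝ a v : ℝ) • c • a := by
      rw [← h2]
      abel
    rw [h3, sub_mul, sub_smul, smul_smul, one_mul, mul_comm c]
    abel
  rcases (abs_eq (by norm_num : (0:ℝ) ≤ 1)).1 hc1 with h | h
  · left
    ext v
    rw [hdec v, h, sub_self, zero_mul, zero_smul, add_zero]
    rfl
  · right
    ext v
    rw [hdec v, rfn_apply ha1, h]
    rw [show ((-1 : ℝ) - 1) * inner ℝ a v = -(2 * inner ℝ a v) by ring, neg_smul]
    abel

theorem cm_wall {D : S.Cs Ω} {x : E} (hx : S.Reg D.x x) {a : E} (ha : a ∈ sm D.Psi x) {z : E}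
    (hz : z ∈ S.X D.x) (haz : inner ℝ a z = 0) (hb : ∀ b ∈ ps D.Psi x, b ≠ a → 0 < inner ℝ b z) :
    S.Reg D.x (S.cm z x) ∧ S.le z (S.cm z x) ∧ D.NA x (S.cm z x) := by
  have hR := reg_cm S hx hz
  have hxX : x ∈ S.X D.x := reg_mem_X S hx
  have hRX : S.cm z x ∈ S.X D.x := reg_mem_X S hR
  refine ⟨hR, le_cm S z x, ?_⟩
  rw [NA_iff hRX hxX]
  have key : ∀ b ∈ ps D.Psi x, 0 < inner ℝ b (S.cm z x) := by
    intro b hbp
    obtain ⟨hbP, hbx⟩ := Finset.mem_filter.1 hbp
    obtain ⟨_, _, _, _, b', hb', r, hr, hbr⟩ := of_Psi hbP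
    have h2 : 0 < inner ℝ b' (S.cm z x) := by
      rw [cm_pos S hb'.1]
      by_cases hba : b = a
      · right
        refine ⟨?_, ?_⟩
        · rw [hbr z hz, hba, haz, mul_zero]
        · rw [hbr x hxX]
          exact mul_pos hr hbx
      · left
        rw [hbr z hz]
        exact mul_pos hr (hb b hbp hba)
    rw [hbr _ hRX] at h2
    exact (pos_iff_pos_of_mul_pos h2).1 hr
  intro b hbP hcon
  rcases lt_or_gt_of_ne (Psi_reg hx hbP) with h | h
  · obtain ⟨_, _, hnb, _, _⟩ := of_Psi hbP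
    have h1 : -b ∈ ps D.Psi x := by
      refine Finset.mem_filter.2 ⟨hnb, ?_⟩
      rw [inner_neg_left]
      linarith
    have h2 := key _ h1
    rw [inner_neg_left] at h2
    nlinarith
  · have h2 := key b (Finset.mem_filter.2 ⟨hbP, h⟩)
    nlinarith [mul_pos h h2]

theorem T_sq {D : S.Cs Ω} (hD : D.gnr) {x : E} (hx : S.Reg D.x x) {a : E} (ha : a ∈ sm D.Psi x) :
    D.T x (rfn a) * D.T x (rfn a) = (1 - D.p x a) • D.T x (rfn a) + D.p x a • D.f x := by
  obtain ⟨z, hz, haz, hbz, hkz⟩ := exists_wall hx ha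
  obtain ⟨hx1, hle, hNA⟩ := cm_wall hx ha hz haz hbz
  have haP : a ∈ D.Psi := (Finset.mem_filter.1 (Finset.mem_filter.1 ha).1).1
  obtain ⟨ha1, haX, _, hsW, _⟩ := of_Psi haP
  set x1 := S.cm z x with hx1d
  set s := rfn a with hs
  have hsz : s z = z := rfn_fix ha1 haz
  have hx1' : (lev S z).Reg (levD D z hz).x x1 := levD_reg_of hx1
  have hD' : (levD D z hz).gnr := (lev_gnr hz).2 hD
  have hsW' : s ∈ (levD D z hz).W := (lev_W hz).2 ⟨hsW, hsz⟩
  have h1W' : (1 : E ≃ₗᵢ[ℝ] E) ∈ (levD D z hz).W := Subgroup.one_mem _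
  obtain ⟨hT1, hT2, hT3⟩ := T_abs hD' hx1' hsW'
  obtain ⟨α, β, hαβ⟩ : ∃ α β : Ω, α • (levD D z hz).T x1 1 + β • (levD D z hz).T x1 s =
      (levD D z hz).T x1 s * (levD D z hz).T x1 s := by
    rw [← Submodule.mem_span_pair]
    have h1 : (levD D z hz).T x1 s * (levD D z hz).T x1 s ∈
        cr (lev S z).H ((levD D z hz).f x1) ((levD D z hz).f x1) := by
      refine ⟨(levD D z hz).T x1 s * (levD D z hz).T x1 s, (sb Ω (lev S z).H).mul_mem hT1 hT1, ?_⟩
      show (levD D z hz).f x1 * ((levD D z hz).T x1 s * (levD D z hz).T x1 s *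
        (levD D z hz).f x1) = _
      rw [mul_assoc, hT3, ← mul_assoc, hT2]
    rw [← T_span hD' hx1'] at h1
    refine Submodule.span_mono ?_ h1
    rintro _ ⟨w, rfl⟩
    obtain ⟨hw1, hw2⟩ := (lev_W hz).1 w.2
    rcases wall_fix hx ha hz hkz hw1 hw2 with h | h
    · left
      show (levD D z hz).T x1 w = _
      rw [h]
    · right
      show (levD D z hz).T x1 w = _
      rw [h]
  have hsum : α + β = 1 := by
    have h1 := congrArg (tr (levD D z hz).star) hαβ
    rw [map_add, map_smul, map_smul, (T_spec hD' hx1' h1W').2.1, (T_spec hD' hx1' hsW').2.1,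
      tr_mul_star hD' hx1' (T_mem hD' hx1' hsW') (T_mem hD' hx1' hsW'),
      (T_spec hD' hx1' hsW').2.1, smul_eq_mul, smul_eq_mul, mul_one, mul_one, mul_one] at h1
    exact h1
  have hez : S.e Ω z * S.e Ω z = S.e Ω z := av_idem _
  have hcomm : S.e Ω z * (levD D z hz).T x1 s = (levD D z hz).T x1 s * S.e Ω z :=
    (e_comm (S := S) (x := z) hT1).symm
  have hsq : D.T x1 s * D.T x1 s = (1 - α) • D.T x1 s + α • D.f x1 := by
    have h1 := lev_T hD hz hx1 hle hsW hsz
    have h2 := lev_T hD hz hx1 hle (Subgroup.one_mem D.W) (rfl : (1 : E ≃ₗᵢ[ℝ] E) z = z)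
    rw [T_one hD hx1] at h2
    calc D.T x1 s * D.T x1 s = S.e Ω z * (levD D z hz).T x1 s * (S.e Ω z * (levD D z hz).T x1 s) := by
          rw [h1]
      _ = S.e Ω z * (((levD D z hz).T x1 s * S.e Ω z) * (levD D z hz).T x1 s) := by
          simp only [mul_assoc]
      _ = S.e Ω z * ((S.e Ω z * (levD D z hz).T x1 s) * (levD D z hz).T x1 s) := by rw [← hcomm]
      _ = (S.e Ω z * S.e Ω z) * ((levD D z hz).T x1 s * (levD D z hz).T x1 s) := by
          simp only [mul_assoc]
      _ = S.e Ω z * ((levD D z hz).T x1 s * (levD D z hz).T x1 s) := by rw [hez]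
      _ = S.e Ω z * (α • (levD D z hz).T x1 1 + β • (levD D z hz).T x1 s) := by rw [hαβ]
      _ = α • D.f x1 + β • D.T x1 s := by
          rw [mul_add, mul_smul_comm, mul_smul_comm, h1, h2]
      _ = (1 - α) • D.T x1 s + α • D.f x1 := by
          rw [add_comm, show β = 1 - α by rw [← hsum]; ring]
  obtain ⟨q, hq, hq1, hq2, hq3, _⟩ := trans hD hx hx1 hNA
  have hT1s := T_abs hD hx1 hsW
  have h3 := hq3 s hsW
  have h4 := hq3 1 (Subgroup.one_mem D.W)
  rw [T_one hD hx1, T_one hD hx] at h4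
  have hfin : D.T x s * D.T x s = (1 - α) • D.T x s + α • D.f x := by
    have h5 : (q * q) • (D.T x s * D.T x s) = (q * q) • ((1 - α) • D.T x s + α • D.f x) := by
      calc (q * q) • (D.T x s * D.T x s) = (q • D.T x s) * (q • D.T x s) := by
            rw [smul_mul_smul_comm]
        _ = (D.f x * D.f x1 * D.T x1 s * (D.f x1 * D.f x)) *
              (D.f x * D.f x1 * D.T x1 s * (D.f x1 * D.f x)) := by rw [h3]
        _ = D.f x * D.f x1 * (D.T x1 s * (D.f x1 * D.f x * (D.f x * D.f x1)) * D.T x1 s) *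
              (D.f x1 * D.f x) := by simp only [mul_assoc]
        _ = q • (D.f x * D.f x1 * (D.T x1 s * D.T x1 s) * (D.f x1 * D.f x)) := by
            rw [hq2, mul_smul_comm, hT1s.2.2, smul_mul_assoc, mul_smul_comm, smul_mul_assoc]
        _ = q • (q • ((1 - α) • D.T x s + α • D.f x)) := by
            rw [hsq, mul_add, mul_smul_comm, mul_smul_comm, add_mul, smul_mul_assoc,
              smul_mul_assoc, h3, h4, smul_comm _ q, smul_comm _ q, ← smul_add]
        _ = _ := by rw [smul_smul]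
    exact smul_right_injective _ (mul_ne_zero hq hq) h5
  have hex : ∃ r : Ω, D.T x (rfn a) * D.T x (rfn a) = (1 - r) • D.T x (rfn a) + r • D.f x :=
    ⟨α, hfin⟩
  have hp : D.p x a = hex.choose := dif_pos hex
  rw [hp]
  exact hex.choose_spec

end

end LieP
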