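import Pool.Agent.LieP.O04
import Pool.Agent.LieP.H02
import Pool.Agent.LieP.F07
import Pool.Agent.LieP.F08

/-!
# MP_6c3636_al, LieP, module O05: the reflection data and the Hecke data of a cuspidal idempotent (helper69)

`rg`: `fin_W`, `of_Psi`, `W_Psi`, `Psi_reg` (M07); `rg_smp`: let `w ∈ D.W`, `⟨a, w x⟩ > 0` for all `a ∈ Psi` with `⟨a, x⟩ > 0`: `NA x (w x)` (`NA_iff`), `n = rp w`, `w x = ac n x` (`W_rp`, `reg_mem_X`), `n ∈ L D.x` by `hT : D.TaH`, `w = 1` (`NN_fix`).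
`exists_gc`: `g = D.f x * cen S.H D.star` is in `cr S.H (f x) (f x)` (`cen` is central in `sb Ω S.H` and idempotent, A07), so it is a combination of the `T x w`, `w ∈ D.W` (`T_span`, `D.W` finite; put the coefficient `0` outside of `D.W`); `tr D.star g = tr D.star (f x) = 1` and `tr D.star (T x w) = 1` (`T_spec`) give the sum of the coefficients.
`hd`: `T_li`, `T_inv_pair` (O02), `T_sq` (O04) with `T_one`, `T_star`. `hd_e`: by definition.
`eJ_empty` etc.: the facts on the idempotents `e_J` of H02 for the Hecke data `hd`. `eJ_prim`: H02, and `T_span`: `eJ S * a * eJ S = eJ S * (f x * a * f x) * eJ S`, `f x * a * f x` is a combination of the `T x w`, and `T x w * eJ S = ± (product of the p) • eJ S`.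
`rk_star_eJ`: for `a ∈ J`, `T x (rfn a) * eJ J = - p a • eJ J` (H02), `T x (rfn a) * cen star = f x * cen star` (`T_star`): `(1 + p a) • (cen star * eJ J) = 0`, so `tr star (eJ J) = tr star (cen star * eJ J) = 0`.
-/

namespace LieP

noncomputable section

open Classical

variable {Ω : Type} [Field Ω] [IsAlgClosed Ω] [CharZero Ω] {G E : Type} [Group G] [Finite G]
  [NormedAddCommGroup E] [InnerProductSpace ℝ E] [FiniteDimensional ℝ E] {S : LieSys G E}

theorem rg_smp {D : S.Cs Ω} (hT : D.TaH) {x : E} (hx : S.Reg D.x x) : ∀ w ∈ D.W,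
    (∀ a ∈ D.Psi, 0 < inner ℝ a x → 0 < inner ℝ a (w x)) → w = 1 := by
  intro w hw h
  obtain ⟨h1, h2⟩ := W_rp hw
  have hxX : x ∈ S.X D.x := reg_mem_X S hx
  have hNA : D.NA x (w x) := by
    rw [NA_iff (W_X hw hxX) hxX]
    intro a ha hlt
    rcases lt_trichotomy (inner ℝ a x) 0 with h0 | h0 | h0
    · have h3 := h (-a) (of_Psi ha).2.2.1 (by rw [inner_neg_left]; linarith)
      rw [inner_neg_left] at h3
      have := mul_pos_of_neg_of_neg h0 (by linarith : inner ℝ a (w x) < 0)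
      linarith
    · rw [h0, zero_mul] at hlt
      exact lt_irrefl _ hlt
    · have := mul_pos h0 (h a ha h0)
      linarith
  rw [h2 x hxX] at hNA
  exact (NN_fix h1 hw h2).2 (hT _ h1 x hx hNA)

private theorem tr_star_f {D : S.Cs Ω} (hD : D.gnr) {x : E} (hx : S.Reg D.x x) : tr D.star (D.f x) = 1 := by
  rw [← rk_tr (star_ir hD) (f_mem D x) (f_idem D hx), rk_star hD hx, Nat.cast_one]

omit [IsAlgClosed Ω] in
private theorem sm_W {D : S.Cs Ω} {x a : E} (ha : a ∈ sm D.Psi x) : a ∈ D.Psi ∧ rfn a ∈ D.W := by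
  have h1 : a ∈ D.Psi := (Finset.mem_filter.1 (Finset.mem_filter.1 ha).1).1
  exact ⟨h1, (of_Psi h1).2.2.2.1⟩

/-- the data of section 7 -/
def rg (D : S.Cs Ω) (hT : D.TaH) (x : E) (hx : S.Reg D.x x) : RG E where
  W := D.W
  Psi := D.Psi
  x := x
  fin := fin_W D
  unit := fun _ h => (of_Psi h).1
  neg := fun _ h => (of_Psi h).2.2.1
  stab := fun _ hw _ h => W_Psi hw h
  rf := fun _ h => (of_Psi h).2.2.2.1
  reg := fun _ h => Psi_reg hx h
  smp := rg_smp hT hx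

theorem exists_gc {D : S.Cs Ω} (hD : D.gnr) {x : E} (hx : S.Reg D.x x) :
    ∃ gc : (E ≃ₗᵢ[ℝ] E) → Ω, D.f x * cen S.H D.star = ∑ᶠ w : D.W, gc w • D.T x w ∧
      ∑ᶠ w : D.W, gc w = 1 := by
  have : Finite D.W := fin_W D
  have : Fintype D.W := Fintype.ofFinite _
  have hs := star_ir hD
  have hf := f_mem D x
  have hff := f_idem D hx
  have hcf := cen_comm hs hf
  have h1 : D.f x * cen S.H D.star ∈ cr S.H (D.f x) (D.f x) := by
    refine Submodule.mem_map.2 ⟨cen S.H D.star, cen_mem _ hs, ?_⟩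
    show D.f x * (cen S.H D.star * D.f x) = _
    rw [hcf, ← mul_assoc, hff]
  rw [← T_span hD hx, Submodule.mem_span_range_iff_exists_fun] at h1
  obtain ⟨c, hc⟩ := h1
  refine ⟨fun w => if h : w ∈ D.W then c ⟨w, h⟩ else 0, ?_, ?_⟩
  · rw [finsum_eq_sum_of_fintype, ← hc]
    refine Finset.sum_congr rfl fun w _ => ?_
    simp only
    rw [dif_pos w.2]
  · rw [finsum_eq_sum_of_fintype]
    have h2 := congrArg (tr D.star) hc
    rw [map_sum, ← hcf, tr_cen hs hs hf, if_pos rfl, tr_star_f hD hx] at h2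
    rw [← h2]
    refine Finset.sum_congr rfl fun w _ => ?_
    simp only
    rw [dif_pos w.2, map_smul, (T_spec hD hx w.2).2.1, smul_eq_mul, mul_one]

/-- the Hecke data -/
def hd (D : S.Cs Ω) (hD : D.gnr) (hT : D.TaH) (c : Parker.Ctx Ω) (x : E) (hx : S.Reg D.x x)
    (hc : ∀ a ∈ sm D.Psi x, c.av (D.p x a) < 1 ∧ 1 + D.p x a ≠ 0) : HD c (rg D hT x hx) (Al Ω G) where
  T := D.T x
  p := D.p x
  g := D.f x * cen S.H D.star
  gc := (exists_gc hD hx).choose
  li := T_li hD hx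
  mul := fun _ hu _ hw h => T_inv_pair hD hx hu hw h
  sq := by
    intro s hs
    rw [T_one hD hx]
    exact T_sq hD hx hs
  lt := fun s hs => (hc s hs).1
  ne := fun s hs => (hc s hs).2
  gT := by
    intro s hs
    have h1 := (sm_W hs).2
    rw [← mul_assoc, (T_abs hD hx h1).2.2, (T_star hD hx h1).1]
  Tg := by
    intro s hs
    have h1 := (sm_W hs).2
    rw [mul_assoc, (T_star hD hx h1).2, ← mul_assoc, f_idem D hx]
  g_eq := (exists_gc hD hx).choose_spec.1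
  g_sum := (exists_gc hD hx).choose_spec.2

section

variable {D : S.Cs Ω} (hD : D.gnr) (hT : D.TaH) {c : Parker.Ctx Ω} {x : E} (hx : S.Reg D.x x)
  (hc : ∀ a ∈ sm D.Psi x, c.av (D.p x a) < 1 ∧ 1 + D.p x a ≠ 0)

theorem hd_e (J : Finset E) : (hd D hD hT c x hx hc).e J = D.eJ x J := rfl

include hD hT hx hc

theorem eJ_empty : D.eJ x ∅ = D.f x := by
  rw [← T_one hD hx]
  exact he_empty (hd D hD hT c x hx hc)

theorem eJ_ne {J : Finset E} (hJ : J ⊆ sm D.Psi x) : D.eJ x J ≠ 0 :=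
  he_ne (hd D hD hT c x hx hc) hJ

theorem T_eJ {J : Finset E} (hJ : J ⊆ sm D.Psi x) {a : E} (ha : a ∈ J) :
    D.T x (rfn a) * D.eJ x J = -(D.p x a) • D.eJ x J ∧
      D.eJ x J * D.T x (rfn a) = -(D.p x a) • D.eJ x J :=
  T_he (hd D hD hT c x hx hc) hJ ha

theorem eJ_mul {J J' : Finset E} (hJ : J ⊆ J') (hJ' : J' ⊆ sm D.Psi x) :
    D.eJ x J * D.eJ x J' = D.eJ x J' ∧ D.eJ x J' * D.eJ x J = D.eJ x J' :=
  he_mul (hd D hD hT c x hx hc) hJ hJ'

theorem eJ_prim {a : Al Ω G} (ha : a ∈ sb Ω S.H) :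
    ∃ r : Ω, D.eJ x (sm D.Psi x) * a * D.eJ x (sm D.Psi x) = r • D.eJ x (sm D.Psi x) := by
  have hsub : sm D.Psi x ⊆ D.Psi := fun b hb => (sm_W hb).1
  obtain ⟨-, h2, h3, h4⟩ := eJ_abs hD hx hsub
  have h5 : D.f x * (a * D.f x) ∈ cr S.H (D.f x) (D.f x) := Submodule.mem_map.2 ⟨a, ha, rfl⟩
  rw [← T_span hD hx] at h5
  have h6 : D.f x * (a * D.f x) ∈ (hd D hD hT c x hx hc).sp := by
    refine Submodule.span_mono ?_ h5
    rintro _ ⟨w, rfl⟩
    exact ⟨w, w.2, rfl⟩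
  obtain ⟨r, hr, -⟩ := he_S (hd D hD hT c x hx hc) h6
  have hr' : D.eJ x (sm D.Psi x) * (D.f x * (a * D.f x)) = r • D.eJ x (sm D.Psi x) := hr
  refine ⟨r, ?_⟩
  calc D.eJ x (sm D.Psi x) * a * D.eJ x (sm D.Psi x)
      = (D.eJ x (sm D.Psi x) * D.f x) * a * (D.f x * D.eJ x (sm D.Psi x)) := by rw [h3, h4]
    _ = (D.eJ x (sm D.Psi x) * (D.f x * (a * D.f x))) * D.eJ x (sm D.Psi x) := by simp only [mul_assoc]
    _ = r • D.eJ x (sm D.Psi x) := by rw [hr', smul_mul_assoc, h2]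

theorem rk_star_eJ {J : Finset E} (hJ : J ⊆ sm D.Psi x) (h0 : J.Nonempty) :
    rk D.star (D.eJ x J) = 0 := by
  obtain ⟨a, ha⟩ := h0
  have hsub : J ⊆ D.Psi := fun b hb => (sm_W (hJ hb)).1
  obtain ⟨h1, h2, h3, h4⟩ := eJ_abs hD hx hsub
  have hs := star_ir hD
  have h5 := (T_eJ hD hT hx hc hJ ha).1
  have h6 := (T_star hD hx (sm_W (hJ ha)).2).2
  have h7 : cen S.H D.star * (D.T x (rfn a) * D.eJ x J) = cen S.H D.star * (-(D.p x a) • D.eJ x J) := by rw [h5]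
  rw [← mul_assoc, h6, ← cen_comm hs (f_mem D x), mul_assoc, h3, mul_smul_comm] at h7
  have h8 : (1 + D.p x a) • (cen S.H D.star * D.eJ x J) = 0 := by
    rw [add_smul, one_smul]
    nth_rewrite 1 [h7]
    rw [neg_smul, neg_add_cancel]
  have h9 : cen S.H D.star * D.eJ x J = 0 := (smul_eq_zero.1 h8).resolve_left (hc a (hJ ha)).2
  exact (cen_mul_eq_zero hs h1 h2).1 h9

end

end

end LieP
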