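import Pool.Agent.LieP.O03
import Pool.Agent.LieP.K05

/-!
# MP_6c3636_al, LieP, module O06: the operators of the Levi systems (helper69)

`y ∈ S.X D.x`, `x` regular, `S.le y x`, `D' = levD D y hy` (M08), `f' = D'.f x = av (U x ⊓ L y) * ε`, `e y * f' = f x` (`e_levD_f`), `(lev S y).H = S.L y`, `e y` commutes with `sb Ω (S.L y)` (`e_comm`).
`e_inj`: for `b ∈ sb Ω (L y)`: `t (e y * a * b) = (card (U y))⁻¹ * t (a * b)` (`U y ∩ L y = 1`: `U_L_disj`; the coefficient of `1` in `e y * c`, `c ∈ sb (L y)`, is `(card (U y))⁻¹ * c.coeff 1`), so `t (a * b) = 0`, `t_nondeg_sb`.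
`lev_Mx`: `D'.rp w` and `D.rp w` give the same line (`lev_rp`, `lev_lin`); `Mx D' x x w = f' * c * f'` with `c` in this line (`cw_spec`), `e y * f' * c * f' = e y * f' * c * (e y * f')` (`c ∈ sb Ω (L y)`: `w y = y`, so `D.rp w ∈ L y` by `s8'`), `Mx_lin`; not zero by `e_inj`, `Mx_ne` for `D'`.
`tr_star_lev`: `D'.star = ψ₀`. `T' = D'.T x w ∈ sb Ω (L y)`, `T' = f' * T'`. `e y * T' = ∑ ψ ∈ ir Ω (L y), e y * T' * cen (L y) ψ` (`sum_cen`, A07). If `mt (L y) star (e y) ψ = 0` then `cen S.H star * e y * cen (L y) ψ = 0` (`mt_ne_zero_iff`, A09), so `tr star (e y * T' * cen ψ) = tr star (e y * cen ψ * T') = 0`. If `mt ≠ 0` and `ψ ∉ D'.Ser` then `f' * cen ψ = 0` (`rk ψ f' = 0`, `rk_f` for `D'`, `eq_zero_of_rk`), so `T' * cen ψ = cen ψ * f' * T' = 0`. If `mt ≠ 0` and `ψ ∈ D'.Ser` then `ψ = ψ₀` by (8.7) `star_lev` (V09, `rfl rfl`).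
So `tr star (e y * T') = tr star (e y * T' * cen ψ₀) = tr star (e y * (cen ψ₀ * f'))` (`T_star` for `D'`) `= rk star (..) = mt * rk ψ₀ f' = 1` (`rk_mt_cen`, `mt_star_lev` with `rk_star`, `rk_star` for `D'`). `gnr` of `D'`: `gnr_lev`.
`lev_T`: `e y * T'` is a multiple of `Mx D x x w` (`T_spec` for `D'`, `lev_Mx`), so it is in `D.ln (D.rp w) x` (`ln_iff`), `tr star = 1` (`tr_star_lev`), `T_uniq`.
`lev_iv`: let `w ∈ D.W`, `w y = y`. An inversion `a ∈ Psi` of `w` (`⟨a, x⟩ > 0 > ⟨a, w x⟩`) has `⟨a, y⟩ = 0`: `⟨a, y⟩ ≥ 0` since `y` is a face of `x` (`a` is a positive multiple on `X` of a root: `of_Psi`; `le_nonneg`), and if `⟨a, y⟩ > 0` then `⟨w⁻¹ a, y⟩ = ⟨a, w y⟩ > 0`, `w⁻¹ a ∈ Psi`, so `⟨w⁻¹ a, x⟩ > 0`, a contradiction. `lev_Psi`.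
`lev_eJ`: `wj J` fixes `y` and is contained in `D.W`; `e y * heS (D'.T x) D'.Psi x J = heS (D.T x) D.Psi x J` (`lev_T`, `lev_iv`), with `e_inj`: `r • heS` is idempotent for `D'` iff for `D`; `heS ≠ 0` (`heS_ne`), so `r ≠ 0` is unique, the two `choose` agree. `lev_p`: multiply the equation for `D'` by `e y`, `e_inj`; `r` is unique (`T_li`).
`lev_sm`: `sm (levD D y hy).Psi x = Jy D x y`: `lev_Psi`, the positive roots of `D'` are the positive roots of `D` vanishing at `y`. If `a ∈ sm D.Psi x`, `⟨a, y⟩ = 0` take the same point. Conversely, if `a ∈ sm D'.Psi x` with the point `v` (`⟨a, v⟩ = 0`, `⟨b, v⟩ > 0` for the other positive `b` with `⟨b, y⟩ = 0`), then `y + r • v`, `r > 0` small, is a point for `D`: `⟨b, y⟩ > 0` for the positive `b` which do not vanish at `y`.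
-/

namespace LieP

noncomputable section

open Classical

variable {Ω : Type} [Field Ω] [IsAlgClosed Ω] [CharZero Ω] {G E : Type} [Group G] [Finite G]
  [NormedAddCommGroup E] [InnerProductSpace ℝ E] [FiniteDimensional ℝ E] {S : LieSys G E}

namespace O06_aux

theorem nonneg {D : S.Cs Ω} {y : E} (hy : y ∈ S.X D.x) {x : E} (hx : S.Reg D.x x)
    (hle : S.le y x) {a : E} (ha : a ∈ D.Psi) (h : 0 < inner ℝ a x) : 0 ≤ inner ℝ a y := by
  obtain ⟨-, -, -, -, b, hb, r, hr, hrb⟩ := of_Psi ha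
  have h1 : 0 < inner ℝ b x := by
    rw [hrb x (reg_mem_X S hx)]
    exact mul_pos hr h
  have h2 := le_nonneg S hle hb.1 h1
  rw [hrb y hy] at h2
  exact nonneg_of_mul_nonneg_right h2 hr

theorem pos {D : S.Cs Ω} {y : E} (hy : y ∈ S.X D.x) {x : E} (hx : S.Reg D.x x)
    (hle : S.le y x) {a : E} (ha : a ∈ D.Psi) (h : 0 < inner ℝ a y) : 0 < inner ℝ a x := by
  obtain ⟨-, -, -, -, b, hb, r, hr, hrb⟩ := of_Psi ha
  have h1 : 0 < inner ℝ b y := by
    rw [hrb y hy]
    exact mul_pos hr h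
  have h2 := hle b hb.1 h1
  rw [hrb x (reg_mem_X S hx)] at h2
  exact (mul_pos_iff_of_pos_left hr).1 h2

theorem iv_zero {D : S.Cs Ω} {y : E} (hy : y ∈ S.X D.x) {x : E} (hx : S.Reg D.x x)
    (hle : S.le y x) {w : E ≃ₗᵢ[ℝ] E} (hw : w ∈ D.W) (hwy : w y = y) {a : E} (ha : a ∈ D.Psi)
    (h : 0 < inner ℝ a x) (h' : inner ℝ a (w x) < 0) : inner ℝ a y = 0 := by
  rcases (nonneg hy hx hle ha h).lt_or_eq with h1 | h1
  · exfalso
    have h2 : 0 < inner ℝ (w⁻¹ a) y := by
      rw [← inner_act, hwy]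
      exact h1
    have h3 := pos hy hx hle (W_Psi (D.W.inv_mem hw) ha) h2
    rw [← inner_act] at h3
    exact lt_asymm h3 h'
  · exact h1.symm

theorem small (P : Finset E) (y v : E) : ∃ r : ℝ, 0 < r ∧
    ∀ b ∈ P, 0 < inner ℝ b y → 0 < inner ℝ b (y + r • v) := by
  have h : ∀ᶠ r : ℝ in nhdsWithin 0 (Set.Ioi 0), ∀ b ∈ P, 0 < inner ℝ b y →
      0 < inner ℝ b (y + r • v) := by
    rw [Filter.eventually_all_finset]
    intro b _
    by_cases hb : 0 < inner ℝ b y
    · have hc : Continuous fun r : ℝ => inner ℝ b (y + r • v) := by fun_prop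
      have h1 : 0 < inner ℝ b (y + (0 : ℝ) • v) := by
        rw [zero_smul, add_zero]
        exact hb
      filter_upwards [nhdsWithin_le_nhds (hc.continuousAt.eventually (lt_mem_nhds h1))] with r hr
      exact fun _ => hr
    · filter_upwards with r h1
      exact absurd h1 hb
  obtain ⟨r, h1, h2⟩ := (h.and self_mem_nhdsWithin).exists
  exact ⟨r, h2, h1⟩

theorem he_eq {T T' : (E ≃ₗᵢ[ℝ] E) → Al Ω G} {P P' J : Finset E} {x : E} {e : Al Ω G}
    (hp : (fun r : Ω => r ≠ 0 ∧ (r • heS Ω T' P' x J) * (r • heS Ω T' P' x J) =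
      r • heS Ω T' P' x J) = fun r : Ω => r ≠ 0 ∧ (r • heS Ω T P x J) * (r • heS Ω T P x J) =
      r • heS Ω T P x J) (hX : e * heS Ω T' P' x J = heS Ω T P x J) :
    e * he Ω T' P' x J = he Ω T P x J := by
  have key : ∀ p q : Ω → Prop, p = q → ∀ X X' : Al Ω G, e * X' = X →
      e * (if h : ∃ r, p r then h.choose • X' else 0) = if h : ∃ r, q r then h.choose • X else 0 := by
    rintro p _ rfl X X' h
    by_cases h1 : ∃ r, p r
    · rw [dif_pos h1, dif_pos h1, mul_smul_comm, h]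
    · rw [dif_neg h1, dif_neg h1, mul_zero]
  exact key _ _ hp _ _ hX

omit [IsAlgClosed Ω] [CharZero Ω] in
theorem p_eq {p q : Ω → Prop} (h : p = q) :
    (if h : ∃ r, p r then h.choose else 0) = if h : ∃ r, q r then h.choose else 0 := by
  subst h
  rfl

end O06_aux

theorem e_inj {y : E} {a : Al Ω G} (ha : a ∈ sb Ω (S.L y)) (h : S.e Ω y * a = 0) : a = 0 := by
  have _ := Fintype.ofFinite G
  refine t_nondeg_sb ha fun b hb => ?_
  have h1 : t (S.e Ω y * (a * b)) = 0 := by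
    rw [← mul_assoc, h, zero_mul, t_zero]
  have hab : a * b ∈ sb Ω (S.L y) := (sb Ω (S.L y)).mul_mem ha hb
  have h2 : t (S.e Ω y * (a * b)) = (Nat.card (S.U y) : Ω)⁻¹ * t (a * b) := by
    rw [t_mul_fin, Finset.sum_eq_single 1]
    · show (av Ω (S.U y)).coeff 1 * (a * b).coeff 1⁻¹ = _
      rw [coeff_av, if_pos (S.U y).one_mem, inv_one]
      rfl
    · intro g _ hg
      show (av Ω (S.U y)).coeff g * (a * b).coeff g⁻¹ = 0
      rw [coeff_av]
      by_cases hU : g ∈ S.U y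
      · have hL : g⁻¹ ∉ S.L y := fun hL => hg (U_L_disj S hU (inv_inv g ▸ (S.L y).inv_mem hL))
        rw [hab _ hL, mul_zero]
      · rw [if_neg hU, zero_mul]
    · intro h3
      exact absurd (Finset.mem_univ _) h3
  have hc : (Nat.card (S.U y) : Ω) ≠ 0 := by
    have : 0 < Nat.card (S.U y) := Nat.card_pos
    exact_mod_cast this.ne'
  rw [h2] at h1
  exact (mul_eq_zero.1 h1).resolve_left (inv_ne_zero hc)

theorem lev_gnr {D : S.Cs Ω} {y : E} (hy : y ∈ S.X D.x) : (levD D y hy).gnr ↔ D.gnr := by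
  exact LieSys.Cs.gnr_lev D hy (levD D y hy) rfl rfl

/-- the elements of the Weyl group fixing `y` are represented in `L y` -/
theorem rp_fix {D : S.Cs Ω} {y : E} (hy : y ∈ S.X D.x) {w : E ≃ₗᵢ[ℝ] E} (hw : w ∈ D.W)
    (hwy : w y = y) : D.rp w ∈ S.L y := by
  obtain ⟨h1, h2⟩ := W_rp hw
  exact (fix_iff S (NN_H h1).1).1 (by rw [← h2 y hy, hwy])

theorem lev_Mx {D : S.Cs Ω} {y : E} (hy : y ∈ S.X D.x) {x1 x : E} (hx1 : S.Reg D.x x1)
    (hx : S.Reg D.x x) (hle1 : S.le y x1) (hle : S.le y x) {w : E ≃ₗᵢ[ℝ] E} (hw : w ∈ D.W)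
    (hwy : w y = y) : ∃ r : Ω, r ≠ 0 ∧ S.e Ω y * Mx (levD D y hy) x1 x w = r • Mx D x1 x w := by
  have hw' : w ∈ (levD D y hy).W := (lev_W hy).2 ⟨hw, hwy⟩
  obtain ⟨h1, h2⟩ := cw_spec hw'
  have hrp := (lev_rp hy hw hwy).2
  have h3 : cw (levD D y hy) w ∈ lin D D (D.rp w) := by
    rw [← hrp, ← lev_lin hy hy]
    exact h1
  obtain ⟨r, hr⟩ := Mx_lin (x1 := x1) (x := x) hw h3
  have hne := lin_ne (W_rp hw).1 h3 h2 hx hx1
  have hr0 : r ≠ 0 := by
    rintro rfl
    rw [zero_smul] at hr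
    exact hne hr
  refine ⟨r, hr0, ?_⟩
  have hm1 : (levD D y hy).f x1 ∈ sb Ω (S.L y) := f_mem (levD D y hy) x1
  have hm2 : cw (levD D y hy) w ∈ sb Ω (S.L y) := lin_mem (NN_H (W_rp hw').1).2 h1
  rw [← hr, ← e_levD_f D hy hle1, ← e_levD_f D hy hle]
  unfold Mx
  have hc : (levD D y hy).f x1 * cw (levD D y hy) w * S.e Ω y =
      S.e Ω y * ((levD D y hy).f x1 * cw (levD D y hy) w) := e_comm ((sb Ω (S.L y)).mul_mem hm1 hm2)
  calc S.e Ω y * ((levD D y hy).f x1 * cw (levD D y hy) w * (levD D y hy).f x)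
      = (S.e Ω y * S.e Ω y) * ((levD D y hy).f x1 * cw (levD D y hy) w) * (levD D y hy).f x := by
        rw [e_idem]
        simp only [mul_assoc]
    _ = S.e Ω y * (S.e Ω y * ((levD D y hy).f x1 * cw (levD D y hy) w)) * (levD D y hy).f x := by
        simp only [mul_assoc]
    _ = S.e Ω y * ((levD D y hy).f x1 * cw (levD D y hy) w * S.e Ω y) * (levD D y hy).f x := by
        rw [hc]
    _ = _ := by simp only [mul_assoc]

theorem tr_star_lev {D : S.Cs Ω} (hD : D.gnr) {y : E} (hy : y ∈ S.X D.x) {x : E}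
    (hx : S.Reg D.x x) (hle : S.le y x) {w : E ≃ₗᵢ[ℝ] E} (hw : w ∈ D.W) (hwy : w y = y) :
    tr D.star (S.e Ω y * (levD D y hy).T x w) = 1 := by
  have hw' : w ∈ (levD D y hy).W := (lev_W hy).2 ⟨hw, hwy⟩
  have hg : (levD D y hy).gnr := (lev_gnr hy).2 hD
  have hx' : (lev S y).Reg (levD D y hy).x x := levD_reg_of hx
  have hxx : (lev S y).Reg (levD D y hy).x (levD D y hy).x := reg_refl (lev S y) _
  obtain ⟨hTm, hT1, hT2⟩ := T_abs hg hx' hw'
  have hTm : (levD D y hy).T x w ∈ sb Ω (S.L y) := hTm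
  have hfm : (levD D y hy).f x ∈ sb Ω (S.L y) := f_mem (levD D y hy) x
  have hff : (levD D y hy).f x * (levD D y hy).f x = (levD D y hy).f x := f_idem _ hx'
  have hst := T_star hg hx' hw'
  have hst1 : (levD D y hy).T x w * cen (S.L y) (levD D y hy).star =
      (levD D y hy).f x * cen (S.L y) (levD D y hy).star := hst.1
  have hLH : S.L y ≤ S.H := S.LH y
  have hsi := star_ir hD
  have hsi' : (levD D y hy).star ∈ ir Ω (S.L y) := star_ir hg
  have hem : S.e Ω y ∈ sb Ω S.H := e_mem y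
  have hee : S.e Ω y * S.e Ω y = S.e Ω y := e_idem y
  have hec : ∀ a ∈ sb Ω (S.L y), S.e Ω y * a = a * S.e Ω y := fun a ha => (e_comm ha).symm
  have hLm : ∀ a ∈ sb Ω (S.L y), a ∈ sb Ω S.H := fun a ha => sb_mono hLH ha
  have hz : ∀ ψ ∈ ir Ω (S.L y), ψ ≠ (levD D y hy).star →
      tr D.star (S.e Ω y * ((levD D y hy).T x w * cen (S.L y) ψ)) = 0 := by
    intro ψ hψ hne
    have hcm : cen (S.L y) ψ ∈ sb Ω (S.L y) := cen_mem ψ hψ
    rw [← cen_comm hψ hTm]
    by_cases hmt : mt (S.L y) D.star (S.e Ω y) ψ = 0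
    · have h1 : cen S.H D.star * S.e Ω y * cen (S.L y) ψ = 0 := by
        by_contra h2
        exact (mt_ne_zero_iff hLH hsi hem hee hec hψ).2 h2 hmt
      have hm : S.e Ω y * (cen (S.L y) ψ * (levD D y hy).T x w) ∈ sb Ω S.H :=
        (sb Ω S.H).mul_mem hem ((sb Ω S.H).mul_mem (hLm _ hcm) (hLm _ hTm))
      have h2 := tr_cen hsi hsi hm
      rw [if_pos rfl] at h2
      rw [← h2]
      have h3 : cen S.H D.star * (S.e Ω y * (cen (S.L y) ψ * (levD D y hy).T x w)) =
          cen S.H D.star * S.e Ω y * cen (S.L y) ψ * (levD D y hy).T x w := by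
        simp only [mul_assoc]
      rw [h3, h1, zero_mul, map_zero]
    · have h1 : ψ ∉ (levD D y hy).Ser := fun h2 =>
        hne (LieSys.Cs.star_lev D hD hy (levD D y hy) rfl rfl h2 hmt)
      have h2 : rk ψ ((levD D y hy).f x) = 0 := by
        have h3 : rk ψ ((levD D y hy).f x) = rk ψ ((levD D y hy).f (levD D y hy).x) := rk_f hx' hψ
        rw [h3]
        by_contra h4
        exact h1 ((LieSys.Cs.mem_Ser (levD D y hy)).2 ⟨hψ, h4⟩)
      have h3 : cen (S.L y) ψ * (levD D y hy).f x = 0 := (cen_mul_eq_zero hψ hfm hff).2 h2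
      have h4 : cen (S.L y) ψ * (levD D y hy).T x w = 0 := by
        rw [← hT1, ← mul_assoc, h3, zero_mul]
      rw [h4, mul_zero, map_zero]
  have h0 : S.e Ω y * (levD D y hy).T x w =
      ∑ ψ ∈ ir Ω (S.L y), S.e Ω y * ((levD D y hy).T x w * cen (S.L y) ψ) := by
    rw [← Finset.mul_sum, ← Finset.mul_sum, sum_cen, mul_one]
  rw [h0, map_sum, Finset.sum_eq_single _ hz (fun h => absurd hsi' h), hst1, ← cen_comm hsi' hfm]
  have hcm : cen (S.L y) (levD D y hy).star ∈ sb Ω (S.L y) := cen_mem _ hsi'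
  have hia : S.e Ω y * (cen (S.L y) (levD D y hy).star * (levD D y hy).f x) *
      (S.e Ω y * (cen (S.L y) (levD D y hy).star * (levD D y hy).f x)) =
      S.e Ω y * (cen (S.L y) (levD D y hy).star * (levD D y hy).f x) := by
    have e1 : cen (S.L y) (levD D y hy).star * (levD D y hy).f x *
        (cen (S.L y) (levD D y hy).star * (levD D y hy).f x) =
        cen (S.L y) (levD D y hy).star * (levD D y hy).f x := by
      calc cen (S.L y) (levD D y hy).star * (levD D y hy).f x *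
            (cen (S.L y) (levD D y hy).star * (levD D y hy).f x)
          = cen (S.L y) (levD D y hy).star * ((levD D y hy).f x *
              cen (S.L y) (levD D y hy).star) * (levD D y hy).f x := by simp only [mul_assoc]
        _ = cen (S.L y) (levD D y hy).star * (cen (S.L y) (levD D y hy).star *
              (levD D y hy).f x) * (levD D y hy).f x := by rw [cen_comm hsi' hfm]
        _ = (cen (S.L y) (levD D y hy).star * cen (S.L y) (levD D y hy).star) *
              ((levD D y hy).f x * (levD D y hy).f x) := by simp only [mul_assoc]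
        _ = _ := by rw [cen_idem hsi', hff]
    have e2 : S.e Ω y * (cen (S.L y) (levD D y hy).star * (levD D y hy).f x) =
        cen (S.L y) (levD D y hy).star * (levD D y hy).f x * S.e Ω y :=
      hec _ ((sb Ω (S.L y)).mul_mem hcm hfm)
    calc S.e Ω y * (cen (S.L y) (levD D y hy).star * (levD D y hy).f x) *
          (S.e Ω y * (cen (S.L y) (levD D y hy).star * (levD D y hy).f x))
        = S.e Ω y * ((cen (S.L y) (levD D y hy).star * (levD D y hy).f x) * S.e Ω y) *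
            (cen (S.L y) (levD D y hy).star * (levD D y hy).f x) := by simp only [mul_assoc]
      _ = (S.e Ω y * S.e Ω y) * ((cen (S.L y) (levD D y hy).star * (levD D y hy).f x) *
            (cen (S.L y) (levD D y hy).star * (levD D y hy).f x)) := by
          rw [← e2]
          simp only [mul_assoc]
      _ = _ := by rw [hee, e1]
  have him : S.e Ω y * (cen (S.L y) (levD D y hy).star * (levD D y hy).f x) ∈ sb Ω S.H :=
    (sb Ω S.H).mul_mem hem ((sb Ω S.H).mul_mem (hLm _ hcm) (hLm _ hfm))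
  rw [← rk_tr hsi him hia, rk_mt_cen hLH hsi hem hee hec hsi' hfm hff,
    LieSys.Cs.mt_star_lev D hD (fun x hx => rk_star hD hx) hy (levD D y hy) rfl rfl,
    rk_star hg hx', one_mul, Nat.cast_one]

/-- the operators of the Levi systems -/
theorem lev_T {D : S.Cs Ω} (hD : D.gnr) {y : E} (hy : y ∈ S.X D.x) {x : E} (hx : S.Reg D.x x)
    (hle : S.le y x) {w : E ≃ₗᵢ[ℝ] E} (hw : w ∈ D.W) (hwy : w y = y) :
    S.e Ω y * (levD D y hy).T x w = D.T x w := by
  have hw' : w ∈ (levD D y hy).W := (lev_W hy).2 ⟨hw, hwy⟩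
  have hg : (levD D y hy).gnr := (lev_gnr hy).2 hD
  have hx' : (lev S y).Reg (levD D y hy).x x := levD_reg_of hx
  obtain ⟨r, hr, hr1⟩ := (T_spec hg hx' hw').1
  obtain ⟨s, hs, hs1⟩ := lev_Mx hy hx hx hle hle hw hwy
  refine T_uniq hD hx hw ?_ (tr_star_lev hD hy hx hle hw hwy)
  refine (ln_iff hx hw).2 ⟨r * s, ?_⟩
  rw [hr1, mul_smul_comm, hs1, smul_smul]

theorem lev_iv {D : S.Cs Ω} {y : E} (hy : y ∈ S.X D.x) {x : E} (hx : S.Reg D.x x)
    (hle : S.le y x) {w : E ≃ₗᵢ[ℝ] E} (hw : w ∈ D.W) (hwy : w y = y) :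
    iv (levD D y hy).Psi x w = iv D.Psi x w := by
  ext a
  unfold iv ps
  rw [Finset.mem_filter, Finset.mem_filter, Finset.mem_filter, Finset.mem_filter, lev_Psi hy,
    Finset.mem_filter]
  constructor
  · rintro ⟨⟨⟨h1, -⟩, h3⟩, h4⟩
    exact ⟨⟨h1, h3⟩, h4⟩
  · rintro ⟨⟨h1, h3⟩, h4⟩
    refine ⟨⟨⟨h1, O06_aux.iv_zero hy hx hle hw hwy h1 h3 h4⟩, h3⟩, h4⟩

theorem lev_sm {D : S.Cs Ω} {y : E} (hy : y ∈ S.X D.x) {x : E} (hx : S.Reg D.x x)
    (hle : S.le y x) : sm (levD D y hy).Psi x = Jy D x y := by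
  ext a
  unfold Jy sm ps
  rw [Finset.mem_filter, Finset.mem_filter, Finset.mem_filter, Finset.mem_filter,
    Finset.mem_filter, lev_Psi hy, Finset.mem_filter]
  constructor
  · rintro ⟨⟨⟨h1, h2⟩, h3⟩, v, hv, hv'⟩
    refine ⟨⟨⟨h1, h3⟩, ?_⟩, h2⟩
    obtain ⟨r, hr, hr'⟩ := O06_aux.small D.Psi y v
    refine ⟨y + r • v, ?_, fun b hb hne => ?_⟩
    · rw [inner_add_right, inner_smul_right, h2, hv, mul_zero, add_zero]
    · obtain ⟨hb1, hb2⟩ := Finset.mem_filter.1 hb
      rcases (O06_aux.nonneg hy hx hle hb1 hb2).lt_or_eq with h4 | h4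
      · exact hr' b hb1 h4
      · rw [inner_add_right, inner_smul_right, ← h4, zero_add]
        refine mul_pos hr (hv' b ?_ hne)
        exact Finset.mem_filter.2 ⟨Finset.mem_filter.2 ⟨hb1, h4.symm⟩, hb2⟩
  · rintro ⟨⟨⟨h1, h3⟩, v, hv, hv'⟩, h2⟩
    refine ⟨⟨⟨h1, h2⟩, h3⟩, v, hv, fun b hb hne => hv' b ?_ hne⟩
    obtain ⟨hb1, hb2⟩ := Finset.mem_filter.1 hb
    exact Finset.mem_filter.2 ⟨(Finset.mem_filter.1 hb1).1, hb2⟩

theorem lev_eJ {D : S.Cs Ω} (hD : D.gnr) {y : E} (hy : y ∈ S.X D.x) {x : E} (hx : S.Reg D.x x)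
    (hle : S.le y x) {J : Finset E} (hJ : J ⊆ (sm D.Psi x).filter fun a => inner ℝ a y = 0) :
    S.e Ω y * (levD D y hy).eJ x J = D.eJ x J := by
  have hg : (levD D y hy).gnr := (lev_gnr hy).2 hD
  have hx' : (lev S y).Reg (levD D y hy).x x := levD_reg_of hx
  have hJP : J ⊆ D.Psi := fun a ha =>
    (Finset.mem_filter.1 (Finset.mem_filter.1 (Finset.mem_filter.1 (hJ ha)).1).1).1
  have hJy : ∀ a ∈ J, inner ℝ a y = 0 := fun a ha => (Finset.mem_filter.1 (hJ ha)).2
  have hWW := wj_le_W hJP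
  have hfix : ∀ w ∈ wj J, w y = y := by
    intro w hw
    refine Subgroup.closure_induction (p := fun w _ => w y = y) ?_ rfl ?_ ?_ hw
    · rintro _ ⟨a, ha, rfl⟩
      exact rfn_fix (of_Psi (hJP ha)).1 (hJy a ha)
    · intro u v _ _ hu hv
      show u (v y) = y
      rw [hv, hu]
    · intro u _ hu
      have h1 : u⁻¹ (u y) = y := u.symm_apply_apply y
      rw [hu] at h1
      exact h1
  have hfin : Finite (wj J) := by
    have := fin_W D
    exact Finite.of_injective (Subgroup.inclusion hWW) (Subgroup.inclusion_injective hWW)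
  have hX : S.e Ω y * heS Ω ((levD D y hy).T x) (levD D y hy).Psi x J =
      heS Ω (D.T x) D.Psi x J := by
    unfold heS
    rw [mul_finsum' _ _ (Set.toFinite _)]
    refine finsum_congr fun w => ?_
    rw [mul_smul_comm, lev_T hD hy hx hle (hWW w.2) (hfix _ w.2),
      lev_iv hy hx hle (hWW w.2) (hfix _ w.2)]
  have hXm : heS Ω ((levD D y hy).T x) (levD D y hy).Psi x J ∈ sb Ω (S.L y) := by
    unfold heS
    have _ := Fintype.ofFinite (wj J)
    rw [finsum_eq_sum_of_fintype]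
    refine Subalgebra.sum_mem _ fun w _ => Subalgebra.smul_mem _ ?_ _
    exact (T_abs hg hx' ((lev_W hy).2 ⟨hWW w.2, hfix _ w.2⟩)).1
  have hp : (fun r : Ω => r ≠ 0 ∧ (r • heS Ω ((levD D y hy).T x) (levD D y hy).Psi x J) *
      (r • heS Ω ((levD D y hy).T x) (levD D y hy).Psi x J) =
        r • heS Ω ((levD D y hy).T x) (levD D y hy).Psi x J) =
      fun r : Ω => r ≠ 0 ∧ (r • heS Ω (D.T x) D.Psi x J) * (r • heS Ω (D.T x) D.Psi x J) =
        r • heS Ω (D.T x) D.Psi x J := by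
    funext r
    refine propext (and_congr_right fun _ => ?_)
    rw [← hX]
    set X := heS Ω ((levD D y hy).T x) (levD D y hy).Psi x J with hXd
    have e1 : (r • (S.e Ω y * X)) * (r • (S.e Ω y * X)) = S.e Ω y * ((r • X) * (r • X)) := by
      have e2 : X * S.e Ω y = S.e Ω y * X := e_comm hXm
      calc (r • (S.e Ω y * X)) * (r • (S.e Ω y * X))
          = (r * r) • (S.e Ω y * (X * S.e Ω y) * X) := by
            rw [smul_mul_assoc, mul_smul_comm, smul_smul]
            simp only [mul_assoc]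
        _ = (r * r) • (S.e Ω y * S.e Ω y * (X * X)) := by
            rw [e2]
            simp only [mul_assoc]
        _ = _ := by
            rw [e_idem, smul_mul_assoc, mul_smul_comm r X X, smul_smul, mul_smul_comm]
    rw [e1, ← mul_smul_comm]
    constructor
    · intro h
      rw [h]
    · intro h
      have e3 : S.e Ω y * ((r • X) * (r • X) - r • X) = 0 := by
        rw [mul_sub, h, sub_self]
      refine sub_eq_zero.1 (e_inj ?_ e3)
      have hrX : r • X ∈ sb Ω (S.L y) := Subalgebra.smul_mem _ hXm r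
      exact (sb Ω (S.L y)).sub_mem ((sb Ω (S.L y)).mul_mem hrX hrX) hrX
  exact O06_aux.he_eq hp hX

theorem lev_p {D : S.Cs Ω} (hD : D.gnr) {y : E} (hy : y ∈ S.X D.x) {x : E} (hx : S.Reg D.x x)
    (hle : S.le y x) {a : E} (ha : a ∈ sm D.Psi x) (hay : inner ℝ a y = 0) :
    (levD D y hy).p x a = D.p x a := by
  have hg : (levD D y hy).gnr := (lev_gnr hy).2 hD
  have hx' : (lev S y).Reg (levD D y hy).x x := levD_reg_of hx
  have haP : a ∈ D.Psi := (Finset.mem_filter.1 (Finset.mem_filter.1 ha).1).1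
  obtain ⟨ha1, -, -, hw, -⟩ := of_Psi haP
  have hwy : rfn a y = y := rfn_fix ha1 hay
  have hw' : rfn a ∈ (levD D y hy).W := (lev_W hy).2 ⟨hw, hwy⟩
  have hT := lev_T hD hy hx hle hw hwy
  have hTm : (levD D y hy).T x (rfn a) ∈ sb Ω (S.L y) := (T_abs hg hx' hw').1
  have hfm : (levD D y hy).f x ∈ sb Ω (S.L y) := f_mem (levD D y hy) x
  have hp : (fun r : Ω => (levD D y hy).T x (rfn a) * (levD D y hy).T x (rfn a) =
      (1 - r) • (levD D y hy).T x (rfn a) + r • (levD D y hy).f x) =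
      fun r : Ω => D.T x (rfn a) * D.T x (rfn a) = (1 - r) • D.T x (rfn a) + r • D.f x := by
    funext r
    apply propext
    rw [← hT, ← e_levD_f D hy hle]
    set X := (levD D y hy).T x (rfn a) with hXd
    have e1 : S.e Ω y * X * (S.e Ω y * X) = S.e Ω y * (X * X) := by
      have e2 : X * S.e Ω y = S.e Ω y * X := e_comm hTm
      calc S.e Ω y * X * (S.e Ω y * X) = S.e Ω y * (X * S.e Ω y) * X := by simp only [mul_assoc]
        _ = S.e Ω y * S.e Ω y * (X * X) := by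
            rw [e2]
            simp only [mul_assoc]
        _ = _ := by rw [e_idem]
    rw [e1, ← mul_smul_comm, ← mul_smul_comm, ← mul_add]
    constructor
    · intro h
      rw [h]
    · intro h
      have e3 : S.e Ω y * (X * X - ((1 - r) • X + r • (levD D y hy).f x)) = 0 := by
        rw [mul_sub, h, sub_self]
      refine sub_eq_zero.1 (e_inj ?_ e3)
      exact (sb Ω (S.L y)).sub_mem ((sb Ω (S.L y)).mul_mem hTm hTm)
        ((sb Ω (S.L y)).add_mem (Subalgebra.smul_mem _ hTm _) (Subalgebra.smul_mem _ hfm _))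
  exact O06_aux.p_eq hp

end

end LieP
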