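import Pool.Agent.LieP.PDefs

/-!
# MP_6c3636_al, LieP, module P01: 1 + nilpotent is a norm (16.3) (helper96)

Induction on `N` with `n ^ N = 0` (statement for all `n`). `N ≤ 1`: `n = 0`, `k = 1`. Step: `u := 1 + c * n` is a unit (`c * n` is nilpotent, `c` and `n` commute),
`star u * u = (1 + star c * n) * (1 + c * n) = 1 + (c + star c) * n + star c * c * n ^ 2 = 1 + n + star c * c * n ^ 2`. So `1 + n = star u * u * (1 + n')`,
`n' := - (star u * u)⁻¹ * (star c * c) * n ^ 2`. All these elements commute, `star n' = n'`, `(c + star c) * n' = n'`, `n' ^ (N - 1) = 0` (`2 (N - 1) ≥ N` for `N ≥ 2`).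
Induction: `1 + n' = star k' * k'`, `k'` commutes with everything which commutes with `c`, `star c`, `n'`, and `n'` commutes with everything which commutes with
`c`, `star c`, `n`. Put `k := u * k'`.
-/

namespace LieP.PS

noncomputable section

open Classical

theorem norm_nilp_aux {R : Type} [Ring R] [StarRing R] {c : R} (hc : Commute c (star c)) (N : ℕ) :
    ∀ n : R, Commute c n → (c + star c) * n = n → star n = n → n ^ N = 0 →
    ∃ k : Rˣ, star (k : R) * (k : R) = 1 + n ∧
      ∀ z : R, Commute z c → Commute z (star c) → Commute z n → Commute z (k : R) := by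
  induction N with
  | zero =>
    intro n _ _ _ h0
    have h1 : (1 : R) = 0 := by simpa using h0
    have hz : ∀ a : R, a = 0 := fun a => by rw [← mul_one a, h1, mul_zero]
    exact ⟨1, (hz _).trans (hz _).symm, fun z _ _ _ => (hz _).trans (hz _).symm⟩
  | succ N ih =>
    intro n hcn h hn hN
    rcases Nat.eq_zero_or_pos N with hN0 | hN0
    · subst hN0
      have h0 : n = 0 := by simpa using hN
      refine ⟨1, by rw [h0]; simp, fun z _ _ _ => ?_⟩
      rw [Units.val_one]
      exact Commute.one_right z
    have hsn : Commute (star c) n := by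
      have := congrArg star hcn.eq
      rw [star_mul, star_mul, hn] at this
      exact this.symm
    have hnilp : IsNilpotent (c * n) := ⟨N + 1, by rw [hcn.mul_pow, hN, mul_zero]⟩
    obtain ⟨u, hu⟩ := hnilp.isUnit_one_add
    have hsu : star (u : R) = 1 + star c * n := by
      rw [hu, star_add, star_one, star_mul, hn, hsn.eq]
    -- the unit `w`
    obtain ⟨w, hw⟩ : ∃ w : Rˣ, (w : R) = star (u : R) * (u : R) := ⟨star u * u, by simp⟩
    have hw1 : (w : R) = 1 + n + star c * c * n ^ 2 := by
      rw [hw, hsu, hu]
      have e1 : (1 + star c * n) * (1 + c * n) = 1 + (c + star c) * n + star c * (n * c) * n := by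
        noncomm_ring
      rw [e1, h, ← hcn.eq]
      noncomm_ring
    have hcw : ∀ z : R, Commute z c → Commute z (star c) → Commute z n → Commute z (w : R) := by
      intro z h1 h2 h3
      rw [hw1]
      exact ((Commute.one_right z).add_right h3).add_right ((h2.mul_right h1).mul_right (h3.pow_right 2))
    have hcw' : ∀ z : R, Commute z c → Commute z (star c) → Commute z n →
        Commute z ((w⁻¹ : Rˣ) : R) := by
      intro z h1 h2 h3
      exact (hcw z h1 h2 h3).units_inv_right
    have hc2 : Commute (star c) c := hc.symm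
    set s : R := star c * c with hs
    have hss : star s = s := by rw [hs, star_mul, star_star]
    have hsc : Commute s c := (hc2.mul_left (Commute.refl c))
    have hssc : Commute s (star c) := ((Commute.refl (star c)).mul_left hc)
    have hsn' : Commute s n := hsn.mul_left hcn
    have hcs : ∀ z : R, Commute z c → Commute z (star c) → Commute z s := by
      intro z h1 h2
      exact h2.mul_right h1
    set n' : R := -(((w⁻¹ : Rˣ) : R) * s * n ^ 2) with hn'
    have hcn' : ∀ z : R, Commute z c → Commute z (star c) → Commute z n → Commute z n' := by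
      intro z h1 h2 h3
      exact (((hcw' z h1 h2 h3).mul_right (hcs z h1 h2)).mul_right (h3.pow_right 2)).neg_right
    have hwi : Commute ((w⁻¹ : Rˣ) : R) s := (hcw' s hsc hssc hsn').symm
    have hwn : Commute ((w⁻¹ : Rˣ) : R) n := (hcw' n hcn.symm hsn.symm (Commute.refl n)).symm
    have hstarw : star ((w⁻¹ : Rˣ) : R) = ((w⁻¹ : Rˣ) : R) := by
      have e : star w = w := by
        apply Units.ext
        rw [Units.coe_star, hw, star_mul, star_star]
      rw [← Units.coe_star, star_inv, e]
    have hne : star n' = n' := by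
      rw [hn', star_neg, star_mul, star_mul, star_pow, hn, hss, hstarw]
      have e1 : n ^ 2 * (s * ((w⁻¹ : Rˣ) : R)) = ((w⁻¹ : Rˣ) : R) * s * n ^ 2 := by
        rw [← hwi.eq]
        exact (((hwn.symm).mul_right hsn'.symm).pow_left 2).eq
      rw [e1]
    have hadd : (c + star c) * n' = n' := by
      have e1 : Commute (c + star c) (((w⁻¹ : Rˣ) : R) * s) := by
        refine Commute.add_left ?_ ?_
        · exact (hcw' c (Commute.refl c) hc hcn).mul_right (hcs c (Commute.refl c) hc)
        · exact (hcw' (star c) hc2 (Commute.refl _) hsn).mul_right (hcs _ hc2 (Commute.refl _))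
      have e2 : (c + star c) * n ^ 2 = n ^ 2 := by rw [pow_two, ← mul_assoc, h]
      rw [hn', mul_neg, ← mul_assoc, e1.eq, mul_assoc, e2]
    have hpow : n' ^ N = 0 := by
      have e1 : Commute (((w⁻¹ : Rˣ) : R) * s) (n ^ 2) :=
        ((hwn.mul_left hsn').pow_right 2)
      rw [hn', neg_pow, e1.mul_pow, ← pow_mul]
      have e2 : n ^ (2 * N) = 0 := pow_eq_zero_of_le (by omega) hN
      rw [e2, mul_zero, mul_zero]
    have hcn'' : Commute c n' := hcn' c (Commute.refl c) hc hcn
    obtain ⟨k', hk1, hk2⟩ := ih n' hcn'' hadd hne hpow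
    have hwk : Commute (w : R) (k' : R) := by
      refine hk2 _ ?_ ?_ ?_
      · exact (hcw c (Commute.refl c) hc hcn).symm
      · exact (hcw (star c) hc2 (Commute.refl _) hsn).symm
      · exact (hcn' (w : R) (hcw c (Commute.refl c) hc hcn).symm
          (hcw (star c) hc2 (Commute.refl _) hsn).symm
          (hcw n hcn.symm hsn.symm (Commute.refl n)).symm)
    refine ⟨u * k', ?_, ?_⟩
    · rw [Units.val_mul, star_mul]
      have e1 : star (k' : R) * star (u : R) * ((u : R) * (k' : R)) =
          star (k' : R) * ((star (u : R) * (u : R)) * (k' : R)) := by noncomm_ring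
      rw [e1, ← hw, hwk.eq, ← mul_assoc, hk1]
      have e3 : Commute n' (w : R) := (hcn' (w : R) (hcw c (Commute.refl c) hc hcn).symm
          (hcw (star c) hc2 (Commute.refl _) hsn).symm
          (hcw n hcn.symm hsn.symm (Commute.refl n)).symm).symm
      rw [add_mul, one_mul, e3.eq]
      have e4 : (w : R) * n' = -(s * n ^ 2) := by
        rw [hn', mul_neg, ← mul_assoc, ← mul_assoc, Units.mul_inv, one_mul]
      rw [e4, hw1]
      abel
    · intro z h1 h2 h3
      rw [Units.val_mul]
      refine Commute.mul_right ?_ (hk2 z h1 h2 (hcn' z h1 h2 h3))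
      rw [hu]
      exact (Commute.one_right z).add_right (h1.mul_right h3)

theorem norm_nilp {R : Type} [Ring R] [StarRing R] {c n : R} (hc : Commute c (star c))
    (hcn : Commute c n) (h : (c + star c) * n = n) (hn : star n = n) (hnil : IsNilpotent n) :
    ∃ k : Rˣ, star (k : R) * (k : R) = 1 + n ∧
      ∀ z : R, Commute z c → Commute z (star c) → Commute z n → Commute z (k : R) := by
  obtain ⟨N, hN⟩ := hnil
  exact norm_nilp_aux hc N n hcn h hn hN

end

end LieP.PS
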