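import Pool.Agent.LieP.P01

/-!
# MP_6c3636_al, LieP, module P02: isometries from conjugating elements (16.2) (helper96)

`η := star g * g` is a unit, `star η = η`, `η` commutes with `x`: from `g * x = x ^ j * g` and `star x = x⁻¹`: `x⁻¹ * star g = star g * x⁻¹ ^ j`, so
`star g * x ^ j = x * star g`, `η * x = star g * x ^ j * g = x * η`. `Rˣ` is finite: the order of `η` is `2 ^ a * m`, `m` odd. Choose `b` with `b ≡ 1 mod m`, `b ≡ 0 mod 2 ^ a`,
so `η ^ b =: e` has `e ^ m = 1` and `η * e⁻¹` has order dividing `2 ^ a`. `d := e ^ ((m + 1) / 2)`: `d * d = e`, `star d = d`, `d` commutes with `x` (power of `η`).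
Replace `g` by `g * d⁻¹` (still `g * x * g⁻¹ = x ^ j`): now `η ^ (2 ^ a) = 1`. `n := η - 1`: `n ^ (2 ^ a) = η ^ (2 ^ a) - 1 = 0` in characteristic two
(`add_pow_char_pow`-like for commuting elements; or `sub_pow_char_pow_of_commute`, `CharP R 2` follows from `h2` if `R` is nontrivial). `n` commutes with `x`, so with `c`. P01 (`norm_nilp`), `c + star c = 1`, gives
`k` with `star k * k = 1 + n = η`, `k` commutes with everything commuting with `c`, `star c = 1 - c`, `n`; `x` is such an element. Then `star (g * k⁻¹) * (g * k⁻¹) = star (k⁻¹) * η * k⁻¹ = 1`.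
-/

namespace LieP.PS

noncomputable section

open Classical

namespace P02_aux

theorem sub_one_pow {R : Type} [Ring R] (h2 : (2 : R) = 0) (u : R) (a : ℕ) :
    (u - 1) ^ (2 ^ a) = u ^ (2 ^ a) - 1 := by
  induction a with
  | zero => simp
  | succ a ih =>
    rw [pow_succ, pow_mul, ih, pow_mul]
    generalize u ^ 2 ^ a = w
    have h3 : (w - 1) ^ 2 = w ^ 2 - 1 - 2 * (w - 1) := by
      rw [pow_two, pow_two]
      noncomm_ring
    rw [h3, h2, zero_mul, sub_zero]

theorem exists_exp {n : ℕ} (hn : n ≠ 0) : ∃ a m b : ℕ, n = 2 ^ a * m ∧ Odd m ∧ n ∣ b * m ∧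
    b * 2 ^ a ≡ 2 ^ a [MOD n] := by
  obtain ⟨a, m, hm, hnm⟩ := Nat.exists_eq_two_pow_mul_odd hn
  have hcop : Nat.Coprime m (2 ^ a) := ((Nat.coprime_two_left.2 hm).pow_left a).symm
  obtain ⟨b, hb1, hb2⟩ := Nat.chineseRemainder hcop 1 0
  refine ⟨a, m, b, hnm, hm, ?_, ?_⟩
  · rw [hnm]
    exact mul_dvd_mul ((Nat.modEq_zero_iff_dvd).1 hb2) dvd_rfl
  · have h1 := hb1.mul_right' (2 ^ a)
    rw [one_mul, mul_comm m, ← hnm] at h1
    exact h1

end P02_aux

open P02_aux

theorem exists_isom {R : Type} [Ring R] [StarRing R] [Finite R] (h2 : (2 : R) = 0) {x g : Rˣ} {j : ℕ}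
    (hx : star (x : R) * (x : R) = 1) (hg : g * x * g⁻¹ = x ^ j) {c : R}
    (hc : ∀ z : R, Commute z (x : R) → Commute z c) (hc1 : c + star c = 1) :
    ∃ k : Rˣ, star (k : R) * (k : R) = 1 ∧ k * x * k⁻¹ = x ^ j := by
  have hx1 : star x * x = 1 := Units.ext (by rw [Units.val_mul, Units.coe_star, Units.val_one]; exact hx)
  have hx2 : star x = x⁻¹ := eq_inv_of_mul_eq_one_left hx1
  have hg1 : g * x = x ^ j * g := by rw [← hg]; group
  -- `star g * x ^ j = x * star g`
  have hg2 : star g * x ^ j = x * star g := by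
    have h1 := congrArg star hg1
    rw [star_mul, star_mul, star_pow, hx2] at h1
    rw [inv_mul_eq_iff_eq_mul, inv_pow] at h1
    have h3 : star g * x ^ j = x * (star g * (x ^ j)⁻¹) * x ^ j := congrArg (· * x ^ j) h1
    rw [h3]
    group
  have hηx : Commute (star g * g) x := by
    show star g * g * x = x * (star g * g)
    rw [mul_assoc, hg1, ← mul_assoc, hg2, mul_assoc]
  set η : Rˣ := star g * g with hη
  have hηs : star η = η := by rw [hη, star_mul, star_star]
  obtain ⟨a, m, b, hn, hm, hb1, hb2⟩ := exists_exp (orderOf_pos η).ne'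
  set e : Rˣ := η ^ b with he
  have hem : e ^ m = 1 := by
    rw [he, ← pow_mul]
    exact orderOf_dvd_iff_pow_eq_one.1 hb1
  have he2 : e ^ 2 ^ a = η ^ 2 ^ a := by
    rw [he, ← pow_mul]
    exact pow_eq_pow_iff_modEq.2 hb2
  set d : Rˣ := e ^ ((m + 1) / 2) with hd
  have hdd : d * d = e := by
    obtain ⟨q, hq⟩ := hm
    have h1 : (m + 1) / 2 = q + 1 := by omega
    rw [hd, h1, ← pow_add]
    have h3 : q + 1 + (q + 1) = m + 1 := by omega
    rw [h3, pow_succ, hem, one_mul]
  have hes : star e = e := by rw [he, star_pow, hηs]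
  have hds : star d = d := by rw [hd, star_pow, hes]
  have heη : Commute e η := (Commute.refl η).pow_left b
  have hdη : Commute d η := heη.pow_left _
  have hex : Commute e x := hηx.pow_left b
  have hdx : Commute d x := hex.pow_left _
  set η' : Rˣ := star (g * d⁻¹) * (g * d⁻¹) with hη'
  have hη'1 : η' = η * e⁻¹ := by
    have h1 : star (d⁻¹) = d⁻¹ := by
      rw [star_inv, hds]
    rw [hη', star_mul, h1, mul_assoc, ← mul_assoc (star g), ← hη, ← mul_assoc,
      (hdη.inv_left).eq, mul_assoc, ← mul_inv_rev, hdd]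
  have hη'2 : η' ^ 2 ^ a = 1 := by
    have h1 : Commute η e⁻¹ := heη.symm.inv_right
    rw [hη'1, h1.mul_pow, inv_pow, he2, mul_inv_cancel]
  have hη's : star η' = η' := by rw [hη', star_mul, star_star]
  have hη'x : Commute η' x := by
    rw [hη'1]
    exact Commute.mul_left hηx hex.inv_left
  -- the nilpotent element
  set n : R := (η' : R) - 1 with hn'
  have hnil : IsNilpotent n := by
    refine ⟨2 ^ a, ?_⟩
    rw [hn', sub_one_pow h2, ← Units.val_pow_eq_pow_val, hη'2, Units.val_one, sub_self]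
  have hns : star n = n := by
    rw [hn', star_sub, star_one, ← Units.coe_star, hη's]
  have hnx : Commute n (x : R) := by
    have h1 : Commute (η' : R) (x : R) := by
      have := congrArg Units.val hη'x.eq
      rw [Units.val_mul, Units.val_mul] at this
      exact this
    exact h1.sub_left (Commute.one_left _)
  have hcs : star c = 1 - c := eq_sub_of_add_eq' hc1
  have hcc : Commute c (star c) := by
    rw [hcs]
    exact (Commute.one_right _).sub_right (Commute.refl _)
  have hcn : Commute c n := (hc n hnx).symm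
  obtain ⟨k, hk1, hk2⟩ := norm_nilp hcc hcn (by rw [hc1, one_mul]) hns hnil
  have hxc : Commute (x : R) c := hc x (Commute.refl _)
  have hxk : Commute (x : R) (k : R) := by
    refine hk2 x hxc ?_ hnx.symm
    rw [hcs]
    exact (Commute.one_right _).sub_right hxc
  have hkx : k⁻¹ * x * k = x := by
    have h1 : x * k = k * x := Units.ext (by rw [Units.val_mul, Units.val_mul]; exact hxk.eq)
    rw [mul_assoc, h1, ← mul_assoc, inv_mul_cancel, one_mul]
  have hkη : star k * k = η' := by
    apply Units.ext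
    rw [Units.val_mul, Units.coe_star, hk1, hn']
    abel
  refine ⟨g * d⁻¹ * k⁻¹, ?_, ?_⟩
  · have h1 : star (g * d⁻¹ * k⁻¹) * (g * d⁻¹ * k⁻¹) = 1 := by
      rw [star_mul]
      have h3 : star k⁻¹ * star (g * d⁻¹) * (g * d⁻¹ * k⁻¹) = star k⁻¹ * η' * k⁻¹ := by
        rw [hη']
        group
      rw [h3, ← hkη, star_inv]
      group
    have h4 := congrArg Units.val h1
    rw [Units.val_mul, Units.coe_star, Units.val_one] at h4
    exact h4
  · have h1 : g * d⁻¹ * k⁻¹ * x * (g * d⁻¹ * k⁻¹)⁻¹ = g * d⁻¹ * (k⁻¹ * x * k) * (g * d⁻¹)⁻¹ := by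
      group
    rw [h1, hkx]
    have h3 : g * d⁻¹ * x * (g * d⁻¹)⁻¹ = g * (d⁻¹ * x * d) * g⁻¹ := by group
    have h4 : d⁻¹ * x * d = x := by
      rw [mul_assoc, ← hdx.eq, ← mul_assoc, inv_mul_cancel, one_mul]
    rw [h3, h4, hg]

end

end LieP.PS
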