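import Pool.Agent.LieP.PDefs

/-!
# MP_6c3636_al, LieP, module P03: adjoints (helper96)

`ω` is nondegenerate, `V` finite dimensional: `w ↦ ω · w` is an isomorphism `V ≃ Dual V` (injective by `nd` and `ω w v = - ω v w`), so the adjoint exists and is unique.
`mem_range_iff`: if all `w` with `adj ω A w = 0` satisfy `ω u w = 0` then `u` is in the range of `A`: otherwise there is a linear form on `V` vanishing on the range of `A` and not at `u`
(`Submodule.exists_dual_map_eq_bot_of_notMem` or similar), it is `ω · w` for some `w`; `ω (A v) w = 0` for all `v`, so `adj ω A w = 0`, contradiction.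
-/

namespace LieP.PS

noncomputable section

open Classical

variable {F : Type} [Field F] {V : Type} [AddCommGroup V] [Module F V] [FiniteDimensional F V]
  {ω : V →ₗ[F] V →ₗ[F] F}

theorem Sy.neg (h : Sy ω) (v w : V) : ω v w = - ω w v := by
  have h1 := h.alt (v + w)
  simp only [map_add, LinearMap.add_apply, h.alt, zero_add, add_zero] at h1
  first
    | exact eq_neg_of_add_eq_zero_left h1
    | exact eq_neg_of_add_eq_zero_right h1

theorem Sy.nd' (h : Sy ω) (v : V) (hv : ∀ w, ω w v = 0) : v = 0 :=
  h.nd v fun w => by rw [h.neg, hv, neg_zero]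

/-- every linear form is represented -/
theorem Sy.exists_rep (h : Sy ω) (f : V →ₗ[F] F) : ∃ w, ∀ v, f v = ω v w := by
  have hinj : Function.Injective ω.flip := by
    rw [injective_iff_map_eq_zero]
    intro v hv
    exact h.nd' v fun w => by
      have := LinearMap.congr_fun hv w
      simpa using this
  have hdim : Module.finrank F V = Module.finrank F (V →ₗ[F] F) := (Subspace.dual_finrank_eq (K := F) (V := V)).symm
  have hsur : Function.Surjective ω.flip :=
    (LinearMap.injective_iff_surjective_of_finrank_eq_finrank hdim).mp hinj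
  obtain ⟨w, hw⟩ := hsur f
  exact ⟨w, fun v => by rw [← hw]; rfl⟩

theorem adj_exists (h : Sy ω) (A : Module.End F V) :
    ∃ B : Module.End F V, ∀ v w, ω (A v) w = ω v (B w) := by
  have hex : ∀ w, ∃ u, ∀ v, ω (A v) w = ω v u := fun w => h.exists_rep ((ω.flip w).comp A)
  choose B hB using hex
  have huniq : ∀ a b : V, (∀ v, ω v a = ω v b) → a = b := by
    intro a b hab
    rw [← sub_eq_zero]
    exact h.nd' _ fun w => by rw [map_sub, hab, sub_self]
  refine ⟨{ toFun := B, map_add' := ?_, map_smul' := ?_ }, fun v w => hB w v⟩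
  · intro a b
    apply huniq
    intro v
    rw [← hB, map_add, map_add, hB, hB]
  · intro r a
    apply huniq
    intro v
    rw [← hB, map_smul, RingHom.id_apply, map_smul, hB]

theorem adj_spec (h : Sy ω) (A : Module.End F V) (v w : V) : ω (A v) w = ω v (adj ω A w) := by
  have h1 := adj_exists h A
  rw [adj, dif_pos h1]
  exact h1.choose_spec v w

theorem adj_eq (h : Sy ω) {A B : Module.End F V} (hB : ∀ v w, ω (A v) w = ω v (B w)) :
    adj ω A = B := by
  ext w
  rw [← sub_eq_zero]
  refine h.nd' _ fun v => ?_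
  rw [map_sub, ← adj_spec h, hB, sub_self]

theorem adj_adj (h : Sy ω) (A : Module.End F V) : adj ω (adj ω A) = A := by
  refine adj_eq h fun v w => ?_
  rw [h.neg, ← adj_spec h, h.neg, neg_neg]

theorem adj_spec' (h : Sy ω) (A : Module.End F V) (v w : V) : ω (adj ω A v) w = ω v (A w) := by
  rw [adj_spec h, adj_adj h]

theorem adj_mul (h : Sy ω) (A B : Module.End F V) : adj ω (A * B) = adj ω B * adj ω A := by
  refine adj_eq h fun v w => ?_
  rw [Module.End.mul_apply, Module.End.mul_apply, adj_spec h, adj_spec h]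

theorem adj_add (h : Sy ω) (A B : Module.End F V) : adj ω (A + B) = adj ω A + adj ω B := by
  refine adj_eq h fun v w => ?_
  rw [LinearMap.add_apply, map_add, LinearMap.add_apply, LinearMap.add_apply, map_add, adj_spec h, adj_spec h]

theorem adj_sub (h : Sy ω) (A B : Module.End F V) : adj ω (A - B) = adj ω A - adj ω B := by
  refine adj_eq h fun v w => ?_
  rw [LinearMap.sub_apply, map_sub, LinearMap.sub_apply, LinearMap.sub_apply, map_sub, adj_spec h, adj_spec h]

theorem adj_smul (h : Sy ω) (r : F) (A : Module.End F V) : adj ω (r • A) = r • adj ω A := by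
  refine adj_eq h fun v w => ?_
  rw [LinearMap.smul_apply, map_smul, LinearMap.smul_apply, LinearMap.smul_apply, map_smul, adj_spec h]

theorem adj_one (h : Sy ω) : adj ω (1 : Module.End F V) = 1 :=
  adj_eq h fun _ _ => rfl

theorem adj_pow (h : Sy ω) (A : Module.End F V) (n : ℕ) : adj ω (A ^ n) = adj ω A ^ n := by
  induction n with
  | zero => rw [pow_zero, pow_zero, adj_one h]
  | succ n ih => rw [pow_succ, adj_mul h, ih, pow_succ']

theorem iso_iff (h : Sy ω) (x : Module.End F V) : Iso ω x ↔ adj ω x * x = 1 := by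
  constructor
  · intro hx
    ext w
    rw [← sub_eq_zero]
    refine h.nd' _ fun v => ?_
    rw [map_sub, Module.End.mul_apply, ← adj_spec h, hx, Module.End.one_apply, sub_self]
  · intro hx v w
    rw [adj_spec h, ← Module.End.mul_apply, hx, Module.End.one_apply]

theorem Iso.adj_mul_self (h : Sy ω) {x : Module.End F V} (hx : Iso ω x) : adj ω x * x = 1 :=
  (iso_iff h x).mp hx

theorem Iso.self_mul_adj (h : Sy ω) {x : Module.End F V} (hx : Iso ω x) : x * adj ω x = 1 :=
  mul_eq_one_comm.mp (Iso.adj_mul_self h hx)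

theorem Iso.adj (h : Sy ω) {x : Module.End F V} (hx : Iso ω x) : Iso ω (adj ω x) := by
  rw [iso_iff h, adj_adj h]
  exact Iso.self_mul_adj h hx

theorem Iso.pow {x : Module.End F V} (hx : Iso ω x) (n : ℕ) : Iso ω (x ^ n) := by
  induction n with
  | zero => intro v w; rw [pow_zero, Module.End.one_apply, Module.End.one_apply]
  | succ n ih =>
    intro v w
    rw [pow_succ, Module.End.mul_apply, Module.End.mul_apply, ih, hx]

theorem mem_range_iff (h : Sy ω) (A : Module.End F V) (u : V) :
    (∃ z, A z = u) ↔ ∀ w, adj ω A w = 0 → ω u w = 0 := by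
  constructor
  · rintro ⟨z, rfl⟩ w hw
    rw [adj_spec h, hw, map_zero]
  · intro hu
    by_contra hcon
    have hnot : u ∉ LinearMap.range A := fun ⟨z, hz⟩ => hcon ⟨z, hz⟩
    obtain ⟨f, hf, hf'⟩ := Submodule.exists_dual_map_eq_bot_of_notMem hnot inferInstance
    obtain ⟨w, hw⟩ := h.exists_rep f
    apply hf
    rw [hw]
    apply hu
    refine h.nd' _ fun v => ?_
    rw [← adj_spec h, ← hw]
    have h1 : f (A v) ∈ Submodule.map f (LinearMap.range A) := ⟨A v, ⟨v, rfl⟩, rfl⟩
    rw [hf'] at h1
    exact (Submodule.mem_bot F).mp h1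

end

end LieP.PS
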