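import Pool.Agent.LieP.P02
import Pool.Agent.LieP.P03
import Pool.Agent.ParkerGL.A10

/-!
# MP_6c3636_al, LieP, module P04: the case where 1 is a trace (16.2), (16.4) (helper96)

`cj_of_c`: `exists_isom` (P02) for `R := Module.End F V` with the star ring structure given by `adj ω` (P03), `x` as a unit (`adj ω x * x = 1`, finite dimension), `g` the unit given by
`ParkerGL.conj_pow` (A10) for the automorphism `x`. `hc1` says `c + adj ω c = 1`.
`cj_of_inj`: if `x - 1` is injective, hence a unit, put `c := (x - 1)⁻¹`: `adj ω c = (x⁻¹ - 1)⁻¹ = (x⁻¹ * (1 - x))⁻¹ = (1 - x)⁻¹ * x`, in characteristic two `c + adj ω c = (x - 1)⁻¹ * (1 + x) = 1`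
(`x - 1 = x + 1`). Everything commuting with `x` commutes with `c`.
-/

namespace LieP.PS

noncomputable section

open Classical

variable {F : Type} [Field F] [Finite F] [CharP F 2] {V : Type} [AddCommGroup V] [Module F V] [Finite V]
  {ω : V →ₗ[F] V →ₗ[F] F}

namespace P04_aux

/-- the star ring structure given by the adjoint -/
@[reducible] def sr {F : Type} [Field F] {V : Type} [AddCommGroup V] [Module F V]
    [FiniteDimensional F V] {ω : V →ₗ[F] V →ₗ[F] F} (h : Sy ω) : StarRing (Module.End F V) where
  star := adj ω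
  star_involutive A := adj_adj h A
  star_mul A B := adj_mul h A B
  star_add A B := adj_add h A B

end P04_aux

theorem cj_of_c (h : Sy ω) {x : Module.End F V} (hx : Iso ω x) {k r j : ℕ}
    (hxr : x ^ (2 ^ k * r) = 1) (hr : Odd r) (hj : Odd j) (hjr : j ≡ 1 [MOD r])
    (c : Module.End F V) (hc : ∀ z : Module.End F V, Commute z x → Commute z c)
    (hc1 : ∀ v w, ω (c v) w + ω v (c w) = ω v w) : Cj ω x (x ^ j) := by
  have hfd : FiniteDimensional F V := Module.Finite.of_finite
  have hfin : Finite (Module.End F V) :=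
    Finite.of_injective (fun f : Module.End F V => (f : V → V)) DFunLike.coe_injective
  letI : StarRing (Module.End F V) := P04_aux.sr h
  have h2 : (2 : Module.End F V) = 0 := by
    have h3 : (2 : F) = 0 := CharTwo.two_eq_zero
    refine LinearMap.ext fun v => ?_
    have h4 : (2 : Module.End F V) v = (2 : F) • v := by
      have h5 : (2 : Module.End F V) = 1 + 1 := by norm_num
      rw [h5, two_smul]
      rfl
    rw [h4, h3, zero_smul]
    rfl
  let xu : (Module.End F V)ˣ := ⟨x, adj ω x, hx.self_mul_adj h, hx.adj_mul_self h⟩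
  let Φ := LinearMap.GeneralLinearGroup.generalLinearEquiv F V
  have hxu : xu ^ (2 ^ k * r) = 1 := by
    refine Units.ext ?_
    rw [Units.val_pow_eq_pow_val]
    exact hxr
  obtain ⟨ge, hge⟩ := ParkerGL.conj_pow (F := F) (V := V) (Φ xu) (k := k) (r := r) (j := j)
    (by rw [← map_pow, hxu, map_one]) hr hjr hj
  have hg : Φ.symm ge * xu * (Φ.symm ge)⁻¹ = xu ^ j := by
    have h3 := congrArg Φ.symm hge
    rw [map_mul, map_mul, map_inv, map_pow, Φ.symm_apply_apply] at h3
    exact h3
  have hcst : c + star c = 1 := by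
    have h3 : adj ω c = 1 - c := by
      refine adj_eq h fun v w => ?_
      have h4 := hc1 v w
      show ω (c v) w = ω v (w - c w)
      rw [map_sub, ← h4]
      ring
    show c + adj ω c = 1
    rw [h3]
    abel
  obtain ⟨u, hu1, hu2⟩ := exists_isom h2 (x := xu) (g := Φ.symm ge) (j := j)
    (hx.adj_mul_self h) hg (c := c) hc hcst
  refine ⟨Φ u, ?_, ?_⟩
  · exact (iso_iff h (u : Module.End F V)).mpr hu1
  · intro v
    have h3 : u * xu = xu ^ j * u := by
      rw [← hu2]; group
    have h4 := congrArg (Units.val) h3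
    rw [Units.val_mul, Units.val_mul, Units.val_pow_eq_pow_val] at h4
    exact LinearMap.congr_fun h4 v

theorem cj_of_inj (h : Sy ω) {x : Module.End F V} (hx : Iso ω x) {k r j : ℕ}
    (hxr : x ^ (2 ^ k * r) = 1) (hr : Odd r) (hj : Odd j) (hjr : j ≡ 1 [MOD r])
    (hinj : ∀ v, x v = v → v = 0) : Cj ω x (x ^ j) := by
  have hfd : FiniteDimensional F V := Module.Finite.of_finite
  have hinj' : Function.Injective (x - 1 : Module.End F V) := by
    rw [injective_iff_map_eq_zero]
    intro v hv
    refine hinj v ?_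
    have h3 : x v - v = 0 := hv
    exact sub_eq_zero.mp h3
  let u : V ≃ₗ[F] V := LinearEquiv.ofInjectiveEndo (x - 1 : Module.End F V) hinj'
  have hu : ∀ v, u v = x v - v := fun v => rfl
  let U : (Module.End F V)ˣ := ⟨x - 1, (u.symm : V →ₗ[F] V),
    LinearMap.ext fun v => u.apply_symm_apply v, LinearMap.ext fun v => u.symm_apply_apply v⟩
  refine cj_of_c h hx hxr hr hj hjr ((U⁻¹ : (Module.End F V)ˣ) : Module.End F V) (fun z hz => ?_)
    (fun v w => ?_)
  · have h3 : Commute z (U : Module.End F V) := by
      show Commute z (x - 1)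
      exact hz.sub_right (Commute.one_right z)
    exact h3.units_inv_right
  · show ω (u.symm v) w + ω v (u.symm w) = ω v w
    obtain ⟨a, rfl⟩ := u.surjective v
    obtain ⟨b, rfl⟩ := u.surjective w
    rw [u.symm_apply_apply, u.symm_apply_apply, hu, hu]
    have h3 : ω (x a) (x b) = ω a b := hx a b
    simp only [map_sub, LinearMap.sub_apply]
    rw [h3]
    have h4 : (2 : F) = 0 := CharTwo.two_eq_zero
    linear_combination (ω a (x b) + ω (x a) b - 2 * ω a b) * h4

end

end LieP.PS
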