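import Pool.Agent.LieP.P03

/-!
# MP_6c3636_al, LieP, module P05: orthogonal decompositions (helper96)

`W` nondegenerate (`hW`). `isCompl_oc`: `W ⊓ oc W = ⊥` by `hW`; `W ⊔ oc W = ⊤`: for `v` in `V` the form `w ↦ ω w v` on `W` is represented by an element `w₀` of `W`
(`Sy.exists_rep` for `rsf ω W`, `Sy (rsf ω W)`), then `v - w₀` is in `oc ω W`.
`sy_oc`: if `v` in `oc W` is orthogonal to `oc W` it is orthogonal to `W ⊔ oc W = ⊤`.
`oc_stable`: `x W ≤ W`, `x` injective, finite dimension: `x W = W`; for `v ∈ oc W`, `w ∈ W`, `w = x w'`: `ω (x v) w = ω (x v) (x w') = ω v w' = 0`.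
`glue`: `g := g₁ ⊕ g₂` with respect to `W ⊕ oc W` (`Submodule.prodEquivOfIsCompl`).
-/

namespace LieP.PS

noncomputable section

open Classical

variable {F : Type} [Field F] {V : Type} [AddCommGroup V] [Module F V] [FiniteDimensional F V]
  {ω : V →ₗ[F] V →ₗ[F] F}

theorem sy_rsf (h : Sy ω) {W : Submodule F V}
    (hW : ∀ w ∈ W, (∀ w' ∈ W, ω w w' = 0) → w = 0) : Sy (rsf ω W) := by
  refine ⟨fun v => ?_, fun v hv => ?_⟩
  · rw [rsf_apply]
    exact h.alt _
  · refine Subtype.ext (hW v v.2 fun w' hw' => ?_)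
    have := hv ⟨w', hw'⟩
    rw [rsf_apply] at this
    exact this

theorem isCompl_oc (h : Sy ω) {W : Submodule F V}
    (hW : ∀ w ∈ W, (∀ w' ∈ W, ω w w' = 0) → w = 0) : IsCompl W (oc ω W) := by
  constructor
  · rw [Submodule.disjoint_def]
    intro x hx hx'
    exact hW x hx (fun w' hw' => hx' w' hw')
  · rw [codisjoint_iff, Submodule.eq_top_iff']
    intro v
    obtain ⟨w₀, hw₀⟩ := (sy_rsf h hW).exists_rep ((ω.flip v).comp W.subtype)
    have hmem : v - (w₀ : V) ∈ oc ω W := by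
      intro w hw
      rw [h.neg, map_sub, neg_eq_zero, sub_eq_zero]
      have := hw₀ ⟨w, hw⟩
      rw [rsf_apply] at this
      simpa using this
    have : v = (w₀ : V) + (v - (w₀ : V)) := by abel
    rw [this]
    exact Submodule.add_mem_sup w₀.2 hmem

theorem sy_oc (h : Sy ω) {W : Submodule F V}
    (hW : ∀ w ∈ W, (∀ w' ∈ W, ω w w' = 0) → w = 0) : Sy (rsf ω (oc ω W)) := by
  refine ⟨fun v => ?_, fun v hv => ?_⟩
  · rw [rsf_apply]
    exact h.alt _
  · refine Subtype.ext (h.nd v fun z => ?_)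
    have hz : z ∈ W ⊔ oc ω W := by
      rw [(isCompl_oc h hW).sup_eq_top]
      exact Submodule.mem_top
    obtain ⟨a, ha, b, hb, rfl⟩ := Submodule.mem_sup.mp hz
    have h1 : ω (v : V) a = 0 := v.2 a ha
    have h2 : ω (v : V) b = 0 := by
      have := hv ⟨b, hb⟩
      rw [rsf_apply] at this
      exact this
    rw [map_add, h1, h2, add_zero]

theorem p05_inj (h : Sy ω) {x : Module.End F V} (hx : Iso ω x) : Function.Injective x := by
  rw [← LinearMap.ker_eq_bot, LinearMap.ker_eq_bot']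
  intro v hv
  refine h.nd v fun w => ?_
  rw [← hx v w, hv, map_zero, LinearMap.zero_apply]

theorem oc_stable (h : Sy ω) {x : Module.End F V} (hx : Iso ω x) {W : Submodule F V}
    (hxW : ∀ w ∈ W, x w ∈ W) : ∀ w ∈ oc ω W, x w ∈ oc ω W := by
  intro v hv w hw
  have hinj : Function.Injective (x.restrict hxW) := by
    intro a b hab
    refine Subtype.ext (p05_inj h hx ?_)
    have := congrArg (Subtype.val) hab
    simpa using this
  have hsurj : Function.Surjective (x.restrict hxW) :=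
    LinearMap.injective_iff_surjective.mp hinj
  obtain ⟨w', hw'⟩ := hsurj ⟨w, hw⟩
  have h1 : x (w' : V) = w := by
    have := congrArg (Subtype.val) hw'
    simpa using this
  rw [← h1, hx]
  exact hv w' w'.2

theorem iso_restrict {x : Module.End F V} (hx : Iso ω x) {W : Submodule F V}
    (hxW : ∀ w ∈ W, x w ∈ W) : Iso (rsf ω W) (x.restrict hxW) := by
  intro v w
  rw [rsf_apply, rsf_apply, LinearMap.restrict_coe_apply, LinearMap.restrict_coe_apply]
  exact hx v w

theorem glue (h : Sy ω) {x y : Module.End F V} {W : Submodule F V}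
    (hW : ∀ w ∈ W, (∀ w' ∈ W, ω w w' = 0) → w = 0)
    (hxW : ∀ w ∈ W, x w ∈ W) (hyW : ∀ w ∈ W, y w ∈ W)
    (hxO : ∀ w ∈ oc ω W, x w ∈ oc ω W) (hyO : ∀ w ∈ oc ω W, y w ∈ oc ω W)
    (h1 : Cj (rsf ω W) (x.restrict hxW) (y.restrict hyW))
    (h2 : Cj (rsf ω (oc ω W)) (x.restrict hxO) (y.restrict hyO)) : Cj ω x y := by
  obtain ⟨g₁, hg₁, hg₁'⟩ := h1
  obtain ⟨g₂, hg₂, hg₂'⟩ := h2
  set e := Submodule.prodEquivOfIsCompl W (oc ω W) (isCompl_oc h hW) with he
  have hee : ∀ (a : W) (b : oc ω W), e (a, b) = (a : V) + (b : V) := fun a b => by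
    rw [he, Submodule.coe_prodEquivOfIsCompl']
  set g : V ≃ₗ[F] V := e.symm ≪≫ₗ (LinearEquiv.prodCongr g₁ g₂) ≪≫ₗ e with hg
  have hge : ∀ (a : W) (b : oc ω W), g ((a : V) + (b : V)) = (g₁ a : V) + (g₂ b : V) := by
    intro a b
    rw [← hee a b, hg, LinearEquiv.trans_apply, LinearEquiv.trans_apply,
      LinearEquiv.symm_apply_apply]
    exact hee _ _
  have hcr : ∀ (a : W) (b : oc ω W), ω (b : V) (a : V) = 0 := fun a b => b.2 a a.2
  have hcr' : ∀ (a : W) (b : oc ω W), ω (a : V) (b : V) = 0 := fun a b => by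
    rw [h.neg, hcr, neg_zero]
  refine ⟨g, fun v w => ?_, fun v => ?_⟩
  · obtain ⟨⟨a, b⟩, rfl⟩ := e.surjective v
    obtain ⟨⟨a', b'⟩, rfl⟩ := e.surjective w
    rw [hee, hee, hge, hge]
    simp only [map_add, LinearMap.add_apply, hcr, hcr', add_zero, zero_add]
    have e1 := hg₁ a a'
    have e2 := hg₂ b b'
    rw [rsf_apply, rsf_apply] at e1 e2
    rw [e1, e2]
  · obtain ⟨⟨a, b⟩, rfl⟩ := e.surjective v
    rw [hee]
    have e1 := congrArg Subtype.val (hg₁' a)
    have e2 := congrArg Subtype.val (hg₂' b)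
    rw [LinearMap.restrict_coe_apply] at e1 e2
    have e3 : x ((a : V) + (b : V)) = ((x.restrict hxW a : W) : V) + ((x.restrict hxO b : oc ω W) : V) := by
      rw [LinearMap.restrict_coe_apply, LinearMap.restrict_coe_apply, map_add]
    rw [e3, hge, hge, e1, e2, map_add]

theorem Cj.trans {x y z : Module.End F V} (h : Cj ω x y) (h' : Cj ω y z) : Cj ω x z := by
  obtain ⟨g, hg, hg'⟩ := h
  obtain ⟨k, hk, hk'⟩ := h'
  refine ⟨g ≪≫ₗ k, fun v w => ?_, fun v => ?_⟩
  · rw [LinearEquiv.trans_apply, LinearEquiv.trans_apply, hk, hg]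
  · rw [LinearEquiv.trans_apply, LinearEquiv.trans_apply, hg', hk']

/-- if `x' = x⁻¹`, `y' = y⁻¹` -/
theorem Cj.inv {x y x' y' : Module.End F V} (h : Cj ω x y) (hx : x' * x = 1) (hx' : x * x' = 1)
    (hy : y' * y = 1) : Cj ω x' y' := by
  obtain ⟨g, hg, hg'⟩ := h
  refine ⟨g, hg, fun v => ?_⟩
  have e1 : x (x' v) = v := by
    have := LinearMap.congr_fun hx' v
    simpa using this
  have e2 : y' (y (g (x' v))) = g (x' v) := by
    have := LinearMap.congr_fun hy (g (x' v))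
    simpa using this
  rw [← e2, ← hg' (x' v), e1]

end

end LieP.PS
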