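import Pool.Agent.LieP.PDefs

/-!
# MP_6c3636_al, LieP, module P06: linear forms on truncated polynomials (helper96)

`f` is a linear form on `F[X]`, zero on the multiples of `X ^ a`, `f (X ^ (a - 1)) ≠ 0`.
`exists_mul`: every linear form `h` which is zero on the multiples of `X ^ a` is `p ↦ f (e * p)`. Prove by induction on `m ≤ a`: there is `e` with `h p = f (e * p)` for all multiples `p` of
`X ^ (a - m)`. `m = 0`: `e = 0`. Step: for `e + C t * X ^ m` instead of `e` nothing changes on the multiples of `X ^ (a - m)`; a multiple of `X ^ (a - m - 1)` is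
`C r * X ^ (a - m - 1)` plus a multiple of `X ^ (a - m)` (`X * divX q + C (q.coeff 0)`), and `f (C t * X ^ m * X ^ (a - m - 1)) = t * f (X ^ (a - 1))`: choose `t`.
`dvd_of_zero`: if `f (e * p) = 0` for all `p` then `X ^ a ∣ e`: otherwise `e = X ^ i * e'`, `i < a`, `e'.coeff 0 ≠ 0`; `p := X ^ (a - 1 - i)`: `f (X ^ (a - 1) * e') = e'.coeff 0 * f (X ^ (a - 1)) ≠ 0`.
-/

namespace LieP.PS

noncomputable section

open Classical Polynomial

variable {F : Type} [Field F]

theorem map_C_mul (f : F[X] →ₗ[F] F) (c : F) (p : F[X]) : f (C c * p) = c * f p := by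
  rw [← smul_eq_C_mul, map_smul, smul_eq_mul]

theorem exists_mul_aux {a : ℕ} (ha : 1 ≤ a) {f h : F[X] →ₗ[F] F} (hf : ∀ p, f (X ^ a * p) = 0)
    (hf1 : f (X ^ (a - 1)) ≠ 0) (hh : ∀ p, h (X ^ a * p) = 0) (m : ℕ) (hm : m ≤ a) :
    ∃ e : F[X], ∀ p, h (X ^ (a - m) * p) = f (e * (X ^ (a - m) * p)) := by
  induction m with
  | zero =>
    refine ⟨0, fun p => ?_⟩
    rw [Nat.sub_zero, hh, zero_mul, map_zero]
  | succ m ih =>
    obtain ⟨e, he⟩ := ih (by omega)
    obtain ⟨n, hn⟩ : ∃ n, n = a - (m + 1) := ⟨_, rfl⟩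
    have hn1 : a - m = n + 1 := by omega
    have hn2 : m + n = a - 1 := by omega
    have hn3 : m + (n + 1) = a := by omega
    rw [← hn]
    rw [hn1] at he
    set t : F := (h (X ^ n) - f (e * X ^ n)) / f (X ^ (a - 1)) with ht
    have ht1 : t * f (X ^ (a - 1)) = h (X ^ n) - f (e * X ^ n) := by
      rw [ht, div_mul_cancel₀ _ hf1]
    refine ⟨e + C t * X ^ m, fun p => ?_⟩
    have h1 : X ^ n * p = X ^ (n + 1) * p.divX + C (p.coeff 0) * X ^ n := by
      conv_lhs => rw [← Polynomial.divX_mul_X_add p]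
      ring
    have h2 : (e + C t * X ^ m) * (X ^ n * p) = e * (X ^ (n + 1) * p.divX) + C t * (X ^ a * p.divX) +
        C (p.coeff 0) * (e * X ^ n) + C (p.coeff 0) * (C t * X ^ (a - 1)) := by
      rw [h1, ← hn2]
      conv_rhs => rw [← hn3]
      ring
    rw [h2, h1, map_add, map_add, map_add, map_add, map_C_mul, map_C_mul, map_C_mul, map_C_mul, map_C_mul, hf, ht1, he]
    ring

theorem exists_mul {a : ℕ} (ha : 1 ≤ a) {f h : F[X] →ₗ[F] F} (hf : ∀ p, f (X ^ a * p) = 0)
    (hf1 : f (X ^ (a - 1)) ≠ 0) (hh : ∀ p, h (X ^ a * p) = 0) : ∃ e : F[X], ∀ p, h p = f (e * p) := by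
  obtain ⟨e, he⟩ := exists_mul_aux ha hf hf1 hh a le_rfl
  refine ⟨e, fun p => ?_⟩
  have h1 := he p
  rwa [Nat.sub_self, pow_zero, one_mul] at h1

theorem dvd_of_zero {a : ℕ} (ha : 1 ≤ a) {f : F[X] →ₗ[F] F} (hf : ∀ p, f (X ^ a * p) = 0)
    (hf1 : f (X ^ (a - 1)) ≠ 0) {e : F[X]} (he : ∀ p, f (e * p) = 0) : X ^ a ∣ e := by
  rw [Polynomial.X_pow_dvd_iff]
  intro i
  induction i using Nat.strong_induction_on with
  | _ i ih =>
    intro hi
    obtain ⟨e', he'⟩ := Polynomial.X_pow_dvd_iff.2 fun d hd => ih d hd (hd.trans hi)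
    have h1 : e * X ^ (a - 1 - i) = X ^ a * e'.divX + C (e'.coeff 0) * X ^ (a - 1) := by
      have h2 : i + (a - 1 - i) = a - 1 := by omega
      have h3 : (a - 1) + 1 = a := by omega
      have h4 : e * X ^ (a - 1 - i) = X ^ (a - 1) * e' := by
        rw [he', ← h2, pow_add]
        rw [show i + (a - 1 - i) - i = a - 1 - i by omega]
        ring
      rw [h4]
      conv_lhs => rw [← Polynomial.divX_mul_X_add e']
      conv_rhs => rw [← h3, pow_succ]
      rw [show a - 1 + 1 - 1 = a - 1 by omega]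
      ring
    have h5 := he (X ^ (a - 1 - i))
    rw [h1, map_add, hf, map_C_mul, zero_add] at h5
    rcases mul_eq_zero.1 h5 with h6 | h6
    · rw [he', Polynomial.coeff_X_pow_mul', if_pos le_rfl, Nat.sub_self, h6]
    · exact absurd h6 hf1

end

end LieP.PS
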