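import Pool.Agent.LieP.PDefs

/-!
# MP_6c3636_al, LieP, module P07: free modules over F[Y] / (Y ^ a) (helper96)

`h : Fr Y a v`. `lift`: the linear map `φ : (κ → F[X]) → V`, `p ↦ ∑ i, (aeval Y (p i)) (v i)` is surjective, its kernel is in the kernel of `ψ : p ↦ ∑ i, (aeval T (p i)) (z i)`
(`X ^ a ∣ p i` and `T ^ a = 0`), so `ψ` factors through `φ` (e.g. `φ.quotKerEquivOfSurjective`, `Submodule.liftQ`).
`lift_apply`, `lift_comm`: special cases. `mem_pow`: if `Y ^ m w = 0`, `m ≤ a`, write `w` by `span`, `X ^ a ∣ X ^ m * p i`, so `p i = X ^ (a - m) * q i`.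
-/

namespace LieP.PS

noncomputable section

open Classical Polynomial

variable {F : Type} [Field F] {V : Type} [AddCommGroup V] [Module F V]
  {Y : Module.End F V} {a : ℕ} {κ : Type} [Fintype κ] {v : κ → V}

namespace P07Aux

/-- the evaluation map -/
def evm {W : Type} [AddCommGroup W] [Module F W] (T : Module.End F W) (z : κ → W) :
    (κ → F[X]) →ₗ[F] W :=
  ∑ i, (LinearMap.applyₗ (z i)).comp ((aeval T).toLinearMap.comp (LinearMap.proj i))

theorem evm_apply {W : Type} [AddCommGroup W] [Module F W] (T : Module.End F W) (z : κ → W)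
    (p : κ → F[X]) : evm T z p = ∑ i, (aeval T (p i)) (z i) := by
  unfold evm
  rw [LinearMap.sum_apply]
  exact Finset.sum_congr rfl fun i _ => rfl

theorem map_evm {W : Type} [AddCommGroup W] [Module F W] (T : Module.End F W) (z : κ → W)
    (p : κ → F[X]) : T (∑ i, (aeval T (p i)) (z i)) = ∑ i, (aeval T (X * p i)) (z i) := by
  rw [map_sum]
  refine Finset.sum_congr rfl fun i _ => ?_
  rw [map_mul, aeval_X, Module.End.mul_apply]

theorem pow_evm {W : Type} [AddCommGroup W] [Module F W] (T : Module.End F W) (z : κ → W) (m : ℕ)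
    (p : κ → F[X]) :
    (T ^ m) (∑ i, (aeval T (p i)) (z i)) = ∑ i, (aeval T (X ^ m * p i)) (z i) := by
  rw [map_sum]
  refine Finset.sum_congr rfl fun i _ => ?_
  rw [map_mul, map_pow, aeval_X, Module.End.mul_apply]

theorem evm_single {W : Type} [AddCommGroup W] [Module F W] (T : Module.End F W) (z : κ → W)
    (i : κ) (p : F[X]) :
    ∑ j, (aeval T ((Pi.single i p : κ → F[X]) j)) (z j) = (aeval T p) (z i) := by
  rw [Finset.sum_eq_single i]
  · rw [Pi.single_eq_same]
  · intro j _ hj
    rw [Pi.single_eq_of_ne hj, map_zero, LinearMap.zero_apply]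
  · intro h
    exact absurd (Finset.mem_univ i) h

theorem zero_of_dvd' {W : Type} [AddCommGroup W] [Module F W] {T : Module.End F W} {a : ℕ}
    (hT : T ^ a = 0) {p : F[X]} (hp : X ^ a ∣ p) : aeval T p = 0 := by
  obtain ⟨q, rfl⟩ := hp
  rw [map_mul, map_pow, aeval_X, hT, zero_mul]

end P07Aux

open P07Aux

theorem Fr.lift (h : Fr Y a v) {W : Type} [AddCommGroup W] [Module F W] {T : Module.End F W}
    (hT : T ^ a = 0) (z : κ → W) :
    ∃ g : V →ₗ[F] W, (∀ p : κ → F[X], g (∑ i, (aeval Y (p i)) (v i)) = ∑ i, (aeval T (p i)) (z i)) ∧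
      (∀ i, g (v i) = z i) ∧ (∀ w, g (Y w) = T (g w)) ∧
      ∀ (p : F[X]) (i : κ), g ((aeval Y p) (v i)) = (aeval T p) (z i) := by
  have hsurj : Function.Surjective (evm Y v) := by
    intro w
    obtain ⟨p, hp⟩ := h.span w
    exact ⟨p, by rw [evm_apply, ← hp]⟩
  obtain ⟨s, hs⟩ := (evm Y v).exists_rightInverse_of_surjective (LinearMap.range_eq_top.2 hsurj)
  have hker : ∀ p : κ → F[X], evm Y v p = 0 → evm T z p = 0 := by
    intro p hp
    rw [evm_apply] at hp
    rw [evm_apply]
    refine Finset.sum_eq_zero fun i _ => ?_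
    rw [zero_of_dvd' hT (h.free p hp i), LinearMap.zero_apply]
  set g : V →ₗ[F] W := (evm T z).comp s with hg
  have h1 : ∀ p : κ → F[X], g (∑ i, (aeval Y (p i)) (v i)) = ∑ i, (aeval T (p i)) (z i) := by
    intro p
    rw [← evm_apply, ← evm_apply, hg, LinearMap.comp_apply]
    have e : evm T z (s (evm Y v p) - p) = 0 := by
      apply hker
      rw [map_sub, ← LinearMap.comp_apply, hs, LinearMap.id_apply, sub_self]
    rw [map_sub] at e
    exact sub_eq_zero.1 e
  have h4 : ∀ (p : F[X]) (i : κ), g ((aeval Y p) (v i)) = (aeval T p) (z i) := by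
    intro p i
    rw [← evm_single Y v i p, h1, evm_single]
  refine ⟨g, h1, fun i => ?_, fun w => ?_, h4⟩
  · have := h4 1 i
    rwa [map_one, map_one, Module.End.one_apply, Module.End.one_apply] at this
  · obtain ⟨p, hp⟩ := h.span w
    rw [hp, map_evm, h1 (fun i => X * p i), h1, map_evm]

/-- two linear maps which intertwine `Y` and `T` and agree on the basis are equal -/
theorem Fr.ext (h : Fr Y a v) {W : Type} [AddCommGroup W] [Module F W] {T : Module.End F W}
    {g g' : V →ₗ[F] W} (hg : ∀ w, g (Y w) = T (g w)) (hg' : ∀ w, g' (Y w) = T (g' w))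
    (hv : ∀ i, g (v i) = g' (v i)) : g = g' := by
  have key : ∀ (k : V →ₗ[F] W), (∀ w, k (Y w) = T (k w)) → ∀ (p : F[X]) (w : V),
      k ((aeval Y p) w) = (aeval T p) (k w) := by
    intro k hk p w
    have hpow : ∀ (n : ℕ) (w : V), k ((Y ^ n) w) = (T ^ n) (k w) := by
      intro n
      induction n with
      | zero => intro w; simp
      | succ n ih =>
        intro w
        rw [pow_succ, pow_succ, Module.End.mul_apply, Module.End.mul_apply, ih, hk]
    induction p using Polynomial.induction_on' with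
    | add p q hp hq => rw [map_add, map_add, LinearMap.add_apply, LinearMap.add_apply, map_add, hp, hq]
    | monomial n c =>
      rw [aeval_monomial, aeval_monomial, Module.End.mul_apply, Module.End.mul_apply,
        Module.algebraMap_end_apply, Module.algebraMap_end_apply, map_smul, hpow]
  ext w
  obtain ⟨p, hp⟩ := h.span w
  rw [hp, map_sum, map_sum]
  refine Finset.sum_congr rfl fun i _ => ?_
  rw [key g hg, key g' hg', hv]

theorem Fr.mem_pow (h : Fr Y a v) {m : ℕ} (hm : m ≤ a) {w : V} (hw : (Y ^ m) w = 0) :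
    ∃ z, w = (Y ^ (a - m)) z := by
  obtain ⟨p, hp⟩ := h.span w
  rw [hp, pow_evm] at hw
  have hd : ∀ i, X ^ (a - m) ∣ p i := by
    intro i
    have h1 := h.free _ hw i
    have h2 : (X : F[X]) ^ a = X ^ m * X ^ (a - m) := by rw [← pow_add]; congr 1; omega
    rw [h2] at h1
    exact (mul_dvd_mul_iff_left (pow_ne_zero m X_ne_zero)).1 h1
  choose q hq using hd
  refine ⟨∑ i, (aeval Y (q i)) (v i), ?_⟩
  rw [pow_evm, hp]
  exact Finset.sum_congr rfl fun i _ => by rw [hq i]

/-- the annihilator of a basis vector -/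
theorem Fr.dvd (h : Fr Y a v) (i : κ) {p : F[X]} (hp : (aeval Y p) (v i) = 0) : X ^ a ∣ p := by
  rw [← evm_single Y v i p] at hp
  have := h.free _ hp i
  rwa [Pi.single_eq_same] at this

theorem Fr.zero_of_dvd (h : Fr Y a v) {p : F[X]} (hp : X ^ a ∣ p) : aeval Y p = 0 :=
  zero_of_dvd' h.pow hp

end

end LieP.PS
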