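import Pool.Agent.LieP.P05
import Pool.Agent.LieP.P07

/-!
# MP_6c3636_al, LieP, module P08: blocks (16.5) (helper96)

`x` isometry, `Y := x - 1`, `Y ^ a = 0`, `G i j := ω (Y ^ (a - 1) (v i)) (v j)` has trivial (left) kernel. `W := ` the range of the linear map `p ↦ ∑ i, (aeval Y (p i)) (v i)` on `κ → F[X]`.
Claim: if the `p i` are not all divisible by `X ^ a` and `u := ∑ i, (aeval Y (p i)) (v i)` then `ω u w ≠ 0` for some `w` in `W` (this gives the freeness and the nondegeneracy; an element of `W` which is not `0`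
has such a representation as `Y ^ a = 0`). Let `s < a` be maximal with `X ^ s ∣ p i` for all `i`, `p i = X ^ s * q i`, the vector `t i := (q i).coeff 0` is not `0`.
`Y ^ (a - 1 - s) u = Y ^ (a - 1) (∑ i, t i • v i)` (`Y ^ a = 0`), so for some `j` `ω (Y ^ (a - 1 - s) u) (v j) = ∑ i, t i * G i j ≠ 0`, and this is `ω u (adj ω Y ^ (a - 1 - s) (v j))`;
`adj ω Y = x⁻¹ - 1 = - x⁻¹ * Y` and `W` is stable under `x`, hence (finite dimension, `x` injective) under `x⁻¹ = adj ω x`.
-/

namespace LieP.PS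

noncomputable section

open Classical Polynomial

variable {F : Type} [Field F] {V : Type} [AddCommGroup V] [Module F V] [FiniteDimensional F V]
  {ω : V →ₗ[F] V →ₗ[F] F}

/-- the linear map `p ↦ ∑ i, (aeval Y (p i)) (v i)` -/
def P08_phi (Y : Module.End F V) {κ : Type} [Fintype κ] (v : κ → V) : (κ → F[X]) →ₗ[F] V where
  toFun p := ∑ i, (aeval Y (p i)) (v i)
  map_add' p q := by
    rw [← Finset.sum_add_distrib]
    exact Finset.sum_congr rfl fun i _ => by rw [Pi.add_apply, map_add, LinearMap.add_apply]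
  map_smul' r p := by
    rw [RingHom.id_apply, Finset.smul_sum]
    exact Finset.sum_congr rfl fun i _ => by rw [Pi.smul_apply, map_smul, LinearMap.smul_apply]

omit [FiniteDimensional F V] in
theorem P08_phi_apply (Y : Module.End F V) {κ : Type} [Fintype κ] (v : κ → V) (p : κ → F[X]) :
    P08_phi Y v p = ∑ i, (aeval Y (p i)) (v i) := rfl

omit [FiniteDimensional F V] in
theorem P08_phi_mul (Y : Module.End F V) {κ : Type} [Fintype κ] (v : κ → V) (q : F[X]) (p : κ → F[X]) :
    (aeval Y q) (P08_phi Y v p) = P08_phi Y v (fun i => q * p i) := by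
  rw [P08_phi_apply, P08_phi_apply, map_sum]
  exact Finset.sum_congr rfl fun i _ => by rw [map_mul, Module.End.mul_apply]

omit [FiniteDimensional F V] in
theorem P08_key {x : Module.End F V} {a : ℕ} (ha : 1 ≤ a)
    (hY : (x - 1) ^ a = 0) {κ : Type} [Fintype κ] (v : κ → V)
    (hG : ∀ t : κ → F, (∀ j, ∑ i, t i * ω (((x - 1) ^ (a - 1)) (v i)) (v j) = 0) → t = 0)
    (p : κ → F[X]) (hp : ¬ ∀ i, X ^ a ∣ p i) :
    ∃ j, ∃ m : ℕ, ω (((x - 1) ^ m) (P08_phi (x - 1) v p)) (v j) ≠ 0 := by
  set Y := x - 1 with hYdef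
  let s := Nat.findGreatest (fun s => ∀ i, X ^ s ∣ p i) a
  have hs : ∀ i, X ^ s ∣ p i := by
    have := Nat.findGreatest_spec (P := fun s => ∀ i, (X : F[X]) ^ s ∣ p i) (Nat.zero_le a)
      (fun i => by rw [pow_zero]; exact one_dvd _)
    exact this
  have hsa : s < a := by
    refine lt_of_le_of_ne (Nat.findGreatest_le a) fun h0 => hp ?_
    rw [← h0]
    exact hs
  have hs1 : ¬ ∀ i, X ^ (s + 1) ∣ p i :=
    Nat.findGreatest_is_greatest (P := fun s => ∀ i, (X : F[X]) ^ s ∣ p i) (Nat.lt_succ_self s) hsa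
  choose q hq using hs
  let t : κ → F := fun i => (q i).coeff 0
  have ht : t ≠ 0 := by
    intro h0
    refine hs1 fun i => ?_
    rw [hq i, pow_succ]
    exact mul_dvd_mul_left _ (X_dvd_iff.2 (congrFun h0 i))
  have h1 : ∃ j, ∑ i, t i * ω ((Y ^ (a - 1)) (v i)) (v j) ≠ 0 := by
    by_contra h0
    push Not at h0
    exact ht (hG t h0)
  obtain ⟨j, hj⟩ := h1
  refine ⟨j, a - 1 - s, ?_⟩
  have h2 : (Y ^ (a - 1 - s)) (P08_phi Y v p) = ∑ i, t i • (Y ^ (a - 1)) (v i) := by
    have h3 : Y ^ (a - 1 - s) = aeval Y ((X : F[X]) ^ (a - 1 - s)) := by rw [map_pow, aeval_X]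
    rw [h3, P08_phi_mul, P08_phi_apply]
    refine Finset.sum_congr rfl fun i _ => ?_
    have h4 : (X : F[X]) ^ (a - 1 - s) * p i = X ^ a * (q i).divX + X ^ (a - 1) * C (t i) := by
      have h5 : a - 1 - s + s = a - 1 := by omega
      have h6 : a - 1 + 1 = a := by omega
      rw [hq i, ← mul_assoc, ← pow_add, h5]
      conv_lhs => rw [← divX_mul_X_add (q i)]
      rw [mul_add]
      congr 1
      rw [mul_comm (q i).divX X, ← mul_assoc, ← pow_succ, h6]
    rw [h4, map_add, map_mul, map_mul, map_pow, map_pow, aeval_X, aeval_C, hY, zero_mul, zero_add]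
    rw [Module.End.mul_apply, Module.algebraMap_end_apply, map_smul]
  rw [h2, map_sum, LinearMap.sum_apply]
  intro h0
  apply hj
  rw [← h0]
  exact Finset.sum_congr rfl fun i _ => by rw [map_smul, LinearMap.smul_apply, smul_eq_mul]

theorem block_of_gram (h : Sy ω) {x : Module.End F V} (hx : Iso ω x) {a : ℕ} (ha : 1 ≤ a)
    (hY : (x - 1) ^ a = 0) {κ : Type} [Fintype κ] (v : κ → V)
    (hG : ∀ t : κ → F, (∀ j, ∑ i, t i * ω (((x - 1) ^ (a - 1)) (v i)) (v j) = 0) → t = 0) :
    ∃ (W : Submodule F V) (hxW : ∀ w ∈ W, x w ∈ W) (hv : ∀ i, v i ∈ W),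
      (∀ w ∈ W, (∀ w' ∈ W, ω w w' = 0) → w = 0) ∧
      Fr (x.restrict hxW - 1) a (fun i => (⟨v i, hv i⟩ : W)) := by
  let W : Submodule F V := LinearMap.range (P08_phi (x - 1) v)
  have hxW : ∀ w ∈ W, x w ∈ W := by
    rintro _ ⟨p, rfl⟩
    have h1 : aeval (x - 1) (X + 1 : F[X]) = x := by
      rw [map_add, aeval_X, map_one, sub_add_cancel]
    have h2 := P08_phi_mul (x - 1) v (X + 1) p
    rw [h1] at h2
    rw [h2]
    exact ⟨_, rfl⟩
  have hv : ∀ i, v i ∈ W := by
    intro i
    refine ⟨Pi.single i 1, ?_⟩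
    rw [P08_phi_apply, Finset.sum_eq_single i]
    · rw [Pi.single_eq_same, map_one, Module.End.one_apply]
    · intro j _ hj
      rw [Pi.single_eq_of_ne hj, map_zero, LinearMap.zero_apply]
    · intro hi
      exact absurd (Finset.mem_univ i) hi
  -- `W` is stable under the inverse of `x`
  have hinv : ∀ w ∈ W, adj ω x w ∈ W := by
    have h1 : Function.Injective (x.restrict hxW) := by
      intro w w' hw
      have h2 : x (w : V) = x (w' : V) := congrArg Subtype.val hw
      have h3 : adj ω x (x (w : V)) = adj ω x (x (w' : V)) := congrArg _ h2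
      rw [← Module.End.mul_apply, ← Module.End.mul_apply, Iso.adj_mul_self h hx, Module.End.one_apply,
        Module.End.one_apply] at h3
      exact Subtype.ext h3
    have h2 : Function.Surjective (x.restrict hxW) := LinearMap.injective_iff_surjective.1 h1
    intro w hw
    obtain ⟨w', hw'⟩ := h2 ⟨w, hw⟩
    have h3 : x (w' : V) = w := congrArg Subtype.val hw'
    rw [← h3, ← Module.End.mul_apply, Iso.adj_mul_self h hx, Module.End.one_apply]
    exact w'.2
  have hpow : ∀ m : ℕ, ∀ w ∈ W, (adj ω (x - 1) ^ m) w ∈ W := by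
    intro m
    induction m with
    | zero => intro w hw; rw [pow_zero]; exact hw
    | succ m ih =>
      intro w hw
      rw [pow_succ, Module.End.mul_apply]
      refine ih _ ?_
      rw [adj_sub h, adj_one h, LinearMap.sub_apply, Module.End.one_apply]
      exact W.sub_mem (hinv w hw) hw
  have key : ∀ p : κ → F[X], (¬ ∀ i, X ^ a ∣ p i) → ∃ w ∈ W, ω (P08_phi (x - 1) v p) w ≠ 0 := by
    intro p hp
    obtain ⟨j, m, hj⟩ := P08_key ha hY v hG p hp
    refine ⟨(adj ω (x - 1) ^ m) (v j), hpow m _ (hv j), ?_⟩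
    rw [← adj_pow h, ← adj_spec h]
    exact hj
  have hzero : ∀ p : κ → F[X], (∀ i, X ^ a ∣ p i) → P08_phi (x - 1) v p = 0 := by
    intro p hp
    rw [P08_phi_apply]
    refine Finset.sum_eq_zero fun i _ => ?_
    obtain ⟨q, hq⟩ := hp i
    rw [hq, map_mul, map_pow, aeval_X, hY, zero_mul, LinearMap.zero_apply]
  have hcoe : ∀ (p : F[X]) (w : W), (((aeval (x.restrict hxW - 1) p) w : W) : V) =
      (aeval (x - 1) p) (w : V) := by
    intro p
    induction p using Polynomial.induction_on' with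
    | add p q hp hq =>
      intro w
      rw [map_add, map_add, LinearMap.add_apply, LinearMap.add_apply, Submodule.coe_add, hp, hq]
    | monomial n r =>
      intro w
      rw [aeval_monomial, aeval_monomial, Module.End.mul_apply, Module.End.mul_apply,
        Module.algebraMap_end_apply, Module.algebraMap_end_apply, Submodule.coe_smul]
      congr 1
      induction n generalizing w with
      | zero => rw [pow_zero, pow_zero, Module.End.one_apply, Module.End.one_apply]
      | succ n ih =>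
        rw [pow_succ, pow_succ, Module.End.mul_apply, Module.End.mul_apply, ih]
        rfl
  refine ⟨W, hxW, hv, ?_, ?_, ?_, ?_⟩
  · rintro _ ⟨p, rfl⟩ hw
    by_cases hp : ∀ i, X ^ a ∣ p i
    · exact hzero p hp
    · obtain ⟨w, hw1, hw2⟩ := key p hp
      exact absurd (hw w hw1) hw2
  · apply LinearMap.ext
    intro w
    apply Subtype.ext
    have h1 := hcoe (X ^ a) w
    rw [map_pow, map_pow, aeval_X, aeval_X, hY] at h1
    exact h1
  · rintro ⟨_, p, rfl⟩
    refine ⟨p, ?_⟩
    apply Subtype.ext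
    rw [Submodule.coe_sum]
    exact Finset.sum_congr rfl fun i _ => (hcoe (p i) ⟨v i, hv i⟩).symm
  · intro p hp
    by_contra h0
    obtain ⟨w, -, hw⟩ := key p h0
    apply hw
    have h1 := congrArg (Subtype.val : W → V) hp
    rw [Submodule.coe_sum] at h1
    have h2 : P08_phi (x - 1) v p = 0 := by
      rw [P08_phi_apply, ← h1.trans Submodule.coe_zero]
      exact Finset.sum_congr rfl fun i _ => (hcoe (p i) ⟨v i, hv i⟩).symm
    rw [h2, map_zero, LinearMap.zero_apply]

end

end LieP.PS
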