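import Pool.Agent.LieP.P08

/-!
# MP_6c3636_al, LieP, module P09: existence of a block (16.5) (helper96)

Characteristic two, `x` an isometry with `x ^ (2 ^ k) = 1`, `V ≠ 0`. `Y := x - 1` is nilpotent (`(x - 1) ^ (2 ^ k) = x ^ (2 ^ k) - 1 = 0`). `a` := the least exponent with `Y ^ a = 0`, so `a ≥ 1`, `Y ^ (a - 1) ≠ 0`.
`⟨v, w⟩ := ω (Y ^ (a - 1) v) w` is not zero (nondegeneracy) and symmetric: `adj ω Y = x⁻¹ - 1 = - x⁻¹ * Y = x⁻¹ * Y`, so `ω (Y ^ (a - 1) v) w = ω v (x⁻¹ ^ (a - 1) * Y ^ (a - 1) w) = ω v (Y ^ (a - 1) w)` (`x⁻¹` is the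
identity on the image of `Y ^ (a - 1)`) `= ω (Y ^ (a - 1) w) v` (characteristic two).
Case 1: `⟨v, v⟩ ≠ 0` for some `v`: P08 with `κ = Unit`. Case 2: `⟨v, v⟩ = 0` for all `v`, `⟨v, w⟩ ≠ 0` for some `v`, `w`: P08 with `κ = Bool` (or `Fin 2`), the matrix `G` is `0, g; g, 0`.
-/

namespace LieP.PS

noncomputable section

open Classical Polynomial

variable {F : Type} [Field F] [CharP F 2] {V : Type} [AddCommGroup V] [Module F V] [FiniteDimensional F V]
  {ω : V →ₗ[F] V →ₗ[F] F}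

private theorem sym_aux (h : Sy ω) {x : Module.End F V} (hx : Iso ω x) {b : ℕ}
    (hb : (x - 1) ^ (b + 1) = 0) (v w : V) :
    ω (((x - 1) ^ b) v) w = ω (((x - 1) ^ b) w) v := by
  have h1 : adj ω x * x = 1 := hx.adj_mul_self h
  have h2 : x * adj ω x = 1 := hx.self_mul_adj h
  have h3 : adj ω (x - 1) = - (adj ω x * (x - 1)) := by
    rw [adj_sub h, adj_one h, mul_sub, h1, mul_one]
    abel
  have hc : Commute (adj ω x) (x - 1) := by
    refine Commute.sub_right ?_ (Commute.one_right _)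
    show adj ω x * x = x * adj ω x
    rw [h1, h2]
  have h4 : x * (x - 1) ^ b = (x - 1) ^ b := by
    have h5 : (x - 1) * (x - 1) ^ b = 0 := by rw [← pow_succ', hb]
    rw [sub_mul, one_mul] at h5
    exact sub_eq_zero.1 h5
  have h6 : adj ω x * (x - 1) ^ b = (x - 1) ^ b := by
    conv_lhs => rw [← h4]
    rw [← mul_assoc, h1, one_mul]
  have h7 : ∀ m : ℕ, adj ω x ^ m * (x - 1) ^ b = (x - 1) ^ b := by
    intro m
    induction m with
    | zero => rw [pow_zero, one_mul]
    | succ m ih => rw [pow_succ, mul_assoc, h6, ih]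
  have h8 : adj ω ((x - 1) ^ b) = (-1) ^ b * (x - 1) ^ b := by
    rw [adj_pow h, h3, neg_pow, hc.mul_pow, h7]
  have h9 : ∀ u : V, ((-1 : Module.End F V) ^ b * (x - 1) ^ b) u = ((x - 1) ^ b) u := by
    intro u
    have h10 : (-1 : Module.End F V) = 1 := by
      refine LinearMap.ext fun z => ?_
      rw [LinearMap.neg_apply, Module.End.one_apply]
      have h11 : ((2 : F)) • z = 0 := by rw [CharTwo.two_eq_zero, zero_smul]
      rw [two_smul] at h11
      exact neg_eq_of_add_eq_zero_left h11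
    rw [h10, one_pow, one_mul]
  rw [adj_spec h, h8, h9, h.neg]
  exact CharTwo.neg_eq _

theorem exists_block (h : Sy ω) [Nontrivial V] {x : Module.End F V} (hx : Iso ω x) {k : ℕ}
    (hxk : x ^ (2 ^ k) = 1) :
    ∃ (W : Submodule F V) (hxW : ∀ w ∈ W, x w ∈ W) (a : ℕ), 1 ≤ a ∧ W ≠ ⊥ ∧
      (∀ w ∈ W, (∀ w' ∈ W, ω w w' = 0) → w = 0) ∧
      ((∃ v : W, Fr (x.restrict hxW - 1) a (fun _ : Unit => v)) ∨
        ∃ v w : W, Fr (x.restrict hxW - 1) a (fun b : Bool => cond b v w) ∧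
          ω (((x - 1) ^ (a - 1)) (v : V)) (w : V) ≠ 0) := by
  have hch : CharP (Module.End F V) 2 :=
    charP_of_injective_algebraMap (algebraMap F (Module.End F V)).injective 2
  have hp : Fact (Nat.Prime 2) := ⟨Nat.prime_two⟩
  have hnil : (x - 1) ^ (2 ^ k) = 0 := by
    rw [sub_pow_char_pow_of_commute 2 k (Commute.one_right x), hxk, one_pow, sub_self]
  have hex : ∃ a, (x - 1) ^ a = 0 := ⟨_, hnil⟩
  set a := Nat.find hex with ha_def
  have hYa : (x - 1) ^ a = 0 := Nat.find_spec hex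
  have ha : 1 ≤ a := by
    rcases Nat.eq_zero_or_pos a with h0 | h0
    · rw [h0, pow_zero] at hYa
      exact absurd hYa one_ne_zero
    · exact h0
  have hYb : (x - 1) ^ (a - 1) ≠ 0 := Nat.find_min hex (by omega)
  have hsym : ∀ v w : V, ω (((x - 1) ^ (a - 1)) v) w = ω (((x - 1) ^ (a - 1)) w) v := by
    intro v w
    refine sym_aux h hx ?_ v w
    rw [Nat.sub_add_cancel ha]
    exact hYa
  by_cases hcase : ∃ v : V, ω (((x - 1) ^ (a - 1)) v) v ≠ 0
  · obtain ⟨v, hv⟩ := hcase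
    obtain ⟨W, hxW, hvW, hnd, hFr⟩ := block_of_gram h hx ha hYa (κ := Unit) (fun _ => v) (by
      intro t ht
      funext u
      have h1 := ht ()
      rw [Fintype.sum_unique] at h1
      exact (mul_eq_zero.1 h1).resolve_right hv)
    refine ⟨W, hxW, a, ha, ?_, hnd, Or.inl ⟨⟨v, hvW ()⟩, hFr⟩⟩
    intro hW
    have h1 : v ∈ W := hvW ()
    rw [hW, Submodule.mem_bot] at h1
    rw [h1, map_zero] at hv
    exact hv (by simp)
  · have hz : ∀ v : V, ω (((x - 1) ^ (a - 1)) v) v = 0 := fun v => by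
      by_contra h1
      exact hcase ⟨v, h1⟩
    have hex2 : ∃ v w : V, ω (((x - 1) ^ (a - 1)) v) w ≠ 0 := by
      by_contra h1
      apply hYb
      refine LinearMap.ext fun v => ?_
      refine h.nd _ fun w => ?_
      by_contra h2
      exact h1 ⟨v, w, h2⟩
    obtain ⟨v, w, hvw⟩ := hex2
    obtain ⟨W, hxW, hvW, hnd, hFr⟩ := block_of_gram h hx ha hYa (κ := Bool)
      (fun b => cond b v w) (by
      intro t ht
      have h1 := ht false
      have h2 := ht true
      rw [Fintype.sum_bool] at h1 h2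
      simp only [cond_true, cond_false, hz, mul_zero, add_zero, zero_add] at h1 h2
      funext b
      cases b
      · rw [hsym w v] at h2
        exact (mul_eq_zero.1 h2).resolve_right hvw
      · exact (mul_eq_zero.1 h1).resolve_right hvw)
    have hfun : (fun i : Bool => (⟨cond i v w, hvW i⟩ : W)) =
        fun b : Bool => cond b (⟨v, hvW true⟩ : W) (⟨w, hvW false⟩ : W) := by
      funext b
      cases b <;> rfl
    rw [hfun] at hFr
    refine ⟨W, hxW, a, ha, ?_, hnd, Or.inr ⟨⟨v, hvW true⟩, ⟨w, hvW false⟩, hFr, hvw⟩⟩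
    intro hW
    have h1 : v ∈ W := hvW true
    rw [hW, Submodule.mem_bot] at h1
    rw [h1, map_zero] at hvw
    exact hvw (by simp)

end

end LieP.PS
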