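import Pool.Agent.LieP.P03
import Pool.Agent.LieP.P06
import Pool.Agent.LieP.P07

/-!
# MP_6c3636_al, LieP, module P10: x is conjugate to its inverse on a block (16.6) (helper96)

`Y := x - 1`, `x' := x⁻¹`, `Y' := x' - 1`. `adj ω x = x'`, `adj ω Y = Y'`, `adj ω (aeval Y p) = aeval Y' p`, `adj ω (aeval Y' p) = aeval Y p`. `x' = x ^ (2 ^ k - 1)`, so `Y'` is a polynomial in `Y`, all these
operators commute; `Y' = - x' * Y`, `Y' ^ a = 0`. `ω` is symmetric (characteristic two).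
`inv_one`: `g` from `Fr.lift` with `T = Y'`, `z = v`: `g (aeval Y p v) = aeval Y' p v`. `ω (aeval Y' p v) (aeval Y' q v) = ω v (aeval Y p (aeval Y' q v)) = ω (aeval Y' q (aeval Y p v)) v = ω (aeval Y p v) (aeval Y q v)`. `g` is injective
(it preserves the nondegenerate form), `g (Y w) = Y' (g w)`, so `g (x w) = x' (g w)`.
`inv_two`: `f p := ω (aeval Y p v) w`, `h p := ω (aeval Y' p v) w` are zero on the multiples of `X ^ a`, `f (X ^ (a - 1)) ≠ 0`. P06: `e` with `h p = f (e * p)` for all `p`, that is (*) `ω (z' v) w = ω (e(Y) z v) w` for all `z` in `F[Y]`, `z' := adj ω z`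
[`z = aeval Y p`]. `e(Y) * e(Y') = 1`: for `z` in `F[Y]` apply (*) to `z'`: `ω (z v) w = ω (e(Y) z' v) w = ω ((e(Y') z)' v) w = ω (e(Y) e(Y') z v) w` by (*) again, so `f ((1 - e * e₁) * p) = 0` for all `p`, where `e(Y') = aeval Y e₁`, and `X ^ a ∣ 1 - e * e₁` by P06.
`w₁ := e(Y') w`. `g` from `Fr.lift` with `T = Y'`, `z = (v, w₁)`. It is an isometry: on the generators: `(v, v)`: as before. `(v, w)`: `ω (p(Y') v) (q(Y') w₁) = ω (q(Y) p(Y') v) w₁ = ω (e(Y) (q(Y) p(Y')) v) w = ω ((q(Y) p(Y'))' v) w = ω (q(Y') p(Y) v) w = ω (p(Y) v) (q(Y) w)`.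
`(w, w)`: `ω (p(Y') e(Y') w) (q(Y') e(Y') w) = ω (q(Y) e(Y) p(Y') e(Y') w) w = ω (q(Y) p(Y') w) w = ω (p(Y) w) (q(Y) w)`.
-/

namespace LieP.PS

noncomputable section

open Classical Polynomial

variable {F : Type} [Field F] [CharP F 2] {V : Type} [AddCommGroup V] [Module F V] [FiniteDimensional F V]
  {ω : V →ₗ[F] V →ₗ[F] F}

omit [CharP F 2] in
theorem P10_adj_aeval (h : Sy ω) (A : Module.End F V) (p : F[X]) :
    adj ω (aeval A p) = aeval (adj ω A) p := by
  induction p using Polynomial.induction_on' with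
  | add p q hp hq => rw [map_add, map_add, adj_add h, hp, hq]
  | monomial n r =>
    rw [aeval_monomial, aeval_monomial, ← Algebra.smul_def, ← Algebra.smul_def, adj_smul h, adj_pow h]

/-- the operators of the polynomials in `x - 1` and `x⁻¹ - 1` -/
theorem P10_data (h : Sy ω) {x x' : Module.End F V} (hx : Iso ω x) {k : ℕ} (hxk : x ^ (2 ^ k) = 1)
    (hx' : x' * x = 1) :
    (∀ u z, ω u z = ω z u) ∧
    (∀ (p : F[X]) (u z : V), ω ((aeval (x - 1) p) u) z = ω u ((aeval (x' - 1) p) z)) ∧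
    (∀ (p : F[X]) (u z : V), ω ((aeval (x' - 1) p) u) z = ω u ((aeval (x - 1) p) z)) ∧
    ∃ P : F[X], (∀ p : F[X], aeval (x' - 1) p = aeval (x - 1) (p.comp P)) ∧
      ∀ p : F[X], aeval (x - 1) p = aeval (x' - 1) (p.comp P) := by
  have hadj : adj ω x = x' := by
    have h1 := Iso.self_mul_adj h hx
    calc adj ω x = (x' * x) * adj ω x := by rw [hx', one_mul]
      _ = x' := by rw [mul_assoc, h1, mul_one]
  have hxx' : x * x' = 1 := by
    rw [← hadj]
    exact Iso.self_mul_adj h hx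
  have hadjY : adj ω (x - 1) = x' - 1 := by rw [adj_sub h, adj_one h, hadj]
  have hk : 2 ^ k - 1 + 1 = 2 ^ k := Nat.sub_add_cancel Nat.one_le_two_pow
  have e1 : x ^ (2 ^ k - 1) = x' := by
    have h1 : x ^ (2 ^ k - 1) * x = 1 := by rw [← pow_succ, hk, hxk]
    calc x ^ (2 ^ k - 1) = x ^ (2 ^ k - 1) * (x * x') := by rw [hxx', mul_one]
      _ = x' := by rw [← mul_assoc, h1, one_mul]
  have e2 : x' ^ (2 ^ k - 1) = x := by
    have h0 : x' ^ (2 ^ k) = 1 := by
      rw [← e1, ← pow_mul, mul_comm, pow_mul, hxk, one_pow]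
    have h1 : x' ^ (2 ^ k - 1) * x' = 1 := by rw [← pow_succ, hk, h0]
    calc x' ^ (2 ^ k - 1) = x' ^ (2 ^ k - 1) * (x' * x) := by rw [hx', mul_one]
      _ = x := by rw [← mul_assoc, h1, one_mul]
  refine ⟨?_, ?_, ?_, (X + 1) ^ (2 ^ k - 1) - 1, ?_, ?_⟩
  · intro u z
    rw [h.neg u z, CharTwo.neg_eq]
  · intro p u z
    rw [adj_spec h, P10_adj_aeval h, hadjY]
  · intro p u z
    have h1 : aeval (x' - 1) p = adj ω (aeval (x - 1) p) := by rw [P10_adj_aeval h, hadjY]
    rw [h1, adj_spec' h]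
  · intro p
    rw [aeval_comp, map_sub, map_pow, map_add, aeval_X, map_one, sub_add_cancel, e1]
  · intro p
    rw [aeval_comp, map_sub, map_pow, map_add, aeval_X, map_one, sub_add_cancel, e2]

omit [CharP F 2] in
theorem P10_mk (h : Sy ω) {x x' : Module.End F V} (g : V →ₗ[F] V) (hg : ∀ v w, ω (g v) (g w) = ω v w)
    (hc : ∀ w, g ((x - 1) w) = (x' - 1) (g w)) : Cj ω x x' := by
  have hinj : Function.Injective g := by
    rw [injective_iff_map_eq_zero]
    intro v hv
    refine h.nd v fun w => ?_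
    rw [← hg, hv, map_zero, LinearMap.zero_apply]
  refine ⟨LinearEquiv.ofInjectiveEndo g hinj, ?_, ?_⟩
  · intro v w
    exact hg v w
  · intro v
    have h1 := hc v
    rw [LinearMap.sub_apply, LinearMap.sub_apply, map_sub, Module.End.one_apply,
      Module.End.one_apply, sub_left_inj] at h1
    exact h1

/-- the powers of `x⁻¹ - 1` -/
theorem P10_nil (h : Sy ω) {x x' : Module.End F V} (hx : Iso ω x) {k : ℕ} (hxk : x ^ (2 ^ k) = 1)
    (hx' : x' * x = 1) {a : ℕ} (ha : (x - 1) ^ a = 0) : (x' - 1) ^ a = 0 := by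
  obtain ⟨-, -, s2, -⟩ := P10_data h hx hxk hx'
  have h1 : aeval (x - 1) (X ^ a : F[X]) = 0 := by rw [map_pow, aeval_X, ha]
  have h2 : aeval (x' - 1) (X ^ a : F[X]) = 0 := by
    apply LinearMap.ext
    intro u
    refine h.nd _ fun z => ?_
    rw [s2, h1, LinearMap.zero_apply, map_zero]
  rw [map_pow, aeval_X] at h2
  exact h2

theorem inv_one (h : Sy ω) {x x' : Module.End F V} (hx : Iso ω x) {k : ℕ} (hxk : x ^ (2 ^ k) = 1)
    (hx' : x' * x = 1) {a : ℕ} {v : V} (hv : Fr (x - 1) a (fun _ : Unit => v)) : Cj ω x x' := by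
  obtain ⟨sym, s1, s2, P, hB, hA⟩ := P10_data h hx hxk hx'
  obtain ⟨g, -, -, hgY, hgp⟩ := hv.lift (P10_nil h hx hxk hx' hv.pow) (fun _ : Unit => v)
  refine P10_mk h g ?_ hgY
  intro u z
  obtain ⟨p, hp⟩ := hv.span u
  obtain ⟨q, hq⟩ := hv.span z
  rw [Fintype.sum_unique] at hp hq
  set p0 := p default with hp0
  set q0 := q default with hq0
  rw [hp, hq, hgp p0 (), hgp q0 ()]
  show ω ((aeval (x' - 1) p0) v) ((aeval (x' - 1) q0) v) = ω ((aeval (x - 1) p0) v) ((aeval (x - 1) q0) v)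
  rw [s2, sym ((aeval (x - 1) p0) v), s1, hB, ← Module.End.mul_apply, ← Module.End.mul_apply, ← map_mul,
    ← map_mul, mul_comm]

theorem inv_two (h : Sy ω) {x x' : Module.End F V} (hx : Iso ω x) {k : ℕ} (hxk : x ^ (2 ^ k) = 1)
    (hx' : x' * x = 1) {a : ℕ} (ha : 1 ≤ a) {v w : V}
    (hv : Fr (x - 1) a (fun b : Bool => cond b v w)) (hvw : ω (((x - 1) ^ (a - 1)) v) w ≠ 0) :
    Cj ω x x' := by
  obtain ⟨sym, s1, s2, P, hB, hA⟩ := P10_data h hx hxk hx'
  have hnil := P10_nil h hx hxk hx' hv.pow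
  -- the linear forms
  let f : F[X] →ₗ[F] F := (ω.flip w).comp ((LinearMap.applyₗ v).comp (aeval (x - 1)).toLinearMap)
  let f' : F[X] →ₗ[F] F := (ω.flip w).comp ((LinearMap.applyₗ v).comp (aeval (x' - 1)).toLinearMap)
  have hf : ∀ p, f p = ω ((aeval (x - 1) p) v) w := fun p => rfl
  have hf' : ∀ p, f' p = ω ((aeval (x' - 1) p) v) w := fun p => rfl
  have f1 : ∀ p, f (X ^ a * p) = 0 := by
    intro p
    rw [hf, map_mul, map_pow, aeval_X, hv.pow, zero_mul, LinearMap.zero_apply, map_zero,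
      LinearMap.zero_apply]
  have f2 : f (X ^ (a - 1)) ≠ 0 := by
    rw [hf, map_pow, aeval_X]
    exact hvw
  have f1' : ∀ p, f' (X ^ a * p) = 0 := by
    intro p
    rw [hf', map_mul, map_pow, aeval_X, hnil, zero_mul, LinearMap.zero_apply, map_zero,
      LinearMap.zero_apply]
  obtain ⟨e, he⟩ := exists_mul ha f1 f2 f1'
  have star : ∀ p, ω ((aeval (x' - 1) p) v) w = ω ((aeval (x - 1) (e * p)) v) w := fun p => he p
  -- `e(Y) e(Y') = 1`
  have he1 : aeval (x - 1) (e * e.comp P) = 1 := by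
    have h1 : X ^ a ∣ 1 - e * e.comp P := by
      refine dvd_of_zero ha f1 f2 fun p => ?_
      have h2 : f p = f (e * (e.comp P * p)) := by
        calc ω ((aeval (x - 1) p) v) w = ω ((aeval (x' - 1) (p.comp P)) v) w := by rw [hA]
          _ = ω ((aeval (x - 1) (e * p.comp P)) v) w := star _
          _ = ω ((aeval (x' - 1) (e.comp P * p)) v) w := by rw [map_mul, map_mul, ← hB, ← hA]
          _ = ω ((aeval (x - 1) (e * (e.comp P * p))) v) w := star _
      rw [sub_mul, one_mul, map_sub, h2, mul_assoc, sub_self]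
    obtain ⟨q, hq⟩ := h1
    have h2 := congrArg (aeval (x - 1)) hq
    rw [map_sub, map_one, map_mul (aeval (x - 1)) (X ^ a), map_pow, aeval_X, hv.pow, zero_mul,
      sub_eq_zero] at h2
    exact h2.symm
  have self : ∀ (p q : F[X]) (u : V), ω ((aeval (x' - 1) p) u) ((aeval (x' - 1) q) u) =
      ω ((aeval (x - 1) p) u) ((aeval (x - 1) q) u) := by
    intro p q u
    rw [s2, sym ((aeval (x - 1) p) u), s1, hB, ← Module.End.mul_apply, ← Module.End.mul_apply, ← map_mul,
      ← map_mul, mul_comm]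
  set w1 := (aeval (x' - 1) e) w with hw1
  have vw : ∀ p q : F[X], ω ((aeval (x' - 1) p) v) ((aeval (x' - 1) q) w1) =
      ω ((aeval (x - 1) p) v) ((aeval (x - 1) q) w) := by
    intro p q
    calc ω ((aeval (x' - 1) p) v) ((aeval (x' - 1) q) w1) =
        ω ((aeval (x - 1) e) ((aeval (x - 1) q) ((aeval (x' - 1) p) v))) w := by rw [s1, s1, hw1]
      _ = ω ((aeval (x - 1) (e * (q * p.comp P))) v) w := by
        rw [hB p, map_mul, map_mul, Module.End.mul_apply, Module.End.mul_apply]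
      _ = ω ((aeval (x' - 1) (q * p.comp P)) v) w := (star _).symm
      _ = ω ((aeval (x' - 1) q) ((aeval (x - 1) p) v)) w := by rw [map_mul, ← hA, Module.End.mul_apply]
      _ = ω ((aeval (x - 1) p) v) ((aeval (x - 1) q) w) := s2 _ _ _
  have ww : ∀ p q : F[X], ω ((aeval (x' - 1) p) w1) ((aeval (x' - 1) q) w1) =
      ω ((aeval (x - 1) p) w) ((aeval (x - 1) q) w) := by
    intro p q
    calc ω ((aeval (x' - 1) p) w1) ((aeval (x' - 1) q) w1) =
        ω ((aeval (x - 1) e) ((aeval (x - 1) q) ((aeval (x' - 1) p) ((aeval (x' - 1) e) w)))) w := by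
          rw [s1, s1, hw1]
      _ = ω ((aeval (x - 1) (e * (q * (p.comp P * e.comp P)))) w) w := by
        rw [hB p, hB e, map_mul, map_mul, map_mul, Module.End.mul_apply, Module.End.mul_apply,
          Module.End.mul_apply]
      _ = ω ((aeval (x - 1) q) ((aeval (x' - 1) p) w)) w := by
        rw [show e * (q * (p.comp P * e.comp P)) = (q * p.comp P) * (e * e.comp P) by ring,
          map_mul, he1, mul_one, map_mul, ← hB, Module.End.mul_apply]
      _ = ω ((aeval (x' - 1) p) w) ((aeval (x' - 1) q) w) := s1 _ _ _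
      _ = ω ((aeval (x - 1) p) w) ((aeval (x - 1) q) w) := self _ _ _
  obtain ⟨g, -, -, hgY, hgp⟩ := hv.lift hnil (fun b : Bool => cond b v w1)
  have gv : ∀ p : F[X], g ((aeval (x - 1) p) v) = (aeval (x' - 1) p) v := fun p => hgp p true
  have gw : ∀ p : F[X], g ((aeval (x - 1) p) w) = (aeval (x' - 1) p) w1 := fun p => hgp p false
  refine P10_mk h g ?_ hgY
  intro u z
  obtain ⟨p, hp⟩ := hv.span u
  obtain ⟨q, hq⟩ := hv.span z
  rw [Fintype.sum_bool] at hp hq
  have hp' : u = (aeval (x - 1) (p true)) v + (aeval (x - 1) (p false)) w := hp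
  have hq' : z = (aeval (x - 1) (q true)) v + (aeval (x - 1) (q false)) w := hq
  rw [hp', hq']
  simp only [map_add, LinearMap.add_apply, gv, gw]
  rw [self, vw, ww, sym ((aeval (x' - 1) (p false)) w1), vw, sym ((aeval (x - 1) (q true)) v)]

end

end LieP.PS
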