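import Pool.Agent.LieP.P03

/-!
# MP_6c3636_al, LieP, module P11: alternating elements are norms (16.8) (helper96)

Write `A*` for `adj ω A`. `Y := x - 1 = x + 1`, `x* = x⁻¹`, `Y* = x⁻¹ Y`. Induction on `N - i`. If `i ≥ N`: `n = 0`, `k = 1`. Otherwise `n = Y ^ i r`, `r` commutes with `x` (then `r*` commutes with `x`, too).
`b := Y ^ (i-1) r`. `n* = n` gives `Y ^ i (r + x ^ (-i) r*) = 0`, so `r* = x ^ i r + δ`, `Y ^ i δ = 0`, `δ` commutes with `x`. `b + b* = Y ^ (i-1) (r + x ^ (-(i-1)) r*) = Y ^ (i-1) (r + x r) + ε = n + ε`, `ε := Y ^ (i-1) x ^ (-(i-1)) δ`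
commutes with `x`, `Y ε = 0`, `ε` vanishes on the kernel of `Y` (`i ≥ 2`), `ε* = ε`, `ω (ε v) v = 0` for all `v` (as `ω (b v) v = ω (b* v) v`, characteristic two).
`S := range Y + ker Y`. `(v, w) ↦ ω (ε v) w` is an alternating form with `S` in its radical. Choose a complement `S'` of `S` and a basis `u_1, .., u_m` of `S'` and put `β(v, w) := ∑_{s < t} v_s w_t ω (ε u_s) (u_t)` where `v_s` are the coordinates of the projection of `v` to
`S'`: `β(v, w) + β(w, v) = ω (ε v) w` [characteristic two, `ω (ε u_s) (u_s) = 0`], and `β` is zero if `v` or `w` is in `S` (library: `Parker.alt_split` in N03 may help). Let `b'` be defined by `ω (b' v) w = β(v, w)`. `b'` kills `S`, its image is in `range Y ∩ ker Y` [for `w` in `ker Y` and for `w` in `range Y`: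
`ω (b' v) w = 0`; use `mem_range_iff` for `Y`, `adj ω Y w = 0 ↔ Y w = 0`, and nondegeneracy: `ω (Y b' v) w = ω (b' v) (Y* w)`, `Y* w` in `range Y`]. So `Y b' = b' Y = 0`, `b' + b'* = ε`, `b* b' = 0` (`i ≥ 2`, `b* = (..) Y ^ (i-1)`), `b'* b = (b* b')* = 0`, `b'* b' = 0` [`b'` maps to `range Y`, `b'* Y = (Y* b')* = 0`].
`k₁ := 1 + b + b'`: `k₁* k₁ = 1 + n + b* b`. `k₁` commutes with `x`. It is injective: `b + b'` maps `V` to `range Y` and commutes with `Y`, so it is nilpotent. `1 + n = k₁* k₁ + b* b = k₁* (1 + n') k₁`, `n' := (b k₁⁻¹)* (b k₁⁻¹) = Y ^ (2 i - 2) r'`, `r'` commutes with `x`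
[`b* = r* x ^ (-(i-1)) Y ^ (i-1)`], `2 i - 2 ≥ i + 1`, `n'* = n'`, `ω (n' v) v = ω (b k₁⁻¹ v) (b k₁⁻¹ v) = 0`. Induction: `1 + n' = k₂* k₂`, `k := k₂ k₁`.
-/

namespace LieP.PS

noncomputable section

open Classical

variable {F : Type} [Field F] [CharP F 2] {V : Type} [AddCommGroup V] [Module F V] [FiniteDimensional F V]
  {ω : V →ₗ[F] V →ₗ[F] F}

namespace P11_aux

/-- an alternating form is `τ(x,y) - τ(y,x)` (upper triangular part of the Gram matrix) -/
theorem alt_split {k W : Type} [Field k] [AddCommGroup W] [Module k W] [FiniteDimensional k W]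
    {B : W →ₗ[k] W →ₗ[k] k} (hB : ∀ x, B x x = 0) :
    ∃ τ : W →ₗ[k] W →ₗ[k] k, ∀ x y, B x y = τ x y - τ y x := by
  classical
  let b := Module.finBasis k W
  let M : Matrix (Fin (Module.finrank k W)) (Fin (Module.finrank k W)) k :=
    Matrix.of fun i j => if i < j then B (b i) (b j) else 0
  let τ : LinearMap.BilinForm k W := Matrix.toBilin b M
  have hτ : ∀ i j, τ (b i) (b j) = if i < j then B (b i) (b j) else 0 := by
    intro i j
    have h1 := LinearMap.BilinForm.toMatrix_apply b (Matrix.toBilin b M) i j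
    rw [LinearMap.BilinForm.toMatrix_toBilin] at h1
    exact h1.symm
  have hanti : ∀ x y, B x y = - B y x := by
    intro x y
    have h1 := hB (x + y)
    rw [map_add, map_add, LinearMap.add_apply, LinearMap.add_apply, hB x, hB y] at h1
    linear_combination h1
  have h2 : B = τ - LinearMap.flip τ := by
    refine LinearMap.BilinForm.ext_basis b fun i j => ?_
    rw [LinearMap.sub_apply, LinearMap.sub_apply, LinearMap.flip_apply, hτ, hτ]
    rcases lt_trichotomy i j with h | h | h
    · rw [if_pos h, if_neg (not_lt_of_gt h), sub_zero]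
    · rw [h, if_neg (lt_irrefl _), sub_zero, hB]
    · rw [if_neg (not_lt_of_gt h), if_pos h, zero_sub]
      exact hanti _ _
  refine ⟨τ, fun x y => ?_⟩
  conv_lhs => rw [h2]
  rw [LinearMap.sub_apply, LinearMap.sub_apply, LinearMap.flip_apply]

/-- characteristic two -/
theorem two_end (A : Module.End F V) : A + A = 0 := by
  ext v
  have h1 : (1 : F) + 1 = 0 := CharTwo.add_self_eq_zero 1
  rw [LinearMap.add_apply, LinearMap.zero_apply]
  calc A v + A v = ((1 : F) + 1) • A v := by rw [add_smul, one_smul]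
    _ = 0 := by rw [h1, zero_smul]

end P11_aux

/-- an alternating form with radical containing `S` splits -/
theorem exists_split (S : Submodule F V) (E : V →ₗ[F] V →ₗ[F] F) (hE : ∀ v, E v v = 0)
    (hS : ∀ v ∈ S, ∀ w, E v w = 0) :
    ∃ β : V →ₗ[F] V →ₗ[F] F, (∀ v w, β v w + β w v = E v w) ∧ (∀ v ∈ S, ∀ w, β v w = 0) ∧
      ∀ w ∈ S, ∀ v, β v w = 0 := by
  obtain ⟨τ, hτ⟩ := P11_aux.alt_split hE
  obtain ⟨g, hg⟩ := S.mkQ.exists_rightInverse_of_surjective (Submodule.range_mkQ S)
  let π : V →ₗ[F] V := g.comp S.mkQ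
  have hπ0 : ∀ v ∈ S, π v = 0 := by
    intro v hv
    have : S.mkQ v = 0 := by rw [Submodule.mkQ_apply]; exact (Submodule.Quotient.mk_eq_zero S).2 hv
    change g (S.mkQ v) = 0
    rw [this, map_zero]
  have hπ : ∀ v, v - π v ∈ S := by
    intro v
    have h1 : S.mkQ (g (S.mkQ v)) = S.mkQ v := LinearMap.congr_fun hg (S.mkQ v)
    rw [← Submodule.Quotient.mk_eq_zero, Submodule.Quotient.mk_sub]
    change S.mkQ v - S.mkQ (g (S.mkQ v)) = 0
    rw [h1, sub_self]
  have hanti : ∀ x y, E x y = - E y x := by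
    intro x y
    have h1 := hE (x + y)
    rw [map_add, map_add, LinearMap.add_apply, LinearMap.add_apply, hE x, hE y] at h1
    linear_combination h1
  have hS' : ∀ v ∈ S, ∀ w, E w v = 0 := fun v hv w => by rw [hanti, hS v hv, neg_zero]
  have hE1 : ∀ v w, E v w = E (π v) (π w) := by
    intro v w
    have h1 : E (v - π v) w = 0 := hS _ (hπ v) w
    have h2 : E (π v) (w - π w) = 0 := hS' _ (hπ w) (π v)
    rw [map_sub, LinearMap.sub_apply] at h1
    rw [map_sub] at h2
    linear_combination h1 + h2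
  refine ⟨τ.compl₁₂ π π, fun v w => ?_, fun v hv w => ?_, fun w hw v => ?_⟩
  · rw [LinearMap.compl₁₂_apply, LinearMap.compl₁₂_apply, hE1, hτ, sub_eq_add_neg, CharTwo.neg_eq]
  · rw [LinearMap.compl₁₂_apply, hπ0 v hv, map_zero, LinearMap.zero_apply]
  · rw [LinearMap.compl₁₂_apply, hπ0 w hw, map_zero]

namespace P11_aux

/-- a bilinear form is given by an operator -/
theorem exists_op (h : Sy ω) (β : V →ₗ[F] V →ₗ[F] F) : ∃ B : Module.End F V, ∀ v w, β v w = ω v (B w) := by
  have hex : ∀ w, ∃ u, ∀ v, β v w = ω v u := fun w => h.exists_rep (β.flip w)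
  choose B hB using hex
  have huniq : ∀ a b : V, (∀ v, ω v a = ω v b) → a = b := by
    intro a b hab
    rw [← sub_eq_zero]
    exact h.nd' _ fun w => by rw [map_sub, hab, sub_self]
  refine ⟨{ toFun := B, map_add' := ?_, map_smul' := ?_ }, fun v w => hB w v⟩
  · intro a b
    apply huniq
    intro v
    rw [← hB, map_add, map_add, hB, hB]
  · intro r a
    apply huniq
    intro v
    rw [← hB, map_smul, RingHom.id_apply, map_smul, hB]

/-- the correction term -/
theorem exists_bp (h : Sy ω) {x : Module.End F V} (hx : Iso ω x) {ε : Module.End F V} (hY : (x - 1) * ε = 0)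
    (hεY : ε * (x - 1) = 0) (hker : ∀ z, (x - 1) z = 0 → ε z = 0) (halt : ∀ v, ω (ε v) v = 0) :
    ∃ b' : Module.End F V, b' * (x - 1) = 0 ∧ (x - 1) * b' = 0 ∧ b' + adj ω b' = ε ∧ adj ω b' * (x - 1) = 0 ∧
      adj ω b' * b' = 0 ∧ b' * b' = 0 := by
  have hxs : adj ω x * x = 1 := Iso.adj_mul_self h hx
  have hsx : x * adj ω x = 1 := Iso.self_mul_adj h hx
  -- the form
  let E : V →ₗ[F] V →ₗ[F] F := ω.comp ε
  have hE : ∀ v w, E v w = ω (ε v) w := fun v w => rfl
  let S : Submodule F V := LinearMap.range (x - 1) ⊔ LinearMap.ker (x - 1)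
  have hS : ∀ v ∈ S, ∀ w, E v w = 0 := by
    intro v hv w
    obtain ⟨a, ⟨u, hu⟩, z, hz, rfl⟩ := Submodule.mem_sup.1 hv
    have h1 : ε a = 0 := by
      rw [← hu, ← Module.End.mul_apply, hεY, LinearMap.zero_apply]
    rw [hE, map_add, h1, hker z (LinearMap.mem_ker.1 hz), add_zero, map_zero, LinearMap.zero_apply]
  obtain ⟨β, hβ1, hβ2, hβ3⟩ := exists_split S E halt hS
  obtain ⟨B, hB⟩ := exists_op h β
  set b' := adj ω B with hb'
  have hBa : adj ω b' = B := adj_adj h B
  have hb'β : ∀ v w, ω (b' v) w = β v w := fun v w => by rw [hb', adj_spec' h, hB]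
  have hrange : ∀ u, (x - 1) u ∈ S := fun u => Submodule.mem_sup_left ⟨u, rfl⟩
  have hkerS : ∀ z, (x - 1) z = 0 → z ∈ S := fun z hz => Submodule.mem_sup_right (LinearMap.mem_ker.2 hz)
  have hb'S : ∀ v ∈ S, b' v = 0 := fun v hv => h.nd _ fun w => by rw [hb'β, hβ2 v hv]
  have hBS : ∀ w ∈ S, B w = 0 := fun w hw => h.nd' _ fun v => by rw [← hB, hβ3 w hw]
  have h1 : b' * (x - 1) = 0 := LinearMap.ext fun u => hb'S _ (hrange u)
  have h2 : B * (x - 1) = 0 := LinearMap.ext fun u => hBS _ (hrange u)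
  have h3 : (x - 1) * b' = 0 := by
    have h4 := congrArg (adj ω) h2
    rw [adj_mul h, adj_sub h, adj_one h] at h4
    have h5 : adj ω (0 : Module.End F V) = 0 := adj_eq h fun v w => by simp
    rw [h5, ← hb'] at h4
    -- (x* - 1) b' = 0
    have h6 : x * ((adj ω x - 1) * b') = 0 := by rw [h4, mul_zero]
    rw [← mul_assoc, mul_sub, hsx, mul_one] at h6
    have h7 : (x - 1) * b' = - ((1 - x) * b') := by rw [← neg_mul, neg_sub]
    rw [h7, h6, neg_zero]
  refine ⟨b', h1, h3, ?_, ?_, ?_, ?_⟩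
  · rw [hBa]
    ext v
    rw [← sub_eq_zero]
    refine h.nd _ fun w => ?_
    rw [map_sub, LinearMap.sub_apply, LinearMap.add_apply, map_add, LinearMap.add_apply, hb'β, h.neg (B v) w, ← hB,
      ← hE, ← hβ1 v w, CharTwo.neg_eq, sub_self]
  · rw [hBa, h2]
  · rw [hBa]
    exact LinearMap.ext fun v => hBS _ (hkerS _ (LinearMap.congr_fun h3 v))
  · exact LinearMap.ext fun v => hb'S _ (hkerS _ (LinearMap.congr_fun h3 v))

theorem comm_adj (h : Sy ω) {x : Module.End F V} (hx : Iso ω x) {A : Module.End F V} (hA : Commute A x) :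
    Commute (adj ω A) x := by
  have hxs : adj ω x * x = 1 := Iso.adj_mul_self h hx
  have hsx : x * adj ω x = 1 := Iso.self_mul_adj h hx
  have h1 := congrArg (adj ω) hA.eq
  rw [adj_mul h, adj_mul h] at h1
  -- x* A* = A* x*
  change adj ω A * x = x * adj ω A
  calc adj ω A * x = (x * adj ω x) * adj ω A * x := by rw [hsx, one_mul]
    _ = x * (adj ω x * adj ω A) * x := by rw [mul_assoc x]
    _ = x * (adj ω A * adj ω x) * x := by rw [h1]
    _ = x * adj ω A * (adj ω x * x) := by rw [← mul_assoc, mul_assoc]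
    _ = x * adj ω A := by rw [hxs, mul_one]

theorem norm_step (h : Sy ω) {x : Module.End F V} (hx : Iso ω x) {N : ℕ} (hN : (x - 1) ^ N = 0) (m : ℕ) :
    ∀ (i : ℕ), 3 ≤ i → N ≤ i + m → ∀ (r n : Module.End F V), Commute r x → n = (x - 1) ^ i * r →
    (∀ v w, ω (n v) w = ω v (n w)) → (∀ v, ω (n v) v = 0) →
    ∃ k : V ≃ₗ[F] V, (∀ v, k (x v) = x (k v)) ∧ ∀ v w, ω (k v) (k w) = ω (v + n v) w := by
  induction m with
  | zero =>
    intro i _ hi r n _ hn _ _
    have hn0 : n = 0 := by
      rw [hn, pow_eq_zero_of_le (by omega) hN, zero_mul]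
    refine ⟨LinearEquiv.refl F V, fun v => rfl, fun v w => ?_⟩
    rw [hn0, LinearMap.zero_apply, add_zero]
    rfl
  | succ m ih =>
    intro i hi him r n hr hn hn1 hn2
    obtain ⟨j, rfl⟩ := Nat.exists_eq_add_of_le' hi
    have hxs : adj ω x * x = 1 := Iso.adj_mul_self h hx
    have hsx : x * adj ω x = 1 := Iso.self_mul_adj h hx
    set Y : Module.End F V := x - 1 with hYdef
    set xs : Module.End F V := adj ω x with hxsdef
    have cxY : Commute x Y := (Commute.refl x).sub_right (Commute.one_right x)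
    have crY : Commute r Y := hr.sub_right (Commute.one_right r)
    have cxsx : Commute xs x := by change xs * x = x * xs; rw [hxs, hsx]
    have cY : ∀ {A : Module.End F V}, Commute A x → Commute A Y := fun hA => hA.sub_right (Commute.one_right _)
    have hYs : adj ω Y = xs * Y := by
      rw [hYdef, adj_sub h, adj_one h, mul_sub, hxs, mul_one]
      have h1 := two_end (F := F) (xs - 1)
      rw [← hxsdef]
      have h2 : xs - 1 = - (xs - 1) := eq_neg_of_add_eq_zero_left h1
      rw [h2, neg_sub]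
    set c : Module.End F V := Y ^ (j + 1) * r with hc
    set b : Module.End F V := Y ^ (j + 2) * r with hb
    have ccx : Commute c x := ((cxY.symm.pow_left (j + 1)).mul_left hr)
    have cbx : Commute b x := ((cxY.symm.pow_left (j + 2)).mul_left hr)
    have hbc : b = Y * c := by rw [hb, hc, ← mul_assoc, ← pow_succ']
    have hbc' : b = c * Y := by rw [hbc, (cY ccx).eq]
    have hnb : n = Y * b := by rw [hn, hb, ← mul_assoc, ← pow_succ']
    have hnb' : n = b * Y := by rw [hnb, (cY cbx).eq]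
    have hna : adj ω n = n := adj_eq h hn1
    have cbs : Commute (adj ω b) x := comm_adj h hx cbx
    have ccs : Commute (adj ω c) x := comm_adj h hx ccx
    have hbs : adj ω b = adj ω c * xs * Y := by rw [hbc, adj_mul h, hYs, mul_assoc]
    have cnx : Commute n x := by rw [hnb]; exact cxY.symm.mul_left cbx
    -- Y b* = x n
    have hYbs : Y * adj ω b = x * n := by
      have h1 : n = adj ω b * xs * Y := by
        conv_lhs => rw [← hna, hnb, adj_mul h, hYs, ← mul_assoc]
      rw [h1, ← mul_assoc, ← mul_assoc, ← cbs.eq, mul_assoc (adj ω b) x xs, hsx, mul_one, (cY cbs).eq]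
    set ε : Module.End F V := b + adj ω b + n with hε
    have hYε : Y * ε = 0 := by
      rw [hε, mul_add, mul_add, ← hnb, hYbs]
      have h1 : Y * n = x * n - n := by rw [hYdef, sub_mul, one_mul]
      rw [h1]
      have h2 := two_end (F := F) (x * n)
      calc n + x * n + (x * n - n) = x * n + x * n := by abel
        _ = 0 := h2
    have cεx : Commute ε x := (cbx.add_left cbs).add_left cnx
    have hεY : ε * Y = 0 := by rw [(cY cεx).eq, hYε]
    have hker : ∀ z, Y z = 0 → ε z = 0 := by
      intro z hz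
      have h1 : b z = 0 := by rw [hbc', Module.End.mul_apply, hz, map_zero]
      have h2 : adj ω b z = 0 := by rw [hbs, Module.End.mul_apply, hz, map_zero]
      have h3 : n z = 0 := by rw [hnb', Module.End.mul_apply, hz, map_zero]
      rw [hε, LinearMap.add_apply, LinearMap.add_apply, h1, h2, h3, add_zero, add_zero]
    have halt : ∀ v, ω (ε v) v = 0 := by
      intro v
      rw [hε, LinearMap.add_apply, LinearMap.add_apply, map_add, map_add, LinearMap.add_apply, LinearMap.add_apply,
        hn2, adj_spec' h, h.neg v (b v)]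
      ring
    obtain ⟨b', hb1, hb2, hb3, hb4, hb5, hb6⟩ := exists_bp h hx hYε hεY hker halt
    set B : Module.End F V := adj ω b' with hB
    have cb'x : Commute b' x := by
      have h1 : b' * Y = Y * b' := by rw [hb1, hb2]
      rw [hYdef, mul_sub, sub_mul, mul_one, one_mul] at h1
      exact sub_left_injective h1
    -- the products
    have hp1 : adj ω b * b' = 0 := by rw [hbs, mul_assoc, hb2, mul_zero]
    have hp2 : B * b = 0 := by rw [hbc, ← mul_assoc, hb4, zero_mul]
    have hp3 : b * b' = 0 := by rw [hbc', mul_assoc, hb2, mul_zero]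
    have hp4 : b' * b = 0 := by rw [hbc, ← mul_assoc, hb1, zero_mul]
    set d : Module.End F V := b + b' with hd
    have hds : adj ω d = adj ω b + B := by rw [hd, adj_add h]
    have hdd : adj ω d * d = adj ω b * b := by
      rw [hds, hd, mul_add, add_mul, add_mul, hp1, hp2, hb5, add_zero, add_zero, add_zero]
    have hd2 : d * d = b * b := by
      rw [hd, mul_add, add_mul, add_mul, hp3, hp4, hb6, add_zero, add_zero, add_zero]
    have hdn : d + adj ω d = n := by
      rw [hds]
      calc b + b' + (adj ω b + B) = (b + adj ω b) + (b' + B) := by abel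
        _ = (b + adj ω b) + (b + adj ω b) + n := by rw [hb3, hε]; abel
        _ = n := by rw [two_end (F := F) (b + adj ω b), zero_add]
    have hbN : b ^ N = 0 := by
      rw [hbc, (cY ccx).symm.mul_pow, hN, zero_mul]
    have hdnil : IsNilpotent d := by
      refine ⟨2 * N, ?_⟩
      rw [pow_mul, pow_two, hd2, ← pow_two, ← pow_mul, mul_comm, pow_mul, hbN, zero_pow two_ne_zero]
    obtain ⟨u, hu⟩ := hdnil.isUnit_one_add
    set q : Module.End F V := ((u⁻¹ : (Module.End F V)ˣ) : Module.End F V) with hq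
    have hq1 : q * (1 + d) = 1 := by rw [← hu, hq, Units.inv_mul]
    have hq2 : (1 + d) * q = 1 := by rw [← hu, hq, Units.mul_inv]
    have cdx : Commute d x := cbx.add_left cb'x
    have ckx : Commute (1 + d) x := (Commute.one_left x).add_left cdx
    have cqx : Commute q x := by
      change q * x = x * q
      calc q * x = q * x * ((1 + d) * q) := by rw [hq2, mul_one]
        _ = q * (x * (1 + d)) * q := by simp only [mul_assoc]
        _ = q * ((1 + d) * x) * q := by rw [ckx.eq]
        _ = (q * (1 + d)) * x * q := by simp only [mul_assoc]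
        _ = x * q := by rw [hq1, one_mul]
    -- the next term
    set a : Module.End F V := b * q with ha
    set n' : Module.End F V := adj ω a * a with hn'
    have hn'1 : ∀ v w, ω (n' v) w = ω (a v) (a w) := by
      intro v w
      rw [hn', Module.End.mul_apply, adj_spec' h]
    have crq : Commute (r * q) x := hr.mul_left cqx
    have hn'r : n' = Y ^ (j + 3 + 1) * (Y ^ j * (adj ω (r * q) * xs ^ (j + 2) * (r * q))) := by
      have h1 : a = Y ^ (j + 2) * (r * q) := by rw [ha, hb, mul_assoc]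
      have h2 : adj ω a = adj ω (r * q) * xs ^ (j + 2) * Y ^ (j + 2) := by
        rw [h1, adj_mul h, adj_pow h, hYs, (cY cxsx).mul_pow, mul_assoc]
      have h3 : Commute (adj ω (r * q) * xs ^ (j + 2)) (Y ^ (j + 2) * Y ^ (j + 2)) := by
        have h4 : Commute (adj ω (r * q) * xs ^ (j + 2)) Y := cY ((comm_adj h hx crq).mul_left (cxsx.pow_left _))
        exact (h4.pow_right _).mul_right (h4.pow_right _)
      calc n' = adj ω (r * q) * xs ^ (j + 2) * (Y ^ (j + 2) * Y ^ (j + 2)) * (r * q) := by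
            rw [hn', h2, h1]; simp only [mul_assoc]
        _ = (Y ^ (j + 2) * Y ^ (j + 2)) * (adj ω (r * q) * xs ^ (j + 2)) * (r * q) := by rw [h3.eq]
        _ = _ := by
            rw [← pow_add, ← mul_assoc (Y ^ (j + 3 + 1)), ← pow_add, mul_assoc]
            congr 2
            omega
    obtain ⟨k₂, hk1, hk2⟩ := ih (j + 3 + 1) (by omega) (by omega)
      (Y ^ j * (adj ω (r * q) * xs ^ (j + 2) * (r * q))) n'
      ((cxY.symm.pow_left j).mul_left (((comm_adj h hx crq).mul_left (cxsx.pow_left _)).mul_left crq)) hn'r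
      (fun v w => by rw [hn'1, h.neg v, hn'1, h.neg (a v)]) (fun v => by rw [hn'1, h.alt])
    let k₁ : V ≃ₗ[F] V := LinearEquiv.ofLinearMap (1 + d) q hq2 hq1
    have hk₁ : ∀ v, k₁ v = (1 + d) v := fun v => rfl
    refine ⟨k₁.trans k₂, fun v => ?_, fun v w => ?_⟩
    · rw [LinearEquiv.trans_apply, LinearEquiv.trans_apply, ← hk1, hk₁, hk₁]
      congr 1
      exact LinearMap.congr_fun ckx.eq v
    · rw [LinearEquiv.trans_apply, LinearEquiv.trans_apply, hk2, hk₁, hk₁, map_add, LinearMap.add_apply, hn'1]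
      have h5 : a * (1 + d) = b := by rw [ha, mul_assoc, hq1, mul_one]
      have h6 : ∀ z, a ((1 + d) z) = b z := fun z => LinearMap.congr_fun h5 z
      rw [h6, h6]
      have h7 : adj ω (1 + d) * (1 + d) = 1 + n + adj ω b * b := by
        rw [adj_add h, adj_one h, add_mul, one_mul, mul_add, mul_one, hdd, ← hdn]
        abel
      have h8 : ω ((1 + d) v) ((1 + d) w) = ω v ((1 + n + adj ω b * b) w) := by
        rw [← h7, Module.End.mul_apply, adj_spec h]
      rw [h8, LinearMap.add_apply, LinearMap.add_apply, Module.End.one_apply, Module.End.mul_apply, map_add, map_add,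
        ← adj_spec h b, ← hn1, map_add, LinearMap.add_apply, add_assoc, CharTwo.add_self_eq_zero, add_zero]

end P11_aux

theorem norm_alt (h : Sy ω) {x : Module.End F V} (hx : Iso ω x) {N : ℕ} (hN : (x - 1) ^ N = 0) {i : ℕ}
    (hi : 3 ≤ i) {r n : Module.End F V} (hr : Commute r x) (hn : n = (x - 1) ^ i * r)
    (hn1 : ∀ v w, ω (n v) w = ω v (n w)) (hn2 : ∀ v, ω (n v) v = 0) :
    ∃ k : V ≃ₗ[F] V, (∀ v, k (x v) = x (k v)) ∧ ∀ v w, ω (k v) (k w) = ω (v + n v) w :=
  P11_aux.norm_step h hx hN N i hi (Nat.le_add_left N i) r n hr hn hn1 hn2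

end

end LieP.PS
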