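import Pool.Agent.LieP.P07
import Pool.Agent.LieP.P11

/-!
# MP_6c3636_al, LieP, module P12: powers j = 1 mod 4 on a free module (16.7) (helper96)

`Y := x - 1`, `j = 1 + 4 m`: `T := x ^ j - 1 = (1 + Y) (1 + Y ^ 4) ^ m - 1 = Y + Y ^ 4 w`, `w` in `F[Y]` (characteristic two: `x ^ 4 = 1 + Y ^ 4`), so `T = Y u`, `u = 1 + Y ^ 3 w`. `T ^ a = 0`. `g` from `Fr.lift` with this `T` and `z = v`:
`g (p(Y) v_i) = p(T) v_i`, `g Y = T g`, so `g x = x ^ j g`. (1) `(g - 1) V ≤ Y ^ 3 V`: `p(T) - p(Y)` is a multiple of `T - Y = Y ^ 4 w`. (2) `(g - 1) Y ^ b V ≤ Y ^ (b + 3) V`: `(g - 1) Y ^ b z = Y ^ b (u ^ b g z - z) = Y ^ b ((u ^ b - 1) g z + (g - 1) z)`. So `g - 1` is nilpotent, `g` bijective.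
`n := adj ω g * g - 1`: `ω (n v) w = ω (g v) (g w) - ω v w`. It commutes with `x`: `ω ((1+n) x v) (x w) = ω (x ^ j g v) (x ^ j g w) = ω ((1+n) v) w = ω (x (1+n) v) (x w)`. It is selfadjoint, `ω (n v) v = 0`.
(3) every `n v` is in the range of `Y ^ 3`: by `mem_range_iff` it is enough that `ω (n v) w = 0` if `adj ω (Y ^ 3) w = 0`, i.e. (`adj ω Y = x⁻¹ Y`) `Y ^ 3 w = 0`. If `a ≤ 3` then `(g - 1) = 0` by (1), `n = 0`. Otherwise `w = Y ^ (a - 3) z` (`Fr.mem_pow`), `g w = w` by (2). `ω (n v) w = ω (g v) (g w) - ω v w = ω ((g - 1) v) w`,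
`(g - 1) v = Y ^ 3 z'`, `ω (Y ^ 3 z') w = ω z' (adj ω Y ^ 3 w) = 0`.
(4) choose `c_i` with `Y ^ 3 c_i = n v_i`, `c` from `Fr.lift` with `T = Y`, `z = c_i`: `c` commutes with `Y`, `n = Y ^ 3 c` (`Fr.ext`). P11 (`norm_alt`, `i = 3`): `k` with `k x = x k`, `ω (k v) (k w) = ω (v + n v) w = ω (g v) (g w)`. Then `g k⁻¹` is the isometry.
-/

namespace LieP.PS

noncomputable section

open Classical Polynomial

variable {F : Type} [Field F] [CharP F 2] {V : Type} [AddCommGroup V] [Module F V] [FiniteDimensional F V]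
  {ω : V →ₗ[F] V →ₗ[F] F}

namespace P12_aux

/-- `(1 + X) ^ j - 1 = X + X ^ 4 w` for `j = 1` modulo four -/
theorem exists_w {F : Type} [Field F] [CharP F 2] {j : ℕ} (hj : j ≡ 1 [MOD 4]) :
    ∃ w : F[X], (1 + X) ^ j - 1 = X + X ^ 4 * w := by
  obtain ⟨m, rfl⟩ : ∃ m, j = 4 * m + 1 := ⟨j / 4, by unfold Nat.ModEq at hj; omega⟩
  have h2 : (2 : F[X]) = 0 := CharTwo.two_eq_zero
  have h4 : (1 + X : F[X]) ^ 4 = 1 + X ^ 4 := by
    have h5 : (1 + X : F[X]) ^ 4 = 1 + X ^ 4 + 2 * (2 * X + 3 * X ^ 2 + 2 * X ^ 3) := by ring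
    rw [h5, h2, zero_mul, add_zero]
  have h6 : (X : F[X]) ^ 4 ∣ (1 + X ^ 4) ^ m - 1 := by
    have h7 := sub_dvd_pow_sub_pow (1 + X ^ 4 : F[X]) 1 m
    rw [one_pow, add_sub_cancel_left] at h7
    exact h7
  obtain ⟨s, hs⟩ := h6
  refine ⟨s * (1 + X), ?_⟩
  have h8 : (1 + X ^ 4 : F[X]) ^ m = X ^ 4 * s + 1 := by rw [← hs]; ring
  rw [pow_succ, pow_mul, h4, h8]
  ring

theorem dvd_comp {F : Type} [Field F] {P : F[X]} (hP : X ^ 4 ∣ P - X) (p : F[X]) :
    X ^ 4 ∣ p.comp P - p := by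
  refine hP.trans ?_
  have h3 := sub_dvd_eval_sub P (X : F[X]) (p.map C)
  have h4 : eval P (p.map C) = p.comp P := by rw [eval_map, comp]
  have h5 : eval (X : F[X]) (p.map C) = p := by rw [eval_map, eval₂_C_X]
  rwa [h4, h5] at h3

end P12_aux

open P12_aux

theorem cj_one_mod_four (h : Sy ω) {x : Module.End F V} (hx : Iso ω x) {a : ℕ} {κ : Type} [Fintype κ]
    {v : κ → V} (hv : Fr (x - 1) a v) {j : ℕ} (hj : j ≡ 1 [MOD 4]) : Cj ω x (x ^ j) := by
  obtain ⟨w, hw⟩ := exists_w (F := F) hj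
  set Y : Module.End F V := x - 1 with hY
  have hxY : x = 1 + Y := by rw [hY]; abel
  set W : Module.End F V := aeval Y w with hW
  set T : Module.End F V := x ^ j - 1 with hT
  have hTP : T = aeval Y ((1 + X : F[X]) ^ j - 1) := by
    rw [map_sub, map_pow, map_add, map_one, aeval_X, ← hxY]
  have hYW : Commute Y W := by
    have h1 : Commute (aeval Y (X : F[X])) (aeval Y w) := by
      show _ * _ = _ * _
      rw [← map_mul, ← map_mul, mul_comm]
    rwa [aeval_X] at h1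
  have hTY : T = Y * (1 + Y ^ 3 * W) := by
    rw [hTP, hw, map_add, map_mul, map_pow, aeval_X, ← hW, mul_add, mul_one, ← mul_assoc, ← pow_succ']
  have hYU : Commute Y (1 + Y ^ 3 * W) :=
    (Commute.one_right _).add_right ((Commute.refl Y).pow_right 3 |>.mul_right hYW)
  have hTp : ∀ b : ℕ, T ^ b = Y ^ b * (1 + Y ^ 3 * W) ^ b := by
    intro b
    rw [hTY, hYU.mul_pow]
  have hTa : T ^ a = 0 := by rw [hTp, hv.pow, zero_mul]
  obtain ⟨g, hg1, hg2, hg3, hg4⟩ := hv.lift hTa v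
  have hgx : ∀ z, g (x z) = (x ^ j) (g z) := by
    intro z
    have h1 := hg3 z
    have h2 : Y z = x z - z := rfl
    have h3 : T (g z) = (x ^ j) (g z) - g z := rfl
    rw [h2, h3, map_sub] at h1
    exact sub_left_injective h1
  -- (1)
  have s1 : ∀ z, ∃ z', g z - z = (Y ^ 3) z' := by
    intro z
    obtain ⟨p, rfl⟩ := hv.span z
    have h1 : ∀ i, ∃ q, aeval T (p i) = aeval Y (p i) + Y ^ 3 * q := by
      intro i
      have h2 : X ^ 4 ∣ ((1 + X : F[X]) ^ j - 1) - X := ⟨w, by rw [hw]; ring⟩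
      obtain ⟨q, hq⟩ := dvd_comp h2 (p i)
      refine ⟨aeval Y (X * q), ?_⟩
      have h3 : aeval T (p i) = aeval Y ((p i).comp ((1 + X : F[X]) ^ j - 1)) := by
        rw [hTP, aeval_comp]
      have h4 : (p i).comp ((1 + X : F[X]) ^ j - 1) = p i + X ^ 3 * (X * q) := by
        rw [← mul_assoc, ← pow_succ, ← hq]; ring
      rw [h3, h4, map_add, map_mul, map_pow, aeval_X]
    choose q hq using h1
    refine ⟨∑ i, q i (v i), ?_⟩
    rw [hg1, map_sum, ← Finset.sum_sub_distrib]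
    refine Finset.sum_congr rfl fun i _ => ?_
    rw [hq i, LinearMap.add_apply, add_sub_cancel_left]
    rfl
  -- (2)
  have hU : ∀ b : ℕ, ∃ D : Module.End F V, (1 + Y ^ 3 * W) ^ b = 1 + Y ^ 3 * D := by
    intro b
    induction b with
    | zero => exact ⟨0, by rw [pow_zero, mul_zero, add_zero]⟩
    | succ b ih =>
      obtain ⟨D, hD⟩ := ih
      refine ⟨W + D * (1 + Y ^ 3 * W), ?_⟩
      rw [pow_succ, hD]
      noncomm_ring
  have s2 : ∀ (b : ℕ) (z : V), ∃ z', g ((Y ^ b) z) - (Y ^ b) z = (Y ^ (b + 3)) z' := by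
    intro b z
    have h1 : g ((Y ^ b) z) = (T ^ b) (g z) := by
      induction b with
      | zero => rfl
      | succ b ih =>
        rw [pow_succ', pow_succ', Module.End.mul_apply, Module.End.mul_apply, hg3, ih]
    obtain ⟨D, hD⟩ := hU b
    obtain ⟨z', hz'⟩ := s1 z
    refine ⟨D (g z) + z', ?_⟩
    have h3 : g z = z + (Y ^ 3) z' := by rw [← hz']; abel
    have h4 : (Y ^ b) (g z) = (Y ^ b) z + (Y ^ (b + 3)) z' := by
      rw [h3, map_add, pow_add Y b 3, Module.End.mul_apply]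
    have h5 : (Y ^ b * (1 + Y ^ 3 * D) : Module.End F V) (g z) = (Y ^ b) (g z) + (Y ^ (b + 3)) (D (g z)) := by
      rw [mul_add, mul_one, ← mul_assoc, ← pow_add]
      rfl
    rw [h1, hTp, hD, h5, h4, map_add]
    abel
  -- `g` is injective
  have hinj : Function.Injective g := by
    rw [injective_iff_map_eq_zero]
    intro z hz
    have h1 : ∀ b : ℕ, ∃ z', z = (Y ^ (3 * b)) z' := by
      intro b
      induction b with
      | zero => exact ⟨z, rfl⟩
      | succ b ih =>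
        obtain ⟨z', hz'⟩ := ih
        obtain ⟨z'', hz''⟩ := s2 (3 * b) z'
        rw [← hz', hz, zero_sub] at hz''
        refine ⟨-z'', ?_⟩
        rw [map_neg, mul_add, mul_one, ← hz'', neg_neg]
    obtain ⟨z', hz'⟩ := h1 a
    rw [hz']
    have h2 : Y ^ (3 * a) = 0 := by rw [mul_comm, pow_mul, hv.pow, zero_pow (by norm_num)]
    rw [h2]
    rfl
  set n : Module.End F V := adj ω g * g - 1 with hn
  have hnω : ∀ u z, ω (n u) z = ω (g u) (g z) - ω u z := by
    intro u z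
    have h1 : n u = adj ω g (g u) - u := rfl
    rw [h1, map_sub, LinearMap.sub_apply, adj_spec' h]
  have hax1 : adj ω x * x = 1 := Iso.adj_mul_self h hx
  have hax2 : x * adj ω x = 1 := Iso.self_mul_adj h hx
  -- `n` commutes with `x`
  have hnx : Commute n x := by
    have e1 : g * x = x ^ j * g := LinearMap.ext hgx
    have e2 := congrArg (adj ω) e1
    rw [adj_mul h, adj_mul h, adj_pow h] at e2
    have hc : Commute (adj ω x) x := hax1.trans hax2.symm
    have e3 : adj ω x ^ j * x ^ j = 1 := by rw [← hc.mul_pow, hax1, one_pow]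
    have e4 : adj ω g * x ^ j = x * adj ω g := by
      calc adj ω g * x ^ j = x * (adj ω x * adj ω g) * x ^ j := by rw [← mul_assoc x, hax2, one_mul]
        _ = x * adj ω g := by rw [e2, mul_assoc, mul_assoc, e3, mul_one]
    have e5 : Commute (adj ω g * g) x := by
      show adj ω g * g * x = x * (adj ω g * g)
      rw [mul_assoc, e1, ← mul_assoc, e4, mul_assoc]
    exact e5.sub_left (Commute.one_left _)
  -- (3)
  have hadY : ∀ z, adj ω (Y ^ 3) z = 0 → (Y ^ 3) z = 0 := by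
    intro z hz
    have e1 : adj ω Y = adj ω x - 1 := by rw [hY, adj_sub h, adj_one h]
    have e2 : x * adj ω Y = -Y := by rw [e1, mul_sub, hax2, mul_one, hY]; abel
    have hc : Commute x (adj ω Y) := by
      rw [e1]
      have hc1 : Commute x (adj ω x) := hax2.trans hax1.symm
      exact hc1.sub_right (Commute.one_right _)
    have e3 : Y ^ 3 = -(x ^ 3 * adj ω (Y ^ 3)) := by
      rw [adj_pow h, ← hc.mul_pow, e2, Odd.neg_pow (by decide), neg_neg]
    rw [e3]
    show -((x ^ 3) (adj ω (Y ^ 3) z)) = 0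
    rw [hz, map_zero, neg_zero]
  have s3 : ∀ u, ∃ c, (Y ^ 3) c = n u := by
    intro u
    rw [mem_range_iff h]
    intro z hz
    have hz3 := hadY z hz
    have hgz : g z = z := by
      rcases le_total a 3 with ha | ha
      · obtain ⟨z', hz'⟩ := s1 z
        have h1 : Y ^ 3 = 0 := pow_eq_zero_of_le ha hv.pow
        rw [h1] at hz'
        exact sub_eq_zero.1 hz'
      · obtain ⟨y, hy⟩ := hv.mem_pow ha hz3
        obtain ⟨z', hz'⟩ := s2 (a - 3) y
        rw [← hy, Nat.sub_add_cancel ha, hv.pow] at hz'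
        exact sub_eq_zero.1 hz'
    obtain ⟨u', hu'⟩ := s1 u
    rw [hnω, hgz, ← LinearMap.sub_apply, ← map_sub, hu', adj_spec h, hz, map_zero]
  -- (4)
  choose c0 hc0 using fun i => s3 (v i)
  obtain ⟨c, -, hc2, hc3, -⟩ := hv.lift hv.pow c0
  have hnY : ∀ z, n (Y z) = Y (n z) := by
    intro z
    have h1 := LinearMap.congr_fun hnx.eq z
    have h2 : n (x z) = x (n z) := h1
    show n (x z - z) = x (n z) - n z
    rw [map_sub, h2]
  have hYc : n = Y ^ 3 * c := by
    refine hv.ext (T := Y) hnY ?_ ?_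
    · intro z
      show (Y ^ 3) (c (Y z)) = Y ((Y ^ 3) (c z))
      rw [hc3]
      exact LinearMap.congr_fun ((Commute.refl Y).pow_left 3).eq (c z)
    · intro i
      show n (v i) = (Y ^ 3) (c (v i))
      rw [hc2, hc0]
  have hcx : Commute c x := by
    refine LinearMap.ext fun z => ?_
    show c (x z) = x (c z)
    have h1 := hc3 z
    have h2 : c (Y z) = c (x z) - c z := by
      show c (x z - z) = _
      rw [map_sub]
    have h3 : Y (c z) = x (c z) - c z := rfl
    rw [h2, h3] at h1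
    exact sub_left_injective h1
  obtain ⟨k, hk1, hk2⟩ := norm_alt h hx (N := a) hv.pow (le_refl 3) hcx hYc (by
    intro u z
    rw [h.neg u (n z), hnω, hnω, h.neg (g u) (g z), h.neg u z]
    ring) (by
    intro u
    rw [hnω, h.alt, h.alt, sub_zero])
  let G : V ≃ₗ[F] V := LinearEquiv.ofInjectiveEndo g hinj
  have hG : ∀ z, G z = g z := fun z => rfl
  refine ⟨k.symm.trans G, ?_, ?_⟩
  · intro u z
    rw [LinearEquiv.trans_apply, LinearEquiv.trans_apply, hG, hG]
    have h1 := hk2 (k.symm u) (k.symm z)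
    rw [LinearEquiv.apply_symm_apply, LinearEquiv.apply_symm_apply, map_add, LinearMap.add_apply,
      hnω] at h1
    rw [h1]
    ring
  · intro u
    rw [LinearEquiv.trans_apply, LinearEquiv.trans_apply, hG, hG]
    have h1 : k.symm (x u) = x (k.symm u) := by
      rw [LinearEquiv.symm_apply_eq, hk1, LinearEquiv.apply_symm_apply]
    rw [h1, hgx]

end

end LieP.PS
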