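import Pool.Agent.LieP.P09
import Pool.Agent.LieP.P10
import Pool.Agent.LieP.P12

/-!
# MP_6c3636_al, LieP, module P13: unipotent elements (16.4)-(16.8) (helper96)

Strong induction on the dimension of `V`. `V = 0`: trivial. Otherwise P09 gives a block `W`, `V = W ⊕ oc ω W` (P05), the dimension of `oc ω W` is smaller. By `glue` it is enough to show the claim on `W`, i.e. for `(W, rsf ω W, x.restrict)`.
On a block: `j ≡ 1 mod 4`: P12. `j ≡ 3 mod 4`: choose `M ≥ k`, `M ≥ 2` and `j' := 2 ^ M * j - j` (or another number with `j + j' ≡ 0 mod 2 ^ k`, `j' ≡ 1 mod 4`). `x' := adj ω x = x⁻¹`. `Cj x x'` by P10, `Cj x (x ^ j')` by P12, so `Cj x' (x' ^ j')` (`Cj.inv`), `Cj x (x' ^ j')` (`Cj.trans`) and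
`x' ^ j' = x ^ j`.
-/

namespace LieP.PS

noncomputable section

open Classical

variable {F : Type} [Field F] [CharP F 2] {V : Type} [AddCommGroup V] [Module F V] [FiniteDimensional F V]
  {ω : V →ₗ[F] V →ₗ[F] F}

namespace P13_aux

theorem pow_mem {x : Module.End F V} {W : Submodule F V} (hxW : ∀ w ∈ W, x w ∈ W) (j : ℕ) :
    ∀ w ∈ W, (x ^ j) w ∈ W := by
  induction j with
  | zero => intro w hw; exact hw
  | succ j ih =>
    intro w hw
    rw [pow_succ', Module.End.mul_apply]
    exact hxW _ (ih w hw)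

/-- the claim for a block -/
theorem block (h : Sy ω) {x : Module.End F V} (hx : Iso ω x) {k j : ℕ} (hxk : x ^ (2 ^ k) = 1)
    (hj : Odd j) (h1 : j ≡ 1 [MOD 4] ∨ Cj ω x (adj ω x))
    (hfr : ∀ i : ℕ, i ≡ 1 [MOD 4] → Cj ω x (x ^ i)) : Cj ω x (x ^ j) := by
  by_cases hj1 : j ≡ 1 [MOD 4]
  · exact hfr j hj1
  have hj3 : j % 4 = 3 := by
    obtain ⟨q, hq⟩ := hj
    unfold Nat.ModEq at hj1
    omega
  have hinv : Cj ω x (adj ω x) := h1.resolve_left hj1
  -- the exponent
  obtain ⟨i, hi⟩ : ∃ i, i + j = 2 ^ k * (4 * j) := by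
    refine ⟨2 ^ k * (4 * j) - j, Nat.sub_add_cancel ?_⟩
    calc j ≤ 4 * j := by omega
      _ ≤ 2 ^ k * (4 * j) := Nat.le_mul_of_pos_left _ (by positivity)
  have hi1 : i ≡ 1 [MOD 4] := by
    have h2 : (i + j) % 4 = 0 := by
      rw [hi]
      have : 2 ^ k * (4 * j) = 4 * (2 ^ k * j) := by ring
      omega
    unfold Nat.ModEq
    omega
  have e1 : adj ω x * x = 1 := Iso.adj_mul_self h hx
  have e2 : x * adj ω x = 1 := Iso.self_mul_adj h hx
  have hcomm : Commute (adj ω x) x := e1.trans e2.symm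
  have e3 : adj ω x ^ i * x ^ i = 1 := by rw [← hcomm.mul_pow, e1, one_pow]
  have h2 : Cj ω (adj ω x) (adj ω x ^ i) := (hfr i hi1).inv e1 e2 e3
  have h3 : adj ω x ^ i = x ^ j := by
    have h4 : x ^ (i + j) = 1 := by rw [hi, pow_mul, hxk, one_pow]
    calc adj ω x ^ i = adj ω x ^ i * x ^ (i + j) := by rw [h4, mul_one]
      _ = (adj ω x ^ i * x ^ i) * x ^ j := by rw [pow_add, mul_assoc]
      _ = x ^ j := by rw [e3, one_mul]
  rw [← h3]
  exact hinv.trans h2

theorem main (j : ℕ) (hj : Odd j) (k : ℕ) (n : ℕ) : ∀ {V : Type} [AddCommGroup V] [Module F V]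
    [FiniteDimensional F V] {ω : V →ₗ[F] V →ₗ[F] F} (_ : Sy ω) {x : Module.End F V} (_ : Iso ω x)
    (_ : x ^ (2 ^ k) = 1), Module.finrank F V = n → Cj ω x (x ^ j) := by
  induction n using Nat.strong_induction_on with
  | _ n ih =>
    intro V _ _ _ ω h x hx hxk hn
    rcases subsingleton_or_nontrivial V with hV | hV
    · exact ⟨LinearEquiv.refl F V, fun v w => rfl, fun v => Subsingleton.elim _ _⟩
    obtain ⟨W, hxW, a, ha, hW0, hW, hcase⟩ := exists_block h hx hxk
    have hxO := oc_stable h hx hxW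
    have hyW := pow_mem hxW j
    have hyO := pow_mem hxO j
    have hcompl := isCompl_oc h hW
    refine glue h hW hxW hyW hxO hyO ?_ ?_
    · -- the block
      have hs := sy_rsf h hW
      have hi := iso_restrict hx hxW
      have hp : (x.restrict hxW) ^ (2 ^ k) = 1 := by
        rw [Module.End.pow_restrict (2 ^ k) hxW (pow_mem hxW _)]
        refine LinearMap.ext fun w => Subtype.ext ?_
        show (x ^ (2 ^ k)) (w : V) = w
        rw [hxk]
        rfl
      have hr : (x ^ j).restrict hyW = (x.restrict hxW) ^ j :=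
        (Module.End.pow_restrict j hxW hyW).symm
      rw [hr]
      rcases hcase with ⟨v, hv⟩ | ⟨v, w, hv, hvw⟩
      · exact block hs hi hp hj (Or.inr (inv_one hs hi hp (Iso.adj_mul_self hs hi) hv))
          fun i hi1 => cj_one_mod_four hs hi hv hi1
      · refine block hs hi hp hj (Or.inr (inv_two hs hi hp (Iso.adj_mul_self hs hi) ha hv ?_))
          fun i hi1 => cj_one_mod_four hs hi hv hi1
        have hq : ∀ b : ℕ, ((((x.restrict hxW - 1) ^ b : Module.End F W) v : W) : V) =
            ((x - 1) ^ b) (v : V) := by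
          intro b
          induction b with
          | zero => rfl
          | succ b ihb =>
            rw [pow_succ', pow_succ', Module.End.mul_apply, Module.End.mul_apply, ← ihb]
            rfl
        rw [rsf_apply, hq]
        exact hvw
    · -- the complement
      have hs := sy_oc h hW
      have hi := iso_restrict hx hxO
      have hp : (x.restrict hxO) ^ (2 ^ k) = 1 := by
        rw [Module.End.pow_restrict (2 ^ k) hxO (pow_mem hxO _)]
        refine LinearMap.ext fun w => Subtype.ext ?_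
        show (x ^ (2 ^ k)) (w : V) = w
        rw [hxk]
        rfl
      have hr : (x ^ j).restrict hyO = (x.restrict hxO) ^ j :=
        (Module.End.pow_restrict j hxO hyO).symm
      rw [hr]
      refine ih _ ?_ hs hi hp rfl
      have h6 := Submodule.finrank_add_eq_of_isCompl hcompl
      have h7 : 0 < Module.finrank F W := by
        rw [Nat.pos_iff_ne_zero, Ne, Submodule.finrank_eq_zero]
        exact hW0
      omega

end P13_aux

theorem cj_unip (h : Sy ω) {x : Module.End F V} (hx : Iso ω x) {k j : ℕ} (hxk : x ^ (2 ^ k) = 1)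
    (hj : Odd j) : Cj ω x (x ^ j) :=
  P13_aux.main j hj k _ h hx hxk rfl

end

end LieP.PS
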