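import Pool.Agent.LieP.P04
import Pool.Agent.LieP.P13

/-!
# MP_6c3636_al, LieP, module P14: symplectic groups (16.4) (helper96)

`cj_symp`: `W := ker (x ^ (2 ^ k) - 1)`. It is nondegenerate: `z := x ^ (2 ^ k)` has `z ^ r = 1`, `r` odd, `e := ∑_{i < r} z ^ i` satisfies `z e = e`, `e w = r w = w` for `w ∈ W`, so `e` is the projection to `W`; `ω (e v) w = ω v (e w)` as `ω (z ^ i v) w = ω v (z ^ (r - i) w)`. If `w ∈ W` is orthogonal to
`W` then `ω w v = ω (e w) v = ω w (e v) = 0` for all `v`. `x` preserves `W` and `oc ω W` (P05). On `W`: P13. On `oc ω W`: P04 `cj_of_inj`: if `v ∈ oc ω W`, `x v = v` then `v ∈ W`, so `v = 0`. `glue` (P05); the restriction of `x ^ j` is the `j`-th power of the restriction.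
`mat_symp`: `V := I → F`, `ω v w := ∑ i, v i * w (ι i)`, it is alternating as `ι` is an involution without fixed points (characteristic two: the sum of `v i * v (ι i)` over the pairs; `Finset.sum_involution`), nondegenerate (`w := Pi.single (ι i) 1`). `X := Matrix.toLin' x` is an isometry:
`ω (A v) w = ω v ((mst A) w)`. The isometry `g` found by `cj_symp` gives the matrix.
-/

namespace LieP.PS

noncomputable section

open Classical

namespace P14_aux

section

variable {F : Type} [Field F] {V : Type} [AddCommGroup V] [Module F V] {ω : V →ₗ[F] V →ₗ[F] F}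

theorem restrict_pow {x : Module.End F V} {W : Submodule F V} (hxW : ∀ w ∈ W, x w ∈ W) (n : ℕ)
    (h : ∀ w ∈ W, (x ^ n) w ∈ W) : (x ^ n).restrict h = (x.restrict hxW) ^ n := by
  apply LinearMap.ext
  intro w
  apply Subtype.ext
  show (x ^ n) w.1 = _
  clear h
  induction n with
  | zero => rfl
  | succ n ih =>
    rw [pow_succ', pow_succ', Module.End.mul_apply, Module.End.mul_apply, ih]
    rfl

theorem pow_mem {x : Module.End F V} {W : Submodule F V} (hxW : ∀ w ∈ W, x w ∈ W) (n : ℕ) :
    ∀ w ∈ W, (x ^ n) w ∈ W := by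
  induction n with
  | zero => exact fun w hw => hw
  | succ n ih =>
    intro w hw
    rw [pow_succ', Module.End.mul_apply]
    exact hxW _ (ih w hw)

theorem iso_pow {x : Module.End F V} (hx : Iso ω x) (n : ℕ) : Iso ω (x ^ n) := by
  induction n with
  | zero => exact fun v w => rfl
  | succ n ih =>
    intro v w
    rw [pow_succ', Module.End.mul_apply, Module.End.mul_apply, hx, ih]

end

end P14_aux

open P14_aux

section

variable {F : Type} [Field F] [Finite F] [CharP F 2] {V : Type} [AddCommGroup V] [Module F V] [Finite V]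
  {ω : V →ₗ[F] V →ₗ[F] F}

theorem cj_symp (h : Sy ω) {x : Module.End F V} (hx : Iso ω x) {k r j : ℕ}
    (hxr : x ^ (2 ^ k * r) = 1) (hr : Odd r) (hj : Odd j) (hjr : j ≡ 1 [MOD r]) : Cj ω x (x ^ j) := by
  have : FiniteDimensional F V := Module.Finite.of_finite
  have hfix : ∀ v, x v = v → ∀ n, (x ^ n) v = v := by
    intro v hv n
    induction n with
    | zero => rfl
    | succ n ih => rw [pow_succ, Module.End.mul_apply, hv, ih]
  set z : Module.End F V := x ^ (2 ^ k) with hz
  have hzr : z ^ r = 1 := by rw [hz, ← pow_mul, hxr]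
  have hziso : Iso ω z := iso_pow hx _
  let W : Submodule F V := LinearMap.ker (z - 1)
  have hWm : ∀ v, v ∈ W ↔ z v = v := by
    intro v
    rw [LinearMap.mem_ker, LinearMap.sub_apply, Module.End.one_apply, sub_eq_zero]
  -- the projection
  have hzn : ∀ w, z w = w → ∀ n, (z ^ n) w = w := by
    intro v hv n
    induction n with
    | zero => rfl
    | succ n ih => rw [pow_succ, Module.End.mul_apply, hv, ih]
  have hze : ∀ v, z (∑ i ∈ Finset.range r, (z ^ i) v) = ∑ i ∈ Finset.range r, (z ^ i) v := by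
    intro v
    rw [map_sum]
    have h1 : ∀ i, z ((z ^ i) v) = (z ^ (i + 1)) v := by
      intro i
      rw [pow_succ', Module.End.mul_apply]
    rw [Finset.sum_congr rfl (fun i _ => h1 i)]
    have h2 := Finset.sum_range_succ (fun i => (z ^ i) v) r
    have h3 := Finset.sum_range_succ' (fun i => (z ^ i) v) r
    rw [h2] at h3
    simp only [hzr, pow_zero] at h3
    exact (add_right_cancel h3).symm
  have hr1 : (r : F) = 1 := by
    obtain ⟨m, hm⟩ := hr
    rw [hm, Nat.cast_add, Nat.cast_mul, Nat.cast_two, CharTwo.two_eq_zero, zero_mul, zero_add, Nat.cast_one]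
  have hW : ∀ w ∈ W, (∀ w' ∈ W, ω w w' = 0) → w = 0 := by
    intro w hw hw'
    apply h.nd
    intro v
    have h1 := hw' _ ((hWm _).2 (hze v))
    rw [map_sum] at h1
    have h2 : ∀ i, ω w ((z ^ i) v) = ω w v := by
      intro i
      conv_lhs => rw [← hzn w ((hWm w).1 hw) i]
      exact iso_pow hziso i w v
    rw [Finset.sum_congr rfl (fun i _ => h2 i), Finset.sum_const, Finset.card_range, nsmul_eq_mul, hr1,
      one_mul] at h1
    exact h1
  have hxW : ∀ w ∈ W, x w ∈ W := by
    intro w hw
    rw [hWm] at hw ⊢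
    have h1 : z * x = x * z := by rw [hz, ← pow_succ, pow_succ']
    calc z (x w) = (z * x) w := rfl
      _ = x (z w) := by rw [h1]; rfl
      _ = x w := by rw [hw]
  have hxO := oc_stable h hx hxW
  refine glue h hW hxW (pow_mem hxW j) hxO (pow_mem hxO j) ?_ ?_
  · rw [restrict_pow hxW j (pow_mem hxW j)]
    refine cj_unip (sy_rsf h hW) (iso_restrict hx hxW) (k := k) ?_ hj
    rw [← restrict_pow hxW (2 ^ k) (pow_mem hxW _)]
    apply LinearMap.ext
    intro w
    apply Subtype.ext
    exact (hWm _).1 w.2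
  · rw [restrict_pow hxO j (pow_mem hxO j)]
    refine cj_of_inj (sy_oc h hW) (iso_restrict hx hxO) (k := k) (r := r) ?_ hr hj hjr ?_
    · rw [← restrict_pow hxO (2 ^ k * r) (pow_mem hxO _)]
      apply LinearMap.ext
      intro w
      apply Subtype.ext
      show (x ^ (2 ^ k * r)) w.1 = w.1
      rw [hxr]
      rfl
    · intro v hv
      have h1 : x v.1 = v.1 := congrArg Subtype.val hv
      apply Subtype.ext
      exact hW v.1 ((hWm _).2 (hfix v.1 h1 _)) (fun w' hw' => v.2 w' hw')

end

namespace P14_aux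

variable {F : Type} [Field F] {I : Type} [Fintype I] [DecidableEq I]

/-- the form -/
def om (ι : I → I) : (I → F) →ₗ[F] (I → F) →ₗ[F] F :=
  LinearMap.mk₂ F (fun v w => ∑ i, v i * w (ι i))
    (fun a b c => by
      rw [← Finset.sum_add_distrib]
      exact Finset.sum_congr rfl fun i _ => add_mul _ _ _)
    (fun r a b => by
      rw [Finset.smul_sum]
      exact Finset.sum_congr rfl fun i _ => mul_assoc _ _ _)
    (fun a b c => by
      rw [← Finset.sum_add_distrib]
      exact Finset.sum_congr rfl fun i _ => mul_add _ _ _)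
    (fun r a b => by
      rw [Finset.smul_sum]
      exact Finset.sum_congr rfl fun i _ => mul_left_comm _ _ _)

theorem om_apply (ι : I → I) (v w : I → F) : om ι v w = ∑ i, v i * w (ι i) := rfl

theorem om_adj {ι : I → I} (hι : ∀ i, ι (ι i) = i) (A : Matrix I I F) (v w : I → F) :
    om ι (A.mulVec v) w = om ι v ((mst (RingEquiv.refl F) ι A).mulVec w) := by
  let e : I ≃ I := ⟨ι, ι, hι, hι⟩
  rw [om_apply, om_apply]
  simp only [Matrix.mulVec, dotProduct, Finset.sum_mul, Finset.mul_sum]
  rw [Finset.sum_comm]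
  refine Finset.sum_congr rfl fun j _ => ?_
  rw [← Equiv.sum_comp e (fun i => v j * (mst (RingEquiv.refl F) ι A (ι j) i * w i))]
  refine Finset.sum_congr rfl fun i _ => ?_
  show A i j * v j * w (ι i) = v j * (A (ι (ι i)) (ι (ι j)) * w (ι i))
  rw [hι, hι]
  ring

theorem om_nd {ι : I → I} (hι : ∀ i, ι (ι i) = i) {u : I → F} (hu : ∀ v, om ι v u = 0) : u = 0 := by
  funext i
  have h1 := hu (Pi.single (ι i) 1)
  rw [om_apply, Finset.sum_eq_single (ι i)] at h1
  · rw [Pi.single_eq_same, one_mul, hι] at h1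
    exact h1
  · intro b _ hb
    rw [Pi.single_eq_of_ne hb, zero_mul]
  · intro hb
    exact absurd (Finset.mem_univ _) hb

theorem om_sy [CharP F 2] {ι : I → I} (hι : ∀ i, ι (ι i) = i) (hfix : ∀ i, ι i ≠ i) :
    Sy (om (F := F) ι) where
  alt v := by
    rw [om_apply]
    refine Finset.sum_involution (fun i _ => ι i) ?_ ?_ ?_ ?_
    · intro i _
      show v i * v (ι i) + v (ι i) * v (ι (ι i)) = 0
      rw [hι, mul_comm (v (ι i)) (v i)]
      exact CharTwo.add_self_eq_zero _
    · intro i _ _
      exact hfix i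
    · intro i _
      exact Finset.mem_univ _
    · intro i _
      exact hι i
  nd v hv := by
    funext i
    have h1 := hv (Pi.single (ι i) 1)
    rw [om_apply, Finset.sum_eq_single i] at h1
    · rw [Pi.single_eq_same, mul_one] at h1
      exact h1
    · intro b _ hb
      rw [Pi.single_eq_of_ne (fun h => hb (by rw [← hι b, h, hι])), mul_zero]
    · intro hb
      exact absurd (Finset.mem_univ _) hb

end P14_aux

theorem mat_symp {F : Type} [Field F] [Finite F] [CharP F 2] {I : Type} [Fintype I] [DecidableEq I]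
    {ι : I → I} (hι : ∀ i, ι (ι i) = i) (hfix : ∀ i, ι i ≠ i) {x : Matrix I I F}
    (hx : mst (RingEquiv.refl F) ι x * x = 1) {k r j : ℕ} (hxr : x ^ (2 ^ k * r) = 1) (hr : Odd r)
    (hj : Odd j) (hjr : j ≡ 1 [MOD r]) :
    ∃ g : Matrix I I F, mst (RingEquiv.refl F) ι g * g = 1 ∧ g * x = x ^ j * g := by
  have hSy : Sy (om (F := F) ι) := om_sy hι hfix
  have hiso : Iso (om ι) (Matrix.toLin' x) := by
    intro v w
    rw [Matrix.toLin'_apply, Matrix.toLin'_apply, om_adj hι, Matrix.mulVec_mulVec, hx, Matrix.one_mulVec]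
  have hpow : ∀ n, (Matrix.toLin' x : Module.End F (I → F)) ^ n = Matrix.toLin' (x ^ n) := by
    intro n
    rw [Matrix.toLin'_pow]
  have hXr : (Matrix.toLin' x : Module.End F (I → F)) ^ (2 ^ k * r) = 1 := by
    rw [hpow, hxr, Matrix.toLin'_one]
    rfl
  obtain ⟨g, hg1, hg2⟩ := cj_symp hSy hiso hXr hr hj hjr
  have hgm : ∀ v, (LinearMap.toMatrix' (g : (I → F) →ₗ[F] (I → F))).mulVec v = g v := by
    intro v
    rw [← Matrix.toLin'_apply, Matrix.toLin'_toMatrix']
    rfl
  refine ⟨LinearMap.toMatrix' (g : (I → F) →ₗ[F] (I → F)), ?_, ?_⟩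
  · set G := LinearMap.toMatrix' (g : (I → F) →ₗ[F] (I → F)) with hG
    apply Matrix.mulVec_injective
    funext w
    show (mst (RingEquiv.refl F) ι G * G).mulVec w = (1 : Matrix I I F).mulVec w
    rw [Matrix.one_mulVec, ← sub_eq_zero]
    refine om_nd hι fun v => ?_
    rw [map_sub, ← Matrix.mulVec_mulVec, ← om_adj hι, hgm, hgm, hg1, sub_self]
  · apply Matrix.mulVec_injective
    funext w
    show (_ * x).mulVec w = (x ^ j * _).mulVec w
    rw [← Matrix.mulVec_mulVec, ← Matrix.mulVec_mulVec, hgm, hgm]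
    have h1 := hg2 w
    rw [hpow, Matrix.toLin'_apply, Matrix.toLin'_apply] at h1
    exact h1

end

end LieP.PS
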