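import Pool.Agent.LieP.P02
import Pool.Agent.ParkerGL.A10

/-!
# MP_6c3636_al, LieP, module P15: block matrices (16.1), (16.3) (helper96)

`mst_mul` etc.: direct. `blk_conj`: for a value `c` of `y` let `x_c` be the submatrix of `x` on `{i // y i = c}`; `x ^ m` has the submatrices `x_c ^ m` and is supported on `y i = y j`. `x_c ^ (2 ^ k * r) = 1`, so `x_c` is invertible, and `ParkerGL.conj_pow` (A10) on `{i // y i = c} → F` gives `g_c`,
`g_c x_c = x_c ^ j g_c`. `g i j := g_{y j} i j` if `y i = y j`, and `0` otherwise; the inverse from the `g_c⁻¹`.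
`mat_isom`: `R := {A : A i j = 0 unless y i = y j}` as a subring (subtype) of the matrix ring, with the involution `mst s ι` (`y (ι i) = - y i`), finite; `x` and the `g` of `blk_conj` are units of `R`; `C := Matrix.diagonal c` is central in `R` and `C + mst s ι C = 1`. `exists_isom` (P02).
-/

namespace LieP.PS

noncomputable section

open Classical

section

variable {F : Type} [Field F] {I : Type} [Fintype I] [DecidableEq I] {s : F ≃+* F} {ι : I → I}

theorem mst_mul (hι : ∀ i, ι (ι i) = i) (A B : Matrix I I F) :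
    mst s ι (A * B) = mst s ι B * mst s ι A := by
  let e : I ≃ I := ⟨ι, ι, hι, hι⟩
  ext i j
  rw [mst_apply, Matrix.mul_apply, map_sum, Matrix.mul_apply, ← Equiv.sum_comp e]
  refine Finset.sum_congr rfl fun k _ => ?_
  rw [map_mul, mul_comm]
  rfl

theorem mst_add (A B : Matrix I I F) : mst s ι (A + B) = mst s ι A + mst s ι B := by
  ext i j
  rw [mst_apply, Matrix.add_apply, map_add, Matrix.add_apply]
  rfl

theorem mst_one (hι : ∀ i, ι (ι i) = i) : mst s ι (1 : Matrix I I F) = 1 := by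
  ext i j
  rw [mst_apply, Matrix.one_apply, Matrix.one_apply]
  by_cases h : i = j
  · rw [if_pos h, if_pos (by rw [h]), map_one]
  · rw [if_neg h, if_neg (fun h' => h (by rw [← hι i, ← hι j, h'])), map_zero]

theorem mst_mst (hs : ∀ a, s (s a) = a) (hι : ∀ i, ι (ι i) = i) (A : Matrix I I F) :
    mst s ι (mst s ι A) = A := by
  ext i j
  rw [mst_apply, mst_apply, hs, hι, hι]

end

namespace P15_aux

section

variable {F : Type} [Field F] {I : Type} [Fintype I] [DecidableEq I]

/-- block diagonal matrices -/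
def Sp (y : I → ℝ) (A : Matrix I I F) : Prop := ∀ i i', y i ≠ y i' → A i i' = 0

/-- the block of the value `c` -/
def bl (y : I → ℝ) (c : ℝ) (A : Matrix I I F) : Matrix {i // y i = c} {i // y i = c} F :=
  A.submatrix Subtype.val Subtype.val

theorem bl_apply (y : I → ℝ) (c : ℝ) (A : Matrix I I F) (i j : {i // y i = c}) :
    bl y c A i j = A i.1 j.1 := rfl

theorem Sp.mul {y : I → ℝ} {A B : Matrix I I F} (hA : Sp y A) (hB : Sp y B) : Sp y (A * B) := by
  intro i j hij
  rw [Matrix.mul_apply]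
  refine Finset.sum_eq_zero fun k _ => ?_
  by_cases h : y i = y k
  · rw [hB k j (fun h' => hij (h.trans h')), mul_zero]
  · rw [hA i k h, zero_mul]

theorem Sp.one {y : I → ℝ} : Sp y (1 : Matrix I I F) := by
  intro i j hij
  rw [Matrix.one_apply, if_neg (fun h => hij (congrArg y h))]

theorem Sp.pow {y : I → ℝ} {A : Matrix I I F} (hA : Sp y A) (m : ℕ) : Sp y (A ^ m) := by
  induction m with
  | zero => rw [pow_zero]; exact Sp.one
  | succ m ih => rw [pow_succ]; exact ih.mul hA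

theorem bl_one {y : I → ℝ} (c : ℝ) : bl y c (1 : Matrix I I F) = 1 := by
  ext i j
  rw [bl_apply, Matrix.one_apply, Matrix.one_apply]
  by_cases h : i = j
  · rw [if_pos h, if_pos (by rw [h])]
  · rw [if_neg h, if_neg (fun h' => h (Subtype.ext h'))]

theorem bl_mul {y : I → ℝ} (c : ℝ) {A B : Matrix I I F} (hA : Sp y A) :
    bl y c (A * B) = bl y c A * bl y c B := by
  ext i j
  rw [bl_apply, Matrix.mul_apply, Matrix.mul_apply]
  have h1 : ∀ k, y k ≠ c → A i.1 k * B k j.1 = 0 := by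
    intro k hk
    rw [hA i.1 k (fun h => hk (by rw [← h]; exact i.2)), zero_mul]
  have h2 : ∑ k : {k // y k = c}, A i.1 k.1 * B k.1 j.1 =
      ∑ k ∈ Finset.univ.filter (fun k => y k = c), A i.1 k * B k j.1 := by
    rw [← Finset.sum_subtype_eq_sum_filter]
    simp
  show _ = ∑ k : {k // y k = c}, A i.1 k.1 * B k.1 j.1
  rw [h2, Finset.sum_filter]
  refine Finset.sum_congr rfl fun k _ => ?_
  split_ifs with h
  · rfl
  · exact h1 k h

theorem bl_pow {y : I → ℝ} (c : ℝ) {A : Matrix I I F} (hA : Sp y A) (m : ℕ) :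
    bl y c (A ^ m) = bl y c A ^ m := by
  induction m with
  | zero => rw [pow_zero, pow_zero, bl_one]
  | succ m ih => rw [pow_succ, pow_succ, bl_mul c (hA.pow m), ih]

/-- block diagonal matrices with the same blocks are equal -/
theorem eq_of_bl {y : I → ℝ} {A B : Matrix I I F} (hA : Sp y A) (hB : Sp y B)
    (h : ∀ c, bl y c A = bl y c B) : A = B := by
  ext i j
  by_cases hij : y i = y j
  · have h1 := congrFun (congrFun (h (y j)) ⟨i, hij⟩) ⟨j, rfl⟩
    exact h1
  · rw [hA i j hij, hB i j hij]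

/-- the matrix with given blocks -/
def gl (y : I → ℝ) (G : (c : ℝ) → Matrix {i // y i = c} {i // y i = c} F) : Matrix I I F :=
  Matrix.of fun i j => if h : y i = y j then G (y j) ⟨i, h⟩ ⟨j, rfl⟩ else 0

theorem gl_sp (y : I → ℝ) (G : (c : ℝ) → Matrix {i // y i = c} {i // y i = c} F) : Sp y (gl y G) := by
  intro i j hij
  exact dif_neg hij

theorem bl_gl (y : I → ℝ) (G : (c : ℝ) → Matrix {i // y i = c} {i // y i = c} F) (c : ℝ) :
    bl y c (gl y G) = G c := by
  ext ⟨i, hi⟩ ⟨j, hj⟩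
  subst hj
  exact dif_pos hi

/-- one block -/
theorem conj_blk {J : Type} [Fintype J] [DecidableEq J] [Finite F] [CharP F 2] {x : Matrix J J F} {k r j : ℕ}
    (hxr : x ^ (2 ^ k * r) = 1) (hr : Odd r) (hj : Odd j) (hjr : j ≡ 1 [MOD r]) :
    ∃ g g' : Matrix J J F, g * g' = 1 ∧ g' * g = 1 ∧ g * x = x ^ j * g := by
  have hpos : 0 < 2 ^ k * r := Nat.mul_pos (pow_pos (by norm_num) _) hr.pos
  obtain ⟨m, hm⟩ : ∃ m, 2 ^ k * r = m + 1 := ⟨2 ^ k * r - 1, by omega⟩
  have h1 : x * x ^ m = 1 := by rw [← pow_succ', ← hm, hxr]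
  have h2 : x ^ m * x = 1 := by rw [← pow_succ, ← hm, hxr]
  let X : (J → F) ≃ₗ[F] (J → F) := Matrix.toLin'OfInv h2 h1
  have hX : ∀ n, ((X ^ n : (J → F) ≃ₗ[F] (J → F)) : (J → F) →ₗ[F] (J → F)) = Matrix.toLin' (x ^ n) := by
    intro n
    induction n with
    | zero => rw [pow_zero, pow_zero, Matrix.toLin'_one]; rfl
    | succ n ih =>
      rw [pow_succ, pow_succ, Matrix.toLin'_mul, ← ih]
      rfl
  have hXr : X ^ (2 ^ k * r) = 1 := by
    apply LinearEquiv.toLinearMap_injective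
    rw [hX, hxr, Matrix.toLin'_one]
    rfl
  obtain ⟨g, hg⟩ := ParkerGL.conj_pow X hXr hr hjr hj
  refine ⟨LinearMap.toMatrix' (g : (J → F) →ₗ[F] (J → F)), LinearMap.toMatrix' (g.symm : (J → F) →ₗ[F] (J → F)), ?_, ?_, ?_⟩
  · rw [← LinearMap.toMatrix'_comp, LinearEquiv.comp_symm, LinearMap.toMatrix'_id]
  · rw [← LinearMap.toMatrix'_comp, LinearEquiv.symm_comp, LinearMap.toMatrix'_id]
  · have h3 : g * X = X ^ j * g := by rw [← hg]; group
    have h4 := congrArg (fun f : (J → F) ≃ₗ[F] (J → F) => (f : (J → F) →ₗ[F] (J → F))) h3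
    have h5 : (g : (J → F) →ₗ[F] (J → F)) ∘ₗ Matrix.toLin' x = Matrix.toLin' (x ^ j) ∘ₗ (g : (J → F) →ₗ[F] (J → F)) := by
      rw [← hX j]
      exact h4
    have h6 := congrArg LinearMap.toMatrix' h5
    rw [LinearMap.toMatrix'_comp, LinearMap.toMatrix'_comp, LinearMap.toMatrix'_toLin', LinearMap.toMatrix'_toLin'] at h6
    exact h6

end

end P15_aux

open P15_aux

theorem blk_conj {F : Type} [Field F] [Finite F] [CharP F 2] {I : Type} [Fintype I] [DecidableEq I]
    (y : I → ℝ) {x : Matrix I I F} (hsup : ∀ i i', y i ≠ y i' → x i i' = 0) {k r j : ℕ}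
    (hxr : x ^ (2 ^ k * r) = 1) (hr : Odd r) (hj : Odd j) (hjr : j ≡ 1 [MOD r]) :
    ∃ g g' : Matrix I I F, g * g' = 1 ∧ g' * g = 1 ∧ (∀ i i', y i ≠ y i' → g i i' = 0) ∧
      (∀ i i', y i ≠ y i' → g' i i' = 0) ∧ g * x = x ^ j * g := by
  have hx : Sp y x := hsup
  have h1 : ∀ c, ∃ g g' : Matrix {i // y i = c} {i // y i = c} F, g * g' = 1 ∧ g' * g = 1 ∧
      g * bl y c x = bl y c x ^ j * g := by
    intro c
    refine conj_blk (k := k) (r := r) ?_ hr hj hjr
    rw [← bl_pow c hx, hxr, bl_one]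
  choose G G' hG1 hG2 hG3 using h1
  refine ⟨gl y G, gl y G', ?_, ?_, gl_sp y G, gl_sp y G', ?_⟩
  · refine eq_of_bl ((gl_sp y G).mul (gl_sp y G')) Sp.one fun c => ?_
    rw [bl_mul c (gl_sp y G), bl_gl, bl_gl, bl_one, hG1]
  · refine eq_of_bl ((gl_sp y G').mul (gl_sp y G)) Sp.one fun c => ?_
    rw [bl_mul c (gl_sp y G'), bl_gl, bl_gl, bl_one, hG2]
  · refine eq_of_bl ((gl_sp y G).mul hx) ((hx.pow j).mul (gl_sp y G)) fun c => ?_
    rw [bl_mul c (gl_sp y G), bl_mul c (hx.pow j), bl_gl, bl_pow c hx, hG3]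

namespace P15_aux

/-- the ring of the block diagonal matrices -/
def SR (F : Type) [Field F] {I : Type} [Fintype I] [DecidableEq I] (y : I → ℝ) : Subring (Matrix I I F) where
  carrier := {A | Sp y A}
  mul_mem' := fun ha hb => Sp.mul ha hb
  one_mem' := Sp.one
  add_mem' := by
    intro a b ha hb i j hij
    rw [Matrix.add_apply, ha i j hij, hb i j hij, add_zero]
  zero_mem' := by
    intro i j _
    rfl
  neg_mem' := by
    intro a ha i j hij
    rw [Matrix.neg_apply, ha i j hij, neg_zero]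

/-- the involution of the ring -/
abbrev starSR {F : Type} [Field F] {I : Type} [Fintype I] [DecidableEq I] {s : F ≃+* F} (hs : ∀ a, s (s a) = a)
    {ι : I → I} (hι : ∀ i, ι (ι i) = i) {y : I → ℝ} (hy : ∀ i, y (ι i) = - y i) : StarRing (SR F y) where
  star A := ⟨mst s ι A.1, by
    intro i j hij
    rw [mst_apply, A.2 (ι j) (ι i) (by rw [hy, hy]; intro h; exact hij (neg_injective h).symm), map_zero]⟩
  star_involutive A := Subtype.ext (mst_mst hs hι A.1)
  star_mul A B := Subtype.ext (mst_mul hι A.1 B.1)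
  star_add A B := Subtype.ext (mst_add A.1 B.1)

end P15_aux

theorem mat_isom {F : Type} [Field F] [Finite F] [CharP F 2] {I : Type} [Fintype I] [DecidableEq I]
    {s : F ≃+* F} (hs : ∀ a, s (s a) = a) {ι : I → I} (hι : ∀ i, ι (ι i) = i)
    {y : I → ℝ} (hy : ∀ i, y (ι i) = - y i) {x : Matrix I I F} (hx : mst s ι x * x = 1)
    (hsup : ∀ i i', y i ≠ y i' → x i i' = 0) {k r j : ℕ}
    (hxr : x ^ (2 ^ k * r) = 1) (hr : Odd r) (hj : Odd j) (hjr : j ≡ 1 [MOD r])
    (c : I → F) (hc : ∀ i, c i + s (c (ι i)) = 1) (hcy : ∀ i i', y i = y i' → c i = c i') :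
    ∃ g : Matrix I I F, mst s ι g * g = 1 ∧ (∀ i i', y i ≠ y i' → g i i' = 0) ∧
      g * x = x ^ j * g := by
  obtain ⟨g, g', hg1, hg2, hg3, hg4, hg5⟩ := blk_conj y hsup hxr hr hj hjr
  letI : StarRing (SR F y) := starSR hs hι hy
  have hfin : Finite (SR F y) := Subtype.finite
  have hxS : mst s ι x * x = 1 := hx
  have hxS' : x * mst s ι x = 1 := mul_eq_one_comm.1 hx
  let xR : SR F y := ⟨x, hsup⟩
  let xu : (SR F y)ˣ := ⟨xR, star xR, Subtype.ext hxS', Subtype.ext hxS⟩
  let gu : (SR F y)ˣ := ⟨⟨g, hg3⟩, ⟨g', hg4⟩, Subtype.ext hg1, Subtype.ext hg2⟩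
  have hgx : gu * xu * gu⁻¹ = xu ^ j := by
    rw [mul_inv_eq_iff_eq_mul]
    apply Units.ext
    apply Subtype.ext
    show g * x = _
    rw [hg5]
    simp only [Units.val_mul, Units.val_pow_eq_pow_val, Subring.coe_mul, SubmonoidClass.coe_pow]
    rfl
  have h2 : (2 : SR F y) = 0 := by
    have h3 : (1 : SR F y) + 1 = 0 := by
      apply Subtype.ext
      show (1 : Matrix I I F) + 1 = 0
      ext i j
      rw [Matrix.add_apply, CharTwo.add_self_eq_zero]
      rfl
    rw [← h3]
    norm_num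
  let cR : SR F y := ⟨Matrix.diagonal c, by
    intro i j hij
    rw [Matrix.diagonal_apply_ne _ (fun h => hij (congrArg y h))]⟩
  have hcomm : ∀ z : SR F y, Commute z (xu : SR F y) → Commute z cR := by
    intro z _
    apply Subtype.ext
    show z.1 * Matrix.diagonal c = Matrix.diagonal c * z.1
    ext i j
    rw [Matrix.mul_diagonal, Matrix.diagonal_mul]
    by_cases h : y i = y j
    · rw [hcy i j h, mul_comm]
    · rw [z.2 i j h, zero_mul, mul_zero]
  have hc1 : cR + star cR = 1 := by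
    apply Subtype.ext
    show Matrix.diagonal c + mst s ι (Matrix.diagonal c) = 1
    ext i j
    rw [Matrix.add_apply, mst_apply, Matrix.one_apply]
    by_cases h : i = j
    · subst h
      rw [Matrix.diagonal_apply_eq, Matrix.diagonal_apply_eq, if_pos rfl, hc]
    · rw [if_neg h, Matrix.diagonal_apply_ne _ h,
        Matrix.diagonal_apply_ne _ (fun h' => h (by rw [← hι i, ← hι j, h'])), map_zero, add_zero]
  obtain ⟨u, hu1, hu2⟩ := exists_isom h2 (x := xu) (g := gu) (j := j) (Subtype.ext hxS) hgx (c := cR) hcomm hc1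
  refine ⟨(u : SR F y).1, congrArg Subtype.val hu1, (u : SR F y).2, ?_⟩
  rw [mul_inv_eq_iff_eq_mul] at hu2
  have h3 := congrArg (fun w : (SR F y)ˣ => (w : SR F y).1) hu2
  simp only [Units.val_mul, Units.val_pow_eq_pow_val, Subring.coe_mul, SubmonoidClass.coe_pow] at h3
  exact h3

end

end LieP.PS
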