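import Pool.Agent.LieP.P14
import Pool.Agent.LieP.P15
import Pool.Agent.ParkerGL.E03

/-!
# MP_6c3636_al, LieP, module P16: OP for the Levi subgroups (section 16) (helper96)

`op_mat`: if `s` is not the identity there is `c` in `F` with `c + s c = 1` (`a` with `s a ≠ a`, `c := a / (a + s a)`): P15 `mat_isom` with the constant function `c`.
If `s` is the identity: `x` is block diagonal for `I = {y i ≠ 0} ∪ {y i = 0}`. On `{i // y i ≠ 0}`: P15 `mat_isom` with `c i = 1` if `y i > 0` and `0` if `y i < 0`. On `{i // y i = 0}`: P14 `mat_symp`. The block diagonal matrix of the two is the required matrix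
(`Matrix.fromBlocks` and `Equiv.sumCompl`, or directly by entries).
`op_levi`: the subgroup version: `H` a subgroup of the group of units whose elements are exactly the `g` with `mst s ι g * g = 1` and support in `y i = y j`.
-/

namespace LieP.PS

noncomputable section

open Classical

namespace P16_aux

variable {F : Type} [Field F] {I : Type} [Fintype I] [DecidableEq I]

/-- block diagonal matrices -/
def ds (P : I → Prop) (M : Matrix {i // P i} {i // P i} F) (N : Matrix {i // ¬ P i} {i // ¬ P i} F) :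
    Matrix I I F :=
  fun i j => if h : P i then (if h' : P j then M ⟨i, h⟩ ⟨j, h'⟩ else 0) else (if h' : P j then 0 else N ⟨i, h⟩ ⟨j, h'⟩)

variable {P : I → Prop}

theorem ds_tt (M : Matrix {i // P i} {i // P i} F) (N : Matrix {i // ¬ P i} {i // ¬ P i} F) (i j : {i // P i}) :
    ds P M N i j = M i j := by
  unfold ds
  rw [dif_pos i.2, dif_pos j.2]

theorem ds_ff (M : Matrix {i // P i} {i // P i} F) (N : Matrix {i // ¬ P i} {i // ¬ P i} F) (i j : {i // ¬ P i}) :
    ds P M N i j = N i j := by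
  unfold ds
  rw [dif_neg i.2, dif_neg j.2]

theorem ds_tf (M : Matrix {i // P i} {i // P i} F) (N : Matrix {i // ¬ P i} {i // ¬ P i} F) {i j : I} (hi : P i) (hj : ¬ P j) :
    ds P M N i j = 0 := by
  unfold ds
  rw [dif_pos hi, dif_neg hj]

theorem ds_ft (M : Matrix {i // P i} {i // P i} F) (N : Matrix {i // ¬ P i} {i // ¬ P i} F) {i j : I} (hi : ¬ P i) (hj : P j) :
    ds P M N i j = 0 := by
  unfold ds
  rw [dif_neg hi, dif_pos hj]

theorem ext_ds {x : Matrix I I F} {M : Matrix {i // P i} {i // P i} F} {N : Matrix {i // ¬ P i} {i // ¬ P i} F}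
    (h1 : ∀ i j : {i // P i}, x i j = M i j) (h2 : ∀ i j : {i // ¬ P i}, x i j = N i j)
    (h3 : ∀ i j, P i → ¬ P j → x i j = 0) (h4 : ∀ i j, ¬ P i → P j → x i j = 0) : x = ds P M N := by
  ext i j
  by_cases hi : P i
  · by_cases hj : P j
    · exact (h1 ⟨i, hi⟩ ⟨j, hj⟩).trans (ds_tt M N ⟨i, hi⟩ ⟨j, hj⟩).symm
    · rw [h3 i j hi hj, ds_tf M N hi hj]
  · by_cases hj : P j
    · rw [h4 i j hi hj, ds_ft M N hi hj]
    · exact (h2 ⟨i, hi⟩ ⟨j, hj⟩).trans (ds_ff M N ⟨i, hi⟩ ⟨j, hj⟩).symm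

theorem ds_mul (M M' : Matrix {i // P i} {i // P i} F) (N N' : Matrix {i // ¬ P i} {i // ¬ P i} F) :
    ds P M N * ds P M' N' = ds P (M * M') (N * N') := by
  refine ext_ds (fun i j => ?_) (fun i j => ?_) (fun i j hi hj => ?_) (fun i j hi hj => ?_)
  · rw [Matrix.mul_apply, Matrix.mul_apply, ← Fintype.sum_subtype_add_sum_subtype P]
    rw [Finset.sum_congr rfl fun (k : {i // P i}) _ => by rw [ds_tt, ds_tt]]
    rw [Finset.sum_eq_zero (s := (Finset.univ : Finset {i // ¬ P i})) fun (k : {i // ¬ P i}) _ => by rw [ds_tf M N i.2 k.2, zero_mul], add_zero]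
  · rw [Matrix.mul_apply, Matrix.mul_apply, ← Fintype.sum_subtype_add_sum_subtype P]
    rw [Finset.sum_congr rfl fun (k : {i // ¬ P i}) _ => by rw [ds_ff, ds_ff]]
    rw [Finset.sum_eq_zero (s := (Finset.univ : Finset {i // P i})) fun (k : {i // P i}) _ => by rw [ds_ft M N i.2 k.2, zero_mul], zero_add]
  · rw [Matrix.mul_apply]
    refine Finset.sum_eq_zero fun k _ => ?_
    by_cases hk : P k
    · rw [ds_tf M' N' hk hj, mul_zero]
    · rw [ds_tf M N hi hk, zero_mul]
  · rw [Matrix.mul_apply]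
    refine Finset.sum_eq_zero fun k _ => ?_
    by_cases hk : P k
    · rw [ds_ft M N hi hk, zero_mul]
    · rw [ds_ft M' N' hk hj, mul_zero]

theorem ds_one : ds P (1 : Matrix {i // P i} {i // P i} F) (1 : Matrix {i // ¬ P i} {i // ¬ P i} F) = 1 := by
  refine (ext_ds (fun i j => ?_) (fun i j => ?_) (fun i j hi hj => ?_) (fun i j hi hj => ?_)).symm
  · rw [Matrix.one_apply, Matrix.one_apply]
    simp only [Subtype.ext_iff]
  · rw [Matrix.one_apply, Matrix.one_apply]
    simp only [Subtype.ext_iff]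
  · rw [Matrix.one_apply_ne]
    rintro rfl
    exact hj hi
  · rw [Matrix.one_apply_ne]
    rintro rfl
    exact hi hj

theorem ds_pow (M : Matrix {i // P i} {i // P i} F) (N : Matrix {i // ¬ P i} {i // ¬ P i} F) (j : ℕ) :
    ds P M N ^ j = ds P (M ^ j) (N ^ j) := by
  induction j with
  | zero => rw [pow_zero, pow_zero, pow_zero, ds_one]
  | succ j ih => rw [pow_succ, pow_succ, pow_succ, ih, ds_mul]

theorem ds_inj {M M' : Matrix {i // P i} {i // P i} F} {N N' : Matrix {i // ¬ P i} {i // ¬ P i} F}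
    (h : ds P M N = ds P M' N') : M = M' ∧ N = N' := by
  constructor
  · ext i j
    rw [← ds_tt M N, h, ds_tt]
  · ext i j
    rw [← ds_ff M N, h, ds_ff]

theorem mst_ds {s : F ≃+* F} {ι : I → I} (hι : ∀ i, P (ι i) ↔ P i) (M : Matrix {i // P i} {i // P i} F)
    (N : Matrix {i // ¬ P i} {i // ¬ P i} F) :
    mst s ι (ds P M N) = ds P (mst s (fun i => ⟨ι i, (hι i).2 i.2⟩) M)
      (mst s (fun i => ⟨ι i, fun h => i.2 ((hι i).1 h)⟩) N) := by
  refine ext_ds (fun i j => ?_) (fun i j => ?_) (fun i j hi hj => ?_) (fun i j hi hj => ?_)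
  · rw [mst_apply, mst_apply]
    exact congrArg s (ds_tt M N ⟨ι j, (hι j).2 j.2⟩ ⟨ι i, (hι i).2 i.2⟩)
  · rw [mst_apply, mst_apply]
    exact congrArg s (ds_ff M N ⟨ι j, fun h => j.2 ((hι j).1 h)⟩ ⟨ι i, fun h => i.2 ((hι i).1 h)⟩)
  · rw [mst_apply, ds_ft M N (fun h => hj ((hι j).1 h)) ((hι i).2 hi), map_zero]
  · rw [mst_apply, ds_tf M N ((hι j).2 hj) (fun h => hi ((hι i).1 h)), map_zero]

end P16_aux

open P16_aux

variable {F : Type} [Field F] [Finite F] [CharP F 2] {I : Type} [Fintype I] [DecidableEq I]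
  {s : F ≃+* F} {ι : I → I}

theorem op_mat (hs : ∀ a, s (s a) = a) (hι : ∀ i, ι (ι i) = i)
    (hfix : (∀ a, s a = a) → ∀ i, ι i ≠ i) {y : I → ℝ} (hy : ∀ i, y (ι i) = - y i)
    {x : Matrix I I F} (hx : mst s ι x * x = 1)
    (hsup : ∀ i i', y i ≠ y i' → x i i' = 0) {k r j : ℕ}
    (hxr : x ^ (2 ^ k * r) = 1) (hr : Odd r) (hj : Odd j) (hjr : j ≡ 1 [MOD r]) :
    ∃ g : Matrix I I F, mst s ι g * g = 1 ∧ (∀ i i', y i ≠ y i' → g i i' = 0) ∧
      g * x = x ^ j * g := by
  by_cases hsid : ∀ a, s a = a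
  · have hf := hfix hsid
    have hsr : s = RingEquiv.refl F := RingEquiv.ext hsid
    obtain ⟨P, hPy⟩ : ∃ P : I → Prop, ∀ i, P i ↔ y i ≠ 0 := ⟨fun i => y i ≠ 0, fun i => Iff.rfl⟩
    have hn : ∀ i, ¬ P i → y i = 0 := fun i hi => not_not.1 fun h => hi ((hPy i).2 h)
    have hP : ∀ i, P (ι i) ↔ P i := fun i => by rw [hPy, hPy, hy i, neg_ne_zero]
    obtain ⟨M, N, hMN⟩ : ∃ (M : Matrix {i // P i} {i // P i} F)
        (N : Matrix {i // ¬ P i} {i // ¬ P i} F), x = ds P M N := by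
      refine ⟨x.submatrix Subtype.val Subtype.val, x.submatrix Subtype.val Subtype.val,
        ext_ds (fun i j => rfl) (fun i j => rfl) (fun i j hi hj => hsup i j ?_) (fun i j hi hj => hsup i j ?_)⟩
      · rw [hn j hj]
        exact (hPy i).1 hi
      · rw [hn i hi]
        exact ((hPy j).1 hj).symm
    have h1 := hx
    rw [hMN, mst_ds hP, ds_mul, ← ds_one (P := P)] at h1
    obtain ⟨hM1, hN1⟩ := ds_inj h1
    have h2 := hxr
    rw [hMN, ds_pow, ← ds_one (P := P)] at h2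
    obtain ⟨hM2, hN2⟩ := ds_inj h2
    -- the part `y ≠ 0`
    obtain ⟨g, hg1, hg2, hg3⟩ := mat_isom (F := F) (I := {i // P i}) hs (ι := fun i => ⟨ι i, (hP i).2 i.2⟩)
      (fun i => Subtype.ext (hι i)) (y := fun i => y i) (fun i => hy i) hM1
      (fun i i' hii => by
        have h3 := hsup i i' hii
        rw [hMN, ds_tt] at h3
        exact h3) hM2 hr hj hjr (fun i => if 0 < y i then 1 else 0)
      (fun i => by
        have h3 : (y (ι i) : ℝ) = - y i := hy i
        rcases lt_or_gt_of_ne ((hPy i).1 i.2) with h | h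
        · rw [if_neg (not_lt.2 h.le), if_pos (by rw [h3]; linarith), map_one, zero_add]
        · rw [if_pos h, if_neg (by rw [h3]; linarith), map_zero, add_zero])
      (fun i i' hii => by rw [hii])
    -- the part `y = 0`
    have hN1' : mst (RingEquiv.refl F) (fun i : {i // ¬ P i} => (⟨ι i, fun h => i.2 ((hP i).1 h)⟩ : {i // ¬ P i})) N * N = 1 := by
      rw [hsr] at hN1
      exact hN1
    obtain ⟨g', hg1', hg3'⟩ := mat_symp (F := F) (I := {i // ¬ P i}) (ι := fun i => ⟨ι i, fun h => i.2 ((hP i).1 h)⟩)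
      (fun i => Subtype.ext (hι i)) (fun i h => hf i (congrArg Subtype.val h)) hN1' hN2 hr hj hjr
    refine ⟨ds P g g', ?_, fun i i' hii => ?_, ?_⟩
    · rw [mst_ds hP, ds_mul, hg1]
      have h3 : mst s (fun i : {i // ¬ P i} => (⟨ι i, fun h => i.2 ((hP i).1 h)⟩ : {i // ¬ P i})) g' * g' = 1 := by
        rw [hsr]
        exact hg1'
      rw [h3, ds_one]
    · by_cases hi : P i
      · by_cases hi' : P i'
        · exact (ds_tt g g' ⟨i, hi⟩ ⟨i', hi'⟩).trans (hg2 ⟨i, hi⟩ ⟨i', hi'⟩ hii)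
        · exact ds_tf g g' hi hi'
      · by_cases hi' : P i'
        · exact ds_ft g g' hi hi'
        · exact absurd ((hn i hi).trans (hn i' hi').symm) hii
    · rw [hMN, ds_pow, ds_mul, ds_mul, hg3, hg3']
  · push Not at hsid
    obtain ⟨a, ha⟩ := hsid
    have h0 : a + s a ≠ 0 := by
      intro h
      apply ha
      have h1 : s a = - a := by
        rw [eq_neg_iff_add_eq_zero, add_comm]
        exact h
      rw [h1, CharTwo.neg_eq]
    refine mat_isom hs hι hy hx hsup hxr hr hj hjr (fun _ => a / (a + s a)) (fun i => ?_) (fun _ _ _ => rfl)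
    rw [map_div₀, map_add, hs, add_comm (s a) a, ← add_div, div_self h0]

theorem op_levi (hs : ∀ a, s (s a) = a) (hι : ∀ i, ι (ι i) = i)
    (hfix : (∀ a, s a = a) → ∀ i, ι i ≠ i) {y : I → ℝ} (hy : ∀ i, y (ι i) = - y i)
    {H : Subgroup (Matrix I I F)ˣ}
    (hH : ∀ g : (Matrix I I F)ˣ, g ∈ H ↔ mst s ι (g : Matrix I I F) * g = 1 ∧
      ∀ i i', y i ≠ y i' → (g : Matrix I I F) i i' = 0) : ParkerGL.OP H := by
  intro x k r j hx hr hj hjr
  have h1 := (hH x).1 x.2
  have h2 : ((x : (Matrix I I F)ˣ) : Matrix I I F) ^ (2 ^ k * r) = 1 := by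
    rw [← Units.val_pow_eq_pow_val, ← Subgroup.coe_pow, hx, Subgroup.coe_one, Units.val_one]
  obtain ⟨g, hg1, hg2, hg3⟩ := op_mat hs hι hfix hy h1.1 h1.2 h2 hr hj hjr
  have hu : g * mst s ι g = 1 := mul_eq_one_comm.1 hg1
  let u : (Matrix I I F)ˣ := ⟨g, mst s ι g, hu, hg1⟩
  have hmem : u ∈ H := (hH u).2 ⟨hg1, hg2⟩
  refine ⟨⟨u, hmem⟩, ?_⟩
  rw [mul_inv_eq_iff_eq_mul]
  apply Subtype.ext
  apply Units.ext
  rw [Subgroup.coe_mul, Subgroup.coe_mul, Subgroup.coe_pow, Units.val_mul, Units.val_mul, Units.val_pow_eq_pow_val]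
  exact hg3

end

end LieP.PS
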