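import Mathlib

/-!
# MP_6c3636_al, LieP, definitions for section 16 (odd powers are conjugate) (helper96)

`Sy ω`: nondegenerate alternating form. `Iso ω x`: `x` is an isometry. `Cj ω x y`: `x` and `y` are conjugate by an isometry.
`adj ω A`: the adjoint of `A`. `rsf ω W`: the restriction of the form to `W`. `oc ω W`: the orthogonal complement.
`Fr Y a v`: `V` is free over `F[Y] / (Y ^ a)` with the basis `v`. `mst s ι A`: the involution of the matrix ring.
-/

namespace LieP.PS

noncomputable section

open Classical Polynomial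

section Forms

variable {F : Type} [Field F] {V : Type} [AddCommGroup V] [Module F V]

/-- nondegenerate alternating forms -/
structure Sy (ω : V →ₗ[F] V →ₗ[F] F) : Prop where
  alt : ∀ v, ω v v = 0
  nd : ∀ v, (∀ w, ω v w = 0) → v = 0

/-- isometries -/
def Iso (ω : V →ₗ[F] V →ₗ[F] F) (x : Module.End F V) : Prop := ∀ v w, ω (x v) (x w) = ω v w

/-- `x` and `y` are conjugate by an isometry -/
def Cj (ω : V →ₗ[F] V →ₗ[F] F) (x y : Module.End F V) : Prop :=
  ∃ g : V ≃ₗ[F] V, (∀ v w, ω (g v) (g w) = ω v w) ∧ ∀ v, g (x v) = y (g v)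

/-- the adjoint -/
def adj (ω : V →ₗ[F] V →ₗ[F] F) (A : Module.End F V) : Module.End F V :=
  if h : ∃ B : Module.End F V, ∀ v w, ω (A v) w = ω v (B w) then h.choose else 0

/-- the restriction of the form to a subspace -/
def rsf (ω : V →ₗ[F] V →ₗ[F] F) (W : Submodule F V) : W →ₗ[F] W →ₗ[F] F :=
  LinearMap.mk₂ F (fun v w => ω (v : V) (w : V))
    (fun a b c => by rw [Submodule.coe_add, map_add, LinearMap.add_apply])
    (fun r a b => by rw [Submodule.coe_smul, map_smul, LinearMap.smul_apply])
    (fun a b c => by rw [Submodule.coe_add, map_add])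
    (fun r a b => by rw [Submodule.coe_smul, map_smul])

theorem rsf_apply (ω : V →ₗ[F] V →ₗ[F] F) (W : Submodule F V) (v w : W) :
    rsf ω W v w = ω (v : V) (w : V) := rfl

/-- the orthogonal complement -/
def oc (ω : V →ₗ[F] V →ₗ[F] F) (W : Submodule F V) : Submodule F V where
  carrier := {v | ∀ w ∈ W, ω v w = 0}
  add_mem' := by
    intro a b ha hb w hw
    rw [map_add, LinearMap.add_apply, ha w hw, hb w hw, add_zero]
  zero_mem' := by
    intro w _
    rw [map_zero, LinearMap.zero_apply]
  smul_mem' := by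
    intro r a ha w hw
    rw [map_smul, LinearMap.smul_apply, ha w hw, smul_zero]

theorem mem_oc {ω : V →ₗ[F] V →ₗ[F] F} {W : Submodule F V} {v : V} :
    v ∈ oc ω W ↔ ∀ w ∈ W, ω v w = 0 := Iff.rfl

/-- `V` is free over `F[Y] / (Y ^ a)` with the basis `v` -/
structure Fr (Y : Module.End F V) (a : ℕ) {κ : Type} [Fintype κ] (v : κ → V) : Prop where
  pow : Y ^ a = 0
  span : ∀ z : V, ∃ p : κ → F[X], z = ∑ i, (aeval Y (p i)) (v i)
  free : ∀ p : κ → F[X], ∑ i, (aeval Y (p i)) (v i) = 0 → ∀ i, X ^ a ∣ p i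

end Forms

section Matrices

variable {F : Type} [Field F] {I : Type}

/-- the involution of the matrix ring -/
def mst (s : F ≃+* F) (ι : I → I) (A : Matrix I I F) : Matrix I I F :=
  Matrix.of fun i j => s (A (ι j) (ι i))

theorem mst_apply (s : F ≃+* F) (ι : I → I) (A : Matrix I I F) (i j : I) :
    mst s ι A i j = s (A (ι j) (ι i)) := rfl

end Matrices

end

end LieP.PS
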