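import Pool.Agent.LieP.Defs4
import Pool.Agent.LieP.A02
import Pool.Agent.LieP.A07
import Pool.Agent.ParkerGL.D01

/-!
# MP_6c3636_al, LieP, module Q01: fixed coefficients, descent to K (helper7)

`sg σ` is a ring automorphism of the group algebra (`σ` on the coefficients). `FxA Γ a` iff `sg σ a = a` for `σ ∈ Γ`. `dn_coeff`: `hK`. The equations for `dn` follow from those of the coefficients after `algebraMap K Ω` (injective): compare the images in `Al Ω G`
(`coeff_mul_fin`). `fx_av`, `fx_el`: rational coefficients. `fx_cen`: `Parker.Fx` of values; `φ 1` is fixed.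
-/

namespace LieP

noncomputable section

open Classical

open ParkerGL (QM Qg cl dcf FixedField)

variable {Ω : Type} [Field Ω] [IsAlgClosed Ω] [CharZero Ω] {c : Parker.Ctx Ω}
  {Γ : Subgroup (RingAut Ω)} {K : Type} [Field K] [CharZero K] [Algebra K Ω]
  {G : Type} [Group G] [Finite G] {H : Subgroup G}

theorem sg_coeff (σ : RingAut Ω) (a : Al Ω G) (g : G) : (sg σ a).coeff g = σ (a.coeff g) := by
  exact coeff_mk _ g

theorem fxA_iff {a : Al Ω G} : FxA Γ a ↔ ∀ σ ∈ Γ, sg σ a = a := by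
  constructor
  · intro h σ hσ
    refine al_ext fun g => ?_
    rw [sg_coeff]
    exact h g σ hσ
  · intro h g σ hσ
    have h1 := congrArg (fun b : Al Ω G => b.coeff g) (h σ hσ)
    simp only [sg_coeff] at h1
    exact h1

theorem sg_add (σ : RingAut Ω) (a b : Al Ω G) : sg σ (a + b) = sg σ a + sg σ b := by
  refine al_ext fun g => ?_
  rw [sg_coeff, coeff_add, coeff_add, map_add, sg_coeff, sg_coeff]

theorem sg_mul (σ : RingAut Ω) (a b : Al Ω G) : sg σ (a * b) = sg σ a * sg σ b := by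
  haveI := Fintype.ofFinite G
  refine al_ext fun g => ?_
  rw [sg_coeff, coeff_mul_fin, coeff_mul_fin, map_sum]
  refine Finset.sum_congr rfl fun x _ => ?_
  rw [map_mul, sg_coeff, sg_coeff]

theorem sg_smul (σ : RingAut Ω) (r : Ω) (a : Al Ω G) : sg σ (r • a) = σ r • sg σ a := by
  refine al_ext fun g => ?_
  rw [sg_coeff, coeff_smul, coeff_smul, map_mul, sg_coeff]

theorem sg_dl (σ : RingAut Ω) (g : G) : sg σ (dl g) = dl g := by
  refine al_ext fun x => ?_
  rw [sg_coeff, coeff_dl]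
  split_ifs
  · exact map_one σ
  · exact map_zero σ

theorem sg_st (σ : RingAut Ω) (a : Al Ω G) : sg σ (st a) = st (sg σ a) := by
  refine al_ext fun g => ?_
  rw [sg_coeff, coeff_st, coeff_st, sg_coeff]

theorem sg_mem {σ : RingAut Ω} {a : Al Ω G} (ha : a ∈ sb Ω H) : sg σ a ∈ sb Ω H := by
  intro g hg
  rw [sg_coeff, ha g hg, map_zero]

theorem sg_zero {σ : RingAut Ω} {a : Al Ω G} : sg σ a = 0 ↔ a = 0 := by
  constructor
  · intro h
    refine al_ext fun g => ?_
    have h1 := congrArg (fun b : Al Ω G => b.coeff g) h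
    simp only [sg_coeff] at h1
    have h2 : σ (a.coeff g) = 0 := h1
    exact (map_eq_zero_iff σ σ.injective).1 h2
  · rintro rfl
    refine al_ext fun g => ?_
    rw [sg_coeff]
    exact map_zero σ

theorem tr_sg (σ : RingAut Ω) (φ : G → Ω) (a : Al Ω G) : tr (fun g => σ (φ g)) (sg σ a) = σ (tr φ a) := by
  haveI := Fintype.ofFinite G
  rw [tr_fin, tr_fin, map_sum]
  refine Finset.sum_congr rfl fun x _ => ?_
  rw [map_mul, sg_coeff]

theorem fx_zero : FxA Γ (0 : Al Ω G) := by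
  exact fxA_iff.2 fun σ _ => sg_zero.2 rfl

theorem fx_one : FxA Γ (1 : Al Ω G) := by
  rw [← dl_one]
  exact fxA_iff.2 fun σ _ => sg_dl σ 1

theorem fx_dl (g : G) : FxA Γ (dl g : Al Ω G) := by
  exact fxA_iff.2 fun σ _ => sg_dl σ g

theorem fx_add {a b : Al Ω G} (ha : FxA Γ a) (hb : FxA Γ b) : FxA Γ (a + b) := by
  rw [fxA_iff] at ha hb ⊢
  intro σ hσ
  rw [sg_add, ha σ hσ, hb σ hσ]

theorem fx_sub {a b : Al Ω G} (ha : FxA Γ a) (hb : FxA Γ b) : FxA Γ (a - b) := by
  rw [fxA_iff] at ha hb ⊢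
  intro σ hσ
  have h1 : a - b = a + (-1 : Ω) • b := by rw [neg_one_smul, sub_eq_add_neg]
  rw [h1, sg_add, sg_smul, ha σ hσ, hb σ hσ, map_neg, map_one]

theorem fx_neg {a : Al Ω G} (ha : FxA Γ a) : FxA Γ (-a) := by
  have h1 : -a = 0 - a := (zero_sub a).symm
  rw [h1]
  exact fx_sub fx_zero ha

theorem fx_mul {a b : Al Ω G} (ha : FxA Γ a) (hb : FxA Γ b) : FxA Γ (a * b) := by
  rw [fxA_iff] at ha hb ⊢
  intro σ hσ
  rw [sg_mul, ha σ hσ, hb σ hσ]

theorem fx_smul {r : Ω} (hr : Parker.Fx Γ r) {a : Al Ω G} (ha : FxA Γ a) : FxA Γ (r • a) := by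
  rw [fxA_iff] at ha ⊢
  intro σ hσ
  rw [sg_smul, ha σ hσ, hr σ hσ]

theorem fx_sum {ι : Type} (s : Finset ι) {f : ι → Al Ω G} (h : ∀ i ∈ s, FxA Γ (f i)) :
    FxA Γ (∑ i ∈ s, f i) := by
  induction s using Finset.induction_on with
  | empty => exact fx_zero
  | insert i s hi ih =>
    rw [Finset.sum_insert hi]
    exact fx_add (h i (Finset.mem_insert_self i s)) (ih fun j hj => h j (Finset.mem_insert_of_mem hj))

theorem fx_st {a : Al Ω G} (ha : FxA Γ a) : FxA Γ (st a) := by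
  rw [fxA_iff] at ha ⊢
  intro σ hσ
  rw [sg_st, ha σ hσ]

theorem fx_av (H : Subgroup G) : FxA Γ (av Ω H) := by
  intro g σ _
  rw [coeff_av]
  split_ifs
  · rw [map_inv₀, map_natCast]
  · exact map_zero σ

theorem fx_el (U : Subgroup G) (l : G → ℤˣ) : FxA Γ (el Ω U l) := by
  intro g σ _
  rw [coeff_el]
  split_ifs
  · rw [map_mul, map_inv₀, map_natCast, map_intCast]
  · exact map_zero σ

theorem fx_cen (H : Subgroup G) {φ : G → Ω} (h : ∀ g, Parker.Fx Γ (φ g)) : FxA Γ (cen H φ) := by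
  intro g σ hσ
  have h1 : (cen H φ).coeff g = φ 1 * (Nat.card H : Ω)⁻¹ * φ g⁻¹ := coeff_mk _ g
  rw [h1, map_mul, map_mul, map_inv₀, map_natCast, h 1 σ hσ, h g⁻¹ σ hσ]

theorem fx_tr {φ : G → Ω} (h : ∀ g, Parker.Fx Γ (φ g)) {a : Al Ω G} (ha : FxA Γ a) :
    Parker.Fx Γ (tr φ a) := by
  intro σ hσ
  rw [← tr_sg, fxA_iff.1 ha σ hσ]
  congr 1
  exact congrArg tr (funext fun g => h g σ hσ)

theorem dn_coeff (hK : FixedField Γ K) {a : Al Ω G} (ha : FxA Γ a) (g : G) :
    algebraMap K Ω ((dn K a).coeff g) = a.coeff g := by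
  have h1 : (dn K a).coeff g = if h : ∃ y : K, algebraMap K Ω y = a.coeff g then h.choose else 0 :=
    coeff_mk _ g
  have h2 : ∃ y : K, algebraMap K Ω y = a.coeff g := (hK _).1 (ha g)
  rw [h1, dif_pos h2]
  exact h2.choose_spec

namespace Q01_aux

theorem dn_ext (hK : FixedField Γ K) {a : Al Ω G} (ha : FxA Γ a) {x : Al K G}
    (h : ∀ g, algebraMap K Ω (x.coeff g) = a.coeff g) : dn K a = x := by
  refine al_ext fun g => ?_
  apply (algebraMap K Ω).injective
  rw [dn_coeff hK ha, h g]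

end Q01_aux

theorem dn_mem {a : Al Ω G} (hK : FixedField Γ K) (ha : FxA Γ a) (h : a ∈ sb Ω H) : dn K a ∈ sb K H := by
  intro g hg
  apply (algebraMap K Ω).injective
  rw [dn_coeff hK ha, h g hg, map_zero]

theorem dn_add (hK : FixedField Γ K) {a b : Al Ω G} (ha : FxA Γ a) (hb : FxA Γ b) :
    dn K (a + b) = dn K a + dn K b := by
  refine Q01_aux.dn_ext hK (fx_add ha hb) fun g => ?_
  rw [coeff_add, coeff_add, map_add, dn_coeff hK ha, dn_coeff hK hb]

theorem dn_mul (hK : FixedField Γ K) {a b : Al Ω G} (ha : FxA Γ a) (hb : FxA Γ b) :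
    dn K (a * b) = dn K a * dn K b := by
  haveI := Fintype.ofFinite G
  refine Q01_aux.dn_ext hK (fx_mul ha hb) fun g => ?_
  rw [coeff_mul_fin, coeff_mul_fin, map_sum]
  refine Finset.sum_congr rfl fun x _ => ?_
  rw [map_mul, dn_coeff hK ha, dn_coeff hK hb]

theorem dn_smul (hK : FixedField Γ K) {a : Al Ω G} (ha : FxA Γ a) (r : K) :
    dn K (algebraMap K Ω r • a) = r • dn K a := by
  refine Q01_aux.dn_ext hK (fx_smul ((hK _).2 ⟨r, rfl⟩) ha) fun g => ?_
  rw [coeff_smul, coeff_smul, map_mul, dn_coeff hK ha]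

theorem dn_zero (hK : FixedField Γ K) : dn K (0 : Al Ω G) = 0 := by
  refine Q01_aux.dn_ext hK fx_zero fun g => ?_
  exact map_zero (algebraMap K Ω)

theorem dn_one (hK : FixedField Γ K) : dn K (1 : Al Ω G) = 1 := by
  refine Q01_aux.dn_ext hK fx_one fun g => ?_
  rw [← dl_one, ← dl_one, coeff_dl, coeff_dl]
  split_ifs
  · exact map_one _
  · exact map_zero _

theorem dn_dl (hK : FixedField Γ K) (g : G) : dn K (dl g : Al Ω G) = dl g := by
  refine Q01_aux.dn_ext hK (fx_dl g) fun x => ?_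
  rw [coeff_dl, coeff_dl]
  split_ifs
  · exact map_one _
  · exact map_zero _

theorem dn_st (hK : FixedField Γ K) {a : Al Ω G} (ha : FxA Γ a) : dn K (st a) = st (dn K a) := by
  refine Q01_aux.dn_ext hK (fx_st ha) fun g => ?_
  rw [coeff_st, coeff_st, dn_coeff hK ha]

theorem dn_eq_zero (hK : FixedField Γ K) {a : Al Ω G} (ha : FxA Γ a) : dn K a = 0 ↔ a = 0 := by
  constructor
  · intro h
    refine al_ext fun g => ?_
    rw [← dn_coeff hK ha g, h]
    exact map_zero (algebraMap K Ω)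
  · rintro rfl
    exact dn_zero hK

end

end LieP
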