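import Pool.Agent.LieP.Q01
import Pool.Agent.LieP.A09
import Pool.Agent.ParkerGL.D03
import Pool.Agent.Parker.P10
import Pool.Agent.Parker.P15

/-!
# MP_6c3636_al, LieP, module Q02: operators on quadratic modules (helper7)

`oM M a = op M.ρ (dn K a)`. `oM_mul`: `op_mul`, `dn_mul`. `oM_adj`: `op_invform`-type computation over `K` (`M.inv.inv`). `oM_trace`: the character of `M` is `∑ mM φ * φ` (`ParkerGL.D02` `QM.ch_char`: it is the character of a representation over `Ω`; `Parker` P15/P09: a character is the sum of its multiplicities times the irreducible characters);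
trace over `K` mapped to `Ω`. `oM_rank`: trace of an idempotent (characteristic `0`). `oM_zero`: for an idempotent `a` rank `0`. `oM_ker`: if `cen φ * a = 0` for all constituents `φ`, then `a` acts as zero: the trace of `x a` vanishes for all `x` in the algebra, apply it to base change; or: in the representation over `Ω` with the character of `M` the operator of `a`
is zero, and a faithful base change (`bcm` in ParkerGL D05: matrices with entries in `K`).
-/

namespace LieP

noncomputable section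

open Classical

open ParkerGL (QM Qg cl dcf FixedField)

variable {Ω : Type} [Field Ω] [IsAlgClosed Ω] [CharZero Ω] {c : Parker.Ctx Ω}
  {Γ : Subgroup (RingAut Ω)} {K : Type} [Field K] [CharZero K] [Algebra K Ω]
  {G : Type} [Group G] [Finite G] {H : Subgroup G}

namespace Q02_aux

omit [IsAlgClosed Ω] [CharZero Ω] [CharZero K] in
theorem act_bc {X : Type} [AddCommGroup X] [Module K X] [FiniteDimensional K X] {n : ℕ}
    (b : Module.Basis (Fin n) K X) {G' : Type} [Group G'] [Finite G']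
    (ρ : Representation K G' X) (s : G' → K) :
    Parker.act (ParkerGL.D02_aux.bc (Ω := Ω) b ρ) (fun g => algebraMap K Ω (s g)) =
      Matrix.toLin' ((LinearMap.toMatrix b b (Parker.act ρ s)).map (algebraMap K Ω)) := by
  have hτ : ∀ g, ParkerGL.D02_aux.bc (Ω := Ω) b ρ g =
      Matrix.toLin' ((LinearMap.toMatrix b b (ρ g)).map (algebraMap K Ω)) := fun g => rfl
  apply LinearMap.toMatrix'.injective
  rw [LinearMap.toMatrix'_toLin']
  unfold Parker.act
  rw [map_sum, map_sum]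
  ext i j
  simp only [Matrix.sum_apply, Matrix.map_apply, map_sum, map_smul, Matrix.smul_apply, hτ,
    LinearMap.toMatrix'_toLin', smul_eq_mul, map_mul]

variable (Ω) in
/-- the base change of the representation of a quadratic module -/
def tau {G' : Type} [Group G'] (M : QM K G') :
    Representation Ω G' (Fin (Module.finrank K M.X) → Ω) :=
  ParkerGL.D02_aux.bc (Module.finBasis K M.X) M.ρ

omit [IsAlgClosed Ω] [CharZero Ω] [CharZero K] in
theorem tau_char {G' : Type} [Group G'] (M : QM K G') : (tau Ω M).character = M.ch Ω := by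
  funext g
  have h1 : (tau Ω M).character g = LinearMap.trace Ω (Fin (Module.finrank K M.X) → Ω)
      (Matrix.toLin' ((LinearMap.toMatrix (Module.finBasis K M.X) (Module.finBasis K M.X)
        (M.ρ g)).map (algebraMap K Ω))) := rfl
  have h2 : M.ρ.character g = Matrix.trace (LinearMap.toMatrix (Module.finBasis K M.X)
      (Module.finBasis K M.X) (M.ρ g)) :=
    LinearMap.trace_eq_matrix_trace K (Module.finBasis K M.X) (M.ρ g)
  have h3 : M.ch Ω g = algebraMap K Ω (M.ρ.character g) := rfl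
  rw [h1, h3, h2, Matrix.trace_toLin'_eq]
  simp only [Matrix.trace, Matrix.diag_apply, Matrix.map_apply, map_sum]

theorem op_tau (hK : FixedField Γ K) (M : QM K H) {a : Al Ω G} (ha : FxA Γ a) :
    op (tau Ω M) a = Matrix.toLin' ((LinearMap.toMatrix (Module.finBasis K M.X)
      (Module.finBasis K M.X) (oM M a)).map (algebraMap K Ω)) := by
  have h1 : oM M a = Parker.act M.ρ fun h : H => (dn K a).coeff h := op_act _ _
  rw [h1, op_act]
  have h2 : (fun h : H => a.coeff h) = fun h : H => algebraMap K Ω ((dn K a).coeff h) :=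
    funext fun h => (dn_coeff hK ha h).symm
  rw [h2]
  exact act_bc _ _ _

theorem oM_zero_iff (hK : FixedField Γ K) (M : QM K H) {a : Al Ω G} (ha : FxA Γ a) :
    oM M a = 0 ↔ op (tau Ω M) a = 0 := by
  rw [op_tau hK M ha]
  constructor
  · intro h
    rw [h, map_zero]
    have h1 : (0 : Matrix (Fin (Module.finrank K M.X)) (Fin (Module.finrank K M.X)) K).map
        (algebraMap K Ω) = 0 := by
      ext i j
      simp only [Matrix.map_apply, Matrix.zero_apply, map_zero]
    rw [h1, map_zero]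
  · intro h
    have h1 := (LinearEquiv.map_eq_zero_iff Matrix.toLin').1 h
    apply (LinearEquiv.map_eq_zero_iff (LinearMap.toMatrix (Module.finBasis K M.X)
      (Module.finBasis K M.X))).1
    ext i j
    have h2 := congrFun (congrFun h1 i) j
    rw [Matrix.map_apply, Matrix.zero_apply] at h2
    rw [Matrix.zero_apply]
    exact (map_eq_zero (algebraMap K Ω)).1 h2

/-- the values of `op` on the algebra -/
theorem oM_eq (M : QM K H) (a : Al Ω G) : oM M a = op M.ρ (dn K a) := rfl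

theorem ch_sum {G' : Type} [Group G'] [Finite G'] (M : QM K G') :
    M.ch Ω = ∑ φ ∈ Parker.irr Ω G', (Parker.mul (M.ch Ω) φ : Ω) • φ := by
  have h := Parker.char_eq_sum (tau Ω M)
  rw [tau_char] at h
  exact h

omit [IsAlgClosed Ω] [CharZero Ω] [CharZero K] in
theorem mM_xt (M : QM K H) (ψ : H → Ω) : mM M (xt H ψ) = Parker.mul (M.ch Ω) ψ := by
  have h : (fun h : H => xt H ψ h) = ψ := funext fun h => by
    rw [xt, dif_pos h.2]
  rw [mM, h]

theorem sum_ir {N : Type} [AddCommMonoid N] (f : (G → Ω) → N) :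
    ∑ φ ∈ ir Ω H, f φ = ∑ ψ ∈ Parker.irr Ω H, f (xt H ψ) := by
  rw [ir, Finset.sum_image fun x _ y _ h => xt_injective h]

theorem tr_xt_ch (M : QM K H) (a : Al Ω G) :
    tr (xt H (M.ch Ω)) a = ∑ φ ∈ ir Ω H, (mM M φ : Ω) * tr φ a := by
  have _ := Fintype.ofFinite G
  have h1 : ∀ φ : G → Ω, tr φ a = ∑ g : G, a.coeff g * φ g := by
    intro φ
    exact Finsupp.sum_fintype a.coeff (fun g c => c * φ g) fun g => zero_mul _
  have h2 : ∀ g : G, xt H (M.ch Ω) g = ∑ φ ∈ ir Ω H, (mM M φ : Ω) * φ g := by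
    intro g
    rw [sum_ir]
    by_cases hg : g ∈ H
    · rw [xt_apply _ hg]
      have h3 := congrFun (ch_sum (Ω := Ω) M) ⟨g, hg⟩
      rw [Finset.sum_apply] at h3
      rw [h3]
      refine Finset.sum_congr rfl fun ψ _ => ?_
      rw [mM_xt, xt_apply _ hg, Pi.smul_apply, smul_eq_mul]
    · rw [xt, dif_neg hg]
      symm
      refine Finset.sum_eq_zero fun ψ _ => ?_
      rw [xt, dif_neg hg, mul_zero]
  rw [h1]
  simp only [h1, h2, Finset.mul_sum]
  rw [Finset.sum_comm]
  refine Finset.sum_congr rfl fun φ _ => Finset.sum_congr rfl fun g _ => ?_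
  ring

/-- the trace of the operators in the base change -/
theorem trace_tau (M : QM K H) {a : Al Ω G} (ha : a ∈ sb Ω H) :
    LinearMap.trace Ω _ (op (tau Ω M) a) = ∑ φ ∈ ir Ω H, (mM M φ : Ω) * tr φ a := by
  rw [op_trace _ ha, tau_char, tr_xt_ch M a]

/-- the operator of the central idempotent -/
theorem op_cen (M : QM K H) (ψ : H → Ω) :
    op (tau Ω M) (cen H (xt H ψ)) = Parker.act (tau Ω M) (Parker.es ψ) := by
  rw [op_act]
  congr 1
  funext h
  show xt H ψ 1 * (Nat.card H : Ω)⁻¹ * xt H ψ (h : G)⁻¹ = _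
  rw [xt_apply ψ H.one_mem, xt_apply ψ (H.inv_mem h.2)]
  rfl

end Q02_aux

theorem oM_one (hK : FixedField Γ K) (M : QM K H) : oM M (1 : Al Ω G) = 1 := by
  rw [oM, dn_one hK, op_one]

theorem oM_zero' (hK : FixedField Γ K) (M : QM K H) : oM M (0 : Al Ω G) = 0 := by
  rw [oM, dn_zero hK, map_zero]

theorem oM_dl (hK : FixedField Γ K) (M : QM K H) {g : G} (hg : g ∈ H) :
    oM M (dl g : Al Ω G) = M.ρ ⟨g, hg⟩ := by
  rw [oM, dn_dl hK, op_dl _ hg]

theorem oM_add (hK : FixedField Γ K) (M : QM K H) {a b : Al Ω G} (ha : FxA Γ a) (hb : FxA Γ b) :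
    oM M (a + b) = oM M a + oM M b := by
  rw [oM, dn_add hK ha hb, map_add]
  rfl

theorem oM_sum (hK : FixedField Γ K) (M : QM K H) {ι : Type} (s : Finset ι) {f : ι → Al Ω G}
    (h : ∀ i ∈ s, FxA Γ (f i)) : oM M (∑ i ∈ s, f i) = ∑ i ∈ s, oM M (f i) := by
  induction s using Finset.induction_on with
  | empty => rw [Finset.sum_empty, Finset.sum_empty, oM_zero' hK]
  | insert i s hi ih =>
    rw [Finset.sum_insert hi, Finset.sum_insert hi,
      oM_add hK M (h i (Finset.mem_insert_self i s))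
        (fx_sum s fun j hj => h j (Finset.mem_insert_of_mem hj)),
      ih fun j hj => h j (Finset.mem_insert_of_mem hj)]

theorem oM_smul (hK : FixedField Γ K) (M : QM K H) {a : Al Ω G} (ha : FxA Γ a) (r : K) :
    oM M (algebraMap K Ω r • a) = r • oM M a := by
  rw [oM, dn_smul hK ha, map_smul]
  rfl

theorem oM_mul (hK : FixedField Γ K) (M : QM K H) {a b : Al Ω G} (ha : FxA Γ a) (hb : FxA Γ b)
    (ha' : a ∈ sb Ω H) (hb' : b ∈ sb Ω H) : oM M (a * b) = oM M a * oM M b := by
  rw [oM, dn_mul hK ha hb, op_mul _ (dn_mem hK ha ha') (dn_mem hK hb hb')]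
  rfl

theorem oM_adj (hK : FixedField Γ K) (M : QM K H) {a : Al Ω G} (ha : FxA Γ a) (ha' : a ∈ sb Ω H)
    (x y : M.X) : M.B (oM M a x) y = M.B x (oM M (st a) y) := by
  rw [oM, oM, dn_st hK ha]
  exact op_invform _ M.inv.inv (dn_mem hK ha ha') x y

theorem ch_eq (M : QM K H) (g : H) : M.ch Ω g = ∑ φ ∈ ir Ω H, (mM M φ : Ω) * φ g := by
  have h3 := congrFun (Q02_aux.ch_sum (Ω := Ω) M) g
  rw [Finset.sum_apply] at h3
  rw [h3, Q02_aux.sum_ir]
  refine Finset.sum_congr rfl fun ψ _ => ?_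
  rw [Q02_aux.mM_xt, xt_apply _ g.2, Pi.smul_apply, smul_eq_mul]

theorem mM_of {M : QM K H} {φ : G → Ω} (hφ : φ ∈ ir Ω H) {m : ℕ}
    (h : ∀ g : H, M.ch Ω g = m * φ g) : mM M φ = m ∧ ∀ ψ ∈ ir Ω H, ψ ≠ φ → mM M ψ = 0 := by
  obtain ⟨φ', hφ', rfl⟩ := ir_iff.1 hφ
  have hk : (Q02_aux.tau Ω M).character = ∑ ψ ∈ Parker.irr Ω H,
      (((if ψ = φ' then m else 0 : ℕ)) : Ω) • ψ := by
    rw [Q02_aux.tau_char]
    funext g
    rw [h g, Finset.sum_apply, Finset.sum_eq_single φ']
    · rw [if_pos rfl, Pi.smul_apply, smul_eq_mul, xt_apply _ g.2]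
    · intro ψ _ hne
      rw [if_neg hne, Nat.cast_zero, zero_smul]
      rfl
    · intro h'
      exact absurd hφ' h'
  have h1 : ∀ ψ ∈ Parker.irr Ω H, mM M (xt H ψ) = if ψ = φ' then m else 0 := by
    intro ψ hψ
    rw [Q02_aux.mM_xt]
    have h2 := Parker.P09_aux.mult_eq (Q02_aux.tau Ω M)
      (k := fun ψ => if ψ = φ' then m else 0) hk hψ
    rw [Q02_aux.tau_char] at h2
    exact h2.symm
  refine ⟨?_, ?_⟩
  · rw [h1 φ' hφ', if_pos rfl]
  · intro ψ hψ hne
    obtain ⟨ψ', hψ', rfl⟩ := ir_iff.1 hψ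
    rw [h1 ψ' hψ', if_neg]
    rintro rfl
    exact hne rfl

theorem ch_of_mM {M : QM K H} {φ : G → Ω} (hφ : φ ∈ ir Ω H)
    (h : ∀ ψ ∈ ir Ω H, ψ ≠ φ → mM M ψ = 0) (g : H) : M.ch Ω g = mM M φ * φ g := by
  rw [ch_eq, Finset.sum_eq_single φ]
  · intro ψ hψ hne
    rw [h ψ hψ hne, Nat.cast_zero, zero_mul]
  · intro h'
    exact absurd hφ h'

theorem mM_dual (M : QM K H) {φ : G → Ω} (hφ : φ ∈ ir Ω H) : mM M (fun g => φ g⁻¹) = mM M φ := by
  obtain ⟨φ', hφ', rfl⟩ := ir_iff.1 hφ
  obtain ⟨τ, h1, h2, -⟩ := M.ch_char (Ω := Ω)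
  have h3 : (fun g : G => xt H φ' g⁻¹) = xt H (Parker.du φ') := by
    funext g
    by_cases hg : g ∈ H
    · rw [xt_apply _ hg, xt_apply _ (H.inv_mem hg)]
      rfl
    · rw [xt, xt, dif_neg hg, dif_neg]
      intro h
      exact hg (inv_inv g ▸ H.inv_mem h)
  rw [h3, Q02_aux.mM_xt, Q02_aux.mM_xt, ← h1]
  exact Parker.mul_du (Parker.sd_of_orth h2) hφ'

theorem oM_trace (hK : FixedField Γ K) (M : QM K H) {a : Al Ω G} (ha : FxA Γ a) (ha' : a ∈ sb Ω H) :
    algebraMap K Ω (LinearMap.trace K M.X (oM M a)) = ∑ φ ∈ ir Ω H, (mM M φ : Ω) * tr φ a := by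
  rw [← Q02_aux.trace_tau M ha', Q02_aux.op_tau hK M ha, Matrix.trace_toLin'_eq,
    LinearMap.trace_eq_matrix_trace K (Module.finBasis K M.X)]
  simp only [Matrix.trace, Matrix.diag_apply, Matrix.map_apply, map_sum]

theorem oM_rank (hK : FixedField Γ K) (M : QM K H) {a : Al Ω G} (ha : FxA Γ a) (ha' : a ∈ sb Ω H)
    (haa : a * a = a) :
    Module.finrank K (LinearMap.range (oM M a)) = ∑ φ ∈ ir Ω H, mM M φ * rk φ a := by
  have h1 : IsIdempotentElem (oM M a) := by
    show oM M a * oM M a = oM M a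
    rw [← oM_mul hK M ha ha ha' ha', haa]
  have h2 := (LinearMap.IsIdempotentElem.isProj_range _ h1).trace
  have h3 := oM_trace hK M ha ha'
  rw [h2, map_natCast] at h3
  apply Nat.cast_injective (R := Ω)
  rw [h3, Nat.cast_sum]
  refine Finset.sum_congr rfl fun φ hφ => ?_
  rw [Nat.cast_mul, rk_tr hφ ha' haa]

theorem oM_zero (hK : FixedField Γ K) (M : QM K H) {a : Al Ω G} (ha : FxA Γ a) (ha' : a ∈ sb Ω H) :
    oM M a = 0 ↔ ∀ φ ∈ ir Ω H, mM M φ ≠ 0 → cen H φ * a = 0 := by
  rw [Q02_aux.oM_zero_iff hK M ha]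
  constructor
  · intro h φ hφ hm
    have hc := cen_mem φ hφ
    refine al_ext_tr ((sb Ω H).mul_mem hc ha') fun ψ hψ x hx => ?_
    rw [mul_assoc, tr_cen hφ hψ ((sb Ω H).mul_mem ha' hx)]
    split_ifs with hψφ
    · subst hψφ
      have h1 := Q02_aux.trace_tau M (a := a * (x * cen H ψ))
        ((sb Ω H).mul_mem ha' ((sb Ω H).mul_mem hx hc))
      rw [op_mul _ ha' ((sb Ω H).mul_mem hx hc), h, zero_mul, map_zero] at h1
      rw [Finset.sum_eq_single ψ] at h1
      · have h2 : (mM M ψ : Ω) ≠ 0 := Nat.cast_ne_zero.2 hm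
        have h3 := (mul_eq_zero.1 h1.symm).resolve_left h2
        rw [← mul_assoc, ← cen_comm hψ ((sb Ω H).mul_mem ha' hx),
          tr_cen hψ hψ ((sb Ω H).mul_mem ha' hx), if_pos rfl] at h3
        exact h3
      · intro χ hχ hne
        rw [← mul_assoc, ← cen_comm hψ ((sb Ω H).mul_mem ha' hx),
          tr_cen hψ hχ ((sb Ω H).mul_mem ha' hx), if_neg hne, mul_zero]
      · intro h'
        exact absurd hψ h'
    · rfl
  · intro h
    have h1 : a = ∑ φ ∈ ir Ω H, cen H φ * a := by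
      rw [← Finset.sum_mul, sum_cen, one_mul]
    rw [h1, map_sum]
    refine Finset.sum_eq_zero fun φ hφ => ?_
    by_cases hm : mM M φ = 0
    · obtain ⟨φ', hφ', rfl⟩ := ir_iff.1 hφ
      rw [op_mul _ (cen_mem _ hφ) ha', Q02_aux.op_cen]
      have h2 : Parker.act (Q02_aux.tau Ω M) (Parker.es φ') = 0 := by
        by_contra h3
        have h4 := (Parker.idem_ne_zero_iff (Q02_aux.tau Ω M) hφ').1 h3
        rw [Q02_aux.tau_char, ← Q02_aux.mM_xt] at h4
        exact h4 hm
      rw [h2, zero_mul]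
    · rw [h φ hφ hm, map_zero]

/-- for idempotents -/
theorem oM_zero_rk (hK : FixedField Γ K) (M : QM K H) {a : Al Ω G} (ha : FxA Γ a) (ha' : a ∈ sb Ω H)
    (haa : a * a = a) : oM M a = 0 ↔ ∀ φ ∈ ir Ω H, mM M φ ≠ 0 → rk φ a = 0 := by
  rw [oM_zero hK M ha ha']
  constructor
  · intro h φ hφ hm
    exact (cen_mul_eq_zero hφ ha' haa).1 (h φ hφ hm)
  · intro h φ hφ hm
    exact (cen_mul_eq_zero hφ ha' haa).2 (h φ hφ hm)

end

end LieP
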