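import Pool.Agent.LieP.Q02

/-!
# MP_6c3636_al, LieP, module Q03: determinant classes of idempotents (helper7)

`dcA_sum`: `M.B` restricted to the range of `∑ a i` is the orthogonal sum of the ranges of the `a i` (`oM_adj`, `st (a i) = a i`); `ParkerGL.D01` `dcf_sum`. `dcA_conj`: `M.ρ n` is an isometry. `dcA_split`: `IsCompl` of the ranges, `dcf_compl`.
`dcB_trans`: `oM M θ` maps the range of `a` bijectively onto the range of `b` (inverse `q⁻¹ θ'`), and for `v = a v`, `w = a w`: `B (θ v, j θ w) = B (v, st θ * j * θ w) = u B (v, st a * j' * a w) = u B (v, j' w)`; `dcf_sim` for the forms on the ranges (nondegeneracy: hypothesis `hnd`).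
-/

namespace LieP

noncomputable section

open Classical

open ParkerGL (QM Qg cl dcf FixedField)

variable {Ω : Type} [Field Ω] [IsAlgClosed Ω] [CharZero Ω] {c : Parker.Ctx Ω}
  {Γ : Subgroup (RingAut Ω)} {K : Type} [Field K] [CharZero K] [Algebra K Ω]
  {G : Type} [Group G] [Finite G] {H : Subgroup G}

namespace Q03_aux

variable {X : Type} [AddCommGroup X] [Module K X]

theorem range_iff {P : Module.End K X} (hP : P * P = P) {x : X} :
    x ∈ LinearMap.range P ↔ P x = x := by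
  constructor
  · rintro ⟨y, rfl⟩
    rw [← Module.End.mul_apply, hP]
  · intro h
    exact ⟨x, h⟩

theorem internal {ι : Type} [Fintype ι] [DecidableEq ι] (P : ι → Module.End K X)
    (h1 : ∀ i, P i * P i = P i) (h0 : ∀ i j, i ≠ j → P i * P j = 0) (hs : ∑ i, P i = 1) :
    DirectSum.IsInternal fun i => LinearMap.range (P i) := by
  have key : ∀ (j : ι) (v : DirectSum ι fun i => LinearMap.range (P i)),
      P j (DirectSum.coeLinearMap (fun i => LinearMap.range (P i)) v) = (v j : X) := by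
    intro j v
    induction v using DirectSum.induction_on with
    | zero => rw [map_zero, map_zero]; rfl
    | of i x =>
      have h2 : DirectSum.coeLinearMap (fun i => LinearMap.range (P i))
          (DirectSum.of (fun i => LinearMap.range (P i)) i x) = (x : X) :=
        DirectSum.coeLinearMap_of _ _ _
      rw [h2]
      by_cases hij : i = j
      · subst hij
        rw [DirectSum.of_eq_same]
        exact (range_iff (h1 i)).1 x.2
      · rw [DirectSum.of_eq_of_ne _ _ _ (fun h => hij h.symm)]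
        obtain ⟨y, hy⟩ := x.2
        rw [← hy, ← Module.End.mul_apply, h0 j i (fun h => hij h.symm)]
        rfl
    | add v w hv hw =>
      rw [map_add, map_add, hv, hw]
      rfl
  constructor
  · intro v w hvw
    have hvw' : DirectSum.coeLinearMap (fun i => LinearMap.range (P i)) v =
        DirectSum.coeLinearMap (fun i => LinearMap.range (P i)) w := hvw
    refine DFinsupp.ext fun i => Subtype.ext ?_
    rw [← key i v, ← key i w, hvw']
  · intro x
    refine ⟨∑ i, DirectSum.of (fun i => LinearMap.range (P i)) i ⟨P i x, ⟨x, rfl⟩⟩, ?_⟩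
    rw [map_sum]
    have h2 : ∀ i, DirectSum.coeAddMonoidHom (fun i => LinearMap.range (P i))
        (DirectSum.of (fun i => LinearMap.range (P i)) i ⟨P i x, ⟨x, rfl⟩⟩) = P i x := fun i =>
      DirectSum.coeAddMonoidHom_of _ _ _
    rw [Finset.sum_congr rfl fun i _ => h2 i, ← LinearMap.sum_apply, hs]
    rfl

/-- the class of a form on the range of an operator -/
def dA (c : Parker.Ctx Ω) (Γ : Subgroup (RingAut Ω)) [FiniteDimensional K X] (B : LinearMap.BilinForm K X)
    (P : Module.End K X) : Qg c Γ := dcf c Γ (B.restrict (LinearMap.range P))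

omit [CharZero K] [CharZero Ω] [IsAlgClosed Ω] in
theorem dcA_eq (M : QM K H) (a : Al Ω G) : dcA c Γ M a = dA c Γ M.B (oM M a) := rfl

omit [CharZero K] [CharZero Ω] [IsAlgClosed Ω] in
theorem dcB_eq (M : QM K H) (j a : Al Ω G) : dcB c Γ M j a = dA c Γ (bj M j) (oM M a) := rfl

theorem cancel_gen {A : Type} [Group A] {x y z : A} (h : x * z = y * z) : x = y := mul_right_cancel h

theorem comm_gen {A : Type} [CommGroup A] (x y : A) : x * y = y * x := mul_comm x y

theorem q_cancel {x y z : Qg c Γ} (h : x * z = y * z) : x = y := by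
  exact cancel_gen h

theorem q_comm (x y : Qg c Γ) : x * y = y * x := by
  exact comm_gen x y

theorem trans {P Q T T' : Module.End K X} (hP : P * P = P) (hQ : Q * Q = Q)
    (h1 : Q * T * P = T) (h2 : P * T' * Q = T') {q : K} (hq : q ≠ 0) (h3 : T' * T = q • P)
    (h4 : T * T' = q • Q) : ∃ e : LinearMap.range P ≃ₗ[K] LinearMap.range Q,
      ∀ v, (e v : X) = T v := by
  have hT : ∀ x, T x ∈ LinearMap.range Q := fun x => by
    rw [range_iff hQ, ← Module.End.mul_apply]
    rw [← h1, ← mul_assoc, ← mul_assoc, hQ]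
  have hT' : ∀ x, T' x ∈ LinearMap.range P := fun x => by
    rw [range_iff hP, ← Module.End.mul_apply]
    rw [← h2, ← mul_assoc, ← mul_assoc, hP]
  refine ⟨LinearEquiv.ofLinear ((T.codRestrict (LinearMap.range Q) hT).comp (LinearMap.range P).subtype)
    (q⁻¹ • (T'.codRestrict (LinearMap.range P) hT').comp (LinearMap.range Q).subtype) ?_ ?_, fun v => rfl⟩
  · ext ⟨v, hv⟩
    show T (q⁻¹ • T' v) = v
    rw [map_smul, ← Module.End.mul_apply, h4, LinearMap.smul_apply, smul_smul, inv_mul_cancel₀ hq, one_smul]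
    exact (range_iff hQ).1 hv
  · ext ⟨v, hv⟩
    show q⁻¹ • T' (T v) = v
    rw [← Module.End.mul_apply, h3, LinearMap.smul_apply, smul_smul, inv_mul_cancel₀ hq, one_smul]
    exact (range_iff hP).1 hv

theorem range_one_sub {P : Module.End K X} (hP : P * P = P) :
    LinearMap.range (1 - P) = LinearMap.ker P := by
  ext x
  rw [LinearMap.mem_ker]
  constructor
  · rintro ⟨y, rfl⟩
    rw [← Module.End.mul_apply, mul_sub, mul_one, hP, sub_self]
    rfl
  · intro h
    exact ⟨x, by rw [LinearMap.sub_apply, h, Module.End.one_apply, sub_zero]⟩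

/-- the splitting for a selfadjoint idempotent operator -/
theorem split (hK : FixedField Γ K) [FiniteDimensional K X] {B : LinearMap.BilinForm K X}
    (hB : ∀ x, (∀ y, B x y = 0) → x = 0) (hs : ∀ x y, B x y = B y x) {P : Module.End K X}
    (hP : P * P = P) (ha : ∀ x y, B (P x) y = B x (P y)) :
    dcf c Γ B = dA c Γ B P * dA c Γ B (1 - P) := by
  have hc : IsCompl (LinearMap.range P) (LinearMap.range (1 - P)) := by
    rw [range_one_sub hP]
    exact LinearMap.IsIdempotentElem.isCompl hP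
  refine ParkerGL.dcf_compl hK hc hB hs ?_
  rintro _ ⟨x, rfl⟩ _ ⟨y, rfl⟩
  rw [ha, ← Module.End.mul_apply, mul_sub, mul_one, hP, sub_self, LinearMap.zero_apply, map_zero]

end Q03_aux

open Q03_aux

theorem dcA_sq (hK : FixedField Γ K) (M : QM K H) (a : Al Ω G) :
    dcA c Γ M a * dcA c Γ M a = 1 := ParkerGL.dcf_sq hK _

theorem dcB_sq (hK : FixedField Γ K) (M : QM K H) (j a : Al Ω G) :
    dcB c Γ M j a * dcB c Γ M j a = 1 := ParkerGL.dcf_sq hK _

theorem dcA_one (hK : FixedField Γ K) (M : QM K H) : dcA c Γ M 1 = M.dc c Γ := by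
  rw [dcA_eq, oM_one hK M]
  have h1 : LinearMap.range (1 : Module.End K M.X) = ⊤ := LinearMap.range_id
  exact (ParkerGL.dcf_iso hK (LinearEquiv.ofTop _ h1) (B := M.B.restrict (LinearMap.range (1 : Module.End K M.X)))
    (B' := M.B) fun _ _ => rfl).symm

theorem dcA_zero (M : QM K H) {a : Al Ω G} (h : oM M a = 0) : dcA c Γ M a = 1 := by
  rw [dcA_eq, h]
  refine ParkerGL.dcf_finrank_zero ?_ _
  rw [LinearMap.range_zero]
  exact finrank_bot K M.X

theorem dcB_zero (M : QM K H) {j a : Al Ω G} (h : oM M a = 0) : dcB c Γ M j a = 1 := by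
  rw [dcB_eq, h]
  refine ParkerGL.dcf_finrank_zero ?_ _
  rw [LinearMap.range_zero]
  exact finrank_bot K M.X

/-- the class depends only on the operator -/
theorem dcA_congr (M : QM K H) {a b : Al Ω G} (h : oM M a = oM M b) : dcA c Γ M a = dcA c Γ M b := by
  rw [dcA_eq, dcA_eq, h]

theorem dcB_congr (M : QM K H) {j a b : Al Ω G} (h : oM M a = oM M b) :
    dcB c Γ M j a = dcB c Γ M j b := by
  rw [dcB_eq, dcB_eq, h]

theorem dcA_sum (hK : FixedField Γ K) (M : QM K H) {ι : Type} (s : Finset ι) {a : ι → Al Ω G}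
    (h : ∀ i ∈ s, CutH Γ H ⊥ (a i)) (horth : ∀ i ∈ s, ∀ j ∈ s, i ≠ j → a i * a j = 0) :
    dcA c Γ M (∑ i ∈ s, a i) = ∏ i ∈ s, dcA c Γ M (a i) := by
  have hsum : oM M (∑ i ∈ s, a i) = ∑ i ∈ s, oM M (a i) := oM_sum hK M s fun i hi => (h i hi).fx
  have hid : ∀ i ∈ s, oM M (a i) * oM M (a i) = oM M (a i) := fun i hi => by
    rw [← oM_mul hK M (h i hi).fx (h i hi).fx (h i hi).mem (h i hi).mem, (h i hi).idem]
  have hor : ∀ i ∈ s, ∀ j ∈ s, i ≠ j → oM M (a i) * oM M (a j) = 0 := fun i hi j hj hij => by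
    rw [← oM_mul hK M (h i hi).fx (h j hj).fx (h i hi).mem (h j hj).mem, horth i hi j hj hij, oM_zero' hK M]
  have hadj : ∀ i ∈ s, ∀ x y, M.B (oM M (a i) x) y = M.B x (oM M (a i) y) := fun i hi x y => by
    rw [oM_adj hK M (h i hi).fx (h i hi).mem, (h i hi).st]
  set S : Module.End K M.X := ∑ i ∈ s, oM M (a i) with hS
  have hSi : ∀ i ∈ s, S * oM M (a i) = oM M (a i) := fun i hi => by
    rw [hS, Finset.sum_mul, Finset.sum_eq_single_of_mem i hi fun j hj hji => hor j hj i hi hji, hid i hi]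
  have hiS : ∀ i ∈ s, oM M (a i) * S = oM M (a i) := fun i hi => by
    rw [hS, Finset.mul_sum, Finset.sum_eq_single_of_mem i hi fun j hj hji => hor i hi j hj hji.symm, hid i hi]
  have hSS : S * S = S := by
    conv_lhs => rw [hS, Finset.sum_mul]
    rw [Finset.sum_congr rfl hiS]
  have hadjS : ∀ x y, M.B (S x) y = M.B x (S y) := fun x y => by
    rw [hS, LinearMap.sum_apply, LinearMap.sum_apply, map_sum, map_sum, LinearMap.sum_apply]
    exact Finset.sum_congr rfl fun i hi => hadj i hi x y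
  -- first computation
  have e1 : M.dc c Γ = dcA c Γ M (∑ i ∈ s, a i) * dA c Γ M.B (1 - S) := by
    rw [dcA_eq, hsum]
    exact split hK M.inv.nondeg M.inv.symm hSS hadjS
  -- second computation
  let P : Option s → Module.End K M.X := fun o => Option.elim o (1 - S) fun i => oM M (a i)
  have hP1 : ∀ o, P o * P o = P o := by
    rintro (_ | i)
    · show (1 - S) * (1 - S) = 1 - S
      rw [mul_sub, mul_one, sub_mul, one_mul, hSS, sub_self, sub_zero]
    · exact hid i i.2
  have hP0 : ∀ o o', o ≠ o' → P o * P o' = 0 := by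
    rintro (_ | i) (_ | j) hij
    · exact absurd rfl hij
    · show (1 - S) * oM M (a j) = 0
      rw [sub_mul, one_mul, hSi j j.2, sub_self]
    · show oM M (a i) * (1 - S) = 0
      rw [mul_sub, mul_one, hiS i i.2, sub_self]
    · refine hor i i.2 j j.2 fun hh => hij ?_
      rw [Subtype.ext hh]
  have hPs : ∑ o, P o = 1 := by
    rw [Fintype.sum_option]
    show 1 - S + ∑ i : s, oM M (a i) = 1
    rw [Finset.sum_coe_sort s fun i => oM M (a i), ← hS, sub_add_cancel]
  have hPa : ∀ o x y, M.B (P o x) y = M.B x (P o y) := by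
    rintro (_ | i) x y
    · show M.B ((1 - S) x) y = M.B x ((1 - S) y)
      rw [LinearMap.sub_apply, LinearMap.sub_apply, map_sub, map_sub, LinearMap.sub_apply, hadjS]
      rfl
    · exact hadj i i.2 x y
  have e2 : M.dc c Γ = ∏ o, dA c Γ M.B (P o) := by
    refine ParkerGL.dcf_sum hK (internal P hP1 hP0 hPs) M.inv.nondeg ?_
    rintro o o' hoo _ ⟨x, rfl⟩ _ ⟨y, rfl⟩
    rw [hPa, ← Module.End.mul_apply, hP0 o o' hoo, LinearMap.zero_apply, map_zero]
  rw [Fintype.prod_option] at e2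
  have e3 : ∏ i : s, dA c Γ M.B (P (some i)) =
      ∏ i ∈ s, dcA c Γ M (a i) := Finset.prod_coe_sort s fun i => dcA c Γ M (a i)
  rw [e3, q_comm] at e2
  refine q_cancel (z := dA c Γ M.B (1 - S)) ?_
  rw [← e1]
  exact e2

theorem dcA_split (hK : FixedField Γ K) (M : QM K H) {a : Al Ω G} (h : CutH Γ H ⊥ a) :
    M.dc c Γ = dcA c Γ M a * dcA c Γ M (1 - a) := by
  have h1 : oM M a * oM M a = oM M a := by rw [← oM_mul hK M h.fx h.fx h.mem h.mem, h.idem]
  have h2 : oM M (1 - a) = 1 - oM M a := by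
    have h3 := oM_add hK M h.fx (fx_sub fx_one h.fx)
    rw [add_sub_cancel, oM_one hK M] at h3
    rw [h3, add_sub_cancel_left]
  rw [dcA_eq, dcA_eq, h2]
  refine split hK M.inv.nondeg M.inv.symm h1 fun x y => ?_
  rw [oM_adj hK M h.fx h.mem, h.st]

theorem dcA_conj (hK : FixedField Γ K) (M : QM K H) {a : Al Ω G} (h : CutH Γ H ⊥ a) {n : G}
    (hn : n ∈ H) : dcA c Γ M (dl n * a * dl n⁻¹) = dcA c Γ M a := by
  have hm1 : (dl n : Al Ω G) ∈ sb Ω H := dl_mem.2 hn
  have hm2 : (dl n⁻¹ : Al Ω G) ∈ sb Ω H := dl_mem.2 (H.inv_mem hn)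
  have hb : oM M (dl n * a * dl n⁻¹) = M.ρ ⟨n, hn⟩ * oM M a * M.ρ ⟨n⁻¹, H.inv_mem hn⟩ := by
    rw [oM_mul hK M (fx_mul (fx_dl n) h.fx) (fx_dl n⁻¹) ((sb Ω H).mul_mem hm1 h.mem) hm2,
      oM_mul hK M (fx_dl n) h.fx hm1 h.mem, oM_dl hK M hn, oM_dl hK M (H.inv_mem hn)]
  have hid : oM M a * oM M a = oM M a := by rw [← oM_mul hK M h.fx h.fx h.mem h.mem, h.idem]
  have hr1 : M.ρ ⟨n⁻¹, H.inv_mem hn⟩ * M.ρ ⟨n, hn⟩ = 1 := by
    rw [← map_mul]
    have : (⟨n⁻¹, H.inv_mem hn⟩ : H) * ⟨n, hn⟩ = 1 := Subtype.ext (inv_mul_cancel n)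
    rw [this, map_one]
  set P := oM M a with hP
  set R := M.ρ ⟨n, hn⟩ with hR
  set R' := M.ρ ⟨n⁻¹, H.inv_mem hn⟩ with hR'
  have hQ : R * P * R' * (R * P * R') = R * P * R' := by
    rw [show R * P * R' * (R * P * R') = R * P * (R' * R) * P * R' by simp only [mul_assoc], hr1, mul_one,
      mul_assoc R P P, hid]
  obtain ⟨e, he⟩ := trans (P := P) (Q := R * P * R') (T := R * P) (T' := P * R') hid hQ
    (by rw [show R * P * R' * (R * P) * P = R * P * (R' * R) * P * P by simp only [mul_assoc], hr1, mul_one,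
      mul_assoc R P P, hid, mul_assoc R P P, hid])
    (by rw [show P * (P * R') * (R * P * R') = P * P * (R' * R) * P * R' by simp only [mul_assoc], hr1, mul_one,
      hid, hid])
    (q := 1) one_ne_zero
    (by rw [one_smul, show P * R' * (R * P) = P * (R' * R) * P by simp only [mul_assoc], hr1, mul_one, hid])
    (by rw [one_smul, show R * P * (P * R') = R * (P * P) * R' by simp only [mul_assoc], hid])
  rw [dcA_eq, dcA_eq, hb]
  refine ParkerGL.dcf_iso hK e fun x y => ?_
  show M.B (e x : M.X) (e y : M.X) = M.B (x : M.X) (y : M.X)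
  rw [he, he, Module.End.mul_apply, Module.End.mul_apply, (range_iff hid).1 x.2, (range_iff hid).1 y.2]
  exact M.inv.inv _ _ _

theorem dcB_trans (hK : FixedField Γ K) (M : QM K H) {a b θ θ' j j' : Al Ω G} (ha : FxA Γ a)
    (hb : FxA Γ b) (hθ : FxA Γ θ) (hθ' : FxA Γ θ') (hj : FxA Γ j) (hj' : FxA Γ j')
    (ha' : a ∈ sb Ω H) (hb' : b ∈ sb Ω H) (hmθ : θ ∈ sb Ω H) (hmθ' : θ' ∈ sb Ω H) (hmj : j ∈ sb Ω H)
    (hmj' : j' ∈ sb Ω H) (haa : a * a = a) (hbb : b * b = b) (h1 : b * θ * a = θ) (h2 : a * θ' * b = θ')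
    {q u : K} (hq : q ≠ 0) (hu : u ≠ 0) (h3 : θ' * θ = algebraMap K Ω q • a)
    (h4 : θ * θ' = algebraMap K Ω q • b)
    (h5 : st θ * j * θ = algebraMap K Ω u • (st a * j' * a))
    (hnd : ∀ v ∈ LinearMap.range (oM M a), (∀ w ∈ LinearMap.range (oM M a), bj M j' v w = 0) → v = 0) :
    dcB c Γ M j b = cl c Γ (algebraMap K Ω u) ^ Module.finrank K (LinearMap.range (oM M a)) *
      dcB c Γ M j' a := by
  have mul : ∀ {x y : Al Ω G}, FxA Γ x → FxA Γ y → x ∈ sb Ω H → y ∈ sb Ω H →
      oM M (x * y) = oM M x * oM M y := fun hx hy hx' hy' => oM_mul hK M hx hy hx' hy'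
  have hP : oM M a * oM M a = oM M a := by rw [← mul ha ha ha' ha', haa]
  have hQ : oM M b * oM M b = oM M b := by rw [← mul hb hb hb' hb', hbb]
  obtain ⟨e, he⟩ := trans (P := oM M a) (Q := oM M b) (T := oM M θ) (T' := oM M θ') hP hQ
    (by rw [← mul hb hθ hb' hmθ, ← mul (fx_mul hb hθ) ha ((sb Ω H).mul_mem hb' hmθ) ha', h1])
    (by rw [← mul ha hθ' ha' hmθ', ← mul (fx_mul ha hθ') hb ((sb Ω H).mul_mem ha' hmθ') hb', h2])
    hq (by rw [← mul hθ' hθ hmθ' hmθ, h3, oM_smul hK M ha]) (by rw [← mul hθ hθ' hmθ hmθ', h4, oM_smul hK M hb])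
  unfold dcB
  refine ParkerGL.dcf_sim hK e (B := (bj M j').restrict (LinearMap.range (oM M a))) (fun x hx => ?_) hu fun x y => ?_
  · exact Subtype.ext (hnd x x.2 fun w hw => hx ⟨w, hw⟩)
  · show M.B (e x : M.X) (oM M j (e y : M.X)) = u * M.B (x : M.X) (oM M j' (y : M.X))
    rw [he, he, oM_adj hK M hθ hmθ, ← Module.End.mul_apply, ← Module.End.mul_apply, mul_assoc]
    have e1 : oM M (st θ) * (oM M j * oM M θ) = u • (oM M (st a) * (oM M j' * oM M a)) := by
      rw [← mul_assoc, ← mul_assoc, ← mul (fx_st hθ) hj (st_mem.2 hmθ) hmj,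
        ← mul (fx_mul (fx_st hθ) hj) hθ ((sb Ω H).mul_mem (st_mem.2 hmθ) hmj) hmθ, h5,
        oM_smul hK M (fx_mul (fx_mul (fx_st ha) hj') ha),
        mul (fx_mul (fx_st ha) hj') ha ((sb Ω H).mul_mem (st_mem.2 ha') hmj') ha',
        mul (fx_st ha) hj' (st_mem.2 ha') hmj']
    rw [e1, LinearMap.smul_apply, map_smul, smul_eq_mul, Module.End.mul_apply, Module.End.mul_apply,
      ← oM_adj hK M ha ha', (range_iff hP).1 x.2, (range_iff hP).1 y.2]

/-- scaling of `j` -/
theorem dcB_smul (hK : FixedField Γ K) (M : QM K H) {a j : Al Ω G} (hj : FxA Γ j) {u : K}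
    (hu : u ≠ 0)
    (hnd : ∀ v ∈ LinearMap.range (oM M a), (∀ w ∈ LinearMap.range (oM M a), bj M j v w = 0) → v = 0) :
    dcB c Γ M (algebraMap K Ω u • j) a =
      cl c Γ (algebraMap K Ω u) ^ Module.finrank K (LinearMap.range (oM M a)) * dcB c Γ M j a := by
  unfold dcB
  refine ParkerGL.dcf_sim hK (LinearEquiv.refl K _) (B := (bj M j).restrict (LinearMap.range (oM M a)))
    (fun x hx => ?_) hu fun x y => ?_
  · exact Subtype.ext (hnd x x.2 fun w hw => hx ⟨w, hw⟩)
  · show M.B (x : M.X) (oM M (algebraMap K Ω u • j) (y : M.X)) = u * M.B (x : M.X) (oM M j (y : M.X))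
    rw [oM_smul hK M hj, LinearMap.smul_apply, map_smul, smul_eq_mul]

end

end LieP
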