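import Pool.Agent.LieP.Q03
import Pool.Agent.LieP.A09
import Pool.Agent.ParkerGL.D01
import Pool.Agent.ParkerGL.D02
import Pool.Agent.ParkerGL.D03
import Pool.Agent.Parker.P09

/-!
# MP_6c3636_al, LieP, module Q04: the module of a selfadjoint idempotent (helper7)

`cutM hK M h` is the space `range (oM M a)` with the action of `H'` and the restricted form: stability by `comm` (`oM_dl`, `oM_mul`), nondegeneracy as `a` is selfadjoint (`oM_adj`). `cutM_oM`: for `b ∈ sb Ω H'` the operator of `b` on `cutM` is the restriction of `oM M b` (linearity).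
`mM_cut`: traces: `∑_ψ mM (cutM) ψ * ψ(h) = trace (ρ(h) a) = ∑_φ mM M φ * tr φ (dl h * a)` and `tr φ (dl h * a) = ∑_ψ mt H' φ a ψ * ψ(h)` (`rk_mt`-type formula; the functions `ψ|H'` are linearly independent); or compare `rk` of a primitive idempotent `b` of type `ψ` (over `Ω`; A08, A09 `mt_prim`).
-/

namespace LieP

noncomputable section

set_option linter.unusedSectionVars false

open Classical

open ParkerGL (QM Qg cl dcf FixedField)

variable {Ω : Type} [Field Ω] [IsAlgClosed Ω] [CharZero Ω] {c : Parker.Ctx Ω}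
  {Γ : Subgroup (RingAut Ω)} {K : Type} [Field K] [CharZero K] [Algebra K Ω]
  {G : Type} [Group G] [Finite G] {H : Subgroup G}

namespace Q04_aux

theorem comm_dl (hK : FixedField Γ K) (M : QM K H) {H' : Subgroup G} {a : Al Ω G}
    (h : CutH Γ H H' a) (g : H') :
    M.ρ ⟨(g : G), h.le g.2⟩ * oM M a = oM M a * M.ρ ⟨(g : G), h.le g.2⟩ := by
  rw [← oM_dl hK M (h.le g.2), ← oM_mul hK M (fx_dl _) h.fx (dl_mem.2 (h.le g.2)) h.mem,
    h.comm g g.2, oM_mul hK M h.fx (fx_dl _) h.mem (dl_mem.2 (h.le g.2))]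

theorem stable (hK : FixedField Γ K) (M : QM K H) {H' : Subgroup G} {a : Al Ω G}
    (h : CutH Γ H H' a) (g : H') (x : M.X) (hx : x ∈ LinearMap.range (oM M a)) :
    M.ρ ⟨(g : G), h.le g.2⟩ x ∈ LinearMap.range (oM M a) := by
  obtain ⟨y, rfl⟩ := hx
  exact ⟨M.ρ ⟨(g : G), h.le g.2⟩ y,
    (congrArg (fun T : Module.End K M.X => T y) (comm_dl hK M h g)).symm⟩

theorem oM_idem (hK : FixedField Γ K) (M : QM K H) {H' : Subgroup G} {a : Al Ω G}
    (h : CutH Γ H H' a) : oM M a * oM M a = oM M a := by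
  rw [← oM_mul hK M h.fx h.fx h.mem h.mem, h.idem]

theorem fix (hK : FixedField Γ K) (M : QM K H) {H' : Subgroup G} {a : Al Ω G}
    (h : CutH Γ H H' a) (x : M.X) (hx : x ∈ LinearMap.range (oM M a)) : oM M a x = x := by
  obtain ⟨y, rfl⟩ := hx
  exact congrArg (fun T : Module.End K M.X => T y) (oM_idem hK M h)

theorem nd (hK : FixedField Γ K) (M : QM K H) {H' : Subgroup G} {a : Al Ω G}
    (h : CutH Γ H H' a) (x : M.X) (hx : x ∈ LinearMap.range (oM M a))
    (hy : ∀ y ∈ LinearMap.range (oM M a), M.B x y = 0) : x = 0 := by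
  refine M.inv.nondeg _ fun y => ?_
  rw [← fix hK M h x hx, oM_adj hK M h.fx h.mem, h.st]
  exact hy _ ⟨y, rfl⟩

theorem comm_sb {H' : Subgroup G} {a : Al Ω G} (h : CutH Γ H H' a) {b : Al Ω G} (hb : b ∈ sb Ω H') :
    a * b = b * a := by
  refine sb_induction (p := fun b => a * b = b * a) ?_ ?_ ?_ hb
  · rw [mul_zero, zero_mul]
  · intro x y hx hy
    rw [mul_add, add_mul, hx, hy]
  · intro r g hg
    rw [mul_smul_comm, smul_mul_assoc, h.comm g hg]

/-- restriction of operators to a submodule -/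
theorem op_sub {k : Type} [Field k] {X : Type} [AddCommGroup X] [Module k X] {H' : Subgroup G}
    (hH : H' ≤ H) (ρ : Representation k H X) (W : Submodule k X) (σ : Representation k H' W)
    (hσ : ∀ (g : H') (w : W), ((σ g w : W) : X) = ρ ⟨(g : G), hH g.2⟩ (w : X)) {b : Al k G}
    (hb : b ∈ sb k H') : ∀ w : W, ((op σ b w : W) : X) = op ρ b (w : X) := by
  refine sb_induction (p := fun b => ∀ w : W, ((op σ b w : W) : X) = op ρ b (w : X)) ?_ ?_ ?_ hb
  · intro w
    rw [map_zero, map_zero]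
    rfl
  · intro x y hx hy w
    rw [map_add, map_add, LinearMap.add_apply, LinearMap.add_apply, ← hx w, ← hy w]
    rfl
  · intro r g hg w
    rw [map_smul, map_smul, op_dl σ hg, op_dl ρ (hH hg), LinearMap.smul_apply,
      LinearMap.smul_apply, ← hσ ⟨g, hg⟩ w]
    rfl

/-- the class of a form on a submodule of a submodule -/
theorem dcf_sub (hK : FixedField Γ K) {X : Type} [AddCommGroup X] [Module K X]
    [FiniteDimensional K X] (W : Submodule K X) (T' : Submodule K W) (T : Submodule K X)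
    (hT : T'.map W.subtype = T) (B : LinearMap.BilinForm K X) (B' : LinearMap.BilinForm K W)
    (hB : ∀ x y : W, B' x y = B (x : X) (y : X)) :
    dcf c Γ (B'.restrict T') = dcf c Γ (B.restrict T) := by
  subst hT
  refine (ParkerGL.dcf_iso hK (Submodule.equivSubtypeMap W T') ?_).symm
  intro x y
  show B _ _ = B' _ _
  rw [hB]
  rfl

end Q04_aux

open Q04_aux

/-- the module of the selfadjoint idempotent `a` -/
def cutM (hK : FixedField Γ K) (M : QM K H) {H' : Subgroup G} {a : Al Ω G} (h : CutH Γ H H' a) : QM K H' :=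
  { X := LinearMap.range (oM M a)
    ρ :=
      { toFun := fun g => (M.ρ ⟨(g : G), h.le g.2⟩).restrict (by
          exact stable hK M h g)
        map_one' := by
          apply LinearMap.ext
          intro x
          apply Subtype.ext
          show M.ρ (1 : H) (x : M.X) = x
          rw [map_one]
          rfl
        map_mul' := by
          intro g g'
          apply LinearMap.ext
          intro x
          apply Subtype.ext
          show M.ρ (⟨(g : G), h.le g.2⟩ * ⟨(g' : G), h.le g'.2⟩ : H) (x : M.X) = M.ρ ⟨(g : G), h.le g.2⟩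
            (M.ρ ⟨(g' : G), h.le g'.2⟩ (x : M.X))
          rw [map_mul]
          rfl }
    B := M.B.restrict (LinearMap.range (oM M a))
    inv :=
      { symm := by
          intro x y
          exact M.inv.symm x y
        nondeg := by
          intro x hx
          exact Subtype.ext (nd hK M h x x.2 fun y hy => hx ⟨y, hy⟩)
        inv := by
          intro g x y
          exact M.inv.inv _ _ _ } }

theorem cutM_dc (hK : FixedField Γ K) (M : QM K H) {H' : Subgroup G} {a : Al Ω G}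
    (h : CutH Γ H H' a) : (cutM hK M h).dc c Γ = dcA c Γ M a := by
  rfl

theorem cutM_oM (hK : FixedField Γ K) (M : QM K H) {H' : Subgroup G} {a : Al Ω G}
    (h : CutH Γ H H' a) {b : Al Ω G} (hb : FxA Γ b) (hb' : b ∈ sb Ω H') (v : (cutM hK M h).X) :
    ((show LinearMap.range (oM M a) from oM (cutM hK M h) b v) : M.X) =
      oM M b ((show LinearMap.range (oM M a) from v) : M.X) := by
  exact op_sub h.le M.ρ (LinearMap.range (oM M a)) (cutM hK M h).ρ (fun g w => rfl)
    (dn_mem hK hb hb') v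

namespace Q04_aux

theorem map_range (hK : FixedField Γ K) (M : QM K H) {H' : Subgroup G} {a : Al Ω G}
    (h : CutH Γ H H' a) {b : Al Ω G} (hb : FxA Γ b) (hb' : b ∈ sb Ω H') :
    (show Submodule K (LinearMap.range (oM M a)) from LinearMap.range (oM (cutM hK M h) b)).map
      (LinearMap.range (oM M a)).subtype = LinearMap.range (oM M (a * b)) := by
  have hbH : b ∈ sb Ω H := sb_mono h.le hb'
  have e : oM M (a * b) = oM M b * oM M a := by
    rw [comm_sb h hb', oM_mul hK M hb h.fx hbH h.mem]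
  rw [e]
  apply le_antisymm
  · rintro _ ⟨_, ⟨v, rfl⟩, rfl⟩
    refine ⟨((show LinearMap.range (oM M a) from v) : M.X), ?_⟩
    have h1 := cutM_oM hK M h hb hb' v
    have h2 := fix hK M h _ (show LinearMap.range (oM M a) from v).2
    show oM M b (oM M a ((show LinearMap.range (oM M a) from v) : M.X)) = _
    rw [h2]
    exact h1.symm
  · rintro _ ⟨v, rfl⟩
    have h1 := cutM_oM hK M h hb hb' (show (cutM hK M h).X from (⟨oM M a v, ⟨v, rfl⟩⟩ :
      LinearMap.range (oM M a)))
    exact ⟨_, ⟨_, rfl⟩, h1⟩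

end Q04_aux

theorem cutM_dcA (hK : FixedField Γ K) (M : QM K H) {H' : Subgroup G} {a : Al Ω G}
    (h : CutH Γ H H' a) {b : Al Ω G} (hb : FxA Γ b) (hb' : b ∈ sb Ω H') :
    dcA c Γ (cutM hK M h) b = dcA c Γ M (a * b) := by
  exact dcf_sub hK (LinearMap.range (oM M a))
    (show Submodule K (LinearMap.range (oM M a)) from LinearMap.range (oM (cutM hK M h) b))
    (LinearMap.range (oM M (a * b))) (map_range hK M h hb hb') M.B (cutM hK M h).B
    (fun x y => rfl)

theorem cutM_dcB (hK : FixedField Γ K) (M : QM K H) {H' : Subgroup G} {a : Al Ω G}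
    (h : CutH Γ H H' a) {b j : Al Ω G} (hb : FxA Γ b) (hb' : b ∈ sb Ω H') (hj : FxA Γ j)
    (hj' : j ∈ sb Ω H') : dcB c Γ (cutM hK M h) j b = dcB c Γ M j (a * b) := by
  refine dcf_sub hK (LinearMap.range (oM M a))
    (show Submodule K (LinearMap.range (oM M a)) from LinearMap.range (oM (cutM hK M h) b))
    (LinearMap.range (oM M (a * b))) (map_range hK M h hb hb') (bj M j) (bj (cutM hK M h) j)
    (fun x y => ?_)
  have h1 := cutM_oM hK M h hj hj' y
  show M.B (x : M.X) ((show LinearMap.range (oM M a) from oM (cutM hK M h) j y) : M.X) =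
    M.B (x : M.X) (oM M j (y : M.X))
  rw [h1]

namespace Q04_aux

/-- the trace of `x a` in the representation `φ` -/
theorem tr_mt {H' : Subgroup G} {a : Al Ω G} (h : CutH Γ H H' a) {φ : G → Ω} (hφ : φ ∈ ir Ω H)
    (x : H') : tr φ (dl (x : G) * a) =
      ∑ ψ ∈ Parker.irr Ω H', (mt H' φ a (xt H' ψ) : Ω) * ψ x := by
  obtain ⟨n, ρ, hρ, hρφ, -, -, -⟩ := ir_rep hφ
  have hT : op ρ a * op ρ a = op ρ a := by rw [← op_mul ρ h.mem h.mem, h.idem]
  have hcomm : ∀ g : H', ρ ⟨(g : G), h.le g.2⟩ * op ρ a = op ρ a * ρ ⟨(g : G), h.le g.2⟩ := by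
    intro g
    rw [← op_dl ρ (h.le g.2), ← op_mul ρ (dl_mem.2 (h.le g.2)) h.mem, h.comm g g.2,
      op_mul ρ h.mem (dl_mem.2 (h.le g.2))]
  have hst : ∀ (g : H'), ∀ v ∈ LinearMap.range (op ρ a),
      ρ ⟨(g : G), h.le g.2⟩ v ∈ LinearMap.range (op ρ a) := by
    rintro g _ ⟨y, rfl⟩
    exact ⟨ρ ⟨(g : G), h.le g.2⟩ y,
      (congrArg (fun T : Module.End Ω (Fin n → Ω) => T y) (hcomm g)).symm⟩
  let σ : Representation Ω H' (LinearMap.range (op ρ a)) :=
    { toFun := fun g => (ρ ⟨(g : G), h.le g.2⟩).restrict (hst g)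
      map_one' := by
        apply LinearMap.ext
        intro x
        apply Subtype.ext
        show ρ (1 : H) (x : Fin n → Ω) = x
        rw [map_one]
        rfl
      map_mul' := by
        intro g g'
        apply LinearMap.ext
        intro x
        apply Subtype.ext
        show ρ (⟨(g : G), h.le g.2⟩ * ⟨(g' : G), h.le g'.2⟩ : H) (x : Fin n → Ω) =
          ρ ⟨(g : G), h.le g.2⟩ (ρ ⟨(g' : G), h.le g'.2⟩ (x : Fin n → Ω))
        rw [map_mul]
        rfl }
  have hchar : ∀ g : H', σ.character g = tr φ (dl (g : G) * a) := by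
    intro g
    have h1 : LinearMap.trace Ω (LinearMap.range (op ρ a))
        ((ρ ⟨(g : G), h.le g.2⟩).restrict (hst g)) =
        LinearMap.trace Ω (Fin n → Ω) (ρ ⟨(g : G), h.le g.2⟩ * op ρ a) := by
      refine ParkerGL.D03_aux.trace_sub (hst g) (fun v => ?_) ?_
      · exact hst g _ ⟨v, rfl⟩
      · rintro _ ⟨v, rfl⟩
        exact congrArg (fun T : Module.End Ω (Fin n → Ω) => T v) hT
    have h2 : σ.character g = LinearMap.trace Ω (LinearMap.range (op ρ a))
        ((ρ ⟨(g : G), h.le g.2⟩).restrict (hst g)) := rfl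
    rw [h2, h1, ← op_dl ρ (h.le g.2), ← op_mul ρ (dl_mem.2 (h.le g.2)) h.mem,
      op_trace ρ ((sb Ω H).mul_mem (dl_mem.2 (h.le g.2)) h.mem), ← hρφ]
  have _ := Fintype.ofFinite H'
  have hlin : ∀ y : Al Ω G, y ∈ sb Ω H' → tr φ (y * a) = ∑ g : H', y.coeff g * σ.character g := by
    intro y hy
    refine sb_induction (p := fun y : Al Ω G => tr φ (y * a) = ∑ g : H', y.coeff g * σ.character g)
      ?_ ?_ ?_ hy
    · rw [zero_mul, map_zero]
      exact (Finset.sum_eq_zero fun g _ => zero_mul _).symm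
    · intro y z hy hz
      rw [add_mul, map_add, hy, hz, ← Finset.sum_add_distrib]
      refine Finset.sum_congr rfl fun g _ => ?_
      rw [coeff_add, add_mul]
    · intro r g hg
      rw [smul_mul_assoc, map_smul, smul_eq_mul, Finset.sum_eq_single (⟨g, hg⟩ : H')]
      · rw [coeff_smul, coeff_dl, if_pos rfl, mul_one, hchar]
      · intro g' _ hne
        rw [coeff_smul, coeff_dl, if_neg (fun he => hne (Subtype.ext he)), mul_zero, zero_mul]
      · intro hn
        exact absurd (Finset.mem_univ _) hn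
  have hmt : ∀ ψ ∈ Parker.irr Ω H', (mt H' φ a (xt H' ψ) : Ω) = Parker.mul σ.character ψ := by
    intro ψ hψ
    have hψ' : xt H' ψ ∈ ir Ω H' := ir_iff.2 ⟨ψ, hψ, rfl⟩
    have hcen := cen_mem (xt H' ψ) hψ'
    have hac : a * cen H' (xt H' ψ) = cen H' (xt H' ψ) * a := comm_sb h hcen
    have h1 := mt_mul h.le hφ h.mem h.idem (fun b hb => comm_sb h hb) hψ'
    have hidem : a * cen H' (xt H' ψ) * (a * cen H' (xt H' ψ)) = a * cen H' (xt H' ψ) := by
      rw [mul_assoc, ← mul_assoc (cen H' (xt H' ψ)) a, ← hac, mul_assoc a, cen_idem hψ',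
        ← mul_assoc, h.idem]
    have h2 := rk_tr hφ ((sb Ω H).mul_mem h.mem (sb_mono h.le hcen)) hidem
    rw [← h1, hac, hlin _ hcen] at h2
    have h3 : ∑ g : H', (cen H' (xt H' ψ)).coeff g * σ.character g =
        (xt H' ψ 1) * Parker.ip σ.character ψ := by
      rw [Parker.ip_eq, Finset.mul_sum, Finset.mul_sum]
      refine Finset.sum_congr rfl fun g _ => ?_
      have e1 : (cen H' (xt H' ψ)).coeff (g : G) =
          xt H' ψ 1 * (Nat.card H' : Ω)⁻¹ * xt H' ψ (g : G)⁻¹ := coeff_mk _ _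
      have e2 : xt H' ψ (g : G)⁻¹ = ψ g⁻¹ := xt_apply ψ (H'.inv_mem g.2)
      rw [e1, e2]
      ring
    have h4 := ir_one hψ'
    rw [h3, ← Parker.mul_spec σ hψ, h4.1, Nat.cast_mul, mul_comm] at h2
    exact mul_left_cancel₀ (Nat.cast_ne_zero.2 h4.2.ne') h2
  rw [← hchar]
  conv_lhs => rw [Parker.char_eq_sum σ]
  rw [Finset.sum_apply]
  refine Finset.sum_congr rfl fun ψ hψ => ?_
  rw [hmt ψ hψ]
  rfl

theorem cut_ch (hK : FixedField Γ K) (M : QM K H) {H' : Subgroup G} {a : Al Ω G}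
    (h : CutH Γ H H' a) (g : H') :
    (cutM hK M h).ch Ω g = ∑ φ ∈ ir Ω H, (mM M φ : Ω) * tr φ (dl (g : G) * a) := by
  rw [← oM_trace hK M (fx_mul (fx_dl _) h.fx) ((sb Ω H).mul_mem (dl_mem.2 (h.le g.2)) h.mem),
    oM_mul hK M (fx_dl _) h.fx (dl_mem.2 (h.le g.2)) h.mem, oM_dl hK M (h.le g.2)]
  show algebraMap K Ω (LinearMap.trace K (LinearMap.range (oM M a))
    ((M.ρ ⟨(g : G), h.le g.2⟩).restrict (stable hK M h g))) = _
  congr 1
  refine ParkerGL.D03_aux.trace_sub (stable hK M h g) (fun v => ?_) ?_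
  · exact stable hK M h g _ ⟨v, rfl⟩
  · intro v hv
    exact fix hK M h v hv

end Q04_aux

theorem mM_cut (hK : FixedField Γ K) (M : QM K H) {H' : Subgroup G} {a : Al Ω G}
    (h : CutH Γ H H' a) {ψ : G → Ω} (hψ : ψ ∈ ir Ω H') :
    mM (cutM hK M h) ψ = ∑ φ ∈ ir Ω H, mM M φ * mt H' φ a ψ := by
  obtain ⟨ψ0, hψ0, rfl⟩ := ir_iff.1 hψ
  obtain ⟨τ, hτ, -, -⟩ := ParkerGL.QM.ch_char (Ω := Ω) (cutM hK M h)
  have hres : (fun x : H' => xt H' ψ0 x) = ψ0 := funext fun x => xt_apply ψ0 x.2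
  have h1 : τ.character = ∑ χ ∈ Parker.irr Ω H',
      ((∑ φ ∈ ir Ω H, mM M φ * mt H' φ a (xt H' χ) : ℕ) : Ω) • χ := by
    funext x
    rw [hτ, cut_ch hK M h, Finset.sum_apply]
    rw [Finset.sum_congr rfl fun φ hφ => by rw [tr_mt h hφ, Finset.mul_sum], Finset.sum_comm]
    refine Finset.sum_congr rfl fun χ _ => ?_
    rw [Pi.smul_apply, smul_eq_mul, Nat.cast_sum, Finset.sum_mul]
    refine Finset.sum_congr rfl fun φ _ => ?_
    rw [Nat.cast_mul, mul_assoc]
  have h2 := Parker.P09_aux.mult_eq τ h1 hψ0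
  unfold mM
  rw [hres, ← hτ]
  exact h2.symm

end

end LieP
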