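import Pool.Agent.LieP.Q04
import Pool.Agent.ParkerGL.D02
import Pool.Agent.ParkerGL.D11
import Pool.Agent.ParkerGL.E03

/-!
# MP_6c3636_al, LieP, module Q05: the constituents of odd degree (helper7)

Section 12, (12.1). `hi` is property (i) for `H`. `ParkerGL.dc_formula` with the generic `s` of `exists_generic` (D11): for a module `M` without real constituents of odd degree `M.dc = ∏_φ cl (detc φ s) ^ mul φ`. Nonreal `φ`: `φ` and its dual have the same multiplicity (`mM_dual`) and class (`detc_bar`), classes are of order two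
(`detc_fixed`, `cl_sq`). Real `φ` (of even degree): even multiplicity: `1`. Odd multiplicity `m`: the module `cutM` for `cen H φ` has the character `m φ`, so by `hi` its class is `1`, and by `dc_formula` it is `cl (detc φ s) ^ m = cl (detc φ s)`.
`dc_prod`: `1 = ∑ cen φ`; the idempotent `a = ∑_{φ real, odd} cen φ` is selfadjoint, the module of `1 - a` has no real constituents of odd degree; `dcA_split`, `dcA_sum`.
-/

namespace LieP

noncomputable section

open Classical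

open ParkerGL (QM Qg cl dcf FixedField)

variable {Ω : Type} [Field Ω] [IsAlgClosed Ω] [CharZero Ω] {c : Parker.Ctx Ω}
  {Γ : Subgroup (RingAut Ω)} {K : Type} [Field K] [CharZero K] [Algebra K Ω]
  {G : Type} [Group G] [Finite G] {H : Subgroup G}

namespace Q05_aux

omit [IsAlgClosed Ω] [CharZero Ω] [Finite G] in
theorem restr_xt (ψ : H → Ω) : (fun h : H => xt H ψ (h : G)) = ψ := by
  funext h
  show (if h' : (h : G) ∈ H then ψ ⟨(h : G), h'⟩ else 0) = ψ h
  rw [dif_pos h.2]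

theorem mM_xt (M : QM K H) (ψ : H → Ω) : mM M (xt H ψ) = Parker.mul (M.ch Ω) ψ := by
  unfold mM
  rw [restr_xt]

omit [IsAlgClosed Ω] [CharZero Ω] [Finite G] in
theorem dg_xt (ψ : H → Ω) : Parker.dg (xt H ψ) = Parker.dg ψ := by
  have h1 : xt H ψ 1 = ψ 1 := by
    show (if h' : (1 : G) ∈ H then ψ ⟨1, h'⟩ else 0) = ψ 1
    rw [dif_pos H.one_mem]
    rfl
  unfold Parker.dg
  simp only [h1]

omit [IsAlgClosed Ω] [CharZero Ω] [Finite G] in
theorem rl_xt {ψ : H → Ω} (h : Parker.du ψ = ψ) : rl (xt H ψ) := by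
  intro g
  unfold xt
  by_cases hg : g ∈ H
  · have hg' : g⁻¹ ∈ H := H.inv_mem hg
    rw [dif_pos hg, dif_pos hg']
    exact congrFun h ⟨g, hg⟩
  · have hg' : g⁻¹ ∉ H := fun h1 => hg (by simpa using H.inv_mem h1)
    rw [dif_neg hg, dif_neg hg']

omit [IsAlgClosed Ω] [CharZero Ω] [Finite G] in
theorem xt_mem {ψ : H → Ω} (h : ψ ∈ Parker.irr Ω H) : xt H ψ ∈ ir Ω H :=
  Finset.mem_image_of_mem _ h

theorem st_sum' {ι : Type} (s : Finset ι) (a : ι → Al Ω G) :
    st (∑ i ∈ s, a i) = ∑ i ∈ s, st (a i) := by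
  induction s using Finset.induction_on with
  | empty =>
    rw [Finset.sum_empty, Finset.sum_empty]
    apply al_ext
    intro g
    rw [coeff_st]
    rfl
  | insert i s hi ih => rw [Finset.sum_insert hi, Finset.sum_insert hi, st_add, ih]

theorem cut_cen (hF : ∀ φ ∈ ir Ω H, ∀ g, Parker.Fx Γ (φ g)) {φ : G → Ω} (hφ : φ ∈ ir Ω H)
    (hr : rl φ) {H' : Subgroup G} (hH : H' ≤ H) : CutH Γ H H' (cen H φ) where
  le := hH
  mem := cen_mem φ hφ
  idem := cen_idem hφ
  fx := fx_cen H (hF φ hφ)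
  st := by
    rw [st_cen]
    have h1 : (fun g => φ g⁻¹) = φ := funext hr
    rw [h1]
  comm := fun h hh => (cen_comm hφ (dl_mem.2 (hH hh))).symm

theorem cut_sum {ι : Type} (s : Finset ι) {a : ι → Al Ω G} {H' : Subgroup G} (hH : H' ≤ H)
    (h : ∀ i ∈ s, CutH Γ H H' (a i)) (ho : ∀ i ∈ s, ∀ j ∈ s, i ≠ j → a i * a j = 0) :
    CutH Γ H H' (∑ i ∈ s, a i) where
  le := hH
  mem := sum_mem fun i hi => (h i hi).mem
  idem := by
    rw [Finset.sum_mul]
    refine Finset.sum_congr rfl fun i hi => ?_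
    rw [Finset.mul_sum, Finset.sum_eq_single i]
    · exact (h i hi).idem
    · intro j hj hne
      exact ho i hi j hj (Ne.symm hne)
    · intro h1
      exact absurd hi h1
  fx := fx_sum s fun i hi => (h i hi).fx
  st := by
    rw [st_sum']
    exact Finset.sum_congr rfl fun i hi => (h i hi).st
  comm := by
    intro x hx
    rw [Finset.mul_sum, Finset.sum_mul]
    exact Finset.sum_congr rfl fun i hi => (h i hi).comm x hx

theorem cut_one_sub {a : Al Ω G} {H' : Subgroup G} (h : CutH Γ H H' a) :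
    CutH Γ H H' (1 - a) where
  le := h.le
  mem := sub_mem (one_mem _) h.mem
  idem := by
    have h1 : (1 - a) * (1 - a) = 1 - a - a + a * a := by noncomm_ring
    rw [h1, h.idem, sub_add_cancel]
  fx := fx_sub fx_one h.fx
  st := by
    have h2 : st (1 - a) + st a = st (1 : Al Ω G) := by
      rw [← st_add, sub_add_cancel]
    rw [st_one, h.st] at h2
    exact eq_sub_of_add_eq h2
  comm := by
    intro x hx
    rw [mul_sub, sub_mul, mul_one, one_mul, h.comm x hx]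

theorem cut_bot {a : Al Ω G} {H' : Subgroup G} (h : CutH Γ H H' a) : CutH Γ H ⊥ a where
  le := bot_le
  mem := h.mem
  idem := h.idem
  fx := h.fx
  st := h.st
  comm := fun x hx => h.comm x (bot_le (a := H') hx)

theorem mt_cen {χ φ ψ : G → Ω} (hχ : χ ∈ ir Ω H) (hφ : φ ∈ ir Ω H) (hψ : ψ ∈ ir Ω H) :
    mt H χ (cen H φ) ψ = if χ = φ ∧ ψ = φ then 1 else 0 := by
  unfold mt
  by_cases h : ψ = φ
  · subst h
    have h1 : rk χ (cen H ψ) = if χ = ψ then rk ψ 1 else 0 := by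
      have h2 := rk_cen hφ hχ (a := 1) (one_mem _) (one_mul _)
      rwa [mul_one] at h2
    rw [cen_idem hφ, h1]
    by_cases h2 : χ = ψ
    · rw [if_pos h2, rk_one hφ, if_pos ⟨h2, rfl⟩, Nat.div_self (ir_one hφ).2]
    · rw [if_neg h2, if_neg (fun h3 => h2 h3.1), Nat.zero_div]
  · rw [cen_mul_cen hφ hψ (Ne.symm h), rk_zero, Nat.zero_div, if_neg (fun h3 => h h3.2)]

/-- the multiplicities of the module of `cen H φ` -/
theorem mM_cen (hK : FixedField Γ K) (M : QM K H) {φ : G → Ω} (hφ : φ ∈ ir Ω H)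
    (h : CutH Γ H H (cen H φ)) {ψ : G → Ω} (hψ : ψ ∈ ir Ω H) :
    mM (cutM hK M h) ψ = if ψ = φ then mM M φ else 0 := by
  rw [mM_cut hK M h hψ]
  by_cases h1 : ψ = φ
  · rw [if_pos h1, Finset.sum_eq_single φ]
    · rw [mt_cen hφ hφ hψ, if_pos ⟨rfl, h1⟩, mul_one]
    · intro χ hχ hne
      rw [mt_cen hχ hφ hψ, if_neg (fun h3 => hne h3.1), mul_zero]
    · intro h2
      exact absurd hφ h2
  · rw [if_neg h1]
    apply Finset.sum_eq_zero
    intro χ hχ
    rw [mt_cen hχ hφ hψ, if_neg (fun h3 => h1 h3.2), mul_zero]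

/-- an even power of an element of order two -/
theorem pow_even {a : Qg c Γ} (h : a * a = 1) {m : ℕ} (hm : Even m) : a ^ m = 1 := by
  obtain ⟨k, rfl⟩ := hm
  rw [← two_mul, pow_mul, pow_two, h, one_pow]

end Q05_aux

open Q05_aux

theorem dc_noodd (hK : FixedField Γ K) (hF : ∀ φ ∈ ir Ω H, ∀ g, Parker.Fx Γ (φ g))
    (hi : ∀ φ ∈ ir Ω H, rl φ → Even (Parker.dg φ) → ∀ (M : QM K H) (m : ℕ), Odd m →
      (∀ g : H, M.ch Ω g = m * φ g) → M.dc c Γ = 1)
    (M : QM K H) (h : ∀ φ ∈ ir Ω H, rl φ → Odd (Parker.dg φ) → mM M φ = 0) : M.dc c Γ = 1 := by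
  obtain ⟨s, hs, hg⟩ := ParkerGL.exists_generic Ω H
  have hm : ∀ φ ∈ Parker.irr Ω H, Parker.mul (M.ch Ω) φ ≠ 0 →
      ¬ (Parker.du φ = φ ∧ Odd (Parker.dg φ)) := by
    rintro φ hφ hm ⟨h1, h2⟩
    apply hm
    rw [← mM_xt]
    exact h _ (xt_mem hφ) (rl_xt h1) (by rwa [dg_xt])
  have hfx : ∀ φ ∈ Parker.irr Ω H, ∀ g, Parker.Fx Γ (φ g) := by
    intro φ hφ g
    have h1 := hF _ (xt_mem hφ) g
    rwa [xt_apply φ g.2] at h1
  have hd : ∀ φ ∈ Parker.irr Ω H, Parker.mul (M.ch Ω) φ ≠ 0 →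
      Parker.detc φ (fun g => (s g : Ω)) ≠ 0 := fun φ hφ h1 => hg φ hφ (hm φ hφ h1)
  have hsq : ∀ φ ∈ Parker.irr Ω H, cl c Γ (Parker.detc φ fun g => (s g : Ω)) *
      cl c Γ (Parker.detc φ fun g => (s g : Ω)) = 1 :=
    fun φ hφ => ParkerGL.cl_sq (ParkerGL.detc_fixed hφ (hfx φ hφ) s)
  obtain ⟨τ, h1, h2, -⟩ := M.ch_char (Ω := Ω)
  have hmul : ∀ φ ∈ Parker.irr Ω H,
      Parker.mul (M.ch Ω) (Parker.du φ) = Parker.mul (M.ch Ω) φ := by
    intro φ hφ
    rw [← h1]
    exact Parker.mul_du (Parker.sd_of_orth h2) hφ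
  rw [ParkerGL.dc_formula hK M hs hd]
  refine Finset.prod_involution (fun φ _ => Parker.du φ) ?_ ?_ ?_ ?_
  · intro φ hφ
    rw [hmul φ hφ, ParkerGL.detc_bar hφ hs, ← pow_add]
    exact pow_even (hsq φ hφ) ⟨_, rfl⟩
  · intro φ hφ hne hdu
    apply hne
    rcases Nat.even_or_odd (Parker.mul (M.ch Ω) φ) with he | ho
    · exact pow_even (hsq φ hφ) he
    · have hm0 : Parker.mul (M.ch Ω) φ ≠ 0 := fun h0 => by
        rw [h0] at ho
        exact absurd ho (by decide)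
      have hev : Even (Parker.dg (xt H φ)) := by
        rw [dg_xt]
        by_contra h3
        exact hm φ hφ hm0 ⟨hdu, Nat.not_even_iff_odd.1 h3⟩
      have hφ' : xt H φ ∈ ir Ω H := xt_mem hφ
      have hr : rl (xt H φ) := rl_xt hdu
      have hcut : CutH Γ H H (cen H (xt H φ)) := cut_cen hF hφ' hr le_rfl
      let N : QM K H := cutM hK M hcut
      have hN : ∀ ψ ∈ ir Ω H, mM N ψ = if ψ = xt H φ then mM M (xt H φ) else 0 :=
        fun ψ hψ => mM_cen hK M hφ' hcut hψ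
      have hN1 : mM N (xt H φ) = Parker.mul (M.ch Ω) φ := by
        rw [hN _ hφ', if_pos rfl, mM_xt]
      have hch : ∀ g : H, N.ch Ω g = (Parker.mul (M.ch Ω) φ : Ω) * xt H φ g := by
        intro g
        rw [← hN1]
        exact ch_of_mM hφ' (fun ψ hψ hne' => by rw [hN ψ hψ, if_neg hne']) g
      have hdc : N.dc c Γ = 1 := hi _ hφ' hr hev N _ ho hch
      have hmN : ∀ ψ ∈ Parker.irr Ω H, ψ ≠ φ → Parker.mul (N.ch Ω) ψ = 0 := by
        intro ψ hψ hne'
        rw [← mM_xt, hN _ (xt_mem hψ), if_neg]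
        intro h3
        exact hne' (xt_injective h3)
      have hmN' : Parker.mul (N.ch Ω) φ = Parker.mul (M.ch Ω) φ := by
        rw [← mM_xt, hN1]
      rw [ParkerGL.dc_formula hK N hs (fun ψ hψ h3 => by
        by_cases h4 : ψ = φ
        · rw [h4]
          exact hd φ hφ hm0
        · exact absurd (hmN ψ hψ h4) h3)] at hdc
      rw [Finset.prod_eq_single φ] at hdc
      · rw [hmN'] at hdc
        exact hdc
      · intro ψ hψ hne'
        rw [hmN ψ hψ hne', pow_zero]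
      · intro h3
        exact absurd hφ h3
  · intro φ hφ
    exact Parker.du_mem_irr hφ
  · intro φ _
    exact Parker.du_du φ

theorem dc_prod (hK : FixedField Γ K) (hF : ∀ φ ∈ ir Ω H, ∀ g, Parker.Fx Γ (φ g))
    (hi : ∀ φ ∈ ir Ω H, rl φ → Even (Parker.dg φ) → ∀ (M : QM K H) (m : ℕ), Odd m →
      (∀ g : H, M.ch Ω g = m * φ g) → M.dc c Γ = 1) (M : QM K H) :
    M.dc c Γ = ∏ φ ∈ (ir Ω H).filter (fun φ => rl φ ∧ Odd (Parker.dg φ)), dcA c Γ M (cen H φ) := by
  have hcut : ∀ φ ∈ (ir Ω H).filter (fun φ => rl φ ∧ Odd (Parker.dg φ)),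
      CutH Γ H H (cen H φ) := by
    intro φ hφ
    rw [Finset.mem_filter] at hφ
    exact cut_cen hF hφ.1 hφ.2.1 le_rfl
  have horth : ∀ i ∈ (ir Ω H).filter (fun φ => rl φ ∧ Odd (Parker.dg φ)),
      ∀ j ∈ (ir Ω H).filter (fun φ => rl φ ∧ Odd (Parker.dg φ)), i ≠ j →
        cen H i * cen H j = 0 := by
    intro i hi' j hj hne
    exact cen_mul_cen (Finset.mem_filter.1 hi').1 (Finset.mem_filter.1 hj).1 hne
  have hA : CutH Γ H H (∑ φ ∈ (ir Ω H).filter (fun φ => rl φ ∧ Odd (Parker.dg φ)), cen H φ) :=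
    cut_sum _ le_rfl hcut horth
  rw [dcA_split hK M (cut_bot hA)]
  have h1 : dcA c Γ M
      (1 - ∑ φ ∈ (ir Ω H).filter (fun φ => rl φ ∧ Odd (Parker.dg φ)), cen H φ) = 1 := by
    rw [← cutM_dc hK M (cut_one_sub hA)]
    refine dc_noodd hK hF hi _ ?_
    intro ψ hψ hr ho
    rw [mM_cut hK M _ hψ]
    apply Finset.sum_eq_zero
    intro χ hχ
    have h2 : (1 - ∑ φ ∈ (ir Ω H).filter (fun φ => rl φ ∧ Odd (Parker.dg φ)), cen H φ) *
        cen H ψ = 0 := by
      rw [sub_mul, one_mul, Finset.sum_mul, Finset.sum_eq_single ψ]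
      · rw [cen_idem hψ, sub_self]
      · intro j hj hne
        exact cen_mul_cen (Finset.mem_filter.1 hj).1 hψ hne
      · intro h3
        exact absurd (Finset.mem_filter.2 ⟨hψ, hr, ho⟩) h3
    unfold mt
    rw [h2, rk_zero, Nat.zero_div, mul_zero]
  have h5 : ∀ x : Qg c Γ, x * 1 = x := fun x => by exact mul_one x
  rw [h1, h5, dcA_sum hK M _ (fun φ hφ => cut_bot (hcut φ hφ)) horth]

end

end LieP
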