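import Pool.Agent.LieP.Q04
import Pool.Agent.LieP.A10
import Pool.Agent.Parker.P11
import Pool.Agent.Parker.P12
import Pool.Agent.Parker.P29

/-!
# MP_6c3636_al, LieP, module Q06: restriction to a 2-group (12.2) (helper7)

Section 12, (12.2). `two_dc`: `U` is a `2`-group, so solvable: `Parker.of_solvable` gives (A) and (B) for it, `Parker.star` with `exists_skew_rat` (`Parker.noOdd_iff`: `M` has no real constituents of odd degree) and `dcf_skew` give the class `1` (as in ParkerGL D02 `dc_formula`: the operator of the rational skew `s` on `M`, its determinant mapped to `Ω` is the determinant on a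
representation over `Ω` with the same character, `QM.ch_char`).
`dc_two`: the idempotents `el Ω U l`, `l ∈ lins U`, are orthogonal, selfadjoint; the module of `1 - ∑ el` has no constituents of degree one with values `1, -1`, and by `exists_lin` (A10) the irreducible characters of odd degree of `U` are of this form.
`dcA_two`: the same for `cutM` (`H' = U`).
-/

namespace LieP

noncomputable section

open Classical

open ParkerGL (QM Qg cl dcf FixedField)

variable {Ω : Type} [Field Ω] [IsAlgClosed Ω] [CharZero Ω] {c : Parker.Ctx Ω}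
  {Γ : Subgroup (RingAut Ω)} {K : Type} [Field K] [CharZero K] [Algebra K Ω]
  {G : Type} [Group G] [Finite G] {H : Subgroup G}

theorem two_dc (hK : FixedField Γ K) (hO : Parker.Ok c 1 Γ) {U : Subgroup G}
    (h2 : ∀ u ∈ U, ∃ k : ℕ, u ^ (2 ^ k) = 1) (M : QM K U)
    (h : ∀ φ ∈ ir Ω U, rl φ → Odd (Parker.dg φ) → mM M φ = 0) : M.dc c Γ = 1 := by
  have hp : IsPGroup 2 U := by
    intro g
    obtain ⟨k, hk⟩ := h2 g g.2
    refine ⟨k, Subtype.ext ?_⟩
    rw [Subgroup.coe_pow, hk]
    rfl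
  haveI : Fact (Nat.Prime 2) := ⟨Nat.prime_two⟩
  haveI : Group.IsNilpotent U := hp.isNilpotent
  haveI : Group.IsSolvable U := IsNilpotent.to_isSolvable
  obtain ⟨hA, hB⟩ := Parker.of_solvable (c := c) U
  obtain ⟨τ, h1, h3, h4⟩ := M.ch_char (Ω := Ω)
  have hno : Parker.NoOdd τ := by
    rw [Parker.noOdd_iff]
    intro φ hφ hm hd
    by_contra hev
    have hodd : Odd (Parker.dg φ) := Nat.not_even_iff_odd.1 hev
    have hir : xt U φ ∈ ir Ω U := ir_iff.2 ⟨φ, hφ, rfl⟩
    have hrl : rl (xt U φ) := by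
      intro g
      by_cases hg : g ∈ U
      · rw [xt_apply φ hg, xt_apply φ (U.inv_mem hg)]
        exact congrFun hd ⟨g, hg⟩
      · have hg' : g⁻¹ ∉ U := fun h' => hg (inv_inv g ▸ U.inv_mem h')
        rw [ir_supp hir hg, ir_supp hir hg']
    have hdg : Parker.dg (xt U φ) = Parker.dg φ := by
      have e1 := (ir_one hir).1
      have e2 : (xt U φ) 1 = φ 1 := xt_apply φ U.one_mem
      unfold Parker.dg
      rw [e2]
    have hz := h _ hir hrl (hdg ▸ hodd)
    apply hm
    rw [h1]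
    have e3 : (fun x : U => xt U φ (x : G)) = φ := by
      funext x
      exact xt_apply φ x.2
    unfold mM at hz
    rw [e3] at hz
    exact hz
  obtain ⟨s, hs, hd⟩ := Parker.exists_skew_rat hno
  have hF : Parker.FxC Γ τ := by
    intro g
    rw [h1]
    exact ParkerGL.D01_aux.fx hK _
  have hsf : ∀ g, Parker.Fx Γ ((s g : ℚ) : Ω) := fun g σ _ => map_ratCast σ (s g)
  have hsk : ∀ g, (fun g => ((s g : ℚ) : Ω)) g⁻¹ = -(fun g => ((s g : ℚ) : Ω)) g := by
    intro g
    show ((s g⁻¹ : ℚ) : Ω) = -((s g : ℚ) : Ω)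
    rw [hs g, Rat.cast_neg]
  have hst := Parker.star hA hB hO h3 hF hsf hsk hd
  have hcast : (fun g => algebraMap K Ω ((s g : ℚ) : K)) = fun g => (s g : Ω) :=
    funext fun g => map_ratCast (algebraMap K Ω) (s g)
  have h5 := h4 (fun g => ((s g : ℚ) : K))
  rw [hcast] at h5
  have hdet : LinearMap.det (Parker.act M.ρ fun g => ((s g : ℚ) : K)) ≠ 0 := by
    intro h0
    rw [h0, map_zero] at h5
    exact hd h5
  have hskK : ∀ g, (fun g => ((s g : ℚ) : K)) g⁻¹ = -(fun g => ((s g : ℚ) : K)) g := by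
    intro g
    show ((s g⁻¹ : ℚ) : K) = -((s g : ℚ) : K)
    rw [hs g, Rat.cast_neg]
  have h6 : M.dc c Γ =
      cl c Γ (algebraMap K Ω (LinearMap.det (Parker.act M.ρ fun g => ((s g : ℚ) : K)))) :=
    ParkerGL.dcf_skew hK M.inv.nondeg M.inv.symm (Parker.skew_of_skew M.inv hskK) hdet
  rw [h6, ← h5]
  exact (ParkerGL.cl_eq_one hd).2 hst

namespace Q06_aux

theorem cut_el {U : Subgroup G} {l : G → ℤˣ} (hl : Lin U l) :
    CutH Γ U U (el Ω U l) where
  le := le_rfl
  mem := el_mem le_rfl l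
  idem := el_idem hl
  fx := fx_el U l
  st := st_el hl
  comm := fun h hh => by rw [dl_el hl hh, el_dl hl hh]

theorem bot {H H' : Subgroup G} {a : Al Ω G} (h : CutH Γ H H' a) : CutH Γ H ⊥ a where
  le := bot_le
  mem := h.mem
  idem := h.idem
  fx := h.fx
  st := h.st
  comm := fun x hx => h.comm x (by
    rw [Subgroup.mem_bot] at hx
    rw [hx]
    exact H'.one_mem)

theorem orth {U : Subgroup G} {l l' : G → ℤˣ} (hl : l ∈ lins U) (hl' : l' ∈ lins U)
    (hne : l ≠ l') : el Ω U l * el Ω U l' = 0 := by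
  rw [mem_lins] at hl hl'
  refine el_mul_el_ne hl.1 hl'.1 ?_
  by_contra hcon
  push Not at hcon
  apply hne
  funext g
  by_cases hg : g ∈ U
  · exact hcon g hg
  · rw [hl.2 g hg, hl'.2 g hg]

theorem sum_mul {U : Subgroup G} {l : G → ℤˣ} (hl : l ∈ lins U) :
    (∑ l' ∈ lins U, el Ω U l') * el Ω U l = el Ω U l := by
  rw [Finset.sum_mul, Finset.sum_eq_single_of_mem l hl]
  · exact el_idem (mem_lins.1 hl).1
  · intro l' hl' hne
    exact orth hl' hl hne

theorem sum_idem (U : Subgroup G) :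
    (∑ l ∈ lins U, el Ω U l) * (∑ l ∈ lins U, el Ω U l) = ∑ l ∈ lins U, el Ω U l := by
  rw [Finset.mul_sum]
  exact Finset.sum_congr rfl fun l hl => sum_mul hl

theorem cut_sum (U : Subgroup G) :
    CutH Γ U U (∑ l ∈ lins U, el Ω U l) where
  le := le_rfl
  mem := Subalgebra.sum_mem _ fun l _ => el_mem le_rfl l
  idem := sum_idem U
  fx := fx_sum _ fun l _ => fx_el U l
  st := by
    have hz : st (0 : Al Ω G) = 0 := by
      have := st_add (0 : Al Ω G) 0
      rw [add_zero] at this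
      exact left_eq_add.1 this
    have key : ∀ s : Finset (G → ℤˣ), (∀ l ∈ s, Lin U l) →
        st (∑ l ∈ s, el Ω U l) = ∑ l ∈ s, el Ω U l := by
      intro s
      induction s using Finset.induction_on with
      | empty =>
        intro _
        rw [Finset.sum_empty]
        exact hz
      | insert a s ha ih =>
        intro hs
        rw [Finset.sum_insert ha, st_add, ih (fun l hl => hs l (Finset.mem_insert_of_mem hl)),
          st_el (hs a (Finset.mem_insert_self a s))]
    exact key _ fun l hl => (mem_lins.1 hl).1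
  comm := fun h hh => by
    rw [Finset.mul_sum, Finset.sum_mul]
    refine Finset.sum_congr rfl fun l hl => ?_
    rw [dl_el (mem_lins.1 hl).1 hh, el_dl (mem_lins.1 hl).1 hh]

theorem cut_compl {H H' : Subgroup G} {a : Al Ω G} (h : CutH Γ H H' a) : CutH Γ H H' (1 - a) where
  le := h.le
  mem := Subalgebra.sub_mem _ (Subalgebra.one_mem _) h.mem
  idem := by
    rw [mul_sub, mul_one, sub_mul, one_mul, h.idem, sub_self, sub_zero]
  fx := fx_sub fx_one h.fx
  st := by
    have e : (1 : Al Ω G) - a = 1 + (-1 : Ω) • a := by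
      rw [neg_one_smul, sub_eq_add_neg]
    rw [e, st_add, st_smul, st_one, h.st]
  comm := fun x hx => by rw [mul_sub, sub_mul, mul_one, one_mul, h.comm x hx]

end Q06_aux

open Q06_aux in
theorem dc_two (hK : FixedField Γ K) (hO : Parker.Ok c 1 Γ) {U : Subgroup G}
    (h2 : ∀ u ∈ U, ∃ k : ℕ, u ^ (2 ^ k) = 1) (hsq : ∀ u ∈ U, u * u ∈ (⁅U, U⁆ : Subgroup G))
    (M : QM K U) : M.dc c Γ = ∏ l ∈ lins U, dcA c Γ M (el Ω U l) := by
  have hE := cut_sum (Γ := Γ) (Ω := Ω) U
  have hE' := cut_compl hE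
  rw [dcA_split hK M (bot hE), dcA_sum hK M (lins U) (fun l hl => bot (cut_el (mem_lins.1 hl).1))
    (fun l hl l' hl' hne => orth hl hl' hne)]
  have h1 : dcA c Γ M (1 - ∑ l ∈ lins U, el Ω U l) = 1 := by
    rw [← cutM_dc hK M hE']
    refine two_dc hK hO h2 _ ?_
    intro ψ hψ _ hodd
    rw [mM_cut hK M hE' hψ]
    refine Finset.sum_eq_zero fun φ _ => ?_
    obtain ⟨l, hl, -, hcen⟩ := exists_lin h2 hsq hψ hodd
    have h3 : (1 - ∑ l ∈ lins U, el Ω U l) * cen U ψ = 0 := by
      rw [hcen, sub_mul, one_mul, sum_mul hl, sub_self]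
    unfold mt
    rw [h3, rk_zero, Nat.zero_div, mul_zero]
  rw [h1]
  exact mul_one (∏ l ∈ lins U, dcA c Γ M (el Ω U l))

theorem dcA_two (hK : FixedField Γ K) (hO : Parker.Ok c 1 Γ) {U : Subgroup G}
    (h2 : ∀ u ∈ U, ∃ k : ℕ, u ^ (2 ^ k) = 1) (hsq : ∀ u ∈ U, u * u ∈ (⁅U, U⁆ : Subgroup G))
    (M : QM K H) {a : Al Ω G} (ha : CutH Γ H U a) :
    dcA c Γ M a = ∏ l ∈ lins U, dcA c Γ M (a * el Ω U l) := by
  rw [← cutM_dc hK M ha, dc_two hK hO h2 hsq (cutM hK M ha)]
  exact Finset.prod_congr rfl fun l _ => cutM_dcA hK M ha (fx_el U l) (el_mem le_rfl l)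

end

end LieP
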