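import Pool.Agent.LieP.Q02

/-!
# MP_6c3636_al, LieP, module Q07: quadratic modules with an irreducible character of odd degree (helper7)

Section 11, (11.5). `a` is an idempotent with fixed coefficients, of rank one on the real irreducible character `φ` of odd degree, and zero on the others. `X = {x * a' : x ∈ sb K H}`, `a' = dn K a`, with left multiplication by `H`. Its character is `φ` (trace of the operator `x ↦ g x a'` on `sb K H`; or after base change: `Ω[H] a`, `finrank_cr`, or
the character of the left ideal of a primitive idempotent). The space `a sb(Ω) (st a)` has dimension `rk φ a * rk φ (st a) = 1` (`finrank_cr`; `φ` is real), so there is `0 ≠ u = a u (st a)` with fixed coefficients (the space is defined over `K`), `st u = ± u`. Form: `B (x a', y a') = t (st (x a') * (y a') * ..)`: precisely `B(x,y) = t (u' * st x * y)`, `u' = dn K u` with `u' = a' u' (st a')`;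
it is invariant, nondegenerate on `X` (`t (u' st x y) = 0` for all `y = y a'` gives `a' u' st x = 0`...; `u' st x ≠ 0` for `0 ≠ x = x a'` as the representation `φ` is faithful on the block), `B(y,x) = ± B(x,y)` with the sign of `st u = ± u`; a nondegenerate skew form does not exist on a space of odd dimension `dg φ`, so the sign is `+`.
-/

namespace LieP

noncomputable section

open Classical

open ParkerGL (QM Qg cl dcf FixedField)

variable {Ω : Type} [Field Ω] [IsAlgClosed Ω] [CharZero Ω] {c : Parker.Ctx Ω}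
  {Γ : Subgroup (RingAut Ω)} {K : Type} [Field K] [CharZero K] [Algebra K Ω]
  {G : Type} [Group G] [Finite G] {H : Subgroup G}

namespace Q07_aux

attribute [local instance] Classical.propDecidable

section
variable {k : Type} [Field k] {G : Type} [Group G] [Finite G] {H : Subgroup G}

set_option linter.unusedSectionVars false

/-- the coefficient functional -/
def cf (g : G) : Al k G →ₗ[k] k where
  toFun a := a.coeff g
  map_add' _ _ := rfl
  map_smul' r a := by
    rw [coeff_smul]
    rfl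

theorem fin_al : Module.Finite k (Al k G) :=
  Module.Finite.equiv (MonoidAlgebra.coeffLinearEquiv (M := G) (S := k) k).symm

attribute [local instance] fin_al

theorem cf_sum {ι : Type} (s : Finset ι) (f : ι → Al k G) (g : G) :
    (∑ i ∈ s, f i).coeff g = ∑ i ∈ s, (f i).coeff g := map_sum (cf (k := k) g) f s

/-- the operator -/
def TT (H : Subgroup G) [Fintype H] (a b : Al k G) : Module.End k (Al k G) :=
  ∑ g : H, (cf (g : G)).smulRight (a * dl (g : G) * b)

theorem TT_apply [Fintype H] (a b x : Al k G) :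
    TT H a b x = a * (∑ g : H, x.coeff g • dl (g : G)) * b := by
  unfold TT
  rw [LinearMap.sum_apply, Finset.mul_sum, Finset.sum_mul]
  refine Finset.sum_congr rfl fun g _ => ?_
  rw [LinearMap.smulRight_apply, mul_smul_comm, smul_mul_assoc]
  rfl

theorem sum_mem [Fintype H] (x : Al k G) : (∑ g : H, x.coeff g • dl (g : G)) ∈ sb k H := by
  refine Subalgebra.sum_mem _ fun g _ => ?_
  exact Subalgebra.smul_mem _ (dl_mem.2 g.2) _

theorem sum_self [Fintype H] {x : Al k G} (hx : x ∈ sb k H) :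
    (∑ g : H, x.coeff g • dl (g : G)) = x := by
  apply al_ext
  intro g
  rw [cf_sum]
  by_cases hg : g ∈ H
  · rw [Finset.sum_eq_single (⟨g, hg⟩ : H)]
    · rw [coeff_smul, coeff_dl, if_pos rfl, mul_one]
    · intro y _ hy
      rw [coeff_smul, coeff_dl, if_neg, mul_zero]
      intro h
      apply hy
      exact Subtype.ext h.symm
    · intro h
      exact absurd (Finset.mem_univ _) h
  · rw [hx g hg]
    refine Finset.sum_eq_zero fun y _ => ?_
    rw [coeff_smul, coeff_dl, if_neg, mul_zero]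
    intro h
    exact hg (h ▸ y.2)

/-- the left ideal of `b` -/
def XX (H : Subgroup G) (b : Al k G) : Submodule k (Al k G) :=
  (sb k H).toSubmodule.map (LinearMap.mulRight k b)

theorem mem_XX {b y : Al k G} : y ∈ XX H b ↔ ∃ x ∈ sb k H, y = x * b := by
  unfold XX
  constructor
  · rintro ⟨x, hx, rfl⟩
    exact ⟨x, hx, rfl⟩
  · rintro ⟨x, hx, rfl⟩
    exact ⟨x, hx, rfl⟩

theorem XX_sb {b y : Al k G} (hb : b ∈ sb k H) (hy : y ∈ XX H b) : y ∈ sb k H := by
  obtain ⟨x, hx, rfl⟩ := mem_XX.1 hy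
  exact (sb k H).mul_mem hx hb

theorem XX_mul {b y : Al k G} (hbb : b * b = b) (hy : y ∈ XX H b) : y * b = y := by
  obtain ⟨x, hx, rfl⟩ := mem_XX.1 hy
  rw [mul_assoc, hbb]

theorem XX_left {b y : Al k G} {g : G} (hg : g ∈ H) (hy : y ∈ XX H b) : dl g * y ∈ XX H b := by
  obtain ⟨x, hx, rfl⟩ := mem_XX.1 hy
  exact mem_XX.2 ⟨dl g * x, (sb k H).mul_mem (dl_mem.2 hg) hx, by rw [mul_assoc]⟩

/-- left multiplication -/
def rho (H : Subgroup G) (b : Al k G) : Representation k H (XX H b) where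
  toFun g := (LinearMap.mulLeft k (dl (g : G))).restrict fun _ hy => XX_left g.2 hy
  map_one' := by
    refine LinearMap.ext fun y => Subtype.ext ?_
    show (dl ((1 : H) : G) : Al k G) * (y : Al k G) = y
    rw [Subgroup.coe_one, dl_one, one_mul]
  map_mul' g h := by
    refine LinearMap.ext fun y => Subtype.ext ?_
    show (dl ((g * h : H) : G) : Al k G) * (y : Al k G) =
      (dl (g : G) : Al k G) * ((dl (h : G) : Al k G) * (y : Al k G))
    rw [Subgroup.coe_mul, dl_mul, mul_assoc]

theorem rho_apply (b : Al k G) (g : H) (y : XX H b) :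
    ((rho H b g y : XX H b) : Al k G) = (dl (g : G) : Al k G) * (y : Al k G) := rfl

theorem char_rho [Fintype H] {b : Al k G} (hb : b ∈ sb k H) (hbb : b * b = b) (g : H) :
    (rho H b).character g = ∑ h : H, b.coeff (((g : G) * h)⁻¹ * h) := by
  have h1 : ∀ x, TT H (dl (g : G)) b x ∈ XX H b := by
    intro x
    rw [TT_apply]
    exact mem_XX.2 ⟨_, (sb k H).mul_mem (dl_mem.2 g.2) (sum_mem x), rfl⟩
  have h2 : (rho H b).character g = LinearMap.trace k (Al k G) (TT H (dl (g : G)) b) := by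
    rw [← LinearMap.trace_restrict_eq_of_forall_mem (XX H b) (TT H (dl (g : G)) b) h1]
    show LinearMap.trace k (XX H b) (rho H b g) = _
    congr 1
    apply LinearMap.ext
    intro y
    apply Subtype.ext
    show dl (g : G) * (y : Al k G) = TT H (dl (g : G)) b (y : Al k G)
    rw [TT_apply, sum_self (XX_sb hb y.2), mul_assoc, XX_mul hbb y.2]
  rw [h2]
  unfold TT
  rw [map_sum]
  refine Finset.sum_congr rfl fun h _ => ?_
  rw [LinearMap.trace_smulRight]
  show (dl (g : G) * dl (h : G) * b).coeff (h : G) = _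
  rw [← dl_mul, coeff_dl_mul]

/-- the form -/
def B0 (u : Al k G) : LinearMap.BilinForm k (Al k G) :=
  LinearMap.mk₂ k (fun x y => t (u * st x * y))
    (fun x x' y => by rw [st_add, mul_add, add_mul, t_add])
    (fun r x y => by
      show t (u * st (r • x) * y) = r • t (u * st x * y)
      rw [st_smul, mul_smul_comm, smul_mul_assoc, t_smul, smul_eq_mul])
    (fun x y y' => by rw [mul_add, t_add])
    (fun r x y => by
      show t (u * st x * (r • y)) = r • t (u * st x * y)
      rw [mul_smul_comm, t_smul, smul_eq_mul])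

theorem B0_apply (u x y : Al k G) : B0 u x y = t (u * st x * y) := rfl

theorem t_st (a : Al k G) : t (st a) = t a := by
  show (st a).coeff 1 = a.coeff 1
  rw [coeff_st, inv_one]

theorem B0_swap {u : Al k G} {e : k} (hu : st u = e • u) (x y : Al k G) :
    B0 u y x = e * B0 u x y := by
  rw [B0_apply, B0_apply, ← t_st, st_mul, st_mul, st_st, hu, mul_smul_comm, mul_smul_comm, t_smul,
    ← mul_assoc, t_mul_comm, mul_assoc]

theorem B0_inv (u : Al k G) (g : G) (x y : Al k G) : B0 u (dl g * x) (dl g * y) = B0 u x y := by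
  rw [B0_apply, B0_apply, st_mul, st_dl]
  have : u * (st x * dl g⁻¹) * (dl g * y) = u * st x * (dl g⁻¹ * dl g) * y := by
    simp only [mul_assoc]
  rw [this, ← dl_mul, inv_mul_cancel, dl_one, mul_one]

/-- the form is nondegenerate -/
theorem B0_nondeg {b u : Al k G} (hb : b ∈ sb k H) (hbb : b * b = b) (hu : u ∈ sb k H)
    (hbu : b * u = u) (hu0 : u ≠ 0) {e : k} (hus : st u = e • u) (he : e ≠ 0)
    (hp : ∀ x ∈ sb k H, ∃ r : k, b * x * b = r • b) {x : Al k G} (hx : x ∈ XX H b)
    (h : ∀ y ∈ XX H b, B0 u x y = 0) : x = 0 := by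
  have hxs := XX_sb hb hx
  have hxb := XX_mul hbb hx
  have h1 : u * st x = 0 := by
    refine t_nondeg_sb ((sb k H).mul_mem hu (st_mem.2 hxs)) fun w hw => ?_
    have h2 := h (w * b) (mem_XX.2 ⟨w, hw, rfl⟩)
    rw [B0_apply, ← mul_assoc, t_mul_comm, ← mul_assoc, ← mul_assoc, hbu] at h2
    exact h2
  have h2 : x * u = 0 := by
    have h3 := congrArg st h1
    rw [st_mul, st_st, hus, mul_smul_comm] at h3
    have h4 : st (0 : Al k G) = 0 := by
      have := st_smul (0 : k) (0 : Al k G)
      rw [zero_smul, zero_smul] at this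
      exact this
    rw [h4] at h3
    exact (smul_eq_zero.1 h3).resolve_left he
  obtain ⟨w, hw, hne⟩ : ∃ w ∈ sb k H, t (u * w) ≠ 0 := by
    by_contra hcon
    push Not at hcon
    exact hu0 (t_nondeg_sb hu hcon)
  have h3 : b * (u * w) * b ≠ 0 := by
    intro h4
    apply hne
    have h5 : t (b * (u * w)) = t (b * (u * w) * b) := by
      rw [t_mul_comm (b * (u * w)) b, ← mul_assoc b b, hbb]
    rw [← hbu, mul_assoc, h5, h4, t_zero]
  obtain ⟨r, hr⟩ := hp (u * w) ((sb k H).mul_mem hu hw)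
  have hr0 : r ≠ 0 := by
    rintro rfl
    rw [zero_smul] at hr
    exact h3 hr
  have h6 : x * (b * (u * w) * b) = 0 := by
    have : x * (b * (u * w) * b) = (x * b) * u * w * b := by simp only [mul_assoc]
    rw [this, hxb, h2, zero_mul, zero_mul]
  rw [hr, mul_smul_comm, hxb] at h6
  exact (smul_eq_zero.1 h6).resolve_left hr0

/-- a nondegenerate form with `B y x = - B x y` on a space of odd dimension -/
theorem no_skew {V : Type} [AddCommGroup V] [Module k V] [FiniteDimensional k V] [CharZero k]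
    (B : LinearMap.BilinForm k V) (hs : ∀ x y, B y x = - B x y)
    (hnd : ∀ x, (∀ y, B x y = 0) → x = 0) (hd : Odd (Module.finrank k V)) : False := by
  let b := Module.finBasis k V
  have h1 : (LinearMap.BilinForm.toMatrix b B).transpose = - LinearMap.BilinForm.toMatrix b B := by
    ext i j
    rw [Matrix.transpose_apply, Matrix.neg_apply, LinearMap.BilinForm.toMatrix_apply,
      LinearMap.BilinForm.toMatrix_apply, hs]
  have h2 := congrArg Matrix.det h1
  rw [Matrix.det_transpose, Matrix.det_neg, Fintype.card_fin, hd.neg_one_pow, neg_one_mul] at h2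
  have h3 : (LinearMap.BilinForm.toMatrix b B).det = 0 := self_eq_neg.1 h2
  have h4 : B.Nondegenerate := by
    refine ⟨fun x hx => hnd x hx, fun x hx => hnd x fun y => ?_⟩
    rw [← neg_neg (B x y), ← hs, hx, neg_zero]
  exact (LinearMap.BilinForm.nondegenerate_iff_det_ne_zero b).1 h4 h3

end

theorem z_mem [Fintype H] {b : Al Ω G} (hb : b ∈ sb Ω H) :
    (∑ g : H, dl (g : G) * b * dl (g : G)⁻¹) ∈ sb Ω H := by
  refine Subalgebra.sum_mem _ fun g _ => ?_
  exact (sb Ω H).mul_mem ((sb Ω H).mul_mem (dl_mem.2 g.2) hb) (dl_mem.2 (H.inv_mem g.2))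

theorem tr_z [Fintype H] {a b : Al Ω G} (ha : a ∈ sb Ω H) (hb : b ∈ sb Ω H) {φ : G → Ω}
    (hφ : φ ∈ ir Ω H) : (Parker.dg φ : Ω) * tr φ (a * ∑ g : H, dl (g : G) * b * dl (g : G)⁻¹) =
      (Nat.card H : Ω) * (tr φ a * tr φ b) := by
  obtain ⟨n, ρ, hρ, rfl, -, hn, hn0⟩ := ir_rep hφ
  have hz := z_mem (H := H) hb
  rw [← op_trace ρ ((sb Ω H).mul_mem ha hz), ← op_trace ρ ha, ← op_trace ρ hb, op_mul ρ ha hz]
  have h1 : op ρ (∑ g : H, dl (g : G) * b * dl (g : G)⁻¹) = ∑ g : H, ρ g * op ρ b * ρ g⁻¹ := by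
    rw [map_sum]
    refine Finset.sum_congr rfl fun g _ => ?_
    rw [op_mul ρ ((sb Ω H).mul_mem (dl_mem.2 g.2) hb) (dl_mem.2 (H.inv_mem g.2)),
      op_mul ρ (dl_mem.2 g.2) hb, op_dl ρ g.2, op_dl ρ (H.inv_mem g.2)]
    rfl
  rw [h1, Parker.sum_conj hρ, mul_smul_comm, mul_one, map_smul, smul_eq_mul, ← hn]
  have h2 : (Module.finrank Ω (Fin n → Ω) : Ω) = (n : Ω) := by simp
  have h3 : (n : Ω) ≠ 0 := by exact_mod_cast hn0.ne'
  rw [h2]
  field_simp

/-- the sum over the conjugates -/
theorem sum_coeff [Fintype H] {φ : G → Ω} (hφ : φ ∈ ir Ω H) {a : Al Ω G} (ha : a ∈ sb Ω H)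
    (haa : a * a = a) (h1 : rk φ a = 1) (h0 : ∀ ψ ∈ ir Ω H, ψ ≠ φ → rk ψ a = 0) (g : H) :
    ∑ h : H, a.coeff (((g : G) * h)⁻¹ * h) = φ g := by
  have hg : (dl (g : G) : Al Ω G) ∈ sb Ω H := dl_mem.2 g.2
  have e1 : t (dl (g : G) * ∑ h : H, dl (h : G) * a * dl (h : G)⁻¹) =
      ∑ h : H, a.coeff (((g : G) * h)⁻¹ * h) := by
    rw [Finset.mul_sum]
    have e2 : t (∑ h : H, dl (g : G) * (dl (h : G) * a * dl (h : G)⁻¹)) =
        ∑ h : H, t (dl (g : G) * (dl (h : G) * a * dl (h : G)⁻¹)) := cf_sum _ _ _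
    rw [e2]
    refine Finset.sum_congr rfl fun h _ => ?_
    have e3 : dl (g : G) * (dl (h : G) * a * dl (h : G)⁻¹) =
        dl ((g : G) * h) * a * dl (h : G)⁻¹ := by
      rw [dl_mul]
      simp only [mul_assoc]
    rw [e3, t_mul_dl, inv_inv, coeff_dl_mul]
  rw [← e1]
  have e4 := card_t ((sb Ω H).mul_mem hg (z_mem (H := H) ha))
  rw [Finset.sum_congr rfl fun ψ hψ => tr_z hg ha hψ, ← Finset.mul_sum] at e4
  have hc : (Nat.card H : Ω) ≠ 0 := by
    have : 0 < Nat.card H := Nat.card_pos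
    exact_mod_cast this.ne'
  rw [mul_left_cancel₀ hc e4, Finset.sum_eq_single φ]
  · rw [tr_dl, ← rk_tr hφ ha haa, h1, Nat.cast_one, mul_one]
  · intro ψ hψ hne
    rw [← rk_tr hψ ha haa, h0 ψ hψ hne, Nat.cast_zero, mul_zero]
  · intro h
    exact absurd hφ h

end Q07_aux

open Q07_aux

theorem exists_QM (hK : FixedField Γ K) {φ : G → Ω} (hφ : φ ∈ ir Ω H) (hr : rl φ)
    (hd : Odd (Parker.dg φ)) {a : Al Ω G} (ha : a ∈ sb Ω H) (haa : a * a = a) (hfx : FxA Γ a)
    (h1 : rk φ a = 1) (h0 : ∀ ψ ∈ ir Ω H, ψ ≠ φ → rk ψ a = 0) :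
    ∃ M : QM K H, ∀ g : H, M.ch Ω g = φ g := by
  have _ := Fintype.ofFinite H
  have _ := fin_al (k := K) (G := G)
  have hinj : Function.Injective (algebraMap K Ω) := (algebraMap K Ω).injective
  -- the idempotent over `K`
  have hb : dn K a ∈ sb K H := dn_mem hK hfx ha
  have hbb : dn K a * dn K a = dn K a := by rw [← dn_mul hK hfx hfx, haa]
  have hprim := prim_of_rk ha haa hφ h1 h0
  have ha0 : a ≠ 0 := hprim.1
  have hb0 : dn K a ≠ 0 := fun h => ha0 ((dn_eq_zero hK hfx).1 h)
  -- the character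
  have hch : ∀ g : H, algebraMap K Ω ((rho H (dn K a)).character g) = φ g := by
    intro g
    rw [char_rho hb hbb, map_sum, ← sum_coeff hφ ha haa h1 h0 g]
    refine Finset.sum_congr rfl fun h _ => ?_
    rw [dn_coeff hK hfx]
  have hdim : Module.finrank K (XX H (dn K a)) = Parker.dg φ := by
    have e1 := hch 1
    rw [Representation.char_one] at e1
    have e2 : φ ((1 : H) : G) = (Parker.dg φ : Ω) := (ir_one hφ).1
    rw [e2, map_natCast] at e1
    exact_mod_cast e1
  -- the corner over `K`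
  have hpK : ∀ x ∈ sb K H, ∃ r : K, dn K a * x * dn K a = r • dn K a := by
    intro x hx
    let y : Al Ω G := mk fun g => algebraMap K Ω (x.coeff g)
    have hyc : ∀ g, y.coeff g = algebraMap K Ω (x.coeff g) := fun g => coeff_mk _ g
    have hy : FxA Γ y := fun g => by
      rw [hyc]
      exact (hK _).2 ⟨_, rfl⟩
    have hys : y ∈ sb Ω H := fun g hg => by rw [hyc, hx g hg, map_zero]
    have hdy : dn K y = x := by
      apply al_ext
      intro g
      apply hinj
      rw [dn_coeff hK hy, hyc]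
    have e1 := hprim.2 y hys
    obtain ⟨g0, hg0⟩ : ∃ g, (dn K a).coeff g ≠ 0 := by
      by_contra hcon
      push Not at hcon
      exact hb0 (al_ext hcon)
    refine ⟨(dn K a * x * dn K a).coeff g0 / (dn K a).coeff g0, ?_⟩
    have e2 : ∀ g, algebraMap K Ω ((dn K a * x * dn K a).coeff g) =
        tr φ (a * y * a) * algebraMap K Ω ((dn K a).coeff g) := by
      intro g
      rw [← hdy, ← dn_mul hK hfx hy, ← dn_mul hK (fx_mul hfx hy) hfx,
        dn_coeff hK (fx_mul (fx_mul hfx hy) hfx), dn_coeff hK hfx]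
      have e3 := congrArg (fun z : Al Ω G => z.coeff g) e1
      simpa only [coeff_smul] using e3
    apply al_ext
    intro g
    apply hinj
    rw [coeff_smul, map_mul, map_div₀, e2 g, e2 g0]
    have hne : algebraMap K Ω ((dn K a).coeff g0) ≠ 0 := fun h => hg0 (hinj (by rw [h, map_zero]))
    field_simp
  -- the element `u`
  have hsta : st a ∈ sb Ω H := st_mem.2 ha
  have hstaa : st a * st a = st a := by rw [← st_mul, haa]
  have htr : ∀ ψ : G → Ω, tr ψ (st a) = tr (fun g => ψ g⁻¹) a := by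
    intro ψ
    have _ := Fintype.ofFinite G
    rw [tr_fin, tr_fin]
    refine Fintype.sum_equiv (Equiv.inv G) _ _ fun g => ?_
    simp [coeff_st]
  have hrk : rk φ (st a) = 1 := by
    refine rk_of_tr ?_
    rw [htr, show (fun g => φ g⁻¹) = φ from funext hr, ← rk_tr hφ ha haa, h1]
  have hrk0 : ∀ ψ ∈ ir Ω H, ψ ≠ φ → rk ψ (st a) = 0 := by
    intro ψ hψ hne
    refine rk_of_tr ?_
    have hd := ir_dual hψ
    rw [htr, ← rk_tr hd ha haa, h0 _ hd]
    intro h
    apply hne
    funext g
    have e1 := congrFun h g⁻¹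
    simp only [inv_inv] at e1
    rw [e1, hr]
  obtain ⟨x, hx, hxne⟩ := (exists_common ha haa hsta hstaa).2 ⟨φ, hφ, by rw [h1]; exact one_ne_zero,
    by rw [hrk]; exact one_ne_zero⟩
  obtain ⟨h, hh⟩ : ∃ h : H, a * dl (h : G) * st a ≠ 0 := by
    by_contra hcon
    push Not at hcon
    apply hxne
    rw [← sum_self hx, Finset.mul_sum, Finset.sum_mul]
    refine Finset.sum_eq_zero fun h _ => ?_
    rw [mul_smul_comm, smul_mul_assoc, hcon h, smul_zero]
  have hu1 : FxA Γ (a * dl (h : G) * st a) := fx_mul (fx_mul hfx (fx_dl _)) (fx_st hfx)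
  have hu2 : a * dl (h : G) * st a ∈ sb Ω H :=
    (sb Ω H).mul_mem ((sb Ω H).mul_mem ha (dl_mem.2 h.2)) hsta
  -- `st u = r u`
  have hfr := finrank_cr ha haa hsta hstaa
  have hfr1 : Module.finrank Ω (cr H a (st a)) = 1 := by
    rw [hfr, ← Finset.add_sum_erase _ _ hφ, h1, hrk, Finset.sum_eq_zero fun ψ hψ => by
      rw [h0 ψ (Finset.mem_of_mem_erase hψ) (Finset.ne_of_mem_erase hψ), zero_mul], one_mul, add_zero]
  have hmc : ∀ y ∈ sb Ω H, a * y * st a ∈ cr H a (st a) := by
    intro y hy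
    exact ⟨y, hy, by simp [mul_assoc]⟩
  have hstu : st (a * dl (h : G) * st a) = a * dl (h : G)⁻¹ * st a := by
    rw [st_mul, st_mul, st_st, st_dl, mul_assoc]
  obtain ⟨r, hr'⟩ := (finrank_eq_one_iff_of_nonzero' (⟨_, hmc _ (dl_mem.2 h.2)⟩ : cr H a (st a))
    (fun e => hh (congrArg Subtype.val e))).1 hfr1 ⟨_, hmc _ (dl_mem.2 (H.inv_mem h.2))⟩
  have hru : st (a * dl (h : G) * st a) = r • (a * dl (h : G) * st a) := by
    rw [hstu]
    exact (congrArg Subtype.val hr').symm
  have hrr : r * r = 1 := by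
    have e1 := congrArg st hru
    rw [st_st, st_smul, hru, smul_smul] at e1
    have e2 : (1 - r * r) • (a * dl (h : G) * st a) = 0 := by
      rw [sub_smul, one_smul, ← e1, sub_self]
    exact (sub_eq_zero.1 ((smul_eq_zero.1 e2).resolve_right hh)).symm
  -- over `K`
  have hr1 : r = 1 ∨ r = -1 := mul_self_eq_one_iff.1 hrr
  have hex : ∃ e : K, (e = 1 ∨ e = -1) ∧ algebraMap K Ω e = r := by
    rcases hr1 with h2 | h2
    · exact ⟨1, Or.inl rfl, by rw [map_one, h2]⟩
    · exact ⟨-1, Or.inr rfl, by rw [map_neg, map_one, h2]⟩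
  obtain ⟨e, he, her⟩ := hex
  have he0 : e ≠ 0 := by
    rcases he with rfl | rfl
    · exact one_ne_zero
    · exact neg_ne_zero.2 one_ne_zero
  obtain ⟨u, hu⟩ : ∃ u, u = dn K (a * dl (h : G) * st a) := ⟨_, rfl⟩
  have hus : st u = e • u := by
    rw [hu, ← dn_st hK hu1, hru, ← her, dn_smul hK hu1]
  have hum : u ∈ sb K H := by
    rw [hu]
    exact dn_mem hK hu1 hu2
  have hu0 : u ≠ 0 := by
    rw [hu]
    exact fun e1 => hh ((dn_eq_zero hK hu1).1 e1)
  have hbu : dn K a * u = u := by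
    rw [hu, ← dn_mul hK hfx hu1]
    congr 1
    rw [← mul_assoc, ← mul_assoc, haa]
  -- the form
  have hnd : ∀ x : XX H (dn K a), (∀ y : XX H (dn K a), (B0 u).restrict (XX H (dn K a)) x y = 0) →
      x = 0 := by
    intro x hx
    apply Subtype.ext
    exact B0_nondeg hb hbb hum hbu hu0 hus he0 hpK x.2 fun y hy => hx ⟨y, hy⟩
  have he1 : e = 1 := by
    rcases he with h2 | h2
    · exact h2
    · exfalso
      refine no_skew ((B0 u).restrict (XX H (dn K a))) (fun x y => ?_) hnd (by rw [hdim]; exact hd)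
      have e1 := B0_swap hus (x : Al K G) (y : Al K G)
      rw [h2, neg_one_mul] at e1
      exact e1
  refine ⟨{ X := XX H (dn K a), ρ := rho H (dn K a), B := (B0 u).restrict (XX H (dn K a)),
            inv := ⟨fun x y => ?_, hnd, fun g x y => ?_⟩ }, fun g => hch g⟩
  · have e1 := B0_swap hus (x : Al K G) (y : Al K G)
    rw [he1, one_mul] at e1
    exact e1.symm
  · exact B0_inv u (g : G) (x : Al K G) (y : Al K G)

end

end LieP
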