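import Pool.Agent.LieP.Q07
import Pool.Agent.LieP.Q04
import Pool.Agent.Parker.P07
import Pool.Agent.Parker.P23

/-!
# MP_6c3636_al, LieP, module Q08: comparison of forms on isotypic modules (helper7)

Section 11, (11.5). `φ` real irreducible of odd degree with fixed values, `a` an idempotent of `sb Ω H` with fixed coefficients with `rk φ a = 1`, `j` with fixed coefficients, `st j = j`, `st a * j * a * cen H φ ≠ 0`. Let `R` be a quadratic module with character `φ` (`exists_QM` for `a * cen H φ`), `v₀ ∈ a R` (a line), `u₀ = b(v₀, j v₀) ≠ 0`.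
For a quadratic module `M` put `N = range (oM M (cen H φ))`, `N₁ = range (oM M (a * cen H φ))`. For `w ∈ N₁` there is exactly one `H`-homomorphism `f_w : R → N` with `f_w v₀ = w` (`f_w (x v₀) = x w`), `w ↦ f_w` is linear, `R ⊗ N₁ → N` is bijective (dimensions: `mM M φ * dg φ`, `mM M φ`; injective by irreducibility over `Ω`). By Schur's lemma over `K` (the invariant bilinear forms on `R` are `K b`)
`B (f_w r, f_w' r') = γ(w,w') b(r,r')`, `γ` a symmetric bilinear form on `N₁`, and `B (w, j w') = u₀ γ(w,w')`. So `dcA M (cen H φ) = dcf(b)^m dcf(γ)^d`, `d = dg φ` odd, `m = dim N₁`, and `dcB M j (a * cen H φ) = cl(u₀)^m dcf(γ)` (`dcf_tform` or bases). `κ = dcf(b) * cl(u₀)` (classes have order two).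
-/

namespace LieP

noncomputable section

open Classical

open ParkerGL (QM Qg cl dcf FixedField)

open scoped TensorProduct

variable {Ω : Type} [Field Ω] [IsAlgClosed Ω] [CharZero Ω] {c : Parker.Ctx Ω}
  {Γ : Subgroup (RingAut Ω)} {K : Type} [Field K] [CharZero K] [Algebra K Ω]
  {G : Type} [Group G] [Finite G] {H : Subgroup G}

namespace Q08_aux

theorem q_comm (x y : Qg c Γ) : x * y = y * x := by
  induction x using QuotientGroup.induction_on with
  | H a =>
    induction y using QuotientGroup.induction_on with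
    | H b =>
      show (QuotientGroup.mk (a * b) : Qg c Γ) = QuotientGroup.mk (b * a)
      rw [mul_comm]

/-! ### over `Ω` -/

section Om

theorem avg {φ : G → Ω} (hφ : φ ∈ ir Ω H) {b : Al Ω G} (hb : b ∈ sb Ω H) (hcb : cen H φ * b = b)
    (htr : tr φ b = 1) [Fintype H] : ∑ h : H, dl (h : G) * b * dl (h : G)⁻¹ =
      ((Nat.card H : Ω) / (Parker.dg φ : Ω)) • cen H φ := by
  obtain ⟨n, ρ, hirr, hφρ, -, hn, -⟩ := ir_rep hφ
  have hcen := cen_mem φ hφ
  have hz : ∑ h : H, dl (h : G) * b * dl (h : G)⁻¹ ∈ sb Ω H :=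
    sum_mem fun h _ => mul_mem (mul_mem (dl_mem.2 h.2) hb) (dl_mem.2 (inv_mem h.2))
  have hop : op ρ (∑ h : H, dl (h : G) * b * dl (h : G)⁻¹) =
      ((Nat.card H : Ω) / (Parker.dg φ : Ω)) • 1 := by
    rw [map_sum]
    have h1 : ∀ h : H, op ρ (dl (h : G) * b * dl (h : G)⁻¹) = ρ h * op ρ b * ρ h⁻¹ := by
      intro h
      rw [op_mul ρ (mul_mem (dl_mem.2 h.2) hb) (dl_mem.2 (inv_mem h.2)),
        op_mul ρ (dl_mem.2 h.2) hb, op_dl ρ h.2, op_dl ρ (inv_mem h.2)]
      rfl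
    rw [Finset.sum_congr rfl fun h _ => h1 h, Parker.sum_conj hirr, op_trace ρ hb, ← hφρ, htr,
      mul_one, Module.finrank_fin_fun, hn]
  have hcz : cen H φ * ∑ h : H, dl (h : G) * b * dl (h : G)⁻¹ =
      ∑ h : H, dl (h : G) * b * dl (h : G)⁻¹ := by
    rw [Finset.mul_sum]
    refine Finset.sum_congr rfl fun h _ => ?_
    rw [← mul_assoc, ← mul_assoc, cen_comm hφ (dl_mem.2 h.2), mul_assoc (dl (h : G)), hcb]
  rw [← sub_eq_zero]
  refine al_ext_tr (H := H) (sub_mem hz (Subalgebra.smul_mem _ hcen _)) ?_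
  intro ψ hψ x hx
  rw [sub_mul, map_sub, smul_mul_assoc, map_smul, smul_eq_mul, tr_cen hφ hψ hx]
  conv_lhs => rw [← hcz, mul_assoc]
  rw [tr_cen hφ hψ (mul_mem hz hx)]
  by_cases h : ψ = φ
  · rw [if_pos h, if_pos h]
    have h2 : ∀ y ∈ sb Ω H, tr φ y = LinearMap.trace Ω _ (op ρ y) := by
      intro y hy
      rw [op_trace ρ hy, ← hφρ]
    rw [h2 _ (mul_mem hz hx), h2 _ hx, op_mul ρ hz hx, hop, smul_mul_assoc, one_mul, map_smul,
      smul_eq_mul, sub_self]
  · rw [if_neg h, if_neg h, mul_zero, sub_zero]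

theorem tr_st {φ : G → Ω} (hr : rl φ) (a : Al Ω G) : tr φ (st a) = tr φ a := by
  let _ := Fintype.ofFinite G
  rw [tr_fin, tr_fin, ← Equiv.sum_comp (Equiv.inv G)]
  refine Finset.sum_congr rfl fun g _ => ?_
  rw [coeff_st]
  show a.coeff (g⁻¹)⁻¹ * φ g⁻¹ = _
  rw [inv_inv, hr g]

theorem rk_congr {φ : G → Ω} {a b : Al Ω G} (h : tr φ a = tr φ b) : rk φ a = rk φ b := by
  unfold rk
  rw [h]

/-- one dimensional spaces -/
theorem line {φ : G → Ω} (hφ : φ ∈ ir Ω H) {a b C : Al Ω G} (ha : a ∈ sb Ω H) (haa : a * a = a)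
    (hb : b ∈ sb Ω H) (hbb : b * b = b) (h1 : rk φ a = 1) (h2 : rk φ b = 1)
    (h0 : ∀ ψ ∈ ir Ω H, ψ ≠ φ → rk ψ b = 0) {y : Al Ω G} (hy : y ∈ sb Ω H) (hC : C = a * y * b)
    (hC0 : C ≠ 0) {x : Al Ω G} (hx : x ∈ sb Ω H) : ∃ r : Ω, a * x * b = r • C := by
  have hd : Module.finrank Ω (cr H a b) = 1 := by
    rw [finrank_cr ha haa hb hbb, Finset.sum_eq_single_of_mem φ hφ, h1, h2]
    intro ψ hψ hne
    rw [h0 ψ hψ hne, mul_zero]
  have hm : ∀ z ∈ sb Ω H, a * z * b ∈ cr H a b := by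
    intro z hz
    exact ⟨z, hz, (mul_assoc a z b).symm⟩
  have hCm : C ∈ cr H a b := by
    rw [hC]
    exact hm y hy
  have h3 := (finrank_eq_one_iff_of_nonzero' (⟨C, hCm⟩ : cr H a b)
    (fun h => hC0 (congrArg Subtype.val h))).1 hd ⟨a * x * b, hm x hx⟩
  obtain ⟨r, hr⟩ := h3
  exact ⟨r, (congrArg Subtype.val hr).symm⟩

end Om

/-! ### descent -/

section Desc

/-- the extension of the coefficients -/
def up (Ω : Type) [Field Ω] {K : Type} [Field K] [Algebra K Ω] {G : Type} [Group G] [Finite G]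
    (x : Al K G) : Al Ω G := mk fun g => algebraMap K Ω (x.coeff g)

theorem coeff_up (x : Al K G) (g : G) : (up Ω x).coeff g = algebraMap K Ω (x.coeff g) := coeff_mk _ g

theorem fx_up (hK : FixedField Γ K) (x : Al K G) : FxA Γ (up Ω x) := by
  intro g
  rw [coeff_up]
  exact (hK _).2 ⟨_, rfl⟩

theorem dn_up (hK : FixedField Γ K) (x : Al K G) : dn K (up Ω x) = x := by
  refine al_ext fun g => ?_
  apply (algebraMap K Ω).injective
  rw [dn_coeff hK (fx_up hK x), coeff_up]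

theorem up_mem {x : Al K G} (hx : x ∈ sb K H) : up Ω x ∈ sb Ω H := by
  intro g hg
  rw [coeff_up, mem_sb.1 hx g hg, map_zero]

theorem desc (hK : FixedField Γ K) {P Q C : Al Ω G} (hP : FxA Γ P) (hQ : FxA Γ Q) (hC : FxA Γ C)
    (hC0 : C ≠ 0) (h : ∀ X ∈ sb Ω H, ∃ r : Ω, P * X * Q = r • C) {x : Al K G} (hx : x ∈ sb K H) :
    ∃ r : K, dn K P * x * dn K Q = r • dn K C := by
  have hX := fx_up (Ω := Ω) hK x
  obtain ⟨r, hr⟩ := h (up Ω x) (up_mem hx)
  have hf : FxA Γ (r • C) := by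
    rw [← hr]
    exact fx_mul (fx_mul hP hX) hQ
  have hex : ∃ g, C.coeff g ≠ 0 := by
    by_contra hcon
    push Not at hcon
    exact hC0 (al_ext fun g => by rw [hcon g]; rfl)
  obtain ⟨g, hg⟩ := hex
  have hrf : Parker.Fx Γ r := by
    intro σ hσ
    have h1 := hf g σ hσ
    rw [coeff_smul, map_mul, hC g σ hσ] at h1
    exact mul_right_cancel₀ hg h1
  obtain ⟨s, hs⟩ := (hK r).1 hrf
  refine ⟨s, ?_⟩
  have h2 := congrArg (dn K) hr
  rw [dn_mul hK (fx_mul hP hX) hQ, dn_mul hK hP hX, dn_up hK, ← hs, dn_smul hK hC] at h2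
  exact h2

end Desc

/-- the elements over `K` -/
structure Dt (K : Type) [Field K] {G : Type} [Group G] [Finite G] (H : Subgroup G)
    (a e j C : Al K G) : Prop where
  ma : a ∈ sb K H
  me : e ∈ sb K H
  mj : j ∈ sb K H
  aa : a * a = a
  ee : e * e = e
  ea : e * a = a
  ec : ∀ x ∈ sb K H, e * x = x * e
  se : st e = e
  hC : C = st a * j * a
  C0 : C ≠ 0
  sC : st C = C
  l1 : ∀ x ∈ sb K H, ∃ r : K, st a * x * a = r • C
  l2 : ∀ x ∈ sb K H, ∃ r : K, a * x * a = r • a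
  av : ∃ r : K, ∃ s : Finset H, r • ∑ h ∈ s, dl (h : G) * a * dl (h : G)⁻¹ = e

theorem exists_dt (hK : FixedField Γ K) {φ : G → Ω} (hφ : φ ∈ ir Ω H)
    (hfx : ∀ g, Parker.Fx Γ (φ g)) (hr : rl φ) {a j : Al Ω G} (ha : a ∈ sb Ω H) (haa : a * a = a)
    (hfa : FxA Γ a) (h1 : rk φ a = 1) (hj : j ∈ sb Ω H) (hfj : FxA Γ j)
    (hsj : st (st a * j * a) = st a * j * a) (hj0 : st a * j * a * cen H φ ≠ 0) :
    Dt K H (dn K (a * cen H φ)) (dn K (cen H φ)) (dn K j)
      (dn K (st (a * cen H φ) * j * (a * cen H φ))) := by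
  have hce := cen_mem φ hφ
  have hcc := cen_idem hφ
  have hca : cen H φ * a = a * cen H φ := cen_comm hφ ha
  have hfc : FxA Γ (cen H φ) := fx_cen H hfx
  have hb : a * cen H φ ∈ sb Ω H := mul_mem ha hce
  have hfb : FxA Γ (a * cen H φ) := fx_mul hfa hfc
  have hbb : a * cen H φ * (a * cen H φ) = a * cen H φ := by
    rw [mul_assoc, ← mul_assoc (cen H φ), hca, mul_assoc a (cen H φ), hcc, ← mul_assoc, haa]
  have hcb : cen H φ * (a * cen H φ) = a * cen H φ := by
    rw [← mul_assoc, hca, mul_assoc, hcc]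
  have hrk : ∀ ψ ∈ ir Ω H, rk ψ (a * cen H φ) = if ψ = φ then rk φ a else 0 := by
    intro ψ hψ
    rw [← hca]
    exact rk_cen hφ hψ ha haa
  have hb1 : rk φ (a * cen H φ) = 1 := by rw [hrk φ hφ, if_pos rfl, h1]
  have hb0 : ∀ ψ ∈ ir Ω H, ψ ≠ φ → rk ψ (a * cen H φ) = 0 := by
    intro ψ hψ hne
    rw [hrk ψ hψ, if_neg hne]
  have hse : st (cen H φ) = cen H φ := by
    rw [st_cen]
    congr 1
    funext g
    exact hr g
  have hsb : st (a * cen H φ) ∈ sb Ω H := st_mem.2 hb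
  have hfsb : FxA Γ (st (a * cen H φ)) := fx_st hfb
  have hsbb : st (a * cen H φ) * st (a * cen H φ) = st (a * cen H φ) := by
    rw [← st_mul, hbb]
  have hsb1 : rk φ (st (a * cen H φ)) = 1 := by
    rw [rk_congr (tr_st hr _), hb1]
  have hC : st (a * cen H φ) * j * (a * cen H φ) = st a * j * a * cen H φ := by
    have hm : st a * j * a ∈ sb Ω H := mul_mem (mul_mem (st_mem.2 ha) hj) ha
    rw [st_mul, hse]
    calc cen H φ * st a * j * (a * cen H φ) = cen H φ * (st a * j * a) * cen H φ := by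
          simp only [mul_assoc]
      _ = st a * j * a * cen H φ := by rw [cen_comm hφ hm, mul_assoc, hcc]
  have hC0 : st (a * cen H φ) * j * (a * cen H φ) ≠ 0 := by
    rw [hC]
    exact hj0
  have hCm : st (a * cen H φ) * j * (a * cen H φ) ∈ sb Ω H := mul_mem (mul_mem hsb hj) hb
  have hfC : FxA Γ (st (a * cen H φ) * j * (a * cen H φ)) := fx_mul (fx_mul hfsb hfj) hfb
  have hsC : st (st (a * cen H φ) * j * (a * cen H φ)) = st (a * cen H φ) * j * (a * cen H φ) := by
    have hm : st a * j * a ∈ sb Ω H := mul_mem (mul_mem (st_mem.2 ha) hj) ha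
    rw [hC, st_mul, hse, hsj, cen_comm hφ hm]
  have hb00 : a * cen H φ ≠ 0 := by
    intro h
    apply hC0
    rw [h, mul_zero]
  have htr : tr φ (a * cen H φ) = 1 := by
    have h2 := rk_tr hφ hb hbb
    rw [hb1, Nat.cast_one] at h2
    exact h2.symm
  refine
    { ma := dn_mem hK hfb hb
      me := dn_mem hK hfc hce
      mj := dn_mem hK hfj hj
      aa := by rw [← dn_mul hK hfb hfb, hbb]
      ee := by rw [← dn_mul hK hfc hfc, hcc]
      ea := by rw [← dn_mul hK hfc hfb, hcb]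
      ec := ?_
      se := by rw [← dn_st hK hfc, hse]
      hC := by rw [dn_mul hK (fx_mul hfsb hfj) hfb, dn_mul hK hfsb hfj, dn_st hK hfb]
      C0 := fun h => hC0 ((dn_eq_zero hK hfC).1 h)
      sC := by rw [← dn_st hK hfC, hsC]
      l1 := ?_
      l2 := ?_
      av := ?_ }
  · intro x hx
    have h2 := cen_comm hφ (up_mem (Ω := Ω) hx)
    have h3 := congrArg (dn K) h2
    rw [dn_mul hK hfc (fx_up hK x), dn_mul hK (fx_up hK x) hfc, dn_up hK] at h3
    exact h3
  · intro x hx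
    rw [← dn_st hK hfb]
    exact desc hK hfsb hfb hfC hC0
      (fun X hX => line hφ hsb hsbb hb hbb hsb1 hb1 hb0 hj rfl hC0 hX) hx
  · intro x hx
    exact desc hK hfb hfb hfb hb00
      (fun X hX => line hφ hb hbb hb hbb hb1 hb1 hb0 hb (by rw [hbb, hbb]) hb00 hX) hx
  · let _ := Fintype.ofFinite H
    have h2 := avg hφ hb hcb htr
    have hcard : (Nat.card H : Ω) ≠ 0 := Nat.cast_ne_zero.2 Nat.card_pos.ne'
    have hdg : (Parker.dg φ : Ω) ≠ 0 := Nat.cast_ne_zero.2 (ir_one hφ).2.ne'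
    refine ⟨(Parker.dg φ : K) / (Nat.card H : K), Finset.univ, ?_⟩
    have hfs : ∀ h ∈ (Finset.univ : Finset H), FxA Γ (dl (h : G) * (a * cen H φ) * dl (h : G)⁻¹) :=
      fun h _ => fx_mul (fx_mul (fx_dl _) hfb) (fx_dl _)
    have h3 : ∀ (s : Finset H), dn K (∑ h ∈ s, dl (h : G) * (a * cen H φ) * dl (h : G)⁻¹) =
        ∑ h ∈ s, dl (h : G) * dn K (a * cen H φ) * dl (h : G)⁻¹ := by
      intro s
      induction s using Finset.induction_on with
      | empty => rw [Finset.sum_empty, Finset.sum_empty, dn_zero hK]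
      | insert i s hi ih =>
        rw [Finset.sum_insert hi, Finset.sum_insert hi,
          dn_add hK (hfs i (Finset.mem_univ i))
            (fx_sum _ fun i _ => hfs i (Finset.mem_univ i)), ih,
          dn_mul hK (fx_mul (fx_dl _) hfb) (fx_dl _), dn_mul hK (fx_dl _) hfb, dn_dl hK, dn_dl hK]
    have h4 : algebraMap K Ω ((Parker.dg φ : K) / (Nat.card H : K)) •
        (((Nat.card H : Ω) / (Parker.dg φ : Ω)) • cen H φ) = cen H φ := by
      rw [map_div₀, map_natCast, map_natCast, smul_smul]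
      have h5 : (Parker.dg φ : Ω) / (Nat.card H : Ω) * ((Nat.card H : Ω) / (Parker.dg φ : Ω)) = 1 := by
        field_simp
      rw [h5, one_smul]
    rw [← h3, ← dn_smul hK (fx_sum _ hfs), h2, h4]

/-! ### the modules -/

section Mod

variable {M : QM K H} {a e j C : Al K G}

theorem mem_rg {x : Al K G} (hx : x ∈ sb K H) (hxx : x * x = x) {v : M.X} :
    v ∈ LinearMap.range (op M.ρ x) ↔ op M.ρ x v = v := by
  constructor
  · rintro ⟨w, rfl⟩
    rw [← Module.End.mul_apply, ← op_mul _ hx hx, hxx]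
  · intro h
    exact ⟨v, h⟩

/-- `st a * j * a` on the range of `a` -/
theorem B_C (D : Dt K H a e j C) {v w : M.X} (hv : v ∈ LinearMap.range (op M.ρ a)) :
    M.B v (op M.ρ C w) = M.B v (op M.ρ j (op M.ρ a w)) := by
  have h1 : op M.ρ C w = op M.ρ (st a) (op M.ρ j (op M.ρ a w)) := by
    rw [D.hC, op_mul _ (mul_mem (st_mem.2 D.ma) D.mj) D.ma, op_mul _ (st_mem.2 D.ma) D.mj]
    rfl
  rw [h1, ← op_invform M.ρ M.inv.inv D.ma, (mem_rg D.ma D.aa).1 hv]

theorem C_inj (D : Dt K H a e j C) {v : M.X} (hv : v ∈ LinearMap.range (op M.ρ a))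
    (h0 : op M.ρ C v = 0) : v = 0 := by
  obtain ⟨r, s, hs⟩ := D.av
  have hCm : C ∈ sb K H := by
    rw [D.hC]
    exact mul_mem (mul_mem (st_mem.2 D.ma) D.mj) D.ma
  have hCa : C * a = C := by rw [D.hC, mul_assoc, D.aa]
  have hae : a * e = a := by rw [← D.ec a D.ma, D.ea]
  have hCe : e * C = C := by
    rw [D.ec C hCm, ← hCa, mul_assoc, hae]
  -- some `a h⁻¹ C` is not zero
  have hex : ∃ h ∈ H, a * dl h * C ≠ 0 := by
    by_contra hcon
    push Not at hcon
    apply D.C0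
    rw [← hCe, ← hs, smul_mul_assoc, Finset.sum_mul]
    have h1 : ∀ h ∈ s, dl (h : G) * a * dl (h : G)⁻¹ * C = 0 := by
      intro h _
      rw [mul_assoc, mul_assoc, ← mul_assoc a, hcon _ (inv_mem h.2), mul_zero]
    rw [Finset.sum_congr rfl h1, Finset.sum_const_zero, smul_zero]
  obtain ⟨h, hh, hne⟩ := hex
  obtain ⟨t, ht⟩ := D.l2 (dl h * C) (mul_mem (dl_mem.2 hh) hCm)
  have h2 : a * dl h * C = t • a := by
    rw [← ht, ← mul_assoc, mul_assoc _ C a, hCa]
  have ht0 : t ≠ 0 := by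
    rintro rfl
    rw [zero_smul] at h2
    exact hne h2
  have h3 : op M.ρ (a * dl h * C) v = 0 := by
    rw [op_mul _ (mul_mem D.ma (dl_mem.2 hh)) hCm, Module.End.mul_apply, h0, map_zero]
  rw [h2, map_smul, LinearMap.smul_apply, (mem_rg D.ma D.aa).1 hv] at h3
  exact (smul_eq_zero.1 h3).resolve_left ht0

theorem nondeg (D : Dt K H a e j C) {v : M.X} (hv : v ∈ LinearMap.range (op M.ρ a))
    (h : ∀ w ∈ LinearMap.range (op M.ρ a), M.B v (op M.ρ j w) = 0) : v = 0 := by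
  refine C_inj D hv (M.inv.nondeg _ fun w => ?_)
  have hCm : C ∈ sb K H := by
    rw [D.hC]
    exact mul_mem (mul_mem (st_mem.2 D.ma) D.mj) D.ma
  rw [op_invform M.ρ M.inv.inv hCm, D.sC, B_C D hv]
  exact h _ ⟨w, rfl⟩

end Mod

/-! ### the left ideal -/

section Ideal

/-- the left ideal -/
def Y (H : Subgroup G) (a : Al K G) : Submodule K (Al K G) :=
  (sb K H).toSubmodule.map (LinearMap.mulRight K a)

variable {a e j C : Al K G}

theorem mem_Y (D : Dt K H a e j C) {y : Al K G} (hy : y ∈ Y H a) :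
    y ∈ sb K H ∧ y * a = y ∧ e * y = y := by
  obtain ⟨x, hx, rfl⟩ := hy
  have hx' : x ∈ sb K H := hx
  show x * a ∈ sb K H ∧ x * a * a = x * a ∧ e * (x * a) = x * a
  refine ⟨mul_mem hx' D.ma, by rw [mul_assoc, D.aa], ?_⟩
  rw [← mul_assoc, D.ec x hx', mul_assoc, D.ea]

theorem mul_mem_Y {x : Al K G} (hx : x ∈ sb K H) : x * a ∈ Y H a := ⟨x, hx, rfl⟩

/-- the form on the left ideal -/
def bt (a C : Al K G) (g : G) : LinearMap.BilinForm K (Y H a) :=
  LinearMap.mk₂ K (fun y y' => (st (y : Al K G) * (y' : Al K G)).coeff g * (C.coeff g)⁻¹)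
    (fun y z w => by
      show (st ((y : Al K G) + (z : Al K G)) * (w : Al K G)).coeff g * _ = _
      rw [st_add, add_mul, coeff_add, add_mul])
    (fun r y w => by
      show (st (r • (y : Al K G)) * (w : Al K G)).coeff g * _ = r * _
      rw [st_smul, smul_mul_assoc, coeff_smul, mul_assoc])
    (fun y z w => by
      show (st (y : Al K G) * ((z : Al K G) + (w : Al K G))).coeff g * _ = _
      rw [mul_add, coeff_add, add_mul])
    (fun r y w => by
      show (st (y : Al K G) * (r • (w : Al K G))).coeff g * _ = r * _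
      rw [mul_smul_comm, coeff_smul, mul_assoc])

theorem bt_spec (D : Dt K H a e j C) {g : G} (hg : C.coeff g ≠ 0) (y y' : Y H a) :
    st (y : Al K G) * (y' : Al K G) = bt a C g y y' • C := by
  obtain ⟨x, hx, hxy⟩ := y.2
  obtain ⟨x', hx', hxy'⟩ := y'.2
  have e1 : (y : Al K G) = x * a := hxy.symm
  have e2 : (y' : Al K G) = x' * a := hxy'.symm
  have hx0 : x ∈ sb K H := hx
  have hx0' : x' ∈ sb K H := hx'
  obtain ⟨r, hr⟩ := D.l1 (st x * x') (mul_mem (st_mem.2 hx0) hx0')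
  have e3 : st (y : Al K G) * (y' : Al K G) = r • C := by
    rw [e1, e2, st_mul, ← hr]
    simp only [mul_assoc]
  have e4 : bt a C g y y' = r := by
    show (st (y : Al K G) * (y' : Al K G)).coeff g * (C.coeff g)⁻¹ = r
    rw [e3, coeff_smul, mul_assoc, mul_inv_cancel₀ hg, mul_one]
  rw [e3, e4]

theorem bt_nondeg (D : Dt K H a e j C) {g : G} (hg : C.coeff g ≠ 0) (y : Y H a)
    (h : ∀ y', bt a C g y y' = 0) : y = 0 := by
  obtain ⟨r, s, hs⟩ := D.av
  have h1 : ∀ x ∈ sb K H, st (y : Al K G) * (x * a) = 0 := by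
    intro x hx
    have h2 := bt_spec D hg y ⟨x * a, mul_mem_Y hx⟩
    rw [h, zero_smul] at h2
    exact h2
  have h3 : st (y : Al K G) * e = 0 := by
    rw [← hs, mul_smul_comm, Finset.mul_sum]
    have h4 : ∀ i ∈ s, st (y : Al K G) * (dl (i : G) * a * dl (i : G)⁻¹) = 0 := by
      intro i _
      rw [← mul_assoc, h1 _ (dl_mem.2 i.2), zero_mul]
    rw [Finset.sum_congr rfl h4, Finset.sum_const_zero, smul_zero]
  have h5 : e * (y : Al K G) = 0 := by
    have h6 := congrArg st h3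
    rw [st_mul, st_st, D.se] at h6
    rw [h6]
    refine al_ext fun g => ?_
    rw [coeff_st]
    rfl
  rw [(mem_Y D y.2).2.2] at h5
  exact Subtype.ext h5

end Ideal

/-! ### the isomorphism -/

section Iso

variable {M : QM K H} {a e j C : Al K G}

/-- the action -/
def ps (D : Dt K H a e j C) (M : QM K H) : Y H a →ₗ[K] LinearMap.range (op M.ρ a) →ₗ[K]
    LinearMap.range (op M.ρ e) :=
  LinearMap.mk₂ K (fun y w => ⟨op M.ρ (y : Al K G) (w : M.X), by
      rw [mem_rg D.me D.ee, ← Module.End.mul_apply, ← op_mul _ D.me (mem_Y D y.2).1,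
        (mem_Y D y.2).2.2]⟩)
    (fun y z w => Subtype.ext (by
      show op M.ρ ((y : Al K G) + (z : Al K G)) (w : M.X) = _
      rw [map_add]
      rfl))
    (fun r y w => Subtype.ext (by
      show op M.ρ (r • (y : Al K G)) (w : M.X) = _
      rw [map_smul]
      rfl))
    (fun y z w => Subtype.ext (by
      show op M.ρ (y : Al K G) ((z : M.X) + (w : M.X)) = _
      rw [map_add]
      rfl))
    (fun r y w => Subtype.ext (by
      show op M.ρ (y : Al K G) (r • (w : M.X)) = _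
      rw [map_smul]
      rfl))

theorem ps_apply (D : Dt K H a e j C) (y : Y H a) (w : LinearMap.range (op M.ρ a)) :
    ((ps D M y w : LinearMap.range (op M.ρ e)) : M.X) = op M.ρ (y : Al K G) (w : M.X) := rfl

/-- the form `B (v, j w)` on the range of `a` -/
def gm (M : QM K H) (a j : Al K G) : LinearMap.BilinForm K (LinearMap.range (op M.ρ a)) :=
  LinearMap.BilinForm.restrict (M.B.compl₁₂ LinearMap.id (op M.ρ j)) (LinearMap.range (op M.ρ a))

theorem gm_apply (v w : LinearMap.range (op M.ρ a)) :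
    gm M a j v w = M.B (v : M.X) (op M.ρ j (w : M.X)) := rfl

theorem ps_form (D : Dt K H a e j C) {g : G} (hg : C.coeff g ≠ 0)
    (s t : Y H a ⊗[K] LinearMap.range (op M.ρ a)) :
    (M.B.restrict (LinearMap.range (op M.ρ e))) (TensorProduct.lift (ps D M) s)
      (TensorProduct.lift (ps D M) t) = Parker.P23_aux.tform (bt a C g) (gm M a j) s t := by
  have h : (M.B.restrict (LinearMap.range (op M.ρ e))).compl₁₂ (TensorProduct.lift (ps D M))
      (TensorProduct.lift (ps D M)) = Parker.P23_aux.tform (bt a C g) (gm M a j) := by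
    refine Parker.P23_aux.bil_ext fun y w y' w' => ?_
    rw [LinearMap.compl₁₂_apply, TensorProduct.lift.tmul, TensorProduct.lift.tmul,
      Parker.P23_aux.tform_tmul]
    show M.B (op M.ρ (y : Al K G) (w : M.X)) (op M.ρ (y' : Al K G) (w' : M.X)) = _
    have hy := (mem_Y D y.2).1
    have hy' := (mem_Y D y'.2).1
    rw [op_invform M.ρ M.inv.inv hy, ← Module.End.mul_apply, ← op_mul _ (st_mem.2 hy) hy',
      bt_spec D hg, map_smul, LinearMap.smul_apply, map_smul, B_C D w.2,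
      (mem_rg D.ma D.aa).1 w'.2]
    rfl
  exact congrArg (fun f : LinearMap.BilinForm K _ => f s t) h

theorem ps_inj (D : Dt K H a e j C) : Function.Injective (TensorProduct.lift (ps D M)) := by
  have hex : ∃ g, C.coeff g ≠ 0 := by
    by_contra hcon
    push Not at hcon
    exact D.C0 (al_ext fun g => by rw [hcon g]; rfl)
  obtain ⟨g, hg⟩ := hex
  rw [injective_iff_map_eq_zero]
  intro s hs
  refine Parker.P23_aux.tform_nondeg (bt_nondeg D hg) (b₂ := gm M a j) ?_ s fun t => ?_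
  · intro v hv
    exact Subtype.ext (nondeg D v.2 fun w hw => hv ⟨w, hw⟩)
  · rw [← ps_form D hg, hs, map_zero, LinearMap.zero_apply]

theorem ps_surj (D : Dt K H a e j C) : Function.Surjective (TensorProduct.lift (ps D M)) := by
  intro v
  obtain ⟨r, s, hs⟩ := D.av
  have hm : ∀ i : H, dl (i : G) * a ∈ Y H a := fun i => mul_mem_Y (dl_mem.2 i.2)
  have hm' : ∀ i : H, op M.ρ a (op M.ρ (dl (i : G)⁻¹) (v : M.X)) ∈ LinearMap.range (op M.ρ a) :=
    fun i => ⟨_, rfl⟩
  refine ⟨r • ∑ i ∈ s, (⟨_, hm i⟩ : Y H a) ⊗ₜ[K]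
    (⟨_, hm' i⟩ : LinearMap.range (op M.ρ a)), ?_⟩
  apply Subtype.ext
  rw [map_smul, map_sum]
  have h1 : ∀ i ∈ s, TensorProduct.lift (ps D M) ((⟨_, hm i⟩ : Y H a) ⊗ₜ[K]
      (⟨_, hm' i⟩ : LinearMap.range (op M.ρ a))) = ps D M ⟨_, hm i⟩ ⟨_, hm' i⟩ :=
    fun i _ => TensorProduct.lift.tmul _ _
  rw [Finset.sum_congr rfl h1]
  have key : ∀ x : M.X, op M.ρ e x = x →
      r • ∑ i ∈ s, op M.ρ (dl (i : G) * a * dl (i : G)⁻¹) x = x := by
    intro x hx
    rw [← hs, map_smul, map_sum, LinearMap.smul_apply, LinearMap.sum_apply] at hx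
    exact hx
  refine Eq.trans ?_ (key _ ((mem_rg D.me D.ee).1 v.2))
  rw [Submodule.coe_smul, Submodule.coe_sum]
  congr 1
  refine Finset.sum_congr rfl fun i _ => ?_
  rw [ps_apply]
  show op M.ρ (dl (i : G) * a) (op M.ρ a (op M.ρ (dl (i : G)⁻¹) (v : M.X))) = _
  have hi : (dl (i : G) : Al K G) ∈ sb K H := dl_mem.2 i.2
  have hi' : (dl (i : G)⁻¹ : Al K G) ∈ sb K H := dl_mem.2 (inv_mem i.2)
  rw [← Module.End.mul_apply (op M.ρ a), ← op_mul _ D.ma hi', ← Module.End.mul_apply,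
    ← op_mul _ (mul_mem hi D.ma) (mul_mem D.ma hi')]
  congr 2
  rw [mul_assoc, ← mul_assoc a a, D.aa, ← mul_assoc]

/-- the isomorphism -/
def eq (D : Dt K H a e j C) (M : QM K H) : (Y H a ⊗[K] LinearMap.range (op M.ρ a)) ≃ₗ[K]
    LinearMap.range (op M.ρ e) :=
  LinearEquiv.ofBijective (TensorProduct.lift (ps D M)) ⟨ps_inj D, ps_surj D⟩

end Iso

end Q08_aux

open Q08_aux

theorem morita (hK : FixedField Γ K) {φ : G → Ω} (hφ : φ ∈ ir Ω H) (hfx : ∀ g, Parker.Fx Γ (φ g))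
    (hr : rl φ) (hd : Odd (Parker.dg φ)) {a j : Al Ω G} (ha : a ∈ sb Ω H) (haa : a * a = a)
    (hfa : FxA Γ a) (h1 : rk φ a = 1) (hj : j ∈ sb Ω H) (hfj : FxA Γ j)
    (hsj : st (st a * j * a) = st a * j * a) (hj0 : st a * j * a * cen H φ ≠ 0) :
    ∃ κ : Qg c Γ, κ * κ = 1 ∧ ∀ M : QM K H, dcA c Γ M (cen H φ) =
      dcB c Γ M j (a * cen H φ) *
        κ ^ Module.finrank K (LinearMap.range (oM M (a * cen H φ))) := by
  have D := exists_dt hK hφ hfx hr ha haa hfa h1 hj hfj hsj hj0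
  have hex : ∃ g, (dn K (st (a * cen H φ) * j * (a * cen H φ))).coeff g ≠ 0 := by
    by_contra hcon
    push Not at hcon
    exact D.C0 (al_ext fun g => by rw [hcon g]; rfl)
  obtain ⟨g, hg⟩ := hex
  refine ⟨dcf c Γ (bt (H := H) (dn K (a * cen H φ))
    (dn K (st (a * cen H φ) * j * (a * cen H φ))) g), ParkerGL.dcf_sq hK _, fun M => ?_⟩
  have hgn : ∀ v : LinearMap.range (op M.ρ (dn K (a * cen H φ))),
      (∀ w, gm M (dn K (a * cen H φ)) (dn K j) v w = 0) → v = 0 := fun v hv =>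
    Subtype.ext (nondeg D v.2 fun w hw => hv ⟨w, hw⟩)
  have e1 : dcA c Γ M (cen H φ) = dcf c Γ (Parker.P23_aux.tform (bt (H := H) (dn K (a * cen H φ))
      (dn K (st (a * cen H φ) * j * (a * cen H φ))) g) (gm M (dn K (a * cen H φ)) (dn K j))) :=
    ParkerGL.dcf_iso hK (eq D M) (ps_form D hg)
  have e2 : dcB c Γ M j (a * cen H φ) = dcf c Γ (gm M (dn K (a * cen H φ)) (dn K j)) := rfl
  have hce := cen_mem φ hφ
  have hcc := cen_idem hφ
  have hca : cen H φ * a = a * cen H φ := cen_comm hφ ha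
  have hfc : FxA Γ (cen H φ) := fx_cen H hfx
  have hb : a * cen H φ ∈ sb Ω H := mul_mem ha hce
  have hfb : FxA Γ (a * cen H φ) := fx_mul hfa hfc
  have hbb : a * cen H φ * (a * cen H φ) = a * cen H φ := by
    rw [mul_assoc, ← mul_assoc (cen H φ), hca, mul_assoc a (cen H φ), hcc, ← mul_assoc, haa]
  have d1 : Module.finrank K (LinearMap.range (oM M (a * cen H φ))) = mM M φ := by
    rw [oM_rank hK M hfb hb hbb, Finset.sum_eq_single_of_mem φ hφ]
    · rw [← hca, rk_cen hφ hφ ha haa, if_pos rfl, h1, mul_one]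
    · intro ψ hψ hne
      rw [← hca, rk_cen hφ hψ ha haa, if_neg hne, mul_zero]
  have hrc : ∀ ψ ∈ ir Ω H, rk ψ (cen H φ) = if ψ = φ then Parker.dg φ else 0 := by
    intro ψ hψ
    have h2 := rk_cen hφ hψ (one_mem (sb Ω H)) (one_mul 1)
    rw [mul_one, rk_one hφ] at h2
    exact h2
  have d2 : Module.finrank K (LinearMap.range (oM M (cen H φ))) = mM M φ * Parker.dg φ := by
    rw [oM_rank hK M hfc hce hcc, Finset.sum_eq_single_of_mem φ hφ]
    · rw [hrc φ hφ, if_pos rfl]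
    · intro ψ hψ hne
      rw [hrc ψ hψ, if_neg hne, mul_zero]
  have d3 : Module.finrank K (Y H (dn K (a * cen H φ))) *
      Module.finrank K (LinearMap.range (oM M (a * cen H φ))) =
        Module.finrank K (LinearMap.range (oM M (cen H φ))) := by
    have h2 := (eq D M).finrank_eq
    rw [Module.finrank_tensorProduct] at h2
    exact h2
  rw [e1, ParkerGL.dcf_tform hK (bt_nondeg D hg) hgn, e2]
  rcases Nat.eq_zero_or_pos (mM M φ) with hm | hm
  · have d4 : Module.finrank K (LinearMap.range (op M.ρ (dn K (a * cen H φ)))) = 0 := by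
      rw [← hm]
      exact d1
    have e3 : dcf c Γ (gm M (dn K (a * cen H φ)) (dn K j)) = 1 :=
      ParkerGL.dcf_finrank_zero d4 _
    rw [e3, one_pow]
    exact q_comm _ _
  · have d4 : Module.finrank K (Y H (dn K (a * cen H φ))) = Parker.dg φ := by
      rw [d1, d2, mul_comm] at d3
      exact Nat.eq_of_mul_eq_mul_left hm d3
    obtain ⟨q, hq⟩ := hd
    have e3 : dcf c Γ (gm M (dn K (a * cen H φ)) (dn K j)) ^ (2 * q + 1) =
        dcf c Γ (gm M (dn K (a * cen H φ)) (dn K j)) := by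
      rw [pow_succ, pow_mul, pow_two, ParkerGL.dcf_sq hK, one_pow]
      exact one_mul _
    rw [d4, hq, e3]
    exact q_comm _ _

/-- the form `B (v, j w)` on the range of `a * cen H φ` is nondegenerate and symmetric -/
theorem bj_nondeg (hK : FixedField Γ K) {φ : G → Ω} (hφ : φ ∈ ir Ω H) (hfx : ∀ g, Parker.Fx Γ (φ g))
    (hr : rl φ) {a j : Al Ω G} (ha : a ∈ sb Ω H) (haa : a * a = a)
    (hfa : FxA Γ a) (h1 : rk φ a = 1) (hj : j ∈ sb Ω H) (hfj : FxA Γ j)
    (hsj : st (st a * j * a) = st a * j * a) (hj0 : st a * j * a * cen H φ ≠ 0) (M : QM K H) :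
    ∀ v ∈ LinearMap.range (oM M (a * cen H φ)),
      (∀ w ∈ LinearMap.range (oM M (a * cen H φ)), bj M j v w = 0) → v = 0 := by
  have D := exists_dt hK hφ hfx hr ha haa hfa h1 hj hfj hsj hj0
  intro v hv h
  exact nondeg D hv h

end

end LieP
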