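import Pool.Agent.LieP.G06
import Pool.Agent.LieP.G10
import Pool.Agent.LieP.A02
import Pool.Agent.LieP.A08

/-!
# MP_6c3636_al, LieP, module V01: the dimension of the space of the Whittaker vectors (helper64)

Section 8, (8.2), (8.3). `Rg_rk`: `Rg_conj` gives `s ∈ L z` with `l' u = l (s u s⁻¹)` on `U z`, so `el Ω (U z) l' = dl s⁻¹ * el Ω (U z) l * dl s` (`el_conj` with `n = s⁻¹`, `L_conj`, `el_congr`); `rk_cjg` and `cjg_of_mem` (`s ∈ L z ≤ H`).
`gen_eq`: let `z'`, `l'` be the choice in the definition of `S.gen` (the `if` is positive). By `s12` there is `n ∈ N` with `ac n z'` in the facet of `z` (`eqv_iff`). The character `u ↦ l' (n⁻¹ u n)` is regular for `ac n z'` (`Rg_ac`), so for `z` (`Rg_eqv`), `U (ac n z') = U z` (`U_eqv`),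
`el_conj` (with `conj_U`), `rk_cjg`, `cjg_of_mem` (`n ∈ N ≤ H`), then `Rg_rk`.
`rk_le_one_of_comm`: suppose `2 ≤ rk φ e`. `exists_prim` gives a primitive `b` of type `φ` with `e b = b = b e`; `e - b` is an idempotent of positive rank (`rk_add`), `exists_prim` gives a primitive `b'` of type `φ` with `(e - b) b' = b' = b' (e - b)`, so `b b' = 0`, `e b' = b' = b' e`. `prim_equiv`: `x ∈ cr H b b'`, `y ∈ cr H b' b` with `x y = b`, `y x = b'`
(so `e x = x = x e`, same for `y`). `e x e y e = e y e x e` gives `b = b'`, so `b = b b = b b' = 0`, contradiction.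
`gen_le`: `exists_gn`, `exists_Rg`, `w4` with `y = 0` (`L 0 = H`, `U z ⊓ L 0 = U z`), `rk_le_one_of_comm`, `gen_eq`.
`gen_congr`: `gn`, `le`, `Rg`, `gen` depend only on the fields `R` and `U`. `lev_reg_gen`, `lev_lev_gen`: `gen_congr`; the roots: `mem_lR`, `cm_zero`; the groups `U`: `L_reg`, `L_cm`.
-/

namespace LieP

noncomputable section

open Classical

variable {Ω : Type} [Field Ω] [IsAlgClosed Ω] [CharZero Ω] {G E : Type} [Group G] [Finite G]
  [NormedAddCommGroup E] [InnerProductSpace ℝ E] [FiniteDimensional ℝ E] (S : LieSys G E)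

theorem Rg_rk {z : E} (hz : S.gn z) {l l' : G → ℤˣ} (h : S.Rg z l) (h' : S.Rg z l') {φ : G → Ω}
    (hφ : φ ∈ ir Ω S.H) : rk φ (el Ω (S.U z) l) = rk φ (el Ω (S.U z) l') := by
  obtain ⟨s, hs, hl⟩ := Rg_conj S hz h h'
  have hsi : s⁻¹ ∈ S.L z := (S.L z).inv_mem hs
  have h1 : ∀ u, u ∈ S.U z ↔ s⁻¹ * u * s⁻¹⁻¹ ∈ S.U z := fun u => (L_conj S hsi).symm
  have h2 := el_conj (k := Ω) h1 l
  have h3 : el Ω (S.U z) (fun g => l (s⁻¹⁻¹ * g * s⁻¹)) = el Ω (S.U z) l' := by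
    refine el_congr fun u hu => ?_
    rw [inv_inv, hl u hu]
  have h4 := rk_cjg s⁻¹ φ (el Ω (S.U z) l)
  rw [h2, h3, cjg_of_mem hφ (S.LH z hsi)] at h4
  exact h4.symm

private theorem V01_aux {z : E} (hz : S.gn z) {l : G → ℤˣ} (hl : S.Rg z l) {φ : G → Ω}
    (hφ : φ ∈ ir Ω S.H) (z' : E) (l' : G → ℤˣ) (hz' : S.gn z') (hl' : S.Rg z' l') :
    rk φ (el Ω (S.U z') l') = rk φ (el Ω (S.U z) l) := by
  obtain ⟨n, hn, hnz⟩ := S.s12 z' z hz' hz
  have heq : S.eqv (S.ac n z') z := (eqv_iff S).2 hnz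
  have hR := Rg_eqv S (Rg_ac S hl' hn) heq
  rw [← Rg_rk S hz hR hl hφ]
  have h1 := el_conj (k := Ω) (U := S.U z') (U' := S.U (S.ac n z')) (fun u => conj_U S hn) l'
  have h4 := rk_cjg n φ (el Ω (S.U z') l')
  rw [h1, cjg_of_mem hφ (S.NH hn), U_eqv S heq] at h4
  exact h4.symm

theorem gen_eq {z : E} (hz : S.gn z) {l : G → ℤˣ} (hl : S.Rg z l) {φ : G → Ω}
    (hφ : φ ∈ ir Ω S.H) : S.gen φ = rk φ (el Ω (S.U z) l) := by
  have hex : ∃ (z : E) (l : G → ℤˣ), S.gn z ∧ S.Rg z l := ⟨z, l, hz, hl⟩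
  have e : S.gen φ = rk φ (el Ω (S.U hex.choose) hex.choose_spec.choose) := dif_pos hex
  rw [e]
  exact V01_aux S hz hl hφ _ _ hex.choose_spec.choose_spec.1 hex.choose_spec.choose_spec.2

theorem rk_le_one_of_comm {H : Subgroup G} {φ : G → Ω} (hφ : φ ∈ ir Ω H) {e : Al Ω G}
    (he : e ∈ sb Ω H) (hee : e * e = e)
    (hc : ∀ a ∈ sb Ω H, ∀ b ∈ sb Ω H, e * a * e * b * e = e * b * e * a * e) : rk φ e ≤ 1 := by
  by_contra hcon
  have h2 : 2 ≤ rk φ e := by omega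
  obtain ⟨b, hb, hbb, heb, hbe, hb0, -, hb1, hbz, -⟩ := exists_prim hφ he hee (by omega)
  have he' : e - b ∈ sb Ω H := sub_mem he hb
  have hee' : (e - b) * (e - b) = e - b := by
    rw [mul_sub, sub_mul, sub_mul, hee, heb, hbe, hbb, sub_self, sub_zero]
  have hb1' : b * (e - b) = 0 := by rw [mul_sub, hbe, hbb, sub_self]
  have hb2' : (e - b) * b = 0 := by rw [sub_mul, heb, hbb, sub_self]
  have hr : rk φ e = rk φ b + rk φ (e - b) := by
    rw [← rk_add hφ hb hbb he' hee' hb1' hb2', add_sub_cancel]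
  obtain ⟨b', hb', hbb', heb', hbe', hb0', -, hb1'', hbz', -⟩ :=
    exists_prim hφ he' hee' (by omega)
  have h3 : b * b' = 0 := by rw [← heb', ← mul_assoc, hb1', zero_mul]
  have h4 : e * b' = b' := by
    calc e * b' = e * ((e - b) * b') := by rw [heb']
      _ = (e * (e - b)) * b' := by rw [mul_assoc]
      _ = (e - b) * b' := by rw [mul_sub, hee, heb]
      _ = b' := heb'
  have h5 : b' * e = b' := by
    calc b' * e = (b' * (e - b)) * e := by rw [hbe']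
      _ = b' * ((e - b) * e) := by rw [mul_assoc]
      _ = b' * (e - b) := by rw [sub_mul, hee, hbe]
      _ = b' := hbe'
  obtain ⟨x, hx, y, hy, hxy, hyx⟩ := prim_equiv hφ hb hbb hb' hbb' hb1 hb1'' hbz hbz'
  obtain ⟨x0, hx0, rfl⟩ := hx
  obtain ⟨y0, hy0, rfl⟩ := hy
  change b * (x0 * b') * (b' * (y0 * b)) = b at hxy
  change b' * (y0 * b) * (b * (x0 * b')) = b' at hyx
  have hx1 : b * (x0 * b') ∈ sb Ω H := mul_mem hb (mul_mem hx0 hb')
  have hy1 : b' * (y0 * b) ∈ sb Ω H := mul_mem hb' (mul_mem hy0 hb)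
  have hex : e * (b * (x0 * b')) = b * (x0 * b') := by rw [← mul_assoc, heb]
  have hxe : b * (x0 * b') * e = b * (x0 * b') := by rw [mul_assoc, mul_assoc, h5]
  have hey : e * (b' * (y0 * b)) = b' * (y0 * b) := by rw [← mul_assoc, h4]
  have hye : b' * (y0 * b) * e = b' * (y0 * b) := by rw [mul_assoc, mul_assoc, hbe]
  have h6 := hc _ hx1 _ hy1
  rw [hex, hxe, hxy, hbe, hey, hye, hyx, h5] at h6
  rw [← h6, hbb] at h3
  exact hb0 h3

theorem gen_le {φ : G → Ω} (hφ : φ ∈ ir Ω S.H) : S.gen φ ≤ 1 := by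
  obtain ⟨z, hz⟩ := exists_gn S
  obtain ⟨l, -, hl⟩ := exists_Rg S hz
  rw [gen_eq S hz hl hφ]
  refine rk_le_one_of_comm hφ (el_mem (S.UH z) l) (el_idem hl.1) ?_
  have hL : S.U z ⊓ S.L 0 = S.U z := by
    rw [S.s3]
    exact inf_eq_left.2 (S.UH z)
  have h := S.w4 z hz 0 (fun a _ h => absurd h (by rw [inner_zero_right]; exact lt_irrefl _)) l
    (by rw [hL]; exact hl.1)
    (fun y' hy' hu a ha _ => hl.2 y' hy' (fun u hu' => hu u hu' (by rw [S.s3]; exact S.UH y' hu')) a ha)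
    Ω
  intro a ha b hb
  have h1 := h a (by rwa [S.s3]) b (by rwa [S.s3])
  rwa [hL] at h1

omit [IsAlgClosed Ω] [CharZero Ω] [FiniteDimensional ℝ E] in
theorem gen_congr {S S' : LieSys G E} (hR : S.R = S'.R) (hU : S.U = S'.U) (φ : G → Ω) :
    S.gen φ = S'.gen φ := by
  cases S
  cases S'
  dsimp only at hR hU
  subst hR
  subst hU
  rfl

theorem lev_reg_gen {y y' : E} (h : S.Reg y y') (φ : G → Ω) : (lev S y').gen φ = (lev S y).gen φ := by
  apply gen_congr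
  · show lR S y' = lR S y
    ext a
    rw [mem_lR, mem_lR]
    exact and_congr_right fun ha => h a ha
  · show lU S y' = lU S y
    funext x
    show S.U x ⊓ S.L y' = S.U x ⊓ S.L y
    rw [L_reg S h]

theorem lev_lev_gen (y0 y1 : E) (φ : G → Ω) :
    (lev (lev S y0) y1).gen φ = (lev S (S.cm y0 y1)).gen φ := by
  apply gen_congr
  · show lR (lev S y0) y1 = lR S (S.cm y0 y1)
    ext a
    rw [mem_lR, mem_lR]
    show a ∈ lR S y0 ∧ _ ↔ _
    rw [mem_lR]
    constructor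
    · rintro ⟨⟨h1, h2⟩, h3⟩
      exact ⟨h1, (cm_zero S h1).2 ⟨h2, h3⟩⟩
    · rintro ⟨h1, h2⟩
      have h3 := (cm_zero S h1).1 h2
      exact ⟨⟨h1, h3.1⟩, h3.2⟩
  · show lU (lev S y0) y1 = lU S (S.cm y0 y1)
    funext x
    show (S.U x ⊓ S.L y0) ⊓ (S.L y1 ⊓ S.L y0) = S.U x ⊓ S.L (S.cm y0 y1)
    rw [L_cm]
    ext g
    simp only [Subgroup.mem_inf]
    tauto

end

end LieP
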