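import Pool.Agent.LieP.V05
import Pool.Agent.LieP.V01

/-!
# MP_6c3636_al, LieP, module V06: Whittaker vectors in induced modules (8.4), part 2 (helper64)

Section 8, (8.4). `el_split`: `U z = U y (U z ⊓ L y)` for a face `y` of `z` (`z` is in the facet of `cm y z` (`cm_eqv`), `mem_U_cm`), the intersection of the two factors is trivial (`U_L_disj`), `el_eq_mul`.
`rod_inj`: the coefficient of `el Ω V l * b * av U` (`V = U (-x)`, `U = U x`) at `g ∈ L x` is the sum of `el(v) b(m) av(u)` over `v m u = g`; with `v ∈ U (-x)`, `m ∈ L x`, `u ∈ U x` the only solution is `v = 1`, `m = g`, `u = 1` (`decomp_unique` for `-x`, `L_neg`, `neg_neg`), so it is `|V|⁻¹ |U|⁻¹ b(g)`.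
Alternatively: multiply with `dl m⁻¹` and use `t`: `t (el * b * av * dl m⁻¹) = t (b * dl m⁻¹ * ...)`.
`rod_finrank`: the map `b ↦ el Ω (U (-x)) l * b * S.e Ω x` is injective on `sb Ω (L x)` (`rod_inj`) and maps `cr (L x) (el Ω (U z ⊓ L x) l) p` onto `cr H (el Ω (U z) l) (S.e Ω x * p)`: `el Ω (U z) l = el Ω (U (-x)) l * el Ω (U z ⊓ L x) l` (`el_split` with `y = -x`, `L_neg`), `p` commutes with `S.e Ω x` (`av_comm`), and
for `a ∈ sb Ω H`: `el Ω (U z) l * a * (S.e Ω x * p) = el Ω (U z) l * b * S.e Ω x * p` (`rod_span_sb`). Elements of `cr H a b` are `a * x * b`, `x ∈ sb Ω H`.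
`rodier`: `exists_gn_ge (-x)` gives `z`, `exists_Rg` gives `l`; `finrank_cr` for `H` and for `L x`; `gen_eq` for `S` and for `lev S (-x)` (`Rg_lev`, `lev_gn_of`; `(lev S (-x)).U z = U z ⊓ L (-x)`, `L_neg`), `lev_reg_gen` with `reg_neg`.
-/

namespace LieP

noncomputable section

open Classical

variable {Ω : Type} [Field Ω] [IsAlgClosed Ω] [CharZero Ω] {G E : Type} [Group G] [Finite G]
  [NormedAddCommGroup E] [InnerProductSpace ℝ E] [FiniteDimensional ℝ E] (S : LieSys G E)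

omit [IsAlgClosed Ω] in
theorem el_split {z y : E} (hy : S.le y z) {l : G → ℤˣ} (hl : Lin (S.U z) l) :
    el Ω (S.U z) l = el Ω (S.U y) l * el Ω (S.U z ⊓ S.L y) l := by
  refine el_eq_mul hl (U_mono S hy) inf_le_left (fun g hg => ?_) (fun g hg hg' => ?_)
  · rw [← U_eqv S (cm_eqv S hy)] at hg
    obtain ⟨a, ha, b, hb, hb', h⟩ := (mem_U_cm S).1 hg
    exact ⟨a, ha, b, ⟨hb, hb'⟩, h⟩
  · exact U_L_disj S hg hg'.2

omit [IsAlgClosed Ω] in
theorem el_split_one {z y : E} (hy : S.le y z) {l : G → ℤˣ} (hl : Lin (S.U z) l)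
    (h1 : ∀ u ∈ S.U y, l u = 1) : el Ω (S.U z) l = S.e Ω y * el Ω (S.U z ⊓ S.L y) l := by
  rw [el_split S hy hl, el_one_av h1]
  rfl

omit [IsAlgClosed Ω] in
theorem e_face_av {x y : E} (hy : S.le y x) : S.e Ω x = S.e Ω y * av Ω (S.U x ⊓ S.L y) := by
  symm
  refine av_eq_mul' (U_mono S hy) inf_le_left (fun g hg => ?_)
  rw [← U_eqv S (cm_eqv S hy)] at hg
  obtain ⟨a, ha, b, hb, hb', h⟩ := (mem_U_cm S).1 hg
  exact ⟨a, ha, b, ⟨hb, hb'⟩, h⟩

omit [IsAlgClosed Ω] in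
theorem rod_inj {x : E} {l : G → ℤˣ} (hl : Lin (S.U (-x)) l) {b : Al Ω G} (hb : b ∈ sb Ω (S.L x))
    (h : el Ω (S.U (-x)) l * b * S.e Ω x = 0) : b = 0 := by
  haveI : Fintype G := Fintype.ofFinite G
  have hV : (Nat.card (S.U (-x)) : Ω) ≠ 0 := Nat.cast_ne_zero.2 Nat.card_pos.ne'
  have hU : (Nat.card (S.U x) : Ω) ≠ 0 := Nat.cast_ne_zero.2 Nat.card_pos.ne'
  apply al_ext
  intro g
  by_cases hg : g ∈ S.L x
  · have h1 : (el Ω (S.U (-x)) l * b * S.e Ω x).coeff g = 0 := by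
      rw [h]
      rfl
    rw [mul_assoc, coeff_mul_fin, Finset.sum_eq_single 1] at h1
    · rw [inv_one, one_mul, coeff_mul_fin, Finset.sum_eq_single g] at h1
      · rw [coeff_el, if_pos (S.U (-x)).one_mem, lin_one hl, inv_mul_cancel] at h1
        unfold LieSys.e at h1
        rw [coeff_av, if_pos (S.U x).one_mem] at h1
        simp only [Units.val_one, Int.cast_one, mul_one, mul_eq_zero, inv_eq_zero] at h1
        rcases h1 with h1 | h1 | h1
        · exact absurd h1 hV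
        · exact h1
        · exact absurd h1 hU
      · intro m _ hm
        by_cases hm1 : m ∈ S.L x
        · unfold LieSys.e
          rw [coeff_av, if_neg, mul_zero]
          intro h2
          apply hm
          have h3 := U_L_disj S h2 ((S.L x).mul_mem ((S.L x).inv_mem hm1) hg)
          exact inv_mul_eq_one.1 h3
        · rw [hb m hm1, zero_mul]
      · intro h2
        exact absurd (Finset.mem_univ _) h2
    · intro v _ hv
      by_cases hv1 : v ∈ S.U (-x)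
      · rw [coeff_mul_fin, Finset.sum_eq_zero, mul_zero]
        intro m _
        by_cases hm1 : m ∈ S.L x
        · unfold LieSys.e
          rw [coeff_av, if_neg, mul_zero]
          intro h2
          apply hv
          have h3 : v * m * (m⁻¹ * (v⁻¹ * g)) = 1 * g * 1 := by group
          have h4 := decomp_unique S (x := -x) hv1 (by rw [L_neg]; exact hm1)
            (by rw [neg_neg]; exact h2) (S.U (-x)).one_mem (by rw [L_neg]; exact hg)
            (S.U (- -x)).one_mem h3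
          exact h4.1
        · rw [hb m hm1, zero_mul]
      · rw [coeff_el, if_neg hv1, zero_mul]
    · intro h2
      exact absurd (Finset.mem_univ _) h2
  · rw [hb g hg]
    rfl

theorem rod_finrank {z : E} (hz : S.gn z) {l : G → ℤˣ} (hl : S.Rg z l) {x : E} (hx : S.le (-x) z)
    {p : Al Ω G} (hp : p ∈ sb Ω (S.L x)) :
    Module.finrank Ω (cr S.H (el Ω (S.U z) l) (S.e Ω x * p)) =
      Module.finrank Ω (cr (S.L x) (el Ω (S.U z ⊓ S.L x) l) p) := by
  have hsplit : el Ω (S.U z) l = el Ω (S.U (-x)) l * el Ω (S.U z ⊓ S.L x) l := by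
    have h1 := el_split (Ω := Ω) S hx hl.1
    rwa [L_neg] at h1
  have hlx : Lin (S.U (-x)) l := fun u hu v hv => hl.1 u (U_mono S hx hu) v (U_mono S hx hv)
  have hpe : p * S.e Ω x = S.e Ω x * p := av_comm (fun l hl u hu => S.s4 x l hl u hu) hp
  have helL : el Ω (S.U z ⊓ S.L x) l ∈ sb Ω (S.L x) := el_mem inf_le_right l
  set F : Al Ω G →ₗ[Ω] Al Ω G :=
    (LinearMap.mulLeft Ω (el Ω (S.U (-x)) l)).comp (LinearMap.mulRight Ω (S.e Ω x)) with hF
  have hFa : ∀ b, F b = el Ω (S.U (-x)) l * (b * S.e Ω x) := fun b => rfl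
  set M := cr (S.L x) (el Ω (S.U z ⊓ S.L x) l) p with hM
  have hMsb : ∀ b ∈ M, b ∈ sb Ω (S.L x) := by
    rintro _ ⟨y, hy, rfl⟩
    exact (sb Ω (S.L x)).mul_mem helL ((sb Ω (S.L x)).mul_mem hy hp)
  have hmap : M.map F = cr S.H (el Ω (S.U z) l) (S.e Ω x * p) := by
    ext c
    constructor
    · rintro ⟨_, ⟨y, hy, rfl⟩, rfl⟩
      refine ⟨y, sb_mono (S.LH x) hy, ?_⟩
      show el Ω (S.U z) l * (y * (S.e Ω x * p)) =
        el Ω (S.U (-x)) l * (el Ω (S.U z ⊓ S.L x) l * (y * p) * S.e Ω x)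
      rw [hsplit, ← hpe]
      simp only [mul_assoc]
    · rintro ⟨a, ha, rfl⟩
      obtain ⟨b, hb, hab⟩ := rod_span_sb (k := Ω) S hz hl hx ha
      refine ⟨el Ω (S.U z ⊓ S.L x) l * (b * p), ⟨b, hb, rfl⟩, ?_⟩
      show el Ω (S.U (-x)) l * (el Ω (S.U z ⊓ S.L x) l * (b * p) * S.e Ω x) =
        el Ω (S.U z) l * (a * (S.e Ω x * p))
      have h1 : el Ω (S.U z) l * (a * (S.e Ω x * p)) = el Ω (S.U z) l * b * S.e Ω x * p := by
        rw [← hab]
        simp only [mul_assoc]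
      rw [h1, mul_assoc (el Ω (S.U z) l * b), ← hpe, hsplit]
      simp only [mul_assoc]
  rw [← hmap]
  have hinj : Function.Injective (F.domRestrict M) := by
    rw [← LinearMap.ker_eq_bot, LinearMap.ker_eq_bot']
    rintro ⟨b, hb⟩ hb0
    apply Subtype.ext
    refine rod_inj S hlx (hMsb b hb) ?_
    have h1 : F b = 0 := hb0
    rw [hFa] at h1
    rw [mul_assoc]
    exact h1
  have hrange : LinearMap.range (F.domRestrict M) = M.map F := by
    rw [LinearMap.range_domRestrict]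
  rw [← hrange, LinearMap.finrank_range_of_inj hinj]

/-- (8.4) -/
theorem rodier (x : E) {p : Al Ω G} (hp : p ∈ sb Ω (S.L x)) (hpp : p * p = p) :
    ∑ φ ∈ ir Ω S.H, S.gen φ * rk φ (S.e Ω x * p) = ∑ ψ ∈ ir Ω (S.L x), (lev S x).gen ψ * rk ψ p := by
  obtain ⟨z, hz, hx⟩ := exists_gn_ge S (-x)
  obtain ⟨l, _, hl⟩ := exists_Rg S hz
  have heL : S.e Ω x ∈ sb Ω S.H := av_mem (S.UH x)
  have hpH : p ∈ sb Ω S.H := sb_mono (S.LH x) hp
  have hpe : p * S.e Ω x = S.e Ω x * p := av_comm (fun l hl u hu => S.s4 x l hl u hu) hp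
  have hee : S.e Ω x * S.e Ω x = S.e Ω x := av_idem _
  have hidem : S.e Ω x * p * (S.e Ω x * p) = S.e Ω x * p := by
    calc S.e Ω x * p * (S.e Ω x * p) = S.e Ω x * (p * S.e Ω x) * p := by simp only [mul_assoc]
      _ = S.e Ω x * S.e Ω x * (p * p) := by rw [hpe]; simp only [mul_assoc]
      _ = S.e Ω x * p := by rw [hee, hpp]
  have hlin : Lin (S.U z ⊓ S.L x) l := fun u hu v hv => hl.1 u hu.1 v hv.1
  have h1 : ∑ φ ∈ ir Ω S.H, S.gen φ * rk φ (S.e Ω x * p) =
      Module.finrank Ω (cr S.H (el Ω (S.U z) l) (S.e Ω x * p)) := by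
    rw [finrank_cr (el_mem (S.UH z) l) (el_idem hl.1) ((sb Ω S.H).mul_mem heL hpH) hidem]
    exact Finset.sum_congr rfl (fun φ hφ => by rw [gen_eq S hz hl hφ])
  have h2 : ∑ ψ ∈ ir Ω (S.L x), (lev S x).gen ψ * rk ψ p =
      Module.finrank Ω (cr (S.L x) (el Ω (S.U z ⊓ S.L x) l) p) := by
    rw [finrank_cr (el_mem inf_le_right l) (el_idem hlin) hp hpp]
    refine Finset.sum_congr rfl (fun ψ hψ => ?_)
    have h3 : (lev S (-x)).gen ψ = rk ψ (el Ω ((lev S (-x)).U z) l) := by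
      refine gen_eq (lev S (-x)) (lev_gn_of S hz) (Rg_lev S hz hx hl) ?_
      have h4 : (lev S (-x)).H = S.L x := L_neg S x
      rw [h4]
      exact hψ
    have h4 : (lev S (-x)).U z = S.U z ⊓ S.L x := by
      show S.U z ⊓ S.L (-x) = _
      rw [L_neg]
    rw [← lev_reg_gen S (reg_neg S (reg_refl S x)) ψ, h3, h4]
  rw [h1, h2]
  exact rod_finrank S hz hl hx hp

end

end LieP
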