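import Pool.Agent.LieP.Defs5
import Pool.Agent.LieP.Q01
import Pool.Agent.LieP.V06
import Pool.Agent.LieP.A09

/-!
# MP_6c3636_al, LieP, module Q11: cuspidal idempotents with fixed coefficients (helper7)

Section 11, beginning. Let `ρ ∈ ir (L D.x)` be the type of `ε` (`prim_unique`). `D.gnr` gives `z ≥ D.x` generic and `l` with `el a ε ≠ 0`, `el = el Ω (U z ⊓ L D.x) l`, so `rk ρ el ≠ 0` and by (W4) (`V` series: `gen_le` for `lev S D.x`, `gen_eq`, `lev_Rg_iff`) `rk ρ el = 1`. `ε' = el * cen (L D.x) ρ`: an idempotent (they commute), primitive of type `ρ` (`prim_of_rk`),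
fixed coefficients (`fx_el`, `fx_cen`). `lft`, `rgt`: `av (U y ⊓ L) * cen ρ = 0` since it is killed by `ε` on both sides and `ρ` is irreducible (`rk ρ (av) = 0` by `D.lft`). `Ser`: `rk φ (e x * ε)` depends only on the type of `ε` (`mt_prim`: it is `mt (L x) φ (e x) ρ`).
`exists_fx_lin`: `lin D' D n` is spanned by the elements `ε' * dl l * dl n * ε`, `l ∈ L`, with fixed coefficients.
-/

namespace LieP

noncomputable section

open Classical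

open ParkerGL (QM Qg cl dcf FixedField)

variable {Ω : Type} [Field Ω] [IsAlgClosed Ω] [CharZero Ω] {c : Parker.Ctx Ω}
  {Γ : Subgroup (RingAut Ω)} {K : Type} [Field K] [CharZero K] [Algebra K Ω]
  {G E : Type} [Group G] [Finite G] [NormedAddCommGroup E] [InnerProductSpace ℝ E]
  [FiniteDimensional ℝ E] {S : LieSys G E}

theorem exists_fixD (D : S.Cs Ω) (hD : D.gnr) (hF : ∀ φ ∈ ir Ω (S.L D.x), ∀ g, Parker.Fx Γ (φ g)) :
    ∃ D' : S.Cs Ω, D'.x = D.x ∧ FxA Γ D'.ε ∧ D'.gnr ∧ D'.Ser = D.Ser := by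
  obtain ⟨z, l, hz, hxz, hl, hreg, a0, ha0, hne⟩ := hD
  obtain ⟨ρ, hρ, hr1, hr0⟩ := prim_unique D.mem D.idem D.ne D.prim
  have elm : el Ω (S.U z ⊓ S.L D.x) l ∈ sb Ω (S.L D.x) := el_mem inf_le_right l
  have eli : el Ω (S.U z ⊓ S.L D.x) l * el Ω (S.U z ⊓ S.L D.x) l = el Ω (S.U z ⊓ S.L D.x) l :=
    el_idem hl
  have h1 : rk ρ (el Ω (S.U z ⊓ S.L D.x) l) ≠ 0 := by
    obtain ⟨φ, hφ, h2, h3⟩ := (exists_common elm eli D.mem D.idem).1 ⟨a0, ha0, hne⟩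
    by_cases h4 : φ = ρ
    · rw [← h4]
      exact h2
    · exact absurd (hr0 φ hφ h4) h3
  have h2 : rk ρ (el Ω (S.U z ⊓ S.L D.x) l) = 1 := by
    have g1 : (lev S D.x).gn z := lev_gn_of S hz
    have g2 : (lev S D.x).Rg z l := (lev_Rg_iff S hxz).2 ⟨hl, hreg⟩
    have g3 : (lev S D.x).gen ρ = rk ρ (el Ω (S.U z ⊓ S.L D.x) l) := gen_eq (lev S D.x) g1 g2 hρ
    have g4 : (lev S D.x).gen ρ ≤ 1 := gen_le (lev S D.x) hρ
    rw [g3] at g4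
    exact Nat.le_antisymm g4 (Nat.pos_of_ne_zero h1)
  have cm : cen (S.L D.x) ρ ∈ sb Ω (S.L D.x) := cen_mem ρ hρ
  have ec : cen (S.L D.x) ρ * el Ω (S.U z ⊓ S.L D.x) l = el Ω (S.U z ⊓ S.L D.x) l * cen (S.L D.x) ρ :=
    cen_comm hρ elm
  have m' : el Ω (S.U z ⊓ S.L D.x) l * cen (S.L D.x) ρ ∈ sb Ω (S.L D.x) :=
    (sb Ω (S.L D.x)).mul_mem elm cm
  have i' : el Ω (S.U z ⊓ S.L D.x) l * cen (S.L D.x) ρ *
      (el Ω (S.U z ⊓ S.L D.x) l * cen (S.L D.x) ρ) =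
      el Ω (S.U z ⊓ S.L D.x) l * cen (S.L D.x) ρ := by
    rw [mul_assoc, ← mul_assoc (cen (S.L D.x) ρ), ec, mul_assoc, cen_idem hρ, ← mul_assoc, eli]
  have r1 : rk ρ (el Ω (S.U z ⊓ S.L D.x) l * cen (S.L D.x) ρ) = 1 := by
    rw [← ec, rk_cen hρ hρ elm eli, if_pos rfl, h2]
  have r0 : ∀ ψ ∈ ir Ω (S.L D.x), ψ ≠ ρ →
      rk ψ (el Ω (S.U z ⊓ S.L D.x) l * cen (S.L D.x) ρ) = 0 := by
    intro ψ hψ hne'
    rw [← ec, rk_cen hρ hψ elm eli, if_neg hne']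
  obtain ⟨n', p'⟩ := prim_of_rk m' i' hρ r1 r0
  have avz : ∀ y, (∃ g ∈ S.U y, g ∈ S.L D.x ∧ g ≠ 1) → rk ρ (av Ω (S.U y ⊓ S.L D.x)) = 0 := by
    intro y hy
    by_contra h3
    have am : av Ω (S.U y ⊓ S.L D.x) ∈ sb Ω (S.L D.x) := av_mem inf_le_right
    obtain ⟨a, ha, h4⟩ := (exists_common am (av_idem _) D.mem D.idem).2
      ⟨ρ, hρ, h3, by rw [hr1]; exact one_ne_zero⟩
    exact h4 (D.lft y hy a ha)
  have lft' : ∀ y, (∃ g ∈ S.U y, g ∈ S.L D.x ∧ g ≠ 1) → ∀ a ∈ sb Ω (S.L D.x),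
      av Ω (S.U y ⊓ S.L D.x) * a * (el Ω (S.U z ⊓ S.L D.x) l * cen (S.L D.x) ρ) = 0 := by
    intro y hy a ha
    by_contra h3
    have am : av Ω (S.U y ⊓ S.L D.x) ∈ sb Ω (S.L D.x) := av_mem inf_le_right
    obtain ⟨φ, hφ, h4, h5⟩ := (exists_common am (av_idem _) m' i').1 ⟨a, ha, h3⟩
    by_cases h6 : φ = ρ
    · rw [h6] at h4
      exact h4 (avz y hy)
    · exact h5 (r0 φ hφ h6)
  have rgt' : ∀ y, (∃ g ∈ S.U y, g ∈ S.L D.x ∧ g ≠ 1) → ∀ a ∈ sb Ω (S.L D.x),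
      el Ω (S.U z ⊓ S.L D.x) l * cen (S.L D.x) ρ * a * av Ω (S.U y ⊓ S.L D.x) = 0 := by
    intro y hy a ha
    by_contra h3
    have am : av Ω (S.U y ⊓ S.L D.x) ∈ sb Ω (S.L D.x) := av_mem inf_le_right
    obtain ⟨φ, hφ, h4, h5⟩ := (exists_common m' i' am (av_idem _)).1 ⟨a, ha, h3⟩
    by_cases h6 : φ = ρ
    · rw [h6] at h5
      exact h5 (avz y hy)
    · exact h4 (r0 φ hφ h6)
  refine ⟨⟨D.x, el Ω (S.U z ⊓ S.L D.x) l * cen (S.L D.x) ρ, m', i', n',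
    fun a ha => ⟨_, p' a ha⟩, lft', rgt'⟩, rfl, fx_mul (fx_el _ l) (fx_cen _ (hF ρ hρ)), ?_, ?_⟩
  · refine ⟨z, l, hz, hxz, hl, hreg, ?_⟩
    exact (exists_common elm eli m' i').2 ⟨ρ, hρ, h1, by rw [r1]; exact one_ne_zero⟩
  · refine Finset.filter_congr fun φ hφ => ?_
    have hc : ∀ a ∈ sb Ω (S.L D.x), S.e Ω D.x * a = a * S.e Ω D.x := fun a ha => (e_comm ha).symm
    have e1 := mt_prim (S.LH D.x) hφ (e_mem D.x) (e_idem D.x) hc hρ m' i' r1 r0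
    have e2 := mt_prim (S.LH D.x) hφ (e_mem D.x) (e_idem D.x) hc hρ D.mem D.idem hr1 hr0
    show rk φ (S.e Ω D.x * (el Ω (S.U z ⊓ S.L D.x) l * cen (S.L D.x) ρ)) ≠ 0 ↔
      rk φ (S.e Ω D.x * D.ε) ≠ 0
    rw [← e1, ← e2]

theorem fx_e (x : E) : FxA Γ (S.e Ω x) := by
  exact fx_av _

theorem fx_f {D : S.Cs Ω} (h : FxA Γ D.ε) (x : E) : FxA Γ (D.f x) := by
  exact fx_mul (fx_e x) h

theorem fx_stD {D : S.Cs Ω} (h : FxA Γ D.ε) : FxA Γ (stD D).ε := by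
  exact fx_st h

theorem exists_fx_lin {D' D : S.Cs Ω} (h' : FxA Γ D'.ε) (h : FxA Γ D.ε) {n : G} (hn : n ∈ D'.NN D) :
    ∃ b ∈ lin D' D n, b ≠ 0 ∧ FxA Γ b := by
  by_contra hcon
  push Not at hcon
  have key : ∀ l ∈ S.L D'.x, D'.ε * dl l * dl n * D.ε = 0 := by
    intro l hl
    by_contra h0
    exact hcon _ ⟨dl l, dl_mem.2 hl, rfl⟩ h0
      (fx_mul (fx_mul (fx_mul h' (fx_dl l)) (fx_dl n)) h)
  obtain ⟨a, ha, hne⟩ := hn.2.2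
  apply hne
  refine sb_induction (p := fun a => D'.ε * a * dl n * D.ε = 0) ?_ ?_ ?_ ha
  · rw [mul_zero, zero_mul, zero_mul]
  · intro a b h1 h2
    show D'.ε * (a + b) * dl n * D.ε = 0
    rw [mul_add, add_mul, add_mul, h1, h2, add_zero]
  · intro r g hg
    show D'.ε * (r • dl g) * dl n * D.ε = 0
    rw [mul_smul_comm, smul_mul_assoc, smul_mul_assoc, key g hg, smul_zero]

end

end LieP
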