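import Pool.Agent.LieP.Q11
import Pool.Agent.LieP.O05

/-!
# MP_6c3636_al, LieP, module Q12: the normalised operators have fixed coefficients (helper89)

Section 11. The line `D.ln (rp w) x` is stable under `sg σ`, `σ ∈ Γ`, and its element with `tr D.star b = 1` is unique.
-/

namespace LieP

noncomputable section

open Classical

open ParkerGL (QM Qg cl dcf FixedField)

variable {Ω : Type} [Field Ω] [IsAlgClosed Ω] [CharZero Ω] {c : Parker.Ctx Ω}
  {Γ : Subgroup (RingAut Ω)} {K : Type} [Field K] [CharZero K] [Algebra K Ω]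
  {G E : Type} [Group G] [Finite G] [NormedAddCommGroup E] [InnerProductSpace ℝ E]
  [FiniteDimensional ℝ E] {S : LieSys G E}

theorem Q12_star {D : S.Cs Ω} (hg : D.gnr) (hF : ∀ φ ∈ ir Ω S.H, ∀ g, Parker.Fx Γ (φ g)) {σ : RingAut Ω}
    (hσ : σ ∈ Γ) (a : Al Ω G) : tr D.star (sg σ a) = σ (tr D.star a) := by
  rw [← tr_sg]
  congr 1
  have h : (fun g => σ (D.star g)) = D.star := funext fun g => hF _ (star_ir hg) g σ hσ
  rw [h]

theorem fx_T {D : S.Cs Ω} (hg : D.gnr) (he : FxA Γ D.ε) (hF : ∀ φ ∈ ir Ω S.H, ∀ g, Parker.Fx Γ (φ g))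
    {x : E} (hx : S.Reg D.x x) {w : E ≃ₗᵢ[ℝ] E} (hw : w ∈ D.W) : FxA Γ (D.T x w) := by
  rw [fxA_iff]
  intro σ hσ
  obtain ⟨-, h1, h2⟩ := T_spec hg hx hw
  refine T_uniq hg hx hw ?_ ?_
  · obtain ⟨a, ha, hb⟩ := h2
    have he' : sg σ D.ε = D.ε := fxA_iff.1 he σ hσ
    have hex : sg σ (S.e Ω x) = S.e Ω x := fxA_iff.1 (fx_e (Γ := Γ) (S := S) x) σ hσ
    refine ⟨sg σ a, sg_mem ha, ?_⟩
    rw [hb]
    simp only [sg_mul, sg_dl, he', hex]
  · rw [Q12_star hg hF hσ, h1, map_one]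

theorem Q12_uniq {A : Al Ω G} (h0 : A ≠ 0) {r r' : Ω} (hr : r ≠ 0) (hr' : r' ≠ 0)
    (h : (r • A) * (r • A) = r • A) (h' : (r' • A) * (r' • A) = r' • A) : r = r' := by
  rw [smul_mul_smul_comm] at h h'
  have h1 : A * A = r⁻¹ • A := by
    have h2 : (r * r) • (A * A) = (r * r) • (r⁻¹ • A) := by
      rw [h, smul_smul]
      congr 1
      field_simp
    exact smul_right_injective _ (mul_ne_zero hr hr) h2
  have h1' : A * A = r'⁻¹ • A := by
    have h2 : (r' * r') • (A * A) = (r' * r') • (r'⁻¹ • A) := by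
      rw [h', smul_smul]
      congr 1
      field_simp
    exact smul_right_injective _ (mul_ne_zero hr' hr') h2
  rw [h1] at h1'
  have h3 : (r⁻¹ - r'⁻¹) • A = 0 := by rw [sub_smul, h1', sub_self]
  rcases smul_eq_zero.1 h3 with h4 | h4
  · exact inv_injective (sub_eq_zero.1 h4)
  · exact absurd h4 h0

theorem Q12_wj {D : S.Cs Ω} {x : E} {J : Finset E} (hJ : J ⊆ sm D.Psi x) : wj J ≤ D.W := by
  unfold wj
  rw [Subgroup.closure_le]
  rintro _ ⟨a, ha, rfl⟩
  have h1 : a ∈ D.Psi := by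
    have h2 := hJ (Finset.mem_coe.1 ha)
    unfold sm ps at h2
    exact (Finset.mem_filter.1 (Finset.mem_filter.1 h2).1).1
  exact (of_Psi h1).2.2.2.1

theorem fx_eJ {D : S.Cs Ω} (hg : D.gnr) (hT : D.TaH) (he : FxA Γ D.ε)
    (hF : ∀ φ ∈ ir Ω S.H, ∀ g, Parker.Fx Γ (φ g)) {x : E} (hx : S.Reg D.x x) {J : Finset E}
    (hJ : J ⊆ sm D.Psi x) : FxA Γ (D.eJ x J) := by
  have hS : FxA Γ (heS Ω (D.T x) D.Psi x J) := by
    unfold heS
    refine finsum_induction (fun a => FxA Γ a) fx_zero (fun _ _ h1 h2 => fx_add h1 h2) (fun w => ?_)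
    refine fx_smul (fun σ _ => ?_) (fx_T hg he hF hx (Q12_wj hJ w.2))
    rw [map_pow, map_neg, map_one]
  show FxA Γ (LieP.he Ω (D.T x) D.Psi x J)
  unfold LieP.he
  split_ifs with h
  · obtain ⟨h1, h2⟩ := h.choose_spec
    by_cases h0 : heS Ω (D.T x) D.Psi x J = 0
    · have hz : ∀ r : Ω, FxA Γ (r • heS Ω (D.T x) D.Psi x J) := fun r => by
        rw [h0, smul_zero]
        exact fx_zero
      exact hz _
    · refine fx_smul (fun σ hσ => ?_) hS
      have hS' : sg σ (heS Ω (D.T x) D.Psi x J) = heS Ω (D.T x) D.Psi x J := fxA_iff.1 hS σ hσ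
      refine Q12_uniq h0 ((map_ne_zero σ).2 h1) h1 ?_ h2
      have h3 := congrArg (sg σ) h2
      rw [sg_mul, sg_smul, hS'] at h3
      exact h3
  · exact fx_zero

theorem fx_p {D : S.Cs Ω} (hg : D.gnr) (hT : D.TaH) (he : FxA Γ D.ε)
    (hF : ∀ φ ∈ ir Ω S.H, ∀ g, Parker.Fx Γ (φ g)) {x : E} (hx : S.Reg D.x x) {a : E}
    (ha : a ∈ sm D.Psi x) : Parker.Fx Γ (D.p x a) := by
  intro σ hσ
  have haP : a ∈ D.Psi := by
    unfold sm ps at ha
    exact (Finset.mem_filter.1 (Finset.mem_filter.1 ha).1).1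
  obtain ⟨hn, -, -, hW, -⟩ := of_Psi haP
  have h1 := T_sq hg hx ha
  have hTf : sg σ (D.T x (rfn a)) = D.T x (rfn a) := fxA_iff.1 (fx_T hg he hF hx hW) σ hσ
  have hff : sg σ (D.f x) = D.f x := fxA_iff.1 (fx_f he x) σ hσ
  have h2 := congrArg (sg σ) h1
  rw [sg_mul, sg_add, sg_smul, sg_smul, hTf, hff, map_sub, map_one] at h2
  have h3 : (σ (D.p x a) - D.p x a) • (D.f x - D.T x (rfn a)) = 0 := by
    rw [h2] at h1
    have h4 : (1 - σ (D.p x a)) • D.T x (rfn a) + σ (D.p x a) • D.f x -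
        ((1 - D.p x a) • D.T x (rfn a) + D.p x a • D.f x) = 0 := by rw [h1, sub_self]
    rw [← h4, sub_smul, smul_sub, smul_sub, sub_smul, sub_smul, one_smul]
    abel
  rcases smul_eq_zero.1 h3 with h4 | h4
  · exact sub_eq_zero.1 h4
  · exfalso
    have h5 : D.T x 1 = D.T x (rfn a) := by
      rw [T_one hg hx]
      exact sub_eq_zero.1 h4
    have h6 := (T_li hg hx).injective (a₁ := ⟨1, D.W.one_mem⟩) (a₂ := ⟨rfn a, hW⟩) h5
    have h7 : (1 : E ≃ₗᵢ[ℝ] E) = rfn a := congrArg Subtype.val h6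
    have h8 := rfn_self hn
    rw [← h7] at h8
    have h9 : a = -a := h8
    have h10 : a = 0 := by
      have h11 : a + a = 0 := by
        nth_rewrite 2 [h9]
        exact add_neg_cancel a
      have h12 : (2 : ℝ) • a = 0 := by rw [two_smul, h11]
      exact (smul_eq_zero.1 h12).resolve_left two_ne_zero
    rw [h10, norm_zero] at hn
    exact zero_ne_one hn

end

end LieP
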