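import Pool.Agent.LieP.Q11
import Pool.Agent.LieP.V09
import Pool.Agent.LieP.V02
import Pool.Agent.LieP.K02
import Pool.Agent.LieP.C04

/-!
# MP_6c3636_al, LieP, module Q13: real series (11.1) (helper7)

Section 11, (11.1). `ser_st`: `rk (fun g => φ g⁻¹) a = rk φ (st a)` (`rk_dual`), `st (D.f x) = (stD D).f x`. `ser_real`: `φ = φ*` is in `D.Ser` and in `(stD D).Ser` (K02). `ser_eq`: for `n ∈ D'.NN D`, `b ∈ lin D' D n` invertible with `c`: `b * D.f x = e (n x) b ..`: `D.f x` and `D'.f (n x)` are equivalent idempotents: `b * D.f x * c = D'.f (n x)`; then `rk_f` (C04) for `D'`.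
`star_real`: the dual of `star` is in the series and has `gen = 1` (`gen_dual`), uniqueness (V09 `star_spec`). `odd_real`: the dual of the member of odd degree is a member of odd degree; uniqueness (`TS.tb`).
-/

namespace LieP

noncomputable section

open Classical

open ParkerGL (QM Qg cl dcf FixedField)

variable {Ω : Type} [Field Ω] [IsAlgClosed Ω] [CharZero Ω] {c : Parker.Ctx Ω}
  {Γ : Subgroup (RingAut Ω)} {K : Type} [Field K] [CharZero K] [Algebra K Ω]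
  {G E : Type} [Group G] [Finite G] [NormedAddCommGroup E] [InnerProductSpace ℝ E]
  [FiniteDimensional ℝ E] {S : LieSys G E}

private theorem dual_dual (φ : G → Ω) : (fun g => (fun g => φ g⁻¹) g⁻¹) = φ := by
  funext g
  show φ g⁻¹⁻¹ = φ g
  rw [inv_inv]

private theorem dg_dual (φ : G → Ω) : Parker.dg (fun g => φ g⁻¹) = Parker.dg φ := by
  have h : (fun g => φ g⁻¹) 1 = φ 1 := by
    show φ 1⁻¹ = φ 1
    rw [inv_one]
  unfold Parker.dg
  rw [h]

private theorem tp_st (D : S.Cs Ω) : (fun g => (stD D).tp g⁻¹) = D.tp := by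
  obtain ⟨h1, h2, -⟩ := LieSys.Cs.tp_spec (stD D)
  obtain ⟨-, -, h6⟩ := LieSys.Cs.tp_spec D
  by_contra h
  have h3 := h6 _ (ir_dual h1) h
  rw [rk_dual] at h3
  have h4 : rk (stD D).tp (st D.ε) = 1 := h2
  rw [h3] at h4
  exact zero_ne_one h4

theorem ser_st (D : S.Cs Ω) {φ : G → Ω} : φ ∈ (stD D).Ser ↔ (fun g => φ g⁻¹) ∈ D.Ser := by
  have h0 : st (D.f D.x) = (stD D).f (stD D).x := st_f D (reg_refl S D.x)
  rw [mem_Ser, mem_Ser, rk_dual, h0]
  constructor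
  · rintro ⟨h1, h2⟩
    exact ⟨ir_dual h1, h2⟩
  · rintro ⟨h1, h2⟩
    have h3 := ir_dual h1
    rw [dual_dual] at h3
    exact ⟨h3, h2⟩

theorem ser_real {D : S.Cs Ω} {φ : G → Ω} (hφ : φ ∈ D.Ser) (hr : rl φ) : ∃ n, n ∈ (stD D).NN D := by
  have h1 : (fun g => φ g⁻¹) = φ := funext hr
  refine Ser_common (φ := φ) (ser_st D |>.2 ?_) hφ
  rw [h1]
  exact hφ

theorem ser_eq {D' D : S.Cs Ω} {n : G} (hn : n ∈ D'.NN D) : D'.Ser = D.Ser := by
  obtain ⟨c, hc, c', hc', h1, h2, -⟩ := NN_cn hn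
  have hreg := (NN_reg hn).1
  have hx : S.Reg D.x D.x := reg_refl S D.x
  have hxy : c * S.e Ω D.x * c' = D'.f (S.ac n D.x) := by
    rw [lin_e hn hc hx, mul_assoc, h1]
    rfl
  have hyx : c' * (c * S.e Ω D.x) = D.f D.x := by
    rw [← mul_assoc, h2, f_comm D hx]
  have hcm : c ∈ sb Ω S.H := lin_mem (NN_H hn).2 hc
  have hcm' : c' ∈ sb Ω S.H := lin_mem (NN_H (NN_inv hn)).2 hc'
  have key : ∀ φ ∈ ir Ω S.H, rk φ (D'.f D'.x) = rk φ (D.f D.x) := by
    intro φ hφ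
    rw [← rk_f hreg hφ, ← hxy, ← hyx]
    refine rk_equiv hφ ((sb Ω S.H).mul_mem hcm (e_mem D.x)) hcm' ?_ ?_
    · rw [hxy]
      exact f_idem D' hreg
    · rw [hyx]
      exact f_idem D hx
  ext φ
  rw [mem_Ser, mem_Ser]
  constructor
  · rintro ⟨h3, h4⟩
    refine ⟨h3, ?_⟩
    rwa [← key φ h3]
  · rintro ⟨h3, h4⟩
    refine ⟨h3, ?_⟩
    rwa [key φ h3]

theorem gnr_st {D : S.Cs Ω} : (stD D).gnr ↔ D.gnr := by
  rw [LieSys.Cs.gnr_iff_odd, LieSys.Cs.gnr_iff_odd, ← tp_st D, dg_dual]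

theorem ser_dual {D : S.Cs Ω} {n : G} (hn : n ∈ (stD D).NN D) {φ : G → Ω} (hφ : φ ∈ D.Ser) :
    (fun g => φ g⁻¹) ∈ D.Ser := by
  rw [← ser_eq hn] at hφ
  exact (ser_st D).1 hφ

theorem star_real {D : S.Cs Ω} (hg : D.gnr) {n : G} (hn : n ∈ (stD D).NN D) :
    rl D.star ∧ (stD D).star = D.star := by
  obtain ⟨h1, h2, -, h4⟩ := LieSys.Cs.star_spec D hg
  have h5 := h4 _ (ser_dual hn h1) (by rw [gen_dual S (mem_Ser.1 h1).1, h2]; exact one_ne_zero)
  refine ⟨fun g => congrFun h5 g, ?_⟩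
  refine LieSys.Cs.star_eq (stD D) (gnr_st.2 hg) ?_ ?_
  · rw [ser_eq hn]
    exact h1
  · rw [h2]
    exact one_ne_zero

theorem odd_real (hts : TS S c) {D : S.Cs Ω} (hg : D.gnr) {n : G} (hn : n ∈ (stD D).NN D) {φ : G → Ω}
    (hφ : φ ∈ D.Ser) (ho : Odd (Parker.dg φ)) : rl φ := by
  obtain ⟨φ₀, -, -, h3, -⟩ := hts.tb D hg
  have h4 := h3 φ hφ ho
  have h5 := h3 _ (ser_dual hn hφ) (by rw [dg_dual]; exact ho)
  exact fun g => congrFun (h5.trans h4.symm) g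

end

end LieP
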