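import Pool.Agent.LieP.Q13
import Pool.Agent.LieP.O05

/-!
# MP_6c3636_al, LieP, module Q14: the isometry tau (11.1) (helper7)

Section 11, (11.1). `exists_tau`: `ac m x` is regular; there is `w ∈ W` with `w (ac m x)` in the closed chamber of `x` (`exists_mem_Cb` for `D.rg`), so in the open one; `n = rp w * m` (`NN_mul`, `NN_st`: `D.NN D = (stD D).NN (stD D)`). `n * n ∈ D.NN D` (`NN_st`, `NN_inv`: `n ∈ D.NN (stD D)`, since `stD (stD D)` has the same `x`, `ε`)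
and it preserves the chamber, so it is in `L` (`TaH`). `tE_spec`: `ac n` maps `X` onto `X` (`NN_reg`), extend by the identity. `tE_Psi`: `Ta_st`, conjugation. `tau_S`, `tau_Cc`: F07 `tau_ps`, `tau_C` for `D.rg`.
-/

namespace LieP

noncomputable section

open Classical

open ParkerGL (QM Qg cl dcf FixedField)

variable {Ω : Type} [Field Ω] [IsAlgClosed Ω] [CharZero Ω] {c : Parker.Ctx Ω}
  {Γ : Subgroup (RingAut Ω)} {K : Type} [Field K] [CharZero K] [Algebra K Ω]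
  {G E : Type} [Group G] [Finite G] [NormedAddCommGroup E] [InnerProductSpace ℝ E]
  [FiniteDimensional ℝ E] {S : LieSys G E}

namespace Q14_aux

/-- extension of an isometry of a subspace by the identity -/
theorem ext_iso (X : Submodule ℝ E) (φ : E ≃ₗᵢ[ℝ] E) (h : ∀ x ∈ X, φ x ∈ X) :
    ∃ w : E ≃ₗᵢ[ℝ] E, (∀ x ∈ Xᗮ, w x = x) ∧ ∀ x ∈ X, w x = φ x := by
  let P : E →ₗ[ℝ] E := (X.starProjection : E →L[ℝ] E)
  have hP1 : ∀ x, P x ∈ X := fun x => X.starProjection_apply_mem x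
  have hP2 : ∀ x, x - P x ∈ Xᗮ := fun x => X.sub_starProjection_mem_orthogonal x
  let f : E →ₗ[ℝ] E := φ.toLinearEquiv.toLinearMap ∘ₗ P + (LinearMap.id - P)
  have hf : ∀ x, f x = φ (P x) + (x - P x) := fun x => rfl
  have hn : ∀ x, ‖f x‖ = ‖x‖ := by
    intro x
    have h1 : inner ℝ (φ (P x)) (x - P x) = 0 :=
      X.inner_right_of_mem_orthogonal (h _ (hP1 x)) (hP2 x)
    have h2 : inner ℝ (P x) (x - P x) = 0 := X.inner_right_of_mem_orthogonal (hP1 x) (hP2 x)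
    have h3 : ‖f x‖ * ‖f x‖ = ‖x‖ * ‖x‖ := by
      rw [hf x, norm_add_mul_self_real, h1, φ.norm_map]
      have h4 := norm_add_mul_self_real (P x) (x - P x)
      rw [h2] at h4
      rw [← h4, add_sub_cancel]
    exact (mul_self_inj (norm_nonneg _) (norm_nonneg _)).1 h3
  let g : E →ₗᵢ[ℝ] E := ⟨f, hn⟩
  refine ⟨g.toLinearIsometryEquiv rfl, fun x hx => ?_, fun x hx => ?_⟩
  · rw [LinearIsometry.toLinearIsometryEquiv_apply]
    show f x = x
    have h5 : P x = 0 := (X.starProjection_apply_eq_zero_iff).2 hx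
    rw [hf x, h5, map_zero, sub_zero, zero_add]
  · rw [LinearIsometry.toLinearIsometryEquiv_apply]
    show f x = φ x
    have h5 : P x = x := (X.starProjection_eq_self_iff).2 hx
    rw [hf x, h5, sub_self, add_zero]

/-- two isometries which agree on `X` and its complement are equal -/
theorem iso_ext (X : Submodule ℝ E) {u w : E ≃ₗᵢ[ℝ] E} (h : ∀ x ∈ X, u x = w x)
    (h' : ∀ x ∈ Xᗮ, u x = w x) : u = w := by
  refine LinearIsometryEquiv.ext fun x => ?_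
  have h1 : x = X.starProjection x + (x - X.starProjection x) := (add_sub_cancel _ _).symm
  rw [h1, map_add, map_add, h _ (X.starProjection_apply_mem x),
    h' _ (X.sub_starProjection_mem_orthogonal x)]

theorem pj_inner (D : S.Cs Ω) (b : E) {y : E} (hy : y ∈ S.X D.x) :
    inner ℝ (D.pj b) y = inner ℝ b y := by
  have h1 : inner ℝ (b - D.pj b) y = (0 : ℝ) :=
    (S.X D.x).inner_left_of_mem_orthogonal hy ((S.X D.x).sub_starProjection_mem_orthogonal b)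
  rw [inner_sub_left, sub_eq_zero] at h1
  exact h1.symm

theorem pj_mem (D : S.Cs Ω) (b : E) : D.pj b ∈ S.X D.x := (S.X D.x).starProjection_apply_mem b

/-- an element of `L D.x` acts trivially on `X` -/
theorem L_fix {D : S.Cs Ω} {n : G} (hn : n ∈ S.N) (hL : n ∈ S.L D.x) {y : E} (hy : y ∈ S.X D.x) :
    S.ac n y = y :=
  (fix_iff S hn).2 (L_mono S (x := D.x) (y := y) hy hL)

theorem inner_ac {n : G} (hn : n ∈ S.N) (a y : E) :
    inner ℝ (S.ac n a) y = (inner ℝ a (S.ac n⁻¹ y) : ℝ) := by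
  have h1 := ac_inner S (S.N.inv_mem hn) a y
  rw [inv_inv] at h1
  exact h1.symm

theorem cs_ext {D D' : S.Cs Ω} (h1 : D.x = D'.x) (h2 : D.ε = D'.ε) : D = D' := by
  cases D
  cases D'
  simp only at h1 h2
  subst h1
  subst h2
  rfl

theorem st_stD (D : S.Cs Ω) : stD (stD D) = D := by
  refine cs_ext rfl ?_
  rw [stD_eps, stD_eps, st_st]

theorem NN_swap {D : S.Cs Ω} {n : G} (hn : n ∈ (stD D).NN D) : n ∈ D.NN (stD D) := by
  have h1 := NN_st.1 hn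
  rw [st_stD] at h1
  have h2 := NN_inv h1
  rw [inv_inv] at h2
  exact h2

theorem NN_st1 {D : S.Cs Ω} {n : G} (hn : n ∈ D.NN D) : n ∈ (stD D).NN (stD D) := by
  have h1 := NN_st.1 (NN_inv hn)
  rw [inv_inv] at h1
  exact h1

theorem Ta_acg {D' D : S.Cs Ω} {n : G} (hn : n ∈ D'.NN D) {a : E} (h : D.Ta a) :
    D'.Ta (S.ac n a) := by
  obtain ⟨ha, hx, v, hv, hvL, hv2⟩ := h
  have hN := (NN_H hn).1
  have hn' := NN_inv hn
  have hN' := (NN_H hn').1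
  have hVN := (NN_H hv).1
  refine ⟨(ac_R S hN).2 ha, fun h1 => ?_, n * v * n⁻¹, NN_mul (NN_mul hn hv) hn', fun h1 => ?_,
    fun x hx' h1 => ?_⟩
  · rw [inner_ac hN] at h1
    exact hx (((NN_reg hn').1 a ha).1 h1)
  · exact hvL ((hn.2.1 v).2 h1)
  · rw [inner_ac hN] at h1
    rw [ac_mul_apply S (S.N.mul_mem hN hVN) hN', ac_mul_apply S hN hVN,
      hv2 _ (((NN_reg hn').2.1 x).2 hx') h1, ac_apply_inv S hN]

theorem Ta_acs {D : S.Cs Ω} {n : G} (hn : n ∈ (stD D).NN D) {a : E} : D.Ta (S.ac n a) ↔ D.Ta a := by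
  constructor
  · intro h
    have h1 := Ta_acg (NN_inv hn) ((Ta_st D _).2 h)
    rw [ac_inv_apply S (NN_H hn).1] at h1
    exact h1
  · intro h
    exact (Ta_st D _).1 (Ta_acg hn h)

theorem NA_ac' {D : S.Cs Ω} {n : G} (hn : n ∈ (stD D).NN D) {y y' : E} :
    D.NA (S.ac n y) (S.ac n y') ↔ D.NA y y' := by
  have hN := (NN_H hn).1
  constructor
  · intro h a ha
    have h1 := h (S.ac n a) ((Ta_acs hn).2 ha)
    rw [inner_ac hN, inner_ac hN, ac_inv_apply S hN, ac_inv_apply S hN] at h1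
    exact h1
  · intro h a ha
    have h0 : S.ac n (S.ac n⁻¹ a) = a := ac_apply_inv S hN a
    have h1 : D.Ta (S.ac n⁻¹ a) := by
      refine (Ta_acs hn).1 ?_
      rw [h0]
      exact ha
    have h2 := h _ h1
    rw [← ac_inner S hN, ← ac_inner S hN] at h2
    exact h2

theorem reg_ac {D : S.Cs Ω} {n : G} (hn : n ∈ (stD D).NN D) {y : E} (hy : S.Reg D.x y) :
    S.Reg D.x (S.ac n y) := ((NN_reg hn).2.2 y).2 hy

theorem X_ac {D : S.Cs Ω} {n : G} (hn : n ∈ (stD D).NN D) {y : E} :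
    S.ac n y ∈ S.X D.x ↔ y ∈ S.X D.x := (NN_reg hn).2.1 y

end Q14_aux

open Q14_aux

theorem exists_tau {D : S.Cs Ω} (hg : D.gnr) (hT : D.TaH) {x : E} (hx : S.Reg D.x x) {m : G}
    (hm : m ∈ (stD D).NN D) : ∃ n ∈ (stD D).NN D, D.NA x (S.ac n x) := by
  obtain ⟨w, hw, hwC⟩ := exists_mem_Cb (rg D hT x hx) (S.ac m x)
  have hw' : w ∈ D.W := hw
  obtain ⟨h1, h2⟩ := W_rp hw'
  have hr : S.Reg D.x (S.ac m x) := reg_ac hm hx
  have hX : S.ac m x ∈ S.X D.x := reg_mem_X S hr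
  refine ⟨D.rp w * m, NN_mul (NN_st1 h1) hm, ?_⟩
  have h3 : S.ac (D.rp w * m) x = w (S.ac m x) := by
    rw [ac_mul_apply S (NN_H h1).1 (NN_H hm).1, ← h2 _ hX]
  rw [h3, NA_iff (W_X hw' hX) (reg_mem_X S hx)]
  intro a ha h4
  rcases lt_or_gt_of_ne (Psi_reg hx ha) with h5 | h5
  · have h6 : -a ∈ ps D.Psi x := by
      refine Finset.mem_filter.2 ⟨(of_Psi ha).2.2.1, ?_⟩
      rw [inner_neg_left]
      exact neg_pos.2 h5
    have h7 : (0 : ℝ) ≤ inner ℝ (-a) (w (S.ac m x)) := hwC _ h6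
    rw [inner_neg_left] at h7
    exact absurd h4 (not_lt.2 (mul_nonneg_of_nonpos_of_nonpos h5.le (neg_nonneg.1 h7)))
  · have h6 : a ∈ ps D.Psi x := Finset.mem_filter.2 ⟨ha, h5⟩
    have h7 : (0 : ℝ) ≤ inner ℝ a (w (S.ac m x)) := hwC _ h6
    exact absurd h4 (not_lt.2 (mul_nonneg h5.le h7))

theorem exists_TD {D : S.Cs Ω} (hg : D.gnr) (hT : D.TaH) {x : E} (hx : S.Reg D.x x) {m : G}
    (hm : m ∈ (stD D).NN D) (he : FxA Γ D.ε) (hF : ∀ φ ∈ ir Ω S.H, ∀ g, Parker.Fx Γ (φ g)) :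
    Nonempty (TD D Γ x) := by
  obtain ⟨n, hn, hna⟩ := exists_tau hg hT hx hm
  obtain ⟨b, hb, h0, hf⟩ := exists_fx_lin (fx_stD he) he hn
  exact ⟨⟨n, b, hg, hT, hx, he, hn, hna, hb, h0, hf, hF⟩⟩

section

variable {D : S.Cs Ω} {x : E} (T : TD D Γ x)

theorem tE_spec : (∀ y ∈ S.X D.x, T.t y = S.ac T.n y) ∧ ∀ y ∈ (S.X D.x)ᗮ, T.t y = y := by
  obtain ⟨w, h1, h2⟩ := ext_iso (S.X D.x) (S.ac T.n) fun y hy => (X_ac T.mem).2 hy
  have h : ∃ t : E ≃ₗᵢ[ℝ] E, (∀ y ∈ S.X D.x, t y = S.ac T.n y) ∧ ∀ y ∈ (S.X D.x)ᗮ, t y = y :=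
    ⟨w, h2, h1⟩
  have h3 : T.t = h.choose := dif_pos h
  rw [h3]
  exact h.choose_spec

theorem tE_X {y : E} (hy : y ∈ S.X D.x) : T.t y = S.ac T.n y := (tE_spec T).1 y hy

theorem tE_mem {y : E} : T.t y ∈ S.X D.x ↔ y ∈ S.X D.x := by
  constructor
  · intro h
    have h1 : y = (S.X D.x).starProjection y + (y - (S.X D.x).starProjection y) :=
      (add_sub_cancel _ _).symm
    have h2 : (S.X D.x).starProjection y ∈ S.X D.x := (S.X D.x).starProjection_apply_mem y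
    have h3 : y - (S.X D.x).starProjection y ∈ (S.X D.x)ᗮ :=
      (S.X D.x).sub_starProjection_mem_orthogonal y
    have h4 : T.t y = S.ac T.n ((S.X D.x).starProjection y) + (y - (S.X D.x).starProjection y) := by
      conv_lhs => rw [h1]
      rw [map_add, (tE_spec T).1 _ h2, (tE_spec T).2 _ h3]
    have h5 : y - (S.X D.x).starProjection y ∈ S.X D.x := by
      have h6 : y - (S.X D.x).starProjection y = T.t y - S.ac T.n ((S.X D.x).starProjection y) := by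
        rw [h4, add_sub_cancel_left]
      rw [h6]
      exact (S.X D.x).sub_mem h ((X_ac T.mem).2 h2)
    have h7 : y - (S.X D.x).starProjection y = 0 := by
      have h8 := (S.X D.x).inner_right_of_mem_orthogonal h5 h3
      exact inner_self_eq_zero.1 h8
    rw [sub_eq_zero] at h7
    rw [h7]
    exact h2
  · intro h
    rw [tE_X T h]
    exact (X_ac T.mem).2 h

theorem tau_NN : T.n ∈ D.NN (stD D) := by
  exact NN_swap T.mem

theorem tau_sq : T.n * T.n ∈ S.L D.x := by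
  have h1 : T.n * T.n ∈ D.NN D := NN_mul (tau_NN T) T.mem
  have hN := (NN_H T.mem).1
  refine T.ta _ h1 x T.reg ?_
  rw [ac_mul_apply S hN hN]
  exact NA_trans (reg_ac T.mem T.reg) T.na ((NA_ac' T.mem).2 T.na)

theorem tE_tE (y : E) : T.t (T.t y) = y := by
  have hN := (NN_H T.mem).1
  have h0 : ∀ z ∈ S.X D.x, T.t (T.t z) = z := by
    intro z hz
    rw [tE_X T hz, tE_X T ((X_ac T.mem).2 hz), ← ac_mul_apply S hN hN]
    exact L_fix (S.N.mul_mem hN hN) (tau_sq T) hz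
  have h1 : T.t * T.t = 1 := by
    refine iso_ext (S.X D.x) (fun z hz => ?_) fun z hz => ?_
    · exact h0 z hz
    · show T.t (T.t z) = z
      rw [(tE_spec T).2 z hz, (tE_spec T).2 z hz]
  have h2 : (T.t * T.t) y = y := by
    rw [h1]
    rfl
  exact h2

theorem tE_Ta {a : E} : D.Ta (S.ac T.n a) ↔ D.Ta a := by
  exact Ta_acs T.mem

theorem tE_Psi {a : E} : T.t a ∈ D.Psi ↔ a ∈ D.Psi := by
  have hN := (NN_H T.mem).1
  have key : ∀ {a : E}, a ∈ D.Psi → T.t a ∈ D.Psi := by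
    intro a h
    obtain ⟨b, hb, rfl⟩ := Finset.mem_image.1 h
    have hb' : D.Ta b := (Finset.mem_filter.1 hb).2
    have hT : D.Ta (S.ac T.n b) := (tE_Ta T).2 hb'
    have h3 : D.pj (S.ac T.n b) = T.t (D.pj b) := by
      refine (Submodule.eq_starProjection_of_mem_of_inner_eq_zero ((tE_mem T).2 (pj_mem D b))
        fun y hy => ?_)
      have h4 : T.t y ∈ S.X D.x := (tE_mem T).2 hy
      have h5 : y = T.t (T.t y) := (tE_tE T y).symm
      have h6 : y = S.ac T.n (T.t y) := by rw [← tE_X T h4]; exact h5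
      rw [inner_sub_left, sub_eq_zero]
      calc inner ℝ (S.ac T.n b) y = inner ℝ (S.ac T.n b) (S.ac T.n (T.t y)) := by rw [← h6]
        _ = inner ℝ b (T.t y) := (S.ac T.n).inner_map_map _ _
        _ = inner ℝ (D.pj b) (T.t y) := (pj_inner D b h4).symm
        _ = inner ℝ (T.t (D.pj b)) (T.t (T.t y)) := (T.t.inner_map_map _ _).symm
        _ = inner ℝ (T.t (D.pj b)) y := by rw [← h5]
    refine Finset.mem_image.2 ⟨S.ac T.n b, Finset.mem_filter.2 ⟨hT.1, hT⟩, ?_⟩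
    rw [h3, T.t.norm_map, map_smul]
  constructor
  · intro h
    have h1 := key h
    rw [tE_tE T] at h1
    exact h1
  · exact key

theorem Q14_aux.tw_eq {w : E ≃ₗᵢ[ℝ] E} (hw : w ∈ D.W) {y : E} (hy : y ∈ S.X D.x) :
    (T.t * w * T.t) y = S.ac (T.n⁻¹ * D.rp w * T.n) y := by
  obtain ⟨h1, h2⟩ := W_rp hw
  have hN := (NN_H T.mem).1
  have hM := (NN_H h1).1
  have h3 : S.ac T.n y ∈ S.X D.x := (X_ac T.mem).2 hy
  have h4 : w (S.ac T.n y) ∈ S.X D.x := W_X hw h3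
  have h5 : ∀ z ∈ S.X D.x, S.ac T.n z = S.ac T.n⁻¹ z := by
    intro z hz
    have h6 : T.t (T.t z) = z := tE_tE T z
    rw [tE_X T hz, tE_X T ((X_ac T.mem).2 hz)] at h6
    conv_rhs => rw [← h6]
    rw [ac_inv_apply S hN]
  show T.t (w (T.t y)) = _
  rw [tE_X T hy, tE_X T h4, h5 _ h4, h2 _ h3, ac_mul_apply S (S.N.mul_mem (S.N.inv_mem hN) hM) hN,
    ac_mul_apply S (S.N.inv_mem hN) hM]

theorem tE_W {w : E ≃ₗᵢ[ℝ] E} (hw : w ∈ D.W) : T.t * w * T.t ∈ D.W := by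
  obtain ⟨h1, h2⟩ := W_rp hw
  have hN := (NN_H T.mem).1
  have hn' : T.n⁻¹ * D.rp w * T.n ∈ D.NN D :=
    NN_mul (NN_mul (NN_inv T.mem) (NN_st1 h1)) T.mem
  refine mem_W.2 ⟨fun y hy => ?_, T.n⁻¹ * D.rp w * T.n, hn', fun y hy => ?_⟩
  · show T.t (w (T.t y)) = y
    rw [(tE_spec T).2 y hy, (mem_W.1 hw).1 y hy, (tE_spec T).2 y hy]
  · exact Q14_aux.tw_eq T hw hy

theorem tE_rp {w : E ≃ₗᵢ[ℝ] E} (hw : w ∈ D.W) :
    (D.rp (T.t * w * T.t))⁻¹ * (T.n⁻¹ * D.rp w * T.n) ∈ S.L D.x := by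
  obtain ⟨h1, h2⟩ := W_rp hw
  have hn' : T.n⁻¹ * D.rp w * T.n ∈ D.NN D :=
    NN_mul (NN_mul (NN_inv T.mem) (NN_st1 h1)) T.mem
  exact (rp_eq (tE_W T hw) hn' fun y hy => Q14_aux.tw_eq T hw hy).1

theorem Q14_aux.t_C : T.t x ∈ (rg D T.ta x T.reg).C := by
  intro a ha
  have ha' : a ∈ ps D.Psi x := ha
  obtain ⟨h1, h2⟩ := Finset.mem_filter.1 ha'
  have hX := reg_mem_X S T.reg
  rw [tE_X T hX]
  have h3 := (NA_iff ((X_ac T.mem).2 hX) hX).1 T.na a h1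
  have h4 := Psi_reg (reg_ac T.mem T.reg) h1
  rcases lt_or_gt_of_ne h4 with h5 | h5
  · exact absurd (mul_neg_of_pos_of_neg h2 h5) h3
  · exact h5

theorem Q14_aux.t_sgn {a : E} (ha : a ∈ D.Psi) : inner ℝ a (T.t x) < 0 ↔ inner ℝ a x < (0 : ℝ) := by
  rcases lt_or_gt_of_ne (Psi_reg T.reg ha) with h5 | h5
  · have h6 : -a ∈ ps D.Psi x := by
      refine Finset.mem_filter.2 ⟨(of_Psi ha).2.2.1, ?_⟩
      rw [inner_neg_left]
      exact neg_pos.2 h5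
    have h7 : (0 : ℝ) < inner ℝ (-a) (T.t x) := Q14_aux.t_C T _ h6
    rw [inner_neg_left] at h7
    exact ⟨fun _ => h5, fun _ => neg_pos.1 h7⟩
  · have h6 : a ∈ ps D.Psi x := Finset.mem_filter.2 ⟨ha, h5⟩
    have h7 : (0 : ℝ) < inner ℝ a (T.t x) := Q14_aux.t_C T _ h6
    exact ⟨fun h => absurd h (not_lt.2 h7.le), fun h => absurd h (not_lt.2 h5.le)⟩

theorem Q14_aux.t_inner (a y : E) : inner ℝ a (T.t y) = (inner ℝ (T.t a) y : ℝ) := by
  have h1 : inner ℝ (T.t a) (T.t (T.t y)) = (inner ℝ a (T.t y) : ℝ) := T.t.inner_map_map _ _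
  rw [tE_tE T] at h1
  exact h1.symm

theorem tau_S {a : E} : T.t a ∈ sm D.Psi x ↔ a ∈ sm D.Psi x := by
  exact ((tau_ps (rg D T.ta x T.reg) (τ := T.t) (fun b hb => (tE_Psi T).2 hb) (Q14_aux.t_C T)
    (a := a)).2).symm

theorem tau_Cc {y : E} : T.t y ∈ Cc D x ↔ y ∈ Cc D x := by
  have h1 := ((tau_C (rg D T.ta x T.reg) (τ := T.t) (fun b hb => (tE_Psi T).2 hb) (Q14_aux.t_C T)
    (y := y)).2)
  have h2 : ∀ z, z ∈ Cc D x ↔ z ∈ S.X D.x ∧ z ∈ (rg D T.ta x T.reg).Cb := by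
    intro z
    constructor
    · rintro ⟨h3, h4⟩
      refine ⟨h3, fun a ha => ?_⟩
      have ha' : a ∈ ps D.Psi x := ha
      obtain ⟨h5, h6⟩ := Finset.mem_filter.1 ha'
      exact h4 a h5 h6
    · rintro ⟨h3, h4⟩
      exact ⟨h3, fun a ha h5 => h4 a (Finset.mem_filter.2 ⟨ha, h5⟩)⟩
  rw [h2, h2, tE_mem T, ← h1]

theorem tau_NA {y y' : E} : D.NA (S.ac T.n y) (S.ac T.n y') ↔ D.NA y y' := by
  exact NA_ac' T.mem

theorem tau_iv {w : E ≃ₗᵢ[ℝ] E} (hw : w ∈ D.W) :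
    (iv D.Psi x (T.t * w * T.t)).card = (iv D.Psi x w).card := by
  have hps : ∀ {a : E}, a ∈ ps D.Psi x → T.t a ∈ ps D.Psi x := fun {a} ha =>
    ((tau_ps (rg D T.ta x T.reg) (τ := T.t) (fun b hb => (tE_Psi T).2 hb) (Q14_aux.t_C T)
      (a := a)).1).1 ha
  have key : ∀ {a : E}, a ∈ D.Psi →
      (inner ℝ a ((T.t * w * T.t) x) < 0 ↔ inner ℝ (T.t a) (w x) < (0 : ℝ)) := by
    intro a ha
    have h1 : (inner ℝ a ((T.t * w * T.t) x) : ℝ) = inner ℝ (w⁻¹ (T.t a)) (T.t x) := by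
      show (inner ℝ a (T.t (w (T.t x))) : ℝ) = _
      rw [Q14_aux.t_inner T, inner_act w]
    have h2 : w⁻¹ (T.t a) ∈ D.Psi := W_Psi (D.W.inv_mem hw) ((tE_Psi T).2 ha)
    rw [h1, Q14_aux.t_sgn T h2, ← inner_act w]
  refine Finset.card_bij (fun a _ => T.t a) ?_ ?_ ?_
  · intro a ha
    obtain ⟨h1, h2⟩ := Finset.mem_filter.1 ha
    exact Finset.mem_filter.2 ⟨hps h1, (key (Finset.mem_filter.1 h1).1).1 h2⟩
  · intro a _ b _ h
    exact T.t.injective h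
  · intro b hb
    obtain ⟨h1, h2⟩ := Finset.mem_filter.1 hb
    refine ⟨T.t b, Finset.mem_filter.2 ⟨hps h1, ?_⟩, tE_tE T b⟩
    refine (key (Finset.mem_filter.1 (hps h1)).1).2 ?_
    rw [tE_tE T]
    exact h2

/-- a point of the chamber fixed by `τ` -/
theorem exists_tau_fix : ∃ w ∈ S.X D.x, S.ac T.n w = w ∧ ∀ a ∈ D.Psi, 0 < inner ℝ a x → 0 < inner ℝ a w := by
  have hX := reg_mem_X S T.reg
  have hX' : S.ac T.n x ∈ S.X D.x := (X_ac T.mem).2 hX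
  have h1 : S.ac T.n (S.ac T.n x) = x := by
    rw [← tE_X T hX', ← tE_X T hX]
    exact tE_tE T x
  refine ⟨x + S.ac T.n x, (S.X D.x).add_mem hX hX', ?_, fun a ha h2 => ?_⟩
  · rw [map_add, h1, add_comm]
  · rw [inner_add_right, ← tE_X T hX]
    exact add_pos h2 (Q14_aux.t_C T a (Finset.mem_filter.2 ⟨ha, h2⟩))

theorem mem_JJ {J : Finset E} : J ∈ T.JJ ↔ J ⊆ sm D.Psi x ∧ J.image T.t = J := by
  unfold TD.JJ
  rw [Finset.mem_filter, Finset.mem_powerset]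

end

end

end LieP
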