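import Pool.Agent.LieP.Q14
import Pool.Agent.LieP.Q02

/-!
# MP_6c3636_al, LieP, module Q15: the operator j (11.2) (helper7)

Section 11, (11.2). `jj_eq`: `b = st ε * b * ε` (`lin_abs`), `e x` commutes with `ε`, `st ε`; `f_lin_f`. `lin_sym`: `st b ∈ lin (stD D) (stD (stD D)) n⁻¹ = lin (stD D) D n` (`n⁻¹ = n (n n)⁻¹`, `tau_sq`, `lin_congr`), so `st b = η b`, `η² = 1`. Let `z` be generic, `l` regular, `a = cen S.H star * el (U z) l`: an idempotent of rank one on `star`, zero on the other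
characters, `st a = a` (`star_real`). The form `(v, w) ↦ t (st v * w)` on the left ideal `A a` is nondegenerate. `D.f x A a` and `(stD D).f x A a` are one dimensional (`finrank_cr`, `rk star (D.f x) = 1`), paired nondegenerately, and multiplication by `j` maps the first onto the second (`lin_unit`, (5.2): C04 `f_inv` for `stD D`). So for `0 ≠ v = f v a`: `0 ≠ t (st v * j * v)`, and this is equal to
`t (st (st v * j * v)) = t (st v * st j * v) = η t (st v * j * v)`. So `η = 1`.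
`jj_inv`: there are elements `j'` with `j' * j = f x`, `j * j' = (stD D).f x`. `jj_nondeg`: `B (v, j w) = 0` for all `w ∈ f M`: `j` maps `f M` onto `(stD D).f M = (st f) M`, so `v = f v` is orthogonal to `M`.
-/

namespace LieP

noncomputable section

open Classical

open ParkerGL (QM Qg cl dcf FixedField)

variable {Ω : Type} [Field Ω] [IsAlgClosed Ω] [CharZero Ω] {c : Parker.Ctx Ω}
  {Γ : Subgroup (RingAut Ω)} {K : Type} [Field K] [CharZero K] [Algebra K Ω]
  {G E : Type} [Group G] [Finite G] [NormedAddCommGroup E] [InnerProductSpace ℝ E]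
  [FiniteDimensional ℝ E] {S : LieSys G E}

namespace Q15_aux

omit [IsAlgClosed Ω] in
theorem stD_stD (D : S.Cs Ω) : stD (stD D) = D := by
  cases D
  simp only [stD, st_st]

section

variable {D : S.Cs Ω} {x : E} {n : G} {b : Al Ω G}

omit [IsAlgClosed Ω] in
/-- the two forms of the operator -/
theorem eq_gen (hx : S.Reg D.x x) (hn : n ∈ (stD D).NN D) (hb : b ∈ lin (stD D) D n) :
    jj S x b = (stD D).f x * b * D.f x ∧ jj S x b = S.e Ω x * S.e Ω (S.ac n x) * b := by
  have h2 : (stD D).f x * b * D.f x = S.e Ω x * S.e Ω (S.ac n x) * b :=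
    f_lin_f hn hb hx (D' := stD D) (y := x) hx
  have h1 : jj S x b = (stD D).f x * b * D.f x := by
    obtain ⟨e1, e2⟩ := lin_abs hb
    have e3 := f_comm D hx
    calc jj S x b = S.e Ω x * ((stD D).ε * b) * S.e Ω x := by rw [e1]; rfl
      _ = S.e Ω x * (stD D).ε * (b * D.ε) * S.e Ω x := by rw [e2]; simp only [mul_assoc]
      _ = (S.e Ω x * (stD D).ε) * b * (D.ε * S.e Ω x) := by simp only [mul_assoc]
      _ = (stD D).f x * b * D.f x := by rw [← e3]; rfl
  exact ⟨h1, h1.trans h2⟩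

omit [IsAlgClosed Ω] in
theorem mem_gen (hn : n ∈ (stD D).NN D) (hb : b ∈ lin (stD D) D n) : jj S x b ∈ sb Ω S.H := by
  have h := lin_mem (NN_H hn).2 hb
  exact (sb Ω S.H).mul_mem ((sb Ω S.H).mul_mem (e_mem x) h) (e_mem x)

omit [IsAlgClosed Ω] in
theorem abs_gen (hx : S.Reg D.x x) (hn : n ∈ (stD D).NN D) (hb : b ∈ lin (stD D) D n) :
    (stD D).f x * jj S x b = jj S x b ∧ jj S x b * D.f x = jj S x b := by
  rw [(eq_gen hx hn hb).1]
  constructor
  · rw [← mul_assoc, ← mul_assoc, f_idem (stD D) hx]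
  · rw [mul_assoc, f_idem D hx]

omit [IsAlgClosed Ω] in
/-- left and right inverses -/
theorem inv_gen (hx : S.Reg D.x x) (hn : n ∈ (stD D).NN D) (hb : b ∈ lin (stD D) D n) (h0 : b ≠ 0) :
    ∃ j' ∈ sb Ω S.H, j' * jj S x b = D.f x ∧ jj S x b * j' = (stD D).f x ∧ D.f x * j' = j' ∧
      j' * (stD D).f x = j' := by
  obtain ⟨c, hc, hbc, hcb, -⟩ := lin_unit hn hb h0
  have hninv := NN_inv hn
  have hnN := (NN_H hn).1
  have hcH := lin_mem (NN_H hninv).2 hc
  obtain ⟨-, hj⟩ := eq_gen hx hn hb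
  obtain ⟨ha1, ha2⟩ := abs_gen hx hn hb
  -- left inverse
  have hy : S.Reg D.x (S.ac n⁻¹ x) := ((NN_reg hninv).2.2 x).2 hx
  have e1 : c * jj S x b = D.f (S.ac n⁻¹ x) * D.f x := by
    have h1 : c * S.e Ω x = S.e Ω (S.ac n⁻¹ x) * c := lin_e hninv hc hx
    have h2 : c * S.e Ω (S.ac n x) = S.e Ω x * c := by
      have h3 : S.Reg D.x (S.ac n x) := ((NN_reg hn).2.2 x).2 hx
      have h4 := lin_e hninv hc h3
      rw [ac_inv_apply S hnN] at h4
      exact h4
    calc c * jj S x b = c * (S.e Ω x * S.e Ω (S.ac n x) * b) := by rw [hj]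
      _ = (c * S.e Ω x) * S.e Ω (S.ac n x) * b := by simp only [mul_assoc]
      _ = S.e Ω (S.ac n⁻¹ x) * (c * S.e Ω (S.ac n x)) * b := by rw [h1]; simp only [mul_assoc]
      _ = S.e Ω (S.ac n⁻¹ x) * S.e Ω x * (c * b) := by rw [h2]; simp only [mul_assoc]
      _ = S.e Ω (S.ac n⁻¹ x) * (S.e Ω x * D.ε) := by rw [hcb, mul_assoc]
      _ = S.e Ω (S.ac n⁻¹ x) * (D.ε * S.e Ω x) := by
          rw [← f_comm D hx]; rfl
      _ = S.e Ω (S.ac n⁻¹ x) * (D.ε * D.ε * S.e Ω x) := by rw [D.idem]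
      _ = (S.e Ω (S.ac n⁻¹ x) * D.ε) * (D.ε * S.e Ω x) := by simp only [mul_assoc]
      _ = D.f (S.ac n⁻¹ x) * D.f x := by rw [← f_comm D hx]; rfl
  have e2 : jj S x b * c = (stD D).f x * (stD D).f (S.ac n x) := by
    have hy' : S.Reg (stD D).x (S.ac n x) := ((NN_reg hn).2.2 x).2 hx
    have hx' : S.Reg (stD D).x x := hx
    calc jj S x b * c = S.e Ω x * S.e Ω (S.ac n x) * (b * c) := by rw [hj]; simp only [mul_assoc]
      _ = S.e Ω x * (S.e Ω (S.ac n x) * (stD D).ε) := by rw [hbc, mul_assoc]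
      _ = S.e Ω x * ((stD D).ε * S.e Ω (S.ac n x)) := by rw [← f_comm (stD D) hy']; rfl
      _ = S.e Ω x * ((stD D).ε * (stD D).ε * S.e Ω (S.ac n x)) := by rw [(stD D).idem]
      _ = (S.e Ω x * (stD D).ε) * ((stD D).ε * S.e Ω (S.ac n x)) := by simp only [mul_assoc]
      _ = (stD D).f x * (stD D).f (S.ac n x) := by rw [← f_comm (stD D) hy']; rfl
  obtain ⟨a1, ha1m, -, h1, -⟩ := f_iso D hx hy
  have hy' : S.Reg (stD D).x (S.ac n x) := ((NN_reg hn).2.2 x).2 hx
  obtain ⟨a2, ha2m, -, -, h2⟩ := f_iso (stD D) hy' (y := x) hx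
  set L := a1 * c with hL
  set R := c * a2 with hR
  have l1 : L * jj S x b = D.f x := by rw [hL, mul_assoc, e1, h1]
  have r1 : jj S x b * R = (stD D).f x := by rw [hR, ← mul_assoc, e2, h2]
  refine ⟨L * jj S x b * R, ?_, ?_, ?_, ?_, ?_⟩
  · exact (sb Ω S.H).mul_mem ((sb Ω S.H).mul_mem ((sb Ω S.H).mul_mem ha1m hcH) (mem_gen hn hb))
      ((sb Ω S.H).mul_mem hcH ha2m)
  · calc L * jj S x b * R * jj S x b = L * (jj S x b * R) * jj S x b := by simp only [mul_assoc]
      _ = L * ((stD D).f x * jj S x b) := by rw [r1, mul_assoc]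
      _ = D.f x := by rw [ha1, l1]
  · calc jj S x b * (L * jj S x b * R) = jj S x b * (L * jj S x b) * R := by simp only [mul_assoc]
      _ = (stD D).f x := by rw [l1, ha2, r1]
  · rw [l1, ← mul_assoc, f_idem D hx]
  · have hx' : S.Reg (stD D).x x := hx
    rw [mul_assoc L, r1, mul_assoc, f_idem (stD D) hx']

/-- the central idempotent of a real character is selfadjoint -/
theorem st_cen_real {φ : G → Ω} (hr : rl φ) : st (cen S.H φ) = cen S.H φ := by
  rw [st_cen]
  congr 1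
  funext g
  exact hr g

end

end Q15_aux

open Q15_aux

section

variable {D : S.Cs Ω} {x : E} (T : TD D Γ x)

theorem jj_eq : T.j = (stD D).f x * T.b * D.f x ∧ T.j = S.e Ω x * S.e Ω (S.ac T.n x) * T.b :=
  eq_gen T.reg T.mem T.bl

theorem jj_mem : T.j ∈ sb Ω S.H := mem_gen T.mem T.bl

theorem fx_jj : FxA Γ T.j := fx_mul (fx_mul (fx_e x) T.fb) (fx_e x)

theorem jj_abs : (stD D).f x * T.j = T.j ∧ T.j * D.f x = T.j := abs_gen T.reg T.mem T.bl

theorem lin_sym {b : Al Ω G} (hb : b ∈ lin (stD D) D T.n) : st b = b := by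
  by_cases h0 : b = 0
  · rw [h0]
    have h := st_smul (k := Ω) (0 : Ω) (0 : Al Ω G)
    rw [zero_smul, zero_smul] at h
    exact h
  -- `st b = η b`
  have hnN := (NN_H T.mem).1
  obtain ⟨η, hη⟩ : ∃ r : Ω, st b = r • b := by
    have h1 := st_lin T.mem hb
    rw [stD_stD] at h1
    have h2 : T.n⁻¹ * T.n⁻¹ ∈ S.L D.x := by
      have h3 := (S.L D.x).inv_mem (tau_sq T)
      rwa [mul_inv_rev] at h3
    have h3 := (lin_congr T.mem h2 (S.N.inv_mem hnN)).1
    rw [h3] at h1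
    exact lin_smul_eq T.mem h1 hb h0
  -- the idempotent of the generic member
  obtain ⟨hS, hgen, hrk, -⟩ := D.star_spec T.gnr
  have hφ : D.star ∈ ir Ω S.H := (D.mem_Ser.1 hS).1
  have hreal := (star_real T.gnr T.mem).1
  obtain ⟨z, hz⟩ := exists_gn S
  obtain ⟨l, -, hl⟩ := exists_Rg S hz
  have helH : el Ω (S.U z) l ∈ sb Ω S.H := el_mem (S.UH z) l
  have heli := el_idem (k := Ω) hl.1
  set a := cen S.H D.star * el Ω (S.U z) l with ha
  have hcc := cen_comm hφ helH
  have haH : a ∈ sb Ω S.H := (sb Ω S.H).mul_mem (cen_mem _ hφ) helH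
  have haa : a * a = a := by
    calc a * a = cen S.H D.star * (el Ω (S.U z) l * cen S.H D.star) * el Ω (S.U z) l := by
          rw [ha]; simp only [mul_assoc]
      _ = (cen S.H D.star * cen S.H D.star) * (el Ω (S.U z) l * el Ω (S.U z) l) := by
          rw [← hcc]; simp only [mul_assoc]
      _ = a := by rw [cen_idem hφ, heli]
  have hsta : st a = a := by
    rw [ha, st_mul, st_el hl.1, st_cen_real hreal, hcc]
  have hrka : ∀ ψ ∈ ir Ω S.H, rk ψ a = if ψ = D.star then 1 else 0 := by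
    intro ψ hψ
    rw [ha, rk_cen hφ hψ helH heli]
    by_cases h : ψ = D.star
    · rw [if_pos h, if_pos h, ← gen_eq S hz hl hφ, hgen]
    · rw [if_neg h, if_neg h]
  clear_value a
  have hfH := f_mem D x
  have hff := f_idem D T.reg
  have hrkf : rk D.star (D.f x) = 1 := by rw [rk_f T.reg hφ, hrk]
  have hfin : Module.finrank Ω (cr S.H (D.f x) a) = 1 := by
    rw [finrank_cr hfH hff haH haa, Finset.sum_eq_single D.star]
    · rw [hrkf, hrka _ hφ, if_pos rfl]
    · intro ψ hψ hne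
      rw [hrka ψ hψ, if_neg hne, mul_zero]
    · intro h
      exact absurd hφ h
  obtain ⟨⟨v, hv⟩, hv0, hvs⟩ := finrank_eq_one_iff'.1 hfin
  have hv0' : v ≠ 0 := fun h => hv0 (Subtype.ext h)
  have hcr : ∀ y ∈ sb Ω S.H, D.f x * y * a ∈ cr S.H (D.f x) a := by
    intro y hy
    exact ⟨y, hy, (mul_assoc _ _ _).symm⟩
  obtain ⟨y, hy, hyv⟩ := hv
  have hyv' : D.f x * y * a = v := by
    rw [← hyv, mul_assoc]
    rfl
  have hvH : v ∈ sb Ω S.H := by
    rw [← hyv']
    exact (sb Ω S.H).mul_mem ((sb Ω S.H).mul_mem hfH hy) haH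
  have hfv : D.f x * v = v := by rw [← hyv', ← mul_assoc, ← mul_assoc, hff]
  have hva : v * a = v := by rw [← hyv', mul_assoc, haa]
  set j := jj S x b with hj
  have hjH : j ∈ sb Ω S.H := mem_gen T.mem hb
  obtain ⟨hj1, hj2⟩ := abs_gen T.reg T.mem hb
  obtain ⟨j', -, hj', -, -, -⟩ := inv_gen T.reg T.mem hb h0
  have hstf : st (D.f x) = (stD D).f x := st_f D T.reg
  have hu0 : j * v ≠ 0 := by
    intro h
    apply hv0'
    rw [← hfv, ← hj', mul_assoc, h, mul_zero]
  have hne : t (st v * j * v) ≠ 0 := by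
    obtain ⟨w, hw, htw⟩ : ∃ w ∈ sb Ω S.H, t ((j * v) * w) ≠ 0 := by
      by_contra hcon
      push Not at hcon
      exact hu0 (t_nondeg_sb ((sb Ω S.H).mul_mem hjH hvH) hcon)
    have h1 : t ((j * v) * w) = t ((j * v) * (a * w * (stD D).f x)) := by
      calc t ((j * v) * w) = t (((stD D).f x * (j * v * a)) * w) := by
            rw [mul_assoc j v a, hva, ← mul_assoc, hj1]
        _ = t ((stD D).f x * ((j * v * a) * w)) := by rw [mul_assoc]
        _ = t (((j * v * a) * w) * (stD D).f x) := t_mul_comm _ _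
        _ = t ((j * v) * (a * w * (stD D).f x)) := by simp only [mul_assoc]
    obtain ⟨r, hr⟩ := hvs ⟨_, hcr (st w) (st_mem.2 hw)⟩
    have hr' : r • v = D.f x * st w * a := congrArg Subtype.val hr
    have h2 : a * w * (stD D).f x = r • st v := by
      rw [← st_smul, hr', st_mul, st_mul, st_st, hstf, hsta, mul_assoc]
    intro h3
    apply htw
    rw [h1, h2, mul_smul_comm, t_smul, t_mul_comm, ← mul_assoc, h3, mul_zero]
  have hstj : st j = η • j := by
    rw [hj]
    unfold jj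
    rw [st_mul, st_mul, st_e, hη, smul_mul_assoc, mul_smul_comm, mul_assoc]
  have ht_st : ∀ q : Al Ω G, t (st q) = t q := by
    intro q
    show (st q).coeff 1 = q.coeff 1
    rw [coeff_st, inv_one]
  have h5 : t (st v * j * v) = η * t (st v * j * v) := by
    conv_lhs => rw [← ht_st, st_mul, st_mul, st_st, hstj, ← mul_assoc]
    rw [mul_smul_comm, smul_mul_assoc, t_smul]
  have h6 : η = 1 := by
    have h7 : (1 - η) * t (st v * j * v) = 0 := by linear_combination h5
    rcases mul_eq_zero.1 h7 with h | h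
    · linear_combination -h
    · exact absurd h hne
  rw [hη, h6, one_smul]

theorem jj_st : st T.j = T.j := by
  show st (S.e Ω x * T.b * S.e Ω x) = S.e Ω x * T.b * S.e Ω x
  rw [st_mul, st_mul, st_e, lin_sym T T.bl, mul_assoc]

theorem jj_inv : ∃ j' ∈ sb Ω S.H, FxA Γ j' ∧ j' * T.j = D.f x ∧ T.j * j' = (stD D).f x := by
  obtain ⟨j', hm, h1, h2, h3, h4⟩ := inv_gen T.reg T.mem T.bl T.b0
  refine ⟨j', hm, ?_, h1, h2⟩
  rw [fxA_iff]
  intro σ hσ
  have e1 : sg σ T.j = T.j := fxA_iff.1 (fx_jj T) σ hσ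
  have e2 : sg σ (D.f x) = D.f x := fxA_iff.1 (fx_f T.fe x) σ hσ
  have e3 : sg σ ((stD D).f x) = (stD D).f x := fxA_iff.1 (fx_f (fx_stD T.fe) x) σ hσ
  have f1 : T.j * sg σ j' = (stD D).f x := by
    calc T.j * sg σ j' = sg σ T.j * sg σ j' := by rw [e1]
      _ = sg σ (jj S x T.b * j') := (sg_mul σ _ _).symm
      _ = (stD D).f x := by rw [h2, e3]
  have f2 : D.f x * sg σ j' = sg σ j' := by
    calc D.f x * sg σ j' = sg σ (D.f x) * sg σ j' := by rw [e2]
      _ = sg σ (D.f x * j') := (sg_mul σ _ _).symm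
      _ = sg σ j' := by rw [h3]
  calc sg σ j' = D.f x * sg σ j' := f2.symm
    _ = j' * T.j * sg σ j' := by rw [← h1]
    _ = j' * (T.j * sg σ j') := mul_assoc _ _ _
    _ = j' := by rw [f1, h4]

theorem jj_nondeg (hK : FixedField Γ K) (M : QM K S.H) :
    ∀ v ∈ LinearMap.range (oM M (D.f x)),
      (∀ w ∈ LinearMap.range (oM M (D.f x)), bj M T.j v w = 0) → v = 0 := by
  obtain ⟨j', hm, hfx, h1, h2⟩ := jj_inv T
  have hfH := f_mem D x
  have hffx : FxA Γ (D.f x) := fx_f T.fe x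
  have hff := f_idem D T.reg
  intro v hv hw
  obtain ⟨u, hu⟩ := hv
  have hfv : oM M (D.f x) v = v := by
    rw [← hu, ← Module.End.mul_apply, ← oM_mul hK M hffx hffx hfH hfH, hff]
  apply M.inv.nondeg
  intro y
  have hj' : D.f x * (j' * (stD D).f x) = j' * (stD D).f x := by
    calc D.f x * (j' * (stD D).f x) = j' * T.j * (j' * (T.j * j')) := by rw [h1, h2]
      _ = j' * ((T.j * j') * (T.j * j')) := by simp only [mul_assoc]
      _ = j' * (stD D).f x := by rw [h2, f_idem (stD D) T.reg]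
  have hs : st (D.f x) = T.j * (D.f x * (j' * (stD D).f x)) := by
    rw [hj', ← mul_assoc, h2, f_idem (stD D) T.reg, st_f D T.reg]
  have hfx' : FxA Γ ((stD D).f x) := fx_f (fx_stD T.fe) x
  have hfH' : (stD D).f x ∈ sb Ω S.H := f_mem (stD D) x
  have e1 : oM M (st (D.f x)) y = oM M T.j (oM M (D.f x) (oM M (j' * (stD D).f x) y)) := by
    rw [hs, oM_mul hK M (fx_jj T) (fx_mul hffx (fx_mul hfx hfx')) (jj_mem T)
      ((sb Ω S.H).mul_mem hfH ((sb Ω S.H).mul_mem hm hfH')),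
      oM_mul hK M hffx (fx_mul hfx hfx') hfH ((sb Ω S.H).mul_mem hm hfH')]
    rfl
  calc M.B v y = M.B (oM M (D.f x) v) y := by rw [hfv]
    _ = M.B v (oM M (st (D.f x)) y) := oM_adj hK M hffx hfH v y
    _ = M.B v (oM M T.j (oM M (D.f x) (oM M (j' * (stD D).f x) y))) := by rw [e1]
    _ = 0 := hw _ ⟨_, rfl⟩

theorem jj_symm (hK : FixedField Γ K) (M : QM K S.H) (v w : M.X) : bj M T.j v w = bj M T.j w v := by
  show M.B v (oM M T.j w) = M.B w (oM M T.j v)
  have h := oM_adj hK M (fx_jj T) (jj_mem T) v w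
  rw [jj_st T] at h
  rw [← h]
  exact M.inv.symm _ _

/-- another element of the line -/
def TD.smul (T : TD D Γ x) {r : Ω} (hr : r ≠ 0) (hf : Parker.Fx Γ r) : TD D Γ x where
  n := T.n
  b := r • T.b
  gnr := T.gnr
  ta := T.ta
  reg := T.reg
  fe := T.fe
  mem := T.mem
  na := T.na
  bl := lin_smul r T.bl
  b0 := smul_ne_zero hr T.b0
  fb := fx_smul hf T.fb
  fx := T.fx

theorem smul_j {r : Ω} (hr : r ≠ 0) (hf : Parker.Fx Γ r) : (T.smul hr hf).j = r • T.j := by
  show S.e Ω x * (r • T.b) * S.e Ω x = r • (S.e Ω x * T.b * S.e Ω x)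
  rw [mul_smul_comm, smul_mul_assoc]

end

end

end LieP
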