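import Pool.Agent.LieP.Q15
import Pool.Agent.LieP.Q12
import Pool.Agent.LieP.C05
import Pool.Agent.LieP.O05
import Pool.Agent.LieP.H02
import Pool.Agent.LieP.V02

/-!
# MP_6c3636_al, LieP, module Q16: adjoints of the normalised operators (11.3) (helper7)

Section 11, (11.3). `w' = τ w⁻¹ τ`. `st (T x w)` is a multiple of `e x * c * e x`, `c ∈ lin (stD D) (stD D) (rp w)⁻¹`; so `st (T x w) * j` is a multiple of `e_x e_{w⁻¹x} e_{w⁻¹τx} c''`, `c'' ∈ lin (stD D) D (w⁻¹ n)`, by the cocycle relation (C05, right hand `ε` replaced by `c'' = st ε * c''`: the cocycle relation for `stD D`) a multiple of `e_x e_{w⁻¹τx} c''` (no root of type (a) separates `w⁻¹x` and `w⁻¹τx`).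
`j * T x w'` is a multiple of `e_x e_{τx} e_{τw'x} c_τ c_{w'}`, so of `e_x e_{τw'x} c''` (none separates `x` and `τx`; `τw' = w⁻¹τ`). Both are nonzero; the constant is `1`: multiply with `j'` (`jj_inv`): `j' * st (T x w) * j` and `T x w'` are elements of `f A f` which are proportional; `tr star`: `tr star (T x w') = 1`, and `tr star (j' * st (T x w) * j) = tr star (st (T x w) * j * j') = tr star (st (T x w)) = tr star (T x w) = 1`
(`star` is real, `st (T x w) = st (T x w) * (stD D).f x`).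
`p_tau`: apply it to `w = rfn a`, `τ (rfn a) τ = rfn (τ a)`, square. `eJ_jj`: `heS J` is a combination of the `T x w`, `w ∈ W_J`, lengths are preserved (`tau_iv`, `len_inv`); the idempotent normalisation is unique. `jj_nondeg_J`: `e_J M ⊆ f M`; `st e_J * j = j * e_J` for stable `J`, so `B (v, j w) = B (e_J v, j w) = B (v, j e_J w)` for `v ∈ e_J M`, `w ∈ f M`; `jj_nondeg`.
-/

namespace LieP

noncomputable section

open Classical

open ParkerGL (QM Qg cl dcf FixedField)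

variable {Ω : Type} [Field Ω] [IsAlgClosed Ω] [CharZero Ω] {c : Parker.Ctx Ω}
  {Γ : Subgroup (RingAut Ω)} {K : Type} [Field K] [CharZero K] [Algebra K Ω]
  {G E : Type} [Group G] [Finite G] [NormedAddCommGroup E] [InnerProductSpace ℝ E]
  [FiniteDimensional ℝ E] {S : LieSys G E}

namespace Q16_aux

section

variable {D : S.Cs Ω} {x : E} (T : TD D Γ x)

theorem st_inj {a b : Al Ω G} (h : st a = st b) : a = b := by
  rw [← st_st a, h, st_st]

theorem st_ne {a : Al Ω G} (h : a ≠ 0) : st a ≠ 0 := by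
  intro h0
  apply h
  apply st_inj
  rw [h0]
  apply al_ext
  intro g
  rw [coeff_st]
  rfl

theorem reg_n : S.Reg D.x (S.ac T.n x) := ((NN_reg T.mem).2.2 x).2 T.reg

theorem b_f : T.b * D.f x = S.e Ω (S.ac T.n x) * T.b := by
  rw [f_comm D T.reg, ← mul_assoc, (lin_abs T.bl).2, lin_e T.mem T.bl T.reg]

theorem lhs {w : E ≃ₗᵢ[ℝ] E} (hw : w ∈ D.W) : ∃ r : Ω, r ≠ 0 ∧ st (D.T x w) * T.j =
    r • (S.e Ω x * S.e Ω (S.ac ((D.rp w)⁻¹ * T.n) x) * (st (cw D w) * T.b)) := by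
  have hx := T.reg
  have hxs : S.Reg (stD D).x x := hx
  have hm : D.rp w ∈ D.NN D := (W_rp hw).1
  obtain ⟨⟨r0, hr0, hT⟩, -, -⟩ := T_spec T.gnr hx hw
  have hmi : (D.rp w)⁻¹ ∈ D.NN D := NN_inv hm
  have hms : (D.rp w)⁻¹ ∈ (stD D).NN (stD D) := NN_st.1 hm
  have hc : st (cw D w) ∈ lin (stD D) (stD D) (D.rp w)⁻¹ := st_lin hm (cw_spec hw).1
  have hrn : S.Reg (stD D).x (S.ac T.n x) := reg_n T
  have h1 : st (D.T x w) = r0 • ((stD D).f x * st (cw D w) * (stD D).f x) := by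
    rw [hT, st_smul]
    unfold Mx
    rw [st_mul, st_mul, st_f D hx, mul_assoc]
  have h2 : (stD D).f x * st (cw D w) * (stD D).f x =
      S.e Ω x * S.e Ω (S.ac (D.rp w)⁻¹ x) * st (cw D w) := f_lin_f hms hc hxs hxs
  have h3 : st (D.T x w) * T.j = r0 • (S.e Ω x * S.e Ω (S.ac (D.rp w)⁻¹ x) *
      S.e Ω (S.ac (D.rp w)⁻¹ (S.ac T.n x)) * (st (cw D w) * T.b)) := by
    have e1 : (stD D).f x * st (cw D w) * (stD D).f x * T.j =
        S.e Ω x * S.e Ω (S.ac (D.rp w)⁻¹ x) * st (cw D w) * (S.e Ω (S.ac T.n x) * T.b) := by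
      rw [(jj_eq T).1, ← b_f T, ← h2]
      have h4 := f_idem (stD D) hxs
      calc (stD D).f x * st (cw D w) * (stD D).f x * ((stD D).f x * T.b * D.f x)
          = (stD D).f x * st (cw D w) * ((stD D).f x * (stD D).f x) * (T.b * D.f x) := by
            simp only [mul_assoc]
        _ = _ := by rw [h4]
    have e2 := lin_e hms hc hrn
    rw [h1, smul_mul_assoc, e1]
    congr 1
    calc S.e Ω x * S.e Ω (S.ac (D.rp w)⁻¹ x) * st (cw D w) * (S.e Ω (S.ac T.n x) * T.b)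
        = S.e Ω x * S.e Ω (S.ac (D.rp w)⁻¹ x) * (st (cw D w) * S.e Ω (S.ac T.n x)) * T.b := by
          simp only [mul_assoc]
      _ = _ := by
          rw [e2]
          simp only [mul_assoc]
  have hy : S.Reg (stD D).x (S.ac (D.rp w)⁻¹ x) := ((NN_reg hms).2.2 x).2 hxs
  have hz : S.Reg (stD D).x (S.ac (D.rp w)⁻¹ (S.ac T.n x)) := ((NN_reg hms).2.2 _).2 hrn
  have hna : D.NA (S.ac (D.rp w)⁻¹ (S.ac T.n x)) (S.ac (D.rp w)⁻¹ x) :=
    (NA_ac hmi).2 (NA_symm T.na)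
  obtain ⟨r1, hr1, hco⟩ := cocyc_mul (stD D) hz hy hxs (fun a ha hh => hna a ((Ta_st D a).1 ha) hh.1)
  refine ⟨r0 * r1, mul_ne_zero hr0 hr1, ?_⟩
  rw [h3, hco _ (by rw [← mul_assoc, (lin_abs hc).1]), smul_smul,
    ac_mul_apply S hmi.1 T.mem.1]

theorem rhs {w : E ≃ₗᵢ[ℝ] E} (hw : w ∈ D.W) : ∃ r : Ω, r ≠ 0 ∧ T.j * D.T x w =
    r • (S.e Ω x * S.e Ω (S.ac (T.n * D.rp w) x) * (T.b * cw D w)) := by
  have hx := T.reg
  have hxs : S.Reg (stD D).x x := hx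
  have hm : D.rp w ∈ D.NN D := (W_rp hw).1
  obtain ⟨⟨r0, hr0, hT⟩, -, -⟩ := T_spec T.gnr hx hw
  have hc := (cw_spec hw).1
  have hrn : S.Reg (stD D).x (S.ac T.n x) := reg_n T
  have hrm : S.Reg D.x (S.ac (D.rp w) x) := ((NN_reg hm).2.2 x).2 hx
  have e0 : cw D w * D.f x = S.e Ω (S.ac (D.rp w) x) * cw D w := by
    rw [f_comm D hx, ← mul_assoc, (lin_abs hc).2, lin_e hm hc hx]
  have h3 : T.j * D.T x w = r0 • (S.e Ω x * S.e Ω (S.ac T.n x) *
      S.e Ω (S.ac T.n (S.ac (D.rp w) x)) * (T.b * cw D w)) := by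
    have e1 : T.j * Mx D x x w = S.e Ω x * S.e Ω (S.ac T.n x) * T.b *
        (S.e Ω (S.ac (D.rp w) x) * cw D w) := by
      unfold Mx
      rw [← (jj_eq T).2, ← e0]
      calc T.j * (D.f x * cw D w * D.f x) = (T.j * D.f x) * (cw D w * D.f x) := by
            simp only [mul_assoc]
        _ = _ := by rw [(jj_abs T).2]
    have e2 := lin_e T.mem T.bl hrm
    rw [hT, mul_smul_comm, e1]
    congr 1
    calc S.e Ω x * S.e Ω (S.ac T.n x) * T.b * (S.e Ω (S.ac (D.rp w) x) * cw D w)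
        = S.e Ω x * S.e Ω (S.ac T.n x) * (T.b * S.e Ω (S.ac (D.rp w) x)) * cw D w := by
          simp only [mul_assoc]
      _ = _ := by
          rw [e2]
          simp only [mul_assoc]
  have hz : S.Reg (stD D).x (S.ac T.n (S.ac (D.rp w) x)) := ((NN_reg T.mem).2.2 _).2 hrm
  obtain ⟨r1, hr1, hco⟩ := cocyc_mul (stD D) hz hrn hxs
    (fun a ha hh => NA_symm T.na a ((Ta_st D a).1 ha) hh.2)
  refine ⟨r0 * r1, mul_ne_zero hr0 hr1, ?_⟩
  rw [h3, hco _ (by rw [← mul_assoc, (lin_abs T.bl).1]), smul_smul,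
    ac_mul_apply S T.mem.1 hm.1]

theorem ac_eq {w : E ≃ₗᵢ[ℝ] E} (hw : w ∈ D.W) :
    S.ac (T.n * D.rp (T.t * w⁻¹ * T.t)) x = S.ac ((D.rp w)⁻¹ * T.n) x := by
  have hwi : w⁻¹ ∈ D.W := D.W.inv_mem hw
  have hw' : T.t * w⁻¹ * T.t ∈ D.W := tE_W T hwi
  have hX : x ∈ S.X D.x := reg_mem_X S T.reg
  have hm : D.rp w ∈ D.NN D := (W_rp hw).1
  have hmi : (D.rp w)⁻¹ ∈ D.NN D := NN_inv hm
  rw [ac_mul_apply S T.mem.1 (W_rp hw').1.1, ac_mul_apply S hmi.1 T.mem.1,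
    ← (W_rp hw').2 x hX, ← tE_X T (W_X hw' hX), ← tE_X T hX]
  have h1 : (T.t * w⁻¹ * T.t) x = T.t (w⁻¹ (T.t x)) := rfl
  rw [h1, tE_tE]
  have h2 : T.t x ∈ S.X D.x := (tE_mem T).2 hX
  have h3 : S.ac (D.rp w)⁻¹ (T.t x) ∈ S.X D.x := ((NN_reg hmi).2.1 _).2 h2
  have h4 : w (S.ac (D.rp w)⁻¹ (T.t x)) = T.t x := by
    rw [(W_rp hw).2 _ h3, ac_apply_inv S hm.1]
  have h5 : w⁻¹ (T.t x) = w⁻¹ (w (S.ac (D.rp w)⁻¹ (T.t x))) := by rw [h4]
  rw [h5]
  exact w.symm_apply_apply _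

theorem prop {w : E ≃ₗᵢ[ℝ] E} (hw : w ∈ D.W) :
    ∃ q : Ω, st (D.T x w) * T.j = q • (T.j * D.T x (T.t * w⁻¹ * T.t)) := by
  have hw' : T.t * w⁻¹ * T.t ∈ D.W := tE_W T (D.W.inv_mem hw)
  obtain ⟨r1, hr1, h1⟩ := lhs T hw
  obtain ⟨r2, hr2, h2⟩ := rhs T hw'
  have hm : D.rp w ∈ D.NN D := (W_rp hw).1
  have hm' : D.rp (T.t * w⁻¹ * T.t) ∈ D.NN D := (W_rp hw').1
  have hmi : (D.rp w)⁻¹ ∈ D.NN D := NN_inv hm
  have hms : (D.rp w)⁻¹ ∈ (stD D).NN (stD D) := NN_st.1 hm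
  have hc : st (cw D w) ∈ lin (stD D) (stD D) (D.rp w)⁻¹ := st_lin hm (cw_spec hw).1
  have hA : (D.rp w)⁻¹ * T.n ∈ (stD D).NN D := NN_mul hms T.mem
  have hB : T.n * D.rp (T.t * w⁻¹ * T.t) ∈ (stD D).NN D := NN_mul T.mem hm'
  have hL : ((D.rp w)⁻¹ * T.n)⁻¹ * (T.n * D.rp (T.t * w⁻¹ * T.t)) ∈ S.L D.x := by
    rw [L_reg S T.reg, ← fix_iff S (S.N.mul_mem (S.N.inv_mem hA.1) hB.1),
      ac_mul_apply S (S.N.inv_mem hA.1) hB.1, ac_eq T hw, ac_inv_apply S hA.1]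
  have hlin := (lin_congr hA hL hB.1).1
  have l1 := lin_mul hms T.mem hc T.bl
  have l2 := lin_mul T.mem hm' T.bl (cw_spec hw').1
  obtain ⟨s, hs⟩ := lin_smul_eq hA l1.1 (hlin ▸ l2.1) (l2.2 T.b0 (cw_spec hw').2)
  refine ⟨r1 * s * r2⁻¹, ?_⟩
  rw [h1, h2, ac_eq T hw, hs, smul_smul, mul_smul_comm, smul_smul]
  congr 1
  field_simp

end

end Q16_aux

section

variable {D : S.Cs Ω} {x : E} (T : TD D Γ x)

theorem T_jj {w : E ≃ₗᵢ[ℝ] E} (hw : w ∈ D.W) :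
    st (D.T x w) * T.j = T.j * D.T x (T.t * w⁻¹ * T.t) := by
  have hw' : T.t * w⁻¹ * T.t ∈ D.W := tE_W T (D.W.inv_mem hw)
  obtain ⟨q, hq⟩ := Q16_aux.prop T hw
  obtain ⟨j', hj', -, h1, h2⟩ := jj_inv T
  have hx := T.reg
  have a1 := T_abs T.gnr hx hw
  have a2 := T_abs T.gnr hx hw'
  have e1 : j' * (st (D.T x w) * T.j) = q • D.T x (T.t * w⁻¹ * T.t) := by
    rw [hq, mul_smul_comm, ← mul_assoc, h1, a2.2.1]
  have e2 : (st (D.T x w) * T.j) * j' = st (D.T x w) := by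
    rw [mul_assoc, h2, ← st_f D hx, ← st_mul, a1.2.1]
  have hir := star_ir T.gnr
  have e3 : tr D.star (j' * (st (D.T x w) * T.j)) = tr D.star ((st (D.T x w) * T.j) * j') :=
    tr_mul_comm hir hj' ((sb Ω S.H).mul_mem (st_mem.2 a1.1) (jj_mem T))
  have e4 : tr D.star (st (D.T x w)) = 1 := by
    rw [← tr_dual]
    have h3 : (fun g => D.star g⁻¹) = D.star := funext (star_real T.gnr T.mem).1
    rw [h3]
    exact (T_spec T.gnr hx hw).2.1
  rw [e1, e2, e4, map_smul, (T_spec T.gnr hx hw').2.1, smul_eq_mul, mul_one] at e3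
  rw [hq, e3, one_smul]

namespace Q16_aux

theorem tt_mul : T.t * T.t = 1 := by
  ext y
  exact tE_tE T y

theorem tt_inv : (T.t)⁻¹ = T.t := inv_eq_of_mul_eq_one_left (tt_mul T)

theorem conj_rfn {a : E} (ha : ‖a‖ = 1) : T.t * rfn a * T.t = rfn (T.t a) := by
  rw [← rfn_conj T.t ha, tt_inv]

theorem sm_sub {Psi : Finset E} {x : E} : sm Psi x ⊆ Psi := fun _ h =>
  Finset.mem_of_mem_filter _ (Finset.mem_of_mem_filter _ h)

/-- left cancellation of `j` -/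
theorem j_cancel {a b : Al Ω G} (ha : D.f x * a = a) (hb : D.f x * b = b)
    (h : T.j * a = T.j * b) : a = b := by
  obtain ⟨j', -, -, h1, -⟩ := jj_inv T
  rw [← ha, ← hb, ← h1, mul_assoc, mul_assoc, h]

/-- right cancellation of `j` -/
theorem j_cancel' {a b : Al Ω G} (ha : a * (stD D).f x = a) (hb : b * (stD D).f x = b)
    (h : a * T.j = b * T.j) : a = b := by
  obtain ⟨j', -, -, -, h2⟩ := jj_inv T
  rw [← ha, ← hb, ← h2, ← mul_assoc, ← mul_assoc, h]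

end Q16_aux

theorem p_tau {a : E} (ha : a ∈ sm D.Psi x) : D.p x (T.t a) = D.p x a := by
  have hx := T.reg
  have hP : a ∈ D.Psi := Q16_aux.sm_sub ha
  have hP' : T.t a ∈ D.Psi := (tE_Psi T).2 hP
  have ha' : T.t a ∈ sm D.Psi x := (tau_S T).2 ha
  obtain ⟨hu, -, -, hw, -⟩ := of_Psi hP
  obtain ⟨hu', -, -, hw', -⟩ := of_Psi hP'
  have h1 := T_jj T hw
  rw [rfn_inv, Q16_aux.conj_rfn T hu] at h1
  have h2 := T_sq T.gnr hx ha
  have h3 := T_sq T.gnr hx ha'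
  have hab := T_abs T.gnr hx hw'
  have h4 : st (D.T x (rfn a) * D.T x (rfn a)) * T.j =
      T.j * (D.T x (rfn (T.t a)) * D.T x (rfn (T.t a))) := by
    rw [st_mul, mul_assoc, h1, ← mul_assoc, h1, mul_assoc]
  rw [h2, h3, st_add, st_smul, st_smul, add_mul, smul_mul_assoc, smul_mul_assoc, h1, st_f D hx,
    (jj_abs T).1] at h4
  have h5 : T.j * ((1 - D.p x a) • D.T x (rfn (T.t a)) + D.p x a • D.f x) =
      T.j * ((1 - D.p x (T.t a)) • D.T x (rfn (T.t a)) + D.p x (T.t a) • D.f x) := by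
    rw [← h4, mul_add, mul_smul_comm, mul_smul_comm, (jj_abs T).2]
  have hf := f_idem D hx
  have h6 := Q16_aux.j_cancel T
    (by rw [mul_add, mul_smul_comm, mul_smul_comm, hab.2.1, hf])
    (by rw [mul_add, mul_smul_comm, mul_smul_comm, hab.2.1, hf]) h5
  have hne : rfn (T.t a) ≠ 1 := by
    intro h
    have h7 : rfn (T.t a) (T.t a) = T.t a := by rw [h]; rfl
    rw [rfn_self hu'] at h7
    have h8 : T.t a = 0 := by
      have h9 : (2 : ℝ) • T.t a = 0 := by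
        rw [two_smul]
        nth_rewrite 1 [← h7]
        exact neg_add_cancel _
      exact (smul_eq_zero.1 h9).resolve_left two_ne_zero
    rw [h8, norm_zero] at hu'
    exact zero_ne_one hu'
  have h7 := congrArg t h6
  rw [t_add, t_add, t_smul, t_smul, t_smul, t_smul, T_t T.gnr hx hw' hne, mul_zero, mul_zero,
    zero_add, zero_add] at h7
  have h8 : t (D.f x) ≠ 0 := by
    have h9 := t_ee_eps D hx hx
    rw [e_idem] at h9
    exact h9
  exact (mul_right_cancel₀ h8 h7).symm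

namespace Q16_aux

theorem wj_conj {J : Finset E} (hJ : J ⊆ D.Psi) {w : E ≃ₗᵢ[ℝ] E} (hw : w ∈ wj J) :
    T.t * w⁻¹ * T.t ∈ wj (J.image T.t) := by
  have key : wj J ≤ (wj (J.image T.t)).comap (MulAut.conj T.t).toMonoidHom := by
    unfold wj
    rw [Subgroup.closure_le]
    rintro _ ⟨a, ha, rfl⟩
    show T.t * rfn a * (T.t)⁻¹ ∈ Subgroup.closure _
    rw [tt_inv, conj_rfn T (of_Psi (hJ ha)).1]
    apply Subgroup.subset_closure
    exact ⟨T.t a, Finset.mem_coe.2 (Finset.mem_image_of_mem _ ha), rfl⟩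
  have h1 : T.t * w⁻¹ * (T.t)⁻¹ ∈ wj (J.image T.t) := key ((wj J).inv_mem hw)
  rwa [tt_inv] at h1

theorem image_image {J : Finset E} : (J.image T.t).image T.t = J := by
  rw [Finset.image_image]
  have h : (⇑T.t ∘ ⇑T.t) = id := by
    funext y
    exact tE_tE T y
  rw [h, Finset.image_id]

theorem image_sub {J : Finset E} (hJ : J ⊆ D.Psi) : J.image T.t ⊆ D.Psi := by
  intro a ha
  obtain ⟨b, hb, rfl⟩ := Finset.mem_image.1 ha
  exact (tE_Psi T).2 (hJ hb)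

theorem conj_conj (w : E ≃ₗᵢ[ℝ] E) : T.t * (T.t * w⁻¹ * T.t)⁻¹ * T.t = w := by
  have h := tt_mul T
  have h' := tt_inv T
  rw [mul_inv_rev, mul_inv_rev, inv_inv, h']
  calc T.t * (T.t * (w * T.t)) * T.t = (T.t * T.t) * w * (T.t * T.t) := by
        simp only [mul_assoc]
    _ = w := by rw [h, one_mul, mul_one]

/-- the bijection of the groups -/
def eqv {J : Finset E} (hJ : J ⊆ D.Psi) : wj J ≃ wj (J.image T.t) where
  toFun w := ⟨T.t * (w : E ≃ₗᵢ[ℝ] E)⁻¹ * T.t, wj_conj T hJ w.2⟩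
  invFun w := ⟨T.t * (w : E ≃ₗᵢ[ℝ] E)⁻¹ * T.t, by
    have h := wj_conj T (image_sub T hJ) w.2
    rwa [image_image T] at h⟩
  left_inv w := Subtype.ext (conj_conj T _)
  right_inv w := Subtype.ext (conj_conj T _)

theorem len_eq {w : E ≃ₗᵢ[ℝ] E} (hw : w ∈ D.W) :
    (iv D.Psi x (T.t * w⁻¹ * T.t)).card = (iv D.Psi x w).card := by
  rw [tau_iv T (D.W.inv_mem hw)]
  exact len_inv (rg D T.ta x T.reg) hw

theorem fin_wj {J : Finset E} (hJ : J ⊆ D.Psi) : Finite (wj J) := by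
  have := fin_W D
  exact Finite.of_injective _ (Subgroup.inclusion_injective (wj_le_W hJ))

theorem st_sum {ι : Type} (s : Finset ι) (f : ι → Al Ω G) : st (∑ i ∈ s, f i) = ∑ i ∈ s, st (f i) := by
  induction s using Finset.induction_on with
  | empty =>
    rw [Finset.sum_empty, Finset.sum_empty]
    apply al_ext
    intro g
    rw [coeff_st]
    rfl
  | insert a s ha ih => rw [Finset.sum_insert ha, Finset.sum_insert ha, st_add, ih]

theorem heS_jj {J : Finset E} (hJ : J ⊆ D.Psi) :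
    st (heS Ω (D.T x) D.Psi x J) * T.j = T.j * heS Ω (D.T x) D.Psi x (J.image T.t) := by
  have f1 := fin_wj hJ
  have f2 := fin_wj (image_sub T hJ)
  have := Fintype.ofFinite (wj J)
  have := Fintype.ofFinite (wj (J.image T.t))
  unfold heS
  rw [finsum_eq_sum_of_fintype, finsum_eq_sum_of_fintype, st_sum, Finset.sum_mul, Finset.mul_sum,
    ← Equiv.sum_comp (eqv T hJ)]
  refine Finset.sum_congr rfl fun w _ => ?_
  have hw : (w : E ≃ₗᵢ[ℝ] E) ∈ D.W := wj_le_W hJ w.2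
  rw [st_smul, smul_mul_assoc, T_jj T hw, mul_smul_comm]
  show _ = (-1 : Ω) ^ (iv D.Psi x (T.t * (w : E ≃ₗᵢ[ℝ] E)⁻¹ * T.t)).card •
    (T.j * D.T x (T.t * (w : E ≃ₗᵢ[ℝ] E)⁻¹ * T.t))
  rw [len_eq T hw]

include T in
theorem heS_abs {J : Finset E} (hJ : J ⊆ D.Psi) :
    D.f x * heS Ω (D.T x) D.Psi x J = heS Ω (D.T x) D.Psi x J ∧
      heS Ω (D.T x) D.Psi x J * D.f x = heS Ω (D.T x) D.Psi x J := by
  have f1 := fin_wj hJ
  have := Fintype.ofFinite (wj J)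
  unfold heS
  rw [finsum_eq_sum_of_fintype]
  constructor
  · rw [Finset.mul_sum]
    refine Finset.sum_congr rfl fun w _ => ?_
    rw [mul_smul_comm, (T_abs T.gnr T.reg (wj_le_W hJ w.2)).2.1]
  · rw [Finset.sum_mul]
    refine Finset.sum_congr rfl fun w _ => ?_
    rw [smul_mul_assoc, (T_abs T.gnr T.reg (wj_le_W hJ w.2)).2.2]

theorem choose_eq {P Q : Ω → Prop} (hPQ : P = Q) (h : ∃ r, P r) (h' : ∃ r, Q r) :
    h.choose = h'.choose := by
  subst hPQ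
  rfl

theorem pred_eq {J : Finset E} (hJ : J ⊆ D.Psi) (r : Ω) :
    (r • heS Ω (D.T x) D.Psi x J) * (r • heS Ω (D.T x) D.Psi x J) = r • heS Ω (D.T x) D.Psi x J ↔
      (r • heS Ω (D.T x) D.Psi x (J.image T.t)) * (r • heS Ω (D.T x) D.Psi x (J.image T.t)) =
        r • heS Ω (D.T x) D.Psi x (J.image T.t) := by
  have hJ' := image_sub T hJ
  have hs := st_f D T.reg
  generalize hX : r • heS Ω (D.T x) D.Psi x J = X
  generalize hY : r • heS Ω (D.T x) D.Psi x (J.image T.t) = Y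
  have h1 : st X * T.j = T.j * Y := by
    rw [← hX, ← hY, st_smul, smul_mul_assoc, heS_jj T hJ, mul_smul_comm]
  have a1 : D.f x * X = X := by rw [← hX, mul_smul_comm, (heS_abs T hJ).1]
  have a2 : D.f x * Y = Y := by rw [← hY, mul_smul_comm, (heS_abs T hJ').1]
  have h2 : st (X * X) * T.j = T.j * (Y * Y) := by
    rw [st_mul, mul_assoc, h1, ← mul_assoc, h1, mul_assoc]
  constructor
  · intro h
    apply j_cancel T (by rw [← mul_assoc, a2]) a2
    rw [← h2, h, h1]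
  · intro h
    apply st_inj
    apply j_cancel' T
    · rw [← hs, ← st_mul, ← mul_assoc, a1]
    · rw [← hs, ← st_mul, a1]
    · rw [h2, h, h1]

end Q16_aux

theorem eJ_jj {J : Finset E} (hJ : J ⊆ sm D.Psi x) :
    st (D.eJ x J) * T.j = T.j * D.eJ x (J.image T.t) := by
  have hP : J ⊆ D.Psi := hJ.trans Q16_aux.sm_sub
  have hpe : (fun r : Ω => r ≠ 0 ∧ (r • heS Ω (D.T x) D.Psi x J) * (r • heS Ω (D.T x) D.Psi x J) =
      r • heS Ω (D.T x) D.Psi x J) = fun r : Ω => r ≠ 0 ∧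
      (r • heS Ω (D.T x) D.Psi x (J.image T.t)) * (r • heS Ω (D.T x) D.Psi x (J.image T.t)) =
        r • heS Ω (D.T x) D.Psi x (J.image T.t) := by
    funext r
    exact propext (and_congr_right fun _ => Q16_aux.pred_eq T hP r)
  unfold LieSys.Cs.eJ he
  by_cases h : ∃ r : Ω, r ≠ 0 ∧ (r • heS Ω (D.T x) D.Psi x J) * (r • heS Ω (D.T x) D.Psi x J) =
      r • heS Ω (D.T x) D.Psi x J
  · have h' : ∃ r : Ω, r ≠ 0 ∧
      (r • heS Ω (D.T x) D.Psi x (J.image T.t)) * (r • heS Ω (D.T x) D.Psi x (J.image T.t)) =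
        r • heS Ω (D.T x) D.Psi x (J.image T.t) := by
      obtain ⟨r, h0, hr⟩ := h
      exact ⟨r, h0, (Q16_aux.pred_eq T hP r).1 hr⟩
    rw [dif_pos h, dif_pos h', Q16_aux.choose_eq hpe h h', st_smul, smul_mul_assoc,
      Q16_aux.heS_jj T hP, mul_smul_comm]
  · have h' : ¬ ∃ r : Ω, r ≠ 0 ∧
      (r • heS Ω (D.T x) D.Psi x (J.image T.t)) * (r • heS Ω (D.T x) D.Psi x (J.image T.t)) =
        r • heS Ω (D.T x) D.Psi x (J.image T.t) := by
      rintro ⟨r, h0, hr⟩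
      exact h ⟨r, h0, (Q16_aux.pred_eq T hP r).2 hr⟩
    rw [dif_neg h, dif_neg h', mul_zero]
    have h0 : st (0 : Al Ω G) = 0 := by
      apply al_ext
      intro g
      rw [coeff_st]
      rfl
    rw [h0, zero_mul]

theorem jj_nondeg_J (hK : FixedField Γ K) (M : QM K S.H) {J : Finset E} (hJ : J ∈ T.JJ) :
    ∀ v ∈ LinearMap.range (oM M (D.eJ x J)),
      (∀ w ∈ LinearMap.range (oM M (D.eJ x J)), bj M T.j v w = 0) → v = 0 := by
  intro v hv hvw
  have hx := T.reg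
  obtain ⟨hJs, hJt⟩ := (mem_JJ T).1 hJ
  have hP : J ⊆ D.Psi := hJs.trans Q16_aux.sm_sub
  have hfe : FxA Γ (D.eJ x J) := fx_eJ T.gnr T.ta T.fe T.fx hx hJs
  have hff : FxA Γ (D.f x) := fx_f T.fe x
  have hfj : FxA Γ T.j := fx_jj T
  obtain ⟨hem, hee, hfe1, hef1⟩ := eJ_abs T.gnr hx hP
  have hfm : D.f x ∈ sb Ω S.H := f_mem D x
  have hjm := jj_mem T
  have hst : st (D.eJ x J) * T.j = T.j * D.eJ x J := by
    have h := eJ_jj T hJs
    rwa [hJt] at h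
  have hb : ∀ u u' : M.X, bj M T.j u u' = M.B u (oM M T.j u') := fun _ _ => rfl
  obtain ⟨v0, rfl⟩ := hv
  have hve : oM M (D.eJ x J) (oM M (D.eJ x J) v0) = oM M (D.eJ x J) v0 := by
    have h := oM_mul hK M hfe hfe hem hem
    rw [hee] at h
    nth_rewrite 3 [h]
    rfl
  apply jj_nondeg T hK M
  · refine ⟨oM M (D.eJ x J) v0, ?_⟩
    have h := oM_mul hK M hff hfe hfm hem
    rw [hfe1] at h
    nth_rewrite 2 [h]
    rfl
  · intro w _
    rw [hb, ← hve, oM_adj hK M hfe hem]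
    have h1 : oM M (st (D.eJ x J)) (oM M T.j w) = oM M T.j (oM M (D.eJ x J) w) := by
      have h2 := oM_mul hK M (fx_st hfe) hfj (st_mem.2 hem) hjm
      have h3 := oM_mul hK M hfj hfe hjm hem
      rw [hst] at h2
      have h4 := h2.symm.trans h3
      exact LinearMap.congr_fun h4 w
    rw [h1, ← hb]
    exact hvw _ ⟨w, rfl⟩

end

end

end LieP
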