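import Pool.Agent.LieP.Q15
import Pool.Agent.LieP.O06

/-!
# MP_6c3636_al, LieP, module Q17: the real members of odd degree of the Levi systems (11.4) (helper7)

Section 11, (11.4). `ψ` is the member of odd degree of the series of `levD D y hy` in the Levi system of `y`. If `ac n y = y` then `n ∈ L y` (`fix_iff`), `n ∈ (stD (levD D y hy)).NN (levD D y hy)` (`lev_NN`, `lev_stD`), so `ψ` is real (`odd_real`). Conversely, if `ψ` is real then (`ser_real` in the Levi system) there is `m ∈ (stD D).NN D`, `m ∈ L y`;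
`v = n⁻¹ m ∈ D.NN D` (`NN_inv`, `NN_mul`), `ac v y = ac n⁻¹ y`. Both `y` and `ac n⁻¹ y` are in the closed chamber (`tau_Cc`), so they are equal (`Cb_fix` for `D.rg`).
-/

namespace LieP

noncomputable section

open Classical

open ParkerGL (QM Qg cl dcf FixedField)

variable {Ω : Type} [Field Ω] [IsAlgClosed Ω] [CharZero Ω] {c : Parker.Ctx Ω}
  {Γ : Subgroup (RingAut Ω)} {K : Type} [Field K] [CharZero K] [Algebra K Ω]
  {G E : Type} [Group G] [Finite G] [NormedAddCommGroup E] [InnerProductSpace ℝ E]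
  [FiniteDimensional ℝ E] {S : LieSys G E}

theorem real_iff {D : S.Cs Ω} {x : E} (T : TD D Γ x) {y : E} (hy : y ∈ S.X D.x) (hC : y ∈ Cc D x)
    (hts : TS (lev S y) c) {ψ : G → Ω} (hψ : ψ ∈ (levD D y hy).Ser) (ho : Odd (Parker.dg ψ)) :
    rl ψ ↔ S.ac T.n y = y := by
  have hnN : T.n ∈ S.N := (NN_H T.mem).1
  have hg : (levD D y hy).gnr := (LieSys.Cs.gnr_lev D hy (levD D y hy) rfl rfl).2 T.gnr
  have hy' : y ∈ S.X (stD D).x := hy
  constructor
  · intro hr
    obtain ⟨m, hm⟩ := ser_real hψ hr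
    rw [← lev_stD hy] at hm
    obtain ⟨hm1, hm2⟩ := (lev_NN hy' hy).1 hm
    have hmN : m ∈ S.N := (NN_H hm1).1
    have hmy : S.ac m y = y := (fix_iff S hmN).2 hm2
    have hn' : T.n⁻¹ ∈ D.NN (stD D) := NN_inv T.mem
    have hv : T.n⁻¹ * m ∈ D.NN D := NN_mul hn' hm1
    obtain ⟨w, hw, hwv⟩ := W_of hv
    have hinvN : T.n⁻¹ ∈ S.N := S.N.inv_mem hnN
    have h1 : w y = S.ac T.n⁻¹ y := by
      rw [hwv y hy, S.ac_mul _ hinvN _ hmN]
      show S.ac T.n⁻¹ (S.ac m y) = _
      rw [hmy]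
    have h2 : S.ac T.n (w y) = y := by
      rw [h1]
      have h3 := S.ac_mul _ hnN _ hinvN
      rw [mul_inv_cancel, S.ac_one] at h3
      have h4 := congrArg (fun g : E ≃ₗᵢ[ℝ] E => g y) h3
      exact h4.symm
    have hwX : w y ∈ S.X D.x := W_X hw hy
    have h3 : w y ∈ Cc D x := by
      rw [← tau_Cc T, tE_X T hwX, h2]
      exact hC
    have h4 : ∀ z ∈ Cc D x, z ∈ (rg D T.ta x T.reg).Cb := by
      intro z hz a ha
      have ha' := Finset.mem_filter.1 ha
      exact hz.2 a ha'.1 ha'.2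
    have h5 : w y = y := Cb_fix (rg D T.ta x T.reg) (h4 y hC) hw (h4 _ h3)
    rw [h5] at h2
    exact h2
  · intro h
    have hL : T.n ∈ S.L y := (fix_iff S hnN).1 h
    have hn : T.n ∈ (stD (levD D y hy)).NN (levD D y hy) := by
      rw [← lev_stD hy]
      exact (lev_NN hy' hy).2 ⟨T.mem, hL⟩
    exact odd_real hts hg hn hψ ho

end

end LieP
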