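import Pool.Agent.LieP.Q16
import Pool.Agent.LieP.Q17
import Pool.Agent.LieP.Q08
import Pool.Agent.LieP.Q03
import Pool.Agent.LieP.Q04
import Pool.Agent.LieP.O06
import Pool.Agent.LieP.O03
import Pool.Agent.LieP.Q12

/-!
# MP_6c3636_al, LieP, module Q18: comparison of the two classes (11.5) (helper7)

Section 11, (11.5). `x₁ = cm y x`, regular, in the chamber of `x`, `y ≤ x₁`, `n ∈ L y`. `D' = levD D y hy`. `j₁ = e_{x₁} e_{n x₁} b = e y * j_y`, `j_y = av (U x₁ ⊓ L y) * b * av (U x₁ ⊓ L y)` (it is `jj (lev S y) x₁ b`).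
(1) O06: `D.f x₁ * cen (L y) ψ = D.eJ x₁ (Jy D x y)` (the simple roots of the Levi system at `x₁` are those of `Jy`, and `sm D.Psi x₁ = sm D.Psi x`). (2) `morita` for the group `L y`, `ψ`, `a = D'.f x₁`, `j = j_y`, and the module `cutM` of `S.e y` (`H' = L y`): `dcA M (e y * cen ψ) = dcB M j₁ (D.eJ x₁ J) κ₀^rank` (`cutM_dcA`, `cutM_dcB`; `cutM_dcB` with `e y * a * cen ψ`, and on the range of `e y` the operators `j_y` and `j₁` agree).
(`st a * j_y * a * cen ψ ≠ 0`: `j_y` is invertible between `D'.f x₁` and its adjoint by `jj_inv` for the data `TD` of the Levi system; symmetric by `jj_st`.)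
(3) `dcB_trans` with `a = D.eJ x J`, `b = D.eJ x₁ J`, `θ = D.f x₁ * D.f x * D.eJ x J` (O03: `be * T x w * al = q T x₁ w`), `θ' = D.f x * D.f x₁ * D.eJ x₁ J`, `j = j₁`, `j' = j`: `st θ * j₁ * θ` is `st e_J * (e_x e_{x₁} e_{x₁} e_{n x₁} b e_{x₁} e_x) * e_J`, and `e_x e_{x₁} e_{n x₁} e_{n x} b` is a nonzero multiple of `e_x e_{n x} b` by C05 for `stD D` (no root of type (a) separates any two of `x, x₁, n x₁, n x`).
The multiple is in the fixed field (both elements have fixed coefficients). All exponents are the rank of `e_J`, and classes of elements of `K` have order two.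
-/

namespace LieP

noncomputable section

open Classical

open ParkerGL (QM Qg cl dcf FixedField)

variable {Ω : Type} [Field Ω] [IsAlgClosed Ω] [CharZero Ω] {c : Parker.Ctx Ω}
  {Γ : Subgroup (RingAut Ω)} {K : Type} [Field K] [CharZero K] [Algebra K Ω]
  {G E : Type} [Group G] [Finite G] [NormedAddCommGroup E] [InnerProductSpace ℝ E]
  [FiniteDimensional ℝ E] {S : LieSys G E}

namespace Q18_aux

/-- fixed coefficients of a proportionality factor -/
theorem fx_ratio {a b : Al Ω G} (ha : FxA Γ a) (hb : FxA Γ b) (h0 : b ≠ 0) {r : Ω} (h : a = r • b) :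
    Parker.Fx Γ r := by
  obtain ⟨g, hg⟩ : ∃ g, b.coeff g ≠ 0 := by
    by_contra hcon
    push Not at hcon
    exact h0 (al_ext fun g => by rw [hcon g]; rfl)
  intro σ hσ
  have h1 : a.coeff g = r * b.coeff g := by rw [h, coeff_smul]
  have h2 : σ (a.coeff g) = a.coeff g := ha g σ hσ
  have h3 : σ (b.coeff g) = b.coeff g := hb g σ hσ
  rw [h1, map_mul, h3] at h2
  exact mul_right_cancel₀ hg h2

theorem sm_Psi {D : S.Cs Ω} {x : E} : sm D.Psi x ⊆ D.Psi := fun a ha =>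
  (Finset.mem_filter.1 (Finset.mem_filter.1 ha).1).1

/-- the rank of the idempotent in the member of odd degree -/
theorem rk_odd {D : S.Cs Ω} (hD : D.gnr) (hT : D.TaH) {x : E} (hx : S.Reg D.x x)
    (hc : ∀ a ∈ sm D.Psi x, c.av (D.p x a) < 1 ∧ 1 + D.p x a ≠ 0) {ψ : G → Ω} (hψ : ψ ∈ ir Ω S.H)
    (he : D.f x * cen S.H ψ = D.eJ x (sm D.Psi x)) :
    rk ψ (D.f x) = 1 ∧ D.eJ x (sm D.Psi x) ≠ 0 := by
  have hne := eJ_ne hD hT hx hc (Finset.Subset.refl (sm D.Psi x))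
  refine ⟨?_, hne⟩
  obtain ⟨hm, hi, -, -⟩ := eJ_abs hD hx (sm_Psi (D := D) (x := x))
  obtain ⟨φ, hφ, h1, -⟩ := prim_unique hm hi hne (fun a ha => eJ_prim hD hT hx hc ha)
  have h2 : D.eJ x (sm D.Psi x) = cen S.H ψ * D.f x := by
    rw [← he, cen_comm hψ (f_mem D x)]
  rw [h2, rk_cen hψ hφ (f_mem D x) (f_idem D hx)] at h1
  split_ifs at h1 with h
  exact h1

/-- the data for the Levi system -/
theorem lev_TD {D : S.Cs Ω} {x : E} (T : TD D Γ x) {y x1 : E}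
    (hy : y ∈ S.X D.x) (hNA : D.NA x x1) (hreg : S.Reg D.x x1) (hny : S.ac T.n y = y)
    (hts : TS (lev S y) c) (hF : ∀ φ ∈ ir Ω (S.L y), ∀ g, Parker.Fx Γ (φ g)) :
    ∃ T' : TD (levD D y hy) Γ x1, T'.n = T.n ∧ T'.b = T.b := by
  have hg : (levD D y hy).gnr := (lev_gnr hy).2 T.gnr
  have hnL : T.n ∈ S.L y := (fix_iff S (NN_H T.mem).1).1 hny
  refine ⟨⟨T.n, T.b, hg, hts.ta _ hg, levD_reg_of hreg, T.fe, ?_, ?_, ?_, T.b0, T.fb, hF⟩, rfl, rfl⟩
  · have h := (lev_NN (D' := stD D) (D := D) (n := T.n) (y := y) hy hy).2 ⟨T.mem, hnL⟩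
    rwa [lev_stD] at h
  · intro a ha
    refine (?_ : D.NA x1 (S.ac T.n x1)) a ((lev_Ta hy).1 ha).1
    have h1 : D.NA (S.ac T.n x) (S.ac T.n x1) := (tau_NA T).2 hNA
    have hnr : S.Reg D.x (S.ac T.n x) := ((NN_reg T.mem).2.2 x).2 T.reg
    exact NA_trans T.reg (NA_symm hNA) (NA_trans hnr T.na h1)
  · have h := lev_lin (D' := stD D) (D := D) (y := y) hy hy T.n
    rw [lev_stD] at h
    rw [h]
    exact T.bl

theorem cut_comm {H H' : Subgroup G} {a : Al Ω G} (h : CutH Γ H H' a) {b : Al Ω G}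
    (hb : b ∈ sb Ω H') : a * b = b * a := by
  refine sb_induction (p := fun b => a * b = b * a) ?_ ?_ ?_ hb
  · rw [mul_zero, zero_mul]
  · intro u v hu hv
    rw [mul_add, add_mul, hu, hv]
  · intro r g hg
    rw [mul_smul_comm, smul_mul_assoc, h.comm g hg]

theorem finrank_cut (hK : FixedField Γ K) {H H' : Subgroup G} (M : QM K H) {a : Al Ω G}
    (h : CutH Γ H H' a) {b : Al Ω G} (hb : FxA Γ b) (hb' : b ∈ sb Ω H') (hbb : b * b = b) :
    Module.finrank K (LinearMap.range (oM (cutM hK M h) b)) =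
      Module.finrank K (LinearMap.range (oM M (a * b))) := by
  have hbH : b ∈ sb Ω H := sb_mono h.le hb'
  have hab : a * b * (a * b) = a * b := by
    calc a * b * (a * b) = a * (b * a) * b := by simp only [mul_assoc]
      _ = a * (a * b) * b := by rw [cut_comm h hb']
      _ = (a * a) * (b * b) := by simp only [mul_assoc]
      _ = a * b := by rw [h.idem, hbb]
  rw [oM_rank hK (cutM hK M h) hb hb' hbb,
    oM_rank hK M (fx_mul h.fx hb) (mul_mem h.mem hbH) hab]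
  have h1 : ∀ φ ∈ ir Ω H, mM M φ * rk φ (a * b) =
      ∑ ψ ∈ ir Ω H', mM M φ * mt H' φ a ψ * rk ψ b := by
    intro φ hφ
    rw [rk_mt h.le hφ h.mem h.idem (fun c hc => cut_comm h hc) hb' hbb, Finset.mul_sum]
    exact Finset.sum_congr rfl fun ψ _ => by rw [mul_assoc]
  rw [Finset.sum_congr rfl h1, Finset.sum_comm]
  refine Finset.sum_congr rfl fun ψ hψ => ?_
  rw [mM_cut hK M h hψ, Finset.sum_mul]

/-- the four fold product -/
theorem four {D : S.Cs Ω} {x : E} (T : TD D Γ x) {x1 : E} (hreg : S.Reg D.x x1)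
    (hNA : D.NA x x1) : ∃ r : Ω, r ≠ 0 ∧
      S.e Ω x * S.e Ω x1 * S.e Ω (S.ac T.n x1) * S.e Ω (S.ac T.n x) * T.b = r • T.j := by
  have hR := (NN_reg T.mem).2.2
  have hb := (lin_abs T.bl).1
  have hn1 : S.Reg (stD D).x (S.ac T.n x1) := (hR x1).2 hreg
  have hnx : S.Reg (stD D).x (S.ac T.n x) := (hR x).2 T.reg
  have hreg' : S.Reg (stD D).x x1 := hreg
  have hx' : S.Reg (stD D).x x := T.reg
  have hn : D.NA (S.ac T.n x) (S.ac T.n x1) := (tau_NA T).2 hNA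
  obtain ⟨r1, hr1, h1⟩ := cocyc_mul (stD D) hnx hn1 hreg' (fun a ha hlt =>
    hn a ((Ta_st D a).1 ha) hlt.1)
  obtain ⟨r2, hr2, h2⟩ := cocyc_mul (stD D) hnx hreg' hx' (fun a ha hlt =>
    NA_symm hNA a ((Ta_st D a).1 ha) hlt.2)
  refine ⟨r1 * r2, mul_ne_zero hr1 hr2, ?_⟩
  have e1 := h1 T.b hb
  have e2 := h2 T.b hb
  rw [(jj_eq T).2, mul_smul, ← e2]
  calc S.e Ω x * S.e Ω x1 * S.e Ω (S.ac T.n x1) * S.e Ω (S.ac T.n x) * T.b
      = S.e Ω x * (S.e Ω x1 * S.e Ω (S.ac T.n x1) * S.e Ω (S.ac T.n x) * T.b) := by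
        simp only [mul_assoc]
    _ = r1 • (S.e Ω x * S.e Ω x1 * S.e Ω (S.ac T.n x) * T.b) := by
        rw [e1, mul_smul_comm]
        simp only [mul_assoc]

theorem bracket {D : S.Cs Ω} {x : E} (T : TD D Γ x) {x1 : E} (hreg : S.Reg D.x x1) :
    (stD D).f x * (stD D).f x1 * (S.e Ω x1 * T.b * S.e Ω x1) * D.f x1 * D.f x =
      S.e Ω x * S.e Ω x1 * S.e Ω (S.ac T.n x1) * S.e Ω (S.ac T.n x) * T.b := by
  have hR := (NN_reg T.mem).2.2
  have hreg' : S.Reg (stD D).x x1 := hreg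
  have hn1 : S.Reg (stD D).x (S.ac T.n x1) := (hR x1).2 hreg
  obtain ⟨hb1, hb2⟩ := lin_abs T.bl
  have e1 : (stD D).f x1 * S.e Ω x1 = (stD D).f x1 := (f_abs (stD D) hreg').2.1
  have e2 : S.e Ω x1 * D.f x1 = D.f x1 := (f_abs D hreg).1
  have e3 := f_lin_f T.mem T.bl hreg hreg'
  have e4 : T.b * D.f x = S.e Ω (S.ac T.n x) * T.b := by
    rw [f_comm D T.reg, ← mul_assoc, hb2, lin_e T.mem T.bl T.reg]
  have hm : (stD D).ε ∈ sb Ω (S.L D.x) := (stD D).mem
  have e5 : (stD D).ε * S.e Ω x1 = S.e Ω x1 * (stD D).ε := by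
    refine e_comm ?_
    rw [← L_reg S hreg]
    exact hm
  have e6 : (stD D).ε * S.e Ω (S.ac T.n x1) = S.e Ω (S.ac T.n x1) * (stD D).ε := by
    refine e_comm ?_
    have h7 := L_reg S hn1
    rw [← h7]
    exact hm
  calc (stD D).f x * (stD D).f x1 * (S.e Ω x1 * T.b * S.e Ω x1) * D.f x1 * D.f x
      = (stD D).f x * (((stD D).f x1 * S.e Ω x1) * T.b * (S.e Ω x1 * D.f x1)) * D.f x := by
        simp only [mul_assoc]
    _ = (stD D).f x * ((stD D).f x1 * T.b * D.f x1) * D.f x := by rw [e1, e2]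
    _ = (S.e Ω x * (stD D).ε) * (S.e Ω x1 * S.e Ω (S.ac T.n x1) * T.b) * D.f x := by
        rw [e3]
        rfl
    _ = S.e Ω x * ((stD D).ε * S.e Ω x1) * (S.e Ω (S.ac T.n x1) * (T.b * D.f x)) := by
        simp only [mul_assoc]
    _ = S.e Ω x * S.e Ω x1 * ((stD D).ε * S.e Ω (S.ac T.n x1)) * (S.e Ω (S.ac T.n x) * T.b) := by
        rw [e5, e4]
        simp only [mul_assoc]
    _ = S.e Ω x * S.e Ω x1 * S.e Ω (S.ac T.n x1) * ((stD D).ε * (S.e Ω (S.ac T.n x) * T.b)) := by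
        rw [e6]
        simp only [mul_assoc]
    _ = _ := by
        have e8 : (stD D).ε * (S.e Ω (S.ac T.n x) * T.b) = S.e Ω (S.ac T.n x) * T.b := by
          rw [← e4, ← mul_assoc, hb1]
        rw [e8]
        simp only [mul_assoc]

/-- the two operators agree on the range of `e y` -/
theorem ey_jj {D : S.Cs Ω} {x : E} (T : TD D Γ x) {y x1 : E} (hy : y ∈ S.X D.x)
    (hle : S.le y x1) (hnL : T.n ∈ S.L y) :
    S.e Ω y * jj (lev S y) x1 T.b = S.e Ω x1 * T.b * S.e Ω x1 := by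
  have hL : S.L D.x ≤ S.L y := L_mono S hy
  have hb : T.b ∈ sb Ω (S.L y) := by
    obtain ⟨a, ha, hab⟩ := T.bl
    rw [hab]
    refine mul_mem (mul_mem (mul_mem (sb_mono hL (stD D).mem) (sb_mono hL ha)) (dl_mem.2 hnL))
      (sb_mono hL D.mem)
  obtain ⟨h1, h2⟩ := e_face (S := S) (k := Ω) hle
  have hl : (lev S y).e Ω x1 ∈ sb Ω (S.L y) := e_mem (S := lev S y) x1
  have c1 : T.b * S.e Ω y = S.e Ω y * T.b := e_comm hb
  calc S.e Ω y * jj (lev S y) x1 T.b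
      = S.e Ω y * ((lev S y).e Ω x1 * T.b * (lev S y).e Ω x1) := rfl
    _ = (S.e Ω y * (lev S y).e Ω x1) * T.b * (lev S y).e Ω x1 := by simp only [mul_assoc]
    _ = S.e Ω x1 * T.b * (lev S y).e Ω x1 := by rw [← h1]
    _ = (S.e Ω x1 * S.e Ω y) * T.b * (lev S y).e Ω x1 := by rw [(e_le hle).2]
    _ = S.e Ω x1 * (T.b * S.e Ω y) * (lev S y).e Ω x1 := by
        rw [c1]
        simp only [mul_assoc]
    _ = S.e Ω x1 * T.b * (S.e Ω y * (lev S y).e Ω x1) := by simp only [mul_assoc]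
    _ = _ := by rw [← h1]

theorem comm_trans {D : S.Cs Ω} (hD : D.gnr) {x x1 : E} (hx : S.Reg D.x x) (hx1 : S.Reg D.x x1)
    (h : D.NA x x1) {J : Finset E} (hJ : J ⊆ D.Psi) {q : Ω} (hq0 : q ≠ 0)
    (hq : D.f x * D.f x1 * (D.f x1 * D.f x) = q • D.f x) :
    D.eJ x1 J * (D.f x1 * D.f x) = D.f x1 * D.f x * D.eJ x J ∧
      D.f x * D.f x1 * D.eJ x1 J = D.eJ x J * (D.f x * D.f x1) := by
  have h1 := eJ_NA hD hx hx1 h hJ hq
  obtain ⟨-, -, a1, a2⟩ := eJ_abs hD hx hJ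
  have hinj : ∀ u v : Al Ω G, q • u = q • v → u = v := fun u v huv => by
    have := congrArg (fun w => q⁻¹ • w) huv
    simpa only [smul_smul, inv_mul_cancel₀ hq0, one_smul] using this
  constructor
  · apply hinj
    calc q • (D.eJ x1 J * (D.f x1 * D.f x)) = (q • D.eJ x1 J) * (D.f x1 * D.f x) := by
          rw [smul_mul_assoc]
      _ = D.f x1 * D.f x * D.eJ x J * (D.f x * D.f x1 * (D.f x1 * D.f x)) := by
          rw [← h1]
          simp only [mul_assoc]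
      _ = q • (D.f x1 * D.f x * (D.eJ x J * D.f x)) := by
          rw [hq, mul_smul_comm]
          simp only [mul_assoc]
      _ = _ := by rw [a2]
  · apply hinj
    calc q • (D.f x * D.f x1 * D.eJ x1 J) = D.f x * D.f x1 * (q • D.eJ x1 J) := by
          rw [mul_smul_comm]
      _ = (D.f x * D.f x1 * (D.f x1 * D.f x)) * D.eJ x J * (D.f x * D.f x1) := by
          rw [← h1]
          simp only [mul_assoc]
      _ = q • ((D.f x * D.eJ x J) * (D.f x * D.f x1)) := by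
          rw [hq, smul_mul_assoc, smul_mul_assoc]
      _ = _ := by rw [a1]

/-- the set of the walls is stable -/
theorem Jy_JJ {D : S.Cs Ω} {x : E} (T : TD D Γ x) {y : E} (hy : y ∈ S.X D.x)
    (hny : S.ac T.n y = y) : Jy D x y ∈ T.JJ := by
  have hty : T.t y = y := (tE_X T hy).trans hny
  have key : ∀ a, a ∈ Jy D x y → T.t a ∈ Jy D x y := by
    intro a ha
    obtain ⟨h1, h2⟩ := Finset.mem_filter.1 ha
    refine Finset.mem_filter.2 ⟨(tau_S T).2 h1, ?_⟩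
    have h3 : inner ℝ (T.t a) (T.t y) = inner ℝ a y := T.t.inner_map_map a y
    rw [hty] at h3
    rw [h3, h2]
  rw [mem_JJ]
  refine ⟨Finset.filter_subset _ _, ?_⟩
  ext a
  rw [Finset.mem_image]
  constructor
  · rintro ⟨b, hb, rfl⟩
    exact key b hb
  · intro ha
    exact ⟨T.t a, key a ha, tE_tE T a⟩

theorem q_comm (a b : Qg c Γ) : a * b = b * a := by
  induction a using QuotientGroup.induction_on with
  | H a =>
    induction b using QuotientGroup.induction_on with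
    | H b => exact congrArg (QuotientGroup.mk (s := ParkerGL.SqSub c Γ)) (mul_comm a b)

theorem q_one : (1 : Qg c Γ) * 1 = 1 := ParkerGL.D01_aux.q_one_mul 1

theorem q_swap (a b : Qg c Γ) : a * b * (a * b) = a * a * (b * b) := by
  calc a * b * (a * b) = a * (b * a) * b := by simp only [mul_assoc]
    _ = a * (a * b) * b := by rw [q_comm b a]
    _ = _ := by simp only [mul_assoc]

theorem q_pow (a b : Qg c Γ) (m : ℕ) : (a * b) ^ m = a ^ m * b ^ m := by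
  induction m with
  | zero =>
    rw [pow_zero, pow_zero, pow_zero]
    exact q_one.symm
  | succ m ih =>
    rw [pow_succ, pow_succ, pow_succ, ih]
    calc a ^ m * b ^ m * (a * b) = a ^ m * (b ^ m * a) * b := by simp only [mul_assoc]
      _ = a ^ m * (a * b ^ m) * b := by rw [q_comm (b ^ m) a]
      _ = _ := by simp only [mul_assoc]

theorem q_three (a b d : Qg c Γ) : a * b * d = b * (d * a) := by
  calc a * b * d = b * a * d := by rw [q_comm a b]
    _ = b * (a * d) := by simp only [mul_assoc]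
    _ = _ := by rw [q_comm a d]

end Q18_aux

theorem exists_kappa (hK : FixedField Γ K) {D : S.Cs Ω} {x : E} (T : TD D Γ x) {y : E}
    (hy : y ∈ S.X D.x) (hC : y ∈ Cc D x) (hny : S.ac T.n y = y) (hts : TS (lev S y) c)
    (hF : ∀ φ ∈ ir Ω (S.L y), ∀ g, Parker.Fx Γ (φ g)) {ψ : G → Ω} (hψ : ψ ∈ (levD D y hy).Ser)
    (ho : Odd (Parker.dg ψ)) :
    ∃ κ : Qg c Γ, κ * κ = 1 ∧ ∀ M : QM K S.H, dcA c Γ M (S.e Ω y * cen (S.L y) ψ) =
      dcB c Γ M T.j (D.eJ x (Jy D x y)) *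
        κ ^ Module.finrank K (LinearMap.range (oM M (D.eJ x (Jy D x y)))) := by
  have hP := Q18_aux.sm_Psi (D := D) (x := x)
  obtain ⟨x1, hNA, hreg, hle⟩ : ∃ x1, D.NA x x1 ∧ S.Reg D.x x1 ∧ S.le y x1 :=
    ⟨S.cm y x, (NA_cm T.reg hC).1, (NA_cm T.reg hC).2, le_cm S y x⟩
  obtain ⟨T', hTn, hTb⟩ := Q18_aux.lev_TD (c := c) T hy hNA hreg hny hts hF
  have hnL : T.n ∈ S.L y := (fix_iff S (NN_H T.mem).1).1 hny
  set J := Jy D x y with hJdef
  have hJ : J ⊆ sm D.Psi x := Finset.filter_subset _ _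
  have hJP : J ⊆ D.Psi := hJ.trans hP
  have hsm := (sm_NA T.reg hreg hNA).2
  have hJ1 : J ⊆ sm D.Psi x1 := by rw [← hsm]; exact hJ
  have hJy1 : sm (levD D y hy).Psi x1 = J := by
    rw [lev_sm hy hreg hle, hJdef]
    unfold Jy
    rw [hsm]
  have hg' := T'.gnr
  have hreg' : (lev S y).Reg (levD D y hy).x x1 := T'.reg
  -- step 1
  obtain ⟨φ, hφS, hφo, hφu, hφe⟩ := hts.tb _ hg'
  have hψφ : ψ = φ := hφu ψ hψ ho
  subst hψφ
  have hψi : ψ ∈ ir Ω (S.L y) := (Finset.mem_filter.1 hψ).1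
  have he' := hφe x1 hreg'
  have hc' : ∀ a ∈ sm (levD D y hy).Psi x1,
      c.av ((levD D y hy).p x1 a) < 1 ∧ 1 + (levD D y hy).p x1 a ≠ 0 := hts.tc _ hg' x1 hreg'
  obtain ⟨hrk, hne⟩ := Q18_aux.rk_odd hg' T'.ta hreg' hc' hψi he'
  have he'' : (levD D y hy).f x1 * cen (S.L y) ψ = (levD D y hy).eJ x1 J := by
    rw [← hJy1]
    exact he'
  have he1 : S.e Ω y * ((levD D y hy).f x1 * cen (S.L y) ψ) = D.eJ x1 J := by
    rw [he'']
    refine lev_eJ T.gnr hy hreg hle ?_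
    rw [← hsm]
    exact Finset.Subset.refl _
  -- step 2
  have hfψ : ∀ g, Parker.Fx Γ (ψ g) := hF ψ hψi
  have hr : rl ψ := (real_iff T hy hC hts hψ ho).2 hny
  have hfc : FxA Γ (cen (S.L y) ψ) := fx_cen _ hfψ
  have hfa : FxA Γ ((levD D y hy).f x1) := fx_f T'.fe x1
  have hma : (levD D y hy).f x1 ∈ sb Ω (S.L y) := f_mem (levD D y hy) x1
  have hst : st ((levD D y hy).f x1) = (stD (levD D y hy)).f x1 := st_f _ hreg'
  have habs := jj_abs T'
  have hsja : st ((levD D y hy).f x1) * T'.j * (levD D y hy).f x1 = T'.j := by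
    rw [hst, habs.1, habs.2]
  have hj0 : st ((levD D y hy).f x1) * T'.j * (levD D y hy).f x1 * cen (S.L y) ψ ≠ 0 := by
    rw [hsja]
    intro h0
    obtain ⟨j', -, -, h2, -⟩ := jj_inv T'
    have h3 : (levD D y hy).f x1 * cen (S.L y) ψ = 0 := by
      rw [← h2, mul_assoc, h0, mul_zero]
    exact hne (he'.symm.trans h3)
  obtain ⟨κ₀, hκ₀, hmor⟩ := morita (c := c) hK hψi hfψ hr ho hma (f_idem _ hreg') hfa hrk
    (jj_mem T') (fx_jj T') (by rw [hsja, jj_st]) hj0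
  -- step 3
  obtain ⟨q, hq0, hq1, hq2, -, -⟩ := trans T.gnr T.reg hreg hNA
  obtain ⟨hcA, hcB⟩ := Q18_aux.comm_trans T.gnr T.reg hreg hNA hJP hq0 hq1
  obtain ⟨r, hr0, h4⟩ := Q18_aux.four T hreg hNA
  have hbr := Q18_aux.bracket T hreg
  have hfx : FxA Γ (D.f x) := fx_f T.fe x
  have hfx1 : FxA Γ (D.f x1) := fx_f T.fe x1
  have hqF : Parker.Fx Γ q :=
    Q18_aux.fx_ratio (fx_mul (fx_mul hfx hfx1) (fx_mul hfx1 hfx)) hfx (f_ne D T.reg) hq1
  obtain ⟨q', hq'⟩ := (hK q).1 hqF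
  have hjne : T.j ≠ 0 := by
    intro h0
    obtain ⟨j', -, -, h2, -⟩ := jj_inv T
    rw [h0, mul_zero] at h2
    exact f_ne D T.reg h2.symm
  have hrF : Parker.Fx Γ r := by
    refine Q18_aux.fx_ratio (fx_mul (fx_mul (fx_mul (fx_mul (fx_e x) (fx_e x1)) (fx_e _))
      (fx_e _)) T.fb) (fx_jj T) hjne h4
  obtain ⟨u, hu⟩ := (hK r).1 hrF
  have hu0 : u ≠ 0 := fun h => hr0 (by rw [← hu, h, map_zero])
  have hq'0 : q' ≠ 0 := fun h => hq0 (by rw [← hq', h, map_zero])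
  obtain ⟨m0, i0, a1, a2⟩ := eJ_abs T.gnr T.reg hJP
  obtain ⟨m1, i1, b1, b2⟩ := eJ_abs T.gnr hreg hJP
  have fe0 : FxA Γ (D.eJ x J) := fx_eJ T.gnr T.ta T.fe T.fx T.reg hJ
  have fe1 : FxA Γ (D.eJ x1 J) := fx_eJ T.gnr T.ta T.fe T.fx hreg hJ1
  have hey : S.e Ω y * D.eJ x1 J = D.eJ x1 J := by
    rw [← b1, ← mul_assoc, ← (f_abs D hreg).1, ← mul_assoc, (e_le hle).1]
  have hCut : CutH Γ S.H (S.L y) (S.e Ω y) :=
    ⟨S.LH y, e_mem y, e_idem y, fx_e y, st_e y, fun h hh => e_comm (dl_mem.2 hh)⟩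
  refine ⟨κ₀ * cl c Γ (algebraMap K Ω u), ?_, fun M => ?_⟩
  · have h1 := ParkerGL.cl_sq (c := c) ((hK (algebraMap K Ω u)).2 ⟨u, rfl⟩)
    calc κ₀ * cl c Γ (algebraMap K Ω u) * (κ₀ * cl c Γ (algebraMap K Ω u))
        = (κ₀ * κ₀) * (cl c Γ (algebraMap K Ω u) * cl c Γ (algebraMap K Ω u)) := by
          exact Q18_aux.q_swap _ _
      _ = 1 := by rw [hκ₀, h1]; exact Q18_aux.q_one
  have hM := hmor (cutM hK M hCut)
  have hfb : FxA Γ ((levD D y hy).f x1 * cen (S.L y) ψ) := fx_mul hfa hfc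
  have hmb : (levD D y hy).f x1 * cen (S.L y) ψ ∈ sb Ω (S.L y) := mul_mem hma (cen_mem ψ hψi)
  have hbb : (levD D y hy).f x1 * cen (S.L y) ψ * ((levD D y hy).f x1 * cen (S.L y) ψ) =
      (levD D y hy).f x1 * cen (S.L y) ψ := by
    rw [he'']
    exact (eJ_abs hg' hreg' (by rw [← hJy1]; exact Q18_aux.sm_Psi)).2.1
  rw [cutM_dcA hK M hCut hfc (cen_mem ψ hψi), cutM_dcB hK M hCut hfb hmb (fx_jj T') (jj_mem T'),
    Q18_aux.finrank_cut hK M hCut hfb hmb hbb, he1] at hM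
  have hrank : Module.finrank K (LinearMap.range (oM M (D.eJ x1 J))) =
      Module.finrank K (LinearMap.range (oM M (D.eJ x J))) := by
    rw [oM_rank hK M fe1 m1 i1, oM_rank hK M fe0 m0 i0]
    exact Finset.sum_congr rfl fun φ hφ => by
      rw [rk_eJ_NA T.gnr T.reg hreg hNA hJ hφ]
  rw [hrank] at hM
  -- the transition
  have hθ1 : D.eJ x1 J * (D.f x1 * D.f x * D.eJ x J) = D.f x1 * D.f x * D.eJ x J := by
    rw [← mul_assoc, hcA, mul_assoc, i0]
  have hθ2 : D.eJ x J * (D.f x * D.f x1 * D.eJ x1 J) = D.f x * D.f x1 * D.eJ x1 J := by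
    rw [← mul_assoc, ← hcB, mul_assoc, i1]
  have hB := dcB_trans (c := c) hK M (a := D.eJ x J) (b := D.eJ x1 J)
    (θ := D.f x1 * D.f x * D.eJ x J) (θ' := D.f x * D.f x1 * D.eJ x1 J) (j := T'.j) (j' := T.j)
    fe0 fe1 (fx_mul (fx_mul hfx1 hfx) fe0) (fx_mul (fx_mul hfx hfx1) fe1) (fx_jj T') (fx_jj T)
    m0 m1 (mul_mem (mul_mem (f_mem D x1) (f_mem D x)) m0)
    (mul_mem (mul_mem (f_mem D x) (f_mem D x1)) m1) (sb_mono (S.LH y) (jj_mem T')) (jj_mem T)
    i0 i1 (by rw [hθ1, mul_assoc, i0]) (by rw [hθ2, mul_assoc, i1]) (q := q') (u := u) hq'0 hu0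
    ?_ ?_ ?_ (jj_nondeg_J T hK M (Q18_aux.Jy_JJ T hy hny))
  · rw [hM, hB]
    have hsq := ParkerGL.cl_sq (c := c) ((hK (algebraMap K Ω u)).2 ⟨u, rfl⟩)
    rw [Q18_aux.q_pow]
    generalize Module.finrank K (LinearMap.range (oM M (D.eJ x J))) = m
    generalize cl c Γ (algebraMap K Ω u) ^ m = A
    generalize dcB c Γ M T.j (D.eJ x J) = B
    generalize κ₀ ^ m = C
    exact Q18_aux.q_three A B C
  · rw [hq']
    calc D.f x * D.f x1 * D.eJ x1 J * (D.f x1 * D.f x * D.eJ x J)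
        = D.f x * D.f x1 * (D.eJ x1 J * (D.f x1 * D.f x * D.eJ x J)) := by simp only [mul_assoc]
      _ = (D.f x * D.f x1 * (D.f x1 * D.f x)) * D.eJ x J := by
          rw [hθ1]
          simp only [mul_assoc]
      _ = q • D.eJ x J := by rw [hq1, smul_mul_assoc, a1]
  · rw [hq']
    calc D.f x1 * D.f x * D.eJ x J * (D.f x * D.f x1 * D.eJ x1 J)
        = D.f x1 * D.f x * (D.eJ x J * (D.f x * D.f x1 * D.eJ x1 J)) := by simp only [mul_assoc]
      _ = (D.f x1 * D.f x * (D.f x * D.f x1)) * D.eJ x1 J := by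
          rw [hθ2]
          simp only [mul_assoc]
      _ = q • D.eJ x1 J := by rw [hq2, smul_mul_assoc, b1]
  · rw [hu]
    have hstθ : st (D.f x1 * D.f x * D.eJ x J) =
        st (D.eJ x J) * ((stD D).f x * (stD D).f x1) := by
      rw [st_mul, st_mul, st_f D T.reg, st_f D hreg]
    have hθe : S.e Ω y * (D.f x1 * D.f x * D.eJ x J) = D.f x1 * D.f x * D.eJ x J := by
      rw [← hθ1, ← mul_assoc, hey]
    have hθe' : st (D.f x1 * D.f x * D.eJ x J) * S.e Ω y = st (D.f x1 * D.f x * D.eJ x J) := by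
      have h9 := congrArg st hθe
      rwa [st_mul, st_e] at h9
    have hj1 : S.e Ω y * T'.j = S.e Ω x1 * T.b * S.e Ω x1 := by
      have h9 := Q18_aux.ey_jj T hy hle hnL
      rw [← hTb] at h9
      rw [← hTb]
      exact h9
    calc st (D.f x1 * D.f x * D.eJ x J) * T'.j * (D.f x1 * D.f x * D.eJ x J)
        = (st (D.f x1 * D.f x * D.eJ x J) * S.e Ω y) * T'.j * (D.f x1 * D.f x * D.eJ x J) := by
          rw [hθe']
      _ = st (D.f x1 * D.f x * D.eJ x J) * (S.e Ω y * T'.j) * (D.f x1 * D.f x * D.eJ x J) := by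
          simp only [mul_assoc]
      _ = st (D.eJ x J) * ((stD D).f x * (stD D).f x1 * (S.e Ω x1 * T.b * S.e Ω x1) *
            D.f x1 * D.f x) * D.eJ x J := by
          rw [hj1, hstθ]
          simp only [mul_assoc]
      _ = r • (st (D.eJ x J) * T.j * D.eJ x J) := by
          rw [hbr, h4, mul_smul_comm, smul_mul_assoc]

end

end LieP
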