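import Pool.Agent.LieP.Defs5
import Pool.Agent.LieP.K07
import Pool.Agent.LieP.V09
import Pool.Agent.LieP.C04
import Pool.Agent.LieP.F06
import Pool.Agent.LieP.O05
import Pool.Agent.LieP.O06

/-!
# MP_6c3636_al, LieP, module R06: the member of odd degree of a series (12.3) (helper64)

Section 12, (12.3), with (9.9), (9.10) (series O and K17: the simple facts on `D.eJ`: idempotent, `f * eJ = eJ = eJ * f`, `eJ J * eJ J' = eJ J'` for `J ⊆ J'`, `eJ ∅ = f`, `eJ (sm D.Psi x)` primitive; `rg D hT x hx : RG E`; `f_cen_eJ`: `D.f x1 * cen (S.L y) ψ = D.eJ x1 (Jy D x1 y)`; `rk D.star (D.eJ x J) = 0` for `J` nonempty).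
`rk_eJ_odd`: by `TS.tb` `φ` is the member of odd degree and `D.f x * cen S.H φ = e_S`, `S = sm D.Psi x`. So `rk φ e_S = rk φ (D.f x)`, which is not zero (`rk_f`, `φ ∈ D.Ser`). `e_S` is primitive, so its rank on `φ` is one (`prim_unique`). `rk φ e_S ≤ rk φ (e_J) ≤ rk φ (D.f x)` (`rk_le`).
`gen_odd_zero`: otherwise `φ = D.star` (`star_spec`), and `rk D.star (D.eJ x {a}) = 0` for `a ∈ sm D.Psi x`, contradiction to `rk_eJ_odd`.
`od_mt_one`: put `x1 = cm y D.x` (regular (`reg_cm`), `y ≤ x1`). `D.f x1 * cen (S.L y) ψ = D.eJ x1 (Jy D x1 y)` has rank one on `φ` (`rk_eJ_odd`). `D.f x1 = S.e Ω y * f'`, `f' = (levD D y hy).f x1` (`e_levD_f`); `rk_mt_cen` with `a = f'`: `1 = mt * rk ψ f'`.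
`cen_f`: `D.f x1 - D.f x1 * cen (S.L y) ψ = D.f x1 - D.eJ x1 (Jy D x1 y)` is an idempotent of rank `1 - 1 = 0` on `φ` (`rk_eJ_odd` for `∅` and for `Jy D x1 y`, `rk_add`), `cen_mul_eq_zero`.
`nowalls_H`: `TS.tb`, `eJ ∅ = f`. `nowalls_L`: `TS.tb` for `lev S y` and `levD D y hy` (generic by `gnr_lev`): `f' * cen (S.L y) ψ = (levD D y hy).eJ x1 (sm (levD D y hy).Psi x1)` and `sm (levD D y hy).Psi x1 = ∅`: `D.Psi = ∅` (otherwise some root of `D.Psi` is positive at `x1`, and F02 `mem_C` for `rg D hT x1 hx1` (`hT` from `hts.ta`): if there are no simple roots every point, also `-x1`, is in the open chamber, contradiction), `lev_Psi`.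
`TV_face`: existence: `TV.ex`: `n ∈ D.NN D`, `y' ∈ Y`, `ac n y` in the facet of `y'`, so `ac n y ∈ Cc D x` (`mem_Cc_iff`, the signs are the same). `W_of`: `w ∈ D.W` with `w y = ac n y`; F06 `Cb_fix` for `rg D hT x hx`: `ac n y = y` (the closed chamber `Cb` of `rg` contains `Cc D x`). Uniqueness: `TV.un` with `n = 1` (`NN_L`).
-/

namespace LieP

noncomputable section

open Classical

variable {Ω : Type} [Field Ω] [IsAlgClosed Ω] [CharZero Ω] {c : Parker.Ctx Ω}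
  {G E : Type} [Group G] [Finite G] [NormedAddCommGroup E] [InnerProductSpace ℝ E]
  [FiniteDimensional ℝ E] {S : LieSys G E}

namespace R06_aux

theorem sm_sub (D : S.Cs Ω) (x : E) : sm D.Psi x ⊆ D.Psi :=
  (Finset.filter_subset _ _).trans (Finset.filter_subset _ _)

theorem o_mem {D : S.Cs Ω} (hg : D.gnr) {x : E} (hx : S.Reg D.x x) {J : Finset E}
    (hJ : J ⊆ sm D.Psi x) : D.eJ x J ∈ sb Ω S.H :=
  (eJ_abs hg hx (hJ.trans (sm_sub D x))).1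

theorem o_idem {D : S.Cs Ω} (hg : D.gnr) {x : E} (hx : S.Reg D.x x) {J : Finset E}
    (hJ : J ⊆ sm D.Psi x) : D.eJ x J * D.eJ x J = D.eJ x J :=
  (eJ_abs hg hx (hJ.trans (sm_sub D x))).2.1

theorem o_f {D : S.Cs Ω} (hg : D.gnr) {x : E} (hx : S.Reg D.x x) {J : Finset E}
    (hJ : J ⊆ sm D.Psi x) : D.f x * D.eJ x J = D.eJ x J ∧ D.eJ x J * D.f x = D.eJ x J :=
  (eJ_abs hg hx (hJ.trans (sm_sub D x))).2.2

theorem o_mul (hts : TS S c) {D : S.Cs Ω} (hg : D.gnr) {x : E} (hx : S.Reg D.x x) {J J' : Finset E}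
    (hJ : J ⊆ J') (hJ' : J' ⊆ sm D.Psi x) :
    D.eJ x J * D.eJ x J' = D.eJ x J' ∧ D.eJ x J' * D.eJ x J = D.eJ x J' :=
  eJ_mul hg (hts.ta D hg) hx (hts.tc D hg x hx) hJ hJ'

theorem o_empty (hts : TS S c) {D : S.Cs Ω} (hg : D.gnr) {x : E} (hx : S.Reg D.x x) :
    D.eJ x ∅ = D.f x :=
  eJ_empty hg (hts.ta D hg) hx (hts.tc D hg x hx)

theorem o_prim (hts : TS S c) {D : S.Cs Ω} (hg : D.gnr) {x : E} (hx : S.Reg D.x x) :
    ∀ a ∈ sb Ω S.H, ∃ r : Ω, D.eJ x (sm D.Psi x) * a * D.eJ x (sm D.Psi x) =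
      r • D.eJ x (sm D.Psi x) := fun _ ha =>
  eJ_prim hg (hts.ta D hg) hx (hts.tc D hg x hx) ha

theorem o_star (hts : TS S c) {D : S.Cs Ω} (hg : D.gnr) {x : E} (hx : S.Reg D.x x) {a : E}
    (ha : a ∈ sm D.Psi x) : rk D.star (D.eJ x {a}) = 0 :=
  rk_star_eJ hg (hts.ta D hg) hx (hts.tc D hg x hx) (Finset.singleton_subset_iff.2 ha)
    (Finset.singleton_nonempty a)

theorem odd_eq (hts : TS S c) {D : S.Cs Ω} (hg : D.gnr) {φ : G → Ω} (hφ : φ ∈ D.Ser)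
    (ho : Odd (Parker.dg φ)) {x : E} (hx : S.Reg D.x x) :
    D.f x * cen S.H φ = D.eJ x (sm D.Psi x) := by
  obtain ⟨φ₀, -, -, h3, h4⟩ := hts.tb D hg
  rw [h3 φ hφ ho]
  exact h4 x hx

theorem o_cen {D : S.Cs Ω} (hg : D.gnr) {y : E} (hty : TS (lev S y) c)
    (hy : y ∈ S.X D.x) {ψ : G → Ω} (hψ : ψ ∈ (levD D y hy).Ser) (ho' : Odd (Parker.dg ψ)) {x1 : E}
    (hx1 : S.Reg D.x x1) (hle : S.le y x1) :
    D.f x1 * cen (S.L y) ψ = D.eJ x1 (Jy D x1 y) := by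
  have hg' : (levD D y hy).gnr := (D.gnr_lev hy (levD D y hy) rfl rfl).2 hg
  have hx' : (lev S y).Reg (levD D y hy).x x1 := levD_reg_of (D := D) (y := y) hx1
  have h1 : (levD D y hy).f x1 * cen (S.L y) ψ =
      (levD D y hy).eJ x1 (sm (levD D y hy).Psi x1) := odd_eq hty hg' hψ ho' hx'
  rw [lev_sm hy hx1 hle] at h1
  rw [← e_levD_f D hy hle, mul_assoc, h1]
  exact lev_eJ hg hy hx1 hle (Finset.Subset.refl _)



theorem mem_Cb_of {D : S.Cs Ω} (hT : D.TaH) {x : E} (hx : S.Reg D.x x) {y : E} (hy : y ∈ Cc D x) :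
    y ∈ (rg D hT x hx).Cb := by
  intro a ha
  obtain ⟨h1, h2⟩ := Finset.mem_filter.1 ha
  exact hy.2 a h1 h2

theorem Cc_eqv {D : S.Cs Ω} {x : E} (hx : S.Reg D.x x) {y y' : E} (hy' : y' ∈ Cc D x)
    (hyX : y ∈ S.X D.x) (h : S.eqv y y') : y ∈ Cc D x := by
  rw [mem_Cc_iff hx] at hy' ⊢
  refine ⟨hyX, fun a ha h0 => ?_⟩
  by_contra h1
  exact absurd (hy'.2 a ha h0) (not_le.2 ((le_iff_neg S).1 h.1 a ha.1 (not_le.1 h1)))

theorem Psi_empty {D : S.Cs Ω} (hT : D.TaH) {x : E} (hx : S.Reg D.x x) (he : sm D.Psi x = ∅) :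
    D.Psi = ∅ := by
  by_contra h
  obtain ⟨a, ha⟩ := Finset.nonempty_iff_ne_empty.2 h
  have hC : -x ∈ (rg D hT x hx).C := by
    refine mem_C (rg D hT x hx) fun b hb => ?_
    have hb' : b ∈ sm D.Psi x := hb
    rw [he] at hb'
    exact absurd hb' (Finset.notMem_empty b)
  rcases lt_or_gt_of_ne (Psi_reg hx ha) with h4 | h4
  · have h5 := hC (-a) (Finset.mem_filter.2 ⟨(of_Psi ha).2.2.1, by
      show 0 < inner ℝ (-a) x
      rw [inner_neg_left]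
      linarith⟩)
    rw [inner_neg_neg] at h5
    linarith
  · have h5 := hC a (Finset.mem_filter.2 ⟨ha, h4⟩)
    rw [inner_neg_right] at h5
    linarith

theorem rk_f_odd (hts : TS S c) {D : S.Cs Ω} (hg : D.gnr) {φ : G → Ω} (hφ : φ ∈ D.Ser)
    (ho : Odd (Parker.dg φ)) {x : E} (hx : S.Reg D.x x) :
    rk φ (D.eJ x (sm D.Psi x)) = 1 ∧ rk φ (D.f x) = 1 := by
  have hi := (mem_Ser.1 hφ).1
  have hrk : rk φ (D.eJ x (sm D.Psi x)) = rk φ (D.f x) := by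
    rw [← odd_eq hts hg hφ ho hx, ← cen_comm hi (f_mem D x),
      rk_cen hi hi (f_mem D x) (f_idem D hx), if_pos rfl]
  have hne : rk φ (D.f x) ≠ 0 := by
    rw [rk_f hx hi]
    exact (mem_Ser.1 hφ).2
  have hne' : D.eJ x (sm D.Psi x) ≠ 0 := by
    intro h0
    rw [h0, rk_zero] at hrk
    exact hne hrk.symm
  obtain ⟨φ', -, h6, h7⟩ := prim_unique (o_mem hg hx (Finset.Subset.refl _))
    (o_idem hg hx (Finset.Subset.refl _)) hne' (o_prim hts hg hx)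
  have h8 : φ = φ' := by
    by_contra h
    exact hne (hrk.symm.trans (h7 φ hi h))
  rw [h8] at hrk ⊢
  exact ⟨h6, hrk.symm.trans h6⟩

end R06_aux

open R06_aux

theorem rk_eJ_odd (hts : TS S c) {D : S.Cs Ω} (hg : D.gnr) {φ : G → Ω} (hφ : φ ∈ D.Ser)
    (ho : Odd (Parker.dg φ)) {x : E} (hx : S.Reg D.x x) {J : Finset E} (hJ : J ⊆ sm D.Psi x) :
    rk φ (D.eJ x J) = 1 := by
  have hi := (mem_Ser.1 hφ).1
  obtain ⟨h1, h2⟩ := rk_f_odd hts hg hφ ho hx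
  have hs := Finset.Subset.refl (sm D.Psi x)
  have h3 := rk_le hi (o_mem hg hx hs) (o_idem hg hx hs) (o_mem hg hx hJ)
    (o_idem hg hx hJ) (o_mul hts hg hx hJ hs).2 (o_mul hts hg hx hJ hs).1
  have h4 := rk_le hi (o_mem hg hx hJ) (o_idem hg hx hJ) (f_mem D x) (f_idem D hx)
    (o_f hg hx hJ).2 (o_f hg hx hJ).1
  omega

theorem gen_odd_zero (hts : TS S c) {D : S.Cs Ω} (hg : D.gnr) {φ : G → Ω} (hφ : φ ∈ D.Ser)
    (ho : Odd (Parker.dg φ)) {x : E} (hx : S.Reg D.x x) (hne : (sm D.Psi x).Nonempty) :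
    S.gen φ = 0 := by
  by_contra h
  obtain ⟨a, ha⟩ := hne
  have h1 := (LieSys.Cs.star_spec D hg).2.2.2 φ hφ h
  have h2 := rk_eJ_odd hts hg hφ ho hx (J := {a}) (Finset.singleton_subset_iff.2 ha)
  rw [h1, o_star hts hg hx ha] at h2
  exact zero_ne_one h2

theorem od_mt_one (hts : TS S c) {D : S.Cs Ω} (hg : D.gnr) {φ : G → Ω} (hφ : φ ∈ D.Ser)
    (ho : Odd (Parker.dg φ)) {y : E} (hty : TS (lev S y) c) (hy : y ∈ S.X D.x) {ψ : G → Ω}
    (hψ : ψ ∈ (levD D y hy).Ser) (ho' : Odd (Parker.dg ψ)) : mt (S.L y) φ (S.e Ω y) ψ = 1 := by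
  have hi := (mem_Ser.1 hφ).1
  have hiψ : ψ ∈ ir Ω (S.L y) := (mem_Ser.1 hψ).1
  have hx1 : S.Reg D.x (S.cm y D.x) := reg_cm S (reg_refl S D.x) hy
  have hle : S.le y (S.cm y D.x) := le_cm S y D.x
  have hf : (levD D y hy).f (S.cm y D.x) ∈ sb Ω (S.L y) := f_mem (levD D y hy) _
  have hff := f_idem (levD D y hy) (levD_reg_of (D := D) (y := y) hx1)
  have h1 := rk_mt_cen (S.LH y) hi (e_mem y) (e_idem y)
    (fun a ha => (e_comm ha).symm) hiψ hf hff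
  rw [cen_comm hiψ hf, ← mul_assoc, e_levD_f D hy hle, o_cen hg hty hy hψ ho' hx1 hle,
    rk_eJ_odd hts hg hφ ho hx1 (J := Jy D (S.cm y D.x) y) (Finset.filter_subset _ _)] at h1
  exact (mul_eq_one.1 h1.symm).1

theorem cen_f (hts : TS S c) {D : S.Cs Ω} (hg : D.gnr) {φ : G → Ω} (hφ : φ ∈ D.Ser)
    (ho : Odd (Parker.dg φ)) {y : E} (hty : TS (lev S y) c) (hy : y ∈ S.X D.x) {ψ : G → Ω}
    (hψ : ψ ∈ (levD D y hy).Ser) (ho' : Odd (Parker.dg ψ)) {x1 : E} (hx1 : S.Reg D.x x1)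
    (hle : S.le y x1) : cen S.H φ * (D.f x1 * cen (S.L y) ψ) = cen S.H φ * D.f x1 := by
  have hi := (mem_Ser.1 hφ).1
  have hJ : Jy D x1 y ⊆ sm D.Psi x1 := Finset.filter_subset _ _
  rw [o_cen hg hty hy hψ ho' hx1 hle]
  have h1 := rk_eJ_odd hts hg hφ ho hx1 hJ
  have h2 := (rk_f_odd hts hg hφ ho hx1).2
  obtain ⟨h3, h4⟩ := o_f hg hx1 hJ
  have h5 := o_idem hg hx1 hJ
  have h6 := o_mem hg hx1 hJ
  have hfm := f_mem D x1
  have hff := f_idem D hx1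
  generalize D.eJ x1 (Jy D x1 y) = P at h1 h3 h4 h5 h6 ⊢
  generalize D.f x1 = F at h2 h3 h4 hfm hff ⊢
  have hQ : (F - P) * (F - P) = F - P := by
    rw [sub_mul, mul_sub, mul_sub, hff, h3, h4, h5, sub_self, sub_zero]
  have hPQ : P * (F - P) = 0 := by rw [mul_sub, h4, h5, sub_self]
  have hQP : (F - P) * P = 0 := by rw [sub_mul, h3, h5, sub_self]
  have hQm : F - P ∈ sb Ω S.H := (sb Ω S.H).sub_mem hfm h6
  have h7 := rk_add hi h6 h5 hQm hQ hPQ hQP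
  rw [add_sub_cancel, h1, h2] at h7
  have h8 : rk φ (F - P) = 0 := by omega
  have h9 := (cen_mul_eq_zero hi hQm hQ).2 h8
  rw [mul_sub, sub_eq_zero] at h9
  exact h9.symm

theorem nowalls_H (hts : TS S c) {D : S.Cs Ω} (hg : D.gnr) {φ : G → Ω} (hφ : φ ∈ D.Ser)
    (ho : Odd (Parker.dg φ)) {x : E} (hx : S.Reg D.x x) (he : sm D.Psi x = ∅) :
    D.f x * cen S.H φ = D.f x := by
  rw [odd_eq hts hg hφ ho hx, he, o_empty hts hg hx]

theorem nowalls_L (hts : TS S c) {D : S.Cs Ω} (hg : D.gnr) {y : E} (hty : TS (lev S y) c) (hy : y ∈ S.X D.x)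
    {ψ : G → Ω} (hψ : ψ ∈ (levD D y hy).Ser) (ho' : Odd (Parker.dg ψ)) {x1 : E}
    (hx1 : S.Reg D.x x1) (he : sm D.Psi x1 = ∅) :
    (levD D y hy).f x1 * cen (S.L y) ψ = (levD D y hy).f x1 := by
  have hg' : (levD D y hy).gnr := (D.gnr_lev hy (levD D y hy) rfl rfl).2 hg
  have hx' : (lev S y).Reg (levD D y hy).x x1 := levD_reg_of (D := D) (y := y) hx1
  have hP : (levD D y hy).Psi = ∅ := by
    rw [lev_Psi hy, Psi_empty (hts.ta D hg) hx1 he, Finset.filter_empty]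
  have hs : sm (levD D y hy).Psi x1 = ∅ := by
    rw [hP]
    rfl
  have h1 := odd_eq hty hg' hψ ho' hx'
  rw [hs, o_empty hty hg' hx'] at h1
  exact h1

theorem TV_face {D : S.Cs Ω} (hT : D.TaH) {x : E} (hx : S.Reg D.x x) {Y : Finset E} (hY : TV D Y)
    (hYC : ∀ y ∈ Y, y ∈ Cc D x) : ∀ y ∈ Cc D x, ∃! y', y' ∈ Y ∧ S.eqv y y' := by
  intro y hy
  obtain ⟨n, hn, y', hy', he⟩ := hY.ex y hy.1
  have hnX : S.ac n y ∈ S.X D.x := ((NN_reg hn).2.1 y).2 hy.1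
  have hnC : S.ac n y ∈ Cc D x := Cc_eqv hx (hYC y' hy') hnX he
  obtain ⟨w, hw, hwn⟩ := W_of hn
  have h1 : w y = y := by
    refine Cb_fix (rg D hT x hx) (mem_Cb_of hT hx hy) hw ?_
    rw [hwn y hy.1]
    exact mem_Cb_of hT hx hnC
  rw [← hwn y hy.1, h1] at he
  refine ⟨y', ⟨hy', he⟩, ?_⟩
  rintro y'' ⟨hy'', he'⟩
  have h2 : S.ac 1 y' = y' := by
    rw [S.ac_one]
    rfl
  refine (hY.un y' hy' y'' hy'' 1 (NN_L S.N.one_mem (S.L D.x).one_mem) ?_).symm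
  rw [h2]
  exact eqv_trans S (eqv_symm S he) he'

end

end LieP
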