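import Pool.Agent.LieP.Q14
import Pool.Agent.LieP.R06
import Pool.Agent.LieP.O05
import Pool.Agent.LieP.K17

/-!
# MP_6c3636_al, LieP, module Q19: facts on the chamber and on the member of odd degree (helper96)

Sections 9, 12. `Jy_mem_JJ`: `mem_JJ`, `tau_S`; `⟨T.t a, y⟩ = ⟨a, T.t y⟩` (`tE_tE`: `T.t` is its own inverse, an isometry) and `T.t y = ac n y = y` (`tE_X`). `nz_of_pos`: for `a ∈ sm D.Psi x` (`⟨a, x⟩ > 0`) we have `⟨a, y⟩ > 0`, and `of_Psi` gives a root `b ∈ S.R` (`D.Ta b`) with `⟨b, y⟩ = r ⟨a, y⟩`, `r > 0`.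
`eJ_odd`: `hts.tb D hg` and uniqueness: `φ₀` is its `φ`. `rk_eS`: `rk_eJ_odd` (R06) for `J = ∅` (O05 `eJ_empty`) and for `J = sm D.Psi x`; for `φ ≠ φ₀` `rk φ (D.f x * cen S.H φ₀) = 0` (`cen_comm`, `rk_cen`). `sm_nonempty`: if `sm D.Psi x = ∅` then `e_S = f x`, so by `rk_eS` `rk φ (D.f x) = 0`, contradiction to `φ ∈ D.Ser` (`rk_f`).
-/

namespace LieP

noncomputable section

open Classical

open ParkerGL (QM Qg cl dcf FixedField)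

variable {Ω : Type} [Field Ω] [IsAlgClosed Ω] [CharZero Ω] {c : Parker.Ctx Ω}
  {Γ : Subgroup (RingAut Ω)} {K : Type} [Field K] [CharZero K] [Algebra K Ω]
  {G E : Type} [Group G] [Finite G] [NormedAddCommGroup E] [InnerProductSpace ℝ E]
  [FiniteDimensional ℝ E] {S : LieSys G E}

theorem Jy_mem_JJ {D : S.Cs Ω} {x : E} (T : TD D Γ x) {y : E} (hy : y ∈ S.X D.x)
    (h : S.ac T.n y = y) : Jy D x y ∈ T.JJ := by
  rw [mem_JJ]
  refine ⟨Finset.filter_subset _ _, ?_⟩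
  have hty : T.t y = y := by rw [tE_X T hy, h]
  have key : ∀ a : E, a ∈ Jy D x y → T.t a ∈ Jy D x y := by
    intro a ha
    obtain ⟨h1, h2⟩ := Finset.mem_filter.1 ha
    refine Finset.mem_filter.2 ⟨(tau_S T).2 h1, ?_⟩
    have h3 : inner ℝ (T.t a) (T.t y) = inner ℝ a y := LinearIsometryEquiv.inner_map_map _ _ _
    rw [hty] at h3
    rw [h3, h2]
  apply Finset.Subset.antisymm
  · intro a ha
    obtain ⟨b, hb, rfl⟩ := Finset.mem_image.1 ha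
    exact key b hb
  · intro a ha
    exact Finset.mem_image.2 ⟨T.t a, key a ha, tE_tE T a⟩

theorem nz_of_pos {D : S.Cs Ω} {x y : E} (hy : y ∈ S.X D.x)
    (h : ∀ a ∈ D.Psi, 0 < inner ℝ a x → 0 < inner ℝ a y) :
    y ∈ Cc D x ∧ Jy D x y = ∅ ∧ ((sm D.Psi x).Nonempty → nz S y) := by
  have hsm : ∀ a ∈ sm D.Psi x, 0 < inner ℝ a y := by
    intro a ha
    obtain ⟨h1, _⟩ := Finset.mem_filter.1 ha
    obtain ⟨h2, h3⟩ := Finset.mem_filter.1 h1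
    exact h a h2 h3
  refine ⟨⟨hy, fun a ha hx => (h a ha hx).le⟩, ?_, ?_⟩
  · refine Finset.filter_eq_empty_iff.2 fun a ha h0 => ?_
    exact (hsm a ha).ne' h0
  · rintro ⟨a, ha⟩
    obtain ⟨h1, _⟩ := Finset.mem_filter.1 ha
    obtain ⟨h2, h3⟩ := Finset.mem_filter.1 h1
    obtain ⟨_, _, _, _, b, hb, r, hr, hby⟩ := of_Psi h2
    refine ⟨b, hb.1, ?_⟩
    rw [hby y hy]
    exact (mul_pos hr (hsm a ha)).ne'

theorem eJ_odd (hts : TS S c) {D : S.Cs Ω} (hg : D.gnr) {x : E} (hx : S.Reg D.x x) {φ₀ : G → Ω}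
    (h0 : φ₀ ∈ D.Ser) (ho : Odd (Parker.dg φ₀)) : D.f x * cen S.H φ₀ = D.eJ x (sm D.Psi x) := by
  obtain ⟨φ, _, _, hu, hf⟩ := hts.tb D hg
  rw [hu φ₀ h0 ho]
  exact hf x hx

theorem rk_eS (hts : TS S c) {D : S.Cs Ω} (hg : D.gnr) {x : E} (hx : S.Reg D.x x) {φ₀ : G → Ω}
    (h0 : φ₀ ∈ D.Ser) (ho : Odd (Parker.dg φ₀)) :
    rk φ₀ (D.f x) = 1 ∧ rk φ₀ (D.eJ x (sm D.Psi x)) = 1 ∧
      ∀ φ ∈ ir Ω S.H, φ ≠ φ₀ → rk φ (D.eJ x (sm D.Psi x)) = 0 := by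
  have hT : D.TaH := hts.ta D hg
  have hc := hts.tc D hg x hx
  have h0' : φ₀ ∈ ir Ω S.H := (Finset.mem_filter.1 h0).1
  refine ⟨?_, rk_eJ_odd hts hg h0 ho hx (Finset.Subset.refl _), ?_⟩
  · rw [← eJ_empty hg hT hx hc]
    exact rk_eJ_odd hts hg h0 ho hx (Finset.empty_subset _)
  · intro φ hφ hne
    rw [← eJ_odd hts hg hx h0 ho, ← cen_comm h0' (f_mem D x),
      rk_cen h0' hφ (f_mem D x) (f_idem D hx), if_neg hne]

theorem sm_nonempty (hts : TS S c) {D : S.Cs Ω} (hg : D.gnr) {x : E} (hx : S.Reg D.x x)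
    {φ₀ φ : G → Ω} (h0 : φ₀ ∈ D.Ser) (ho : Odd (Parker.dg φ₀)) (hφ : φ ∈ D.Ser) (hne : φ ≠ φ₀) :
    (sm D.Psi x).Nonempty := by
  by_contra hcon
  have he : sm D.Psi x = ∅ := Finset.not_nonempty_iff_eq_empty.1 hcon
  have hT : D.TaH := hts.ta D hg
  have hc := hts.tc D hg x hx
  obtain ⟨hφ1, hφ2⟩ := Finset.mem_filter.1 hφ
  have h1 := (rk_eS hts hg hx h0 ho).2.2 φ hφ1 hne
  rw [he, eJ_empty hg hT hx hc, rk_f hx hφ1] at h1
  exact hφ2 h1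

end

end LieP
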