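import Pool.Agent.LieP.Q19
import Pool.Agent.LieP.Q07
import Pool.Agent.LieP.Q11
import Pool.Agent.LieP.Q13
import Pool.Agent.ParkerGL.D09

/-!
# MP_6c3636_al, LieP, module Q20: the quadratic module of the member of odd degree (helper96)

Section 12. `φ₀` the member of odd degree of the series of `D`, real. `a = D.f x * cen S.H φ₀ = D.eJ x (sm D.Psi x)` with `x = D.x` (`reg_refl`) is an idempotent with fixed coefficients (`fx_f`, `fx_cen`), of rank one on `φ₀` and zero on the others (`rk_eS`, `eJ_odd`); so `exists_QM` (Q07) applies. Its dimension `dg φ₀` is odd (the character at `1`, mapped to `Ω`), so by `ParkerGL.exists_scale` (D09) the form can be multiplied by a constant such that the class is `1` (the character does not change).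
-/

namespace LieP

noncomputable section

open Classical

open ParkerGL (QM Qg cl dcf FixedField)

variable {Ω : Type} [Field Ω] [IsAlgClosed Ω] [CharZero Ω] {c : Parker.Ctx Ω}
  {Γ : Subgroup (RingAut Ω)} {K : Type} [Field K] [CharZero K] [Algebra K Ω]
  {G E : Type} [Group G] [Finite G] [NormedAddCommGroup E] [InnerProductSpace ℝ E]
  [FiniteDimensional ℝ E] {S : LieSys G E}

theorem exists_QM_odd (hK : FixedField Γ K) (hts : TS S c) {D : S.Cs Ω} (hg : D.gnr)
    (he : FxA Γ D.ε) (hFH : ∀ φ ∈ ir Ω S.H, ∀ g, Parker.Fx Γ (φ g)) {φ₀ : G → Ω}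
    (h0 : φ₀ ∈ D.Ser) (ho : Odd (Parker.dg φ₀)) (hr : rl φ₀) :
    ∃ M : QM K S.H, (∀ g : S.H, M.ch Ω g = φ₀ g) ∧ M.dc c Γ = 1 := by
  have hx : S.Reg D.x D.x := reg_refl S D.x
  have hmem : φ₀ ∈ ir Ω S.H := (mem_Ser.1 h0).1
  have hsub : sm D.Psi D.x ⊆ D.Psi := fun a ha =>
    (Finset.mem_filter.mp (Finset.mem_filter.mp ha).1).1
  obtain ⟨ha, haa, -, -⟩ := eJ_abs hg hx hsub
  obtain ⟨-, h1, h2⟩ := rk_eS hts hg hx h0 ho
  have hfx : FxA Γ (D.eJ D.x (sm D.Psi D.x)) := by
    rw [← eJ_odd hts hg hx h0 ho]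
    exact fx_mul (fx_f he D.x) (fx_cen S.H (hFH φ₀ hmem))
  obtain ⟨M, hM⟩ := exists_QM hK hmem hr ho ha haa hfx h1 h2
  have hdim : Module.finrank K M.X = Parker.dg φ₀ := by
    have h3 : algebraMap K Ω (M.ρ.character 1) = φ₀ ((1 : S.H) : G) := hM 1
    rw [Representation.char_one, map_natCast] at h3
    have h4 : φ₀ ((1 : S.H) : G) = (Parker.dg φ₀ : Ω) := (ir_one hmem).1
    rw [h4] at h3
    exact_mod_cast h3
  obtain ⟨a, ha0, hdc⟩ := ParkerGL.exists_scale (c := c) hK M (by rw [hdim]; exact ho)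
  exact ⟨M.scale a ha0, hM, hdc⟩

end

end LieP
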