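import Pool.Agent.LieP.Defs5
import Pool.Agent.LieP.Q06
import Pool.Agent.LieP.Q03
import Pool.Agent.LieP.G06
import Pool.Agent.LieP.M02

/-!
# MP_6c3636_al, LieP, module R01: the sum over the faces of a generic point (12.2) (helper7)

Section 12, (12.2). `cut_e`: `e y` commutes with `L y` and `U y`, `st_e`, `fx_e`-type facts (`fx_av`). `dcA_e`: `dcA_two` with `U = U z` (a `2`-group, `two_U`, `w0`), `a = e y` (it commutes with `U z ≤ P y`, `P_mono`), `e y * el (U z) l = el` if `l = 1` on `U y`, `0` otherwise (`av_mul_el`, `av_mul_el_zero`).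
`prod_faces`: `∏_J ∏_{l trivial on U (fc z J)} dcA (el l) = ∏_l dcA (el l) ^ #{J : ..}`; `dcA² = 1` (`dcA_sq`), the number is odd iff `l` is regular (`sum_faces`); the regular `l ∈ lins` are conjugate under `L z` (`Rg_conj`, `dcA_conj`, `el_conj`), their number is odd (`card_Rg`). `dc_faces`: the term `J = Dl z` is `dcA M 1` (`JJ_top`, `e_zero`, `dcA_one`).
-/

namespace LieP

noncomputable section

open Classical

open ParkerGL (QM Qg cl dcf FixedField)

variable {Ω : Type} [Field Ω] [IsAlgClosed Ω] [CharZero Ω] {c : Parker.Ctx Ω}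
  {Γ : Subgroup (RingAut Ω)} {K : Type} [Field K] [CharZero K] [Algebra K Ω]
  {G E : Type} [Group G] [Finite G] [NormedAddCommGroup E] [InnerProductSpace ℝ E]
  [FiniteDimensional ℝ E] {S : LieSys G E}

theorem cut_e (y : E) : CutH Γ S.H (S.L y) (S.e Ω y) :=
  ⟨S.LH y, av_mem (S.UH y), av_idem _, fx_av _, st_av _,
    fun _ hh => av_comm (S.s4 y) (dl_mem.2 hh)⟩

/-- the idempotents of linear characters -/
theorem cut_el {z : E} {l : G → ℤˣ} (hl : Lin (S.U z) l) : CutH Γ S.H ⊥ (el Ω (S.U z) l) :=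
  ⟨bot_le, el_mem (S.UH z) l, el_idem hl, fx_el _ _, st_el hl, by
    intro h hh
    rw [Subgroup.mem_bot.1 hh, dl_one, one_mul, mul_one]⟩

theorem cut_eU {y z : E} (hy : S.le y z) : CutH Γ S.H (S.U z) (S.e Ω y) := by
  refine ⟨S.UH z, av_mem (S.UH y), av_idem _, fx_av _, st_av _, ?_⟩
  intro h hh
  have hP : h ∈ S.P y := P_mono S hy (U_le_P S z hh)
  have h1 : dl h * av Ω (S.U y) * dl h⁻¹ = av Ω (S.U y) :=
    av_conj fun u => (U_P_conj S hP).symm
  have h2 := congrArg (fun a => a * (dl h : Al Ω G)) h1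
  simp only [mul_assoc] at h2
  rw [← dl_mul h⁻¹ h, inv_mul_cancel, dl_one, mul_one] at h2
  exact h2

theorem dcA_e (hK : FixedField Γ K) (hO : Parker.Ok c 1 Γ) (M : QM K S.H) {z y : E} (hz : S.gn z)
    (hy : S.le y z) : dcA c Γ M (S.e Ω y) =
      ∏ l ∈ (lins (S.U z)).filter (fun l => ∀ u ∈ S.U y, l u = 1), dcA c Γ M (el Ω (S.U z) l) := by
  rw [dcA_two hK hO (S.s11 z) (S.w0 z hz) M (cut_eU hy), Finset.prod_filter]
  refine Finset.prod_congr rfl fun l hl => ?_
  have hl' := (mem_lins.1 hl).1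
  split_ifs with h
  · rw [show S.e Ω y * el Ω (S.U z) l = el Ω (S.U z) l from av_mul_el (U_mono S hy) hl' h]
  · push Not at h
    obtain ⟨u, hu, hu'⟩ := h
    rw [show S.e Ω y * el Ω (S.U z) l = 0 from av_mul_el_zero (U_mono S hy) hl' hu hu']
    exact dcA_zero M (oM_zero' hK M)

theorem dcA_Rg (hK : FixedField Γ K) (M : QM K S.H) {z : E} (hz : S.gn z)
    {l l' : G → ℤˣ} (hl : S.Rg z l) (hl' : S.Rg z l') :
    dcA c Γ M (el Ω (S.U z) l') = dcA c Γ M (el Ω (S.U z) l) := by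
  obtain ⟨s, hs, h⟩ := Rg_conj S hz hl hl'
  have h1 : dl s⁻¹ * el Ω (S.U z) l * dl (s⁻¹)⁻¹ = el Ω (S.U z) l' := by
    rw [el_conj (U' := S.U z) (fun u => (L_conj S (S.L z |>.inv_mem hs)).symm) l]
    refine el_congr fun u hu => ?_
    rw [h u hu, inv_inv]
  rw [← h1]
  exact dcA_conj hK M (cut_el hl.1) (S.LH z (S.L z |>.inv_mem hs))

theorem prod_faces (hK : FixedField Γ K) (hO : Parker.Ok c 1 Γ) (M : QM K S.H) {z : E} (hz : S.gn z)
    {l : G → ℤˣ} (hl : S.Rg z l) :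
    ∏ J ∈ (S.Dl z).powerset, dcA c Γ M (S.e Ω (fc S z J)) = dcA c Γ M (el Ω (S.U z) l) := by
  have hsq : ∀ a : Al Ω G, dcA c Γ M a ^ 2 = 1 := fun a => by rw [pow_two, dcA_sq hK]
  have h1 : ∏ J ∈ (S.Dl z).powerset, dcA c Γ M (S.e Ω (fc S z J)) =
      ∏ J ∈ (S.Dl z).powerset, ∏ m ∈ lins (S.U z),
        (if ∀ u ∈ S.U (fc S z J), m u = 1 then dcA c Γ M (el Ω (S.U z) m) else 1) := by
    refine Finset.prod_congr rfl fun J hJ => ?_
    rw [dcA_e hK hO M hz (fc_spec S hz (Finset.mem_powerset.1 hJ)).1, Finset.prod_filter]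
  have h2 : ∀ m ∈ lins (S.U z), (∏ J ∈ (S.Dl z).powerset,
      (if ∀ u ∈ S.U (fc S z J), m u = 1 then dcA c Γ M (el Ω (S.U z) m) else 1)) =
        if S.Rg z m then dcA c Γ M (el Ω (S.U z) l) else 1 := by
    intro m hm
    have hm' := (mem_lins.1 hm).1
    have h3 := sum_faces S hz hm'
    rw [← Finset.sum_filter, Finset.sum_const, nsmul_eq_mul, mul_one] at h3
    rw [← Finset.prod_filter, Finset.prod_const]
    split_ifs with hr
    · rw [if_pos hr] at h3
      have h4 : Odd ((S.Dl z).powerset.filter fun J => ∀ u ∈ S.U (fc S z J), m u = 1).card :=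
        ZMod.natCast_eq_one_iff_odd.1 h3
      obtain ⟨k, hk⟩ := h4
      rw [hk, pow_add, pow_mul, hsq, one_pow, one_mul, pow_one]
      exact dcA_Rg hK M hz hl hr
    · rw [if_neg hr] at h3
      have h4 : Even ((S.Dl z).powerset.filter fun J => ∀ u ∈ S.U (fc S z J), m u = 1).card :=
        ZMod.natCast_eq_zero_iff_even.1 h3
      obtain ⟨k, hk⟩ := h4
      rw [hk, ← two_mul, pow_mul, hsq, one_pow]
  rw [h1, Finset.prod_comm, Finset.prod_congr rfl h2, ← Finset.prod_filter, Finset.prod_const]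
  obtain ⟨k, hk⟩ := card_Rg S hz
  rw [hk, pow_add, pow_mul, hsq, one_pow, one_mul, pow_one]

theorem dc_faces (hK : FixedField Γ K) (hO : Parker.Ok c 1 Γ) (M : QM K S.H) {z : E} (hz : S.gn z)
    {l : G → ℤˣ} (hl : S.Rg z l) :
    M.dc c Γ = dcA c Γ M (el Ω (S.U z) l) *
      ∏ J ∈ (S.Dl z).powerset.erase (S.Dl z), dcA c Γ M (S.e Ω (fc S z J)) := by
  have h0 := fc_spec S hz (Finset.Subset.refl (S.Dl z))
  have h1 := (JJ_top S hz h0.1).1 h0.2
  have hU : S.U (fc S z (S.Dl z)) = ⊥ := by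
    rw [← U_zero S]
    refine U_eqv S ⟨fun a ha h => ?_, fun a ha h => ?_⟩
    · rw [h1 a ha] at h
      exact absurd h (lt_irrefl _)
    · rw [inner_zero_right] at h
      exact absurd h (lt_irrefl _)
  have h2 : dcA c Γ M (S.e Ω (fc S z (S.Dl z))) = M.dc c Γ := by
    rw [show S.e Ω (fc S z (S.Dl z)) = 1 by
      show av Ω (S.U (fc S z (S.Dl z))) = 1
      rw [hU, av_bot]]
    exact dcA_one hK M
  rw [← prod_faces hK hO M hz hl, ← Finset.mul_prod_erase _ _ (Finset.mem_powerset_self (S.Dl z)), h2,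
    mul_assoc, ← Finset.prod_mul_distrib, Finset.prod_eq_one (fun J _ => dcA_sq hK M _), mul_one]

end

end LieP
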