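import Pool.Agent.LieP.R01
import Pool.Agent.LieP.Q05

/-!
# MP_6c3636_al, LieP, module R02: the Levi subgroups (helper7)

Section 12. `cut_ec`: `e y * cen (L y) ψ` is selfadjoint for real `ψ`, idempotent, commutes with `L y`. `dcA_lev`: `dc_prod` for the module `cutM` of `e y` (`H' = L y`) and property (i) of `TT (lev S y)` (`(lev S y).H = S.L y` by definition); `cutM_dc`, `cutM_dcA`. `dcA_ac`: `dcA_conj` for `n ∈ N ≤ H`: `dl n * (e y * cen (L y) ψ) * dl n⁻¹ = e (n y) * cen (L (n y)) (cjg n ψ)` (`dl_e`, `cen_conj`).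
-/

namespace LieP

noncomputable section

open Classical

open ParkerGL (QM Qg cl dcf FixedField)

variable {Ω : Type} [Field Ω] [IsAlgClosed Ω] [CharZero Ω] {c : Parker.Ctx Ω}
  {Γ : Subgroup (RingAut Ω)} {K : Type} [Field K] [CharZero K] [Algebra K Ω]
  {G E : Type} [Group G] [Finite G] [NormedAddCommGroup E] [InnerProductSpace ℝ E]
  [FiniteDimensional ℝ E] {S : LieSys G E}

theorem R02_aux.mem {y : E} {ψ : G → Ω} (hψ : ψ ∈ ir Ω (S.L y)) :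
    S.e Ω y * cen (S.L y) ψ ∈ sb Ω S.H :=
  (sb Ω S.H).mul_mem (e_mem y) (sb_mono (S.LH y) (cen_mem ψ hψ))

theorem R02_aux.idem {y : E} {ψ : G → Ω} (hψ : ψ ∈ ir Ω (S.L y)) :
    S.e Ω y * cen (S.L y) ψ * (S.e Ω y * cen (S.L y) ψ) = S.e Ω y * cen (S.L y) ψ := by
  have h1 : cen (S.L y) ψ * S.e Ω y = S.e Ω y * cen (S.L y) ψ := e_comm (cen_mem ψ hψ)
  calc S.e Ω y * cen (S.L y) ψ * (S.e Ω y * cen (S.L y) ψ)
      = S.e Ω y * (cen (S.L y) ψ * S.e Ω y) * cen (S.L y) ψ := by simp only [mul_assoc]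
    _ = (S.e Ω y * S.e Ω y) * (cen (S.L y) ψ * cen (S.L y) ψ) := by rw [h1]; simp only [mul_assoc]
    _ = S.e Ω y * cen (S.L y) ψ := by rw [e_idem, cen_idem hψ]

theorem R02_aux.fx {y : E} {ψ : G → Ω} (hF : ∀ g, Parker.Fx Γ (ψ g)) :
    FxA Γ (S.e Ω y * cen (S.L y) ψ) := fx_mul (fx_av _) (fx_cen _ hF)

theorem cut_ec {y : E} {ψ : G → Ω} (hψ : ψ ∈ ir Ω (S.L y)) (hr : rl ψ) (hF : ∀ g, Parker.Fx Γ (ψ g)) :
    CutH Γ S.H (S.L y) (S.e Ω y * cen (S.L y) ψ) := by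
  have h1 : cen (S.L y) ψ * S.e Ω y = S.e Ω y * cen (S.L y) ψ := e_comm (cen_mem ψ hψ)
  refine ⟨S.LH y, R02_aux.mem hψ, R02_aux.idem hψ, R02_aux.fx hF, ?_, ?_⟩
  · rw [st_mul, st_e, st_cen]
    have h2 : (fun g => ψ g⁻¹) = ψ := funext hr
    rw [h2, h1]
  · intro h hh
    have h2 : (dl h : Al Ω G) ∈ sb Ω (S.L y) := dl_mem.2 hh
    have h3 : dl h * S.e Ω y = S.e Ω y * dl h := e_comm h2
    rw [← mul_assoc, h3, mul_assoc, ← cen_comm hψ h2, ← mul_assoc]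

theorem dcA_lev (hK : FixedField Γ K) (M : QM K S.H) {y : E}
    (hF : ∀ φ ∈ ir Ω (S.L y), ∀ g, Parker.Fx Γ (φ g)) (hi : TT (lev S y) c Γ K) :
    dcA c Γ M (S.e Ω y) = ∏ ψ ∈ (ir Ω (S.L y)).filter (fun ψ => rl ψ ∧ Odd (Parker.dg ψ)),
      dcA c Γ M (S.e Ω y * cen (S.L y) ψ) := by
  rw [← cutM_dc hK M (cut_e y), dc_prod hK hF hi.i]
  refine Finset.prod_congr rfl fun ψ hψ => ?_
  have h1 := (Finset.mem_filter.1 hψ).1
  exact cutM_dcA hK M (cut_e y) (fx_cen _ (hF ψ h1)) (cen_mem ψ h1)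

theorem rl_cjg {ψ : G → Ω} (n : G) : rl (cjg n ψ) ↔ rl ψ := by
  constructor
  · intro h g
    have h1 := h (n * g * n⁻¹)
    have h2 : n⁻¹ * (n * g * n⁻¹)⁻¹ * n = g⁻¹ := by group
    have h3 : n⁻¹ * (n * g * n⁻¹) * n = g := by group
    have h4 : ψ (n⁻¹ * (n * g * n⁻¹)⁻¹ * n) = ψ (n⁻¹ * (n * g * n⁻¹) * n) := h1
    rwa [h2, h3] at h4
  · intro h g
    have h1 : n⁻¹ * g⁻¹ * n = (n⁻¹ * g * n)⁻¹ := by group
    show ψ (n⁻¹ * g⁻¹ * n) = ψ (n⁻¹ * g * n)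
    rw [h1]
    exact h _

theorem dcA_ac (hK : FixedField Γ K) (M : QM K S.H) {n : G} (hn : n ∈ S.N) {y : E} {ψ : G → Ω}
    (hψ : ψ ∈ ir Ω (S.L y)) (hr : rl ψ) (hF : ∀ g, Parker.Fx Γ (ψ g)) :
    dcA c Γ M (S.e Ω (S.ac n y) * cen (S.L (S.ac n y)) (cjg n ψ)) =
      dcA c Γ M (S.e Ω y * cen (S.L y) ψ) := by
  have h1 : dl n * (S.e Ω y * cen (S.L y) ψ) * dl n⁻¹ =
      S.e Ω (S.ac n y) * cen (S.L (S.ac n y)) (cjg n ψ) := by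
    rw [← cen_conj (fun l => conj_L S hn) ψ, ← mul_assoc, dl_e hn]
    simp only [mul_assoc]
  rw [← h1]
  have h2 := cut_ec hψ hr hF
  exact dcA_conj hK M ⟨bot_le, h2.mem, h2.idem, h2.fx, h2.st, fun h hh => by
    rw [Subgroup.mem_bot.1 hh, dl_one, one_mul, mul_one]⟩ (S.NH hn)

theorem dcA_eqv (M : QM K S.H) {y y' : E} (h : S.eqv y y') (ψ : G → Ω) :
    dcA c Γ M (S.e Ω y * cen (S.L y) ψ) = dcA c Γ M (S.e Ω y' * cen (S.L y') ψ) := by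
  rw [e_eqv h, L_eqv S h]

/-- if `ψ` is not a constituent of `e y M` then the class is trivial -/
theorem dcA_mt (hK : FixedField Γ K) (M : QM K S.H) {y : E} {ψ : G → Ω} (hψ : ψ ∈ ir Ω (S.L y))
    (hF : ∀ g, Parker.Fx Γ (ψ g))
    (h : ∀ φ ∈ ir Ω S.H, mM M φ ≠ 0 → mt (S.L y) φ (S.e Ω y) ψ = 0) :
    dcA c Γ M (S.e Ω y * cen (S.L y) ψ) = 1 := by
  refine dcA_zero M ?_
  rw [oM_zero_rk hK M (R02_aux.fx hF) (R02_aux.mem hψ) (R02_aux.idem hψ)]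
  intro φ hφ hm
  rw [← mt_mul (S.LH y) hφ (e_mem y) (e_idem y) (fun a ha => (e_comm ha).symm) hψ, h φ hφ hm, zero_mul]

end

end LieP
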