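import Pool.Agent.LieP.R02
import Pool.Agent.LieP.K03
import Pool.Agent.LieP.K07

/-!
# MP_6c3636_al, LieP, module R03: the sum over the facets of X (helper7)

Section 12. `D` generic, all constituents of `M` are in `D.Ser`. `dc_faces`, `dcA_lev` for the faces `fc S z J`, `J ≠ Dl z` (`JJ_top`: some root does not vanish), then `sum_bij` (K07) for the additive monoid `Additive (Qg c Γ)` and `F y ψ = ofMul (if rl ψ ∧ Odd (dg ψ) then dcA c Γ M (e y * cen (L y) ψ) else 1)` (for `ψ ∉ ir Ω (L y)` put `1`): `h1`: `dcA_ac`, `rl_cjg`, `cjg_dg`; `h2`: `dcA_eqv`;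
`h3`: if `F y ψ ≠ 0` then `ψ` is a constituent of `e y φ` for a constituent `φ ∈ D.Ser` of `M` (`dcA_mt`), so (9.3) (K03) applies. On the right side only the member `od D y` of odd degree contributes (`od_spec`).
-/

namespace LieP

noncomputable section

open Classical

open ParkerGL (QM Qg cl dcf FixedField)

variable {Ω : Type} [Field Ω] [IsAlgClosed Ω] [CharZero Ω] {c : Parker.Ctx Ω}
  {Γ : Subgroup (RingAut Ω)} {K : Type} [Field K] [CharZero K] [Algebra K Ω]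
  {G E : Type} [Group G] [Finite G] [NormedAddCommGroup E] [InnerProductSpace ℝ E]
  [FiniteDimensional ℝ E] {S : LieSys G E}

namespace R03_aux

/-- the function of `sum_bij` -/
def FF (c : Parker.Ctx Ω) (Γ : Subgroup (RingAut Ω)) (M : QM K S.H) (y : E) (ψ : G → Ω) :
    Additive (Qg c Γ) :=
  Additive.ofMul (if ψ ∈ ir Ω (S.L y) ∧ rl ψ ∧ Odd (Parker.dg ψ) then
    dcA c Γ M (S.e Ω y * cen (S.L y) ψ) else 1)

theorem FF_ac (hK : FixedField Γ K) (hF : ∀ y, ∀ φ ∈ ir Ω (S.L y), ∀ g, Parker.Fx Γ (φ g))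
    (M : QM K S.H) : ∀ n ∈ S.N, ∀ y, ∀ ψ ∈ ir Ω (S.L y),
      FF c Γ M (S.ac n y) (cjg n ψ) = FF c Γ M y ψ := by
  intro n hn y ψ hψ
  have h1 : cjg n ψ ∈ ir Ω (S.L (S.ac n y)) := cjg_L hn (eqv_refl S _) hψ
  unfold FF
  by_cases h : rl ψ ∧ Odd (Parker.dg ψ)
  · have h2 : rl (cjg n ψ) ∧ Odd (Parker.dg (cjg n ψ)) := by
      rw [rl_cjg, cjg_dg]
      exact h
    rw [if_pos ⟨h1, h2⟩, if_pos ⟨hψ, h⟩, dcA_ac hK M hn hψ h.1 (hF y ψ hψ)]
  · have h2 : ¬ (rl (cjg n ψ) ∧ Odd (Parker.dg (cjg n ψ))) := by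
      rw [rl_cjg, cjg_dg]
      exact h
    rw [if_neg fun h3 => h2 h3.2, if_neg fun h3 => h h3.2]

theorem FF_eqv (M : QM K S.H) : ∀ y y', S.eqv y y' → ∀ ψ, FF c Γ M y ψ = FF c Γ M y' ψ := by
  intro y y' h ψ
  unfold FF
  rw [dcA_eqv M h ψ, L_eqv S h]

theorem FF_ne (hK : FixedField Γ K) (hF : ∀ y, ∀ φ ∈ ir Ω (S.L y), ∀ g, Parker.Fx Γ (φ g))
    {D : S.Cs Ω} (M : QM K S.H) (hM : ∀ φ ∈ ir Ω S.H, mM M φ ≠ 0 → φ ∈ D.Ser) :
    ∀ y, ∀ ψ ∈ ir Ω (S.L y), FF c Γ M y ψ ≠ 0 →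
      ∃ n ∈ S.N, ∃ hy : S.ac n y ∈ S.X D.x, cjg n ψ ∈ (levD D (S.ac n y) hy).Ser := by
  intro y ψ hψ h0
  by_contra hcon
  apply h0
  have h1 : dcA c Γ M (S.e Ω y * cen (S.L y) ψ) = 1 := by
    refine dcA_mt hK M hψ (hF y ψ hψ) fun φ hφ hm => ?_
    by_contra hmt
    exact hcon (exists_NN_Ser (hM φ hφ hm) hψ hmt)
  unfold FF
  rw [h1, ite_self]
  rfl

end R03_aux

open R03_aux

theorem dc_orbits (hK : FixedField Γ K) (hO : Parker.Ok c 1 Γ) (hts : ∀ S' : LieSys G E, TS (Ω := Ω) S' c)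
    (hF : ∀ y, ∀ φ ∈ ir Ω (S.L y), ∀ g, Parker.Fx Γ (φ g))
    (hIH : ∀ y, nz S y → TT (lev S y) c Γ K) {D : S.Cs Ω} (hg : D.gnr) {Y : Finset E} (hY : TV D Y)
    (M : QM K S.H) (hM : ∀ φ ∈ ir Ω S.H, mM M φ ≠ 0 → φ ∈ D.Ser) {z : E} (hz : S.gn z)
    {l : G → ℤˣ} (hl : S.Rg z l) :
    M.dc c Γ = dcA c Γ M (el Ω (S.U z) l) *
      ∏ y ∈ Y.filter (fun y => nz S y ∧ rl (od D y)), dcA c Γ M (S.e Ω y * cen (S.L y) (od D y)) := by
  rw [dc_faces hK hO M hz hl]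
  congr 1
  have h1 : ∀ J ∈ (S.Dl z).powerset.erase (S.Dl z), dcA c Γ M (S.e Ω (fc S z J)) =
      ∏ ψ ∈ ir Ω (S.L (fc S z J)), (FF c Γ M (fc S z J) ψ).toMul := by
    intro J hJ
    rw [Finset.mem_erase, Finset.mem_powerset] at hJ
    have hsp := fc_spec S hz hJ.2
    have hnz : nz S (fc S z J) := by
      by_contra hcon
      apply hJ.1
      rw [← hsp.2, JJ_top S hz hsp.1]
      intro a ha
      by_contra h0
      exact hcon ⟨a, ha, h0⟩
    rw [dcA_lev hK M (hF _) (hIH _ hnz), Finset.prod_filter]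
    refine Finset.prod_congr rfl fun ψ hψ => ?_
    unfold FF
    rw [toMul_ofMul]
    by_cases h : rl ψ ∧ Odd (Parker.dg ψ)
    · rw [if_pos h, if_pos ⟨hψ, h⟩]
    · rw [if_neg h, if_neg fun h3 => h h3.2]
  rw [Finset.prod_congr rfl h1]
  have h2 := sum_bij (D := D) hY (FF c Γ M) (FF_ac hK hF M) (FF_eqv M) (FF_ne hK hF M hM) hz
  have h3 := congrArg Additive.toMul h2
  simp only [toMul_sum] at h3
  rw [h3]
  have h4 : ∀ y ∈ Y.filter (fun y => ∃ a ∈ S.R, inner ℝ a y ≠ 0),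
      ∏ ψ ∈ sr D y, (FF c Γ M y ψ).toMul =
        if rl (od D y) then dcA c Γ M (S.e Ω y * cen (S.L y) (od D y)) else 1 := by
    intro y hy
    rw [Finset.mem_filter] at hy
    obtain ⟨h5, h6, h7, -⟩ := od_spec (fun y _ => hts (lev S y)) hg (hY.mem y hy.1) hy.2
    rw [Finset.prod_eq_single_of_mem (od D y) h5]
    · unfold FF
      rw [toMul_ofMul]
      by_cases h : rl (od D y)
      · rw [if_pos h, if_pos ⟨(mem_sr.1 h5).1, h, h6⟩]
      · rw [if_neg h, if_neg fun h8 => h h8.2.1]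
    · intro ψ hψ hne
      unfold FF
      rw [toMul_ofMul, if_neg fun h8 => hne (h7 ψ hψ h8.2.2)]
  rw [Finset.prod_congr rfl h4, ← Finset.prod_filter, Finset.filter_filter]
  refine Finset.prod_congr ?_ fun _ _ => rfl
  ext y
  rw [Finset.mem_filter, Finset.mem_filter]
  exact Iff.rfl

end

end LieP
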