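import Pool.Agent.LieP.Q14
import Pool.Agent.LieP.F07
import Pool.Agent.LieP.K05
import Pool.Agent.LieP.O05

/-!
# MP_6c3636_al, LieP, module R04: counting the facets fixed by tau (helper7)

Section 12, (12.3)(b). `Y` contains exactly one point of every facet of `X` in the closed chamber of `x`. For `y ∈ Y`: `ac n y` is in the facet of `y` iff `ac n y = y` (`eqv_fix`). So the `y ∈ Y` with `ac n y = y`, `Jy D x y = J` correspond to the sign vectors of the roots `S.R` at the points of `V = {y ∈ X : τ y = y}` with `⟨a,y⟩ = 0` (`a ∈ J`), `> 0` (`a ∈ sm D.Psi x \ J`) (these points are in the closed chamber: F02 `mem_Cb` for `D.rg`):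
their number is odd by `sign_parity` if `J` is `τ`-stable (`exists_tau_point`), zero otherwise. Exactly one `y ∈ Y` has `¬ nz S y`; it is fixed and has `Jy D x y = sm D.Psi x`. `f J * f J = 1`. `odd_faces`: apply this to `A = Multiplicative (ZMod 2)`, `f` constant `≠ 1`: the number of elements of `T.JJ` is even if `sm D.Psi x` is not empty (`J ↦ J ∆ q`, `q` an orbit).
-/

namespace LieP

noncomputable section

open Classical

open ParkerGL (QM Qg cl dcf FixedField)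

variable {Ω : Type} [Field Ω] [IsAlgClosed Ω] [CharZero Ω] {c : Parker.Ctx Ω}
  {Γ : Subgroup (RingAut Ω)} {K : Type} [Field K] [CharZero K] [Algebra K Ω]
  {G E : Type} [Group G] [Finite G] [NormedAddCommGroup E] [InnerProductSpace ℝ E]
  [FiniteDimensional ℝ E] {S : LieSys G E}

namespace R04_aux

omit [FiniteDimensional ℝ E] in
theorem sgv_eq {y y' : E} (h : S.eqv y y') : sgv S.R y = sgv S.R y' := by
  funext a
  show SignType.sign _ = SignType.sign _
  have h1 : (0 < inner ℝ (a : E) y ↔ 0 < inner ℝ (a : E) y') := ⟨h.1 _ a.2, h.2 _ a.2⟩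
  have h2 : (inner ℝ (a : E) y < 0 ↔ inner ℝ (a : E) y' < 0) := by
    have h3 : (0 < inner ℝ (-(a : E)) y ↔ 0 < inner ℝ (-(a : E)) y') :=
      ⟨h.1 _ (S.neg _ a.2), h.2 _ (S.neg _ a.2)⟩
    rwa [inner_neg_left, inner_neg_left, neg_pos, neg_pos] at h3
  rcases lt_trichotomy (inner ℝ (a : E) y) 0 with h4 | h4 | h4
  · rw [sign_neg h4, sign_neg (h2.1 h4)]
  · have h5 : inner ℝ (a : E) y' = 0 := by
      refine le_antisymm (not_lt.1 fun h6 => ?_) (not_lt.1 fun h6 => ?_)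
      · exact absurd (h1.2 h6) (by rw [h4]; exact lt_irrefl _)
      · exact absurd (h2.2 h6) (by rw [h4]; exact lt_irrefl _)
    rw [h4, h5]
  · rw [sign_pos h4, sign_pos (h1.1 h4)]

omit [FiniteDimensional ℝ E] in
theorem eqv_of_sgv {y y' : E} (h : sgv S.R y = sgv S.R y') : S.eqv y y' := by
  have h1 : ∀ a ∈ S.R, SignType.sign (inner ℝ a y) = SignType.sign (inner ℝ a y') :=
    fun a ha => congrFun h ⟨a, ha⟩
  constructor
  · intro a ha h0
    exact sign_eq_one_iff.1 ((h1 a ha).symm.trans (sign_pos h0))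
  · intro a ha h0
    exact sign_eq_one_iff.1 ((h1 a ha).trans (sign_pos h0))

omit [FiniteDimensional ℝ E] in
theorem eqv_zero_iff {y y' : E} (h : S.eqv y y') {a : E} (ha : a ∈ S.R) (h0 : inner ℝ a y = 0) :
    inner ℝ a y' = 0 := by
  refine le_antisymm (not_lt.1 fun h6 => ?_) (not_lt.1 fun h6 => ?_)
  · exact absurd (h.2 a ha h6) (by rw [h0]; exact lt_irrefl _)
  · have h7 := h.2 (-a) (S.neg a ha) (by rw [inner_neg_left]; exact neg_pos.2 h6)
    rw [inner_neg_left, h0, neg_zero] at h7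
    exact lt_irrefl _ h7

theorem Jy_eqv {D : S.Cs Ω} {x y y' : E} (hy : y ∈ S.X D.x) (hy' : y' ∈ S.X D.x)
    (h : S.eqv y y') : Jy D x y = Jy D x y' := by
  have key : ∀ {y y' : E}, y ∈ S.X D.x → y' ∈ S.X D.x → S.eqv y y' → ∀ a ∈ D.Psi,
      inner ℝ a y = 0 → inner ℝ a y' = 0 := by
    intro y y' hy hy' h a ha h0
    obtain ⟨_, _, _, _, b, hb, r, hr, hab⟩ := of_Psi ha
    have h1 : inner ℝ b y = 0 := by rw [hab y hy, h0, mul_zero]
    have h2 := eqv_zero_iff h hb.1 h1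
    rw [hab y' hy'] at h2
    exact (mul_eq_zero.1 h2).resolve_left hr.ne'
  have hP : ∀ a ∈ sm D.Psi x, a ∈ D.Psi := fun a ha =>
    (Finset.mem_filter.1 (Finset.mem_filter.1 ha).1).1
  unfold Jy
  ext a
  rw [Finset.mem_filter, Finset.mem_filter]
  exact ⟨fun h1 => ⟨h1.1, key hy hy' h a (hP a h1.1) h1.2⟩,
    fun h1 => ⟨h1.1, key hy' hy (eqv_symm S h) a (hP a h1.1) h1.2⟩⟩

/-- the fixed points of `τ` in `X` -/
def V {D : S.Cs Ω} {x : E} (T : TD D Γ x) : Submodule ℝ E where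
  carrier := {y | y ∈ S.X D.x ∧ T.t y = y}
  add_mem' := by
    rintro a b ⟨h1, h2⟩ ⟨h3, h4⟩
    exact ⟨(S.X D.x).add_mem h1 h3, by rw [map_add, h2, h4]⟩
  zero_mem' := ⟨(S.X D.x).zero_mem, map_zero _⟩
  smul_mem' := by
    rintro r a ⟨h1, h2⟩
    exact ⟨(S.X D.x).smul_mem r h1, by rw [map_smul, h2]⟩

theorem tau_pos {D : S.Cs Ω} {x : E} (T : TD D Γ x) {a : E} (ha : a ∈ D.Psi)
    (h : 0 < inner ℝ a x) : 0 < inner ℝ a (T.t x) := by
  have hxX := reg_mem_X S T.reg
  have htX : T.t x ∈ S.X D.x := (tE_mem T).2 hxX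
  have h1 := T.na
  rw [← tE_X T hxX, NA_iff htX hxX] at h1
  have h2 : inner ℝ a (T.t x) ≠ 0 := by
    have h3 : inner ℝ (T.t a) (T.t (T.t x)) = inner ℝ a (T.t x) :=
      LinearIsometryEquiv.inner_map_map _ _ _
    rw [tE_tE T] at h3
    rw [← h3]
    exact Psi_reg T.reg ((tE_Psi T).2 ha)
  rcases lt_or_gt_of_ne h2 with h3 | h3
  · exact absurd (mul_neg_of_pos_of_neg h h3) (h1 a ha)
  · exact h3

theorem odd_fib {D : S.Cs Ω} {x : E} (T : TD D Γ x) {Y : Finset E} (hY : ∀ y ∈ Y, y ∈ Cc D x)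
    (hY' : ∀ y ∈ Cc D x, ∃! y', y' ∈ Y ∧ S.eqv y y') {J : Finset E} (hJ : J ∈ T.JJ) :
    Odd ((Y.filter fun y => S.ac T.n y = y).filter fun y => Jy D x y = J).card := by
  obtain ⟨hJ1, hJ2⟩ := (mem_JJ T).1 hJ
  have hN : T.n ∈ S.N := T.mem.1
  have h1 : ∀ a ∈ (rg D T.ta x T.reg).Psi, T.t a ∈ (rg D T.ta x T.reg).Psi :=
    fun a ha => (tE_Psi T).2 ha
  have h2 : T.t (rg D T.ta x T.reg).x ∈ (rg D T.ta x T.reg).C := by
    intro a ha
    obtain ⟨h3, h4⟩ := Finset.mem_filter.1 ha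
    exact tau_pos T h3 h4
  obtain ⟨y0, hy1, hy2, hy3, hy4⟩ := exists_tau_point (rg D T.ta x T.reg) h1 h2 (J := J) hJ1 hJ2
  have hP : ∀ a ∈ sm D.Psi x, a ∈ D.Psi := fun a ha =>
    (Finset.mem_filter.1 (Finset.mem_filter.1 ha).1).1
  have hy0X : y0 ∈ S.X D.x := by
    refine Submodule.span_le.2 ?_ hy4
    intro a ha
    exact (of_Psi (hP a ha)).2.1
  have hy3' : (sm D.Psi x).filter (fun a => inner ℝ a y0 = 0) = J := hy3
  have hCc : ∀ y, y ∈ S.X D.x → (∀ a ∈ sm D.Psi x \ J, 0 < inner ℝ a y) →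
      (∀ b ∈ J, inner ℝ b y = 0) → y ∈ Cc D x ∧ Jy D x y = J := by
    intro y hyX hA hB
    constructor
    · refine ⟨hyX, fun a ha h => ?_⟩
      have h3 : y ∈ (rg D T.ta x T.reg).Cb := by
        refine mem_Cb _ fun b hb => ?_
        by_cases h4 : b ∈ J
        · rw [hB b h4]
        · exact (hA b (Finset.mem_sdiff.2 ⟨hb, h4⟩)).le
      exact h3 a (Finset.mem_filter.2 ⟨ha, h⟩)
    · unfold Jy
      ext a
      rw [Finset.mem_filter]
      constructor
      · rintro ⟨h3, h4⟩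
        by_contra h5
        exact absurd h4 (hA a (Finset.mem_sdiff.2 ⟨h3, h5⟩)).ne'
      · intro h3
        exact ⟨hJ1 h3, hB a h3⟩
  have hodd := sign_parity S.R (sm D.Psi x \ J) J (V T) ⟨y0, ⟨hy0X, hy2⟩, by
    intro a ha
    obtain ⟨h3, h4⟩ := Finset.mem_sdiff.1 ha
    have h5 : 0 ≤ inner ℝ a y0 := hy1 a (Finset.mem_filter.1 h3).1
    refine lt_of_le_of_ne h5 fun h6 => h4 ?_
    rw [← hy3']
    exact Finset.mem_filter.2 ⟨h3, h6.symm⟩, by
    intro b hb
    rw [← hy3'] at hb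
    exact (Finset.mem_filter.1 hb).2⟩
  have hset : sgv S.R '' {y | y ∈ V T ∧ (∀ a ∈ sm D.Psi x \ J, 0 < inner ℝ a y) ∧
      ∀ b ∈ J, inner ℝ b y = 0} =
      ((((Y.filter fun y => S.ac T.n y = y).filter fun y => Jy D x y = J).image (sgv S.R) :
        Finset _) : Set _) := by
    ext v
    rw [Finset.coe_image]
    constructor
    · rintro ⟨y, ⟨⟨hyX, hyt⟩, hA, hB⟩, rfl⟩
      obtain ⟨hyC, hyJ⟩ := hCc y hyX hA hB
      obtain ⟨y', ⟨hy'Y, hyy'⟩, _⟩ := hY' y hyC
      have hy'X : y' ∈ S.X D.x := (hY y' hy'Y).1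
      refine ⟨y', ?_, (sgv_eq hyy').symm⟩
      rw [Finset.mem_coe, Finset.mem_filter, Finset.mem_filter]
      refine ⟨⟨hy'Y, ?_⟩, ?_⟩
      · refine eqv_fix S hN ?_
        have h3 : S.eqv (S.ac T.n y) (S.ac T.n y') := (ac_eqv S hN).2 hyy'
        rw [← tE_X T hyX, hyt] at h3
        exact eqv_trans S (eqv_symm S h3) hyy'
      · rw [← Jy_eqv hyX hy'X hyy', hyJ]
    · rintro ⟨y, hy, rfl⟩
      rw [Finset.mem_coe, Finset.mem_filter, Finset.mem_filter] at hy
      obtain ⟨⟨hyY, hyn⟩, hyJ⟩ := hy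
      have hyC := hY y hyY
      refine ⟨y, ⟨⟨hyC.1, by rw [tE_X T hyC.1, hyn]⟩, ?_, ?_⟩, rfl⟩
      · intro a ha
        obtain ⟨h3, h4⟩ := Finset.mem_sdiff.1 ha
        have h3' := Finset.mem_filter.1 (Finset.mem_filter.1 h3).1
        have h5 : 0 ≤ inner ℝ a y := hyC.2 a h3'.1 h3'.2
        refine lt_of_le_of_ne h5 fun h6 => h4 ?_
        rw [← hyJ]
        exact Finset.mem_filter.2 ⟨h3, h6.symm⟩
      · intro b hb
        rw [← hyJ] at hb
        exact (Finset.mem_filter.1 hb).2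
  have hinj : Set.InjOn (sgv S.R)
      (((Y.filter fun y => S.ac T.n y = y).filter fun y => Jy D x y = J : Finset E) : Set E) := by
    intro y hy y' hy' h
    rw [Finset.mem_coe, Finset.mem_filter, Finset.mem_filter] at hy hy'
    obtain ⟨y'', _, hu⟩ := hY' y (hY y hy.1.1)
    rw [hu y ⟨hy.1.1, eqv_refl S y⟩, hu y' ⟨hy'.1.1, eqv_of_sgv h⟩]
  rw [hset, Set.ncard_coe_finset, Finset.card_image_of_injOn hinj] at hodd
  exact hodd

theorem Jy_mem {D : S.Cs Ω} {x : E} (T : TD D Γ x) {y : E} (hy : y ∈ S.X D.x)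
    (h : S.ac T.n y = y) : Jy D x y ∈ T.JJ := by
  refine (mem_JJ T).2 ⟨Finset.filter_subset _ _, ?_⟩
  have ht : T.t y = y := by rw [tE_X T hy, h]
  have key : ∀ a, a ∈ Jy D x y → T.t a ∈ Jy D x y := by
    intro a ha
    obtain ⟨h1, h2⟩ := Finset.mem_filter.1 ha
    refine Finset.mem_filter.2 ⟨(tau_S T).2 h1, ?_⟩
    rw [← ht, LinearIsometryEquiv.inner_map_map, h2]
  ext a
  rw [Finset.mem_image]
  constructor
  · rintro ⟨b, hb, rfl⟩
    exact key b hb
  · intro ha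
    exact ⟨T.t a, key a ha, tE_tE T a⟩

theorem prod_fix {D : S.Cs Ω} {x : E} (T : TD D Γ x) {Y : Finset E} (hY : ∀ y ∈ Y, y ∈ Cc D x)
    (hY' : ∀ y ∈ Cc D x, ∃! y', y' ∈ Y ∧ S.eqv y y') {A : Type} [CommGroup A] (f : Finset E → A)
    (hf : ∀ J, f J * f J = 1) :
    ∏ y ∈ Y.filter (fun y => S.ac T.n y = y), f (Jy D x y) = ∏ J ∈ T.JJ, f J := by
  rw [← Finset.prod_fiberwise_of_maps_to (g := fun y => Jy D x y) (t := T.JJ)
    (fun y hy => Jy_mem T (hY y (Finset.mem_filter.1 hy).1).1 (Finset.mem_filter.1 hy).2)]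
  refine Finset.prod_congr rfl fun J hJ => ?_
  rw [Finset.prod_congr rfl (fun y hy => by rw [(Finset.mem_filter.1 hy).2] :
    ∀ y ∈ (Y.filter fun y => S.ac T.n y = y).filter (fun y => Jy D x y = J),
      f (Jy D x y) = f J), Finset.prod_const]
  obtain ⟨k, hk⟩ := odd_fib T hY hY' hJ
  rw [hk, pow_add, pow_mul, pow_one, pow_two, hf, one_pow, one_mul]

end R04_aux

theorem prod_tau {D : S.Cs Ω} {x : E} (T : TD D Γ x) {Y : Finset E} (hY : ∀ y ∈ Y, y ∈ Cc D x)
    (hY' : ∀ y ∈ Cc D x, ∃! y', y' ∈ Y ∧ S.eqv y y') {A : Type} [CommGroup A] (f : Finset E → A)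
    (hf : ∀ J, f J * f J = 1) :
    ∏ y ∈ Y.filter (fun y => nz S y ∧ S.ac T.n y = y), f (Jy D x y) =
      (∏ J ∈ T.JJ, f J) * f (sm D.Psi x) := by
  have hN : T.n ∈ S.N := T.mem.1
  have h0C : (0 : E) ∈ Cc D x := ⟨(S.X D.x).zero_mem, fun a _ _ => by rw [inner_zero_right]⟩
  obtain ⟨y0, ⟨hy0Y, hy0⟩, hu⟩ := hY' 0 h0C
  have hz : ∀ y ∈ Y, ¬ nz S y → y = y0 := by
    intro y hy h
    unfold nz at h
    push Not at h
    refine hu y ⟨hy, fun a ha h1 => ?_, fun a ha h1 => ?_⟩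
    · rw [inner_zero_right] at h1
      exact absurd h1 (lt_irrefl _)
    · rw [h a ha] at h1
      exact absurd h1 (lt_irrefl _)
  have hy0z : ∀ a ∈ S.R, inner ℝ a y0 = 0 := fun a ha =>
    R04_aux.eqv_zero_iff hy0 ha (inner_zero_right _)
  have hy0n : ¬ nz S y0 := by
    rintro ⟨a, ha, h⟩
    exact h (hy0z a ha)
  have hy0f : S.ac T.n y0 = y0 := by
    refine eqv_fix S hN ?_
    have h1 := (ac_eqv S hN).2 hy0
    rw [map_zero] at h1
    exact eqv_trans S (eqv_symm S h1) hy0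
  have hy0J : Jy D x y0 = sm D.Psi x := by
    refine Finset.filter_true_of_mem fun a ha => ?_
    have hP : a ∈ D.Psi := (Finset.mem_filter.1 (Finset.mem_filter.1 ha).1).1
    obtain ⟨_, _, _, _, b, hb, r, hr, hab⟩ := of_Psi hP
    have h1 := hab y0 (hY y0 hy0Y).1
    rw [hy0z b hb.1] at h1
    exact (mul_eq_zero.1 h1.symm).resolve_left hr.ne'
  have hins : Y.filter (fun y => S.ac T.n y = y) =
      insert y0 (Y.filter (fun y => nz S y ∧ S.ac T.n y = y)) := by
    ext y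
    rw [Finset.mem_insert, Finset.mem_filter, Finset.mem_filter]
    constructor
    · rintro ⟨h1, h2⟩
      by_cases h3 : nz S y
      · exact Or.inr ⟨h1, h3, h2⟩
      · exact Or.inl (hz y h1 h3)
    · rintro (rfl | ⟨h1, _, h2⟩)
      · exact ⟨hy0Y, hy0f⟩
      · exact ⟨h1, h2⟩
  have hp := R04_aux.prod_fix T hY hY' f hf
  rw [hins, Finset.prod_insert (fun h => hy0n (Finset.mem_filter.1 h).2.1), hy0J] at hp
  rw [← hp, mul_comm (f (sm D.Psi x)), mul_assoc, hf, mul_one]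

theorem odd_faces {D : S.Cs Ω} {x : E} (T : TD D Γ x) {Y : Finset E} (hY : ∀ y ∈ Y, y ∈ Cc D x)
    (hY' : ∀ y ∈ Cc D x, ∃! y', y' ∈ Y ∧ S.eqv y y') (hne : (sm D.Psi x).Nonempty) :
    Odd (Y.filter (fun y => nz S y ∧ S.ac T.n y = y)).card := by
  have h1 := prod_tau T hY hY' (A := Multiplicative (ZMod 2)) (fun _ => Multiplicative.ofAdd 1)
    (fun _ => by decide)
  rw [Finset.prod_const, Finset.prod_const] at h1
  have hJJ : (Multiplicative.ofAdd (1 : ZMod 2)) ^ T.JJ.card = 1 := by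
    obtain ⟨s, hs⟩ := hne
    have hq : ∀ a, a ∈ ({s, T.t s} : Finset E) ↔ T.t a ∈ ({s, T.t s} : Finset E) := by
      intro a
      simp only [Finset.mem_insert, Finset.mem_singleton]
      constructor
      · rintro (rfl | rfl)
        · exact Or.inr rfl
        · exact Or.inl (tE_tE T s)
      · rintro (h | h)
        · right
          rw [← h, tE_tE T]
        · left
          exact T.t.injective h
    have hst : ∀ J : Finset E, J.image T.t = J ↔ ∀ a, a ∈ J ↔ T.t a ∈ J := by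
      intro J
      constructor
      · intro h a
        constructor
        · intro ha
          rw [← h]
          exact Finset.mem_image_of_mem _ ha
        · intro ha
          rw [← h] at ha
          obtain ⟨b, hb, hba⟩ := Finset.mem_image.1 ha
          rwa [← T.t.injective hba]
      · intro h
        ext a
        rw [Finset.mem_image]
        constructor
        · rintro ⟨b, hb, rfl⟩
          exact (h b).1 hb
        · intro ha
          exact ⟨T.t a, (h a).1 ha, tE_tE T a⟩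
    have hmem : ∀ J ∈ T.JJ, symmDiff J {s, T.t s} ∈ T.JJ := by
      intro J hJ
      obtain ⟨h2, h3⟩ := (mem_JJ T).1 hJ
      refine (mem_JJ T).2 ⟨?_, ?_⟩
      · intro a ha
        rcases Finset.mem_symmDiff.1 ha with ⟨h4, _⟩ | ⟨h4, _⟩
        · exact h2 h4
        · rcases Finset.mem_insert.1 h4 with rfl | h5
          · exact hs
          · rw [Finset.mem_singleton.1 h5]
            exact (tau_S T).2 hs
      · rw [hst]
        rw [hst] at h3
        intro a
        rw [Finset.mem_symmDiff, Finset.mem_symmDiff, ← h3 a, ← hq a]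
    rw [← Finset.prod_const]
    refine Finset.prod_involution (fun J _ => symmDiff J {s, T.t s}) (fun J _ => by decide) ?_
      hmem (fun J _ => symmDiff_symmDiff_cancel_right _ _)
    intro J _ _ h
    have h2 : s ∈ ({s, T.t s} : Finset E) := Finset.mem_insert_self _ _
    by_cases h3 : s ∈ J
    · rw [← h] at h3
      rcases Finset.mem_symmDiff.1 h3 with ⟨_, h4⟩ | ⟨_, h4⟩
      · exact h4 h2
      · rw [h] at h3
        exact h4 h3
    · exact h3 (by rw [← h]; exact Finset.mem_symmDiff.2 (Or.inr ⟨h2, h3⟩))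
  rw [hJJ, one_mul] at h1
  rw [← Nat.not_even_iff_odd]
  rintro ⟨k, hk⟩
  rw [hk, pow_add, ← mul_pow, show (Multiplicative.ofAdd (1 : ZMod 2)) *
    (Multiplicative.ofAdd (1 : ZMod 2)) = 1 by decide, one_pow] at h1
  exact absurd h1 (by decide)

end

end LieP
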