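import Pool.Agent.LieP.Q16
import Pool.Agent.LieP.Q12
import Pool.Agent.LieP.Q03
import Pool.Agent.LieP.H05
import Pool.Agent.LieP.D4
import Pool.Agent.LieP.F05
import Pool.Agent.LieP.C04
import Pool.Agent.LieP.O01
import Pool.Agent.ParkerGL.D05

/-!
# MP_6c3636_al, LieP, module R05: the skew operator (12.5)(b) (helper7)

Section 12, (12.5)(b). `w : WT c (D.rg ..)` with `w.τ = T.t` on the simple roots and weights in the fixed field (H06 `exists_wt` with `ζ` fixed). The operator of (10.3) on `D.hd` and the module `M`: `w.ent (D.hd ..) J J'` has fixed coefficients (`fx_eJ`, `fx_cen`), so there is the operator `S` on `T.JJ → M.X`, `(S v)_J = ∑ oM M (ent J J') (v J')`.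
(1) its determinant, mapped to `Ω`, is the determinant of `opS (D.hd ..) w π` on `T.JJ → V`, `V` the representation over `Ω` with the character of `M` (base change with a basis, `ParkerGL.D05` `bcm`), `π = op ρ`; `lemH` gives absolute value `1`. For `lemH` the embedding `ι : V → (Fin n → Al Ω G)`: `ι v i = f x * (∑_{g ∈ H} λ_i (ρ g⁻¹ v) g) * f x`, `λ_i` the coordinate functionals, is linear with `ι (π a v) = a * ι v` for `a ∈ sp = f x A f x`, and `ι v = 0` implies `π (f x) v = 0`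
as all constituents of `V` have `rk φ (f x) ≠ 0` (see the module D4: `exists_iota`). (2) `D₀ = {v : v_J ∈ e_J M}` is `S`-stable and `S` is the identity on the quotient (`(S v)_J ≡ v_J mod e_J M`), so `det S = det (S | D₀)`. (3) `β = ∑ β_J`, `β_J = bj M T.j` on `e_J M`, is symmetric and nondegenerate on `D₀` (`jj_nondeg_J`, `jj_symm`). `S | D₀` is skew: `g` acts as `0` (no constituent is `star`);
`e_J` (`J` stable) is selfadjoint for `bj M T.j` on `f M` (`eJ_jj`), `β (e_J v, w) = β (v, e_J w)`; `e_{J ∪ q} e_J = e_{J ∪ q}`; `(b_s e_s)^adj = b_s e_{τ s} = - b_{τ s} e_{τ s}`. `dcf_skew`: `dcf β = cl (det (S | D₀)) = 1` (`cl_of_av`), and `dcf β = ∏ dcf β_J` (`dcf_sum` for the direct sum of the `D₀`-components).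
-/

namespace LieP

noncomputable section

open Classical

open ParkerGL (QM Qg cl dcf FixedField)

namespace R05_aux

section LinearAlgebra

/-- the operator with the entries `F i j` -/
def big {R : Type} [CommRing R] {X : Type} [AddCommGroup X] [Module R X] {ι : Type} [Fintype ι]
    (F : ι → ι → Module.End R X) : Module.End R (ι → X) :=
  LinearMap.pi fun i => ∑ j : ι, (F i j).comp (LinearMap.proj j)

theorem big_apply {R : Type} [CommRing R] {X : Type} [AddCommGroup X] [Module R X] {ι : Type}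
    [Fintype ι] (F : ι → ι → Module.End R X) (v : ι → X) (i : ι) :
    big F v i = ∑ j, F i j (v j) := by
  unfold big
  rw [LinearMap.pi_apply, LinearMap.sum_apply]
  rfl

theorem toMatrix_big {R : Type} [CommRing R] {X : Type} [AddCommGroup X] [Module R X] {ι : Type}
    [Fintype ι] [DecidableEq ι] {κ : Type} [Fintype κ] [DecidableEq κ] [DecidableEq (Σ _ : ι, κ)]
    (b : Module.Basis κ R X) (F : ι → ι → Module.End R X) (p q : Σ _ : ι, κ) :
    LinearMap.toMatrix (Pi.basis fun _ : ι => b) (Pi.basis fun _ : ι => b) (big F) p q =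
      LinearMap.toMatrix b b (F p.1 q.1) p.2 q.2 := by
  rw [LinearMap.toMatrix_apply, LinearMap.toMatrix_apply, Pi.basis_apply, Pi.basis_repr, big_apply]
  congr 2
  rw [Finset.sum_eq_single q.1]
  · rw [Pi.single_eq_same]
  · intro j _ hj
    rw [Pi.single_eq_of_ne hj, map_zero]
  · intro h
    exact absurd (Finset.mem_univ _) h

theorem det_big {K Ω : Type} [Field K] [CharZero K] [Field Ω] [IsAlgClosed Ω] [CharZero Ω]
    [Algebra K Ω] {X : Type} [AddCommGroup X]
    [Module K X] {ι : Type} [Fintype ι] {n : ℕ} (b : Module.Basis (Fin n) K X)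
    (F : ι → ι → Module.End K X) :
    LinearMap.det (big fun i j => ParkerGL.D05_aux.bcm Ω b (F i j)) =
      algebraMap K Ω (LinearMap.det (big F)) := by
  rw [← LinearMap.det_toMatrix (Pi.basis fun _ : ι => b) (big F),
    ← LinearMap.det_toMatrix (Pi.basis fun _ : ι => Pi.basisFun Ω (Fin n))
      (big fun i j => ParkerGL.D05_aux.bcm Ω b (F i j)), RingHom.map_det]
  congr 1
  ext p q
  rw [toMatrix_big, RingHom.mapMatrix_apply, Matrix.map_apply, toMatrix_big,
    ParkerGL.D05_aux.bcm_apply]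
  have h1 := LinearMap.toMatrix'_toLin' ((LinearMap.toMatrix b b (F p.1 q.1)).map (algebraMap K Ω))
  rw [LinearMap.toMatrix_eq_toMatrix', h1, Matrix.map_apply]

theorem det_restrict {K X : Type} [Field K] [AddCommGroup X] [Module K X] [FiniteDimensional K X]
    (W : Submodule K X) (T : Module.End K X) (h : ∀ v, T v - v ∈ W) (hW : ∀ v ∈ W, T v ∈ W) :
    LinearMap.det T = LinearMap.det (T.restrict hW) := by
  have h1 : W.mapQ W T hW = LinearMap.id := by
    refine LinearMap.ext fun q => ?_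
    obtain ⟨v, rfl⟩ := W.mkQ_surjective q
    rw [LinearMap.id_apply, Submodule.mkQ_apply, Submodule.mapQ_apply, Submodule.Quotient.eq]
    exact h v
  rw [LinearMap.det_eq_det_mul_det W T hW, h1, LinearMap.det_id, mul_one]

end LinearAlgebra

variable {Ω : Type} [Field Ω] [IsAlgClosed Ω] [CharZero Ω] {c : Parker.Ctx Ω}
  {Γ : Subgroup (RingAut Ω)} {K : Type} [Field K] [CharZero K] [Algebra K Ω]

/-- the orthogonal sum of forms -/
def piB {ι : Type} [Fintype ι] {X : ι → Type} [∀ i, AddCommGroup (X i)] [∀ i, Module K (X i)]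
    (B : ∀ i, LinearMap.BilinForm K (X i)) : LinearMap.BilinForm K (∀ i, X i) :=
  ∑ i, (B i).compl₁₂ (LinearMap.proj i) (LinearMap.proj i)

omit [CharZero K] in
theorem piB_apply {ι : Type} [Fintype ι] {X : ι → Type} [∀ i, AddCommGroup (X i)]
    [∀ i, Module K (X i)] (B : ∀ i, LinearMap.BilinForm K (X i)) (v w : ∀ i, X i) :
    piB B v w = ∑ i, B i (v i) (w i) := by
  unfold piB
  rw [LinearMap.sum_apply, LinearMap.sum_apply]
  rfl

theorem dcf_pi (hK : FixedField Γ K) {ι : Type} [Fintype ι] {X : ι → Type}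
    [∀ i, AddCommGroup (X i)] [∀ i, Module K (X i)] [∀ i, FiniteDimensional K (X i)]
    (B : ∀ i, LinearMap.BilinForm K (X i)) (hB : ∀ i, ∀ x, (∀ y, B i x y = 0) → x = 0) :
    dcf c Γ (piB B) = ∏ i, dcf c Γ (B i) := by
  let b : ∀ i, Module.Basis (Fin (Module.finrank K (X i))) K (X i) :=
    fun i => Module.finBasis K (X i)
  have h0 : ∀ p q : Σ i, Fin (Module.finrank K (X i)),
      LinearMap.BilinForm.toMatrix (Pi.basis b) (piB B) p q =
        ∑ i, B i (Pi.single (M := X) p.1 (b p.1 p.2) i) (Pi.single (M := X) q.1 (b q.1 q.2) i) := by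
    intro p q
    rw [LinearMap.BilinForm.toMatrix_apply, Pi.basis_apply, Pi.basis_apply, piB_apply]
  have h1 := ParkerGL.D01_aux.det_blocks (LinearMap.BilinForm.toMatrix (Pi.basis b) (piB B)) (by
    intro p q hpq
    rw [h0]
    refine Finset.sum_eq_zero fun i _ => ?_
    by_cases hi : i = p.1
    · rw [Pi.single_eq_of_ne (i := q.1) (fun h => hpq (hi ▸ h)), map_zero]
    · rw [Pi.single_eq_of_ne hi, map_zero, LinearMap.zero_apply])
  have h2 : ∀ i, (Matrix.of fun a a' : Fin (Module.finrank K (X i)) =>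
      LinearMap.BilinForm.toMatrix (Pi.basis b) (piB B) ⟨i, a⟩ ⟨i, a'⟩) =
      LinearMap.BilinForm.toMatrix (b i) (B i) := by
    intro i
    ext a a'
    rw [Matrix.of_apply, h0, LinearMap.BilinForm.toMatrix_apply, Finset.sum_eq_single i]
    · rw [Pi.single_eq_same, Pi.single_eq_same]
    · intro j _ hj
      rw [Pi.single_eq_of_ne hj, map_zero, LinearMap.zero_apply]
    · intro h
      exact absurd (Finset.mem_univ _) h
  have h3 : (LinearMap.BilinForm.toMatrix (Pi.basis b) (piB B)).det =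
      ∏ i, (LinearMap.BilinForm.toMatrix (b i) (B i)).det := by
    rw [h1]
    exact Finset.prod_congr rfl fun i _ => by rw [h2]
  rw [ParkerGL.dcf_basis hK (Pi.basis b) (piB B), h3, map_prod,
    ParkerGL.cl_prod _ _ fun i _ => ParkerGL.D01_aux.am_ne (ParkerGL.gram_ne (b i) (hB i))]
  rfl

/-- the skew operator on a sum of subspaces -/
theorem skew_prod (hK : FixedField Γ K) {X : Type} [AddCommGroup X] [Module K X]
    [FiniteDimensional K X] {ι : Type} [Fintype ι] (R : ι → Submodule K X)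
    (B : LinearMap.BilinForm K X) (T : Module.End K (ι → X)) (hT : ∀ v i, T v i - v i ∈ R i)
    (hs : ∀ x y, B x y = B y x) (hnd : ∀ i, ∀ x ∈ R i, (∀ y ∈ R i, B x y = 0) → x = 0)
    (hskew : ∀ v w : ι → X, (∀ i, v i ∈ R i) → (∀ i, w i ∈ R i) →
      ∑ i, B (T v i) (w i) = - ∑ i, B (v i) (T w i))
    (hdet : c.av (algebraMap K Ω (LinearMap.det T)) = 1) :
    ∏ i, dcf c Γ (B.restrict (R i)) = 1 := by
  let Ψ : (∀ i, R i) →ₗ[K] (ι → X) :=
    LinearMap.pi fun i => (R i).subtype.comp (LinearMap.proj i)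
  have hΨ : ∀ v i, Ψ v i = (v i : X) := fun _ _ => rfl
  have hinj : Function.Injective Ψ := by
    intro v w h
    funext i
    exact Subtype.ext (congrFun h i)
  let W := LinearMap.range Ψ
  have hW : ∀ v, v ∈ W ↔ ∀ i, v i ∈ R i := by
    intro v
    constructor
    · rintro ⟨u, rfl⟩ i
      exact (u i).2
    · intro h
      exact ⟨fun i => ⟨v i, h i⟩, rfl⟩
  have hTW : ∀ v, T v - v ∈ W := fun v => (hW _).2 fun i => hT v i
  have hTW' : ∀ v ∈ W, T v ∈ W := by
    intro v hv
    have := W.add_mem (hTW v) hv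
    rwa [sub_add_cancel] at this
  have hdet' := det_restrict W T hTW hTW'
  let β : LinearMap.BilinForm K W := (piB fun _ : ι => B).restrict W
  have hβ : ∀ x y : W, β x y = ∑ i, B ((x : ι → X) i) ((y : ι → X) i) := by
    intro x y
    exact piB_apply (fun _ : ι => B) _ _
  have hβs : ∀ x y, β x y = β y x := by
    intro x y
    rw [hβ, hβ]
    exact Finset.sum_congr rfl fun i _ => hs _ _
  have hβn : ∀ x, (∀ y, β x y = 0) → x = 0 := by
    intro x hx
    refine Subtype.ext (funext fun i => ?_)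
    refine hnd i _ ((hW _).1 x.2 i) fun y hy => ?_
    have hy' : ∀ j, (Pi.single i y : ι → X) j ∈ R j := by
      intro j
      by_cases h : j = i
      · rw [h, Pi.single_eq_same]
        exact hy
      · rw [Pi.single_eq_of_ne h]
        exact (R j).zero_mem
    have h1 : ∑ j, B ((x : ι → X) j) ((Pi.single i y : ι → X) j) = 0 :=
      (hβ x ⟨Pi.single i y, (hW _).2 hy'⟩).symm.trans (hx _)
    rw [Finset.sum_eq_single i] at h1
    · rwa [Pi.single_eq_same] at h1
    · intro j _ hj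
      rw [Pi.single_eq_of_ne hj, map_zero]
    · intro h
      exact absurd (Finset.mem_univ _) h
  have hβk : ∀ x y, β (T.restrict hTW' x) y = - β x (T.restrict hTW' y) := by
    intro x y
    rw [hβ, hβ]
    exact hskew _ _ ((hW _).1 x.2) ((hW _).1 y.2)
  have hd0 : LinearMap.det (T.restrict hTW') ≠ 0 := by
    intro h
    rw [hdet', h, map_zero, map_zero] at hdet
    exact zero_ne_one hdet
  have h1 := ParkerGL.dcf_skew (c := c) hK hβn hβs hβk hd0
  rw [← hdet', ParkerGL.cl_of_av hdet] at h1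
  have h2 := ParkerGL.dcf_iso (c := c) hK (LinearEquiv.ofInjective Ψ hinj)
    (B := piB fun i => B.restrict (R i)) (B' := β) (by
      intro x y
      rw [hβ, piB_apply]
      rfl)
  rw [h1, dcf_pi hK _ (by
    intro i x hx
    exact Subtype.ext (hnd i x x.2 fun y hy => hx ⟨y, hy⟩))] at h2
  exact h2.symm

section

variable {G : Type} [Group G] [Finite G] {H : Subgroup G}

/-- base change of the operators -/
theorem bcm_oM (hK : FixedField Γ K) (M : QM K H) {n : ℕ} (b : Module.Basis (Fin n) K M.X)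
    {a : Al Ω G} (ha : FxA Γ a) :
    ParkerGL.D05_aux.bcm Ω b (oM M a) = op (ParkerGL.D05_aux.bcr Ω b M.ρ) a := by
  unfold oM
  rw [op_act, op_act, ← ParkerGL.D05_aux.bcr_act]
  congr 1
  funext h
  exact dn_coeff hK ha h

/-- adjoint operators -/
theorem bj_adj (hK : FixedField Γ K) (M : QM K H) {a a' j : Al Ω G} (ha : FxA Γ a)
    (ha' : FxA Γ a') (hj : FxA Γ j) (hma : a ∈ sb Ω H) (hma' : a' ∈ sb Ω H) (hmj : j ∈ sb Ω H)
    (h : st a * j = j * a') (v u : M.X) : bj M j (oM M a v) u = bj M j v (oM M a' u) := by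
  show M.B (oM M a v) (oM M j u) = M.B v (oM M j (oM M a' u))
  rw [oM_adj hK M ha hma, ← Module.End.mul_apply, ← Module.End.mul_apply,
    ← oM_mul hK M (fx_st ha) hj (st_mem.2 hma) hmj, ← oM_mul hK M hj ha' hmj hma', h]

end

section

variable {G : Type} [Group G] [Finite G] {H : Subgroup G}

omit [IsAlgClosed Ω] [CharZero Ω] in
theorem st_zero : st (0 : Al Ω G) = 0 := by
  have h := st_smul (0 : Ω) (0 : Al Ω G)
  rwa [zero_smul, zero_smul] at h

omit [IsAlgClosed Ω] [CharZero Ω] in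
theorem st_sum {ι : Type} (s : Finset ι) (f : ι → Al Ω G) : st (∑ i ∈ s, f i) = ∑ i ∈ s, st (f i) := by
  induction s using Finset.induction_on with
  | empty => rw [Finset.sum_empty, Finset.sum_empty, st_zero]
  | insert a s ha ih => rw [Finset.sum_insert ha, Finset.sum_insert ha, st_add, ih]

omit [IsAlgClosed Ω] [CharZero Ω] in
theorem st_sub (a b : Al Ω G) : st (a - b) = st a - st b := by
  have h1 : a - b = a + (-1 : Ω) • b := by rw [neg_smul, one_smul, sub_eq_add_neg]
  rw [h1, st_add, st_smul, neg_smul, one_smul, sub_eq_add_neg]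

/-- fixed coefficients and support in `H` -/
def Ok (Γ : Subgroup (RingAut Ω)) (H : Subgroup G) (a : Al Ω G) : Prop := FxA Γ a ∧ a ∈ sb Ω H

theorem ok_zero : Ok Γ H (0 : Al Ω G) := ⟨fx_zero, Subalgebra.zero_mem _⟩

theorem ok_one : Ok Γ H (1 : Al Ω G) := ⟨fx_one, Subalgebra.one_mem _⟩

theorem ok_add {a b : Al Ω G} (ha : Ok Γ H a) (hb : Ok Γ H b) : Ok Γ H (a + b) :=
  ⟨fx_add ha.1 hb.1, Subalgebra.add_mem _ ha.2 hb.2⟩

theorem ok_sub {a b : Al Ω G} (ha : Ok Γ H a) (hb : Ok Γ H b) : Ok Γ H (a - b) :=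
  ⟨fx_sub ha.1 hb.1, Subalgebra.sub_mem _ ha.2 hb.2⟩

theorem ok_mul {a b : Al Ω G} (ha : Ok Γ H a) (hb : Ok Γ H b) : Ok Γ H (a * b) :=
  ⟨fx_mul ha.1 hb.1, Subalgebra.mul_mem _ ha.2 hb.2⟩

theorem ok_smul {r : Ω} (hr : Parker.Fx Γ r) {a : Al Ω G} (ha : Ok Γ H a) : Ok Γ H (r • a) :=
  ⟨fx_smul hr ha.1, Subalgebra.smul_mem _ ha.2 r⟩

theorem ok_sum {ι : Type} (s : Finset ι) {f : ι → Al Ω G} (h : ∀ i ∈ s, Ok Γ H (f i)) :
    Ok Γ H (∑ i ∈ s, f i) :=
  ⟨fx_sum s fun i hi => (h i hi).1, Subalgebra.sum_mem _ fun i hi => (h i hi).2⟩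

theorem ok_ite {p : Prop} [Decidable p] {a b : Al Ω G} (ha : p → Ok Γ H a) (hb : Ok Γ H b) :
    Ok Γ H (if p then a else b) := by
  split_ifs with h
  · exact ha h
  · exact hb

end

section

variable {E : Type} [NormedAddCommGroup E] [InnerProductSpace ℝ E] [FiniteDimensional ℝ E]

/-- the part of the entry which survives on the ranges -/
def entR {Q : RG E} {A : Type} [Ring A] [Algebra Ω A] (w : WT c Q) (e : Finset E → A)
    (J J' : Finset E) : A :=
  (∑ q ∈ w.orb, if Disjoint q J ∧ J' = J ∪ q then w.a q • e J' else 0) -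
    (∑ q ∈ w.orb, if q ⊆ J ∧ J' = J \ q then w.a q • e J else 0) +
    if J = J' ∧ J = ∅ then ∑ s ∈ Q.S, w.b s • e {s} else 0

omit [IsAlgClosed Ω] [CharZero Ω] in
theorem ent_eq {Q : RG E} {A : Type} [Ring A] [Algebra Ω A] (w : WT c Q) (D : HD c Q A)
    (J J' : Finset E) : w.ent D J J' =
      entR w D.e J J' + if J = J' then (1 - D.e J) + (if J = ∅ then D.g else 0) else 0 := by
  unfold WT.ent entR
  by_cases h : J = J'
  · by_cases h' : J = ∅
    · rw [if_pos h, if_pos h, if_pos h', if_pos ⟨h, h'⟩, if_pos h']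
      abel
    · rw [if_pos h, if_pos h, if_neg h', if_neg (fun h1 => h' h1.2), if_neg h', add_zero, add_zero]
  · rw [if_neg h, if_neg h, if_neg (fun h1 => h h1.1), add_zero, add_zero]

omit [IsAlgClosed Ω] [CharZero Ω] in
theorem mem_JJ' {Q : RG E} (w : WT c Q) {J : Finset E} (h : J ∈ w.JJ) : J ⊆ Q.S :=
  Finset.mem_powerset.1 (Finset.mem_filter.1 h).1

omit [IsAlgClosed Ω] [CharZero Ω] in
theorem e_entR {Q : RG E} {A : Type} [Ring A] [Algebra Ω A] (w : WT c Q) (D : HD c Q A)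
    {J J' : Finset E} (hJ : J ∈ w.JJ) (hJ' : J' ∈ w.JJ) :
    D.e J * entR w D.e J J' = entR w D.e J J' := by
  unfold entR
  rw [mul_add, mul_sub, Finset.mul_sum, Finset.mul_sum]
  congr 1
  · congr 1
    · refine Finset.sum_congr rfl fun q _ => ?_
      split_ifs with h
      · rw [mul_smul_comm, (he_mul D (h.2 ▸ Finset.subset_union_left) (mem_JJ' w hJ')).1]
      · rw [mul_zero]
    · refine Finset.sum_congr rfl fun q _ => ?_
      split_ifs with h
      · rw [mul_smul_comm, he_idem D (mem_JJ' w hJ)]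
      · rw [mul_zero]
  · split_ifs with h
    · rw [Finset.mul_sum]
      refine Finset.sum_congr rfl fun s hs => ?_
      rw [mul_smul_comm, (he_mul D (h.2 ▸ Finset.empty_subset _)
        (Finset.singleton_subset_iff.2 hs)).1]
    · rw [mul_zero]

omit [IsAlgClosed Ω] [CharZero Ω] in
theorem e_ent {Q : RG E} {A : Type} [Ring A] [Algebra Ω A] (w : WT c Q) (D : HD c Q A)
    {J J' : Finset E} (hJ : J ∈ w.JJ) (hJ' : J' ∈ w.JJ) :
    D.e J * (w.ent D J J' - if J = J' then 1 else 0) = w.ent D J J' - if J = J' then 1 else 0 := by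
  have h1 : w.ent D J J' - (if J = J' then 1 else 0) =
      entR w D.e J J' + if J = J' then - D.e J + (if J = ∅ then D.g else 0) else 0 := by
    rw [ent_eq]
    split_ifs <;> abel
  rw [h1, mul_add, e_entR w D hJ hJ']
  congr 1
  split_ifs with h h'
  · rw [mul_add, mul_neg, he_idem D (mem_JJ' w hJ), h', he_empty, (one_sp D (g_sp D)).1]
  · rw [mul_add, mul_neg, he_idem D (mem_JJ' w hJ), mul_zero]
  · rw [mul_zero]

end

section

variable {E : Type} [NormedAddCommGroup E] [InnerProductSpace ℝ E] [FiniteDimensional ℝ E]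
  {G : Type} [Group G] [Finite G]

omit [IsAlgClosed Ω] [CharZero Ω] in
theorem sum_tau {Q : RG E} {A : Type} [Ring A] [Algebra Ω A] (w : WT c Q) (f : E → A) :
    ∑ s ∈ Q.S, w.b s • f (w.τ s) = - ∑ s ∈ Q.S, w.b s • f s := by
  rw [← Finset.sum_neg_distrib]
  refine Finset.sum_nbij' w.τ w.τ (fun s hs => w.maps s hs) (fun s hs => w.maps s hs)
    (fun s hs => w.inv s hs) (fun s hs => w.inv s hs) ?_
  intro s hs
  rw [w.bt s hs, neg_smul, neg_neg]

theorem set1 (q J J' : Finset E) : (Disjoint q J ∧ J' = J ∪ q) ↔ (q ⊆ J' ∧ J = J' \ q) := by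
  constructor
  · rintro ⟨h1, rfl⟩
    refine ⟨Finset.subset_union_right, ?_⟩
    rw [Finset.union_sdiff_right, Finset.sdiff_eq_self_of_disjoint h1.symm]
  · rintro ⟨h1, rfl⟩
    refine ⟨Finset.disjoint_sdiff, ?_⟩
    rw [Finset.sdiff_union_of_subset h1]

/-- the entries are skew -/
theorem st_entR {Q : RG E} (w : WT c Q) (e : Finset E → Al Ω G) (j : Al Ω G)
    (h1 : ∀ J ∈ w.JJ, st (e J) * j = j * e J)
    (h2 : ∀ s ∈ Q.S, st (e {s}) * j = j * e {w.τ s}) {J J' : Finset E} (hJ : J ∈ w.JJ)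
    (hJ' : J' ∈ w.JJ) : st (entR w e J J') * j = j * (- entR w e J' J) := by
  have e1 : st (∑ q ∈ w.orb, if Disjoint q J ∧ J' = J ∪ q then w.a q • e J' else 0) * j =
      j * ∑ q ∈ w.orb, if q ⊆ J' ∧ J = J' \ q then w.a q • e J' else 0 := by
    rw [st_sum, Finset.sum_mul, Finset.mul_sum]
    refine Finset.sum_congr rfl fun q _ => ?_
    by_cases h : Disjoint q J ∧ J' = J ∪ q
    · rw [if_pos h, if_pos ((set1 q J J').1 h), st_smul, smul_mul_assoc, h1 J' hJ', mul_smul_comm]
    · rw [if_neg h, if_neg (fun h' => h ((set1 q J J').2 h')), st_zero, zero_mul, mul_zero]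
  have e2 : st (∑ q ∈ w.orb, if q ⊆ J ∧ J' = J \ q then w.a q • e J else 0) * j =
      j * ∑ q ∈ w.orb, if Disjoint q J' ∧ J = J' ∪ q then w.a q • e J else 0 := by
    rw [st_sum, Finset.sum_mul, Finset.mul_sum]
    refine Finset.sum_congr rfl fun q _ => ?_
    by_cases h : q ⊆ J ∧ J' = J \ q
    · rw [if_pos h, if_pos ((set1 q J' J).2 h), st_smul, smul_mul_assoc, h1 J hJ, mul_smul_comm]
    · rw [if_neg h, if_neg (fun h' => h ((set1 q J' J).1 h')), st_zero, zero_mul, mul_zero]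
  have e3 : st (if J = J' ∧ J = ∅ then ∑ s ∈ Q.S, w.b s • e {s} else 0) * j =
      - (j * if J' = J ∧ J' = ∅ then ∑ s ∈ Q.S, w.b s • e {s} else 0) := by
    by_cases h : J = J' ∧ J = ∅
    · rw [if_pos h, if_pos ⟨h.1.symm, h.1 ▸ h.2⟩, st_sum, Finset.sum_mul]
      have h3 : ∀ s ∈ Q.S, st (w.b s • e {s}) * j = w.b s • (j * e {w.τ s}) := by
        intro s hs
        rw [st_smul, smul_mul_assoc, h2 s hs]
      rw [Finset.sum_congr rfl h3, sum_tau w (fun s => j * e {s}), Finset.mul_sum]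
      congr 1
      exact Finset.sum_congr rfl fun s _ => (mul_smul_comm _ _ _).symm
    · rw [if_neg h, if_neg (fun h' : J' = J ∧ J' = ∅ => h ⟨h'.1.symm, h'.1 ▸ h'.2⟩), st_zero, zero_mul, mul_zero,
        neg_zero]
  unfold entR
  rw [st_add, st_sub, add_mul, sub_mul, e1, e2, e3, mul_neg, mul_add, mul_sub]
  abel

end

end R05_aux

variable {Ω : Type} [Field Ω] [IsAlgClosed Ω] [CharZero Ω] {c : Parker.Ctx Ω}
  {Γ : Subgroup (RingAut Ω)} {K : Type} [Field K] [CharZero K] [Algebra K Ω]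
  {G E : Type} [Group G] [Finite G] [NormedAddCommGroup E] [InnerProductSpace ℝ E]
  [FiniteDimensional ℝ E] {S : LieSys G E}

open R05_aux in
theorem prod_dcB (hK : FixedField Γ K) (h2 : c.av 2 < 1) (hts : TS S c) {D : S.Cs Ω} {x : E} (T : TD D Γ x)
    (M : QM K S.H) (hM : ∀ φ ∈ ir Ω S.H, mM M φ ≠ 0 → φ ∈ D.Ser ∧ φ ≠ D.star) {N : ℕ} {ζ : Ω}
    (hζ : IsPrimitiveRoot ζ (2 ^ N - 1)) (hζf : Parker.Fx Γ ζ) (hN : Module.finrank ℝ E < N) :
    ∏ J ∈ T.JJ, dcB c Γ M T.j (D.eJ x J) = 1 := by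
  have hg := T.gnr
  have hT := T.ta
  have hx := T.reg
  have hc := hts.tc D hg x hx
  let hd0 : HD c (rg D hT x hx) (Al Ω G) := hd D hg hT c x hx hc
  obtain ⟨w, hwτ, hwa, hwb, -⟩ := exists_wt c h2 (rg D hT x hx) hζ
    (lt_of_le_of_lt (card_S _) hN) T.t (fun s hs => (tau_S T).2 hs) (fun s _ => tE_tE T s)
  have hJJ : w.JJ = T.JJ := by
    unfold WT.JJ TD.JJ
    rw [hwτ]
    rfl
  have hsub : ∀ J ∈ w.JJ, J ⊆ sm D.Psi x := fun J hJ => mem_JJ' w hJ
  have hPsi : sm D.Psi x ⊆ D.Psi := (Finset.filter_subset _ _).trans (Finset.filter_subset _ _)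
  -- fixed coefficients
  have hpow : ∀ i : ℕ, Parker.Fx Γ (ζ ^ i) := fun i σ hσ => by rw [map_pow, hζf σ hσ]
  have hfa : ∀ q ∈ w.orb, Parker.Fx Γ (w.a q) := by
    intro q hq
    obtain ⟨i, hi⟩ := hwa q hq
    rw [hi]
    exact hpow i
  have hfb : ∀ s ∈ (rg D hT x hx).S, Parker.Fx Γ (w.b s) := by
    intro s hs
    rcases hwb s hs with h | ⟨i, h | h⟩
    · rw [h]
      exact fun σ _ => map_zero σ
    · rw [h]
      exact hpow i
    · rw [h]
      exact fun σ hσ => by rw [map_neg, hpow i σ hσ]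
  have hokE : ∀ J ⊆ sm D.Psi x, Ok Γ S.H (D.eJ x J) := fun J hJ =>
    ⟨fx_eJ hg hT T.fe T.fx hx hJ, (eJ_abs hg hx (hJ.trans hPsi)).1⟩
  have hstar := star_ir hg
  have hokf : Ok Γ S.H (D.f x) := ⟨fx_f T.fe x, f_mem D x⟩
  have hokg : Ok Γ S.H hd0.g :=
    ok_mul hokf ⟨fx_cen S.H (T.fx D.star hstar), cen_mem _ hstar⟩
  have hokR : ∀ J ∈ w.JJ, ∀ J' ∈ w.JJ, Ok Γ S.H (entR w hd0.e J J') := by
    intro J hJ J' hJ'
    refine ok_add (ok_sub (ok_sum _ fun q hq => ok_ite (fun _ => ?_) ok_zero)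
      (ok_sum _ fun q hq => ok_ite (fun _ => ?_) ok_zero)) (ok_ite (fun _ => ok_sum _ fun s hs => ?_) ok_zero)
    · exact ok_smul (hfa q hq) (hokE J' (hsub J' hJ'))
    · exact ok_smul (hfa q hq) (hokE J (hsub J hJ))
    · exact ok_smul (hfb s hs) (hokE {s} (Finset.singleton_subset_iff.2 hs))
  have hokX : ∀ J ∈ w.JJ, ∀ J' ∈ w.JJ, Ok Γ S.H
      (if J = J' then (1 - hd0.e J) + (if J = ∅ then hd0.g else 0) else 0) := by
    intro J hJ J' hJ'
    exact ok_ite (fun _ => ok_add (ok_sub ok_one (hokE J (hsub J hJ)))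
      (ok_ite (fun _ => hokg) ok_zero)) ok_zero
  have hok : ∀ J ∈ w.JJ, ∀ J' ∈ w.JJ, Ok Γ S.H (w.ent hd0 J J') := by
    intro J hJ J' hJ'
    rw [ent_eq]
    exact ok_add (hokR J hJ J' hJ') (hokX J hJ J' hJ')
  -- the idempotent `g` acts as zero
  have hog : oM M hd0.g = 0 := by
    refine (oM_zero hK M hokg.1 hokg.2).2 ?_
    intro φ hφ hm
    show cen S.H φ * (D.f x * cen S.H D.star) = 0
    rw [← mul_assoc, cen_comm hφ hokf.2, mul_assoc, cen_mul_cen hφ hstar (hM φ hφ hm).2, mul_zero]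
  -- the entries on the ranges
  have hentR : ∀ J ∈ w.JJ, ∀ J' ∈ w.JJ, ∀ v ∈ LinearMap.range (oM M (D.eJ x J')),
      oM M (w.ent hd0 J J') v = oM M (entR w hd0.e J J') v := by
    rintro J hJ J' hJ' _ ⟨u, rfl⟩
    have h1 : oM M (if J = J' then (1 - hd0.e J) + (if J = ∅ then hd0.g else 0) else 0)
        (oM M (D.eJ x J') u) = 0 := by
      have hE := hokE J' (hsub J' hJ')
      rw [← Module.End.mul_apply, ← oM_mul hK M (hokX J hJ J' hJ').1 hE.1 (hokX J hJ J' hJ').2 hE.2]
      by_cases h : J = J'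
      · have h3 : (1 - hd0.e J) * D.eJ x J' = 0 := by
          rw [sub_mul, one_mul, ← h]
          show hd0.e J - hd0.e J * hd0.e J = 0
          rw [he_idem hd0 (mem_JJ' w hJ), sub_self]
        rw [if_pos h, add_mul, h3, zero_add]
        by_cases h' : J = ∅
        · rw [if_pos h', oM_mul hK M hokg.1 hE.1 hokg.2 hE.2, hog, zero_mul, LinearMap.zero_apply]
        · rw [if_neg h', zero_mul, oM_zero' hK, LinearMap.zero_apply]
      · rw [if_neg h, zero_mul, oM_zero' hK, LinearMap.zero_apply]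
    rw [ent_eq, oM_add hK M (hokR J hJ J' hJ').1 (hokX J hJ J' hJ').1, LinearMap.add_apply, h1,
      add_zero]
  -- adjoints
  have hjj : ∀ J ∈ w.JJ, st (hd0.e J) * T.j = T.j * hd0.e J := by
    intro J hJ
    have h3 := eJ_jj T (hsub J hJ)
    rw [((mem_JJ T).1 (hJJ ▸ hJ)).2] at h3
    exact h3
  have hjs : ∀ s ∈ (rg D hT x hx).S, st (hd0.e {s}) * T.j = T.j * hd0.e {w.τ s} := by
    intro s hs
    have h3 := eJ_jj T (Finset.singleton_subset_iff.2 hs)
    rw [Finset.image_singleton] at h3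
    rw [hwτ]
    exact h3
  have hadj : ∀ J ∈ w.JJ, ∀ J' ∈ w.JJ, ∀ v u : M.X,
      bj M T.j (oM M (entR w hd0.e J J') v) u = - bj M T.j v (oM M (entR w hd0.e J' J) u) := by
    intro J hJ J' hJ' v u
    have h3 := st_entR w hd0.e T.j hjj hjs hJ hJ'
    have hn : Ok Γ S.H (- entR w hd0.e J' J) := by
      have := ok_sub (ok_zero (Γ := Γ) (H := S.H)) (hokR J' hJ' J hJ)
      rwa [zero_sub] at this
    rw [bj_adj hK M (hokR J hJ J' hJ').1 hn.1 (fx_jj T) (hokR J hJ J' hJ').2 hn.2 (jj_mem T) h3]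
    have h4 : oM M (- entR w hd0.e J' J) = - oM M (entR w hd0.e J' J) := by
      have h5 := oM_add hK M (hokR J' hJ' J hJ).1 hn.1
      rw [add_neg_cancel, oM_zero' hK] at h5
      exact (neg_eq_of_add_eq_zero_right h5.symm).symm
    rw [h4, LinearMap.neg_apply, map_neg]
  -- the determinant
  let b := Module.finBasis K M.X
  let ρ' := ParkerGL.D05_aux.bcr Ω b M.ρ
  have hch : ρ'.character = M.ch Ω := by
    funext h
    exact ParkerGL.D05_aux.bcr_char b M.ρ h
  obtain ⟨n, ι, hι1, hι2, hι3⟩ := exists_iota ρ' (f_mem D x) (f_idem D hx) (by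
    intro φ hφ hm
    rw [hch] at hm
    rw [rk_f hx hφ]
    exact (Finset.mem_filter.1 (hM φ hφ hm).1).2)
  have hspan : ∀ a, a ∈ hd0.sp ↔ a ∈ cr S.H (D.f x) (D.f x) := by
    intro a
    rw [← T_span hg hx]
    have h3 : hd0.sp = Submodule.span Ω (Set.range fun w : D.W => D.T x w) := by
      show Submodule.span Ω (D.T x '' (D.W : Set (E ≃ₗᵢ[ℝ] E))) = _
      congr 1
      ext a
      constructor
      · rintro ⟨u, hu, rfl⟩
        exact ⟨⟨u, hu⟩, rfl⟩
      · rintro ⟨u, rfl⟩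
        exact ⟨u, u.2, rfl⟩
    rw [h3]
  have hsp1 : ∀ a ∈ hd0.sp, a ∈ sb Ω S.H ∧ D.f x * a * D.f x = a := by
    intro a ha
    obtain ⟨y, hy, rfl⟩ := (hspan a).1 ha
    have hff := f_idem D hx
    refine ⟨Subalgebra.mul_mem _ (f_mem D x) (Subalgebra.mul_mem _ hy (f_mem D x)), ?_⟩
    show D.f x * (D.f x * (y * D.f x)) * D.f x = D.f x * (y * D.f x)
    rw [← mul_assoc (D.f x) (D.f x), hff, mul_assoc, mul_assoc, hff]
  have hsp2 : ∀ a ∈ sb Ω S.H, D.f x * a * D.f x = a → a ∈ hd0.sp := by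
    intro a ha h3
    refine (hspan a).2 ⟨a, ha, ?_⟩
    show D.f x * (a * D.f x) = a
    rw [← mul_assoc, h3]
  have hlem := lemH hd0 w h2 (op ρ') (op_one ρ')
    (fun a ha b hb => op_mul ρ' (hsp1 a ha).1 (hsp1 b hb).1) ι
    (fun v i => hsp2 _ (hι1 v i).1 (hι1 v i).2)
    (fun a ha v i => hι2 a (hsp1 a ha).1 (hsp1 a ha).2 v i)
    (fun v hv => by
      show op ρ' (D.T x 1) v = 0
      rw [T_one hg hx]
      exact hι3 v hv)
  have hop : opS hd0 w (op ρ') = big fun J J' : w.JJ => ParkerGL.D05_aux.bcm Ω b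
      (oM M (w.ent hd0 J J')) := by
    have h3 : (fun J J' : w.JJ => ParkerGL.D05_aux.bcm Ω b (oM M (w.ent hd0 J J'))) =
        fun J J' : w.JJ => op ρ' (w.ent hd0 J J') := by
      funext J J'
      exact bcm_oM hK M b (hok J J.2 J' J'.2).1
    rw [h3]
    rfl
  rw [hop, det_big] at hlem
  -- conclusion
  have hmain := skew_prod (c := c) hK (fun J : w.JJ => LinearMap.range (oM M (D.eJ x J)))
    (bj M T.j) (big fun J J' : w.JJ => oM M (w.ent hd0 J J')) (by
      intro v J
      have h3 : ∀ J' : w.JJ, Ok Γ S.H (w.ent hd0 J J' - if (J : Finset E) = J' then 1 else 0) :=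
        fun J' => ok_sub (hok J J.2 J' J'.2) (ok_ite (fun _ => ok_one) ok_zero)
      have h4 : big (fun J J' : w.JJ => oM M (w.ent hd0 J J')) v J - v J =
          ∑ J' : w.JJ, oM M (w.ent hd0 J J' - if (J : Finset E) = J' then 1 else 0) (v J') := by
        have h5 : ∀ J' : w.JJ, oM M (w.ent hd0 J J' - if (J : Finset E) = J' then 1 else 0) (v J') =
            oM M (w.ent hd0 J J') (v J') - (if J = J' then v J else 0) := by
          intro J'
          have h6 := oM_add hK M (h3 J').1 (ok_ite (H := S.H) (p := (J : Finset E) = J')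
            (fun _ => ok_one) ok_zero).1
          rw [sub_add_cancel] at h6
          rw [h6, LinearMap.add_apply]
          by_cases h : J = J'
          · rw [if_pos h, if_pos (congrArg Subtype.val h), oM_one hK, ← h, Module.End.one_apply,
              add_sub_cancel_right]
          · rw [if_neg h, if_neg (fun h' => h (Subtype.ext h')), oM_zero' hK,
              LinearMap.zero_apply, add_zero, sub_zero, sub_zero]
        rw [Finset.sum_congr rfl fun J' _ => h5 J', Finset.sum_sub_distrib, big_apply,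
          Finset.sum_ite_eq, if_pos (Finset.mem_univ _)]
      rw [h4]
      refine Submodule.sum_mem _ fun J' _ => ?_
      have hE : Ok Γ S.H (hd0.e J) := hokE J (hsub J J.2)
      rw [← e_ent w hd0 J.2 J'.2, oM_mul hK M hE.1 (h3 J').1 hE.2 (h3 J').2]
      exact ⟨_, rfl⟩)
    (jj_symm T hK M) (fun J => jj_nondeg_J T hK M (hJJ ▸ J.2)) (by
      intro v u hv hu
      have h3 : ∀ J : w.JJ, bj M T.j (big (fun J J' : w.JJ => oM M (w.ent hd0 J J')) v J) (u J) =
          ∑ J' : w.JJ, bj M T.j (oM M (entR w hd0.e J J') (v J')) (u J) := by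
        intro J
        rw [big_apply, map_sum, LinearMap.sum_apply]
        exact Finset.sum_congr rfl fun J' _ => by rw [hentR J J.2 J' J'.2 _ (hv J')]
      have h4 : ∀ J : w.JJ, bj M T.j (v J) (big (fun J J' : w.JJ => oM M (w.ent hd0 J J')) u J) =
          ∑ J' : w.JJ, bj M T.j (v J) (oM M (entR w hd0.e J J') (u J')) := by
        intro J
        rw [big_apply, map_sum]
        exact Finset.sum_congr rfl fun J' _ => by rw [hentR J J.2 J' J'.2 _ (hu J')]
      rw [Finset.sum_congr rfl fun J _ => h3 J, Finset.sum_congr rfl fun J _ => h4 J,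
        Finset.sum_comm, ← Finset.sum_neg_distrib]
      refine Finset.sum_congr rfl fun J _ => ?_
      rw [← Finset.sum_neg_distrib]
      exact Finset.sum_congr rfl fun J' _ => hadj J' J'.2 J J.2 _ _)
    hlem
  rw [← hJJ, ← Finset.prod_coe_sort]
  exact hmain

end

end LieP
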