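import Pool.Agent.LieP.R06
import Pool.Agent.LieP.R02

/-!
# MP_6c3636_al, LieP, module R07: the class is the same for two faces (12.3)(a) (helper64)

Section 12, (12.3)(a). `y ≤ y'` are points of `X = S.X D.x`, `ψ`, `ψ'` the members of odd degree of the series of the Levi systems of `y`, `y'`, `φ ∈ D.Ser` of odd degree. `L y' ≤ L y` (`L_le`).
`mt_face_ne`: put `x1 = cm y' D.x`: regular, `y ≤ y' ≤ x1` (`le_cm`, `le_trans`). `cen_f` for `y` and for `y'` (and the commutation of `cen S.H φ`, `D.f x1`): `cen φ * D.f x1 * cen (S.L y) ψ * cen (S.L y') ψ' = cen φ * D.f x1`; this is not `0` (`cen_mul_eq_zero`, `rk_f`, `φ ∈ D.Ser`).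
`D.f x1 = D.f x1 * S.e Ω y'` (`f_comm`, `e_le`), `S.e Ω y' = S.e Ω y * a`, `a = av Ω (S.U y' ⊓ S.L y)` (`e_face`). So `a * cen (S.L y) ψ * cen (S.L y') ψ' ≠ 0`. `cen (S.L y) ψ` commutes with `a` (`cen_comm`), so `cen (S.L y) ψ * (a * cen (S.L y') ψ') ≠ 0`, `rk ψ (a * cen (S.L y') ψ') ≠ 0` (`cen_mul_eq_zero`; idempotent: `a` commutes with `sb (L y')`), `mt_mul`.
`dcA_face`: let `N = cutM hK M h` be the module of `S.e Ω y * cen (S.L y) ψ` (`cut_ec`), a quadratic module of `S.L y = (lev S y).H`. Its character is `ψ`: `mM_cut` (`mM M φ = 1` and the other multiplicities are `0`, `mM_of`) and `mt (S.L y) φ (S.e Ω y * cen (S.L y) ψ) χ = δ mt (S.L y) φ (S.e Ω y) ψ` (`mt_mul`, `cen_mul_cen`), `od_mt_one`; `ch_of_mM`.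
`hTT.ii` for `ψ`, `N`, `y'`, `ψ'` (`(lev S y).L y' = S.L y' ⊓ S.L y = S.L y'`, `(lev S y).e Ω y' = a`, `mt_face_ne`) gives `dcA N (a * cen (S.L y') ψ') = N.dc = dcA M (S.e Ω y * cen (S.L y) ψ)` (`cutM_dc`) and `mt (S.L y') ψ a ψ' = 1`.
`cutM_dcA`: the left side is `dcA M (S.e Ω y * cen (S.L y) ψ * (a * cen (S.L y') ψ')) = dcA M (cen (S.L y) ψ * P)`, `P = S.e Ω y' * cen (S.L y') ψ'`. Finally `oM M (cen (S.L y) ψ * P) = oM M P` (`dcA_congr`): the difference `P - cen (S.L y) ψ * P` is an idempotent (`cen (S.L y) ψ` commutes with `P`) and its rank on `φ` is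
`rk φ P - rk φ (cen (S.L y) ψ * P) = dg ψ' - mt (S.L y') ψ a ψ' * dg ψ' = 0` (`mt_mul`, `od_mt_one` for `y'`, `rk_mt_cen` with `a := a * cen (S.L y') ψ'`, `od_mt_one` for `y`), so it acts as zero on `M` (`oM_zero_rk`, `oM_add`).
-/

namespace LieP

noncomputable section

open Classical

open ParkerGL (QM Qg cl dcf FixedField)

variable {Ω : Type} [Field Ω] [IsAlgClosed Ω] [CharZero Ω] {c : Parker.Ctx Ω}
  {Γ : Subgroup (RingAut Ω)} {K : Type} [Field K] [CharZero K] [Algebra K Ω]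
  {G E : Type} [Group G] [Finite G] [NormedAddCommGroup E] [InnerProductSpace ℝ E]
  [FiniteDimensional ℝ E] {S : LieSys G E}

theorem mt_face_ne (hts : TS S c) {D : S.Cs Ω} (hg : D.gnr) {φ : G → Ω} (hφ : φ ∈ D.Ser)
    (ho : Odd (Parker.dg φ)) {y y' : E} (hty : TS (lev S y) c) (hty' : TS (lev S y') c)
    (hy : y ∈ S.X D.x) (hy' : y' ∈ S.X D.x) (hle : S.le y y') {ψ ψ' : G → Ω}
    (hψ : ψ ∈ (levD D y hy).Ser) (hψ' : ψ' ∈ (levD D y' hy').Ser) (ho1 : Odd (Parker.dg ψ))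
    (ho2 : Odd (Parker.dg ψ')) : mt (S.L y') ψ (av Ω (S.U y' ⊓ S.L y)) ψ' ≠ 0 := by
  have hx1 : S.Reg D.x (S.cm y' D.x) := reg_cm S (reg_refl S D.x) hy'
  have hle' : S.le y' (S.cm y' D.x) := le_cm S y' D.x
  have hle1 : S.le y (S.cm y' D.x) := le_trans S hle hle'
  have hφi : φ ∈ ir Ω S.H := (mem_Ser.1 hφ).1
  have hψi : ψ ∈ ir Ω (S.L y) := (mem_Ser.1 hψ).1
  have hψi' : ψ' ∈ ir Ω (S.L y') := (mem_Ser.1 hψ').1
  have hLL : S.L y' ≤ S.L y := L_le S hle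
  have ha : av Ω (S.U y' ⊓ S.L y) ∈ sb Ω (S.L y) := av_mem inf_le_right
  have haa : av Ω (S.U y' ⊓ S.L y) * av Ω (S.U y' ⊓ S.L y) = av Ω (S.U y' ⊓ S.L y) := av_idem _
  have hac : ∀ b ∈ sb Ω (S.L y'), av Ω (S.U y' ⊓ S.L y) * b = b * av Ω (S.U y' ⊓ S.L y) := by
    intro b hb
    have hn : ∀ l ∈ S.L y', ∀ u ∈ S.U y' ⊓ S.L y, l * u * l⁻¹ ∈ S.U y' ⊓ S.L y := fun l hl u hu =>
      ⟨S.s4 y' l hl u hu.1, (S.L y).mul_mem ((S.L y).mul_mem (hLL hl) hu.2) ((S.L y).inv_mem (hLL hl))⟩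
    exact (av_comm hn hb).symm
  have hCm : cen (S.L y') ψ' ∈ sb Ω (S.L y') := cen_mem _ hψi'
  have h1 := cen_f hts hg hφ ho hty hy hψ ho1 hx1 hle1
  have h2 := cen_f hts hg hφ ho hty' hy' hψ' ho2 hx1 hle'
  intro h0
  have h3 := mt_mul hLL hψi ha haa hac hψi'
  rw [h0, zero_mul] at h3
  have h4 : av Ω (S.U y' ⊓ S.L y) * cen (S.L y') ψ' ∈ sb Ω (S.L y) :=
    mul_mem ha (sb_mono hLL hCm)
  have h5 : av Ω (S.U y' ⊓ S.L y) * cen (S.L y') ψ' * (av Ω (S.U y' ⊓ S.L y) * cen (S.L y') ψ') =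
      av Ω (S.U y' ⊓ S.L y) * cen (S.L y') ψ' := by
    rw [mul_assoc, ← mul_assoc (cen (S.L y') ψ'), ← hac _ hCm, mul_assoc (av Ω _) (cen (S.L y') ψ'),
      cen_idem hψi', ← mul_assoc, haa]
  have h6 := (cen_mul_eq_zero hψi h4 h5).2 h3.symm
  have h7 : cen S.H φ * D.f (S.cm y' D.x) = 0 := by
    have h8 : D.f (S.cm y' D.x) * S.e Ω y' = D.f (S.cm y' D.x) := by
      rw [← (f_abs D hx1).2.1, mul_assoc, (e_le hle').2]
    have h9 : S.e Ω y' = S.e Ω y * av Ω (S.U y' ⊓ S.L y) := (e_face hle).1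
    calc cen S.H φ * D.f (S.cm y' D.x) = cen S.H φ * (D.f (S.cm y' D.x) * cen (S.L y') ψ') := h2.symm
      _ = cen S.H φ * D.f (S.cm y' D.x) * cen (S.L y') ψ' := (mul_assoc _ _ _).symm
      _ = cen S.H φ * (D.f (S.cm y' D.x) * cen (S.L y) ψ) * cen (S.L y') ψ' := by rw [h1]
      _ = cen S.H φ * (D.f (S.cm y' D.x) * S.e Ω y' * cen (S.L y) ψ) * cen (S.L y') ψ' := by rw [h8]
      _ = cen S.H φ * (D.f (S.cm y' D.x) * (S.e Ω y * (av Ω (S.U y' ⊓ S.L y) * cen (S.L y) ψ))) *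
          cen (S.L y') ψ' := by rw [h9]; simp only [mul_assoc]
      _ = cen S.H φ * (D.f (S.cm y' D.x) * (S.e Ω y * (cen (S.L y) ψ *
          (av Ω (S.U y' ⊓ S.L y) * cen (S.L y') ψ')))) := by
            rw [← cen_comm hψi ha]; simp only [mul_assoc]
      _ = 0 := by rw [h6]; simp only [mul_zero]
  have h8 := (cen_mul_eq_zero hφi (f_mem D _) (f_idem D hx1)).1 h7
  rw [rk_f hx1 hφi] at h8
  exact (mem_Ser.1 hφ).2 h8

theorem dcA_face (hK : FixedField Γ K) (hts : TS S c) (hF : ∀ y, ∀ φ ∈ ir Ω (S.L y), ∀ g, Parker.Fx Γ (φ g))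
    {D : S.Cs Ω} (hg : D.gnr) {φ : G → Ω} (hφ : φ ∈ D.Ser) (ho : Odd (Parker.dg φ)) (M : QM K S.H)
    (hM : ∀ g : S.H, M.ch Ω g = φ g) {y y' : E} (hty : TS (lev S y) c) (hty' : TS (lev S y') c)
    (hTT : TT (lev S y) c Γ K) (hy : y ∈ S.X D.x) (hy' : y' ∈ S.X D.x) (hle : S.le y y') {ψ ψ' : G → Ω}
    (hψ : ψ ∈ (levD D y hy).Ser) (hψ' : ψ' ∈ (levD D y' hy').Ser) (ho1 : Odd (Parker.dg ψ))
    (ho2 : Odd (Parker.dg ψ')) (hr1 : rl ψ) (hr2 : rl ψ') :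
    dcA c Γ M (S.e Ω y * cen (S.L y) ψ) = dcA c Γ M (S.e Ω y' * cen (S.L y') ψ') := by
  have hφi : φ ∈ ir Ω S.H := (mem_Ser.1 hφ).1
  have hψi : ψ ∈ ir Ω (S.L y) := (mem_Ser.1 hψ).1
  have hψi' : ψ' ∈ ir Ω (S.L y') := (mem_Ser.1 hψ').1
  have hLL : S.L y' ≤ S.L y := L_le S hle
  have ha : av Ω (S.U y' ⊓ S.L y) ∈ sb Ω (S.L y) := av_mem inf_le_right
  have haa : av Ω (S.U y' ⊓ S.L y) * av Ω (S.U y' ⊓ S.L y) = av Ω (S.U y' ⊓ S.L y) := av_idem _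
  have hac : ∀ b ∈ sb Ω (S.L y'), av Ω (S.U y' ⊓ S.L y) * b = b * av Ω (S.U y' ⊓ S.L y) := by
    intro b hb
    have hn : ∀ l ∈ S.L y', ∀ u ∈ S.U y' ⊓ S.L y, l * u * l⁻¹ ∈ S.U y' ⊓ S.L y := fun l hl u hu =>
      ⟨S.s4 y' l hl u hu.1, (S.L y).mul_mem ((S.L y).mul_mem (hLL hl) hu.2) ((S.L y).inv_mem (hLL hl))⟩
    exact (av_comm hn hb).symm
  have hCm : cen (S.L y) ψ ∈ sb Ω (S.L y) := cen_mem _ hψi
  have hCm' : cen (S.L y') ψ' ∈ sb Ω (S.L y') := cen_mem _ hψi'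
  have hCm'' : cen (S.L y') ψ' ∈ sb Ω (S.L y) := sb_mono hLL hCm'
  have h4 : av Ω (S.U y' ⊓ S.L y) * cen (S.L y') ψ' ∈ sb Ω (S.L y) := mul_mem ha hCm''
  have h5 : av Ω (S.U y' ⊓ S.L y) * cen (S.L y') ψ' * (av Ω (S.U y' ⊓ S.L y) * cen (S.L y') ψ') =
      av Ω (S.U y' ⊓ S.L y) * cen (S.L y') ψ' := by
    rw [mul_assoc, ← mul_assoc (cen (S.L y') ψ'), ← hac _ hCm', mul_assoc (av Ω _) (cen (S.L y') ψ'),
      cen_idem hψi', ← mul_assoc, haa]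
  have hee : S.e Ω y' = S.e Ω y * av Ω (S.U y' ⊓ S.L y) := (e_face hle).1
  have hec : ∀ b ∈ sb Ω (S.L y), S.e Ω y * b = b * S.e Ω y := fun b hb => (e_comm hb).symm
  have hec' : ∀ b ∈ sb Ω (S.L y'), S.e Ω y' * b = b * S.e Ω y' := fun b hb => (e_comm hb).symm
  have hcut : CutH Γ S.H (S.L y) (S.e Ω y * cen (S.L y) ψ) := cut_ec hψi hr1 (hF y ψ hψi)
  have hcut' : CutH Γ S.H (S.L y') (S.e Ω y' * cen (S.L y') ψ') := cut_ec hψi' hr2 (hF y' ψ' hψi')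
  obtain ⟨hm1, hm0⟩ := mM_of (M := M) hφi (m := 1) (fun g => by rw [hM g, Nat.cast_one, one_mul])
  have hod := od_mt_one hts hg hφ ho hty hy hψ ho1
  have hod' := od_mt_one hts hg hφ ho hty' hy' hψ' ho2
  -- the character of the cut
  have hmN : ∀ χ ∈ ir Ω (S.L y), mM (cutM hK M hcut) χ = mt (S.L y) φ (S.e Ω y * cen (S.L y) ψ) χ := by
    intro χ hχ
    rw [mM_cut hK M hcut hχ, Finset.sum_eq_single φ]
    · rw [hm1, one_mul]
    · intro b hb hne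
      rw [hm0 b hb hne, zero_mul]
    · intro h
      exact absurd hφi h
  have hmN0 : ∀ χ ∈ ir Ω (S.L y), χ ≠ ψ → mM (cutM hK M hcut) χ = 0 := by
    intro χ hχ hne
    rw [hmN χ hχ]
    unfold mt
    rw [mul_assoc, cen_mul_cen hψi hχ (Ne.symm hne), mul_zero, rk_zero, Nat.zero_div]
  have hmN1 : mM (cutM hK M hcut) ψ = 1 := by
    rw [hmN ψ hψi]
    unfold mt
    rw [mul_assoc, cen_idem hψi]
    exact hod
  have hchN : ∀ g : (lev S y).H, (cutM hK M hcut).ch Ω g = ψ g := by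
    intro g
    have := ch_of_mM hψi hmN0 g
    rw [hmN1, Nat.cast_one, one_mul] at this
    exact this
  have hLy : (lev S y).L y' = S.L y' := lev_L S (fun a ha h0 => le_zero S hle ha h0)
  have hmt : mt ((lev S y).L y') ψ ((lev S y).e Ω y') ψ' ≠ 0 := by
    rw [hLy]
    exact mt_face_ne hts hg hφ ho hty hty' hy hy' hle hψ hψ' ho1 ho2
  obtain ⟨hii1, hii2⟩ := hTT.ii ψ hψi hr1 ho1 (cutM hK M hcut) hchN y' ψ' (by rw [hLy]; exact hψi') hr2 ho2 hmt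
  rw [hLy] at hii1 hii2
  have hii1' : mt (S.L y') ψ (av Ω (S.U y' ⊓ S.L y)) ψ' = 1 := hii1
  have hii2' : dcA c Γ (cutM hK M hcut) (av Ω (S.U y' ⊓ S.L y) * cen (S.L y') ψ') =
      (cutM hK M hcut).dc c Γ := hii2
  have hfx4 : FxA Γ (av Ω (S.U y' ⊓ S.L y) * cen (S.L y') ψ') :=
    fx_mul (fx_av _) (fx_cen _ (hF y' ψ' hψi'))
  rw [cutM_dc, cutM_dcA hK M hcut hfx4 h4] at hii2'
  rw [← hii2']
  apply dcA_congr
  -- the product
  have hP : S.e Ω y * cen (S.L y) ψ * (av Ω (S.U y' ⊓ S.L y) * cen (S.L y') ψ') =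
      cen (S.L y) ψ * (S.e Ω y' * cen (S.L y') ψ') := by
    rw [hec _ hCm, hee]; simp only [mul_assoc]
  have hP2 : cen (S.L y) ψ * (S.e Ω y' * cen (S.L y') ψ') =
      S.e Ω y * (cen (S.L y) ψ * (av Ω (S.U y' ⊓ S.L y) * cen (S.L y') ψ')) := by
    rw [← hP, mul_assoc]
  have hPc : cen (S.L y) ψ * (S.e Ω y' * cen (S.L y') ψ') = S.e Ω y' * cen (S.L y') ψ' * cen (S.L y) ψ := by
    rw [hP2, cen_comm hψi h4, hee]; simp only [mul_assoc]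
  have hPm : S.e Ω y' * cen (S.L y') ψ' ∈ sb Ω S.H := hcut'.mem
  have hPi : S.e Ω y' * cen (S.L y') ψ' * (S.e Ω y' * cen (S.L y') ψ') = S.e Ω y' * cen (S.L y') ψ' :=
    hcut'.idem
  have hPf : FxA Γ (S.e Ω y' * cen (S.L y') ψ') := hcut'.fx
  have hCi : cen (S.L y) ψ * cen (S.L y) ψ = cen (S.L y) ψ := cen_idem hψi
  have hCf : FxA Γ (cen (S.L y) ψ) := fx_cen _ (hF y ψ hψi)
  have hCH : cen (S.L y) ψ ∈ sb Ω S.H := sb_mono (S.LH y) hCm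
  rw [hP]
  generalize hPP : S.e Ω y' * cen (S.L y') ψ' = P at hP hP2 hPc hPm hPi hPf ⊢
  have hCPi : cen (S.L y) ψ * P * (cen (S.L y) ψ * P) = cen (S.L y) ψ * P := by
    calc cen (S.L y) ψ * P * (cen (S.L y) ψ * P) = cen (S.L y) ψ * (P * cen (S.L y) ψ) * P := by
          simp only [mul_assoc]
      _ = cen (S.L y) ψ * (cen (S.L y) ψ * P) * P := by rw [hPc]
      _ = cen (S.L y) ψ * cen (S.L y) ψ * (P * P) := by simp only [mul_assoc]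
      _ = cen (S.L y) ψ * P := by rw [hCi, hPi]
  have hCPP : cen (S.L y) ψ * P * P = cen (S.L y) ψ * P := by rw [mul_assoc, hPi]
  have hPCP : P * (cen (S.L y) ψ * P) = cen (S.L y) ψ * P := by
    rw [← mul_assoc, ← hPc, hCPP]
  have hQ1 : cen (S.L y) ψ * P * (P - cen (S.L y) ψ * P) = 0 := by
    rw [mul_sub, hCPP, hCPi, sub_self]
  have hQ2 : (P - cen (S.L y) ψ * P) * (cen (S.L y) ψ * P) = 0 := by
    rw [sub_mul, hPCP, hCPi, sub_self]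
  have hQi : (P - cen (S.L y) ψ * P) * (P - cen (S.L y) ψ * P) = P - cen (S.L y) ψ * P := by
    rw [sub_mul, hQ1, sub_zero, mul_sub, hPi, hPCP]
  have hCPm : cen (S.L y) ψ * P ∈ sb Ω S.H := mul_mem hCH hPm
  have hQm : P - cen (S.L y) ψ * P ∈ sb Ω S.H := sub_mem hPm hCPm
  have hCPf : FxA Γ (cen (S.L y) ψ * P) := fx_mul hCf hPf
  have hQf : FxA Γ (P - cen (S.L y) ψ * P) := fx_sub hPf hCPf
  have hrP : rk φ P = Parker.dg ψ' := by
    rw [← hPP, ← mt_mul (S.LH y') hφi (e_mem y') (e_idem y') hec' hψi', hod', one_mul]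
  have hrCP : rk φ (cen (S.L y) ψ * P) = Parker.dg ψ' := by
    rw [hP2, rk_mt_cen (S.LH y) hφi (e_mem y) (e_idem y) hec hψi h4 h5, hod, one_mul,
      ← mt_mul hLL hψi ha haa hac hψi', hii1', one_mul]
  have hrQ : rk φ (P - cen (S.L y) ψ * P) = 0 := by
    have := rk_add hφi hCPm hCPi hQm hQi hQ1 hQ2
    rw [add_sub_cancel, hrP, hrCP] at this
    omega
  have hQ0 : oM M (P - cen (S.L y) ψ * P) = 0 := by
    rw [oM_zero_rk hK M hQf hQm hQi]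
    intro χ hχ hne
    by_cases hc : χ = φ
    · rw [hc]; exact hrQ
    · exact absurd (hm0 χ hχ hc) hne
  have := oM_add hK M hCPf hQf
  rw [add_sub_cancel, hQ0, add_zero] at this
  exact this.symm

end

end LieP
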