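import Pool.Agent.LieP.R07
import Pool.Agent.LieP.R03
import Pool.Agent.LieP.R04
import Pool.Agent.LieP.Q17

/-!
# MP_6c3636_al, LieP, module R08: the class is constant on the chamber (12.3)(b) (helper64)

Section 12, (12.3)(b). `seg_const`: put `p t = (1 - t) • u + t • w`. For `t0` there is a neighbourhood in which all roots which do not vanish at `p t0` keep their signs (continuity, finitely many roots), so `S.le (p t0) (p t)` there. So `F ∘ p` is locally constant on `[0,1]`: with the discrete topology on `A` it is continuous on `Set.Icc 0 1`; `isPreconnected_Icc`, `IsPreconnected.constant`.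
`mid_ok`: for `y ∈ Cc D x`, `w ∈ X` with `0 < ⟨a,w⟩` for the `a ∈ D.Psi` with `0 < ⟨a,x⟩`, both fixed by `ac T.n`: for `t ∈ [0,1]` the point `p t` is in `Cc D x` and fixed by `ac T.n` (linear). It is not killed by all roots: for `t = 0` by assumption, for `t > 0`: for `a ∈ sm D.Psi x`: `⟨a, p t⟩ ≥ t ⟨a,w⟩ > 0`, and by `of_Psi` a root `b` has `⟨b, p t⟩ = r ⟨a, p t⟩ ≠ 0`.
`D_const`: let `w` be the point of `exists_tau_fix` (Q14). `seg_const` with `F u = dcA c Γ M (S.e Ω u * cen (S.L u) (od D u))` for `u = y` and for `u = y'`: the hypothesis is `dcA_face` (`hIH`, `hts`; `od_spec` (K07) for membership and odd degree (`sr_eq`); `real_iff` (Q17): `rl (od D u)` as `ac T.n u = u`).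
`dc_walls`: `exists_TV` (K05) gives `Y`; `exists_gn`, `exists_Rg` give `z`, `l`. `dc_orbits` (R03): `M.dc = dcA M (el ..) * ∏ ..` (the only constituent of `M` is `φ`, `mM_of` with `m = 1`). `dcA M (el ..) = 1`: `rk φ (el ..) = S.gen φ = 0` (`gen_eq`, `gen_odd_zero`), `oM_zero_rk`, `dcA_zero`.
For `u ∈ Y` with `nz S u`: `rl (od D u) ↔ ac T.n u = u` (`real_iff`), so the product is over `Y.filter (nz S u ∧ ac T.n u = u)`, all factors are equal to `d = dcA M (S.e Ω y * cen (S.L y) (od D y))` (`D_const`), their number is odd (`odd_faces` with `TV_face`), `d * d = 1` (`dcA_sq`), so the product is `d`.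
-/

namespace LieP

noncomputable section

open Classical

open ParkerGL (QM Qg cl dcf FixedField)

variable {Ω : Type} [Field Ω] [IsAlgClosed Ω] [CharZero Ω] {c : Parker.Ctx Ω}
  {Γ : Subgroup (RingAut Ω)} {K : Type} [Field K] [CharZero K] [Algebra K Ω]
  {G E : Type} [Group G] [Finite G] [NormedAddCommGroup E] [InnerProductSpace ℝ E]
  [FiniteDimensional ℝ E] {S : LieSys G E}

omit [Finite G] [FiniteDimensional ℝ E] in
theorem seg_const {A : Type} (F : E → A) {u w : E}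
    (h : ∀ t ∈ Set.Icc (0 : ℝ) 1, ∀ t' ∈ Set.Icc (0 : ℝ) 1,
      S.le ((1 - t) • u + t • w) ((1 - t') • u + t' • w) →
        F ((1 - t) • u + t • w) = F ((1 - t') • u + t' • w)) : F u = F w := by
  let _ : TopologicalSpace A := ⊥
  have _ : DiscreteTopology A := ⟨rfl⟩
  have hcont : ContinuousOn (fun t : ℝ => F ((1 - t) • u + t • w)) (Set.Icc 0 1) := by
    intro t0 ht0
    have h1 : ∀ᶠ t in nhds t0, S.le ((1 - t0) • u + t0 • w) ((1 - t) • u + t • w) := by
      have h2 : ∀ᶠ t in nhds t0, ∀ a ∈ S.R, 0 < inner ℝ a ((1 - t0) • u + t0 • w) →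
          0 < inner ℝ a ((1 - t) • u + t • w) := by
        rw [Filter.eventually_all_finset]
        intro a _
        by_cases hpos : 0 < inner ℝ a ((1 - t0) • u + t0 • w)
        · have hc : Continuous fun t : ℝ => inner ℝ a ((1 - t) • u + t • w) := by
            fun_prop
          filter_upwards [hc.continuousAt.eventually (lt_mem_nhds hpos)] with t ht _
          exact ht
        · exact Filter.Eventually.of_forall fun t ht => absurd ht hpos
      exact h2
    have h3 : (fun t : ℝ => F ((1 - t) • u + t • w)) =ᶠ[nhdsWithin t0 (Set.Icc 0 1)]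
        fun _ => F ((1 - t0) • u + t0 • w) := by
      filter_upwards [self_mem_nhdsWithin, nhdsWithin_le_nhds h1] with t ht ht'
      exact (h t0 ht0 t ht ht').symm
    exact continuousWithinAt_const.congr_of_eventuallyEq h3 rfl
  have h4 := isPreconnected_Icc.constant hcont (x := 0) (y := 1)
    (Set.left_mem_Icc.2 zero_le_one) (Set.right_mem_Icc.2 zero_le_one)
  simpa using h4

theorem mid_ok {D : S.Cs Ω} {x : E} (T : TD D Γ x) (hne : (sm D.Psi x).Nonempty) {y w : E}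
    (hC : y ∈ Cc D x) (hn : S.ac T.n y = y) (hz : nz S y) (hw : w ∈ S.X D.x) (hnw : S.ac T.n w = w)
    (hpos : ∀ a ∈ D.Psi, 0 < inner ℝ a x → 0 < inner ℝ a w) {t : ℝ} (ht : t ∈ Set.Icc (0 : ℝ) 1) :
    (1 - t) • y + t • w ∈ Cc D x ∧ S.ac T.n ((1 - t) • y + t • w) = (1 - t) • y + t • w ∧
      nz S ((1 - t) • y + t • w) := by
  have h1t : 0 ≤ 1 - t := by linarith [ht.2]
  have hX : (1 - t) • y + t • w ∈ S.X D.x :=
    (S.X D.x).add_mem ((S.X D.x).smul_mem _ hC.1) ((S.X D.x).smul_mem _ hw)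
  refine ⟨⟨hX, ?_⟩, ?_, ?_⟩
  · intro a ha hax
    rw [inner_add_right, inner_smul_right, inner_smul_right]
    exact add_nonneg (mul_nonneg h1t (hC.2 a ha hax)) (mul_nonneg ht.1 (hpos a ha hax).le)
  · rw [map_add, map_smul, map_smul, hn, hnw]
  · rcases eq_or_lt_of_le ht.1 with h0 | h0
    · rw [← h0]
      simpa using hz
    · obtain ⟨a, ha⟩ := hne
      have ha1 : a ∈ ps D.Psi x := (Finset.mem_filter.1 ha).1
      obtain ⟨haP, hax⟩ := Finset.mem_filter.1 ha1
      obtain ⟨-, -, -, -, b, hb, r, hr, hbr⟩ := of_Psi haP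
      refine ⟨b, hb.1, ?_⟩
      rw [hbr _ hX, inner_add_right, inner_smul_right, inner_smul_right]
      have h2 := mul_nonneg h1t (hC.2 a haP hax)
      have h3 := mul_pos h0 (hpos a haP hax)
      exact ne_of_gt (mul_pos hr (by linarith))

theorem D_const (hK : FixedField Γ K) (hts : ∀ S' : LieSys G E, TS (Ω := Ω) S' c)
    (hF : ∀ y, ∀ φ ∈ ir Ω (S.L y), ∀ g, Parker.Fx Γ (φ g)) (hIH : ∀ y, nz S y → TT (lev S y) c Γ K)
    {D : S.Cs Ω} {x : E} (T : TD D Γ x) {φ : G → Ω} (hφ : φ ∈ D.Ser) (ho : Odd (Parker.dg φ))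
    (M : QM K S.H) (hM : ∀ g : S.H, M.ch Ω g = φ g) (hne : (sm D.Psi x).Nonempty) {y y' : E}
    (hC : y ∈ Cc D x) (hC' : y' ∈ Cc D x) (hn : S.ac T.n y = y) (hn' : S.ac T.n y' = y')
    (hz : nz S y) (hz' : nz S y') :
    dcA c Γ M (S.e Ω y * cen (S.L y) (od D y)) = dcA c Γ M (S.e Ω y' * cen (S.L y') (od D y')) := by
  obtain ⟨w, hw, hnw, hpos⟩ := exists_tau_fix T
  have key : ∀ u, u ∈ Cc D x → S.ac T.n u = u → nz S u →
      dcA c Γ M (S.e Ω u * cen (S.L u) (od D u)) = dcA c Γ M (S.e Ω w * cen (S.L w) (od D w)) := by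
    intro u hu hnu hzu
    refine seg_const (S := S) (fun v => dcA c Γ M (S.e Ω v * cen (S.L v) (od D v))) ?_
    intro t ht t' ht' hle
    obtain ⟨a1, a2, a3⟩ := mid_ok T hne hu hnu hzu hw hnw hpos ht
    obtain ⟨b1, b2, b3⟩ := mid_ok T hne hu hnu hzu hw hnw hpos ht'
    obtain ⟨c1, c2, -, -⟩ := od_spec (fun y _ => hts (lev S y)) T.gnr a1.1 a3
    obtain ⟨d1, d2, -, -⟩ := od_spec (fun y _ => hts (lev S y)) T.gnr b1.1 b3
    exact dcA_face hK (hts S) hF T.gnr hφ ho M hM (hts _) (hts _) (hIH _ a3) a1.1 b1.1 hle c1 d1 c2 d2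
      ((real_iff T a1.1 a1 (hts _) c1 c2).2 a2) ((real_iff T b1.1 b1 (hts _) d1 d2).2 b2)
  rw [key y hC hn hz, key y' hC' hn' hz']

theorem dc_walls (hK : FixedField Γ K) (hO : Parker.Ok c 1 Γ) (hts : ∀ S' : LieSys G E, TS (Ω := Ω) S' c)
    (hF : ∀ y, ∀ φ ∈ ir Ω (S.L y), ∀ g, Parker.Fx Γ (φ g)) (hIH : ∀ y, nz S y → TT (lev S y) c Γ K)
    {D : S.Cs Ω} {x : E} (T : TD D Γ x) {φ : G → Ω} (hφ : φ ∈ D.Ser) (ho : Odd (Parker.dg φ))
    (M : QM K S.H) (hM : ∀ g : S.H, M.ch Ω g = φ g) (hne : (sm D.Psi x).Nonempty) {y : E}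
    (hC : y ∈ Cc D x) (hn : S.ac T.n y = y) (hz : nz S y) :
    dcA c Γ M (S.e Ω y * cen (S.L y) (od D y)) = M.dc c Γ := by
  have hφir : φ ∈ ir Ω S.H := (Finset.mem_filter.1 hφ).1
  obtain ⟨Y, hY, hYC⟩ := exists_TV D T.reg
  obtain ⟨z, hzg⟩ := exists_gn S
  obtain ⟨l, -, hl⟩ := exists_Rg S hzg
  obtain ⟨-, hm0⟩ := mM_of (M := M) hφir (m := 1) (fun g => by rw [hM g, Nat.cast_one, one_mul])
  have hMc : ∀ φ' ∈ ir Ω S.H, mM M φ' ≠ 0 → φ' ∈ D.Ser := by
    intro φ' hφ' hne'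
    by_cases h : φ' = φ
    · rw [h]; exact hφ
    · exact absurd (hm0 φ' hφ' h) hne'
  have h1 := dc_orbits hK hO hts hF hIH T.gnr hY M hMc hzg hl
  have h2 : dcA c Γ M (el Ω (S.U z) l) = 1 := by
    apply dcA_zero
    rw [oM_zero_rk hK M (fx_el _ _) (el_mem (S.UH z) l) (el_idem hl.1)]
    intro φ' hφ' hne'
    have h3 : φ' = φ := by
      by_contra h
      exact hne' (hm0 φ' hφ' h)
    rw [h3, ← gen_eq S hzg hl hφir]
    exact gen_odd_zero (hts S) T.gnr hφ ho T.reg hne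
  have h3 : Y.filter (fun y => nz S y ∧ rl (od D y)) = Y.filter (fun y => nz S y ∧ S.ac T.n y = y) := by
    apply Finset.filter_congr
    intro u hu
    constructor
    · rintro ⟨a, b⟩
      obtain ⟨c1, c2, -, -⟩ := od_spec (fun y _ => hts (lev S y)) T.gnr (hYC u hu).1 a
      exact ⟨a, (real_iff T (hYC u hu).1 (hYC u hu) (hts _) c1 c2).1 b⟩
    · rintro ⟨a, b⟩
      obtain ⟨c1, c2, -, -⟩ := od_spec (fun y _ => hts (lev S y)) T.gnr (hYC u hu).1 a
      exact ⟨a, (real_iff T (hYC u hu).1 (hYC u hu) (hts _) c1 c2).2 b⟩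
  have h4 : ∀ u ∈ Y.filter (fun y => nz S y ∧ S.ac T.n y = y),
      dcA c Γ M (S.e Ω u * cen (S.L u) (od D u)) = dcA c Γ M (S.e Ω y * cen (S.L y) (od D y)) := by
    intro u hu
    obtain ⟨huY, hnu, hfu⟩ := Finset.mem_filter.1 hu
    exact D_const hK hts hF hIH T hφ ho M hM hne (hYC u huY) hC hfu hn hnu hz
  have h5 := odd_faces T hYC (TV_face T.ta T.reg hY hYC) hne
  rw [h2, h3, Finset.prod_congr rfl h4, Finset.prod_const] at h1
  have hone : ∀ q : Qg c Γ, 1 * q = q := fun q => one_mul q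
  rw [hone] at h1
  have h6 := h1
  obtain ⟨m, hm⟩ := h5
  have hsq := dcA_sq (c := c) hK M (S.e Ω y * cen (S.L y) (od D y))
  generalize dcA c Γ M (S.e Ω y * cen (S.L y) (od D y)) = q at h6 hsq
  have h7 : q ^ (2 * m + 1) = q := by
    rw [pow_succ, pow_mul]
    have h8 : q ^ 2 = 1 := (pow_two q).trans hsq
    rw [h8]
    exact (congrArg (fun r => r * q) (one_pow m)).trans (one_mul q)
  rw [hm, h7] at h6
  exact h6.symm

end

end LieP
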