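import Pool.Agent.LieP.Q04
import Pool.Agent.LieP.A07

/-!
# MP_6c3636_al, LieP, module R09: decomposition into blocks (12.3)(c) (helper64)

Section 12, (12.3)(c). `sum_idem_orth` (linear algebra, characteristic `0`): if idempotents `p i` of `End V` have sum `1` then `V` is the sum of the ranges and `dim V = tr 1 = ∑ tr (p i) = ∑ dim (range (p i))`, so the sum of the ranges is direct; for `v` in the range of `p j`: `v = ∑ p i v`, so `∑_{i ≠ j} p i v = 0`, all `p i v = 0` (`i ≠ j`).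
`dc_block`: let `q` run over the cosets `H / P` (a finite type of representatives `q` of the left cosets), `a q = dl q * e * dl q⁻¹`: idempotent, selfadjoint, fixed coefficients, in `sb Ω H`, it depends only on the coset as `e` commutes with `P`. `s = ∑ a q` satisfies `dl h * s * dl h⁻¹ = s` for `h ∈ H`, so it is central in `sb Ω H`: in the representation of `φ` (`ir_rep`) it acts as a scalar (Schur), and
`tr φ s = index * rk φ e = dg φ` (`rk_cjg`, `cjg_of_mem`), so the scalar is `1`. By `sum_idem_orth` the operators of the `a q` are pairwise orthogonal, so `b q = cen H φ * a q` are pairwise orthogonal idempotents with the sum `cen H φ` (`al_ext_tr`, `tr_cen`; or compare the operators in all representations).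
`b q` satisfies `CutH Γ H ⊥`: `st (cen H φ) = cen H φ` (`st_cen`, `φ` real), `fx_cen`. `dcA_sum`: `dcA M (cen H φ) = ∏ dcA M (b q)`; `oM M (cen H φ) = 1` and `oM M (b q) = oM M (a q)` (`oM_zero` for `1 - cen H φ`: the only constituent of `M` is `φ`, `mM_of`), `dcA_congr`, `dcA_one`, `dcA M (a q) = dcA M e` (`dcA_conj`), and `dcA_sq` with the odd number of factors.
-/

namespace LieP

noncomputable section

open Classical

open ParkerGL (QM Qg cl dcf FixedField)

variable {Ω : Type} [Field Ω] [IsAlgClosed Ω] [CharZero Ω] {c : Parker.Ctx Ω}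
  {Γ : Subgroup (RingAut Ω)} {K : Type} [Field K] [CharZero K] [Algebra K Ω]
  {G : Type} [Group G] [Finite G] {H : Subgroup G}

namespace R09_aux

omit [IsAlgClosed Ω] [CharZero Ω] in
theorem trace_idem {V : Type} [AddCommGroup V] [Module Ω V] [FiniteDimensional Ω V]
    {f : Module.End Ω V} (h : f * f = f) :
    LinearMap.trace Ω V f = (Module.finrank Ω (LinearMap.range f) : Ω) := by
  have h1 : LinearMap.IsProj (LinearMap.range f) f := by
    refine ⟨fun x => LinearMap.mem_range_self f x, ?_⟩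
    rintro _ ⟨y, rfl⟩
    exact LinearMap.congr_fun h y
  exact h1.trace

omit [IsAlgClosed Ω] [CharZero Ω] in
theorem pi_sum_apply {V : Type} [AddCommGroup V] [Module Ω V] {ι : Type}
    (s : Finset ι) (p : ι → Module.End Ω V) (u : ∀ i : s, LinearMap.range (p i)) :
    (∑ i : s, (Submodule.subtype (LinearMap.range (p (i : ι)))) ∘ₗ
      (LinearMap.proj (R := Ω) (φ := fun i : s => LinearMap.range (p (i : ι))) i)) u =
      ∑ i : s, ((u i : LinearMap.range (p (i : ι))) : V) := by
  rw [LinearMap.sum_apply]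
  rfl

end R09_aux

omit [IsAlgClosed Ω] in
theorem sum_idem_orth {V : Type} [AddCommGroup V] [Module Ω V] [FiniteDimensional Ω V] {ι : Type}
    (s : Finset ι) (p : ι → Module.End Ω V) (h : ∀ i ∈ s, p i * p i = p i) (h1 : ∑ i ∈ s, p i = 1) :
    ∀ i ∈ s, ∀ j ∈ s, i ≠ j → p i * p j = 0 := by
  have hv : ∀ v : V, ∑ i : s, p (i : ι) v = v := by
    intro v
    have := LinearMap.congr_fun h1 v
    rw [LinearMap.sum_apply] at this
    rw [Finset.sum_coe_sort s (fun i => p i v)]
    exact this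
  have hdim : Module.finrank Ω (∀ i : s, LinearMap.range (p (i : ι))) = Module.finrank Ω V := by
    rw [Module.finrank_pi_fintype]
    have h2 : ((∑ i : s, Module.finrank Ω (LinearMap.range (p (i : ι))) : ℕ) : Ω) =
        (Module.finrank Ω V : Ω) := by
      rw [Nat.cast_sum, ← LinearMap.trace_one Ω V, ← h1, map_sum, ← Finset.sum_coe_sort s]
      exact Finset.sum_congr rfl fun i _ => (R09_aux.trace_idem (h i i.2)).symm
    exact_mod_cast h2
  let Φ : (∀ i : s, LinearMap.range (p (i : ι))) →ₗ[Ω] V :=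
    ∑ i : s, (Submodule.subtype (LinearMap.range (p (i : ι)))) ∘ₗ
      (LinearMap.proj (R := Ω) (φ := fun i : s => LinearMap.range (p (i : ι))) i)
  have hΦ : ∀ u, Φ u = ∑ i : s, ((u i : LinearMap.range (p (i : ι))) : V) :=
    R09_aux.pi_sum_apply s p
  have hsurj : Function.Surjective Φ := by
    intro v
    refine ⟨fun i => ⟨p i v, LinearMap.mem_range_self _ v⟩, ?_⟩
    rw [hΦ]
    exact hv v
  have hinj : Function.Injective Φ :=
    (LinearMap.injective_iff_surjective_of_finrank_eq_finrank hdim).2 hsurj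
  intro i hi j hj hij
  refine LinearMap.ext fun v => ?_
  have e1 : Φ (fun k => ⟨p k (p j v), LinearMap.mem_range_self _ _⟩) =
      Φ (fun k => if hk : k = (⟨j, hj⟩ : s) then
        ⟨p j v, by rw [hk]; exact LinearMap.mem_range_self _ _⟩ else 0) := by
    rw [hΦ, hΦ]
    have e2 : ∑ k : s, p (k : ι) (p j v) = p j v := hv _
    refine e2.trans ?_
    rw [Finset.sum_eq_single (⟨j, hj⟩ : s)]
    · rw [dif_pos rfl]
    · intro k _ hk
      rw [dif_neg hk]
      rfl
    · intro hk
      exact absurd (Finset.mem_univ _) hk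
  have e3 := congrFun (hinj e1) (⟨i, hi⟩ : s)
  have e4 := congrArg Subtype.val e3
  rw [dif_neg (fun hk => hij (congrArg Subtype.val hk))] at e4
  exact e4

namespace R09_aux

variable {P : Subgroup G}

/-- the conjugate of `e` by the representative of the coset `q` -/
def cj (e : Al Ω G) (q : H ⧸ P.subgroupOf H) : Al Ω G :=
  dl ((q.out : H) : G) * e * dl ((q.out : H) : G)⁻¹

omit [IsAlgClosed Ω] [CharZero Ω] [Finite G] in
theorem dl_inv (g : G) : (dl g : Al Ω G) * dl g⁻¹ = 1 := by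
  rw [← dl_mul, mul_inv_cancel, dl_one]

omit [IsAlgClosed Ω] [CharZero Ω] [Finite G] in
theorem dl_inv' (g : G) : (dl g⁻¹ : Al Ω G) * dl g = 1 := by
  rw [← dl_mul, inv_mul_cancel, dl_one]

omit [IsAlgClosed Ω] [CharZero Ω] [Finite G] in
theorem cj_smul {e : Al Ω G} (he : ∀ h ∈ P, dl h * e = e * dl h) (h : H) (q : H ⧸ P.subgroupOf H) :
    dl (h : G) * cj e q * dl (h : G)⁻¹ = cj e (h • q) := by
  have h1 : h • q = ((h * q.out : H) : H ⧸ P.subgroupOf H) := by
    conv_lhs => rw [← Quotient.out_eq' q]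
    rfl
  obtain ⟨p, hp⟩ := QuotientGroup.mk_out_eq_mul (P.subgroupOf H) (h * q.out)
  have hp' : ((p : H) : G) ∈ P := Subgroup.mem_subgroupOf.1 p.2
  have h2 : (((h • q).out : H) : G) = (h : G) * ((q.out : H) : G) * ((p : H) : G) := by
    rw [h1, hp]
    rfl
  unfold cj
  rw [h2]
  have h3 : (dl ((h : G) * ((q.out : H) : G) * ((p : H) : G)) : Al Ω G) =
      dl (h : G) * dl ((q.out : H) : G) * dl ((p : H) : G) := by
    rw [dl_mul, dl_mul]
  have h4 : (dl ((h : G) * ((q.out : H) : G) * ((p : H) : G))⁻¹ : Al Ω G) =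
      dl ((p : H) : G)⁻¹ * (dl ((q.out : H) : G)⁻¹ * dl (h : G)⁻¹) := by
    rw [_root_.mul_inv_rev, _root_.mul_inv_rev, dl_mul, dl_mul]
  rw [h3, h4]
  have h5 : dl ((p : H) : G) * e * dl ((p : H) : G)⁻¹ = e := by
    rw [he _ hp', mul_assoc, dl_inv, mul_one]
  calc dl (h : G) * (dl ((q.out : H) : G) * e * dl ((q.out : H) : G)⁻¹) * dl (h : G)⁻¹
      = dl (h : G) * dl ((q.out : H) : G) * e * (dl ((q.out : H) : G)⁻¹ * dl (h : G)⁻¹) := by
        simp only [mul_assoc]
    _ = dl (h : G) * dl ((q.out : H) : G) * (dl ((p : H) : G) * e * dl ((p : H) : G)⁻¹) *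
          (dl ((q.out : H) : G)⁻¹ * dl (h : G)⁻¹) := by rw [h5]
    _ = _ := by simp only [mul_assoc]

omit [IsAlgClosed Ω] [CharZero Ω] in
theorem sum_comm [Fintype (H ⧸ P.subgroupOf H)] {e : Al Ω G}
    (he : ∀ h ∈ P, dl h * e = e * dl h) {x : Al Ω G} (hx : x ∈ sb Ω H) :
    x * (∑ q : H ⧸ P.subgroupOf H, cj e q) = (∑ q : H ⧸ P.subgroupOf H, cj e q) * x := by
  set s : Al Ω G := ∑ q : H ⧸ P.subgroupOf H, cj e q with hs
  have h1 : ∀ g ∈ H, dl g * s = s * dl g := by
    intro g hg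
    have h2 : dl g * s * dl g⁻¹ = s := by
      rw [hs, Finset.mul_sum, Finset.sum_mul]
      have h3 : ∀ q : H ⧸ P.subgroupOf H, dl g * cj e q * dl g⁻¹ = cj e ((⟨g, hg⟩ : H) • q) :=
        fun q => cj_smul he ⟨g, hg⟩ q
      rw [Finset.sum_congr rfl fun q _ => h3 q]
      exact Equiv.sum_comp (MulAction.toPerm (⟨g, hg⟩ : H)) (fun q : H ⧸ P.subgroupOf H => cj e q)
    calc dl g * s = dl g * s * (dl g⁻¹ * dl g) := by rw [dl_inv', mul_one]
      _ = dl g * s * dl g⁻¹ * dl g := by simp only [mul_assoc]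
      _ = s * dl g := by rw [h2]
  refine sb_induction (H := H) (p := fun x => x * s = s * x) ?_ ?_ ?_ hx
  · rw [zero_mul, mul_zero]
  · intro a b ha hb
    rw [add_mul, ha, hb, mul_add]
  · intro r g hg
    rw [smul_mul_assoc, h1 g hg, mul_smul_comm]

theorem cj_mem {e : Al Ω G} (he : e ∈ sb Ω H) (q : H ⧸ P.subgroupOf H) : cj e q ∈ sb Ω H :=
  Subalgebra.mul_mem _ (Subalgebra.mul_mem _ (dl_mem.2 q.out.2) he) (dl_mem.2 (H.inv_mem q.out.2))

theorem cj_idem {e : Al Ω G} (he : e * e = e) (q : H ⧸ P.subgroupOf H) :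
    cj e q * cj e q = cj e q := by
  unfold cj
  calc dl ((q.out : H) : G) * e * dl ((q.out : H) : G)⁻¹ *
        (dl ((q.out : H) : G) * e * dl ((q.out : H) : G)⁻¹)
      = dl ((q.out : H) : G) * e * (dl ((q.out : H) : G)⁻¹ * dl ((q.out : H) : G)) *
          (e * dl ((q.out : H) : G)⁻¹) := by simp only [mul_assoc]
    _ = dl ((q.out : H) : G) * (e * e) * dl ((q.out : H) : G)⁻¹ := by
        rw [dl_inv', mul_one]
        simp only [mul_assoc]
    _ = _ := by rw [he]

theorem cj_st {e : Al Ω G} (he : st e = e) (q : H ⧸ P.subgroupOf H) : st (cj e q) = cj e q := by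
  unfold cj
  rw [st_mul, st_mul, st_dl, st_dl, inv_inv, he, mul_assoc]

theorem cj_fx {e : Al Ω G} (he : FxA Γ e) (q : H ⧸ P.subgroupOf H) : FxA Γ (cj e q) :=
  fx_mul (fx_mul (fx_dl _) he) (fx_dl _)

theorem cj_tr {φ : G → Ω} (hφ : φ ∈ ir Ω H) (e : Al Ω G) (q : H ⧸ P.subgroupOf H) :
    tr φ (cj e q) = tr φ e := by
  have h1 := tr_cjg ((q.out : H) : G) φ e
  rwa [cjg_of_mem hφ q.out.2] at h1

/-- an element acting as zero in the representation of `φ` is killed by the central idempotent -/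
theorem cen_zero {φ : G → Ω} (hφ : φ ∈ ir Ω H) {n : ℕ} {ρ : Representation Ω H (Fin n → Ω)}
    (hρ : φ = xt H ρ.character) {x : Al Ω G} (hx : x ∈ sb Ω H) (h0 : op ρ x = 0) :
    cen H φ * x = 0 := by
  refine al_ext_tr (H := H) (Subalgebra.mul_mem _ (cen_mem φ hφ) hx) ?_
  intro ψ hψ y hy
  rw [mul_assoc, tr_cen hφ hψ (Subalgebra.mul_mem _ hx hy)]
  split_ifs with h
  · rw [hρ, ← op_trace ρ (Subalgebra.mul_mem _ hx hy), op_mul ρ hx hy, h0, zero_mul, map_zero]
  · rfl

theorem scalar {n : ℕ} {T : Module.End Ω (Fin n → Ω)} (h : ∀ U, U * T = T * U) :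
    ∃ r : Ω, T = r • (1 : Module.End Ω (Fin n → Ω)) := by
  have h1 : T ∈ Set.center (Module.End Ω (Fin n → Ω)) := Semigroup.mem_center_iff.2 h
  obtain ⟨r, hr, h2⟩ := Module.End.mem_center_iff.1 h1
  refine ⟨r, ?_⟩
  rw [h2]
  rfl

end R09_aux

open R09_aux in
theorem dc_block (hK : FixedField Γ K) {φ : G → Ω} (hφ : φ ∈ ir Ω H) (hr : rl φ)
    (hF : ∀ g, Parker.Fx Γ (φ g)) (M : QM K H) (hM : ∀ g : H, M.ch Ω g = φ g) {P : Subgroup G}
    (hodd : Odd (P.relIndex H)) {e : Al Ω G} (he : CutH Γ H P e)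
    (hrk : P.relIndex H * rk φ e = Parker.dg φ) : M.dc c Γ = dcA c Γ M e := by
  haveI : Finite (H ⧸ P.subgroupOf H) := inferInstance
  letI : Fintype (H ⧸ P.subgroupOf H) := Fintype.ofFinite _
  have hcard : Fintype.card (H ⧸ P.subgroupOf H) = P.relIndex H := by
    rw [← Nat.card_eq_fintype_card]
    rfl
  obtain ⟨n, ρ, -, hρ, hsurj, hn, hpos⟩ := ir_rep hφ
  set s : Al Ω G := ∑ q : H ⧸ P.subgroupOf H, cj e q with hs
  have hsm : s ∈ sb Ω H := Subalgebra.sum_mem _ fun q _ => cj_mem he.mem q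
  -- the sum acts as a scalar
  have hcomm : ∀ U : Module.End Ω (Fin n → Ω), U * op ρ s = op ρ s * U := by
    intro U
    obtain ⟨x, hx, rfl⟩ := hsurj U
    rw [← op_mul ρ hx hsm, ← op_mul ρ hsm hx, sum_comm he.comm hx]
  obtain ⟨r, hr'⟩ := scalar hcomm
  have htr : tr φ s = (n : Ω) := by
    rw [hs, map_sum, Finset.sum_congr rfl fun q _ => cj_tr hφ e q, Finset.sum_const,
      Finset.card_univ, hcard, nsmul_eq_mul, ← rk_tr hφ he.mem he.idem, hn, ← hrk, Nat.cast_mul]
  have hr1 : r = 1 := by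
    have h1 := op_trace ρ hsm
    rw [← hρ, htr, hr', map_smul, LinearMap.trace_one, Module.finrank_fintype_fun_eq_card,
      Fintype.card_fin, smul_eq_mul] at h1
    have h2 : (n : Ω) ≠ 0 := by exact_mod_cast hpos.ne'
    exact mul_right_cancel₀ h2 (h1.trans (one_mul _).symm)
  rw [hr1, one_smul] at hr'
  -- orthogonality
  have horth : ∀ q q' : H ⧸ P.subgroupOf H, q ≠ q' → cen H φ * (cj e q * cj e q') = 0 := by
    intro q q' hq
    refine cen_zero hφ hρ (Subalgebra.mul_mem _ (cj_mem he.mem q) (cj_mem he.mem q')) ?_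
    rw [op_mul ρ (cj_mem he.mem q) (cj_mem he.mem q')]
    refine sum_idem_orth Finset.univ (fun q : H ⧸ P.subgroupOf H => op ρ (cj e q)) ?_ ?_
      q (Finset.mem_univ _) q' (Finset.mem_univ _) hq
    · intro q _
      rw [← op_mul ρ (cj_mem he.mem q) (cj_mem he.mem q), cj_idem he.idem]
    · rw [← map_sum, ← hs, hr']
  have hcs : cen H φ * s = cen H φ := by
    have h1 : cen H φ * (s - 1) = 0 := by
      refine cen_zero hφ hρ (Subalgebra.sub_mem _ hsm (Subalgebra.one_mem _)) ?_
      rw [map_sub, hr', op_one, sub_self]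
    rw [mul_sub, mul_one, sub_eq_zero] at h1
    exact h1
  have hstc : st (cen H φ) = cen H φ := by
    rw [st_cen]
    exact congrArg _ (funext hr)
  have hfc : FxA Γ (cen H φ) := fx_cen H hF
  have hcm := cen_mem φ hφ
  have hcc : ∀ q : H ⧸ P.subgroupOf H, cen H φ * cj e q = cj e q * cen H φ :=
    fun q => cen_comm hφ (cj_mem he.mem q)
  have hmul : ∀ q q' : H ⧸ P.subgroupOf H,
      cen H φ * cj e q * (cen H φ * cj e q') = cen H φ * (cj e q * cj e q') := by
    intro q q'
    calc cen H φ * cj e q * (cen H φ * cj e q') = cen H φ * (cj e q * cen H φ) * cj e q' := by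
          simp only [mul_assoc]
      _ = cen H φ * (cen H φ * cj e q) * cj e q' := by rw [hcc]
      _ = cen H φ * cen H φ * (cj e q * cj e q') := by simp only [mul_assoc]
      _ = _ := by rw [cen_idem hφ]
  have hcut : ∀ q : H ⧸ P.subgroupOf H, CutH Γ H ⊥ (cen H φ * cj e q) := by
    intro q
    refine ⟨bot_le, Subalgebra.mul_mem _ hcm (cj_mem he.mem q), ?_, fx_mul hfc (cj_fx he.fx q), ?_, ?_⟩
    · rw [hmul, cj_idem he.idem]
    · rw [st_mul, hstc, cj_st he.st, hcc]
    · intro h hh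
      rw [Subgroup.mem_bot.1 hh, dl_one, one_mul, mul_one]
  have hsum := dcA_sum (c := c) hK M (Finset.univ : Finset (H ⧸ P.subgroupOf H))
    (a := fun q => cen H φ * cj e q) (fun q _ => hcut q)
    (fun q _ q' _ hq => by rw [hmul, horth q q' hq])
  rw [← Finset.mul_sum, ← hs, hcs] at hsum
  -- the operator of the central idempotent
  have hmM := mM_of (M := M) hφ (m := 1) (fun g => by rw [hM g, Nat.cast_one, one_mul])
  have hone : oM M (cen H φ) = oM M (1 : Al Ω G) := by
    have h1 : oM M (1 - cen H φ) = 0 := by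
      refine (oM_zero hK M (fx_sub fx_one hfc) (Subalgebra.sub_mem _ (Subalgebra.one_mem _) hcm)).2 ?_
      intro ψ hψ h0
      by_cases h : ψ = φ
      · rw [h, mul_sub, mul_one, cen_idem hφ, sub_self]
      · exact absurd (hmM.2 ψ hψ h) h0
    have h2 := oM_add hK M hfc (fx_sub fx_one hfc)
    rw [h1, add_zero, add_sub_cancel] at h2
    exact h2.symm
  have hone' : oM M (cen H φ) = 1 := hone.trans (oM_one hK M)
  have hbot : CutH Γ H ⊥ e := ⟨bot_le, he.mem, he.idem, he.fx, he.st, fun h hh => by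
    rw [Subgroup.mem_bot.1 hh, dl_one, one_mul, mul_one]⟩
  have hterm : ∀ q : H ⧸ P.subgroupOf H, dcA c Γ M (cen H φ * cj e q) = dcA c Γ M e := by
    intro q
    have h1 : oM M (cen H φ * cj e q) = oM M (cj e q) := by
      rw [oM_mul hK M hfc (cj_fx he.fx q) hcm (cj_mem he.mem q), hone', one_mul]
    rw [dcA_congr M h1]
    exact dcA_conj hK M hbot q.out.2
  rw [dcA_congr M hone, dcA_one hK, Finset.prod_congr rfl fun q _ => hterm q, Finset.prod_const,
    Finset.card_univ, hcard] at hsum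
  rw [hsum]
  obtain ⟨m, hm⟩ := hodd
  rw [hm, pow_succ, pow_mul, pow_two, dcA_sq hK, one_pow, one_mul]

end

end LieP
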