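import Pool.Agent.LieP.R08
import Pool.Agent.LieP.R09
import Pool.Agent.LieP.G04
import Pool.Agent.LieP.K04

/-!
# MP_6c3636_al, LieP, module R10: property (ii) (12.3) (helper64)

Section 12, (12.3). `dc_nowalls` ((12.3)(c)): `sm D.Psi x = ∅`. Put `x1 = cm y x`: regular, in the chamber of `x` (`NA_cm`), `y ≤ x1`, `sm D.Psi x1 = ∅` (`sm_NA`, or: `D.Psi = ∅`). `nowalls_H`: `D.f x1 * cen S.H φ = D.f x1`, so `rk φ' (D.f x1) = 0` for the other characters `φ'` (`rk_cen`-type), and `rk φ (D.f x1) = 1` (`rk_eJ_odd` with `J = ∅`, or `rk_f`), so by `card_t`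
`|H| t (D.f x1) = dg φ`. In the same way (`nowalls_L`, `f' = (levD D y hy).f x1`; `rk ψ f' = 1`: the argument of `od_mt_one`) `|L y| t f' = dg ψ`. `D.f x1 = S.e Ω y * f'` (`e_levD_f`), `t (S.e Ω y * f') = |U y|⁻¹ t f'` (`t_ee` with both points `y`, `e_idem`). So `|H| dg ψ = |L y| |U y| dg φ = |P y| dg φ` (`card_P`), `dg φ = relIndex * dg ψ`.
The idempotent `e = S.e Ω y * cen (S.L y) ψ` satisfies `CutH Γ S.H (S.P y) e`: `cut_ec`, and for `u ∈ U y`: `dl u * e = e = e * dl u` (`dl_av`, `av_dl`, `cen ψ` commutes with `S.e Ω y`; `mem_P`). `rk φ e = mt * dg ψ = dg ψ` (`mt_mul`, `od_mt_one`). `P_odd`, `dc_block`.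
`tt_cham`: `real_iff` gives `ac T.n y = y`; `ψ = od D y` (`od_spec`); `od_mt_one`; `dc_walls` or `dc_nowalls`.
`tt_zero`: all roots vanish at `y`: `S.e Ω y = 1` (`e_zero`), `S.L y = S.H` (`L_mono` for `0`, `s3`), `mt S.H φ 1 ψ * dg ψ = rk φ (cen S.H ψ)` (`mt_mul`, `rk_cen`, `rk_one`), so `ψ = φ` and `mt = 1`; `oM M (cen S.H φ) = 1` (`oM_zero` for `1 - cen`), `dcA_congr`, `dcA_one`.
`tt_ii`: `exists_Ser` (K01): `φ ∈ D.Ser`; `even_of_not_gnr` (K04): `D.gnr`; `exists_fixD` (Q11): we may assume `FxA Γ D.ε`; `ser_real` (Q13), `exists_TD` (Q14) with `x = D.x` (`(hts S).ta D hg : D.TaH`): `T : TD D Γ D.x`. Given `y`, `ψ` with `nz S y`: `exists_NN_Ser` (K03): `n ∈ N`, `ac n y ∈ X`, `cjg n ψ` in the series; `exists_NN_chamber` (K05): `m ∈ D.NN D` with `ac m (ac n y) ∈ Cc D D.x`,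
`NN_Ser` (K03): `cjg m (cjg n ψ) = cjg (m * n) ψ` (`cjg_cjg`) is in the series of `ac m (ac n y) = ac (m * n) y`. `mt_ac` (K07), `dcA_ac` (R02), `rl_cjg`, `cjg_dg`, `cjg_ir`: it is enough to prove the statement for `ac (m * n) y`, `cjg (m * n) ψ`: `tt_cham` (`nz` is invariant: `ac_zero_iff`).
-/

namespace LieP

noncomputable section

open Classical

open ParkerGL (QM Qg cl dcf FixedField)

variable {Ω : Type} [Field Ω] [IsAlgClosed Ω] [CharZero Ω] {c : Parker.Ctx Ω}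
  {Γ : Subgroup (RingAut Ω)} {K : Type} [Field K] [CharZero K] [Algebra K Ω]
  {G E : Type} [Group G] [Finite G] [NormedAddCommGroup E] [InnerProductSpace ℝ E]
  [FiniteDimensional ℝ E] {S : LieSys G E}

theorem R10_cutP {y : E} {ψ : G → Ω} (hψ : ψ ∈ ir Ω (S.L y)) (hr : rl ψ) (hF : ∀ g, Parker.Fx Γ (ψ g)) :
    CutH Γ S.H (S.P y) (S.e Ω y * cen (S.L y) ψ) := by
  have h := cut_ec hψ hr hF
  refine ⟨P_le_H S y, h.mem, h.idem, h.fx, h.st, ?_⟩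
  intro g hg
  obtain ⟨l, hl, u, hu, rfl⟩ := (mem_P S).1 hg
  have h1 : dl u * (S.e Ω y * cen (S.L y) ψ) = S.e Ω y * cen (S.L y) ψ := by
    rw [← mul_assoc]
    congr 1
    exact dl_av hu
  have h2 : S.e Ω y * cen (S.L y) ψ * dl u = S.e Ω y * cen (S.L y) ψ := by
    have h3 : S.e Ω y * cen (S.L y) ψ = cen (S.L y) ψ * S.e Ω y := (e_comm (cen_mem ψ hψ)).symm
    rw [h3, mul_assoc]
    congr 1
    exact av_dl hu
  set X := S.e Ω y * cen (S.L y) ψ with hX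
  have h3 := h.comm l hl
  calc dl (l * u) * X = dl l * (dl u * X) := by rw [dl_mul, mul_assoc]
    _ = dl l * (X * dl u) := by rw [h1, h2]
    _ = X * dl (l * u) := by rw [← mul_assoc, h3, dl_mul, mul_assoc]

theorem R10_card {H : Subgroup G} {φ : G → Ω} (hφ : φ ∈ ir Ω H) {a : Al Ω G} (ha : a ∈ sb Ω H)
    (haa : a * a = a) (hc : a * cen H φ = a) (h1 : rk φ a = 1) :
    (Nat.card H : Ω) * t a = (Parker.dg φ : Ω) := by
  have h2 : cen H φ * a = a := by rw [cen_comm hφ ha, hc]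
  rw [card_t ha, Finset.sum_eq_single_of_mem φ hφ]
  · rw [← rk_tr hφ ha haa, h1, Nat.cast_one, mul_one]
  · intro ψ hψ hne
    rw [← h2, tr_cen hφ hψ ha, if_neg hne, mul_zero]

theorem dc_nowalls (hK : FixedField Γ K) (hts : ∀ S' : LieSys G E, TS (Ω := Ω) S' c)
    (hF : ∀ y, ∀ φ ∈ ir Ω (S.L y), ∀ g, Parker.Fx Γ (φ g)) {D : S.Cs Ω} (hg : D.gnr) {x : E}
    (hx : S.Reg D.x x) (he : sm D.Psi x = ∅) {φ : G → Ω} (hφ : φ ∈ D.Ser) (hr : rl φ)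
    (ho : Odd (Parker.dg φ)) (M : QM K S.H) (hM : ∀ g : S.H, M.ch Ω g = φ g) {y : E}
    (hy : y ∈ S.X D.x) (hC : y ∈ Cc D x) {ψ : G → Ω} (hψ : ψ ∈ (levD D y hy).Ser) (hr' : rl ψ)
    (ho' : Odd (Parker.dg ψ)) : dcA c Γ M (S.e Ω y * cen (S.L y) ψ) = M.dc c Γ := by
  obtain ⟨hNA, hx1⟩ := NA_cm hx hC
  have hle : S.le y (S.cm y x) := le_cm S y x
  set x1 := S.cm y x with hx1d
  have he1 : sm D.Psi x1 = ∅ := by rw [← (sm_NA hx hx1 hNA).2, he]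
  have hφir : φ ∈ ir Ω S.H := (mem_Ser.1 hφ).1
  have hψir : ψ ∈ ir Ω (S.L y) := (mem_Ser.1 hψ).1
  have hty := hts (lev S y)
  have hg' : (levD D y hy).gnr := (lev_gnr hy).2 hg
  have hx1' : (lev S y).Reg (levD D y hy).x x1 := levD_reg_of hx1
  -- the group
  have h1 := nowalls_H (hts S) hg hφ ho hx1 he1
  have h2 : rk φ (D.f x1) = 1 := by
    obtain ⟨φ0, _, _, hu, hf⟩ := (hts S).tb D hg
    have h3 := hf x1 hx1
    rw [← hu φ hφ ho, h1] at h3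
    rw [h3]
    exact rk_eJ_odd (hts S) hg hφ ho hx1 (Finset.Subset.refl _)
  have h3 := R10_card hφir (f_mem D x1) (f_idem D hx1) h1 h2
  -- the Levi subgroup
  have h4 := nowalls_L (hts S) hg hty hy hψ ho' hx1 he1
  have h5 : rk ψ ((levD D y hy).f x1) = 1 := by
    obtain ⟨φ0, _, _, hu, hf⟩ := hty.tb (levD D y hy) hg'
    have h6 := hf x1 hx1'
    rw [← hu ψ hψ ho'] at h6
    have h7 : (levD D y hy).f x1 * cen (lev S y).H ψ = (levD D y hy).f x1 := h4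
    rw [h7] at h6
    rw [h6]
    exact rk_eJ_odd hty hg' hψ ho' hx1' (Finset.Subset.refl _)
  have hf'm : (levD D y hy).f x1 ∈ sb Ω (S.L y) := f_mem (levD D y hy) x1
  have h6 := R10_card hψir hf'm (f_idem (levD D y hy) hx1') h4 h5
  -- the trace
  have h7 : t (D.f x1) = (Nat.card (S.U y) : Ω)⁻¹ * t ((levD D y hy).f x1) := by
    have hU : (Nat.card (S.U y) : Ω) ≠ 0 := Nat.cast_ne_zero.2 Nat.card_pos.ne'
    have h8 := t_ee (reg_refl S y) hf'm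
    rw [e_idem, e_levD_f D hy hle, inf_idem] at h8
    rw [h8]
    field_simp
  have hidx : Nat.card (S.P y) * (S.P y).relIndex S.H = Nat.card S.H := by
    have h8 := Subgroup.relIndex_mul_relIndex ⊥ (S.P y) S.H bot_le (P_le_H S y)
    rw [Subgroup.relIndex_bot_left, Subgroup.relIndex_bot_left] at h8
    exact h8
  have hdg : (S.P y).relIndex S.H * Parker.dg ψ = Parker.dg φ := by
    have hU : (Nat.card (S.U y) : Ω) ≠ 0 := Nat.cast_ne_zero.2 Nat.card_pos.ne'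
    have hL : (Nat.card (S.L y) : Ω) ≠ 0 := Nat.cast_ne_zero.2 Nat.card_pos.ne'
    have h8 : ((Nat.card (S.L y) * Nat.card (S.U y) * (S.P y).relIndex S.H : ℕ) : Ω) = Nat.card S.H := by
      rw [← card_P, hidx]
    rw [← h8, h7] at h3
    push_cast at h3
    have h9 : (((S.P y).relIndex S.H * Parker.dg ψ : ℕ) : Ω) = (Parker.dg φ : Ω) := by
      rw [Nat.cast_mul, ← h6, ← h3]
      field_simp
    exact_mod_cast h9
  have hmt := od_mt_one (hts S) hg hφ ho hty hy hψ ho'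
  have hrk : rk φ (S.e Ω y * cen (S.L y) ψ) = Parker.dg ψ := by
    rw [← mt_mul (S.LH y) hφir (e_mem y) (e_idem y) (fun a ha => (e_comm ha).symm) hψir, hmt, one_mul]
  have hFH : ∀ g, Parker.Fx Γ (φ g) := by
    have h8 := hF 0
    rw [S.s3] at h8
    exact h8 φ hφir
  refine (dc_block hK hφir hr hFH M hM (P_odd S y) (R10_cutP hψir hr' (hF y ψ hψir)) ?_).symm
  rw [hrk, hdg]

theorem tt_cham (hK : FixedField Γ K) (hO : Parker.Ok c 1 Γ) (hts : ∀ S' : LieSys G E, TS (Ω := Ω) S' c)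
    (hF : ∀ y, ∀ φ ∈ ir Ω (S.L y), ∀ g, Parker.Fx Γ (φ g)) (hIH : ∀ y, nz S y → TT (lev S y) c Γ K)
    {D : S.Cs Ω} {x : E} (T : TD D Γ x) {φ : G → Ω} (hφ : φ ∈ D.Ser) (hr : rl φ)
    (ho : Odd (Parker.dg φ)) (M : QM K S.H) (hM : ∀ g : S.H, M.ch Ω g = φ g) {y : E}
    (hy : y ∈ S.X D.x) (hC : y ∈ Cc D x) (hz : nz S y) {ψ : G → Ω} (hψ : ψ ∈ (levD D y hy).Ser)
    (hr' : rl ψ) (ho' : Odd (Parker.dg ψ)) :
    mt (S.L y) φ (S.e Ω y) ψ = 1 ∧ dcA c Γ M (S.e Ω y * cen (S.L y) ψ) = M.dc c Γ := by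
  have hty := hts (lev S y)
  have hn : S.ac T.n y = y := (real_iff T hy hC hty hψ ho').1 hr'
  have hod : ψ = od D y := (od_spec (fun y' _ => hts (lev S y')) T.gnr hy hz).2.2.1 ψ hψ ho'
  refine ⟨od_mt_one (hts S) T.gnr hφ ho hty hy hψ ho', ?_⟩
  rcases (sm D.Psi x).eq_empty_or_nonempty with h | h
  · exact dc_nowalls hK hts hF T.gnr T.reg h hφ hr ho M hM hy hC hψ hr' ho'
  · rw [hod]
    exact dc_walls hK hO hts hF hIH T hφ ho M hM h hC hn hz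

theorem tt_zero (hK : FixedField Γ K) (hF : ∀ y, ∀ φ ∈ ir Ω (S.L y), ∀ g, Parker.Fx Γ (φ g))
    {φ : G → Ω} (hφ : φ ∈ ir Ω S.H) (M : QM K S.H) (hM : ∀ g : S.H, M.ch Ω g = φ g) {y : E}
    (hz : ¬ nz S y) {ψ : G → Ω} (hψ : ψ ∈ ir Ω (S.L y)) (hm : mt (S.L y) φ (S.e Ω y) ψ ≠ 0) :
    mt (S.L y) φ (S.e Ω y) ψ = 1 ∧ dcA c Γ M (S.e Ω y * cen (S.L y) ψ) = M.dc c Γ := by
  have hall : ∀ a ∈ S.R, inner ℝ a y = 0 := by
    intro a ha
    by_contra h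
    exact hz ⟨a, ha, h⟩
  have hL : S.L y = S.H := by
    rw [← S.s3]
    refine L_eqv S ⟨fun a ha h => ?_, fun a ha h => ?_⟩
    · rw [hall a ha] at h
      exact absurd h (lt_irrefl _)
    · rw [inner_zero_right] at h
      exact absurd h (lt_irrefl _)
  have he : S.e Ω y = 1 := e_zero hall
  have hFy := hF y
  rw [hL] at hψ hm hFy ⊢
  rw [he] at hm ⊢
  have h1 := mt_mul (H' := S.H) (_root_.le_refl S.H) hφ (one_mem (sb Ω S.H)) (one_mul 1)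
    (fun a _ => by rw [one_mul, mul_one]) hψ
  rw [one_mul] at h1
  have h2 := rk_cen hψ hφ (one_mem (sb Ω S.H)) (one_mul 1)
  rw [mul_one] at h2
  have hdg : 0 < Parker.dg ψ := (ir_one hψ).2
  have hφψ : φ = ψ := by
    by_contra hne
    rw [h2, if_neg hne] at h1
    rcases Nat.mul_eq_zero.1 h1 with h3 | h3
    · exact hm h3
    · omega
  rw [h2, if_pos hφψ, rk_one hψ] at h1
  have hmt : mt S.H φ 1 ψ = 1 := Nat.eq_of_mul_eq_mul_right hdg (by rw [h1, one_mul])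
  refine ⟨hmt, ?_⟩
  subst hφψ
  have hfc : FxA Γ (cen S.H φ) := fx_cen S.H (hFy φ hφ)
  have hcm : cen S.H φ ∈ sb Ω S.H := cen_mem φ hφ
  have hzero : oM M (1 - cen S.H φ) = 0 := by
    rw [oM_zero hK M (fx_sub fx_one hfc) ((sb Ω S.H).sub_mem (one_mem _) hcm)]
    intro χ hχ hχ0
    have h3 : χ = φ := by
      by_contra hne
      exact hχ0 ((mM_of (m := 1) hφ (fun g => by rw [hM g, Nat.cast_one, one_mul])).2 χ hχ hne)
    rw [h3, mul_sub, mul_one, cen_idem hφ, sub_self]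
  have h4 : oM M (1 * cen S.H φ) = oM M (1 : Al Ω G) := by
    have h5 := oM_add hK M hfc (fx_sub fx_one hfc)
    rw [add_sub_cancel, hzero, add_zero] at h5
    rw [one_mul, h5]
  rw [dcA_congr M h4, dcA_one hK]

/-- (12.3), property (ii) of `TT` -/
theorem tt_ii (hK : FixedField Γ K) (hO : Parker.Ok c 1 Γ) (hts : ∀ S' : LieSys G E, TS (Ω := Ω) S' c)
    (hF : ∀ y, ∀ φ ∈ ir Ω (S.L y), ∀ g, Parker.Fx Γ (φ g)) (hIH : ∀ y, nz S y → TT (lev S y) c Γ K) :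
    ∀ φ ∈ ir Ω S.H, rl φ → Odd (Parker.dg φ) → ∀ M : QM K S.H,
    (∀ g : S.H, M.ch Ω g = φ g) → ∀ y, ∀ ψ ∈ ir Ω (S.L y), rl ψ → Odd (Parker.dg ψ) →
      mt (S.L y) φ (S.e Ω y) ψ ≠ 0 →
        mt (S.L y) φ (S.e Ω y) ψ = 1 ∧ dcA c Γ M (S.e Ω y * cen (S.L y) ψ) = M.dc c Γ := by
  intro φ hφ hr ho M hM y ψ hψ hr' ho' hm
  by_cases hz : nz S y
  swap
  · exact tt_zero hK hF hφ M hM hz hψ hm
  obtain ⟨D0, hD0⟩ := exists_Ser hφ
  have hg0 : D0.gnr := by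
    by_contra h
    exact (Nat.not_even_iff_odd.2 ho) (even_of_not_gnr h hD0)
  obtain ⟨D, _, hfix, hg, hser⟩ := exists_fixD (Γ := Γ) D0 hg0 (hF D0.x)
  have hφD : φ ∈ D.Ser := by
    rw [hser]
    exact hD0
  obtain ⟨n0, hn0⟩ := ser_real hφD hr
  have hT : D.TaH := (hts S).ta D hg
  have hFH : ∀ χ ∈ ir Ω S.H, ∀ g, Parker.Fx Γ (χ g) := by
    have h8 := hF 0
    rw [S.s3] at h8
    exact h8
  obtain ⟨T⟩ := exists_TD hg hT (reg_refl S D.x) hn0 hfix hFH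
  obtain ⟨n, hn, hyX, hψ1⟩ := exists_NN_Ser hφD hψ hm
  obtain ⟨m, hmN, hC⟩ := exists_NN_chamber D (reg_refl S D.x) hyX
  have hψir1 : cjg n ψ ∈ ir Ω (S.L (S.ac n y)) := cjg_L hn (eqv_refl S _) hψ
  have hψir2 : cjg m (cjg n ψ) ∈ ir Ω (S.L (S.ac m (S.ac n y))) := cjg_L hmN.1 (eqv_refl S _) hψir1
  have hyX2 : S.ac m (S.ac n y) ∈ S.X D.x := hC.1
  have hψ2 : cjg m (cjg n ψ) ∈ (levD D (S.ac m (S.ac n y)) hyX2).Ser :=
    (NN_Ser hmN hyX hyX2 hψir1).2 hψ1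
  have hr1 : rl (cjg n ψ) := (rl_cjg n).2 hr'
  have hr2 : rl (cjg m (cjg n ψ)) := (rl_cjg m).2 hr1
  have hz2 : nz S (S.ac m (S.ac n y)) := by
    by_contra h
    have h1 : ∀ a ∈ S.R, inner ℝ a (S.ac m (S.ac n y)) = 0 := by
      intro a ha
      by_contra h2
      exact h ⟨a, ha, h2⟩
    rw [ac_zero_iff S hmN.1, ac_zero_iff S hn] at h1
    obtain ⟨a, ha, h2⟩ := hz
    exact h2 (h1 a ha)
  have h1 := tt_cham hK hO hts hF hIH T hφD hr ho M hM hyX2 hC hz2 hψ2 hr2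
    (by rw [cjg_dg, cjg_dg]; exact ho')
  rw [mt_ac hφ hmN.1 _ hψir1, mt_ac hφ hn _ hψ, dcA_ac hK M hmN.1 hψir1 hr1 (hF _ _ hψir1),
    dcA_ac hK M hn hψ hr' (hF _ _ hψ)] at h1
  exact h1

end

end LieP
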