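import Pool.Agent.LieP.Q18
import Pool.Agent.LieP.Q20
import Pool.Agent.LieP.K17
import Pool.Agent.LieP.R06
import Pool.Agent.LieP.Q12

/-!
# MP_6c3636_al, LieP, module R11: normalisation of the operator j (12.4) (helper96)

Section 12, (12.4). `hii` is property (ii) for `S` ((12.3), `tt_ii`). Let `φ₀` be the member of odd degree (`hts.tb`), real (`odd_real`), `M₀` the module of `exists_QM_odd` (Q20): character `φ₀`, class `1`. For `y`, `ψ` as in the statement `ψ` is real (`real_iff`), put `J = Jy D x y ⊆ sm D.Psi x`. `od_mt_one` (R06): `mt (L y) φ₀ (e y) ψ = 1`, so by `hii` `dcA M₀ (e y * cen ψ) = M₀.dc = 1`.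
The rank of `oM M₀ e_J` is `1` (`oM_rank`, `mM_of`, `rk_eJ_odd`; `fx_eJ`, `eJ_abs`). So with the `κ` of `exists_kappa` (Q18): `1 = dcB M₀ T.j e_J * κ`. Also `oM M₀ e_J = oM M₀ (D.f x)`: the difference is `oM M₀` of the idempotent `D.f x - e_J`, which has rank `0` on `φ₀` (`oM_zero_rk`; `oM_add`, `fx_sub`). So `κ = δ` with `δ = dcB M₀ T.j (D.f x)` (`δ δ = 1`, `dcB_sq`), independent of `y`.
`δ = cl (algebraMap K Ω r)`, `r` the Gram determinant of `bj M₀ T.j` on the range of `oM M₀ (D.f x)`, `r ≠ 0` (`ParkerGL.gram_ne`, `jj_nondeg`). `T' = T.smul` with `algebraMap K Ω r` (fixed: `hK`). For a module `M`: `dcA M (e y * cen ψ) = dcB M T.j e_J * δ ^ rank` and by `dcB_smul` (`jj_nondeg_J`, `Jy_mem_JJ`), `smul_j`: `dcB M T'.j e_J = δ ^ rank * dcB M T.j e_J`.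
-/

namespace LieP

noncomputable section

open Classical

open ParkerGL (QM Qg cl dcf FixedField)

variable {Ω : Type} [Field Ω] [IsAlgClosed Ω] [CharZero Ω] {c : Parker.Ctx Ω}
  {Γ : Subgroup (RingAut Ω)} {K : Type} [Field K] [CharZero K] [Algebra K Ω]
  {G E : Type} [Group G] [Finite G] [NormedAddCommGroup E] [InnerProductSpace ℝ E]
  [FiniteDimensional ℝ E] {S : LieSys G E}

/-- on the module of the member of odd degree `e_J` and `f` are the same operator, of rank one -/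
theorem r11_op (hK : FixedField Γ K) (hts : TS S c) {D : S.Cs Ω} {x : E} (T : TD D Γ x)
    {φ₀ : G → Ω} (hφ : φ₀ ∈ D.Ser) (ho : Odd (Parker.dg φ₀)) {M₀ : QM K S.H}
    (hm1 : mM M₀ φ₀ = 1) (hm0 : ∀ ψ ∈ ir Ω S.H, ψ ≠ φ₀ → mM M₀ ψ = 0) {J : Finset E}
    (hJ : J ⊆ sm D.Psi x) : oM M₀ (D.eJ x J) = oM M₀ (D.f x) ∧
      Module.finrank K (LinearMap.range (oM M₀ (D.eJ x J))) = 1 := by
  have hir : φ₀ ∈ ir Ω S.H := (Finset.mem_filter.1 hφ).1
  have hJP : J ⊆ D.Psi := fun a ha => (Finset.mem_filter.1 (Finset.mem_filter.1 (hJ ha)).1).1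
  obtain ⟨hmem, hid, hfe, hef⟩ := eJ_abs T.gnr T.reg hJP
  have hfm : D.f x ∈ sb Ω S.H := f_mem D x
  have hff : D.f x * D.f x = D.f x := f_idem D T.reg
  have hfxf : FxA Γ (D.f x) := fx_f T.fe x
  have hfxe : FxA Γ (D.eJ x J) := fx_eJ T.gnr T.ta T.fe T.fx T.reg hJ
  have hrk : rk φ₀ (D.eJ x J) = 1 := rk_eJ_odd hts T.gnr hφ ho T.reg hJ
  constructor
  · have hsm : D.f x - D.eJ x J ∈ sb Ω S.H := Subalgebra.sub_mem _ hfm hmem
    have hsi : (D.f x - D.eJ x J) * (D.f x - D.eJ x J) = D.f x - D.eJ x J := by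
      rw [sub_mul, mul_sub, mul_sub, hff, hfe, hef, hid]
      abel
    have hsum : D.eJ x J + (D.f x - D.eJ x J) = D.f x := by abel
    have h0 : oM M₀ (D.f x - D.eJ x J) = 0 := by
      rw [oM_zero_rk hK M₀ (fx_sub hfxf hfxe) hsm hsi]
      intro φ hφi hne
      have hφ0 : φ = φ₀ := by
        by_contra h
        exact hne (hm0 φ hφi h)
      subst hφ0
      have h1 : rk φ (D.f x) = 1 := by
        rw [← eJ_empty T.gnr T.ta T.reg (hts.tc D T.gnr x T.reg)]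
        exact rk_eJ_odd hts T.gnr hφ ho T.reg (Finset.empty_subset _)
      have h2 := rk_add hir hmem hid hsm hsi
        (by rw [mul_sub, hef, hid, sub_self]) (by rw [sub_mul, hfe, hid, sub_self])
      rw [hsum, h1, hrk] at h2
      omega
    have h3 := oM_add hK M₀ hfxe (fx_sub hfxf hfxe)
    rw [hsum, h0, add_zero] at h3
    exact h3.symm
  · rw [oM_rank hK M₀ hfxe hmem hid, Finset.sum_eq_single_of_mem φ₀ hir, hm1, hrk]
    intro ψ hψ hne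
    rw [hm0 ψ hψ hne, zero_mul]

theorem exists_norm (hK : FixedField Γ K) (hts : ∀ S' : LieSys G E, TS (Ω := Ω) S' c)
    (hF : ∀ y, ∀ φ ∈ ir Ω (S.L y), ∀ g, Parker.Fx Γ (φ g))
    (hFH : ∀ φ ∈ ir Ω S.H, ∀ g, Parker.Fx Γ (φ g))
    (hii : ∀ φ ∈ ir Ω S.H, rl φ → Odd (Parker.dg φ) → ∀ M : QM K S.H,
      (∀ g : S.H, M.ch Ω g = φ g) → ∀ y, ∀ ψ ∈ ir Ω (S.L y), rl ψ → Odd (Parker.dg ψ) →
        mt (S.L y) φ (S.e Ω y) ψ ≠ 0 → mt (S.L y) φ (S.e Ω y) ψ = 1 ∧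
          dcA c Γ M (S.e Ω y * cen (S.L y) ψ) = M.dc c Γ)
    {D : S.Cs Ω} {x : E} (T : TD D Γ x) :
    ∃ T' : TD D Γ x, T'.n = T.n ∧ ∀ y (hy : y ∈ S.X D.x), y ∈ Cc D x → S.ac T.n y = y →
      nz S y → ∀ ψ ∈ (levD D y hy).Ser, Odd (Parker.dg ψ) → ∀ M : QM K S.H,
        dcA c Γ M (S.e Ω y * cen (S.L y) ψ) = dcB c Γ M T'.j (D.eJ x (Jy D x y)) := by
  obtain ⟨φ₀, hφ, ho, -, -⟩ := (hts S).tb D T.gnr
  have hir : φ₀ ∈ ir Ω S.H := (Finset.mem_filter.1 hφ).1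
  have hrl : rl φ₀ := odd_real (hts S) T.gnr T.mem hφ ho
  obtain ⟨M₀, hM₀, hdc⟩ := exists_QM_odd (c := c) hK (hts S) T.gnr T.fe hFH hφ ho hrl
  obtain ⟨hm1, hm0⟩ := mM_of (M := M₀) hir (m := 1)
    (fun g => by rw [hM₀ g, Nat.cast_one, one_mul])
  have hnd := jj_nondeg T hK M₀
  let W₀ := LinearMap.range (oM M₀ (D.f x))
  let r : K := (LinearMap.BilinForm.toMatrix (Module.finBasis K W₀) ((bj M₀ T.j).restrict W₀)).det
  have hr0 : r ≠ 0 := ParkerGL.gram_ne _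
    (fun v hv => Subtype.ext (hnd v v.2 (fun w hw => hv ⟨w, hw⟩)))
  have hrΩ : algebraMap K Ω r ≠ 0 := ParkerGL.D01_aux.am_ne hr0
  have hfr : Parker.Fx Γ (algebraMap K Ω r) := ParkerGL.D01_aux.fx hK r
  have hδ : dcB c Γ M₀ T.j (D.f x) = cl c Γ (algebraMap K Ω r) := rfl
  refine ⟨T.smul hrΩ hfr, rfl, ?_⟩
  intro y hy hC hny hz ψ hψ hoψ M
  have hJ : Jy D x y ⊆ sm D.Psi x := Finset.filter_subset _ _
  obtain ⟨κ, hκκ, hκ⟩ := exists_kappa hK T hy hC hny (hts (lev S y)) (hF y) hψ hoψ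
  obtain ⟨hop, hrank⟩ := r11_op hK (hts S) T hφ ho hm1 hm0 hJ
  have hψi : ψ ∈ ir Ω (S.L y) := (Finset.mem_filter.1 hψ).1
  have hψr : rl ψ := (real_iff T hy hC (hts (lev S y)) hψ hoψ).2 hny
  have hmt : mt (S.L y) φ₀ (S.e Ω y) ψ = 1 :=
    od_mt_one (hts S) T.gnr hφ ho (hts (lev S y)) hy hψ hoψ
  have h1 : dcA c Γ M₀ (S.e Ω y * cen (S.L y) ψ) = 1 := by
    rw [(hii φ₀ hir hrl ho M₀ hM₀ y ψ hψi hψr hoψ (by rw [hmt]; exact one_ne_zero)).2, hdc]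
  have h2 := hκ M₀
  rw [h1, hrank, pow_one, dcB_congr M₀ hop, hδ] at h2
  have hκδ : cl c Γ (algebraMap K Ω r) = κ := ParkerGL.D01_aux.q_eq h2.symm hκκ
  rw [hκ M, ← hκδ, smul_j T hrΩ hfr, dcB_smul hK M (fx_jj T) hr0
    (jj_nondeg_J T hK M (Jy_mem_JJ T hy hny))]
  exact mul_comm (G := Qg c Γ) _ _

end

end LieP
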