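import Pool.Agent.LieP.R11
import Pool.Agent.LieP.R03
import Pool.Agent.LieP.R04
import Pool.Agent.LieP.R05
import Pool.Agent.LieP.R06
import Pool.Agent.LieP.Q12

/-!
# MP_6c3636_al, LieP, module R12: generic series, even members (12.5)(b) (helper96)

Section 12, (12.5)(b). `T'` the normalised data of `exists_norm` (R11). `Y` from `exists_TV` (K05), `z` generic, `l` regular (`exists_gn`, `exists_Rg`). `dc_orbits` (R03) gives `M.dc` as a product. (1) `dcA M (el (U z) l) = 1`: for a constituent `φ` of `M` `rk φ (el) = S.gen φ = 0` (`gen_eq`; `star_eq`: otherwise `φ = D.star`), so `oM M (el) = 0` (`oM_zero_rk`, `fx_el`), `dcA_zero`.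
(2) for `y ∈ Y`, `nz S y`: `od D y` is a member of odd degree of `(levD D y hy).Ser` (`od_spec`, `sr_eq`), so `rl (od D y)` iff `S.ac T'.n y = y` (`real_iff`), and then the factor is `dcB M T'.j (D.eJ x (Jy D x y))`. (3) `prod_tau` (R04, with `TV_face` of R06) for `f J = dcB c Γ M T'.j (D.eJ x J)` (`dcB_sq`): the product is `(∏ J ∈ T'.JJ, f J) * f (sm D.Psi x)`.
(4) `prod_dcB` (R05): the first factor is `1`. (5) the second is `1` by `dcB_zero`: `rk φ (e_S) = 0` for `φ` of even degree (`rk_eS`), `oM_zero_rk` (`fx_eJ`).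
-/

namespace LieP

noncomputable section

open Classical

open ParkerGL (QM Qg cl dcf FixedField)

variable {Ω : Type} [Field Ω] [IsAlgClosed Ω] [CharZero Ω] {c : Parker.Ctx Ω}
  {Γ : Subgroup (RingAut Ω)} {K : Type} [Field K] [CharZero K] [Algebra K Ω]
  {G E : Type} [Group G] [Finite G] [NormedAddCommGroup E] [InnerProductSpace ℝ E]
  [FiniteDimensional ℝ E] {S : LieSys G E}

theorem dc_series (hK : FixedField Γ K) (hO : Parker.Ok c 1 Γ) (h2 : c.av 2 < 1)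
    (hts : ∀ S' : LieSys G E, TS (Ω := Ω) S' c)
    (hF : ∀ y, ∀ φ ∈ ir Ω (S.L y), ∀ g, Parker.Fx Γ (φ g))
    (hFH : ∀ φ ∈ ir Ω S.H, ∀ g, Parker.Fx Γ (φ g))
    (hIH : ∀ y, nz S y → TT (lev S y) c Γ K)
    (hii : ∀ φ ∈ ir Ω S.H, rl φ → Odd (Parker.dg φ) → ∀ M : QM K S.H,
      (∀ g : S.H, M.ch Ω g = φ g) → ∀ y, ∀ ψ ∈ ir Ω (S.L y), rl ψ → Odd (Parker.dg ψ) →
        mt (S.L y) φ (S.e Ω y) ψ ≠ 0 → mt (S.L y) φ (S.e Ω y) ψ = 1 ∧
          dcA c Γ M (S.e Ω y * cen (S.L y) ψ) = M.dc c Γ)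
    {N : ℕ} {ζ : Ω} (hζ : IsPrimitiveRoot ζ (2 ^ N - 1)) (hζf : Parker.Fx Γ ζ)
    (hN : Module.finrank ℝ E < N) {D : S.Cs Ω} {x : E} (T : TD D Γ x) (M : QM K S.H)
    (hM : ∀ φ ∈ ir Ω S.H, mM M φ ≠ 0 → φ ∈ D.Ser ∧ φ ≠ D.star ∧ Even (Parker.dg φ)) :
    M.dc c Γ = 1 := by
  obtain ⟨T', hn', hnorm⟩ := exists_norm (c := c) hK hts hF hFH hii T
  obtain ⟨Y, hY, hYC⟩ := exists_TV D T.reg
  obtain ⟨z, hz⟩ := exists_gn S
  obtain ⟨l, -, hl⟩ := exists_Rg S hz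
  have hMs : ∀ φ ∈ ir Ω S.H, mM M φ ≠ 0 → φ ∈ D.Ser := fun φ h1 h2 => (hM φ h1 h2).1
  have hsub : sm D.Psi x ⊆ D.Psi := fun a ha => (Finset.mem_filter.1 (Finset.mem_filter.1 ha).1).1
  have hc := (hts S).tc D T.gnr x T.reg
  have h1 := dc_orbits (c := c) (Γ := Γ) hK hO hts hF hIH T.gnr hY M hMs hz hl
  have e1 : dcA c Γ M (el Ω (S.U z) l) = 1 := by
    refine dcA_zero M ((oM_zero_rk hK M (fx_el _ _) (el_mem (S.UH z) l) (el_idem hl.1)).2 ?_)
    intro φ hφ hm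
    rw [← gen_eq S hz hl hφ]
    by_contra hne
    exact (hM φ hφ hm).2.1 (LieSys.Cs.star_eq D T.gnr (hMs φ hφ hm) hne).symm
  have hIH' : ∀ y, (∃ a ∈ S.R, inner ℝ a y ≠ 0) → TS (Ω := Ω) (lev S y) c := fun y _ => hts _
  have e2 : Y.filter (fun y => nz S y ∧ rl (od D y)) =
      Y.filter (fun y => nz S y ∧ S.ac T'.n y = y) := by
    refine Finset.filter_congr fun y hy => ?_
    refine and_congr_right fun hz' => ?_
    have hyX := hY.mem y hy
    have hod := od_spec hIH' T.gnr hyX hz'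
    exact real_iff T' hyX (hYC y hy) (hts _) (by rw [← sr_eq]; exact hod.1) hod.2.1
  have e3 : ∏ y ∈ Y.filter (fun y => nz S y ∧ S.ac T'.n y = y),
      dcA c Γ M (S.e Ω y * cen (S.L y) (od D y)) =
      ∏ y ∈ Y.filter (fun y => nz S y ∧ S.ac T'.n y = y),
        (fun J => dcB c Γ M T'.j (D.eJ x J)) (Jy D x y) := by
    refine Finset.prod_congr rfl fun y hy => ?_
    obtain ⟨hyY, hz', hn⟩ := Finset.mem_filter.1 hy
    have hyX := hY.mem y hyY
    have hod := od_spec hIH' T.gnr hyX hz'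
    exact hnorm y hyX (hYC y hyY) (by rw [← hn']; exact hn) hz' _ (by rw [← sr_eq]; exact hod.1) hod.2.1 M
  have e4 := prod_tau T' hYC (TV_face T.ta T.reg hY hYC)
    (fun J => dcB c Γ M T'.j (D.eJ x J)) (fun J => dcB_sq hK M _ _)
  have e5 := prod_dcB hK h2 (hts S) T' M (fun φ h1 h2 => ⟨(hM φ h1 h2).1, (hM φ h1 h2).2.1⟩) hζ hζf hN
  have e6 : dcB c Γ M T'.j (D.eJ x (sm D.Psi x)) = 1 := by
    refine dcB_zero M ((oM_zero_rk hK M (fx_eJ T.gnr T.ta T.fe hFH T.reg (Finset.Subset.refl _))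
      (eJ_abs T.gnr T.reg hsub).1
      (eJ_mul T.gnr T.ta T.reg hc (Finset.Subset.refl _) (Finset.Subset.refl _)).1).2 ?_)
    intro φ hφ hm
    obtain ⟨φ₀, h0, ho, -, -⟩ := (hts S).tb D T.gnr
    refine (rk_eS (hts S) T.gnr T.reg h0 ho).2.2 φ hφ ?_
    rintro rfl
    exact (Nat.not_odd_iff_even.2 (hM φ hφ hm).2.2) ho
  have e7 : ∏ y ∈ Y.filter (fun y => nz S y ∧ rl (od D y)),
      dcA c Γ M (S.e Ω y * cen (S.L y) (od D y)) = 1 := by
    rw [e2, e3, e4, e5]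
    exact (one_mul _).trans e6
  rw [h1, e1, e7]
  exact one_mul (1 : Qg c Γ)

end

end LieP
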