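import Pool.Agent.LieP.R01
import Pool.Agent.LieP.K04
import Pool.Agent.LieP.Q05

/-!
# MP_6c3636_al, LieP, module R13: series which are not generic (12.5)(a); uniqueness of the class (helper96)

Section 12, (12.5)(a). `dc_not_gnr`: `z` generic (`exists_gn`), `dcA_e` (R01) for `y = 0` (`zero_le`), `e_zero`, `dcA_one`: `M.dc = ∏_l dcA M (el (U z) l)`; every factor is `1`: `rk φ (el) = 0` for all constituents (`rk_el_zero`, K04), `oM_zero_rk`, `fx_el`, `dcA_zero`.
`dc_unique`: `ParkerGL.exists_generic` (D11) for the group `H` gives a rational skew `s` with `detc χ s ≠ 0` for `χ = fun h : H => φ h` (even degree; `χ ∈ Parker.irr Ω H` by `ir_iff`), `ParkerGL.dc_formula` (D02): `M.dc = cl (detc χ s) ^ m` (the other multiplicities are `0`), and `cl (detc χ s)` has order two (`detc_fixed`, `cl_sq`), `m` is odd. The same for `M'`.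
-/

namespace LieP

noncomputable section

open Classical

open ParkerGL (QM Qg cl dcf FixedField)

variable {Ω : Type} [Field Ω] [IsAlgClosed Ω] [CharZero Ω] {c : Parker.Ctx Ω}
  {Γ : Subgroup (RingAut Ω)} {K : Type} [Field K] [CharZero K] [Algebra K Ω]
  {G E : Type} [Group G] [Finite G] [NormedAddCommGroup E] [InnerProductSpace ℝ E]
  [FiniteDimensional ℝ E] {S : LieSys G E}

theorem dc_not_gnr (hK : FixedField Γ K) (hO : Parker.Ok c 1 Γ) {D : S.Cs Ω} (hD : ¬ D.gnr)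
    (M : QM K S.H) (hM : ∀ φ ∈ ir Ω S.H, mM M φ ≠ 0 → φ ∈ D.Ser) : M.dc c Γ = 1 := by
  obtain ⟨z, hz⟩ := exists_gn S
  have h := dcA_e (c := c) hK hO M hz (zero_le S z)
  rw [e_zero (fun a _ => inner_zero_right a), dcA_one hK] at h
  rw [h]
  refine Finset.prod_eq_one fun l hl => ?_
  have hlin : Lin (S.U z) l := (mem_lins.1 (Finset.mem_filter.1 hl).1).1
  refine dcA_zero M ((oM_zero_rk hK M (fx_el _ _) (el_mem (S.UH z) l) (el_idem hlin)).2 ?_)
  intro φ hφ hm
  exact rk_el_zero hD (hM φ hφ hm) hz hlin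

namespace R13_aux

theorem res_irr {H : Subgroup G} {φ : G → Ω} (hφ : φ ∈ ir Ω H) :
    (fun h : H => φ h) ∈ Parker.irr Ω H := by
  obtain ⟨ψ, hψ, rfl⟩ := ir_iff.1 hφ
  have h : (fun h : H => xt H ψ h) = ψ := by
    funext h
    exact xt_apply ψ h.2
  rw [h]
  exact hψ

theorem pow_odd {A : Type*} [Monoid A] {x : A} (hx : x * x = 1) {n : ℕ} (hn : Odd n) :
    x ^ n = x := by
  obtain ⟨k, rfl⟩ := hn
  rw [pow_succ, pow_mul, pow_two, hx, one_pow, one_mul]

theorem dc_eq (hK : FixedField Γ K) {H : Subgroup G} {φ : G → Ω} (hφ : φ ∈ ir Ω H)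
    (hf : ∀ g, Parker.Fx Γ (φ g)) {s : H → ℚ} (hs : ∀ g, s g⁻¹ = - s g)
    (hd : Parker.detc (fun h : H => φ h) (fun g => (s g : Ω)) ≠ 0) {M : QM K H} {m : ℕ}
    (hm : Odd m) (h : ∀ g : H, M.ch Ω g = m * φ g) :
    M.dc c Γ = cl c Γ (Parker.detc (fun h : H => φ h) (fun g => (s g : Ω))) := by
  obtain ⟨h1, h2⟩ := mM_of hφ h
  have h3 : ∀ χ ∈ Parker.irr Ω H, χ ≠ (fun h : H => φ h) → Parker.mul (M.ch Ω) χ = 0 := by
    intro χ hχ hne
    have h4 := h2 (xt H χ) (ir_iff.2 ⟨χ, hχ, rfl⟩) (by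
      rintro rfl
      apply hne
      funext g
      exact (xt_apply χ g.2).symm)
    have h5 : (fun h : H => xt H χ h) = χ := by
      funext g
      exact xt_apply χ g.2
    unfold mM at h4
    rwa [h5] at h4
  have hdd : ∀ χ ∈ Parker.irr Ω H, Parker.mul (M.ch Ω) χ ≠ 0 →
      Parker.detc χ (fun g => (s g : Ω)) ≠ 0 := by
    intro χ hχ hmul
    have h4 : χ = (fun h : H => φ h) := by
      by_contra hne
      exact hmul (h3 χ hχ hne)
    rw [h4]
    exact hd
  have hsq : cl c Γ (Parker.detc (fun h : H => φ h) (fun g => (s g : Ω))) *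
      cl c Γ (Parker.detc (fun h : H => φ h) (fun g => (s g : Ω))) = 1 :=
    ParkerGL.cl_sq (ParkerGL.detc_fixed (res_irr hφ) (fun g => hf g) s)
  rw [ParkerGL.dc_formula hK M hs hdd, Finset.prod_eq_single (fun h : H => φ h)]
  · have h6 : Parker.mul (M.ch Ω) (fun h : H => φ h) = m := h1
    rw [h6]
    exact pow_odd hsq hm
  · intro χ hχ hne
    rw [h3 χ hχ hne, pow_zero]
  · intro hn
    exact absurd (res_irr hφ) hn

end R13_aux

theorem dc_unique (hK : FixedField Γ K) {H : Subgroup G} {φ : G → Ω} (hφ : φ ∈ ir Ω H)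
    (he : Even (Parker.dg φ)) (hf : ∀ g, Parker.Fx Γ (φ g)) {M M' : QM K H} {m m' : ℕ}
    (hm : Odd m) (hm' : Odd m') (h : ∀ g : H, M.ch Ω g = m * φ g)
    (h' : ∀ g : H, M'.ch Ω g = m' * φ g) : M.dc c Γ = M'.dc c Γ := by
  obtain ⟨s, hs, hd⟩ := ParkerGL.exists_generic Ω H
  have h1 := hd (fun h : H => φ h) (R13_aux.res_irr hφ) (fun h2 => by
    have h3 : Parker.dg (fun h : H => φ h) = Parker.dg φ := rfl
    rw [h3] at h2
    exact (Nat.not_odd_iff_even.2 he) h2.2)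
  rw [R13_aux.dc_eq hK hφ hf hs h1 hm h, R13_aux.dc_eq hK hφ hf hs h1 hm' h']

end

end LieP
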