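import Pool.Agent.LieP.Defs4
import Pool.Agent.LieP.G04
import Pool.Agent.LieP.Q02
import Pool.Agent.ParkerGL.D04

/-!
# MP_6c3636_al, LieP, module R14: the module induced from a parabolic subgroup (helper96)

Section 12, (12.5)(c). `lpr` is the projection `P w → L w` (kernel `U w`), `indL S Q` the module of `S.H` induced (`ParkerGL.D04` `QM.ind`) from the inflation `inflL S Q` of the module `Q` of `S.L w`, `ioL` the embedding of `Q`. `ioL_L`, `ioL_U`, `ioL_B`, `ioL_orth`, `indL_dc`: `QM.iota_comm`, `QM.iota_B`, `QM.iota_orth`, `QM.ind_dc` (`lpr_apply`; the index of `PH S w` is `(S.P w).relIndex S.H`, `Subgroup.relIndex`).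
`ioL_oM`: linear combination of `ioL_L` (`oM`, `op`: the sum over the support of `dn K a`, which is in `L w` by `dn_mem`). `ioL_e`: the same with `ioL_U`: the coefficients of `S.e Ω w` have the sum `1`.
-/

namespace LieP

noncomputable section

open Classical

open ParkerGL (QM Qg cl dcf FixedField)

variable {Ω : Type} [Field Ω] [IsAlgClosed Ω] [CharZero Ω] {c : Parker.Ctx Ω}
  {Γ : Subgroup (RingAut Ω)} {K : Type} [Field K] [CharZero K] [Algebra K Ω]
  {G E : Type} [Group G] [Finite G] [NormedAddCommGroup E] [InnerProductSpace ℝ E]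
  [FiniteDimensional ℝ E] {S : LieSys G E}

theorem lpr_ex (S : LieSys G E) {w : E} {g : G} (hg : g ∈ S.P w) :
    ∃ l, l ∈ S.L w ∧ ∃ u ∈ S.U w, g = l * u := by
  obtain ⟨l, hl, u, hu, h⟩ := (mem_P S).1 hg
  exact ⟨l, hl, u, hu, h⟩

theorem lpr_unique (S : LieSys G E) {w : E} {l u l' u' : G} (hl : l ∈ S.L w) (hu : u ∈ S.U w)
    (hl' : l' ∈ S.L w) (hu' : u' ∈ S.U w) (h : l * u = l' * u') : l = l' := by
  have h1 : l * u * l⁻¹ * l = l' * u' * l'⁻¹ * l' := by
    rw [inv_mul_cancel_right, inv_mul_cancel_right, h]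
  exact (P_unique S (S.s4 w l hl u hu) hl (S.s4 w l' hl' u' hu') hl' h1).2

/-- the projection of the parabolic subgroup to the Levi subgroup -/
def lpr (S : LieSys G E) (w : E) : S.P w →* S.L w where
  toFun g := ⟨(lpr_ex S g.2).choose, (lpr_ex S g.2).choose_spec.1⟩
  map_one' := by
    apply Subtype.ext
    obtain ⟨u, hu, h⟩ := (lpr_ex S (1 : S.P w).2).choose_spec.2
    refine lpr_unique S (lpr_ex S (1 : S.P w).2).choose_spec.1 hu (S.L w).one_mem (S.U w).one_mem ?_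
    rw [← h, mul_one]
    rfl
  map_mul' := by
    intro g g'
    apply Subtype.ext
    obtain ⟨u, hu, h⟩ := (lpr_ex S g.2).choose_spec.2
    obtain ⟨u', hu', h'⟩ := (lpr_ex S g'.2).choose_spec.2
    obtain ⟨u'', hu'', h''⟩ := (lpr_ex S (g * g').2).choose_spec.2
    have hl := (lpr_ex S g.2).choose_spec.1
    have hl' := (lpr_ex S g'.2).choose_spec.1
    have hc : (lpr_ex S g'.2).choose⁻¹ * u * (lpr_ex S g'.2).choose * u' ∈ S.U w := by
      have h1 := S.s4 w _ ((S.L w).inv_mem hl') u hu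
      rw [inv_inv] at h1
      exact (S.U w).mul_mem h1 hu'
    refine lpr_unique S (lpr_ex S (g * g').2).choose_spec.1 hu'' ((S.L w).mul_mem hl hl') hc ?_
    rw [← h'']
    show (g : G) * (g' : G) = (lpr_ex S g.2).choose * (lpr_ex S g'.2).choose *
      ((lpr_ex S g'.2).choose⁻¹ * u * (lpr_ex S g'.2).choose * u')
    conv_lhs => rw [h, h']
    group

theorem lpr_apply (S : LieSys G E) {w : E} {l u : G} (hl : l ∈ S.L w) (hu : u ∈ S.U w)
    (h : l * u ∈ S.P w) : lpr S w ⟨l * u, h⟩ = ⟨l, hl⟩ := by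
  apply Subtype.ext
  obtain ⟨u', hu', h'⟩ := (lpr_ex S h).choose_spec.2
  exact lpr_unique S (lpr_ex S h).choose_spec.1 hu' hl hu h'.symm

theorem lpr_L (S : LieSys G E) {w : E} {l : G} (hl : l ∈ S.L w) (h : l ∈ S.P w) :
    lpr S w ⟨l, h⟩ = ⟨l, hl⟩ := by
  have h1 : l * 1 ∈ S.P w := by rwa [mul_one]
  have h2 := lpr_apply S hl (S.U w).one_mem h1
  have h3 : (⟨l * 1, h1⟩ : S.P w) = ⟨l, h⟩ := Subtype.ext (mul_one l)
  rwa [h3] at h2

theorem lpr_U (S : LieSys G E) {w : E} {u : G} (hu : u ∈ S.U w) (h : u ∈ S.P w) :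
    lpr S w ⟨u, h⟩ = 1 := by
  have h1 : 1 * u ∈ S.P w := by rwa [one_mul]
  have h2 := lpr_apply S (S.L w).one_mem hu h1
  have h3 : (⟨1 * u, h1⟩ : S.P w) = ⟨u, h⟩ := Subtype.ext (one_mul u)
  rw [h3] at h2
  rw [h2]
  rfl

/-- the parabolic subgroup, as a subgroup of `S.H` -/
abbrev PH (S : LieSys G E) (w : E) : Subgroup S.H := (S.P w).subgroupOf S.H

/-- the inflation of `Q` -/
def inflL (S : LieSys G E) {w : E} (Q : QM K (S.L w)) : QM K (PH S w) :=
  Q.pb ((lpr S w).comp (Subgroup.subgroupOfEquivOfLe (P_le_H S w)).toMonoidHom)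

/-- the induced module -/
def indL (S : LieSys G E) {w : E} (Q : QM K (S.L w)) : QM K S.H := (inflL S Q).ind

/-- the embedding of `Q` -/
def ioL (S : LieSys G E) {w : E} (Q : QM K (S.L w)) : Q.X →ₗ[K] (indL S Q).X := (inflL S Q).iota

theorem ioL_L {w : E} (Q : QM K (S.L w)) {l : G} (hl : l ∈ S.L w) (v : Q.X) :
    (indL S Q).ρ ⟨l, S.LH w hl⟩ (ioL S Q v) = ioL S Q (Q.ρ ⟨l, hl⟩ v) := by
  have h := (inflL S Q).iota_comm ⟨⟨l, S.LH w hl⟩, L_le_P S w hl⟩ v
  have h2 : (inflL S Q).ρ ⟨⟨l, S.LH w hl⟩, L_le_P S w hl⟩ v =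
      Q.ρ (lpr S w ⟨l, L_le_P S w hl⟩) v := rfl
  rw [h2, lpr_L S hl] at h
  exact h

theorem ioL_U {w : E} (Q : QM K (S.L w)) {u : G} (hu : u ∈ S.U w) (v : Q.X) :
    (indL S Q).ρ ⟨u, S.UH w hu⟩ (ioL S Q v) = ioL S Q v := by
  have h := (inflL S Q).iota_comm ⟨⟨u, S.UH w hu⟩, U_le_P S w hu⟩ v
  have h2 : (inflL S Q).ρ ⟨⟨u, S.UH w hu⟩, U_le_P S w hu⟩ v =
      Q.ρ (lpr S w ⟨u, U_le_P S w hu⟩) v := rfl
  rw [h2, lpr_U S hu, map_one] at h
  exact h

theorem ioL_B {w : E} (Q : QM K (S.L w)) (v v' : Q.X) :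
    (indL S Q).B (ioL S Q v) (ioL S Q v') = Q.B v v' := by
  exact (inflL S Q).iota_B v v'

theorem ioL_orth {w : E} (Q : QM K (S.L w)) {g : S.H} (hg : (g : G) ∉ S.P w) (v v' : Q.X) :
    (indL S Q).B ((indL S Q).ρ g (ioL S Q v)) (ioL S Q v') = 0 := by
  exact (inflL S Q).iota_orth (g := g) (fun h => hg h) v v'

theorem indL_dc (hK : FixedField Γ K) {w : E} (Q : QM K (S.L w)) :
    (indL S Q).dc c Γ = Q.dc c Γ ^ ((S.P w).relIndex S.H) := by
  exact QM.ind_dc hK (inflL S Q)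

theorem ioL_oM (hK : FixedField Γ K) {w : E} (Q : QM K (S.L w)) {a : Al Ω G} (ha : FxA Γ a)
    (ha' : a ∈ sb Ω (S.L w)) (v : Q.X) : oM (indL S Q) a (ioL S Q v) = ioL S Q (oM Q a v) := by
  have key : ∀ b ∈ sb K (S.L w), op (indL S Q).ρ b (ioL S Q v) = ioL S Q (op Q.ρ b v) := by
    intro b hb
    refine sb_induction (p := fun b => op (indL S Q).ρ b (ioL S Q v) = ioL S Q (op Q.ρ b v))
      ?_ ?_ ?_ hb
    · simp only [map_zero, LinearMap.zero_apply]
    · intro a b ha hb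
      simp only [map_add, LinearMap.add_apply]
      rw [ha, hb]
    · intro r g hg
      simp only [map_smul, LinearMap.smul_apply]
      rw [op_dl _ hg, op_dl _ (S.LH w hg), ioL_L Q hg]
  exact key _ (dn_mem hK ha ha')

theorem ioL_e (hK : FixedField Γ K) {w : E} (Q : QM K (S.L w)) (v : Q.X) :
    oM (indL S Q) (S.e Ω w) (ioL S Q v) = ioL S Q v := by
  have key : ∀ b ∈ sb K (S.U w), op (indL S Q).ρ b (ioL S Q v) =
      tr (fun _ : G => (1 : K)) b • ioL S Q v := by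
    intro b hb
    refine sb_induction (p := fun b => op (indL S Q).ρ b (ioL S Q v) =
      tr (fun _ : G => (1 : K)) b • ioL S Q v) ?_ ?_ ?_ hb
    · simp only [map_zero, LinearMap.zero_apply, zero_smul]
    · intro a b ha hb
      simp only [map_add, LinearMap.add_apply, add_smul]
      rw [ha, hb]
    · intro r g hg
      simp only [map_smul, LinearMap.smul_apply, smul_eq_mul, mul_smul]
      rw [op_dl _ (S.UH w hg), ioL_U Q hg, tr_dl, one_smul]
  have hfe : FxA Γ (S.e Ω w) := fx_av _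
  have hdn : dn K (S.e Ω w) = av K (S.U w) := by
    apply al_ext
    intro g
    apply (algebraMap K Ω).injective
    rw [dn_coeff hK hfe, coeff_av]
    show (av Ω (S.U w)).coeff g = _
    rw [coeff_av]
    split_ifs
    · rw [map_inv₀, map_natCast]
    · rw [map_zero]
  have h1 : tr (fun _ : G => (1 : K)) (av K (S.U w)) = 1 := by
    letI := Fintype.ofFinite G
    rw [tr_fin]
    have h2 : ∀ x : G, (av K (S.U w)).coeff x * (1 : K) =
        if x ∈ S.U w then (Nat.card (S.U w) : K)⁻¹ else 0 := by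
      intro x
      rw [mul_one, coeff_av]
    rw [Finset.sum_congr rfl fun x _ => h2 x, ← Finset.sum_filter, Finset.sum_const, nsmul_eq_mul]
    have h3 : (Finset.univ.filter (fun g : G => g ∈ S.U w)).card = Nat.card (S.U w) := by
      haveI := Fintype.ofFinite (S.U w)
      rw [Nat.card_eq_fintype_card]
      exact (Fintype.card_of_subtype _ (fun x => by simp)).symm
    rw [h3]
    exact mul_inv_cancel₀ (Nat.cast_ne_zero.2 Nat.card_pos.ne')
  show op (indL S Q).ρ (dn K (S.e Ω w)) (ioL S Q v) = ioL S Q v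
  rw [hdn, key _ (av_mem le_rfl), h1, one_smul]

end

end LieP
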