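import Pool.Agent.LieP.R14
import Pool.Agent.LieP.A09
import Pool.Agent.LieP.Q04
import Pool.Agent.LieP.R01

/-!
# MP_6c3636_al, LieP, module R15: multiplicities in the induced module (helper96)

Section 12, (12.5)(c). `indL_mM`: Frobenius reciprocity (`ParkerGL.QM.ind_ip`): `ip ((indL S Q).ch) φ = ip ((inflL S Q).ch) φ|P = |P|⁻¹ ∑_{l ∈ L, u ∈ U} Q.ch l * φ ((l u)⁻¹)` (`mem_P`, `P_unique`, `card_P`) `= |L|⁻¹ ∑_l Q.ch l * tr φ (S.e Ω w * dl l⁻¹)`, then `tr_mt` and `|L|⁻¹ ∑_l Q.ch l * ψ l⁻¹ = ip (Q.ch) ψ = mM Q ψ`.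
-/

namespace LieP

noncomputable section

set_option linter.unusedSectionVars false

open Classical

open ParkerGL (QM Qg cl dcf FixedField)

variable {Ω : Type} [Field Ω] [IsAlgClosed Ω] [CharZero Ω] {c : Parker.Ctx Ω}
  {Γ : Subgroup (RingAut Ω)} {K : Type} [Field K] [CharZero K] [Algebra K Ω]
  {G E : Type} [Group G] [Finite G] [NormedAddCommGroup E] [InnerProductSpace ℝ E]
  [FiniteDimensional ℝ E] {S : LieSys G E}

theorem tr_mt {H H' : Subgroup G} {e : Al Ω G} (h : CutH Γ H H' e) {φ : G → Ω} (hφ : φ ∈ ir Ω H)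
    {x : G} (hx : x ∈ H') :
    tr φ (e * dl x) = ∑ ψ ∈ ir Ω H', (mt H' φ e ψ : Ω) * ψ x := by
  rw [← h.comm x hx]
  have h1 := Q04_aux.tr_mt h hφ ⟨x, hx⟩
  have h2 : tr φ (dl x * e) = ∑ ψ ∈ Parker.irr Ω H', (mt H' φ e (xt H' ψ) : Ω) * ψ ⟨x, hx⟩ := h1
  rw [h2]
  unfold ir
  rw [Finset.sum_image (fun a _ b _ hab => xt_injective hab)]
  refine Finset.sum_congr rfl fun ψ _ => ?_
  rw [xt_apply ψ hx]

namespace R15_aux

theorem tr_av (φ : G → Ω) (U : Subgroup G) [Fintype U] (g : G) :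
    tr φ (av Ω U * dl g) = (Nat.card U : Ω)⁻¹ * ∑ u : U, φ ((u : G) * g) := by
  letI := Fintype.ofFinite G
  rw [tr_fin, ← Equiv.sum_comp (Equiv.mulRight g) (fun x => (av Ω U * dl g : Al Ω G).coeff x * φ x)]
  have h1 : ∀ y : G, (av Ω U * dl g : Al Ω G).coeff (Equiv.mulRight g y) *
      φ (Equiv.mulRight g y) =
      if y ∈ U then (Nat.card U : Ω)⁻¹ * φ (y * g) else 0 := by
    intro y
    rw [Equiv.coe_mulRight, coeff_mul_dl, mul_inv_cancel_right, coeff_av]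
    split_ifs
    · rfl
    · rw [zero_mul]
  rw [Finset.sum_congr rfl fun y _ => h1 y, ← Finset.sum_filter, ← Finset.mul_sum]
  congr 1
  symm
  refine Finset.sum_bij (fun u _ => (u : G)) ?_ ?_ ?_ ?_
  · intro u _
    simp
  · intro u _ u' _ h
    exact Subtype.ext h
  · intro y hy
    exact ⟨⟨y, by simpa using hy⟩, Finset.mem_univ _, rfl⟩
  · intro u _
    rfl

theorem mM_ip {H : Subgroup G} (M : QM K H) {φ : G → Ω} (hφ : φ ∈ ir Ω H) :
    (mM M φ : Ω) = Parker.ip (M.ch Ω) (fun h : H => φ h) := by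
  obtain ⟨τ, h1, -, -⟩ := M.ch_char (Ω := Ω)
  have h2 : (fun h : H => φ h) ∈ Parker.irr Ω H := by
    obtain ⟨ψ, hψ, rfl⟩ := ir_iff.1 hφ
    have h : (fun h : H => xt H ψ h) = ψ := by
      funext h
      exact xt_apply ψ h.2
    rw [h]
    exact hψ
  unfold mM
  rw [← h1]
  exact Parker.mul_spec τ h2

/-- the elements of the parabolic subgroup -/
def pe (S : LieSys G E) (w : E) (a : S.L w × S.U w) : PH S w :=
  ⟨⟨(a.1 : G) * (a.2 : G), S.H.mul_mem (S.LH w a.1.2) (S.UH w a.2.2)⟩,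
    (S.P w).mul_mem (L_le_P S w a.1.2) (U_le_P S w a.2.2)⟩

theorem pe_bij (S : LieSys G E) (w : E) : Function.Bijective (pe S w) := by
  constructor
  · rintro ⟨l, u⟩ ⟨l', u'⟩ h
    have h1 : (l : G) * (u : G) = (l' : G) * (u' : G) :=
      congrArg (fun p : PH S w => ((p : S.H) : G)) h
    have h2 := lpr_unique S l.2 u.2 l'.2 u'.2 h1
    rw [h2] at h1
    exact Prod.ext (Subtype.ext h2) (Subtype.ext (mul_left_cancel h1))
  · rintro ⟨⟨p, hp⟩, hp'⟩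
    obtain ⟨l, hl, u, hu, h⟩ := (mem_P S).1 (show p ∈ S.P w from hp')
    refine ⟨(⟨l, hl⟩, ⟨u, hu⟩), ?_⟩
    exact Subtype.ext (Subtype.ext h.symm)

theorem infl_ch {w : E} (Q : QM K (S.L w)) (a : S.L w × S.U w) :
    (inflL S Q).ch Ω (pe S w a) = Q.ch Ω a.1 := by
  have h : lpr S w ⟨(a.1 : G) * (a.2 : G),
      (S.P w).mul_mem (L_le_P S w a.1.2) (U_le_P S w a.2.2)⟩ = a.1 := lpr_apply S a.1.2 a.2.2 _
  show Q.ch Ω (lpr S w ⟨(a.1 : G) * (a.2 : G),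
      (S.P w).mul_mem (L_le_P S w a.1.2) (U_le_P S w a.2.2)⟩) = _
  rw [h]

end R15_aux

open R15_aux

theorem indL_mM (hK : FixedField Γ K) {w : E} (Q : QM K (S.L w)) {φ : G → Ω} (hφ : φ ∈ ir Ω S.H) :
    mM (indL S Q) φ = ∑ ψ ∈ ir Ω (S.L w), mM Q ψ * mt (S.L w) φ (S.e Ω w) ψ := by
  letI := Fintype.ofFinite (S.L w)
  letI := Fintype.ofFinite (S.U w)
  letI := Fintype.ofFinite (PH S w)
  have hL : (Nat.card (S.L w) : Ω) ≠ 0 := Nat.cast_ne_zero.2 Nat.card_pos.ne'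
  have hU : (Nat.card (S.U w) : Ω) ≠ 0 := Nat.cast_ne_zero.2 Nat.card_pos.ne'
  have hcard : Nat.card (PH S w) = Nat.card (S.L w) * Nat.card (S.U w) := by
    rw [← card_P S w]
    exact Nat.card_congr (Subgroup.subgroupOfEquivOfLe (P_le_H S w)).toEquiv
  have hcut : CutH Γ S.H (S.L w) (S.e Ω w) := cut_e w
  have hcls : ∀ g x : S.H, (fun h : S.H => φ h) (g * x * g⁻¹) = (fun h : S.H => φ h) x :=
    fun g x => ir_class hφ g.2
  have key : ∀ l : S.L w, (Nat.card (S.U w) : Ω)⁻¹ *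
      ∑ u : S.U w, φ (((l : G) * (u : G))⁻¹) =
      ∑ ψ ∈ ir Ω (S.L w), (mt (S.L w) φ (S.e Ω w) ψ : Ω) * ψ ((l : G)⁻¹) := by
    intro l
    rw [← tr_mt hcut hφ ((S.L w).inv_mem l.2)]
    show _ = tr φ (av Ω (S.U w) * dl (l : G)⁻¹)
    rw [tr_av]
    congr 1
    refine Fintype.sum_equiv (Equiv.inv (S.U w)) _ _ fun u => ?_
    rw [mul_inv_rev]
    rfl
  have h1 : (mM (indL S Q) φ : Ω) =
      ∑ ψ ∈ ir Ω (S.L w), (mM Q ψ : Ω) * (mt (S.L w) φ (S.e Ω w) ψ : Ω) := by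
    rw [mM_ip (indL S Q) hφ]
    have h2 : Parker.ip ((indL S Q).ch Ω) (fun h : S.H => φ h) =
        Parker.ip ((inflL S Q).ch Ω) (fun p : PH S w => φ (p : S.H)) :=
      QM.ind_ip (inflL S Q) hcls
    rw [h2, Parker.ip_eq, ← (pe_bij S w).sum_comp, Fintype.sum_prod_type, hcard]
    have h3 : ∀ l : S.L w, ∑ u : S.U w, (inflL S Q).ch Ω (pe S w (l, u)) *
        φ (((pe S w (l, u))⁻¹ : PH S w) : S.H) =
        Q.ch Ω l * ∑ u : S.U w, φ (((l : G) * (u : G))⁻¹) := by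
      intro l
      rw [Finset.mul_sum]
      refine Finset.sum_congr rfl fun u _ => ?_
      rw [infl_ch]
      rfl
    rw [Finset.sum_congr rfl fun l _ => h3 l]
    have h4 : ∀ l : S.L w, Q.ch Ω l * ∑ u : S.U w, φ (((l : G) * (u : G))⁻¹) =
        (Nat.card (S.U w) : Ω) * ∑ ψ ∈ ir Ω (S.L w),
          (mt (S.L w) φ (S.e Ω w) ψ : Ω) * (Q.ch Ω l * ψ ((l : G)⁻¹)) := by
      intro l
      have h5 : ∑ u : S.U w, φ (((l : G) * (u : G))⁻¹) = (Nat.card (S.U w) : Ω) *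
          ∑ ψ ∈ ir Ω (S.L w), (mt (S.L w) φ (S.e Ω w) ψ : Ω) * ψ ((l : G)⁻¹) := by
        rw [← key l, ← mul_assoc, mul_inv_cancel₀ hU, one_mul]
      rw [h5, mul_left_comm, Finset.mul_sum]
      congr 1
      refine Finset.sum_congr rfl fun ψ _ => ?_
      ring
    rw [Finset.sum_congr rfl fun l _ => h4 l, ← Finset.mul_sum, Finset.sum_comm, Nat.cast_mul,
      mul_inv_rev, mul_comm (Nat.card (S.U w) : Ω)⁻¹, mul_assoc, ← mul_assoc _
      (Nat.card (S.U w) : Ω), inv_mul_cancel₀ hU, one_mul, Finset.mul_sum]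
    refine Finset.sum_congr rfl fun ψ hψ => ?_
    rw [mM_ip Q hψ, Parker.ip_eq, ← Finset.mul_sum]
    rw [mul_comm (mt (S.L w) φ (S.e Ω w) ψ : Ω), ← mul_assoc]
    rfl
  have h6 : ((mM (indL S Q) φ : ℕ) : Ω) =
      ((∑ ψ ∈ ir Ω (S.L w), mM Q ψ * mt (S.L w) φ (S.e Ω w) ψ : ℕ) : Ω) := by
    rw [h1, Nat.cast_sum]
    exact Finset.sum_congr rfl fun ψ _ => (Nat.cast_mul _ _).symm
  exact Nat.cast_injective h6

end

end LieP
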