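import Pool.Agent.LieP.R15
import Pool.Agent.LieP.Q03
import Pool.Agent.ParkerGL.D05

/-!
# MP_6c3636_al, LieP, module R16: the similitude (12.5)(c) (stub by helper96, proof by helper74)

Section 12, (12.5)(c). `Y = indL S Q`, `E = oM Y (cen S.H φ)`. `cenE`: `oM Y (cen S.H φ) = Y.E (fun h => φ h)` (`ParkerGL.D03`, `eK`; `op_act`: `op ρ a = Parker.act ρ (coefficients)`, `algebraMap` injective, `cen` and `Parker.es` have the same values). `ParkerGL.lemR` (D05) for `inflL S Q`, `A₀ = ⊤`, `α p = ψ (lpr p)` (irreducible character of `PH S w`: `Parker.irr_iff_ip` or `ip`; the inner product with `φ` is `mM Y φ = 1` by `QM.ind_ip`) gives `B (E (ioL v), E (ioL v')) = u * Q.B v v'`, `algebraMap K Ω u = φ 1 * |P| * |H|⁻¹ * (ψ 1)⁻¹`.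
`θ v = E (ioL v)` is injective (`u ≠ 0`, `Q.B` nondegenerate), its values are in the range of `oM Y (S.e Ω w * cen (S.L w) ψ * cen S.H φ)`: `E` commutes with the other operators (`cen_comm`), `ioL_e`, `ioL_oM`, and `oM Q (cen (S.L w) ψ) = 1` as `Q` has the character `ψ` (`oM_zero` for `1 - cen ψ`). The rank of the latter is `mM Y φ * rk φ (e * cen ψ) = mt * dg ψ = dg ψ` (`oM_rank`, `mt_mul`, `indL_mM`: `1 = mt (S.L w) φ (S.e Ω w) ψ`), equal to `dim Q`. So `θ` is a similitude onto the range: `ParkerGL.dcf_sim`.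
`simil_odd`: `dg φ`, `dg ψ`, `|H| / |P|` (`P_odd`, `Subgroup.relIndex`, `|H| = |P| * relIndex`) are odd, so the class of `u` is `1` (`cl_natCast`, `cl_inv`, `cl_mul`).
-/

namespace LieP

noncomputable section

open Classical

open ParkerGL (QM Qg cl dcf FixedField)

variable {Ω : Type} [Field Ω] [IsAlgClosed Ω] [CharZero Ω] {c : Parker.Ctx Ω}
  {Γ : Subgroup (RingAut Ω)} {K : Type} [Field K] [CharZero K] [Algebra K Ω]
  {G E : Type} [Group G] [Finite G] [NormedAddCommGroup E] [InnerProductSpace ℝ E]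
  [FiniteDimensional ℝ E] {S : LieSys G E}

/-- pull back of irreducible characters along a surjective homomorphism -/
theorem R16_pb {G₁ G₂ : Type} [Group G₁] [Finite G₁] [Group G₂] [Finite G₂] (f : G₁ →* G₂)
    (hf : Function.Surjective f) {α : G₂ → Ω} (hα : α ∈ Parker.irr Ω G₂) :
    (fun g => α (f g)) ∈ Parker.irr Ω G₁ := by
  rw [Parker.mem_irr] at hα ⊢
  obtain ⟨n, ρ, hρ, rfl⟩ := hα
  refine ⟨n, MonoidHom.comp ρ f, ?_, ?_⟩
  · refine Parker.irr_of_sub (Parker.irr_pos hρ) ?_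
    intro U hU
    refine Parker.irr_sub hρ ?_
    intro g x hx
    obtain ⟨g', rfl⟩ := hf g
    exact hU g' x hx
  · rfl

theorem R16_ir {H : Subgroup G} {φ : G → Ω} (hφ : φ ∈ ir Ω H) :
    (fun h : H => φ h) ∈ Parker.irr Ω H := by
  obtain ⟨ψ, hψ, rfl⟩ := ir_iff.1 hφ
  have h1 : (fun h : H => xt H ψ h) = ψ := by
    funext h
    exact xt_apply ψ h.2
  rw [h1]
  exact hψ

theorem R16_rl {H : Subgroup G} {φ : G → Ω} (hφ : φ ∈ ir Ω H) (hrφ : rl φ)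
    (hfφ : ∀ g, Parker.Fx Γ (φ g)) : ParkerGL.Rl Γ (fun h : H => φ h) :=
  ⟨R16_ir hφ, fun g => hfφ g, by
    funext g
    exact hrφ g⟩

theorem R16_E (hK : FixedField Γ K) {H : Subgroup G} (Y : QM K H) {φ : G → Ω}
    (hφ : φ ∈ ir Ω H) (hrφ : rl φ) (hfφ : ∀ g, Parker.Fx Γ (φ g)) :
    Y.E (fun h : H => φ h) = oM Y (cen H φ) := by
  unfold ParkerGL.QM.E oM
  rw [op_act]
  congr 1

theorem R16_one (hK : FixedField Γ K) {H : Subgroup G} {ψ : G → Ω} (hψ : ψ ∈ ir Ω H)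
    (hfψ : ∀ g, Parker.Fx Γ (ψ g)) (Q : QM K H) (hQ : ∀ g : H, Q.ch Ω g = ψ g) :
    oM Q (cen H ψ) = 1 := by
  have h0 := mM_of hψ (m := 1) (M := Q) (fun g => by rw [Nat.cast_one, one_mul]; exact hQ g)
  have hc : cen H ψ ∈ sb Ω H := cen_mem ψ hψ
  have hd : FxA Γ (1 - cen H ψ) := fx_sub fx_one (fx_cen H hfψ)
  have h1 : oM Q (1 - cen H ψ) = 0 := by
    rw [oM_zero hK Q hd (sub_mem (one_mem _) hc)]
    intro φ hφ h
    have h2 : φ = ψ := by
      by_contra hne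
      exact h (h0.2 φ hφ hne)
    rw [h2, mul_sub, mul_one, cen_idem hψ, sub_self]
  have h2 : oM Q (1 : Al Ω G) = oM Q (1 - cen H ψ) + oM Q (cen H ψ) := by
    rw [← oM_add hK Q hd (fx_cen H hfψ), sub_add_cancel]
  rw [oM_one hK, h1, zero_add] at h2
  exact h2.symm

theorem R16_dim {H : Subgroup G} {ψ : G → Ω} (hψ : ψ ∈ ir Ω H)
    (Q : QM K H) (hQ : ∀ g : H, Q.ch Ω g = ψ g) : Module.finrank K Q.X = Parker.dg ψ := by
  have h1 : Q.ch Ω (1 : H) = (Module.finrank K Q.X : Ω) := by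
    show algebraMap K Ω (Q.ρ.character 1) = _
    rw [Representation.char_one, map_natCast]
  have h2 : ψ ((1 : H) : G) = (Parker.dg ψ : Ω) := (ir_one hψ).1
  rw [hQ, h2] at h1
  exact_mod_cast h1.symm

theorem R16_lpr (S : LieSys G E) (w : E) : Function.Surjective
    ((lpr S w).comp (Subgroup.subgroupOfEquivOfLe (P_le_H S w)).toMonoidHom) := by
  intro l
  have h : (l : G) * 1 ∈ S.P w := by
    rw [mul_one]
    exact L_le_P S w l.2
  refine ⟨(Subgroup.subgroupOfEquivOfLe (P_le_H S w)).symm ⟨(l : G) * 1, h⟩, ?_⟩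
  show lpr S w ((Subgroup.subgroupOfEquivOfLe (P_le_H S w))
    ((Subgroup.subgroupOfEquivOfLe (P_le_H S w)).symm ⟨(l : G) * 1, h⟩)) = l
  rw [MulEquiv.apply_symm_apply]
  exact lpr_apply S l.2 (S.U w).one_mem h

theorem R16_u (hK : FixedField Γ K) {w : E} {ψ : G → Ω} (hψ : ψ ∈ ir Ω (S.L w))
    (Q : QM K (S.L w)) (hQ : ∀ g : S.L w, Q.ch Ω g = ψ g)
    {φ : G → Ω} (hφ : φ ∈ ir Ω S.H) (hrφ : rl φ) (hfφ : ∀ g, Parker.Fx Γ (φ g))
    (h1 : mM (indL S Q) φ = 1) :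
    ∃ u : K, algebraMap K Ω u = (Parker.dg φ : Ω) * (Nat.card (S.P w) : Ω) *
        (Nat.card S.H : Ω)⁻¹ * (Parker.dg ψ : Ω)⁻¹ ∧
      ∀ v v' : Q.X, (indL S Q).B (oM (indL S Q) (cen S.H φ) (ioL S Q v))
        (oM (indL S Q) (cen S.H φ) (ioL S Q v')) = u * Q.B v v' := by
  have hRl := R16_rl (Γ := Γ) hφ hrφ hfφ
  have hch0 : ∀ p : PH S w, (inflL S Q).ch Ω p =
      ψ ((((lpr S w).comp (Subgroup.subgroupOfEquivOfLe (P_le_H S w)).toMonoidHom) p : S.L w) : G) := by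
    intro p
    exact hQ _
  have hα : (inflL S Q).ch Ω ∈ Parker.irr Ω (PH S w) := by
    have h2 : (inflL S Q).ch Ω = fun p => (fun l : S.L w => ψ l)
        (((lpr S w).comp (Subgroup.subgroupOfEquivOfLe (P_le_H S w)).toMonoidHom) p) := funext hch0
    rw [h2]
    exact R16_pb _ (R16_lpr S w) (R16_ir hψ)
  have hA : ∀ g : PH S w, ∀ x ∈ (⊤ : Submodule K (inflL S Q).X),
      (inflL S Q).ρ g x ∈ (⊤ : Submodule K (inflL S Q).X) := fun _ _ _ => Submodule.mem_top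
  have hch : ∀ g : PH S w, algebraMap K Ω ((ParkerGL.subR (inflL S Q).ρ ⊤ hA).character g) =
      (inflL S Q).ch Ω g := by
    intro g
    exact congrArg (algebraMap K Ω)
      (LinearMap.trace_restrict_eq_of_forall_mem ⊤ ((inflL S Q).ρ g) (fun x => Submodule.mem_top))
  have hm : Parker.ip ((inflL S Q).ch Ω) (fun p : PH S w => φ ((p : S.H) : G)) = 1 := by
    have h2 : Parker.ip ((indL S Q).ch Ω) (fun h : S.H => φ h) = 1 := by
      unfold mM Parker.mul at h1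
      split_ifs at h1 with h
      · rw [← h.choose_spec, h1, Nat.cast_one]
    rw [← h2]
    exact (ParkerGL.QM.ind_ip (inflL S Q) (φ := fun h : S.H => φ h)
      (fun g x => ir_class hφ g.2)).symm
  obtain ⟨u, hu, hB⟩ := ParkerGL.lemR hK (inflL S Q) ⊤ hA hRl hα hch hm
  refine ⟨u, ?_, ?_⟩
  · have h3 : φ ((1 : S.H) : G) = (Parker.dg φ : Ω) := (ir_one hφ).1
    have h4 : (inflL S Q).ch Ω 1 = (Parker.dg ψ : Ω) := by
      rw [hch0, map_one]
      exact (ir_one hψ).1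
    have h5 : Nat.card (PH S w) = Nat.card (S.P w) :=
      Nat.card_congr (Subgroup.subgroupOfEquivOfLe (P_le_H S w)).toEquiv
    rw [hu, h3, h4, h5]
  · intro v v'
    have h6 := hB v Submodule.mem_top v' Submodule.mem_top
    rw [← R16_E hK (indL S Q) hφ hrφ hfφ]
    exact h6

theorem simil (hK : FixedField Γ K) {w : E} {ψ : G → Ω} (hψ : ψ ∈ ir Ω (S.L w)) (hr : rl ψ)
    (hfψ : ∀ g, Parker.Fx Γ (ψ g)) (Q : QM K (S.L w)) (hQ : ∀ g : S.L w, Q.ch Ω g = ψ g)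
    {φ : G → Ω} (hφ : φ ∈ ir Ω S.H) (hrφ : rl φ) (hfφ : ∀ g, Parker.Fx Γ (φ g))
    (h1 : mM (indL S Q) φ = 1) :
    dcA c Γ (indL S Q) (S.e Ω w * cen (S.L w) ψ * cen S.H φ) =
      cl c Γ ((Parker.dg φ : Ω) * (Nat.card (S.P w) : Ω) * (Nat.card S.H : Ω)⁻¹ *
        (Parker.dg ψ : Ω)⁻¹) ^ Parker.dg ψ * Q.dc c Γ := by
  obtain ⟨u, hu, hB⟩ := R16_u hK hψ Q hQ hφ hrφ hfφ h1
  have hQ0 := mM_of hψ (m := 1) (M := Q) (fun g => by rw [Nat.cast_one, one_mul]; exact hQ g)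
  have hu0 : u ≠ 0 := by
    intro h
    rw [h, map_zero] at hu
    have k1 : (Parker.dg φ : Ω) ≠ 0 := Nat.cast_ne_zero.2 (ir_one hφ).2.ne'
    have k2 : (Parker.dg ψ : Ω) ≠ 0 := Nat.cast_ne_zero.2 (ir_one hψ).2.ne'
    have k3 : (Nat.card (S.P w) : Ω) ≠ 0 := Nat.cast_ne_zero.2 Nat.card_pos.ne'
    have k4 : (Nat.card S.H : Ω) ≠ 0 := Nat.cast_ne_zero.2 Nat.card_pos.ne'
    exact mul_ne_zero (mul_ne_zero (mul_ne_zero k1 k3) (inv_ne_zero k4)) (inv_ne_zero k2) hu.symm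
  have hcφ : cen S.H φ ∈ sb Ω S.H := cen_mem φ hφ
  have hcψ : cen (S.L w) ψ ∈ sb Ω (S.L w) := cen_mem ψ hψ
  have hcψ' : cen (S.L w) ψ ∈ sb Ω S.H := sb_mono (S.LH w) hcψ
  have he : S.e Ω w ∈ sb Ω S.H := av_mem (S.UH w)
  have hfe : FxA Γ (S.e Ω w) := fx_av _
  have hfcφ : FxA Γ (cen S.H φ) := fx_cen S.H hfφ
  have hfcψ : FxA Γ (cen (S.L w) ψ) := fx_cen (S.L w) hfψ
  have hec : ∀ a ∈ sb Ω (S.L w), S.e Ω w * a = a * S.e Ω w := fun a ha => (av_comm (S.s4 w) ha).symm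
  have hee : S.e Ω w * S.e Ω w = S.e Ω w := av_idem _
  obtain ⟨b, hb⟩ : ∃ b, b = S.e Ω w * cen (S.L w) ψ := ⟨_, rfl⟩
  have hbm : b ∈ sb Ω S.H := by rw [hb]; exact mul_mem he hcψ'
  have hbf : FxA Γ b := by rw [hb]; exact fx_mul hfe hfcψ
  have hbb : b * b = b := by
    rw [hb]
    calc S.e Ω w * cen (S.L w) ψ * (S.e Ω w * cen (S.L w) ψ)
        = S.e Ω w * (cen (S.L w) ψ * S.e Ω w) * cen (S.L w) ψ := by simp only [mul_assoc]
      _ = S.e Ω w * (S.e Ω w * cen (S.L w) ψ) * cen (S.L w) ψ := by rw [hec _ hcψ]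
      _ = (S.e Ω w * S.e Ω w) * (cen (S.L w) ψ * cen (S.L w) ψ) := by simp only [mul_assoc]
      _ = _ := by rw [hee, cen_idem hψ]
  have hcb : cen S.H φ * b = b * cen S.H φ := cen_comm hφ hbm
  rw [← hb]
  obtain ⟨a, ha⟩ : ∃ a, a = b * cen S.H φ := ⟨_, rfl⟩
  rw [← ha]
  have ham : a ∈ sb Ω S.H := by rw [ha]; exact mul_mem hbm hcφ
  have haf : FxA Γ a := by rw [ha]; exact fx_mul hbf hfcφ
  have haa : a * a = a := by
    rw [ha]
    calc b * cen S.H φ * (b * cen S.H φ) = b * (cen S.H φ * b) * cen S.H φ := by simp only [mul_assoc]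
      _ = b * (b * cen S.H φ) * cen S.H φ := by rw [hcb]
      _ = (b * b) * (cen S.H φ * cen S.H φ) := by simp only [mul_assoc]
      _ = _ := by rw [hbb, cen_idem hφ]
  have hop : oM (indL S Q) a * oM (indL S Q) (cen S.H φ) =
      oM (indL S Q) (cen S.H φ) * (oM (indL S Q) (S.e Ω w) * oM (indL S Q) (cen (S.L w) ψ)) := by
    rw [← oM_mul hK (indL S Q) haf hfcφ ham hcφ, ha, mul_assoc, cen_idem hφ, ← hcb,
      oM_mul hK (indL S Q) hfcφ hbf hcφ hbm, hb, oM_mul hK (indL S Q) hfe hfcψ he hcψ']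
  have hfix : ∀ v : Q.X, oM (indL S Q) a (oM (indL S Q) (cen S.H φ) (ioL S Q v)) =
      oM (indL S Q) (cen S.H φ) (ioL S Q v) := by
    intro v
    have h3 : (oM (indL S Q) a * oM (indL S Q) (cen S.H φ)) (ioL S Q v) =
      (oM (indL S Q) (cen S.H φ) * (oM (indL S Q) (S.e Ω w) * oM (indL S Q) (cen (S.L w) ψ)))
        (ioL S Q v) := by rw [hop]
    rw [Module.End.mul_apply, Module.End.mul_apply, Module.End.mul_apply, ioL_oM hK Q hfcψ hcψ,
      R16_one hK hψ hfψ Q hQ, Module.End.one_apply, ioL_e hK] at h3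
    exact h3
  have hmt : mt (S.L w) φ (S.e Ω w) ψ = 1 := by
    have h3 := indL_mM hK Q hφ
    rw [h1, Finset.sum_eq_single_of_mem ψ hψ (fun ψ' hψ' hne => by rw [hQ0.2 ψ' hψ' hne, zero_mul]),
      hQ0.1, one_mul] at h3
    exact h3.symm
  have hrk : Module.finrank K (LinearMap.range (oM (indL S Q) a)) = Module.finrank K Q.X := by
    rw [oM_rank hK (indL S Q) haf ham haa, R16_dim hψ Q hQ]
    rw [Finset.sum_eq_single_of_mem φ hφ (fun φ' hφ' hne => by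
      rw [ha, ← hcb, rk_cen hφ hφ' hbm hbb, if_neg hne, mul_zero])]
    rw [ha, ← hcb, rk_cen hφ hφ hbm hbb, if_pos rfl, h1, one_mul, hb,
      ← mt_mul (S.LH w) hφ he hee hec hψ, hmt, one_mul]
  let θ : Q.X →ₗ[K] LinearMap.range (oM (indL S Q) a) :=
    ((oM (indL S Q) (cen S.H φ)).comp (ioL S Q)).codRestrict (LinearMap.range (oM (indL S Q) a))
      (fun v => ⟨_, hfix v⟩)
  have hθB : ∀ v v' : Q.X, ((indL S Q).B.restrict (LinearMap.range (oM (indL S Q) a))) (θ v) (θ v') =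
      u * Q.B v v' := fun v v' => hB v v'
  have hinj : Function.Injective θ := by
    rw [← LinearMap.ker_eq_bot, LinearMap.ker_eq_bot']
    intro v hv
    refine Q.inv.nondeg v fun y => ?_
    have h3 := hθB v y
    rw [hv, map_zero, LinearMap.zero_apply] at h3
    exact (mul_eq_zero.1 h3.symm).resolve_left hu0
  have hsurj : Function.Surjective θ :=
    (LinearMap.injective_iff_surjective_of_finrank_eq_finrank hrk.symm).1 hinj
  have hfin := ParkerGL.dcf_sim (c := c) hK (LinearEquiv.ofBijective θ ⟨hinj, hsurj⟩)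
    (B := Q.B) (B' := (indL S Q).B.restrict (LinearMap.range (oM (indL S Q) a)))
    Q.inv.nondeg hu0 (fun x y => hθB x y)
  rw [R16_dim hψ Q hQ, hu] at hfin
  exact hfin

theorem simil_odd (hK : FixedField Γ K) {w : E} {ψ : G → Ω} (hψ : ψ ∈ ir Ω (S.L w)) (hr : rl ψ)
    (hfψ : ∀ g, Parker.Fx Γ (ψ g)) (Q : QM K (S.L w)) (hQ : ∀ g : S.L w, Q.ch Ω g = ψ g)
    {φ : G → Ω} (hφ : φ ∈ ir Ω S.H) (hrφ : rl φ) (hfφ : ∀ g, Parker.Fx Γ (φ g))
    (h1 : mM (indL S Q) φ = 1) (hoψ : Odd (Parker.dg ψ)) (hoφ : Odd (Parker.dg φ)) :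
    dcA c Γ (indL S Q) (S.e Ω w * cen (S.L w) ψ * cen S.H φ) = Q.dc c Γ := by
  rw [simil hK hψ hr hfψ Q hQ hφ hrφ hfφ h1]
  have k1 : (Parker.dg φ : Ω) ≠ 0 := Nat.cast_ne_zero.2 (ir_one hφ).2.ne'
  have k2 : (Parker.dg ψ : Ω) ≠ 0 := Nat.cast_ne_zero.2 (ir_one hψ).2.ne'
  have k3 : (Nat.card (S.P w) : Ω) ≠ 0 := Nat.cast_ne_zero.2 Nat.card_pos.ne'
  have hodd := P_odd S w
  have k5 : ((S.P w).relIndex S.H : Ω) ≠ 0 := Nat.cast_ne_zero.2 (by
    intro h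
    rw [h] at hodd
    exact absurd hodd (by decide))
  have hcard : Nat.card S.H = Nat.card (S.P w) * (S.P w).relIndex S.H := by
    have h2 := Subgroup.card_mul_index ((S.P w).subgroupOf S.H)
    rw [Nat.card_congr (Subgroup.subgroupOfEquivOfLe (P_le_H S w)).toEquiv] at h2
    exact h2.symm
  have h3 : (Parker.dg φ : Ω) * (Nat.card (S.P w) : Ω) * (Nat.card S.H : Ω)⁻¹ *
      (Parker.dg ψ : Ω)⁻¹ = (Parker.dg φ : Ω) * ((S.P w).relIndex S.H : Ω)⁻¹ * (Parker.dg ψ : Ω)⁻¹ := by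
    rw [hcard, Nat.cast_mul]
    field_simp
  have h4 : cl c Γ ((Parker.dg φ : Ω) * ((S.P w).relIndex S.H : Ω)⁻¹ * (Parker.dg ψ : Ω)⁻¹) = 1 := by
    rw [ParkerGL.cl_mul (mul_ne_zero k1 (inv_ne_zero k5)) (inv_ne_zero k2),
      ParkerGL.cl_mul k1 (inv_ne_zero k5), ParkerGL.cl_inv, ParkerGL.cl_inv,
      ParkerGL.cl_natCast hoφ, ParkerGL.cl_natCast hodd, ParkerGL.cl_natCast hoψ, inv_one,
      ParkerGL.D01_aux.q_one_mul, ParkerGL.D01_aux.q_one_mul]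
  rw [h3, h4, one_pow, ParkerGL.D01_aux.q_one_mul]

end

end LieP
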