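import Pool.Agent.LieP.R12
import Pool.Agent.LieP.R13
import Pool.Agent.LieP.R16

/-!
# MP_6c3636_al, LieP, module R17: the generic member of even degree (12.5)(c) (helper96)

Section 12, (12.5)(c). `φ₀` the member of odd degree (`hts.tb`), `φ₀ ≠ D.star` (even), real (`odd_real`), so `sm D.Psi x` is not empty (`sm_nonempty`, `star_spec`). `w` from `exists_tau_fix` (Q14): `w ∈ Cc D x`, `Jy D x w = ∅`, `nz S w` (`nz_of_pos`). `ψ = od D w ∈ (levD D w hw).Ser` of odd degree (`od_spec`), real (`real_iff`). `Q` from `exists_QM_odd` (Q20) for the system `lev S w` (`(lev S w).H = S.L w`), `Q.dc = 1`. `Y = indL S Q`.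
(1) `Y.dc = 1` (`indL_dc`). (2) `mM Y φ = mt (S.L w) φ (S.e Ω w) ψ = rk φ (D.eJ x ∅) = rk φ (D.f x)` (`indL_mM`, `mM_of` for `Q`, `mt_eJ` (K17, `ψ = od D w`), `eJ_empty` (O05)), so the constituents of `Y` are in `D.Ser` (`rk_f`), and `mM Y φ₀ = 1` (`rk_eS`), `mM Y D.star = 1` (`star_spec`, `rk_f`). (3) `a₀ = cen S.H φ₀`, `a₁ = cen S.H D.star` (real: `star_real`), `a₂ = 1 - a₀ - a₁` are orthogonal selfadjoint idempotents with sum `1`: `1 = dcA Y a₀ * dcA Y a₁ * dcA Y a₂` (`dcA_sum` or `dcA_split` twice, `dcA_one`).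
(4) `dcA Y a₂ = (cutM a₂).dc = 1` by `dc_series` (R12; the constituents of the module of `a₂` (`mM_cut` with `H' = S.H`, or `cutM_oM` and `oM_zero`) are members of even degree different from `D.star`, by uniqueness of the odd member in `hts.tb`). (5) `M₀ = cutM a₀` has the character `φ₀` (`ch_of_mM`); `simil_odd`: `dcA Y (e w * cen ψ * a₀) = Q.dc = 1`; `cutM_dcA`: `dcA M₀ (e w * cen ψ) = dcA Y (a₀ * (e w * cen ψ)) = 1` (`a₀` is central), and `hii` gives `M₀.dc = dcA M₀ (e w * cen ψ) = 1` (`mt = rk φ₀ (D.f x) = 1`). So `dcA Y a₀ = 1`.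
(6) So `dcA Y a₁ = 1`: `M₁ = cutM a₁` has the character `D.star` and class `1`; `dc_unique` (R13).
-/

namespace LieP

noncomputable section

open Classical

open ParkerGL (QM Qg cl dcf FixedField)

variable {Ω : Type} [Field Ω] [IsAlgClosed Ω] [CharZero Ω] {c : Parker.Ctx Ω}
  {Γ : Subgroup (RingAut Ω)} {K : Type} [Field K] [CharZero K] [Algebra K Ω]
  {G E : Type} [Group G] [Finite G] [NormedAddCommGroup E] [InnerProductSpace ℝ E]
  [FiniteDimensional ℝ E] {S : LieSys G E}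

namespace R17_aux

theorem cut_cen {H : Subgroup G} {φ : G → Ω} (hφ : φ ∈ ir Ω H) (hr : rl φ)
    (hf : ∀ g, Parker.Fx Γ (φ g)) : CutH Γ H H (cen H φ) where
  le := le_rfl
  mem := cen_mem φ hφ
  idem := cen_idem hφ
  fx := fx_cen H hf
  st := by
    rw [st_cen, show (fun g => φ g⁻¹) = φ from funext hr]
  comm := fun _ hh => (cen_comm hφ (dl_mem.2 hh)).symm

theorem cut_bot {H H' : Subgroup G} {a : Al Ω G} (h : CutH Γ H H' a) : CutH Γ H ⊥ a where
  le := bot_le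
  mem := h.mem
  idem := h.idem
  fx := h.fx
  st := h.st
  comm := fun g hg => by
    rw [Subgroup.mem_bot.1 hg, dl_one, one_mul, mul_one]

theorem cut_add {H H' : Subgroup G} {a b : Al Ω G} (ha : CutH Γ H H' a) (hb : CutH Γ H H' b)
    (hab : a * b = 0) (hba : b * a = 0) : CutH Γ H H' (a + b) where
  le := ha.le
  mem := add_mem ha.mem hb.mem
  idem := by
    rw [mul_add, add_mul, add_mul, ha.idem, hb.idem, hab, hba, add_zero, zero_add]
  fx := fx_add ha.fx hb.fx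
  st := by
    rw [st_add, ha.st, hb.st]
  comm := fun g hg => by
    rw [mul_add, add_mul, ha.comm g hg, hb.comm g hg]

theorem cut_compl {H H' : Subgroup G} {a : Al Ω G} (h : CutH Γ H H' a) :
    CutH Γ H H' (1 - a) where
  le := h.le
  mem := sub_mem (one_mem _) h.mem
  idem := by
    rw [mul_sub, sub_mul, sub_mul, one_mul, mul_one, h.idem, one_mul, sub_self, sub_zero]
  fx := fx_sub fx_one h.fx
  st := by
    have h1 : st (1 - a) + st a = 1 := by rw [← st_add, sub_add_cancel, st_one]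
    rw [h.st] at h1
    exact eq_sub_of_add_eq h1
  comm := fun g hg => by
    rw [mul_sub, sub_mul, h.comm g hg, one_mul, mul_one]

theorem dcA_add (hK : FixedField Γ K) {H : Subgroup G} (M : QM K H) {a b : Al Ω G}
    (ha : CutH Γ H ⊥ a) (hb : CutH Γ H ⊥ b) (hab : a * b = 0) (hba : b * a = 0) :
    dcA c Γ M (a + b) = dcA c Γ M a * dcA c Γ M b := by
  have h := dcA_sum (c := c) hK M (Finset.univ : Finset Bool) (a := fun i => bif i then a else b)
    (by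
      intro i _
      cases i
      · exact hb
      · exact ha)
    (by
      intro i _ j _ hij
      cases i <;> cases j
      · exact absurd rfl hij
      · exact hba
      · exact hab
      · exact absurd rfl hij)
  rw [Fintype.sum_bool, Fintype.prod_bool] at h
  exact h

theorem mt_cen {H : Subgroup G} {φ₁ φ χ : G → Ω} (h1 : φ₁ ∈ ir Ω H) (hφ : φ ∈ ir Ω H)
    (hχ : χ ∈ ir Ω H) :
    mt H φ (cen H φ₁) χ = if φ = φ₁ then (if χ = φ₁ then 1 else 0) else 0 := by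
  unfold mt
  by_cases h : χ = φ₁
  · subst h
    rw [cen_idem hχ]
    have h2 := rk_cen hχ hφ (a := 1) (one_mem _) (one_mul _)
    rw [mul_one] at h2
    rw [h2]
    by_cases h3 : φ = χ
    · rw [if_pos h3, if_pos h3, if_pos rfl, rk_one hχ]
      exact Nat.div_self (ir_one hχ).2
    · rw [if_neg h3, if_neg h3, Nat.zero_div]
  · rw [cen_mul_cen h1 hχ (fun h' => h h'.symm), rk_zero, Nat.zero_div, if_neg h]
    split_ifs <;> rfl

theorem mM_cut_cen (hK : FixedField Γ K) {H : Subgroup G} (M : QM K H) {φ₁ χ : G → Ω}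
    (h1 : φ₁ ∈ ir Ω H) (h : CutH Γ H H (cen H φ₁)) (hχ : χ ∈ ir Ω H) :
    mM (cutM hK M h) χ = if χ = φ₁ then mM M φ₁ else 0 := by
  rw [mM_cut hK M h hχ, Finset.sum_eq_single φ₁]
  · rw [mt_cen h1 h1 hχ, if_pos rfl]
    split_ifs
    · rw [mul_one]
    · rw [mul_zero]
  · intro φ hφ hne
    rw [mt_cen h1 hφ hχ, if_neg hne, mul_zero]
  · intro hn
    exact absurd h1 hn

/-- the constituents of the module of `1 - a` for a sum `a` of central idempotents -/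
theorem mM_cut_compl (hK : FixedField Γ K) {H : Subgroup G} (M : QM K H) {φ₁ φ₂ χ : G → Ω}
    (h1 : φ₁ ∈ ir Ω H) (h2 : φ₂ ∈ ir Ω H)
    (h : CutH Γ H H (1 - (cen H φ₁ + cen H φ₂))) (h12 : φ₁ ≠ φ₂) (hχ : χ ∈ ir Ω H)
    (hm : mM (cutM hK M h) χ ≠ 0) : χ ≠ φ₁ ∧ χ ≠ φ₂ ∧ mM M χ ≠ 0 := by
  rw [mM_cut hK M h hχ] at hm
  obtain ⟨φ, hφ, hne⟩ := Finset.exists_ne_zero_of_sum_ne_zero hm
  have hmt : mt H φ (1 - (cen H φ₁ + cen H φ₂)) χ ≠ 0 := fun h0 => hne (by rw [h0, mul_zero])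
  have hmM : mM M φ ≠ 0 := fun h0 => hne (by rw [h0, zero_mul])
  have hrk : rk φ ((1 - (cen H φ₁ + cen H φ₂)) * cen H χ) ≠ 0 := by
    intro h0
    apply hmt
    unfold mt
    rw [h0, Nat.zero_div]
  have hc1 : χ ≠ φ₁ := by
    rintro rfl
    apply hrk
    rw [sub_mul, add_mul, cen_idem h1, cen_mul_cen h2 h1 (fun h' => h12 h'.symm), add_zero,
      one_mul, sub_self, rk_zero]
  have hc2 : χ ≠ φ₂ := by
    rintro rfl
    apply hrk
    rw [sub_mul, add_mul, cen_idem h2, cen_mul_cen h1 h2 h12, zero_add, one_mul, sub_self,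
      rk_zero]
  refine ⟨hc1, hc2, ?_⟩
  rw [sub_mul, add_mul, cen_mul_cen h1 hχ (fun h' => hc1 h'.symm),
    cen_mul_cen h2 hχ (fun h' => hc2 h'.symm), add_zero, one_mul, sub_zero] at hrk
  have h3 := rk_cen hχ hφ (a := 1) (one_mem _) (one_mul _)
  rw [mul_one] at h3
  rw [h3] at hrk
  by_cases h4 : φ = χ
  · rw [← h4]
    exact hmM
  · exact absurd (if_neg h4) hrk

end R17_aux

open R17_aux

theorem dc_star (hK : FixedField Γ K) (hO : Parker.Ok c 1 Γ) (h2 : c.av 2 < 1)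
    (hts : ∀ S' : LieSys G E, TS (Ω := Ω) S' c)
    (hF : ∀ y, ∀ φ ∈ ir Ω (S.L y), ∀ g, Parker.Fx Γ (φ g))
    (hFH : ∀ φ ∈ ir Ω S.H, ∀ g, Parker.Fx Γ (φ g))
    (hIH : ∀ y, nz S y → TT (lev S y) c Γ K)
    (hii : ∀ φ ∈ ir Ω S.H, rl φ → Odd (Parker.dg φ) → ∀ M : QM K S.H,
      (∀ g : S.H, M.ch Ω g = φ g) → ∀ y, ∀ ψ ∈ ir Ω (S.L y), rl ψ → Odd (Parker.dg ψ) →
        mt (S.L y) φ (S.e Ω y) ψ ≠ 0 → mt (S.L y) φ (S.e Ω y) ψ = 1 ∧
          dcA c Γ M (S.e Ω y * cen (S.L y) ψ) = M.dc c Γ)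
    {N : ℕ} {ζ : Ω} (hζ : IsPrimitiveRoot ζ (2 ^ N - 1)) (hζf : Parker.Fx Γ ζ)
    (hN : Module.finrank ℝ E < N) {D : S.Cs Ω} {x : E} (T : TD D Γ x)
    (he : Even (Parker.dg D.star)) (M : QM K S.H) {m : ℕ} (hm : Odd m)
    (hM : ∀ g : S.H, M.ch Ω g = m * D.star g) : M.dc c Γ = 1 := by
  have hg := T.gnr
  have hx := T.reg
  have hT := T.ta
  have IH : ∀ y, (∃ a ∈ S.R, inner ℝ a y ≠ 0) → TS (lev S y) c := fun y _ => hts _
  have hc := (hts S).tc D hg x hx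
  obtain ⟨φ₀, h0, ho, huniq, -⟩ := (hts S).tb D hg
  have hstar := D.star_spec hg
  have hne : D.star ≠ φ₀ := by
    intro h
    rw [h] at he
    exact (Nat.not_odd_iff_even.2 he) ho
  have hir0 : φ₀ ∈ ir Ω S.H := ((LieP.mem_Ser (D := D)).1 h0).1
  have hirs : D.star ∈ ir Ω S.H := ((LieP.mem_Ser (D := D)).1 hstar.1).1
  have hr0 : rl φ₀ := odd_real (hts S) hg T.mem h0 ho
  have hrs : rl D.star := (star_real hg T.mem).1
  have hnonempty := sm_nonempty (hts S) hg hx h0 ho hstar.1 hne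
  obtain ⟨w, hw, hnw, hpos⟩ := exists_tau_fix T
  obtain ⟨hC, hJ, hnz⟩ := nz_of_pos (x := x) hw hpos
  have hz : nz S w := hnz hnonempty
  obtain ⟨hod, hoo, -, -⟩ := od_spec IH hg hw hz
  have hψS : od D w ∈ (levD D w hw).Ser := hod
  have hψir : od D w ∈ ir Ω (S.L w) := (mem_sr.1 hod).1
  have hrψ : rl (od D w) := (real_iff T hw hC (hts _) hψS hoo).2 hnw
  have hgL : (levD D w hw).gnr := (lev_gnr hw).2 hg
  obtain ⟨Q, hQ, hQ1⟩ : ∃ Q : QM K (S.L w), (∀ g : S.L w, Q.ch Ω g = od D w g) ∧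
      Q.dc c Γ = 1 :=
    exists_QM_odd (S := lev S w) (c := c) hK (hts _) hgL T.fe (hF w) hψS hoo hrψ
  obtain ⟨hQm, hQ0⟩ := mM_of (M := Q) hψir (m := 1) (by
    intro g
    rw [hQ g, Nat.cast_one, one_mul])
  -- the induced module
  have hYdc : (indL S Q).dc c Γ = 1 := by
    rw [indL_dc hK Q, hQ1, one_pow]
  have hmt : ∀ φ ∈ ir Ω S.H, mt (S.L w) φ (S.e Ω w) (od D w) = rk φ (D.f x) := by
    intro φ hφ
    rw [mt_eJ IH hg hT hx hC hz hφ, hJ, eJ_empty hg hT hx hc]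
  have hmY : ∀ φ ∈ ir Ω S.H, mM (indL S Q) φ = rk φ (D.f x) := by
    intro φ hφ
    rw [indL_mM hK Q hφ, Finset.sum_eq_single (od D w), hQm, one_mul, hmt φ hφ]
    · intro ψ hψ hψne
      rw [hQ0 ψ hψ hψne, zero_mul]
    · intro hn
      exact absurd hψir hn
  have hY0 : mM (indL S Q) φ₀ = 1 := by
    rw [hmY φ₀ hir0, (rk_eS (hts S) hg hx h0 ho).1]
  have hYs : mM (indL S Q) D.star = 1 := by
    rw [hmY _ hirs, rk_star hg hx]
  have hYser : ∀ φ ∈ ir Ω S.H, mM (indL S Q) φ ≠ 0 → φ ∈ D.Ser := by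
    intro φ hφ h
    rw [hmY φ hφ, rk_f hx hφ] at h
    exact (LieP.mem_Ser (D := D)).2 ⟨hφ, h⟩
  -- the three idempotents
  have hcut0 : CutH Γ S.H S.H (cen S.H φ₀) := cut_cen hir0 hr0 (hFH _ hir0)
  have hcuts : CutH Γ S.H S.H (cen S.H D.star) := cut_cen hirs hrs (hFH _ hirs)
  have h0s : cen S.H φ₀ * cen S.H D.star = 0 := cen_mul_cen hir0 hirs (fun h => hne h.symm)
  have hs0 : cen S.H D.star * cen S.H φ₀ = 0 := cen_mul_cen hirs hir0 hne
  have hcutz := cut_add hcut0 hcuts h0s hs0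
  have hcut2 := cut_compl hcutz
  have hprod : (1 : Qg c Γ) = dcA c Γ (indL S Q) (cen S.H φ₀) *
      dcA c Γ (indL S Q) (cen S.H D.star) *
      dcA c Γ (indL S Q) (1 - (cen S.H φ₀ + cen S.H D.star)) := by
    rw [← dcA_add hK (indL S Q) (cut_bot hcut0) (cut_bot hcuts) h0s hs0,
      ← dcA_split hK (indL S Q) (cut_bot hcutz), hYdc]
  -- the rest
  have h2dc : dcA c Γ (indL S Q) (1 - (cen S.H φ₀ + cen S.H D.star)) = 1 := by
    rw [← cutM_dc hK (indL S Q) hcut2]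
    refine dc_series hK hO h2 hts hF hFH hIH hii hζ hζf hN T _ ?_
    intro χ hχ hm'
    obtain ⟨hc1, hc2, hc3⟩ := mM_cut_compl hK (indL S Q) hir0 hirs hcut2
      (fun h => hne h.symm) hχ hm'
    have hS := hYser χ hχ hc3
    refine ⟨hS, hc2, ?_⟩
    by_contra hev
    exact hc1 (huniq χ hS (Nat.not_even_iff_odd.1 hev))
  -- the member of odd degree
  have h0dc : dcA c Γ (indL S Q) (cen S.H φ₀) = 1 := by
    have hch : ∀ g : S.H, (cutM hK (indL S Q) hcut0).ch Ω g = φ₀ g := by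
      intro g
      rw [ch_of_mM hir0 (fun ψ hψ hψne => by
        rw [mM_cut_cen hK (indL S Q) hir0 hcut0 hψ, if_neg hψne]) g,
        mM_cut_cen hK (indL S Q) hir0 hcut0 hir0, if_pos rfl, hY0, Nat.cast_one, one_mul]
    have hmt0 : mt (S.L w) φ₀ (S.e Ω w) (od D w) ≠ 0 := by
      rw [hmt φ₀ hir0, (rk_eS (hts S) hg hx h0 ho).1]
      exact one_ne_zero
    have h5 := (hii φ₀ hir0 hr0 ho (cutM hK (indL S Q) hcut0) hch w (od D w) hψir hrψ hoo
      hmt0).2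
    have hb : FxA Γ (S.e Ω w * cen (S.L w) (od D w)) :=
      fx_mul (fx_e w) (fx_cen _ (hF w _ hψir))
    have hb' : S.e Ω w * cen (S.L w) (od D w) ∈ sb Ω S.H :=
      mul_mem (e_mem w) (sb_mono (S.LH w) (cen_mem _ hψir))
    rw [cutM_dcA hK (indL S Q) hcut0 hb hb', cen_comm hir0 hb',
      simil_odd hK hψir hrψ (hF w _ hψir) Q hQ hir0 hr0 (hFH _ hir0) hY0 hoo ho, hQ1] at h5
    rw [← cutM_dc hK (indL S Q) hcut0, ← h5]
  rw [h0dc, h2dc] at hprod
  have hsdc : dcA c Γ (indL S Q) (cen S.H D.star) = 1 :=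
    ((mul_one _).trans (one_mul _)).symm.trans hprod.symm
  -- the generic member
  have hchs : ∀ g : S.H, (cutM hK (indL S Q) hcuts).ch Ω g = (1 : ℕ) * D.star g := by
    intro g
    rw [ch_of_mM hirs (fun ψ hψ hψne => by
      rw [mM_cut_cen hK (indL S Q) hirs hcuts hψ, if_neg hψne]) g,
      mM_cut_cen hK (indL S Q) hirs hcuts hirs, if_pos rfl, hYs]
  rw [dc_unique hK hirs he (hFH _ hirs) hm odd_one hM hchs, cutM_dc hK (indL S Q) hcuts, hsdc]

end

end LieP
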