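import Pool.Agent.LieP.R17

/-!
# MP_6c3636_al, LieP, module R18: property (i) for S (12.5) (helper96)

Section 12, (12.5). `exists_Ser` (K01): `φ ∈ D.Ser`. If `D` is not generic: `dc_not_gnr` (R13; `mM_of`: `φ` is the only constituent). Otherwise replace `D` by the `D'` of `exists_fixD` (Q11; `hF D.x`): fixed coefficients, the same series. `ser_real`: there is `n ∈ (stD D').NN D'`; `exists_TD` with `x = D'.x` (`reg_refl`, `hts.ta`): `T : TD D' Γ D'.x`. If `φ = D'.star` use `dc_star` (R17), otherwise `dc_series` (R12).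
-/

namespace LieP

noncomputable section

open Classical

open ParkerGL (QM Qg cl dcf FixedField)

variable {Ω : Type} [Field Ω] [IsAlgClosed Ω] [CharZero Ω] {c : Parker.Ctx Ω}
  {Γ : Subgroup (RingAut Ω)} {K : Type} [Field K] [CharZero K] [Algebra K Ω]
  {G E : Type} [Group G] [Finite G] [NormedAddCommGroup E] [InnerProductSpace ℝ E]
  [FiniteDimensional ℝ E] {S : LieSys G E}

theorem tt_i (hK : FixedField Γ K) (hO : Parker.Ok c 1 Γ) (h2 : c.av 2 < 1)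
    (hts : ∀ S' : LieSys G E, TS (Ω := Ω) S' c)
    (hF : ∀ y, ∀ φ ∈ ir Ω (S.L y), ∀ g, Parker.Fx Γ (φ g))
    (hFH : ∀ φ ∈ ir Ω S.H, ∀ g, Parker.Fx Γ (φ g))
    (hIH : ∀ y, nz S y → TT (lev S y) c Γ K)
    (hii : ∀ φ ∈ ir Ω S.H, rl φ → Odd (Parker.dg φ) → ∀ M : QM K S.H,
      (∀ g : S.H, M.ch Ω g = φ g) → ∀ y, ∀ ψ ∈ ir Ω (S.L y), rl ψ → Odd (Parker.dg ψ) →
        mt (S.L y) φ (S.e Ω y) ψ ≠ 0 → mt (S.L y) φ (S.e Ω y) ψ = 1 ∧
          dcA c Γ M (S.e Ω y * cen (S.L y) ψ) = M.dc c Γ)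
    {N : ℕ} {ζ : Ω} (hζ : IsPrimitiveRoot ζ (2 ^ N - 1)) (hζf : Parker.Fx Γ ζ)
    (hN : Module.finrank ℝ E < N) :
    ∀ φ ∈ ir Ω S.H, rl φ → Even (Parker.dg φ) → ∀ (M : QM K S.H) (m : ℕ), Odd m →
      (∀ g : S.H, M.ch Ω g = m * φ g) → M.dc c Γ = 1 := by
  intro φ hφ hr he M m hm hM
  obtain ⟨-, hm0⟩ := mM_of (M := M) hφ hM
  obtain ⟨D, hD⟩ := exists_Ser (S := S) hφ
  have hcons : ∀ ψ ∈ ir Ω S.H, mM M ψ ≠ 0 → ψ = φ := by
    intro ψ hψ h
    by_contra hne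
    exact h (hm0 ψ hψ hne)
  by_cases hg : D.gnr
  · obtain ⟨D', -, he', hg', hS'⟩ := exists_fixD (Γ := Γ) D hg (hF D.x)
    have hD' : φ ∈ D'.Ser := by
      rw [hS']
      exact hD
    obtain ⟨n, hn⟩ := ser_real hD' hr
    obtain ⟨T⟩ := exists_TD (Γ := Γ) hg' ((hts S).ta D' hg') (reg_refl S D'.x) hn he' hFH
    by_cases hs : φ = D'.star
    · refine dc_star hK hO h2 hts hF hFH hIH hii hζ hζf hN T (hs ▸ he) M hm ?_
      intro g
      rw [hM g, hs]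
    · refine dc_series hK hO h2 hts hF hFH hIH hii hζ hζf hN T M ?_
      intro ψ hψ h
      rw [hcons ψ hψ h]
      exact ⟨hD', hs, he⟩
  · refine dc_not_gnr hK hO hg M ?_
    intro ψ hψ h
    rw [hcons ψ hψ h]
    exact hD

end

end LieP
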