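import Pool.Agent.LieP.V01
import Pool.Agent.LieP.A10
import Pool.Agent.LieP.A02
import Pool.Agent.LieP.A05

/-!
# MP_6c3636_al, LieP, module V03: parity of the dimension (8.1), (8.2) (helper64)

Section 8, (8.1), (8.2). `rk_parity` is `two_parity` for `U z` (`s11`, `w0`, `UH`). `e_dl_comm`: `u ∈ U z` normalizes `U y` for a face `y` of `z` (`U_normal_cm`), so `dl u` commutes with `av k (U y)` (`av_conj`, or `av_comm` with `L = U z`).
`rk_parity_e`: `rk_parity` for `e = S.e Ω y`; for `l ∈ lins (U z)`: `S.e Ω y * el = el` if `l = 1` on `U y` (`av_mul_el`, `U_mono`), `0` otherwise (`av_mul_el_zero`), `rk_zero`.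
`sum_gen`: insert `rk_parity_e` for `y = fc S z J` (`fc_spec`), exchange the sums, `sum_faces`: the sum is the sum of `rk φ (el Ω (U z) l)` over the regular `l ∈ lins (U z)`, all these numbers are `S.gen φ` (`gen_eq`), and the number of the regular `l` is odd (`card_Rg`), so `1` in `ZMod 2`.
-/

namespace LieP

noncomputable section

open Classical

variable {Ω : Type} [Field Ω] [IsAlgClosed Ω] [CharZero Ω] {G E : Type} [Group G] [Finite G]
  [NormedAddCommGroup E] [InnerProductSpace ℝ E] [FiniteDimensional ℝ E] (S : LieSys G E)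

theorem rk_parity {z : E} (hz : S.gn z) {φ : G → Ω} (hφ : φ ∈ ir Ω S.H) {e : Al Ω G}
    (he : e ∈ sb Ω S.H) (hee : e * e = e) (hc : ∀ u ∈ S.U z, e * dl u = dl u * e) :
    (rk φ e : ZMod 2) = ∑ l ∈ lins (S.U z), (rk φ (e * el Ω (S.U z) l) : ZMod 2) :=
  two_parity (S.UH z) (fun u hu => S.s11 z u hu) (fun u hu => S.w0 z hz u hu) hφ he hee hc

theorem e_dl_comm {z y : E} (hy : S.le y z) {u : G} (hu : u ∈ S.U z) :
    S.e Ω y * dl u = dl u * S.e Ω y := by
  have h : dl u * av Ω (S.U y) * dl u⁻¹ = av Ω (S.U y) :=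
    av_conj (H := S.U y) (H' := S.U y) (n := u) fun l => (U_normal_cm (S := S) hy hu).symm
  have h2 : (dl u⁻¹ : Al Ω G) * dl u = 1 := by
    simp only [dl]
    rw [MonoidAlgebra.single_mul_single]
    simp [MonoidAlgebra.one_def]
  show av Ω (S.U y) * dl u = dl u * av Ω (S.U y)
  calc av Ω (S.U y) * dl u = dl u * av Ω (S.U y) * dl u⁻¹ * dl u := by rw [h]
    _ = dl u * av Ω (S.U y) * (dl u⁻¹ * dl u) := by rw [mul_assoc]
    _ = dl u * av Ω (S.U y) := by rw [h2, mul_one]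

theorem rk_parity_e {z y : E} (hz : S.gn z) (hy : S.le y z) {φ : G → Ω} (hφ : φ ∈ ir Ω S.H) :
    (rk φ (S.e Ω y) : ZMod 2) = ∑ l ∈ (lins (S.U z)).filter (fun l => ∀ u ∈ S.U y, l u = 1),
      (rk φ (el Ω (S.U z) l) : ZMod 2) := by
  rw [rk_parity S hz hφ (e := S.e Ω y) (av_mem (S.UH y)) (av_idem _)
    (fun u hu => e_dl_comm S hy hu), Finset.sum_filter]
  refine Finset.sum_congr rfl fun l hl => ?_
  have hlin : Lin (S.U z) l := (mem_lins.1 hl).1
  have hle : S.U y ≤ S.U z := U_mono S hy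
  split_ifs with h
  · have h1 : S.e Ω y * el Ω (S.U z) l = el Ω (S.U z) l := av_mul_el hle hlin h
    rw [h1]
  · push Not at h
    obtain ⟨v, hv, hlv⟩ := h
    have h1 : S.e Ω y * el Ω (S.U z) l = 0 := av_mul_el_zero hle hlin hv hlv
    rw [h1, rk_zero, Nat.cast_zero]

/-- (8.2) -/
theorem sum_gen {z : E} (hz : S.gn z) {φ : G → Ω} (hφ : φ ∈ ir Ω S.H) :
    ∑ J ∈ (S.Dl z).powerset, (rk φ (S.e Ω (fc S z J)) : ZMod 2) = (S.gen φ : ZMod 2) := by
  have h1 : ∀ J ∈ (S.Dl z).powerset, (rk φ (S.e Ω (fc S z J)) : ZMod 2) =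
      ∑ l ∈ lins (S.U z), (if ∀ u ∈ S.U (fc S z J), l u = 1 then (1 : ZMod 2) else 0) *
        (rk φ (el Ω (S.U z) l) : ZMod 2) := by
    intro J hJ
    rw [rk_parity_e S hz (fc_spec S hz (Finset.mem_powerset.1 hJ)).1 hφ, Finset.sum_filter]
    refine Finset.sum_congr rfl fun l _ => ?_
    split_ifs
    · rw [one_mul]
    · rw [zero_mul]
  rw [Finset.sum_congr rfl h1, Finset.sum_comm]
  have h2 : ∀ l ∈ lins (S.U z), ∑ J ∈ (S.Dl z).powerset,
      (if ∀ u ∈ S.U (fc S z J), l u = 1 then (1 : ZMod 2) else 0) *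
        (rk φ (el Ω (S.U z) l) : ZMod 2) =
      if S.Rg z l then (S.gen φ : ZMod 2) else 0 := by
    intro l hl
    rw [← Finset.sum_mul, sum_faces S hz (mem_lins.1 hl).1]
    split_ifs with h
    · rw [one_mul, gen_eq S hz h hφ]
    · rw [zero_mul]
  rw [Finset.sum_congr rfl h2, ← Finset.sum_filter, Finset.sum_const, nsmul_eq_mul]
  have h3 : ((((lins (S.U z)).filter fun l => S.Rg z l).card : ℕ) : ZMod 2) = 1 :=
    ZMod.natCast_eq_one_iff_odd.2 (card_Rg S hz)
  rw [h3, one_mul]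

end

end LieP
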