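import Pool.Agent.LieP.G06
import Pool.Agent.LieP.G10

/-!
# MP_6c3636_al, LieP, module V04: the restriction of a regular character is regular (8.0) (helper64)

Section 8, (8.0). `lev_Rg_iff`: if `y'` is a face of `z` for `lev S y` then `cm y y'` is a face of `z` (`cm_pos`), `U (cm y y') ⊓ L y = U y' ⊓ L y` (`U_cm_L`), and `⟨a, cm y y'⟩ = 0` iff `⟨a,y⟩ = 0` and `⟨a,y'⟩ = 0` (`cm_zero`). A face of `z` is a face of `z` for `lev S y`.
`Rg_lev`: use `lev_Rg_iff`. Let `y'` be a face of `z`, `l = 1` on `U y' ⊓ L y`, and suppose that a root vanishing at `y` does not vanish at `y'`. By `JJ_rel` there is `b ∈ Dl z` with `⟨b,y⟩ = 0`, `⟨b,y'⟩ ≠ 0`. Put `y1 = fc S z (Dl z \ {b})` (`fc_spec`): `⟨b,y1⟩ > 0`, the other elements of `Dl z` vanish at `y1`; `y1 ≤ y'` (`face_le_iff`).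
Put `x = cm (-y) y1`. Claim: `l = 1` on `U z ⊓ U x`. Let `u` be in it. `s6` (split `u ∈ U z` by `y`, `z := 0`): `u = a b c`, all in `U z`, `a ∈ U y`, `b ∈ L y`, `c ∈ U (-y)`; no root is positive at `z` and at `-y`, so `c ∈ U 0 = ⊥` (`s1` with `z := 0`, `U_zero`, `s3`). Split `u ∈ U x` by `y`: `u = a' b' c'`, all in `U x`;
no root is positive at `y` and at `x` (`cm_pos`), so `a' = 1`. `decomp_unique`: `a = a' = 1`, so `u = b ∈ L y`. By `s1` (with `z := y`, for `U z` and `U x`): a root with `⟨·,y⟩ = 0`, positive at `z` and `x`, is positive at `y1`, so `u ∈ U y1 ⊓ L y ≤ U y' ⊓ L y` (`U_mono`), `l u = 1`.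
Now `w3` for `x` and `y1` (the only element of `Dl z` positive at `y1` is `b`, and `⟨b,x⟩ > 0` as `⟨b,y⟩ = 0`) gives `l = 1` on `U y1`, so `⟨b,y1⟩ = 0` by the regularity of `l`: contradiction.
-/

namespace LieP

noncomputable section

open Classical

variable {G E : Type} [Group G] [Finite G]
  [NormedAddCommGroup E] [InnerProductSpace ℝ E] [FiniteDimensional ℝ E] (S : LieSys G E)

omit [Finite G] in
theorem lev_Rg_iff {y z : E} (hy : S.le y z) {l : G → ℤˣ} :
    (lev S y).Rg z l ↔ Lin (S.U z ⊓ S.L y) l ∧ ∀ y', S.le y' z → (∀ u ∈ S.U y', u ∈ S.L y → l u = 1) →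
      ∀ a ∈ S.R, inner ℝ a y = 0 → inner ℝ a y' = 0 := by
  constructor
  · rintro ⟨h1, h2⟩
    refine ⟨h1, fun y' hy' hu a ha ha0 => ?_⟩
    refine h2 y' ?_ ?_ a ((mem_lR S).2 ⟨ha, ha0⟩)
    · intro b hb hb0
      exact hy' b ((mem_lR S).1 hb).1 hb0
    · rintro u ⟨hu1, hu2⟩
      exact hu u hu1 hu2
  · rintro ⟨h1, h2⟩
    refine ⟨h1, fun y' hy' hu a ha => ?_⟩
    have ha' := (mem_lR S).1 ha
    have h3 : S.le (S.cm y y') z := by
      intro b hb hb0
      rcases (cm_pos S hb).1 hb0 with h | ⟨h, h'⟩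
      · exact hy b hb h
      · exact hy' b ((mem_lR S).2 ⟨hb, h⟩) h'
    have h4 : ∀ u ∈ S.U (S.cm y y'), u ∈ S.L y → l u = 1 := by
      intro u hu1 hu2
      have h5 : u ∈ S.U (S.cm y y') ⊓ S.L y := ⟨hu1, hu2⟩
      rw [U_cm_L] at h5
      exact hu u h5
    exact ((cm_zero S ha'.1).1 (h2 _ h3 h4 a ha'.1 ha'.2)).2

omit [Finite G] in
/-- (8.0) -/
theorem Rg_lev {y z : E} (hz : S.gn z) (hy : S.le y z) {l : G → ℤˣ} (hl : S.Rg z l) :
    (lev S y).Rg z l := by
  rw [lev_Rg_iff S hy]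
  refine ⟨fun u hu v hv => hl.1 u hu.1 v hv.1, fun y' hy' hl' => ?_⟩
  by_contra hcon
  have h1 : ¬ ∀ a ∈ S.Dl z, inner ℝ a y = 0 → inner ℝ a y' = 0 := fun h => hcon (JJ_rel S hz hy h)
  push Not at h1
  obtain ⟨b, hb, hby, hby'⟩ := h1
  have hbz := S.s14 z hz b hb
  have hJ := fc_spec S hz (J := S.Dl z \ {b}) Finset.sdiff_subset
  generalize fc S z (S.Dl z \ {b}) = y1 at hJ
  have hby1 : 0 < inner ℝ b y1 := by
    have h0 : 0 ≤ inner ℝ b y1 := le_nonneg S hJ.1 hbz.1 hbz.2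
    rcases h0.lt_or_eq with h | h
    · exact h
    · exfalso
      have h2 : b ∈ JJ S z y1 := Finset.mem_filter.2 ⟨hb, h.symm⟩
      rw [hJ.2] at h2
      exact (Finset.mem_sdiff.1 h2).2 (Finset.mem_singleton_self b)
  have hoth : ∀ a ∈ S.Dl z, 0 < inner ℝ a y1 → a = b := by
    intro a ha h0
    by_contra hne
    have h2 : a ∈ JJ S z y1 := by
      rw [hJ.2]
      exact Finset.mem_sdiff.2 ⟨ha, fun h => hne (Finset.mem_singleton.1 h)⟩
    rw [(Finset.mem_filter.1 h2).2] at h0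
    exact lt_irrefl _ h0
  have hle : S.le y1 y' := by
    rw [face_le_iff S hz hJ.1 hy', hJ.2]
    intro a ha
    have ha' := Finset.mem_filter.1 ha
    rw [Finset.mem_sdiff, Finset.mem_singleton]
    refine ⟨ha'.1, fun h => hby' ?_⟩
    rw [← h]
    exact ha'.2
  have key : ∀ u ∈ S.U z, u ∈ S.U (S.cm (-y) y1) → l u = 1 := by
    intro u hu1 hu2
    have hH : ∀ w, S.U w ≤ S.L 0 := by
      intro w
      rw [S.s3]
      exact S.UH w
    obtain ⟨a, ha, b1, hb1, c, hc, ha', hb1', hc', e⟩ := S.s6 y z 0 u ⟨hu1, hH _ hu1⟩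
    obtain ⟨a2, ha2, b2, hb2, c2, hc2, ha2', hb2', hc2', e2⟩ :=
      S.s6 y (S.cm (-y) y1) 0 u ⟨hu2, hH _ hu2⟩
    have hc1 : c = 1 := by
      have h2 : c ∈ S.U 0 := by
        refine S.s1 z (-y) 0 0 (fun a ha _ h1 h2 => ?_) c hc.1 hc' hc.2
        exfalso
        rw [inner_neg_right] at h2
        have h3 := le_nonneg S hy ha h1
        linarith
      rw [U_zero] at h2
      exact Subgroup.mem_bot.1 h2
    have ha1 : a2 = 1 := by
      have h2 : a2 ∈ S.U 0 := by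
        refine S.s1 (S.cm (-y) y1) y 0 0 (fun a ha _ h1 h2 => ?_) a2 ha2.1 ha2' ha2.2
        exfalso
        rcases (cm_pos S ha).1 h1 with h | ⟨h, h'⟩
        · rw [inner_neg_right] at h
          linarith
        · rw [inner_neg_right] at h
          linarith
      rw [U_zero] at h2
      exact Subgroup.mem_bot.1 h2
    have huq := decomp_unique S ha' hb1' hc' ha2' hb2' hc2' (e.symm.trans e2)
    have hub : u = b1 := by
      rw [e, huq.1, ha1, hc1, one_mul, mul_one]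
    have huL : u ∈ S.L y := by
      rw [hub]
      exact hb1'
    have hu3 : u ∈ S.U y1 := by
      refine S.s1 z (S.cm (-y) y1) y1 y (fun a ha h0 h1 h2 => ?_) u hu1 hu2 huL
      rcases (cm_pos S ha).1 h2 with h | ⟨h, h'⟩
      · rw [inner_neg_right, h0, neg_zero] at h
        exact absurd h (lt_irrefl _)
      · exact h'
    exact hl' u (U_mono S hle hu3) huL
  have h2 := S.w3 z hz l hl.1 (S.cm (-y) y1) y1 key hJ.1 (fun a ha h0 => by
    rw [hoth a ha h0]
    refine (cm_pos S hbz.1).2 (Or.inr ⟨?_, hby1⟩)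
    rw [inner_neg_right, hby, neg_zero])
  exact absurd (hl.2 y1 hJ.1 h2 b hbz.1) hby1.ne'

/-- the first step of (9.4): every character is regular for the Levi system of a face on whose unipotent radical it is trivial.
Take for `y` the face with `JJ S z y = J0` (`exists_J0`, `fc_spec`). `lev_Rg_iff`: let `y'` be a face of `z`, `l = 1` on `U y' ⊓ L y`. `y + y'` is a face of `z` in the facet of `cm y y'`, so `l = 1` on `U (y + y')` (`mem_U_cm`), so `J0 ⊆ JJ S z (y + y') = JJ S z y ∩ JJ S z y'`; `JJ_rel`. -/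
theorem exists_face_Rg {z : E} (hz : S.gn z) {l : G → ℤˣ} (hl : Lin (S.U z) l) :
    ∃ y, S.le y z ∧ (∀ u ∈ S.U y, l u = 1) ∧ (lev S y).Rg z l := by
  obtain ⟨J0, hJ0, hJ⟩ := exists_J0 S hz hl
  have hf := fc_spec S hz hJ0
  generalize fc S z J0 = y at hf
  have h1 : ∀ u ∈ S.U y, l u = 1 := (hJ y hf.1).2 (by rw [hf.2])
  refine ⟨y, hf.1, h1, ?_⟩
  rw [lev_Rg_iff S hf.1]
  refine ⟨fun u hu v hv => hl u hu.1 v hv.1, fun y' hy' hl' => ?_⟩
  have hs := le_add_left S hf.1 hy'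
  have heq : S.eqv (S.cm y y') (y + y') := by
    rw [eqv_iff]
    intro a ha
    rw [cm_pos S ha]
    constructor
    · rintro (h | ⟨h, h'⟩)
      · have h2 := le_nonneg S hy' ha (hf.1 a ha h)
        rw [inner_add_right]
        linarith
      · rw [inner_add_right]
        linarith
    · intro h
      have h2 := le_nonneg S hf.1 ha (hs.2 a ha h)
      rcases h2.lt_or_eq with h3 | h3
      · exact Or.inl h3
      · refine Or.inr ⟨h3.symm, ?_⟩
        rw [inner_add_right] at h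
        linarith
  have h2 : ∀ u ∈ S.U (y + y'), l u = 1 := by
    intro u hu
    rw [← U_eqv S heq] at hu
    obtain ⟨a, ha, b, hb, hbL, rfl⟩ := (mem_U_cm S).1 hu
    rw [hl a (U_mono S hf.1 ha) b (U_mono S hy' hb), h1 a ha, hl' b hb hbL, mul_one]
  have h3 := (hJ _ hs.2).1 h2
  rw [JJ_add S hz hf.1 hy'] at h3
  refine JJ_rel S hz hf.1 fun a ha ha0 => ?_
  have h4 : a ∈ J0 := by
    rw [← hf.2]
    exact Finset.mem_filter.2 ⟨ha, ha0⟩
  exact (Finset.mem_filter.1 (Finset.mem_inter.1 (h3 h4)).2).2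

end

end LieP
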