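import Pool.Agent.LieP.V04
import Pool.Agent.LieP.A02

/-!
# MP_6c3636_al, LieP, module V05: Whittaker vectors in induced modules (8.4), part 1 (helper64)

Section 8, (8.4). `z` generic, `l` regular. `rod_le`: for `u ∈ U z ⊓ U x`: `el * e = el * dl u * e = l u • el * e` (`el_dl`, `dl_av`), so `l u = 1`. Let `b ∈ Dl z` with `⟨b,x⟩ > 0`; put `y = fc S z (Dl z \ {b})` (`fc_spec`): `b` is the only element of `Dl z` positive at `y`, so `w3` (for `x`, `y`)
gives `l = 1` on `U y` and by regularity `⟨b,y⟩ = 0`, contradiction. So `⟨b,-x⟩ ≥ 0` for all `b ∈ Dl z`, `le_gn_iff`.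
`rod_fix`: `el * dl n * b * e x = el * dl n * e x * b` (`av_comm`, `s4`) `= el * e (ac n x) * dl n * b` (`av_conj`, `conj_U`), so `rod_le` for `ac n x` gives `le (ac n (-x)) z` (`map_neg`), `face_fix`: `ac n (-x) = -x`, so `ac n x = x`, `fix_iff`.
`rod_span`: let `z'` be generic with `x ≤ z'` (`exists_gn_ge`). `s9` for `z`, `z'`: `g = u s n s' u'`, `s' u' ∈ P z' ≤ P x` (`P_mono`, `mem_P`): `s' u' = q v`, `q ∈ L x`, `v ∈ U x`. `el * dl g * e = l u • el * dl s * dl n * dl q * e` (`el_dl`, `dl_av`), `el * dl s = dl s * el'` with `el' = el Ω (U z) l'`, `l' u = l (s u s⁻¹)`,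
which is regular (`Rg_L`; `el_conj`, `L_conj`). If `el' * dl n * dl q * e = 0` take `b = 0`. Otherwise `n ∈ L x` (`rod_fix`), `s ∈ L z ≤ L (-x) = L x` (`L_le`, `L_neg`), take `b = l u • dl (s * n * q)`.
-/

namespace LieP

noncomputable section

open Classical

variable {k : Type} [Field k] [CharZero k] {G E : Type} [Group G] [Finite G]
  [NormedAddCommGroup E] [InnerProductSpace ℝ E] [FiniteDimensional ℝ E] (S : LieSys G E)

omit [Finite G] in
private theorem units_eq_one_of_smul {a : Al k G} (ha : a ≠ 0) {c : ℤˣ} (h : a = (((c : ℤˣ) : ℤ) : k) • a) : c = 1 := by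
  rcases Int.units_eq_one_or c with h1 | h1
  · exact h1
  · exfalso
    rw [h1, Units.val_neg, Units.val_one, Int.cast_neg, Int.cast_one, neg_smul, one_smul] at h
    have h2 : (2 : k) • a = 0 := by
      rw [two_smul]
      nth_rewrite 2 [h]
      rw [add_neg_cancel]
    rcases smul_eq_zero.1 h2 with h3 | h3
    · exact two_ne_zero h3
    · exact ha h3

theorem rod_le {z : E} (hz : S.gn z) {l : G → ℤˣ} (hl : S.Rg z l) {x : E}
    (h : el k (S.U z) l * S.e k x ≠ 0) : S.le (-x) z := by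
  by_contra hcon
  rw [le_gn_iff S hz] at hcon
  push Not at hcon
  obtain ⟨b, hb, hbx⟩ := hcon
  rw [inner_neg_right, neg_lt_zero] at hbx
  obtain ⟨hy, hJ⟩ := fc_spec S hz (Finset.erase_subset b (S.Dl z))
  set y := fc S z ((S.Dl z).erase b) with hydef
  have h1 : ∀ u ∈ S.U z, u ∈ S.U x → l u = 1 := by
    intro u hu hux
    refine units_eq_one_of_smul h ?_
    rw [← smul_mul_assoc, ← el_dl hl.1 hu, mul_assoc]
    congr 1
    exact (dl_av hux).symm
  have h3 : ∀ a ∈ S.Dl z, 0 < inner ℝ a y → 0 < inner ℝ a x := by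
    intro a ha hay
    by_cases hab : a = b
    · rw [hab]
      exact hbx
    · exfalso
      have h4 : a ∈ JJ S z y := by
        rw [hJ]
        exact Finset.mem_erase.2 ⟨hab, ha⟩
      exact hay.ne' (Finset.mem_filter.1 h4).2
  have h5 := S.w3 z hz l hl.1 x y h1 hy h3
  have h6 := hl.2 y hy h5 b (S.s14 z hz b hb).1
  have h7 : b ∈ JJ S z y := Finset.mem_filter.2 ⟨hb, h6⟩
  rw [hJ] at h7
  exact (Finset.mem_erase.1 h7).1 rfl

theorem rod_fix {z : E} (hz : S.gn z) {l : G → ℤˣ} (hl : S.Rg z l) {x : E} (hx : S.le (-x) z) {n : G}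
    (hn : n ∈ S.N) {b : Al k G} (hb : b ∈ sb k (S.L x))
    (h : el k (S.U z) l * dl n * b * S.e k x ≠ 0) : n ∈ S.L x := by
  have h1 : b * S.e k x = S.e k x * b := av_comm (S.s4 x) hb
  have h2 : dl n * S.e k x * dl n⁻¹ = S.e k (S.ac n x) := av_conj fun u => conj_U S hn
  have h3 : (dl n⁻¹ : Al k G) * dl n = 1 := by rw [← dl_mul, inv_mul_cancel, dl_one]
  have h4 : el k (S.U z) l * dl n * b * S.e k x = el k (S.U z) l * S.e k (S.ac n x) * (dl n * b) := by
    rw [← h2, mul_assoc, h1]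
    simp only [mul_assoc]
    rw [← mul_assoc (dl n⁻¹) (dl n) b, h3, one_mul]
  rw [h4] at h
  have h5 : el k (S.U z) l * S.e k (S.ac n x) ≠ 0 := left_ne_zero_of_mul h
  have h6 := rod_le S hz hl h5
  have h7 : S.ac n (-x) = -(S.ac n x) := map_neg (S.ac n) x
  rw [← h7] at h6
  have h8 := face_fix S hz hn hx h6
  rw [h7, neg_inj] at h8
  exact (fix_iff S hn).1 h8

theorem rod_span {z : E} (hz : S.gn z) {l : G → ℤˣ} (hl : S.Rg z l) {x : E} (hx : S.le (-x) z) {g : G}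
    (hg : g ∈ S.H) :
    ∃ b ∈ sb k (S.L x), el k (S.U z) l * dl g * S.e k x = el k (S.U z) l * b * S.e k x := by
  obtain ⟨z', hz', hxz'⟩ := exists_gn_ge S x
  obtain ⟨u, hu, s, hs, n, hn, s', hs', u', hu', rfl⟩ := S.s9 z z' hz hz' g hg
  have h1 : s' * u' ∈ S.P x := P_mono S hxz' (Subgroup.mul_mem _ (L_le_P S z' hs') (U_le_P S z' hu'))
  obtain ⟨q, hq, v, hv, hqv⟩ := (mem_P S).1 h1
  have hsinv : s⁻¹ ∈ S.L z := Subgroup.inv_mem _ hs
  have h2 : dl s⁻¹ * el k (S.U z) l * dl s⁻¹⁻¹ = el k (S.U z) (fun g => l (s⁻¹⁻¹ * g * s⁻¹)) :=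
    el_conj (fun w => (L_conj S hsinv).symm) l
  rw [inv_inv] at h2
  have h3 : (dl s : Al k G) * dl s⁻¹ = 1 := by rw [← dl_mul, mul_inv_cancel, dl_one]
  have h4 : el k (S.U z) l * dl s = dl s * el k (S.U z) (fun g => l (s * g * s⁻¹)) := by
    rw [← h2, ← mul_assoc, ← mul_assoc, h3, one_mul]
  obtain ⟨f, hf⟩ : ∃ f, f = el k (S.U z) (fun g => l (s * g * s⁻¹)) := ⟨_, rfl⟩
  rw [← hf] at h4
  have h5 : el k (S.U z) l * dl (u * s * n * s' * u') * S.e k x =
      (((l u : ℤˣ) : ℤ) : k) • (dl s * (f * dl n * dl q * S.e k x)) := by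
    have h6 : u * s * n * s' * u' = u * (s * (n * (q * v))) := by
      rw [← hqv]
      simp only [mul_assoc]
    have h7 : dl v * S.e k x = S.e k x := dl_av hv
    rw [h6, dl_mul, dl_mul, dl_mul, dl_mul]
    simp only [mul_assoc]
    rw [h7, ← mul_assoc (el k (S.U z) l) (dl u), el_dl hl.1 hu, smul_mul_assoc, ← mul_assoc (el k (S.U z) l) (dl s), h4]
    simp only [mul_assoc]
  by_cases h8 : f * dl n * dl q * S.e k x = 0
  · refine ⟨0, Subalgebra.zero_mem _, ?_⟩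
    rw [h5, h8, mul_zero, smul_zero, mul_zero, zero_mul]
  · have h9 : n ∈ S.L x := rod_fix S hz (Rg_L S hl hs) hx hn (dl_mem.2 hq) (hf ▸ h8)
    have h10 : s ∈ S.L x := by
      have := L_le S hx hs
      rwa [L_neg] at this
    refine ⟨(((l u : ℤˣ) : ℤ) : k) • dl (s * n * q), Subalgebra.smul_mem _ (dl_mem.2 (Subgroup.mul_mem _
      (Subgroup.mul_mem _ h10 h9) hq)) _, ?_⟩
    rw [h5, mul_smul_comm, smul_mul_assoc, dl_mul, dl_mul]
    congr 1
    simp only [mul_assoc]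
    rw [← mul_assoc (el k (S.U z) l) (dl s), h4, mul_assoc]

theorem rod_span_sb {z : E} (hz : S.gn z) {l : G → ℤˣ} (hl : S.Rg z l) {x : E} (hx : S.le (-x) z)
    {a : Al k G} (ha : a ∈ sb k S.H) :
    ∃ b ∈ sb k (S.L x), el k (S.U z) l * a * S.e k x = el k (S.U z) l * b * S.e k x := by
  refine sb_induction (p := fun a => ∃ b ∈ sb k (S.L x),
    el k (S.U z) l * a * S.e k x = el k (S.U z) l * b * S.e k x) ⟨0, Subalgebra.zero_mem _, rfl⟩ ?_ ?_ ha
  · rintro a a' ⟨b, hb, hab⟩ ⟨b', hb', hab'⟩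
    refine ⟨b + b', Subalgebra.add_mem _ hb hb', ?_⟩
    rw [mul_add, add_mul, hab, hab', ← add_mul, ← mul_add]
  · intro r g hg
    obtain ⟨b, hb, hab⟩ := rod_span (k := k) S hz hl hx hg
    refine ⟨r • b, Subalgebra.smul_mem _ hb _, ?_⟩
    rw [mul_smul_comm, smul_mul_assoc, hab, mul_smul_comm, smul_mul_assoc]

end

end LieP
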