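import Pool.Agent.LieP.V03
import Pool.Agent.LieP.V04
import Pool.Agent.LieP.A02

/-!
# MP_6c3636_al, LieP, module V07: generic cuspidal idempotents (8.5) (helper64)

Section 8, (8.5). `D.tp` is the irreducible character of `L D.x` of the primitive idempotent `D.ε` (`prim_unique`).
`gnr_iff_gen`: by `lev_Rg_iff` `D.gnr` says that there are a generic `z` with `D.x ≤ z` and `l` with `(lev S D.x).Rg z l` and `el Ω (U z ⊓ L D.x) l * a * D.ε ≠ 0` for some `a ∈ sb Ω (L D.x)`; by `exists_common` and `tp_spec` the last condition is `rk D.tp (el ..) ≠ 0`, and by `gen_eq` for `lev S D.x` (`lev_gn_of`) this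
rank is `(lev S D.x).gen D.tp`, which is `≤ 1` (`gen_le`). Conversely `exists_gn_ge`, `exists_Rg` for `lev S D.x`.
`cusp_rk`: `D.lft` and `exists_common`: if `U y ⊓ L D.x` is not trivial then `rk D.tp (av Ω (U y ⊓ L D.x)) = 0`.
`cusp_parity`: `sum_gen` for `lev S D.x` and `D.tp`: for a face `y` of `z` (in `lev S D.x`) the element `(lev S D.x).e Ω y` is `av Ω (U y ⊓ L D.x)`. If some root of `lev S D.x` does not vanish at `y`, then one is positive at `y` and the element of `s10` for `lev S D.x` is in `U y ⊓ L D.x`, not `1`: the rank is `0`. Otherwise `JJ (lev S D.x) z y = Dl`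
(`JJ_top`), `y` is in the facet of `0`, `U = ⊥` (`U_eqv`, `U_zero`), `av_bot`, `rk_one`: the rank is `dg D.tp`. So only `J = (lev S D.x).Dl z` contributes.
`gnr_iff_odd`: `gnr_iff_gen`, `cusp_parity`, `gen_le`.
-/

namespace LieP

noncomputable section

open Classical

variable {Ω : Type} [Field Ω] [IsAlgClosed Ω] [CharZero Ω] {G E : Type} [Group G] [Finite G]
  [NormedAddCommGroup E] [InnerProductSpace ℝ E] [FiniteDimensional ℝ E] {S : LieSys G E}

namespace LieSys.Cs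

/-- the irreducible character of the Levi subgroup -/
def tp (D : S.Cs Ω) : G → Ω := if h : ∃ ψ ∈ ir Ω (S.L D.x), rk ψ D.ε ≠ 0 then h.choose else 0

theorem tp_spec (D : S.Cs Ω) : D.tp ∈ ir Ω (S.L D.x) ∧ rk D.tp D.ε = 1 ∧
    ∀ ψ ∈ ir Ω (S.L D.x), ψ ≠ D.tp → rk ψ D.ε = 0 := by
  obtain ⟨φ, hφ, h1, h0⟩ := prim_unique D.mem D.idem D.ne D.prim
  have hex : ∃ ψ ∈ ir Ω (S.L D.x), rk ψ D.ε ≠ 0 := ⟨φ, hφ, by rw [h1]; exact one_ne_zero⟩
  have htp : D.tp = φ := by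
    unfold tp
    rw [dif_pos hex]
    by_contra hne
    exact hex.choose_spec.2 (h0 _ hex.choose_spec.1 hne)
  rw [htp]
  exact ⟨hφ, h1, h0⟩

theorem gnr_iff_gen (D : S.Cs Ω) : D.gnr ↔ (lev S D.x).gen D.tp = 1 := by
  obtain ⟨hφ, h1, h0⟩ := D.tp_spec
  constructor
  · rintro ⟨z, l, hz, hxz, hl, hreg, a, ha, hne⟩
    have hRg : (lev S D.x).Rg z l := (lev_Rg_iff S hxz).2 ⟨hl, hreg⟩
    have hgen := gen_eq (lev S D.x) (lev_gn_of S hz) hRg (φ := D.tp) hφ
    obtain ⟨φ, hφ', hr, hr'⟩ := (exists_common (H := S.L D.x) (a := el Ω (S.U z ⊓ S.L D.x) l)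
      (el_mem inf_le_right l) (el_idem hl) D.mem D.idem).1 ⟨a, ha, hne⟩
    have he : φ = D.tp := by
      by_contra h
      exact hr' (h0 φ hφ' h)
    subst he
    have h2 : (lev S D.x).gen D.tp ≠ 0 := by
      rw [hgen]
      exact hr
    have h3 := gen_le (lev S D.x) (φ := D.tp) hφ
    omega
  · intro hg
    obtain ⟨z, hz, hxz⟩ := exists_gn_ge S D.x
    obtain ⟨l, -, hRg⟩ := exists_Rg (lev S D.x) (lev_gn_of S hz)
    have hgen := gen_eq (lev S D.x) (lev_gn_of S hz) hRg (φ := D.tp) hφ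
    obtain ⟨hl, hreg⟩ := (lev_Rg_iff S hxz).1 hRg
    rw [hg] at hgen
    have hr : rk D.tp (el Ω (S.U z ⊓ S.L D.x) l) ≠ 0 := by
      intro h
      have h2 : rk D.tp (el Ω ((lev S D.x).U z) l) = 0 := h
      rw [h2] at hgen
      exact one_ne_zero hgen
    obtain ⟨a, ha, hne⟩ := (exists_common (H := S.L D.x) (a := el Ω (S.U z ⊓ S.L D.x) l)
      (el_mem inf_le_right l) (el_idem hl) D.mem D.idem).2 ⟨D.tp, hφ, hr, by rw [h1]; exact one_ne_zero⟩
    exact ⟨z, l, hz, hxz, hl, hreg, a, ha, hne⟩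

theorem cusp_rk (D : S.Cs Ω) {y : E} (h : ∃ g ∈ S.U y, g ∈ S.L D.x ∧ g ≠ 1) :
    rk D.tp (av Ω (S.U y ⊓ S.L D.x)) = 0 := by
  obtain ⟨hφ, h1, h0⟩ := D.tp_spec
  by_contra hne
  obtain ⟨a, ha, hne'⟩ := (exists_common (H := S.L D.x) (a := av Ω (S.U y ⊓ S.L D.x))
    (av_mem inf_le_right) (av_idem _) D.mem D.idem).2 ⟨D.tp, hφ, hne, by rw [h1]; exact one_ne_zero⟩
  exact hne' (D.lft y h a ha)

theorem cusp_parity (D : S.Cs Ω) :
    (Parker.dg D.tp : ZMod 2) = ((lev S D.x).gen D.tp : ZMod 2) := by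
  obtain ⟨hφ, h1, h0⟩ := D.tp_spec
  obtain ⟨z, hz⟩ := exists_gn (lev S D.x)
  rw [← sum_gen (lev S D.x) hz (φ := D.tp) hφ]
  rw [Finset.sum_eq_single ((lev S D.x).Dl z)]
  · obtain ⟨hle, hJ⟩ := fc_spec (lev S D.x) hz (Finset.Subset.refl ((lev S D.x).Dl z))
    have h2 := (JJ_top (lev S D.x) hz hle).1 hJ
    have h3 : (lev S D.x).eqv (fc (lev S D.x) z ((lev S D.x).Dl z)) 0 := by
      rw [eqv_iff]
      intro a ha
      rw [h2 a ha, inner_zero_right]
    have h4 : (lev S D.x).e Ω (fc (lev S D.x) z ((lev S D.x).Dl z)) = 1 := by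
      show av Ω ((lev S D.x).U _) = 1
      rw [U_eqv (lev S D.x) h3, U_zero, av_bot]
    rw [h4, rk_one hφ]
  · intro J hJ hne
    obtain ⟨hle, hJ'⟩ := fc_spec (lev S D.x) hz (Finset.mem_powerset.1 hJ)
    have h2 : ∃ a ∈ (lev S D.x).R, inner ℝ a (fc (lev S D.x) z J) ≠ 0 := by
      by_contra h
      push Not at h
      have h3 := (JJ_top (lev S D.x) hz hle).2 h
      rw [hJ'] at h3
      exact hne h3
    have h3 : ∃ a ∈ (lev S D.x).R, 0 < inner ℝ a (fc (lev S D.x) z J) := by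
      obtain ⟨a, ha, hne2⟩ := h2
      rcases lt_or_gt_of_ne hne2 with h | h
      · exact ⟨-a, (lev S D.x).neg a ha, by rw [inner_neg_left]; linarith⟩
      · exact ⟨a, ha, h⟩
    obtain ⟨a, ha, hpos⟩ := h3
    obtain ⟨g, hg1, hg⟩ := (lev S D.x).s10 a ha
    have hgU : g ∈ S.U (fc (lev S D.x) z J) ⊓ S.L D.x := (hg _).1 hpos
    have h4 := D.cusp_rk ⟨g, hgU.1, hgU.2, hg1⟩
    have h5 : rk D.tp ((lev S D.x).e Ω (fc (lev S D.x) z J)) = 0 := h4
    rw [h5, Nat.cast_zero]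
  · intro h
    exact absurd (Finset.mem_powerset.2 (Finset.Subset.refl _)) h

/-- (8.5) -/
theorem gnr_iff_odd (D : S.Cs Ω) : D.gnr ↔ Odd (Parker.dg D.tp) := by
  obtain ⟨hφ, h1, h0⟩ := D.tp_spec
  have h2 := gen_le (lev S D.x) (φ := D.tp) hφ
  have h3 := D.cusp_parity
  rw [gnr_iff_gen, ← ZMod.natCast_eq_one_iff_odd, h3, ZMod.natCast_eq_one_iff_odd]
  constructor
  · intro h
    rw [h]
    exact odd_one
  · intro h
    have h4 := h.pos
    omega

end LieSys.Cs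

end

end LieP
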