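import Pool.Agent.LieP.V06
import Pool.Agent.LieP.V07

/-!
# MP_6c3636_al, LieP, module V08: the generic member of a series (8.6) (helper64)

Section 8, (8.6). `D.f x = S.e Ω x * D.ε` is an idempotent of `sb Ω S.H` for `x` regular (`L x = L D.x` (`L_reg`), `av_comm` with `s4`). `sum_gen_f`: `rodier` with `x` and `p = D.ε` (`L x = L D.x`), `tp_spec`: the right side is `(lev S x).gen D.tp = (lev S D.x).gen D.tp` (`lev_reg_gen`).
`star_spec`: `gnr_iff_gen`, `sum_gen_f` for `x = D.x`: a sum of natural numbers which is `1` has exactly one nonzero term and this is `1`: there is `φ` with `gen φ = 1`, `rk φ (D.f D.x) = 1`, `gen ψ * rk ψ (D.f D.x) = 0` for the other `ψ ∈ ir Ω S.H`; so `D.star = φ` by its definition (`Ser`: `rk ≠ 0`).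
`not_gnr`: the sum is `0` (`gen_le`, `gnr_iff_gen`).
-/

namespace LieP

noncomputable section

open Classical

variable {Ω : Type} [Field Ω] [IsAlgClosed Ω] [CharZero Ω] {G E : Type} [Group G] [Finite G]
  [NormedAddCommGroup E] [InnerProductSpace ℝ E] [FiniteDimensional ℝ E] {S : LieSys G E}

namespace LieSys.Cs

theorem f_mem_H (D : S.Cs Ω) {x : E} (hx : S.Reg D.x x) : D.f x ∈ sb Ω S.H := by
  have _h := hx
  exact (sb Ω S.H).mul_mem (av_mem (S.UH x)) (sb_mono (S.LH D.x) D.mem)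

theorem f_idem_H (D : S.Cs Ω) {x : E} (hx : S.Reg D.x x) : D.f x * D.f x = D.f x := by
  have hm : D.ε ∈ sb Ω (S.L x) := by
    rw [← L_reg S hx]
    exact D.mem
  have hc : D.ε * S.e Ω x = S.e Ω x * D.ε := av_comm (S.s4 x) hm
  have he : S.e Ω x * S.e Ω x = S.e Ω x := av_idem _
  calc D.f x * D.f x = S.e Ω x * (D.ε * S.e Ω x) * D.ε := by
        simp only [LieSys.Cs.f, mul_assoc]
    _ = (S.e Ω x * S.e Ω x) * (D.ε * D.ε) := by
        rw [hc]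
        simp only [mul_assoc]
    _ = D.f x := by
        rw [he, D.idem]
        rfl

theorem sum_gen_f (D : S.Cs Ω) {x : E} (hx : S.Reg D.x x) :
    ∑ φ ∈ ir Ω S.H, S.gen φ * rk φ (D.f x) = (lev S D.x).gen D.tp := by
  have hm : D.ε ∈ sb Ω (S.L x) := by
    rw [← L_reg S hx]
    exact D.mem
  have h1 := rodier S x hm D.idem
  obtain ⟨ht, ht1, ht0⟩ := D.tp_spec
  rw [← L_reg S hx] at h1
  have h2 : ∑ ψ ∈ ir Ω (S.L D.x), (lev S x).gen ψ * rk ψ D.ε = (lev S x).gen D.tp := by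
    rw [Finset.sum_eq_single D.tp]
    · rw [ht1, mul_one]
    · intro ψ hψ hne
      rw [ht0 ψ hψ hne, mul_zero]
    · intro h
      exact absurd ht h
  rw [h2, lev_reg_gen S hx] at h1
  exact h1

theorem mem_Ser (D : S.Cs Ω) {φ : G → Ω} : φ ∈ D.Ser ↔ φ ∈ ir Ω S.H ∧ rk φ (D.f D.x) ≠ 0 := by
  unfold LieSys.Cs.Ser
  rw [Finset.mem_filter]

/-- (8.6) -/
theorem star_spec (D : S.Cs Ω) (h : D.gnr) : D.star ∈ D.Ser ∧ S.gen D.star = 1 ∧
    rk D.star (D.f D.x) = 1 ∧ ∀ ψ ∈ D.Ser, S.gen ψ ≠ 0 → ψ = D.star := by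
  have h1 := D.sum_gen_f (reg_refl S D.x)
  rw [D.gnr_iff_gen.1 h] at h1
  obtain ⟨φ, hφ, hφ0⟩ : ∃ φ ∈ ir Ω S.H, S.gen φ * rk φ (D.f D.x) ≠ 0 := by
    by_contra hcon
    push Not at hcon
    rw [Finset.sum_eq_zero hcon] at h1
    exact absurd h1 (by norm_num)
  have h2 := Finset.add_sum_erase (ir Ω S.H) (fun φ => S.gen φ * rk φ (D.f D.x)) hφ
  rw [h1] at h2
  have h3 : S.gen φ * rk φ (D.f D.x) = 1 := by omega
  have h4 : ∑ x ∈ (ir Ω S.H).erase φ, S.gen x * rk x (D.f D.x) = 0 := by omega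
  have hg : S.gen φ = 1 := Nat.eq_one_of_mul_eq_one_right h3
  have hr : rk φ (D.f D.x) = 1 := Nat.eq_one_of_mul_eq_one_left h3
  have huniq : ∀ ψ ∈ D.Ser, S.gen ψ ≠ 0 → ψ = φ := by
    intro ψ hψ hψ0
    rw [mem_Ser] at hψ
    by_contra hne
    have h5 := (Finset.sum_eq_zero_iff.1 h4) ψ (Finset.mem_erase.2 ⟨hne, hψ.1⟩)
    rcases Nat.mul_eq_zero.1 h5 with h6 | h6
    · exact hψ0 h6
    · exact hψ.2 h6
  have hS : φ ∈ D.Ser := by
    rw [mem_Ser]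
    refine ⟨hφ, ?_⟩
    rw [hr]
    exact one_ne_zero
  have hex : ∃ φ ∈ D.Ser, S.gen φ ≠ 0 := ⟨φ, hS, by rw [hg]; exact one_ne_zero⟩
  have hstar : D.star = φ := by
    unfold LieSys.Cs.star
    rw [dif_pos hex]
    exact huniq _ hex.choose_spec.1 hex.choose_spec.2
  rw [hstar]
  exact ⟨hS, hg, hr, huniq⟩

theorem star_eq (D : S.Cs Ω) (h : D.gnr) {φ : G → Ω} (hφ : φ ∈ D.Ser) (h1 : S.gen φ ≠ 0) :
    D.star = φ := ((D.star_spec h).2.2.2 φ hφ h1).symm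

theorem not_gnr (D : S.Cs Ω) (h : ¬ D.gnr) {ψ : G → Ω} (hψ : ψ ∈ D.Ser) : S.gen ψ = 0 := by
  have h1 := D.sum_gen_f (reg_refl S D.x)
  have h2 : (lev S D.x).gen D.tp ≤ 1 := gen_le (lev S D.x) D.tp_spec.1
  have h3 : (lev S D.x).gen D.tp ≠ 1 := fun h3 => h (D.gnr_iff_gen.2 h3)
  have h4 : (lev S D.x).gen D.tp = 0 := by omega
  rw [h4] at h1
  rw [mem_Ser] at hψ
  have h5 := (Finset.sum_eq_zero_iff.1 h1) ψ hψ.1
  rcases Nat.mul_eq_zero.1 h5 with h6 | h6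
  · exact h6
  · exact absurd h6 hψ.2

end LieSys.Cs

end

end LieP
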