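import Pool.Agent.LieP.R18
import Pool.Agent.LieP.R10
import Pool.Agent.LieP.G04

/-!
# MP_6c3636_al, LieP, module Z01: the induction of section 12 (helper7)

Section 12, induction. Strong induction on `Nat.card S.H`. For `y` with `nz S y`: `Nat.card (S.L y) < Nat.card S.H` (`card_lt`), `S.L y ≤ S.H` (divisibility of the orders), the Levi subgroups of `lev S y` are Levi subgroups of `S` (`lev_L_cm`). `tt_i` (R18), `tt_ii` (R10) give the two fields. `S.H = S.L 0` (`s3`).
-/

namespace LieP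

noncomputable section

open Classical

open ParkerGL (QM Qg cl dcf FixedField)

variable {Ω : Type} [Field Ω] [IsAlgClosed Ω] [CharZero Ω] {c : Parker.Ctx Ω}
  {Γ : Subgroup (RingAut Ω)} {K : Type} [Field K] [CharZero K] [Algebra K Ω]
  {G E : Type} [Group G] [Finite G] [NormedAddCommGroup E] [InnerProductSpace ℝ E]
  [FiniteDimensional ℝ E] {S : LieSys G E}

theorem tt_all (hK : FixedField Γ K) (hO : Parker.Ok c 1 Γ) (h2 : c.av 2 < 1)
    (hts : ∀ S' : LieSys G E, TS (Ω := Ω) S' c) {N : ℕ} {ζ : Ω}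
    (hζ : IsPrimitiveRoot ζ (2 ^ N - 1)) (hζf : Parker.Fx Γ ζ) (hN : Module.finrank ℝ E < N) {k r : ℕ}
    (hr : Odd r) (hΓ : ∀ σ ∈ Γ, ∀ z : Ω, z ^ (3 * r) = 1 → σ z = z) (S : LieSys G E)
    (hG : Nat.card S.H ∣ 2 ^ k * r) (hF : ∀ y, ∀ φ ∈ ir Ω (S.L y), ∀ g, Parker.Fx Γ (φ g)) :
    TT S c Γ K := by
  obtain ⟨m, hm⟩ : ∃ m, Nat.card S.H = m := ⟨_, rfl⟩
  induction m using Nat.strong_induction_on generalizing S with
  | _ m ih =>
    have hIH : ∀ y, nz S y → TT (lev S y) c Γ K := by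
      intro y hy
      have h1 : Nat.card (S.L y) < Nat.card S.H := card_lt S hy
      have h2 : (lev S y).H = S.L y := rfl
      refine ih (Nat.card (lev S y).H) (by rw [h2, ← hm]; exact h1) (lev S y) ?_ ?_ rfl
      · rw [h2]
        exact (Subgroup.card_dvd_of_le (S.LH y)).trans hG
      · intro y'
        rw [lev_L_cm]
        exact hF _
    have hFH : ∀ φ ∈ ir Ω S.H, ∀ g, Parker.Fx Γ (φ g) := by
      have h := hF 0
      rw [S.s3] at h
      exact h
    have hii := tt_ii hK hO hts hF hIH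
    exact ⟨tt_i hK hO h2 hts hF hFH hIH hii hζ hζf hN, hii⟩

end

end LieP
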