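import Pool.Agent.LieP.Z01
import Pool.Agent.LieP.K19
import Pool.Agent.LieP.B10
import Pool.Agent.LieP.Q05
import Pool.Agent.Parker.N01
import Pool.Agent.ParkerGL.E02
import Pool.Agent.ParkerGL.E03

/-!
# MP_6c3636_al, LieP, module Z02: property (A) (section 14) (helper7)

Section 14. (B): `op_propB` (ParkerGL E03). (A): let `Γ` with `Ok c 1 Γ`, `ρ` irreducible orthogonal of even degree with fixed character, `s` skew with fixed coefficients. `Nat.card S.H = 2^k * r₀`, `r₀` odd; `N = finrank ℝ E + 1`, `r = 3 * r₀ * (2^N - 1)`, odd. `Γ' = {σ ∈ Γ : σ z = z for all z with z ^ r = 1}`; `Ok c 1 Γ'`. By `Parker.sqV_unram` (N01) it is enough to prove `SqV c Γ' (c.av (det (act ρ s)))`.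
`K` with `FixedField Γ' K`: `ParkerGL.exists_fixedField` (E02). `hF`: `ParkerGL.op_fixed` for the group `S.L y` (its elements satisfy `x ^ (2^k * r₀) = 1`), applied to a representation with the character (`ir_rep`). `ts_all` (K19, with `h2`), `tt_all` (Z01) with a primitive `(2^N-1)`-th root of unity `ζ`. Let `s₀` be the generic rational skew element for the group `S.H` (`exists_generic`, ParkerGL D11).
`realise_orth` (B10) gives `M : QM K S.H` with character `m ρ.character`, `m` odd. `TT.i` for `φ = xt S.H ρ.character` (real by `Parker.sd_of_orth`): `M.dc = 1`. `dc_formula` (ParkerGL D02): `M.dc = cl (detc ρ.character s₀) ^ m = cl (detc ..)` (order two: `detc_fixed`, `cl_sq`). So `SqV c Γ' (c.av (det (act ρ s₀)))` (`cl_eq_one`, `Parker.detc` is the determinant for every representation with this character), `ρ` is good (`GoodV`, form `B`, `T = act ρ s₀`, `skew_of_skew`), and `Parker.sqV_of_good` gives the claim for `s`.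
-/

namespace LieP

noncomputable section

open Classical

open ParkerGL (QM Qg cl dcf FixedField)

variable {Ω : Type} [Field Ω] [IsAlgClosed Ω] [CharZero Ω] {c : Parker.Ctx Ω}
  {Γ : Subgroup (RingAut Ω)} {K : Type} [Field K] [CharZero K] [Algebra K Ω]
  {G E : Type} [Group G] [Finite G] [NormedAddCommGroup E] [InnerProductSpace ℝ E]
  [FiniteDimensional ℝ E] {S : LieSys G E}

namespace Z02_aux

/-- the elements of `Γ` which fix the `R`-th roots of unity -/
def fixR (Γ : Subgroup (RingAut Ω)) (R : ℕ) : Subgroup (RingAut Ω) where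
  carrier := {σ | σ ∈ Γ ∧ ∀ z : Ω, z ^ R = 1 → σ z = z}
  mul_mem' := by
    rintro σ τ ⟨h1, h2⟩ ⟨h3, h4⟩
    refine ⟨Γ.mul_mem h1 h3, fun z hz => ?_⟩
    rw [RingAut.mul_apply, h4 z hz, h2 z hz]
  one_mem' := ⟨Γ.one_mem, fun z _ => rfl⟩
  inv_mem' := by
    rintro σ ⟨h1, h2⟩
    refine ⟨Γ.inv_mem h1, fun z hz => ?_⟩
    have h3 : σ⁻¹ (σ z) = z := by
      rw [← RingAut.mul_apply, inv_mul_cancel, RingAut.one_apply]
    rw [h2 z hz] at h3
    exact h3

theorem dg_xt {H : Subgroup G} {n : ℕ} (ρ : Representation Ω H (Fin n → Ω)) :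
    Parker.dg (xt H ρ.character) = n := by
  have h0 : xt H ρ.character 1 = (n : Ω) := by
    rw [xt_apply _ H.one_mem]
    have h1 := Representation.char_one ρ
    rw [Module.finrank_fin_fun] at h1
    exact h1
  have h : ∃ k : ℕ, (k : Ω) = xt H ρ.character 1 := ⟨n, h0.symm⟩
  have h1 : (Parker.dg (xt H ρ.character) : Ω) = xt H ρ.character 1 := by
    unfold Parker.dg
    rw [dif_pos h]
    exact h.choose_spec
  rw [h0] at h1
  exact_mod_cast h1

theorem good {H : Type} [Group H] [Finite H] {n : ℕ} {ρ : Representation Ω H (Fin n → Ω)}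
    (hρ : ρ.IsIrreducible) (he : Even n) (hO : Parker.Orth ρ) (hF : Parker.FxC Γ ρ)
    (hK : FixedField Γ K) (M : QM K H) {m : ℕ} (hm : Odd m)
    (hM : ∀ g, M.ch Ω g = m * ρ.character g) (h1 : M.dc c Γ = 1) : Parker.GoodV c Γ ρ := by
  obtain ⟨s, hs, hgen⟩ := ParkerGL.exists_generic Ω H
  have hmem : ρ.character ∈ Parker.irr Ω H := Parker.mem_irr.2 (Parker.mem_irrSet hρ)
  have hdet : Parker.detc ρ.character (fun g => (s g : Ω)) ≠ 0 := by
    refine hgen _ hmem fun h => ?_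
    rw [Parker.dg_char, Module.finrank_fin_fun] at h
    exact (Nat.not_even_iff_odd.2 h.2) he
  have hip : ∀ φ ∈ Parker.irr Ω H, Parker.ip (M.ch Ω) φ = if φ = ρ.character then (m : Ω) else 0 := by
    intro φ hφ
    have h2 : M.ch Ω = (m : Ω) • ρ.character := funext fun g => hM g
    rw [h2, Parker.ip_smul_left, Parker.ip_irr hmem hφ]
    by_cases h3 : φ = ρ.character
    · rw [if_pos h3, if_pos h3.symm, mul_one]
    · rw [if_neg h3, if_neg (fun h => h3 h.symm), mul_zero]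
  have hmul : ∀ φ ∈ Parker.irr Ω H, Parker.mul (M.ch Ω) φ = if φ = ρ.character then m else 0 := by
    intro φ hφ
    have h2 : ∃ k : ℕ, (k : Ω) = Parker.ip (M.ch Ω) φ := by
      rw [hip φ hφ]
      by_cases h3 : φ = ρ.character
      · exact ⟨m, by rw [if_pos h3]⟩
      · exact ⟨0, by rw [if_neg h3, Nat.cast_zero]⟩
    have h3 : (Parker.mul (M.ch Ω) φ : Ω) = Parker.ip (M.ch Ω) φ := by
      unfold Parker.mul
      rw [dif_pos h2]
      exact h2.choose_spec
    rw [hip φ hφ] at h3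
    by_cases h4 : φ = ρ.character
    · rw [if_pos h4] at h3 ⊢
      exact_mod_cast h3
    · rw [if_neg h4] at h3 ⊢
      exact_mod_cast h3
  have hdc := ParkerGL.dc_formula (c := c) hK M hs (fun φ hφ h0 => by
    rw [hmul φ hφ] at h0
    by_cases h4 : φ = ρ.character
    · rw [h4]
      exact hdet
    · rw [if_neg h4] at h0
      exact absurd rfl h0)
  rw [h1, Finset.prod_eq_single ρ.character] at hdc
  · rw [hmul _ hmem, if_pos rfl] at hdc
    have hsq := ParkerGL.cl_sq (c := c) (ParkerGL.detc_fixed hmem hF s)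
    obtain ⟨k, hk⟩ := hm
    rw [hk, pow_add, pow_mul, pow_one, pow_two, hsq, one_pow, one_mul] at hdc
    have hsqv := (ParkerGL.cl_eq_one hdet).1 hdc.symm
    rw [Parker.detc_char hρ] at hsqv hdet
    obtain ⟨B, hB⟩ := hO
    refine ⟨B, hB, _, ⟨fun g => (s g : Ω), fun g σ _ => map_ratCast σ (s g), rfl⟩,
      Parker.skew_of_skew hB fun g => ?_, hdet, hsqv⟩
    rw [hs g, Rat.cast_neg]
  · intro φ hφ hne
    rw [hmul φ hφ, if_neg hne, pow_zero]
  · intro h
    exact absurd hmem h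

end Z02_aux

theorem lie_propB (S : LieSys G E) (hOP : ParkerGL.OP S.H) (c : Parker.Ctx Ω) :
    Parker.PropB c 1 S.H := ParkerGL.op_propB hOP c

theorem lie_propA (S : LieSys G E) (hOP : ∀ y, ParkerGL.OP (S.L y)) (c : Parker.Ctx Ω) (h2 : c.av 2 < 1) :
    Parker.PropA c 1 S.H := by
  intro Γ hΓ n ρ hρ he hO hF s hs hk hd
  obtain ⟨k, r, hr, hc⟩ := Nat.exists_eq_two_pow_mul_odd (n := Nat.card S.H) Nat.card_pos.ne'
  set N := Module.finrank ℝ E + 1 with hN
  have hN0 : 2 ^ N - 1 ≠ 0 := by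
    have h1 : 2 ^ 1 ≤ 2 ^ N := Nat.pow_le_pow_right (by decide) (by omega)
    omega
  have hNo : Odd (2 ^ N - 1) := by
    have h1 : Even (2 ^ N) := (Nat.even_pow.2 ⟨even_two, by omega⟩)
    exact Nat.Even.sub_odd Nat.one_le_two_pow h1 odd_one
  have hR : Odd (3 * r * (2 ^ N - 1)) := (Odd.mul (by decide) hr).mul hNo
  refine Parker.sqV_unram (Γ' := Z02_aux.fixR Γ (3 * r * (2 ^ N - 1))) hΓ.pres hR
    (fun σ h1 h2 => ⟨h1, h2⟩) ?_
  have hle : Z02_aux.fixR Γ (3 * r * (2 ^ N - 1)) ≤ Γ := fun σ h => h.1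
  have hΓ' := Parker.ok_mono hΓ hle
  have hF' : Parker.FxC (Z02_aux.fixR Γ (3 * r * (2 ^ N - 1))) ρ := fun g σ h => hF g σ h.1
  have hs' : ∀ g, Parker.Fx (Z02_aux.fixR Γ (3 * r * (2 ^ N - 1))) (s g) := fun g σ h => hs g σ h.1
  have h3r : ∀ σ ∈ Z02_aux.fixR Γ (3 * r * (2 ^ N - 1)), ∀ z : Ω, z ^ (3 * r) = 1 → σ z = z := by
    intro σ h z hz
    refine h.2 z ?_
    rw [pow_mul, hz, one_pow]
  have hr1 : ∀ σ ∈ Z02_aux.fixR Γ (3 * r * (2 ^ N - 1)), ∀ z : Ω, z ^ r = 1 → σ z = z := by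
    intro σ h z hz
    refine h3r σ h z ?_
    rw [mul_comm, pow_mul, hz, one_pow]
  obtain ⟨K, _, _, _, hK⟩ := ParkerGL.exists_fixedField (Z02_aux.fixR Γ (3 * r * (2 ^ N - 1)))
  have : NeZero (2 ^ N - 1) := ⟨hN0⟩
  have : NeZero (((2 ^ N - 1 : ℕ)) : Ω) := ⟨Nat.cast_ne_zero.2 hN0⟩
  obtain ⟨ζ, hζ⟩ := HasEnoughRootsOfUnity.exists_primitiveRoot Ω (2 ^ N - 1)
  have hζf : Parker.Fx (Z02_aux.fixR Γ (3 * r * (2 ^ N - 1))) ζ := by
    intro σ h
    refine h.2 ζ ?_
    rw [mul_comm, pow_mul, hζ.pow_eq_one, one_pow]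
  have hFF : ∀ y, ∀ φ ∈ ir Ω (S.L y), ∀ g,
      Parker.Fx (Z02_aux.fixR Γ (3 * r * (2 ^ N - 1))) (φ g) := by
    intro y φ hφ g σ hσ
    obtain ⟨n', τ, _, hτ, _, _, _⟩ := ir_rep hφ
    rw [hτ]
    by_cases hg : g ∈ S.L y
    · rw [xt_apply _ hg]
      refine ParkerGL.op_fixed (hOP y) (k := k) (r := r) (fun x => ?_) hr τ (hr1 σ hσ) _
      have h1 : (⟨(x : G), S.LH y x.2⟩ : S.H) ^ (2 ^ k * r) = 1 := by
        rw [← hc]
        exact pow_card_eq_one'
      have h2 := congrArg (Subtype.val : S.H → G) h1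
      exact Subtype.ext h2
    · have h1 : xt (S.L y) τ.character g = 0 := dif_neg hg
      rw [h1, map_zero]
  have hTT := tt_all hK hΓ' h2 (fun S' => ts_all (Ω := Ω) h2 S') hζ hζf (by omega) hr h3r S
    (by rw [hc]) hFF
  obtain ⟨m, M, hm, hM⟩ := realise_orth hK hr hc h3r hρ hF' hO
  have hdc := hTT.i (xt S.H ρ.character) (rep_ir hρ) (by
    intro g
    by_cases hg : g ∈ S.H
    · rw [xt_apply _ hg, xt_apply _ (S.H.inv_mem hg)]
      exact Parker.sd_of_orth hO ⟨g, hg⟩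
    · have h1 : xt S.H ρ.character g = 0 := dif_neg hg
      have h2 : xt S.H ρ.character g⁻¹ = 0 := dif_neg fun h => hg (by simpa using S.H.inv_mem h)
      rw [h1, h2]) (by rw [Z02_aux.dg_xt]; exact he) M m hm (fun g => by
      rw [hM g, xt_apply _ g.2])
  exact Parker.sqV_of_good hρ hF' (Z02_aux.good hρ he hO hF' hK M hm hM hdc) hs' hk hd

end

end LieP
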